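import Mathlib

namespace Pool.Agent.H14.AccMatch

open Finset

abbrev W := Option (Fin 3 × Fin 5)

def blob (j j' : Fin 5) : Bool :=
  ((j' == j + 1 || j' == j + 2 || j' == j + 3) && !(j == 0 && j' == 1) && !(j == 2 && j' == 0)) ||
    (j == 2 && j' == 1)

def D0 : W → W → Bool
  | none, none => false
  | none, some p => p.2 == 0
  | some p, none => p.2 == 0
  | some p, some q => p.1 == q.1 && blob p.2 q.2

abbrev V (k : ℕ) := W ⊕ (Fin k × Fin 4)

def D (k : ℕ) : V k → V k → Prop
  | Sum.inl a, Sum.inl b => D0 a b = true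
  | Sum.inr a, Sum.inr b => a.1 = b.1 ∧ a.2 ≠ b.2
  | _, _ => False

lemma irrefl (k : ℕ) (a : V k) : ¬ D k a a := by
  rcases a with a | a
  · simp only [D]
    revert a
    decide
  · simp [D]

lemma blk (k : ℕ) (a : Fin k × Fin 4) :
    (Sum.inr '' {b : Fin k × Fin 4 | a.1 = b.1 ∧ a.2 ≠ b.2} : Set (V k)).ncard = 3 := by
  rw [Set.ncard_image_of_injective _ Sum.inr_injective]
  have : {b : Fin k × Fin 4 | a.1 = b.1 ∧ a.2 ≠ b.2} =
      (fun j => (a.1, j)) '' ((univ.erase a.2 : Finset (Fin 4)) : Set (Fin 4)) := by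
    ext ⟨i, j⟩
    simp only [Set.mem_ofPred_eq, coe_erase, coe_univ, Set.mem_image, Set.mem_sdiff, Set.mem_univ,
      Set.mem_singleton_iff, true_and, Prod.mk.injEq]
    constructor
    · rintro ⟨h1, h2⟩
      exact ⟨j, fun h => h2 h.symm, h1, rfl⟩
    · rintro ⟨x, h1, h2, rfl⟩
      exact ⟨h2, fun h => h1 h.symm⟩
  rw [this, Set.ncard_image_of_injective _ (fun x y h => (Prod.ext_iff.1 h).2),
    Set.ncard_coe_finset]
  simp

lemma outdeg (k : ℕ) (a : V k) : {b | D k a b}.ncard = 3 := by
  rcases a with a | a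
  · have : {b | D k (Sum.inl a) b} =
        Sum.inl '' ((univ.filter fun b => D0 a b = true : Finset W) : Set W) := by
      ext (b | b) <;> simp [D]
    rw [this, Set.ncard_image_of_injective _ Sum.inl_injective, Set.ncard_coe_finset]
    clear this
    revert a
    decide
  · rw [← blk k a]
    congr 1
    ext (b | b) <;> simp [D]

lemma indeg (k : ℕ) (b : V k) : {a | D k a b}.ncard = 3 := by
  rcases b with b | b
  · have : {a | D k a (Sum.inl b)} =
        Sum.inl '' ((univ.filter fun a => D0 a b = true : Finset W) : Set W) := by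
      ext (a | a) <;> simp [D]
    rw [this, Set.ncard_image_of_injective _ Sum.inl_injective, Set.ncard_coe_finset]
    clear this
    revert b
    decide
  · rw [← blk k b]
    congr 1
    ext (a | a)
    · simp [D]
    · simp only [D, Set.mem_ofPred_eq, Set.mem_image, Sum.inr.injEq, exists_eq_right]
      exact ⟨fun h => ⟨h.1.symm, h.2.symm⟩, fun h => ⟨h.1.symm, h.2.symm⟩⟩

lemma digon (k : ℕ) (σ : V k → V k) (hσ : Function.Injective σ) (h : ∀ a, D k a (σ a)) :
    σ (σ (Sum.inl none)) = Sum.inl none := by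
  classical
  by_contra hne
  have h0 := h (Sum.inl none)
  obtain ⟨i, hi⟩ : ∃ i : Fin 3, σ (Sum.inl none) = Sum.inl (some (i, 0)) := by
    rcases hx : σ (Sum.inl none) with ((_ | ⟨i, j⟩) | x)
    · rw [hx] at h0
      simp [D, D0] at h0
    · rw [hx] at h0
      simp only [D, D0, beq_iff_eq] at h0
      exact ⟨i, by rw [h0]⟩
    · rw [hx] at h0
      simp [D] at h0
  let S : Finset (V k) := univ.image fun j : Fin 5 => Sum.inl (some (i, j))
  have hS : S.card = 5 := by
    rw [card_image_of_injective]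
    · simp
    · intro a b hab
      simpa using hab
  have hc : (Sum.inl none : V k) ∉ S := by simp [S]
  have := card_le_card_of_injOn σ (s := insert (Sum.inl none) S) (t := S) (by
    intro v hv
    rcases mem_insert.1 (mem_coe.1 hv) with rfl | hv
    · rw [hi]
      exact mem_coe.2 (mem_image.2 ⟨0, mem_univ _, rfl⟩)
    · obtain ⟨j, _, rfl⟩ := mem_image.1 hv
      have h1 := h (Sum.inl (some (i, j)))
      rcases hx : σ (Sum.inl (some (i, j))) with ((_ | ⟨i', j'⟩) | x)
      · rw [hx] at h1
        simp only [D, D0, beq_iff_eq] at h1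
        subst h1
        rw [hi] at hne
        exact absurd hx hne
      · rw [hx] at h1
        simp only [D, D0, Bool.and_eq_true, beq_iff_eq] at h1
        rw [← h1.1]
        exact mem_coe.2 (mem_image.2 ⟨j', mem_univ _, rfl⟩)
      · rw [hx] at h1
        simp [D] at h1) hσ.injOn
  rw [card_insert_of_notMem hc] at this
  omega

theorem main (k : ℕ) : ∃ G H : Fin (16 + k * 4) → Fin (16 + k * 4) → Prop,
    (∀ a, {b | G a b}.ncard = 3) ∧ (∀ b, {a | G a b}.ncard = 3) ∧
    (∀ a, {b | H a b}.ncard = 1) ∧ (∀ b, {a | H a b}.ncard = 1) ∧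
    (∀ a b, ¬ (G a b ∧ H a b)) ∧
    ∀ M : Fin (16 + k * 4) ≃ Fin (16 + k * 4), (∀ a, G a (M a)) →
      ∃ a a', a ≠ a' ∧ H a (M a') ∧ H a' (M a) := by
  let e : Fin (16 + k * 4) ≃ V k := Fintype.equivOfCardEq (by simp)
  refine ⟨fun a b => D k (e a) (e b), fun a b => a = b, ?_, ?_, ?_, ?_, ?_, ?_⟩
  · intro a
    rw [← outdeg k (e a)]
    exact Set.ncard_congr' (e.subtypeEquiv fun _ => Iff.rfl)
  · intro a
    rw [← indeg k (e a)]
    exact Set.ncard_congr' (e.subtypeEquiv fun _ => Iff.rfl)
  · intro a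
    simp
  · intro a
    simp
  · rintro a b ⟨h, rfl⟩
    exact irrefl k _ h
  · intro M hM
    have h1 := digon k (fun v => e (M (e.symm v)))
      (e.injective.comp (M.injective.comp e.symm.injective)) (fun v => by simpa using hM (e.symm v))
    simp only [Equiv.symm_apply_apply] at h1
    refine ⟨e.symm (Sum.inl none), M (e.symm (Sum.inl none)), ?_, ?_, rfl⟩
    · intro h
      have h2 := hM (e.symm (Sum.inl none))
      rw [← h] at h2
      exact irrefl k _ h2
    · exact (e.symm_apply_eq).2 h1.symm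

end Pool.Agent.H14.AccMatch
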