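import Mathlib

set_option autoImplicit false

namespace Pool.Agent.H14.Alb

open Finset

/-- weighted count of injective tuples with values in `s` -/
def A {α : Type} [DecidableEq α] [Fintype α] (w : α → ℕ) (j : ℕ) (s : Finset α) : ℕ :=
  ∑ f ∈ (univ : Finset (Fin j → α)).filter (fun f => Function.Injective f ∧ ∀ t, f t ∈ s),
    ∏ t, w (f t)

lemma A_succ {α : Type} [DecidableEq α] [Fintype α] (w : α → ℕ) (j : ℕ) (s : Finset α) :
    ∑ x ∈ s, w x * A w j (s.erase x) ≤ A w (j + 1) s := by
  unfold A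
  simp only [mul_sum]
  rw [sum_sigma']
  have hinj : Set.InjOn (fun p : (Σ _ : α, (Fin j → α)) => (Fin.cons p.1 p.2 : Fin (j + 1) → α))
      ↑(s.sigma fun x => (univ : Finset (Fin j → α)).filter
        (fun f => Function.Injective f ∧ ∀ t, f t ∈ s.erase x)) := by
    rintro ⟨x, f⟩ _ ⟨y, g⟩ _ h
    have h1 := Fin.cons_injective2 h
    simp only at h1
    obtain ⟨rfl, rfl⟩ := h1
    rfl
  have h2 := sum_image (f := fun f : Fin (j + 1) → α => ∏ t, w (f t)) hinj
  simp only [Fin.prod_univ_succ, Fin.cons_zero, Fin.cons_succ] at h2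
  rw [← h2]
  simp only [Fin.prod_univ_succ]
  refine sum_le_sum_of_subset ?_
  intro f hf
  simp only [mem_image, mem_sigma, mem_filter, mem_univ, true_and] at hf ⊢
  obtain ⟨⟨x, g⟩, ⟨hx, hg, hgs⟩, rfl⟩ := hf
  refine ⟨?_, ?_⟩
  · rw [Fin.cons_injective_iff]
    refine ⟨?_, hg⟩
    rintro ⟨t, ht⟩
    have := hgs t
    simp only at ht this
    rw [ht] at this
    simp at this
  · intro t
    refine Fin.cases ?_ (fun t => ?_) t
    · simpa using hx
    · simpa using mem_of_mem_erase (hgs t)

lemma A_ge {α : Type} [DecidableEq α] [Fintype α] (w : α → ℕ) (T : ℕ) (hw : ∀ x, w x ≤ T)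
    (j : ℕ) : ∀ s : Finset α, (∑ x ∈ s, w x - j * T) ^ j ≤ A w j s := by
  induction j with
  | zero => intro s; simp [A, Function.injective_of_subsingleton]
  | succ j ih =>
    intro s
    refine le_trans ?_ (A_succ w j s)
    have h1 : ∀ x ∈ s, w x * (∑ x ∈ s, w x - (j + 1) * T) ^ j ≤ w x * A w j (s.erase x) := by
      intro x hx
      refine Nat.mul_le_mul_left _ (le_trans (Nat.pow_le_pow_left ?_ _) (ih _))
      have h2 := add_sum_erase s w hx
      have h3 := hw x
      have : (j + 1) * T = j * T + T := by ring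
      omega
    refine le_trans ?_ (sum_le_sum h1)
    rw [← sum_mul, pow_succ']
    exact Nat.mul_le_mul_right _ (Nat.sub_le _ _)

lemma count_fix {n j : ℕ} (f g : Fin j → Fin n) (hf : Function.Injective f) :
    (univ.filter fun π : Equiv.Perm (Fin n) => ∀ t, π (f t) = g t).card ≤ (n - j).factorial := by
  by_cases hne : (univ.filter fun π : Equiv.Perm (Fin n) => ∀ t, π (f t) = g t).Nonempty
  · obtain ⟨π0, h0⟩ := hne
    have h0' := (mem_filter.1 h0).2
    have hc : Fintype.card {x : Fin n // x ∉ Set.range f} = n - j := by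
      rw [Fintype.card_subtype_compl, Fintype.card_fin]
      congr 1
      have := Set.card_range_of_injective hf
      rw [Fintype.card_fin] at this
      convert this
    rw [← hc, ← Fintype.card_perm, ← card_univ]
    have key : ∀ π ∈ (univ.filter fun π : Equiv.Perm (Fin n) => ∀ t, π (f t) = g t),
        ∀ a, ¬ (a ∉ Set.range f) → (π0⁻¹ * π) a = a := by
      intro π hπ a ha
      obtain ⟨t, rfl⟩ := not_not.1 ha
      have h1 := (mem_filter.1 hπ).2 t
      simp [h1, ← h0' t]
    refine card_le_card_of_injOn (fun π => if h : ∀ a, ¬ (a ∉ Set.range f) → (π0⁻¹ * π) a = a then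
      (Equiv.Perm.subtypeEquivSubtypePerm (fun a => a ∉ Set.range f)).symm ⟨π0⁻¹ * π, h⟩ else 1)
      (fun _ _ => by simp) ?_
    intro a ha b hb hab
    simp only [dif_pos (key a ha), dif_pos (key b hb)] at hab
    have h2 := (Equiv.injective _) hab
    simpa using h2
  · rw [not_nonempty_iff_eq_empty.1 hne]
    simp

/-- moment tail bound -/
lemma tail {n : ℕ} (w : Fin n → Fin n → ℕ) (T : ℕ) (hw : ∀ x y, w x y ≤ T) (j k : ℕ) :
    (univ.filter fun π : Equiv.Perm (Fin n) => k ≤ ∑ i, w i (π i)).card * (k - j * T) ^ j ≤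
      (n - j).factorial * (∑ x, ∑ y, w x y) ^ j := by
  have h1 : (univ.filter fun π : Equiv.Perm (Fin n) => k ≤ ∑ i, w i (π i)).card * (k - j * T) ^ j ≤
      ∑ π : Equiv.Perm (Fin n), A (fun i => w i (π i)) j univ := by
    rw [card_eq_sum_ones, sum_mul]
    refine le_trans (sum_le_sum fun π hπ => ?_) (sum_le_sum_of_subset (filter_subset _ _))
    rw [one_mul]
    refine le_trans (Nat.pow_le_pow_left ?_ _) (A_ge _ T (fun x => hw x _) j univ)
    have := (mem_filter.1 hπ).2
    omega
  refine h1.trans ?_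
  unfold A
  rw [sum_comm]
  have h2 : ∀ f ∈ (univ : Finset (Fin j → Fin n)).filter
      (fun f => Function.Injective f ∧ ∀ t, f t ∈ (univ : Finset (Fin n))),
      ∑ π : Equiv.Perm (Fin n), ∏ t, w (f t) (π (f t)) ≤
        (n - j).factorial * ∑ g : Fin j → Fin n, ∏ t, w (f t) (g t) := by
    intro f hf
    have hf' := (mem_filter.1 hf).2.1
    rw [← sum_fiberwise (s := univ) (g := fun π : Equiv.Perm (Fin n) => fun t => π (f t)), mul_sum]
    refine sum_le_sum fun g _ => ?_
    have h3 : ∀ π ∈ (univ.filter fun π : Equiv.Perm (Fin n) => (fun t => π (f t)) = g),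
        ∏ t, w (f t) (π (f t)) = ∏ t, w (f t) (g t) := by
      intro π hπ
      have := (mem_filter.1 hπ).2
      rw [← this]
    rw [sum_congr rfl h3, sum_const, smul_eq_mul]
    refine Nat.mul_le_mul_right _ (le_trans (card_le_card ?_) (count_fix f g hf'))
    intro π hπ
    simp only [mem_filter, mem_univ, true_and] at hπ ⊢
    intro t
    exact congrFun hπ t
  refine (sum_le_sum h2).trans ?_
  rw [← mul_sum]
  refine Nat.mul_le_mul_left _ ?_
  refine (sum_le_sum_of_subset (filter_subset _ _)).trans (le_of_eq ?_)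
  have h4 : ∀ f : Fin j → Fin n, ∑ g : Fin j → Fin n, ∏ t, w (f t) (g t) =
      ∏ t, ∑ y, w (f t) y := by
    intro f
    rw [prod_univ_sum]
    simp
  simp only [h4]
  have h5 := prod_univ_sum (fun _ : Fin j => (univ : Finset (Fin n)))
    (fun (_ : Fin j) (x : Fin n) => ∑ y, w x y)
  simp only [Fintype.piFinset_univ, prod_const, card_univ, Fintype.card_fin] at h5
  exact h5.symm

end Pool.Agent.H14.Alb
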