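import Pool.Agent.H14.Alb1

set_option autoImplicit false

namespace Pool.Agent.H14.Alb

open Finset

/-- cell weight -/
def cw {G : ℕ} (h : Fin (G + 1) → Fin (G + 1)) (a b : Fin G) : ℕ :=
  if (b : ℕ) + 1 < h a.castSucc then 0 else 60 - ((b : ℕ) + 1 - h a.succ)

lemma cw_le {G : ℕ} (h : Fin (G + 1) → Fin (G + 1)) (a b : Fin G) : cw h a b ≤ 60 := by
  unfold cw
  split_ifs <;> omega

lemma col_bound (G x y : ℕ) (hxy : x ≤ y) :
    ∑ b ∈ range G, (if b + 1 < x then 0 else 60 - (b + 1 - y)) ≤ 60 * (y - x) + 1830 := by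
  have h1 : ∑ b ∈ range G, (if b + 1 < x then 0 else 60 - (b + 1 - y)) ≤
      ∑ b ∈ range (y + (60 + G)), (if b + 1 < x then 0 else 60 - (b + 1 - y)) :=
    sum_le_sum_of_subset (range_subset_range.2 (by omega))
  refine h1.trans ?_
  rw [sum_range_add, sum_range_add]
  have h2 : ∑ b ∈ range y, (if b + 1 < x then 0 else 60 - (b + 1 - y)) ≤ 60 * (y - x + 1) := by
    have h3 : ∀ b ∈ range y, (if b + 1 < x then 0 else 60 - (b + 1 - y)) ≤
        if b ∈ Ico (x - 1) y then 60 else 0 := by
      intro b hb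
      have := mem_range.1 hb
      simp only [mem_Ico]
      split_ifs <;> omega
    refine (sum_le_sum h3).trans ?_
    rw [← sum_filter, sum_const, smul_eq_mul, mul_comm]
    refine Nat.mul_le_mul_left _ ?_
    have : (filter (fun b => b ∈ Ico (x - 1) y) (range y)).card ≤ (Ico (x - 1) y).card :=
      card_le_card fun b hb => (mem_filter.1 hb).2
    rw [Nat.card_Ico] at this
    omega
  have h4 : ∑ d ∈ range 60, (if y + d + 1 < x then 0 else 60 - (y + d + 1 - y)) ≤ 1770 := by
    have h5 : ∀ d ∈ range 60, (if y + d + 1 < x then 0 else 60 - (y + d + 1 - y)) ≤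
        60 - (d + 1) := by
      intro d _
      split_ifs <;> omega
    exact (sum_le_sum h5).trans (by decide)
  have h6 : ∑ d ∈ range G, (if y + (60 + d) + 1 < x then 0 else 60 - (y + (60 + d) + 1 - y)) = 0 := by
    refine sum_eq_zero fun d _ => ?_
    split_ifs <;> omega
  omega

lemma tele {G : ℕ} (h : Fin (G + 1) → Fin (G + 1)) (hm : Monotone h) :
    ∑ a : Fin G, ((h a.succ : ℕ) - h a.castSucc) ≤ G := by
  have h1 := Fin.sum_univ_succ (fun a => (h a : ℕ))
  have h2 := Fin.sum_univ_castSucc (fun a => (h a : ℕ))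
  have h3 : ∑ a : Fin G, ((h a.succ : ℕ) - h a.castSucc) + ∑ a : Fin G, (h a.castSucc : ℕ) =
      ∑ a : Fin G, (h a.succ : ℕ) := by
    rw [← sum_add_distrib]
    refine sum_congr rfl fun a _ => ?_
    have : h a.castSucc ≤ h a.succ := hm (Fin.castSucc_lt_succ).le
    have : (h a.castSucc : ℕ) ≤ h a.succ := this
    omega
  have := (h (Fin.last G)).2
  omega

lemma cw_total {G : ℕ} (h : Fin (G + 1) → Fin (G + 1)) (hm : Monotone h) :
    ∑ a, ∑ b, cw h a b ≤ 1890 * G := by
  have h1 : ∀ a : Fin G, ∑ b, cw h a b ≤ 60 * ((h a.succ : ℕ) - h a.castSucc) + 1830 := by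
    intro a
    have h2 : h a.castSucc ≤ h a.succ := hm (Fin.castSucc_lt_succ).le
    refine le_trans (le_of_eq ?_) (col_bound G _ _ h2)
    unfold cw
    exact Fin.sum_univ_eq_sum_range
      (fun b => if b + 1 < (h a.castSucc : ℕ) then 0 else 60 - (b + 1 - (h a.succ : ℕ))) G
  refine (sum_le_sum fun a _ => h1 a).trans ?_
  rw [sum_add_distrib, ← mul_sum]
  have := tele h hm
  simp only [sum_const, card_univ, Fintype.card_fin, smul_eq_mul]
  omega

lemma fib_sum {n G u : ℕ} (c : Fin n → Fin G) (hc : ∀ a, (univ.filter fun i => c i = a).card ≤ u)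
    (F : Fin G → ℕ) : ∑ x, F (c x) ≤ u * ∑ a, F a := by
  rw [← sum_fiberwise (s := univ) (g := c), mul_sum]
  refine sum_le_sum fun a _ => ?_
  have : ∀ x ∈ univ.filter (fun i => c i = a), F (c x) = F a := by
    intro x hx
    rw [(mem_filter.1 hx).2]
  rw [sum_congr rfl this, sum_const, smul_eq_mul]
  exact Nat.mul_le_mul_right _ (hc a)

lemma pos_total {n G u : ℕ} (c : Fin n → Fin G) (hc : ∀ a, (univ.filter fun i => c i = a).card ≤ u)
    (h : Fin (G + 1) → Fin (G + 1)) (hm : Monotone h) :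
    ∑ x, ∑ y, cw h (c x) (c y) ≤ u * u * (1890 * G) := by
  have h1 := fib_sum c hc (fun a => ∑ y, cw h a (c y))
  refine h1.trans ?_
  rw [mul_assoc]
  refine Nat.mul_le_mul_left _ ?_
  refine (sum_le_sum fun a _ => fib_sum c hc (fun b => cw h a b)).trans ?_
  rw [← mul_sum]
  exact Nat.mul_le_mul_left _ (cw_total h hm)

lemma card_mono_le (G : ℕ) :
    ((univ : Finset (Fin (G + 1) → Fin (G + 1))).filter Monotone).card ≤ 2 ^ (2 * G + 1) := by
  rw [← card_range (2 * G + 1), ← card_powerset]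
  refine card_le_card_of_injOn (fun h => univ.image fun a : Fin (G + 1) => (a : ℕ) + h a) ?_ ?_
  · intro h _
    simp only [coe_powerset, Set.mem_preimage, Set.mem_powerset_iff, coe_image, coe_univ,
      Set.image_univ, coe_range]
    rintro _ ⟨a, rfl⟩
    have := a.2
    have := (h a).2
    simp only [Set.mem_Iio]
    omega
  · intro h hh h' hh' e
    have sm : ∀ g : Fin (G + 1) → Fin (G + 1), Monotone g →
        StrictMono fun a : Fin (G + 1) => (a : ℕ) + g a := by
      intro g hg a b hab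
      have h1 : (g a : ℕ) ≤ g b := hg hab.le
      have h2 : (a : ℕ) < b := hab
      simp only
      omega
    have h1 := sm h (by simpa using hh)
    have h2 := sm h' (by simpa using hh')
    have h3 := (h1.range_inj h2).1 (by
      have := congrArg (fun s : Finset ℕ => (s : Set ℕ)) e
      simpa using this)
    funext a
    have := congrFun h3 a
    apply Fin.ext
    simpa using this

lemma geom {n G m : ℕ} (c : Fin n → Fin G) (hc : Monotone c) (π : Equiv.Perm (Fin n))
    (S : Finset (Fin n)) (hS : ∀ i ∈ S, (S.filter fun j => j < i ∧ π i < π j).card ≤ m) :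
    ∃ h : Fin (G + 1) → Fin (G + 1), Monotone h ∧
      60 * S.card ≤ ∑ i, cw h (c i) (c (π i)) + m * G := by
  let NW : ℕ → ℕ → ℕ := fun a b => (S.filter fun j => (c j : ℕ) < a ∧ b ≤ c (π j)).card
  have hG : ∀ a, NW a G ≤ m := by
    intro a
    have : (S.filter fun j => (c j : ℕ) < a ∧ G ≤ c (π j)) = ∅ := by
      refine filter_eq_empty_iff.2 fun j _ hj => ?_
      have := (c (π j)).2
      omega
    simp only [NW, this, card_empty, zero_le]
  have hex : ∀ a, ∃ b, NW a b ≤ m := fun a => ⟨G, hG a⟩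
  let hN : ℕ → ℕ := fun a => Nat.find (hex a)
  have hNG : ∀ a, hN a ≤ G := fun a => Nat.find_min' _ (hG a)
  have hspec : ∀ a, NW a (hN a) ≤ m := fun a => Nat.find_spec (hex a)
  have hmono : Monotone hN := by
    intro a a' haa
    refine Nat.find_min' _ (le_trans (card_le_card ?_) (hspec a'))
    intro j hj
    simp only [mem_filter] at hj ⊢
    exact ⟨hj.1, by omega, hj.2.2⟩
  refine ⟨fun a => ⟨hN a, Nat.lt_succ_of_le (hNG a)⟩, fun a b hab => hmono hab, ?_⟩
  have h1 : ∀ i ∈ S, hN (c i) ≤ c (π i) + 1 := by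
    intro i hi
    refine Nat.find_min' _ (le_trans (card_le_card ?_) (hS i hi))
    intro j hj
    simp only [mem_filter] at hj ⊢
    refine ⟨hj.1, ?_, ?_⟩
    · by_contra hcon
      have : (c i : ℕ) ≤ c j := hc (not_lt.1 hcon)
      omega
    · by_contra hcon
      have : (c (π j) : ℕ) ≤ c (π i) := hc (not_lt.1 hcon)
      omega
  have h2 : ∀ i ∈ S, 60 ≤ cw (fun a : Fin (G + 1) => (⟨hN a, Nat.lt_succ_of_le (hNG a)⟩ : Fin (G + 1)))
      (c i) (c (π i)) + ((range G).filter fun b => hN (c i + 1) ≤ b ∧ b ≤ c (π i)).card := by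
    intro i hi
    have h3 := h1 i hi
    have h4 : (Ico (hN (c i + 1)) (c (π i) + 1)).card ≤
        ((range G).filter fun b => hN (c i + 1) ≤ b ∧ b ≤ c (π i)).card := by
      refine card_le_card fun b hb => ?_
      have := (c (π i)).2
      simp only [mem_Ico, mem_filter, mem_range] at hb ⊢
      omega
    rw [Nat.card_Ico] at h4
    simp only [cw, Fin.val_castSucc, Fin.val_succ]
    rw [if_neg (by omega)]
    omega
  have h5 : ∑ i ∈ S, ((range G).filter fun b => hN (c i + 1) ≤ b ∧ b ≤ c (π i)).card ≤ m * G := by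
    simp only [card_filter]
    rw [sum_comm]
    simp only [← card_filter]
    have h6 : ∀ b ∈ range G, (S.filter fun i => hN (c i + 1) ≤ b ∧ b ≤ c (π i)).card ≤ m := by
      intro b _
      by_cases hne : (S.filter fun i => hN (c i + 1) ≤ b ∧ b ≤ c (π i)).Nonempty
      · obtain ⟨i0, hi0, hmax⟩ := exists_max_image _ (fun i => (c i : ℕ)) hne
        refine le_trans (card_le_card ?_) (hspec (c i0 + 1))
        intro j hj
        have := hmax j hj
        simp only [mem_filter] at hj hi0 ⊢
        exact ⟨hj.1, by omega, by omega⟩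
      · rw [not_nonempty_iff_eq_empty.1 hne]
        simp
    refine (sum_le_sum h6).trans ?_
    simp [mul_comm]
  have h7 := sum_le_sum h2
  rw [sum_add_distrib, sum_const, smul_eq_mul] at h7
  have h8 := sum_le_sum_of_subset (f := fun i => cw (fun a : Fin (G + 1) =>
    (⟨hN a, Nat.lt_succ_of_le (hNG a)⟩ : Fin (G + 1))) (c i) (c (π i))) (subset_univ S)
  omega

end Pool.Agent.H14.Alb
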