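import Pool.Agent.H14.Alb2

set_option autoImplicit false

namespace Pool.Agent.H14.Alb

open Finset

lemma num1 (r : ℕ) (hr : 40 ≤ r) : 2 * (r + 1) ^ 2 * 4 ^ (r + 3) ≤ 5 ^ (r + 3) := by
  induction r, hr using Nat.le_induction with
  | base => norm_num
  | succ r hr ih =>
    have h1 : 4 * (r + 1 + 1) ^ 2 ≤ 5 * (r + 1) ^ 2 := by nlinarith
    calc 2 * (r + 1 + 1) ^ 2 * 4 ^ (r + 1 + 3) = 2 * (4 * (r + 1 + 1) ^ 2) * 4 ^ (r + 3) := by ring
      _ ≤ 2 * (5 * (r + 1) ^ 2) * 4 ^ (r + 3) := by gcongr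
      _ = 5 * (2 * (r + 1) ^ 2 * 4 ^ (r + 3)) := by ring
      _ ≤ 5 * 5 ^ (r + 3) := by gcongr
      _ = _ := by ring

lemma num2 (n G B : ℕ) (hG : 0 < G) (hn : 70 * G ≤ n)
    (hB : B * (3140 * G - 7 * G * 60) ^ (7 * G) ≤ (n - 7 * G).factorial * (n * (1890 * G)) ^ (7 * G)) :
    B * 5 ^ G ≤ n.factorial := by
  have e1 : 3140 * G - 7 * G * 60 = 2720 * G := by omega
  rw [e1] at hB
  have h1 := Nat.pow_sub_le_descFactorial n (7 * G)
  have h2 := Nat.factorial_mul_descFactorial (n := n) (k := 7 * G) (by omega)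
  obtain ⟨q, hq⟩ : ∃ q, q = n + 1 - 7 * G := ⟨_, rfl⟩
  rw [← hq] at h1
  have h3 : 2448 * n ≤ 2720 * q := by omega
  have h4 : 5 * (n * (1890 * G)) ^ 7 ≤ (2720 * G * q) ^ 7 := by
    calc 5 * (n * (1890 * G)) ^ 7 = (5 * 1890 ^ 7) * (n * G) ^ 7 := by ring
      _ ≤ 2448 ^ 7 * (n * G) ^ 7 := Nat.mul_le_mul_right _ (by norm_num)
      _ = (2448 * n * G) ^ 7 := by ring
      _ ≤ (2720 * q * G) ^ 7 := by gcongr
      _ = _ := by ring
  have h5 := Nat.pow_le_pow_left h4 G
  rw [mul_pow, ← pow_mul, ← pow_mul, mul_pow (2720 * G)] at h5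
  have hpos : 0 < (2720 * G) ^ (7 * G) * q ^ (7 * G) := by
    have : 0 < q := by omega
    positivity
  refine Nat.le_of_mul_le_mul_right ?_ hpos
  calc B * 5 ^ G * ((2720 * G) ^ (7 * G) * q ^ (7 * G))
      = (B * (2720 * G) ^ (7 * G)) * q ^ (7 * G) * 5 ^ G := by ring
    _ ≤ ((n - 7 * G).factorial * (n * (1890 * G)) ^ (7 * G)) * n.descFactorial (7 * G) * 5 ^ G := by
        gcongr
    _ = ((n - 7 * G).factorial * n.descFactorial (7 * G)) *
        (5 ^ G * (n * (1890 * G)) ^ (7 * G)) := by ring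
    _ ≤ n.factorial * ((2720 * G) ^ (7 * G) * q ^ (7 * G)) := by
        rw [h2]
        gcongr

/-- `π` has a large sparse set of positions -/
def Big (m K : ℕ) {n : ℕ} (π : Equiv.Perm (Fin n)) : Prop :=
  ∃ S : Finset (Fin n), (∀ i ∈ S, (S.filter fun j => j < i ∧ π i < π j).card ≤ m) ∧ K ≤ S.card

open Classical in
lemma bad_le (n : ℕ) (hn : 300 ≤ Nat.sqrt n) :
    n * (univ.filter fun π : Equiv.Perm (Fin n) => Big 2500 (94 * (Nat.sqrt n + 3)) π).card ≤
      n.factorial := by
  obtain ⟨r, hr⟩ : ∃ r, r = Nat.sqrt n := ⟨_, rfl⟩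
  have h1 : r * r ≤ n := hr ▸ Nat.sqrt_le n
  have h2 : n < (r + 1) * (r + 1) := hr ▸ Nat.lt_succ_sqrt n
  rw [← hr] at hn ⊢
  have hr0 : 0 < r := by omega
  obtain ⟨G, hG⟩ : ∃ G, G = r + 3 := ⟨_, rfl⟩
  rw [← hG]
  let c : Fin n → Fin G := fun i => ⟨i / r, by
    rw [Nat.div_lt_iff_lt_mul hr0, hG]
    have := i.2
    nlinarith⟩
  have hc : Monotone c := fun a b hab => Nat.div_le_div_right hab
  have hfib : ∀ a, (univ.filter fun i => c i = a).card ≤ r := by
    intro a
    have : (univ.filter fun i => c i = a).card ≤ (Ico (a * r) (a * r + r)).card := by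
      refine card_le_card_of_injOn (fun i => (i : ℕ)) ?_ (fun x _ y _ h => Fin.ext h)
      intro i hi
      have h3 : (i : ℕ) / r = a := congrArg Fin.val (mem_filter.1 (mem_coe.1 hi)).2
      have h4 := Nat.div_add_mod i r
      have h5 := Nat.mod_lt i hr0
      simp only [coe_Ico, Set.mem_Ico]
      rw [h3, mul_comm] at h4
      omega
    simpa using this
  let H := (univ : Finset (Fin (G + 1) → Fin (G + 1))).filter Monotone
  let bad : (Fin (G + 1) → Fin (G + 1)) → Finset (Equiv.Perm (Fin n)) := fun h =>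
    univ.filter fun π => 3140 * G ≤ ∑ i, cw h (c i) (c (π i))
  have hsub : (univ.filter fun π : Equiv.Perm (Fin n) => Big 2500 (94 * G) π) ⊆ H.biUnion bad := by
    intro π hπ
    obtain ⟨S, hS, hK⟩ := (mem_filter.1 hπ).2
    obtain ⟨h, hm, hh⟩ := geom c hc π S hS
    simp only [mem_biUnion, H, bad, mem_filter, mem_univ, true_and]
    exact ⟨h, hm, by omega⟩
  have hbad : ∀ h ∈ H, (bad h).card * 5 ^ G ≤ n.factorial := by
    intro h hh
    refine num2 n G _ (by omega) (by nlinarith) ?_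
    refine (tail (fun x y => cw h (c x) (c y)) 60 (fun _ _ => cw_le _ _ _) (7 * G) (3140 * G)).trans ?_
    refine Nat.mul_le_mul_left _ (Nat.pow_le_pow_left ?_ _)
    exact (pos_total c hfib h (mem_filter.1 hh).2).trans (Nat.mul_le_mul_right _ h1)
  have h3 := (card_le_card hsub).trans card_biUnion_le
  have h4 : (∑ h ∈ H, (bad h).card) * 5 ^ G ≤ 2 ^ (2 * G + 1) * n.factorial := by
    rw [sum_mul]
    refine (sum_le_sum hbad).trans ?_
    rw [sum_const, smul_eq_mul]
    refine Nat.mul_le_mul_right _ ?_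
    have := card_mono_le G
    convert this
  have h5 := num1 r (by omega)
  rw [← hG] at h5
  refine Nat.le_of_mul_le_mul_right ?_ (pow_pos (by norm_num : 0 < 5) G)
  have e : 2 ^ (2 * G + 1) = 2 * 4 ^ G := by
    rw [pow_succ, pow_mul]
    norm_num [mul_comm]
  calc n * (univ.filter fun π : Equiv.Perm (Fin n) => Big 2500 (94 * G) π).card * 5 ^ G
      ≤ n * ((∑ h ∈ H, (bad h).card) * 5 ^ G) := by
        rw [mul_assoc]
        gcongr
    _ ≤ (r + 1) ^ 2 * (2 * 4 ^ G * n.factorial) := by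
        rw [← e]
        refine Nat.mul_le_mul (by nlinarith) h4
    _ = n.factorial * (2 * (r + 1) ^ 2 * 4 ^ G) := by ring
    _ ≤ _ := Nat.mul_le_mul_left _ h5

/-- every entry has at most `m` larger entries to its left -/
def P (m : ℕ) {n : ℕ} (π : Equiv.Perm (Fin n)) : Prop :=
  ∀ i, (univ.filter fun j => j < i ∧ π i < π j).card ≤ m

/-- append an entry with value `v` -/
def app {n : ℕ} (π : Equiv.Perm (Fin n)) (v : Fin (n + 1)) : Equiv.Perm (Fin (n + 1)) :=
  finSuccEquivLast.trans ((Equiv.optionCongr π).trans (finSuccEquiv' v).symm)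

lemma app_last {n : ℕ} (π : Equiv.Perm (Fin n)) (v : Fin (n + 1)) : app π v (Fin.last n) = v := by
  simp [app]

lemma app_cast {n : ℕ} (π : Equiv.Perm (Fin n)) (v : Fin (n + 1)) (i : Fin n) :
    app π v i.castSucc = v.succAbove (π i) := by
  simp [app]

lemma P_app {m n : ℕ} (π : Equiv.Perm (Fin n)) (hπ : P m π) (v : Fin (n + 1)) (hv : n ≤ v + m) :
    P m (app π v) := by
  intro i
  refine Fin.lastCases ?_ (fun i => ?_) i
  · have : (univ.filter fun j => j < Fin.last n ∧ app π v (Fin.last n) < app π v j).card ≤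
        (Ioi v).card := by
      refine card_le_card_of_injOn (app π v) ?_ ((app π v).injective.injOn)
      intro j hj
      have := (mem_filter.1 (mem_coe.1 hj)).2.2
      rw [app_last] at this
      simpa using this
    rw [Fin.card_Ioi] at this
    omega
  · refine le_trans (le_trans (card_le_card ?_) (card_image_le (f := Fin.castSucc))) (hπ i)
    intro j hj
    have h1 := (mem_filter.1 hj).2
    obtain ⟨j, rfl⟩ := Fin.exists_castSucc_eq.2 (Fin.ne_last_of_lt h1.1)
    rw [app_cast, app_cast, Fin.succAbove_lt_succAbove_iff, Fin.castSucc_lt_castSucc_iff] at h1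
    exact mem_image_of_mem _ (mem_filter.2 ⟨mem_univ _, h1⟩)

open Classical in
lemma count_succ (m n : ℕ) (hn : m ≤ n) :
    (univ.filter fun π : Equiv.Perm (Fin n) => P m π).card * (m + 1) ≤
      (univ.filter fun π : Equiv.Perm (Fin (n + 1)) => P m π).card := by
  have h1 : (Ici (⟨n - m, by omega⟩ : Fin (n + 1))).card = m + 1 := by
    rw [Fin.card_Ici]
    simp only
    omega
  rw [← h1, ← card_product]
  refine card_le_card_of_injOn (fun p => app p.1 p.2) ?_ ?_
  · rintro ⟨π, v⟩ hp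
    simp only [coe_product, Set.mem_prod, mem_coe, mem_filter, mem_univ, true_and, mem_Ici] at hp ⊢
    refine P_app π hp.1 v ?_
    have : n - m ≤ v := hp.2
    omega
  · rintro ⟨π, v⟩ _ ⟨π', v'⟩ _ h
    simp only at h
    have e1 : v = v' := by rw [← app_last π v, h, app_last]
    subst e1
    have e2 : π = π' := by
      ext i
      have := app_cast π v i
      rw [h, app_cast] at this
      rw [Fin.succAbove_right_injective this]
    rw [e2]

open Classical in
lemma count_ge (m d : ℕ) :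
    (m + 1) ^ d ≤ (univ.filter fun π : Equiv.Perm (Fin (m + d)) => P m π).card := by
  induction d with
  | zero =>
    rw [pow_zero]
    refine card_pos.2 ⟨1, mem_filter.2 ⟨mem_univ _, fun i => ?_⟩⟩
    have := card_le_univ (univ.filter fun j : Fin (m + 0) =>
      j < i ∧ (1 : Equiv.Perm (Fin (m + 0))) i < (1 : Equiv.Perm (Fin (m + 0))) j)
    simpa using this
  | succ d ih =>
    refine le_trans ?_ (count_succ m (m + d) (by omega))
    rw [pow_succ]
    exact Nat.mul_le_mul_right _ ih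

end Pool.Agent.H14.Alb
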