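import Mathlib

namespace Pool.Agent.H14.An

open Module Finset

/-- `f` is a polynomial function of degree at most `D`. -/
def PD (R : Type*) {W : Type*} [CommRing R] [AddCommGroup W] [Module R W] (D : ℕ) (f : R → W) :
    Prop :=
  ∃ c : ℕ → W, ∀ t, f t = ∑ i ∈ range (D + 1), t ^ i • c i

theorem coef_zero {K W : Type*} [Field K] [AddCommGroup W] [Module K W] {D : ℕ} (T : Finset K)
    (hT : D < T.card) (c : ℕ → W) (h : ∀ t ∈ T, ∑ i ∈ range (D + 1), t ^ i • c i = 0) :
    ∀ i ≤ D, c i = 0 := by
  intro i hi
  rw [← Module.forall_dual_apply_eq_zero_iff K]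
  intro φ
  set p : Polynomial K := ∑ j ∈ range (D + 1), Polynomial.monomial j (φ (c j)) with hp
  have hdeg : p.natDegree ≤ D := by
    apply Polynomial.natDegree_sum_le_of_forall_le
    intro j hj
    exact (Polynomial.natDegree_monomial_le _).trans (by have := mem_range.mp hj; omega)
  have h0 : p = 0 := by
    apply Polynomial.eq_zero_of_natDegree_lt_card_of_eval_eq_zero' p T
    · intro t ht
      have := congrArg φ (h t ht)
      rw [map_sum, map_zero] at this
      rw [hp, Polynomial.eval_finset_sum, ← this]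
      refine sum_congr rfl fun j _ => ?_
      rw [Polynomial.eval_monomial, map_smul, smul_eq_mul, mul_comm]
    · omega
  have := congrArg (fun q => Polynomial.coeff q i) h0
  simp only [hp, Polynomial.finset_sum_coeff, Polynomial.coeff_monomial, Polynomial.coeff_zero] at this
  rw [sum_ite_eq' (range (D + 1)) i, if_pos (mem_range.mpr (by omega))] at this
  exact this

section
variable {R W W' : Type*} [CommRing R] [AddCommGroup W] [Module R W] [AddCommGroup W'] [Module R W']

theorem PD.vanish {K : Type*} [Field K] [Algebra K R] [Module K W] [IsScalarTower K R W] {D : ℕ}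
    {f : R → W} (hf : PD R D f) (T : Finset K) (hT : D < T.card)
    (h : ∀ t ∈ T, f (algebraMap K R t) = 0) (s : R) : f s = 0 := by
  obtain ⟨c, hc⟩ := hf
  have := coef_zero T hT c (fun t ht => by
    rw [← h t ht, hc]
    refine sum_congr rfl fun i _ => ?_
    rw [← map_pow, algebraMap_smul])
  rw [hc]
  refine sum_eq_zero fun i hi => ?_
  rw [this i (by have := mem_range.mp hi; omega), smul_zero]

theorem PD.succ {D : ℕ} {f : R → W} (hf : PD R D f) : PD R (D + 1) f := by
  obtain ⟨c, hc⟩ := hf
  refine ⟨fun i => if i = D + 1 then 0 else c i, fun t => ?_⟩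
  beta_reduce
  rw [sum_range_succ, if_pos rfl, smul_zero, add_zero, hc]
  refine sum_congr rfl fun i hi => ?_
  rw [if_neg (by have := mem_range.mp hi; omega)]

theorem PD.mono {D D' : ℕ} {f : R → W} (hf : PD R D f) (h : D ≤ D') : PD R D' f := by
  induction h with
  | refl => exact hf
  | step _ ih => exact ih.succ

theorem PD.add {D : ℕ} {f g : R → W} (hf : PD R D f) (hg : PD R D g) :
    PD R D (fun t => f t + g t) := by
  obtain ⟨c, hc⟩ := hf
  obtain ⟨d, hd⟩ := hg
  refine ⟨fun i => c i + d i, fun t => ?_⟩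
  simp only [hc, hd, smul_add, sum_add_distrib]

theorem PD.lin {D : ℕ} {f : R → W} (hf : PD R D f) (L : W →ₗ[R] W') :
    PD R D (fun t => L (f t)) := by
  obtain ⟨c, hc⟩ := hf
  refine ⟨fun i => L (c i), fun t => ?_⟩
  simp only [hc, map_sum, map_smul]

theorem PD.tsmul {D : ℕ} {f : R → W} (hf : PD R D f) : PD R (D + 1) (fun t => t • f t) := by
  obtain ⟨c, hc⟩ := hf
  refine ⟨fun i => if i = 0 then 0 else c (i - 1), fun t => ?_⟩
  beta_reduce
  rw [sum_range_succ', if_pos rfl, smul_zero, add_zero, hc, smul_sum]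
  refine sum_congr rfl fun i _ => ?_
  rw [if_neg (by omega), Nat.add_sub_cancel, pow_succ', mul_smul]

theorem PD.const (D : ℕ) (w : W) : PD R D (fun _ => w) :=
  PD.mono (D := 0) ⟨fun _ => w, fun t => by simp⟩ (Nat.zero_le _)

theorem PD.sum {ι : Type*} {D : ℕ} (s : Finset ι) (f : ι → R → W) (h : ∀ i ∈ s, PD R D (f i)) :
    PD R D (fun t => ∑ i ∈ s, f i t) := by
  classical
  induction s using Finset.induction_on with
  | empty => simpa using PD.const D (0 : W)
  | insert a s ha ih =>
    simp only [sum_insert ha]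
    exact (h a (mem_insert_self _ _)).add (ih fun i hi => h i (mem_insert_of_mem hi))

theorem PD.pow {E : Type*} [Ring E] [Algebra R E] (a b : E) (k : ℕ) :
    PD R k (fun t => (a + t • b) ^ k) := by
  induction k with
  | zero => simpa using PD.const 0 (1 : E)
  | succ k ih =>
    have h1 := (ih.lin (LinearMap.mulRight R a)).succ
    have h2 := (ih.lin (LinearMap.mulRight R b)).tsmul
    have := h1.add h2
    simp only [LinearMap.mulRight_apply] at this
    convert this using 2 with t
    rw [pow_succ, mul_add, mul_smul_comm]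

theorem PD.geom {E : Type*} [Ring E] [Algebra R E] (a b : E) (k : ℕ) :
    PD R k (fun t => ∑ i ∈ range (k + 1), (a + t • b) ^ i) :=
  PD.sum _ _ fun i hi => (PD.pow a b i).mono (by have := mem_range.mp hi; omega)

theorem ext_span {K A E : Type*} [Field K] [Algebra K R] [Module K W] [IsScalarTower K R W]
    [AddCommGroup A] [Module K A] [AddCommGroup E] [Module R E] [Module K E] [IsScalarTower K R E]
    {D : ℕ} (T : Finset K) (hT : D < T.card) (Vs : Submodule K A) (B : A →ₗ[K] E) (F : E → W)
    (hF : ∀ a b, PD R D (fun t => F (a + t • b))) (h0 : ∀ M ∈ Vs, F (B M) = 0) :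
    ∀ N ∈ Submodule.span R (B '' Vs), F N = 0 := by
  have key : ∀ (m : ℕ) (f : Fin m → R) (g : Fin m → (B '' Vs : Set E)), ∀ M ∈ Vs,
      F (B M + ∑ i, f i • (g i : E)) = 0 := by
    intro m
    induction m with
    | zero => intro f g M hM; simpa using h0 M hM
    | succ m ih =>
      intro f g M hM
      obtain ⟨M', hM', he⟩ := (g 0).2
      rw [Fin.sum_univ_succ, ← he, add_comm (f 0 • B M'), ← add_assoc]
      apply (hF _ _).vanish T hT
      intro t _
      have := ih (fun i => f i.succ) (fun i => g i.succ) (M + t • M')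
        (Vs.add_mem hM (Vs.smul_mem t hM'))
      rw [← this, algebraMap_smul, map_add, map_smul]
      congr 1
      abel
  intro N hN
  obtain ⟨m, f, g, rfl⟩ := Submodule.mem_span_set'.mp hN
  simpa using key m f g 0 Vs.zero_mem

end

section
variable {K U V : Type*} [Field K] [AddCommGroup U] [Module K U] [AddCommGroup V] [Module K V]

theorem open_inj [FiniteDimensional K U] (T : Finset K) (h0 : (0 : K) ∉ T)
    (hT : finrank K U < T.card) (f g : U →ₗ[K] V) (hf : LinearMap.ker f = ⊥) :
    ∃ t ∈ T, LinearMap.ker (f + t • g) = ⊥ := by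
  obtain ⟨h, hh⟩ := f.exists_leftInverse_of_injective hf
  by_contra hcon
  push Not at hcon
  set Bm : Module.End K U := h ∘ₗ g with hB
  have hroot : ∀ t ∈ T, Bm.charpoly.IsRoot (-t⁻¹) := by
    intro t ht
    have ht0 : t ≠ 0 := fun h => h0 (h ▸ ht)
    rw [← Module.End.hasEigenvalue_iff_isRoot_charpoly]
    obtain ⟨u, hu, hu0⟩ := Submodule.exists_mem_ne_zero_of_ne_bot (hcon t ht)
    rw [LinearMap.mem_ker] at hu
    have h1 : h (f u) = u := by simpa using congrArg (fun φ => φ u) hh
    have h2 := congrArg h hu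
    simp only [LinearMap.add_apply, LinearMap.smul_apply, map_add, map_smul, h1, map_zero] at h2
    apply Module.End.hasEigenvalue_of_hasEigenvector (x := u)
    refine ⟨?_, hu0⟩
    rw [Module.End.mem_eigenspace_iff]
    have : h (g u) = t⁻¹ • (t • h (g u)) := by rw [smul_smul, inv_mul_cancel₀ ht0, one_smul]
    rw [hB, LinearMap.comp_apply, this, neg_smul, ← smul_neg]
    congr 1
    exact (neg_eq_of_add_eq_zero_right h2).symm
  have hz : Bm.charpoly = 0 := by
    classical
    apply Polynomial.eq_zero_of_natDegree_lt_card_of_eval_eq_zero' _ (T.image fun t => -t⁻¹)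
    · intro s hs
      obtain ⟨t, ht, rfl⟩ := mem_image.mp hs
      exact hroot t ht
    · rw [card_image_of_injective _ (fun a b h => by simpa using h), LinearMap.charpoly_natDegree]
      exact hT
  exact Bm.charpoly_monic.ne_zero hz

theorem rank_max [FiniteDimensional K V] (T : Finset K) (h0 : (0 : K) ∉ T)
    (hT : finrank K V + 1 < T.card) (A z : Module.End K V)
    (hr : ∀ t : K, finrank K (LinearMap.range (A + t • z)) ≤ finrank K (LinearMap.range A))
    (u : V) (hu : ∀ t : K, t ≠ 0 → u ∈ LinearMap.range (A + t • z)) : u ∈ LinearMap.range A := by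
  by_contra hcon
  obtain ⟨C, hC⟩ := (LinearMap.ker A).exists_isCompl
  let f : (C × K) →ₗ[K] V := LinearMap.coprod (A ∘ₗ C.subtype) (LinearMap.toSpanSingleton K V u)
  let g : (C × K) →ₗ[K] V := LinearMap.coprod (z ∘ₗ C.subtype) 0
  have hf : LinearMap.ker f = ⊥ := by
    rw [eq_bot_iff]
    rintro ⟨a, s⟩ h
    simp only [f, LinearMap.mem_ker, LinearMap.coprod_apply, LinearMap.comp_apply,
      Submodule.subtype_apply, LinearMap.toSpanSingleton_apply] at h
    have hs : s = 0 := by
      by_contra hs
      apply hcon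
      refine ⟨-(s⁻¹ • (a : V)), ?_⟩
      have : s • u = -A a := (neg_eq_of_add_eq_zero_right h).symm
      rw [map_neg, map_smul, ← smul_neg, ← this, smul_smul, inv_mul_cancel₀ hs, one_smul]
    subst hs
    rw [zero_smul, add_zero] at h
    have : (a : V) ∈ LinearMap.ker A ⊓ C := ⟨h, a.2⟩
    rw [hC.inf_eq_bot, Submodule.mem_bot] at this
    have ha : a = 0 := Subtype.ext this
    simp [ha]
  have hC1 : finrank K C ≤ finrank K V := Submodule.finrank_le C
  have hdim : finrank K (C × K) = finrank K C + 1 := by simp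
  obtain ⟨t, ht, hk⟩ := open_inj T h0 (by omega) f g hf
  have ht0 : t ≠ 0 := fun h => h0 (h ▸ ht)
  have hle : LinearMap.range (f + t • g) ≤ LinearMap.range (A + t • z) := by
    rintro _ ⟨⟨a, s⟩, rfl⟩
    have e : (f + t • g) (a, s) = (A + t • z) a + s • u := by
      simp [f, g]; abel
    rw [e]
    exact add_mem ⟨a, rfl⟩ (Submodule.smul_mem _ _ (hu t ht0))
  have h1 := Submodule.finrank_mono hle
  have h2 := LinearMap.finrank_range_add_finrank_ker (f + t • g)
  rw [hk, finrank_bot] at h2
  have h3 := LinearMap.finrank_range_add_finrank_ker A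
  have h4 := Submodule.finrank_add_eq_of_isCompl hC
  have h5 := hr t
  omega

theorem finrank_map_inf [FiniteDimensional K U] (H : Submodule K U) (f : U →ₗ[K] V) :
    finrank K (H.map f) + finrank K (H ⊓ LinearMap.ker f : Submodule K U) = finrank K H := by
  have h := LinearMap.finrank_range_add_finrank_ker (f.domRestrict H)
  rw [LinearMap.range_domRestrict, LinearMap.ker_domRestrict] at h
  rw [← h]
  congr 1
  rw [← Submodule.finrank_map_subtype_eq H, Submodule.map_comap_subtype]

end

end Pool.Agent.H14.An
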