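import Pool.Agent.H14.An1

namespace Pool.Agent.H14.An

open Module Finset TensorProduct

variable {K V : Type*} [Field K] [AddCommGroup V] [Module K V]

theorem eps_unit {R W : Type*} [CommRing R] [AddCommGroup W] [Module R W] {ε : R} {m : ℕ}
    (h : ε ^ (m + 1) = 0) (f : Module.End R W) : Function.Bijective (1 + ε • f : Module.End R W) := by
  rw [← Module.End.isUnit_iff]
  apply IsNilpotent.isUnit_one_add
  exact ⟨m + 1, by rw [smul_pow, h, zero_smul]⟩

theorem core {R W : Type*} [CommRing R] [AddCommGroup W] [Module R W] (ε : R) (m : ℕ)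
    (he : ε ^ (m + 1) = 0) (Sp : Submodule R (Module.End R W)) (P Q TT M0 : Module.End R W)
    (X Y : W) (σR : W →ₗ[R] Module.End R W) (h1 : ∀ a, σR a X = P a)
    (h2 : ∀ a, P (σR a Y) = TT a) (h3 : ∀ a, σR a ∈ Sp)
    (h4 : ∀ w : W, ∃ α : R, w = Q w + P w + α • X) (hππ' : ∀ w, P (P w) = P w)
    (hqq' : ∀ w, Q (Q w) = Q w) (hqX : Q X = 0) (hqY : Q Y = 0) (hπY : P Y = Y) (hM0 : M0 ∈ Sp)
    (h0X : M0 X = 0) (h0Y : M0 Y = X) (hnilR : ∀ N ∈ Sp, N ^ m = 0)
    (hGR : ∀ N ∈ Sp, Q ((∑ i ∈ range (m + 1), N ^ i) X) = 0) : ε ^ m • X = 0 := by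
  have h5 : ∀ w, P (TT w) = TT w := fun w => by rw [← h2, hππ']
  obtain ⟨a, ha⟩ := (eps_unit he (TT)).2 Y
  have ha' : a + ε • TT a = Y := by simpa using ha
  have hπa : P a = a := by
    have := congrArg (P) ha'
    rw [map_add, map_smul, h5, hπY, ← ha'] at this
    exact add_right_cancel this
  set N1 := σR a with hN1
  set N : Module.End R (W) := ε • N1 with hN
  have hNmem : N ∈ Sp := Submodule.smul_mem _ _ (h3 a)
  set u := X + ε • Y with hu
  have hπNu : P (N u) = ε • Y := by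
    rw [hN, hu, LinearMap.smul_apply, map_smul, map_add, map_smul, map_add, map_smul, hN1, h1, h2,
      hππ', hπa, ha']
  obtain ⟨α, hα⟩ := h4 (N u)
  rw [hπNu] at hα
  set c := Q (N u) with hc
  set G := ∑ i ∈ range (m + 1), N ^ i with hGdef
  have hNm : N ^ (m + 1) = 0 := by rw [pow_succ, hnilR N hNmem, zero_mul]
  have hG1 : G * (1 - N) = 1 := by rw [hGdef, geom_sum_mul_neg, hNm, sub_zero]
  have hG2 : (1 - N) * G = 1 := by rw [hGdef, mul_neg_geom_sum, hNm, sub_zero]
  have hG3 : ∀ w, G w = w + N (G w) := fun w => by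
    have := congrArg (fun f => f w) hG2
    simp only [Module.End.mul_apply, LinearMap.sub_apply, Module.End.one_apply] at this
    exact (sub_eq_iff_eq_add.mp this)
  have e1 : (1 - N) u = (1 - α) • X - c := by
    rw [LinearMap.sub_apply, Module.End.one_apply, hα, hu, sub_smul, one_smul]
    abel
  have e2 : u = (1 - α) • G X - G c := by
    have := congrArg G e1
    rw [← Module.End.mul_apply, hG1, Module.End.one_apply, map_sub, map_smul] at this
    exact this
  have e3 : Q (G c) = 0 := by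
    have := congrArg (Q) e2
    rw [map_sub, map_smul, hGR N hNmem, hu, map_add, map_smul, hqX, hqY] at this
    simpa using this
  have hc0 : c = 0 := by
    apply (eps_unit he (Q * N1 * G)).1
    rw [map_zero, ← e3, hG3, map_add, hc, hqq']
    simp [hN]
  rw [hc0, zero_add] at hα
  set N' : Module.End R (W) := ε • N + (1 - α) • M0 with hN'
  have hN'mem : N' ∈ Sp :=
    add_mem (Submodule.smul_mem _ _ hNmem)
      (Submodule.smul_mem _ _ hM0)
  have hev : N' u = ε • u := by
    have e : N' u = ε • N u + (1 - α) • M0 u := rfl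
    rw [e, hα]
    rw [hu, map_add, map_smul, h0X, h0Y, zero_add]
    module
  have hpow : ∀ k, (N' ^ k) u = ε ^ k • u := by
    intro k
    induction k with
    | zero => simp
    | succ k ih => rw [pow_succ', Module.End.mul_apply, ih, map_smul, hev, smul_smul, pow_succ]
  have hz := hpow m
  rw [hnilR N' hN'mem, LinearMap.zero_apply, hu, smul_add, smul_smul, ← pow_succ, he, zero_smul,
    add_zero] at hz
  exact hz.symm

theorem bc_nil {R : Type*} [CommRing R] [Algebra K R] (m : ℕ) (T : Finset K) (hT : m < T.card) (Vs : Submodule K (Module.End K V))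
    (hnil : ∀ M ∈ Vs, M ^ m = 0) : ∀ N ∈ Submodule.span R ((Module.End.baseChangeHom K R V).toLinearMap '' Vs), N ^ m = 0 := by
  apply ext_span (R := R) (W := Module.End R (R ⊗[K] V)) (E := Module.End R (R ⊗[K] V))
      T hT Vs (Module.End.baseChangeHom K R V).toLinearMap (fun N => N ^ m) (fun a b => PD.pow a b m)
  intro M hM
  show ((Module.End.baseChangeHom K R V) M) ^ m = 0
  rw [← map_pow, hnil M hM, map_zero]

theorem bc_G {R : Type*} [CommRing R] [Algebra K R] (m : ℕ) (T : Finset K) (hT : m < T.card) (Vs : Submodule K (Module.End K V))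
    (q : Module.End K V) (x : V) (hG : ∀ M ∈ Vs, q ((∑ i ∈ range (m + 1), M ^ i) x) = 0) : ∀ N ∈ Submodule.span R ((Module.End.baseChangeHom K R V).toLinearMap '' Vs),
      (Module.End.baseChangeHom K R V) q ((∑ i ∈ range (m + 1), N ^ i) (1 ⊗ₜ x)) = 0 := by
  apply ext_span (R := R) (W := (R ⊗[K] V)) (E := Module.End R (R ⊗[K] V)) T hT Vs (Module.End.baseChangeHom K R V).toLinearMap
    (fun N => (Module.End.baseChangeHom K R V) q ((∑ i ∈ range (m + 1), N ^ i) (1 ⊗ₜ x)))
  · intro a b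
    exact (PD.geom a b m).lin ((Module.End.baseChangeHom K R V) q ∘ₗ LinearMap.applyₗ (1 ⊗ₜ x))
  · intro M hM
    show (Module.End.baseChangeHom K R V) q ((∑ i ∈ range (m + 1), ((Module.End.baseChangeHom K R V) M) ^ i) (1 ⊗ₜ x)) = 0
    simp only [← map_pow]
    rw [← map_sum]
    show (1 : R) ⊗ₜ[K] (q ((∑ i ∈ range (m + 1), M ^ i) x)) = 0
    rw [hG M hM, tmul_zero]

theorem lemL_aux {R : Type*} [CommRing R] [Algebra K R] (ε : R) (m : ℕ) (he : ε ^ (m + 1) = 0)
    (he' : ε ^ m ≠ 0) (T : Finset K) (hT : m < T.card) (Vs : Submodule K (Module.End K V))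
    (hnil : ∀ M ∈ Vs, M ^ m = 0) (x y : V) (hx : x ≠ 0) (q π : Module.End K V) (ψ : Dual K V)
    (σ : V →ₗ[K] Module.End K V) (hσ : ∀ v, σ v ∈ Vs) (hσx : ∀ v, σ v x = π v)
    (hdec : ∀ v, v = q v + π v + ψ v • x) (hππ : π * π = π) (hqq : q * q = q) (hqx : q x = 0)
    (hqy : q y = 0) (hπy : π y = y)
    (hG : ∀ M ∈ Vs, q ((∑ i ∈ range (m + 1), M ^ i) x) = 0) (M0 : Module.End K V)
    (hM0 : M0 ∈ Vs) (h0x : M0 x = 0) (h0y : M0 y = x) : False := by
  let B := Module.End.baseChangeHom K R V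
  have hB : ∀ (f : Module.End K V) (r : R) (v : V), B f (r ⊗ₜ v) = r ⊗ₜ f v := fun f r v => rfl
  let X : R ⊗[K] V := 1 ⊗ₜ x
  let Y : R ⊗[K] V := 1 ⊗ₜ y
  have hX : X = 1 ⊗ₜ x := rfl
  have hY : Y = 1 ⊗ₜ y := rfl
  let σR : (R ⊗[K] V) →ₗ[R] Module.End R (R ⊗[K] V) := (B.toLinearMap ∘ₗ σ).liftBaseChange R
  have hσR : ∀ (r : R) (v : V), σR (r ⊗ₜ v) = r • B (σ v) := fun r v => rfl
  let TK : Module.End K V := π ∘ₗ (LinearMap.applyₗ y ∘ₗ σ)
  have hTK : ∀ v, TK v = π (σ v y) := fun v => rfl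
  have sm : ∀ (r : R) (v : V), r • ((1 : R) ⊗ₜ[K] v) = r ⊗ₜ v := fun r v => by
    rw [TensorProduct.smul_tmul', smul_eq_mul, mul_one]
  have h1 : ∀ a, σR a X = B π a := by
    intro a
    induction a using TensorProduct.induction_on with
    | zero => simp
    | tmul r v => rw [hσR, LinearMap.smul_apply, hX, hB, hB, sm, hσx]
    | add a b ha hb => rw [map_add, LinearMap.add_apply, ha, hb, map_add]
  have h2 : ∀ a, B π (σR a Y) = B TK a := by
    intro a
    induction a using TensorProduct.induction_on with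
    | zero => simp
    | tmul r v => rw [hσR, LinearMap.smul_apply, hY, hB, hB, sm, hB, hTK]
    | add a b ha hb => rw [map_add, LinearMap.add_apply, map_add, ha, hb, map_add]
  have h3 : ∀ a, σR a ∈ Submodule.span R (B.toLinearMap '' Vs) := by
    intro a
    induction a using TensorProduct.induction_on with
    | zero => simp
    | tmul r v =>
      rw [hσR]
      exact Submodule.smul_mem _ _ (Submodule.subset_span ⟨σ v, hσ v, rfl⟩)
    | add a b ha hb => rw [map_add]; exact add_mem ha hb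
  have h4 : ∀ w : R ⊗[K] V, ∃ α : R, w = B q w + B π w + α • X := by
    intro w
    induction w using TensorProduct.induction_on with
    | zero => exact ⟨0, by simp⟩
    | tmul r v =>
      refine ⟨ψ v • r, ?_⟩
      rw [hB, hB, hX, sm, TensorProduct.smul_tmul, ← TensorProduct.tmul_add,
        ← TensorProduct.tmul_add, ← hdec]
    | add a b ha hb =>
      obtain ⟨α, ha⟩ := ha
      obtain ⟨β, hb⟩ := hb
      refine ⟨α + β, ?_⟩
      rw [map_add, map_add, add_smul]
      conv_lhs => rw [ha, hb]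
      abel
  have hππ' : ∀ w, B π (B π w) = B π w := fun w => by
    rw [← Module.End.mul_apply, ← map_mul, hππ]
  have hqq' : ∀ w, B q (B q w) = B q w := fun w => by
    rw [← Module.End.mul_apply, ← map_mul, hqq]
  have hqX : B q X = 0 := by rw [hX, hB, hqx, tmul_zero]
  have hqY : B q Y = 0 := by rw [hY, hB, hqy, tmul_zero]
  have hπY : B π Y = Y := by rw [hY, hB, hπy]
  have h0X : B M0 X = 0 := by rw [hX, hB, h0x, tmul_zero]
  have h0Y : B M0 Y = X := by rw [hY, hB, h0y]
  have hnilR := bc_nil (R := R) m T hT Vs hnil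
  have hGR := bc_G (R := R) m T hT Vs q x hG
  have hz := core ε m he _ (B π) (B q) (B TK) (B M0) X Y σR h1 h2 h3 h4 hππ' hqq' hqX hqY hπY
    (Submodule.subset_span ⟨M0, hM0, rfl⟩) h0X h0Y hnilR hGR
  rw [hX, sm] at hz
  obtain ⟨ℓ, hℓ⟩ := Module.Projective.exists_dual_eq_one K hx
  have := congrArg (fun w => TensorProduct.rid K R (LinearMap.lTensor R ℓ w)) hz
  simp [hℓ] at this
  exact he' this

theorem lemL (m : ℕ) (T : Finset K) (hT : m < T.card) (Vs : Submodule K (Module.End K V))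
    (hnil : ∀ M ∈ Vs, M ^ m = 0) (x y : V) (hx : x ≠ 0) (q π : Module.End K V) (ψ : Dual K V)
    (σ : V →ₗ[K] Module.End K V) (hσ : ∀ v, σ v ∈ Vs) (hσx : ∀ v, σ v x = π v)
    (hdec : ∀ v, v = q v + π v + ψ v • x) (hππ : π * π = π) (hqq : q * q = q) (hqx : q x = 0)
    (hqy : q y = 0) (hπy : π y = y)
    (hG : ∀ M ∈ Vs, q ((∑ i ∈ range (m + 1), M ^ i) x) = 0) (M0 : Module.End K V)
    (hM0 : M0 ∈ Vs) (h0x : M0 x = 0) (h0y : M0 y = x) : False := by
  let P : Polynomial K := Polynomial.X ^ (m + 1)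
  refine lemL_aux (R := AdjoinRoot P) (AdjoinRoot.root P) m ?_ ?_ T hT Vs hnil x y hx q π ψ σ hσ hσx
    hdec hππ hqq hqx hqy hπy hG M0 hM0 h0x h0y
  · rw [← AdjoinRoot.mk_X, ← map_pow]
    exact AdjoinRoot.mk_self
  · rw [← AdjoinRoot.mk_X, ← map_pow, Ne, AdjoinRoot.mk_eq_zero]
    intro h
    have := Polynomial.natDegree_le_of_dvd h (pow_ne_zero _ Polynomial.X_ne_zero)
    simp [P] at this

end Pool.Agent.H14.An
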