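import Pool.Agent.H14.An2

namespace Pool.Agent.H14.An

open Module Finset

variable {K V : Type*} [Field K] [AddCommGroup V] [Module K V] [FiniteDimensional K V]

/-- rank of an endomorphism -/
noncomputable abbrev rk (M : Module.End K V) : ℕ := finrank K (LinearMap.range M)

/-- `φ ↦ (v ↦ φ v • x)` -/
def sr (x : V) : Dual K V →ₗ[K] Module.End K V where
  toFun φ := φ.smulRight x
  map_add' a b := by ext v; simp [add_smul]
  map_smul' c a := by ext v; simp [mul_smul]

omit [FiniteDimensional K V] in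
theorem sr_apply (x : V) (φ : Dual K V) (v : V) : sr x φ v = φ v • x := rfl

theorem pow_finrank {M : Module.End K V} (h : IsNilpotent M) : M ^ finrank K V = 0 := by
  have h1 := (LinearMap.isNilpotent_iff_charpoly M).mp h
  have h2 := LinearMap.aeval_self_charpoly M
  rw [h1] at h2
  simpa using h2

section
variable (T : Finset K) (h0 : (0 : K) ∉ T) (hT : finrank K V + 1 < T.card)
  (A : Module.End K V) (Z : Submodule K (Module.End K V)) (hn : ∀ z ∈ Z, IsNilpotent (A + z))
include h0 hT hn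

theorem span_nil : ∀ M ∈ Z ⊔ Submodule.span K {A}, M ^ finrank K V = 0 := by
  intro M hM
  obtain ⟨z, hz, b, hb, rfl⟩ := Submodule.mem_sup.mp hM
  obtain ⟨a, rfl⟩ := Submodule.mem_span_singleton.mp hb
  apply (PD.pow (R := K) z A (finrank K V)).vanish T (by omega)
  intro t ht
  have ht0 : t ≠ 0 := fun h => h0 (h ▸ ht)
  have e : z + (algebraMap K K t) • A = t • (A + t⁻¹ • z) := by
    rw [smul_add, smul_smul, mul_inv_cancel₀ ht0, one_smul, add_comm]; rfl
  rw [e, smul_pow, pow_finrank (hn _ (Z.smul_mem _ hz)), smul_zero]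

theorem geom_ann (x : V) (φ : Dual K V) (hφ : sr x φ ∈ Z) (M : Module.End K V)
    (hM : M ∈ Z ⊔ Submodule.span K {A}) :
    φ ((∑ i ∈ range (finrank K V + 1), M ^ i) x) = 0 := by
  by_contra hc
  set g := (∑ i ∈ range (finrank K V + 1), M ^ i) x with hg
  have h1 : (1 - M) g = x := by
    rw [hg, ← Module.End.mul_apply, mul_neg_geom_sum, pow_succ, span_nil T h0 hT A Z hn M hM,
      zero_mul, sub_zero, Module.End.one_apply]
  have hmem : M + (φ g)⁻¹ • sr x φ ∈ Z ⊔ Submodule.span K {A} :=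
    add_mem hM (Submodule.mem_sup_left (Z.smul_mem _ hφ))
  have hu : IsUnit (1 - (M + (φ g)⁻¹ • sr x φ)) :=
    IsNilpotent.isUnit_one_sub ⟨_, span_nil T h0 hT A Z hn _ hmem⟩
  have hinj := ((Module.End.isUnit_iff _).mp hu).1
  have : g = 0 := by
    apply hinj
    rw [map_zero, ← sub_sub, LinearMap.sub_apply, h1, LinearMap.smul_apply, sr_apply, smul_smul,
      inv_mul_cancel₀ hc, one_smul, sub_self]
  exact hc (by rw [this, map_zero])

theorem ann_both (x : V) (hx : x ≠ 0) (φ : Dual K V) (hφ : sr x φ ∈ Z) (z : Module.End K V)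
    (hz : z ∈ Z) : φ x = 0 ∧ φ (z x) = 0 := by
  have hpos : 0 < finrank K V := finrank_pos_iff_exists_ne_zero.mpr ⟨x, hx⟩
  have := coef_zero (D := finrank K V) T (by omega) (fun i => φ ((z ^ i) x)) (fun t _ => by
    have := geom_ann T h0 hT A Z hn x φ hφ (t • z) (Submodule.mem_sup_left (Z.smul_mem _ hz))
    rw [← this, LinearMap.sum_apply, map_sum]
    refine sum_congr rfl fun i _ => ?_
    rw [smul_pow, LinearMap.smul_apply, map_smul])
  exact ⟨by simpa using this 0 (by omega), by simpa using this 1 (by omega)⟩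

theorem notin_Zx (x : V) (hx : x ≠ 0) : x ∉ Z.map (LinearMap.applyₗ x) := by
  rintro ⟨z, hz, h⟩
  have h' : z x = x := h
  have hp : ∀ k, (z ^ k) x = x := by
    intro k
    induction k with
    | zero => simp
    | succ k ih => rw [pow_succ, Module.End.mul_apply, h', ih]
  have := hp (finrank K V)
  rw [span_nil T h0 hT A Z hn z (Submodule.mem_sup_left hz)] at this
  exact hx this.symm

theorem E_le (x : V) (hx : x ≠ 0) :
    Z.map (LinearMap.applyₗ x) ⊔ Submodule.span K {x} ≤ (Z.comap (sr x)).dualCoannihilator := by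
  apply sup_le
  · rintro _ ⟨z, hz, rfl⟩
    rw [Submodule.mem_dualCoannihilator]
    intro φ hφ
    exact (ann_both T h0 hT A Z hn x hx φ hφ z hz).2
  · rw [Submodule.span_singleton_le_iff_mem, Submodule.mem_dualCoannihilator]
    intro φ hφ
    exact (ann_both T h0 hT A Z hn x hx φ hφ 0 Z.zero_mem).1

theorem E_dim (x : V) (hx : x ≠ 0) :
    finrank K (Z.map (LinearMap.applyₗ x) ⊔ Submodule.span K {x} : Submodule K V) =
      finrank K (Z.map (LinearMap.applyₗ x)) + 1 := by
  have h := Submodule.finrank_sup_add_finrank_inf_eq (Z.map (LinearMap.applyₗ x))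
    (Submodule.span K {x})
  rw [(Submodule.disjoint_span_singleton' hx).mpr (notin_Zx T h0 hT A Z hn x hx) |>.eq_bot,
    finrank_bot, finrank_span_singleton hx] at h
  omega

theorem D_le (x : V) (hx : x ≠ 0) :
    finrank K (Z.map (LinearMap.applyₗ x)) + finrank K (Z.comap (sr x)) + 1 ≤ finrank K V := by
  have h1 := Submodule.finrank_mono (E_le T h0 hT A Z hn x hx)
  have h2 := E_dim T h0 hT A Z hn x hx
  have h3 := Subspace.finrank_add_finrank_dualCoannihilator_eq (Z.comap (sr x))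
  omega

omit h0 hT hn in
theorem exists_y (x : V) (z0 : Module.End K V) (hz0 : z0 ∈ Z)
    (hmin : ∀ z ∈ Z, rk (A + z0) ≤ rk (A + z)) (hx : x ≠ 0) (hxr : x ∈ LinearMap.range (A + z0)) :
    ∃ y ∈ (Z.comap (sr x)).dualCoannihilator, (A + z0) y = x := by
  obtain ⟨y0, hy0⟩ := hxr
  by_cases hmem : y0 ∈ (Z.comap (sr x)).dualCoannihilator ⊔ LinearMap.ker (A + z0)
  · obtain ⟨y, hy, k, hk, rfl⟩ := Submodule.mem_sup.mp hmem
    refine ⟨y, hy, ?_⟩
    rw [map_add, LinearMap.mem_ker.mp hk, add_zero] at hy0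
    exact hy0
  · exfalso
    obtain ⟨f, hf, hf0⟩ := Submodule.exists_dual_map_eq_bot_of_notMem hmem inferInstance
    have hv : ∀ v ∈ (Z.comap (sr x)).dualCoannihilator ⊔ LinearMap.ker (A + z0), f v = 0 := by
      intro v hv
      have : f v ∈ Submodule.map f _ := ⟨v, hv, rfl⟩
      rwa [hf0, Submodule.mem_bot] at this
    have hfΦ : f ∈ Z.comap (sr x) := by
      rw [← Subspace.dualCoannihilator_dualAnnihilator_eq (W := Z.comap (sr x)),
        Submodule.mem_dualAnnihilator]
      exact fun w hw => hv w (Submodule.mem_sup_left hw)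
    have hz1 : z0 - (f y0)⁻¹ • sr x f ∈ Z := sub_mem hz0 (Z.smul_mem _ hfΦ)
    have hlt : LinearMap.ker (A + z0) < LinearMap.ker (A + (z0 - (f y0)⁻¹ • sr x f)) := by
      apply lt_of_le_of_ne
      · intro k hk
        rw [LinearMap.mem_ker, ← add_sub_assoc, LinearMap.sub_apply, LinearMap.mem_ker.mp hk,
          LinearMap.smul_apply, sr_apply, hv k (Submodule.mem_sup_right hk)]
        simp
      · intro he
        have : y0 ∈ LinearMap.ker (A + (z0 - (f y0)⁻¹ • sr x f)) := by
          rw [LinearMap.mem_ker, ← add_sub_assoc, LinearMap.sub_apply, hy0,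
            LinearMap.smul_apply, sr_apply, smul_smul, inv_mul_cancel₀ hf, one_smul, sub_self]
        rw [← he, LinearMap.mem_ker, hy0] at this
        exact hx this
    have h1 := Submodule.finrank_lt_finrank_of_lt hlt
    have h2 := LinearMap.finrank_range_add_finrank_ker (A + z0)
    have h3 := LinearMap.finrank_range_add_finrank_ker (A + (z0 - (f y0)⁻¹ • sr x f))
    have h4 := hmin _ hz1
    unfold rk at h4
    omega

theorem D_le2 (x : V) (z0 : Module.End K V) (hz0 : z0 ∈ Z)
    (hmin : ∀ z ∈ Z, rk (A + z0) ≤ rk (A + z)) (hx : x ≠ 0) (hxr : x ∈ LinearMap.range (A + z0))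
    (hk : (A + z0) x = 0) :
    finrank K (Z.map (LinearMap.applyₗ x)) + finrank K (Z.comap (sr x)) + 2 ≤ finrank K V := by
  by_contra hcon
  have h2 := E_dim T h0 hT A Z hn x hx
  have h3 := Subspace.finrank_add_finrank_dualCoannihilator_eq (Z.comap (sr x))
  have hE := Submodule.eq_of_le_of_finrank_le (E_le T h0 hT A Z hn x hx) (by omega)
  obtain ⟨y0, hy0, hy⟩ := exists_y A Z x z0 hz0 hmin hx hxr
  set Zx := Z.map (LinearMap.applyₗ x) with hZx
  set E := Zx ⊔ Submodule.span K {x} with hEdef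
  rw [← hE] at hy0
  obtain ⟨y, hyZ, b, hb, rfl⟩ := Submodule.mem_sup.mp hy0
  obtain ⟨c, rfl⟩ := Submodule.mem_span_singleton.mp hb
  rw [map_add, map_smul, hk, smul_zero, add_zero] at hy
  obtain ⟨f, hf, hf0⟩ := Submodule.exists_dual_map_eq_bot_of_notMem
    (notin_Zx T h0 hT A Z hn x hx) inferInstance
  have hv : ∀ v ∈ Zx, f v = 0 := by
    intro v hv
    have : f v ∈ Submodule.map f _ := ⟨v, hv, rfl⟩
    rwa [hf0, Submodule.mem_bot] at this
  obtain ⟨g, hg⟩ := E.subtype.exists_leftInverse_of_injective E.ker_subtype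
  let p : Module.End K V := E.subtype ∘ₗ g
  have hpE : ∀ v, p v ∈ E := fun v => (g v).2
  have hpid : ∀ v ∈ E, p v = v := fun v hv => by
    have := congrArg (fun φ => ((φ ⟨v, hv⟩ : E) : V)) hg
    exact this
  let ψ : Dual K V := (f x)⁻¹ • (f ∘ₗ p)
  have hψ : ∀ v, ψ v = (f x)⁻¹ * f (p v) := fun v => rfl
  let π : Module.End K V := p - sr x ψ
  have hπ : ∀ v, π v = p v - ψ v • x := fun v => rfl
  have hxE : x ∈ E := Submodule.mem_sup_right (Submodule.mem_span_singleton_self x)
  have hπZ : ∀ v, π v ∈ Zx := by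
    intro v
    obtain ⟨w, hw, b, hb, he⟩ := Submodule.mem_sup.mp (hpE v)
    obtain ⟨d, rfl⟩ := Submodule.mem_span_singleton.mp hb
    rw [hπ, hψ, ← he, map_add, hv w hw, map_smul, zero_add, smul_eq_mul, mul_comm d,
      ← mul_assoc, inv_mul_cancel₀ hf, one_mul, add_sub_cancel_right]
    exact hw
  have hπid : ∀ w ∈ Zx, π w = w := by
    intro w hw
    rw [hπ, hψ, hpid w (Submodule.mem_sup_left hw), hv w hw, mul_zero, zero_smul, sub_zero]
  let ev : Z →ₗ[K] Zx := (LinearMap.applyₗ x).submoduleMap Z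
  obtain ⟨s, hs⟩ := ev.exists_rightInverse_of_surjective
    (LinearMap.range_eq_top.mpr (LinearMap.submoduleMap_surjective _ _))
  let σ : V →ₗ[K] Module.End K V := Z.subtype ∘ₗ s ∘ₗ π.codRestrict Zx hπZ
  have hq : ∀ v, (1 - p) v = v - p v := fun v => rfl
  refine lemL (finrank K V) T (by omega) (Z ⊔ Submodule.span K {A}) (span_nil T h0 hT A Z hn) x y
    hx (1 - p) π ψ σ (fun v => Submodule.mem_sup_left (s _).2) (fun v => ?_) (fun v => ?_) ?_ ?_ ?_
    ?_ (hπid y hyZ) (fun M hM => ?_) (A + z0)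
    (add_mem (Submodule.mem_sup_right (Submodule.mem_span_singleton_self A))
      (Submodule.mem_sup_left hz0)) hk hy
  · have := congrArg (fun φ => ((φ ⟨π v, hπZ v⟩ : Zx) : V)) hs
    exact this
  · rw [hq, hπ]; abel
  · ext v
    exact hπid _ (hπZ v)
  · ext v
    rw [Module.End.mul_apply, hq, hq, map_sub, hpid _ (hpE v)]; abel
  · rw [hq, hpid x hxE, sub_self]
  · rw [hq, hpid y (Submodule.mem_sup_left hyZ), sub_self]
  · rw [hq, hpid, sub_self]
    rw [hE, Submodule.mem_dualCoannihilator]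
    intro φ hφ
    exact geom_ann T h0 hT A Z hn x φ hφ M hM

omit hn in
theorem flanders (hmax : ∀ z ∈ Z, rk (A + z) ≤ rk A) (x : V) (hk : A x = 0) :
    (∀ z ∈ Z, z x ∈ LinearMap.range A) ∧
      ∀ z ∈ Z, ∀ z' ∈ Z, z' x = 0 → ∀ v, A v = z x → z' v ∈ LinearMap.range A := by
  have h2 : ∀ z ∈ Z, ∀ v, A v = z x → z v ∈ LinearMap.range A := by
    intro z hz v hv
    apply rank_max T h0 hT A z (fun t => hmax _ (Z.smul_mem t hz))
    intro t ht
    refine ⟨t⁻¹ • v - (t⁻¹ * t⁻¹) • x, ?_⟩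
    simp only [LinearMap.add_apply, LinearMap.smul_apply, map_sub, map_smul, hk, hv, smul_zero,
      zero_add, smul_add, smul_smul]
    rw [inv_mul_cancel₀ ht, mul_assoc, inv_mul_cancel₀ ht, mul_one, one_smul]
    abel
  constructor
  · intro z hz
    apply rank_max T h0 hT A z (fun t => hmax _ (Z.smul_mem t hz))
    intro t ht
    refine ⟨t⁻¹ • x, ?_⟩
    simp only [LinearMap.add_apply, LinearMap.smul_apply, map_smul, hk, zero_add, smul_smul]
    rw [inv_mul_cancel₀ ht, one_smul]
  · intro z hz z' hz' hz'x v hv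
    have a1 := h2 z hz v hv
    have a2 := h2 (z + z') (add_mem hz hz') v (by rw [LinearMap.add_apply, hz'x, add_zero, hv])
    have := sub_mem a2 a1
    rwa [LinearMap.add_apply, add_sub_cancel_left] at this

theorem D_le3 (hmax : ∀ z ∈ Z, rk (A + z) ≤ rk A) (x : V) (hx : x ≠ 0) (hk : A x = 0)
    (hxr : x ∉ LinearMap.range A) :
    finrank K (Z.map (LinearMap.applyₗ x)) + finrank K (Z.comap (sr x)) ≤ rk A ∧
    ∀ z0 ∈ Z, (∀ z ∈ Z, rk (A + z0) ≤ rk (A + z)) → x ∈ LinearMap.range (A + z0) → z0 x = 0 →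
      finrank K (Z.map (LinearMap.applyₗ x)) + finrank K (Z.comap (sr x)) + 1 ≤ rk A := by
  obtain ⟨f1, f2⟩ := flanders T h0 hT A Z hmax x hk
  set Zx := Z.map (LinearMap.applyₗ x) with hZx
  have hle : Zx.comap A ≤ (Z.comap (sr x)).dualCoannihilator := by
    rintro v ⟨z, hz, hv⟩
    rw [Submodule.mem_dualCoannihilator]
    intro φ hφ
    have := f2 z hz (sr x φ) hφ
      (by rw [sr_apply, (ann_both T h0 hT A Z hn x hx φ hφ 0 Z.zero_mem).1, zero_smul]) v hv.symm
    by_contra hc
    apply hxr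
    have h := Submodule.smul_mem _ (φ v)⁻¹ this
    rwa [sr_apply, smul_smul, inv_mul_cancel₀ hc, one_smul] at h
  have hd := finrank_map_inf (Zx.comap A) A
  rw [Submodule.map_comap_eq_self (by rintro _ ⟨z, hz, rfl⟩; exact f1 z hz),
    inf_eq_right.mpr (by
      intro k hk
      rw [Submodule.mem_comap, LinearMap.mem_ker.mp hk]
      exact Zx.zero_mem)] at hd
  have h3 := Subspace.finrank_add_finrank_dualCoannihilator_eq (Z.comap (sr x))
  have h4 := LinearMap.finrank_range_add_finrank_ker A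
  have h5 := Submodule.finrank_mono hle
  unfold rk
  refine ⟨by omega, fun z0 hz0 hmin hr hz0x => ?_⟩
  obtain ⟨y, hy, hyx⟩ := exists_y A Z x z0 hz0 hmin hx hr
  have hlt : Zx.comap A < (Z.comap (sr x)).dualCoannihilator := by
    apply lt_of_le_of_ne hle
    intro he
    rw [← he] at hy
    obtain ⟨z, hz, hv⟩ := hy
    have := f2 z hz z0 hz0 hz0x y hv.symm
    apply hxr
    rw [← hyx, LinearMap.add_apply]
    exact add_mem ⟨y, rfl⟩ this
  have := Submodule.finrank_lt_finrank_of_lt hlt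
  omega

end

end Pool.Agent.H14.An
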