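import Pool.Agent.H14.An3

namespace Pool.Agent.H14.An

open Module Finset

universe u v
variable {K : Type v} [Field K]

section
variable {V : Type u} [AddCommGroup V] [Module K V] [FiniteDimensional K V]

theorem quot_data (x : V) (hx : x ≠ 0) :
    ∃ bar : Module.End K V →ₗ[K] Module.End K (V ⧸ Submodule.span K {x}),
      (∀ M : Module.End K V, M x = 0 → IsNilpotent M → IsNilpotent (bar M)) ∧
      (∀ M : Module.End K V, M x = 0 → x ∈ LinearMap.range M → rk (bar M) + 1 = rk M) ∧
      (∀ M : Module.End K V, M x = 0 → x ∉ LinearMap.range M → rk (bar M) = rk M) ∧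
      (∀ M : Module.End K V, M x = 0 → bar M = 0 → ∃ φ, sr x φ = M) := by
  set p := (Submodule.span K {x}).mkQ with hp
  obtain ⟨s, hs⟩ := p.exists_rightInverse_of_surjective (Submodule.range_mkQ _)
  have hs' : ∀ w, p (s w) = w := fun w => congrArg (fun φ => φ w) hs
  let bar : Module.End K V →ₗ[K] Module.End K (V ⧸ Submodule.span K {x}) :=
    { toFun := fun M => p ∘ₗ M ∘ₗ s
      map_add' := fun a b => LinearMap.ext fun w => by simp
      map_smul' := fun c a => LinearMap.ext fun w => by simp }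
  have hker : ∀ v, p v = 0 ↔ v ∈ Submodule.span K {x} := fun v => Submodule.Quotient.mk_eq_zero _
  have hb : ∀ M : Module.End K V, M x = 0 → ∀ v, bar M (p v) = p (M v) := by
    intro M hM v
    have : s (p v) - v ∈ Submodule.span K {x} := by rw [← hker, map_sub, hs', sub_self]
    obtain ⟨c, hc⟩ := Submodule.mem_span_singleton.mp this
    have e : s (p v) = v + c • x := by rw [hc]; abel
    show p (M (s (p v))) = p (M v)
    rw [e, map_add, map_smul, hM, smul_zero, add_zero]
  have hr : ∀ M : Module.End K V, M x = 0 → rk (bar M) +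
      finrank K (LinearMap.range M ⊓ Submodule.span K {x} : Submodule K V) = rk M := by
    intro M hM
    have h := finrank_map_inf (LinearMap.range M) p
    rw [hp, Submodule.ker_mkQ, ← hp] at h
    have e : LinearMap.range (bar M) = (LinearMap.range M).map p := by
      apply le_antisymm
      · rintro _ ⟨w, rfl⟩
        exact ⟨M (s w), ⟨_, rfl⟩, rfl⟩
      · rintro _ ⟨_, ⟨v, rfl⟩, rfl⟩
        exact ⟨p v, hb M hM v⟩
    unfold rk
    rw [e, h]
  refine ⟨bar, fun M hM ⟨k, hk⟩ => ⟨k, ?_⟩, fun M hM h => ?_, fun M hM h => ?_, fun M hM h => ?_⟩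
  · have : ∀ j v, (bar M ^ j) (p v) = p ((M ^ j) v) := by
      intro j
      induction j with
      | zero => simp
      | succ j ih => intro v; rw [pow_succ, pow_succ, Module.End.mul_apply, hb M hM, ih]; rfl
    apply LinearMap.ext
    intro w
    rw [← hs' w, this, hk]; simp
  · rw [← hr M hM, inf_eq_right.mpr ((Submodule.span_singleton_le_iff_mem _ _).mpr h),
      finrank_span_singleton hx]
  · rw [← hr M hM, ((Submodule.disjoint_span_singleton' hx).mpr h).eq_bot, finrank_bot, add_zero]
  · obtain ⟨ℓ, hℓ⟩ := Module.Projective.exists_dual_eq_one K hx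
    refine ⟨ℓ ∘ₗ M, LinearMap.ext fun v => ?_⟩
    have : M v ∈ Submodule.span K {x} := by rw [← hker, ← hb M hM, h]; rfl
    obtain ⟨c, hc⟩ := Submodule.mem_span_singleton.mp this
    rw [sr_apply, LinearMap.comp_apply, ← hc, map_smul, hℓ, smul_eq_mul, mul_one]

theorem dim_split (x : V) (Z : Submodule K (Module.End K V)) {W : Type*} [AddCommGroup W]
    [Module K W] (bar : Module.End K V →ₗ[K] W)
    (h : ∀ M : Module.End K V, M x = 0 → bar M = 0 → ∃ φ, sr x φ = M) :
    finrank K Z ≤ finrank K (Z.map (LinearMap.applyₗ x)) + finrank K (Z.comap (sr x)) +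
      finrank K ((Z ⊓ LinearMap.ker (LinearMap.applyₗ x) : Submodule K _).map bar) := by
  have h1 := finrank_map_inf Z (LinearMap.applyₗ x : Module.End K V →ₗ[K] V)
  have h2 := finrank_map_inf (Z ⊓ LinearMap.ker (LinearMap.applyₗ x : Module.End K V →ₗ[K] V)) bar
  have h3 : (Z ⊓ LinearMap.ker (LinearMap.applyₗ x : Module.End K V →ₗ[K] V)) ⊓ LinearMap.ker bar ≤
      (Z.comap (sr x)).map (sr x) := by
    rintro M ⟨⟨hZ, hx⟩, hb⟩
    obtain ⟨φ, rfl⟩ := h M hx hb
    exact ⟨φ, hZ, rfl⟩
  have h4 := Submodule.finrank_mono h3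
  have h5 := Submodule.finrank_map_le (sr x) (Z.comap (sr x))
  omega

end

theorem choose_succ (n : ℕ) : (n + 1).choose 2 = n.choose 2 + n := by
  rw [Nat.choose_succ_succ' n 1, Nat.choose_one_right, add_comm]

theorem main (T : Finset K) (h0 : (0 : K) ∉ T) (n : ℕ) :
    ∀ (V : Type u) [AddCommGroup V] [Module K V] [FiniteDimensional K V], finrank K V = n →
      n + 1 < T.card → ∀ (A : Module.End K V) (Z : Submodule K (Module.End K V)) (ρ r : ℕ),
      (∀ z ∈ Z, IsNilpotent (A + z)) → (∀ z ∈ Z, ρ ≤ rk (A + z)) → (∀ z ∈ Z, rk (A + z) ≤ r) →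
      finrank K Z + (n - r).choose 2 + ρ ≤ n.choose 2 := by
  induction n with
  | zero =>
    intro V _ _ _ hV _ A Z ρ r _ hρ _
    have h1 : finrank K Z ≤ finrank K (Module.End K V) := Submodule.finrank_le Z
    rw [Module.finrank_linearMap, hV] at h1
    have h2 := hρ 0 Z.zero_mem
    have h3 : rk (A + 0) ≤ finrank K V := Submodule.finrank_le _
    simp only [Nat.zero_sub, Nat.choose_zero_succ]
    omega
  | succ n ih =>
    intro V _ _ _ hV hT
    have step : ∀ (A : Module.End K V) (Z : Submodule K (Module.End K V)) (ρ : ℕ) (x : V),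
        (∀ z ∈ Z, IsNilpotent (A + z)) → (∀ z ∈ Z, ρ ≤ rk (A + z)) →
        (∀ z ∈ Z, rk (A + z) ≤ rk A) → x ≠ 0 → A x = 0 →
        (x ∉ LinearMap.range A ∨
          ∀ z ∈ Z, z x = 0 → rk (A + z) = rk A → x ∈ LinearMap.range (A + z)) →
        finrank K Z + (n + 1 - rk A).choose 2 + ρ ≤ (n + 1).choose 2 := by
      intro A Z ρ x hn hρ hmax hx hk hcase
      obtain ⟨bar, b1, b2, b3, b4⟩ := quot_data (K := K) x hx
      have hsplit := dim_split x Z bar b4
      have hq : finrank K (V ⧸ Submodule.span K {x}) = n := by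
        have := Submodule.finrank_quotient_add_finrank (Submodule.span K {x})
        rw [finrank_span_singleton hx] at this
        omega
      have hT' : finrank K V + 1 < T.card := by omega
      set Zb := (Z ⊓ LinearMap.ker (LinearMap.applyₗ x) : Submodule K _).map bar with hZb
      have hk' : ∀ z : Module.End K V, z x = 0 → (A + z) x = 0 := fun z hz => by
        rw [LinearMap.add_apply, hk, hz, add_zero]
      have IH : ∀ ρ' r', (∀ z ∈ Z, z x = 0 → ρ' ≤ rk (bar (A + z)) ∧ rk (bar (A + z)) ≤ r') →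
          finrank K Zb + (n - r').choose 2 + ρ' ≤ n.choose 2 := by
        intro ρ' r' h
        refine ih _ hq (by omega) (bar A) Zb ρ' r' ?_ ?_ ?_
        · rintro _ ⟨z, ⟨hz, hzx⟩, rfl⟩
          rw [← map_add]
          exact b1 _ (hk' z hzx) (hn z hz)
        · rintro _ ⟨z, ⟨hz, hzx⟩, rfl⟩
          rw [← map_add]
          exact (h z hz hzx).1
        · rintro _ ⟨z, ⟨hz, hzx⟩, rfl⟩
          rw [← map_add]
          exact (h z hz hzx).2
      have hrn : rk A ≤ n := by
        have h4 := LinearMap.finrank_range_add_finrank_ker A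
        have : 0 < finrank K (LinearMap.ker A) :=
          finrank_pos_iff_exists_ne_zero.mpr ⟨⟨x, hk⟩, fun h => hx (congrArg Subtype.val h)⟩
        unfold rk
        omega
      have hb : ∀ z ∈ Z, z x = 0 → (x ∈ LinearMap.range (A + z) ∧
          rk (bar (A + z)) + 1 = rk (A + z)) ∨ (x ∉ LinearMap.range (A + z) ∧
          rk (bar (A + z)) = rk (A + z)) := by
        intro z _ hzx
        by_cases h : x ∈ LinearMap.range (A + z)
        · exact Or.inl ⟨h, b2 _ (hk' z hzx) h⟩
        · exact Or.inr ⟨h, b3 _ (hk' z hzx) h⟩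
      have hc1 := choose_succ n
      -- lower bounds
      have low : ∃ ρ', (∀ z ∈ Z, z x = 0 → ρ' ≤ rk (bar (A + z))) ∧ (ρ' = ρ ∨ (ρ' + 1 = ρ ∧
          ∃ z0 ∈ Z, z0 x = 0 ∧ (∀ z ∈ Z, rk (A + z0) ≤ rk (A + z)) ∧
            x ∈ LinearMap.range (A + z0))) := by
        by_cases hM : ∃ z0 ∈ Z, z0 x = 0 ∧ rk (A + z0) = ρ ∧ x ∈ LinearMap.range (A + z0)
        · obtain ⟨z0, hz0, hz0x, hr0, hx0⟩ := hM
          have := b2 _ (hk' z0 hz0x) hx0
          refine ⟨ρ - 1, fun z hz hzx => ?_, Or.inr ⟨by omega, z0, hz0, hz0x, fun z hz => ?_, hx0⟩⟩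
          · have := hρ z hz
            rcases hb z hz hzx with h | h <;> omega
          · rw [hr0]; exact hρ z hz
        · refine ⟨ρ, fun z hz hzx => ?_, Or.inl rfl⟩
          have := hρ z hz
          rcases hb z hz hzx with h | h
          · have : rk (A + z) ≠ ρ := fun e => hM ⟨z, hz, hzx, e, h.1⟩
            omega
          · omega
      obtain ⟨ρ', hl, hρ'⟩ := low
      by_cases hxr : x ∈ LinearMap.range A
      · have hall := hcase.resolve_left (not_not.mpr hxr)
        have hA1 := b2 A hk hxr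
        have := IH ρ' (rk A - 1) (fun z hz hzx => ⟨hl z hz hzx, by
          have := hmax z hz
          rcases hb z hz hzx with h | h
          · omega
          · have : rk (A + z) ≠ rk A := fun e => h.1 (hall z hz hzx e)
            omega⟩)
        rw [show n - (rk A - 1) = n + 1 - rk A by omega] at this
        have d1 := D_le T h0 hT' A Z hn x hx
        rcases hρ' with e | ⟨e, z0, hz0, hz0x, hmin, hx0⟩
        · omega
        · have d2 := D_le2 T h0 hT' A Z hn x z0 hz0 hmin hx hx0 (hk' z0 hz0x)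
          omega
      · have := IH ρ' (rk A) (fun z hz hzx => ⟨hl z hz hzx, by
          have := hmax z hz
          rcases hb z hz hzx with h | h <;> omega⟩)
        obtain ⟨d1, d2⟩ := D_le3 T h0 hT' A Z hn hmax x hx hk hxr
        have hc2 := choose_succ (n - rk A)
        rw [show n + 1 - rk A = n - rk A + 1 by omega, hc2]
        rcases hρ' with e | ⟨e, z0, hz0, hz0x, hmin, hx0⟩
        · omega
        · have := d2 z0 hz0 hmin hx0 hz0x
          omega
    intro A Z ρ r hn hρ hr
    have hbdd : BddAbove ((fun z => rk (A + z)) '' Z) := ⟨r, by rintro _ ⟨z, hz, rfl⟩; exact hr z hz⟩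
    obtain ⟨z1, hz1, he1⟩ := Nat.sSup_mem (s := (fun z => rk (A + z)) '' Z) ⟨_, 0, Z.zero_mem, rfl⟩ hbdd
    have hmax : ∀ z ∈ Z, rk (A + z) ≤ rk (A + z1) := fun z hz => by
      have := le_csSup hbdd ⟨z, hz, rfl⟩
      simp only at he1 this
      omega
    have fin : ∀ z2 ∈ Z, rk (A + z2) = rk (A + z1) → ∀ x, x ≠ 0 → (A + z2) x = 0 →
        (x ∉ LinearMap.range (A + z2) ∨ ∀ z ∈ Z, z x = 0 → rk (A + z2 + z) = rk (A + z2) →
          x ∈ LinearMap.range (A + z2 + z)) →
        finrank K Z + (n + 1 - r).choose 2 + ρ ≤ (n + 1).choose 2 := by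
      intro z2 hz2 he x hx hk hcase
      have := step (A + z2) Z ρ x (fun z hz => by rw [add_assoc]; exact hn _ (add_mem hz2 hz))
        (fun z hz => by rw [add_assoc]; exact hρ _ (add_mem hz2 hz))
        (fun z hz => by rw [add_assoc, he]; exact hmax _ (add_mem hz2 hz)) hx hk hcase
      have h2 : (n + 1 - r).choose 2 ≤ (n + 1 - rk (A + z2)).choose 2 :=
        Nat.choose_le_choose 2 (by have := hr z2 hz2; omega)
      omega
    have hex : ∃ x, x ≠ 0 ∧ (A + z1) x = 0 := by
      by_contra hc
      push Not at hc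
      have hinj : Function.Injective (A + z1) := by
        rw [injective_iff_map_eq_zero]
        intro a ha
        by_contra h
        exact hc a h ha
      obtain ⟨k, hk⟩ := hn z1 hz1
      obtain ⟨a, ha⟩ := (finrank_pos_iff_exists_ne_zero (R := K) (M := V)).mp (by omega)
      have := Module.End.iterate_injective hinj k
      exact ha (this (by rw [hk]; simp))
    obtain ⟨x, hx, hk⟩ := hex
    by_cases hcase : ∀ z ∈ Z, z x = 0 → rk (A + z1 + z) = rk (A + z1) →
        x ∈ LinearMap.range (A + z1 + z)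
    · exact fin z1 hz1 rfl x hx hk (Or.inr hcase)
    · push Not at hcase
      obtain ⟨z, hz, hzx, he, hxr⟩ := hcase
      rw [add_assoc] at he hxr
      exact fin (z1 + z) (add_mem hz1 hz) he x hx
        (by rw [← add_assoc, LinearMap.add_apply, hk, hzx, add_zero]) (Or.inl hxr)

end Pool.Agent.H14.An
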