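import Mathlib

set_option autoImplicit false

namespace Pool.Agent.H14.BE

open Finset

lemma pair_sq {α : Type} [Fintype α] (F : α → ℝ) :
    ∑ a, ∑ b, (F a - F b) ^ 2 = 2 * (Fintype.card α * ∑ a, F a ^ 2 - (∑ a, F a) ^ 2) := by
  have : ∀ a b, (F a - F b) ^ 2 = F a ^ 2 + F b ^ 2 - 2 * (F a * F b) := fun a b => by ring
  simp only [this, sum_sub_distrib, sum_add_distrib, ← mul_sum, ← sum_mul, sum_const, card_univ,
    nsmul_eq_mul]
  ring

variable {q : ℕ} [NeZero q]

lemma poin1 (F : ZMod q → ℝ) :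
    q * ∑ a, F a ^ 2 - (∑ a, F a) ^ 2 ≤ q ^ 3 * ∑ a, (F (a + 1) - F a) ^ 2 := by
  have h1 : ∀ a b, (F a - F b) ^ 2 ≤ q * ∑ a, (F (a + 1) - F a) ^ 2 := by
    intro a b
    have h2 := sum_range_sub (fun t : ℕ => F (b + t)) (a - b).val
    simp only [ZMod.natCast_zmod_val, add_sub_cancel, Nat.cast_zero, add_zero] at h2
    rw [← h2]
    refine sq_sum_le_card_mul_sum_sq.trans (mul_le_mul ?_ ?_ (by positivity) (by positivity))
    · rw [card_range]
      exact_mod_cast (ZMod.val_lt _).le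
    · have h3 : Set.InjOn (fun t : ℕ => b + (t : ZMod q)) (range (a - b).val) := by
        intro s hs t ht e
        have h4 := ZMod.val_lt (a - b)
        have e' := congrArg ZMod.val (add_left_cancel e)
        rwa [ZMod.val_cast_of_lt (by simp at hs; omega),
          ZMod.val_cast_of_lt (by simp at ht; omega)] at e'
      have h4 := sum_image (f := fun c => (F (c + 1) - F c) ^ 2) h3
      simp only [Nat.cast_add, Nat.cast_one, ← add_assoc]
      rw [← h4]
      exact sum_le_sum_of_subset_of_nonneg (subset_univ _) fun _ _ _ => by positivity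
  have h2 := sum_le_sum fun a (_ : a ∈ univ) => sum_le_sum fun b (_ : b ∈ univ) => h1 a b
  rw [pair_sq] at h2
  simp only [sum_const, card_univ, ZMod.card, nsmul_eq_mul] at h2
  have : 0 ≤ (q : ℝ) ^ 3 * ∑ a, (F (a + 1) - F a) ^ 2 := by positivity
  nlinarith

lemma sum_cons {h : ℕ} (f : (Fin (h + 1) → ZMod q) → ℝ) :
    ∑ x, f x = ∑ a, ∑ y : Fin h → ZMod q, f (Fin.cons a y) := by
  rw [← (Fin.consEquiv fun _ => ZMod q).sum_comp, Fintype.sum_prod_type]
  rfl

lemma poin (h : ℕ) : ∀ f : (Fin h → ZMod q) → ℝ,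
    q ^ h * ∑ x, f x ^ 2 - (∑ x, f x) ^ 2 ≤
      q ^ h * q ^ 2 * ∑ x, ∑ j, (f (x + Pi.single j 1) - f x) ^ 2 := by
  induction h with
  | zero => intro f; simp
  | succ h ih =>
    intro f
    have e0 : ∀ (a : ZMod q) (y : Fin h → ZMod q),
        (Fin.cons a y : Fin (h + 1) → ZMod q) + Pi.single 0 1 = Fin.cons (a + 1) y := by
      intro a y
      funext i
      refine Fin.cases ?_ (fun i => ?_) i <;> simp
    have e1 : ∀ (a : ZMod q) (y : Fin h → ZMod q) (j : Fin h),
        (Fin.cons a y : Fin (h + 1) → ZMod q) + Pi.single j.succ 1 =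
          Fin.cons a (y + Pi.single j 1) := by
      intro a y j
      funext i
      refine Fin.cases ?_ (fun i => ?_) i
      · simp
      · simp [Pi.single_apply]
    simp only [sum_cons, Fin.sum_univ_succ, e0, e1, sum_add_distrib]
    have h1 := sum_le_sum fun a (_ : a ∈ univ) => ih fun y => f (Fin.cons a y)
    have h2 := poin1 fun a => ∑ y : Fin h → ZMod q, f (Fin.cons a y)
    have h3 : ∀ a : ZMod q, (∑ y : Fin h → ZMod q, f (Fin.cons (a + 1) y) -
        ∑ y : Fin h → ZMod q, f (Fin.cons a y)) ^ 2 ≤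
        q ^ h * ∑ y : Fin h → ZMod q, (f (Fin.cons (a + 1) y) - f (Fin.cons a y)) ^ 2 := by
      intro a
      rw [← sum_sub_distrib]
      simpa using sq_sum_le_card_mul_sum_sq (s := (univ : Finset (Fin h → ZMod q)))
        (f := fun y => f (Fin.cons (a + 1) y) - f (Fin.cons a y))
    have h4 := mul_le_mul_of_nonneg_left (sum_le_sum fun a (_ : a ∈ univ) => h3 a)
      (show (0 : ℝ) ≤ q ^ 3 by positivity)
    have h5 := mul_le_mul_of_nonneg_left h1 (show (0 : ℝ) ≤ q by positivity)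
    simp only [sum_sub_distrib, ← mul_sum] at h4 h5
    rw [pow_succ]
    nlinarith

lemma conc (χ : ZMod q → ℂ) (s : ℝ) (hs : ∀ a, ‖χ (a + 1) - χ a‖ ≤ s) (hq : q * s ≤ 7) (h : ℕ)
    (R : ℝ) (hR : 0 < R) (hh : h * s ^ 2 ≤ R) (A B : Finset (Fin h → ZMod q))
    (hAB : ∀ a ∈ A, ∀ b ∈ B, R ≤ ∑ j, ‖χ (b j) - χ (a j)‖ ^ 2) :
    (A.card : ℝ) * B.card * R ≤ 1960 * ((q : ℝ) ^ h) ^ 2 := by
  classical
  rcases A.eq_empty_or_nonempty with rfl | hA
  · simp only [card_empty, Nat.cast_zero, zero_mul]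
    positivity
  have hs0 : 0 ≤ s := (norm_nonneg _).trans (hs 0)
  let D : (Fin h → ZMod q) → (Fin h → ZMod q) → ℝ := fun x a => ∑ j, ‖χ (x j) - χ (a j)‖ ^ 2
  choose m hm hm' using fun x => exists_min_image A (D x) hA
  let g : (Fin h → ZMod q) → ℝ := fun x => min (D x (m x)) R
  let U : (Fin h → ZMod q) → Fin h → ℝ := fun x j =>
    if D x (m x) < R then 2 * s * ‖χ (x j) - χ (m x j)‖ + s ^ 2 else 0
  have hU0 : ∀ x j, 0 ≤ U x j := fun x j => by
    simp only [U]
    split_ifs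
    · positivity
    · rfl
  have hup : ∀ x x' j, (∀ i, i ≠ j → x' i = x i) → ‖χ (x' j) - χ (x j)‖ ≤ s →
      g x' - g x ≤ U x j := by
    intro x x' j h1 h2
    simp only [U, g]
    split_ifs with h3
    · have a1 : D x' (m x) - D x (m x) =
          ‖χ (x' j) - χ (m x j)‖ ^ 2 - ‖χ (x j) - χ (m x j)‖ ^ 2 := by
        simp only [D]
        rw [← sum_sub_distrib, sum_eq_single j (fun i _ hi => by rw [h1 i hi, sub_self]) (by simp)]
      have a2 : ‖χ (x' j) - χ (m x j)‖ ≤ s + ‖χ (x j) - χ (m x j)‖ :=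
        (norm_sub_le_norm_sub_add_norm_sub _ (χ (x j)) _).trans (by linarith)
      have a3 := pow_le_pow_left₀ (norm_nonneg _) a2 2
      have a4 := (min_le_left _ R).trans (hm' x' _ (hm x))
      rw [min_eq_left h3.le]
      nlinarith
    · rw [min_eq_right (not_lt.1 h3)]
      linarith [min_le_right (D x' (m x')) R]
  have hedge : ∀ x j, (g (x + Pi.single j 1) - g x) ^ 2 ≤
      U x j ^ 2 + U (x + Pi.single j 1) j ^ 2 := by
    intro x j
    have a1 := hup x (x + Pi.single j 1) j (fun i hi => by simp [hi]) (by simpa using hs _)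
    have a2 := hup (x + Pi.single j 1) x j (fun i hi => by simp [hi])
      (by rw [norm_sub_rev]; simpa using hs _)
    have a3 := hU0 x j
    have a4 := hU0 (x + Pi.single j 1) j
    rcases le_total (g x) (g (x + Pi.single j 1)) with a | a <;> nlinarith
  have hUs : ∀ x, ∑ j, U x j ^ 2 ≤ 10 * s ^ 2 * R := by
    intro x
    simp only [U]
    split_ifs with h3
    · have a1 : ∀ j, (2 * s * ‖χ (x j) - χ (m x j)‖ + s ^ 2) ^ 2 ≤
          8 * s ^ 2 * ‖χ (x j) - χ (m x j)‖ ^ 2 + 2 * s ^ 2 * s ^ 2 := fun j => by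
        nlinarith [sq_nonneg (2 * s * ‖χ (x j) - χ (m x j)‖ - s ^ 2)]
      refine (sum_le_sum fun j _ => a1 j).trans ?_
      simp only [sum_add_distrib, ← mul_sum, sum_const, card_univ, Fintype.card_fin, nsmul_eq_mul]
      simp only [D] at h3
      nlinarith [sq_nonneg s]
    · simp only [ne_eq, OfNat.ofNat_ne_zero, not_false_eq_true, zero_pow, sum_const_zero]
      positivity
  have hE : ∑ x, ∑ j, (g (x + Pi.single j 1) - g x) ^ 2 ≤ 2 * (q ^ h * (10 * s ^ 2 * R)) := by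
    refine (sum_le_sum fun x _ => sum_le_sum fun j _ => hedge x j).trans ?_
    simp only [sum_add_distrib]
    have a1 : ∑ x : Fin h → ZMod q, ∑ j, U (x + Pi.single j 1) j ^ 2 = ∑ x, ∑ j, U x j ^ 2 := by
      rw [sum_comm, sum_comm (f := fun x j => U x j ^ 2)]
      exact sum_congr rfl fun j _ => Equiv.sum_comp (Equiv.addRight (Pi.single j 1)) fun x => U x j ^ 2
    have a2 := sum_le_sum fun x (_ : x ∈ univ) => hUs x
    simp only [sum_const, card_univ, Fintype.card_fun, ZMod.card, Fintype.card_fin, nsmul_eq_mul,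
      Nat.cast_pow] at a2
    linarith
  have hV : (A.card : ℝ) * B.card * R ^ 2 ≤ ∑ a, ∑ b, (g a - g b) ^ 2 := by
    have a1 : ∀ a ∈ A, ∀ b ∈ B, R ^ 2 = (g a - g b) ^ 2 := by
      intro a ha b hb
      have b1 : D a (m a) = 0 := le_antisymm ((hm' a a ha).trans (by simp [D]))
        (sum_nonneg fun _ _ => by positivity)
      simp only [g]
      rw [b1, min_eq_left hR.le, min_eq_right (hAB _ (hm b) b hb)]
      ring
    calc _ = ∑ a ∈ A, ∑ b ∈ B, R ^ 2 := by simp [mul_assoc]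
      _ = ∑ a ∈ A, ∑ b ∈ B, (g a - g b) ^ 2 :=
        sum_congr rfl fun a ha => sum_congr rfl fun b hb => a1 a ha b hb
      _ ≤ ∑ a ∈ A, ∑ b, (g a - g b) ^ 2 := sum_le_sum fun a _ =>
        sum_le_sum_of_subset_of_nonneg (subset_univ _) fun _ _ _ => by positivity
      _ ≤ _ := sum_le_sum_of_subset_of_nonneg (subset_univ _) fun _ _ _ => by positivity
  rw [pair_sq] at hV
  simp only [Fintype.card_fun, ZMod.card, Fintype.card_fin, Nat.cast_pow] at hV
  have h1 := (poin h g).trans (mul_le_mul_of_nonneg_left hE (by positivity))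
  have h2 : ((q : ℝ) * s) ^ 2 ≤ 7 ^ 2 := pow_le_pow_left₀ (by positivity) hq 2
  have h3 : (q : ℝ) ^ h * q ^ 2 * (2 * (q ^ h * (10 * s ^ 2 * R))) =
      20 * (q ^ h) ^ 2 * R * (q * s) ^ 2 := by ring
  have h4 : 20 * ((q : ℝ) ^ h) ^ 2 * R * (q * s) ^ 2 ≤ 20 * (q ^ h) ^ 2 * R * 7 ^ 2 := by gcongr
  refine le_of_mul_le_mul_right ?_ hR
  nlinarith

end Pool.Agent.H14.BE
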