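import Pool.Agent.H14.BE1

set_option autoImplicit false

namespace Pool.Agent.H14.BE

open Finset

variable {q : ℕ} [NeZero q]

lemma cos_prod (c : ZMod q → ℝ) (r : ZMod q) (hr : ∀ u, c (u + r) = -c u) (h : ℕ) (t : ℝ) :
    ∑ z : Fin h → ZMod q, Real.cos (t * ∑ j, c (z j)) = (∑ u, Real.cos (t * c u)) ^ h := by
  have h0 : ∑ u, Real.sin (t * c u) = 0 := by
    have := Equiv.sum_comp (Equiv.addRight r) fun u => Real.sin (t * c u)
    simp only [Equiv.coe_addRight, hr, mul_neg, Real.sin_neg, sum_neg_distrib] at this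
    linarith
  have h1 : ∑ u, Complex.exp ((t * c u : ℝ) * Complex.I) = (∑ u, Real.cos (t * c u) : ℝ) := by
    simp only [Complex.exp_mul_I, ← Complex.ofReal_cos, ← Complex.ofReal_sin, sum_add_distrib,
      ← sum_mul, ← Complex.ofReal_sum, h0]
    simp
  have h2 := prod_univ_sum (fun _ : Fin h => (univ : Finset (ZMod q)))
    (fun _ u => Complex.exp ((t * c u : ℝ) * Complex.I))
  simp only [h1, prod_const, card_univ, Fintype.card_fin, Fintype.piFinset_univ,
    ← Complex.exp_sum, ← sum_mul, ← Complex.ofReal_sum, ← mul_sum, ← Complex.ofReal_pow] at h2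
  have h3 := congrArg Complex.re h2
  simp only [Complex.ofReal_re, Complex.re_sum, Complex.exp_ofReal_mul_I_re] at h3
  exact h3.symm

lemma anti (c : ZMod q → ℝ) (hc : ∀ u, |c u| ≤ 1) (r : ZMod q) (hr : ∀ u, c (u + r) = -c u)
    (h2 : (q : ℝ) = 2 * ∑ u, c u ^ 2) (μ : ℝ) (hμ : 1 ≤ μ) (L : ℕ) (hL : 0 < L) (h : ℕ)
    (hh : (1 - (1 / (L * μ)) ^ 2 / 16) ^ h ≤ 1 / L) :
    (L : ℝ) * (univ.filter fun z : Fin h → ZMod q => |∑ j, c (z j)| < μ).card ≤ 8 * q ^ h := by
  obtain ⟨θ, hθ⟩ : ∃ θ, θ = 1 / (L * μ) := ⟨_, rfl⟩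
  rw [← hθ] at hh
  have hL' : (1 : ℝ) ≤ L := by exact_mod_cast hL
  have hθ0 : 0 < θ := by rw [hθ]; positivity
  have hθ1 : L * μ * θ = 1 := by rw [hθ]; field_simp
  have hθ2 : L * θ ≤ 1 := by nlinarith [mul_pos (show (0 : ℝ) < L by linarith) hθ0]
  have h1 : ∀ S : ℝ, (if |S| < μ then (L : ℝ) ^ 2 / 4 else 0) ≤
      ∑ k ∈ range L, ∑ l ∈ range L, Real.cos (((k : ℝ) - l) * θ * S) := by
    intro S
    have e : ∑ k ∈ range L, ∑ l ∈ range L, Real.cos (((k : ℝ) - l) * θ * S) =
        (∑ k ∈ range L, Real.cos (k * θ * S)) ^ 2 + (∑ k ∈ range L, Real.sin (k * θ * S)) ^ 2 := by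
      simp only [sub_mul, Real.cos_sub, sq, sum_mul_sum, sum_add_distrib]
    rw [e]
    split_ifs with hS
    · have a1 : ∀ k ∈ range L, (1 / 2 : ℝ) ≤ Real.cos (k * θ * S) := by
        intro k hk
        have b1 : (k : ℝ) ≤ L := by exact_mod_cast (mem_range.1 hk).le
        have b2 : |k * θ * S| ≤ 1 := by
          rw [abs_mul, abs_of_nonneg (by positivity), ← hθ1, mul_right_comm]
          gcongr
        have b3 := sq_le_one_iff_abs_le_one _ |>.2 b2
        linarith [Real.one_sub_sq_div_two_le_cos (x := k * θ * S)]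
      have a2 := card_nsmul_le_sum _ _ _ a1
      rw [card_range, nsmul_eq_mul] at a2
      nlinarith [sq_nonneg (∑ k ∈ range L, Real.sin (k * θ * S))]
    · positivity
  have h3 := sum_le_sum fun z (_ : z ∈ (univ : Finset (Fin h → ZMod q))) => h1 (∑ j, c (z j))
  rw [← sum_filter, sum_const, nsmul_eq_mul, sum_comm] at h3
  simp only [sum_comm (s := (univ : Finset (Fin h → ZMod q))), cos_prod c r hr] at h3
  have h4 : ∀ k ∈ range L, ∀ l ∈ range L, (∑ u, Real.cos (((k : ℝ) - l) * θ * c u)) ^ h ≤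
      q ^ h * ((if l = k then 1 else 0) + 1 / L) := by
    intro k hk l hl
    have b1 : (k : ℝ) < L := by exact_mod_cast mem_range.1 hk
    have b2 : (l : ℝ) < L := by exact_mod_cast mem_range.1 hl
    have b3 : |(k : ℝ) - l| ≤ L := by
      rw [abs_le]
      constructor <;> linarith [Nat.cast_nonneg (α := ℝ) k, Nat.cast_nonneg (α := ℝ) l]
    have b4 : ∀ u, |((k : ℝ) - l) * θ * c u| ≤ 1 := fun u => by
      rw [abs_mul, abs_mul, abs_of_pos hθ0]
      exact mul_le_one₀ ((mul_le_mul_of_nonneg_right b3 hθ0.le).trans hθ2) (abs_nonneg _) (hc u)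
    have b5 : 0 ≤ ∑ u, Real.cos (((k : ℝ) - l) * θ * c u) := sum_nonneg fun u _ => by
      have := sq_le_one_iff_abs_le_one _ |>.2 (b4 u)
      linarith [Real.one_sub_sq_div_two_le_cos (x := ((k : ℝ) - l) * θ * c u)]
    split_ifs with e
    · subst e
      simp only [sub_self, zero_mul, Real.cos_zero, sum_const, card_univ, ZMod.card, nsmul_eq_mul,
        mul_one]
      exact le_mul_of_one_le_right (by positivity) (le_add_of_nonneg_right (by positivity))
    · have b6 : 1 ≤ ((k : ℝ) - l) ^ 2 := by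
        have : (1 : ℤ) ≤ ((k : ℤ) - l) ^ 2 := by
          have : (k : ℤ) - l ≠ 0 := by omega
          exact (by positivity : (0 : ℤ) < ((k : ℤ) - l) ^ 2)
        exact_mod_cast this
      have b7 : ∀ u, Real.cos (((k : ℝ) - l) * θ * c u) ≤ 1 - θ ^ 2 / 8 * c u ^ 2 := by
        intro u
        refine (Real.cos_le_one_sub_mul_cos_sq ((b4 u).trans (by linarith [Real.pi_gt_three]))).trans ?_
        have c1 : 1 / 8 ≤ 2 / Real.pi ^ 2 := by
          rw [div_le_div_iff₀ (by norm_num) (by positivity)]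
          nlinarith [Real.pi_lt_four, Real.pi_pos]
        have c2 : θ ^ 2 * c u ^ 2 ≤ (((k : ℝ) - l) * θ * c u) ^ 2 := by
          rw [mul_pow, mul_pow]
          nlinarith [sq_nonneg (θ * c u)]
        nlinarith [sq_nonneg (θ * c u)]
      have b8 := sum_le_sum fun u (_ : u ∈ univ) => b7 u
      simp only [sum_sub_distrib, ← mul_sum, sum_const, card_univ, ZMod.card, nsmul_eq_mul] at b8
      have b9 : ∑ u, Real.cos (((k : ℝ) - l) * θ * c u) ≤ q * (1 - θ ^ 2 / 16) := by
        nlinarith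
      refine (pow_le_pow_left₀ b5 b9 h).trans ?_
      rw [mul_pow, zero_add]
      gcongr
  have h5 := h3.trans (sum_le_sum fun k hk => sum_le_sum fun l hl => h4 k hk l hl)
  simp only [← mul_sum, sum_add_distrib, sum_ite_eq', sum_const, card_range, nsmul_eq_mul] at h5
  rw [sum_congr rfl fun k hk => if_pos hk] at h5
  simp only [sum_const, card_range, nsmul_eq_mul] at h5
  have e : (L : ℝ) * 1 + L * (L * (1 / L)) = 2 * L := by field_simp; norm_num
  rw [e] at h5
  refine le_of_mul_le_mul_left ?_ (show (0 : ℝ) < L / 4 by positivity)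
  nlinarith

open Classical in
lemma exists_BE (K : ℕ) (hK : 0 < K) : ∃ (N : ℕ) (I C : Fin N → Fin N → Prop), 0 < N ∧
    (∀ a b, I a b → I b a) ∧ (∀ a b, C a b → C b a) ∧ (∀ a, ¬ I a a) ∧
    (∀ a b c, I a b → I b c → I a c → False) ∧
    (∀ a b c d, I a b → I c d → C a c → C a d → C b c → C b d → False) ∧
    (∀ A : Finset (Fin N), (∀ a ∈ A, ∀ b ∈ A, ¬ I a b) → K * A.card ≤ N) ∧
    ∀ a, 2 * (univ.filter (C a)).card ≤ N ∧ K * N ≤ 2 * K * (univ.filter (C a)).card + N := by
  obtain ⟨R, hR⟩ : ∃ R : ℝ, R = 1960 * K ^ 2 := ⟨_, rfl⟩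
  have hK' : (1 : ℝ) ≤ K := by exact_mod_cast hK
  have hR4 : 4 ≤ R := by nlinarith
  obtain ⟨h0, hh0⟩ := exists_pow_lt_of_lt_one (show (0 : ℝ) < 1 / (8 * K : ℕ) by positivity)
    (show 1 - (1 / ((8 * K : ℕ) * (R / 4))) ^ 2 / 16 < (1 : ℝ) by
      have : (0 : ℝ) < (1 / ((8 * K : ℕ) * (R / 4))) ^ 2 / 16 := by positivity
      linarith)
  obtain ⟨h, hh1, hh2⟩ : ∃ h : ℕ, h0 ≤ h ∧ R ≤ h := ⟨h0 + ⌈R⌉₊, by omega, by
    push_cast; linarith [Nat.le_ceil R, Nat.cast_nonneg (α := ℝ) h0]⟩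
  have hh3 : (1 - (1 / ((8 * K : ℕ) * (R / 4))) ^ 2 / 16) ^ h ≤ (1 : ℝ) / (8 * K : ℕ) := by
    refine le_trans (pow_le_pow_of_le_one ?_ (sub_le_self _ (by positivity)) hh1) hh0.le
    have : (1 : ℝ) / ((8 * K : ℕ) * (R / 4)) ≤ 1 := by
      rw [div_le_one (by positivity)]
      push_cast
      nlinarith
    have := pow_le_one₀ (n := 2) (by positivity) this
    linarith
  obtain ⟨p, hp⟩ : ∃ p : ℕ, p = 2 * h + 2 := ⟨_, rfl⟩
  have : NeZero (4 * p) := ⟨by omega⟩
  have hp0 : (p : ℂ) ≠ 0 := by exact_mod_cast (show p ≠ 0 by omega)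
  let χ : AddChar (ZMod (4 * p)) ℂ := ZMod.stdAddChar
  have χ1 : ∀ u, ‖χ u‖ = 1 := fun u => by simp [χ, ZMod.stdAddChar_apply]
  have χI : χ ((p : ℤ) : ZMod (4 * p)) = Complex.I := by
    rw [ZMod.stdAddChar_coe]
    refine Eq.trans (congrArg _ ?_) Complex.exp_pi_div_two_mul_I
    push_cast
    field_simp
    norm_num
  obtain ⟨r, hr⟩ : ∃ r, χ r = Complex.I := ⟨_, χI⟩
  have χm : ∀ u, χ (u + (r + r)) = -χ u := fun u => by
    simp [AddChar.map_add_eq_mul, hr]
  have χs : ∀ a, ‖χ (a + 1) - χ a‖ ≤ 7 / (4 * p : ℕ) := by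
    intro a
    rw [AddChar.map_add_eq_mul, ← mul_sub_one, norm_mul, χ1, one_mul]
    have e : χ 1 = Complex.exp (Complex.I * (2 * Real.pi / (4 * p : ℕ) : ℝ)) := by
      have := ZMod.stdAddChar_coe (N := 4 * p) 1
      rw [Int.cast_one] at this
      rw [this]
      congr 1
      push_cast
      ring
    rw [e]
    refine Real.norm_exp_I_mul_ofReal_sub_one_le.trans ?_
    rw [Real.norm_of_nonneg (by positivity)]
    gcongr
    linarith [Real.pi_lt_d2]
  have hq : (0 : ℝ) < (4 * p : ℕ) := by exact_mod_cast (show 0 < 4 * p by omega)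
  let e := (Fintype.equivFin (Fin h → ZMod (4 * p))).symm
  have hOm : (Fintype.card (Fin h → ZMod (4 * p)) : ℝ) = ((4 * p : ℕ) : ℝ) ^ h := by simp
  let S : (Fin h → ZMod (4 * p)) → ℝ := fun z => ∑ j, (χ (z j)).re
  have hre : ∀ a b, (χ (a - b)).re = (χ a).re * (χ b).re + (χ a).im * (χ b).im := by
    intro a b
    rw [AddChar.map_sub_eq_div, Complex.div_re, Complex.normSq_eq_norm_sq, χ1]
    simp
  have hn : ∀ a, (χ a).re ^ 2 + (χ a).im ^ 2 = 1 := fun a => by
    have := Complex.sq_norm (χ a)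
    rw [χ1, Complex.normSq_apply] at this
    nlinarith
  have hsq : ∀ z : ℂ, ‖z‖ ^ 2 = z.re ^ 2 + z.im ^ 2 := fun z => by
    rw [Complex.sq_norm, Complex.normSq_apply]; ring
  refine ⟨Fintype.card (Fin h → ZMod (4 * p)), fun a b => ∑ j, ‖χ (e a j) + χ (e b j)‖ ^ 2 < R,
    fun a b => R / 4 ≤ S (e a - e b), Fintype.card_pos, fun a b => ?_, fun a b => ?_, fun a => ?_,
    fun a b c h1 h2 h3 => ?_, fun a b c d h1 h2 h3 h4 h5 h6 => ?_, fun A hA => ?_, fun a => ?_⟩
  · simp only [add_comm, imp_self]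
  · simp only [S, Pi.sub_apply, hre, mul_comm, imp_self]
  · have : ∀ j, ‖χ (e a j) + χ (e a j)‖ ^ 2 = 4 := fun j => by
      rw [← two_mul, norm_mul, χ1]; norm_num
    simp only [this, sum_const, card_univ, Fintype.card_fin, nsmul_eq_mul]
    linarith
  · have : ∑ _j : Fin h, (3 : ℝ) ≤ ∑ j, (‖χ (e a j) + χ (e b j)‖ ^ 2 + ‖χ (e b j) + χ (e c j)‖ ^ 2 +
        ‖χ (e a j) + χ (e c j)‖ ^ 2) := by
      refine sum_le_sum fun j _ => ?_
      simp only [hsq, Complex.add_re, Complex.add_im]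
      nlinarith [hn (e a j), hn (e b j), hn (e c j),
        sq_nonneg ((χ (e a j)).re + (χ (e b j)).re + (χ (e c j)).re),
        sq_nonneg ((χ (e a j)).im + (χ (e b j)).im + (χ (e c j)).im)]
    simp only [sum_add_distrib, sum_const, card_univ, Fintype.card_fin, nsmul_eq_mul] at this
    linarith
  · have : ∑ j, 2 * ((χ (e a j - e c j)).re + (χ (e a j - e d j)).re + (χ (e b j - e c j)).re +
        (χ (e b j - e d j)).re) ≤
        ∑ j, (‖χ (e a j) + χ (e b j)‖ ^ 2 + ‖χ (e c j) + χ (e d j)‖ ^ 2) := by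
      refine sum_le_sum fun j _ => ?_
      simp only [hsq, hre, Complex.add_re, Complex.add_im]
      nlinarith [sq_nonneg ((χ (e a j)).re + (χ (e b j)).re - (χ (e c j)).re - (χ (e d j)).re),
        sq_nonneg ((χ (e a j)).im + (χ (e b j)).im - (χ (e c j)).im - (χ (e d j)).im)]
    simp only [← mul_sum, sum_add_distrib] at this
    simp only [S, Pi.sub_apply] at h3 h4 h5 h6
    linarith
  · have h1 := conc χ _ χs (by rw [mul_div_cancel₀ _ hq.ne']) h R (by linarith) (by
      rw [div_pow, ← mul_div_assoc, div_le_iff₀ (by positivity), hp]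
      push_cast
      nlinarith [Nat.cast_nonneg (α := ℝ) h]) (A.image fun a => e a + fun _ => r + r) (A.image e) (by
      intro x hx y hy
      obtain ⟨a, ha, rfl⟩ := mem_image.1 hx
      obtain ⟨b, hb, rfl⟩ := mem_image.1 hy
      simpa [χm] using hA b hb a ha)
    rw [card_image_of_injective _ e.injective, card_image_of_injective _
      (f := fun a => e a + fun _ => r + r) ((add_left_injective _).comp e.injective), ← hOm,
      hR] at h1
    have h2 : ((K * A.card : ℕ) : ℝ) ≤ Fintype.card (Fin h → ZMod (4 * p)) := by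
      refine le_of_sq_le_sq ?_ (by positivity)
      push_cast
      nlinarith
    exact_mod_cast h2
  · have h1 : (univ.filter fun b => R / 4 ≤ S (e a - e b)).card =
        (univ.filter fun z => R / 4 ≤ S z).card :=
      card_equiv (e.trans (Equiv.subLeft (e a))) (by simp)
    have h2 : (univ.filter fun z => S z ≤ -(R / 4)).card = (univ.filter fun z => R / 4 ≤ S z).card :=
      card_equiv (Equiv.addRight fun _ => r + r) (by simp [S, χm, le_neg])
    have h3 := anti (fun u => (χ u).re) (fun u => (Complex.abs_re_le_norm _).trans (χ1 u).le)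
      (r + r) (fun u => by simp [χm]) (by
        have a1 := Equiv.sum_comp (Equiv.addRight r) fun u => (χ u).re ^ 2
        have a2 := sum_congr rfl fun u (_ : u ∈ univ) => hn u
        simp only [Equiv.coe_addRight, AddChar.map_add_eq_mul, hr, Complex.mul_I_re, neg_sq] at a1
        simp only [sum_add_distrib, sum_const, card_univ, ZMod.card, nsmul_eq_mul, mul_one] at a2
        linarith) (R / 4) (by linarith) (8 * K) (by omega) h hh3
    rw [← hOm] at h3
    have h4 : 8 * K * (univ.filter fun z => |S z| < R / 4).card ≤ 8 * Fintype.card (Fin h → ZMod (4 * p)) := by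
      exact_mod_cast h3
    have h5 : (univ.filter fun z => R / 4 ≤ S z).card + (univ.filter fun z => S z ≤ -(R / 4)).card +
        (univ.filter fun z => |S z| < R / 4).card = Fintype.card (Fin h → ZMod (4 * p)) := by
      simp only [card_filter, ← sum_add_distrib]
      rw [← card_univ, card_eq_sum_ones]
      refine sum_congr rfl fun z _ => ?_
      simp only [abs_lt]
      split_ifs <;> first | rfl | (exfalso; grind)
    have h6 : (univ.filter fun b => R / 4 ≤ S (e a - e b)).card =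
      (univ.filter (fun b => R / 4 ≤ S (e a - e b))).card := rfl
    constructor
    · convert (show 2 * (univ.filter fun b => R / 4 ≤ S (e a - e b)).card ≤ Fintype.card (Fin h → ZMod (4 * p)) by omega)
    · convert (show K * Fintype.card (Fin h → ZMod (4 * p)) ≤ 2 * K * (univ.filter fun b => R / 4 ≤ S (e a - e b)).card +
        Fintype.card (Fin h → ZMod (4 * p)) by rw [h1]; nlinarith)

end Pool.Agent.H14.BE
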