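import Mathlib

set_option autoImplicit false

namespace Pool.Agent.H14.Rw

open Finset SimpleGraph

variable {V : Type}

/-- there is a walk of length exactly `k` -/
def W (G : SimpleGraph V) (a b : V) (k : ℕ) : Prop := ∃ p : G.Walk a b, p.length = k

lemma W.nil (G : SimpleGraph V) (a : V) : W G a a 0 := ⟨Walk.nil, rfl⟩

lemma W.cons {G : SimpleGraph V} {a b c : V} {k : ℕ} (h : G.Adj a b) (h' : W G b c k) :
    W G a c (k + 1) := by
  obtain ⟨p, rfl⟩ := h'
  exact ⟨Walk.cons h p, rfl⟩

lemma W.append {G : SimpleGraph V} {a b c : V} {k l : ℕ} (h : W G a b k) (h' : W G b c l) :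
    W G a c (k + l) := by
  obtain ⟨p, rfl⟩ := h
  obtain ⟨q, rfl⟩ := h'
  exact ⟨p.append q, Walk.length_append _ _⟩

lemma W.symm {G : SimpleGraph V} {a b : V} {k : ℕ} (h : W G a b k) : W G b a k := by
  obtain ⟨p, rfl⟩ := h
  exact ⟨p.reverse, Walk.length_reverse _⟩

/-- no short odd closed walk -/
def OG (G : SimpleGraph V) (g : ℕ) : Prop := ∀ a k, W G a a k → k ≤ g → k % 2 = 0

lemma OG_add (B : SimpleGraph V) (u v : V) (g : ℕ) (h : OG B g) (hf : ∀ k ≤ g, ¬ W B u v k) :
    OG (B ⊔ edge u v) g := by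
  have key : ∀ (a b : V) (p : (B ⊔ edge u v).Walk a b), p.length ≤ g →
      (∃ i ≤ p.length, i % 2 = p.length % 2 ∧ W B a b i) ∨
      (∃ i j, i + j + 1 ≤ p.length ∧ (i + j + 1) % 2 = p.length % 2 ∧ W B a u i ∧ W B v b j) ∨
      (∃ i j, i + j + 1 ≤ p.length ∧ (i + j + 1) % 2 = p.length % 2 ∧ W B a v i ∧ W B u b j) := by
    intro a b p
    induction p with
    | nil => intro _; exact Or.inl ⟨0, le_rfl, rfl, W.nil _ _⟩
    | @cons a a' b hadj p ih =>
      intro hl
      simp only [Walk.length_cons] at hl ⊢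
      have ih := ih (by omega)
      rcases hadj with hadj | hadj
      · rcases ih with ⟨i, h1, h2, h3⟩ | ⟨i, j, h1, h2, h3, h4⟩ | ⟨i, j, h1, h2, h3, h4⟩
        · exact Or.inl ⟨i + 1, by omega, by omega, W.cons hadj h3⟩
        · exact Or.inr (Or.inl ⟨i + 1, j, by omega, by omega, W.cons hadj h3, h4⟩)
        · exact Or.inr (Or.inr ⟨i + 1, j, by omega, by omega, W.cons hadj h3, h4⟩)
      · rw [edge_adj] at hadj
        rcases hadj.1 with ⟨rfl, rfl⟩ | ⟨rfl, rfl⟩
        · rcases ih with ⟨i, h1, h2, h3⟩ | ⟨i, j, h1, h2, h3, h4⟩ | ⟨i, j, h1, h2, h3, h4⟩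
          · exact Or.inr (Or.inl ⟨0, i, by omega, by omega, W.nil _ _, h3⟩)
          · exact absurd h3.symm (hf i (by omega))
          · have := h _ _ h3 (by omega)
            exact Or.inl ⟨j, by omega, by omega, h4⟩
        · rcases ih with ⟨i, h1, h2, h3⟩ | ⟨i, j, h1, h2, h3, h4⟩ | ⟨i, j, h1, h2, h3, h4⟩
          · exact Or.inr (Or.inr ⟨0, i, by omega, by omega, W.nil _ _, h3⟩)
          · have := h _ _ h3 (by omega)
            exact Or.inl ⟨j, by omega, by omega, h4⟩
          · exact absurd h3 (hf i (by omega))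
  rintro a k ⟨p, rfl⟩ hk
  rcases key a a p hk with ⟨i, h1, h2, h3⟩ | ⟨i, j, h1, h2, h3, h4⟩ | ⟨i, j, h1, h2, h3, h4⟩
  · have := h _ _ h3 (by omega)
    omega
  · exact absurd (h4.append h3).symm (hf _ (by omega))
  · exact absurd (h4.append h3) (hf _ (by omega))

variable [Fintype V]

open Classical in
/-- neighbours -/
noncomputable def nb (B : SimpleGraph V) (x : V) : Finset V := univ.filter (B.Adj x)

lemma mem_nb {B : SimpleGraph V} {x y : V} : y ∈ nb B x ↔ B.Adj x y := by simp [nb]

open Classical in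
/-- ball -/
noncomputable def bl (B : SimpleGraph V) (g : ℕ) (x : V) : Finset V :=
  univ.filter fun y => ∃ k ≤ g, W B x y k

lemma mem_bl {B : SimpleGraph V} {g : ℕ} {x y : V} : y ∈ bl B g x ↔ ∃ k ≤ g, W B x y k := by
  simp [bl]

lemma bl_card (B : SimpleGraph V) (D : ℕ) (hD : ∀ x, (nb B x).card ≤ D) (g : ℕ) :
    ∀ x, (bl B g x).card ≤ (D + 1) ^ g := by
  classical
  induction g with
  | zero =>
    intro x
    rw [pow_zero, ← card_singleton x]
    refine card_le_card fun y hy => ?_
    obtain ⟨k, hk, p, hp⟩ := mem_bl.1 hy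
    have : p.length = 0 := by omega
    simp [Walk.eq_of_length_eq_zero this]
  | succ g ih =>
    intro x
    have h1 : bl B (g + 1) x ⊆ insert x ((nb B x).biUnion (bl B g)) := by
      intro y hy
      obtain ⟨k, hk, p, hp⟩ := mem_bl.1 hy
      cases p with
      | nil => exact mem_insert_self _ _
      | cons h p =>
        simp only [Walk.length_cons] at hp
        exact mem_insert_of_mem (mem_biUnion.2 ⟨_, mem_nb.2 h,
          mem_bl.2 ⟨p.length, by omega, p, rfl⟩⟩)
    have h2 := (card_le_card h1).trans (card_insert_le _ _)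
    have h3 : ((nb B x).biUnion (bl B g)).card ≤ (nb B x).card * (D + 1) ^ g :=
      card_biUnion_le_card_mul _ _ _ fun y _ => ih y
    have h4 := Nat.mul_le_mul_right ((D + 1) ^ g) (hD x)
    have h5 : 0 < (D + 1) ^ g := by positivity
    rw [pow_succ]
    nlinarith

open Classical in
/-- independent sets of size `a` -/
noncomputable def Ind (B : SimpleGraph V) (a : ℕ) : Finset (Finset V) :=
  (powersetCard a univ).filter fun S => ∀ x ∈ S, ∀ y ∈ S, ¬ B.Adj x y

lemma mem_Ind {B : SimpleGraph V} {a : ℕ} {S : Finset V} :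
    S ∈ Ind B a ↔ S.card = a ∧ ∀ x ∈ S, ∀ y ∈ S, ¬ B.Adj x y := by
  simp [Ind]

lemma step (B : SimpleGraph V) (D g q : ℕ) (hq : Fintype.card V ≤ 9 * q)
    (hg : 2 * (D + 1) ^ g ≤ q) (hD : ∀ x, (nb B x).card ≤ D) (hD0 : 0 < D)
    (hs : ∑ x, (nb B x).card ≤ D * q) (hO : OG B g) :
    ∃ B' : SimpleGraph V, B ≤ B' ∧ (∀ x, (nb B' x).card ≤ D) ∧
      ∑ x, (nb B' x).card ≤ ∑ x, (nb B x).card + 2 ∧ OG B' g ∧
      162 * (Ind B' (2 * q)).card ≤ 161 * (Ind B (2 * q)).card := by
  classical
  by_cases hI : (Ind B (2 * q)).card = 0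
  · exact ⟨B, le_rfl, hD, by omega, hO, by omega⟩
  let P : Finset (V × V) := univ.filter fun p =>
    (nb B p.1).card < D ∧ (nb B p.2).card < D ∧ p.2 ∉ bl B g p.1
  let cnt : V × V → ℕ := fun p => ((Ind B (2 * q)).filter fun S => p.1 ∈ S ∧ p.2 ∈ S).card
  have hsat : (univ.filter fun x => ¬ (nb B x).card < D).card ≤ q := by
    have h1 : (univ.filter fun x => ¬ (nb B x).card < D).card * D ≤
        ∑ x ∈ univ.filter (fun x => ¬ (nb B x).card < D), (nb B x).card := by
      rw [← smul_eq_mul, ← sum_const]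
      exact sum_le_sum fun x hx => not_lt.1 (mem_filter.1 hx).2
    have h2 := sum_le_sum_of_subset (f := fun x => (nb B x).card)
      (filter_subset (fun x => ¬ (nb B x).card < D) univ)
    refine Nat.le_of_mul_le_mul_right ?_ hD0
    nlinarith
  have hS : ∀ S ∈ Ind B (2 * q), q * q ≤ 2 * (P.filter fun p => p.1 ∈ S ∧ p.2 ∈ S).card := by
    intro S hS
    have hc := (mem_Ind.1 hS).1
    let S' := S.filter fun x => (nb B x).card < D
    have h1 : q ≤ S'.card := by
      have h2 := card_filter_add_card_filter_not (s := S) (fun x => (nb B x).card < D)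
      have h3 : (S.filter fun x => ¬ (nb B x).card < D).card ≤
          (univ.filter fun x => ¬ (nb B x).card < D).card :=
        card_le_card (filter_subset_filter _ (subset_univ _))
      simp only [S']
      omega
    have h2 : (S'.sigma fun u => S' \ bl B g u).card ≤
        (P.filter fun p => p.1 ∈ S ∧ p.2 ∈ S).card := by
      refine card_le_card_of_injOn (fun p => (p.1, p.2)) ?_ ?_
      · rintro ⟨u, v⟩ hp
        simp only [S', coe_sigma, Set.mem_sigma_iff, mem_coe, mem_filter, mem_sdiff, P,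
          mem_univ, true_and] at hp ⊢
        tauto
      · rintro ⟨u, v⟩ _ ⟨u', v'⟩ _ h
        simp only [Prod.mk.injEq] at h
        obtain ⟨rfl, rfl⟩ := h
        rfl
    rw [card_sigma] at h2
    have h3 : ∀ u ∈ S', q ≤ 2 * (S' \ bl B g u).card := by
      intro u _
      have := le_card_sdiff (bl B g u) S'
      have := bl_card B D hD g u
      omega
    have h4 := sum_le_sum h3
    rw [sum_const, smul_eq_mul, ← mul_sum] at h4
    nlinarith
  have hsum : ∑ p ∈ P, cnt p = ∑ S ∈ Ind B (2 * q), (P.filter fun p => p.1 ∈ S ∧ p.2 ∈ S).card := by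
    simp only [cnt, card_filter]
    exact sum_comm
  have h5 := sum_le_sum hS
  rw [sum_const, smul_eq_mul, ← mul_sum, ← hsum] at h5
  have hq0 : 0 < q := lt_of_lt_of_le (by positivity) hg
  obtain ⟨⟨u, v⟩, hp, hcnt⟩ : ∃ p ∈ P, (Ind B (2 * q)).card ≤ 162 * cnt p := by
    by_contra hcon
    push Not at hcon
    have h6 : ∑ p ∈ P, 162 * cnt p ≤ ∑ _p ∈ P, ((Ind B (2 * q)).card - 1) :=
      sum_le_sum fun p hp => by have := hcon p hp; omega
    rw [sum_const, smul_eq_mul, ← mul_sum] at h6
    have h7 : P.card ≤ 9 * q * (9 * q) := by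
      have := card_le_univ P
      rw [Fintype.card_prod] at this
      exact this.trans (Nat.mul_le_mul hq hq)
    obtain ⟨I, hI'⟩ : ∃ I, (Ind B (2 * q)).card = I + 1 := Nat.exists_eq_succ_of_ne_zero hI
    rw [hI'] at h5 h6
    simp only [Nat.add_sub_cancel] at h6
    have h8 := Nat.mul_le_mul_right I h7
    have : 0 < q * q := by positivity
    nlinarith
  simp only [P, mem_filter, mem_univ, true_and] at hp
  obtain ⟨hu, hv, huv⟩ := hp
  have hfar : ∀ k ≤ g, ¬ W B u v k := fun k hk h => huv (mem_bl.2 ⟨k, hk, h⟩)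
  have hne : u ≠ v := by
    rintro rfl
    exact hfar 0 (Nat.zero_le _) (W.nil _ _)
  have hdeg : ∀ x, (nb (B ⊔ edge u v) x).card ≤
      (nb B x).card + ((if x = u then 1 else 0) + if x = v then 1 else 0) := by
    intro x
    by_cases h1 : x = u
    · have : nb (B ⊔ edge u v) x ⊆ insert v (nb B x) := by
        intro y hy
        rcases mem_nb.1 hy with h | h
        · exact mem_insert_of_mem (mem_nb.2 h)
        · rw [edge_adj] at h
          rcases h.1 with h | h
          · rw [h.2]; exact mem_insert_self _ _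
          · exact absurd (h1.symm.trans h.1) hne
      have := (card_le_card this).trans (card_insert_le _ _)
      rw [if_pos h1]
      omega
    · by_cases h2 : x = v
      · have : nb (B ⊔ edge u v) x ⊆ insert u (nb B x) := by
          intro y hy
          rcases mem_nb.1 hy with h | h
          · exact mem_insert_of_mem (mem_nb.2 h)
          · rw [edge_adj] at h
            rcases h.1 with h | h
            · exact absurd h.1 h1
            · rw [h.2]; exact mem_insert_self _ _
        have := (card_le_card this).trans (card_insert_le _ _)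
        rw [if_pos h2]
        omega
      · have : nb (B ⊔ edge u v) x ⊆ nb B x := by
          intro y hy
          rcases mem_nb.1 hy with h | h
          · exact mem_nb.2 h
          · rw [edge_adj] at h
            rcases h.1 with h | h
            · exact absurd h.1 h1
            · exact absurd h.1 h2
        have := card_le_card this
        omega
  refine ⟨B ⊔ edge u v, le_sup_left, ?_, ?_, OG_add B u v g hO hfar, ?_⟩
  · intro x
    have := hdeg x
    have := hD x
    by_cases h1 : x = u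
    · subst h1
      simp only [if_true, if_neg hne] at *
      omega
    · by_cases h2 : x = v
      · subst h2
        simp only [if_true, if_neg h1] at *
        omega
      · simp only [if_neg h1, if_neg h2] at *
        omega
  · refine (sum_le_sum fun x _ => hdeg x).trans ?_
    simp [sum_add_distrib]
  · have h1 : Ind (B ⊔ edge u v) (2 * q) ⊆
        (Ind B (2 * q)).filter fun S => ¬ (u ∈ S ∧ v ∈ S) := by
      intro S hS
      obtain ⟨h2, h3⟩ := mem_Ind.1 hS
      refine mem_filter.2 ⟨mem_Ind.2 ⟨h2, fun x hx y hy h => h3 x hx y hy (Or.inl h)⟩, ?_⟩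
      rintro ⟨h4, h5⟩
      exact h3 u h4 v h5 (Or.inr (by rw [edge_adj]; exact ⟨Or.inl ⟨rfl, rfl⟩, hne⟩))
    have h2 := card_le_card h1
    have h3 := card_filter_add_card_filter_not (s := Ind B (2 * q)) (fun S => u ∈ S ∧ v ∈ S)
    simp only [cnt] at hcnt
    omega

lemma greedy (B0 : SimpleGraph V) (g q : ℕ) (hq : Fintype.card V ≤ 9 * q)
    (hg : 2 * (3000 + 1) ^ g ≤ q) (hD : ∀ x, (nb B0 x).card ≤ 2) (hO : OG B0 g) :
    ∃ B : SimpleGraph V, B0 ≤ B ∧ (∀ x, (nb B x).card ≤ 3000) ∧ OG B g ∧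
      (Ind B (2 * q)).card = 0 := by
  have key : ∀ j, j ≤ 162 * Fintype.card V → ∃ B : SimpleGraph V, B0 ≤ B ∧
      (∀ x, (nb B x).card ≤ 3000) ∧ ∑ x, (nb B x).card ≤ 2 * Fintype.card V + 2 * j ∧ OG B g ∧
      162 ^ j * (Ind B (2 * q)).card ≤ 161 ^ j * 2 ^ Fintype.card V := by
    intro j
    induction j with
    | zero =>
      intro _
      refine ⟨B0, le_rfl, fun x => (hD x).trans (by norm_num), ?_, hO, ?_⟩
      · refine (sum_le_sum fun x _ => hD x).trans ?_
        simp [mul_comm]
      · have := card_le_univ (Ind B0 (2 * q))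
        simpa using this
    | succ j ih =>
      intro hj
      obtain ⟨B, h1, h2, h3, h4, h5⟩ := ih (by omega)
      obtain ⟨B', a1, a2, a3, a4, a5⟩ := step B 3000 g q hq hg h2 (by norm_num) (by omega) h4
      refine ⟨B', h1.trans a1, a2, by omega, a4, ?_⟩
      calc 162 ^ (j + 1) * (Ind B' (2 * q)).card = 162 ^ j * (162 * (Ind B' (2 * q)).card) := by ring
        _ ≤ 162 ^ j * (161 * (Ind B (2 * q)).card) := Nat.mul_le_mul_left _ a5
        _ = 161 * (162 ^ j * (Ind B (2 * q)).card) := by ring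
        _ ≤ 161 * (161 ^ j * 2 ^ Fintype.card V) := Nat.mul_le_mul_left _ h5
        _ = _ := by ring
  obtain ⟨B, h1, h2, _, h4, h5⟩ := key _ le_rfl
  refine ⟨B, h1, h2, h4, ?_⟩
  by_contra hne
  have hq0 : 0 < q := lt_of_lt_of_le (by positivity) hg
  obtain ⟨S, hS⟩ := card_pos.1 (Nat.pos_of_ne_zero hne)
  have hn : 0 < Fintype.card V := by
    have := card_le_univ S
    have := (mem_Ind.1 hS).1
    omega
  rw [pow_mul, pow_mul, ← mul_pow] at h5
  have h6 : (161 ^ 162 * 2) ^ Fintype.card V < (162 ^ 162) ^ Fintype.card V :=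
    Nat.pow_lt_pow_left (by norm_num) hn.ne'
  have h7 := Nat.mul_le_mul_left ((162 ^ 162) ^ Fintype.card V) (Nat.pos_of_ne_zero hne)
  omega

/-- the cycle -/
def cyc (n : ℕ) : SimpleGraph (ZMod n) := fromRel fun x y => y = x + 1

lemma cyc_OG (n g : ℕ) (hg : g < n) : OG (cyc n) g := by
  have key : ∀ (a b : ZMod n) (p : (cyc n).Walk a b), ∃ z : ℤ, |z| ≤ p.length ∧
      z % 2 = p.length % 2 ∧ (z : ZMod n) = b - a := by
    intro a b p
    induction p with
    | nil => exact ⟨0, by simp, by simp, by simp⟩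
    | @cons a a' b hadj p ih =>
      obtain ⟨z, h1, h2, h3⟩ := ih
      rw [cyc, fromRel_adj] at hadj
      simp only [Walk.length_cons]
      rw [abs_le] at h1
      rcases hadj.2 with h | h
      · refine ⟨z + 1, by rw [abs_le]; push_cast; omega, by push_cast; omega, ?_⟩
        push_cast
        rw [h3, h]
        ring
      · refine ⟨z - 1, by rw [abs_le]; push_cast; omega, by push_cast; omega, ?_⟩
        push_cast
        rw [h3, h]
        ring
  rintro a k ⟨p, rfl⟩ hk
  obtain ⟨z, h1, h2, h3⟩ := key a a p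
  rw [sub_self, ZMod.intCast_zmod_eq_zero_iff_dvd] at h3
  have : z = 0 := Int.eq_zero_of_abs_lt_dvd h3 (by omega)
  omega

lemma base (g : ℕ) : ∃ (q : ℕ) (B : SimpleGraph (ZMod (8 * q + 1))), 0 < q ∧
    (∀ x, B.Adj x (x + 1)) ∧ (∀ x, (nb B x).card ≤ 3000) ∧ OG B g ∧
    ∀ S : Finset (ZMod (8 * q + 1)), (∀ x ∈ S, ∀ y ∈ S, ¬ B.Adj x y) → S.card ≤ 2 * q := by
  obtain ⟨q, hq⟩ : ∃ q, q = 2 * (3000 + 1) ^ g := ⟨_, rfl⟩
  have hq0 : 0 < q := by rw [hq]; positivity
  have hg : g < 8 * q + 1 := by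
    have := Nat.lt_pow_self (n := g) (show 1 < 3000 + 1 by norm_num)
    omega
  obtain ⟨B, h1, h2, h3, h4⟩ := greedy (cyc (8 * q + 1)) g q (by rw [ZMod.card]; omega) hq.ge
    (by
      intro x
      have : nb (cyc (8 * q + 1)) x ⊆ {x + 1, x - 1} := by
        intro y hy
        have := mem_nb.1 hy
        rw [cyc, fromRel_adj] at this
        rcases this.2 with h | h
        · simp [h]
        · simp [h]
      exact (card_le_card this).trans card_le_two) (cyc_OG _ _ hg)
  refine ⟨q, B, hq0, fun x => h1 ?_, h2, h3, fun S hS => ?_⟩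
  · rw [cyc, fromRel_adj]
    refine ⟨?_, Or.inl rfl⟩
    have : Fact (1 < 8 * q + 1) := ⟨by omega⟩
    simp
  · by_contra hcon
    obtain ⟨T, hT, hc⟩ := exists_subset_card_eq (not_le.1 hcon).le
    have : T ∈ Ind B (2 * q) := mem_Ind.2 ⟨hc, fun x hx y hy => hS x (hT hx) y (hT hy)⟩
    rw [card_eq_zero.1 h4] at this
    simp at this

end Pool.Agent.H14.Rw
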