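import Pool.Agent.H14.BE2
import Pool.Agent.H14.Rw1

set_option autoImplicit false

namespace Pool.Agent.H14.BE

open Finset Pool.Agent.H14.Rw

lemma per {N : ℕ} [NeZero N] (Q : Fin N → Prop) [DecidablePred Q] (l : ℕ) : ∀ a,
    N * ((Ico a (a + l)).filter fun j => Q (Fin.ofNat N j)).card ≤
      l * (univ.filter Q).card + N * N ∧
    l * (univ.filter Q).card ≤
      N * ((Ico a (a + l)).filter fun j => Q (Fin.ofNat N j)).card + N * N := by
  have hN := NeZero.pos N
  have hκ : (univ.filter Q).card ≤ N := by simpa using card_filter_le univ Q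
  have h1 : ∀ a, ((Ico a (a + N)).filter fun j => Q (Fin.ofNat N j)).card = (univ.filter Q).card := by
    intro a
    rw [Nat.filter_Ico_card_eq_of_periodic a N _ (fun j => by simp [Fin.ofNat]),
      Nat.count_eq_card_filter_range, card_filter, card_filter, sum_range]
    simp
  induction l using Nat.strong_induction_on with
  | _ l ih =>
    intro a
    rcases lt_or_ge l N with h | h
    · have := card_filter_le (Ico a (a + l)) fun j => Q (Fin.ofNat N j)
      rw [Nat.card_Ico] at this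
      have h2 := Nat.mul_le_mul_left N (this.trans (show a + l - a ≤ N by omega))
      have h3 := Nat.mul_le_mul h.le hκ
      omega
    · obtain ⟨l, rfl⟩ := Nat.exists_eq_add_of_le h
      have h2 := ih l (by omega) (a + N)
      rw [← add_assoc, ← Ico_union_Ico_eq_Ico (show a ≤ a + N by omega)
        (show a + N ≤ a + N + l by omega), filter_union, card_union_of_disjoint
        (disjoint_filter_filter (Ico_disjoint_Ico_consecutive _ _ _)), h1, mul_add, add_mul]
      omega

lemma side (w s : ℕ) (hs : s < 2) (P : ℕ → Prop) [DecidablePred P] :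
    (univ.filter fun v : Fin w => (v : ℕ) % 2 = s ∧ P (v / 2)).card =
      ((range ((w + 1 - s) / 2)).filter P).card := by
  refine card_bij (fun v _ => (v : ℕ) / 2) ?_ ?_ ?_
  · intro v hv
    have := v.2
    simp only [mem_filter, mem_univ, true_and, mem_range] at hv ⊢
    exact ⟨by omega, hv.2⟩
  · intro v hv v' hv' e
    simp only [mem_filter, mem_univ, true_and] at hv hv'
    exact Fin.ext (by omega)
  · intro j hj
    simp only [mem_filter, mem_range] at hj
    have e : (2 * j + s) / 2 = j := by omega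
    exact ⟨⟨2 * j + s, by omega⟩, by
      simp only [mem_filter, mem_univ, true_and, e]
      exact ⟨by omega, hj.2⟩, e⟩

lemma exists_W (K : ℕ) (hK : 0 < K) : ∃ N : ℕ, ∀ w e : ℕ, w + K * (2 * N + 2) ≤ K * e →
    ∃ G : SimpleGraph (Fin w),
    (∀ a b c : Fin w, (a : ℕ) % 2 = b % 2 → (b : ℕ) % 2 = c % 2 → G.Adj a b → G.Adj b c →
      G.Adj a c → False) ∧
    (∀ a b c d, G.Adj a b → G.Adj a c → G.Adj a d → G.Adj b c → G.Adj b d → G.Adj c d → False) ∧
    (∀ A : Finset (Fin w), (∀ a ∈ A, ∀ b ∈ A, ¬ G.Adj a b) → A.card ≤ 2 * e) ∧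
    ∀ v, (nb G v).card ≤ v / 4 + 2 * e ∧ v / 4 ≤ (nb G v).card + 2 * e := by
  classical
  obtain ⟨N, I, C, hN, Is, Cs, Ii, It, I4, Ia, Cd⟩ := exists_BE K hK
  have : NeZero N := ⟨hN.ne'⟩
  refine ⟨N, fun w e he => ?_⟩
  let τ : Fin w → Fin N := fun v => Fin.ofNat N (v / 2)
  let G : SimpleGraph (Fin w) :=
    { Adj := fun u v => ((u : ℕ) % 2 = v % 2 ∧ I (τ u) (τ v)) ∨
        ((u : ℕ) % 2 ≠ v % 2 ∧ C (τ u) (τ v) ∧ w / 2 ≤ u / 2 + v / 2)
      symm := ⟨fun u v h => h.imp (fun h => ⟨h.1.symm, Is _ _ h.2⟩)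
        fun h => ⟨h.1.symm, Cs _ _ h.2.1, by omega⟩⟩
      loopless := ⟨fun u h => h.elim (fun h => Ii _ h.2) fun h => h.1 rfl⟩ }
  have hI : ∀ u v : Fin w, (u : ℕ) % 2 = v % 2 → G.Adj u v → I (τ u) (τ v) :=
    fun u v e h => h.elim And.right fun h => absurd e h.1
  have hC : ∀ u v : Fin w, (u : ℕ) % 2 ≠ v % 2 → G.Adj u v → C (τ u) (τ v) :=
    fun u v e h => h.elim (fun h => absurd h.1 e) fun h => h.2.1
  have tri : ∀ a b c : Fin w, (a : ℕ) % 2 = b % 2 → (b : ℕ) % 2 = c % 2 → G.Adj a b → G.Adj b c →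
      G.Adj a c → False := fun a b c e1 e2 h1 h2 h3 =>
    It _ _ _ (hI _ _ e1 h1) (hI _ _ e2 h2) (hI _ _ (e1.trans e2) h3)
  have k22 : ∀ a b c d : Fin w, (a : ℕ) % 2 = b % 2 → (c : ℕ) % 2 = d % 2 → (a : ℕ) % 2 ≠ c % 2 →
      G.Adj a b → G.Adj c d → G.Adj a c → G.Adj a d → G.Adj b c → G.Adj b d → False :=
    fun a b c d e1 e2 e3 h1 h2 h3 h4 h5 h6 => I4 _ _ _ _ (hI _ _ e1 h1) (hI _ _ e2 h2)
      (hC _ _ e3 h3) (hC _ _ (by omega) h4) (hC _ _ (by omega) h5) (hC _ _ (by omega) h6)
  have small : ∀ (s : ℕ) (T : Finset (Fin N)), s < 2 → (∀ a ∈ T, ∀ b ∈ T, ¬ I a b) →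
      (univ.filter fun v : Fin w => (v : ℕ) % 2 = s ∧ τ v ∈ T).card + N ≤ e := by
    intro s T hs hT
    have h1 := Ia T hT
    have h2 := (per (fun a => a ∈ T) w 0).1
    rw [side w s hs fun j => Fin.ofNat N j ∈ T]
    have h3 : ((range ((w + 1 - s) / 2)).filter fun j => Fin.ofNat N j ∈ T).card ≤
        ((Ico 0 (0 + w)).filter fun j => Fin.ofNat N j ∈ T).card := by
      refine card_le_card (filter_subset_filter _ fun j hj => ?_)
      simp only [mem_range, mem_Ico] at hj ⊢
      omega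
    rw [filter_mem_eq_inter, univ_inter] at h2
    generalize ((range ((w + 1 - s) / 2)).filter fun j => Fin.ofNat N j ∈ T).card = x at *
    have h4 : N * (K * x) ≤ N * (w + K * N) := by
      have := Nat.mul_le_mul_left K ((Nat.mul_le_mul_left N h3).trans h2)
      have := Nat.mul_le_mul_left w h1
      nlinarith
    have h5 := Nat.le_of_mul_le_mul_left h4 hN
    refine Nat.le_of_mul_le_mul_left ?_ hK
    nlinarith
  refine ⟨G, tri, fun a b c d h1 h2 h3 h4 h5 h6 => ?_, fun A hA => ?_, fun v => ?_⟩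
  · by_cases e1 : (a : ℕ) % 2 = b % 2 <;> by_cases e2 : (a : ℕ) % 2 = c % 2 <;>
      by_cases e3 : (a : ℕ) % 2 = d % 2
    · exact tri a b c e1 (by omega) h1 h4 h2
    · exact tri a b c e1 (by omega) h1 h4 h2
    · exact tri a b d e1 (by omega) h1 h5 h3
    · exact k22 a b c d e1 (by omega) e2 h1 h6 h2 h3 h4 h5
    · exact tri a c d e2 (by omega) h2 h6 h3
    · exact k22 a c b d e2 (by omega) e1 h2 h5 h1 h3 h4.symm h6
    · exact k22 a d b c e3 (by omega) e1 h3 h4 h1 h2 h5.symm h6.symm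
    · exact tri b c d (by omega) (by omega) h4 h6 h5
  · have key : ∀ s < 2, (A.filter fun v : Fin w => (v : ℕ) % 2 = s).card ≤ e := by
      intro s hs
      have h1 := small s ((A.filter fun v : Fin w => (v : ℕ) % 2 = s).image τ) hs (by
        intro a ha b hb hab
        obtain ⟨u, hu, rfl⟩ := mem_image.1 ha
        obtain ⟨v, hv, rfl⟩ := mem_image.1 hb
        rw [mem_filter] at hu hv
        exact hA u hu.1 v hv.1 (Or.inl ⟨hu.2.trans hv.2.symm, hab⟩))
      refine le_trans (card_le_card fun v hv => ?_) ((Nat.le_add_right _ _).trans h1)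
      exact mem_filter.2 ⟨mem_univ _, (mem_filter.1 hv).2, mem_image_of_mem _ hv⟩
    have h1 := card_filter_add_card_filter_not (s := A) (fun v : Fin w => (v : ℕ) % 2 = 0)
    have h2 := key 0 (by norm_num)
    have h3 := key 1 (by norm_num)
    simp only [Nat.mod_two_not_eq_zero] at h1
    omega
  · have hv := v.2
    let X := univ.filter fun u : Fin w => (u : ℕ) % 2 = 1 - v % 2 ∧
      (C (τ v) (Fin.ofNat N (u / 2)) ∧ w / 2 ≤ v / 2 + u / 2)
    have h1 : X ⊆ nb G v := by
      intro u hu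
      have := (mem_filter.1 hu).2
      exact mem_nb.2 (Or.inr ⟨by omega, this.2⟩)
    have h2 : nb G v ⊆ X ∪ univ.filter fun u : Fin w => (u : ℕ) % 2 = v % 2 ∧
        τ u ∈ univ.filter (I (τ v)) := by
      intro u hu
      rcases mem_nb.1 hu with h | h
      · exact mem_union_right _ (by simpa using ⟨h.1.symm, h.2⟩)
      · exact mem_union_left _ (mem_filter.2 ⟨mem_univ _, by omega, h.2⟩)
    have h3 := small (v % 2) (univ.filter (I (τ v))) (by omega) (by
      intro a ha b hb hab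
      exact It _ _ _ (mem_filter.1 ha).2 hab (mem_filter.1 hb).2)
    have h4 := (card_le_card h2).trans (card_union_le _ _)
    have h5 := card_le_card h1
    obtain ⟨l, hl, hl'⟩ : ∃ l, (w + 1 - (1 - v % 2)) / 2 = (w / 2 - v / 2) + l ∧
        (l = v / 2 ∨ l = v / 2 + 1) := by
      by_cases h : (w + 1 - (1 - v % 2)) / 2 = w / 2
      · exact ⟨v / 2, by omega, Or.inl rfl⟩
      · exact ⟨v / 2 + 1, by omega, Or.inr rfl⟩
    have h6 : X.card = ((Ico (w / 2 - v / 2) (w / 2 - v / 2 + l)).filter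
        fun j => C (τ v) (Fin.ofNat N j)).card := by
      rw [side w (1 - v % 2) (by omega) fun j => C (τ v) (Fin.ofNat N j) ∧ w / 2 ≤ v / 2 + j, hl]
      congr 1
      ext j
      simp only [mem_filter, mem_range, mem_Ico]
      constructor
      · exact fun h => ⟨⟨by omega, h.1⟩, h.2.1⟩
      · exact fun h => ⟨h.1.2, h.2, by omega⟩
    obtain ⟨h7, h8⟩ := per (C (τ v)) l (w / 2 - v / 2)
    obtain ⟨h9, h10⟩ := Cd (τ v)
    rw [← h6] at h7 h8
    generalize (univ.filter (C (τ v))).card = κ at *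
    generalize X.card = x at *
    have a1 : 2 * x ≤ l + 2 * N := by
      refine Nat.le_of_mul_le_mul_left ?_ hN
      have := Nat.mul_le_mul_left l h9
      nlinarith
    have a2 : K * l ≤ 2 * K * x + 2 * K * N + l := by
      refine Nat.le_of_mul_le_mul_left ?_ hN
      have := Nat.mul_le_mul_left l h10
      have := Nat.mul_le_mul_left (2 * K) h8
      nlinarith
    have a3 : l ≤ 2 * x + e := by
      refine Nat.le_of_mul_le_mul_left ?_ hK
      have : l ≤ w := by omega
      nlinarith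
    have a4 : 2 * N + 2 ≤ e := Nat.le_of_mul_le_mul_left (by omega) hK
    omega

end Pool.Agent.H14.BE
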