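import Pool.Agent.H14.BE3

set_option autoImplicit false

namespace Pool.Agent.H14.BE

open Finset Pool.Agent.H14.Rw

/-- The properties required of each graph of the sequence. -/
def Good {V : Type} (G : SimpleGraph V) : Prop :=
  G.CliqueFree 4 ∧ (∀ v, 1 ≤ (G.neighborSet v).ncard) ∧
    (∀ d : ℕ, {v | (G.neighborSet v).ncard = d}.ncard ≤ 4) ∧
    ∃ d : ℕ, {v | (G.neighborSet v).ncard = d}.ncard = 4

lemma cf4 {V : Type} (G : SimpleGraph V)
    (h : ∀ a b c d, G.Adj a b → G.Adj a c → G.Adj a d → G.Adj b c → G.Adj b d → G.Adj c d → False) :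
    G.CliqueFree 4 := by
  rw [SimpleGraph.cliqueFree_iff]
  refine ⟨fun f => h (f 0) (f 1) (f 2) (f 3) ?_ ?_ ?_ ?_ ?_ ?_⟩ <;>
    exact f.toHom.map_rel (by simp)

lemma good_comap {V U : Type} (G : SimpleGraph V) (φ : U ≃ V) (h : Good G) :
    Good (G.comap φ) := by
  have hd : ∀ u, ((G.comap φ).neighborSet u).ncard = (G.neighborSet (φ u)).ncard := fun u =>
    Set.ncard_preimage_of_injective_subset_range (s := G.neighborSet (φ u)) φ.injective
      (by simp)
  have hl : ∀ d : ℕ, {u | ((G.comap φ).neighborSet u).ncard = d}.ncard =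
      {v | (G.neighborSet v).ncard = d}.ncard := fun d => by
    simp only [hd]
    exact Set.ncard_preimage_of_injective_subset_range
      (s := {v | (G.neighborSet v).ncard = d}) φ.injective (by simp)
  obtain ⟨h1, h2, h3, d, h4⟩ := h
  refine ⟨h1.comap ⟨(SimpleGraph.Embedding.comap φ.toEmbedding G).toCopy⟩, fun u => ?_,
    fun d => ?_, d, ?_⟩
  · rw [hd]; exact h2 _
  · rw [hl]; exact h3 _
  · rw [hl]; exact h4

abbrev VV (w σ : ℕ) := Fin w ⊕ (Fin 4 × Fin σ) ⊕ (Fin 4 × Fin σ)

def RR {w σ : ℕ} (W : SimpleGraph (Fin w)) (a : Fin w → ℕ) : VV w σ → VV w σ → Prop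
  | .inl u, .inl v => W.Adj u v
  | .inl v, .inr (.inl p) => (v : ℕ) % 2 = p.1 % 2 ∧ ((v : ℕ) % 4 ≠ p.1 ∨ (p.2 : ℕ) < a v)
  | .inr (.inl p), .inl v => (v : ℕ) % 2 = p.1 % 2 ∧ ((v : ℕ) % 4 ≠ p.1 ∨ (p.2 : ℕ) < a v)
  | .inr (.inl p), .inr (.inl q) => (p.1 : ℕ) % 2 ≠ q.1 % 2
  | .inr (.inl p), .inr (.inr q) => p.1 = q.1 ∧ (p.2 : ℕ) + q.2 < σ
  | .inr (.inr q), .inr (.inl p) => p.1 = q.1 ∧ (p.2 : ℕ) + q.2 < σ
  | .inl _, .inr (.inr _) => False
  | .inr (.inr _), .inl _ => False
  | .inr (.inr _), .inr (.inr _) => False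

def GG {w σ : ℕ} (W : SimpleGraph (Fin w)) (a : Fin w → ℕ) : SimpleGraph (VV w σ) where
  Adj := RR W a
  symm := ⟨by
    rintro (u | p | p) (v | q | q) h
    all_goals first | exact h | exact W.adj_symm h | exact Ne.symm h⟩
  loopless := ⟨by
    rintro (u | p | p) h
    · exact W.irrefl h
    · exact h rfl
    · exact h⟩

open Classical in
lemma deg_eq {V : Type} [Fintype V] (G : SimpleGraph V) (x : V) :
    (G.neighborSet x).ncard = ∑ y, if G.Adj x y then 1 else 0 := by
  rw [← card_filter, ← Set.ncard_coe_finset]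
  congr 1
  ext y
  simp

lemma cnt (σ a : ℕ) (h : a ≤ σ) (P : Fin σ → Prop) [DecidablePred P]
    (hP : ∀ j, P j ↔ (j : ℕ) < a) : (∑ j, if P j then 1 else 0) = a := by
  rw [← card_filter, filter_congr (fun j _ => hP j), Fin.card_filter_val_lt, min_eq_right h]

section
variable {w σ : ℕ} (W : SimpleGraph (Fin w)) (a : Fin w → ℕ)

lemma degW (v : Fin w) (h : a v ≤ σ) :
    ((GG (σ := σ) W a).neighborSet (.inl v)).ncard = (nb W v).card + σ + a v := by
  classical
  rw [deg_eq, Fintype.sum_sum_type, Fintype.sum_sum_type, Fintype.sum_prod_type,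
    Fintype.sum_prod_type]
  have h1 : (∑ u : Fin w, if (GG (σ := σ) W a).Adj (.inl v) (.inl u) then 1 else 0) =
      (nb W v).card := by
    rw [← card_filter]
    congr 1
  have h2 : ∀ c : Fin 4, (∑ j : Fin σ,
      if (GG (σ := σ) W a).Adj (.inl v) (.inr (.inl (c, j))) then 1 else 0) =
      if (v : ℕ) % 4 = c then a v else if (v : ℕ) % 2 = c % 2 then σ else 0 := by
    intro c
    split_ifs with e1 e2
    · refine cnt σ _ h _ fun j => ?_
      change (_ ∧ (_ ∨ _)) ↔ _
      constructor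
      · exact fun h => h.2.resolve_left (by simpa using e1)
      · exact fun h => ⟨by dsimp only; omega, Or.inr h⟩
    · refine cnt σ _ le_rfl _ fun j => ?_
      exact ⟨fun _ => j.2, fun _ => ⟨e2, Or.inl e1⟩⟩
    · refine cnt σ _ (Nat.zero_le _) _ fun j => ?_
      exact ⟨fun h => absurd h.1 e2, fun h => absurd h (Nat.not_lt_zero _)⟩
  have h3 : ∀ (c : Fin 4) (j : Fin σ),
      (if (GG (σ := σ) W a).Adj (.inl v) (.inr (.inr (c, j))) then 1 else 0) = 0 :=
    fun c j => if_neg id
  simp only [h1, h2, h3, Fin.sum_univ_four, sum_const_zero]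
  simp only [Fin.isValue, Fin.coe_ofNat_eq_mod, Nat.reduceMod]
  split_ifs <;> omega

lemma degU (c : Fin 4) (i : Fin σ) :
    ((GG (σ := σ) W a).neighborSet (.inr (.inr (c, i)))).ncard = σ - i := by
  classical
  rw [deg_eq, Fintype.sum_sum_type, Fintype.sum_sum_type, Fintype.sum_prod_type,
    Fintype.sum_prod_type]
  have h1 : ∀ u : Fin w,
      (if (GG (σ := σ) W a).Adj (.inr (.inr (c, i))) (.inl u) then 1 else 0) = 0 :=
    fun u => if_neg id
  have h2 : ∀ c' : Fin 4, (∑ j : Fin σ,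
      if (GG (σ := σ) W a).Adj (.inr (.inr (c, i))) (.inr (.inl (c', j))) then 1 else 0) =
      if c' = c then σ - i else 0 := by
    intro c'
    split_ifs with e1
    · refine cnt σ _ (Nat.sub_le _ _) _ fun j => ?_
      change (_ ∧ _) ↔ _
      exact ⟨fun h => by have := h.2; dsimp only at this; omega,
        fun h => ⟨e1, by dsimp only; omega⟩⟩
    · refine cnt σ _ (Nat.zero_le _) _ fun j => ?_
      exact ⟨fun h => absurd h.1 e1, fun h => absurd h (Nat.not_lt_zero _)⟩
  have h3 : ∀ (c' : Fin 4) (j : Fin σ),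
      (if (GG (σ := σ) W a).Adj (.inr (.inr (c, i))) (.inr (.inr (c', j))) then 1 else 0) = 0 :=
    fun c j => if_neg id
  simp [h1, h2, h3]

open Classical in
lemma degC (c : Fin 4) (j : Fin σ) :
    ((GG (σ := σ) W a).neighborSet (.inr (.inl (c, j)))).ncard =
      (univ.filter fun v : Fin w => (v : ℕ) % 2 = c % 2 ∧ ((v : ℕ) % 4 ≠ c ∨ (j : ℕ) < a v)).card
        + 2 * σ + (σ - j) := by
  rw [deg_eq, Fintype.sum_sum_type, Fintype.sum_sum_type, Fintype.sum_prod_type,
    Fintype.sum_prod_type]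
  have h1 : (∑ u : Fin w, if (GG (σ := σ) W a).Adj (.inr (.inl (c, j))) (.inl u) then 1 else 0) =
      (univ.filter fun v : Fin w =>
        (v : ℕ) % 2 = c % 2 ∧ ((v : ℕ) % 4 ≠ c ∨ (j : ℕ) < a v)).card := by
    rw [← card_filter]
    congr 1
    ext u
    simp only [mem_filter, mem_univ, true_and]
    rfl
  have h2 : ∀ c' : Fin 4, (∑ i : Fin σ,
      if (GG (σ := σ) W a).Adj (.inr (.inl (c, j))) (.inr (.inr (c', i))) then 1 else 0) =
      if c = c' then σ - j else 0 := by
    intro c'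
    split_ifs with e1
    · refine cnt σ _ (Nat.sub_le _ _) _ fun i => ?_
      change (_ ∧ _) ↔ _
      exact ⟨fun h => by have := h.2; dsimp only at this; omega,
        fun h => ⟨e1, by dsimp only; omega⟩⟩
    · refine cnt σ _ (Nat.zero_le _) _ fun j => ?_
      exact ⟨fun h => absurd h.1 e1, fun h => absurd h (Nat.not_lt_zero _)⟩
  have h3 : ∀ c' : Fin 4, (∑ i : Fin σ,
      if (GG (σ := σ) W a).Adj (.inr (.inl (c, j))) (.inr (.inl (c', i))) then 1 else 0) =
      if (c : ℕ) % 2 = c' % 2 then 0 else σ := by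
    intro c'
    split_ifs with e1
    · refine cnt σ _ (Nat.zero_le _) _ fun j => ?_
      exact ⟨fun h => absurd e1 h, fun h => absurd h (Nat.not_lt_zero _)⟩
    · exact cnt σ _ le_rfl _ fun j => ⟨fun _ => j.2, fun _ => e1⟩
  simp only [h1, h2, h3, sum_ite_eq, mem_univ, if_true]
  simp only [Fin.sum_univ_four, Fin.isValue, Fin.coe_ofNat_eq_mod, Nat.reduceMod]
  split_ifs <;> omega

lemma degC_ge (c : Fin 4) (j : Fin σ) :
    w / 4 + 2 * σ < ((GG (σ := σ) W a).neighborSet (.inr (.inl (c, j)))).ncard := by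
  classical
  rw [degC]
  have hc := c.2
  have hj := j.2
  have : (range (w / 4)).card ≤ (univ.filter fun v : Fin w =>
      (v : ℕ) % 2 = c % 2 ∧ ((v : ℕ) % 4 ≠ c ∨ (j : ℕ) < a v)).card := by
    refine card_le_card_of_surjOn (fun v : Fin w => (v : ℕ) / 4) fun t ht => ?_
    simp only [coe_range, Set.mem_Iio] at ht
    refine ⟨⟨4 * t + (c + 2) % 4, by omega⟩, ?_, by dsimp only; omega⟩
    simp only [coe_filter, mem_univ, true_and, Set.mem_setOf_eq]
    exact ⟨by omega, Or.inl (by omega)⟩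
  rw [card_range] at this
  omega

lemma degC_lt (c : Fin 4) (j j' : Fin σ) (h : (j : ℕ) < j') :
    ((GG (σ := σ) W a).neighborSet (.inr (.inl (c, j')))).ncard <
      ((GG (σ := σ) W a).neighborSet (.inr (.inl (c, j)))).ncard := by
  classical
  rw [degC, degC]
  have hj := j'.2
  have : (univ.filter fun v : Fin w =>
      (v : ℕ) % 2 = c % 2 ∧ ((v : ℕ) % 4 ≠ c ∨ (j' : ℕ) < a v)).card ≤
      (univ.filter fun v : Fin w =>
      (v : ℕ) % 2 = c % 2 ∧ ((v : ℕ) % 4 ≠ c ∨ (j : ℕ) < a v)).card := by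
    refine card_le_card fun v hv => ?_
    simp only [mem_filter, mem_univ, true_and] at hv ⊢
    exact ⟨hv.1, hv.2.imp id fun h' => h.trans h'⟩
  omega

end

lemma glue {w : ℕ} (W : SimpleGraph (Fin w)) (E α : ℕ) (hE : 0 < E)
    (tri : ∀ a b c : Fin w, (a : ℕ) % 2 = b % 2 → (b : ℕ) % 2 = c % 2 → W.Adj a b → W.Adj b c →
      W.Adj a c → False)
    (k4 : ∀ a b c d, W.Adj a b → W.Adj a c → W.Adj a d → W.Adj b c → W.Adj b d → W.Adj c d → False)
    (hα : ∀ A : Finset (Fin w), (∀ a ∈ A, ∀ b ∈ A, ¬ W.Adj a b) → A.card ≤ α)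
    (deg : ∀ v, (nb W v).card ≤ v / 4 + E ∧ v / 4 ≤ (nb W v).card + E)
    (n : ℕ) (hn : n = w + 16 * E) :
    ∃ G : SimpleGraph (Fin n), Good G ∧ G.indepNum ≤ α + 16 * E := by
  classical
  let a : Fin w → ℕ := fun v => v / 4 + E - (nb W v).card
  let G : SimpleGraph (VV w (2 * E)) := GG W a
  have dW : ∀ v : Fin w, (G.neighborSet (.inl v)).ncard = v / 4 + 3 * E := fun v => by
    have := deg v
    rw [degW W a v (by simp only [a]; omega)]
    simp only [a]
    omega
  let cl : VV w (2 * E) → Fin 4 := fun x => match x with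
    | .inl v => ⟨v % 4, Nat.mod_lt _ (by norm_num)⟩
    | .inr (.inl p) => p.1
    | .inr (.inr p) => p.1
  have hG : Good G := by
    refine ⟨cf4 _ ?_, ?_, fun d => ?_, 1, ?_⟩
    · rintro (x | x | x) (y | y | y) (z | z | z) (t | t | t) h1 h2 h3 h4 h5 h6 <;>
        simp only [G, GG, RR] at h1 h2 h3 h4 h5 h6
      all_goals first
        | exact k4 _ _ _ _ h1 h2 h3 h4 h5 h6
        | exact tri _ _ _ (by omega) (by omega) h1 h4 h2
        | exact tri _ _ _ (by omega) (by omega) h1 h5 h3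
        | exact tri _ _ _ (by omega) (by omega) h2 h6 h3
        | exact tri _ _ _ (by omega) (by omega) h4 h6 h5
        | omega
    · rintro (v | ⟨c, j⟩ | ⟨c, i⟩)
      · rw [dW]; omega
      · have := degC_ge W a c j
        exact le_trans (by omega) this
      · have := i.2
        rw [degU]; omega
    · refine le_trans (Set.ncard_le_ncard_of_injOn cl (t := Set.univ) (fun _ _ => trivial) ?_)
        (by simp)
      rintro (v | ⟨c, j⟩ | ⟨c, j⟩) h1 (v' | ⟨c', j'⟩ | ⟨c', j'⟩) h2 e <;>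
        have h := h1.trans h2.symm
      · rw [dW, dW] at h
        have := congrArg Fin.val e
        simp only [cl] at this
        exact congrArg _ (Fin.ext (by omega))
      · have := degC_ge W a c' j'
        have := v.2
        rw [← h, dW] at *
        omega
      · rw [dW, degU] at h
        omega
      · have := degC_ge W a c j
        have := v'.2
        rw [h, dW] at *
        omega
      · obtain rfl : c = c' := e
        rcases lt_trichotomy (j : ℕ) j' with l | l | l
        · exact absurd h (degC_lt W a c j j' l).ne'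
        · rw [Fin.ext l]
        · exact absurd h (degC_lt W a c j' j l).ne
      · have := degC_ge W a c j
        rw [h, degU] at this
        omega
      · rw [dW, degU] at h
        omega
      · have := degC_ge W a c' j'
        rw [← h, degU] at this
        omega
      · obtain rfl : c = c' := e
        rw [degU, degU] at h
        have := j.2
        have := j'.2
        rw [show j = j' from Fin.ext (by omega)]
    · have : {v | (G.neighborSet v).ncard = 1} = Set.range
          (fun c : Fin 4 => (Sum.inr (Sum.inr (c, ⟨2 * E - 1, by omega⟩)) : VV w (2 * E))) := by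
        ext x
        constructor
        · rcases x with v | ⟨c, j⟩ | ⟨c, j⟩ <;> intro h
          · have h' := (dW v).symm.trans h
            omega
          · have h' := (degC_ge W a c j).trans_eq h
            omega
          · have h' := (degU W a c j).symm.trans h
            exact ⟨c, by rw [show j = ⟨2 * E - 1, by omega⟩ from Fin.ext (by dsimp only; omega)]⟩
        · rintro ⟨c, rfl⟩
          exact (degU W a c _).trans (by dsimp only; omega)
      rw [this, Set.ncard_range_of_injective fun c c' e => by simpa using e]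
      simp
  have hc : Fintype.card (VV w (2 * E)) = n := by simp [hn]; omega
  let φ := (Fintype.equivFinOfCardEq hc).symm
  refine ⟨G.comap φ, good_comap G φ hG, ?_⟩
  obtain ⟨S, hS⟩ := (G.comap φ).exists_isNIndepSet_indepNum
  rw [← hS.card_eq, ← card_map φ.toEmbedding, ← card_toLeft_add_card_toRight]
  refine Nat.add_le_add (hα _ fun x hx y hy hxy => ?_) ((card_le_univ _).trans (by simp; omega))
  obtain ⟨x', hx', ex⟩ := mem_map.1 (mem_toLeft.1 hx)
  obtain ⟨y', hy', ey⟩ := mem_map.1 (mem_toLeft.1 hy)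
  have h : (G.comap φ).Adj x' y' := by
    change G.Adj (φ.toEmbedding x') (φ.toEmbedding y')
    rw [ex, ey]
    exact hxy
  exact hS.isIndepSet hx' hy' h.ne h

lemma exists_good (K : ℕ) (hK : 64 ≤ K) : ∃ M : ℕ, ∀ n ≥ 64 * M,
    ∃ G : SimpleGraph (Fin n), Good G ∧ G.indepNum ≤ 34 * (n / K + M) := by
  obtain ⟨N, hN⟩ := exists_W K (by omega)
  refine ⟨2 * N + 3, fun n hn => ?_⟩
  have h1 : n / K ≤ n / 64 := Nat.div_le_div_left hK (by norm_num)
  have h2 := Nat.lt_mul_div_succ n (show 0 < K by omega)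
  generalize n / K = q at h1 h2 ⊢
  obtain ⟨W, t, k, α, d⟩ := hN (n - 32 * (q + (2 * N + 3))) (q + (2 * N + 3)) (by
    have : n - 32 * (q + (2 * N + 3)) ≤ n := Nat.sub_le _ _
    nlinarith)
  obtain ⟨G, g1, g2⟩ := glue W (2 * (q + (2 * N + 3))) _ (by omega) t k α d n (by omega)
  exact ⟨G, g1, by omega⟩

theorem main : ∃ N : ℕ, ∃ G : (n : ℕ) → SimpleGraph (Fin n), (∀ n ≥ N, Good (G n)) ∧
    Filter.Tendsto (fun n : ℕ => ((G n).indepNum : ℝ) / (n : ℝ)) Filter.atTop (nhds 0) := by
  classical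
  have hex : ∀ n, ∃ G : SimpleGraph (Fin n), ∀ H : SimpleGraph (Fin n), Good H →
      Good G ∧ G.indepNum ≤ H.indepNum := by
    intro n
    by_cases h : ∃ H : SimpleGraph (Fin n), Good H
    · obtain ⟨G, hG, hm⟩ := (wellFounded_lt.onFun (f := fun H : SimpleGraph (Fin n) =>
        H.indepNum)).has_min {H | Good H} h
      exact ⟨G, fun H hH => ⟨hG, not_lt.1 (hm H hH)⟩⟩
    · exact ⟨⊥, fun H hH => absurd ⟨H, hH⟩ h⟩
  choose G hG using hex
  obtain ⟨M0, h0⟩ := exists_good 64 le_rfl
  refine ⟨64 * M0, G, fun n hn => ?_, ?_⟩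
  · obtain ⟨H, hH, -⟩ := h0 n hn
    exact (hG n H hH).1
  · rw [Metric.tendsto_atTop]
    intro ε hε
    obtain ⟨K, hK⟩ := exists_nat_gt (64 + 68 / ε)
    have hK0 : (0 : ℝ) < 68 / ε := by positivity
    obtain ⟨M, hM⟩ := exists_good K (by exact_mod_cast (by linarith : (64 : ℝ) ≤ K))
    refine ⟨64 * M + K * M + 1, fun n hn => ?_⟩
    obtain ⟨H, hH, hα⟩ := hM n (by omega)
    have h1 : ((G n).indepNum : ℝ) ≤ 34 * ((n / K : ℕ) + M) := by
      exact_mod_cast ((hG n H hH).2.trans hα)
    have h2 : ((n / K : ℕ) : ℝ) * K ≤ n := by exact_mod_cast Nat.div_mul_le_self n K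
    have h3 : (K : ℝ) * M + 1 ≤ n := by exact_mod_cast (by omega : K * M + 1 ≤ n)
    have hn0 : (0 : ℝ) < n := by exact_mod_cast (by omega : 0 < n)
    have h4 : 68 < K * ε := by
      have : 68 / ε < K := by linarith
      rwa [div_lt_iff₀ hε] at this
    have hKp : (0 : ℝ) < K := by linarith
    rw [Real.dist_eq, sub_zero, abs_of_nonneg (by positivity), div_lt_iff₀ hn0]
    refine lt_of_mul_lt_mul_left ?_ hKp.le
    nlinarith

end Pool.Agent.H14.BE
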