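import Mathlib

set_option autoImplicit false

namespace Pool.Agent.H14.Babai

/-- lazy reachability in exactly k steps of the relation A -/
def LR {V : Type} (A : V → V → Prop) : ℕ → V → V → Prop
  | 0, u, v => u = v
  | k + 1, u, v => ∃ w, LR A k u w ∧ A w v

lemma LR.cons {V : Type} {A : V → V → Prop} {k : ℕ} :
    ∀ {u w v : V}, A u w → LR A k w v → LR A (k + 1) u v := by
  induction k with
  | zero => intro u w v h1 h2; exact ⟨u, rfl, by cases h2; exact h1⟩
  | succ k ih =>
    intro u w v h1 h2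
    obtain ⟨z, hz, hzv⟩ := h2
    exact ⟨z, ih h1 hz, hzv⟩

lemma LR.symm {V : Type} {A : V → V → Prop} (hs : ∀ u v, A u v → A v u) {k : ℕ} :
    ∀ {u v : V}, LR A k u v → LR A k v u := by
  induction k with
  | zero => intro u v h; exact Eq.symm h
  | succ k ih =>
    intro u v h
    obtain ⟨w, hw, hwv⟩ := h
    exact LR.cons (hs _ _ hwv) (ih hw)

lemma LR.map {V : Type} {A : V → V → Prop} (φ : V → V) (hφ : ∀ a b, A a b → A (φ a) (φ b))
    {k : ℕ} : ∀ {u v : V}, LR A k u v → LR A k (φ u) (φ v) := by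
  induction k with
  | zero => intro u v h; exact congrArg φ h
  | succ k ih =>
    intro u v h
    obtain ⟨w, hw, hwv⟩ := h
    exact ⟨φ w, ih hw, hφ _ _ hwv⟩

/-- a pointed reflexive symmetric transitive-under-automorphisms relation with its norm -/
structure Good {V : Type} (A : V → V → Prop) (o : V) (f : V → ℕ) (D : ℕ) : Prop where
  refl : ∀ v, A v v
  symm : ∀ u v, A u v → A v u
  zero : ∀ v, f v = 0 ↔ v = o
  lip : ∀ u v, A u v → f v ≤ f u + 1
  desc : ∀ v, ∃ u, A u v ∧ f u = f v - 1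
  vt : ∀ v, ∃ φ : V ≃ V, φ o = v ∧ ∀ a b, A (φ a) (φ b) ↔ A a b
  deg : ∀ v, {u | A v u}.ncard ≤ D

lemma Good.prod {V W : Type} [Finite V] [Finite W] {A : V → V → Prop} {B : W → W → Prop}
    {o : V} {o' : W} {f : V → ℕ} {g : W → ℕ} {D E : ℕ} (h1 : Good A o f D) (h2 : Good B o' g E) :
    Good (fun p q : V × W => A p.1 q.1 ∧ B p.2 q.2) (o, o') (fun p => max (f p.1) (g p.2))
      (D * E) where
  refl := fun v => ⟨h1.refl _, h2.refl _⟩
  symm := fun u v h => ⟨h1.symm _ _ h.1, h2.symm _ _ h.2⟩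
  zero := by
    rintro ⟨a, b⟩
    have := h1.zero a
    have := h2.zero b
    simp only [Prod.mk.injEq]
    constructor
    · intro h
      exact ⟨(h1.zero a).1 (by omega), (h2.zero b).1 (by omega)⟩
    · rintro ⟨ha, hb⟩
      have := (h1.zero a).2 ha
      have := (h2.zero b).2 hb
      omega
  lip := by
    intro u v h
    have := h1.lip _ _ h.1
    have := h2.lip _ _ h.2
    omega
  desc := by
    rintro ⟨a, b⟩
    obtain ⟨u, hu, hu'⟩ := h1.desc a
    obtain ⟨w, hw, hw'⟩ := h2.desc b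
    refine ⟨(u, w), ⟨hu, hw⟩, ?_⟩
    simp only
    omega
  vt := by
    rintro ⟨a, b⟩
    obtain ⟨φ, hφ, hφ'⟩ := h1.vt a
    obtain ⟨ψ, hψ, hψ'⟩ := h2.vt b
    refine ⟨φ.prodCongr ψ, by simp [hφ, hψ], ?_⟩
    intro x y
    simp [hφ', hψ']
  deg := by
    rintro ⟨a, b⟩
    have : {u : V × W | A a u.1 ∧ B b u.2} = {u | A a u} ×ˢ {w | B b w} := by
      ext ⟨x, y⟩; simp
    simp only
    rw [this, Set.ncard_prod]
    exact Nat.mul_le_mul (h1.deg a) (h2.deg b)

lemma Good.comap {V W : Type} {A : V → V → Prop} {o : V} {f : V → ℕ} {D : ℕ}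
    (h : Good A o f D) (e : W ≃ V) :
    Good (fun a b : W => A (e a) (e b)) (e.symm o) (fun a => f (e a)) D where
  refl := fun v => h.refl _
  symm := fun u v huv => h.symm _ _ huv
  zero := by
    intro v
    rw [h.zero, Equiv.eq_symm_apply]
  lip := fun u v huv => h.lip _ _ huv
  desc := by
    intro v
    obtain ⟨u, hu, hu'⟩ := h.desc (e v)
    exact ⟨e.symm u, by simpa using hu, by simpa using hu'⟩
  vt := by
    intro v
    obtain ⟨φ, hφ, hφ'⟩ := h.vt (e v)
    refine ⟨(e.trans φ).trans e.symm, by simp [hφ], ?_⟩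
    intro a b
    simp [hφ']
  deg := by
    intro v
    have : {u : W | A (e v) (e u)} = e ⁻¹' {u | A (e v) u} := rfl
    rw [this, Set.ncard_preimage_of_injective_subset_range e.injective (by simp)]
    exact h.deg _

/-- the simple graph of a relation -/
def gr {V : Type} (A : V → V → Prop) (hs : ∀ u v, A u v → A v u) : SimpleGraph V where
  Adj u v := u ≠ v ∧ A u v
  symm := ⟨fun _ _ h => ⟨h.1.symm, hs _ _ h.2⟩⟩
  loopless := ⟨fun _ h => h.1 rfl⟩

lemma Good.walk {V : Type} {A : V → V → Prop} {o : V} {f : V → ℕ} {D : ℕ}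
    (h : Good A o f D) : ∀ (k : ℕ) (v : V), f v = k →
      ∃ p : (gr A h.symm).Walk v o, p.length = k := by
  intro k
  induction k with
  | zero =>
    intro v hv
    obtain rfl := (h.zero v).1 hv
    exact ⟨SimpleGraph.Walk.nil, rfl⟩
  | succ k ih =>
    intro v hv
    obtain ⟨u, hu, hu'⟩ := h.desc v
    obtain ⟨p, hp⟩ := ih u (by omega)
    have hadj : (gr A h.symm).Adj v u := ⟨by rintro rfl; omega, h.symm _ _ hu⟩
    exact ⟨SimpleGraph.Walk.cons hadj p, by simp [hp]⟩

lemma Good.walk_le {V : Type} {A : V → V → Prop} {o : V} {f : V → ℕ} {D : ℕ}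
    (h : Good A o f D) {u v : V} (p : (gr A h.symm).Walk u v) : f u ≤ f v + p.length := by
  induction p with
  | nil => simp
  | cons hadj p ih =>
    have := h.lip _ _ (h.symm _ _ hadj.2)
    simp only [SimpleGraph.Walk.length_cons]
    omega

lemma Good.conn {V : Type} {A : V → V → Prop} {o : V} {f : V → ℕ} {D : ℕ}
    (h : Good A o f D) : (gr A h.symm).Connected := by
  have : Nonempty V := ⟨o⟩
  refine ⟨fun u v => ?_⟩
  obtain ⟨p, _⟩ := h.walk _ u rfl
  obtain ⟨q, _⟩ := h.walk _ v rfl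
  exact p.reachable.trans q.reachable.symm

lemma Good.dist_eq {V : Type} {A : V → V → Prop} {o : V} {f : V → ℕ} {D : ℕ}
    (h : Good A o f D) (v : V) : (gr A h.symm).dist o v = f v := by
  rw [SimpleGraph.dist_comm]
  apply le_antisymm
  · obtain ⟨p, hp⟩ := h.walk _ v rfl
    exact hp ▸ SimpleGraph.dist_le p
  · obtain ⟨p, hp⟩ := (h.conn v o).exists_walk_length_eq_dist
    have := h.walk_le p
    have h0 := (h.zero o).2 rfl
    omega

lemma Good.final {V : Type} [Fintype V] {A : V → V → Prop} {o : V} {f : V → ℕ} {D : ℕ}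
    (h : Good A o f D) (d : ℕ)
    (h1 : Fintype.card V ≤ 2 * {v | f v = d}.ncard)
    (h2 : 99 * {v | f v = d}.ncard ≤ 100 * {v | f v = d ∧ ∀ w, A v w → f w ≠ d + 1}.ncard)
    (h3 : ∃ v, 19 * d ≤ 10 * f v) :
    ∃ G : SimpleGraph (Fin (Fintype.card V)), G.Connected ∧
        (∀ u v, ∃ φ : G ≃g G, φ u = v) ∧
        (∀ v, (G.neighborSet v).ncard ≤ D) ∧
        ∃ v₀,
          Fintype.card V ≤ 2 * {v | G.dist v₀ v = d}.ncard ∧
          99 * {v | G.dist v₀ v = d}.ncard ≤
            100 * {v | G.dist v₀ v = d ∧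
              ∀ w, G.Adj v w → G.dist v₀ w ≠ d + 1}.ncard ∧
          19 * d ≤ 10 * G.diam := by
  let e : Fin (Fintype.card V) ≃ V := (Fintype.equivFin V).symm
  have hg := h.comap e
  refine ⟨gr _ hg.symm, hg.conn, ?_, ?_, e.symm o, ?_, ?_, ?_⟩
  · intro u v
    obtain ⟨φ, hφ, hφ'⟩ := hg.vt u
    obtain ⟨ψ, hψ, hψ'⟩ := hg.vt v
    let Φ : gr _ hg.symm ≃g gr _ hg.symm :=
      ⟨φ, by intro a b; simp only [gr, hφ', ne_eq, EmbeddingLike.apply_eq_iff_eq]⟩
    let Ψ : gr _ hg.symm ≃g gr _ hg.symm :=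
      ⟨ψ, by intro a b; simp only [gr, hψ', ne_eq, EmbeddingLike.apply_eq_iff_eq]⟩
    refine ⟨Φ.symm.trans Ψ, ?_⟩
    have : Φ.symm u = e.symm o := by
      rw [← hφ]; exact Φ.symm_apply_apply _
    show Ψ (Φ.symm u) = v
    rw [this]; exact hψ
  · intro v
    refine le_trans (Set.ncard_le_ncard ?_ (Set.toFinite _)) (hg.deg v)
    intro w hw
    exact hw.2
  · have : {v | (gr _ hg.symm).dist (e.symm o) v = d} = e ⁻¹' {v | f v = d} := by
      ext v; simp [hg.dist_eq]
    rw [this, Set.ncard_preimage_of_injective_subset_range e.injective (by simp)]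
    exact h1
  · have e1 : {v | (gr _ hg.symm).dist (e.symm o) v = d} = e ⁻¹' {v | f v = d} := by
      ext v; simp [hg.dist_eq]
    have e2 : e ⁻¹' {v | f v = d ∧ ∀ w, A v w → f w ≠ d + 1} ⊆
        {v | (gr _ hg.symm).dist (e.symm o) v = d ∧
          ∀ w, (gr _ hg.symm).Adj v w → (gr _ hg.symm).dist (e.symm o) w ≠ d + 1} := by
      intro v hv
      simp only [Set.mem_ofPred_eq, hg.dist_eq]
      exact ⟨hv.1, fun w hw => hv.2 _ hw.2⟩
    have e3 := Set.ncard_le_ncard e2 (Set.toFinite _)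
    rw [Set.ncard_preimage_of_injective_subset_range e.injective (by simp)] at e3
    rw [e1, Set.ncard_preimage_of_injective_subset_range e.injective (by simp)]
    omega
  · obtain ⟨v, hv⟩ := h3
    have : Nonempty (Fin (Fintype.card V)) := ⟨e.symm o⟩
    have := SimpleGraph.dist_le_diam ((SimpleGraph.connected_iff_ediam_ne_top).1 hg.conn)
      (u := e.symm o) (v := e.symm v)
    rw [hg.dist_eq] at this
    simp only [Equiv.apply_symm_apply] at this
    omega

open Classical in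
/-- the norm given by lazy reachability -/
noncomputable def lnorm {V : Type} (A : V → V → Prop) (o : V) (hr : ∀ v, ∃ k, LR A k o v)
    (v : V) : ℕ := Nat.find (hr v)

lemma lnorm_spec {V : Type} (A : V → V → Prop) (o : V) (hr : ∀ v, ∃ k, LR A k o v) (v : V) :
    LR A (lnorm A o hr v) o v := by
  classical
  exact Nat.find_spec (hr v)

lemma lnorm_le {V : Type} (A : V → V → Prop) (o : V) (hr : ∀ v, ∃ k, LR A k o v) {v : V}
    {k : ℕ} (h : LR A k o v) : lnorm A o hr v ≤ k := by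
  classical
  exact Nat.find_min' (hr v) h

lemma good_of_LR {V : Type} (A : V → V → Prop) (o : V) (hr : ∀ v, ∃ k, LR A k o v) (D : ℕ)
    (hrefl : ∀ v, A v v) (hsymm : ∀ u v, A u v → A v u)
    (vt : ∀ v, ∃ φ : V ≃ V, φ o = v ∧ ∀ a b, A (φ a) (φ b) ↔ A a b)
    (deg : ∀ v, {u | A v u}.ncard ≤ D) : Good A o (lnorm A o hr) D where
  refl := hrefl
  symm := hsymm
  zero := by
    intro v
    constructor
    · intro h
      have := lnorm_spec A o hr v
      rw [h] at this
      exact Eq.symm this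
    · rintro rfl
      exact Nat.le_zero.1 (lnorm_le A v hr (k := 0) rfl)
  lip := fun u v h => lnorm_le A o hr ⟨u, lnorm_spec A o hr u, h⟩
  desc := by
    intro v
    have hv := lnorm_spec A o hr v
    rcases hk : lnorm A o hr v with _ | k
    · exact ⟨v, hrefl v, hk⟩
    · rw [hk] at hv
      obtain ⟨w, hw, hwv⟩ := hv
      refine ⟨w, hwv, ?_⟩
      have h1 := lnorm_le A o hr hw
      have h2 : lnorm A o hr v ≤ lnorm A o hr w + 1 :=
        lnorm_le A o hr ⟨w, lnorm_spec A o hr w, hwv⟩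
      omega
  vt := vt
  deg := deg

end Pool.Agent.H14.Babai
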