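import Pool.Agent.H14.Babai1

set_option autoImplicit false

namespace Pool.Agent.H14.Babai

open Polynomial

instance prime101 : Fact (Nat.Prime 101) := ⟨by norm_num⟩

abbrev F := ZMod 101

abbrev R (n : ℕ) := AdjoinRoot ((X : F[X]) ^ n)

noncomputable def mk (n : ℕ) : F[X] →+* R n := AdjoinRoot.mk _

noncomputable def px : F[X] := 1 + X
noncomputable def py : F[X] := 1 - X

noncomputable def mu (n : ℕ) (P : ZMod n × ZMod n) : R n :=
  mk n px ^ P.1.val * mk n py ^ P.2.val

abbrev VG (n : ℕ) := R n × (ZMod n × ZMod n)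

def corner (n : ℕ) : Fin 3 → ZMod n × ZMod n := ![(1, 0), (0, 1), (0, 0)]

def AG (n : ℕ) (u v : VG n) : Prop :=
  u = v ∨ ∃ (B : ZMod n × ZMod n) (i j : Fin 3) (c : F), i ≠ j ∧ u.2 = B + corner n i ∧
    v.2 = B + corner n j ∧ v.1 = u.1 + mk n (C c) * mu n B

/-- hypothesis on n -/
structure Hn (n : ℕ) : Prop where
  hx : mk n px ^ n = 1
  hy : mk n py ^ n = 1
  pos : 0 < n

lemma hn_pow (j : ℕ) : Hn (101 ^ j) := by
  have hX : mk (101 ^ j) (X ^ (101 ^ j)) = 0 := AdjoinRoot.mk_self
  refine ⟨?_, ?_, by positivity⟩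
  · rw [← map_pow, px, add_pow_char_pow, map_add, hX]; simp
  · rw [← map_pow, py, sub_pow_char_pow, map_sub, hX]; simp

section
variable {n : ℕ} (H : Hn n)
include H

lemma mu_add (P Q : ZMod n × ZMod n) : mu n (P + Q) = mu n P * mu n Q := by
  have : NeZero n := ⟨H.pos.ne'⟩
  simp only [mu, Prod.fst_add, Prod.snd_add, ZMod.val_add]
  rw [← pow_eq_pow_mod _ H.hx, ← pow_eq_pow_mod _ H.hy]
  ring

omit H in
lemma mu_zero : mu n 0 = 1 := by simp [mu]

lemma mu_nat (a b : ℕ) : mu n ((a : ZMod n), (b : ZMod n)) = mk n px ^ a * mk n py ^ b := by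
  simp only [mu, ZMod.val_natCast]
  rw [← pow_eq_pow_mod _ H.hx, ← pow_eq_pow_mod _ H.hy]

lemma mu_neg (P : ZMod n × ZMod n) : mu n P * mu n (-P) = 1 := by
  rw [← mu_add H, add_neg_cancel, mu_zero]

lemma x_cancel {a b : R n} (h : mk n px * a = mk n px * b) : a = b := by
  have hu : IsUnit (mk n px) := IsUnit.of_pow_eq_one H.hx H.pos.ne'
  exact hu.mul_left_cancel h

lemma y_cancel {a b : R n} (h : mk n py * a = mk n py * b) : a = b := by
  have hu : IsUnit (mk n py) := IsUnit.of_pow_eq_one H.hy H.pos.ne'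
  exact hu.mul_left_cancel h

/-- translation automorphism -/
noncomputable def tr (g : VG n) : VG n ≃ VG n where
  toFun u := (g.1 + mu n g.2 * u.1, g.2 + u.2)
  invFun u := (mu n (-g.2) * (u.1 - g.1), u.2 - g.2)
  left_inv := by
    intro u
    ext1
    · simp only [add_sub_cancel_left]
      rw [← mul_assoc, mul_comm (mu n (-g.2)), mu_neg H, one_mul]
    · simp
  right_inv := by
    intro u
    ext1
    · simp only
      rw [← mul_assoc, mu_neg H, one_mul]; ring
    · simp

lemma AG_aff (w : R n) (P : ZMod n × ZMod n) (a b : VG n) (h : AG n a b) :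
    AG n (w + mu n P * a.1, P + a.2) (w + mu n P * b.1, P + b.2) := by
  rcases h with rfl | ⟨B, i, j, c, hij, h1, h2, h3⟩
  · exact Or.inl rfl
  · refine Or.inr ⟨P + B, i, j, c, hij, ?_, ?_, ?_⟩
    · simp only [h1, add_assoc]
    · simp only [h2, add_assoc]
    · simp only [h3, mu_add H]; ring

lemma AG_tr (g a b : VG n) : AG n (tr H g a) (tr H g b) ↔ AG n a b := by
  constructor
  · intro h
    have := AG_aff H (-(mu n (-g.2) * g.1)) (-g.2) _ _ h
    have e : ∀ u : VG n, (-(mu n (-g.2) * g.1) + mu n (-g.2) * (tr H g u).1, -g.2 + (tr H g u).2)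
        = u := by
      intro u
      ext1
      · show -(mu n (-g.2) * g.1) + mu n (-g.2) * (g.1 + mu n g.2 * u.1) = u.1
        have := mu_neg H g.2
        linear_combination u.1 * this
      · show -g.2 + (g.2 + u.2) = u.2
        abel
    rwa [e, e] at this
  · exact AG_aff H _ _ _ _

omit H in
lemma AG_symm (u v : VG n) (h : AG n u v) : AG n v u := by
  rcases h with rfl | ⟨B, i, j, c, hij, h1, h2, h3⟩
  · exact Or.inl rfl
  · refine Or.inr ⟨B, j, i, -c, hij.symm, h2, h1, ?_⟩
    rw [h3]; simp

omit H in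
lemma AG_deg (v : VG n) : {u | AG n v u}.ncard ≤ 910 := by
  classical
  let g : Fin 3 × Fin 3 × F → VG n := fun t =>
    (v.1 + mk n (C t.2.2) * mu n (v.2 - corner n t.1), v.2 - corner n t.1 + corner n t.2.1)
  have hsub : {u | AG n v u} ⊆ ↑(insert v (Finset.univ.image g)) := by
    intro u hu
    rcases hu with rfl | ⟨B, i, j, c, hij, h1, h2, h3⟩
    · simp
    · have hB : B = v.2 - corner n i := by rw [h1]; simp
      simp only [Finset.coe_insert, Finset.coe_image, Finset.coe_univ, Set.image_univ]
      refine Or.inr ⟨(i, j, c), ?_⟩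
      ext1
      · simp only [g, h3, hB]
      · simp only [g, h2, hB]
  refine le_trans (Set.ncard_le_ncard hsub (Finset.finite_toSet _)) ?_
  rw [Set.ncard_coe_finset]
  refine le_trans (Finset.card_insert_le _ _) ?_
  have := Finset.card_image_le (s := (Finset.univ : Finset (Fin 3 × Fin 3 × F))) (f := g)
  simp only [Finset.card_univ, Fintype.card_prod, Fintype.card_fin, ZMod.card] at this
  omega

end

lemma deg_px : px.degree = 1 := by
  have : px = X + C 1 := by simp [px, add_comm]
  rw [this, degree_X_add_C]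

lemma deg_py : py.degree = 1 := by
  have : py = -(X - C 1) := by simp [py]
  rw [this, degree_neg, degree_X_sub_C]

lemma mul_mem {l f : F[X]} (hl : l.degree = 1) {s : ℕ} (hf : f ∈ degreeLT F s) :
    l * f ∈ degreeLT F (s + 1) := by
  rw [mem_degreeLT] at *
  rw [degree_mul, hl]
  by_cases h0 : f = 0
  · simp [h0]
  · rw [degree_eq_natDegree h0] at *
    have : f.natDegree < s := by exact_mod_cast hf
    have : 1 + f.natDegree < s + 1 := by omega
    exact_mod_cast this

lemma mem_of_mul {l f : F[X]} (hl : l.degree = 1) {s : ℕ} (hf : l * f ∈ degreeLT F (s + 1)) :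
    f ∈ degreeLT F s := by
  rw [mem_degreeLT] at *
  rw [degree_mul, hl] at hf
  by_cases h0 : f = 0
  · simp [h0]
  · rw [degree_eq_natDegree h0] at *
    have : 1 + f.natDegree < s + 1 := by exact_mod_cast hf
    have : f.natDegree < s := by omega
    exact_mod_cast this

lemma pow_mul_mem {l f : F[X]} (hl : l.degree = 1) {s : ℕ} (hf : f ∈ degreeLT F s) (u : ℕ) :
    l ^ u * f ∈ degreeLT F (s + u) := by
  induction u with
  | zero => simpa using hf
  | succ u ih =>
    have := mul_mem hl ih
    rw [pow_succ', mul_assoc]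
    exact this

lemma mono_mem (u w : ℕ) : px ^ u * py ^ w ∈ degreeLT F (u + w + 1) := by
  have h1 : (1 : F[X]) ∈ degreeLT F 1 := by
    rw [mem_degreeLT]; simp
  have := pow_mul_mem deg_px (pow_mul_mem deg_py h1 w) u
  rw [mul_one] at this
  exact degreeLT_mono (by omega) this

lemma C_mul_mem {f : F[X]} {s : ℕ} (c : F) (hf : f ∈ degreeLT F s) : C c * f ∈ degreeLT F s := by
  rw [← smul_eq_C_mul]
  exact Submodule.smul_mem _ _ hf

section
variable {n : ℕ} (H : Hn n)
include H

lemma mu_shift (B : ZMod n × ZMod n) (a b u w : ℕ) (h1 : B.1 + a = u) (h2 : B.2 + b = w) :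
    mk n px ^ a * mk n py ^ b * mu n B = mk n px ^ u * mk n py ^ w := by
  rw [← mu_nat H, ← mu_nat H, ← mu_add H]
  congr 1
  ext1
  · simp only [Prod.fst_add]; rw [add_comm]; exact h1
  · simp only [Prod.snd_add]; rw [add_comm]; exact h2

lemma phase1 (a : ℕ) : ∀ (v : R n) (P : ZMod n × ZMod n) (f : F[X]), f ∈ degreeLT F a →
    mk n px ^ a * v = mk n f → P.1 + a = 0 → P.2 = 0 → LR (AG n) a (0, 0) (v, P) := by
  induction a with
  | zero =>
    intro v P f hf hv h1 h2
    have : f = 0 := by simpa [mem_degreeLT] using hf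
    subst this
    have hv0 : v = 0 := by simpa using hv
    have hP : P = 0 := by
      ext1
      · simpa using h1
      · simpa using h2
    subst hv0 hP
    rfl
  | succ a ih =>
    intro v P f hf hv h1 h2
    obtain ⟨g, hg⟩ : px ∣ f - C (f.eval (-1)) := by
      have : px = X - C (-1) := by simp [px, add_comm]
      rw [this]
      exact X_sub_C_dvd_sub_C_eval
    set c := f.eval (-1)
    have hg' : g ∈ degreeLT F a := by
      apply mem_of_mul deg_px
      rw [← hg]
      apply Submodule.sub_mem _ hf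
      have := C_mul_mem c (mono_mem 0 0)
      simp only [pow_zero, mul_one] at this
      exact degreeLT_mono (by omega) this
    refine ⟨(v - mk n (C c) * mu n P, P + corner n 0), ih _ _ g hg' ?_ ?_ ?_,
      Or.inr ⟨P, 0, 2, c, by decide, rfl, by simp [corner], by simp⟩⟩
    · apply x_cancel H
      have e := mu_shift H P (a + 1) 0 0 0 (by simpa using h1) (by simpa using h2)
      have e2 := congrArg (mk n) hg
      simp only [map_sub, map_mul] at e2
      simp only [pow_zero, mul_one] at e
      rw [pow_succ] at hv e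
      linear_combination hv + e2 - mk n (C c) * e
    · simp only [corner, Matrix.cons_val_zero, Prod.fst_add]
      push_cast at h1
      linear_combination h1
    · simp [corner, h2]

lemma phase2 (a m : ℕ) : ∀ (s : ℕ) (v : R n) (P : ZMod n × ZMod n) (f : F[X]), s ≤ m →
    f ∈ degreeLT F (a + m) → mk n px ^ a * mk n py ^ m * v = mk n f → P.1 + a = s →
    P.2 + m = 0 → LR (AG n) (a + m) (0, 0) (v, P) := by
  induction m with
  | zero =>
    intro s v P f hs hf hv h1 h2
    obtain rfl : s = 0 := by omega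
    exact phase1 H a v P f hf (by simpa using hv) (by simpa using h1) (by simpa using h2)
  | succ m ih =>
    intro s v P f hs hf hv h1 h2
    obtain ⟨s', hs', B, j, hj, hB1, hB2, hP⟩ : ∃ s' ≤ m, ∃ (B : ZMod n × ZMod n) (j : Fin 3),
        (1 : Fin 3) ≠ j ∧ B.1 + a = s' ∧ B.2 + (m + 1 : ℕ) = 0 ∧ P = B + corner n j := by
      by_cases h : s ≤ m
      · exact ⟨s, h, P, 2, by decide, h1, h2, by simp [corner]⟩
      · obtain rfl : s = m + 1 := by omega
        refine ⟨m, le_rfl, P - (1, 0), 0, by decide, ?_, by simpa using h2, by simp [corner]⟩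
        simp only [Prod.fst_sub]
        push_cast at h1
        linear_combination h1
    have h2ne : (2 : F) ^ s' ≠ 0 := pow_ne_zero _ (by decide)
    set c : F := f.eval 1 / 2 ^ s' with hc
    obtain ⟨g, hg⟩ : py ∣ f - C c * px ^ s' := by
      have : py = -(X - C 1) := by simp [py]
      rw [this, neg_dvd, dvd_iff_isRoot]
      simp only [IsRoot, eval_sub, eval_mul, eval_C, eval_pow, px, eval_add, eval_one, eval_X]
      rw [hc, one_add_one_eq_two, div_mul_cancel₀ _ h2ne, sub_self]
    have hg' : g ∈ degreeLT F (a + m) := by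
      apply mem_of_mul deg_py
      rw [← hg]
      apply Submodule.sub_mem _ hf
      have := C_mul_mem c (mono_mem s' 0)
      simp only [pow_zero, mul_one] at this
      exact degreeLT_mono (by omega) this
    refine ⟨(v - mk n (C c) * mu n B, B + corner n 1), ih s' _ _ g hs' hg' ?_ ?_ ?_,
      Or.inr ⟨B, 1, j, c, hj, rfl, hP, by simp⟩⟩
    · apply y_cancel H
      have e := mu_shift H B a (m + 1) s' 0 hB1 (by simpa using hB2)
      have e2 := congrArg (mk n) hg
      simp only [map_sub, map_mul, map_pow] at e2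
      simp only [pow_zero, mul_one] at e
      rw [pow_succ] at hv e
      linear_combination hv + e2 - mk n (C c) * e
    · simpa [corner] using hB1
    · simp only [corner, Matrix.cons_val_one, Matrix.cons_val_zero, Prod.snd_add]
      push_cast at hB2
      linear_combination hB2

lemma reachT (a b s : ℕ) (hab : a + b = n) (hs : s ≤ b) (v : R n) (P : ZMod n × ZMod n)
    (h1 : P.1 + a = s) (h2 : P.2 + b = 0) : LR (AG n) n (0, 0) (v, P) := by
  obtain ⟨g, hg⟩ := AdjoinRoot.mk_surjective (mk n px ^ a * mk n py ^ b * v)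
  have hm : ((X : F[X]) ^ n).Monic := monic_X_pow n
  have hdeg : g %ₘ X ^ n ∈ degreeLT F (a + b) := by
    rw [mem_degreeLT, hab]
    have := degree_modByMonic_lt g hm
    rwa [degree_X_pow] at this
  have := phase2 H a b s v P (g %ₘ X ^ n) hs hdeg ?_ h1 h2
  · rwa [hab] at this
  · rw [← hg]
    have e := congrArg (mk n) (modByMonic_add_div g (X ^ n))
    have hX : mk n (X ^ n) = 0 := AdjoinRoot.mk_self
    rw [map_add, map_mul, hX, zero_mul, add_zero] at e
    exact e.symm

lemma reach_all (g : VG n) : LR (AG n) n (0, 0) g := by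
  have : NeZero n := ⟨H.pos.ne'⟩
  obtain ⟨v, P⟩ := g
  have hJ := ZMod.val_lt P.2
  have hS := ZMod.val_lt (P.1 + P.2)
  by_cases h : (P.1 + P.2).val + P.2.val ≤ n
  · apply reachT H P.2.val (n - P.2.val) (P.1 + P.2).val (by omega) (by omega)
    · simp
    · rw [Nat.cast_sub hJ.le]; simp
  · have := reachT H (n - P.2.val) P.2.val (n - (P.1 + P.2).val) (by omega) (by omega)
      (-(mu n (-P) * v)) (-P) (by rw [Nat.cast_sub hJ.le, Nat.cast_sub hS.le]; simp; ring)
      (by simp)
    have h2 := LR.map (tr H (v, P)) (fun a b hab => (AG_tr H _ a b).2 hab) this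
    have e1 : tr H (v, P) (0, 0) = (v, P) := by
      ext1
      · show v + mu n P * 0 = v
        simp
      · show P + 0 = P
        simp
    have e2 : tr H (v, P) (-(mu n (-P) * v), -P) = (0, 0) := by
      ext1
      · show v + mu n P * (-(mu n (-P) * v)) = 0
        have := mu_neg H P
        linear_combination (-v) * this
      · show P + -P = 0
        simp
    rw [e1, e2] at h2
    exact LR.symm AG_symm h2

end

end Pool.Agent.H14.Babai
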