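import Pool.Agent.H14.Babai2

set_option autoImplicit false

namespace Pool.Agent.H14.Babai

open Polynomial

/-- numerical part of the invariant -/
def Num (a b c h1 h2 h3 r : ℕ) : Prop :=
  a + b + c = h1 + h2 + h3 ∧ a ≤ r + h2 + h3 ∧ b ≤ r + h1 + h3 ∧ c ≤ r + h1 + h2 ∧
  (a ≤ r + h3 ∨ b ≤ r + h3) ∧ (a ≤ r + h2 ∨ c ≤ r + h2) ∧ (b ≤ r + h1 ∨ c ≤ r + h1) ∧
  (a ≤ r ∨ b ≤ r ∨ c ≤ r) ∧ (h1 ≤ r ∨ h2 ≤ r ∨ h3 ≤ r)

def Inv (n L : ℕ) (g : VG n) : Prop :=
  ∃ a b c h1 h2 h3 r : ℕ, Num a b c h1 h2 h3 r ∧ a + b + c + r = L ∧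
    g.2.1 + a = h1 ∧ g.2.2 + b = h2 ∧
    ∃ f ∈ degreeLT F (a + b + c), mk n px ^ a * mk n py ^ b * g.1 = mk n f

section
variable {n : ℕ} (H : Hn n)
include H

lemma step_poly (v : R n) (B : ZMod n × ZMod n) (c : F) (a b s da db s' g1 g2 : ℕ) (f : F[X])
    (hf : f ∈ degreeLT F s) (hv : mk n px ^ a * mk n py ^ b * v = mk n f)
    (hs : s + db + da ≤ s') (hg : g1 + g2 + 1 ≤ s')
    (h1 : B.1 + (a + da : ℕ) = g1) (h2 : B.2 + (b + db : ℕ) = g2) :
    ∃ f' ∈ degreeLT F s', mk n px ^ (a + da) * mk n py ^ (b + db) * (v + mk n (C c) * mu n B)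
      = mk n f' := by
  refine ⟨px ^ da * (py ^ db * f) + C c * (px ^ g1 * py ^ g2), ?_, ?_⟩
  · apply Submodule.add_mem
    · exact degreeLT_mono hs (pow_mul_mem deg_px (pow_mul_mem deg_py hf db) da)
    · exact degreeLT_mono hg (C_mul_mem c (mono_mem g1 g2))
  · have e := mu_shift H B _ _ _ _ h1 h2
    simp only [map_add, map_mul, map_pow]
    rw [← hv, ← e]
    ring

lemma inv_step (L : ℕ) (u v : VG n) (hu : Inv n L u) (h : AG n u v) : Inv n (L + 1) v := by
  obtain ⟨a, b, c, h1, h2, h3, r, hN, hL, e1, e2, f, hf, hv⟩ := hu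
  rcases h with rfl | ⟨B, i, j, t, hij, hu2, hv2, hv1⟩
  · exact ⟨a, b, c, h1, h2, h3, r + 1, by unfold Num at *; omega, by omega, e1, e2, f, hf, hv⟩
  · -- new depths and heights of the base point
    have key : ∃ da db dc g1 g2 g3 r' : ℕ, a + b + c + (da + db + dc) = g1 + g2 + g3 + 1 ∧
        a + b + c + (da + db + dc) + r' = L + 1 ∧
        B.1 + (a + da : ℕ) = g1 ∧ B.2 + (b + db : ℕ) = g2 ∧
        ((i ≠ 0) → Num (a + da) (b + db) (c + dc) (g1 + 1) g2 g3 r') ∧
        ((i ≠ 1) → Num (a + da) (b + db) (c + dc) g1 (g2 + 1) g3 r') ∧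
        ((i ≠ 2) → Num (a + da) (b + db) (c + dc) g1 g2 (g3 + 1) r') := by
      rw [hu2] at e1 e2
      unfold Num at *
      fin_cases i
      · simp only [corner, Fin.zero_eta, Matrix.cons_val_zero, Prod.fst_add, Prod.snd_add,
          add_zero] at e1 e2
        rcases h1 with _ | h1
        · refine ⟨1, 0, 0, 0, h2, h3, r, by omega, by omega, ?_, e2, by simp, fun _ => by omega,
            fun _ => by omega⟩
          push_cast at e1 ⊢
          linear_combination e1
        · refine ⟨0, 0, 0, h1, h2, h3, r + 1, by omega, by omega, ?_, e2, by simp,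
            fun _ => by omega, fun _ => by omega⟩
          push_cast at e1 ⊢
          linear_combination e1
      · simp only [corner, Fin.mk_one, Matrix.cons_val_one, Matrix.cons_val_zero, Prod.fst_add,
          Prod.snd_add, add_zero] at e1 e2
        rcases h2 with _ | h2
        · refine ⟨0, 1, 0, h1, 0, h3, r, by omega, by omega, e1, ?_, fun _ => by omega, by simp,
            fun _ => by omega⟩
          push_cast at e2 ⊢
          linear_combination e2
        · refine ⟨0, 0, 0, h1, h2, h3, r + 1, by omega, by omega, e1, ?_, fun _ => by omega,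
            by simp, fun _ => by omega⟩
          push_cast at e2 ⊢
          linear_combination e2
      · simp only [corner, Fin.reduceFinMk, Matrix.cons_val, Prod.fst_add,
          Prod.snd_add, add_zero] at e1 e2
        rcases h3 with _ | h3
        · exact ⟨0, 0, 1, h1, h2, 0, r, by omega, by omega, e1, e2, fun _ => by omega,
            fun _ => by omega, by simp⟩
        · exact ⟨0, 0, 0, h1, h2, h3, r + 1, by omega, by omega, e1, e2, fun _ => by omega,
            fun _ => by omega, by simp⟩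
    obtain ⟨da, db, dc, g1, g2, g3, r', k1, k2, k3, k4, k5, k6, k7⟩ := key
    have hp := step_poly H u.1 B t a b (a + b + c) da db (a + da + (b + db) + (c + dc)) g1 g2 f
      hf hv (by omega) (by omega) k3 k4
    rw [← hv1] at hp
    fin_cases j
    · refine ⟨a + da, b + db, c + dc, g1 + 1, g2, g3, r', k5 hij, by omega, ?_, ?_, hp⟩
      · rw [hv2]
        simp only [corner, Fin.zero_eta, Matrix.cons_val_zero, Prod.fst_add]
        push_cast at k3 ⊢
        linear_combination k3
      · rw [hv2]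
        simpa [corner] using k4
    · refine ⟨a + da, b + db, c + dc, g1, g2 + 1, g3, r', k6 hij, by omega, ?_, ?_, hp⟩
      · rw [hv2]
        simpa [corner] using k3
      · rw [hv2]
        simp only [corner, Fin.mk_one, Matrix.cons_val_one, Matrix.cons_val_zero, Prod.snd_add]
        push_cast at k4 ⊢
        linear_combination k4
    · refine ⟨a + da, b + db, c + dc, g1, g2, g3 + 1, r', k7 hij, by omega, ?_, ?_, hp⟩
      · rw [hv2]
        simpa [corner] using k3
      · rw [hv2]
        simpa [corner] using k4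

lemma inv_of_LR (L : ℕ) : ∀ g : VG n, LR (AG n) L (0, 0) g → Inv n L g := by
  induction L with
  | zero =>
    intro g hg
    have : g = (0, 0) := Eq.symm hg
    subst this
    exact ⟨0, 0, 0, 0, 0, 0, 0, by unfold Num; omega, rfl, by simp, by simp, 0,
      Submodule.zero_mem _, by simp⟩
  | succ L ih =>
    intro g hg
    obtain ⟨w, hw, hwg⟩ := hg
    exact inv_step H L w g (ih w hw) hwg

end

/-- pairs (a,b) with a+b ≤ s < n and one of a, b, s-a-b at most r -/
def T (n s r : ℕ) : Finset (ℕ × ℕ) :=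
  (Finset.range (r + 1) ×ˢ Finset.range n ∪ Finset.range n ×ˢ Finset.range (r + 1)) ∪
    (Finset.range (r + 1) ×ˢ Finset.range n).image (fun p => (p.2, s - p.2 - p.1))

lemma T_card (n s r : ℕ) : (T n s r).card ≤ 3 * (r + 1) * n := by
  unfold T
  refine le_trans (Finset.card_union_le _ _) ?_
  have h1 := Finset.card_union_le (Finset.range (r + 1) ×ˢ Finset.range n)
    (Finset.range n ×ˢ Finset.range (r + 1))
  have h2 := Finset.card_image_le (s := Finset.range (r + 1) ×ˢ Finset.range n)
    (f := fun p : ℕ × ℕ => (p.2, s - p.2 - p.1))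
  simp only [Finset.card_product, Finset.card_range] at h1 h2
  nlinarith

lemma mem_T {n s r a b c : ℕ} (hs : a + b + c = s) (hn : s < n) (h : a ≤ r ∨ b ≤ r ∨ c ≤ r) :
    (a, b) ∈ T n s r := by
  unfold T
  simp only [Finset.mem_union, Finset.mem_product, Finset.mem_range, Finset.mem_image]
  rcases h with h | h | h
  · left; left; omega
  · left; right; omega
  · right
    refine ⟨(c, a), by simp only; omega, ?_⟩
    have : s - a - c = b := by omega
    simp only [this]

lemma sum_bound (n : ℕ) :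
    90 * ∑ s ∈ Finset.range n, (n - s) ^ 2 * 101 ^ s + 4 ^ n ≤ 101 ^ n := by
  induction n with
  | zero => simp
  | succ n ih =>
    rw [Finset.sum_range_succ']
    have e : ∑ s ∈ Finset.range n, (n + 1 - (s + 1)) ^ 2 * 101 ^ (s + 1) =
        101 * ∑ s ∈ Finset.range n, (n - s) ^ 2 * 101 ^ s := by
      rw [Finset.mul_sum]
      refine Finset.sum_congr rfl fun s _ => ?_
      rw [Nat.add_sub_add_right, pow_succ]; ring
    rw [e]
    have h4 : (n + 1) ^ 2 ≤ 4 ^ n := by
      have : n + 1 ≤ 2 ^ n := Nat.lt_two_pow_self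
      calc (n + 1) ^ 2 ≤ (2 ^ n) ^ 2 := Nat.pow_le_pow_left this 2
        _ = 4 ^ n := by rw [← pow_mul, mul_comm, pow_mul]; norm_num
    simp only [Nat.sub_zero, pow_zero, mul_one, pow_succ 101, pow_succ 4]
    omega

lemma finite_R (n : ℕ) : Finite (R n) := by
  have := (AdjoinRoot.powerBasis' (monic_X_pow n (R := F))).finite
  exact Module.finite_of_finite F

lemma card_R (n : ℕ) : Nat.card (R n) = 101 ^ n := by
  have := (AdjoinRoot.powerBasis' (monic_X_pow n (R := F))).finite
  rw [Module.natCard_eq_pow_finrank (K := F),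
    (AdjoinRoot.powerBasis' (monic_X_pow n (R := F))).finrank]
  simp

section
variable {n : ℕ} (H : Hn n)
include H

lemma small_count : 10 * {g : VG n | LR (AG n) (n - 1) (0, 0) g}.ncard ≤ 101 ^ n * (n * n) := by
  classical
  let φ : (s : ℕ) → (ℕ × ℕ) × (ℕ × ℕ) × (Fin s → F) → VG n := fun s t =>
    (mu n (-((t.1.1 : ZMod n), (t.1.2 : ZMod n))) * mk n ((degreeLTEquiv F s).symm t.2.2 : F[X]),
      ((t.2.1.1 : ZMod n) - t.1.1, (t.2.1.2 : ZMod n) - t.1.2))
  let S : Finset (VG n) := (Finset.range n).biUnion fun s =>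
    (T n s (n - 1 - s) ×ˢ T n s (n - 1 - s) ×ˢ (Finset.univ : Finset (Fin s → F))).image (φ s)
  have hsub : {g : VG n | LR (AG n) (n - 1) (0, 0) g} ⊆ ↑S := by
    intro g hg
    obtain ⟨a, b, c, h1, h2, h3, r, hN, hL, e1, e2, f, hf, hv⟩ := inv_of_LR H _ g hg
    have := H.pos
    unfold Num at hN
    simp only [S, Finset.coe_biUnion, Finset.coe_range, Set.mem_iUnion, Finset.mem_coe,
      Finset.mem_image, Finset.mem_product]
    refine ⟨a + b + c, by simp; omega, ((a, b), (h1, h2), degreeLTEquiv F _ ⟨f, hf⟩),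
      ⟨mem_T rfl (by omega) (by omega), mem_T (c := h3) (by omega) (by omega) (by omega),
        Finset.mem_univ _⟩, ?_⟩
    simp only [φ, LinearEquiv.symm_apply_apply]
    ext1
    · simp only
      rw [← hv, ← mu_nat H, ← mul_assoc, mul_comm (mu n (-_)), mu_neg H, one_mul]
    · ext1
      · simp only; rw [← e1]; ring
      · simp only; rw [← e2]; ring
  have h1 := Set.ncard_le_ncard hsub (Finset.finite_toSet _)
  rw [Set.ncard_coe_finset] at h1
  have h2 : S.card ≤ ∑ s ∈ Finset.range n, 9 * (n * n) * ((n - s) ^ 2 * 101 ^ s) := by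
    refine le_trans Finset.card_biUnion_le (Finset.sum_le_sum fun s hs => ?_)
    refine le_trans Finset.card_image_le ?_
    have hs' : n - 1 - s + 1 = n - s := by
      have := Finset.mem_range.1 hs
      omega
    have hT := T_card n s (n - 1 - s)
    rw [hs'] at hT
    simp only [Finset.card_product, Finset.card_univ, Fintype.card_fun, ZMod.card,
      Fintype.card_fin]
    calc _ ≤ (3 * (n - s) * n) * ((3 * (n - s) * n) * 101 ^ s) :=
          Nat.mul_le_mul hT (Nat.mul_le_mul hT le_rfl)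
      _ = _ := by ring
  rw [← Finset.mul_sum] at h2
  have h3 := sum_bound n
  have h4 : 90 * ∑ s ∈ Finset.range n, (n - s) ^ 2 * 101 ^ s ≤ 101 ^ n :=
    le_trans (Nat.le_add_right _ _) h3
  calc _ ≤ 10 * (9 * (n * n) * ∑ s ∈ Finset.range n, (n - s) ^ 2 * 101 ^ s) := by omega
    _ = (90 * ∑ s ∈ Finset.range n, (n - s) ^ 2 * 101 ^ s) * (n * n) := by ring
    _ ≤ _ := Nat.mul_le_mul_right _ h4

lemma goodG : ∃ f : VG n → ℕ, Good (AG n) (0, 0) f 910 ∧ (∀ g, f g ≤ n) ∧
    10 * {g | f g < n}.ncard ≤ Nat.card (VG n) := by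
  have : NeZero n := ⟨H.pos.ne'⟩
  have := finite_R n
  have hr : ∀ v, ∃ k, LR (AG n) k (0, 0) v := fun v => ⟨n, reach_all H v⟩
  refine ⟨lnorm _ _ hr, good_of_LR _ _ hr 910 (fun v => Or.inl rfl) AG_symm ?_ AG_deg, ?_, ?_⟩
  · intro v
    refine ⟨tr H v, ?_, AG_tr H v⟩
    ext1
    · show v.1 + mu n v.2 * 0 = v.1
      simp
    · show v.2 + 0 = v.2
      simp
  · intro g
    exact lnorm_le _ _ hr (reach_all H g)
  · have hsub : {g | lnorm _ _ hr g < n} ⊆ {g : VG n | LR (AG n) (n - 1) (0, 0) g} := by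
      intro g hg
      have h0 := lnorm_spec _ _ hr g
      have hk : ∀ k, LR (AG n) (lnorm _ _ hr g + k) (0, 0) g := by
        intro k
        induction k with
        | zero => exact h0
        | succ k ih => exact ⟨g, ih, Or.inl rfl⟩
      have := hk (n - 1 - lnorm _ _ hr g)
      have hg' : lnorm _ _ hr g < n := hg
      rwa [show lnorm _ _ hr g + (n - 1 - lnorm _ _ hr g) = n - 1 by omega] at this
    have h1 := Set.ncard_le_ncard hsub (Set.toFinite _)
    have h2 := small_count H
    rw [Nat.card_prod, Nat.card_prod, card_R, Nat.card_zmod]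
    omega

end

end Pool.Agent.H14.Babai
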