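import Pool.Agent.H14.Babai3

set_option autoImplicit false

namespace Pool.Agent.H14.Babai

def nrm (M : ℕ) (z : ZMod (2 * M)) : ℕ := min z.val (2 * M - z.val)

abbrev VH (K M : ℕ) := Fin K → ZMod (2 * M)

def AH (K M : ℕ) (u v : VH K M) : Prop :=
  u = v ∨ ∃ i, v = u + Pi.single i 1 ∨ u = v + Pi.single i 1

def fH (K M : ℕ) (v : VH K M) : ℕ := ∑ i, nrm M (v i)

section
variable {M : ℕ} (hM : 0 < M)
include hM

lemma val_add_nat (z : ZMod (2 * M)) (k : ℕ) (hk : k < 2 * M) :
    (z.val + k < 2 * M ∧ (z + k).val = z.val + k) ∨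
      (2 * M ≤ z.val + k ∧ (z + k).val + 2 * M = z.val + k) := by
  have : NeZero (2 * M) := ⟨by omega⟩
  have hz := ZMod.val_lt z
  rw [ZMod.val_add, ZMod.val_natCast, Nat.mod_eq_of_lt hk]
  by_cases h : z.val + k < 2 * M
  · left; exact ⟨h, Nat.mod_eq_of_lt h⟩
  · right
    refine ⟨by omega, ?_⟩
    rw [Nat.mod_eq_sub_mod (by omega), Nat.mod_eq_of_lt (by omega)]
    omega

lemma nrm_succ (z : ZMod (2 * M)) : nrm M (z + 1) ≤ nrm M z + 1 ∧ nrm M z ≤ nrm M (z + 1) + 1 := by
  have : NeZero (2 * M) := ⟨by omega⟩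
  have hz := ZMod.val_lt z
  have := val_add_nat hM z 1 (by omega)
  simp only [Nat.cast_one] at this
  unfold nrm
  omega

lemma nrm_desc (z : ZMod (2 * M)) (h : 0 < nrm M z) :
    nrm M (z + 1) + 1 = nrm M z ∨ nrm M (z - 1) + 1 = nrm M z := by
  have : NeZero (2 * M) := ⟨by omega⟩
  have hz := ZMod.val_lt z
  have hz' := ZMod.val_lt (z - 1)
  have h1 := val_add_nat hM z 1 (by omega)
  have h2 := val_add_nat hM (z - 1) 1 (by omega)
  simp only [Nat.cast_one, sub_add_cancel] at h1 h2
  unfold nrm at *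
  omega

lemma nrm_half (z : ZMod (2 * M)) : nrm M (z + M) + nrm M z = M := by
  have : NeZero (2 * M) := ⟨by omega⟩
  have hz := ZMod.val_lt z
  have h1 := val_add_nat hM z M (by omega)
  unfold nrm at *
  omega

lemma nrm_zero (z : ZMod (2 * M)) : nrm M z = 0 ↔ z = 0 := by
  have : NeZero (2 * M) := ⟨by omega⟩
  have hz := ZMod.val_lt z
  rw [← ZMod.val_eq_zero]
  unfold nrm
  omega

omit hM in
lemma fH_single {K : ℕ} (u : VH K M) (i : Fin K) (t : ZMod (2 * M)) :
    fH K M (u + Pi.single i t) + nrm M (u i) = fH K M u + nrm M (u i + t) := by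
  unfold fH
  rw [← Finset.add_sum_erase _ _ (Finset.mem_univ i),
    ← Finset.add_sum_erase Finset.univ (fun j => nrm M (u j)) (Finset.mem_univ i)]
  have : ∑ x ∈ Finset.univ.erase i, nrm M ((u + Pi.single i t : VH K M) x) =
      ∑ x ∈ Finset.univ.erase i, nrm M (u x) := by
    refine Finset.sum_congr rfl fun x hx => ?_
    have := (Finset.mem_erase.1 hx).1
    simp [Pi.single_eq_of_ne this]
  rw [this]
  simp only [Pi.add_apply, Pi.single_eq_same]
  omega

lemma goodH (K : ℕ) : Good (AH K M) 0 (fH K M) (2 * K + 1) where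
  refl := fun v => Or.inl rfl
  symm := by
    intro u v h
    rcases h with rfl | ⟨i, h | h⟩
    · exact Or.inl rfl
    · exact Or.inr ⟨i, Or.inr h⟩
    · exact Or.inr ⟨i, Or.inl h⟩
  zero := by
    intro v
    unfold fH
    rw [Finset.sum_eq_zero_iff]
    simp only [Finset.mem_univ, forall_const, nrm_zero hM]
    exact ⟨fun h => funext h, fun h i => by rw [h]; rfl⟩
  lip := by
    intro u v h
    rcases h with rfl | ⟨i, rfl | rfl⟩
    · omega
    · have := fH_single u i 1
      have := nrm_succ hM (u i)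
      omega
    · have := fH_single v i 1
      have := nrm_succ hM (v i)
      omega
  desc := by
    intro v
    by_cases h : fH K M v = 0
    · exact ⟨v, Or.inl rfl, by omega⟩
    · obtain ⟨i, -, hi⟩ := Finset.exists_ne_zero_of_sum_ne_zero h
      rcases nrm_desc hM (v i) (by omega) with h1 | h1
      · refine ⟨v + Pi.single i 1, Or.inr ⟨i, Or.inr rfl⟩, ?_⟩
        have := fH_single v i 1
        omega
      · refine ⟨v + Pi.single i (-1), Or.inr ⟨i, Or.inl ?_⟩, ?_⟩
        · rw [add_assoc, ← Pi.single_add]; simp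
        · have := fH_single v i (-1)
          rw [← sub_eq_add_neg] at this
          omega
  vt := by
    intro v
    refine ⟨Equiv.addLeft v, by simp, ?_⟩
    intro a b
    simp only [AH, Equiv.coe_addLeft, add_right_inj, add_assoc]
  deg := by
    classical
    intro v
    have hsub : {u | AH K M v u} ⊆ ↑(insert v
        (Finset.univ.image (fun i : Fin K => v + Pi.single i 1) ∪
          Finset.univ.image (fun i : Fin K => v - Pi.single i 1))) := by
      intro u hu
      rcases hu with rfl | ⟨i, rfl | rfl⟩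
      · simp
      · simp
      · simp only [Finset.coe_insert, Finset.coe_union, Finset.coe_image, Finset.coe_univ,
          Set.image_univ, Set.mem_insert_iff, Set.mem_union, Set.mem_range]
        exact Or.inr (Or.inr ⟨i, by simp⟩)
    refine le_trans (Set.ncard_le_ncard hsub (Finset.finite_toSet _)) ?_
    rw [Set.ncard_coe_finset]
    refine le_trans (Finset.card_insert_le _ _) ?_
    have h1 := Finset.card_union_le (Finset.univ.image (fun i : Fin K => v + Pi.single i 1))
      (Finset.univ.image (fun i : Fin K => v - Pi.single i 1))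
    have h2 := Finset.card_image_le (s := Finset.univ) (f := fun i : Fin K => v + Pi.single i 1)
    have h3 := Finset.card_image_le (s := Finset.univ) (f := fun i : Fin K => v - Pi.single i 1)
    simp only [Finset.card_univ, Fintype.card_fin] at h2 h3
    omega

lemma fH_top (K : ℕ) : fH K M (fun _ => (M : ZMod (2 * M))) = K * M := by
  have h := nrm_half hM 0
  rw [(nrm_zero hM 0).2 rfl, zero_add, add_zero] at h
  simp [fH, h]

lemma second_moment (K : ℕ) [NeZero (2 * M)] :
    ∑ h : VH K M, (2 * (fH K M h : ℤ) - K * M) ^ 2 ≤ (Fintype.card (VH K M) : ℤ) * (K * M ^ 2) := by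
  let Y : ZMod (2 * M) → ℤ := fun z => 2 * (nrm M z : ℤ) - M
  have hY : ∀ z, Y (z + M) = -Y z := by
    intro z
    have := nrm_half hM z
    simp only [Y]
    omega
  have hb : ∀ z, Y z * Y z ≤ (M : ℤ) ^ 2 := by
    intro z
    have := nrm_half hM z
    have h1 : (nrm M z : ℤ) ≤ M := by omega
    have h2 : (0 : ℤ) ≤ nrm M z := by omega
    simp only [Y]
    nlinarith
  have e : ∀ h : VH K M, (2 * (fH K M h : ℤ) - K * M) ^ 2 = ∑ i, ∑ j, Y (h i) * Y (h j) := by
    intro h
    rw [← Finset.sum_mul_sum, sq]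
    have : 2 * (fH K M h : ℤ) - K * M = ∑ i, Y (h i) := by
      simp [fH, Y, Finset.sum_sub_distrib, Finset.mul_sum]
    rw [this]
  simp only [e]
  rw [Finset.sum_comm]
  have hcross : ∀ i j : Fin K, i ≠ j → ∑ h : VH K M, Y (h i) * Y (h j) = 0 := by
    intro i j hij
    have := Equiv.sum_comp (Equiv.addRight (Pi.single i (M : ZMod (2 * M)) : VH K M))
      (fun h : VH K M => Y (h i) * Y (h j))
    simp only [Equiv.coe_addRight, Pi.add_apply, Pi.single_eq_same, Pi.single_eq_of_ne hij.symm,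
      add_zero, hY, neg_mul, Finset.sum_neg_distrib] at this
    linarith
  have hrow : ∀ i : Fin K, ∑ h : VH K M, ∑ j, Y (h i) * Y (h j) ≤
      (Fintype.card (VH K M) : ℤ) * M ^ 2 := by
    intro i
    rw [Finset.sum_comm, Finset.sum_eq_single i (fun j _ hj => hcross i j hj.symm) (by simp)]
    calc _ ≤ ∑ _h : VH K M, (M : ℤ) ^ 2 := Finset.sum_le_sum fun h _ => hb _
      _ = _ := by simp
  calc _ ≤ ∑ _i : Fin K, (Fintype.card (VH K M) : ℤ) * M ^ 2 := Finset.sum_le_sum fun i _ => hrow i
    _ = _ := by simp; ring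

lemma tailH [NeZero (2 * M)] (K : ℕ) (hK : K = 1958592) :
    500 * {h : VH K M | 1030301 * M ≤ fH K M h}.ncard ≤ Fintype.card (VH K M) := by
  classical
  have h1 := second_moment hM K
  let S := Finset.univ.filter (fun h : VH K M => 1030301 * M ≤ fH K M h)
  have hS : {h : VH K M | 1030301 * M ≤ fH K M h}.ncard = S.card := by
    rw [← Set.ncard_coe_finset]; congr 1; ext; simp [S]
  rw [hS]
  have hK' : (K : ℤ) = 1958592 := by rw [hK]; norm_num
  have h2 : (S.card : ℤ) * (102010 * M) ^ 2 ≤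
      ∑ h : VH K M, (2 * (fH K M h : ℤ) - K * M) ^ 2 := by
    calc _ = ∑ _h ∈ S, ((102010 : ℤ) * M) ^ 2 := by simp
      _ ≤ ∑ h ∈ S, (2 * (fH K M h : ℤ) - K * M) ^ 2 := by
          refine Finset.sum_le_sum fun h hh => ?_
          have : 1030301 * M ≤ fH K M h := (Finset.mem_filter.1 hh).2
          apply pow_le_pow_left₀ (by positivity)
          rw [hK']
          omega
      _ ≤ _ := Finset.sum_le_sum_of_subset_of_nonneg (Finset.subset_univ _)
          fun _ _ _ => sq_nonneg _
  have h3 := le_trans h2 h1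
  have hM' : (0 : ℤ) < (M : ℤ) ^ 2 := by positivity
  generalize Fintype.card (VH K M) = N at *
  generalize S.card = s at *
  rw [hK'] at h3
  have h4 : (s : ℤ) * 102010 ^ 2 ≤ (N : ℤ) * 1958592 := by
    apply le_of_mul_le_mul_right _ hM'
    nlinarith
  omega

end

lemma compl_card {V : Type} [Fintype V] (p : V → Prop) :
    {v | p v}.ncard + {v | ¬ p v}.ncard = Fintype.card V := by
  have := Set.ncard_add_ncard_compl {v | p v}
  rw [Nat.card_eq_fintype_card] at this
  exact this

lemma combine {V W : Type} [Fintype V] [Fintype W] {A : V → V → Prop} {B : W → W → Prop}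
    {o : V} {o' : W} {f : V → ℕ} {g : W → ℕ} {D E : ℕ} (h2 : Good B o' g E) (h1 : Good A o f D)
    (d : ℕ) (hf : ∀ v, f v ≤ d) (hf' : 10 * {v | f v < d}.ncard ≤ Fintype.card V)
    (hg : 500 * {w | d ≤ g w}.ncard ≤ Fintype.card W) :
    Fintype.card (V × W) ≤ 2 * {p : V × W | max (f p.1) (g p.2) = d}.ncard ∧
    99 * {p : V × W | max (f p.1) (g p.2) = d}.ncard ≤
      100 * {p : V × W | max (f p.1) (g p.2) = d ∧
        ∀ q : V × W, (A p.1 q.1 ∧ B p.2 q.2) → max (f q.1) (g q.2) ≠ d + 1}.ncard := by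
  set S := {p : V × W | max (f p.1) (g p.2) = d}
  set S' := {p : V × W | max (f p.1) (g p.2) = d ∧
        ∀ q : V × W, (A p.1 q.1 ∧ B p.2 q.2) → max (f q.1) (g q.2) ≠ d + 1}
  have c1 := compl_card (fun v => f v < d)
  have c2 := compl_card (fun w => d ≤ g w)
  have s1 : {v | ¬ f v < d} ×ˢ {w | ¬ d ≤ g w} ⊆ S := by
    rintro ⟨v, w⟩ ⟨hv, hw⟩
    have := hf v
    simp only [Set.mem_ofPred_eq] at hv hw
    show max (f v) (g w) = d
    omega
  have s2 : S ⊆ S' ∪ (Set.univ ×ˢ {w | d ≤ g w}) := by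
    rintro ⟨v, w⟩ hp
    by_cases hw : d ≤ g w
    · exact Or.inr ⟨trivial, hw⟩
    · refine Or.inl ⟨hp, fun q hq => ?_⟩
      have := h2.lip _ _ hq.2
      have := hf q.1
      simp only at *
      omega
  have n1 := Set.ncard_le_ncard s1 (Set.toFinite _)
  have n2 := le_trans (Set.ncard_le_ncard s2 (Set.toFinite _)) (Set.ncard_union_le _ _)
  rw [Set.ncard_prod] at n1 n2
  rw [Set.ncard_univ, Nat.card_eq_fintype_card] at n2
  rw [Fintype.card_prod]
  set a := {v | f v < d}.ncard
  set a' := {v | ¬ f v < d}.ncard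
  set b := {w | d ≤ g w}.ncard
  set b' := {w | ¬ d ≤ g w}.ncard
  set N := Fintype.card V
  set N' := Fintype.card W
  have k1 : 9 * N ≤ 10 * a' := by omega
  have k2 : 499 * N' ≤ 500 * b' := by omega
  have k3 : 9 * N * (499 * N') ≤ 10 * a' * (500 * b') := Nat.mul_le_mul k1 k2
  have k4 : N * (500 * b) ≤ N * N' := Nat.mul_le_mul_left _ hg
  have _ := h1.refl
  constructor
  · nlinarith
  · nlinarith

end Pool.Agent.H14.Babai
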