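import Mathlib

set_option autoImplicit false

namespace Pool.Agent.H14.Beck

open Finset

variable {P : Type} [DecidableEq P]

open Classical in
noncomputable def fr (S : Finset P) (R : Set P) : Finset P := S.filter (· ∉ R)

omit [DecidableEq P] in
lemma mem_fr {S : Finset P} {R : Set P} {e : P} : e ∈ fr S R ↔ e ∈ S ∧ e ∉ R := by
  simp [fr]

open Classical in
noncomputable def wt (S : Finset P) (R X : Set P) : ℝ :=
  if ∀ e ∈ S, e ∉ X then (1 / 2) ^ (fr S R).card else 0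

def ind (x : P) (S : Finset P) : ℝ := if x ∈ S then 1 else 0

omit [DecidableEq P] in
lemma wt_nonneg (S : Finset P) (R X : Set P) : 0 ≤ wt S R X := by
  unfold wt; split_ifs <;> positivity

lemma ind_nonneg (x : P) (S : Finset P) : 0 ≤ ind x S := by
  unfold ind; split_ifs <;> norm_num

lemma ind_le (x : P) (S : Finset P) : ind x S ≤ 1 := by
  unfold ind; split_ifs <;> norm_num

lemma wt_step (S : Finset P) (R X : Set P) (x y : P) (hx : x ∉ R) :
    wt S (insert x R) (insert y X) = wt S R X * (1 + ind x S) * (1 - ind y S) := by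
  classical
  unfold wt ind
  by_cases hy : y ∈ S
  · rw [if_neg (fun h => h y hy (Set.mem_insert _ _)), if_pos hy]; simp
  rw [if_neg hy]
  by_cases h : ∀ e ∈ S, e ∉ X
  · rw [if_pos h, if_pos (by
      intro e he h'
      rcases h' with rfl | h'
      · exact hy he
      · exact h e he h')]
    by_cases hxS : x ∈ S
    · rw [if_pos hxS]
      have : fr S R = insert x (fr S (insert x R)) := by
        ext e
        simp only [mem_fr, mem_insert, Set.mem_insert_iff, not_or]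
        constructor
        · intro h1
          by_cases h2 : e = x
          · exact Or.inl h2
          · exact Or.inr ⟨h1.1, h2, h1.2⟩
        · rintro (rfl | h1)
          · exact ⟨hxS, hx⟩
          · exact ⟨h1.1, h1.2.2⟩
      rw [this, card_insert_of_notMem (by simp [mem_fr]), pow_succ]
      ring
    · rw [if_neg hxS]
      have : fr S (insert x R) = fr S R := by
        ext e
        simp only [mem_fr, Set.mem_insert_iff, not_or]
        exact ⟨fun h => ⟨h.1, h.2.2⟩, fun h => ⟨h.1, fun h' => hxS (h' ▸ h.1), h.2⟩⟩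
      rw [this]; ring
  · rw [if_neg h, if_neg (fun h' => h fun e he hX => h' e he (Set.mem_insert_of_mem _ hX))]
    simp

lemma wt_union (S T : Finset P) (R X : Set P) : wt S R X * wt T R X ≤ wt (S ∪ T) R X := by
  classical
  by_cases h1 : ∀ e ∈ S, e ∉ X
  swap
  · have : wt S R X = 0 := by unfold wt; rw [if_neg h1]
    rw [this, zero_mul]; exact wt_nonneg _ _ _
  by_cases h2 : ∀ e ∈ T, e ∉ X
  swap
  · have : wt T R X = 0 := by unfold wt; rw [if_neg h2]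
    rw [this, mul_zero]; exact wt_nonneg _ _ _
  unfold wt
  rw [if_pos h1, if_pos h2, if_pos (by
    intro e he
    rcases mem_union.1 he with h | h
    · exact h1 e h
    · exact h2 e h), ← pow_add]
  apply pow_le_pow_of_le_one (by norm_num) (by norm_num)
  refine le_trans (card_le_card ?_) (card_union_le _ _)
  intro e he
  simp only [mem_fr, mem_union] at he ⊢
  tauto

variable {ι : Type} [Fintype ι]

noncomputable def TT (A : ι → Finset P) (R X : Set P) : ℝ := ∑ i, wt (A i) R X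

def un (A : ι → Finset P) (t : ι × ι × ι × ι) : Finset P := A t.1 ∪ A t.2.1 ∪ A t.2.2.1 ∪ A t.2.2.2

noncomputable def cf (A : ι → Finset P) (t : ι × ι × ι × ι) : ℝ :=
  if 2 ≤ (A t.1 ∩ A t.2.1 ∩ A t.2.2.1 ∩ A t.2.2.2).card then 1 else 0

noncomputable def UU (A : ι → Finset P) (R X : Set P) : ℝ :=
  ∑ t, cf A t * wt (un A t) R X

omit [Fintype ι] in
lemma cf_nonneg (A : ι → Finset P) (t : ι × ι × ι × ι) : 0 ≤ cf A t := by
  unfold cf; split_ifs <;> norm_num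

lemma UU_nonneg (A : ι → Finset P) (R X : Set P) : 0 ≤ UU A R X :=
  sum_nonneg fun t _ => mul_nonneg (cf_nonneg A t) (wt_nonneg _ _ _)

lemma pair_le (A : ι → Finset P) (R X : Set P) (x y : P) (hxy : x ≠ y) :
    (∑ i, wt (A i) R X * (ind x (A i) * ind y (A i))) ^ 4 ≤ UU A R X := by
  set g : ι → ℝ := fun i => wt (A i) R X * (ind x (A i) * ind y (A i)) with hg
  have e : (∑ i, g i) ^ 4 = ∑ t : ι × ι × ι × ι, g t.1 * (g t.2.1 * (g t.2.2.1 * g t.2.2.2)) := by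
    simp only [Fintype.sum_prod_type, ← mul_sum, ← sum_mul]
    ring
  rw [e]
  refine sum_le_sum fun t _ => ?_
  by_cases h : (x ∈ A t.1 ∧ y ∈ A t.1) ∧ (x ∈ A t.2.1 ∧ y ∈ A t.2.1) ∧
      (x ∈ A t.2.2.1 ∧ y ∈ A t.2.2.1) ∧ (x ∈ A t.2.2.2 ∧ y ∈ A t.2.2.2)
  · obtain ⟨⟨a1, a2⟩, ⟨a3, a4⟩, ⟨a5, a6⟩, a7, a8⟩ := h
    have hc : cf A t = 1 := by
      unfold cf
      rw [if_pos]
      exact one_lt_card.2 ⟨x, by simp [*], y, by simp [*], hxy⟩
    simp only [hg, ind, if_pos, a1, a2, a3, a4, a5, a6, a7, a8, mul_one, hc, one_mul, un]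
    have b1 := wt_union (A t.1) (A t.2.1) R X
    have b2 := wt_union (A t.1 ∪ A t.2.1) (A t.2.2.1) R X
    have b3 := wt_union (A t.1 ∪ A t.2.1 ∪ A t.2.2.1) (A t.2.2.2) R X
    have c3 := wt_nonneg (A t.2.2.1) R X
    have c4 := wt_nonneg (A t.2.2.2) R X
    calc _ = wt (A t.1) R X * wt (A t.2.1) R X * wt (A t.2.2.1) R X * wt (A t.2.2.2) R X := by ring
      _ ≤ _ := (mul_le_mul_of_nonneg_right ((mul_le_mul_of_nonneg_right b1 c3).trans b2) c4).trans b3
  · have : g t.1 * (g t.2.1 * (g t.2.2.1 * g t.2.2.2)) = 0 := by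
      simp only [hg, ind]
      simp only [not_and_or] at h
      rcases h with (h | h) | (h | h) | (h | h) | h | h <;> simp [h]
    rw [this]
    exact mul_nonneg (cf_nonneg A t) (wt_nonneg _ _ _)

lemma key_ineq (T U Tx Ty Ux Uy c U' : ℝ) (k : ℕ) (hT : 0 < T) (hU : 0 ≤ U) (_hc0 : 0 ≤ c)
    (hc : c ^ 4 ≤ U) (hUx : 0 ≤ Ux) (hUy : Uy ≤ U)
    (hmax : 4 * Ty * U - Uy * T ≤ 4 * Tx * U - Ux * T) (hmax' : U = 0 → Ty ≤ Tx)
    (hU' : U' ≤ U + Ux - Uy) (hUx' : U = 0 → U + Ux - Uy ≤ 0)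
    (hinv : (2 * (k + 1 : ℝ)) ^ 4 * U ≤ T ^ 4) :
    0 < T + Tx - Ty - c ∧ (2 * (k : ℝ)) ^ 4 * U' ≤ (T + Tx - Ty - c) ^ 4 := by
  rcases hU.eq_or_lt with h0 | hU
  · have hc1 : c = 0 := by
      rw [← h0] at hc
      exact pow_eq_zero_iff (by norm_num : (4 : ℕ) ≠ 0) |>.1 (le_antisymm hc (by positivity))
    have := hmax' h0.symm
    refine ⟨by linarith, le_trans ?_ (by positivity)⟩
    have : U' ≤ 0 := hU'.trans (hUx' h0.symm)
    exact mul_nonpos_of_nonneg_of_nonpos (by positivity) this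
  obtain ⟨u, hu0, hu⟩ : ∃ u : ℝ, 0 < u ∧ u ^ 4 = U :=
    ⟨√(√U), by positivity, by
      rw [show (4 : ℕ) = 2 * 2 by norm_num, pow_mul, Real.sq_sqrt (by positivity),
        Real.sq_sqrt hU.le]⟩
  have h1 : c ≤ u := by
    rw [← hu] at hc
    exact le_of_pow_le_pow_left₀ (by norm_num) hu0.le hc
  have h2 : 2 * (k + 1 : ℝ) * u ≤ T := by
    rw [← hu, ← mul_pow] at hinv
    exact le_of_pow_le_pow_left₀ (by norm_num) hT.le hinv
  obtain ⟨a, ha⟩ : ∃ a, Tx - Ty = a * T := ⟨(Tx - Ty) / T, by field_simp⟩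
  have h3 : Ux - Uy ≤ 4 * a * U := by
    apply le_of_mul_le_mul_right _ hT
    nlinarith
  have h4 : -1 / 4 ≤ a := by
    apply le_of_mul_le_mul_right _ hU
    nlinarith
  have h5 : 1 + 4 * a ≤ (1 + a) ^ 4 := by
    have := one_add_mul_le_pow (a := a) (by linarith) 4
    simpa using this
  have hk : (0 : ℝ) ≤ k := Nat.cast_nonneg k
  have h6 : 2 * k * u * (1 + a) + u / 2 ≤ T + Tx - Ty - c := by
    have : 2 * (k + 1 : ℝ) * u * (1 + a) ≤ T * (1 + a) :=
      mul_le_mul_of_nonneg_right h2 (by linarith)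
    nlinarith
  have h7 : 0 ≤ 2 * k * u * (1 + a) := by
    have : 0 ≤ 1 + a := by linarith
    positivity
  refine ⟨by linarith, ?_⟩
  calc (2 * (k : ℝ)) ^ 4 * U' ≤ (2 * (k : ℝ)) ^ 4 * (U * (1 + a) ^ 4) := by
        apply mul_le_mul_of_nonneg_left _ (by positivity)
        nlinarith
    _ = (2 * k * u * (1 + a)) ^ 4 := by rw [← hu]; ring
    _ ≤ _ := pow_le_pow_left₀ h7 (by linarith) 4

lemma step (A : ι → Finset P) (R X : Set P) (Fr : Finset P) (hne : Fr.Nonempty)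
    (hFr : ∀ x ∈ Fr, x ∉ R) (k : ℕ) (hT : 0 < TT A R X)
    (hinv : (2 * (k + 1 : ℝ)) ^ 4 * UU A R X ≤ TT A R X ^ 4) :
    ∃ x ∈ Fr, ∀ y ∈ Fr, x ≠ y → 0 < TT A (insert x R) (insert y X) ∧
      (2 * (k : ℝ)) ^ 4 * UU A (insert x R) (insert y X) ≤ TT A (insert x R) (insert y X) ^ 4 := by
  let T1 : P → ℝ := fun x => ∑ i, wt (A i) R X * ind x (A i)
  let U1 : P → ℝ := fun x => ∑ t, cf A t * wt (un A t) R X * ind x (un A t)
  obtain ⟨x, hx, hmax⟩ := exists_max_image Fr (fun x => if UU A R X = 0 then T1 x else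
    4 * T1 x * UU A R X - U1 x * TT A R X) hne
  refine ⟨x, hx, fun y hy hxy => ?_⟩
  have hT1 : ∀ z, 0 ≤ T1 z ∧ T1 z ≤ TT A R X := fun z =>
    ⟨sum_nonneg fun i _ => mul_nonneg (wt_nonneg _ _ _) (ind_nonneg _ _),
      sum_le_sum fun i _ => mul_le_of_le_one_right (wt_nonneg _ _ _) (ind_le _ _)⟩
  have hU1 : ∀ z, 0 ≤ U1 z ∧ U1 z ≤ UU A R X := fun z =>
    ⟨sum_nonneg fun t _ => mul_nonneg (mul_nonneg (cf_nonneg _ _) (wt_nonneg _ _ _))
      (ind_nonneg _ _), sum_le_sum fun t _ =>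
      mul_le_of_le_one_right (mul_nonneg (cf_nonneg _ _) (wt_nonneg _ _ _)) (ind_le _ _)⟩
  have e1 : TT A (insert x R) (insert y X) = TT A R X + T1 x - T1 y -
      ∑ i, wt (A i) R X * (ind x (A i) * ind y (A i)) := by
    simp only [TT, T1, wt_step _ _ _ _ _ (hFr x hx), ← sum_add_distrib, ← sum_sub_distrib]
    exact sum_congr rfl fun i _ => by ring
  have e2 : UU A (insert x R) (insert y X) ≤ UU A R X + U1 x - U1 y := by
    simp only [UU, U1, wt_step _ _ _ _ _ (hFr x hx), ← sum_add_distrib, ← sum_sub_distrib]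
    refine sum_le_sum fun t _ => ?_
    have := mul_nonneg (mul_nonneg (cf_nonneg A t) (wt_nonneg (un A t) R X))
      (mul_nonneg (ind_nonneg x (un A t)) (ind_nonneg y (un A t)))
    nlinarith
  rw [e1]
  have hm := hmax y hy
  refine key_ineq _ (UU A R X) _ _ (U1 x) (U1 y) _ _ k hT (UU_nonneg _ _ _)
    (sum_nonneg fun i _ => mul_nonneg (wt_nonneg _ _ _)
      (mul_nonneg (ind_nonneg _ _) (ind_nonneg _ _)))
    (pair_le A R X x y hxy) (hU1 x).1 (hU1 y).2 ?_ ?_ e2 ?_ hinv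
  · by_cases h : UU A R X = 0
    · have a1 := hU1 x
      have a2 := hU1 y
      have a3 : U1 x = 0 := by linarith [a1.1, a1.2]
      have a4 : U1 y = 0 := by linarith [a2.1, a2.2]
      rw [h, a3, a4]; simp
    · simpa [h] using hm
  · intro h
    simpa [h] using hm
  · intro h
    have a1 := hU1 x
    have a2 := hU1 y
    linarith [a1.1, a1.2, a2.1, a2.2]

open Classical in
theorem beck (valid : P → Prop) (Bd O : Finset P) (hdis : ∀ e ∈ O, e ∉ Bd)
    (hv1 : ∀ e ∈ Bd, valid e) (hv2 : ∀ e ∈ O, valid e) (A : ι → Finset P) (hA : ∀ i, A i ⊆ Bd)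
    (Win : Set P → Prop) (hWin : ∀ i (R : Set P), (∀ e ∈ A i, e ∈ R) → Win R)
    (S : Set (Set P × Set P × Set P))
    (hS : ∀ R W B : Set P, (∃ e f, valid e ∧ valid f ∧ e ≠ f ∧ e ∉ R ∧ e ∉ W ∧ e ∉ B ∧
      f ∉ R ∧ f ∉ W ∧ f ∉ B ∧ (Win (insert e R) ∨
        ((∃ g, valid g ∧ g ∉ R ∧ g ∉ W ∧ g ∉ B ∧ g ≠ e ∧ g ≠ f) ∧
          ∀ g, valid g → g ∉ R → g ∉ W → g ∉ B → g ≠ e → g ≠ f →
            (insert e R, insert f W, insert g B) ∈ S))) → (R, W, B) ∈ S) (k : ℕ) :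
    ∀ R W B X : Set P, (∀ e ∈ Bd, e ∈ W ∨ e ∈ B → e ∈ X) →
      (Bd.filter fun e => e ∉ R ∧ e ∉ X).card ≤ k →
      2 * k + 2 ≤ (O.filter fun e => e ∉ R ∧ e ∉ W ∧ e ∉ B).card →
      0 < TT A R X → (2 * (k : ℝ)) ^ 4 * UU A R X ≤ TT A R X ^ 4 → (R, W, B) ∈ S := by
  have small : ∀ R W B X : Set P, (∀ e ∈ Bd, e ∈ W ∨ e ∈ B → e ∈ X) →
      (Bd.filter fun e => e ∉ R ∧ e ∉ X).card ≤ 1 →
      2 ≤ (O.filter fun e => e ∉ R ∧ e ∉ W ∧ e ∉ B).card →
      0 < TT A R X → (R, W, B) ∈ S := by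
    intro R W B X hX h1 h2 hT
    obtain ⟨i, -, hi⟩ := exists_ne_zero_of_sum_ne_zero hT.ne'
    have hi' : ∀ e ∈ A i, e ∉ X := by
      by_contra hc
      exact hi (by unfold wt; rw [if_neg hc])
    obtain ⟨e, he, f, hf, hef⟩ := one_lt_card.1 h2
    simp only [mem_filter] at he hf
    by_cases h3 : ∃ x ∈ A i, x ∉ R
    · obtain ⟨x, hx, hxR⟩ := h3
      have hxB := hA i hx
      refine hS R W B ⟨x, f, hv1 x hxB, hv2 f hf.1, fun h => hdis f hf.1 (h ▸ hxB), hxR,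
        fun h => hi' x hx (hX x hxB (Or.inl h)), fun h => hi' x hx (hX x hxB (Or.inr h)),
        hf.2.1, hf.2.2.1, hf.2.2.2, Or.inl (hWin i _ fun z hz => ?_)⟩
      by_cases hzR : z ∈ R
      · exact Or.inr hzR
      · exact Or.inl (card_le_one.1 h1 z (mem_filter.2 ⟨hA i hz, hzR, hi' z hz⟩) x
          (mem_filter.2 ⟨hxB, hxR, hi' x hx⟩))
    · push Not at h3
      exact hS R W B ⟨e, f, hv2 e he.1, hv2 f hf.1, hef, he.2.1, he.2.2.1, he.2.2.2,
        hf.2.1, hf.2.2.1, hf.2.2.2, Or.inl (hWin i _ fun z hz => Or.inr (h3 z hz))⟩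
  induction k with
  | zero =>
    intro R W B X hX h1 h2 hT _
    exact small R W B X hX (by omega) (by omega) hT
  | succ k ih =>
    intro R W B X hX h1 h2 hT hinv
    by_cases hs : (Bd.filter fun e => e ∉ R ∧ e ∉ X).card ≤ 1
    · exact small R W B X hX hs (by omega) hT
    set Fr := Bd.filter fun e => e ∉ R ∧ e ∉ X with hFr
    set Of := O.filter fun e => e ∉ R ∧ e ∉ W ∧ e ∉ B with hOf
    obtain ⟨x, hx, hstep⟩ := step A R X Fr (card_pos.1 (by omega))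
      (fun x hx => (mem_filter.1 hx).2.1) k hT (by simpa using hinv)
    obtain ⟨y0, hy0, hy0x⟩ := exists_mem_ne (by omega : 1 < Fr.card) x
    obtain ⟨f, hf⟩ := card_pos.1 (by omega : 0 < Of.card)
    have hx' := mem_filter.1 hx
    have hf' := mem_filter.1 hf
    have hy' := mem_filter.1 hy0
    refine hS R W B ⟨x, f, hv1 x hx'.1, hv2 f hf'.1, fun h => hdis f hf'.1 (h ▸ hx'.1), hx'.2.1,
      fun h => hx'.2.2 (hX x hx'.1 (Or.inl h)), fun h => hx'.2.2 (hX x hx'.1 (Or.inr h)),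
      hf'.2.1, hf'.2.2.1, hf'.2.2.2, Or.inr ⟨⟨y0, hv1 _ hy'.1, hy'.2.1,
        fun h => hy'.2.2 (hX _ hy'.1 (Or.inl h)), fun h => hy'.2.2 (hX _ hy'.1 (Or.inr h)), hy0x,
        fun h => hdis f hf'.1 (h ▸ hy'.1)⟩, ?_⟩⟩
    intro g _ g1 _ _ g4 _
    obtain ⟨y, hy, hyx, hyg⟩ : ∃ y ∈ Fr, x ≠ y ∧ (g ∈ Fr → y = g) := by
      by_cases h : g ∈ Fr
      · exact ⟨g, h, g4.symm, fun _ => rfl⟩
      · exact ⟨y0, hy0, hy0x.symm, fun h' => absurd h' h⟩
    obtain ⟨a1, a2⟩ := hstep y hy hyx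
    refine ih _ _ _ (insert y X) ?_ ?_ ?_ a1 a2
    · rintro e he ((rfl | h) | (rfl | h))
      · exact absurd he (hdis _ hf'.1)
      · exact Or.inr (hX e he (Or.inl h))
      · by_cases h : e ∈ X
        · exact Or.inr h
        · exact Or.inl (hyg (mem_filter.2 ⟨he, g1, h⟩)).symm
      · exact Or.inr (hX e he (Or.inr h))
    · have : (Bd.filter fun e => e ∉ insert x R ∧ e ∉ insert y X) ⊆ Fr.erase x := by
        intro e he
        simp only [mem_filter, Set.mem_insert_iff, not_or] at he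
        exact mem_erase.2 ⟨he.2.1.1, mem_filter.2 ⟨he.1, he.2.1.2, he.2.2.2⟩⟩
      have h3 := card_le_card this
      rw [card_erase_of_mem hx] at h3
      convert (show _ ≤ k from h3.trans (by omega))
    · have : (Of.erase f).erase g ⊆
          (O.filter fun e => e ∉ insert x R ∧ e ∉ insert f W ∧ e ∉ insert g B) := by
        intro e he
        simp only [mem_erase, hOf, mem_filter] at he
        simp only [mem_filter, Set.mem_insert_iff, not_or]
        exact ⟨he.2.2.1, ⟨fun h => hdis e he.2.2.1 (h ▸ hx'.1), he.2.2.2.1⟩,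
          ⟨he.2.1, he.2.2.2.2.1⟩, he.1, he.2.2.2.2.2⟩
      have h3 := card_le_card this
      have h4 := pred_card_le_card_erase (s := Of.erase f) (a := g)
      have h5 := pred_card_le_card_erase (s := Of) (a := f)
      convert (show 2 * k + 2 ≤ _ from le_trans (by omega) h3)

theorem beck0 (valid : P → Prop) (Bd O : Finset P) (hdis : ∀ e ∈ O, e ∉ Bd)
    (hv1 : ∀ e ∈ Bd, valid e) (hv2 : ∀ e ∈ O, valid e) (A : ι → Finset P) (hA : ∀ i, A i ⊆ Bd)
    (Win : Set P → Prop) (hWin : ∀ i (R : Set P), (∀ e ∈ A i, e ∈ R) → Win R)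
    (S : Set (Set P × Set P × Set P))
    (hS : ∀ R W B : Set P, (∃ e f, valid e ∧ valid f ∧ e ≠ f ∧ e ∉ R ∧ e ∉ W ∧ e ∉ B ∧
      f ∉ R ∧ f ∉ W ∧ f ∉ B ∧ (Win (insert e R) ∨
        ((∃ g, valid g ∧ g ∉ R ∧ g ∉ W ∧ g ∉ B ∧ g ≠ e ∧ g ≠ f) ∧
          ∀ g, valid g → g ∉ R → g ∉ W → g ∉ B → g ≠ e → g ≠ f →
            (insert e R, insert f W, insert g B) ∈ S))) → (R, W, B) ∈ S) (k : ℕ)
    (E : Set P) (hE : ∀ e, e ∉ E) (h1 : Bd.card ≤ k) (h2 : 2 * k + 2 ≤ O.card)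
    (h3 : 0 < TT A E E) (h4 : (2 * (k : ℝ)) ^ 4 * UU A E E ≤ TT A E E ^ 4) : (E, E, E) ∈ S := by
  classical
  refine beck valid Bd O hdis hv1 hv2 A hA Win hWin S hS k E E E E (by simp) ?_ ?_ h3 h4
  · exact (card_filter_le _ _).trans h1
  · rwa [filter_true_of_mem (by simp [hE])]

end Pool.Agent.H14.Beck
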