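import Pool.Agent.H14.Beck1

set_option autoImplicit false

namespace Pool.Agent.H14.Beck

open Finset

variable {V : Type} [DecidableEq V] {q M : ℕ}

def pairs (q : ℕ) : Finset (Fin q × Fin q) := (univ ×ˢ univ).filter fun p => p.1 < p.2

def ed (v : Fin q × Fin M → V) (f : Fin q → Fin M) (p : Fin q × Fin q) : V × V :=
  (v (p.1, f p.1), v (p.2, f p.2))

def AA (v : Fin q × Fin M → V) (f : Fin q → Fin M) : Finset (V × V) := (pairs q).image (ed v f)

omit [DecidableEq V] in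
lemma ed_inj {v : Fin q × Fin M → V} (hv : Function.Injective v) {f g : Fin q → Fin M}
    {p p' : Fin q × Fin q} (h : ed v f p = ed v g p') :
    p = p' ∧ f p.1 = g p.1 ∧ f p.2 = g p.2 := by
  simp only [ed, Prod.mk.injEq] at h
  have h1 := hv h.1
  have h2 := hv h.2
  simp only [Prod.mk.injEq] at h1 h2
  refine ⟨Prod.ext h1.1 h2.1, ?_, ?_⟩
  · rw [h1.2, h1.1]
  · rw [h2.2, h2.1]

lemma card_AA {v : Fin q × Fin M → V} (hv : Function.Injective v) (f : Fin q → Fin M) :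
    (AA v f).card = q.choose 2 := by
  rw [AA, card_image_of_injective _ (fun p p' h => (ed_inj hv h).1), pairs,
    card_product_filter_lt]
  simp

lemma wt_empty {P : Type} (S : Finset P) : wt S ∅ ∅ = (1 / 2) ^ S.card := by
  have : fr S ∅ = S := by ext; simp [mem_fr]
  simp [wt, this]

lemma choose_bound (t h : ℕ) (ht : t + 3 ≤ 2 * h) : (t + 3).choose 2 ≤ 3 + t * (h + 1) := by
  rw [Nat.choose_two_right]
  apply Nat.div_le_of_le_mul
  simp only [show t + 3 - 1 = t + 2 by omega]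
  nlinarith

def ag (J : Finset (Fin q)) (a b : Fin q → Fin M) : ℝ := if ∀ c ∈ J, b c = a c then 1 else 0

lemma ag_nonneg (J : Finset (Fin q)) (a b : Fin q → Fin M) : 0 ≤ ag J a b := by
  unfold ag; split_ifs <;> norm_num

lemma one_step {v : Fin q × Fin M → V} (hv : Function.Injective v) (h : ℕ) (hq : q = 2 * h)
    (J : Finset (Fin q)) (hJ : J.card = 3) (g1 g2 g3 : Fin q → Fin M) (S : Finset (V × V))
    (hS : S ⊆ AA v g1 ∪ AA v g2 ∪ AA v g3) :
    ∑ d, ag J g1 d * (1 / 2) ^ (S ∪ AA v d).card ≤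
      (1 / 2) ^ S.card * ((1 / 2) ^ q.choose 2 * (8 * ((M : ℝ) + 3 * 2 ^ (h + 1)) ^ (q - 3))) := by
  let φ : Fin q → Fin M → ℝ := fun c x => if c ∈ J then (if x = g1 c then 1 else 0) else
    (if x = g1 c ∨ x = g2 c ∨ x = g3 c then 2 ^ (h + 1) else 1)
  have h1 : ∀ d, ag J g1 d * (1 / 2) ^ (S ∪ AA v d).card ≤
      (1 / 2) ^ S.card * ((1 / 2) ^ q.choose 2 * (8 * ∏ c, φ c (d c))) := by
    intro d
    by_cases hd : ∀ c ∈ J, d c = g1 c
    swap
    · have : ag J g1 d = 0 := by unfold ag; rw [if_neg hd]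
      rw [this, zero_mul]
      refine mul_nonneg (by positivity) (mul_nonneg (by positivity) (mul_nonneg (by norm_num)
        (prod_nonneg fun c _ => ?_)))
      simp only [φ]; split_ifs <;> positivity
    have : ag J g1 d = 1 := by unfold ag; rw [if_pos hd]
    rw [this, one_mul]
    let Sd := univ.filter fun c => d c = g1 c ∨ d c = g2 c ∨ d c = g3 c
    have hJS : J ⊆ Sd := fun c hc => mem_filter.2 ⟨mem_univ _, Or.inl (hd c hc)⟩
    have a1 : (S ∩ AA v d).card ≤ Sd.card.choose 2 := by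
      rw [← card_product_filter_lt]
      refine le_trans (card_le_card ?_) (card_image_le (f := ed v d))
      intro e he
      obtain ⟨he1, he2⟩ := mem_inter.1 he
      obtain ⟨p, hp, rfl⟩ := mem_image.1 he2
      refine mem_image.2 ⟨p, ?_, rfl⟩
      have hlt := (mem_filter.1 hp).2
      have := hS he1
      simp only [mem_union, AA, mem_image] at this
      simp only [mem_filter, mem_product, Sd, mem_univ, true_and]
      rcases this with (⟨p', _, e⟩ | ⟨p', _, e⟩) | ⟨p', _, e⟩ <;>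
        obtain ⟨-, b1, b2⟩ := ed_inj hv e.symm <;> tauto
    have a2 : Sd.card = (Sd \ J).card + 3 := by
      rw [← hJ, card_sdiff_add_card_eq_card hJS]
    have a3 : Sd.card ≤ 2 * h := by
      rw [← hq]; simpa using card_le_univ Sd
    have a4 := choose_bound (Sd \ J).card h (by omega)
    rw [← a2] at a4
    have a5 : ∏ c, φ c (d c) = 2 ^ ((Sd \ J).card * (h + 1)) := by
      have : ∀ c, φ c (d c) = if c ∈ Sd \ J then 2 ^ (h + 1) else 1 := by
        intro c
        simp only [φ, mem_sdiff, Sd, mem_filter, mem_univ, true_and]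
        by_cases hc : c ∈ J
        · simp [hc, hd c hc]
        · simp [hc]
      simp only [this]
      rw [prod_ite_mem, univ_inter, prod_const, ← pow_mul, mul_comm]
    have a6 := card_union_add_card_inter S (AA v d)
    rw [card_AA hv] at a6
    rw [a5]
    have a7 : (1 / 2 : ℝ) ^ (S ∪ AA v d).card =
        (1 / 2) ^ S.card * ((1 / 2) ^ q.choose 2 * 2 ^ (S ∩ AA v d).card) := by
      rw [← mul_assoc, ← pow_add, ← a6, pow_add, mul_assoc, ← mul_pow]; simp
    rw [a7]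
    refine mul_le_mul_of_nonneg_left (mul_le_mul_of_nonneg_left ?_ (by positivity))
      (by positivity)
    calc (2 : ℝ) ^ (S ∩ AA v d).card ≤ 2 ^ (3 + (Sd \ J).card * (h + 1)) :=
          pow_le_pow_right₀ (by norm_num) (a1.trans a4)
      _ = _ := by rw [pow_add]; norm_num
  refine (sum_le_sum fun d _ => h1 d).trans ?_
  rw [← mul_sum, ← mul_sum, ← mul_sum]
  refine mul_le_mul_of_nonneg_left (mul_le_mul_of_nonneg_left
    (mul_le_mul_of_nonneg_left ?_ (by norm_num)) (by positivity)) (by positivity)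
  have h2 := prod_univ_sum (fun _ : Fin q => (univ : Finset (Fin M))) φ
  rw [Fintype.piFinset_univ] at h2
  rw [← h2]
  have h3 : ∀ c, ∑ x, φ c x ≤ if c ∈ Jᶜ then (M : ℝ) + 3 * 2 ^ (h + 1) else 1 := by
    intro c
    by_cases hc : c ∈ J
    · simp [φ, hc]
    · simp only [φ, if_neg hc, if_pos (mem_compl.2 hc)]
      have : ∀ x : Fin M, (if x = g1 c ∨ x = g2 c ∨ x = g3 c then (2 : ℝ) ^ (h + 1) else 1) ≤
          1 + ((if x = g1 c then (2 : ℝ) ^ (h + 1) else 0) + (if x = g2 c then 2 ^ (h + 1) else 0) +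
            (if x = g3 c then 2 ^ (h + 1) else 0)) := by
        intro x
        have : (0 : ℝ) ≤ 2 ^ (h + 1) := by positivity
        split_ifs <;> first | linarith | tauto
      refine (sum_le_sum fun x _ => this x).trans (le_of_eq ?_)
      simp [sum_add_distrib]
      ring
  refine (prod_le_prod (fun c _ => sum_nonneg fun x _ => ?_) fun c _ => h3 c).trans (le_of_eq ?_)
  · simp only [φ]; split_ifs <;> positivity
  · rw [prod_ite_mem, univ_inter, prod_const, card_compl, hJ, Fintype.card_fin]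

lemma cf_le {v : Fin q × Fin M → V} (hv : Function.Injective v) (a b c d : Fin q → Fin M) :
    cf (AA v) (a, b, c, d) ≤ ∑ J ∈ powersetCard 3 (univ : Finset (Fin q)),
      ag J a b * (ag J a c * ag J a d) := by
  unfold cf
  split_ifs with h
  swap
  · exact sum_nonneg fun J _ => mul_nonneg (ag_nonneg _ _ _)
      (mul_nonneg (ag_nonneg _ _ _) (ag_nonneg _ _ _))
  let Ag := univ.filter fun i => b i = a i ∧ c i = a i ∧ d i = a i
  have h1 : (AA v a ∩ AA v b ∩ AA v c ∩ AA v d).card ≤ Ag.card.choose 2 := by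
    rw [← card_product_filter_lt]
    refine le_trans (card_le_card ?_) (card_image_le (f := ed v a))
    intro e he
    simp only [mem_inter, AA, mem_image] at he
    obtain ⟨⟨⟨⟨p, hp, rfl⟩, p1, _, e1⟩, p2, _, e2⟩, p3, _, e3⟩ := he
    refine mem_image.2 ⟨p, ?_, rfl⟩
    have hlt := (mem_filter.1 hp).2
    obtain ⟨-, b1, b2⟩ := ed_inj hv e1.symm
    obtain ⟨-, b3, b4⟩ := ed_inj hv e2.symm
    obtain ⟨-, b5, b6⟩ := ed_inj hv e3.symm
    simp only [mem_filter, mem_product, Ag, mem_univ, true_and]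
    exact ⟨⟨⟨b1.symm, b3.symm, b5.symm⟩, b2.symm, b4.symm, b6.symm⟩, hlt⟩
  have h2 : 3 ≤ Ag.card := by
    by_contra hc
    have : Ag.card.choose 2 ≤ (2 : ℕ).choose 2 := Nat.choose_le_choose 2 (by omega)
    simp only [Nat.choose_self] at this
    simp only at h
    omega
  obtain ⟨J, hJ1, hJ2⟩ := exists_subset_card_eq h2
  refine le_trans (le_of_eq ?_) (single_le_sum (f := fun J => ag J a b * (ag J a c * ag J a d))
    (fun J _ => mul_nonneg (ag_nonneg _ _ _) (mul_nonneg (ag_nonneg _ _ _) (ag_nonneg _ _ _)))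
    (mem_powersetCard.2 ⟨subset_univ J, hJ2⟩))
  have := fun i (hi : i ∈ J) => (mem_filter.1 (hJ1 hi)).2
  simp only [ag]
  rw [if_pos fun i hi => (this i hi).1, if_pos fun i hi => (this i hi).2.1,
    if_pos fun i hi => (this i hi).2.2]
  norm_num

lemma TT_empty {v : Fin q × Fin M → V} (hv : Function.Injective v) :
    TT (AA v) ∅ ∅ = (M : ℝ) ^ q * (1 / 2) ^ q.choose 2 := by
  simp [TT, wt_empty, card_AA hv]

lemma UU_empty {v : Fin q × Fin M → V} (hv : Function.Injective v) (h : ℕ) (hq : q = 2 * h) :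
    UU (AA v) ∅ ∅ ≤ q.choose 3 * ((M : ℝ) ^ q * ((1 / 2) ^ q.choose 2 *
      ((1 / 2) ^ q.choose 2 * (8 * ((M : ℝ) + 3 * 2 ^ (h + 1)) ^ (q - 3))) ^ 3)) := by
  set Z : ℝ := (1 / 2) ^ q.choose 2 * (8 * ((M : ℝ) + 3 * 2 ^ (h + 1)) ^ (q - 3)) with hZ
  have hZ0 : 0 ≤ Z := by positivity
  have h1 : UU (AA v) ∅ ∅ ≤ ∑ J ∈ powersetCard 3 (univ : Finset (Fin q)), ∑ a, ∑ b, ag J a b *
      ∑ c, ag J a c * ∑ d, ag J a d * (1 / 2) ^ (AA v a ∪ AA v b ∪ AA v c ∪ AA v d).card := by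
    simp only [UU, wt_empty, Fintype.sum_prod_type, un, mul_sum]
    rw [sum_comm (s := powersetCard 3 (univ : Finset (Fin q)))]
    refine sum_le_sum fun a _ => ?_
    rw [sum_comm (s := powersetCard 3 (univ : Finset (Fin q)))]
    refine sum_le_sum fun b _ => ?_
    rw [sum_comm (s := powersetCard 3 (univ : Finset (Fin q)))]
    refine sum_le_sum fun c _ => ?_
    rw [sum_comm (s := powersetCard 3 (univ : Finset (Fin q)))]
    refine sum_le_sum fun d _ => ?_
    refine (mul_le_mul_of_nonneg_right (cf_le hv a b c d) (by positivity)).trans (le_of_eq ?_)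
    rw [sum_mul]
    exact sum_congr rfl fun J _ => by ring
  refine h1.trans ?_
  have h2 : ∀ J ∈ powersetCard 3 (univ : Finset (Fin q)), ∀ a, ∑ b, ag J a b *
      ∑ c, ag J a c * ∑ d, ag J a d * (1 / 2) ^ (AA v a ∪ AA v b ∪ AA v c ∪ AA v d).card ≤
      (1 / 2) ^ q.choose 2 * Z ^ 3 := by
    intro J hJ a
    have hJ3 := (mem_powersetCard.1 hJ).2
    have s1 : ∀ b, ∑ c, ag J a c * ∑ d, ag J a d *
        (1 / 2) ^ (AA v a ∪ AA v b ∪ AA v c ∪ AA v d).card ≤
        (1 / 2) ^ (AA v a ∪ AA v b).card * Z * Z := by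
      intro b
      refine (sum_le_sum fun c _ => mul_le_mul_of_nonneg_left
        (one_step hv h hq J hJ3 a b c _ subset_rfl) (ag_nonneg _ _ _)).trans ?_
      simp only [← hZ, ← mul_assoc, ← sum_mul]
      exact mul_le_mul_of_nonneg_right (one_step hv h hq J hJ3 a b b _ subset_union_left) hZ0
    refine (sum_le_sum fun b _ => mul_le_mul_of_nonneg_left (s1 b) (ag_nonneg _ _ _)).trans ?_
    simp only [← mul_assoc, ← sum_mul]
    have := one_step hv h hq J hJ3 a a a (AA v a) (by simp)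
    rw [card_AA hv, ← hZ] at this
    calc _ ≤ (1 / 2) ^ q.choose 2 * Z * Z * Z :=
          mul_le_mul_of_nonneg_right (mul_le_mul_of_nonneg_right this hZ0) hZ0
      _ = _ := by ring
  refine (sum_le_sum fun J hJ => sum_le_sum fun a _ => h2 J hJ a).trans (le_of_eq ?_)
  simp

lemma init_inv {v : Fin q × Fin M → V} (hv : Function.Injective v) (h : ℕ) (hq : q = 2 * h)
    (h3 : 3 ≤ q) (hM1 : (3 * q) * (3 * 2 ^ (h + 1)) ≤ M) (hM2 : 24576 * q ^ 11 ≤ M) :
    (2 * (((q * M) ^ 2 : ℕ) : ℝ)) ^ 4 * UU (AA v) ∅ ∅ ≤ TT (AA v) ∅ ∅ ^ 4 := by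
  have hq0 : (0 : ℝ) < q := by exact_mod_cast (by omega : 0 < q)
  have hM0 : (0 : ℝ) < M := by
    have : 0 < 24576 * q ^ 11 := by positivity
    exact_mod_cast (by omega : 0 < M)
  obtain ⟨r, rfl⟩ : ∃ r, q = r + 3 := ⟨q - 3, by omega⟩
  have a1 : ((M : ℝ) + 3 * 2 ^ (h + 1)) ^ (3 * r) ≤ 3 * (M : ℝ) ^ (3 * r) := by
    have b1 : (M : ℝ) + 3 * 2 ^ (h + 1) ≤ M * Real.exp (3 * 2 ^ (h + 1) / M) := by
      have := Real.add_one_le_exp (3 * 2 ^ (h + 1) / (M : ℝ))
      calc (M : ℝ) + 3 * 2 ^ (h + 1) = M * (3 * 2 ^ (h + 1) / M + 1) := by field_simp; ring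
        _ ≤ _ := mul_le_mul_of_nonneg_left this hM0.le
    refine (pow_le_pow_left₀ (by positivity) b1 _).trans ?_
    rw [mul_pow, ← Real.exp_nat_mul, mul_comm]
    refine mul_le_mul_of_nonneg_right ?_ (by positivity)
    refine le_trans (Real.exp_le_exp.2 (?_ : _ ≤ (1 : ℝ))) (Real.exp_one_lt_d9.le.trans (by norm_num))
    rw [mul_div_assoc', div_le_one hM0]
    have : (((3 * (r + 3)) * (3 * 2 ^ (h + 1)) : ℕ) : ℝ) ≤ M := by exact_mod_cast hM1
    push_cast at this ⊢
    have : (0 : ℝ) ≤ 2 ^ (h + 1) := by positivity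
    nlinarith
  have a2 : (((r + 3).choose 3 : ℕ) : ℝ) ≤ ((r + 3 : ℕ) : ℝ) ^ 3 := by
    exact_mod_cast Nat.choose_le_pow (r + 3) 3
  have a3 : 24576 * ((r + 3 : ℕ) : ℝ) ^ 11 ≤ M := by exact_mod_cast hM2
  rw [TT_empty hv]
  refine (mul_le_mul_of_nonneg_left (UU_empty hv h hq) (by positivity)).trans ?_
  rw [Nat.add_sub_cancel]
  set w : ℝ := (1 / 2) ^ (r + 3).choose 2 with hw
  set Q : ℝ := ((r + 3 : ℕ) : ℝ) with hQ
  have hw0 : 0 < w := by positivity
  calc _ = (((r + 3).choose 3 : ℕ) : ℝ) * ((M : ℝ) + 3 * 2 ^ (h + 1)) ^ (3 * r) *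
        (8192 * Q ^ 8 * (M : ℝ) ^ 8 * (M : ℝ) ^ (r + 3) * w ^ 4) := by
        rw [hQ]; push_cast; ring
    _ ≤ Q ^ 3 * (3 * (M : ℝ) ^ (3 * r)) *
        (8192 * Q ^ 8 * (M : ℝ) ^ 8 * (M : ℝ) ^ (r + 3) * w ^ 4) :=
        mul_le_mul_of_nonneg_right (mul_le_mul a2 a1 (by positivity) (by positivity))
          (by positivity)
    _ = (24576 * Q ^ 11) * ((M : ℝ) ^ (4 * r + 11) * w ^ 4) := by ring
    _ ≤ M * ((M : ℝ) ^ (4 * r + 11) * w ^ 4) := mul_le_mul_of_nonneg_right a3 (by positivity)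
    _ = _ := by ring

end Pool.Agent.H14.Beck
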