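import Mathlib

namespace Pool.Agent.H14.BipEcc

open SimpleGraph Finset

variable {V : Type} [DecidableEq V] {G : SimpleGraph V}

omit [DecidableEq V] in
lemma layer (hG : G.Connected) (x : V) : ∀ (D : ℕ) (y : V), G.dist x y = D →
    ∀ j ≤ D, ∃ q, G.dist x q = j := by
  intro D
  induction D with
  | zero => intro y hy j hj; exact ⟨y, by omega⟩
  | succ D ih =>
    intro y hy j hj
    by_cases h : j = D + 1
    · exact ⟨y, by omega⟩
    · obtain ⟨p, hp⟩ := hG.exists_walk_length_eq_dist y x
      rw [dist_comm, hy] at hp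
      cases p with
      | nil => simp at hp
      | @cons _ z _ hadj p =>
        have h1 : G.dist z x ≤ D := by
          have := dist_le p
          simp only [Walk.length_cons] at hp
          omega
        have h2 := hadj.diff_dist_adj (u := x)
        rw [dist_comm] at h1
        exact ih z (by omega) j (by omega)

lemma core (hG : G.Connected) (v x y : V) (I : Finset V) (hI : ∀ a ∈ I, G.Adj v a)
    (hind : ∀ a ∈ I, ∀ b ∈ I, ¬ G.Adj a b) :
    ∃ S : Finset V, (G.induce (S : Set V)).Colorable 2 ∧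
      S.card = I.card + 1 + ((range (G.dist x y + 1)).filter
        fun j => j + 2 ≤ G.dist x v ∨ G.dist x v + 2 ≤ j).card := by
  have hq : ∀ j : ℕ, ∃ q, j ≤ G.dist x y → G.dist x q = j := by
    intro j
    by_cases h : j ≤ G.dist x y
    · obtain ⟨q, hq⟩ := layer hG x _ y rfl j h
      exact ⟨q, fun _ => hq⟩
    · exact ⟨x, fun h' => absurd h' h⟩
  choose q hq using hq
  set k := G.dist x v with hk
  set J := (range (G.dist x y + 1)).filter fun j => j + 2 ≤ k ∨ k + 2 ≤ j with hJ
  have hJ1 : ∀ j ∈ J, G.dist x (q j) = j ∧ (j + 2 ≤ k ∨ k + 2 ≤ j) := by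
    intro j hj
    rw [hJ, mem_filter, mem_range] at hj
    exact ⟨hq j (by omega), hj.2⟩
  have hvI : v ∉ I := fun h => G.irrefl (hI v h)
  have hdI : ∀ a ∈ I, G.dist x a = k ∨ G.dist x a = k + 1 ∨ G.dist x a = k - 1 :=
    fun a ha => (hI a ha).diff_dist_adj
  refine ⟨insert v I ∪ J.image q, ?_, ?_⟩
  · refine ⟨Coloring.mk (fun w => if w.1 ∈ I then 1 else
      ⟨(G.dist x w.1 + k) % 2, Nat.mod_lt _ (by norm_num)⟩) ?_⟩
    rintro ⟨a, ha⟩ ⟨b, hb⟩ hab
    have hab' : G.Adj a b := hab
    have h1 := hab'.diff_dist_adj (u := x)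
    have h2 := hab'.symm.diff_dist_adj (u := x)
    have hne := hab'.ne
    have cases' : ∀ w, w ∈ ((insert v I ∪ J.image q : Finset V) : Set V) → w ∉ I →
        w = v ∨ ∃ j ∈ J, q j = w := by
      intro w hw hwI
      simp only [coe_union, coe_insert, coe_image, Set.mem_union, Set.mem_insert_iff, mem_coe,
        Set.mem_image] at hw
      tauto
    by_cases haI : a ∈ I <;> by_cases hbI : b ∈ I
    · exact absurd hab' (hind a haI b hbI)
    · simp only [haI, hbI, if_true, if_false, ne_eq, Fin.ext_iff, Fin.val_one]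
      have := hdI a haI
      rcases cases' b hb hbI with rfl | ⟨j, hj, rfl⟩
      · omega
      · have := hJ1 j hj
        omega
    · simp only [haI, hbI, if_true, if_false, ne_eq, Fin.ext_iff, Fin.val_one]
      have := hdI b hbI
      rcases cases' a ha haI with rfl | ⟨j, hj, rfl⟩
      · omega
      · have := hJ1 j hj
        omega
    · simp only [haI, hbI, if_false, ne_eq, Fin.ext_iff]
      rcases cases' a ha haI with rfl | ⟨i, hi, rfl⟩ <;>
        rcases cases' b hb hbI with rfl | ⟨j, hj, rfl⟩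
      · exact absurd rfl hne
      · have := hJ1 j hj
        omega
      · have := hJ1 i hi
        omega
      · have := hJ1 i hi
        have := hJ1 j hj
        have : i ≠ j := fun h => hne (by rw [h])
        omega
  · rw [card_union_of_disjoint, card_insert_of_notMem hvI, card_image_of_injOn]
    · intro i hi j hj h
      have := (hJ1 i hi).1
      have := (hJ1 j hj).1
      rw [h] at *
      omega
    · rw [disjoint_right]
      intro w hw hw'
      obtain ⟨j, hj, rfl⟩ := mem_image.1 hw
      have := hJ1 j hj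
      rcases mem_insert.1 hw' with h | h
      · rw [h] at this
        omega
      · have := hdI _ h
        omega

lemma card_ge (D k : ℕ) :
    D + 1 ≤ ((range (D + 1)).filter fun j => j + 2 ≤ k ∨ k + 2 ≤ j).card + 3 := by
  have h : range (D + 1) ⊆ ((range (D + 1)).filter fun j => j + 2 ≤ k ∨ k + 2 ≤ j) ∪
      {k - 1, k, k + 1} := by
    intro j hj
    simp only [mem_union, mem_filter, mem_insert, mem_singleton]
    by_cases h : j + 2 ≤ k ∨ k + 2 ≤ j
    · exact Or.inl ⟨hj, h⟩
    · right; omega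
  have := (card_le_card h).trans (card_union_le _ _)
  have h3 : ({k - 1, k, k + 1} : Finset ℕ).card ≤ 3 := card_le_three
  rw [card_range] at this
  omega

lemma card_ge0 (D : ℕ) :
    D + 1 ≤ ((range (D + 1)).filter fun j => j + 2 ≤ 0 ∨ 0 + 2 ≤ j).card + 2 := by
  have h : range (D + 1) ⊆ ((range (D + 1)).filter fun j => j + 2 ≤ 0 ∨ 0 + 2 ≤ j) ∪
      {0, 1} := by
    intro j hj
    simp only [mem_union, mem_filter, mem_insert, mem_singleton]
    by_cases h : j + 2 ≤ 0 ∨ 0 + 2 ≤ j
    · exact Or.inl ⟨hj, h⟩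
    · right; omega
  have := (card_le_card h).trans (card_union_le _ _)
  have h3 : ({0, 1} : Finset ℕ).card ≤ 2 := card_le_two
  rw [card_range] at this
  omega

lemma exists_I [Fintype V] (v : V) : ∃ I : Finset V, (∀ a ∈ I, G.Adj v a) ∧
    (∀ a ∈ I, ∀ b ∈ I, ¬ G.Adj a b) ∧ I.card = (G.induce (G.neighborSet v)).indepNum := by
  obtain ⟨s, hs⟩ := (G.induce (G.neighborSet v)).exists_isNIndepSet_indepNum
  refine ⟨s.map (Function.Embedding.subtype _), ?_, ?_, ?_⟩
  · intro a ha
    obtain ⟨b, _, rfl⟩ := mem_map.1 ha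
    exact b.2
  · intro a ha b hb hab
    obtain ⟨a', ha', rfl⟩ := mem_map.1 ha
    obtain ⟨b', hb', rfl⟩ := mem_map.1 hb
    exact hs.isIndepSet ha' hb' (fun h => hab.ne (by rw [h])) hab
  · rw [card_map, hs.card_eq]

theorem main [Fintype V] (hG : G.Connected) :
    ∃ S : Finset V, (G.induce (S : Set V)).Colorable 2 ∧
      ⌊(∑ v, ((univ.sup fun u => G.dist v u : ℕ) : ℚ)) / Fintype.card V +
        ((univ.sup fun v => (G.induce (G.neighborSet v)).indepNum : ℕ) : ℚ)⌋ ≤ (S.card : ℤ) := by
  have : Nonempty V := hG.nonempty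
  obtain ⟨v, _, hv⟩ := exists_mem_eq_sup univ univ_nonempty
    (fun v => (G.induce (G.neighborSet v)).indepNum)
  obtain ⟨I, hI, hind, hcard⟩ := exists_I (G := G) v
  set ecc : V → ℕ := fun v => univ.sup fun u => G.dist v u with hecc
  obtain ⟨x, _, hx⟩ := exists_max_image univ ecc univ_nonempty
  have hn : (0 : ℚ) < Fintype.card V := by exact_mod_cast Fintype.card_pos
  rw [hv, ← hcard]
  by_cases hvx : ecc v = ecc x
  · obtain ⟨y, _, hy⟩ := exists_mem_eq_sup univ univ_nonempty (fun u => G.dist v u)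
    obtain ⟨S, hS, hc⟩ := core hG v v y I hI hind
    refine ⟨S, hS, ?_⟩
    rw [dist_self] at hc
    have h1 := card_ge0 (G.dist v y)
    have h2 : ecc x = G.dist v y := hvx ▸ hy
    have h3 : (∑ v, (ecc v : ℚ)) / Fintype.card V ≤ ecc x := by
      rw [div_le_iff₀ hn]
      have : ∑ v, (ecc v : ℚ) ≤ ∑ _v : V, (ecc x : ℚ) :=
        sum_le_sum fun w hw => by exact_mod_cast hx w hw
      simpa [mul_comm] using this
    have h4 : ((ecc x : ℚ) + I.card) ≤ (S.card : ℤ) := by
      have : ecc x + I.card ≤ S.card := by omega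
      exact_mod_cast this
    rw [Int.floor_le_iff]
    linarith
  · obtain ⟨y, _, hy⟩ := exists_mem_eq_sup univ univ_nonempty (fun u => G.dist x u)
    obtain ⟨S, hS, hc⟩ := core hG v x y I hI hind
    refine ⟨S, hS, ?_⟩
    have h1 := card_ge (G.dist x y) (G.dist x v)
    have h2 : ecc x = G.dist x y := hy
    have h3 : (∑ v, (ecc v : ℚ)) / Fintype.card V < ecc x := by
      rw [div_lt_iff₀ hn]
      have : ∑ v, (ecc v : ℚ) < ∑ _v : V, (ecc x : ℚ) :=
        sum_lt_sum (fun w hw => by exact_mod_cast hx w hw)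
          ⟨v, mem_univ _, by exact_mod_cast lt_of_le_of_ne (hx v (mem_univ _)) hvx⟩
      simpa [mul_comm] using this
    have h4 : ((ecc x : ℚ) + I.card) ≤ (S.card : ℤ) + 1 := by
      have : ecc x + I.card ≤ S.card + 1 := by omega
      exact_mod_cast this
    rw [Int.floor_le_iff]
    linarith

end Pool.Agent.H14.BipEcc
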