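import Mathlib

namespace Pool.Agent.H14.CycUtil

open SimpleGraph

/-- A cyclic sequence of distinct vertices with consecutive ones adjacent gives a copy of the cycle. -/
lemma contained_of_seq {V : Type} (G : SimpleGraph V) (n : ℕ) (v : Fin (n + 2) → V)
    (hv : Function.Injective v) (h : ∀ i, G.Adj (v i) (v (i + 1))) :
    (cycleGraph (n + 2)).IsContained G := by
  refine ⟨⟨⟨v, ?_⟩, hv⟩⟩
  intro a b hab
  rw [cycleGraph_adj] at hab
  rcases hab with h1 | h1
  · have : a = b + 1 := by rw [← h1]; abel
    rw [this]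
    exact (h b).symm
  · have : b = a + 1 := by rw [← h1]; abel
    rw [this]
    exact h a

lemma seq_of_contained {V : Type} (G : SimpleGraph V) (n : ℕ)
    (h : (cycleGraph (n + 2)).IsContained G) :
    ∃ v : Fin (n + 2) → V, Function.Injective v ∧ ∀ i, G.Adj (v i) (v (i + 1)) := by
  obtain ⟨f⟩ := h
  refine ⟨f, f.injective, fun i => f.toHom.map_adj ?_⟩
  rw [cycleGraph_adj]
  right
  abel

end Pool.Agent.H14.CycUtil
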