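import Mathlib
import Pool.Agent.H14.CycUtil

namespace Pool.Agent.H14.BipSat

open SimpleGraph Finset

def M : Fin 6 → Fin 6 → Bool :=
  ![![true, true, false, true, false, false], ![true, true, true, true, true, false],
    ![true, false, true, false, false, false], ![true, false, false, false, true, false],
    ![false, false, false, true, false, true], ![false, true, false, false, false, false]]

def fold {a : ℕ} (i : Fin (6 + a)) : Fin 6 := if h : i.val < 6 then ⟨i.val, h⟩ else 5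

lemma fold_castAdd {a : ℕ} (i : Fin 6) : fold (Fin.castAdd a i) = i := by
  simp [fold]

lemma fold_natAdd {a : ℕ} (i : Fin a) : fold (Fin.natAdd 6 i) = 5 := by
  simp [fold]

lemma fold_inj {a : ℕ} {i j : Fin (6 + a)} (h : fold i = fold j) (h5 : fold i ≠ 5) : i = j := by
  have h5' : fold j ≠ 5 := h ▸ h5
  unfold fold at h h5 h5'
  split_ifs at h h5 h5' with h1 h2 h2
  · exact Fin.ext (by simpa using h)
  all_goals simp at h5 h5'

def adjH {a b : ℕ} : Fin (6 + a) ⊕ Fin (6 + b) → Fin (6 + a) ⊕ Fin (6 + b) → Bool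
  | Sum.inl i, Sum.inr j => M (fold i) (fold j)
  | Sum.inr j, Sum.inl i => M (fold i) (fold j)
  | _, _ => false

def H (a b : ℕ) : SimpleGraph (Fin (6 + a) ⊕ Fin (6 + b)) where
  Adj u v := adjH u v = true
  symm := ⟨by rintro (u | u) (v | v) <;> simp [adjH]⟩
  loopless := ⟨by rintro (u | u) <;> simp [adjH]⟩

lemma H_le (a b : ℕ) : H a b ≤ completeBipartiteGraph (Fin (6 + a)) (Fin (6 + b)) := by
  rintro (u | u) (v | v) <;> simp [H, adjH]

lemma H_card (a b : ℕ) : (H a b).edgeSet.ncard = (6 + a) + (6 + b) + 3 := by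
  have h1 : (H a b).edgeSet = (fun p : Fin (6 + a) × Fin (6 + b) => s(Sum.inl p.1, Sum.inr p.2)) ''
      ((univ.filter fun p : Fin (6 + a) × Fin (6 + b) => M (fold p.1) (fold p.2) = true :
        Finset _) : Set _) := by
    ext e
    induction e using Sym2.ind with
    | _ u v =>
    rcases u with u | u <;> rcases v with v | v <;> simp [H, adjH]
  rw [h1, Set.ncard_image_of_injective, Set.ncard_coe_finset, card_filter, Fintype.sum_prod_type]
  · simp only [Fin.sum_univ_add, fold_castAdd, fold_natAdd, sum_add_distrib, sum_const, card_univ,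
      Fintype.card_fin, smul_eq_mul]
    have e1 : ∑ i : Fin 6, ∑ j : Fin 6, (if M i j = true then 1 else 0) = 15 := by decide
    have e2 : ∑ j : Fin 6, (if M 5 j = true then 1 else 0) = 1 := by decide
    have e3 : ∑ i : Fin 6, (if M i 5 = true then 1 else 0) = 1 := by decide
    have e4 : M 5 5 = false := by decide
    rw [e1, e2, ← mul_sum, e3, e4]
    simp
    omega
  · rintro ⟨a, b⟩ ⟨c, d⟩ h
    simpa using h

set_option synthInstance.maxSize 2000 in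
lemma noC8 : ∀ a0 b0 : Fin 6, M a0 b0 = true → ∀ a1 : Fin 6, M a1 b0 = true → a1 ≠ a0 →
    ∀ b1 : Fin 6, M a1 b1 = true → b1 ≠ b0 → ∀ a2 : Fin 6, M a2 b1 = true → a2 ≠ a0 → a2 ≠ a1 →
    ∀ b2 : Fin 6, M a2 b2 = true → b2 ≠ b0 → b2 ≠ b1 →
    ∀ a3 : Fin 6, M a3 b2 = true → a3 ≠ a0 → a3 ≠ a1 → a3 ≠ a2 →
    ∀ b3 : Fin 6, M a3 b3 = true → b3 ≠ b0 → b3 ≠ b1 → b3 ≠ b2 → M a0 b3 = false := by
  decide +kernel

lemma leafA : ∀ j : Fin 6, M 5 j = true → j = 1 := by decide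
lemma leafB : ∀ i : Fin 6, M i 5 = true → i = 4 := by decide

lemma aux {a b : ℕ} (a0 a1 a2 a3 : Fin (6 + a)) (b0 b1 b2 b3 : Fin (6 + b))
    (h1 : M (fold a0) (fold b0) = true) (h2 : M (fold a1) (fold b0) = true)
    (h3 : M (fold a1) (fold b1) = true) (h4 : M (fold a2) (fold b1) = true)
    (h5 : M (fold a2) (fold b2) = true) (h6 : M (fold a3) (fold b2) = true)
    (h7 : M (fold a3) (fold b3) = true) (h8 : M (fold a0) (fold b3) = true)
    (n1 : a1 ≠ a0) (n2 : a2 ≠ a0) (n3 : a2 ≠ a1) (n4 : a3 ≠ a0) (n5 : a3 ≠ a1) (n6 : a3 ≠ a2)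
    (m1 : b1 ≠ b0) (m2 : b2 ≠ b0) (m3 : b2 ≠ b1) (m4 : b3 ≠ b0) (m5 : b3 ≠ b1) (m6 : b3 ≠ b2) :
    False := by
  have kA : ∀ (x : Fin (6 + a)) (y z : Fin (6 + b)), M (fold x) (fold y) = true →
      M (fold x) (fold z) = true → y ≠ z → fold x ≠ 5 := by
    intro x y z p q r s
    rw [s] at p q
    exact r (fold_inj ((leafA _ p).trans (leafA _ q).symm) (by rw [leafA _ p]; decide))
  have kB : ∀ (x : Fin (6 + b)) (y z : Fin (6 + a)), M (fold y) (fold x) = true →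
      M (fold z) (fold x) = true → y ≠ z → fold x ≠ 5 := by
    intro x y z p q r s
    rw [s] at p q
    exact r (fold_inj ((leafB _ p).trans (leafB _ q).symm) (by rw [leafB _ p]; decide))
  have p1 := kA a1 b1 b0 h3 h2 m1
  have p2 := kA a2 b2 b1 h5 h4 m3
  have p3 := kA a3 b3 b2 h7 h6 m6
  have q1 := kB b1 a2 a1 h4 h3 n3
  have q2 := kB b2 a3 a2 h6 h5 n6
  have q3 := kB b3 a3 a0 h7 h8 n4
  have := noC8 _ _ h1 _ h2 (fun h => n1 (fold_inj h p1)) _ h3 (fun h => m1 (fold_inj h q1)) _ h4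
    (fun h => n2 (fold_inj h p2)) (fun h => n3 (fold_inj h p2)) _ h5 (fun h => m2 (fold_inj h q2))
    (fun h => m3 (fold_inj h q2)) _ h6 (fun h => n4 (fold_inj h p3)) (fun h => n5 (fold_inj h p3))
    (fun h => n6 (fold_inj h p3)) _ h7 (fun h => m4 (fold_inj h q3)) (fun h => m5 (fold_inj h q3))
    (fun h => m6 (fold_inj h q3))
  rw [this] at h8
  exact absurd h8 (by decide)

lemma H_free (a b : ℕ) : ¬ (cycleGraph 8).IsContained (H a b) := by
  intro h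
  obtain ⟨v, hv, hadj⟩ := CycUtil.seq_of_contained _ 6 h
  have e0 : (H a b).Adj (v 0) (v 1) := hadj 0
  have e1 : (H a b).Adj (v 1) (v 2) := hadj 1
  have e2 : (H a b).Adj (v 2) (v 3) := hadj 2
  have e3 : (H a b).Adj (v 3) (v 4) := hadj 3
  have e4 : (H a b).Adj (v 4) (v 5) := hadj 4
  have e5 : (H a b).Adj (v 5) (v 6) := hadj 5
  have e6 : (H a b).Adj (v 6) (v 7) := hadj 6
  have e7 : (H a b).Adj (v 7) (v 0) := hadj 7
  have n : ∀ i j : Fin 8, i ≠ j → v i ≠ v j := fun i j h h' => h (hv h')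
  have n20 := n 2 0 (by decide)
  have n40 := n 4 0 (by decide)
  have n42 := n 4 2 (by decide)
  have n60 := n 6 0 (by decide)
  have n62 := n 6 2 (by decide)
  have n64 := n 6 4 (by decide)
  have n31 := n 3 1 (by decide)
  have n51 := n 5 1 (by decide)
  have n53 := n 5 3 (by decide)
  have n71 := n 7 1 (by decide)
  have n73 := n 7 3 (by decide)
  have n75 := n 7 5 (by decide)
  generalize v 0 = x0, v 1 = x1, v 2 = x2, v 3 = x3, v 4 = x4, v 5 = x5, v 6 = x6, v 7 = x7 at *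
  have stepL : ∀ (x : Fin (6 + a)) y, (H a b).Adj (Sum.inl x) y → ∃ z, y = Sum.inr z := by
    rintro x (y | y) h
    · simp [H, adjH] at h
    · exact ⟨y, rfl⟩
  have stepR : ∀ (x : Fin (6 + b)) y, (H a b).Adj (Sum.inr x) y → ∃ z, y = Sum.inl z := by
    rintro x (y | y) h
    · exact ⟨y, rfl⟩
    · simp [H, adjH] at h
  rcases x0 with x0 | x0
  · obtain ⟨x1, rfl⟩ := stepL _ _ e0
    obtain ⟨x2, rfl⟩ := stepR _ _ e1
    obtain ⟨x3, rfl⟩ := stepL _ _ e2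
    obtain ⟨x4, rfl⟩ := stepR _ _ e3
    obtain ⟨x5, rfl⟩ := stepL _ _ e4
    obtain ⟨x6, rfl⟩ := stepR _ _ e5
    obtain ⟨x7, rfl⟩ := stepL _ _ e6
    simp only [ne_eq, Sum.inl.injEq, Sum.inr.injEq] at *
    exact aux x0 x2 x4 x6 x1 x3 x5 x7 e0 e1 e2 e3 e4 e5 e6 e7 n20 n40 n42 n60 n62 n64
      n31 n51 n53 n71 n73 n75
  · obtain ⟨x1, rfl⟩ := stepR _ _ e0
    obtain ⟨x2, rfl⟩ := stepL _ _ e1
    obtain ⟨x3, rfl⟩ := stepR _ _ e2
    obtain ⟨x4, rfl⟩ := stepL _ _ e3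
    obtain ⟨x5, rfl⟩ := stepR _ _ e4
    obtain ⟨x6, rfl⟩ := stepL _ _ e5
    obtain ⟨x7, rfl⟩ := stepR _ _ e6
    simp only [ne_eq, Sum.inl.injEq, Sum.inr.injEq] at *
    exact aux x1 x3 x5 x7 x2 x4 x6 x0 e1 e2 e3 e4 e5 e6 e7 e0 n31 n51 n53 n71 n73 n75
      n42 n62 n64 (Ne.symm n20) (Ne.symm n40) (Ne.symm n60)

set_option synthInstance.maxSize 2000 in
lemma paths : ∀ a0 b3 : Fin 6, M a0 b3 = false → ∃ b0 : Fin 6, M a0 b0 = true ∧ b0 ≠ b3 ∧
    ∃ a1 : Fin 6, M a1 b0 = true ∧ a1 ≠ a0 ∧ ∃ b1 : Fin 6, M a1 b1 = true ∧ b1 ≠ b0 ∧ b1 ≠ b3 ∧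
    ∃ a2 : Fin 6, M a2 b1 = true ∧ a2 ≠ a0 ∧ a2 ≠ a1 ∧
    ∃ b2 : Fin 6, M a2 b2 = true ∧ b2 ≠ b0 ∧ b2 ≠ b1 ∧ b2 ≠ b3 ∧
    ∃ a3 : Fin 6, M a3 b2 = true ∧ a3 ≠ a0 ∧ a3 ≠ a1 ∧ a3 ≠ a2 ∧ M a3 b3 = true := by
  decide +kernel

lemma H_sat (a b : ℕ) (u : Fin (6 + a)) (v : Fin (6 + b))
    (h : ¬ (H a b).Adj (Sum.inl u) (Sum.inr v)) :
    (cycleGraph 8).IsContained (H a b ⊔ edge (Sum.inl u) (Sum.inr v)) := by
  obtain ⟨b0, h1, m1, a1, h2, n1, b1, h3, m2, m3, a2, h4, n2, n3, b2, h5, m4, m5, m6, a3, h6,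
    n4, n5, n6, h7⟩ := paths (fold u) (fold v) (by simpa [H, adjH] using h)
  have ku : ∀ x : Fin 6, x ≠ fold u → Fin.castAdd a x ≠ u := by
    rintro x hx rfl
    exact hx (fold_castAdd x).symm
  have kv : ∀ x : Fin 6, x ≠ fold v → Fin.castAdd b x ≠ v := by
    rintro x hx rfl
    exact hx (fold_castAdd x).symm
  have u1 := ku _ n1
  have u2 := ku _ n2
  have u3 := ku _ n4
  have v1 := kv _ m1
  have v2 := kv _ m3
  have v3 := kv _ m6
  refine CycUtil.contained_of_seq _ 6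
    ![Sum.inl u, Sum.inr (Fin.castAdd b b0), Sum.inl (Fin.castAdd a a1), Sum.inr (Fin.castAdd b b1),
      Sum.inl (Fin.castAdd a a2), Sum.inr (Fin.castAdd b b2), Sum.inl (Fin.castAdd a a3),
      Sum.inr v] ?_ ?_
  · intro i j hij
    fin_cases i <;> fin_cases j <;>
      simp [u1, u2, u3, v1, v2, v3, u1.symm, u2.symm, u3.symm, v1.symm, v2.symm, v3.symm, m2, m4,
        m5, n3, n5, n6, m2.symm, m4.symm, m5.symm, n3.symm, n5.symm, n6.symm] at hij ⊢
  · intro i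
    fin_cases i <;> simp [H, adjH, fold_castAdd, h1, h2, h3, h4, h5, h6, h7, edge_adj]

end Pool.Agent.H14.BipSat
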