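import Mathlib

namespace Pool.Agent.H14.Bq

open Polynomial Finset

/-- weighted bound for multiplication by `A` on polynomials in `X ^ q` -/
def WB (q : ℕ) (A : ℤ[X]) (w : ZMod q → ℕ) : Prop :=
  ∀ (F : ℤ[X]) (h : ℕ), (∀ k, (F.coeff k).natAbs ≤ h) →
    ∀ m : ℕ, ((A * expand ℤ q F).coeff m).natAbs ≤ w m * h

variable {q : ℕ} {A B : ℤ[X]} {w v : ZMod q → ℕ}

theorem WB.mono (h : WB q A w) (hw : ∀ r, w r ≤ v r) : WB q A v :=
  fun F c hF m => (h F c hF m).trans (Nat.mul_le_mul_right _ (hw _))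

theorem WB.add (h : WB q A w) (h' : WB q B v) : WB q (A + B) (fun r => w r + v r) := by
  intro F c hF m
  rw [add_mul, coeff_add, add_mul]
  exact (Int.natAbs_add_le _ _).trans (add_le_add (h F c hF m) (h' F c hF m))

theorem WB.neg (h : WB q A w) : WB q (-A) w := by
  intro F c hF m
  rw [neg_mul, coeff_neg, Int.natAbs_neg]
  exact h F c hF m

theorem WB.sub (h : WB q A w) (h' : WB q B v) : WB q (A - B) (fun r => w r + v r) := by
  rw [sub_eq_add_neg]; exact h.add h'.neg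

theorem WB.sum {ι : Type*} (s : Finset ι) (f : ι → ℤ[X]) (u : ι → ZMod q → ℕ)
    (h : ∀ i ∈ s, WB q (f i) (u i)) : WB q (∑ i ∈ s, f i) (fun r => ∑ i ∈ s, u i r) := by
  classical
  induction s using Finset.induction_on with
  | empty => intro F c _ m; simp
  | insert a s ha ih =>
    simp only [sum_insert ha]
    exact (h a (mem_insert_self _ _)).add (ih fun i hi => h i (mem_insert_of_mem hi))

theorem WB.one (hq : 0 < q) : WB q 1 (fun r => if r = 0 then 1 else 0) := by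
  intro F c hF m
  beta_reduce
  rw [one_mul, coeff_expand hq]
  by_cases h : q ∣ m
  · rw [if_pos h, if_pos ((ZMod.natCast_eq_zero_iff m q).mpr h), one_mul]; exact hF _
  · rw [if_neg h]; simp

theorem WB.shift (h : WB q A w) (e : ℕ) : WB q (X ^ e * A) (fun r => w (r - e)) := by
  intro F c hF m
  rw [mul_assoc, coeff_X_pow_mul']
  split_ifs with he
  · have := h F c hF (m - e)
    rwa [Nat.cast_sub he] at this
  · simp

theorem WB.unshift {e : ℕ} (h : WB q (X ^ e * A) w) : WB q A (fun r => w (r + e)) := by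
  intro F c hF m
  have := h F c hF (m + e)
  rwa [mul_assoc, coeff_X_pow_mul, Nat.cast_add] at this

theorem WB.mon (hq : 0 < q) (e : ℕ) : WB q (X ^ e) (fun r => if r = e then 1 else 0) := by
  have := (WB.one hq).shift e
  rw [mul_one] at this
  exact this.mono fun r => by simp [sub_eq_zero]

/-- multiplication by a sum of monomials, constant weights -/
theorem WB.mul_sum {c : ℕ} (h : WB q A (fun _ => c)) (s : Finset ℕ) (e : ℕ → ℕ) :
    WB q ((∑ i ∈ s, X ^ e i) * A) (fun _ => s.card * c) := by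
  rw [sum_mul]
  exact (WB.sum s _ _ fun i _ => h.shift (e i)).mono fun r => by simp

theorem WB.mul_sumq (h : WB q A w) (s : Finset ℕ) :
    WB q ((∑ j ∈ s, X ^ (j * q)) * A) (fun r => s.card * w r) := by
  rw [sum_mul]
  exact (WB.sum s _ _ fun i _ => h.shift (i * q)).mono fun r => by simp

theorem WB.mulL {c : ℕ} (h : WB q A (fun _ => c)) (e : ℕ) :
    WB q ((X ^ e - 1) * A) (fun _ => 2 * c) := by
  rw [sub_mul, one_mul]
  exact ((h.shift e).sub h).mono fun r => by omega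

theorem WB.idx (hq : 0 < q) (I : Finset ℕ) (e : ℕ → ℕ) (ι : ZMod q → ℕ)
    (h : ∀ i ∈ I, ι (e i) = i) :
    WB q (∑ i ∈ I, X ^ e i) (fun r => if ι r ∈ I then 1 else 0) := by
  refine (WB.sum I _ _ fun i _ => WB.mon hq (e i)).mono fun r => ?_
  rw [← sum_ite_eq I (ι r) (fun _ => 1)]
  refine sum_le_sum fun i hi => ?_
  split_ifs with h1 h2
  · exact le_rfl
  · exact absurd (by rw [h1, h i hi]) h2
  · omega
  · omega

section
variable {p : ℕ} (hp : p.Prime) (hq : q.Prime) (hpq : p < q)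
include hp hq hpq

theorem ndvd : ¬ q ∣ p := fun h => absurd (Nat.le_of_dvd hp.pos h) (by omega)

theorem ndvd' : ¬ p ∣ q := fun h => by
  have := (Nat.prime_dvd_prime_iff_eq hp hq).mp h; omega

theorem RP : cyclotomic (p * q) ℤ * cyclotomic p ℤ = ∑ j ∈ range p, X ^ (j * q) := by
  haveI := Fact.mk hp
  rw [← cyclotomic_expand_eq_cyclotomic_mul hq (ndvd hp hq hpq), cyclotomic_prime, map_sum]
  refine sum_congr rfl fun j _ => ?_
  rw [map_pow, expand_X, ← pow_mul, mul_comm]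

theorem RQ : cyclotomic (p * q) ℤ * cyclotomic q ℤ = ∑ j ∈ range q, X ^ (j * p) := by
  haveI := Fact.mk hq
  rw [mul_comm p q, ← cyclotomic_expand_eq_cyclotomic_mul hp (ndvd' hp hq hpq), cyclotomic_prime,
    map_sum]
  refine sum_congr rfl fun j _ => ?_
  rw [map_pow, expand_X, ← pow_mul, mul_comm]

omit hp hq hpq in
theorem gs (a n : ℕ) : (∑ j ∈ range n, (X : ℤ[X]) ^ (j * a)) * (X ^ a - 1) = X ^ (n * a) - 1 := by
  have := geom_sum_mul ((X : ℤ[X]) ^ a) n
  simp only [← pow_mul, mul_comm a] at this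
  exact this

omit hp hq hpq in
theorem gs' (a m n : ℕ) (h : m ≤ n) :
    (∑ j ∈ Ico m n, (X : ℤ[X]) ^ (j * a)) * (X ^ a - 1) = X ^ (n * a) - X ^ (m * a) := by
  rw [sum_Ico_eq_sub _ h, sub_mul, gs, gs]; ring

theorem Rform (μ l : ℕ) (hμ : μ ≤ q) (hl : l ≤ p) (h : μ * p + l * q = p * q + 1) :
    X ^ (p * q) * cyclotomic (p * q) ℤ =
      X ^ (p * q) * ((∑ j ∈ range l, X ^ (j * q)) * ∑ i ∈ range μ, X ^ (i * p)) -
        (∑ j ∈ Ico l p, X ^ (j * q)) * ∑ i ∈ Ico μ q, X ^ (i * p) := by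
  haveI := Fact.mk hp
  have n1 : (X : ℤ[X]) ^ p - 1 ≠ 0 := X_pow_sub_C_ne_zero hp.pos 1
  have n2 : (X : ℤ[X]) ^ q - 1 ≠ 0 := X_pow_sub_C_ne_zero hq.pos 1
  apply mul_right_cancel₀ (mul_ne_zero n1 n2)
  have e1 := gs q l
  have e2 := gs p μ
  have e3 := gs' q l p hl
  have e4 := gs' p μ q hμ
  have e5 := gs q p
  have e6 := RP hp hq hpq
  have e7 := cyclotomic_prime_mul_X_sub_one ℤ p
  have e8 : (X : ℤ[X]) ^ (μ * p) * X ^ (l * q) = X ^ (p * q) * X := by
    rw [← pow_add, h, pow_succ]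
  rw [mul_comm q p] at e4
  set c := (X : ℤ[X]) ^ (p * q)
  set a := (X : ℤ[X]) ^ (μ * p)
  set b := (X : ℤ[X]) ^ (l * q)
  set S1 := ∑ j ∈ range l, (X : ℤ[X]) ^ (j * q)
  set S2 := ∑ j ∈ range μ, (X : ℤ[X]) ^ (j * p)
  set S3 := ∑ j ∈ Ico l p, (X : ℤ[X]) ^ (j * q)
  set S4 := ∑ j ∈ Ico μ q, (X : ℤ[X]) ^ (j * p)
  set S5 := ∑ j ∈ range p, (X : ℤ[X]) ^ (j * q)
  set R := cyclotomic (p * q) ℤ
  set P := cyclotomic p ℤ
  set u := (X : ℤ[X]) ^ p - 1
  set t := (X : ℤ[X]) ^ q - 1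
  have l1 : c * R * (u * t) = c * (c - 1) * (X - 1) := by
    rw [← e7, ← e5, ← e6]; ring
  have l2 : (c * (S1 * S2) - S3 * S4) * (u * t) =
      c * ((S1 * t) * (S2 * u)) - (S3 * t) * (S4 * u) := by ring
  rw [l1, l2, e1, e2, e3, e4]
  linear_combination (1 - c) * e8

theorem RW : WB q (cyclotomic (p * q) ℤ) (fun _ => p) ∧
    WB q ((X - 1) * cyclotomic (p * q) ℤ) (fun _ => p) := by
  haveI := Fact.mk hq
  have hp0 : (p : ZMod q) ≠ 0 := fun h => ndvd hp hq hpq ((ZMod.natCast_eq_zero_iff p q).mp h)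
  set μ := ((p : ZMod q)⁻¹).val with hμ
  have hμq : μ < q := ZMod.val_lt _
  have hμc : (μ : ZMod q) = (p : ZMod q)⁻¹ := ZMod.natCast_zmod_val _
  have hμ1 : 1 ≤ μ := by
    by_contra hc
    have : μ = 0 := by omega
    rw [this, Nat.cast_zero] at hμc
    exact inv_ne_zero hp0 hμc.symm
  have hle : μ * p ≤ p * q + 1 := by nlinarith
  have hd : q ∣ p * q + 1 - μ * p := by
    rw [← ZMod.natCast_eq_zero_iff, Nat.cast_sub hle]
    push_cast
    rw [hμc, inv_mul_cancel₀ hp0, ZMod.natCast_self]; ring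
  obtain ⟨l, hl⟩ := hd
  have h : μ * p + l * q = p * q + 1 := by rw [mul_comm l q, ← hl]; omega
  have hp2 := hp.two_le
  have hlp : l ≤ p := by
    by_contra hc
    have : (p + 1) * q ≤ l * q := Nat.mul_le_mul_right _ (by omega)
    nlinarith
  let ι : ZMod q → ℕ := fun r => (r * (p : ZMod q)⁻¹).val
  have hι : ∀ i < q, ι ((i * p : ℕ) : ZMod q) = i := by
    intro i hi
    simp only [ι]
    rw [Nat.cast_mul, mul_assoc, mul_inv_cancel₀ hp0, mul_one, ZMod.val_cast_of_lt hi]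
  have hιq : ∀ r, ι r < q := fun r => ZMod.val_lt _
  have w1 := ((WB.idx hq.pos (range μ) (fun i => i * p) ι
    (fun i hi => hι i (by have := mem_range.mp hi; omega))).mul_sumq (range l)).shift (p * q)
  have w2 := (WB.idx hq.pos (Ico μ q) (fun i => i * p) ι
    (fun i hi => hι i (mem_Ico.mp hi).2)).mul_sumq (Ico l p)
  have w3 := w1.sub w2
  rw [← Rform hp hq hpq μ l hμq.le hlp h] at w3
  have w4 : WB q (cyclotomic (p * q) ℤ) (fun r => if ι r < μ then l else p - l) := by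
    refine w3.unshift.mono fun r => ?_
    have e : ((p * q : ℕ) : ZMod q) = 0 := by simp
    simp only [e, add_zero, sub_zero, card_range, Nat.card_Ico, mem_range, mem_Ico]
    have := hιq r
    split_ifs <;> omega
  refine ⟨w4.mono fun r => by split_ifs <;> omega, ?_⟩
  rw [sub_mul, one_mul, ← pow_one X]
  refine ((w4.shift 1).sub w4).mono fun r => ?_
  have key : ι (r - (1 : ℕ)) + μ = ι r ∨ ι (r - (1 : ℕ)) + μ = ι r + q := by
    have e : r * (p : ZMod q)⁻¹ = (r - (1 : ℕ)) * (p : ZMod q)⁻¹ + (p : ZMod q)⁻¹ := by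
      push_cast; ring
    have h1 : ι r = (ι (r - (1 : ℕ)) + μ) % q := by
      simp only [ι]
      rw [e, ZMod.val_add]
    have h2 := hιq (r - (1 : ℕ))
    by_cases hc : ι (r - (1 : ℕ)) + μ < q
    · left; rw [h1, Nat.mod_eq_of_lt hc]
    · right
      rw [h1, Nat.mod_eq_sub_mod (by omega), Nat.mod_eq_of_lt (by omega)]
      omega
  have h2 := hιq (r - (1 : ℕ))
  have h3 := hιq r
  split_ifs with c1 c2 c2
  · have : q + 1 ≤ 2 * μ := by omega
    by_contra hc
    have h4 : (p + 1) * q ≤ 2 * l * q := Nat.mul_le_mul_right _ (by omega)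
    have h5 : (q + 1) * p ≤ 2 * μ * p := Nat.mul_le_mul_right _ this
    nlinarith
  · omega
  · omega
  · have : 2 * μ + 1 ≤ q := by omega
    by_contra hc
    have h4 : 2 * l * q ≤ p * q := Nat.mul_le_mul_right _ (by omega)
    have h5 : (2 * μ + 1) * p ≤ q * p := Nat.mul_le_mul_right _ this
    nlinarith

end

end Pool.Agent.H14.Bq
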