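import Mathlib

/-! Finner's inequality (fractional Shearer / read-k Hölder) on the Boolean cube. -/

namespace Pool.Agent.H14.Finner

open Finset

variable {E : Type} [Fintype E] [DecidableEq E]

/-- Average over the Boolean cube. -/
noncomputable def avg (f : (E → Bool) → ℝ) : ℝ := (∑ x, f x) / Fintype.card (E → Bool)

lemma card_pos' : (0 : ℝ) < Fintype.card (E → Bool) := by
  exact_mod_cast Fintype.card_pos

lemma avg_mono {f g : (E → Bool) → ℝ} (h : ∀ x, f x ≤ g x) : avg f ≤ avg g :=
  div_le_div_of_nonneg_right (sum_le_sum fun x _ => h x) card_pos'.le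

lemma avg_nonneg {f : (E → Bool) → ℝ} (h : ∀ x, 0 ≤ f x) : 0 ≤ avg f :=
  div_nonneg (sum_nonneg fun x _ => h x) card_pos'.le

lemma avg_const (c : ℝ) : avg (fun _ : E → Bool => c) = c := by
  have := (card_pos' (E := E)).ne'
  unfold avg
  rw [sum_const, card_univ, nsmul_eq_mul]
  field_simp

def flip (e : E) (x : E → Bool) : E → Bool := Function.update x e (!x e)

omit [Fintype E] in
lemma flip_flip (e : E) (x : E → Bool) : flip e (flip e x) = x := by
  funext a
  by_cases h : a = e
  · subst h
    simp [flip]
  · simp [flip, h]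

lemma avg_flip (e : E) (f : (E → Bool) → ℝ) :
    avg (fun x => (f x + f (flip e x)) / 2) = avg f := by
  unfold avg
  congr 1
  have : ∑ x, f (flip e x) = ∑ x, f x :=
    Equiv.sum_comp (Function.Involutive.toPerm (flip e) (flip_flip e)) f
  rw [← sum_div, sum_add_distrib, this]
  ring

lemma two_point {J : Type} (s : Finset J) (w a b : J → ℝ) (hw : ∀ j ∈ s, 0 ≤ w j)
    (hw1 : ∑ j ∈ s, w j = 1) (ha : ∀ j, 0 ≤ a j) (hb : ∀ j, 0 ≤ b j) :
    (∏ j ∈ s, a j ^ w j + ∏ j ∈ s, b j ^ w j) / 2 ≤ ∏ j ∈ s, ((a j + b j) / 2) ^ w j := by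
  by_cases h0 : ∃ j ∈ s, w j ≠ 0 ∧ a j + b j = 0
  · obtain ⟨j, hj, hwj, h⟩ := h0
    have h1 : a j = 0 := by linarith [ha j, hb j]
    have h2 : b j = 0 := by linarith [ha j, hb j]
    rw [prod_eq_zero hj (by rw [h1, Real.zero_rpow hwj]),
      prod_eq_zero hj (by rw [h2, Real.zero_rpow hwj])]
    have : 0 ≤ ∏ j ∈ s, ((a j + b j) / 2) ^ w j :=
      prod_nonneg fun j _ => Real.rpow_nonneg (by linarith [ha j, hb j]) _
    linarith
  · push Not at h0
    set m : J → ℝ := fun j => (a j + b j) / 2 with hm
    have hm0 : ∀ j, 0 ≤ m j := fun j => by simp only [hm]; linarith [ha j, hb j]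
    have key : ∀ c : J → ℝ, (∀ j, 0 ≤ c j) →
        ∏ j ∈ s, c j ^ w j = (∏ j ∈ s, (c j / m j) ^ w j) * ∏ j ∈ s, m j ^ w j := by
      intro c hc
      rw [← prod_mul_distrib]
      refine prod_congr rfl fun j hj => ?_
      by_cases hwj : w j = 0
      · simp [hwj]
      · have : m j ≠ 0 := by
          have := h0 j hj hwj
          simp only [hm]
          intro h
          apply this
          linarith
        rw [← Real.mul_rpow (div_nonneg (hc j) (hm0 j)) (hm0 j), div_mul_cancel₀ _ this]
    have h1 := Real.geom_mean_le_arith_mean_weighted s w (fun j => a j / m j) hw hw1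
      (fun j _ => div_nonneg (ha j) (hm0 j))
    have h2 := Real.geom_mean_le_arith_mean_weighted s w (fun j => b j / m j) hw hw1
      (fun j _ => div_nonneg (hb j) (hm0 j))
    have h3 : ∑ j ∈ s, w j * (a j / m j) + ∑ j ∈ s, w j * (b j / m j) = 2 := by
      rw [← sum_add_distrib, ← mul_one (2 : ℝ), ← hw1, mul_sum]
      refine sum_congr rfl fun j hj => ?_
      by_cases hwj : w j = 0
      · simp [hwj]
      · have := h0 j hj hwj
        simp only [hm]
        field_simp
    have h4 : 0 ≤ ∏ j ∈ s, m j ^ w j := prod_nonneg fun j _ => Real.rpow_nonneg (hm0 j) _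
    rw [key a ha, key b hb]
    nlinarith

theorem finner_aux {J : Type} [Fintype J] (M : J → Finset E) (w : J → ℝ) (hw : ∀ j, 0 ≤ w j)
    (hw1 : ∀ e, ∑ j ∈ univ.filter (fun j => e ∈ M j), w j = 1) (S : Finset E) :
    ∀ f : J → (E → Bool) → ℝ, (∀ j x, 0 ≤ f j x) →
      (∀ j x y, (∀ e ∈ M j, e ∈ S → x e = y e) → f j x = f j y) →
      avg (fun x => ∏ j, f j x ^ w j) ≤ ∏ j, avg (f j) ^ w j := by
  induction S using Finset.induction_on with
  | empty =>
    intro f _ hf
    have h1 : ∀ j, f j = fun _ => f j (fun _ => false) := by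
      intro j
      funext x
      exact hf j _ _ (by simp)
    have h2 : ∀ j, avg (f j) = f j (fun _ => false) := by
      intro j
      rw [h1 j, avg_const]
    have h3 : (fun x => ∏ j, f j x ^ w j) = fun _ => ∏ j, f j (fun _ => false) ^ w j := by
      funext x
      refine prod_congr rfl fun j _ => ?_
      rw [h1 j]
    rw [h3, avg_const]
    simp only [h2]
    exact le_rfl
  | insert e S he ih =>
    intro f hf0 hf
    have h1 := ih (fun j x => (f j x + f j (flip e x)) / 2)
      (fun j x => by linarith [hf0 j x, hf0 j (flip e x)]) (by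
        intro j x y hxy
        by_cases hxe : x e = y e
        · have a1 : f j x = f j y := hf j _ _ (by
            intro d hd hdS
            rcases mem_insert.1 hdS with rfl | h
            · exact hxe
            · exact hxy d hd h)
          have a2 : f j (flip e x) = f j (flip e y) := hf j _ _ (by
            intro d hd hdS
            rcases mem_insert.1 hdS with rfl | h
            · simp [flip, hxe]
            · have : d ≠ e := fun h' => he (h' ▸ h)
              simp [flip, this, hxy d hd h])
          rw [a1, a2]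
        · have a1 : f j x = f j (flip e y) := hf j _ _ (by
            intro d hd hdS
            rcases mem_insert.1 hdS with rfl | h
            · simp only [flip, Function.update_self]
              revert hxe
              cases x d <;> cases y d <;> simp
            · have : d ≠ e := fun h' => he (h' ▸ h)
              simp [flip, this, hxy d hd h])
          have a2 : f j (flip e x) = f j y := hf j _ _ (by
            intro d hd hdS
            rcases mem_insert.1 hdS with rfl | h
            · simp only [flip, Function.update_self]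
              revert hxe
              cases x d <;> cases y d <;> simp
            · have : d ≠ e := fun h' => he (h' ▸ h)
              simp [flip, this, hxy d hd h])
          rw [a1, a2, add_comm])
    simp only [avg_flip] at h1
    refine le_trans ?_ h1
    rw [← avg_flip e]
    refine avg_mono fun x => ?_
    have hsame : ∀ j ∈ univ.filter (fun j => ¬ e ∈ M j), f j (flip e x) = f j x := by
      intro j hj
      refine hf j _ _ ?_
      intro d hd _
      have : d ≠ e := fun h' => (mem_filter.1 hj).2 (h' ▸ hd)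
      simp [flip, this]
    rw [← prod_filter_mul_prod_filter_not univ (fun j => e ∈ M j),
      ← prod_filter_mul_prod_filter_not univ (fun j => e ∈ M j) (fun j => f j (flip e x) ^ w j),
      ← prod_filter_mul_prod_filter_not univ (fun j => e ∈ M j)
        (fun j => ((f j x + f j (flip e x)) / 2) ^ w j)]
    have e1 : ∏ j ∈ univ.filter (fun j => ¬ e ∈ M j), f j (flip e x) ^ w j =
        ∏ j ∈ univ.filter (fun j => ¬ e ∈ M j), f j x ^ w j :=
      prod_congr rfl fun j hj => by rw [hsame j hj]
    have e2 : ∏ j ∈ univ.filter (fun j => ¬ e ∈ M j), ((f j x + f j (flip e x)) / 2) ^ w j =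
        ∏ j ∈ univ.filter (fun j => ¬ e ∈ M j), f j x ^ w j :=
      prod_congr rfl fun j hj => by rw [hsame j hj]; congr 1; ring
    rw [e1, e2]
    have h2 := two_point (univ.filter (fun j => e ∈ M j)) w (fun j => f j x)
      (fun j => f j (flip e x)) (fun j _ => hw j) (hw1 e) (fun j => hf0 j x) (fun j => hf0 j _)
    have h3 : 0 ≤ ∏ j ∈ univ.filter (fun j => ¬ e ∈ M j), f j x ^ w j :=
      prod_nonneg fun j _ => Real.rpow_nonneg (hf0 j x) _
    nlinarith

/-- Finner's inequality: `f j` depends only on the coordinates in `M j`, and the weights `w` form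
an exact fractional cover. -/
theorem finner {J : Type} [Fintype J] (M : J → Finset E) (w : J → ℝ) (hw : ∀ j, 0 ≤ w j)
    (hw1 : ∀ e, ∑ j ∈ univ.filter (fun j => e ∈ M j), w j = 1)
    (f : J → (E → Bool) → ℝ) (hf0 : ∀ j x, 0 ≤ f j x)
    (hf : ∀ j x y, (∀ e ∈ M j, x e = y e) → f j x = f j y) :
    avg (fun x => ∏ j, f j x ^ w j) ≤ ∏ j, avg (f j) ^ w j :=
  finner_aux M w hw hw1 univ f hf0 fun j x y h => hf j x y fun e he => h e he (mem_univ _)

open Classical in
/-- Uniform measure of a set. -/
noncomputable def mu (A : Set (E → Bool)) : ℝ := avg fun x => if x ∈ A then 1 else 0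

/-- The cylinder over the projection of `A` to the coordinates in `M`. -/
def cyl (M : Finset E) (A : Set (E → Bool)) : Set (E → Bool) :=
  {x | ∃ a ∈ A, ∀ e ∈ M, x e = a e}

lemma mu_nonneg (A : Set (E → Bool)) : 0 ≤ mu A :=
  avg_nonneg fun x => by split_ifs <;> norm_num

lemma mu_le_one (A : Set (E → Bool)) : mu A ≤ 1 := by
  rw [← avg_const (E := E) 1]
  exact avg_mono fun x => by split_ifs <;> norm_num

open Classical in
lemma mu_eq (A : Set (E → Bool)) :
    mu A = ((univ.filter fun x => x ∈ A).card : ℝ) / Fintype.card (E → Bool) := by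
  unfold mu avg
  rw [sum_boole]

/-- Shearer's inequality in measure form. -/
theorem shearer {J : Type} [Fintype J] (M : J → Finset E) (w : J → ℝ) (hw : ∀ j, 0 ≤ w j)
    (hw1 : ∀ e, ∑ j ∈ univ.filter (fun j => e ∈ M j), w j = 1) (A : Set (E → Bool)) :
    mu A ≤ ∏ j, mu (cyl (M j) A) ^ w j := by
  classical
  refine le_trans ?_ (finner M w hw hw1 (fun j x => if x ∈ cyl (M j) A then 1 else 0)
    (fun j x => by split_ifs <;> norm_num) ?_)
  · refine avg_mono fun x => ?_
    split_ifs with h
    · rw [prod_eq_one]
      intro j _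
      rw [if_pos ⟨x, h, fun _ _ => rfl⟩, Real.one_rpow]
    · exact prod_nonneg fun j _ => Real.rpow_nonneg (by split_ifs <;> norm_num) _
  · intro j x y hxy
    have : x ∈ cyl (M j) A ↔ y ∈ cyl (M j) A := by
      constructor
      · rintro ⟨a, ha, h⟩
        exact ⟨a, ha, fun e he => (hxy e he).symm.trans (h e he)⟩
      · rintro ⟨a, ha, h⟩
        exact ⟨a, ha, fun e he => (hxy e he).trans (h e he)⟩
    simp only [this]

lemma mu_add_le (A B : Set (E → Bool)) (h : ∀ x ∈ A, ∀ y ∈ B, ∃ e, x e = true ∧ y e = true) :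
    mu A + mu B ≤ 1 := by
  classical
  have hinv : Function.Involutive (fun (x : E → Bool) (e : E) => !x e) := by
    intro x
    funext e
    simp
  have h1 : mu B = avg fun x : E → Bool => if (fun e => !x e) ∈ B then (1 : ℝ) else 0 := by
    unfold mu avg
    congr 1
    exact (Equiv.sum_comp (Function.Involutive.toPerm _ hinv)
      (fun x => if x ∈ B then (1 : ℝ) else 0)).symm
  have h2 : mu A + mu B = avg fun x : E → Bool =>
      (if x ∈ A then (1 : ℝ) else 0) + if (fun e => !x e) ∈ B then (1 : ℝ) else 0 := by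
    rw [h1]
    unfold mu avg
    rw [sum_add_distrib, add_div]
  rw [h2]
  refine le_of_le_of_eq (avg_mono fun x => ?_) (avg_const (E := E) 1)
  split_ifs with a b
  · obtain ⟨e, h3, h4⟩ := h _ a _ b
    simp [h3] at h4
  all_goals norm_num

lemma mu_mul_le (A B : Set (E → Bool)) (h : ∀ x ∈ A, ∀ y ∈ B, ∃ e, x e = true ∧ y e = true) :
    mu A * mu B ≤ 1 / 4 := by
  have := mu_add_le A B h
  have := mu_nonneg A
  have := mu_nonneg B
  nlinarith [sq_nonneg (mu A - mu B)]

end Pool.Agent.H14.Finner
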