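import Mathlib
import Pool.Agent.H14.Finner

namespace Pool.Agent.H14.ChromInt

open Finset Pool.Agent.H14.Finner

abbrev Ed (n : ℕ) := {e : Sym2 (Fin n) // ¬ e.IsDiag}

variable {n : ℕ}

/-- Edges monochromatic under `φ`. -/
def mono {β : Type} [DecidableEq β] (φ : Fin n → β) : Finset (Ed n) :=
  univ.filter fun e => (e.1.map φ).IsDiag

lemma count_mono (k : ℕ) (e : Ed n) :
    (univ.filter fun φ : Fin n → Fin k => e ∈ mono φ).card * k = k ^ n := by
  obtain ⟨e, he⟩ := e
  induction e using Sym2.ind with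
  | _ u v =>
  have huv : u ≠ v := by simpa using he
  have h1 : (univ.filter fun φ : Fin n → Fin k => (⟨s(u, v), he⟩ : Ed n) ∈ mono φ) =
      univ.filter fun φ : Fin n → Fin k => φ u = φ v := by
    ext φ
    simp [mono]
  rw [h1]
  have h2 : ((univ.filter fun φ : Fin n → Fin k => φ u = φ v) ×ˢ (univ : Finset (Fin k))).card =
      (univ : Finset (Fin n → Fin k)).card := by
    refine card_bij' (fun p _ => Function.update p.1 u p.2)
      (fun ψ _ => (Function.update ψ u (ψ v), ψ u)) ?_ ?_ ?_ ?_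
    · intro p _
      exact mem_univ _
    · intro ψ _
      simp [huv.symm]
    · rintro ⟨φ, c⟩ hp
      simp only [mem_product, mem_filter, mem_univ, true_and, and_true] at hp
      simp [huv.symm, ← hp]
    · intro ψ _
      simp
  rw [card_product] at h2
  simpa using h2

lemma shearer_maps (k : ℕ) (hk : 0 < k) (A : Set (Ed n → Bool)) :
    mu A ≤ ∏ φ : Fin n → Fin k, mu (cyl (mono φ) A) ^ ((k : ℝ) / (k : ℝ) ^ n) := by
  have hk' : (0 : ℝ) < k := by exact_mod_cast hk
  refine shearer (fun φ : Fin n → Fin k => mono φ) (fun _ => (k : ℝ) / (k : ℝ) ^ n)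
    (fun _ => by positivity) (fun e => ?_) A
  rw [sum_const, nsmul_eq_mul]
  have : (((univ.filter fun φ : Fin n → Fin k => e ∈ mono φ).card : ℕ) : ℝ) * k = (k : ℝ) ^ n := by
    exact_mod_cast count_mono k e
  rw [← this]
  have h2 : (((univ.filter fun φ : Fin n → Fin k => e ∈ mono φ).card : ℕ) : ℝ) * k ≠ 0 := by
    rw [this]; positivity
  field_simp [left_ne_zero_of_mul h2]

lemma prod_const_rpow (k : ℕ) (hk : 0 < k) (θ : ℝ) (hθ : 0 ≤ θ) :
    ∏ _φ : Fin n → Fin k, θ ^ ((k : ℝ) / (k : ℝ) ^ n) = θ ^ k := by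
  have hk' : (0 : ℝ) < k := by exact_mod_cast hk
  have h3 : (k : ℝ) ^ n ≠ 0 := by positivity
  have h4 : (k : ℝ) / (k : ℝ) ^ n * ((k ^ n : ℕ) : ℝ) = (k : ℝ) := by
    push_cast
    rw [div_mul_cancel₀ _ h3]
  rw [prod_const, card_univ, Fintype.card_fun, Fintype.card_fin, Fintype.card_fin,
    ← Real.rpow_mul_natCast hθ, h4, Real.rpow_natCast]

lemma shearer_pair (k : ℕ) (hk : 0 < k) (A B : Set (Ed n → Bool)) :
    mu A * mu B ≤ ∏ φ : Fin n → Fin k,
      (mu (cyl (mono φ) A) * mu (cyl (mono φ) B)) ^ ((k : ℝ) / (k : ℝ) ^ n) := by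
  have h1 := shearer_maps k hk A
  have h2 := shearer_maps k hk B
  refine (mul_le_mul h1 h2 (mu_nonneg _) ((mu_nonneg _).trans h1)).trans (le_of_eq ?_)
  rw [← prod_mul_distrib]
  exact prod_congr rfl fun φ _ => (Real.mul_rpow (mu_nonneg _) (mu_nonneg _)).symm

lemma shearer_le (k : ℕ) (hk : 0 < k) (A B : Set (Ed n → Bool)) (θ : ℝ) (hθ : 0 ≤ θ)
    (h : ∀ φ : Fin n → Fin k, mu (cyl (mono φ) A) * mu (cyl (mono φ) B) ≤ θ) :
    mu A * mu B ≤ θ ^ k := by
  refine (shearer_pair k hk A B).trans ?_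
  rw [← prod_const_rpow (n := n) k hk θ hθ]
  refine prod_le_prod (fun φ _ => Real.rpow_nonneg (mul_nonneg (mu_nonneg _) (mu_nonneg _)) _)
    fun φ _ => Real.rpow_le_rpow (mul_nonneg (mu_nonneg _) (mu_nonneg _)) (h φ) (by positivity)

/-- `x ∧ y` restricted to the edge set `M` can be properly coloured with `k` colours. -/
def Col (M : Finset (Ed n)) (x y : Ed n → Bool) (k : ℕ) : Prop :=
  ∃ φ : Fin n → Fin k, ∀ e ∈ M, x e = true → y e = true → e ∉ mono φ

lemma cross (k : ℕ) (φ : Fin n → Fin k) (M : Finset (Ed n)) (A B : Set (Ed n → Bool))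
    (h : ∀ x ∈ A, ∀ y ∈ B, ¬ Col M x y k) :
    ∀ x ∈ cyl (mono φ) A, ∀ y ∈ cyl (mono φ) B, ∃ e, x e = true ∧ y e = true := by
  rintro x ⟨a, ha, hx⟩ y ⟨b, hb, hy⟩
  have := h a ha b hb
  unfold Col at this
  push Not at this
  obtain ⟨e, _, h1, h2, h3⟩ := this φ
  exact ⟨e, (hx e h3).trans h1, (hy e h3).trans h2⟩

theorem step1 (k : ℕ) (hk : 0 < k) (M : Finset (Ed n)) (A B : Set (Ed n → Bool))
    (h : ∀ x ∈ A, ∀ y ∈ B, ¬ Col M x y k) : mu A * mu B ≤ (1 / 4) ^ k :=
  shearer_le k hk A B _ (by norm_num) fun φ => mu_mul_le _ _ (cross k φ M A B h)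

lemma Col_mono {M : Finset (Ed n)} {x y : Ed n → Bool} {k l : ℕ} (hkl : k ≤ l)
    (h : Col M x y k) : Col M x y l := by
  obtain ⟨φ, hφ⟩ := h
  refine ⟨fun v => Fin.castLE hkl (φ v), fun e he h1 h2 h3 => hφ e he h1 h2 ?_⟩
  obtain ⟨e, he'⟩ := e
  induction e using Sym2.ind with
  | _ u v =>
  simp only [mono, mem_filter, mem_univ, true_and, Sym2.map_mk, Sym2.mk_isDiag_iff] at h3 ⊢
  exact Fin.castLE_injective hkl h3

lemma Col_ex (M : Finset (Ed n)) (x y : Ed n → Bool) : ∃ k, Col M x y (k + 1) := by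
  refine ⟨n, Fin.castSucc, fun e _ _ _ h3 => ?_⟩
  obtain ⟨e, he'⟩ := e
  induction e using Sym2.ind with
  | _ u v =>
  simp only [mono, mem_filter, mem_univ, true_and, Sym2.map_mk, Sym2.mk_isDiag_iff] at h3 he'
  exact he' (Fin.castSucc_injective _ h3)

open Classical in
noncomputable def kap (M : Finset (Ed n)) (x y : Ed n → Bool) : ℕ := Nat.find (Col_ex M x y)

lemma kap_spec (M : Finset (Ed n)) (x y : Ed n → Bool) : Col M x y (kap M x y + 1) := by
  classical
  exact Nat.find_spec (Col_ex M x y)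

lemma not_Col_of_le (M : Finset (Ed n)) (x y : Ed n → Bool) (k : ℕ) (hk : 0 < k)
    (h : k ≤ kap M x y) : ¬ Col M x y k := by
  classical
  obtain ⟨j, rfl⟩ : ∃ j, k = j + 1 := ⟨k - 1, by omega⟩
  exact Nat.find_min (Col_ex M x y) (show j < kap M x y by omega)

lemma kap_congr (M : Finset (Ed n)) {x y x' y' : Ed n → Bool} (hx : ∀ e ∈ M, x e = x' e)
    (hy : ∀ e ∈ M, y e = y' e) : kap M x y = kap M x' y' := by
  classical
  have : ∀ k, Col M x y k ↔ Col M x' y' k := by
    intro k
    constructor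
    · rintro ⟨φ, h⟩
      exact ⟨φ, fun e he h1 h2 => h e he ((hx e he).trans h1) ((hy e he).trans h2)⟩
    · rintro ⟨φ, h⟩
      exact ⟨φ, fun e he h1 h2 => h e he ((hx e he).symm.trans h1) ((hy e he).symm.trans h2)⟩
  unfold kap
  simp only [this]

lemma weak_sum {α : Type} [DecidableEq α] (u : α → ℝ) (hu : ∀ x, 0 ≤ u x) (A : ℝ)
    (s : Finset α) : (∀ x ∈ s, u x ^ 2 * (s.filter fun y => u x ≤ u y).card ≤ A) →
      ∑ x ∈ s, u x ≤ 2 * √(A * s.card) := by
  induction s using Finset.induction_on_min_value u with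
  | empty => intro _; simp
  | insert a s ha hmin ih =>
    intro h
    have h1 := ih (fun x hx => le_trans (mul_le_mul_of_nonneg_left
      (by exact_mod_cast card_le_card (filter_subset_filter _ (subset_insert a s)))
      (sq_nonneg _)) (h x (mem_insert_of_mem hx)))
    have h2 := h a (mem_insert_self _ _)
    have h3 : (insert a s).filter (fun y => u a ≤ u y) = insert a s := by
      refine filter_true_of_mem fun y hy => ?_
      rcases mem_insert.1 hy with rfl | hy
      · exact le_rfl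
      · exact hmin y hy
    rw [h3] at h2
    rw [sum_insert ha]
    rw [card_insert_of_notMem ha] at h2 ⊢
    push_cast at h2 ⊢
    set m : ℝ := (s.card : ℝ) with hm
    have hm0 : 0 ≤ m := by positivity
    have hA : 0 ≤ A := le_trans (by positivity) h2
    set P := √(A * m) with hP
    set Q := √(A * (m + 1)) with hQ
    have hP2 : P ^ 2 = A * m := Real.sq_sqrt (by positivity)
    have hQ2 : Q ^ 2 = A * (m + 1) := Real.sq_sqrt (by positivity)
    have hP0 : 0 ≤ P := Real.sqrt_nonneg _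
    have hQ0 : 0 ≤ Q := Real.sqrt_nonneg _
    have hPQ : P ≤ Q := Real.sqrt_le_sqrt (by nlinarith)
    have hua := hu a
    have h4 : u a * Q ≤ A := by
      refine le_of_sq_le_sq ?_ hA
      rw [mul_pow, hQ2]
      nlinarith
    have h5 : u a ≤ 2 * (Q - P) := by
      by_cases hQz : Q = 0
      · have : A = 0 := by
          rw [hQz] at hQ2
          nlinarith
        have : u a = 0 := by
          have : u a ^ 2 ≤ 0 := by nlinarith [sq_nonneg (u a)]
          exact pow_eq_zero_iff (two_ne_zero) |>.1 (le_antisymm this (sq_nonneg _))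
        linarith
      · have hQp : 0 < Q := lt_of_le_of_ne hQ0 (Ne.symm hQz)
        refine le_of_mul_le_mul_right ?_ hQp
        nlinarith [sq_nonneg (Q - P)]
    linarith

theorem step2 (M : Finset (Ed n)) (u v : (Ed n → Bool) → ℝ) (hu : ∀ x, 0 ≤ u x)
    (hv : ∀ x, 0 ≤ v x) (h : ∀ x y, u x * v y ≤ 2 ^ kap M x y) : avg u * avg v ≤ 4 := by
  classical
  set N : ℝ := ((Fintype.card (Ed n → Bool) : ℕ) : ℝ) with hN
  have hN0 : 0 < N := card_pos'
  let a : (Ed n → Bool) → ℝ := fun x => u x ^ 2 * (univ.filter fun y => u x ≤ u y).card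
  let b : (Ed n → Bool) → ℝ := fun x => v x ^ 2 * (univ.filter fun y => v x ≤ v y).card
  obtain ⟨x0, _, hx0⟩ := exists_max_image univ a univ_nonempty
  obtain ⟨y0, _, hy0⟩ := exists_max_image univ b univ_nonempty
  have h1 := weak_sum u hu (a x0) univ hx0
  have h2 := weak_sum v hv (b y0) univ hy0
  rw [card_univ, ← hN] at h1 h2
  have ha0 : 0 ≤ a x0 := by positivity
  have hb0 : 0 ≤ b y0 := by positivity
  have hab : a x0 * b y0 ≤ N ^ 2 := by
    have e1 : ((univ.filter fun y => u x0 ≤ u y).card : ℝ) = mu {y | u x0 ≤ u y} * N := by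
      rw [mu_eq, div_mul_cancel₀ _ hN0.ne']
      simp
    have e2 : ((univ.filter fun y => v y0 ≤ v y).card : ℝ) = mu {y | v y0 ≤ v y} * N := by
      rw [mu_eq, div_mul_cancel₀ _ hN0.ne']
      simp
    have e3 : a x0 * b y0 =
        ((u x0 * v y0) ^ 2 * (mu {y | u x0 ≤ u y} * mu {y | v y0 ≤ v y})) * N ^ 2 := by
      simp only [a, b]
      rw [e1, e2]
      ring
    rw [e3]
    refine mul_le_of_le_one_left (by positivity) ?_
    set s := u x0 * v y0 with hs
    have hs0 : 0 ≤ s := mul_nonneg (hu _) (hv _)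
    have hm1 := mu_nonneg {y | u x0 ≤ u y}
    have hm2 := mu_nonneg {y | v y0 ≤ v y}
    by_cases hs1 : s ≤ 1
    · exact mul_le_one₀ (pow_le_one₀ hs0 hs1) (mul_nonneg hm1 hm2)
        (mul_le_one₀ (mu_le_one _) hm2 (mu_le_one _))
    · have hex : ∃ k : ℕ, s ≤ 2 ^ k := ⟨_, h x0 y0⟩
      have hk1 := Nat.find_spec hex
      have hk0 : 0 < Nat.find hex := by
        by_contra h0
        have : Nat.find hex = 0 := by omega
        rw [this] at hk1
        exact hs1 (by simpa using hk1)
      have h3 := step1 (Nat.find hex) hk0 M {y | u x0 ≤ u y} {y | v y0 ≤ v y} (by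
        intro x hx y hy
        refine not_Col_of_le M x y _ hk0 (Nat.find_min' hex ?_)
        exact (mul_le_mul hx hy (hv _) (hu _)).trans (h x y))
      have h4 : s ^ 2 ≤ (2 ^ Nat.find hex) ^ 2 := pow_le_pow_left₀ hs0 hk1 2
      refine (mul_le_mul h4 h3 (mul_nonneg hm1 hm2) (by positivity)).trans (le_of_eq ?_)
      rw [← pow_mul, mul_comm _ 2, pow_mul, ← mul_pow]
      norm_num
  have h5 : √(a x0 * N) * √(b y0 * N) ≤ N ^ 2 := by
    rw [← Real.sqrt_mul (by positivity)]
    refine Real.sqrt_le_iff.2 ⟨by positivity, ?_⟩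
    have : a x0 * N * (b y0 * N) = (a x0 * b y0) * N ^ 2 := by ring
    rw [this]
    have : (N ^ 2) ^ 2 = N ^ 2 * N ^ 2 := by ring
    rw [this]
    exact mul_le_mul_of_nonneg_right hab (by positivity)
  have h6 : (∑ x, u x) * (∑ x, v x) ≤ 4 * N ^ 2 := by
    have := mul_le_mul h1 h2 (sum_nonneg fun x _ => hv x) (by positivity)
    nlinarith
  unfold avg
  rw [← hN, div_mul_div_comm, div_le_iff₀ (by positivity)]
  nlinarith

lemma step2' (M : Finset (Ed n)) (C : ℝ) (hC : 0 < C) (u v : (Ed n → Bool) → ℝ)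
    (hu : ∀ x, 0 ≤ u x) (hv : ∀ x, 0 ≤ v x) (h : ∀ x y, u x * v y ≤ C * 2 ^ kap M x y) :
    avg u * avg v ≤ C * 4 := by
  have h1 := step2 M (fun x => u x / C) v (fun x => div_nonneg (hu x) hC.le) hv (by
    intro x y
    rw [div_mul_eq_mul_div, div_le_iff₀ hC, mul_comm _ C]
    exact h x y)
  have h2 : avg (fun x => u x / C) = avg u / C := by
    unfold avg
    rw [← sum_div, div_right_comm]
  rw [h2, div_mul_eq_mul_div, div_le_iff₀ hC] at h1
  linarith

def merge (M : Finset (Ed n)) (x x' : Ed n → Bool) : Ed n → Bool :=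
  fun e => if e ∈ M then x e else x' e

lemma avg_merge (M : Finset (Ed n)) (u : (Ed n → Bool) → ℝ) :
    avg (fun x => avg fun x' => u (merge M x x')) = avg u := by
  have hinv : Function.Involutive (fun p : (Ed n → Bool) × (Ed n → Bool) =>
      (merge M p.1 p.2, merge M p.2 p.1)) := by
    rintro ⟨x, x'⟩
    refine Prod.ext ?_ ?_ <;> funext e <;> by_cases h : e ∈ M <;> simp [merge, h]
  have h1 : ∑ p : (Ed n → Bool) × (Ed n → Bool), u (merge M p.1 p.2) =
      ∑ p : (Ed n → Bool) × (Ed n → Bool), u p.1 :=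
    Equiv.sum_comp (Function.Involutive.toPerm _ hinv) (fun p => u p.1)
  rw [Fintype.sum_prod_type, Fintype.sum_prod_type] at h1
  simp only [sum_const, card_univ, nsmul_eq_mul] at h1
  have hN0 := card_pos' (E := Ed n)
  unfold avg
  rw [← sum_div, h1, ← mul_sum]
  field_simp

theorem step3 {ι : Type} [DecidableEq ι] (M : ι → Finset (Ed n))
    (hM : ∀ i j, i ≠ j → Disjoint (M i) (M j)) (S : Finset ι) :
    ∀ (C : ℝ) (_ : 0 < C) (u v : (Ed n → Bool) → ℝ), (∀ x, 0 ≤ u x) → (∀ x, 0 ≤ v x) →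
      (∀ x y, u x * v y ≤ C * ∏ i ∈ S, 2 ^ kap (M i) x y) → avg u * avg v ≤ C * 4 ^ S.card := by
  induction S using Finset.induction_on with
  | empty =>
    intro C hC u v hu hv h
    simp only [prod_empty, mul_one, card_empty, pow_zero] at h ⊢
    have hN0 := card_pos' (E := Ed n)
    unfold avg
    rw [div_mul_div_comm, div_le_iff₀ (by positivity), sum_mul_sum]
    refine (sum_le_sum fun x _ => sum_le_sum fun y _ => h x y).trans (le_of_eq ?_)
    simp only [sum_const, card_univ, nsmul_eq_mul]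
    ring
  | insert i S hi ih =>
    intro C hC u v hu hv h
    rw [← avg_merge (M i) u, ← avg_merge (M i) v, card_insert_of_notMem hi, pow_succ,
      ← mul_assoc]
    refine step2' (M i) _ (by positivity) _ _ (fun x => avg_nonneg fun _ => hu _)
      (fun x => avg_nonneg fun _ => hv _) fun x y => ?_
    have := ih (C * 2 ^ kap (M i) x y) (by positivity) (fun x' => u (merge (M i) x x'))
      (fun y' => v (merge (M i) y y')) (fun _ => hu _) (fun _ => hv _) (by
        intro x' y'
        refine (h _ _).trans (le_of_eq ?_)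
        rw [prod_insert hi, mul_assoc]
        congr 2
        · congr 1
          exact kap_congr _ (fun e he => by simp [merge, he]) (fun e he => by simp [merge, he])
        · refine prod_congr rfl fun j hj => ?_
          have hij : i ≠ j := fun h' => hi (h' ▸ hj)
          have hd : ∀ e ∈ M j, e ∉ M i := fun e he he' => disjoint_left.1 (hM i j hij) he' he
          congr 1
          exact kap_congr _ (fun e he => by simp [merge, hd e he])
            (fun e he => by simp [merge, hd e he]))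
    linarith

/-- Edges inside the fibre of `ψ` over `i`. -/
def inside {q : ℕ} (ψ : Fin n → Fin q) (i : Fin q) : Finset (Ed n) :=
  univ.filter fun e => e.1.map ψ = s(i, i)

lemma combine {q : ℕ} (ψ : Fin n → Fin q) (x y a b : Ed n → Bool)
    (hx : ∀ e ∈ mono ψ, x e = a e) (hy : ∀ e ∈ mono ψ, y e = b e) :
    Col univ a b (∑ i, (kap (inside ψ i) x y + 1)) := by
  choose φ hφ using fun i => kap_spec (inside ψ i) x y
  let eqv : (Σ i : Fin q, Fin (kap (inside ψ i) x y + 1)) ≃
      Fin (∑ i, (kap (inside ψ i) x y + 1)) := finSigmaFinEquiv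
  refine ⟨fun v => eqv ⟨ψ v, φ (ψ v) v⟩, fun e _ h1 h2 h3 => ?_⟩
  obtain ⟨e, he'⟩ := e
  induction e using Sym2.ind with
  | _ u v =>
  simp only [mono, mem_filter, mem_univ, true_and, Sym2.map_mk, Sym2.mk_isDiag_iff] at h3
  have h4 := eqv.injective h3
  have h5 : ψ u = ψ v := congrArg Sigma.fst h4
  have hm : (⟨s(u, v), he'⟩ : Ed n) ∈ mono ψ := by simp [mono, h5]
  have h6 := hφ (ψ v) ⟨s(u, v), he'⟩ (by simp [inside, h5]) ((hx _ hm).trans h1)
    ((hy _ hm).trans h2)
  apply h6
  simp only [mono, mem_filter, mem_univ, true_and, Sym2.map_mk, Sym2.mk_isDiag_iff]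
  have h7 : ∀ i j (_ : i = j) (p : Fin n), (⟨i, φ i p⟩ : Σ i : Fin q,
      Fin (kap (inside ψ i) x y + 1)) = ⟨j, φ j p⟩ := by
    rintro i j rfl p
    rfl
  rw [h7 _ _ h5 u] at h4
  simpa using h4

theorem step4 (t q : ℕ) (hq : 0 < q) (F : Set (Ed n → Bool))
    (hF : ∀ a ∈ F, ∀ b ∈ F, ∀ k, Col univ a b k → t ≤ k) :
    mu F * mu F ≤ ((8 : ℝ) ^ q / 2 ^ t) ^ q := by
  classical
  refine shearer_le q hq F F _ (by positivity) fun ψ => ?_
  have := step3 (inside ψ) (by
      intro i j hij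
      rw [disjoint_left]
      intro e h1 h2
      simp only [inside, mem_filter, mem_univ, true_and] at h1 h2
      rw [h1] at h2
      simp [hij] at h2) univ (2 ^ q / 2 ^ t) (by positivity)
    (fun x => if x ∈ cyl (mono ψ) F then 1 else 0) (fun x => if x ∈ cyl (mono ψ) F then 1 else 0)
    (fun x => by split_ifs <;> norm_num) (fun x => by split_ifs <;> norm_num) (by
      intro x y
      split_ifs with h1 h2
      · obtain ⟨a, ha, hx⟩ := h1
        obtain ⟨b, hb, hy⟩ := h2
        have h3 := hF a ha b hb _ (combine ψ x y a b hx hy)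
        rw [sum_add_distrib] at h3
        simp only [sum_const, card_univ, Fintype.card_fin, smul_eq_mul, mul_one] at h3
        rw [prod_pow_eq_pow_sum, div_mul_eq_mul_div, ← pow_add, le_div_iff₀ (by positivity)]
        simp only [mul_one, one_mul]
        exact pow_le_pow_right₀ (by norm_num) (by omega)
      all_goals
        simp only [mul_zero, zero_mul]
        positivity)
  refine le_of_le_of_eq this ?_
  rw [card_univ, Fintype.card_fin, div_mul_eq_mul_div, ← mul_pow]
  norm_num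

open Classical in
/-- The indicator vector of the edge set of a graph. -/
noncomputable def vec (G : SimpleGraph (Fin n)) : Ed n → Bool := fun e => decide (e.1 ∈ G.edgeSet)

lemma vec_inj : Function.Injective (vec (n := n)) := by
  intro G H h
  ext u v
  by_cases huv : u = v
  · subst huv
    simp
  · have := congrFun h ⟨s(u, v), by simpa using huv⟩
    simpa [vec] using this

lemma card_Ed : Fintype.card (Ed n) = n.choose 2 := by
  rw [Sym2.card_subtype_not_diag, Fintype.card_fin]

lemma mu_image (F : Finset (SimpleGraph (Fin n))) :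
    mu (vec '' (F : Set (SimpleGraph (Fin n)))) = (F.card : ℝ) / 2 ^ n.choose 2 := by
  classical
  rw [mu_eq, Fintype.card_fun, card_Ed, Fintype.card_bool]
  push_cast
  congr 2
  rw [← card_image_of_injective F vec_inj]
  congr 1
  ext x
  simp

lemma colorable_of_Col (G H : SimpleGraph (Fin n)) (k : ℕ) (h : Col univ (vec G) (vec H) k) :
    (G ⊓ H).Colorable k := by
  obtain ⟨φ, hφ⟩ := h
  refine ⟨SimpleGraph.Coloring.mk φ ?_⟩
  intro u v huv h'
  have hne : u ≠ v := huv.ne
  refine hφ ⟨s(u, v), by simpa using hne⟩ (mem_univ _) ?_ ?_ ?_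
  · simpa [vec] using huv.1
  · simpa [vec] using huv.2
  · simp [mono, h']

theorem main (t : ℕ) (ht : 3 ≤ t) (F : Finset (SimpleGraph (Fin n)))
    (hF : ∀ G ∈ F, ∀ H ∈ F, (t : ℕ∞) ≤ (G ⊓ H).chromaticNumber) :
    (F.card : ℝ) ≤ (2 : ℝ) ^ ((n.choose 2 : ℝ) - 1 / 48 * (t : ℝ) ^ 2) := by
  have hF' : ∀ a ∈ vec '' (F : Set (SimpleGraph (Fin n))),
      ∀ b ∈ vec '' (F : Set (SimpleGraph (Fin n))), ∀ k, Col univ a b k → t ≤ k := by
    rintro _ ⟨G, hG, rfl⟩ _ ⟨H, hH, rfl⟩ k hk
    have := (hF G hG H hH).trans (colorable_of_Col G H k hk).chromaticNumber_le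
    exact_mod_cast this
  set m := mu (vec '' (F : Set (SimpleGraph (Fin n)))) with hm
  have hm0 : 0 ≤ m := mu_nonneg _
  have key : m * m ≤ (2 : ℝ) ^ (-(1 / 24 * (t : ℝ) ^ 2)) := by
    by_cases h6 : t < 6
    · have h1 := step1 (t - 1) (by omega) univ _ _ (fun a ha b hb hc => by
        have := hF' a ha b hb _ hc
        omega)
      refine h1.trans ?_
      have e : ((1 : ℝ) / 4) ^ (t - 1) = (2 : ℝ) ^ (-(2 * ((t - 1 : ℕ) : ℝ))) := by
        rw [Real.rpow_neg (by norm_num), Real.rpow_mul (by norm_num), Real.rpow_natCast,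
          ← inv_pow]
        norm_num
      rw [e]
      refine Real.rpow_le_rpow_of_exponent_le (by norm_num) ?_
      interval_cases t <;> norm_num
    · have h1 := step4 t (t / 6) (by omega) _ hF'
      refine h1.trans ?_
      have e : ((8 : ℝ) ^ (t / 6) / 2 ^ t) ^ (t / 6) =
          (2 : ℝ) ^ ((3 * ((t / 6 : ℕ) : ℝ) - t) * ((t / 6 : ℕ) : ℝ)) := by
        rw [Real.rpow_mul (by norm_num), Real.rpow_natCast, Real.rpow_sub (by norm_num),
          Real.rpow_natCast, Real.rpow_mul (by norm_num), Real.rpow_natCast]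
        norm_num
      rw [e]
      refine Real.rpow_le_rpow_of_exponent_le (by norm_num) ?_
      have a1 : (6 : ℝ) * ((t / 6 : ℕ) : ℝ) ≤ t := by
        exact_mod_cast Nat.mul_div_le t 6
      have a2 : (t : ℝ) ≤ 12 * ((t / 6 : ℕ) : ℝ) := by
        have : t ≤ 12 * (t / 6) := by omega
        exact_mod_cast this
      have a3 : (0 : ℝ) ≤ t := by positivity
      nlinarith
  have key2 : m ≤ (2 : ℝ) ^ (-(1 / 48 * (t : ℝ) ^ 2)) := by
    refine le_of_sq_le_sq ?_ (by positivity)
    rw [sq, sq, ← Real.rpow_add (by norm_num)]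
    refine key.trans (le_of_eq ?_)
    congr 1
    ring
  rw [hm, mu_image, div_le_iff₀ (by positivity)] at key2
  refine key2.trans (le_of_eq ?_)
  rw [sub_eq_add_neg, Real.rpow_add (by norm_num), Real.rpow_natCast, mul_comm]

end Pool.Agent.H14.ChromInt
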