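import Mathlib
import Pool.Agent.H14.ChromInt

namespace Pool.Agent.H14.ChromStrict

open Finset Pool.Agent.H14.Finner Pool.Agent.H14.ChromInt

lemma mu_lt_half {E : Type} [Fintype E] [DecidableEq E] (A : Set (E → Bool))
    (h : ∀ x ∈ A, ∀ y ∈ A, ∃ e f, e ≠ f ∧ x e = true ∧ y e = true ∧ x f = true ∧ y f = true) :
    mu A < 1 / 2 := by
  classical
  by_cases hA : (univ.filter fun x => x ∈ A).Nonempty
  · obtain ⟨x, hx, hmin⟩ := exists_min_image _
      (fun x : E → Bool => (univ.filter fun e => x e = true).card) hA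
    have hxA : x ∈ A := (mem_filter.1 hx).2
    obtain ⟨e, _, _, hxe, _⟩ := h x hxA x hxA
    let x' : E → Bool := Function.update x e false
    have hx' : x' ∉ A := by
      intro h'
      have h1 := hmin x' (mem_filter.2 ⟨mem_univ _, h'⟩)
      have h2 : (univ.filter fun d => x' d = true) ⊂ univ.filter fun d => x d = true := by
        constructor
        · intro d hd
          by_cases hde : d = e
          · subst hde
            simp [hxe]
          · simpa [x', hde] using hd
        · intro h3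
          have := h3 (mem_filter.2 ⟨mem_univ e, hxe⟩)
          simp [x'] at this
      have := card_lt_card h2
      omega
    have h1 := mu_add_le (insert x' A) A (by
      intro a ha b hb
      rcases ha with rfl | ha
      · obtain ⟨d, f, hdf, h1, h2, h3, h4⟩ := h x hxA b hb
        by_cases hde : d = e
        · subst hde
          exact ⟨f, by simpa [x', hdf.symm] using h3, h4⟩
        · exact ⟨d, by simpa [x', hde] using h1, h2⟩
      · obtain ⟨d, f, _, h1, h2, _⟩ := h a ha b hb
        exact ⟨d, h1, h2⟩)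
    have h2 : mu A < mu (insert x' A) := by
      rw [mu_eq, mu_eq]
      refine div_lt_div_of_pos_right ?_ card_pos'
      have : (univ.filter fun x => x ∈ A) ⊂ univ.filter fun x => x ∈ insert x' A := by
        constructor
        · intro d hd
          exact mem_filter.2 ⟨mem_univ _, Set.mem_insert_of_mem _ (mem_filter.1 hd).2⟩
        · intro h3
          exact hx' (mem_filter.1 (h3 (mem_filter.2 ⟨mem_univ _, Set.mem_insert _ _⟩))).2
      have := card_lt_card this
      refine Nat.cast_lt.2 ?_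
      convert this
    linarith
  · rw [mu_eq, not_nonempty_iff_eq_empty.1 hA]
    simp

variable {n : ℕ}

lemma cyl_const (k : ℕ) (c : Fin k) (A : Set (Ed n → Bool)) :
    cyl (mono fun _ : Fin n => c) A = A := by
  ext x
  constructor
  · rintro ⟨a, ha, h⟩
    have : x = a := by
      funext e
      apply h
      obtain ⟨e, he⟩ := e
      induction e using Sym2.ind with
      | _ u v => simp [mono]
    rw [this]
    exact ha
  · intro hx
    exact ⟨x, hx, fun _ _ => rfl⟩

theorem strict (k : ℕ) (hk : 0 < k) (A : Set (Ed n → Bool))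
    (h1 : ∀ x ∈ A, ∀ y ∈ A, ¬ Col univ x y k)
    (h2 : ∀ x ∈ A, ∀ y ∈ A, ∃ e f, e ≠ f ∧ x e = true ∧ y e = true ∧ x f = true ∧ y f = true) :
    mu A < (1 / 2) ^ k := by
  have hk' : (0 : ℝ) < k := by exact_mod_cast hk
  have h3 := shearer_maps k hk A
  refine h3.trans_lt ?_
  rw [← prod_const_rpow (n := n) k hk (1 / 2) (by norm_num)]
  have hle : ∀ φ : Fin n → Fin k, mu (cyl (mono φ) A) ≤ 1 / 2 := by
    intro φ
    have := mu_add_le _ _ (cross k φ univ A A h1)
    linarith
  let φ0 : Fin n → Fin k := fun _ => ⟨0, hk⟩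
  have hw : 0 < (k : ℝ) / (k : ℝ) ^ n := by positivity
  rw [← mul_prod_erase univ _ (mem_univ φ0), ← mul_prod_erase univ _ (mem_univ φ0)]
  refine mul_lt_mul' ?_ ?_ ?_ ?_ |>.trans_eq' (mul_comm _ _) |>.trans_eq (mul_comm _ _)
  · exact prod_le_prod (fun φ _ => Real.rpow_nonneg (mu_nonneg _) _)
      fun φ _ => Real.rpow_le_rpow (mu_nonneg _) (hle φ) hw.le
  · refine Real.rpow_lt_rpow (mu_nonneg _) ?_ hw
    rw [cyl_const]
    exact mu_lt_half A h2
  · exact Real.rpow_nonneg (mu_nonneg _) _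
  · exact prod_pos fun φ _ => by positivity

theorem main {h : ℕ} (H : SimpleGraph (Fin h)) (hH : 2 ≤ H.edgeSet.ncard)
    (F : Finset (SimpleGraph (Fin n)))
    (hF : ∀ G₁ ∈ F, ∀ G₂ ∈ F, H.IsContained (G₁ ⊓ G₂)) :
    (F.card : ℝ) < (2 : ℝ) ^ ((n.choose 2 : ℝ) - ((H.chromaticNumber.toNat : ℝ) - 1)) := by
  obtain ⟨e, he, f, hf, hef⟩ := (Set.one_lt_ncard (Set.toFinite _)).1 (show 1 < _ from hH)
  have hfin : H.chromaticNumber ≠ ⊤ := by
    have := H.colorable_of_fintype.chromaticNumber_le
    exact ne_top_of_le_ne_top (by simp) this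
  obtain ⟨c, hc⟩ := ENat.ne_top_iff_exists.1 hfin
  have hc2 : 2 ≤ c := by
    induction e using Sym2.ind with
    | _ u v =>
    have := SimpleGraph.two_le_chromaticNumber_of_adj ((SimpleGraph.mem_edgeSet H).1 he)
    rw [← hc] at this
    exact_mod_cast this
  have := strict (c - 1) (by omega) (vec '' (F : Set (SimpleGraph (Fin n)))) (by
    rintro _ ⟨G, hG, rfl⟩ _ ⟨G', hG', rfl⟩ hcol
    obtain ⟨φ⟩ := hF G hG G' hG'
    have h1 := (colorable_of_Col G G' _ hcol).of_hom φ.toHom
    have h2 := h1.chromaticNumber_le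
    rw [← hc] at h2
    have : c ≤ c - 1 := by exact_mod_cast h2
    omega) (by
    rintro _ ⟨G, hG, rfl⟩ _ ⟨G', hG', rfl⟩
    obtain ⟨φ⟩ := hF G hG G' hG'
    have a1 : e.map φ ∈ (G ⊓ G').edgeSet := φ.toHom.map_mem_edgeSet he
    have a2 : f.map φ ∈ (G ⊓ G').edgeSet := φ.toHom.map_mem_edgeSet hf
    refine ⟨⟨e.map φ, (G ⊓ G').not_isDiag_of_mem_edgeSet a1⟩,
      ⟨f.map φ, (G ⊓ G').not_isDiag_of_mem_edgeSet a2⟩, ?_, ?_⟩
    · intro h'
      exact hef (Sym2.map.injective φ.injective (congrArg Subtype.val h'))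
    · rw [SimpleGraph.edgeSet_inf] at a1 a2
      simp only [vec, decide_eq_true_eq]
      exact ⟨a1.1, a1.2, a2.1, a2.2⟩)
  rw [mu_image, div_lt_iff₀ (by positivity)] at this
  refine this.trans_eq ?_
  have e1 : ((c : ℝ) - 1) = ((c - 1 : ℕ) : ℝ) := by
    rw [Nat.cast_sub (by omega)]
    simp
  rw [← hc, ENat.toNat_natCast, e1, Real.rpow_sub (by norm_num), Real.rpow_natCast, Real.rpow_natCast,
    one_div, inv_pow]
  ring

end Pool.Agent.H14.ChromStrict
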