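import Mathlib

namespace Pool.Agent.H14.Ck1

def sc (q : ℕ) (b : Bool) (c : ℕ) : ℕ := if b then c + 1 else if q + 3 ≤ 2 * c then c - 2 else c
def sT (q : ℕ) (b : Bool) (c T : ℕ) : ℕ :=
  if b then T else if q + 3 ≤ 2 * c then (if 2 * c ≤ q + 5 then 0 else T)
  else if 2 * c = q + 2 then 1 else T
def sD (q : ℕ) (b : Bool) (c D : ℕ) : ℕ :=
  if b then (if D = 0 ∧ 2 * q ≤ c + 1 then (if q % 2 = 1 then 1 else 2) else D) else D

def St (x : ℕ → Bool) : ℕ → ℕ → ℕ × ℕ × ℕ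
  | 0, _ => (0, 0, 0)
  | n + 1, q => (sc (q + 1) (x (q + 1)) (St x n (q + 1)).1,
      sT (q + 1) (x (q + 1)) (St x n (q + 1)).1 (St x n (q + 1)).2.1,
      sD (q + 1) (x (q + 1)) (St x n (q + 1)).1 (St x n (q + 1)).2.2)

def val (c T D : ℕ) : ℕ :=
  if c % 3 = 1 then 1 else if c % 3 = 0 ∧ T = 0 then 0 else if D = 1 then 2 else 3

def IT (q c T : ℕ) : Prop := T = 0 ∨ (T = 1 ∧ q + 3 ≤ 2 * c ∧ (c + q) % 3 = 0)
def ID (q c D : ℕ) : Prop := D ≤ 2 ∧ ((D = 0 ∧ c < 2 * q + 2) ∨ (1 ≤ D ∧ 2 * q + 2 ≤ c))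

def C0 (c T c2 T2 : ℕ) : Prop := (c = c2 ∧ T = 0) ∨ (c = c2 + 2 ∧ T = 1 ∧ T2 = 0)
def E0 (q c T D D2 : ℕ) : Prop := ((c + q) % 3 = 2 ∨ T = 1) → (D + D2) % 3 = 0
def C1 (q c T c2 T2 : ℕ) : Prop :=
  (c + 1 = c2 ∧ T = 0 ∧ T2 = 1) ∨ c = c2 + 1 ∨ (c = c2 + 3 ∧ q + 5 ≤ 2 * c) ∨
  (c = c2 + 5 ∧ T = 1 ∧ T2 = 0 ∧ q + 9 ≤ 2 * c)
def E1 (q c T D c2 D2 : ℕ) : Prop :=
  ((c = c2 + 1 ∧ (c + q) % 3 ≠ 1) ∨ (c = c2 + 3 ∧ T = 1)) → (D + D2) % 3 = 0

lemma IT_step {q c T : ℕ} (b : Bool) (h : IT (q + 1) c T) :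
    IT q (sc (q + 1) b c) (sT (q + 1) b c T) := by
  unfold IT at *
  cases b <;> simp only [sc, sT, if_true, Bool.false_eq_true, if_false] <;>
    (try split_ifs) <;> omega

lemma ID_step {q c D : ℕ} (b : Bool) (h : ID (q + 1) c D) :
    ID q (sc (q + 1) b c) (sD (q + 1) b c D) := by
  unfold ID at *
  cases b <;> simp only [sc, sD, if_true, Bool.false_eq_true, if_false] <;>
    (try split_ifs) <;> omega

lemma C0_step {q c T c2 T2 : ℕ} (b : Bool) (h1 : IT (q + 2) c T) (h2 : IT (q + 1) c2 T2)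
    (h : C0 c T c2 T2) :
    C0 (sc (q + 2) b c) (sT (q + 2) b c T) (sc (q + 1) b c2) (sT (q + 1) b c2 T2) := by
  unfold IT C0 at *
  rcases h with h | h <;>
  cases b <;> simp only [sc, sT, if_true, Bool.false_eq_true, if_false] <;>
    (try split_ifs) <;> omega

lemma C1_new {q c T c2 T2 : ℕ} (h1 : IT (q + 2) c T) (h2 : IT (q + 1) c2 T2)
    (h : C0 c T c2 T2) :
    C1 (q + 1) (sc (q + 2) true c) (sT (q + 2) true c T) (sc (q + 1) false c2)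
      (sT (q + 1) false c2 T2) := by
  unfold IT C0 C1 at *
  rcases h with h | h <;>
  simp only [sc, sT, if_true, Bool.false_eq_true, if_false] <;>
    (try split_ifs) <;> omega

lemma C1_step {q c T c2 T2 : ℕ} (b : Bool) (h1 : IT (q + 2) c T) (h2 : IT (q + 1) c2 T2)
    (h : C1 (q + 2) c T c2 T2) :
    C1 (q + 1) (sc (q + 2) b c) (sT (q + 2) b c T) (sc (q + 1) b c2) (sT (q + 1) b c2 T2) := by
  unfold IT C1 at *
  rcases h with h | h | h | h <;>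
  cases b <;> simp only [sc, sT, if_true, Bool.false_eq_true, if_false] <;>
    (try split_ifs) <;> omega

lemma E0_step {q c T D c2 T2 D2 : ℕ} (b : Bool) (h1 : IT (q + 2) c T) (h2 : IT (q + 1) c2 T2)
    (h3 : ID (q + 2) c D) (h4 : ID (q + 1) c2 D2) (h : C0 c T c2 T2) (e : E0 (q + 2) c T D D2) :
    E0 (q + 1) (sc (q + 2) b c) (sT (q + 2) b c T) (sD (q + 2) b c D) (sD (q + 1) b c2 D2) := by
  unfold IT ID C0 E0 at *
  rcases h with h | h <;>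
  cases b <;> simp only [sc, sT, sD, if_true, Bool.false_eq_true, if_false] <;>
    (try split_ifs) <;> omega

lemma E1_new {q c T D c2 T2 D2 : ℕ} (h1 : IT (q + 2) c T) (h2 : IT (q + 1) c2 T2)
    (h3 : ID (q + 2) c D) (h4 : ID (q + 1) c2 D2) (h : C0 c T c2 T2) (e : E0 (q + 2) c T D D2) :
    E1 (q + 1) (sc (q + 2) true c) (sT (q + 2) true c T) (sD (q + 2) true c D)
      (sc (q + 1) false c2) (sD (q + 1) false c2 D2) := by
  unfold IT ID C0 E0 E1 at *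
  rcases h with h | h <;>
  simp only [sc, sT, sD, if_true, Bool.false_eq_true, if_false] <;>
    (try split_ifs) <;> omega

lemma E1_step {q c T D c2 T2 D2 : ℕ} (b : Bool) (h1 : IT (q + 2) c T) (h2 : IT (q + 1) c2 T2)
    (h3 : ID (q + 2) c D) (h4 : ID (q + 1) c2 D2) (h : C1 (q + 2) c T c2 T2)
    (e : E1 (q + 2) c T D c2 D2) :
    E1 (q + 1) (sc (q + 2) b c) (sT (q + 2) b c T) (sD (q + 2) b c D)
      (sc (q + 1) b c2) (sD (q + 1) b c2 D2) := by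
  unfold IT ID C1 E1 at *
  rcases h with h | h | h | h <;>
  cases b <;> simp only [sc, sT, sD, if_true, Bool.false_eq_true, if_false] <;>
    (try split_ifs) <;> omega

lemma ne0 {c T D c2 T2 D2 : ℕ} (h1 : IT 1 c T) (h2 : IT 0 c2 T2)
    (h3 : ID 1 c D) (h4 : ID 0 c2 D2) (h : C0 c T c2 T2) (e : E0 1 c T D D2) :
    val c2 T2 D2 ≠ val (sc 1 true c) (sT 1 true c T) (sD 1 true c D) := by
  unfold IT ID C0 E0 at *
  rcases h with h | h <;>
  simp only [val, sc, sT, sD, if_true, Bool.false_eq_true, if_false] <;>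
  split_ifs <;> omega

lemma ne1 {c T D c2 T2 D2 : ℕ} (b : Bool) (h1 : IT 1 c T) (h2 : IT 0 c2 T2)
    (h3 : ID 1 c D) (h4 : ID 0 c2 D2) (h : C1 1 c T c2 T2) (e : E1 1 c T D c2 D2) :
    val c2 T2 D2 ≠ val (sc 1 b c) (sT 1 b c T) (sD 1 b c D) := by
  unfold IT ID C1 E1 at *
  rcases h with h | h | h | h <;>
  cases b <;> simp only [val, sc, sT, sD, if_true, Bool.false_eq_true, if_false] <;>
    split_ifs <;> omega

end Pool.Agent.H14.Ck1
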