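import Mathlib
import Pool.Agent.H14.Ck1

namespace Pool.Agent.H14.Ck1

def sh (x : ℕ → Bool) (h : ℕ) : ℕ → Bool := fun i => x (i + 1) && decide (i + 1 ≠ h)

lemma St_I (x : ℕ → Bool) : ∀ n q, IT q (St x n q).1 (St x n q).2.1 ∧
    ID q (St x n q).1 (St x n q).2.2
  | 0, q => by simp [St, IT, ID]
  | n + 1, q => ⟨IT_step _ (St_I x n (q + 1)).1, ID_step _ (St_I x n (q + 1)).2⟩

lemma sh_ne {x : ℕ → Bool} {h i : ℕ} (hi : i + 1 ≠ h) : sh x h i = x (i + 1) := by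
  simp [sh, hi]

lemma sh_eq {x : ℕ → Bool} (i : ℕ) : sh x (i + 1) i = false := by
  simp [sh]

lemma St_R0 (x : ℕ → Bool) (h : ℕ) : ∀ n q, h ≤ q + 1 →
    C0 (St x n (q + 1)).1 (St x n (q + 1)).2.1 (St (sh x h) n q).1 (St (sh x h) n q).2.1 ∧
    E0 (q + 1) (St x n (q + 1)).1 (St x n (q + 1)).2.1 (St x n (q + 1)).2.2
      (St (sh x h) n q).2.2
  | 0, q, _ => by simp [St, C0, E0]
  | n + 1, q, hh => by
    have ih := St_R0 x h n (q + 1) (by omega)
    have e : sh x h (q + 1) = x (q + 2) := sh_ne (by omega)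
    simp only [St, e]
    exact ⟨C0_step _ (St_I x n _).1 (St_I _ n _).1 ih.1,
      E0_step _ (St_I x n _).1 (St_I _ n _).1 (St_I x n _).2 (St_I _ n _).2 ih.1 ih.2⟩

lemma St_R1 (x : ℕ → Bool) (h : ℕ) (hx : x h = true) : ∀ n q, q + 2 ≤ h → h ≤ q + n + 1 →
    C1 (q + 1) (St x n (q + 1)).1 (St x n (q + 1)).2.1 (St (sh x h) n q).1
      (St (sh x h) n q).2.1 ∧
    E1 (q + 1) (St x n (q + 1)).1 (St x n (q + 1)).2.1 (St x n (q + 1)).2.2
      (St (sh x h) n q).1 (St (sh x h) n q).2.2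
  | 0, q, _, _ => by omega
  | n + 1, q, h1, h2 => by
    by_cases hq : h = q + 2
    · subst hq
      have ih := St_R0 x (q + 2) n (q + 1) (by omega)
      have e : sh x (q + 2) (q + 1) = false := sh_eq (q + 1)
      have e2 : x (q + 1 + 1) = true := hx
      simp only [St, e, e2]
      exact ⟨C1_new (St_I x n _).1 (St_I _ n _).1 ih.1,
        E1_new (St_I x n _).1 (St_I _ n _).1 (St_I x n _).2 (St_I _ n _).2 ih.1 ih.2⟩
    · have ih := St_R1 x h hx n (q + 1) (by omega) (by omega)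
      have e : sh x h (q + 1) = x (q + 2) := sh_ne (by omega)
      simp only [St, e]
      exact ⟨C1_step _ (St_I x n _).1 (St_I _ n _).1 ih.1,
        E1_step _ (St_I x n _).1 (St_I _ n _).1 (St_I x n _).2 (St_I _ n _).2 ih.1 ih.2⟩

/-- some removal above level q+1 gives count k and flag T -/
def Ex (x : ℕ → Bool) (n q k T : ℕ) : Prop :=
  ∃ h, q + 2 ≤ h ∧ h ≤ q + n + 1 ∧ x h = true ∧ (St (sh x h) n q).1 = k ∧
    (St (sh x h) n q).2.1 = T

lemma Ex_old {x : ℕ → Bool} {n q k T : ℕ} (h : Ex x n (q + 1) k T) :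
    Ex x (n + 1) q (sc (q + 1) (x (q + 2)) k) (sT (q + 1) (x (q + 2)) k T) := by
  obtain ⟨h, h1, h2, h3, rfl, rfl⟩ := h
  have e : sh x h (q + 1) = x (q + 2) := sh_ne (by omega)
  exact ⟨h, by omega, by omega, h3, by simp only [St, e], by simp only [St, e]⟩

lemma Ex_new {x : ℕ → Bool} (n q : ℕ) (hx : x (q + 2) = true) :
    ∃ k T, C0 (St x n (q + 2)).1 (St x n (q + 2)).2.1 k T ∧ IT (q + 1) k T ∧
      Ex x (n + 1) q (sc (q + 1) false k) (sT (q + 1) false k T) := by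
  have e : sh x (q + 2) (q + 1) = false := sh_eq (q + 1)
  exact ⟨_, _, (St_R0 x (q + 2) n (q + 1) le_rfl).1, (St_I _ n _).1,
    q + 2, le_rfl, by omega, hx, by simp only [St, e], by simp only [St, e]⟩

lemma Ex_congr {x : ℕ → Bool} {n q k T k' T' : ℕ} (h : Ex x n q k T) (h1 : k = k')
    (h2 : T = T') : Ex x n q k' T' := h1 ▸ h2 ▸ h

def Inv (x : ℕ → Bool) (n q c T : ℕ) : Prop :=
  (1 ≤ c → 2 * c ≠ q + 1 → Ex x n q (c - 1) 0) ∧
  (1 ≤ c → 2 * c = q + 1 → Ex x n q (c - 1) 0 ∨ Ex x n q (c + 1) 1) ∧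
  (q + 5 ≤ 2 * c → (c + q + 1) % 3 = 2 → Ex x n q (c - 1) 1) ∧
  (q + 6 ≤ 2 * c → Ex x n q (c - 3) 0) ∧
  (T = 1 → q + 10 ≤ 2 * c → Ex x n q (c - 5) 0)

lemma St_Inv (x : ℕ → Bool) : ∀ n q, Inv x n q (St x n (q + 1)).1 (St x n (q + 1)).2.1
  | 0, q => by simp [St, Inv]
  | n + 1, q => by
    obtain ⟨i1, i2, i3, i4, i5⟩ := St_Inv x n (q + 1)
    have hI := (St_I x n (q + 1 + 1)).1
    have new : x (q + 2) = true → ∃ k T, C0 (St x n (q + 1 + 1)).1 (St x n (q + 1 + 1)).2.1 k T ∧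
        IT (q + 1) k T ∧ Ex x (n + 1) q (sc (q + 1) false k) (sT (q + 1) false k T) :=
      Ex_new (x := x) n q
    simp only [St]
    generalize (St x n (q + 1 + 1)).1 = c at *
    generalize hT : (St x n (q + 1 + 1)).2.1 = T at *
    unfold IT at hI
    cases hb : x (q + 1 + 1)
    · have old : ∀ {k T}, Ex x n (q + 1) k T →
          Ex x (n + 1) q (sc (q + 1) false k) (sT (q + 1) false k T) := by
        intro k T h
        have := Ex_old h
        rwa [show x (q + 2) = false from hb] at this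
      simp only [sc, sT, Bool.false_eq_true, if_false] at old ⊢
      refine ⟨fun a b => ?_, fun a b => ?_, fun a b => ?_, fun a => ?_, fun a b => ?_⟩
      · by_cases h0 : 2 * c = q + 2
        · rcases i2 (by omega) (by omega) with h | h
          · refine Ex_congr (old h) ?_ ?_ <;> split_ifs <;> omega
          · refine Ex_congr (old h) ?_ ?_ <;> split_ifs <;> omega
        · refine Ex_congr (old (i1 (by split_ifs at a <;> omega) (by omega))) ?_ ?_ <;>
            split_ifs at * <;> omega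
      · by_cases h0 : 2 * c = q + 5
        · right
          refine Ex_congr (old (i1 (by omega) (by omega))) ?_ ?_ <;> split_ifs <;> omega
        · left
          refine Ex_congr (old (i1 (by split_ifs at a <;> omega)
            (by split_ifs at b <;> omega))) ?_ ?_ <;> split_ifs at * <;> omega
      · refine Ex_congr (old (i3 (by split_ifs at a <;> omega)
          (by split_ifs at a b <;> omega))) ?_ ?_ <;> split_ifs at * <;> omega
      · refine Ex_congr (old (i4 (by split_ifs at a <;> omega))) ?_ ?_ <;>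
          split_ifs at * <;> omega
      · refine Ex_congr (old (i5 (by split_ifs at a b <;> omega)
          (by split_ifs at b <;> omega))) ?_ ?_ <;> split_ifs at * <;> omega
    · have old : ∀ {k T}, Ex x n (q + 1) k T → Ex x (n + 1) q (k + 1) T := by
        intro k T h
        have := Ex_old h
        rwa [show x (q + 2) = true from hb] at this
      obtain ⟨k, T2, n1, n2, n3⟩ := new hb
      unfold C0 at n1
      unfold IT at n2
      simp only [sc, sT, Bool.false_eq_true, if_false, if_true] at n3 ⊢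
      refine ⟨fun a b => ?_, fun a b => ?_, fun a b => ?_, fun a => ?_, fun a b => ?_⟩
      · by_cases h0 : 2 * c ≤ q + 2
        · refine Ex_congr n3 ?_ ?_ <;> split_ifs <;> omega
        · refine Ex_congr (old (i1 (by omega) (by omega))) ?_ ?_ <;> omega
      · left
        refine Ex_congr n3 ?_ ?_ <;> split_ifs <;> omega
      · by_cases h0 : 2 * c ≤ q + 5
        · refine Ex_congr n3 ?_ ?_ <;> split_ifs <;> omega
        · refine Ex_congr (old (i3 (by omega) (by omega))) ?_ ?_ <;> omega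
      · by_cases h0 : 2 * c ≤ q + 6
        · refine Ex_congr n3 ?_ ?_ <;> split_ifs <;> omega
        · refine Ex_congr (old (i4 (by omega))) ?_ ?_ <;> omega
      · by_cases h0 : 2 * c ≤ q + 10
        · refine Ex_congr n3 ?_ ?_ <;> split_ifs <;> omega
        · refine Ex_congr (old (i5 (by omega) (by omega))) ?_ ?_ <;> omega

def V (x : ℕ → Bool) (n : ℕ) : ℕ := val (St x n 0).1 (St x n 0).2.1 (St x n 0).2.2

lemma V_ne (x : ℕ → Bool) (n h : ℕ) (h1 : 1 ≤ h) (h2 : h ≤ n + 1) (hx : x h = true) :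
    V (sh x h) n ≠ V x (n + 1) := by
  unfold V
  by_cases hq : h = 1
  · subst hq
    have r := St_R0 x 1 n 0 le_rfl
    have e : x (0 + 1) = true := hx
    simp only [St, e]
    exact ne0 (St_I x n _).1 (St_I _ n _).1 (St_I x n _).2 (St_I _ n _).2 r.1 r.2
  · have r := St_R1 x h hx n 0 (by omega) (by omega)
    simp only [St]
    exact ne1 _ (St_I x n _).1 (St_I _ n _).1 (St_I x n _).2 (St_I _ n _).2 r.1 r.2

lemma vA {c v D' : ℕ} (a : 1 ≤ c) (b : (c % 3 = 1 ∧ v = 0) ∨ (c % 3 = 2 ∧ v = 1)) :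
    val (c - 1) 0 D' = v := by
  unfold val; split_ifs <;> omega

lemma vB {c T D D' : ℕ} (a : 4 ≤ c) (b : c % 3 = 1) (d : D = 2) (h1 : ID 0 (c - 1) D')
    (h2 : E1 1 c T D (c - 1) D') : val (c - 1) 1 D' = 2 := by
  unfold ID at h1
  have := h2 (Or.inl ⟨by omega, by omega⟩)
  unfold val
  rw [if_neg (by omega), if_neg (by omega), if_pos (by omega)]

lemma vC {c T D D' v : ℕ} (a : 3 ≤ c) (b : (c % 3 = 0 ∧ v = 0) ∨ (c % 3 = 1 ∧ v = 1) ∨
      (c % 3 = 2 ∧ T = 1 ∧ D = 2 ∧ v = 2)) (h1 : ID 0 (c - 3) D')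
    (h2 : E1 1 c T D (c - 3) D') : val (c - 3) 0 D' = v := by
  unfold ID at h1
  rcases b with b | b | b
  · unfold val; split_ifs <;> omega
  · unfold val; split_ifs <;> omega
  · have := h2 (Or.inr ⟨by omega, by omega⟩)
    unfold val; split_ifs <;> omega

lemma vE {c T D' : ℕ} (a : 5 ≤ c) (b : T = 1) (h : IT (0 + 1) c T) : val (c - 5) 0 D' = 0 := by
  unfold IT at h
  unfold val; split_ifs <;> omega

lemma vF {c T v k T' D' : ℕ} (b : (c = 0 ∧ v = 0) ∨ (c = 1 ∧ v = 1) ∨ (T = 1 ∧ v = 0))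
    (h : IT (0 + 1) c T) (h1 : IT 0 k T') (h2 : C0 c T k T') : val k T' D' = v := by
  unfold IT at h h1
  unfold C0 at h2
  unfold val; split_ifs <;> omega

lemma V_ex (x : ℕ → Bool) (n v : ℕ) (hv : v < V x (n + 1)) :
    ∃ h, 1 ≤ h ∧ h ≤ n + 1 ∧ x h = true ∧ V (sh x h) n = v := by
  obtain ⟨i1, -, i3, i4, i5⟩ := St_Inv x n 0
  have use : ∀ k T, Ex x n 0 k T → (∀ D, ID 0 k D →
      E1 1 (St x n (0 + 1)).1 (St x n (0 + 1)).2.1 (St x n (0 + 1)).2.2 k D → val k T D = v) →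
      ∃ h, 1 ≤ h ∧ h ≤ n + 1 ∧ x h = true ∧ V (sh x h) n = v := by
    rintro k T ⟨h, h1, h2, h3, rfl, rfl⟩ H
    exact ⟨h, by omega, by omega, h3, H _ (St_I _ n _).2 (St_R1 x h h3 n 0 h1 h2).2⟩
  have use0 : x (0 + 1) = true → (∀ k T D, IT 0 k T →
      C0 (St x n (0 + 1)).1 (St x n (0 + 1)).2.1 k T → val k T D = v) →
      ∃ h, 1 ≤ h ∧ h ≤ n + 1 ∧ x h = true ∧ V (sh x h) n = v := by
    intro h H
    exact ⟨1, le_rfl, by omega, h, H _ _ _ (St_I _ n _).1 (St_R0 x 1 n 0 le_rfl).1⟩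
  have hI := (St_I x n (0 + 1)).1
  have hD := (St_I x n (0 + 1)).2
  unfold V at hv
  simp only [St] at hv
  generalize (St x n (0 + 1)).1 = c at *
  generalize (St x n (0 + 1)).2.1 = T at *
  generalize (St x n (0 + 1)).2.2 = D at *
  have A : 1 ≤ c → ((c % 3 = 1 ∧ v = 0) ∨ (c % 3 = 2 ∧ v = 1)) → _ := fun a b =>
    use _ _ (i1 a (by omega)) (fun D' _ _ => vA a b)
  have B : 4 ≤ c → c % 3 = 1 → D = 2 → v = 2 → _ := fun a b d e =>
    use _ _ (i3 (by clear A; omega) (by clear A; omega)) (fun D' h1 h2 => e ▸ vB a b d h1 h2)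
  have C : 3 ≤ c → ((c % 3 = 0 ∧ v = 0) ∨ (c % 3 = 1 ∧ v = 1) ∨
      (c % 3 = 2 ∧ T = 1 ∧ D = 2 ∧ v = 2)) → _ := fun a b =>
    use _ _ (i4 (by clear A B; omega)) (fun D' h1 h2 => vC a b h1 h2)
  have E : 5 ≤ c → T = 1 → v = 0 → _ := fun a b d =>
    use _ _ (i5 b (by clear A B C; omega)) (fun D' _ _ => d ▸ vE a b hI)
  have F : x (0 + 1) = true → ((c = 0 ∧ v = 0) ∨ (c = 1 ∧ v = 1) ∨ (T = 1 ∧ v = 0)) → _ :=
    fun a b => use0 a (fun k T' D' h1 h2 => vF b hI h1 h2)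
  unfold IT at hI
  unfold ID at hD
  by_contra hn
  have A' : ¬ (1 ≤ c ∧ ((c % 3 = 1 ∧ v = 0) ∨ (c % 3 = 2 ∧ v = 1))) := fun h => hn (A h.1 h.2)
  have B' : ¬ (4 ≤ c ∧ c % 3 = 1 ∧ D = 2 ∧ v = 2) := fun h => hn (B h.1 h.2.1 h.2.2.1 h.2.2.2)
  have C' : ¬ (3 ≤ c ∧ ((c % 3 = 0 ∧ v = 0) ∨ (c % 3 = 1 ∧ v = 1) ∨
      (c % 3 = 2 ∧ T = 1 ∧ D = 2 ∧ v = 2))) := fun h => hn (C h.1 h.2)
  have E' : ¬ (5 ≤ c ∧ T = 1 ∧ v = 0) := fun h => hn (E h.1 h.2.1 h.2.2)
  have F' := fun a b => hn (F a b)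
  clear A B C E F use use0 hn i1 i3 i4 i5
  have h3 : c % 3 = 0 ∨ c % 3 = 1 ∨ c % 3 = 2 := by clear A' B' C' E' F' hI hD; omega
  have h4 : v = 0 ∨ v = 1 ∨ v = 2 := by
    clear A' B' C' E' F' hI hD h3
    unfold val at hv
    split_ifs at hv <;> omega
  cases hb : x (0 + 1)
  · clear F'
    rw [hb] at hv
    simp only [val, sc, sT, sD, Bool.false_eq_true, if_false] at hv
    rcases h3 with h3 | h3 | h3 <;> rcases h4 with rfl | rfl | rfl <;> simp [h3] at A' B' C' E' <;>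
      split_ifs at hv <;> omega
  · have F'' : ¬ ((c = 0 ∧ v = 0) ∨ (c = 1 ∧ v = 1) ∨ (T = 1 ∧ v = 0)) := F' hb
    clear F'
    rw [hb] at hv
    simp only [val, sc, sT, sD, if_true] at hv
    rcases h3 with h3 | h3 | h3 <;> rcases h4 with rfl | rfl | rfl <;>
      simp [h3] at A' B' C' E' F'' <;> split_ifs at hv <;> omega

end Pool.Agent.H14.Ck1
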