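import Mathlib

namespace Pool.Agent.H14.Cl

open Matrix
open scoped ComplexOrder

noncomputable def phiFun (X : Matrix (Fin 2) (Fin 2) ℂ) : Matrix (Fin 6) (Fin 6) ℂ :=
  !![(287 * X 0 0 + 225 * X 1 1) / 512, 31 / 256 * X 0 1, 3 / 4 * X 1 0,
      240 * (X 0 0 - X 1 1) / 512, 9 / 16 * X 0 1, 0;
    31 / 256 * X 1 0, (225 * X 0 0 + 287 * X 1 1) / 512, 0, -(9 / 16) * X 1 0,
      240 * (X 0 0 - X 1 1) / 512, 3 / 4 * X 0 1;
    3 / 4 * X 0 1, 0, (X 0 0 + X 1 1) / 2, 0, 0, 0;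
    240 * (X 0 0 - X 1 1) / 512, -(9 / 16) * X 0 1, 0, (X 0 0 + X 1 1) / 2, 0, 0;
    9 / 16 * X 1 0, 240 * (X 0 0 - X 1 1) / 512, 0, 0, (X 0 0 + X 1 1) / 2, 0;
    0, 3 / 4 * X 1 0, 0, 0, 0, (X 0 0 + X 1 1) / 2]

noncomputable def phi : Matrix (Fin 2) (Fin 2) ℂ →ₗ[ℂ] Matrix (Fin 6) (Fin 6) ℂ where
  toFun := phiFun
  map_add' X Y := by
    ext i j
    fin_cases i <;> fin_cases j <;> simp [phiFun] <;> ring
  map_smul' c X := by
    ext i j
    fin_cases i <;> fin_cases j <;> simp [phiFun] <;> ring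

theorem phi_apply (X : Matrix (Fin 2) (Fin 2) ℂ) : phi X = phiFun X := rfl

theorem phi_one : phi 1 = 1 := by
  ext i j
  fin_cases i <;> fin_cases j <;> simp [phi_apply, phiFun] <;> norm_num

theorem phi_herm (X : Matrix (Fin 2) (Fin 2) ℂ) (hX : X.IsHermitian) : (phi X).IsHermitian := by
  have h00 : (starRingEnd ℂ) (X 0 0) = X 0 0 := hX.apply 0 0
  have h11 : (starRingEnd ℂ) (X 1 1) = X 1 1 := hX.apply 1 1
  have h01 : (starRingEnd ℂ) (X 0 1) = X 1 0 := hX.apply 1 0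
  have h10 : (starRingEnd ℂ) (X 1 0) = X 0 1 := hX.apply 0 1
  ext i j
  fin_cases i <;> fin_cases j <;>
    simp [phi_apply, phiFun, h00, h11, h01, h10, map_ofNat]

noncomputable def Nm (X : Matrix (Fin 2) (Fin 2) ℂ) : Matrix (Fin 4) (Fin 6) ℂ :=
  !![3 / 2 * X 0 1, 0, X 0 0 + X 1 1, 0, 0, 0;
    15 / 16 * (X 0 0 - X 1 1), -(9 / 8) * X 0 1, 0, X 0 0 + X 1 1, 0, 0;
    9 / 8 * X 1 0, 15 / 16 * (X 0 0 - X 1 1), 0, 0, X 0 0 + X 1 1, 0;
    0, 3 / 2 * X 1 0, 0, 0, 0, X 0 0 + X 1 1]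

def Bm : Matrix (Fin 2) (Fin 6) ℂ := !![1, 0, 0, 0, 0, 0; 0, 1, 0, 0, 0, 0]

theorem sos (X : Matrix (Fin 2) (Fin 2) ℂ) (hX : X.IsHermitian) :
    (2 * X.trace) • phi X = (Nm X)ᴴ * Nm X + (225 / 64 * X.det) • (Bmᴴ * Bm)
      + (31 / 128 * X.trace) • (Bmᴴ * X * Bm) := by
  have h00 : (starRingEnd ℂ) (X 0 0) = X 0 0 := hX.apply 0 0
  have h11 : (starRingEnd ℂ) (X 1 1) = X 1 1 := hX.apply 1 1
  have h01 : (starRingEnd ℂ) (X 0 1) = X 1 0 := hX.apply 1 0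
  have h10 : (starRingEnd ℂ) (X 1 0) = X 0 1 := hX.apply 0 1
  rw [trace_fin_two, det_fin_two]
  ext i j
  fin_cases i <;> fin_cases j <;>
    simp [phi_apply, phiFun, Nm, Bm, Matrix.mul_apply, Fin.sum_univ_succ, h00, h11, h01, h10,
      map_ofNat] <;> ring

theorem phi_psd (X : Matrix (Fin 2) (Fin 2) ℂ) (hX : X.PosSemidef) : (phi X).PosSemidef := by
  by_cases h0 : X.trace = 0
  · rw [hX.trace_eq_zero_iff.mp h0, map_zero]
    exact PosSemidef.zero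
  · have ht : 0 ≤ X.trace := hX.trace_nonneg
    have hd : 0 ≤ X.det := hX.det_nonneg
    have h1 : ((2 * X.trace) • phi X).PosSemidef := by
      rw [sos X hX.1]
      refine ((posSemidef_conjTranspose_mul_self _).add
        ((posSemidef_conjTranspose_mul_self _).smul ?_)).add
        ((hX.conjTranspose_mul_mul_same _).smul ?_)
      · positivity
      · positivity
    have h2 : phi X = (2 * X.trace)⁻¹ • ((2 * X.trace) • phi X) := by
      rw [smul_smul, inv_mul_cancel₀ (mul_ne_zero two_ne_zero h0), one_smul]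
    rw [h2]
    exact h1.smul (inv_nonneg.mpr (by positivity))

noncomputable def vv (h0 h1 k0 k1 : ℂ) : Fin 6 → ℂ :=
  ![(h0 * k0 + h1 * k1) * h0, (h0 * k0 + h1 * k1) * h1, 3 / 2 * h0 ^ 2 * k1,
    15 / 16 * (h0 * k0 - h1 * k1) * h0 - 9 / 8 * h0 * h1 * k1,
    9 / 8 * h0 * k0 * h1 + 15 / 16 * (h0 * k0 - h1 * k1) * h1, 3 / 2 * k0 * h1 ^ 2]

theorem ker (h0 h1 k0 k1 : ℂ) :
    phi !![h1 * k1, -(h0 * k1); -(k0 * h1), h0 * k0] *ᵥ vv h0 h1 k0 k1 = 0 := by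
  ext i
  fin_cases i <;>
    simp [phi_apply, phiFun, vv, Matrix.mulVec, dotProduct, Fin.sum_univ_succ] <;> ring

theorem phi_sing (Y : Matrix (Fin 2) (Fin 2) ℂ) (hY : Y.IsHermitian) (hd : Y.det = 0) :
    (phi Y).det = 0 := by
  obtain ⟨h, hne, hh⟩ := Matrix.exists_mulVec_eq_zero_iff.mpr hd
  have h00 : (starRingEnd ℂ) (Y 0 0) = Y 0 0 := hY.apply 0 0
  have h11 : (starRingEnd ℂ) (Y 1 1) = Y 1 1 := hY.apply 1 1
  have h01 : (starRingEnd ℂ) (Y 0 1) = Y 1 0 := hY.apply 1 0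
  have h10 : (starRingEnd ℂ) (Y 1 0) = Y 0 1 := hY.apply 0 1
  have e0 : Y 0 0 * h 0 + Y 0 1 * h 1 = 0 := by
    simpa [Matrix.mulVec, dotProduct, Fin.sum_univ_succ] using congrFun hh 0
  have e1 : Y 1 0 * h 0 + Y 1 1 * h 1 = 0 := by
    simpa [Matrix.mulVec, dotProduct, Fin.sum_univ_succ] using congrFun hh 1
  have f0 := congrArg (starRingEnd ℂ) e0
  have f1 := congrArg (starRingEnd ℂ) e1
  simp only [map_add, map_mul, map_zero, h00, h11, h01, h10] at f0 f1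
  set k0 := (starRingEnd ℂ) (h 0) with hk0
  set k1 := (starRingEnd ℂ) (h 1) with hk1
  have hn : h 0 * k0 + h 1 * k1 ≠ 0 := by
    intro hz
    rw [hk0, hk1, Complex.mul_conj, Complex.mul_conj, ← Complex.ofReal_add,
      Complex.ofReal_eq_zero] at hz
    have a0 := Complex.normSq_nonneg (h 0)
    have a1 := Complex.normSq_nonneg (h 1)
    apply hne
    ext i
    fin_cases i
    · exact Complex.normSq_eq_zero.mp (by simp only [Fin.zero_eta]; linarith)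
    · exact Complex.normSq_eq_zero.mp (by simp only [Fin.mk_one]; linarith)
  have hY' : Y = ((Y 0 0 + Y 1 1) / (h 0 * k0 + h 1 * k1)) •
      !![h 1 * k1, -(h 0 * k1); -(k0 * h 1), h 0 * k0] := by
    ext i j
    fin_cases i <;> fin_cases j <;> simp <;> field_simp
    · linear_combination k0 * e0 - h 1 * f1
    · linear_combination k1 * e0 + h 0 * f1
    · linear_combination k0 * e1 + h 1 * f0
    · linear_combination k1 * e1 - h 0 * f0
  apply Matrix.exists_mulVec_eq_zero_iff.mp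
  refine ⟨vv (h 0) (h 1) k0 k1, ?_, ?_⟩
  · intro hz
    have z0 : (h 0 * k0 + h 1 * k1) * h 0 = 0 := by simpa [vv] using congrFun hz 0
    have z1 : (h 0 * k0 + h 1 * k1) * h 1 = 0 := by simpa [vv] using congrFun hz 1
    apply hne
    ext i
    fin_cases i
    · exact (mul_eq_zero.mp z0).resolve_left hn
    · exact (mul_eq_zero.mp z1).resolve_left hn
  · rw [hY', map_smul, Matrix.smul_mulVec, ker, smul_zero]

end Pool.Agent.H14.Cl
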