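import Pool.Agent.H14.Cl1

namespace Pool.Agent.H14.Cl

open Matrix
open scoped ComplexOrder MatrixOrder Matrix.Norms.L2Operator

theorem alg_eq (n : ℕ) (r : ℝ) :
    algebraMap ℝ (Matrix (Fin n) (Fin n) ℂ) r = (r : ℂ) • (1 : Matrix (Fin n) (Fin n) ℂ) := by
  rw [Algebra.algebraMap_eq_smul_one, Complex.coe_smul]

theorem phi_alg (r : ℝ) : phi (algebraMap ℝ _ r) = algebraMap ℝ _ r := by
  rw [alg_eq, alg_eq, map_smul, phi_one]

theorem phi_mono {X Y : Matrix (Fin 2) (Fin 2) ℂ} (h : X ≤ Y) : phi X ≤ phi Y := by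
  rw [Matrix.le_iff, ← map_sub]
  exact phi_psd _ h

theorem mem_spec_iff (n : ℕ) (M : Matrix (Fin n) (Fin n) ℂ) (r : ℝ) :
    r ∈ spectrum ℝ M ↔ (algebraMap ℝ _ r - M).det = 0 := by
  rw [spectrum.mem_iff, Matrix.isUnit_iff_isUnit_det, isUnit_iff_ne_zero, not_not]

theorem phi_spec (X : Matrix (Fin 2) (Fin 2) ℂ) (hX : X.IsHermitian) (r : ℝ)
    (hr : r ∈ spectrum ℝ X) : r ∈ spectrum ℝ (phi X) := by
  rw [mem_spec_iff] at hr ⊢
  rw [← phi_alg, ← map_sub]
  refine phi_sing _ ?_ hr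
  have h1 : IsSelfAdjoint (algebraMap ℝ (Matrix (Fin 2) (Fin 2) ℂ) r) :=
    IsSelfAdjoint.algebraMap _ (IsSelfAdjoint.all r)
  exact Matrix.IsHermitian.sub h1 hX

theorem phi_norm (X : Matrix (Fin 2) (Fin 2) ℂ) (hX : X.IsHermitian) : ‖phi X‖ = ‖X‖ := by
  have hX' : IsSelfAdjoint X := hX
  have hP : IsSelfAdjoint (phi X) := phi_herm X hX
  apply le_antisymm
  · have h1 := phi_mono hX'.le_algebraMap_norm_self
    have h2 := phi_mono hX'.neg_algebraMap_norm_le_self
    rw [phi_alg] at h1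
    rw [map_neg, phi_alg, ← map_neg] at h2
    rcases CStarAlgebra.norm_or_neg_norm_mem_spectrum hP with h | h
    · exact (le_algebraMap_iff_spectrum_le hP).mp h1 _ h
    · have := (algebraMap_le_iff_le_spectrum hP).mp h2 _ h
      linarith
  · rcases CStarAlgebra.norm_or_neg_norm_mem_spectrum hX' with h | h
    · have := spectrum.norm_le_norm_of_mem (phi_spec X hX _ h)
      simpa using this
    · have := spectrum.norm_le_norm_of_mem (phi_spec X hX _ h)
      simpa using this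

end Pool.Agent.H14.Cl
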