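import Pool.Agent.H14.Cl2

namespace Pool.Agent.H14.Cl

open Matrix
open scoped ComplexOrder Kronecker

theorem contra {ι κ : Type*} [Fintype ι] [Fintype κ] (Yp Ym A B : ι → ℂ) (Zp Zm C D : κ → ℂ)
    (r1 r2 : ℂ) (hr1 : 0 ≤ r1) (hr2 : 0 ≤ r2)
    (e1 : star Yp ⬝ᵥ Yp + star Zp ⬝ᵥ Zp = 481 / 256)
    (e2 : star Ym ⬝ᵥ Ym + star Zm ⬝ᵥ Zm = 481 / 256)
    (e3 : star C ⬝ᵥ Zp = 3 / 4) (e4 : star Zm ⬝ᵥ D = 3 / 4)
    (e5 : star Yp ⬝ᵥ Ym = -(239 / 256))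
    (e6 : star A ⬝ᵥ A + star C ⬝ᵥ C + r1 = 1 / 2)
    (e7 : star B ⬝ᵥ B + star D ⬝ᵥ D + r2 = 1 / 2) : False := by
  have e3' : star Zp ⬝ᵥ C = 3 / 4 := by
    rw [star_dotProduct, e3]; simp [map_ofNat]
  have e4' : star D ⬝ᵥ Zm = 3 / 4 := by
    rw [star_dotProduct, e4]; simp [map_ofNat]
  have e5' : star Ym ⬝ᵥ Yp = -(239 / 256) := by
    rw [star_dotProduct, e5]; simp [map_ofNat]
  have p1 := dotProduct_star_self_nonneg (Yp + Ym)
  have p2 := dotProduct_star_self_nonneg (Zp - (3 / 2 : ℂ) • C)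
  have p3 := dotProduct_star_self_nonneg (Zm - (3 / 2 : ℂ) • D)
  have p4 := dotProduct_star_self_nonneg A
  have p5 := dotProduct_star_self_nonneg B
  have s32 : star (3 / 2 : ℂ) = 3 / 2 := by simp [map_ofNat]
  simp only [star_add, star_sub, star_smul, add_dotProduct, dotProduct_add, sub_dotProduct,
    dotProduct_sub, smul_dotProduct, dotProduct_smul, smul_eq_mul, s32] at p1 p2 p3
  have h94 : (0 : ℂ) ≤ 9 / 4 := by positivity
  have tot := add_nonneg (add_nonneg (add_nonneg p1 p2) p3)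
    (mul_nonneg h94 (add_nonneg (add_nonneg p4 hr1) (add_nonneg p5 hr2)))
  have hneg : (0 : ℂ) ≤ ((-(23 / 64) : ℝ) : ℂ) := by
    convert tot using 1
    push_cast
    linear_combination -(e1 + e2 + e5 + e5' - 3 / 2 * (e3 + e3' + e4 + e4') + 9 / 4 * (e6 + e7))
  have := Complex.zero_le_real.mp hneg
  norm_num at this

section
variable {α β ζ : Type} [Fintype α] [Fintype β] [Fintype ζ] [DecidableEq α] [DecidableEq β]

theorem kron_mulVec (X : Matrix (Fin 2) (Fin 2) ℂ) (u : Fin 2 × α → ℂ) (a : Fin 2) (k : α) :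
    ((X ⊗ₖ (1 : Matrix α α ℂ)) *ᵥ u) (a, k) = X a 0 * u (0, k) + X a 1 * u (1, k) := by
  simp [Matrix.mulVec, dotProduct, Fintype.sum_prod_type, Matrix.one_apply, Fin.sum_univ_two]

theorem kron_form (X : Matrix (Fin 2) (Fin 2) ℂ) (u w : Fin 2 × α → ℂ) :
    star u ⬝ᵥ ((X ⊗ₖ (1 : Matrix α α ℂ)) *ᵥ w) =
      X 0 0 * (star (fun k => u (0, k)) ⬝ᵥ fun k => w (0, k))
      + X 0 1 * (star (fun k => u (0, k)) ⬝ᵥ fun k => w (1, k))
      + X 1 0 * (star (fun k => u (1, k)) ⬝ᵥ fun k => w (0, k))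
      + X 1 1 * (star (fun k => u (1, k)) ⬝ᵥ fun k => w (1, k)) := by
  simp only [dotProduct, Fintype.sum_prod_type, Fin.sum_univ_two, kron_mulVec, Pi.star_apply,
    Finset.mul_sum, ← Finset.sum_add_distrib]
  refine Finset.sum_congr rfl fun k _ => ?_
  ring

def yy (V : Matrix ((Fin 2 × α) ⊕ (Fin 2 × β) ⊕ ζ) (Fin 6) ℂ) (a : Fin 2) (p : Fin 6 → ℂ) :
    α → ℂ := fun k => (V *ᵥ p) (Sum.inl (a, k))

def zz (V : Matrix ((Fin 2 × α) ⊕ (Fin 2 × β) ⊕ ζ) (Fin 6) ℂ) (a : Fin 2) (p : Fin 6 → ℂ) :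
    β → ℂ := fun k => (V *ᵥ p) (Sum.inr (Sum.inl (a, k)))

def ss (V : Matrix ((Fin 2 × α) ⊕ (Fin 2 × β) ⊕ ζ) (Fin 6) ℂ) (p : Fin 6 → ℂ) :
    ζ → ℂ := fun k => (V *ᵥ p) (Sum.inr (Sum.inr k))

variable (α β) in
noncomputable def DD (X : Matrix (Fin 2) (Fin 2) ℂ) (F : Matrix ζ ζ ℂ) :
    Matrix ((Fin 2 × α) ⊕ (Fin 2 × β) ⊕ ζ) ((Fin 2 × α) ⊕ (Fin 2 × β) ⊕ ζ) ℂ :=
  fromBlocks (X ⊗ₖ (1 : Matrix α α ℂ)) 0 0 (fromBlocks (Xᵀ ⊗ₖ (1 : Matrix β β ℂ)) 0 0 F)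

theorem DD_mulVec (X : Matrix (Fin 2) (Fin 2) ℂ) (F : Matrix ζ ζ ℂ)
    (w : (Fin 2 × α) ⊕ (Fin 2 × β) ⊕ ζ → ℂ) :
    DD α β X F *ᵥ w = Sum.elim ((X ⊗ₖ (1 : Matrix α α ℂ)) *ᵥ (w ∘ Sum.inl))
      (Sum.elim ((Xᵀ ⊗ₖ (1 : Matrix β β ℂ)) *ᵥ (w ∘ Sum.inr ∘ Sum.inl))
        (F *ᵥ (w ∘ Sum.inr ∘ Sum.inr))) := by
  simp only [DD, fromBlocks_mulVec, zero_mulVec, add_zero, zero_add]
  rfl

theorem form (V : Matrix ((Fin 2 × α) ⊕ (Fin 2 × β) ⊕ ζ) (Fin 6) ℂ)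
    (X : Matrix (Fin 2) (Fin 2) ℂ) (F : Matrix ζ ζ ℂ) (p q : Fin 6 → ℂ) :
    star p ⬝ᵥ ((Vᴴ * DD α β X F * V) *ᵥ q) =
      X 0 0 * (star (yy V 0 p) ⬝ᵥ yy V 0 q) + X 0 1 * (star (yy V 0 p) ⬝ᵥ yy V 1 q)
      + X 1 0 * (star (yy V 1 p) ⬝ᵥ yy V 0 q) + X 1 1 * (star (yy V 1 p) ⬝ᵥ yy V 1 q)
      + (X 0 0 * (star (zz V 0 p) ⬝ᵥ zz V 0 q) + X 1 0 * (star (zz V 0 p) ⬝ᵥ zz V 1 q)
      + X 0 1 * (star (zz V 1 p) ⬝ᵥ zz V 0 q) + X 1 1 * (star (zz V 1 p) ⬝ᵥ zz V 1 q))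
      + star (ss V p) ⬝ᵥ (F *ᵥ ss V q) := by
  rw [← mulVec_mulVec, ← mulVec_mulVec, dotProduct_mulVec, ← star_mulVec, DD_mulVec]
  have h1 : star (V *ᵥ p) = Sum.elim (star ((V *ᵥ p) ∘ Sum.inl))
      (Sum.elim (star ((V *ᵥ p) ∘ Sum.inr ∘ Sum.inl)) (star ((V *ᵥ p) ∘ Sum.inr ∘ Sum.inr))) := by
    ext (i | i | i) <;> rfl
  rw [h1, sumElim_dotProduct_sumElim, sumElim_dotProduct_sumElim, kron_form, kron_form,
    ← add_assoc]
  rfl

theorem eig (V : Matrix ((Fin 2 × α) ⊕ (Fin 2 × β) ⊕ ζ) (Fin 6) ℂ) (hV : Vᴴ * V = 1)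
    (F : Matrix ζ ζ ℂ) (h : Fin 2 → ℂ) (X : Matrix (Fin 2) (Fin 2) ℂ) (hX1 : X *ᵥ h = h)
    (hX2 : Xᵀ *ᵥ star h = star h) (v : Fin 6 → ℂ) (h1 : α → ℂ) (h2 : β → ℂ)
    (hv : V *ᵥ v = Sum.elim (fun p => h p.1 * h1 p.2)
      (Sum.elim (fun p => star (h p.1) * h2 p.2) 0)) :
    (Vᴴ * DD α β X F * V) *ᵥ v = v := by
  have key : DD α β X F *ᵥ (V *ᵥ v) = V *ᵥ v := by
    rw [DD_mulVec, hv]
    ext (⟨a, k⟩ | ⟨a, k⟩ | k)
    · have := congrFun hX1 a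
      simp only [Matrix.mulVec, dotProduct, Fin.sum_univ_two] at this
      simp only [Sum.elim_inl, kron_mulVec, Function.comp_apply]
      linear_combination h1 k * this
    · have := congrFun hX2 a
      simp only [Matrix.mulVec, dotProduct, Fin.sum_univ_two, Pi.star_apply] at this
      simp only [Sum.elim_inl, Sum.elim_inr, kron_mulVec, Function.comp_apply]
      linear_combination h2 k * this
    · have : (Sum.elim (fun p : Fin 2 × α => h p.1 * h1 p.2)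
          (Sum.elim (fun p : Fin 2 × β => star (h p.1) * h2 p.2) (0 : ζ → ℂ)))
            ∘ Sum.inr ∘ Sum.inr = 0 := rfl
      simp only [Sum.elim_inr, this, mulVec_zero]
  rw [← mulVec_mulVec, ← mulVec_mulVec, key, mulVec_mulVec, hV, one_mulVec]

end

noncomputable def vp : Fin 6 → ℂ := ![1, 0, 0, 15 / 16, 0, 0]
noncomputable def vm : Fin 6 → ℂ := ![0, 1, 0, 0, -(15 / 16), 0]
def w0 : Fin 6 → ℂ := ![0, 0, 1, 0, 0, 0]
def w3 : Fin 6 → ℂ := ![0, 0, 0, 0, 0, 1]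

theorem uniq0 (v : Fin 6 → ℂ) (hv : phi !![1, 0; 0, 0] *ᵥ v = v) : v = v 0 • vp := by
  have r1 := congrFun hv 1
  have r2 := congrFun hv 2
  have r3 := congrFun hv 3
  have r4 := congrFun hv 4
  have r5 := congrFun hv 5
  simp [phi_apply, phiFun, Matrix.mulVec, dotProduct, Fin.sum_univ_succ] at r1 r2 r3 r4 r5
  have a1 : v 1 = 0 := by linear_combination (-(256 / 31)) * (r1 + 15 / 16 * r4)
  ext i
  fin_cases i <;> simp [vp]
  · exact a1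
  · linear_combination (-2) * r2
  · linear_combination (-2) * r3
  · linear_combination (-2) * r4 + 15 / 16 * a1
  · linear_combination (-2) * r5

theorem uniq1 (v : Fin 6 → ℂ) (hv : phi !![0, 0; 0, 1] *ᵥ v = v) : v = v 1 • vm := by
  have r0 := congrFun hv 0
  have r2 := congrFun hv 2
  have r3 := congrFun hv 3
  have r4 := congrFun hv 4
  have r5 := congrFun hv 5
  simp [phi_apply, phiFun, Matrix.mulVec, dotProduct, Fin.sum_univ_succ] at r0 r2 r3 r4 r5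
  have a0 : v 0 = 0 := by linear_combination (-(256 / 31)) * (r0 - 15 / 16 * r3)
  ext i
  fin_cases i <;> simp [vm]
  · exact a0
  · linear_combination (-2) * r2
  · linear_combination (-2) * r3 - 15 / 16 * a0
  · linear_combination (-2) * r4
  · linear_combination (-2) * r5

theorem main {α β ζ : Type} [Fintype α] [Fintype β] [Fintype ζ] [DecidableEq α] [DecidableEq β]
    (f : Matrix (Fin 2) (Fin 2) ℂ → Matrix ζ ζ ℂ)
    (V : Matrix ((Fin 2 × α) ⊕ (Fin 2 × β) ⊕ ζ) (Fin 6) ℂ)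
    (hf : ∀ X, X.PosSemidef → (f X).PosSemidef) (hV : Vᴴ * V = 1)
    (hK : ∀ h : Fin 2 → ℂ, h ≠ 0 → ∃ (v : Fin 6 → ℂ) (h1 : α → ℂ) (h2 : β → ℂ), V *ᵥ v ≠ 0 ∧
      V *ᵥ v = Sum.elim (fun p => h p.1 * h1 p.2) (Sum.elim (fun p => star (h p.1) * h2 p.2) 0))
    (hΦ : ∀ X, X.IsHermitian → phi X = Vᴴ * DD α β X (f X) * V) : False := by
  have pE0 : (!![1, 0; 0, 0] : Matrix (Fin 2) (Fin 2) ℂ).PosSemidef := by
    have : (!![1, 0; 0, 0] : Matrix (Fin 2) (Fin 2) ℂ) = !![1, 0; 0, 0]ᴴ * !![1, 0; 0, 0] := by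
      ext i j; fin_cases i <;> fin_cases j <;> simp [Matrix.mul_apply, Fin.sum_univ_two]
    rw [this]; exact posSemidef_conjTranspose_mul_self _
  have pE1 : (!![0, 0; 0, 1] : Matrix (Fin 2) (Fin 2) ℂ).PosSemidef := by
    have : (!![0, 0; 0, 1] : Matrix (Fin 2) (Fin 2) ℂ) = !![0, 0; 0, 1]ᴴ * !![0, 0; 0, 1] := by
      ext i j; fin_cases i <;> fin_cases j <;> simp [Matrix.mul_apply, Fin.sum_univ_two]
    rw [this]; exact posSemidef_conjTranspose_mul_self _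
  have hS1 : (!![0, 1; 1, 0] : Matrix (Fin 2) (Fin 2) ℂ).IsHermitian := by
    ext i j; fin_cases i <;> fin_cases j <;> simp
  have hS2 : (!![0, -Complex.I; Complex.I, 0] : Matrix (Fin 2) (Fin 2) ℂ).IsHermitian := by
    ext i j; fin_cases i <;> fin_cases j <;> simp
  -- kernel relations
  have kp : yy V 1 vp = 0 ∧ zz V 1 vp = 0 ∧ ss V vp = 0 := by
    obtain ⟨v, h1, h2, hne, hv⟩ := hK ![1, 0] (by intro h; simpa using congrFun h 0)
    have he := eig V hV (f !![1, 0; 0, 0]) ![1, 0] !![1, 0; 0, 0]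
      (by ext i; fin_cases i <;> simp [Matrix.mulVec, dotProduct, Fin.sum_univ_two])
      (by ext i; fin_cases i <;> simp [Matrix.mulVec, dotProduct, Fin.sum_univ_two]) v h1 h2 hv
    rw [← hΦ _ pE0.1] at he
    have hu := uniq0 v he
    have ht : v 0 ≠ 0 := by
      intro h0; apply hne; rw [hu, h0, zero_smul, mulVec_zero]
    rw [hu, mulVec_smul] at hv
    refine ⟨?_, ?_, ?_⟩ <;> ext k
    · simpa [ht, yy] using congrFun hv (Sum.inl (1, k))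
    · simpa [ht, zz] using congrFun hv (Sum.inr (Sum.inl (1, k)))
    · simpa [ht, ss] using congrFun hv (Sum.inr (Sum.inr k))
  have km : yy V 0 vm = 0 ∧ zz V 0 vm = 0 ∧ ss V vm = 0 := by
    obtain ⟨v, h1, h2, hne, hv⟩ := hK ![0, 1] (by intro h; simpa using congrFun h 1)
    have he := eig V hV (f !![0, 0; 0, 1]) ![0, 1] !![0, 0; 0, 1]
      (by ext i; fin_cases i <;> simp [Matrix.mulVec, dotProduct, Fin.sum_univ_two])
      (by ext i; fin_cases i <;> simp [Matrix.mulVec, dotProduct, Fin.sum_univ_two]) v h1 h2 hv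
    rw [← hΦ _ pE1.1] at he
    have hu := uniq1 v he
    have ht : v 1 ≠ 0 := by
      intro h0; apply hne; rw [hu, h0, zero_smul, mulVec_zero]
    rw [hu, mulVec_smul] at hv
    refine ⟨?_, ?_, ?_⟩ <;> ext k
    · simpa [ht, yy] using congrFun hv (Sum.inl (0, k))
    · simpa [ht, zz] using congrFun hv (Sum.inr (Sum.inl (0, k)))
    · simpa [ht, ss] using congrFun hv (Sum.inr (Sum.inr k))
  obtain ⟨p1, p2, p3⟩ := kp
  obtain ⟨m1, m2, m3⟩ := km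
  have F := fun X (hX : Matrix.IsHermitian X) p q => (hΦ X hX) ▸ form V X (f X) p q
  have hI := Complex.I_sq
  refine contra (yy V 0 vp) (yy V 1 vm) (yy V 1 w0) (yy V 0 w3) (zz V 0 vp) (zz V 1 vm)
    (zz V 1 w0) (zz V 0 w3) _ _ ((hf _ pE1).dotProduct_mulVec_nonneg (ss V w0))
    ((hf _ pE0).dotProduct_mulVec_nonneg (ss V w3)) ?_ ?_ ?_ ?_ ?_ ?_ ?_
  · have a := F _ pE0.1 vp vp
    rw [p3] at a
    have l : star vp ⬝ᵥ phi !![1, 0; 0, 0] *ᵥ vp = 481 / 256 := by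
      simp [phi_apply, phiFun, vp, Matrix.mulVec, dotProduct, Fin.sum_univ_succ, map_ofNat]
      norm_num
    rw [l] at a
    simp at a
    linear_combination -a
  · have a := F _ pE1.1 vm vm
    rw [m3] at a
    have l : star vm ⬝ᵥ phi !![0, 0; 0, 1] *ᵥ vm = 481 / 256 := by
      simp [phi_apply, phiFun, vm, Matrix.mulVec, dotProduct, Fin.sum_univ_succ, map_ofNat]
      norm_num
    rw [l] at a
    simp at a
    linear_combination -a
  · have a := F _ hS1 w0 vp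
    have b := F _ hS2 w0 vp
    rw [p1, p2, p3] at a b
    have l : star w0 ⬝ᵥ phi !![0, 1; 1, 0] *ᵥ vp = 3 / 4 := by
      simp [phi_apply, phiFun, vp, w0, Matrix.mulVec, dotProduct, Fin.sum_univ_succ]
    have l' : star w0 ⬝ᵥ phi !![0, -Complex.I; Complex.I, 0] *ᵥ vp = -(3 / 4 * Complex.I) := by
      simp [phi_apply, phiFun, vp, w0, Matrix.mulVec, dotProduct, Fin.sum_univ_succ]
    rw [l] at a
    rw [l'] at b
    simp at a b
    linear_combination (-1 / 2) * a - Complex.I / 2 * b + (-(3 / 8)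
      - (star (yy V 1 w0) ⬝ᵥ yy V 0 vp) / 2 + (star (zz V 1 w0) ⬝ᵥ zz V 0 vp) / 2) * hI
  · have a := F _ hS1 vm w3
    have b := F _ hS2 vm w3
    rw [m1, m2, m3] at a b
    have l : star vm ⬝ᵥ phi !![0, 1; 1, 0] *ᵥ w3 = 3 / 4 := by
      simp [phi_apply, phiFun, vm, w3, Matrix.mulVec, dotProduct, Fin.sum_univ_succ]
    have l' : star vm ⬝ᵥ phi !![0, -Complex.I; Complex.I, 0] *ᵥ w3 = -(3 / 4 * Complex.I) := by
      simp [phi_apply, phiFun, vm, w3, Matrix.mulVec, dotProduct, Fin.sum_univ_succ]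
    rw [l] at a
    rw [l'] at b
    simp at a b
    linear_combination (-1 / 2) * a - Complex.I / 2 * b + (-(3 / 8)
      - (star (yy V 1 vm) ⬝ᵥ yy V 0 w3) / 2 + (star (zz V 1 vm) ⬝ᵥ zz V 0 w3) / 2) * hI
  · have a := F _ hS1 vp vm
    have b := F _ hS2 vp vm
    rw [p1, p2, p3, m1, m2] at a b
    have l : star vp ⬝ᵥ phi !![0, 1; 1, 0] *ᵥ vm = -(239 / 256) := by
      simp [phi_apply, phiFun, vm, vp, Matrix.mulVec, dotProduct, Fin.sum_univ_succ, map_ofNat]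
      norm_num
    have l' : star vp ⬝ᵥ phi !![0, -Complex.I; Complex.I, 0] *ᵥ vm = 239 / 256 * Complex.I := by
      simp [phi_apply, phiFun, vm, vp, Matrix.mulVec, dotProduct, Fin.sum_univ_succ, map_ofNat]
      ring
    rw [l] at a
    rw [l'] at b
    simp at a b
    linear_combination (-1 / 2) * a - Complex.I / 2 * b + (239 / 512
      + (star (yy V 0 vp) ⬝ᵥ yy V 1 vm) / 2 - (star (zz V 0 vp) ⬝ᵥ zz V 1 vm) / 2) * hI
  · have a := F _ pE1.1 w0 w0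
    have l : star w0 ⬝ᵥ phi !![0, 0; 0, 1] *ᵥ w0 = 1 / 2 := by
      simp [phi_apply, phiFun, w0, Matrix.mulVec, dotProduct, Fin.sum_univ_succ]
    rw [l] at a
    simp at a
    linear_combination -a
  · have a := F _ pE0.1 w3 w3
    have l : star w3 ⬝ᵥ phi !![1, 0; 0, 0] *ᵥ w3 = 1 / 2 := by
      simp [phi_apply, phiFun, w3, Matrix.mulVec, dotProduct, Fin.sum_univ_succ]
    rw [l] at a
    simp at a
    linear_combination -a

end Pool.Agent.H14.Cl
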