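import Mathlib

set_option autoImplicit false

namespace Pool.Agent.H14.Corners

open Finset

lemma sum_pair {V α : Type} [Fintype V] [DecidableEq V] [Fintype α] (F : α → α → ℝ) (u v : V)
    (huv : u ≠ v) :
    (∑ g : V → α, F (g u) (g v)) * (Fintype.card α : ℝ) ^ 2 =
      (Fintype.card (V → α) : ℝ) * ∑ a, ∑ b, F a b := by
  have hinv : Function.Involutive (fun p : (V → α) × α × α =>
      (Function.update (Function.update p.1 u p.2.1) v p.2.2, p.1 u, p.1 v)) := by
    rintro ⟨g, a, b⟩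
    refine Prod.ext ?_ (Prod.ext ?_ ?_)
    · funext w
      by_cases h1 : w = v
      · subst h1; simp
      · by_cases h2 : w = u
        · subst h2; simp [huv]
        · simp [h1, h2]
    · simp [huv]
    · simp
  have h1 : ∑ p : (V → α) × α × α, F (p.1 u) (p.1 v) =
      ∑ p : (V → α) × α × α, F p.2.1 p.2.2 :=
    Equiv.sum_comp (Function.Involutive.toPerm _ hinv) (fun p => F p.2.1 p.2.2)
  rw [Fintype.sum_prod_type, Fintype.sum_prod_type] at h1
  simp only [sum_const, card_univ, nsmul_eq_mul, Fintype.sum_prod_type, Fintype.card_prod] at h1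
  push_cast at h1
  rw [← h1, ← mul_sum]
  ring

def sg (b : Bool) : ℝ := if b then 1 else -1

lemma sg_sq (b : Bool) : sg b * sg b = 1 := by cases b <;> simp [sg]

lemma sg_not (b : Bool) : sg (!b) = -sg b := by cases b <;> simp [sg]

def ind (a b c : Bool) : ℝ := if a = b ∧ b = c then 0 else 1

lemma ind_eq (a b c : Bool) :
    ind a b c = 3 / 4 - (sg a * sg b + sg b * sg c + sg a * sg c) / 4 := by
  cases a <;> cases b <;> cases c <;> simp [ind, sg] <;> norm_num

variable {N : ℕ} [NeZero N]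

noncomputable def Q (u : ZMod N → Bool) : ℝ := ∑ h, (∑ x, sg (u x) * sg (u (x + h))) ^ 2

lemma Q_nonneg (u : ZMod N → Bool) : 0 ≤ Q u := sum_nonneg fun _ _ => sq_nonneg _

lemma four_zero (x y h : ZMod N) (hh : h ≠ 0) (h1 : y ≠ x) (h2 : y + h ≠ x) :
    ∑ u : ZMod N → Bool, sg (u x) * sg (u (x + h)) * (sg (u y) * sg (u (y + h))) = 0 := by
  have hinv : Function.Involutive (fun u : ZMod N → Bool => Function.update u x (!u x)) := by
    intro u
    funext w
    by_cases hw : w = x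
    · subst hw; simp
    · simp [hw]
  have := Equiv.sum_comp (Function.Involutive.toPerm _ hinv)
    (fun u : ZMod N → Bool => sg (u x) * sg (u (x + h)) * (sg (u y) * sg (u (y + h))))
  have h3 : x + h ≠ x := by simpa using hh
  simp only [Function.Involutive.coe_toPerm, Function.update_self, Function.update_of_ne h1,
    Function.update_of_ne h2, Function.update_of_ne h3, sg_not, neg_mul, sum_neg_distrib] at this
  linarith

lemma four_le (a b c d : Bool) : sg a * sg b * (sg c * sg d) ≤ 1 := by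
  cases a <;> cases b <;> cases c <;> cases d <;> simp [sg]

lemma sum_Q : ∑ u : ZMod N → Bool, Q u ≤
    (Fintype.card (ZMod N → Bool) : ℝ) * (3 * (N : ℝ) ^ 2) := by
  set K : ℝ := (Fintype.card (ZMod N → Bool) : ℝ)
  have hK : 0 ≤ K := Nat.cast_nonneg _
  have hle : ∀ x y h : ZMod N,
      ∑ u : ZMod N → Bool, sg (u x) * sg (u (x + h)) * (sg (u y) * sg (u (y + h))) ≤
        K * ((if h = 0 then 1 else 0) + (if y = x then 1 else 0) + (if y = x - h then 1 else 0)) := by
    intro x y h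
    have hb : ∑ u : ZMod N → Bool, sg (u x) * sg (u (x + h)) * (sg (u y) * sg (u (y + h))) ≤ K := by
      calc _ ≤ ∑ _u : ZMod N → Bool, (1 : ℝ) := sum_le_sum fun u _ => four_le _ _ _ _
        _ = K := by simp [K]
    by_cases a1 : h = 0
    · refine hb.trans (le_mul_of_one_le_right hK ?_)
      split_ifs <;> norm_num
    by_cases a2 : y = x
    · refine hb.trans (le_mul_of_one_le_right hK ?_)
      split_ifs <;> norm_num
    by_cases a3 : y = x - h
    · refine hb.trans (le_mul_of_one_le_right hK ?_)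
      split_ifs <;> norm_num
    rw [four_zero x y h a1 a2 (fun e => a3 (by rw [← e]; ring))]
    simp [a1, a2, a3]
  have e : ∑ u : ZMod N → Bool, Q u = ∑ h : ZMod N, ∑ x : ZMod N, ∑ y : ZMod N,
      ∑ u : ZMod N → Bool, sg (u x) * sg (u (x + h)) * (sg (u y) * sg (u (y + h))) := by
    unfold Q
    simp only [sq, sum_mul_sum]
    rw [sum_comm]
    refine sum_congr rfl fun h _ => ?_
    rw [sum_comm]
    refine sum_congr rfl fun x _ => ?_
    rw [sum_comm]
  rw [e]
  refine (sum_le_sum fun h _ => sum_le_sum fun x _ => sum_le_sum fun y _ => hle x y h).trans ?_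
  simp only [← mul_sum, sum_add_distrib, sum_ite_eq', mem_univ, if_true, sum_const, card_univ,
    ZMod.card, nsmul_eq_mul]
  apply le_of_eq
  ring

noncomputable def hat (u : ZMod N → Bool) (r : ZMod N) : ℂ :=
  ∑ x, (sg (u x) : ℂ) * ZMod.stdAddChar (r * x)

lemma norm_std (j : ZMod N) : ‖ZMod.stdAddChar j‖ = 1 := by
  rw [ZMod.stdAddChar_apply]; simp

lemma hat_bound (u : ZMod N → Bool) (r : ZMod N) : (‖hat u r‖ ^ 2) ^ 2 ≤ N * Q u := by
  have h1 : (starRingEnd ℂ) (hat u r) * hat u r =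
      ∑ h : ZMod N, ((∑ x, sg (u x) * sg (u (x + h)) : ℝ) : ℂ) * ZMod.stdAddChar (r * h) := by
    unfold hat
    rw [map_sum, sum_mul_sum]
    push_cast
    simp only [sum_mul]
    rw [sum_comm (f := fun h x => (sg (u x) : ℂ) * (sg (u (x + h)) : ℂ) * ZMod.stdAddChar (r * h))]
    refine sum_congr rfl fun x _ => ?_
    rw [← Equiv.sum_comp (Equiv.addLeft x)]
    refine sum_congr rfl fun h _ => ?_
    simp only [Equiv.coe_addLeft, map_mul, Complex.conj_ofReal, mul_add, AddChar.map_add_eq_mul]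
    have : (starRingEnd ℂ) (ZMod.stdAddChar (r * x)) * ZMod.stdAddChar (r * x) = 1 := by
      rw [Complex.conj_mul', norm_std]; simp
    linear_combination ((sg (u x) : ℂ) * (sg (u (x + h)) : ℂ) * ZMod.stdAddChar (r * h)) * this
  have h2 : ‖hat u r‖ ^ 2 ≤ ∑ h : ZMod N, |∑ x, sg (u x) * sg (u (x + h))| := by
    have : ‖hat u r‖ ^ 2 = ‖(starRingEnd ℂ) (hat u r) * hat u r‖ := by
      rw [norm_mul, Complex.norm_conj, sq]
    rw [this, h1]
    refine (norm_sum_le _ _).trans (le_of_eq (sum_congr rfl fun h _ => ?_))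
    rw [norm_mul, norm_std, mul_one, Complex.norm_real, Real.norm_eq_abs]
  have h3 := sq_sum_le_card_mul_sum_sq (s := (univ : Finset (ZMod N)))
    (f := fun h => |∑ x, sg (u x) * sg (u (x + h))|)
  simp only [sq_abs, card_univ, ZMod.card] at h3
  exact (pow_le_pow_left₀ (sq_nonneg _) h2 2).trans h3

def AA (u v w : ZMod N → Bool) : Finset (ZMod N × ZMod N) :=
  univ.filter fun p => ¬ (u p.1 = v p.2 ∧ v p.2 = w (p.1 + p.2))

lemma fourier_A (u v w : ZMod N → Bool) (r : ZMod N × ZMod N) :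
    ∑ x ∈ AA u v w, ZMod.stdAddChar (r.1 * x.1 + r.2 * x.2) =
      3 / 4 * ((∑ x : ZMod N, ZMod.stdAddChar (x * r.1)) * ∑ y : ZMod N, ZMod.stdAddChar (y * r.2)) -
      (hat u r.1 * hat v r.2 + hat v (r.2 - r.1) * hat w r.1 + hat u (r.1 - r.2) * hat w r.2) / 4 := by
  have e1 : ∑ x ∈ AA u v w, ZMod.stdAddChar (r.1 * x.1 + r.2 * x.2) =
      ∑ x : ZMod N, ∑ y : ZMod N, ((ind (u x) (v y) (w (x + y)) : ℝ) : ℂ) *
        ZMod.stdAddChar (r.1 * x + r.2 * y) := by
    rw [AA, sum_filter, Fintype.sum_prod_type]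
    refine sum_congr rfl fun x _ => sum_congr rfl fun y _ => ?_
    unfold ind
    split_ifs <;> simp
  have t0 : (∑ x : ZMod N, ZMod.stdAddChar (x * r.1)) * ∑ y : ZMod N, ZMod.stdAddChar (y * r.2) =
      ∑ x : ZMod N, ∑ y : ZMod N, ZMod.stdAddChar (r.1 * x + r.2 * y) := by
    rw [sum_mul_sum]
    refine sum_congr rfl fun x _ => sum_congr rfl fun y _ => ?_
    rw [AddChar.map_add_eq_mul, mul_comm x, mul_comm y]
  have t1 : hat u r.1 * hat v r.2 = ∑ x : ZMod N, ∑ y : ZMod N,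
      (sg (u x) : ℂ) * (sg (v y) : ℂ) * ZMod.stdAddChar (r.1 * x + r.2 * y) := by
    unfold hat
    rw [sum_mul_sum]
    refine sum_congr rfl fun x _ => sum_congr rfl fun y _ => ?_
    rw [AddChar.map_add_eq_mul]; ring
  have t2 : hat v (r.2 - r.1) * hat w r.1 = ∑ x : ZMod N, ∑ y : ZMod N,
      (sg (v y) : ℂ) * (sg (w (x + y)) : ℂ) * ZMod.stdAddChar (r.1 * x + r.2 * y) := by
    unfold hat
    rw [sum_mul_sum, sum_comm (f := fun x y => (sg (v y) : ℂ) * (sg (w (x + y)) : ℂ) *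
      ZMod.stdAddChar (r.1 * x + r.2 * y))]
    refine sum_congr rfl fun y _ => ?_
    rw [← Equiv.sum_comp (Equiv.addRight y)]
    refine sum_congr rfl fun x _ => ?_
    simp only [Equiv.coe_addRight]
    have : r.1 * x + r.2 * y = (r.2 - r.1) * y + r.1 * (x + y) := by ring
    rw [this, AddChar.map_add_eq_mul]; ring
  have t3 : hat u (r.1 - r.2) * hat w r.2 = ∑ x : ZMod N, ∑ y : ZMod N,
      (sg (u x) : ℂ) * (sg (w (x + y)) : ℂ) * ZMod.stdAddChar (r.1 * x + r.2 * y) := by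
    unfold hat
    rw [sum_mul_sum]
    refine sum_congr rfl fun x _ => ?_
    rw [← Equiv.sum_comp (Equiv.addLeft x)]
    refine sum_congr rfl fun y _ => ?_
    simp only [Equiv.coe_addLeft]
    have : r.1 * x + r.2 * y = (r.1 - r.2) * x + r.2 * (x + y) := by ring
    rw [this, AddChar.map_add_eq_mul]; ring
  rw [e1, t0, t1, t2, t3]
  simp only [← sum_add_distrib, mul_sum, sum_div, ← sum_sub_distrib]
  refine sum_congr rfl fun x _ => sum_congr rfl fun y _ => ?_
  rw [ind_eq]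
  push_cast
  ring

noncomputable def cor (u v w : ZMod N → Bool) : ℝ :=
  ∑ t : ZMod N × ZMod N × ZMod N, ind (u t.1) (v t.2.1) (w (t.1 + t.2.1)) *
    ind (u (t.1 + t.2.2)) (v t.2.1) (w (t.1 + t.2.1 + t.2.2)) *
    ind (u t.1) (v (t.2.1 + t.2.2)) (w (t.1 + t.2.1 + t.2.2))

lemma ind_nonneg (a b c : Bool) : 0 ≤ ind a b c := by unfold ind; split_ifs <;> norm_num

lemma ind_le (a b c : Bool) : ind a b c ≤ 1 := by unfold ind; split_ifs <;> norm_num

lemma cor_nonneg (u v w : ZMod N → Bool) : 0 ≤ cor u v w :=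
  sum_nonneg fun _ _ => mul_nonneg (mul_nonneg (ind_nonneg _ _ _) (ind_nonneg _ _ _))
    (ind_nonneg _ _ _)

lemma cor_eq (u v w : ZMod N → Bool) :
    (((univ : Finset (ZMod N × ZMod N × ZMod N)).filter
      (fun t => (t.1, t.2.1) ∈ AA u v w ∧ (t.1 + t.2.2, t.2.1) ∈ AA u v w ∧
        (t.1, t.2.1 + t.2.2) ∈ AA u v w)).card : ℝ) = cor u v w := by
  rw [card_filter]
  push_cast
  refine sum_congr rfl fun t _ => ?_
  simp only [AA, mem_filter, mem_univ, true_and, ind]
  rw [show t.1 + t.2.2 + t.2.1 = t.1 + t.2.1 + t.2.2 by ring,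
    show t.1 + (t.2.1 + t.2.2) = t.1 + t.2.1 + t.2.2 by ring]
  split_ifs <;> simp_all

lemma six (x x' y y' z z' : ZMod N) (hx : x ≠ x') (hy : y ≠ y') (hz : z ≠ z') :
    ∑ u : ZMod N → Bool, ∑ v : ZMod N → Bool, ∑ w : ZMod N → Bool,
      ind (u x) (v y) (w z) * ind (u x') (v y) (w z') * ind (u x) (v y') (w z') =
      (Fintype.card (ZMod N → Bool) : ℝ) ^ 3 * (13 / 32) := by
  set K : ℝ := (Fintype.card (ZMod N → Bool) : ℝ)
  have a1 : ∀ a a' b b' : Bool, ∑ w : ZMod N → Bool,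
      ind a b (w z) * ind a' b (w z') * ind a b' (w z') =
      K / 4 * ∑ c, ∑ c', ind a b c * ind a' b c' * ind a b' c' := by
    intro a a' b b'
    have := sum_pair (fun c c' => ind a b c * ind a' b c' * ind a b' c') z z' hz
    simp only [Fintype.card_bool] at this
    push_cast at this
    linarith
  have a2 : ∀ a a' : Bool, ∑ v : ZMod N → Bool,
      K / 4 * ∑ c, ∑ c', ind a (v y) c * ind a' (v y) c' * ind a (v y') c' =
      K / 4 * ∑ b, ∑ b', K / 4 * ∑ c, ∑ c', ind a b c * ind a' b c' * ind a b' c' := by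
    intro a a'
    have := sum_pair (fun b b' => K / 4 * ∑ c, ∑ c', ind a b c * ind a' b c' * ind a b' c') y y' hy
    simp only [Fintype.card_bool] at this
    push_cast at this
    linarith
  have a3 := sum_pair (fun a a' => K / 4 * ∑ b, ∑ b', K / 4 * ∑ c, ∑ c',
    ind a b c * ind a' b c' * ind a b' c') x x' hx
  simp only [a1, a2]
  simp only [Fintype.card_bool] at a3
  push_cast at a3
  have a4 : ∑ a : Bool, ∑ a' : Bool, K / 4 * ∑ b, ∑ b', K / 4 * ∑ c, ∑ c',
    ind a b c * ind a' b c' * ind a b' c' = K ^ 2 * (26 / 16) := by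
    simp [ind]; ring
  rw [a4] at a3
  linarith

lemma sum_cor : ∑ u : ZMod N → Bool, ∑ v : ZMod N → Bool, ∑ w : ZMod N → Bool, cor u v w ≤
    (Fintype.card (ZMod N → Bool) : ℝ) ^ 3 * (13 / 32 * (N : ℝ) ^ 3 + (N : ℝ) ^ 2) := by
  set K : ℝ := (Fintype.card (ZMod N → Bool) : ℝ) with hKdef
  have hK : 0 ≤ K := Nat.cast_nonneg _
  unfold cor
  have e : ∀ G : (ZMod N → Bool) → (ZMod N → Bool) → (ZMod N → Bool) →
      ZMod N × ZMod N × ZMod N → ℝ, ∑ u, ∑ v, ∑ w, ∑ t, G u v w t = ∑ t, ∑ u, ∑ v, ∑ w, G u v w t := by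
    intro G
    symm
    rw [sum_comm]
    refine sum_congr rfl fun u _ => ?_
    rw [sum_comm]
    refine sum_congr rfl fun v _ => ?_
    rw [sum_comm]
  rw [e]
  have hle : ∀ t : ZMod N × ZMod N × ZMod N, ∑ u : ZMod N → Bool, ∑ v : ZMod N → Bool,
      ∑ w : ZMod N → Bool, ind (u t.1) (v t.2.1) (w (t.1 + t.2.1)) *
      ind (u (t.1 + t.2.2)) (v t.2.1) (w (t.1 + t.2.1 + t.2.2)) *
      ind (u t.1) (v (t.2.1 + t.2.2)) (w (t.1 + t.2.1 + t.2.2)) ≤
      K ^ 3 * (13 / 32 + if t.2.2 = 0 then 1 else 0) := by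
    intro t
    by_cases h : t.2.2 = 0
    · calc _ ≤ ∑ _u : ZMod N → Bool, ∑ _v : ZMod N → Bool, ∑ _w : ZMod N → Bool, (1 : ℝ) := by
            refine sum_le_sum fun u _ => sum_le_sum fun v _ => sum_le_sum fun w _ => ?_
            exact mul_le_one₀ (mul_le_one₀ (ind_le _ _ _) (ind_nonneg _ _ _) (ind_le _ _ _))
              (ind_nonneg _ _ _) (ind_le _ _ _)
        _ = K ^ 3 := by
            simp only [sum_const, card_univ, nsmul_eq_mul, ← hKdef]; ring
        _ ≤ _ := by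
            rw [if_pos h]
            have : 0 ≤ K ^ 3 := by positivity
            linarith
    · rw [six _ _ _ _ _ _ (by simpa using h) (by simpa using h) (by simpa using h), if_neg h,
        add_zero]
  refine (sum_le_sum fun t _ => hle t).trans (le_of_eq ?_)
  rw [← mul_sum]
  congr 1
  simp only [sum_add_distrib, Fintype.sum_prod_type, sum_ite_eq', mem_univ, if_true, sum_const,
    card_univ, Fintype.card_prod, ZMod.card, nsmul_eq_mul]
  push_cast
  ring

lemma exists_good (L : ℝ) (hL : 0 ≤ L) : ∃ u v w : ZMod N → Bool,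
    cor u v w + L * (Q u + Q v + Q w) ≤ 13 / 32 * (N : ℝ) ^ 3 + (N : ℝ) ^ 2 + 9 * L * (N : ℝ) ^ 2 := by
  by_contra hcon
  push Not at hcon
  set K : ℝ := (Fintype.card (ZMod N → Bool) : ℝ) with hKdef
  have hK : 0 ≤ K := Nat.cast_nonneg _
  have h1 := sum_lt_sum_of_nonempty (univ_nonempty (α := ZMod N → Bool)) fun u _ =>
    sum_lt_sum_of_nonempty (univ_nonempty (α := ZMod N → Bool)) fun v _ =>
      sum_lt_sum_of_nonempty (univ_nonempty (α := ZMod N → Bool)) fun w _ => hcon u v w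
  have h2 := sum_cor (N := N)
  have h3 := sum_Q (N := N)
  simp only [sum_add_distrib, ← mul_sum, sum_const, card_univ, nsmul_eq_mul, ← hKdef] at h1 h2 h3
  have h4 : L * (K ^ 2 * ∑ u : ZMod N → Bool, Q u) ≤ L * (K ^ 2 * (K * (3 * (N : ℝ) ^ 2))) :=
    mul_le_mul_of_nonneg_left (mul_le_mul_of_nonneg_left h3 (sq_nonneg _)) hL
  nlinarith

end Pool.Agent.H14.Corners
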