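import Mathlib
set_option autoImplicit false
set_option maxHeartbeats 400000

namespace Pool.Agent.H14.Cr
open Polynomial Finset Filter Topology

lemma lag (n : ℕ) : ∀ P : ℝ[X], P.natDegree = n → (∀ z : ℂ, aeval z P = 0 → z.im = 0) →
    ∀ t, P.eval t * (derivative (derivative P)).eval t ≤ (derivative P).eval t ^ 2 := by
  induction n with
  | zero => intro P h _ t; rw [eq_C_of_natDegree_eq_zero h]; simp
  | succ n ih =>
    intro P h hz t
    obtain ⟨z, z0⟩ := IsAlgClosed.exists_aeval_eq_zero ℂ P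
      (natDegree_pos_iff_degree_pos.1 (by omega)).ne'
    have zr : z = algebraMap ℝ ℂ z.re := Complex.ext (by simp) (by simp [hz z z0])
    rw [zr, aeval_algebraMap_apply_eq_algebraMap_eval, map_eq_zero] at z0
    obtain ⟨Q, rfl⟩ := dvd_iff_isRoot.2 z0
    have q0 : Q ≠ 0 := by rintro rfl; simp at h
    rw [natDegree_mul (X_sub_C_ne_zero _) q0, natDegree_X_sub_C] at h
    have := ih Q (by omega) (fun w hw => hz w (by simp [hw])) t
    simp only [derivative_mul, derivative_add, derivative_sub, derivative_X, derivative_C,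
      derivative_one, derivative_zero, eval_add, eval_mul, eval_sub, eval_X, eval_C, eval_one,
      eval_zero, sub_zero]
    nlinarith [mul_le_mul_of_nonneg_left this (sq_nonneg (t - z.re)), sq_nonneg (Q.eval t)]

lemma dne (s : Finset ℝ) (r : ℝ) (h : r ∈ s) :
    (derivative (∏ x ∈ s, (X - C x))).eval r ≠ 0 := by
  rw [← mul_prod_erase s _ h]
  simp [eval_prod, prod_eq_zero_iff, sub_eq_zero]

lemma pert (s : Finset ℝ) (hs : ∀ r ∈ s, |r| < 1) (h0 : s.Nonempty) : ∀ᶠ c in 𝓝 (0 : ℝ),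
    ∀ z : ℂ, aeval z (∏ x ∈ s, (X - C x) + C c) = 0 → ∃ y : ℝ, |y| < 1 ∧ z = y := by
  obtain ⟨U, U1, U2⟩ := s.finite_toSet.t2_separation
  set F := ∏ x ∈ s, (X - C x) with hF
  have a : ∀ r ∈ s, ∀ᶠ c in 𝓝 (0 : ℝ), ∃ y, (y ∈ U r ∧ |y| < 1) ∧ F.eval y = -c := fun r hr => by
    have h := (F.hasStrictDerivAt r).map_nhds_eq (dne s r hr)
    have e : F.eval r = -0 := by simp [hF, eval_prod, prod_eq_zero_iff, sub_eq_zero, hr]
    have := image_mem_map (m := fun x => F.eval x) (inter_mem ((U1 r).2.mem_nhds (U1 r).1)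
      ((isOpen_lt continuous_abs continuous_const).mem_nhds (hs r hr)))
    rw [h, e] at this
    exact continuous_neg.continuousAt.eventually this
  filter_upwards [(eventually_all_finset s).2 a] with c hc z hz
  choose! g g1 g2 using hc
  have inj : Set.InjOn g s := fun x hx y hy e => by
    by_contra h
    exact Set.disjoint_left.1 (U2 hx hy h) (g1 x hx).1 (e ▸ (g1 y hy).1)
  have m : F.Monic := monic_prod_of_monic _ _ fun _ _ => monic_X_sub_C _
  have d : F.natDegree = #s := natDegree_finsetProd_X_sub_C_eq_card s id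
  have dl : (C c).degree < F.degree :=
    degree_C_le.trans_lt (natDegree_pos_iff_degree_pos.1 (d ▸ h0.card_pos))
  have hr : (F + C c).roots = (s.image g).val := roots_eq_of_degree_eq_card (fun x hx => by
      obtain ⟨y, hy, rfl⟩ := mem_image.1 hx
      simp [g2 y hy]) (by
      rw [card_image_of_injOn inj, degree_add_eq_left_of_degree_lt dl,
        degree_eq_natDegree m.ne_zero, d])
  rw [← prod_multiset_X_sub_C_of_monic_of_roots_card_eq (m.add_of_left dl) (by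
    rw [hr, card_val, card_image_of_injOn inj, natDegree_add_C, d]), hr, map_multiset_prod,
    Multiset.prod_eq_zero_iff] at hz
  simp only [Multiset.map_map, Multiset.mem_map, mem_val, mem_image] at hz
  obtain ⟨_, ⟨y, hy, rfl⟩, e⟩ := hz
  exact ⟨g y, (g1 y hy).2, by simpa [sub_eq_zero] using e⟩

lemma cheb (x : ℂ) (hx : x ≠ 0) (m : ℕ) :
    2 * x ^ m * aeval ((x + x⁻¹) / 2) (Chebyshev.T ℝ m) = x ^ (2 * m) + 1 := by
  induction m using Nat.twoStepInduction with
  | zero => simp; ring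
  | one => simp; field_simp
  | more n h1 h2 =>
    push_cast at h2 ⊢
    rw [Chebyshev.T_add_two]
    simp only [map_sub, map_mul, aeval_X, map_ofNat]
    have e : x * x⁻¹ = 1 := mul_inv_cancel₀ hx
    linear_combination (x ^ 2 + 1) * h2 - x ^ 2 * h1 +
      2 * x ^ (n + 1) * aeval ((x + x⁻¹) / 2) (Chebyshev.T ℝ (n + 1)) * e

lemma roots (m : ℕ) : ∃ (s : Finset ℝ) (c : ℝ), #s = m ∧ c ≠ 0 ∧ (∀ r ∈ s, |r| < 1) ∧
    Chebyshev.T ℝ m = C c * ∏ x ∈ s, (X - C x) := by
  have h := Chebyshev.roots_T_real m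
  set s := (Finset.range m).image fun k : ℕ => Real.cos ((2 * k + 1) * Real.pi / (2 * m))
  have hc : #s = m := by
    rw [card_image_of_injOn, card_range]
    exact (Finset.range m).nodup_map_iff_injOn.mp (Chebyshev.roots_T_real_nodup m)
  refine ⟨s, _, hc, leadingCoeff_ne_zero.2 (Chebyshev.T_ne_zero ℝ m), fun r hr => ?_, ?_⟩
  · have e : (Chebyshev.T ℝ m).eval r = 0 := (mem_roots'.1 (by rw [h]; exact hr)).2
    obtain ⟨k, -, rfl⟩ := mem_image.1 hr
    refine lt_of_le_of_ne (Real.abs_cos_le_one _) fun a => ?_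
    rcases (abs_eq zero_le_one).1 a with a | a <;> rw [a] at e
    · simp at e
    · rw [Chebyshev.T_eval_neg_one] at e
      simp at e
  · conv_lhs => rw [← C_leadingCoeff_mul_prod_multiset_X_sub_C (p := Chebyshev.T ℝ m) (by
      rw [h, card_val, hc, Chebyshev.natDegree_T]; simp), h]
    rfl

def Sy (n : ℕ) (f : ℂ[X]) : Prop := f.natDegree ≤ n ∧ reflect n f = f

lemma Sy.mul {a b : ℕ} {f g : ℂ[X]} (h : Sy a f) (k : Sy b g) : Sy (a + b) (f * g) :=
  ⟨natDegree_mul_le.trans (add_le_add h.1 k.1), by rw [reflect_mul _ _ h.1 k.1, h.2, k.2]⟩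

lemma Sy.co {n : ℕ} {f : ℂ[X]} (h : Sy n f) {j : ℕ} (hj : j ≤ n) : f.coeff j = f.coeff (n - j) := by
  conv_lhs => rw [← h.2, coeff_reflect, revAt_le hj]

lemma Sy.dg {n : ℕ} {f : ℂ[X]} (h : Sy n f) (h0 : f ≠ 0) :
    f.natTrailingDegree + f.natDegree = n := by
  have a := natTrailingDegree_le_of_ne_zero (p := f) (n := n - f.natDegree) (by
    rw [← h.co h.1]; exact leadingCoeff_ne_zero.2 h0)
  have c := (natTrailingDegree_le_natDegree f).trans h.1
  have b := le_natDegree_of_ne_zero (p := f) (n := n - f.natTrailingDegree) (by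
    rw [← h.co c]; exact trailingCoeff_nonzero_iff_nonzero.2 h0)
  have := h.1
  omega

noncomputable def q (Z : Finset ℝ) (c e : ℝ) : ℝ[X] :=
  C (-2 * c) * X ^ 1 * ∏ r ∈ Z, (C (1 / 2) * (X ^ 2 + 1) - C r * X ^ 1) + C e * X ^ (#Z + 1)

lemma qsy (Z : Finset ℝ) (c e : ℝ) : Sy (2 * (#Z + 1)) ((q Z c e).map (algebraMap ℝ ℂ)) := by
  have a : ∀ (k : ℕ) (b : ℂ), Sy (2 * k) (C b * X ^ k) := fun k b =>
    ⟨(natDegree_C_mul_X_pow_le _ _).trans (by omega), by
      rw [reflect_C_mul_X_pow, revAt_le (by omega)]; congr 2; omega⟩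
  have b : Sy (2 * #Z) (∏ r ∈ Z, (C (algebraMap ℝ ℂ (1 / 2)) * (X ^ 2 + 1) -
      C (algebraMap ℝ ℂ r) * X ^ 1)) := by
    induction Z using Finset.induction_on with
    | empty => exact ⟨by simp, by simp⟩
    | insert r Z h ih =>
      rw [prod_insert h, card_insert_of_notMem h, show 2 * (#Z + 1) = 2 + 2 * #Z by ring]
      refine Sy.mul ⟨by compute_degree, ?_⟩ ih
      rw [reflect_sub, reflect_C_mul, reflect_add, reflect_monomial, reflect_one,
        reflect_C_mul_X_pow, revAt_le le_rfl, revAt_le one_le_two]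
      simp [add_comm]
  have d := (a 1 (algebraMap ℝ ℂ (-2 * c))).mul b
  rw [show 2 * 1 + 2 * #Z = 2 * (#Z + 1) by ring] at d
  have f := a (#Z + 1) (algebraMap ℝ ℂ e)
  simp only [q, Polynomial.map_add, Polynomial.map_mul, Polynomial.map_pow, map_C, map_X,
    Polynomial.map_prod, Polynomial.map_sub, Polynomial.map_one]
  exact ⟨natDegree_add_le_of_degree_le d.1 f.1, by rw [reflect_add, d.2, f.2]⟩

lemma q0 (Z : Finset ℝ) (c e : ℝ) : (q Z c e).coeff 0 = 0 := by
  simp [q, coeff_zero_eq_eval_zero]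

lemma q1 (Z : Finset ℝ) (c e : ℝ) (hc : c ≠ 0) (h : #Z ≠ 0) : (q Z c e).coeff 1 ≠ 0 := by
  rw [q, coeff_add, coeff_C_mul_X_pow, if_neg (by omega), mul_assoc, coeff_C_mul, pow_one,
    coeff_X_mul, coeff_zero_eq_eval_zero]
  simp [eval_prod, hc]

lemma qev (Z : Finset ℝ) (c e a α : ℝ) (ha : a ∉ Z) (hc : c ≠ 0) (hα : α ≠ 0)
    (hT : Chebyshev.T ℝ (#Z + 1 : ℕ) = C c * ∏ x ∈ insert a Z, (X - C x)) (x : ℂ) (hx : x ≠ 0) :
    α * (x ^ (2 * (#Z + 1)) + 1) + aeval x (q Z c e) = 0 ↔ aeval ((x + x⁻¹) / 2)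
      ((X - C (a + α⁻¹)) * ∏ r ∈ Z, (X - C r) + C (e / (2 * c * α))) = 0 := by
  have p : ∏ r ∈ Z, ((algebraMap ℝ ℂ) (1 / 2) * (x ^ 2 + 1) - algebraMap ℝ ℂ r * x ^ 1) =
      x ^ #Z * ∏ r ∈ Z, ((x + x⁻¹) / 2 - algebraMap ℝ ℂ r) := by
    rw [← prod_const, ← prod_mul_distrib]
    refine prod_congr rfl fun r _ => ?_
    simp; field_simp
  rw [← cheb x hx, hT, prod_insert ha]
  simp only [q, map_add, map_mul, map_sub, map_prod, map_pow, aeval_X, aeval_C, map_one, p]
  generalize ∏ r ∈ Z, ((x + x⁻¹) / 2 - algebraMap ℝ ℂ r) = w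
  generalize (x + x⁻¹) / 2 = y
  have c' : (c : ℂ) ≠ 0 := by exact_mod_cast hc
  have α' : (α : ℂ) ≠ 0 := by exact_mod_cast hα
  have : (2 * x ^ (#Z + 1) * c * α : ℂ) ≠ 0 := by simp [hx, hc, hα]
  rw [← mul_eq_zero_iff_left this (b := (_ - _) * w + _)]
  refine Eq.congr_left ?_
  simp; field_simp; ring

lemma circ (x : ℂ) (hx : x ≠ 0) (y : ℝ) (hy : |y| < 1) (h : (x + x⁻¹) / 2 = y) : ‖x‖ = 1 := by
  have e : x ^ 2 - 2 * y * x + 1 = 0 := by rw [← h]; field_simp; ring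
  have a := congrArg Complex.re e
  have b := congrArg Complex.im e
  simp [sq] at a b
  have := (sq_lt_one_iff_abs_lt_one y).2 hy
  rw [← sq_eq_sq₀ (norm_nonneg _) zero_le_one, Complex.sq_norm, Complex.normSq_apply]
  by_cases h0 : x.im = 0
  · rw [h0] at a; nlinarith [sq_nonneg (x.re - y)]
  · have : x.re = y := mul_right_cancel₀ h0 (by linarith)
    rw [← this] at a; linarith

lemma unc (z : ℂ) : ∃ x : ℂ, x ≠ 0 ∧ (x + x⁻¹) / 2 = z ∧ (‖x‖ = 1 → z.im = 0) := by
  obtain ⟨w, hw⟩ := IsAlgClosed.exists_eq_mul_self (z ^ 2 - 1)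
  have e : (z + w) * (z - w) = 1 := by linear_combination hw
  have i : ((z + w) + (z + w)⁻¹) / 2 = z := by rw [← eq_inv_of_mul_eq_one_right e]; ring
  refine ⟨z + w, left_ne_zero_of_mul_eq_one e, i, fun h => ?_⟩
  rw [← i, Complex.inv_eq_conj h, Complex.add_conj]
  simp

end Pool.Agent.H14.Cr
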