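import Pool.Agent.H14.HamUtil

set_option autoImplicit false

namespace Pool.Agent.H14.Deck

open SimpleGraph Pool.Agent.H14.HamUtil Sum

abbrev A (m : ℕ) := alternatingGroup (Fin (m + 1))
abbrev B := Fin 3 × Fin 4
abbrev V (m l : ℕ) := (Fin (m + 1) × Fin (l + 3)) ⊕ (A m × Fin (m + 1) × B)

def In0 (x y : B) : Prop :=
  (x.2 = y.2 ∧ x.1.val + 1 = y.1.val) ∨ (x.1 = y.1 ∧ x.1 ≠ 1 ∧ x.2.val + 1 = y.2.val)

instance (x y : B) : Decidable (In0 x y) := by unfold In0; infer_instance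

def R {m l : ℕ} (σ : Equiv.Perm (Fin (m + 1))) : V m l → V m l → Prop
  | inl p, inl p' => p.1 = p'.1 ∧ p.2.val + 1 = p'.2.val
  | inl p, inr b => (p.2 = 0 ∧ p.1 ≠ 0 ∧ b.2.1 = p.1 ∧ b.2.2 = (0, 0)) ∨
      (p.2 = 0 ∧ p.1 = 0 ∧ b.2.1 = 0 ∧ b.2.2 = (2, 0)) ∨
      (p.2 = Fin.last _ ∧ p.1 = σ (b.1.1 b.2.1) ∧ b.2.2 = (0, 3))
  | inr _, inl _ => False
  | inr b, inr b' => (b.1 = b'.1 ∧ b.2.1 = b'.2.1 ∧ In0 b.2.2 b'.2.2) ∨
      (b.2.2 = (2, 3) ∧ b.1 = b'.1 ∧ b.2.1.val + 1 = b'.2.1.val ∧ b'.2.2 = (2, 0)) ∨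
      (b.2.2 = (2, 3) ∧ b.2.1 = Fin.last _ ∧ b'.2.1 = 0 ∧ (b'.2.2 = (2, 0) ∨ b'.2.2 = (0, 0)))

def G {m l : ℕ} (σ : Equiv.Perm (Fin (m + 1))) : SimpleGraph (V m l) := fromRel (R σ)

/-- external neighbours of a corner -/
def Ext {m l : ℕ} (σ : Equiv.Perm (Fin (m + 1))) (ρ : A m) (j : Fin (m + 1)) (x : B)
    (w : V m l) : Prop :=
  (x = (0, 0) ∧ (j = 0 ∨ w = inl (j, 0))) ∨
  (x = (0, 3) ∧ w = inl (σ (ρ.1 j), Fin.last _)) ∨
  (x = (2, 0) ∧ (j = 0 ∨ ∃ j' : Fin (m + 1), j'.val + 1 = j.val ∧ w = inr (ρ, j', (2, 3)))) ∨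
  (x = (2, 3) ∧ (j = Fin.last _ ∨ ∃ j' : Fin (m + 1), j.val + 1 = j'.val ∧ w = inr (ρ, j', (2, 0))))

variable {m l : ℕ} {σ : Equiv.Perm (Fin (m + 1))}

lemma nbr_block {ρ : A m} {j : Fin (m + 1)} {x : B} {w : V m l}
    (h : (G σ).Adj (inr (ρ, j, x)) w) :
    (∃ y, (In0 x y ∨ In0 y x) ∧ w = inr (ρ, j, y)) ∨ Ext σ ρ j x w := by
  rcases w with ⟨k, q⟩ | ⟨ρ', j', y⟩
  · simp only [G, fromRel_adj, R, false_or] at h
    right
    rcases h.2 with ⟨h1, h2, h3, h4⟩ | ⟨h1, h2, h3, h4⟩ | ⟨h1, h2, h3⟩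
    · subst h1 h3; exact Or.inl ⟨h4, Or.inr rfl⟩
    · exact Or.inr (Or.inr (Or.inl ⟨h4, Or.inl h3⟩))
    · subst h1 h2; exact Or.inr (Or.inl ⟨h3, rfl⟩)
  · simp only [G, fromRel_adj, R] at h
    rcases h.2 with (⟨h1, h2, h3⟩ | ⟨h1, h2, h3, h4⟩ | ⟨h1, h2, h3, h4⟩) |
      (⟨h1, h2, h3⟩ | ⟨h1, h2, h3, h4⟩ | ⟨h1, h2, h3, h4 | h4⟩)
    · subst h1 h2; exact Or.inl ⟨y, Or.inl h3, rfl⟩
    · subst h2 h4; exact Or.inr (Or.inr (Or.inr (Or.inr ⟨h1, Or.inr ⟨j', h3, rfl⟩⟩)))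
    · exact Or.inr (Or.inr (Or.inr (Or.inr ⟨h1, Or.inl h2⟩)))
    · subst h1 h2; exact Or.inl ⟨y, Or.inr h3, rfl⟩
    · subst h1 h2; exact Or.inr (Or.inr (Or.inr (Or.inl ⟨h4, Or.inr ⟨j', h3, rfl⟩⟩)))
    · exact Or.inr (Or.inr (Or.inr (Or.inl ⟨h4, Or.inl h3⟩)))
    · exact Or.inr (Or.inl ⟨h4, Or.inl h3⟩)

lemma nbr_ear {k : Fin (m + 1)} {q : Fin (l + 3)} {w : V m l}
    (h : (G σ).Adj (inl (k, q)) w) :
    (∃ q' : Fin (l + 3), (q.val + 1 = q'.val ∨ q'.val + 1 = q.val) ∧ w = inl (k, q')) ∨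
      (q = 0 ∧ (k = 0 ∨ ∃ ρ, w = inr (ρ, k, (0, 0)))) ∨ q = Fin.last _ := by
  rcases w with ⟨k', q'⟩ | ⟨ρ', j', y⟩
  · simp only [G, fromRel_adj, R] at h
    left
    rcases h.2 with ⟨h1, h2⟩ | ⟨h1, h2⟩
    · subst h1; exact ⟨q', Or.inl h2, rfl⟩
    · subst h1; exact ⟨q', Or.inr h2, rfl⟩
  · simp only [G, fromRel_adj, R, or_false] at h
    right
    rcases h.2 with ⟨h1, h2, h3, h4⟩ | ⟨h1, h2, h3, h4⟩ | ⟨h1, h2, h3⟩
    · subst h3 h4; exact Or.inl ⟨h1, Or.inr ⟨ρ', rfl⟩⟩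
    · exact Or.inl ⟨h1, Or.inl h2⟩
    · exact Or.inr h1

lemma nbr3 {ρ : A m} {j : Fin (m + 1)} (x a b c : B)
    (hx : x ≠ (0, 0) ∧ x ≠ (0, 3) ∧ x ≠ (2, 0) ∧ x ≠ (2, 3))
    (hy : ∀ y, In0 x y ∨ In0 y x → y = a ∨ y = b ∨ y = c) (w : V m l)
    (h : (G σ).Adj (inr (ρ, j, x)) w) :
    w = inr (ρ, j, a) ∨ w = inr (ρ, j, b) ∨ w = inr (ρ, j, c) := by
  rcases nbr_block h with ⟨y, h1, rfl⟩ | h1
  · rcases hy y h1 with rfl | rfl | rfl <;> simp
  · unfold Ext at h1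
    tauto

section
variable {E : V m l → V m l → Prop} (h : HC (G σ) E) (ρ : A m) (j : Fin (m + 1))
include h

lemma rung (r : Fin 3) (hr : r ≠ 1) (c : Fin 4) : E (inr (ρ, j, (r, c))) (inr (ρ, j, (1, c))) := by
  apply h.symm
  refine h.deg2 (b := inr (ρ, j, (2 - r, c))) fun w hw => ?_
  have := nbr3 (1, c) (r, c) (2 - r, c) (2 - r, c) (by clear hw; revert c; decide)
    (by clear hw; revert r c; decide) w hw
  tauto

lemma rowB (r : Fin 3) (hr : r ≠ 1) (hn : ¬ E (inr (ρ, j, (r, 1))) (inr (ρ, j, (r, 2)))) :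
    E (inr (ρ, j, (r, 1))) (inr (ρ, j, (r, 0))) ∧ E (inr (ρ, j, (r, 2))) (inr (ρ, j, (r, 3))) := by
  constructor
  · exact h.deg3 (nbr3 (r, 1) (1, 1) (r, 2) (r, 0) (by clear hn; revert r; decide) (by clear hn; revert r; decide)) hn
  · exact h.deg3 (nbr3 (r, 2) (1, 2) (r, 1) (r, 3) (by clear hn; revert r; decide) (by clear hn; revert r; decide))
      fun h' => hn (h.symm _ _ h')

lemma rowB' (r : Fin 3) (hr : r ≠ 1) (hn : ¬ E (inr (ρ, j, (r, 1))) (inr (ρ, j, (r, 2))))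
    (c : Fin 4) (hc : c = 0 ∨ c = 3) (w : V m l) (hw : E (inr (ρ, j, (r, c))) w) :
    ∃ y, w = inr (ρ, j, y) := by
  obtain ⟨h1, h2⟩ := rowB h ρ j r hr hn
  rcases hc with rfl | rfl
  · rcases h.three (rung h ρ j r hr 0) (h.symm _ _ h1) (by simp) hw with rfl | rfl
    · exact ⟨_, rfl⟩
    · exact ⟨_, rfl⟩
  · rcases h.three (rung h ρ j r hr 3) (h.symm _ _ h2) (by simp) hw with rfl | rfl
    · exact ⟨_, rfl⟩
    · exact ⟨_, rfl⟩

lemma rowA (r : Fin 3) (hr : r ≠ 1) (hn : E (inr (ρ, j, (r, 1))) (inr (ρ, j, (r, 2))))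
    (c : Fin 4) (hc : c = 0 ∨ c = 3) : ∃ w, E (inr (ρ, j, (r, c))) w ∧ Ext σ ρ j (r, c) w := by
  obtain ⟨w, hw1, hw2⟩ := h.other (inr (ρ, j, (r, c))) (inr (ρ, j, (1, c)))
  refine ⟨w, hw2, ?_⟩
  rcases nbr_block (h.adj _ _ hw2) with ⟨y, h1, rfl⟩ | h1
  · exfalso
    rcases hc with rfl | rfl
    · have : y = (1, 0) ∨ y = (r, 1) := by clear hw1 hw2 hn; revert r y; decide
      rcases this with rfl | rfl
      · exact hw1 rfl
      · have := h.three (rung h ρ j r hr 1) hn (by simp) (h.symm _ _ hw2)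
        simp at this
    · have : y = (1, 3) ∨ y = (r, 2) := by clear hw1 hw2 hn; revert r y; decide
      rcases this with rfl | rfl
      · exact hw1 rfl
      · have := h.three (rung h ρ j r hr 2) (h.symm _ _ hn) (by simp) (h.symm _ _ hw2)
        simp at this
  · exact h1

lemma no_hex (c c' : Fin 4) (d : Fin 4) (hd : d ≠ c ∧ d ≠ c')
    (h0 : E (inr (ρ, j, (0, c))) (inr (ρ, j, (0, c'))))
    (h2 : E (inr (ρ, j, (2, c))) (inr (ρ, j, (2, c')))) : False := by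
  have := h.closed {v | ∃ r, v = inr (ρ, j, (r, c)) ∨ v = inr (ρ, j, (r, c'))} (by
    rintro u ⟨r, hu⟩ v huv
    have a0 := rung h ρ j 0 (by decide)
    have a2 := rung h ρ j 2 (by decide)
    fin_cases r <;> rcases hu with rfl | rfl
    · rcases h.three (a0 c) h0 (by simp) huv with rfl | rfl
      · exact ⟨_, Or.inl rfl⟩
      · exact ⟨_, Or.inr rfl⟩
    · rcases h.three (a0 c') (h.symm _ _ h0) (by simp) huv with rfl | rfl
      · exact ⟨_, Or.inr rfl⟩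
      · exact ⟨_, Or.inl rfl⟩
    · rcases h.three (h.symm _ _ (a0 c)) (h.symm _ _ (a2 c)) (by simp) huv with rfl | rfl
      · exact ⟨_, Or.inl rfl⟩
      · exact ⟨_, Or.inl rfl⟩
    · rcases h.three (h.symm _ _ (a0 c')) (h.symm _ _ (a2 c')) (by simp) huv with rfl | rfl
      · exact ⟨_, Or.inr rfl⟩
      · exact ⟨_, Or.inr rfl⟩
    · rcases h.three (a2 c) h2 (by simp) huv with rfl | rfl
      · exact ⟨_, Or.inl rfl⟩
      · exact ⟨_, Or.inr rfl⟩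
    · rcases h.three (a2 c') (h.symm _ _ h2) (by simp) huv with rfl | rfl
      · exact ⟨_, Or.inr rfl⟩
      · exact ⟨_, Or.inl rfl⟩) (inr (ρ, j, (0, c))) ⟨0, Or.inl rfl⟩ (inr (ρ, j, (0, d)))
  obtain ⟨r, hr | hr⟩ := this
  · simp only [inr.injEq, Prod.mk.injEq, true_and] at hr
    exact hd.1 hr.2
  · simp only [inr.injEq, Prod.mk.injEq, true_and] at hr
    exact hd.2 hr.2

lemma xor_rows : E (inr (ρ, j, (0, 1))) (inr (ρ, j, (0, 2))) ↔
    ¬ E (inr (ρ, j, (2, 1))) (inr (ρ, j, (2, 2))) := by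
  constructor
  · intro h0 h2
    exact no_hex h ρ j 1 2 0 (by decide) h0 h2
  · intro h2
    by_contra h0
    exact no_hex h ρ j 1 0 2 (by decide) (rowB h ρ j 0 (by decide) h0).1
      (rowB h ρ j 2 (by decide) h2).1

lemma step (j' : Fin (m + 1)) (hj : j.val + 1 = j'.val) :
    E (inr (ρ, j, (2, 1))) (inr (ρ, j, (2, 2))) ↔ E (inr (ρ, j', (2, 1))) (inr (ρ, j', (2, 2))) := by
  have hne : j ≠ j' := by rintro rfl; omega
  constructor
  · intro h1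
    by_contra h2
    obtain ⟨w, hw, hE⟩ := rowA h ρ j 2 (by decide) h1 3 (Or.inr rfl)
    have : w = inr (ρ, j', (2, 0)) := by
      rcases hE with ⟨h3, _⟩ | ⟨h3, _⟩ | ⟨h3, _⟩ | ⟨_, h3 | ⟨j'', h3, rfl⟩⟩
      · exact absurd h3 (by decide)
      · exact absurd h3 (by decide)
      · exact absurd h3 (by decide)
      · have := j'.2
        rw [h3, Fin.val_last] at hj
        omega
      · rw [show j'' = j' from Fin.ext (by omega)]
    subst this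
    obtain ⟨y, hy⟩ := rowB' h ρ j' 2 (by decide) h2 0 (Or.inl rfl) _ (h.symm _ _ hw)
    simp only [inr.injEq, Prod.mk.injEq, true_and] at hy
    exact hne hy.1
  · intro h1
    by_contra h2
    obtain ⟨w, hw, hE⟩ := rowA h ρ j' 2 (by decide) h1 0 (Or.inl rfl)
    have : w = inr (ρ, j, (2, 3)) := by
      rcases hE with ⟨h3, _⟩ | ⟨h3, _⟩ | ⟨_, h3 | ⟨j'', h3, rfl⟩⟩ | ⟨h3, _⟩
      · exact absurd h3 (by decide)
      · exact absurd h3 (by decide)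
      · rw [h3, Fin.val_zero] at hj
        omega
      · rw [show j'' = j from Fin.ext (by omega)]
      · exact absurd h3 (by decide)
    subst this
    obtain ⟨y, hy⟩ := rowB' h ρ j 2 (by decide) h2 3 (Or.inr rfl) _ (h.symm _ _ hw)
    simp only [inr.injEq, Prod.mk.injEq, true_and] at hy
    exact hne hy.1.symm

lemma all_same : E (inr (ρ, j, (2, 1))) (inr (ρ, j, (2, 2))) ↔
    E (inr (ρ, 0, (2, 1))) (inr (ρ, 0, (2, 2))) := by
  induction j using Fin.induction with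
  | zero => rfl
  | succ j ih => rw [← ih]; exact (step h ρ j.castSucc j.succ (by simp)).symm

omit ρ in
lemma ear_start : E (inl (j, 0)) (inl (j, 1)) := by
  apply h.symm
  refine h.deg2 (b := inl (j, ⟨2, by omega⟩)) fun w hw => ?_
  rcases nbr_ear hw with ⟨q', h1 | h1, rfl⟩ | ⟨h1, _⟩ | h1
  · right; congr 2; exact Fin.ext (by simp at h1 ⊢; omega)
  · left; congr 2; exact Fin.ext (by simp at h1 ⊢; omega)
  · simp at h1
  · have := congrArg Fin.val h1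
    simp at this

omit ρ in
lemma ear_end : E (inl (j, Fin.last _)) (inl (j, ⟨l + 1, by omega⟩)) := by
  apply h.symm
  refine h.deg2 (b := inl (j, ⟨l, by omega⟩)) fun w hw => ?_
  rcases nbr_ear hw with ⟨q', h1 | h1, rfl⟩ | ⟨h1, _⟩ | h1
  · left; congr 2; exact Fin.ext (by simp at h1 ⊢; omega)
  · right; congr 2; exact Fin.ext (by simp at h1 ⊢; omega)
  · have := congrArg Fin.val h1
    simp at this
  · have := congrArg Fin.val h1
    simp at this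

end

lemma exists_inv (π : Equiv.Perm (Fin (m + 1))) (hm : Even m) (hm0 : 0 < m)
    (hπ : Equiv.Perm.sign π = -1) :
    ∃ O : Set (Fin (m + 1)), O.Nonempty ∧ 0 ∉ O ∧ ∀ k, π k ∈ O ↔ k ∈ O := by
  refine ⟨{k | ¬ π.SameCycle 0 k}, ?_, by simp [Equiv.Perm.SameCycle.refl], fun k => by simp⟩
  by_contra hcon
  have hall : ∀ k, π.SameCycle 0 k := by
    intro k
    by_contra hk
    exact hcon ⟨k, hk⟩
  have h0 : π 0 ≠ 0 := by
    intro h0
    have := (hall (Fin.last m)).eq_of_left h0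
    have := congrArg Fin.val this
    simp at this
    omega
  have hc : π.IsCycle := ⟨0, h0, fun y _ => hall y⟩
  have hs : π.support = Finset.univ := by
    refine Finset.eq_univ_of_forall fun k => Equiv.Perm.mem_support.2 fun hk => h0 ?_
    exact (hall k).apply_eq_self_iff.2 hk
  have := hc.sign
  rw [hs, hπ, Finset.card_univ, Fintype.card_fin, pow_succ, hm.neg_one_pow] at this
  simp at this

theorem not_ham (hm : Even m) (hm0 : 0 < m) (hσ : Equiv.Perm.sign σ = -1)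
    {E : V m l → V m l → Prop} (h : HC (G σ) E) : False := by
  have hl0 : (Fin.last m) ≠ 0 := by
    intro e
    have := congrArg Fin.val e
    simp at this
    omega
  obtain ⟨w, hw1, hw2⟩ := h.other (inl (Fin.last m, 0)) (inl (Fin.last m, 1))
  obtain ⟨ρ, rfl⟩ : ∃ ρ, w = inr (ρ, Fin.last m, (0, 0)) := by
    rcases nbr_ear (h.adj _ _ hw2) with ⟨q', h1 | h1, rfl⟩ | ⟨_, h1 | h1⟩ | h1
    · exact absurd (by congr 2; exact Fin.ext (by simp at h1 ⊢; omega)) hw1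
    · simp at h1
    · exact absurd h1 hl0
    · exact h1
    · have := congrArg Fin.val h1
      simp at this
  have hlink : ∀ j, ¬ E (inr (ρ, j, (2, 1))) (inr (ρ, j, (2, 2))) := by
    intro j hj
    have h1 := (all_same h ρ (Fin.last m)).2 ((all_same h ρ j).1 hj)
    have h2 : ¬ E (inr (ρ, Fin.last m, (0, 1))) (inr (ρ, Fin.last m, (0, 2))) :=
      fun h3 => (xor_rows h ρ _).1 h3 h1
    obtain ⟨y, hy⟩ := rowB' h ρ _ 0 (by decide) h2 0 (Or.inl rfl) _ (h.symm _ _ hw2)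
    simp at hy
  obtain ⟨O, ⟨k0, hk0⟩, hO0, hO⟩ := exists_inv (σ * ρ.1) hm hm0 (by
    rw [Equiv.Perm.sign_mul, hσ, Equiv.Perm.mem_alternatingGroup.1 ρ.2]; simp)
  have := h.closed {v | (∃ k ∈ O, ∃ q, v = inl (k, q)) ∨ ∃ k ∈ O, ∃ x, v = inr (ρ, k, x)} (by
    rintro u (⟨k, hk, q, rfl⟩ | ⟨k, hk, x, rfl⟩) v huv
    · have hk0 : k ≠ 0 := by rintro rfl; exact hO0 hk
      rcases nbr_ear (h.adj _ _ huv) with ⟨q', _, rfl⟩ | ⟨rfl, _⟩ | rfl
      · exact Or.inl ⟨k, hk, q', rfl⟩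
      · obtain ⟨w, hw, hE⟩ := rowA h ρ k 0 (by decide) ((xor_rows h ρ k).2 (hlink k)) 0 (Or.inl rfl)
        have : w = inl (k, 0) := by
          rcases hE with ⟨_, h3 | h3⟩ | ⟨h3, _⟩ | ⟨h3, _⟩ | ⟨h3, _⟩
          · exact absurd h3 hk0
          · exact h3
          · exact absurd h3 (by decide)
          · exact absurd h3 (by decide)
          · exact absurd h3 (by decide)
        subst this
        rcases h.three (ear_start h k) (h.symm _ _ hw) (by simp) huv with rfl | rfl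
        · exact Or.inl ⟨k, hk, _, rfl⟩
        · exact Or.inr ⟨k, hk, _, rfl⟩
      · obtain ⟨j, rfl⟩ := (σ * ρ.1).surjective k
        obtain ⟨w, hw, hE⟩ := rowA h ρ j 0 (by decide) ((xor_rows h ρ j).2 (hlink j)) 3 (Or.inr rfl)
        have : w = inl ((σ * ρ.1) j, Fin.last _) := by
          rcases hE with ⟨h3, _⟩ | ⟨_, h3⟩ | ⟨h3, _⟩ | ⟨h3, _⟩
          · exact absurd h3 (by decide)
          · exact h3
          · exact absurd h3 (by decide)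
          · exact absurd h3 (by decide)
        subst this
        rcases h.three (ear_end h _) (h.symm _ _ hw) (by simp) huv with rfl | rfl
        · exact Or.inl ⟨_, hk, _, rfl⟩
        · exact Or.inr ⟨j, (hO j).1 hk, _, rfl⟩
    · have hk0 : k ≠ 0 := by rintro rfl; exact hO0 hk
      rcases nbr_block (h.adj _ _ huv) with ⟨y, _, rfl⟩ | ⟨_, h3 | rfl⟩ | ⟨_, rfl⟩ | ⟨rfl, _⟩ |
        ⟨rfl, _⟩
      · exact Or.inr ⟨k, hk, y, rfl⟩
      · exact absurd h3 hk0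
      · exact Or.inl ⟨k, hk, _, rfl⟩
      · exact Or.inl ⟨_, (hO k).2 hk, _, rfl⟩
      · obtain ⟨y, rfl⟩ := rowB' h ρ k 2 (by decide) (hlink k) 0 (Or.inl rfl) _ huv
        exact Or.inr ⟨k, hk, y, rfl⟩
      · obtain ⟨y, rfl⟩ := rowB' h ρ k 2 (by decide) (hlink k) 3 (Or.inr rfl) _ huv
        exact Or.inr ⟨k, hk, y, rfl⟩) (inl (k0, 0)) (Or.inl ⟨k0, hk0, 0, rfl⟩) (inl (0, 0))
  rcases this with ⟨k, hk, q, e⟩ | ⟨k, hk, x, e⟩
  · simp only [inl.injEq, Prod.mk.injEq] at e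
    exact hO0 (e.1 ▸ hk)
  · simp at e

end Pool.Agent.H14.Deck
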