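import Pool.Agent.H14.Deck1

set_option autoImplicit false

namespace Pool.Agent.H14.Deck

open SimpleGraph Pool.Agent.H14.HamUtil Sum

def sT : B → B := fun x =>
  ![![(1, 0), (0, 2), (1, 2), (0, 0)], ![(2, 0), (0, 1), (2, 2), (0, 3)],
    ![(2, 1), (1, 1), (2, 3), (1, 3)]] x.1 x.2

def rT : B → ℕ := fun x => ![![0, 5, 6, 11], ![1, 4, 7, 10], ![2, 3, 8, 9]] x.1 x.2

def sB : B → B := fun x =>
  ![![(0, 1), (1, 1), (0, 3), (1, 3)], ![(0, 0), (2, 1), (0, 2), (2, 3)],
    ![(1, 0), (2, 2), (1, 2), (2, 0)]] x.1 x.2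

def rB : B → ℕ := fun x => ![![2, 3, 8, 9], ![1, 4, 7, 10], ![0, 5, 6, 11]] x.1 x.2

variable {m l N : ℕ}

open Classical in
noncomputable def nxt (ρ0 : A m) (g : Fin (N + 1) ≃ A m) : V m l → V m l
  | inl p => if p.2 = 0 then (if p.1 = 0 then inr (g 0, 0, (2, 0)) else inr (ρ0, p.1, (0, 0)))
      else inl (p.1, ⟨p.2.val - 1, by omega⟩)
  | inr b => if b.1 = ρ0 then
        (if b.2.2 = (0, 3) then inl (ρ0.1 b.2.1, Fin.last _) else inr (b.1, b.2.1, sT b.2.2))
      else (if b.2.2 = (2, 3) then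
        (if b.2.1 = Fin.last _ then
          (if g (g.symm b.1 + 1) = ρ0 then inr (ρ0, 0, (0, 0))
            else inr (g (g.symm b.1 + 1), 0, (2, 0)))
          else inr (b.1, b.2.1 + 1, (2, 0)))
        else inr (b.1, b.2.1, sB b.2.2))

lemma adj_in (ρ : A m) (j : Fin (m + 1)) (x y : B) (h : (In0 x y ∨ In0 y x) ∧ x ≠ y) :
    (G (l := l) 1).Adj (inr (ρ, j, x)) (inr (ρ, j, y)) := by
  simp only [G, fromRel_adj, R]
  refine ⟨by simpa using h.2, ?_⟩
  rcases h.1 with h | h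
  · exact Or.inl (Or.inl ⟨trivial, trivial, h⟩)
  · exact Or.inr (Or.inl ⟨trivial, trivial, h⟩)

lemma nxt_adj (ρ0 : A m) (g : Fin (N + 1) ≃ A m) (v : V m l) : (G 1).Adj v (nxt ρ0 g v) := by
  rcases v with ⟨k, q⟩ | ⟨ρ, j, x⟩
  · simp only [nxt]
    split_ifs with h1 h2
    · simp [G, fromRel_adj, R, h1, h2]
    · simp [G, fromRel_adj, R, h1, h2]
    · have : q.val ≠ 0 := fun e => h1 (Fin.ext e)
      simp only [G, fromRel_adj, R, ne_eq, inl.injEq, Prod.mk.injEq, true_and, Fin.ext_iff]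
      omega
  · simp only [nxt]
    split_ifs with h1 h2 h3 h4 h5
    · simp [G, fromRel_adj, R, h1, h2]
    · exact adj_in _ _ _ _ (by revert x; decide)
    · simp [G, fromRel_adj, R, h3, h4]
    · simp [G, fromRel_adj, R, h3, h4]
    · have : (j + 1).val = j.val + 1 := Fin.val_add_one_of_lt (Fin.lt_last_iff_ne_last.2 h4)
      simp [G, fromRel_adj, R, h3, this]
    · exact adj_in _ _ _ _ (by revert x; decide)

abbrev Rch {W : Type} (f : W → W) : W → W → Prop := Relation.ReflTransGen fun a b => f a = b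

lemma rch_iter {W : Type} {f : W → W} {u v : W} (h : Rch f u v) : ∃ i, f^[i] u = v := by
  induction h with
  | refl => exact ⟨0, rfl⟩
  | tail _ h ih =>
    obtain ⟨i, hi⟩ := ih
    exact ⟨i + 1, by rw [Function.iterate_succ_apply', hi, h]⟩

lemma rch_block {W : Type} {f : W → W} (ι : B → W) (s : B → B) (r : B → ℕ) (a z : B)
    (hs : ∀ x, x ≠ z → f (ι x) = ι (s x))
    (hr : ∀ x, x ≠ a → ∃ y, y ≠ z ∧ s y = x ∧ r y < r x) (x : B) : Rch f (ι a) (ι x) := by
  induction hk : r x using Nat.strong_induction_on generalizing x with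
  | _ k ih =>
    by_cases hx : x = a
    · subst hx; exact Relation.ReflTransGen.refl
    · obtain ⟨y, h1, h2, h3⟩ := hr x hx
      exact (ih (r y) (hk ▸ h3) y rfl).tail (by rw [hs y h1, h2])

theorem is_ham (hm : Even m) (hm0 : 0 < m) :
    ∃ (o : V m l) (p : (G (l := l) (1 : Equiv.Perm (Fin (m + 1)))).Walk o o),
      p.IsHamiltonianCycle := by
  classical
  let ρ0 : A m := ⟨finRotate (m + 1), by
    rw [Equiv.Perm.mem_alternatingGroup, sign_finRotate, Nat.add_sub_cancel, hm.neg_one_pow]⟩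
  have hρ : ∀ j : Fin m, ρ0.1 j.castSucc = j.succ := by
    intro j
    simp [ρ0]
  have hne : ρ0 ≠ 1 := by
    intro e
    have := hρ ⟨0, hm0⟩
    rw [e] at this
    have := congrArg Fin.val this
    simp at this
  have : Nontrivial (A m) := ⟨ρ0, 1, hne⟩
  obtain ⟨N, hN⟩ : ∃ N, Fintype.card (A m) = N + 1 + 1 :=
    ⟨Fintype.card (A m) - 2, by have := Fintype.one_lt_card (α := A m); omega⟩
  let e := Fintype.equivFinOfCardEq hN
  let g : Fin (N + 1 + 1) ≃ A m := (Equiv.swap (Fin.last _) (e ρ0)).trans e.symm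
  have hg : g (Fin.last _) = ρ0 := by simp [g]
  have hg' : ∀ i, g i = ρ0 ↔ i = Fin.last _ := by
    intro i; rw [← hg, g.injective.eq_iff]
  let f : V m l → V m l := nxt ρ0 g
  have a0 : ∀ ρ, ρ ≠ ρ0 → ∀ j x, Rch f (inr (ρ, j, (2, 0))) (inr (ρ, j, x)) := by
    intro ρ hρ j x
    exact rch_block (fun x => inr (ρ, j, x)) sB rB (2, 0) (2, 3)
      (fun x hx => by simp [f, nxt, hρ, hx]) (by decide) x
  have a1 : ∀ ρ, ρ ≠ ρ0 → ∀ j, Rch f (inr (ρ, 0, (2, 0))) (inr (ρ, j, (2, 0))) := by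
    intro ρ hρ j
    induction j using Fin.induction with
    | zero => exact Relation.ReflTransGen.refl
    | succ j ih =>
      refine (ih.trans (a0 ρ hρ _ (2, 3))).tail ?_
      simp [f, nxt, hρ, Fin.castSucc_ne_last]
  have a2 : ∀ i, Rch f (inr (g 0, 0, (2, 0)))
      (if g i = ρ0 then inr (ρ0, 0, (0, 0)) else inr (g i, 0, (2, 0))) := by
    intro i
    induction i using Fin.induction with
    | zero =>
      rw [if_neg (by rw [hg']; exact (Fin.last_pos).ne)]
    | succ i ih =>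
      have h1 : g i.castSucc ≠ ρ0 := by rw [Ne, hg']; exact Fin.castSucc_ne_last i
      rw [if_neg h1] at ih
      refine ((ih.trans (a1 _ h1 (Fin.last _))).trans (a0 _ h1 _ (2, 3))).tail ?_
      simp [f, nxt, h1]
  have b0 : ∀ j x, Rch f (inr (ρ0, j, (0, 0))) (inr (ρ0, j, x)) := by
    intro j x
    exact rch_block (fun x => inr (ρ0, j, x)) sT rT (0, 0) (0, 3)
      (fun x hx => by simp [f, nxt, hx]) (by decide) x
  have b1 : ∀ k q, Rch f (inl (k, Fin.last _)) (inl (k, q)) := by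
    intro k q
    induction q using Fin.reverseInduction with
    | last => exact Relation.ReflTransGen.refl
    | cast q ih =>
      refine ih.tail ?_
      simp only [f, nxt, Fin.succ_ne_zero, if_false]
      rfl
  have b2 : ∀ j q, Rch f (inr (ρ0, j, (0, 0))) (inl (ρ0.1 j, q)) := by
    intro j q
    refine ((b0 j (0, 3)).tail ?_).trans (b1 _ q)
    simp [f, nxt]
  have b3 : ∀ j, Rch f (inr (g 0, 0, (2, 0))) (inr (ρ0, j, (0, 0))) := by
    intro j
    induction j using Fin.induction with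
    | zero => simpa [hg] using a2 (Fin.last _)
    | succ j ih =>
      refine (ih.trans (b2 _ 0)).tail ?_
      rw [hρ]
      simp [f, nxt]
  refine ⟨inl (0, 0), ham_of_nxt _ f (nxt_adj ρ0 g) _ (fun v => rch_iter ?_) ?_⟩
  · have e0 : f (inl (0, 0)) = inr (g 0, 0, (2, 0)) := by simp [f, nxt]
    rw [e0]
    rcases v with ⟨k, q⟩ | ⟨ρ, j, x⟩
    · obtain ⟨j, rfl⟩ := ρ0.1.surjective k
      exact (b3 j).trans (b2 j q)
    · by_cases h : ρ = ρ0
      · subst h
        exact (b3 j).trans (b0 j x)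
      · obtain ⟨i, rfl⟩ := g.surjective ρ
        have := a2 i
        rw [if_neg h] at this
        exact (this.trans (a1 _ h j)).trans (a0 _ h j x)
  · simp only [Fintype.card_sum, Fintype.card_prod, Fintype.card_fin]
    nlinarith [Nat.zero_le (Fintype.card (A m) * ((m + 1) * (3 * 4)))]

end Pool.Agent.H14.Deck
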