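import Mathlib

set_option autoImplicit false

namespace Pool.Agent.H14.DeckDefs

/-- multiplicity of the isomorphism class of H in the t-vertex deck of G -/
noncomputable def deckCount {V : Type} (G : SimpleGraph V) (t : ℕ) (H : SimpleGraph (Fin t)) : ℕ :=
  {S : Finset V | S.card = t ∧ Nonempty (G.induce (S : Set V) ≃g H)}.ncard

/-- number of Hamilton cycles of G, a cycle being identified with its edge set -/
noncomputable def hamCount {V : Type} [DecidableEq V] (G : SimpleGraph V) : ℕ :=
  {s : Set (Sym2 V) | ∃ (v : V) (p : G.Walk v v),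
    p.IsHamiltonianCycle ∧ s = {e | e ∈ p.edges}}.ncard

end Pool.Agent.H14.DeckDefs
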