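import Pool.Agent.H14.Deck2
import Pool.Agent.H14.DeckDefs

set_option autoImplicit false

namespace Pool.Agent.H14.Deck

open SimpleGraph Pool.Agent.H14.HamUtil Sum Pool.Agent.H14.DeckDefs

variable {m l : ℕ}

def tau (i j : Fin (m + 1)) (p q : Fin (l + 3)) (k : Fin (m + 1)) : Fin (m + 1) :=
  if p ≤ q then Equiv.swap i j k else k

lemma tau_tau (i j : Fin (m + 1)) (p q : Fin (l + 3)) (k : Fin (m + 1)) :
    tau i j p q (tau i j p q k) = k := by
  unfold tau
  split_ifs <;> simp

def earPerm (i j : Fin (m + 1)) (p : Fin (l + 3)) : Equiv.Perm (Fin (m + 1) × Fin (l + 3)) :=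
  Function.Involutive.toPerm (fun x => (tau i j p x.2 x.1, x.2)) (by
    rintro ⟨k, q⟩
    simp [tau_tau])

def phi (κ : A m) (i j : Fin (m + 1)) (p : Fin (l + 3)) : V m l ≃ V m l :=
  Equiv.sumCongr (earPerm i j p) (Equiv.prodCongr (Equiv.mulLeft κ) (Equiv.refl _))

lemma phi_inl (κ : A m) (i j : Fin (m + 1)) (p : Fin (l + 3)) (k : Fin (m + 1)) (q : Fin (l + 3)) :
    phi κ i j p (inl (k, q)) = inl (tau i j p q k, q) := rfl

lemma phi_inr (κ : A m) (i j : Fin (m + 1)) (p : Fin (l + 3)) (ρ : A m) (k : Fin (m + 1)) (x : B) :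
    phi κ i j p (inr (ρ, k, x)) = inr (κ * ρ, k, x) := rfl

lemma phi_R (σ σ' : Equiv.Perm (Fin (m + 1))) (κ : A m) (i j : Fin (m + 1)) (p : Fin (l + 3))
    (hκ : σ' * κ.1 = Equiv.swap i j * σ) (u v : V m l)
    (hu : u ≠ inl (i, p) ∧ u ≠ inl (j, p)) (hv : v ≠ inl (i, p) ∧ v ≠ inl (j, p)) :
    R σ' (phi κ i j p u) (phi κ i j p v) ↔ R σ u v := by
  have hfix : ∀ k q, (inl (k, q) : V m l) ≠ inl (i, p) ∧ (inl (k, q) : V m l) ≠ inl (j, p) →
      q ≤ p → tau i j p q k = k := by
    intro k q h hq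
    unfold tau
    split_ifs with h1
    · obtain rfl : q = p := le_antisymm hq h1
      exact Equiv.swap_apply_of_ne_of_ne (by simpa using h.1) (by simpa using h.2)
    · rfl
  rcases u with ⟨k, q⟩ | ⟨ρ, k, x⟩ <;> rcases v with ⟨k', q'⟩ | ⟨ρ', k', x'⟩
  · simp only [phi_inl, R]
    refine and_congr_left fun hq => ?_
    by_cases h : q' ≤ p
    · rw [hfix k q hu (by rw [Fin.le_def] at *; omega), hfix k' q' hv h]
    · have h1 : p ≤ q := by rw [Fin.le_def] at *; omega
      have h2 : p ≤ q' := by rw [Fin.le_def] at *; omega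
      simp [tau, h1, h2]
  · simp only [phi_inl, phi_inr, R]
    refine or_congr (and_congr_right fun hq => ?_) (or_congr (and_congr_right fun hq => ?_)
      (and_congr_right fun hq => ?_))
    · rw [hfix k q hu (hq ▸ Fin.zero_le _)]
    · rw [hfix k q hu (hq ▸ Fin.zero_le _)]
    · have h1 : σ' ((κ * ρ').1 k') = Equiv.swap i j (σ (ρ'.1 k')) :=
        congrArg (fun π : Equiv.Perm (Fin (m + 1)) => π (ρ'.1 k')) hκ
      rw [h1, hq]
      simp [tau, Fin.le_last]
  · simp only [phi_inl, phi_inr, R]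
  · simp only [phi_inr, R, mul_right_inj]

open Classical in
noncomputable def D (S : Finset (V m l)) (q : Fin (l + 3)) : Finset (Fin (m + 1)) :=
  Finset.univ.filter fun k => inl (k, q) ∉ S

lemma mem_D_map (S : Finset (V m l)) (κ : A m) (i j : Fin (m + 1)) (p q : Fin (l + 3))
    (k : Fin (m + 1)) :
    k ∈ D (S.map (phi κ i j p).toEmbedding) q ↔ tau i j p q k ∈ D S q := by
  simp only [D, Finset.mem_filter, Finset.mem_univ, true_and, Finset.mem_map_equiv]
  have : (phi κ i j p).symm (inl (k, q)) = inl (tau i j p q k, q) := by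
    rw [Equiv.symm_apply_eq, phi_inl, tau_tau]
  rw [this]

lemma card_D_map (S : Finset (V m l)) (κ : A m) (i j : Fin (m + 1)) (p q : Fin (l + 3)) :
    (D (S.map (phi κ i j p).toEmbedding) q).card = (D S q).card := by
  refine Finset.card_equiv (Function.Involutive.toPerm (tau i j p q) (tau_tau i j p q)) ?_
  intro k
  exact mem_D_map S κ i j p q k

lemma D_map_self (S : Finset (V m l)) (κ : A m) (i j : Fin (m + 1)) (p : Fin (l + 3))
    (hi : i ∈ D S p) (hj : j ∈ D S p) : D (S.map (phi κ i j p).toEmbedding) p = D S p := by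
  ext k
  rw [mem_D_map]
  simp only [tau, le_refl, if_true]
  by_cases h1 : k = i
  · subst h1; simp [hi, hj]
  · by_cases h2 : k = j
    · subst h2; simp [hi, hj]
    · rw [Equiv.swap_apply_of_ne_of_ne h1 h2]

lemma pigeon (S : Finset (V m l))
    (h : S.card + (l + 3) + Fintype.card (A m × Fin (m + 1) × B) < Fintype.card (V m l)) :
    ∃ q, 1 < (D S q).card := by
  classical
  by_contra hcon
  push Not at hcon
  have hsub : (Finset.univ : Finset (V m l)) ⊆ S ∪ (Finset.univ.biUnion fun q =>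
      (D S q).image fun k => (inl (k, q) : V m l)) ∪ Finset.univ.image inr := by
    intro v _
    by_cases hv : v ∈ S
    · simp [hv]
    · rcases v with ⟨k, q⟩ | b
      · simp [D, hv]
      · simp
  have h1 := Finset.card_le_card hsub
  have h2 := Finset.card_union_le (S ∪ (Finset.univ.biUnion fun q =>
      (D S q).image fun k => (inl (k, q) : V m l)))
      (Finset.univ.image (inr : A m × Fin (m + 1) × B → V m l))
  have h3 := Finset.card_union_le S (Finset.univ.biUnion fun q =>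
      (D S q).image fun k => (inl (k, q) : V m l))
  have h4 := Finset.card_image_le (s := Finset.univ) (f := (inr : A m × Fin (m + 1) × B → V m l))
  have h5 : (Finset.univ.biUnion fun q => (D S q).image fun k => (inl (k, q) : V m l)).card ≤
      (Finset.univ : Finset (Fin (l + 3))).card * 1 :=
    Finset.card_biUnion_le_card_mul _ _ _ fun q _ => Finset.card_image_le.trans (hcon q)
  rw [Finset.card_univ] at h1 h4 h5
  rw [Fintype.card_fin] at h5
  omega

theorem deck_le (σ σ' : Equiv.Perm (Fin (m + 1)))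
    (hs : Equiv.Perm.sign σ * Equiv.Perm.sign σ' = -1) (t : ℕ)
    (ht : t + (l + 3) + Fintype.card (A m × Fin (m + 1) × B) < Fintype.card (V m l))
    (H : SimpleGraph (Fin t)) : deckCount (G (l := l) σ) t H ≤ deckCount (G (l := l) σ') t H := by
  classical
  have c1 : ∀ P : Finset (Fin (l + 3)), ∃ q, P.Nonempty → q ∈ P := by
    intro P
    by_cases h : P.Nonempty
    · exact ⟨h.choose, fun _ => h.choose_spec⟩
    · exact ⟨0, fun h' => absurd h' h⟩
  have c2 : ∀ T : Finset (Fin (m + 1)), ∃ (i j : Fin (m + 1)) (κ : A m), 1 < T.card →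
      i ∈ T ∧ j ∈ T ∧ σ' * κ.1 = Equiv.swap i j * σ := by
    intro T
    by_cases h : 1 < T.card
    · obtain ⟨i, hi, j, hj, hij⟩ := Finset.one_lt_card.1 h
      refine ⟨i, j, ⟨σ'⁻¹ * (Equiv.swap i j * σ), ?_⟩, fun _ => ⟨hi, hj, by simp⟩⟩
      rw [Equiv.Perm.mem_alternatingGroup, Equiv.Perm.sign_mul, Equiv.Perm.sign_mul,
        Equiv.Perm.sign_inv, Equiv.Perm.sign_swap hij, neg_one_mul, mul_neg, mul_comm, hs, neg_neg]
    · exact ⟨0, 0, 1, fun h' => absurd h' h⟩
  choose pm hpm using c1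
  choose ci cj ck hc using c2
  let P : Finset (V m l) → Fin (l + 3) := fun S => pm (Finset.univ.filter fun q => 1 < (D S q).card)
  let ψ : Finset (V m l) → V m l ≃ V m l := fun S =>
    phi (ck (D S (P S))) (ci (D S (P S))) (cj (D S (P S))) (P S)
  have hP : ∀ S : Finset (V m l), S.card = t → 1 < (D S (P S)).card := by
    intro S hS
    obtain ⟨q, hq⟩ := pigeon S (hS ▸ ht)
    have := hpm (Finset.univ.filter fun q => 1 < (D S q).card)
      ⟨q, Finset.mem_filter.2 ⟨Finset.mem_univ _, hq⟩⟩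
    exact (Finset.mem_filter.1 this).2
  have hψ : ∀ S : Finset (V m l), S.card = t → ψ (S.map (ψ S).toEmbedding) = ψ S := by
    intro S hS
    have h1 : P (S.map (ψ S).toEmbedding) = P S := by
      simp only [P, ψ, card_D_map]
    obtain ⟨a1, a2, -⟩ := hc _ (hP S hS)
    have h2 : D (S.map (ψ S).toEmbedding) (P S) = D S (P S) := D_map_self S _ _ _ _ a1 a2
    show phi _ _ _ _ = phi _ _ _ _
    rw [h1, h2]
  unfold deckCount
  refine Set.ncard_le_ncard_of_injOn (fun S => S.map (ψ S).toEmbedding) ?_ ?_ (Set.toFinite _)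
  · rintro S ⟨hS, ⟨f⟩⟩
    refine ⟨by simpa using hS, ⟨RelIso.trans (Iso.symm ?_) f⟩⟩
    obtain ⟨a1, a2, a3⟩ := hc _ (hP S hS)
    have hne : ∀ u ∈ S, u ≠ inl (ci (D S (P S)), P S) ∧ u ≠ inl (cj (D S (P S)), P S) := by
      intro u hu
      constructor
      · rintro rfl
        exact (Finset.mem_filter.1 a1).2 hu
      · rintro rfl
        exact (Finset.mem_filter.1 a2).2 hu
    refine ⟨(ψ S).subtypeEquiv (by simp), ?_⟩
    rintro ⟨u, hu⟩ ⟨v, hv⟩
    simp only [comap_adj, Function.Embedding.subtype_apply, Equiv.subtypeEquiv_apply, G,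
      fromRel_adj, ne_eq, EmbeddingLike.apply_eq_iff_eq]
    rw [phi_R σ σ' _ _ _ _ a3 u v (hne u hu) (hne v hv),
      phi_R σ σ' _ _ _ _ a3 v u (hne v hv) (hne u hu)]
  · rintro S ⟨hS, -⟩ T ⟨hT, -⟩ hST
    simp only at hST
    have h1 : ψ S = ψ T := by rw [← hψ S hS, ← hψ T hT, hST]
    rw [h1] at hST
    exact Finset.map_injective _ hST

end Pool.Agent.H14.Deck
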