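import Mathlib

set_option maxHeartbeats 400000

namespace Pool.Agent.H14.Dv

open Finset

variable {ι : Type*} [DecidableEq ι] {R : Type*} [CommRing R]

/-- multilinear coefficient of a function on subsets -/
def D (φ : Finset ι → R) (T : Finset ι) : R :=
  ∑ S ∈ T.powerset, (-1) ^ (T.card + S.card) * φ S

theorem D_insert (φ : Finset ι → R) {a : ι} {T : Finset ι} (h : a ∉ T) :
    D φ (insert a T) = D (fun S => φ (insert a S)) T - D φ T := by
  unfold D
  rw [sum_powerset_insert h, card_insert_of_notMem h, sub_eq_neg_add, ← sum_neg_distrib]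
  congr 1
  · exact sum_congr rfl fun S _ => by ring
  · refine sum_congr rfl fun S hS => ?_
    rw [card_insert_of_notMem (fun h' => h (mem_powerset.1 hS h'))]
    have : T.card + 1 + (S.card + 1) = T.card + S.card + 2 := by ring
    rw [this, pow_add]; ring

theorem sum_D (S : Finset ι) : ∀ φ : Finset ι → R, ∑ A ∈ S.powerset, D φ A = φ S := by
  induction S using Finset.induction_on with
  | empty => intro φ; simp [D]
  | insert a S h ih =>
    intro φ
    rw [sum_powerset_insert h, ← ih (fun S => φ (insert a S)), ← sum_add_distrib]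
    refine sum_congr rfl fun A hA => ?_
    rw [D_insert φ (fun h' => h (mem_powerset.1 hA h'))]; ring

theorem D_unique (φ c : Finset ι → R) (h : ∀ S, ∑ A ∈ S.powerset, c A = φ S) (T : Finset ι) :
    D φ T = c T := by
  induction T using Finset.strongInduction with
  | H T ih =>
    have h1 := sum_D T φ
    rw [← h T, ← insert_erase (mem_powerset_self T), sum_insert (notMem_erase _ _),
      sum_insert (notMem_erase _ _)] at h1
    have : ∑ A ∈ T.powerset.erase T, D φ A = ∑ A ∈ T.powerset.erase T, c A :=
      sum_congr rfl fun A hA => ih A (by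
        rw [mem_erase, mem_powerset] at hA; exact Finset.ssubset_iff_subset_ne.2 ⟨hA.2, hA.1⟩)
    rw [this] at h1
    exact add_right_cancel h1

theorem D_mul (φ ψ : Finset ι → R) (T : Finset ι) :
    D (fun S => φ S * ψ S) T =
      ∑ A ∈ T.powerset, ∑ B ∈ T.powerset, if A ∪ B = T then D φ A * D ψ B else 0 := by
  refine D_unique _ (fun T => ∑ A ∈ T.powerset, ∑ B ∈ T.powerset,
    if A ∪ B = T then D φ A * D ψ B else 0) (fun S => ?_) T
  rw [← sum_D S φ, ← sum_D S ψ, sum_mul_sum]
  have : ∀ T ∈ S.powerset, (∑ A ∈ T.powerset, ∑ B ∈ T.powerset,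
      if A ∪ B = T then D φ A * D ψ B else 0) = ∑ A ∈ S.powerset, ∑ B ∈ S.powerset,
      if A ∪ B = T then D φ A * D ψ B else 0 := by
    intro T hT
    have hs : T.powerset ⊆ S.powerset := powerset_mono.2 (mem_powerset.1 hT)
    rw [← sum_subset hs]
    · refine sum_congr rfl fun A _ => sum_subset hs fun B _ hB => if_neg fun h => hB ?_
      rw [mem_powerset, ← h]; exact subset_union_right
    · intro A _ hA
      refine sum_eq_zero fun B _ => if_neg fun h => hA ?_
      rw [mem_powerset, ← h]; exact subset_union_left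
  rw [sum_congr rfl this, sum_comm]
  refine sum_congr rfl fun A hA => ?_
  rw [sum_comm]
  refine sum_congr rfl fun B hB => ?_
  rw [sum_ite_eq, if_pos]
  exact mem_powerset.2 (union_subset (mem_powerset.1 hA) (mem_powerset.1 hB))

def Deg (d : ℕ) (φ : Finset ι → R) : Prop := ∀ T : Finset ι, d < T.card → D φ T = 0

theorem Deg.mul {d e : ℕ} {φ ψ : Finset ι → R} (h1 : Deg d φ) (h2 : Deg e ψ) :
    Deg (d + e) (fun S => φ S * ψ S) := by
  intro T hT
  rw [D_mul]
  refine sum_eq_zero fun A _ => sum_eq_zero fun B _ => ?_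
  split_ifs with h
  · have := card_union_le A B
    rw [h] at this
    by_cases hA : d < A.card
    · rw [h1 A hA, zero_mul]
    · rw [h2 B (by omega), mul_zero]
  · rfl

theorem Deg.top {d e : ℕ} {φ ψ : Finset ι → R} (h1 : Deg d φ) (h2 : Deg e ψ) (T : Finset ι)
    (hT : T.card = d + e) :
    D (fun S => φ S * ψ S) T = ∑ A ∈ T.powersetCard d, D φ A * D ψ (T \ A) := by
  rw [D_mul, powersetCard_eq_filter, sum_filter]
  refine sum_congr rfl fun A hA => ?_
  have hA' := mem_powerset.1 hA
  have hc := card_sdiff_add_card_eq_card hA'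
  rw [sum_eq_single (T \ A)]
  · rw [if_pos (union_sdiff_of_subset hA')]
    split_ifs with h
    · rfl
    · by_cases h3 : d < A.card
      · rw [h1 A h3, zero_mul]
      · rw [h2 _ (by omega), mul_zero]
  · intro B hB hne
    split_ifs with h
    · by_cases h3 : d < A.card
      · rw [h1 A h3, zero_mul]
      by_cases h4 : e < B.card
      · rw [h2 B h4, mul_zero]
      exfalso; apply hne
      have h5 := card_union_le A B
      rw [h] at h5
      symm
      apply eq_of_subset_of_card_le
      · intro x hx
        rw [mem_sdiff, ← h, mem_union] at hx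
        tauto
      · omega
    · rfl
  · intro h; exact absurd (mem_powerset.2 sdiff_subset) h

theorem D_cast (φ : Finset ι → ℤ) (T : Finset ι) :
    D (fun S => ((φ S : ℤ) : R)) T = ((D φ T : ℤ) : R) := by
  simp [D]

theorem D_const_mul (k : R) (φ : Finset ι → R) (T : Finset ι) :
    D (fun S => k * φ S) T = k * D φ T := by
  simp only [D, mul_sum]; exact sum_congr rfl fun _ _ => by ring

theorem D_add (φ ψ : Finset ι → R) (T : Finset ι) :
    D (fun S => φ S + ψ S) T = D φ T + D ψ T := by
  simp only [D, mul_add, sum_add_distrib]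

theorem D_sum {κ : Type*} (s : Finset κ) (φ : κ → Finset ι → R) (T : Finset ι) :
    D (fun S => ∑ k ∈ s, φ k S) T = ∑ k ∈ s, D (φ k) T := by
  simp only [D, mul_sum]; rw [sum_comm]

theorem D_const (k : R) (T : Finset ι) (hT : 0 < T.card) : D (fun _ => k) T = 0 := by
  rw [D_unique (fun _ => k) (fun A => if A = ∅ then k else 0) (fun S => by simp)]
  rw [if_neg]; rintro rfl; simp at hT

theorem D_symm (u : ℕ → R) (T : Finset ι) :
    D (fun S => u S.card) T = ∑ j ∈ range (T.card + 1), T.card.choose j • ((-1) ^ (T.card + j) * u j) :=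
  sum_powerset_apply_card (fun j => (-1) ^ (T.card + j) * u j)

/-- a level-`m` sum -/
theorem D_level (m : ℕ) (α : Finset ι → R) (T : Finset ι) :
    D (fun S => ∑ B ∈ S.powersetCard m, α B) T = if T.card = m then α T else 0 :=
  D_unique _ (fun T => if T.card = m then α T else 0)
    (fun S => by rw [powersetCard_eq_filter, sum_filter]) T

theorem choose_step (z M : ℕ) :
    ((M : ℤ) + 1) * (z.choose (M + 1) : ℤ) = (z.choose M : ℤ) * ((z : ℤ) + (-M)) := by
  have := Nat.choose_succ_right_eq z M
  by_cases h : M ≤ z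
  · zify [h] at this; linarith
  · rw [Nat.choose_eq_zero_of_lt (by omega), Nat.choose_eq_zero_of_lt (by omega)]; simp

theorem deg_add_const {m : ℕ} {φ : Finset ι → R} (h : Deg m φ) (k : R) :
    Deg m (fun S => φ S + k) := fun T hT => by
  rw [D_add, h T hT, D_const _ _ (by omega), add_zero]

theorem deg_choose {m : ℕ} (φ : Finset ι → ℕ) (h : Deg m (fun S => (φ S : ℤ))) (M : ℕ) :
    Deg (m * M) (fun S => ((φ S).choose M : ℤ)) := by
  induction M with
  | zero => intro T hT; simpa using D_const (1 : ℤ) T (by omega)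
  | succ M ih =>
    intro T hT
    have h1 := (ih.mul (deg_add_const h (-(M : ℤ)))) T (by rw [← Nat.mul_succ]; exact hT)
    simp only [← choose_step] at h1
    rw [D_const_mul] at h1
    exact (mul_eq_zero.1 h1).resolve_left (by positivity)

theorem top_choose {m : ℕ} (hm : 0 < m) (a : ι → ℤ) (φ : Finset ι → ℕ)
    (h : Deg m (fun S => (φ S : ℤ)))
    (ht : ∀ A : Finset ι, A.card = m → D (fun S => (φ S : ℤ)) A = ∏ i ∈ A, a i) (M : ℕ) :
    ∀ T : Finset ι, T.card = m * M → D (fun S => ((φ S).choose M : ℤ)) T =
      (∏ j ∈ range M, (m * (j + 1) - 1).choose (m - 1) : ℕ) * ∏ i ∈ T, a i := by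
  induction M with
  | zero =>
    intro T hT
    rw [mul_zero, card_eq_zero] at hT
    subst hT; simp [D]
  | succ M ih =>
    intro T hT
    have h1 := (deg_choose φ h M).top (deg_add_const h (-(M : ℤ))) T (by rw [hT]; ring)
    simp only [← choose_step] at h1
    rw [D_const_mul, sum_congr rfl (g := fun _ =>
      ((∏ j ∈ range M, (m * (j + 1) - 1).choose (m - 1) : ℕ) : ℤ) * ∏ i ∈ T, a i)] at h1
    · rw [sum_const, card_powersetCard, hT] at h1
      have h2 : (m * (M + 1)).choose (m * M) = (M + 1) * (m * (M + 1) - 1).choose (m - 1) := by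
        have h3 := Nat.add_one_mul_choose_eq (m * (M + 1) - 1) (m - 1)
        have h4 : m * (M + 1) - 1 + 1 = m * (M + 1) := by
          have : 0 < m * (M + 1) := by positivity
          omega
        rw [h4, Nat.sub_add_cancel hm] at h3
        rw [show m * (M + 1) = m * M + m by ring, Nat.choose_symm_add,
          show m * M + m = m * (M + 1) by ring]
        apply Nat.eq_of_mul_eq_mul_right hm
        rw [← h3]; ring
      rw [h2] at h1
      apply mul_left_cancel₀ (a := (M : ℤ) + 1) (by positivity)
      rw [h1, prod_range_succ]; simp only [nsmul_eq_mul]; push_cast; ring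
    · intro A hA
      rw [mem_powersetCard] at hA
      have hc := card_sdiff_add_card_eq_card hA.1
      have hc2 : (T \ A).card = m := by rw [hT, hA.2, mul_add] at hc; omega
      rw [ih A hA.2, D_add, D_const _ _ (by omega), add_zero, ht _ hc2, mul_assoc,
        mul_comm (∏ i ∈ A, a i), prod_sdiff hA.1]

end Pool.Agent.H14.Dv
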