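import Pool.Agent.H14.Dv1

set_option maxHeartbeats 400000

namespace Pool.Agent.H14.Dv

open Finset Polynomial

variable {p : ℕ} [hp : Fact p.Prime]

theorem choose_pow_mul (k h j : ℕ) :
    (((p ^ k * h).choose j : ℕ) : ZMod p) = if p ^ k ∣ j then ((h.choose (j / p ^ k) : ℕ) : ZMod p) else 0 := by
  have h1 : ((X + 1 : (ZMod p)[X])) ^ (p ^ k * h) = expand (ZMod p) (p ^ k) ((X + 1) ^ h) := by
    rw [pow_mul, add_pow_char_pow, map_pow, map_add, expand_X, map_one, one_pow]
  rw [← coeff_X_add_one_pow (ZMod p), h1, coeff_expand (pow_pos hp.out.pos k), coeff_X_add_one_pow]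

theorem choose_zero (k h j : ℕ) (h0 : 0 < j) (h1 : j < p ^ k) :
    (((p ^ k * h).choose j : ℕ) : ZMod p) = 0 := by
  rw [choose_pow_mul, if_neg (fun h => absurd (Nat.le_of_dvd h0 h) (by omega))]

theorem choose_unit (s u : ℕ) (hu : 0 < u) (i : ℕ) (hi : i < p ^ s) :
    (((p ^ s * u - 1).choose i : ℕ) : ZMod p) = (-1) ^ i := by
  induction i with
  | zero => simp
  | succ i ih =>
    have h1 := choose_zero s u (i + 1) (by omega) hi
    have h2 : 0 < p ^ s * u := Nat.mul_pos (by omega) hu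
    have h3 : p ^ s * u = p ^ s * u - 1 + 1 := by omega
    rw [h3, Nat.choose_succ_succ', Nat.cast_add, ih (by omega)] at h1
    rw [pow_succ]; linear_combination h1

theorem indicator (r z : ℕ) :
    (((z + (p ^ r - 1)).choose (p ^ r - 1) : ℕ) : ZMod p) = if p ^ r ∣ z then 1 else 0 := by
  have hq : 0 < p ^ r := pow_pos hp.out.pos r
  have e : z + (p ^ r - 1) = p ^ r * ((z + (p ^ r - 1)) / p ^ r) + (z + (p ^ r - 1)) % p ^ r :=
    (Nat.div_add_mod _ _).symm
  rw [e, Nat.add_choose_eq, Nat.cast_sum, sum_eq_single (0, p ^ r - 1)]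
  · simp only [Nat.choose_zero_right, one_mul]
    split_ifs with h
    · obtain ⟨c, rfl⟩ := h
      rw [Nat.mul_add_mod, Nat.mod_eq_of_lt (by omega)]; simp
    · rw [Nat.choose_eq_zero_of_lt]; · simp
      have h1 := Nat.mod_lt (z + (p ^ r - 1)) hq
      by_contra h2
      apply h
      have h3 : (z + (p ^ r - 1)) % p ^ r = p ^ r - 1 := by omega
      rw [h3] at e
      exact ⟨(z + (p ^ r - 1)) / p ^ r, by omega⟩
  · intro x hx hne
    rw [HasAntidiagonal.mem_antidiagonal] at hx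
    rw [Nat.cast_mul, choose_zero, zero_mul]
    · by_contra h
      apply hne; ext <;> simp <;> omega
    · omega
  · intro h; exact absurd (by simp) h

variable {ι : Type*} [DecidableEq ι]

def E (m : ℕ) (a : ι → ℕ) (S : Finset ι) : ℕ := ∑ B ∈ S.powersetCard m, ∏ i ∈ B, a i

theorem D_E (m : ℕ) (a : ι → ℕ) (k : ℕ) (T : Finset ι) (hT : 0 < T.card) :
    D (fun S => ((E m a S + k : ℕ) : ℤ)) T = if T.card = m then ∏ i ∈ T, (a i : ℤ) else 0 := by
  simp only [E, Nat.cast_add, Nat.cast_sum, Nat.cast_prod]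
  rw [D_add, D_const _ _ hT, add_zero, D_level]

theorem deg_E (m : ℕ) (a : ι → ℕ) (k : ℕ) : Deg m (fun S => ((E m a S + k : ℕ) : ℤ)) :=
  fun T hT => by rw [D_E m a k T (by omega), if_neg (by omega)]

theorem Dp (φ : Finset ι → ℕ) (T : Finset ι) :
    D (fun S => ((φ S : ℕ) : ZMod p)) T = ((D (fun S => (φ S : ℤ)) T : ℤ) : ZMod p) := by
  rw [← D_cast]; simp

theorem degp {d : ℕ} {φ : Finset ι → ℕ} (h : Deg d (fun S => (φ S : ℤ))) :
    Deg d (fun S => ((φ S : ℕ) : ZMod p)) := fun T hT => by rw [Dp, h T hT, Int.cast_zero]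

theorem top_E (s M k : ℕ) : ∃ c : ZMod p, c ≠ 0 ∧ ∀ (a : ι → ℕ) (T : Finset ι),
    T.card = p ^ s * M →
      D (fun S => (((E (p ^ s) a S + k).choose M : ℕ) : ZMod p)) T = c * ∏ i ∈ T, (a i : ZMod p) := by
  have hm : 0 < p ^ s := pow_pos hp.out.pos s
  refine ⟨(∏ j ∈ range M, (p ^ s * (j + 1) - 1).choose (p ^ s - 1) : ℕ), ?_, fun a T hT => ?_⟩
  · rw [Nat.cast_prod]
    refine prod_ne_zero_iff.2 fun j _ => ?_
    rw [choose_unit s (j + 1) (by omega) _ (by omega)]
    simp
  · rw [Dp, top_choose hm (fun i => (a i : ℤ)) _ (deg_E _ a k)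
      (fun A hA => by rw [D_E _ a k A (by omega), if_pos hA]) M T hT]
    push_cast; rfl

def ZF (m q : ℕ) (a : ι → ℕ) : Prop := ∀ S : Finset ι, m ≤ S.card → ¬ q ∣ E m a S

theorem ZF.ind {s r : ℕ} {a : ι → ℕ} (h : ZF (p ^ s) (p ^ r) a) :
    (fun S => (((E (p ^ s) a S + (p ^ r - 1)).choose (p ^ r - 1) : ℕ) : ZMod p)) =
      fun S : Finset ι => (fun j => if j < p ^ s then (1 : ZMod p) else 0) S.card := by
  funext S
  rw [indicator]
  by_cases hS : S.card < p ^ s
  · simp [hS, E, powersetCard_eq_empty.2 hS]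
  · simp [hS, h S (by omega)]

theorem ZF.step0 (s r : ℕ) : ∃ κ : ZMod p, κ ≠ 0 ∧ ∀ a : ι → ℕ, ZF (p ^ s) (p ^ r) a →
    ∀ T : Finset ι, T.card = p ^ s * (p ^ r - 1) → ∏ i ∈ T, (a i : ZMod p) = κ := by
  obtain ⟨c, hc, h⟩ := top_E (p := p) (ι := ι) s (p ^ r - 1) (p ^ r - 1)
  refine ⟨c⁻¹ * (-1) ^ (p ^ s * (p ^ r - 1)), by simp [hc], fun a ha T hT => ?_⟩
  have h1 := h a T hT
  rw [ha.ind, D_symm (fun j => if j < p ^ s then (1 : ZMod p) else 0), sum_eq_single 0] at h1
  · rw [hT] at h1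
    simp only [Nat.choose_zero_right, add_zero, one_smul, pow_pos hp.out.pos s, if_true,
      mul_one] at h1
    rw [h1]; field_simp
  · intro j _ hj
    split_ifs with h2
    · rw [nsmul_eq_mul, hT, choose_zero _ _ _ (by omega) h2, zero_mul]
    · simp
  · intro h; simp at h

theorem prod_pert (P a0 : ℕ) (hP : (P : ZMod p) = 0) (b : ι → ℕ) (B : Finset ι) :
    ∃ β : ℕ, ∏ i ∈ B, (a0 + P * b i) = a0 ^ B.card + P * β ∧
      (a0 : ZMod p) * β = a0 ^ B.card * ∑ i ∈ B, (b i : ZMod p) := by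
  induction B using Finset.induction_on with
  | empty => exact ⟨0, by simp, by simp⟩
  | insert x B hx ih =>
    obtain ⟨β, h1, h2⟩ := ih
    refine ⟨a0 * β + b x * a0 ^ B.card + P * b x * β, ?_, ?_⟩
    · rw [prod_insert hx, h1, card_insert_of_notMem hx]; ring
    · rw [sum_insert hx, card_insert_of_notMem hx]; push_cast
      rw [hP]; linear_combination (a0 : ZMod p) * h2

theorem sum_pc_insert {R : Type*} [AddCommMonoid R] (g : Finset ι → R) (n : ℕ) {x : ι}
    {U : Finset ι} (hx : x ∉ U) : ∑ A ∈ (insert x U).powersetCard (n + 1), g A =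
      ∑ A ∈ U.powersetCard (n + 1), g A + ∑ A ∈ U.powersetCard n, g (insert x A) := by
  simp only [powersetCard_eq_filter, sum_filter]
  rw [sum_powerset_insert hx]
  congr 1
  refine sum_congr rfl fun A hA => ?_
  rw [card_insert_of_notMem (fun h' => hx (mem_powerset.1 hA h'))]
  simp

theorem ZF.stepk {s r k : ℕ} (hk : 0 < k) (hkr : k < r) (a0 : ℕ) (h0 : (a0 : ZMod p) ≠ 0)
    (b : ι → ℕ) (ha : ZF (p ^ s) (p ^ r) (fun i => a0 + p ^ k * b i)) (U : Finset ι)
    (hU : U.card + 1 = p ^ s * (p ^ r - p ^ k)) (x y : ι) (hx : x ∉ U) (hy : y ∉ U) :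
    (b x : ZMod p) = b y := by
  have hp1 := hp.out.one_lt
  have hm : 0 < p ^ s := pow_pos hp.out.pos s
  have hP : ((p ^ k : ℕ) : ZMod p) = 0 := by simp [hk.ne']
  have hP2 : 2 ≤ p ^ k := Nat.one_lt_pow hk.ne' hp1
  have hPq : p ^ k < p ^ r := Nat.pow_lt_pow_right hp1 hkr
  choose β hβ1 hβ2 using prod_pert (p ^ k) a0 hP b
  set h : Finset ι → ℕ := fun S => ∑ B ∈ S.powersetCard (p ^ s), β B with hh
  have hE : ∀ S, E (p ^ s) (fun i => a0 + p ^ k * b i) S + (p ^ r - 1) =
      p ^ k * h S + (E (p ^ s) (fun _ => a0) S + (p ^ r - 1)) := by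
    intro S
    simp only [E, hh, hβ1, sum_add_distrib, mul_sum, prod_const]; ring
  have hD : ∀ T, D (fun S => (h S : ℤ)) T = if T.card = p ^ s then (β T : ℤ) else 0 := by
    intro T; simp only [hh, Nat.cast_sum]; rw [D_level]
  have hdeg : Deg (p ^ s) (fun S => (h S : ℤ)) := fun T hT => by rw [hD, if_neg (by omega)]
  obtain ⟨c, hc, htop⟩ := top_E (p := p) (ι := ι) s (p ^ r - 1 - p ^ k) (p ^ r - 1)
  have hsym : ∀ S : Finset ι, E (p ^ s) (fun _ => a0) S = S.card.choose (p ^ s) * a0 ^ p ^ s := by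
    intro S
    rw [E, sum_congr rfl (g := fun _ => a0 ^ p ^ s), sum_const, card_powersetCard, smul_eq_mul]
    intro B hB; rw [prod_const, (mem_powersetCard.1 hB).2]
  have hw : ∀ S, (((p ^ k * h S + (E (p ^ s) (fun _ => a0) S + (p ^ r - 1))).choose (p ^ r - 1) : ℕ) :
      ZMod p) = ∑ x ∈ HasAntidiagonal.antidiagonal (p ^ r - 1), ((p ^ k * h S).choose x.1 : ZMod p) *
        ((E (p ^ s) (fun _ => a0) S + (p ^ r - 1)).choose x.2 : ℕ) := by
    intro S; rw [Nat.add_choose_eq]; push_cast; rfl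
  have hsz : p ^ s * (p ^ r - p ^ k) = p ^ s + p ^ s * (p ^ r - 1 - p ^ k) := by
    rw [show p ^ r - p ^ k = 1 + (p ^ r - 1 - p ^ k) by omega]; ring
  have key : ∃ κ : ZMod p, ∀ T : Finset ι, T.card = p ^ s * (p ^ r - p ^ k) →
      ∑ A ∈ T.powersetCard (p ^ s), (β A : ZMod p) * (c * a0 ^ (p ^ s * (p ^ r - 1 - p ^ k))) = κ := by
    refine ⟨∑ j ∈ range (p ^ s * (p ^ r - p ^ k) + 1),
        (p ^ s * (p ^ r - p ^ k)).choose j • ((-1) ^ (p ^ s * (p ^ r - p ^ k) + j) *
          if j < p ^ s then (1 : ZMod p) else 0) -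
      ∑ j ∈ range (p ^ s * (p ^ r - p ^ k) + 1),
        (p ^ s * (p ^ r - p ^ k)).choose j • ((-1) ^ (p ^ s * (p ^ r - p ^ k) + j) *
          (((j.choose (p ^ s) * a0 ^ p ^ s + (p ^ r - 1)).choose (p ^ r - 1) : ℕ) : ZMod p)),
        fun T hT => ?_⟩
    have h1 := congrArg (fun φ => D φ T) ha.ind
    simp only [hE, hw] at h1
    rw [D_sum, D_symm (fun j => if j < p ^ s then (1 : ZMod p) else 0),
      sum_eq_add (0, p ^ r - 1) (p ^ k, p ^ r - 1 - p ^ k)] at h1
    · simp only [Nat.choose_zero_right, Nat.cast_one, one_mul, choose_pow_mul, dvd_refl, if_true,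
        Nat.div_self (pow_pos hp.out.pos k), Nat.choose_one_right] at h1
      rw [(degp hdeg).top (degp (deg_choose _ (deg_E _ _ _) _)) T (by rw [hT, hsz])] at h1
      simp only [hsym] at h1
      rw [D_symm (fun j => (((j.choose (p ^ s) * a0 ^ p ^ s + (p ^ r - 1)).choose (p ^ r - 1) : ℕ) :
        ZMod p)), hT] at h1
      refine Eq.trans ?_ (eq_sub_of_add_eq' h1)
      refine sum_congr rfl fun A hA => ?_
      rw [mem_powersetCard] at hA
      have hc := card_sdiff_add_card_eq_card hA.1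
      have hc2 : (T \ A).card = p ^ s * (p ^ r - 1 - p ^ k) := by omega
      simp only [← hsym]
      rw [htop _ _ hc2, Dp, hD, if_pos hA.2, prod_const, hc2]; simp
    · intro h; have := congrArg Prod.fst h; simp at this; omega
    · intro z hz hne
      rw [HasAntidiagonal.mem_antidiagonal] at hz
      by_cases hd : p ^ k ∣ z.1
      · simp only [choose_pow_mul, if_pos hd]
        apply ((degp (deg_choose _ hdeg _)).mul (degp (deg_choose _ (deg_E _ _ _) _)))
        obtain ⟨l, hl⟩ := hd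
        rw [hT, hl, Nat.mul_div_cancel_left _ (pow_pos hp.out.pos k), ← mul_add]
        apply Nat.mul_lt_mul_of_pos_left _ hm
        have h0 : l ≠ 0 := by
          rintro rfl; apply hne.1; ext <;> simp <;> omega
        have h1 : l ≠ 1 := by
          rintro rfl; apply hne.2; ext <;> simp <;> omega
        obtain ⟨l', rfl⟩ : ∃ l', l = l' + 2 := ⟨l - 2, by omega⟩
        have : 2 * l' ≤ p ^ k * l' := Nat.mul_le_mul_right _ hP2
        rw [mul_add] at hl
        omega
      · simp [choose_pow_mul, hd, D]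
    · intro h; exact absurd (by simp) h
    · intro h; exact absurd (by simp; omega) h
  obtain ⟨κ, key⟩ := key
  have hu : c * (a0 : ZMod p) ^ (p ^ s * (p ^ r - 1 - p ^ k)) ≠ 0 := by simp [hc, h0]
  have e1 := key (insert x U) (by rw [card_insert_of_notMem hx, hU])
  have e2 := key (insert y U) (by rw [card_insert_of_notMem hy, hU])
  rw [← e2, ← sum_mul, ← sum_mul] at e1
  have e3 := congrArg (fun t => (a0 : ZMod p) * t) (mul_right_cancel₀ hu e1)
  beta_reduce at e3
  rw [mul_sum, mul_sum] at e3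
  simp only [hβ2] at e3
  obtain ⟨n, hn⟩ : ∃ n, p ^ s = n + 1 := ⟨p ^ s - 1, by omega⟩
  have hch := choose_unit (p := p) s (p ^ r - p ^ k) (by omega) n (by omega)
  rw [← hU, Nat.add_sub_cancel] at hch
  rw [hn, sum_pc_insert _ _ hx, sum_pc_insert _ _ hy, add_right_inj] at e3
  have e4 : ∀ z, z ∉ U → ∑ A ∈ U.powersetCard n, (a0 : ZMod p) ^ (insert z A).card *
      ∑ i ∈ insert z A, (b i : ZMod p) = (-1) ^ n * (a0 ^ (n + 1) * b z) +
      ∑ A ∈ U.powersetCard n, (a0 : ZMod p) ^ (n + 1) * ∑ i ∈ A, (b i : ZMod p) := by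
    intro z hz
    rw [← hch, ← card_powersetCard, ← nsmul_eq_mul, ← sum_const, ← sum_add_distrib]
    refine sum_congr rfl fun A hA => ?_
    rw [mem_powersetCard] at hA
    have : z ∉ A := fun h => hz (hA.1 h)
    rw [card_insert_of_notMem this, sum_insert this, hA.2]; ring
  rw [e4 x hx, e4 y hy, add_left_inj] at e3
  simpa [h0] using e3

theorem exists_avoid [Fintype ι] (x y : ι) (n : ℕ) (hn : n + 2 ≤ Fintype.card ι) :
    ∃ U : Finset ι, U.card = n ∧ x ∉ U ∧ y ∉ U := by
  have h1 : n ≤ ((univ : Finset ι) \ {x, y}).card := by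
    have := card_sdiff_add_card_eq_card (subset_univ ({x, y} : Finset ι))
    have h2 : ({x, y} : Finset ι).card ≤ 2 := card_le_two
    rw [card_univ] at this; omega
  obtain ⟨U, hU, hc⟩ := exists_subset_card_eq h1
  exact ⟨U, hc, fun h => by simpa using hU h, fun h => by simpa using hU h⟩

theorem ZF.unit [Fintype ι] {s r : ℕ} (hr : 0 < r) (hc : Fintype.card ι + 1 = p ^ s * p ^ r)
    {a : ι → ℕ} (ha : ZF (p ^ s) (p ^ r) a) (x : ι) : (a x : ZMod p) ≠ 0 := by
  obtain ⟨κ, hκ, h⟩ := ZF.step0 (p := p) (ι := ι) s r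
  have hm : 0 < p ^ s := pow_pos hp.out.pos s
  have hq : 2 ≤ p ^ r := Nat.one_lt_pow hr.ne' hp.out.one_lt
  have e : p ^ s * (p ^ r - 1) + p ^ s = p ^ s * p ^ r := by
    rw [← Nat.mul_add_one, Nat.sub_add_cancel (by omega)]
  have hpos : 0 < p ^ s * (p ^ r - 1) := Nat.mul_pos hm (by omega)
  obtain ⟨T, h1, -, h2⟩ := exists_subsuperset_card_eq (subset_univ ({x} : Finset ι))
    (n := p ^ s * (p ^ r - 1)) (by rw [card_singleton]; omega) (by rw [card_univ]; omega)
  rw [← h a ha T h2] at hκ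
  exact prod_ne_zero_iff.1 hκ x (h1 (mem_singleton_self x))

theorem ZF.all [Fintype ι] {s r : ℕ} (hs : 0 < s) (hr : 0 < r)
    (hc : Fintype.card ι + 1 = p ^ s * p ^ r)
    {a : ι → ℕ} (ha : ZF (p ^ s) (p ^ r) a) (x y : ι) : a x ≡ a y [MOD p ^ r] := by
  have hm : 2 ≤ p ^ s := Nat.one_lt_pow hs.ne' hp.out.one_lt
  have hq : 2 ≤ p ^ r := Nat.one_lt_pow hr.ne' hp.out.one_lt
  suffices H : ∀ k, k + 1 ≤ r → ∀ x y, a x ≡ a y [MOD p ^ (k + 1)] by
    have := H (r - 1) (by omega) x y
    rwa [Nat.sub_add_cancel hr] at this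
  intro k
  induction k with
  | zero =>
    intro _ x y
    obtain ⟨κ, hκ, h⟩ := ZF.step0 (p := p) (ι := ι) s r
    have e : p ^ s * (p ^ r - 1) + p ^ s = p ^ s * p ^ r := by
      rw [← Nat.mul_add_one, Nat.sub_add_cancel (by omega)]
    have hpos : 0 < p ^ s * (p ^ r - 1) := Nat.mul_pos (by omega) (by omega)
    obtain ⟨U, hU, hx, hy⟩ := exists_avoid x y (p ^ s * (p ^ r - 1) - 1) (by omega)
    have e1 := h a ha (insert x U) (by rw [card_insert_of_notMem hx]; omega)
    have e2 := h a ha (insert y U) (by rw [card_insert_of_notMem hy]; omega)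
    rw [← e2, prod_insert hx, prod_insert hy] at e1
    rw [zero_add, pow_one, ← ZMod.natCast_eq_natCast_iff]
    exact mul_right_cancel₀ (prod_ne_zero_iff.2 fun i _ => ha.unit hr hc i) e1
  | succ k ih =>
    intro hk x y
    have ih := ih (by omega)
    have e : a = fun i => a x % p ^ (k + 1) + p ^ (k + 1) * (a i / p ^ (k + 1)) := by
      funext i; rw [ih x i]; exact (Nat.mod_add_div _ _).symm
    have h0 : ((a x % p ^ (k + 1) : ℕ) : ZMod p) ≠ 0 := by
      have := ha.unit hr hc x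
      rw [← Nat.mod_add_div (a x) (p ^ (k + 1))] at this
      simpa using this
    have hlt : p ^ (k + 1) < p ^ r := Nat.pow_lt_pow_right hp.out.one_lt (by omega)
    have hP2 : 2 ≤ p ^ (k + 1) := Nat.one_lt_pow (by omega) hp.out.one_lt
    have e' : p ^ s * (p ^ r - p ^ (k + 1)) + p ^ s * p ^ (k + 1) = p ^ s * p ^ r := by
      rw [← mul_add, Nat.sub_add_cancel hlt.le]
    have hpos : 0 < p ^ s * (p ^ r - p ^ (k + 1)) := Nat.mul_pos (by omega) (by omega)
    have h4 : 2 * 2 ≤ p ^ s * p ^ (k + 1) := Nat.mul_le_mul hm hP2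
    obtain ⟨U, hU, hx, hy⟩ := exists_avoid x y (p ^ s * (p ^ r - p ^ (k + 1)) - 1) (by omega)
    have := ZF.stepk (k := k + 1) (by omega) (by omega) _ h0 (fun i => a i / p ^ (k + 1))
      (e ▸ ha) U (by omega) x y hx hy
    rw [ZMod.natCast_eq_natCast_iff] at this
    rw [congrFun e y, congrFun e x, ← congrFun e x, pow_succ p (k + 1)]
    nth_rw 1 [congrFun e x]
    exact (this.mul_left' _).add_left _

theorem one_case {G : Type*} [AddCommGroup G] [Fintype G] [Fintype ι]
    (hc : Fintype.card ι + 1 = Fintype.card G) (a : ι → G)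
    (h : ∀ S : Finset ι, S.Nonempty → ∑ i ∈ S, a i ≠ 0) (x y : ι) : a x = a y := by
  classical
  by_contra hne
  have hxy : x ≠ y := fun h => hne (h ▸ rfl)
  have grow : ∀ (T : Finset ι) (z : ι), z ∉ T → ∑ i ∈ insert z T, a i ∉
      T.powerset.image (fun A => ∑ i ∈ A, a i) := by
    intro T z hz hm
    obtain ⟨A, hA, e⟩ := mem_image.1 hm
    have hA' : A ⊆ insert z T := (mem_powerset.1 hA).trans (subset_insert _ _)
    apply h (insert z T \ A) ⟨z, by simp; exact fun h => hz (mem_powerset.1 hA h)⟩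
    have := sum_sdiff (f := a) hA'
    rw [← e] at this
    exact add_eq_right.1 this
  have key : ∀ U : Finset ι, x ∉ U → y ∉ U → U.card + 4 ≤
      ((U ∪ {x, y}).powerset.image (fun A => ∑ i ∈ A, a i)).card := by
    intro U
    induction U using Finset.induction_on with
    | empty =>
      intro _ _
      have h1 := h {x} (by simp)
      have h2 := h {y} (by simp)
      have h3 := h {x, y} (by simp)
      rw [sum_pair hxy] at h3
      rw [sum_singleton] at h1 h2
      have : ({0, a x, a y, a x + a y} : Finset G).card = 4 := by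
        rw [card_insert_of_notMem, card_insert_of_notMem, card_pair] <;>
          simp [h1, h2, hne, h1.symm, h2.symm, h3.symm]
      rw [card_empty, zero_add, ← this]
      apply card_le_card
      intro g hg
      simp only [mem_insert, mem_singleton] at hg
      rw [mem_image]
      rcases hg with rfl | rfl | rfl | rfl
      · exact ⟨∅, by simp, by simp⟩
      · exact ⟨{x}, by simp, by simp⟩
      · exact ⟨{y}, by simp, by simp⟩
      · exact ⟨{x, y}, by simp, sum_pair hxy⟩
    | insert z U hz ih =>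
      intro hx hy
      rw [mem_insert, not_or] at hx hy
      have hz' : z ∉ U ∪ {x, y} := by simp [hz, Ne.symm hx.1, Ne.symm hy.1]
      rw [insert_union, card_insert_of_notMem hz]
      have h1 := ih hx.2 hy.2
      have h2 := card_insert_of_notMem (grow _ z hz')
      refine le_trans ?_ (h2.symm.trans_le (card_le_card ?_))
      · omega
      apply insert_subset
      · exact mem_image.2 ⟨_, mem_powerset_self _, rfl⟩
      · exact image_subset_image (powerset_mono.2 (subset_insert _ _))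
  have h1 := key (univ \ {x, y}) (by simp) (by simp)
  have h2 := card_sdiff_add_card_eq_card (subset_univ ({x, y} : Finset ι))
  have h3 := card_le_univ (((univ \ {x, y}) ∪ {x, y} : Finset ι).powerset.image
    (fun A => ∑ i ∈ A, a i))
  rw [card_pair hxy, card_univ] at h2
  omega

end Pool.Agent.H14.Dv
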