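import Mathlib

set_option maxHeartbeats 1000000

namespace Pool.Agent.H14.EqS

open Finset

theorem greedy {V : Type*} [Fintype V] [DecidableEq V] (g h : V → ℕ) (hgh : ∀ v, g v ≠ h v)
    (cap : ℕ) (hcap : Fintype.card V ≤ 2 * cap) (S : Finset V) (c0 : V → ℕ)
    (h0 : ∀ a, (S.filter (fun v => c0 v = a)).card ≤ cap) (U : Finset V) (hU : Disjoint S U) :
    ∃ c : V → ℕ, (∀ v ∈ S, c v = c0 v) ∧ (∀ v ∈ U, c v = g v ∨ c v = h v) ∧
      ∀ a, ((S ∪ U).filter (fun v => c v = a)).card ≤ cap := by
  induction U using Finset.induction_on with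
  | empty => exact ⟨c0, fun _ _ => rfl, by simp, by simpa using h0⟩
  | insert z U hz ih =>
    rw [disjoint_insert_right] at hU
    obtain ⟨c, h1, h2, h3⟩ := ih hU.2
    have hz' : z ∉ S ∪ U := by simp [hz, hU.1]
    have : ∃ b, (b = g z ∨ b = h z) ∧ ((S ∪ U).filter (fun v => c v = b)).card < cap := by
      by_contra hc
      push Not at hc
      have e1 := hc _ (Or.inl rfl)
      have e2 := hc _ (Or.inr rfl)
      have e3 : Disjoint ((S ∪ U).filter (fun v => c v = g z)) ((S ∪ U).filter (fun v => c v = h z)) :=
        disjoint_filter.2 fun v _ h1 h2 => hgh z (h1.symm.trans h2)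
      have e4 := card_le_card (union_subset (filter_subset (fun v => c v = g z) (S ∪ U))
        (filter_subset (fun v => c v = h z) (S ∪ U)))
      rw [card_union_of_disjoint e3] at e4
      have e5 := card_le_univ (insert z (S ∪ U))
      rw [card_insert_of_notMem hz'] at e5
      omega
    obtain ⟨b, hb, hb'⟩ := this
    refine ⟨Function.update c z b, fun v hv => ?_, fun v hv => ?_, fun a => ?_⟩
    · rw [Function.update_of_ne (by rintro rfl; exact hU.1 hv), h1 v hv]
    · by_cases e : v = z
      · subst e; simpa using hb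
      · rw [Function.update_of_ne e]; exact h2 v (by simpa [e] using hv)
    · have e : (S ∪ U).filter (fun v => Function.update c z b v = a) =
          (S ∪ U).filter (fun v => c v = a) :=
        filter_congr fun v hv => by rw [Function.update_of_ne (by rintro rfl; exact hz' hv)]
      rw [union_insert, filter_insert, e, Function.update_self]
      split_ifs with e'
      · subst e'; exact (card_insert_le _ _).trans hb'
      · exact h3 a

/-- forced indicator -/
def ff (ctr : Bool) (g h a c : ℕ) : ℕ :=
  if ctr then (if a = c then 1 else 0) else if (g = a ∧ h = c) ∨ (g = c ∧ h = a) then 1 else 0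

def qq (ctr : Bool) (g h x y : ℕ) : ℕ :=
  if ctr then 0 else if (g = x ∧ h = y) ∨ (g = y ∧ h = x) then 1 else 0

section core
variable {V ι : Type*} [Fintype V] (σ : V → ι) (ctr : V → Bool) (g h : V → ℕ) (x y : ι → ℕ)

def F (s : ι → Bool) (c : ℕ) : ℕ :=
  ∑ v, ff (ctr v) (g v) (h v) (if s (σ v) then x (σ v) else y (σ v)) c

def Qin (e : ℕ) : ℕ :=
  ∑ v, if e = x (σ v) ∨ e = y (σ v) then qq (ctr v) (g v) (h v) (x (σ v)) (y (σ v)) else 0

def Qout (e : ℕ) : ℕ :=
  ∑ v, if e = x (σ v) ∨ e = y (σ v) then 0 else qq (ctr v) (g v) (h v) (x (σ v)) (y (σ v))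

variable (hgh : ∀ v, g v ≠ h v) (hxy : ∀ k, x k ≠ y k)
  (c : (ι → Bool) → ℕ) (hc : ∀ s, Fintype.card V < 2 * F σ ctr g h x y s (c s))
  (hB : ∀ B : ι → Bool, ∑ v, (if ctr v = true ∧ B (σ v) = true then 1 else 0) ≤
    ∑ v, (if ctr v = false ∧ B (σ v) = true then 1 else 0))
include hgh hxy hc hB

theorem compl_ne (s : ι → Bool) : c s ≠ c (fun k => !s k) := by
  intro e
  have h1 := hc s
  have h2 := hc (fun k => !s k)
  have : F σ ctr g h x y s (c s) + F σ ctr g h x y (fun k => !s k) (c (fun k => !s k)) ≤
      ∑ _v : V, 1 := by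
    rw [← e, F, F, ← sum_add_distrib]
    refine sum_le_sum fun v _ => ?_
    have := hgh v; have := hxy (σ v)
    unfold ff; cases s (σ v) <;> cases ctr v <;> grind
  simp only [sum_const, card_univ, smul_eq_mul, mul_one] at this; omega

theorem face (s t : ι → Bool) (ht : ∀ k, (if t k then x k else y k) ≠ c s) : c t = c s := by
  by_contra e
  have h1 := hc s
  have h2 := hc t
  have h3 := hB (fun k => decide ((if s k then x k else y k) = c s ∧ (if t k then x k else y k) = c t))
  have : F σ ctr g h x y s (c s) + F σ ctr g h x y t (c t) +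
      ∑ v, (if ctr v = false ∧ (fun k => decide ((if s k then x k else y k) = c s ∧ (if t k then x k else y k) = c t)) (σ v) = true then 1 else 0) ≤ ∑ _v : V, 1 +
      ∑ v, (if ctr v = true ∧ (fun k => decide ((if s k then x k else y k) = c s ∧ (if t k then x k else y k) = c t)) (σ v) = true then 1 else 0) := by
    rw [F, F, ← sum_add_distrib, ← sum_add_distrib, ← sum_add_distrib]
    refine sum_le_sum fun v _ => ?_
    have := hgh v; have := hxy (σ v); have := ht (σ v)
    revert this
    beta_reduce
    unfold ff; cases s (σ v) <;> cases t (σ v) <;> cases ctr v <;> grind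
  simp only [sum_const, card_univ, smul_eq_mul, mul_one] at this; omega

theorem out_lt (s : ι → Bool) : Qout σ ctr g h x y (c s) < Qin σ ctr g h x y (c s) := by
  have h1 := hc (fun k => decide (x k ≠ c s))
  have h2 := hc (fun k => decide (y k = c s))
  rw [face σ ctr g h x y hgh hxy c hc hB s (fun k => decide (x k ≠ c s))
    (fun k => by have := hxy k; grind)] at h1
  rw [face σ ctr g h x y hgh hxy c hc hB s (fun k => decide (y k = c s))
    (fun k => by have := hxy k; grind)] at h2
  have : F σ ctr g h x y (fun k => decide (x k ≠ c s)) (c s) +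
      F σ ctr g h x y (fun k => decide (y k = c s)) (c s) + Qout σ ctr g h x y (c s) ≤
      ∑ _v : V, 1 + Qin σ ctr g h x y (c s) := by
    rw [F, F, Qin, Qout, ← sum_add_distrib, ← sum_add_distrib, ← sum_add_distrib]
    refine sum_le_sum fun v _ => ?_
    have := hgh v; have := hxy (σ v)
    unfold ff qq; cases ctr v <;> grind
  simp only [sum_const, card_univ, smul_eq_mul, mul_one] at this; omega

theorem no_four (s1 s2 s3 s4 : ι → Bool) (h12 : c s1 ≠ c s2) (h13 : c s1 ≠ c s3)
    (h14 : c s1 ≠ c s4) (h23 : c s2 ≠ c s3) (h24 : c s2 ≠ c s4) (h34 : c s3 ≠ c s4) : False := by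
  have h1 := out_lt σ ctr g h x y hgh hxy c hc hB s1
  have h2 := out_lt σ ctr g h x y hgh hxy c hc hB s2
  have h3 := out_lt σ ctr g h x y hgh hxy c hc hB s3
  have h4 := out_lt σ ctr g h x y hgh hxy c hc hB s4
  have : Qin σ ctr g h x y (c s1) + Qin σ ctr g h x y (c s2) + Qin σ ctr g h x y (c s3) +
      Qin σ ctr g h x y (c s4) ≤ Qout σ ctr g h x y (c s1) + Qout σ ctr g h x y (c s2) +
      Qout σ ctr g h x y (c s3) + Qout σ ctr g h x y (c s4) := by
    simp only [Qin, Qout, ← sum_add_distrib]
    refine sum_le_sum fun v _ => ?_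
    grind
  omega

theorem cyc (s r : ι → Bool)
    (h1 : ∀ k, ¬ ((if s k then x k else y k) = c r ∧ (if s k then y k else x k) = c s))
    (h2 : ∀ k, ¬ ((if s k then y k else x k) = c r ∧
      (if s k then x k else y k) = c (fun k => !s k))) (h3 : c r ≠ c s)
      (h4 : c r ≠ c (fun k => !s k)) : False := by
  have e0 := compl_ne σ ctr g h x y hgh hxy c hc hB s
  have e1 := hc s
  have e2 := hc (fun k => !s k)
  have e3 := out_lt σ ctr g h x y hgh hxy c hc hB r
  have h5 := hB (fun k => decide ((if s k then x k else y k) = c s ∧ (if s k then y k else x k) = c (fun k => !s k)))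
  have : F σ ctr g h x y s (c s) + F σ ctr g h x y (fun k => !s k) (c (fun k => !s k)) +
      Qin σ ctr g h x y (c r) +
      ∑ v, (if ctr v = false ∧ (fun k => decide ((if s k then x k else y k) = c s ∧ (if s k then y k else x k) = c (fun k => !s k))) (σ v) = true then 1 else 0) ≤
      ∑ _v : V, 1 + Qout σ ctr g h x y (c r) +
      ∑ v, (if ctr v = true ∧ (fun k => decide ((if s k then x k else y k) = c s ∧ (if s k then y k else x k) = c (fun k => !s k))) (σ v) = true then 1 else 0) := by
    rw [F, F, Qin, Qout]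
    simp only [← sum_add_distrib]
    refine sum_le_sum fun v _ => ?_
    have := hgh v; have := hxy (σ v); have a1 := h1 (σ v); have a2 := h2 (σ v)
    revert a1 a2
    unfold ff qq
    rcases Bool.eq_false_or_eq_true (s (σ v)) with hs | hs <;>
      rcases Bool.eq_false_or_eq_true (ctr v) with hv | hv <;> simp [hs, hv] <;> grind
  simp only [sum_const, card_univ, smul_eq_mul, mul_one] at this; omega

theorem noexc (s : ι → Bool)
    (h1 : ∀ k, ¬ ((if s k then x k else y k) = c (fun k => !s k) ∧
      (if s k then y k else x k) = c s)) : False := by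
  have e0 := compl_ne σ ctr g h x y hgh hxy c hc hB s
  have e1 := hc s
  have e2 := hc (fun k => !s k)
  have h5 := hB (fun k => decide ((if s k then x k else y k) = c s ∧ (if s k then y k else x k) = c (fun k => !s k)))
  have : F σ ctr g h x y s (c s) + F σ ctr g h x y (fun k => !s k) (c (fun k => !s k)) +
      ∑ v, (if ctr v = false ∧ (fun k => decide ((if s k then x k else y k) = c s ∧ (if s k then y k else x k) = c (fun k => !s k))) (σ v) = true then 1 else 0) ≤ ∑ _v : V, 1 +
      ∑ v, (if ctr v = true ∧ (fun k => decide ((if s k then x k else y k) = c s ∧ (if s k then y k else x k) = c (fun k => !s k))) (σ v) = true then 1 else 0) := by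
    rw [F, F]
    simp only [← sum_add_distrib]
    refine sum_le_sum fun v _ => ?_
    have := hgh v; have := hxy (σ v); have a1 := h1 (σ v)
    revert a1
    unfold ff
    rcases Bool.eq_false_or_eq_true (s (σ v)) with hs | hs <;>
      rcases Bool.eq_false_or_eq_true (ctr v) with hv | hv <;> simp [hs, hv] <;> grind
  simp only [sum_const, card_univ, smul_eq_mul, mul_one] at this; omega

theorem no_three (s1 s2 s3 : ι → Bool) (h12 : c s1 ≠ c s2) (h13 : c s1 ≠ c s3)
    (h23 : c s2 ≠ c s3) : False := by
  let s : ι → Bool := fun k => decide ((x k = c s1 ∧ y k = c s2) ∨ (x k = c s2 ∧ y k = c s3) ∨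
    (x k = c s3 ∧ y k = c s1))
  have e0 := compl_ne σ ctr g h x y hgh hxy c hc hB s
  have n1 := no_four σ ctr g h x y hgh hxy c hc hB s1 s2 s3 s h12 h13
  have n2 := no_four σ ctr g h x y hgh hxy c hc hB s1 s2 s3 (fun k => !s k) h12 h13
  have m0 := noexc σ ctr g h x y hgh hxy c hc hB s
  have m1 := cyc σ ctr g h x y hgh hxy c hc hB s s1
  have m2 := cyc σ ctr g h x y hgh hxy c hc hB s s2
  have m3 := cyc σ ctr g h x y hgh hxy c hc hB s s3
  generalize c (fun k => !s k) = d' at *
  generalize c s = d at *
  have a1 : d = c s1 ∨ d = c s2 ∨ d = c s3 := by grind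
  have a2 : d' = c s1 ∨ d' = c s2 ∨ d' = c s3 := by grind
  rcases a1 with rfl | rfl | rfl <;> rcases a2 with rfl | rfl | rfl
  · exact e0 rfl
  · exact m0 fun k => by simp only [s]; grind
  · exact m2 (fun k => by simp only [s]; grind) (fun k => by simp only [s]; grind) h12.symm h23
  · exact m3 (fun k => by simp only [s]; grind) (fun k => by simp only [s]; grind) h23.symm h13.symm
  · exact e0 rfl
  · exact m0 fun k => by simp only [s]; grind
  · exact m0 fun k => by simp only [s]; grind
  · exact m1 (fun k => by simp only [s]; grind) (fun k => by simp only [s]; grind) h13 h12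
  · exact e0 rfl

end core

end Pool.Agent.H14.EqS
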