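import Pool.Agent.H14.Tb2
set_option autoImplicit false
set_option maxHeartbeats 400000

namespace Pool.Agent.H14.Ex
open Polynomial Finset Filter Equiv Pool.Agent.H14.Tb

def exc {n : ℕ} (σ : Perm (Fin n)) : ℕ := (univ.filter fun i => i < σ i).card

lemma exc_zero {n : ℕ} (e : Perm (Fin n)) : exc (Perm.decomposeFin.symm (0, e)) = exc e := by
  simp only [exc, card_filter, Fin.sum_univ_succ, Perm.decomposeFin_symm_apply_zero,
    Perm.decomposeFin_symm_apply_succ, swap_self, refl_apply, Fin.succ_lt_succ_iff, lt_irrefl,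
    if_false, zero_add]

lemma exc_succ {n : ℕ} (e : Perm (Fin n)) (x : Fin n) :
    exc (Perm.decomposeFin.symm ((e x).succ, e)) = if x < e x then exc e else exc e + 1 := by
  simp only [exc, card_filter, Fin.sum_univ_succ, Perm.decomposeFin_symm_apply_zero,
    Perm.decomposeFin_symm_apply_succ, Fin.succ_pos, if_true]
  rw [← add_sum_erase _ _ (mem_univ x), ← add_sum_erase _ (fun i => if i < e i then 1 else 0)
    (mem_univ x), swap_apply_right, if_neg (Fin.not_lt_zero _),
    sum_congr rfl (g := fun i => if i < e i then 1 else 0) fun i hi => by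
      rw [swap_apply_of_ne_of_ne (Fin.succ_ne_zero _) (fun h =>
        (mem_erase.1 hi).1 (e.injective (Fin.succ_injective _ h)))]
      simp only [Fin.succ_lt_succ_iff]]
  split_ifs <;> omega

noncomputable def W (s : Bool) (n : ℕ) : ℝ[X] :=
  ∑ σ : Perm (Fin n), C (if s then ((Perm.sign σ : ℤ) : ℝ) else 1) * X ^ exc σ

lemma W_succ (s : Bool) (n : ℕ) : W s (n + 1) = W s n + C (if s then -1 else 1) *
    ((n : ℝ[X]) * X * W s n + (1 - X) * (X * derivative (W s n))) := by
  rw [W, ← Perm.decomposeFin.symm.sum_comp, Fintype.sum_prod_type_right, W, derivative_sum,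
    mul_sum, mul_sum, mul_sum, ← sum_add_distrib, mul_sum, ← sum_add_distrib]
  refine sum_congr rfl fun e _ => ?_
  rw [Fin.sum_univ_succ, exc_zero, ← Equiv.sum_comp e]
  simp only [exc_succ, Perm.decomposeFin.symm_sign, if_true, Fin.succ_ne_zero, if_false, one_mul]
  have h := card_filter_add_card_filter_not (s := univ) (fun i => i < e i)
  rw [card_univ, Fintype.card_fin] at h
  have h' : ((univ.filter fun i => ¬ i < e i).card : ℝ[X]) = n - exc e := by
    rw [eq_sub_iff_add_eq', exc, ← Nat.cast_add, h]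
  have d := mul_der_pow X (exc e)
  rw [derivative_X] at d
  simp only [apply_ite (fun k => (X : ℝ[X]) ^ k), mul_ite]
  rw [sum_ite, sum_const, sum_const, nsmul_eq_mul, nsmul_eq_mul, h', ← exc, derivative_C_mul,
    pow_succ]
  cases s
  · simp only [Bool.false_eq_true, if_false, C_1]
    linear_combination (X - 1) * d
  · simp only [if_true, Units.val_mul, Units.val_neg, Units.val_one, Int.cast_mul, Int.cast_neg,
      Int.cast_one, C_mul, C_neg, C_1]
    linear_combination (1 - X) * C ((Perm.sign e : ℤ) : ℝ) * d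

lemma W_one (s : Bool) : W s 1 = 1 := by
  rw [W_succ]
  simp [W, exc]

lemma W_true (m : ℕ) : W true (m + 1) = (1 - X) ^ m := by
  induction m with
  | zero => simp [W_one]
  | succ m ih =>
    have d := mul_der_pow (1 - X) m
    rw [derivative_sub, derivative_one, derivative_X] at d
    rw [W_succ, ih, pow_succ]
    simp only [if_true, C_neg, C_1]
    push_cast
    linear_combination (-X) * d

noncomputable def R : ℕ → ℝ[X]
  | 0 => 1
  | m + 1 => X * R m + C (1 / 2) * (X * (X * derivative (R m))) - C (1 / 2) * derivative (R m)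

lemma W_false (m : ℕ) (t : ℂ) (ht : t ≠ 1) :
    aeval t (W false (m + 1)) = (1 - t) ^ m * aeval ((1 + t) / (1 - t)) (R m) := by
  induction m generalizing t with
  | zero => simp [W_one, R]
  | succ m ih =>
    have h1 : (1 : ℂ) - t ≠ 0 := sub_ne_zero.2 ht.symm
    have a := (W false (m + 1)).hasDerivAt_aeval t
    have b1 : HasDerivAt (fun t : ℂ => 1 - t) (-1) t := (hasDerivAt_id t).const_sub 1
    have b2 : HasDerivAt (fun t : ℂ => (1 + t) / (1 - t)) _ t :=
      ((hasDerivAt_id t).const_add 1).div b1 h1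
    have b3 := (b1.pow m).mul (((R m).hasDerivAt_aeval _).comp t b2)
    have c := a.unique (b3.congr_of_eventuallyEq (by
      filter_upwards [isOpen_ne.mem_nhds ht] with u hu
      exact ih u hu))
    rw [W_succ]
    simp only [Bool.false_eq_true, if_false, C_1, R, map_add, map_mul, map_sub, map_one, aeval_X,
      map_natCast, aeval_C, c, ih t ht, Function.comp_apply, Pi.pow_apply, id]
    generalize aeval ((1 + t) / (1 - t)) (R m) = u
    generalize aeval ((1 + t) / (1 - t)) (derivative (R m)) = v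
    have e : (algebraMap ℝ ℂ) (1 / 2) = 1 / 2 := by simp
    rw [e]
    cases m with
    | zero => field_simp; ring
    | succ m =>
      rw [Nat.add_sub_cancel, pow_succ _ (m + 1), pow_succ _ m]
      generalize (1 - t) ^ m = w
      push_cast
      field_simp
      ring

lemma R_one (m : ℕ) : (R m).eval 1 = 1 := by
  induction m with
  | zero => simp [R]
  | succ m ih => simp [R, ih]

lemma R_neg (m : ℕ) : (R m).comp (-X) = (-1) ^ m * R m := by
  induction m with
  | zero => simp [R]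
  | succ m ih =>
    have d := congrArg derivative ih
    have e : ((-1 : ℝ[X]) ^ m) = C ((-1) ^ m) := by simp
    rw [derivative_comp, e, derivative_C_mul, ← e, derivative_neg, derivative_X] at d
    simp only [R, add_comp, sub_comp, mul_comp, X_comp, C_comp, ih, pow_succ]
    linear_combination (C (1 / 2) * (1 - X ^ 2)) * d

lemma R_c0 (m : ℕ) : (R (m + 1)).coeff 0 = -(1 / 2) * (R m).coeff 1 := by
  simp [R, coeff_derivative]

lemma R_cs (m k : ℕ) : (R (m + 1)).coeff (k + 1) =
    ((k : ℝ) + 2) / 2 * ((R m).coeff k - (R m).coeff (k + 2)) := by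
  rw [R, coeff_sub, coeff_add, coeff_C_mul, coeff_C_mul, coeff_X_mul, coeff_X_mul, coeff_XD,
    coeff_derivative]
  push_cast
  ring

lemma R_deg (m : ℕ) : (R m).natDegree ≤ m := by
  induction m with
  | zero => simp [R]
  | succ m ih =>
    refine natDegree_le_iff_coeff_eq_zero.2 fun j hj => ?_
    obtain ⟨k, rfl⟩ : ∃ k, j = k + 1 := ⟨j - 1, by omega⟩
    rw [R_cs, coeff_eq_zero_of_natDegree_lt (by omega), coeff_eq_zero_of_natDegree_lt (by omega)]
    simp

noncomputable def dd (m k : ℕ) : ℝ := (-1) ^ ((m + 3 * k) / 2) * (R m).coeff k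

lemma dd0 (m : ℕ) : dd (m + 1) 0 = 1 / 2 * dd m 1 := by
  rw [dd, dd, R_c0, show (m + 3 * 1) / 2 = (m + 1 + 3 * 0) / 2 + 1 by omega, pow_succ]
  ring

lemma dds (m k : ℕ) : dd (m + 1) (k + 1) = ((k : ℝ) + 2) / 2 * (dd m k + dd m (k + 2)) := by
  rw [dd, dd, dd, R_cs, show (m + 1 + 3 * (k + 1)) / 2 = (m + 3 * k) / 2 + 2 by omega,
    show (m + 3 * (k + 2)) / 2 = (m + 3 * k) / 2 + 3 by omega, pow_add, pow_add]
  ring

lemma dd_nonneg (m k : ℕ) : 0 ≤ dd m k := by
  induction m generalizing k with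
  | zero =>
    cases k with
    | zero => simp [dd, R]
    | succ k => simp [dd, R, coeff_one]
  | succ m ih =>
    cases k with
    | zero => rw [dd0]; have := ih 1; positivity
    | succ k => rw [dds]; have := ih k; have := ih (k + 2); positivity

lemma R5 : R 5 = C (45 / 2) * X ^ 5 - C 30 * X ^ 3 + C (17 / 2) * X := by
  ext k
  rcases k with _ | _ | _ | _ | _ | _ | k
  all_goals first
    | rw [coeff_eq_zero_of_natDegree_lt ((R_deg 5).trans_lt (by omega))]
      simp [coeff_X, coeff_X_pow]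
    | simp only [R_cs, R_c0, zero_add, Nat.reduceAdd]
      norm_num [R, coeff_one, coeff_X, coeff_X_pow]

lemma R6 : R 6 = C (315 / 4) * X ^ 6 - C (525 / 4) * X ^ 4 + C (231 / 4) * X ^ 2 - C (17 / 4) := by
  ext k
  rcases k with _ | _ | _ | _ | _ | _ | _ | k
  all_goals first
    | rw [coeff_eq_zero_of_natDegree_lt ((R_deg 6).trans_lt (by omega))]
      simp [coeff_X, coeff_X_pow, coeff_C]
    | simp only [R_cs 5, R_c0 5, R5]
      norm_num [coeff_one, coeff_X, coeff_X_pow, coeff_C]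

lemma center (r : ℕ) : 4 ≤ (-1) ^ (r + 3) * (R (2 * (r + 3))).eval 0 := by
  have e : ∀ r, (-1) ^ r * (R (2 * r)).eval 0 = dd (2 * r) 0 := fun r => by
    rw [dd, coeff_zero_eq_eval_zero]; congr 2; omega
  induction r with
  | zero => norm_num [R6]
  | succ r ih =>
    rw [e] at ih ⊢
    rw [show 2 * (r + 1 + 3) = 2 * (r + 3) + 1 + 1 by ring, dd0, dds]
    have a := dds (2 * r + 5) 1
    have b := dd0 (2 * r + 5)
    have c := dd_nonneg (2 * r + 5) (1 + 2)
    rw [show 2 * (r + 3) = 2 * r + 5 + 1 by ring] at ih ⊢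
    norm_num at a b c ih ⊢
    linarith

noncomputable def G (m : ℕ) (y : ℝ) : ℝ := (1 - y ^ 2) / 4 * (R m).eval y

def Alt (m r : ℕ) (p : ℕ → ℝ) : Prop :=
  p 0 = 1 ∧ (∀ j, j < r → p (j + 1) < p j) ∧ 0 ≤ p r ∧
    ∀ j, j ≤ r → (1 - p j) / (1 + p j) ≤ (-1) ^ j * G m (p j)

lemma mvt (m : ℕ) (a b ε : ℝ) (h0 : 0 ≤ a) (hab : a < b) (h1 : b ≤ 1)
    (ha : (1 - a) / (1 + a) ≤ -ε * G m a) (hb : (1 - b) / (1 + b) ≤ ε * G m b) :
    ∃ c, a < c ∧ c < b ∧ (1 - c) / (1 + c) ≤ -ε * G (m + 1) c := by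
  have hd : ∀ y, 0 ≤ y → HasDerivAt (fun y => -ε * G m y - (1 - y) / (1 + y))
      (-ε * (-(2 * y) / 4 * (R m).eval y + (1 - y ^ 2) / 4 * (derivative (R m)).eval y)
        - (-1 * (1 + y) - (1 - y) * 1) / (1 + y) ^ 2) y := fun y hy => by
    have a1 : HasDerivAt (fun y : ℝ => (1 - y ^ 2) / 4) (-(2 * y) / 4) y := by
      simpa using ((hasDerivAt_pow 2 y).const_sub 1).div_const 4
    exact ((a1.mul ((R m).hasDerivAt y)).const_mul _).sub
      (((hasDerivAt_id y).const_sub 1).div ((hasDerivAt_id y).const_add 1) (by positivity))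
  obtain ⟨c, ⟨c1, c2⟩, hc⟩ := exists_hasDerivAt_eq_slope _ _ hab
    (fun y hy => (hd y (h0.trans hy.1)).continuousAt.continuousWithinAt)
    (fun y hy => hd y (h0.trans hy.1.le))
  refine ⟨c, c1, c2, ?_⟩
  have hb0 : 0 ≤ (1 - b) / (1 + b) := div_nonneg (by linarith) (by linarith)
  have h2 := hc.trans_le (div_nonpos_of_nonpos_of_nonneg (by linarith) (by linarith))
  have h3 : 0 < 1 + c := by linarith
  have h4 := mul_nonneg (show 0 ≤ (1 - c) * (1 + c) / 2 from
    div_nonneg (mul_nonneg (by linarith) h3.le) zero_le_two) (neg_nonneg.2 h2)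
  rw [← sub_nonneg]
  refine h4.trans_eq ?_
  simp only [G, R, eval_add, eval_sub, eval_mul, eval_X, eval_C]
  field_simp
  ring

lemma anti {p : ℕ → ℝ} {r : ℕ} (h : ∀ j, j < r → p (j + 1) < p j) (i j : ℕ) (hij : i ≤ j)
    (hj : j ≤ r) : p j ≤ p i := by
  induction j, hij using Nat.le_induction with
  | base => exact le_rfl
  | succ j _ ih => exact (h j (by omega)).le.trans (ih (by omega))

lemma Alt.step {m r : ℕ} {p : ℕ → ℝ} (h : Alt m r p) : ∃ q, Alt (m + 1) r q ∧ 0 < q r := by
  obtain ⟨h0, h1, h2, h3⟩ := h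
  have : ∀ j, ∃ c, j < r → p (j + 1) < c ∧ c < p j ∧
      (1 - c) / (1 + c) ≤ (-1) ^ (j + 1) * G (m + 1) c := fun j => by
    by_cases hj : j < r
    · obtain ⟨c, hc⟩ := mvt m (p (j + 1)) (p j) ((-1) ^ j) (h2.trans (anti h1 _ _ hj le_rfl))
        (h1 j hj) (h0 ▸ anti h1 0 j (by omega) hj.le)
        (by rw [← mul_neg_one, ← pow_succ]; exact h3 _ hj) (h3 _ hj.le)
      exact ⟨c, fun _ => by rwa [pow_succ, mul_neg_one]⟩
    · exact ⟨0, fun h => absurd h hj⟩
  choose c hc using this
  have hq : 0 < (fun j => Nat.casesOn j 1 c : ℕ → ℝ) r := by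
    cases r with
    | zero => exact one_pos
    | succ r => exact h2.trans_lt (hc r (by omega)).1
  refine ⟨fun j => Nat.casesOn j 1 c, ⟨rfl, fun j hj => ?_, hq.le, fun j hj => ?_⟩, hq⟩
  · cases j with
    | zero => exact h0 ▸ (hc 0 hj).2.1
    | succ j => exact (hc _ hj).2.1.trans (hc j (by omega)).1
  · cases j with
    | zero => simp [G]
    | succ j => exact (hc j hj).2.2

lemma alt_even (r : ℕ) : ∃ p, Alt (2 * (r + 3)) (r + 3) p := by
  induction r with
  | zero =>
    refine ⟨fun j => if j = 0 then 1 else if j = 1 then 9 / 10 else if j = 2 then 3 / 5 else 0,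
      rfl, fun j hj => ?_, by norm_num, fun j hj => ?_⟩
    · interval_cases j <;> norm_num
    · interval_cases j <;> norm_num [G, R6]
  | succ r ih =>
    obtain ⟨p, hp⟩ := ih
    obtain ⟨q, hq, -⟩ := hp.step
    obtain ⟨u, ⟨h0, h1, h2, h3⟩, hu⟩ := hq.step
    refine ⟨fun j => if j ≤ r + 3 then u j else 0, by simpa using h0, fun j hj => ?_,
      by simp, fun j hj => ?_⟩
    · simp only
      rw [if_pos (show j ≤ r + 3 by omega)]
      split_ifs with h
      · exact h1 j h
      · rwa [show j = r + 3 by omega]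
    · simp only
      split_ifs with h
      · exact h3 j h
      · have := center (r + 1)
        rw [show j = r + 1 + 3 by omega, G]
        norm_num at this ⊢
        linarith

def Fine (m : ℕ) (p : ℕ → ℝ) : Prop :=
  p 0 = 1 ∧ (∀ j, j < m / 2 → p (j + 1) < p j) ∧ 0 ≤ p (m / 2) ∧
    ∀ j, 1 ≤ j → j ≤ m / 2 → 1 < (-1) ^ j * (R m).eval (p j)

lemma Alt.fine {m : ℕ} {p : ℕ → ℝ} (h : Alt m (m / 2) p) : Fine m p := by
  obtain ⟨h0, h1, h2, h3⟩ := h
  refine ⟨h0, h1, h2, fun j hj hj' => ?_⟩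
  have a := h3 j hj'
  have b : 0 ≤ p j := h2.trans (anti h1 _ _ hj' le_rfl)
  have c : p j < 1 := (anti h1 1 j hj hj').trans_lt (h0 ▸ h1 0 (by omega))
  rw [G, div_le_iff₀ (by linarith)] at a
  generalize (R m).eval (p j) = v at *
  generalize (-1 : ℝ) ^ j = s at *
  have d : 1 ≤ (1 + p j) ^ 2 / 4 * (s * v) :=
    le_of_mul_le_mul_left (a := 1 - p j) (by nlinarith) (by linarith)
  by_contra e
  have f : (1 + p j) ^ 2 / 4 < 1 := by nlinarith
  nlinarith [sq_nonneg (1 + p j)]

lemma fine (m : ℕ) (hm : 5 ≤ m) : ∃ p, Fine m p := by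
  rcases hm.eq_or_lt with rfl | hm
  · refine ⟨fun j => if j = 0 then 1 else if j = 1 then 83 / 100 else 1 / 3,
      rfl, fun j hj => ?_, by norm_num, fun j hj hj' => ?_⟩
    · interval_cases j <;> norm_num
    · interval_cases j <;> norm_num [R5]
  · obtain ⟨p, hp⟩ := alt_even (m / 2 - 3)
    rw [show m / 2 - 3 + 3 = m / 2 by omega] at hp
    rcases Nat.mod_two_eq_zero_or_one m with h | h
    · rw [show 2 * (m / 2) = m by omega] at hp
      exact ⟨p, hp.fine⟩
    · obtain ⟨q, hq, -⟩ := hp.step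
      rw [show 2 * (m / 2) + 1 = m by omega] at hq
      exact ⟨q, hq.fine⟩

lemma half {m : ℕ} {p : ℕ → ℝ} (h : Fine m p) (ε : ℝ) (hε : ε = 1 ∨ ε = -1) :
    ∃ S : Finset ℝ, S.card = m / 2 ∧ ∀ t ∈ S, p (m / 2) < t ∧ (R m).eval t = ε := by
  obtain ⟨h0, h1, h2, h3⟩ := h
  have pm : ∀ j : ℕ, (-1 : ℝ) ^ j = 1 ∨ (-1 : ℝ) ^ j = -1 := fun j => neg_one_pow_eq_or ℝ j
  have : ∀ j, ∃ c, j < m / 2 → p (j + 1) < c ∧ c ≤ p j ∧ (R m).eval c = ε := fun j => by
    by_cases hj : j < m / 2
    · have a := h3 (j + 1) (by omega) hj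
      have b : 1 ≤ (-1) ^ j * (R m).eval (p j) := by
        rcases Nat.eq_zero_or_pos j with rfl | h
        · simp [h0, R_one]
        · exact (h3 j h hj.le).le
      rw [pow_succ] at a
      rcases pm j with e | e <;> rw [e] at a b
      · obtain ⟨c, hc, hc'⟩ := intermediate_value_Ioc (h1 j hj).le (R m).continuous.continuousOn
          (show ε ∈ Set.Ioc _ _ from ⟨by rcases hε with rfl | rfl <;> linarith,
            by rcases hε with rfl | rfl <;> linarith⟩)
        exact ⟨c, fun _ => ⟨hc.1, hc.2, hc'⟩⟩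
      · obtain ⟨c, hc, hc'⟩ := intermediate_value_Ioc' (h1 j hj).le (R m).continuous.continuousOn
          (show ε ∈ Set.Ico _ _ from ⟨by rcases hε with rfl | rfl <;> linarith,
            by rcases hε with rfl | rfl <;> linarith⟩)
        exact ⟨c, fun _ => ⟨hc.1, hc.2, hc'⟩⟩
    · exact ⟨0, fun h => absurd h hj⟩
  choose c hc using this
  have lt : ∀ i j, i < j → j < m / 2 → c j < c i := fun i j hij hj =>
    ((hc j hj).2.1.trans (anti h1 _ _ hij hj.le)).trans_lt (hc i (by omega)).1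
  refine ⟨(range (m / 2)).image c, ?_, fun t ht => ?_⟩
  · rw [card_image_of_injOn, card_range]
    intro i hi j hj e
    rw [coe_range, Set.mem_Iio] at hi hj
    rcases lt_trichotomy i j with h | h | h
    · exact absurd e (lt i j h hj).ne'
    · exact h
    · exact absurd e (lt j i h hi).ne
  · obtain ⟨j, hj, rfl⟩ := mem_image.1 ht
    rw [mem_range] at hj
    exact ⟨(anti h1 _ _ hj le_rfl).trans_lt (hc j hj).1, (hc j hj).2.2⟩

lemma R_real (m : ℕ) (hm : 5 ≤ m) (ε : ℝ) (hε : ε = 1 ∨ ε = -1) (z : ℂ)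
    (hz : aeval z (R m) = ε) : z.im = 0 := by
  obtain ⟨p, hp⟩ := fine m hm
  have hn : ∀ t, (R m).eval (-t) = (-1) ^ m * (R m).eval t := fun t => by
    simpa [eval_comp] using congrArg (eval t) (R_neg m)
  obtain ⟨S1, c1, s1⟩ := half hp ε hε
  obtain ⟨S2, c2, s2⟩ := half hp ((-1) ^ m * ε) (by
    rcases neg_one_pow_eq_or ℝ m with e | e <;> rcases hε with rfl | rfl <;> simp [e])
  have hp0 := hp.2.2.1
  have h3 := hp.2.2.2 (m / 2) (by omega) le_rfl
  have sq : ∀ k : ℕ, ((-1 : ℝ) ^ k) ^ 2 = 1 := fun k => by rw [← pow_mul, mul_comm, pow_mul]; simp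
  have ε2 : ε ^ 2 = 1 := by rcases hε with rfl | rfl <;> norm_num
  have h4 : 1 < (R m).eval (p (m / 2)) ^ 2 := by nlinarith [sq (m / 2)]
  have hP : R m - C ε ≠ 0 := fun h => by
    rw [sub_eq_zero.1 h, eval_C] at h4
    linarith
  obtain ⟨S, cS, hS⟩ : ∃ S : Finset ℝ, m ≤ S.card ∧ ∀ t ∈ S, (R m).eval t = ε := by
    have d : Disjoint S1 (S2.image Neg.neg) := disjoint_left.2 fun t h1 h2 => by
      obtain ⟨u, hu, rfl⟩ := mem_image.1 h2
      linarith [(s1 _ h1).1, (s2 _ hu).1]
    have c3 : (S1 ∪ S2.image Neg.neg).card = m / 2 + m / 2 := by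
      rw [card_union_of_disjoint d, card_image_of_injective _ neg_injective, c1, c2]
    have r : ∀ t ∈ S1 ∪ S2.image Neg.neg, (p (m / 2) < t ∨ t < -p (m / 2)) ∧ (R m).eval t = ε := by
      intro t ht
      rcases mem_union.1 ht with h | h
      · exact ⟨Or.inl (s1 t h).1, (s1 t h).2⟩
      · obtain ⟨u, hu, rfl⟩ := mem_image.1 h
        refine ⟨Or.inr (neg_lt_neg (s2 u hu).1), ?_⟩
        rw [hn, (s2 u hu).2, ← mul_assoc, ← pow_two, sq, one_mul]
    rcases Nat.mod_two_eq_zero_or_one m with h | h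
    · exact ⟨_, by omega, fun t ht => (r t ht).2⟩
    · have e := hn (p (m / 2))
      rw [(Nat.odd_iff.2 h).neg_one_pow] at e
      have hpos : 0 < p (m / 2) := lt_of_le_of_ne hp0 fun h0 => by
        rw [← h0, neg_zero] at e
        rw [← h0] at h4
        nlinarith
      obtain ⟨v, v1, v2, v3⟩ := ivt (R m - C ε) (-p (m / 2)) (p (m / 2)) (by linarith) (by
        simp only [eval_sub, eval_C, e]
        nlinarith)
      refine ⟨insert v (S1 ∪ S2.image Neg.neg), ?_, fun t ht => ?_⟩
      · rw [card_insert_of_notMem fun h => by rcases (r v h).1 with h | h <;> linarith]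
        omega
      · rcases mem_insert.1 ht with rfl | h
        · simpa [sub_eq_zero] using v3
        · exact (r t h).2
  have hsp : (R m - C ε).Splits := by
    rw [splits_iff_card_roots]
    refine le_antisymm (card_roots' _) ?_
    rw [natDegree_sub_C]
    refine (R_deg m).trans (cS.trans ?_)
    exact Multiset.card_le_card (Finset.val_le_iff_val_subset.2 fun t ht =>
      (mem_roots hP).2 (by simp [hS t ht]))
  obtain ⟨t, rfl⟩ := hsp.mem_range_of_isRoot (i := algebraMap ℝ ℂ) (x := z) hP (by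
    rw [IsRoot, eval_map_algebraMap, map_sub, hz]; simp)
  simp

theorem main (m : ℕ) (hm : 5 ≤ m) (ε : ℝ) (hε : ε = 1 ∨ ε = -1) (z : ℂ)
    (hz : aeval z (W false (m + 1)) = ε * aeval z (W true (m + 1))) : z.im = 0 := by
  by_cases h1 : z = 1
  · simp [h1]
  have h2 : (1 : ℂ) - z ≠ 0 := sub_ne_zero.2 (Ne.symm h1)
  rw [W_false m z h1, W_true, map_pow, map_sub, map_one, aeval_X, mul_comm (ε : ℂ)] at hz
  have h3 := R_real m hm ε hε _ (mul_left_cancel₀ (pow_ne_zero _ h2) hz)
  have h4 : (1 + z) = ((1 + z) / (1 - z)).re * (1 - z) := by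
    have : (((1 + z) / (1 - z)).re : ℂ) = (1 + z) / (1 - z) :=
      Complex.ext (by simp) (by rw [h3]; simp)
    rw [this]; field_simp
  generalize ((1 + z) / (1 - z)).re = y at h4
  have a := congrArg Complex.re h4
  have b := congrArg Complex.im h4
  simp at a b
  by_contra hc
  have : y = -1 := by
    have : z.im * (1 + y) = 0 := by linarith
    have := (mul_eq_zero.1 this).resolve_left hc
    linarith
  rw [this] at a
  linarith

end Pool.Agent.H14.Ex
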