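import Pool.Agent.H14.Ex1
set_option autoImplicit false
set_option maxHeartbeats 400000

namespace Pool.Agent.H14.Ex
open Polynomial Finset Equiv

lemma split (n : ℕ) :
    W false n = ∑ σ ∈ univ.filter (fun σ : Perm (Fin n) => Perm.sign σ = 1), (X : ℝ[X]) ^ exc σ
      + ∑ σ ∈ univ.filter (fun σ : Perm (Fin n) => Perm.sign σ = -1), (X : ℝ[X]) ^ exc σ ∧
    W true n = ∑ σ ∈ univ.filter (fun σ : Perm (Fin n) => Perm.sign σ = 1), (X : ℝ[X]) ^ exc σ
      - ∑ σ ∈ univ.filter (fun σ : Perm (Fin n) => Perm.sign σ = -1), (X : ℝ[X]) ^ exc σ := by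
  rw [sum_filter, sum_filter, ← sum_add_distrib, ← sum_sub_distrib, W, W]
  refine ⟨sum_congr rfl fun σ _ => ?_, sum_congr rfl fun σ _ => ?_⟩ <;>
    rcases Int.units_eq_one_or (Perm.sign σ) with h | h <;> simp [h]

lemma W5 : W false 5 = 1 + 26 * X + 66 * X ^ 2 + 26 * X ^ 3 + X ^ 4 := by
  have h2 : W false 2 = 1 + X := by rw [W_succ, W_one]; simp
  have h3 : W false 3 = 1 + 4 * X + X ^ 2 := by rw [W_succ, h2]; simp; ring
  have h4 : W false 4 = 1 + 11 * X + 11 * X ^ 2 + X ^ 3 := by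
    rw [W_succ, h3]; simp [map_ofNat]; ring
  rw [W_succ, h4]; simp [map_ofNat]; ring

theorem final :
    (∃ z : ℂ, z.im ≠ 0 ∧ aeval z (∑ σ ∈ univ.filter (fun σ : Perm (Fin 5) => Perm.sign σ = 1),
      (X : ℝ[X]) ^ exc σ) = 0) ∧
    ∀ n, 6 ≤ n → ∀ z : ℂ,
      (aeval z (∑ σ ∈ univ.filter (fun σ : Perm (Fin n) => Perm.sign σ = 1),
          (X : ℝ[X]) ^ exc σ) = 0 ∨
        aeval z (∑ σ ∈ univ.filter (fun σ : Perm (Fin n) => Perm.sign σ = -1),
          (X : ℝ[X]) ^ exc σ) = 0) → z.im = 0 := by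
  constructor
  · obtain ⟨h1, h2⟩ := split 5
    rw [W5] at h1
    rw [W_true] at h2
    obtain ⟨z, hz⟩ := IsAlgClosed.exists_root
      (X ^ 4 + 11 * X ^ 3 + 36 * X ^ 2 + 11 * X + 1 : ℂ[X]) (by
        have : (X ^ 4 + 11 * X ^ 3 + 36 * X ^ 2 + 11 * X + 1 : ℂ[X]).degree = 4 := by
          compute_degree!
        rw [this]; norm_num)
    simp only [IsRoot, eval_add, eval_mul, eval_pow, eval_X, eval_one, eval_ofNat] at hz
    refine ⟨z, fun h => ?_, ?_⟩
    · have e : z = (z.re : ℂ) := Complex.ext (by simp) (by simp [h])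
      rw [e] at hz
      clear h1 h2 e h
      generalize z.re = x at hz
      have : x ^ 4 + 11 * x ^ 3 + 36 * x ^ 2 + 11 * x + 1 = 0 :=
        Complex.ofReal_injective (by push_cast; exact hz)
      have t : x ≠ 0 := fun h => by simp [h] at this
      nlinarith [sq_nonneg (x ^ 2 + 11 / 2 * x + 1), sq_pos_of_ne_zero t]
    · have a := congrArg (aeval z) h1
      have b := congrArg (aeval z) h2
      simp only [map_add, map_sub, map_mul, map_pow, map_one, aeval_X, map_ofNat] at a b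
      linear_combination hz - (a + b) / 2
  · intro n hn z hz
    obtain ⟨m, rfl⟩ : ∃ m, n = m + 1 := ⟨n - 1, by omega⟩
    obtain ⟨h1, h2⟩ := split (m + 1)
    rcases hz with hz | hz
    · exact main m (by omega) (-1) (Or.inr rfl) z (by rw [h1, h2, map_add, map_sub, hz]; simp)
    · exact main m (by omega) 1 (Or.inl rfl) z (by rw [h1, h2, map_add, map_sub, hz]; simp)

end Pool.Agent.H14.Ex
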