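import Mathlib

namespace Pool.Agent.H14.Fc1

open Finset Classical

def star (c : ℕ) : ℕ := if c = 0 then 0 else if c % 2 = 1 then 1 else 2

noncomputable def cnt {V : Type} (σ : V → Bool) (s : Bool) (Z : Finset V) : ℕ :=
  (Z.filter fun v => σ v = s).card

noncomputable def del {V : Type} [DecidableEq V] (G : SimpleGraph V) (Z : Finset V) (v : V) : Finset V :=
  Z.filter fun u => u ≠ v ∧ ¬ G.Adj v u

lemma del_lt {V : Type} [DecidableEq V] (G : SimpleGraph V) {Z : Finset V} {v : V} (h : v ∈ Z) :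
    (del G Z v).card < Z.card :=
  card_lt_card ⟨filter_subset _ _, fun hs => by simpa [del] using hs h⟩

noncomputable def w {V : Type} [DecidableEq V] (G : SimpleGraph V) (σ : V → Bool) (Z : Finset V) : ℕ :=
  sInf {m | (∀ s, star (cnt σ s Z) ≠ m) ∧ ∀ v, ∀ _ : v ∈ Z, w G σ (del G Z v) ≠ m}
termination_by Z.card
decreasing_by exact del_lt G ‹_›

variable {V V' : Type} [DecidableEq V] [DecidableEq V']

lemma w_ne (G : SimpleGraph V) (σ : V → Bool) {Z : Finset V} {v : V} (h : v ∈ Z) :
    w G σ (del G Z v) ≠ w G σ Z := by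
  have : {m | (∀ s, star (cnt σ s Z) ≠ m) ∧ ∀ v, ∀ _ : v ∈ Z, w G σ (del G Z v) ≠ m}.Nonempty := by
    refine ⟨Z.sup (fun v => w G σ (del G Z v)) + 3, fun s => ?_, fun v hv => ?_⟩
    · unfold star
      split_ifs <;> omega
    · have := le_sup (f := fun v => w G σ (del G Z v)) hv
      omega
  have := (Nat.sInf_mem this).2 v h
  rwa [← w] at this

lemma mex_star (c : ℕ) : sInf {m | star c ≠ m ∧ (c = 0 ∨ c ≠ 0) ∧ 0 ≠ m} = star (c + 1) := by
  apply le_antisymm
  · apply Nat.sInf_le
    simp only [Set.mem_setOf_eq, star]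
    refine ⟨?_, by omega, ?_⟩ <;> split_ifs <;> first | omega | contradiction
  · apply le_csInf ⟨3, by simp only [Set.mem_setOf_eq, star]; split_ifs <;> omega⟩
    intro m hm
    simp only [Set.mem_setOf_eq, star] at hm ⊢
    split_ifs at hm ⊢ <;> omega

lemma w_one (G : SimpleGraph V) (σ : V → Bool) (hb : ∀ u v, G.Adj u v → σ u ≠ σ v) (s : Bool) :
    ∀ n (Z : Finset V), Z.card = n → (∀ v ∈ Z, σ v = s) → w G σ Z = star (n + 1) := by
  intro n
  induction n with
  | zero =>
    intro Z h _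
    rw [card_eq_zero.mp h, w, ← mex_star]
    congr 1
    ext m
    simp [cnt, star]
  | succ n ih =>
    intro Z h hs
    have h1 : cnt σ s Z = n + 1 := by rw [cnt, filter_true_of_mem hs, h]
    have h2 : cnt σ (!s) Z = 0 := by
      rw [cnt, card_eq_zero, filter_eq_empty_iff]
      intro v hv
      simp [hs v hv]
    have h3 : ∀ v ∈ Z, w G σ (del G Z v) = star (n + 1) := by
      intro v hv
      have : del G Z v = Z.erase v := by
        ext u
        simp only [del, mem_filter, mem_erase]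
        exact ⟨fun h => ⟨h.2.1, h.1⟩, fun h => ⟨h.2, h.1, fun a => hb _ _ a
          ((hs v hv).trans (hs u h.2).symm)⟩⟩
      rw [this]
      exact ih _ (by rw [card_erase_of_mem hv, h]; rfl) (fun u hu => hs u (mem_of_mem_erase hu))
    rw [w, ← mex_star]
    congr 1
    ext m
    simp only [Set.mem_setOf_eq]
    constructor
    · intro h
      exact ⟨h1 ▸ h.1 s, by omega, by simpa [h2, star] using h.1 (!s)⟩
    · intro h
      refine ⟨fun t => ?_, fun v hv => h3 v hv ▸ h.1⟩
      by_cases ht : t = s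
      · rw [ht, h1]; exact h.1
      · have : t = !s := by cases t <;> cases s <;> simp_all
        rw [this, h2]
        simpa [star] using h.2.2

/-- D is a set of vertices on side s, outside Z, joined to all of Z on the other side -/
def Dom (G : SimpleGraph V) (σ : V → Bool) (s : Bool) (Z D : Finset V) : Prop :=
  ∀ d ∈ D, d ∉ Z ∧ σ d = s ∧ ∀ u ∈ Z, σ u ≠ s → G.Adj d u

lemma cnt_union {G : SimpleGraph V} {σ : V → Bool} {s : Bool} {Z D : Finset V}
    (h : Dom G σ s Z D) (t : Bool) :
    cnt σ t (Z ∪ D) = cnt σ t Z + if t = s then D.card else 0 := by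
  unfold cnt
  rw [filter_union, card_union_of_disjoint (disjoint_filter_filter
    (disjoint_right.mpr fun d hd => (h d hd).1))]
  congr 1
  split_ifs with ht
  · rw [filter_true_of_mem fun d hd => ht ▸ (h d hd).2.1]
  · rw [card_eq_zero, filter_eq_empty_iff]
    intro d hd e
    exact ht (e.symm.trans (h d hd).2.1)

lemma w_dom {G : SimpleGraph V} {σ : V → Bool} (hb : ∀ u v, G.Adj u v → σ u ≠ σ v) {s : Bool}
    {Z D : Finset V} (h : Dom G σ s Z D) {d : V} (hd : d ∈ D) :
    w G σ (del G (Z ∪ D) d) = star (cnt σ s (Z ∪ D)) := by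
  have e : del G (Z ∪ D) d = ((Z ∪ D).filter fun v => σ v = s).erase d := by
    ext u
    simp only [del, mem_filter, mem_erase, mem_union]
    constructor
    · rintro ⟨h1, h2, h3⟩
      refine ⟨h2, h1, ?_⟩
      rcases h1 with h1 | h1
      · by_contra hc
        exact h3 ((h d hd).2.2 u h1 hc)
      · exact (h u h1).2.1
    · rintro ⟨h1, h2, h3⟩
      exact ⟨h2, h1, fun a => hb _ _ a ((h d hd).2.1.trans h3.symm)⟩
  have hm : d ∈ (Z ∪ D).filter fun v => σ v = s :=
    mem_filter.mpr ⟨mem_union_right _ hd, (h d hd).2.1⟩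
  rw [e, w_one G σ hb s _ _ rfl (fun v hv => (mem_filter.mp (mem_of_mem_erase hv)).2),
    card_erase_add_one hm, cnt]

lemma del_union {G : SimpleGraph V} {σ : V → Bool} (hb : ∀ u v, G.Adj u v → σ u ≠ σ v) {s : Bool}
    {Z D : Finset V} (h : Dom G σ s Z D) {v : V} (hv : v ∈ Z) :
    del G (Z ∪ D) v = del G Z v ∪ if σ v = s then D else ∅ := by
  unfold del
  rw [filter_union]
  congr 1
  split_ifs with hs
  · refine filter_true_of_mem fun d hd => ⟨fun e => (h d hd).1 (e ▸ hv), fun a => hb _ _ a ?_⟩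
    exact hs.trans (h d hd).2.1.symm
  · rw [filter_eq_empty_iff]
    intro d hd e
    exact e.2 ((h d hd).2.2 v hv hs).symm

lemma key {G : SimpleGraph V} {G' : SimpleGraph V'} {σ : V → Bool} {σ' : V' → Bool}
    (hb : ∀ u v, G.Adj u v → σ u ≠ σ v) (hb' : ∀ u v, G'.Adj u v → σ' u ≠ σ' v)
    (f : V → V') (hf : Function.Injective f) (t s : Bool) (hσ : ∀ v, σ' (f v) = xor (σ v) t)
    (ha : ∀ u v, G'.Adj (f u) (f v) ↔ G.Adj u v) :
    ∀ n (Z D : Finset V) (D' : Finset V'), Z.card = n → Dom G σ s Z D →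
      Dom G' σ' (xor s t) (Z.image f) D' → (D.card = 0 ↔ D'.card = 0) →
      D.card % 2 = D'.card % 2 → w G σ (Z ∪ D) = w G' σ' (Z.image f ∪ D') := by
  intro n
  induction n using Nat.strong_induction_on with
  | _ n ih =>
    intro Z D D' hn h h' e1 e2
    have c : ∀ r, star (cnt σ' (xor r t) (Z.image f ∪ D')) = star (cnt σ r (Z ∪ D)) := by
      intro r
      have : cnt σ' (xor r t) (Z.image f) = cnt σ r Z := by
        unfold cnt
        rw [filter_image, card_image_of_injective _ hf]
        congr 1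
        refine filter_congr fun v _ => ?_
        rw [hσ]
        cases σ v <;> cases r <;> cases t <;> simp
      rw [cnt_union h, cnt_union h', this]
      have e : (xor r t = xor s t) ↔ r = s := by cases r <;> cases s <;> cases t <;> simp
      simp only [e, star]
      split_ifs <;> omega
    have o : ∀ v ∈ Z, w G' σ' (del G' (Z.image f ∪ D') (f v)) = w G σ (del G (Z ∪ D) v) := by
      intro v hv
      have e : del G' (Z.image f) (f v) = (del G Z v).image f := by
        unfold del
        rw [filter_image]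
        congr 1
        exact filter_congr fun u _ => by rw [ha, hf.ne_iff]
      have e' : (σ' (f v) = xor s t) ↔ σ v = s := by
        rw [hσ]
        cases σ v <;> cases s <;> cases t <;> simp
      rw [del_union hb h hv, del_union hb' h' (mem_image_of_mem f hv), e]
      have sub : del G Z v ⊆ Z := filter_subset _ _
      symm
      refine ih _ (hn ▸ del_lt G hv) _ _ _ rfl ?_ ?_ ?_ ?_
      · intro d hd
        split_ifs at hd
        · exact ⟨fun a => (h d hd).1 (sub a), (h d hd).2.1, fun u hu => (h d hd).2.2 u (sub hu)⟩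
        · simp at hd
      · intro d hd
        have sub' := image_subset_image (f := f) sub
        split_ifs at hd
        · exact ⟨fun a => (h' d hd).1 (sub' a), (h' d hd).2.1,
            fun u hu => (h' d hd).2.2 u (sub' hu)⟩
        · simp at hd
      · simp only [e']
        split_ifs <;> simp [e1]
      · simp only [e']
        split_ifs <;> simp [e2]
    rw [w, w]
    congr 1
    ext m
    simp only [Set.mem_setOf_eq]
    constructor
    · rintro ⟨a, b⟩
      have a' : ∀ r, star (cnt σ' r (Z.image f ∪ D')) ≠ m := fun r => by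
        have := c (xor r t)
        rw [show xor (xor r t) t = r by cases r <;> cases t <;> rfl] at this
        exact this ▸ a _
      refine ⟨a', fun v hv => ?_⟩
      rcases mem_union.mp hv with hv | hv
      · obtain ⟨u, hu, rfl⟩ := mem_image.mp hv
        exact o u hu ▸ b u (mem_union_left _ hu)
      · exact w_dom hb' h' hv ▸ a' _
    · rintro ⟨a, b⟩
      have a' : ∀ r, star (cnt σ r (Z ∪ D)) ≠ m := fun r => c r ▸ a _
      refine ⟨a', fun v hv => ?_⟩
      rcases mem_union.mp hv with hv | hv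
      · exact o v hv ▸ b _ (mem_union_left _ (mem_image_of_mem f hv))
      · exact w_dom hb h hv ▸ a' _

def K (u : ℕ) : Prop := ∃ (G : SimpleGraph (List ℕ)) (σ : List ℕ → Bool) (Z D : Finset (List ℕ)),
  (∀ a b, G.Adj a b → σ a ≠ σ b) ∧ Dom G σ false Z D ∧ D.card ≠ 0 ∧
    cnt σ false (Z ∪ D) % 2 = 0 ∧ w G σ (Z ∪ D) = u

def sd (N : ℕ) (σ : ℕ → List ℕ → Bool) : List ℕ → Bool
  | i :: 0 :: t => !(σ i t)
  | [i] => decide (i ≠ N + 1 ∧ i ≠ N + 2)
  | _ => true

def jn (N : ℕ) (G : ℕ → SimpleGraph (List ℕ)) (σ : ℕ → List ℕ → Bool) : SimpleGraph (List ℕ) where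
  Adj a b := (a.head? ≠ b.head? ∧ sd N σ a ≠ sd N σ b) ∨
    ∃ i x y, a = i :: 0 :: x ∧ b = i :: 0 :: y ∧ (G i).Adj x y
  symm := ⟨fun a b h => h.imp (fun h => ⟨h.1.symm, h.2.symm⟩)
    (fun ⟨i, x, y, h1, h2, h3⟩ => ⟨i, y, x, h2, h1, h3.symm⟩)⟩
  loopless := ⟨fun a h => h.elim (fun h => h.1 rfl) (fun ⟨i, x, y, h1, h2, h3⟩ => by
    rw [h1] at h2
    simp only [List.cons.injEq, true_and] at h2
    exact h3.ne h2)⟩

theorem unbounded (N : ℕ) : ∃ u, K u ∧ N < u := by
  by_contra hc
  push Not at hc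
  have ch : ∀ u, ∃ (G : SimpleGraph (List ℕ)) (σ : List ℕ → Bool) (Z D : Finset (List ℕ)),
      (∀ a b, G.Adj a b → σ a ≠ σ b) ∧ (K u → Dom G σ false Z D ∧ D.card ≠ 0 ∧
        cnt σ false (Z ∪ D) % 2 = 0 ∧ w G σ (Z ∪ D) = u) := by
    intro u
    by_cases h : K u
    · obtain ⟨G, σ, Z, D, h1, h2⟩ := h
      exact ⟨G, σ, Z, D, h1, fun _ => h2⟩
    · exact ⟨⊥, fun _ => true, ∅, ∅, by simp, fun h' => absurd h' h⟩
  choose G σ Z D hb hK using ch
  have hb' : ∀ a b, (jn N G σ).Adj a b → sd N σ a ≠ sd N σ b := by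
    rintro a b (h | ⟨i, x, y, rfl, rfl, h⟩)
    · exact h.2
    · simpa [sd] using hb i x y h
  let W : Finset (List ℕ) := (range (N + 1)).biUnion fun i =>
    insert [i] ((Z i).image fun t => i :: 0 :: t)
  have hW : ∀ z ∈ W, ∃ i ≤ N, z = [i] ∨ ∃ t ∈ Z i, z = i :: 0 :: t := by
    intro z hz
    simp only [W, mem_biUnion, mem_range, mem_insert, mem_image] at hz
    obtain ⟨i, h1, h2⟩ := hz
    exact ⟨i, by omega, h2.imp id fun ⟨t, a, b⟩ => ⟨t, a, b.symm⟩⟩
  have hW' : ∀ z ∈ W, ∀ j, N < j → z.head? ≠ some j := by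
    intro z hz j hj
    obtain ⟨i, hi, rfl | ⟨t, -, rfl⟩⟩ := hW z hz <;> simp <;> omega
  let DY : Finset (List ℕ) := if cnt (sd N σ) true W % 2 = 0 then {[N + 3]} else {[N + 3], [N + 4]}
  have hDY : ∀ d ∈ DY, d = [N + 3] ∨ d = [N + 4] := by
    intro d hd
    simp only [DY] at hd
    split_ifs at hd <;> simp_all
  have dY : Dom (jn N G σ) (sd N σ) true W DY := by
    intro d hd
    rcases hDY d hd with rfl | rfl
    · exact ⟨fun h => hW' _ h (N + 3) (by omega) rfl, by simp [sd], fun u hu h => Or.inl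
        ⟨(hW' u hu _ (by omega)).symm, by simpa [sd] using h⟩⟩
    · exact ⟨fun h => hW' _ h (N + 4) (by omega) rfl, by simp [sd], fun u hu h => Or.inl
        ⟨(hW' u hu _ (by omega)).symm, by simpa [sd] using h⟩⟩
  have cY : cnt (sd N σ) true (W ∪ DY) % 2 = 1 := by
    rw [cnt_union dY, if_pos rfl]
    simp only [DY]
    split_ifs
    · rw [card_singleton]; omega
    · rw [card_pair (by simp)]; omega
  have m3 : [N + 3] ∈ DY := by
    simp only [DY]
    split_ifs <;> simp
  have hW2 : ∀ z ∈ W ∪ DY, z.head? ≠ some (N + 1) ∧ z.head? ≠ some (N + 2) := by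
    intro z hz
    rcases mem_union.mp hz with hz | hz
    · exact ⟨hW' z hz _ (by omega), hW' z hz _ (by omega)⟩
    · rcases hDY z hz with rfl | rfl <;> simp
  let DX : Finset (List ℕ) :=
    if cnt (sd N σ) false (W ∪ DY) % 2 = 1 then {[N + 1]} else {[N + 1], [N + 2]}
  have hDX : ∀ d ∈ DX, d = [N + 1] ∨ d = [N + 2] := by
    intro d hd
    simp only [DX] at hd
    split_ifs at hd <;> simp_all
  have dX : Dom (jn N G σ) (sd N σ) false (W ∪ DY) DX := by
    intro d hd
    rcases hDX d hd with rfl | rfl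
    · exact ⟨fun h => (hW2 _ h).1 rfl, by simp [sd], fun u hu h => Or.inl
        ⟨(hW2 u hu).1.symm, by simpa [sd] using h⟩⟩
    · exact ⟨fun h => (hW2 _ h).2 rfl, by simp [sd], fun u hu h => Or.inl
        ⟨(hW2 u hu).2.symm, by simpa [sd] using h⟩⟩
  have kP : K (w (jn N G σ) (sd N σ) ((W ∪ DY) ∪ DX)) := by
    refine ⟨_, _, _, _, hb', dX, ?_, ?_, rfl⟩
    · simp only [DX]
      split_ifs <;> simp
    · rw [cnt_union dX, if_pos rfl]
      simp only [DX]
      split_ifs
      · rw [card_singleton]; omega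
      · rw [card_pair (by simp)]; omega
  set u := w (jn N G σ) (sd N σ) ((W ∪ DY) ∪ DX) with hu
  have uN := hc u kP
  obtain ⟨k1, k2, k3, k4⟩ := hK u kP
  have su : sd N σ [u] = true := by
    simp only [sd, decide_eq_true_eq]
    omega
  have mW : [u] ∈ W := by
    simp only [W, mem_biUnion, mem_range]
    exact ⟨u, by omega, mem_insert_self _ _⟩
  have mW' : [u] ∈ W ∪ DY := mem_union_left _ mW
  let D' := (W ∪ DY).filter fun z => z.head? ≠ some u ∧ sd N σ z = true
  have e : del (jn N G σ) (W ∪ DY) [u] = (Z u).image (fun t => u :: 0 :: t) ∪ D' := by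
    ext z
    simp only [del, D', mem_filter, mem_union (s := image _ _), mem_image, jn]
    constructor
    · rintro ⟨h1, h2, h3⟩
      by_cases hh : z.head? = some u
      · left
        rcases mem_union.mp h1 with h1 | h1
        · obtain ⟨i, -, rfl | ⟨t, ht, rfl⟩⟩ := hW z h1
          · simp at hh
            simp [hh] at h2
          · simp at hh
            exact ⟨t, hh ▸ ht, by rw [hh]⟩
        · rcases hDY z h1 with rfl | rfl <;> simp at hh <;> omega
      · right
        refine ⟨h1, hh, ?_⟩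
        by_contra h4
        exact h3 (Or.inl ⟨fun h => hh h.symm, fun h => h4 (h ▸ su)⟩)
    · rintro (⟨t, ht, rfl⟩ | ⟨h1, h2, h3⟩)
      · refine ⟨mem_union_left _ ?_, by simp, by simp⟩
        simp only [W, mem_biUnion, mem_range]
        exact ⟨u, by omega, mem_insert_of_mem (mem_image_of_mem _ ht)⟩
      · refine ⟨h1, by rintro rfl; exact h2 rfl, ?_⟩
        rintro (h | ⟨i, x, y, h, -⟩)
        · exact h.2 (su.trans h3.symm)
        · simp at h
  have dD : Dom (jn N G σ) (sd N σ) (xor false true) ((Z u).image fun t => u :: 0 :: t) D' := by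
    intro d hd
    obtain ⟨-, h2, h3⟩ := mem_filter.mp hd
    refine ⟨fun h => ?_, h3, fun z hz h => ?_⟩
    · obtain ⟨t, -, rfl⟩ := mem_image.mp h
      exact h2 rfl
    · obtain ⟨t, -, rfl⟩ := mem_image.mp hz
      exact Or.inl ⟨h2, fun h' => h (h' ▸ h3)⟩
  have c1 : cnt (sd N σ) true (del (jn N G σ) (W ∪ DY) [u]) + 1 = cnt (sd N σ) true (W ∪ DY) := by
    have : (del (jn N G σ) (W ∪ DY) [u]).filter (fun z => sd N σ z = true) =
        ((W ∪ DY).filter fun z => sd N σ z = true).erase [u] := by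
      ext z
      simp only [del, mem_filter, mem_erase]
      exact ⟨fun h => ⟨h.1.2.1, h.1.1, h.2⟩, fun h => ⟨⟨h.2.1, h.1, fun a => hb' _ _ a
        (su.trans h.2.2.symm)⟩, h.2.2⟩⟩
    rw [cnt, this, card_erase_add_one (mem_filter.mpr ⟨mW', su⟩), cnt]
  have c2 : cnt (sd N σ) true ((Z u).image fun t => u :: 0 :: t) = cnt (σ u) false (Z u) := by
    unfold cnt
    rw [filter_image, card_image_of_injective _ (fun a b h => by simpa using h)]
    congr 1
    exact filter_congr fun v _ => by simp [sd]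
  have n3 : D'.card ≠ 0 := card_ne_zero.mpr ⟨[N + 3], mem_filter.mpr
    ⟨mem_union_right _ m3, by simp; omega, by simp [sd]⟩⟩
  rw [e, cnt_union dD, c2] at c1
  rw [cnt_union k1] at k3
  simp only [Bool.false_xor, if_true] at c1 k3
  have kk := key (hb u) hb' (fun t => u :: 0 :: t) (fun a b h => by simpa using h) true false
    (fun v => by simp [sd]) (fun a b => by simp [jn]) _ (Z u) (D u) D' rfl k1 dD
    (by omega) (by omega)
  have o := w_ne (jn N G σ) (sd N σ) (mem_union_left DX mW')
  rw [del_union hb' dX mW', if_neg (by simp [su]), union_empty, e, ← kk, k4] at o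
  exact o hu

end Pool.Agent.H14.Fc1
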