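import Mathlib

namespace Pool.Agent.H14.Fx

def Cc (x : ℕ) : ℕ :=
  if x = 0 then 2382082158958537055956937285146954283680687254953238087780
  else if x = 1 then 2382082158381164391003964695172917645625050534694644500580
  else 2382082158958537055822507235937803660622244148695034644580

def cd (x t : ℕ) : ℕ := (Cc x >>> (2 * t)) % 4 % 3

theorem cd_lt (x t : ℕ) : cd x t < 3 := Nat.mod_lt _ (by norm_num)

def hole (t : ℕ) : Bool := t % 16 == 6 || t % 16 == 8 || t % 16 == 15

def U (n : ℕ) : ℕ := if h : n = 0 then 0 else cd (U (n / 96)) (n % 96)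
decreasing_by omega

theorem U_eq (n : ℕ) : U n = cd (U (n / 96)) (n % 96) := by
  by_cases h : n = 0
  · subst h
    have : U 0 = 0 := by rw [U]; simp
    simp only [Nat.zero_div, Nat.zero_mod, this]
    decide +kernel
  · rw [U, dif_neg h]

theorem U_lt (n : ℕ) : U n < 3 := by rw [U_eq]; exact cd_lt _ _

theorem U_blk (k t : ℕ) (ht : t < 96) : U (96 * k + t) = cd (U k) t := by
  rw [U_eq, show (96 * k + t) / 96 = k by omega, show (96 * k + t) % 96 = t by omega]

def f4 (a b c d i : ℕ) : ℕ :=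
  if i < 96 then cd a i else if i < 192 then cd b (i - 96) else if i < 288 then cd c (i - 192)
  else cd d (i - 288)

theorem U_f4 (k i : ℕ) (hi : i < 384) :
    U (96 * k + i) = f4 (U k) (U (k + 1)) (U (k + 2)) (U (k + 3)) i := by
  unfold f4
  split_ifs with h1 h2 h3
  · exact U_blk k i h1
  · rw [← U_blk (k + 1) (i - 96) (by omega)]; exact congrArg U (by omega)
  · rw [← U_blk (k + 2) (i - 192) (by omega)]; exact congrArg U (by omega)
  · rw [← U_blk (k + 3) (i - 288) (by omega)]; exact congrArg U (by omega)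

theorem hole_blk (k t : ℕ) : hole (96 * k + t) = hole t := by
  unfold hole
  rw [show (96 * k + t) % 16 = t % 16 by omega]

def mis (g : ℕ → ℕ) (r m : ℕ) : ℕ → Bool
  | 0 => false
  | j + 1 => (!hole (r + j) && !hole (r + m + j) && g (r + j) != g (r + m + j)) || mis g r m j

theorem mis_spec (g : ℕ → ℕ) (r m : ℕ) : ∀ n, mis g r m n = true →
    ∃ j < n, hole (r + j) = false ∧ hole (r + m + j) = false ∧ g (r + j) ≠ g (r + m + j)
  | 0, h => by simp [mis] at h
  | n + 1, h => by
    simp only [mis, Bool.or_eq_true, Bool.and_eq_true, Bool.not_eq_true', bne_iff_ne] at h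
    rcases h with ⟨⟨h1, h2⟩, h3⟩ | h
    · exact ⟨n, by omega, h1, h2, h3⟩
    · obtain ⟨j, hj, h⟩ := mis_spec g r m n h
      exact ⟨j, by omega, h⟩

def allLt (p : ℕ → Bool) : ℕ → Bool
  | 0 => true
  | n + 1 => p n && allLt p n

theorem allLt_spec (p : ℕ → Bool) : ∀ n, allLt p n = true → ∀ i < n, p i = true
  | 0, _, i, hi => by omega
  | n + 1, h, i, hi => by
    simp only [allLt, Bool.and_eq_true] at h
    by_cases e : i = n
    · rw [e]; exact h.1
    · exact allLt_spec p n h.2 i (by omega)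

def short (a b c d : ℕ) : Bool :=
  allLt (fun r => allLt (fun m => mis (f4 a b c d) r (m + 2) (m + 2)) 102) 96

def shortB (a b : ℕ) : Bool := allLt (fun c => allLt (fun d =>
  a == b || b == c || c == d || (a == c && b == d) || short a b c d) 3) 3

theorem s01 : shortB 0 1 = true := by decide +kernel
theorem s02 : shortB 0 2 = true := by decide +kernel
theorem s10 : shortB 1 0 = true := by decide +kernel
theorem s12 : shortB 1 2 = true := by decide +kernel
theorem s20 : shortB 2 0 = true := by decide +kernel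
theorem s21 : shortB 2 1 = true := by decide +kernel

theorem adj0 : ∀ a < 3, ∀ b < 3, ∀ r < 96, f4 a b 0 0 r ≠ f4 a b 0 0 (r + 1) := by
  decide +kernel

theorem per2 : ∀ a < 3, ∀ b < 3, ∀ r < 96,
    ¬ (f4 a b 0 0 r = f4 a b 0 0 (r + 2) ∧ f4 a b 0 0 (r + 1) = f4 a b 0 0 (r + 3)) := by
  decide +kernel

def anyLt (p : ℕ → Bool) : ℕ → Bool
  | 0 => false
  | n + 1 => p n || anyLt p n

theorem anyLt_spec (p : ℕ → Bool) : ∀ n, anyLt p n = true → ∃ i < n, p i = true
  | 0, h => by simp [anyLt] at h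
  | n + 1, h => by
    simp only [anyLt, Bool.or_eq_true] at h
    rcases h with h | h
    · exact ⟨n, by omega, h⟩
    · obtain ⟨i, hi, h⟩ := anyLt_spec p n h
      exact ⟨i, by omega, h⟩

theorem markerB : allLt (fun x => allLt (fun y => allLt (fun z => allLt (fun d => d == 0 ||
    anyLt (fun t => !hole (11 + t) && !hole (d + 11 + t) &&
      cd x (11 + t) != f4 y z 0 0 (d + 11 + t)) 9) 96) 3) 3) 3 = true := by
  decide +kernel

theorem marker (x y z d : ℕ) (hx : x < 3) (hy : y < 3) (hz : z < 3) (hd : d < 96) (h0 : d ≠ 0) :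
    ∃ t < 9, hole (11 + t) = false ∧ hole (d + 11 + t) = false ∧
      cd x (11 + t) ≠ f4 y z 0 0 (d + 11 + t) := by
  have := allLt_spec _ _ (allLt_spec _ _ (allLt_spec _ _ (allLt_spec _ _ markerB x hx) y hy)
    z hz) d hd
  simp only [Bool.or_eq_true, beq_iff_eq, h0, false_or] at this
  obtain ⟨t, ht, h⟩ := anyLt_spec _ _ this
  simp only [Bool.and_eq_true, Bool.not_eq_true', bne_iff_ne] at h
  exact ⟨t, ht, h.1.1, h.1.2, h.2⟩

theorem distinct : ∀ x < 3, ∀ y < 3, x ≠ y → ∃ t < 96, hole t = false ∧ cd x t ≠ cd y t := by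
  decide +kernel

theorem endsB : allLt (fun x => allLt (fun y => allLt (fun z => allLt (fun r =>
    x == y || y == z || anyLt (fun t => !hole t &&
      (if r ≤ t then cd x t != cd y t else cd y t != cd z t)) 96) 96) 3) 3) 3 = true := by
  decide +kernel

theorem ends (x y z r : ℕ) (hx : x < 3) (hy : y < 3) (hz : z < 3) (hr : r < 96) (h1 : x ≠ y)
    (h2 : y ≠ z) : ∃ t < 96, hole t = false ∧
      ((r ≤ t ∧ cd x t ≠ cd y t) ∨ (t < r ∧ cd y t ≠ cd z t)) := by
  have := allLt_spec _ _ (allLt_spec _ _ (allLt_spec _ _ (allLt_spec _ _ endsB x hx) y hy)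
    z hz) r hr
  simp only [Bool.or_eq_true, beq_iff_eq, h1, h2, false_or] at this
  obtain ⟨t, ht, h⟩ := anyLt_spec _ _ this
  simp only [Bool.and_eq_true, Bool.not_eq_true'] at h
  refine ⟨t, ht, h.1, ?_⟩
  have h' := h.2
  split_ifs at h' with hc
  · exact Or.inl ⟨hc, by simpa using h'⟩
  · exact Or.inr ⟨by omega, by simpa using h'⟩

end Pool.Agent.H14.Fx
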