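import Pool.Agent.H14.Fx1

namespace Pool.Agent.H14.Fx

theorem short_all (a b c d : ℕ) (ha : a < 3) (hb : b < 3) (hc : c < 3) (hd : d < 3)
    (h1 : a ≠ b) (h2 : b ≠ c) (h3 : c ≠ d) (h4 : ¬ (a = c ∧ b = d)) : short a b c d = true := by
  have h : shortB a b = true := by
    have : (a = 0 ∧ b = 1) ∨ (a = 0 ∧ b = 2) ∨ (a = 1 ∧ b = 0) ∨ (a = 1 ∧ b = 2) ∨
      (a = 2 ∧ b = 0) ∨ (a = 2 ∧ b = 1) := by omega
    rcases this with ⟨rfl, rfl⟩ | ⟨rfl, rfl⟩ | ⟨rfl, rfl⟩ | ⟨rfl, rfl⟩ | ⟨rfl, rfl⟩ | ⟨rfl, rfl⟩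
    exacts [s01, s02, s10, s12, s20, s21]
  have := allLt_spec _ _ (allLt_spec _ _ h c hc) d hd
  simp only [Bool.or_eq_true, beq_iff_eq, Bool.and_eq_true, h1, h2, h3, h4, false_or] at this
  exact this

theorem f4_two (a b c d i : ℕ) (hi : i < 192) : f4 a b c d i = f4 a b 0 0 i := by
  unfold f4
  by_cases h : i < 96
  · simp only [h, if_true]
  · simp only [h, hi, if_true, if_false]

theorem U_f2 (k i : ℕ) (hi : i < 192) : U (96 * k + i) = f4 (U k) (U (k + 1)) 0 0 i := by
  rw [U_f4 k i (by omega), f4_two _ _ _ _ _ hi]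

theorem U_adj (n : ℕ) : U n ≠ U (n + 1) := by
  obtain ⟨k, r, hr, rfl⟩ : ∃ k r, r < 96 ∧ n = 96 * k + r := ⟨n / 96, n % 96, by omega, by omega⟩
  rw [add_assoc, U_f2 k r (by omega), U_f2 k (r + 1) (by omega)]
  exact adj0 _ (U_lt _) _ (U_lt _) r hr

theorem U_per2 (n : ℕ) : ¬ (U n = U (n + 2) ∧ U (n + 1) = U (n + 3)) := by
  obtain ⟨k, r, hr, rfl⟩ : ∃ k r, r < 96 ∧ n = 96 * k + r := ⟨n / 96, n % 96, by omega, by omega⟩
  rw [add_assoc, add_assoc, add_assoc, U_f2 k r (by omega), U_f2 k (r + 1) (by omega),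
    U_f2 k (r + 2) (by omega), U_f2 k (r + 3) (by omega)]
  exact per2 _ (U_lt _) _ (U_lt _) r hr

theorem main (m : ℕ) : 2 ≤ m → ∀ i, ¬ ∀ j < m,
    hole (i + j) = true ∨ hole (i + m + j) = true ∨ U (i + j) = U (i + m + j) := by
  induction m using Nat.strong_induction_on with
  | _ m ih =>
  intro hm i H
  have H' : ∀ p, i ≤ p → p < i + m → hole p = false → hole (p + m) = false → U p = U (p + m) := by
    intro p h1 h2 h3 h4
    have := H (p - i) (by omega)
    rw [show i + (p - i) = p by omega, show i + m + (p - i) = p + m by omega, h3, h4] at this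
    simpa using this
  obtain ⟨k, r, hr, rfl⟩ : ∃ k r, r < 96 ∧ i = 96 * k + r := ⟨i / 96, i % 96, by omega, by omega⟩
  by_cases hs : m ≤ 103
  · have h1 := short_all _ _ _ _ (U_lt k) (U_lt (k + 1)) (U_lt (k + 2)) (U_lt (k + 3))
      (U_adj k) (U_adj (k + 1)) (U_adj (k + 2)) (U_per2 k)
    have h2 := allLt_spec _ _ (allLt_spec _ _ h1 r hr) (m - 2) (by omega)
    rw [show m - 2 + 2 = m by omega] at h2
    obtain ⟨j, hj, a1, a2, a3⟩ := mis_spec _ _ _ _ h2
    apply a3
    rw [← U_f4 k _ (by omega), ← U_f4 k _ (by omega)]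
    have := H' (96 * k + (r + j)) (by omega) (by omega) (by rw [hole_blk]; exact a1)
      (by rw [show 96 * k + (r + j) + m = 96 * k + (r + m + j) by omega, hole_blk]; exact a2)
    rw [this]
    exact congrArg U (by omega)
  · obtain ⟨s, d, hd, rfl⟩ : ∃ s d, d < 96 ∧ m = 96 * s + d :=
      ⟨m / 96, m % 96, by omega, by omega⟩
    by_cases hd0 : d = 0
    · subst hd0
      have blk : ∀ q t, t < 96 → 96 * k + r ≤ 96 * q + t → 96 * q + t < 96 * k + r + 96 * s →
          hole t = false → cd (U q) t = cd (U (q + s)) t := by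
        intro q t ht h1 h2 h3
        have := H' (96 * q + t) h1 (by omega) (by rw [hole_blk]; exact h3)
          (by rw [show 96 * q + t + (96 * s + 0) = 96 * (q + s) + t by omega, hole_blk]; exact h3)
        rw [show 96 * q + t + (96 * s + 0) = 96 * (q + s) + t by omega, U_blk _ _ ht,
          U_blk _ _ ht] at this
        exact this
      have mid : ∀ q, k < q → q < k + s → U q = U (q + s) := by
        intro q h1 h2
        by_contra hne
        obtain ⟨t, ht, a1, a2⟩ := distinct _ (U_lt q) _ (U_lt (q + s)) hne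
        exact a2 (blk q t ht (by omega) (by omega) a1)
      by_cases e1 : U k = U (k + s)
      · refine ih s (by omega) (by omega) k fun j hj => Or.inr (Or.inr ?_)
        by_cases hj0 : j = 0
        · subst hj0; simpa using e1
        · rw [mid (k + j) (by omega) (by omega)]; exact congrArg U (by omega)
      by_cases e2 : U (k + s) = U (k + s + s)
      · refine ih s (by omega) (by omega) (k + 1) fun j hj => Or.inr (Or.inr ?_)
        by_cases hj0 : j + 1 = s
        · rw [show k + 1 + j = k + s by omega, show k + 1 + s + j = k + s + s by omega]; exact e2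
        · rw [mid (k + 1 + j) (by omega) (by omega)]; exact congrArg U (by omega)
      obtain ⟨t, ht, a1, ⟨a2, a3⟩ | ⟨a2, a3⟩⟩ :=
        ends _ _ _ r (U_lt k) (U_lt (k + s)) (U_lt (k + s + s)) hr e1 e2
      · exact a3 (blk k t ht (by omega) (by omega) a1)
      · exact a3 (blk (k + s) t ht (by omega) (by omega) a1)
    · obtain ⟨q, hq1, hq2⟩ : ∃ q, 96 * k + r ≤ 96 * q + 11 ∧ 96 * q + 11 < 96 * k + r + 96 :=
        ⟨(96 * k + r + 84) / 96, by omega, by omega⟩
      obtain ⟨t, ht, a1, a2, a3⟩ :=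
        marker _ _ _ d (U_lt q) (U_lt (q + s)) (U_lt (q + s + 1)) hd hd0
      apply a3
      have e : 96 * q + (11 + t) + (96 * s + d) = 96 * (q + s) + (d + 11 + t) := by omega
      have := H' (96 * q + (11 + t)) (by omega) (by omega) (by rw [hole_blk]; exact a1)
        (by rw [e, hole_blk]; exact a2)
      rw [e, U_blk _ _ (by omega), U_f2 _ _ (by omega)] at this
      exact this

end Pool.Agent.H14.Fx
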