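import Pool.Agent.H14.Fx2

namespace Pool.Agent.H14.Fx

theorem allLt_of (p : ℕ → Bool) (n : ℕ) (h : allLt p n = true) : ∀ i < n, p i = true :=
  allLt_spec p n h

def bad (l : List ℕ) : Bool :=
  (decide (2 ≤ l.length) && l.getD 0 3 != 3 && l.getD 0 3 == l.getD 1 3) ||
  anyLt (fun m => decide (2 ≤ m) && decide (2 * m ≤ l.length) &&
    allLt (fun j => l.getD j 3 == 3 || l.getD (j + m) 3 == 3 || l.getD j 3 == l.getD (j + m) 3) m)
    l.length

def dead (H : List ℕ) : ℕ → List ℕ → Bool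
  | 0, l => bad l
  | f + 1, l => bad l || (if l.length ∈ H then dead H f (3 :: l)
      else dead H f (0 :: l) && dead H f (1 :: l) && dead H f (2 :: l))

def LL (v : ℕ → ℕ) : ℕ → List ℕ
  | 0 => []
  | n + 1 => v n :: LL v n

theorem LL_length (v : ℕ → ℕ) : ∀ n, (LL v n).length = n
  | 0 => rfl
  | n + 1 => by simp [LL, LL_length v n]

theorem LL_getD (v : ℕ → ℕ) : ∀ n j, j < n → (LL v n).getD j 3 = v (n - 1 - j)
  | 0, j, h => by omega
  | n + 1, 0, _ => by simp [LL]
  | n + 1, j + 1, h => by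
    rw [LL, List.getD_cons_succ, LL_getD v n j (by omega)]
    exact congrArg v (by omega)

section
variable (u : ℕ → Fin 3) (P : Set ℕ)
  (hsq : ∀ i m, 1 ≤ m → ¬ ∀ j < m, u (i + j) = u (i + m + j))
  (hw : ∀ i m, 2 ≤ m → ¬ ∀ j < m, i + j ∈ P ∨ i + m + j ∈ P ∨ u (i + j) = u (i + m + j))
include hsq hw

theorem forb (H : List ℕ) (f : ℕ) (hd : dead H f [] = true) (i : ℕ) (hH : ∀ k ∈ H, i + k ∈ P) :
    False := by
  set v : ℕ → ℕ := fun k => if k ∈ H then 3 else (u (i + k) : ℕ) with hv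
  have v3 : ∀ k, v k = 3 → i + k ∈ P := by
    intro k hk
    by_cases h : k ∈ H
    · exact hH k h
    · simp only [hv, h, if_false] at hk
      have := (u (i + k)).2
      omega
  have veq : ∀ k l, v k = v l → i + k ∈ P ∨ u (i + k) = u (i + l) := by
    intro k l e
    by_cases h : v k = 3
    · exact Or.inl (v3 k h)
    · have h' : v l ≠ 3 := e ▸ h
      have a : k ∉ H := fun hk => h (by simp [hv, hk])
      have b : l ∉ H := fun hk => h' (by simp [hv, hk])
      simp only [hv, a, b, if_false] at e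
      exact Or.inr (Fin.ext e)
  have nb : ∀ n, bad (LL v n) ≠ true := by
    intro n hb
    simp only [bad, LL_length, Bool.or_eq_true, Bool.and_eq_true, decide_eq_true_eq,
      bne_iff_ne, beq_iff_eq] at hb
    rcases hb with ⟨⟨h1, h2⟩, h3⟩ | hb
    · rw [LL_getD v n 0 (by omega)] at h2 h3
      rw [LL_getD v n 1 (by omega)] at h3
      have a : n - 1 - 0 ∉ H := fun hk => h2 (by simp only [hv, hk, if_true])
      have b : n - 1 - 1 ∉ H := fun hk => h2 (by rw [h3]; simp only [hv, hk, if_true])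
      simp only [hv, a, b, if_false] at h3
      refine hsq (i + (n - 1 - 1)) 1 le_rfl fun j hj => ?_
      rw [show j = 0 by omega, show i + (n - 1 - 1) + 1 + 0 = i + (n - 1 - 0) by omega]
      exact (Fin.ext h3).symm
    · obtain ⟨m, _, hm⟩ := anyLt_spec _ _ hb
      simp only [Bool.and_eq_true, decide_eq_true_eq] at hm
      obtain ⟨⟨h1, h2⟩, h3⟩ := hm
      refine hw (i + (n - 2 * m)) m h1 fun j hj => ?_
      have h4 := allLt_spec _ _ h3 (m - 1 - j) (by omega)
      simp only [Bool.or_eq_true, beq_iff_eq] at h4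
      rw [LL_getD v n _ (by omega), LL_getD v n _ (by omega)] at h4
      rw [show i + (n - 2 * m) + j = i + (n - 1 - (m - 1 - j + m)) by omega,
        show i + (n - 2 * m) + m + j = i + (n - 1 - (m - 1 - j)) by omega]
      rcases h4 with (h4 | h4) | h4
      · exact Or.inr (Or.inl (v3 _ h4))
      · exact Or.inl (v3 _ h4)
      · rcases veq _ _ h4 with h5 | h5
        · exact Or.inr (Or.inl h5)
        · exact Or.inr (Or.inr h5.symm)
  have key : ∀ f n, dead H f (LL v n) ≠ true := by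
    intro f
    induction f with
    | zero => exact fun n => nb n
    | succ f ih =>
      intro n h
      simp only [dead, LL_length, Bool.or_eq_true] at h
      rcases h with h | h
      · exact nb n h
      · apply ih (n + 1)
        by_cases hn : n ∈ H
        · rw [if_pos hn] at h
          have : v n = 3 := by simp only [hv, hn, if_true]
          rw [LL, this]; exact h
        · rw [if_neg hn] at h
          simp only [Bool.and_eq_true] at h
          have e : v n = u (i + n) := by simp only [hv, hn, if_false]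
          have hlt := (u (i + n)).2
          have : v n = 0 ∨ v n = 1 ∨ v n = 2 := by omega
          rw [LL]
          rcases this with t | t | t <;> rw [t]
          exacts [h.1.1, h.1.2, h.2]
  exact key f 0 hd

theorem gap (q g : ℕ) (hq : 1 ≤ q) (h1 : q ∈ P) (h2 : q + g ∈ P) :
    g ≠ 1 ∧ g ≠ 3 ∧ g ≠ 5 ∧ g ≠ 6 ∧ g ≠ 8 := by
  obtain ⟨i, rfl⟩ : ∃ i, q = i + 1 := ⟨q - 1, by omega⟩
  refine ⟨?_, ?_, ?_, ?_, ?_⟩ <;> rintro rfl
  · exact forb u P hsq hw [1, 2] 16 (by decide +kernel) i (by simp [h1, h2])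
  · exact forb u P hsq hw [1, 4] 16 (by decide +kernel) i (by simp [h1, h2])
  · exact forb u P hsq hw [1, 6] 16 (by decide +kernel) i (by simp [h1, h2])
  · exact forb u P hsq hw [1, 7] 16 (by decide +kernel) i (by simp [h1, h2])
  · exact forb u P hsq hw [1, 9] 16 (by decide +kernel) i (by simp [h1, h2])

theorem f22 (q : ℕ) (hq : 1 ≤ q) (h1 : q ∈ P) (h2 : q + 2 ∈ P) (h3 : q + 4 ∈ P) : False := by
  obtain ⟨i, rfl⟩ : ∃ i, q = i + 1 := ⟨q - 1, by omega⟩
  exact forb u P hsq hw [1, 3, 5] 16 (by decide +kernel) i (by simp [h1, h2, h3])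

theorem f272 (q : ℕ) (hq : 1 ≤ q) (h1 : q ∈ P) (h2 : q + 2 ∈ P) (h3 : q + 9 ∈ P)
    (h4 : q + 11 ∈ P) : False := by
  obtain ⟨i, rfl⟩ : ∃ i, q = i + 1 := ⟨q - 1, by omega⟩
  exact forb u P hsq hw [1, 3, 10, 12] 20 (by decide +kernel) i (by simp [h1, h2, h3, h4])

theorem f747 (q : ℕ) (hq : 1 ≤ q) (h1 : q ∈ P) (h2 : q + 7 ∈ P) (h3 : q + 11 ∈ P)
    (h4 : q + 18 ∈ P) : False := by
  obtain ⟨i, rfl⟩ : ∃ i, q = i + 1 := ⟨q - 1, by omega⟩
  exact forb u P hsq hw [1, 8, 12, 19] 28 (by decide +kernel) i (by simp [h1, h2, h3, h4])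

end

theorem count_gap (h : ℕ → Prop) [DecidablePred h] (q p : ℕ) (hqp : q ≤ p)
    (hn : ∀ r, q ≤ r → r < p → ¬ h r) : Nat.count h p = Nat.count h q := by
  induction p, hqp using Nat.le_induction with
  | base => rfl
  | succ p hp ih =>
    rw [Nat.count_succ, if_neg (hn p hp (by omega)), add_zero]
    exact ih fun r h1 h2 => hn r h1 (by omega)

theorem last (h : ℕ → Prop) [DecidablePred h] (p : ℕ) : Nat.count h p = 0 ∨
    ∃ q < p, h q ∧ Nat.count h p = Nat.count h q + 1 := by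
  induction p with
  | zero => left; rfl
  | succ p ih =>
    by_cases hp : h p
    · right; exact ⟨p, by omega, hp, by rw [Nat.count_succ, if_pos hp]⟩
    · rw [Nat.count_succ, if_neg hp, add_zero]
      rcases ih with ih | ⟨q, hq, h1, h2⟩
      · exact Or.inl ih
      · exact Or.inr ⟨q, by omega, h1, h2⟩

theorem bank (h : ℕ → Prop) [DecidablePred h] (h2 : ∀ q, h q → 2 ≤ q)
    (gap : ∀ q g, h q → h (q + g) → g ≠ 1 ∧ g ≠ 3 ∧ g ≠ 5 ∧ g ≠ 6 ∧ g ≠ 8)
    (f22 : ∀ q, h q → h (q + 2) → h (q + 4) → False)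
    (f272 : ∀ q, h q → h (q + 2) → h (q + 9) → h (q + 11) → False)
    (f747 : ∀ q, h q → h (q + 7) → h (q + 11) → h (q + 18) → False) (p : ℕ) : h p →
    16 * Nat.count h p ≤ 3 * p + 5 ∧
    ((∀ q, h q → q + 2 ≠ p) → 16 * Nat.count h p ≤ 3 * p + 4) ∧
    ((∀ q, h q → q + 2 ≠ p) → (∀ q, h q → h (q + 7) → q + 11 ≠ p) →
      16 * Nat.count h p ≤ 3 * p) ∧
    ((∀ q, h q → q + 2 ≠ p) → (∀ q, h q → q + 4 ≠ p) → (∀ q, h q → h (q + 2) → q + 9 ≠ p) →
      16 * Nat.count h p + 5 ≤ 3 * p) := by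
  induction p using Nat.strong_induction_on with
  | _ p ih =>
  intro hp
  have hp2 := h2 p hp
  rcases last h p with h0 | ⟨q, hq, hq1, hq2⟩
  · rw [h0]; refine ⟨by omega, fun _ => by omega, fun _ _ => by omega, fun _ _ _ => by omega⟩
  obtain ⟨i1, i2, i3, i4⟩ := ih q hq hq1
  obtain ⟨g, rfl⟩ : ∃ g, p = q + g := ⟨p - q, by omega⟩
  have hg := gap q g hq1 hp
  have hc : g = 2 ∨ g = 4 ∨ g = 7 ∨ 9 ≤ g := by omega
  rw [hq2]
  rcases hc with rfl | rfl | rfl | hc
  · have a := i4 (by rintro r hr rfl; exact f22 r hr hq1 hp)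
      (by rintro r hr rfl; exact (gap r 6 hr hp).2.2.2.1 rfl)
      (by rintro r hr hr2 rfl; exact f272 r hr hr2 hq1 hp)
    exact ⟨by omega, fun b => absurd rfl (b q hq1), fun b => absurd rfl (b q hq1),
      fun b => absurd rfl (b q hq1)⟩
  · have n2 : ∀ r, h r → r + 2 ≠ q := by rintro r hr rfl; exact (gap r 6 hr hp).2.2.2.1 rfl
    have n4 : ∀ r, h r → r + 4 ≠ q := by rintro r hr rfl; exact (gap r 8 hr hp).2.2.2.2 rfl
    have a := i3 n2 (by rintro r _ hr2 rfl; exact n4 (r + 7) hr2 rfl)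
    refine ⟨by omega, fun _ => by omega, fun _ b => ?_, fun _ b => absurd rfl (b q hq1)⟩
    have := i4 n2 n4 (by rintro r _ hr2 rfl; exact b (r + 2) hr2 hq1 rfl)
    omega
  · refine ⟨by omega, fun _ => by omega, fun _ _ => by omega, fun _ _ b => ?_⟩
    have := i3 (by rintro r hr rfl; exact b r hr hq1 rfl)
      (by rintro r hr hr2 rfl; exact f747 r hr hr2 hq1 hp)
    omega
  · exact ⟨by omega, fun _ => by omega, fun _ _ => by omega, fun _ _ _ => by omega⟩

theorem count_le (h h' : ℕ → Prop) [DecidablePred h] [DecidablePred h']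
    (e : ∀ n, 2 ≤ n → h n → h' n) (n : ℕ) : Nat.count h n ≤ Nat.count h' n + 2 := by
  have : ∀ n, Nat.count h n ≤ Nat.count h' n + min n 2 := by
    intro n
    induction n with
    | zero => simp
    | succ n ih =>
      rw [Nat.count_succ, Nat.count_succ]
      by_cases hn : 2 ≤ n
      · by_cases a : h n
        · rw [if_pos a, if_pos (e n hn a)]; omega
        · rw [if_neg a]; omega
      · split_ifs <;> omega
  have := this n
  omega

theorem upper (u : ℕ → Fin 3) (P : Set ℕ) [DecidablePred (· ∈ P)]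
    (hsq : ∀ i m, 1 ≤ m → ¬ ∀ j < m, u (i + j) = u (i + m + j))
    (hw : ∀ i m, 2 ≤ m → ¬ ∀ j < m, i + j ∈ P ∨ i + m + j ∈ P ∨ u (i + j) = u (i + m + j))
    (n : ℕ) : 16 * Nat.count (· ∈ P) n ≤ 3 * n + 53 := by
  have h1 := count_le (· ∈ P) (fun n => n ∈ P ∧ 2 ≤ n) (fun n a b => ⟨b, a⟩) n
  rcases last (fun n => n ∈ P ∧ 2 ≤ n) n with h0 | ⟨q, hq, hq1, hq2⟩
  · omega
  · have := (bank (fun n => n ∈ P ∧ 2 ≤ n) (fun q h => h.2)
      (fun q g a b => gap u P hsq hw q g (by omega) a.1 b.1)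
      (fun q a b c => f22 u P hsq hw q (by omega) a.1 b.1 c.1)
      (fun q a b c d => f272 u P hsq hw q (by omega) a.1 b.1 c.1 d.1)
      (fun q a b c d => f747 u P hsq hw q (by omega) a.1 b.1 c.1 d.1) q hq1).1
    omega

theorem count_hole (n : ℕ) : 3 * n ≤ 16 * Nat.count (fun t => hole t = true) n + 48 := by
  have h16 : ∀ k, Nat.count (fun t => hole t = true) (16 * k) = 3 * k := by
    intro k
    induction k with
    | zero => rfl
    | succ k ih =>
      rw [show 16 * (k + 1) = 16 * k + 16 by ring, Nat.count_add, ih]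
      have : ∀ t, hole (16 * k + t) = hole t := by
        intro t; unfold hole; rw [show (16 * k + t) % 16 = t % 16 by omega]
      simp only [this]
      have : Nat.count (fun t => hole t = true) 16 = 3 := by decide +kernel
      omega
  have h1 := Nat.count_monotone (fun t => hole t = true) (show 16 * (n / 16) ≤ n by omega)
  rw [h16] at h1
  omega

end Pool.Agent.H14.Fx
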