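import Mathlib
set_option autoImplicit false
set_option maxHeartbeats 400000

namespace Pool.Agent.H14.Gf
open Finset

def Rel (w a b : ℂ) : Prop :=
  0 ≤ (b * starRingEnd ℂ a).im ∧ 0 ≤ (w * a * starRingEnd ℂ b).im

variable {w : ℂ}

lemma Rel.refl (hw : 0 < w.im) (a : ℂ) : Rel w a a := by
  refine ⟨by rw [Complex.mul_conj]; simp, ?_⟩
  rw [mul_assoc, Complex.mul_conj, Complex.im_mul_ofReal]
  exact mul_nonneg hw.le (Complex.normSq_nonneg _)

lemma Rel.addl {a a' b : ℂ} (h : Rel w a b) (h' : Rel w a' b) : Rel w (a + a') b := by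
  refine ⟨?_, ?_⟩
  · rw [map_add, mul_add, Complex.add_im]; exact add_nonneg h.1 h'.1
  · rw [mul_add, add_mul, Complex.add_im]; exact add_nonneg h.2 h'.2

lemma Rel.addr {a b b' : ℂ} (h : Rel w a b) (h' : Rel w a b') : Rel w a (b + b') := by
  refine ⟨?_, ?_⟩
  · rw [add_mul, Complex.add_im]; exact add_nonneg h.1 h'.1
  · rw [map_add, mul_add, Complex.add_im]; exact add_nonneg h.2 h'.2

lemma Rel.smul {a b : ℂ} (h : Rel w a b) (s t : ℝ) (hs : 0 ≤ s) (ht : 0 ≤ t) :
    Rel w (s * a) (t * b) := by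
  refine ⟨?_, ?_⟩
  · rw [map_mul, Complex.conj_ofReal, show (t : ℂ) * b * (s * starRingEnd ℂ a) =
      ((s * t : ℝ) : ℂ) * (b * starRingEnd ℂ a) by push_cast; ring, Complex.im_ofReal_mul]
    exact mul_nonneg (mul_nonneg hs ht) h.1
  · rw [map_mul, Complex.conj_ofReal, show w * ((s : ℂ) * a) * (t * starRingEnd ℂ b) =
      ((s * t : ℝ) : ℂ) * (w * a * starRingEnd ℂ b) by push_cast; ring, Complex.im_ofReal_mul]
    exact mul_nonneg (mul_nonneg hs ht) h.2

lemma Rel.turn {a b : ℂ} (h : Rel w a b) : Rel w b (w * a) := by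
  refine ⟨h.2, ?_⟩
  rw [map_mul, show w * b * (starRingEnd ℂ w * starRingEnd ℂ a) =
    (w * starRingEnd ℂ w) * (b * starRingEnd ℂ a) by ring, Complex.mul_conj, Complex.im_ofReal_mul]
  exact mul_nonneg (Complex.normSq_nonneg _) h.1

lemma Rel.suml (c : ℕ → ℝ) (hc : ∀ k, 0 < c k) (x : ℕ → ℂ) (b : ℂ) (s : Finset ℕ)
    (h : ∀ k ∈ s, Rel w (x k) b) : Rel w (∑ k ∈ s, c k * x k) b := by
  refine sum_induction _ (fun a => Rel w a b) (fun _ _ => Rel.addl) (by simp [Rel]) fun k hk => ?_
  simpa using (h k hk).smul (c k) 1 (hc k).le zero_le_one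

lemma Rel.sumr (c : ℕ → ℝ) (hc : ∀ k, 0 < c k) (x : ℕ → ℂ) (a : ℂ) (s : Finset ℕ)
    (h : ∀ k ∈ s, Rel w a (x k)) : Rel w a (∑ k ∈ s, c k * x k) := by
  refine sum_induction _ (fun b => Rel w a b) (fun _ _ => Rel.addr) (by simp [Rel]) fun k hk => ?_
  simpa using (h k hk).smul 1 (c k) zero_le_one (hc k).le

lemma Rel.ne (hw : 0 < w.im) {a b : ℂ} (h : Rel w a b) (ha : a ≠ 0) (s : ℝ) (hs : 0 < s) :
    s * a + b ≠ 0 := fun e => by
  have h2 := h.2
  rw [eq_neg_of_add_eq_zero_right e, map_neg, map_mul, Complex.conj_ofReal,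
    show w * a * -(s * starRingEnd ℂ a) = -(s * (w * (a * starRingEnd ℂ a))) by ring,
    Complex.mul_conj, Complex.neg_im, Complex.im_ofReal_mul, Complex.im_mul_ofReal] at h2
  have := mul_pos hs (mul_pos hw (Complex.normSq_pos.2 ha))
  linarith

open Polynomial

noncomputable def N (a : ℕ → ℝ) (n r : ℕ) (W : ℝ[X]) : ℕ → ℕ → ℝ[X]
  | 0, _ => 1
  | m + 1, j => ∑ k ∈ Ico j n, C (a k) * N a n r W m k + W *
      (if _h : r = 0 then ∑ k ∈ range j, C (a k) * N a n r W m k
        else if r ≤ m + 1 then N a n r W (m + 1 - r) 0 else 0)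
  termination_by m => m
  decreasing_by all_goals omega

lemma core_pos (a : ℕ → ℝ) (ha : ∀ k, 0 < a k) (n r : ℕ) (hn : 0 < n) (W : ℝ[X]) (z : ℝ)
    (hw : 0 ≤ W.eval z) (m : ℕ) :
    (∀ j, 0 ≤ (N a n r W m j).eval z) ∧ 0 < (N a n r W m 0).eval z := by
  induction m using Nat.strong_induction_on with
  | _ m ih =>
    cases m with
    | zero => simp [N]
    | succ m =>
      have h1 : ∀ s : Finset ℕ, 0 ≤ (∑ k ∈ s, C (a k) * N a n r W m k).eval z := fun s => by
        rw [eval_finset_sum]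
        exact sum_nonneg fun k _ => by
          rw [eval_C_mul]; exact mul_nonneg (ha k).le ((ih m (by omega)).1 k)
      have h2 : ∀ j, 0 ≤ (W * (if _h : r = 0 then ∑ k ∈ range j, C (a k) * N a n r W m k
          else if r ≤ m + 1 then N a n r W (m + 1 - r) 0 else 0)).eval z := fun j => by
        rw [eval_mul]
        refine mul_nonneg hw ?_
        split_ifs
        · exact h1 _
        · exact (ih _ (by omega)).1 0
        · simp
      refine ⟨fun j => ?_, ?_⟩
      · rw [N, eval_add]; exact add_nonneg (h1 _) (h2 j)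
      · rw [N, eval_add, sum_eq_sum_Ico_succ_bot hn, eval_add, eval_C_mul]
        have := mul_pos (ha 0) (ih m (by omega)).2
        linarith [h1 (Ico (0 + 1) n), h2 0]

lemma core0 (a : ℕ → ℝ) (ha : ∀ k, 0 < a k) (n : ℕ) (hn : 0 < n) (W : ℝ[X]) (z : ℂ)
    (hw : 0 < (aeval z W).im) (m : ℕ) :
    (∀ j j', j ≤ j' → j' ≤ n → Rel (aeval z W) (aeval z (N a n 0 W m j))
      (aeval z (N a n 0 W m j'))) ∧ aeval z (N a n 0 W m 0) ≠ 0 := by
  induction m with
  | zero => simp [N, Rel, hw.le]
  | succ m ih =>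
    have e : ∀ j, aeval z (N a n 0 W (m + 1) j) = ∑ k ∈ Ico j n, a k * aeval z (N a n 0 W m k)
        + aeval z W * ∑ k ∈ range j, a k * aeval z (N a n 0 W m k) := fun j => by
      rw [N]; simp
    generalize aeval z W = w at *
    set x := fun k => aeval z (N a n 0 W m k)
    have hx : ∀ s t : Finset ℕ, (∀ k ∈ s, ∀ l ∈ t, k ≤ l ∧ l ≤ n) →
        Rel w (∑ k ∈ s, a k * x k) (∑ k ∈ t, a k * x k) := fun s t h =>
      Rel.suml a ha x _ s fun k hk => Rel.sumr a ha x _ t fun l hl =>
        ih.1 k l (h k hk l hl).1 (h k hk l hl).2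
    refine ⟨fun j j' h h' => ?_, ?_⟩
    · rw [e, e, ← sum_Ico_consecutive _ h h', ← sum_range_add_sum_Ico _ h, mul_add, add_assoc,
        ← add_assoc (∑ k ∈ Ico j' n, _)]
      have CB := hx (range j) (Ico j j') (by simp only [mem_range, mem_Ico]; omega)
      have BA := hx (Ico j j') (Ico j' n) (by simp only [mem_Ico]; omega)
      exact ((BA.addr CB.turn).addr (Rel.refl hw _).turn).addl
        ((Rel.refl hw _).addr (BA.turn.addl CB.turn.turn))
    · rw [e, sum_eq_sum_Ico_succ_bot hn, range_zero, sum_empty, mul_zero, add_zero]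
      exact (Rel.sumr a ha x _ _ fun l hl => ih.1 0 l (by omega) (mem_Ico.1 hl).2.le).ne hw ih.2 _
        (ha 0)

lemma core1 (a : ℕ → ℝ) (ha : ∀ k, 0 < a k) (n r : ℕ) (hn : 0 < n) (hr : r ≠ 0) (W : ℝ[X])
    (z : ℂ) (hw : 0 < (aeval z W).im) (m : ℕ) :
    (∀ j j', j ≤ j' → Rel (aeval z W) (aeval z (N a n r W m j)) (aeval z (N a n r W m j'))) ∧
    (∀ i j, i ≤ m → m < i + r → Rel (aeval z W) (aeval z (N a n r W i 0))
      (aeval z (N a n r W m j))) ∧ aeval z (N a n r W m 0) ≠ 0 := by
  induction m using Nat.strong_induction_on with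
  | _ m ih =>
    cases m with
    | zero =>
      refine ⟨by simp [N, Rel, hw.le], fun i j hi _ => ?_, by simp [N]⟩
      rw [Nat.le_zero.1 hi]
      simp [N, Rel, hw.le]
    | succ m =>
      obtain ⟨L, e, l1⟩ : ∃ L : ℂ, (∀ j, aeval z (N a n r W (m + 1) j) =
          ∑ k ∈ Ico j n, a k * aeval z (N a n r W m k) + L) ∧ ∀ i j, i ≤ m → m + 1 ≤ i + r →
            Rel (aeval z W) (aeval z (N a n r W i j)) L := by
        refine ⟨aeval z W * aeval z (if r ≤ m + 1 then N a n r W (m + 1 - r) 0 else 0),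
          fun j => by rw [N, dif_neg hr, map_add, map_mul]; simp, fun i j hi hi' => ?_⟩
        split_ifs with h
        · exact ((ih i (by omega)).2.1 _ j (by omega) (by omega)).turn
        · simp [Rel]
      generalize aeval z W = w at *
      set x := fun k => aeval z (N a n r W m k)
      obtain ⟨i1, i2, i3⟩ := ih m (by omega)
      have h1 : ∀ j j', j ≤ j' → Rel w (aeval z (N a n r W (m + 1) j))
          (aeval z (N a n r W (m + 1) j')) := fun j j' h => by
        have s : Ico j n = Ico j (min j' n) ∪ Ico j' n := by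
          ext k; simp only [mem_union, mem_Ico, lt_min_iff]; omega
        rw [e, e, s, sum_union (by
          rw [disjoint_left]; simp only [mem_Ico, lt_min_iff]; omega), add_assoc]
        refine Rel.addl (Rel.suml a ha x _ _ fun k hk => Rel.addr (Rel.sumr a ha x _ _
          fun l hl => i1 k l ?_) (l1 m k le_rfl (by omega))) (Rel.refl hw _)
        simp only [mem_Ico, lt_min_iff] at hk hl
        omega
      refine ⟨h1, fun i j hi hi' => ?_, ?_⟩
      · rcases hi.eq_or_lt with rfl | hi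
        · exact h1 0 j (by omega)
        · rw [e]
          exact (Rel.sumr a ha x _ _ fun l _ => i2 i l (by omega) (by omega)).addr
            (l1 i 0 (by omega) (by omega))
      · rw [e, sum_eq_sum_Ico_succ_bot hn, add_assoc]
        exact ((Rel.sumr a ha x _ _ fun l _ => i1 0 l (by omega)).addr
          (l1 m 0 le_rfl (by omega))).ne hw i3 _ (ha 0)

lemma core (a : ℕ → ℝ) (ha : ∀ k, 0 < a k) (n r : ℕ) (hn : 0 < n) (q : ℝ) (hq : 0 < q)
    (z : ℂ) (m : ℕ) (h : aeval z (N a n r (C (-q⁻¹) * X) m 0) = 0) : z.im = 0 ∧ 0 < z.re := by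
  have key : ∀ z : ℂ, z.im < 0 → aeval z (N a n r (C (-q⁻¹) * X) m 0) ≠ 0 := fun z hz => by
    have hw : 0 < (aeval z (C (-q⁻¹) * X : ℝ[X])).im := by
      rw [map_mul, aeval_C, aeval_X]
      change 0 < (((-q⁻¹ : ℝ) : ℂ) * z).im
      rw [Complex.im_ofReal_mul]
      exact mul_pos_of_neg_of_neg (neg_neg_of_pos (inv_pos.2 hq)) hz
    by_cases hr : r = 0
    · subst hr; exact (core0 a ha n hn _ z hw m).2
    · exact (core1 a ha n r hn hr _ z hw m).2.2
  have h1 : z.im = 0 := by
    rcases lt_trichotomy z.im 0 with h' | h' | h'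
    · exact absurd h (key z h')
    · exact h'
    · refine absurd ?_ (key (starRingEnd ℂ z) (by simpa using h'))
      rw [aeval_conj, h, map_zero]
  refine ⟨h1, lt_of_not_ge fun h2 => ?_⟩
  have := (core_pos a ha n r hn (C (-q⁻¹) * X) z.re (by
    simp only [eval_mul, eval_C, eval_X]
    exact mul_nonneg_of_nonpos_of_nonpos (neg_nonpos.2 (inv_pos.2 hq).le) h2) m).2
  have e : z = algebraMap ℝ ℂ z.re := Complex.ext (by simp) (by simp [h1])
  rw [e, aeval_algebraMap_apply, coe_aeval_eq_eval] at h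
  exact this.ne' (Complex.ofReal_injective h)

lemma factor (s : Multiset ℝ) (hs : ∀ x ∈ s, 0 < x) : ∃ (c : ℝ) (a : ℕ → ℝ), (∀ k, 0 < a k) ∧
    (s.map fun x => X - C x).prod = C c * ∏ k ∈ range s.card, (1 - C (a k) * X) := by
  induction s using Multiset.induction_on with
  | empty => exact ⟨1, fun _ => 1, fun _ => one_pos, by simp⟩
  | cons x s ih =>
    obtain ⟨c, a, ha, e⟩ := ih fun y hy => hs y (Multiset.mem_cons_of_mem hy)
    have hx := hs x (Multiset.mem_cons_self _ _)
    refine ⟨-x * c, fun k => Nat.casesOn k x⁻¹ a, fun k => ?_, ?_⟩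
    · cases k with
      | zero => exact inv_pos.2 hx
      | succ k => exact ha k
    · rw [Multiset.map_cons, Multiset.prod_cons, e, Multiset.card_cons, prod_range_succ', C_mul,
        C_neg]
      have : (C x : ℝ[X]) * C x⁻¹ = 1 := by rw [← C_mul, mul_inv_cancel₀ hx.ne', C_1]
      simp only
      linear_combination (-C c * X * ∏ k ∈ range s.card, (1 - C (a k) * X)) * this

lemma coeffs {K : Type} [CommRing K] (φ : ℝ[X] →+* K) (a : ℕ → ℝ) (n r : ℕ) (W : ℝ[X])
    (U : ℕ → PowerSeries K)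
    (h1 : ∀ j, U j = U (j + 1) + PowerSeries.C (φ (C (a j))) * (PowerSeries.X * U j))
    (h2 : U n = 1 + PowerSeries.C (φ W) * (PowerSeries.X ^ r * U 0)) (m j : ℕ) (hj : j ≤ n) :
    PowerSeries.coeff m (U j) * φ (if r = 0 then 1 - W else 1) ^ (m + 1) = φ (N a n r W m j) := by
  have t0 : ∀ j, PowerSeries.coeff 0 (U j) = PowerSeries.coeff 0 (U 0) := fun j => by
    induction j with
    | zero => rfl
    | succ j ih => rw [← ih, h1 j]; simp
  have t1 : ∀ m j, j ≤ n → PowerSeries.coeff (m + 1) (U j) = PowerSeries.coeff (m + 1) (U n) +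
      ∑ k ∈ Ico j n, φ (C (a k)) * PowerSeries.coeff m (U k) := fun m j hj => by
    induction hj using Nat.decreasingInduction with
    | self => simp
    | of_succ j hj ih =>
      rw [sum_eq_sum_Ico_succ_bot hj, h1 j, map_add, ih, PowerSeries.coeff_C_mul,
        PowerSeries.coeff_succ_X_mul, ← h1 j]
      ring
  induction m using Nat.strong_induction_on generalizing j with
  | _ m ih =>
    have h3 := congrArg (PowerSeries.coeff m) h2
    rw [map_add, PowerSeries.coeff_C_mul, PowerSeries.coeff_X_pow_mul', PowerSeries.coeff_one] at h3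
    cases m with
    | zero =>
      rw [N, t0 j]
      rw [t0 n] at h3
      by_cases hr : r = 0
      · subst hr
        simp only [if_true, le_refl, map_sub, map_one, Nat.sub_self] at h3 ⊢
        linear_combination h3
      · rw [if_neg (show ¬ r ≤ 0 by omega)] at h3
        simp only [h3, if_neg hr, map_one]
        simp
    | succ m =>
      have s : ∀ s : Finset ℕ, (∀ k ∈ s, k ≤ n) → φ (∑ k ∈ s, C (a k) * N a n r W m k) =
          (∑ k ∈ s, φ (C (a k)) * PowerSeries.coeff m (U k)) *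
            φ (if r = 0 then 1 - W else 1) ^ (m + 1) := fun s hs => by
        rw [map_sum, sum_mul]
        exact sum_congr rfl fun k hk => by
          rw [map_mul, ← ih m (by omega) k (hs k hk), mul_assoc]
      rw [N, map_add, map_mul, s _ fun k hk => (mem_Ico.1 hk).2.le, t1 m j hj]
      rw [if_neg (by omega), zero_add] at h3
      by_cases hr : r = 0
      · subst hr
        have h4 := t1 m 0 (by omega)
        rw [← range_eq_Ico, ← sum_range_add_sum_Ico _ hj] at h4
        rw [dif_pos rfl, s _ fun k hk => (mem_range.1 hk).le.trans hj, pow_succ _ (m + 1)]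
        simp only [if_true, Nat.zero_le, map_sub, map_one, Nat.sub_zero] at h3 ⊢
        linear_combination (1 - φ W) ^ (m + 1) * h3 + (1 - φ W) ^ (m + 1) * φ W * h4
      · rw [dif_neg hr, h3]
        simp only [if_neg hr, map_one, one_pow, mul_one] at ih ⊢
        split_ifs with h
        · rw [ih _ (by omega) 0 (by omega)]; ring
        · simp

theorem main (Q : ℝ[X]) (hd : 0 < Q.natDegree)
    (hQ : ∀ z : ℂ, aeval z Q = 0 → z.im = 0 ∧ 0 < z.re) (h0 : 0 < Q.eval 0) (r m : ℕ) (z : ℂ)
    (hz : aeval z (PowerSeries.coeff m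
      (((Q.map (algebraMap ℝ (RatFunc ℝ)) : (RatFunc ℝ)[X]) : PowerSeries (RatFunc ℝ)) +
        PowerSeries.C RatFunc.X * PowerSeries.X ^ r)⁻¹).num = 0) : z.im = 0 ∧ 0 < z.re := by
  have hQ0 : Q ≠ 0 := fun h => by simp [h] at hd
  have hsp : Q.Splits := Splits.of_splits_map (algebraMap ℝ ℂ) (IsAlgClosed.splits _) fun x hx => by
    have := hQ x (by rw [← eval_map_algebraMap]; exact (mem_roots'.1 hx).2)
    exact ⟨x.re, Complex.ext (by simp) (by simp [this.1])⟩
  obtain ⟨c, a, ha, e⟩ := factor Q.roots fun x hx => by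
    have := (hQ (algebraMap ℝ ℂ x) (by
      rw [aeval_algebraMap_apply, coe_aeval_eq_eval, (mem_roots'.1 hx).2, map_zero])).2
    simpa using this
  have e1 := hsp.eq_prod_roots
  rw [e, ← mul_assoc, ← C_mul, ← hsp.natDegree_eq_card_roots] at e1
  generalize Q.natDegree = n at *
  generalize Q.leadingCoeff * c = q at e1
  subst e1
  have hq : 0 < q := by simpa [eval_prod] using h0
  set φ := algebraMap ℝ[X] (RatFunc ℝ) with hφ
  have hc : ∀ x : ℝ, algebraMap ℝ (RatFunc ℝ) x = φ (C x) := fun x => rfl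
  set F := (((C q * ∏ k ∈ range n, (1 - C (a k) * X)).map (algebraMap ℝ (RatFunc ℝ)) :
    (RatFunc ℝ)[X]) : PowerSeries (RatFunc ℝ)) + PowerSeries.C RatFunc.X * PowerSeries.X ^ r with hF
  have hF' : F = PowerSeries.C (φ (C q)) * ∏ k ∈ range n,
      (1 - PowerSeries.C (φ (C (a k))) * PowerSeries.X) +
      PowerSeries.C (φ X) * PowerSeries.X ^ r := by
    rw [hF, ← coeToPowerSeries.ringHom_apply]
    simp only [Polynomial.map_mul, Polynomial.map_prod, Polynomial.map_sub, Polynomial.map_one,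
      map_C, map_X, map_mul, map_prod, map_sub, map_one, coeToPowerSeries.ringHom_apply, coe_C,
      coe_X, hc, hφ, RatFunc.algebraMap_X]
  have hD : (C q * (if r = 0 then 1 - C (-q⁻¹) * X else 1) : ℝ[X]) ≠ 0 := fun h => by
    have := congrArg (eval 0) h
    split_ifs at this <;> simp [hq.ne'] at this
  have hqq : φ (C q) * φ (C (-q⁻¹)) = -1 := by
    rw [← map_mul, ← C_mul, mul_neg, mul_inv_cancel₀ hq.ne']; simp
  have hF0 : PowerSeries.constantCoeff F ≠ 0 := by
    have : PowerSeries.constantCoeff F = φ (C q * (if r = 0 then 1 - C (-q⁻¹) * X else 1)) := by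
      rw [hF']
      split_ifs with h
      · simp only [h, map_add, map_mul, map_prod, map_sub, map_one, PowerSeries.constantCoeff_C,
          PowerSeries.constantCoeff_X, mul_zero, sub_zero, prod_const_one, pow_zero]
        linear_combination (φ X) * hqq
      · simp [h]
    rw [this]
    exact (map_ne_zero_iff _ (RatFunc.algebraMap_injective ℝ)).2 hD
  have hi := PowerSeries.mul_inv_cancel F hF0
  have key := coeffs φ a n r (C (-q⁻¹) * X) (fun j => PowerSeries.C (φ (C q)) *
    (∏ k ∈ range j, (1 - PowerSeries.C (φ (C (a k))) * PowerSeries.X)) * F⁻¹)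
    (fun j => by simp only [prod_range_succ]; ring) (by
      have := congrArg PowerSeries.C hqq
      rw [map_mul, map_neg PowerSeries.C (1 : RatFunc ℝ), map_one] at this
      simp only [range_zero, prod_empty, map_mul]
      generalize F⁻¹ = u at *
      rw [hF'] at hi
      linear_combination hi - PowerSeries.C (φ X) * PowerSeries.X ^ r * u * this) m 0 (by omega)
  simp only [range_zero, prod_empty, mul_one, PowerSeries.coeff_C_mul] at key
  have hD2 : (C q * (if r = 0 then 1 - C (-q⁻¹) * X else 1) ^ (m + 1) : ℝ[X]) ≠ 0 :=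
    mul_ne_zero (left_ne_zero_of_mul hD) (pow_ne_zero _ (right_ne_zero_of_mul hD))
  have e2 : PowerSeries.coeff m F⁻¹ = φ (N a n r (C (-q⁻¹) * X) m 0) /
      φ (C q * (if r = 0 then 1 - C (-q⁻¹) * X else 1) ^ (m + 1)) := by
    rw [eq_div_iff ((map_ne_zero_iff _ (RatFunc.algebraMap_injective ℝ)).2 hD2), ← key, map_mul,
      map_pow]
    ring
  rw [e2] at hz
  obtain ⟨g, hg⟩ := RatFunc.num_div_dvd (N a n r (C (-q⁻¹) * X) m 0) hD2
  exact core a ha n r hd q hq z m (by rw [hg, map_mul, hz, zero_mul])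

end Pool.Agent.H14.Gf
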