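import Mathlib

set_option autoImplicit false

namespace Pool.Agent.H14.RGood

open Finset

lemma prod_le_of_sum {ι : Type} [Fintype ι] (W : ι → ℝ) (hW : ∀ i, 0 ≤ W i) (l : ℝ) (hl : 0 < l)
    (h : ∑ i, W i ≤ Fintype.card ι * l) : ∏ i, W i ≤ l ^ Fintype.card ι := by
  have h1 : ∏ i, (W i / l) ≤ ∏ i, Real.exp (W i / l - 1) := by
    refine prod_le_prod (fun i _ => div_nonneg (hW i) hl.le) fun i _ => ?_
    have := Real.add_one_le_exp (W i / l - 1)
    linarith
  rw [← Real.exp_sum, prod_div_distrib, prod_const, card_univ, div_le_iff₀ (by positivity)] at h1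
  have h2 : ∑ i, (W i / l - 1) ≤ 0 := by
    rw [sum_sub_distrib, ← sum_div, sum_const, card_univ, nsmul_eq_mul, mul_one, sub_nonpos,
      div_le_iff₀ hl]
    exact h
  have h3 : Real.exp (∑ i, (W i / l - 1)) ≤ 1 := Real.exp_le_one_iff.2 h2
  calc _ ≤ _ := h1
    _ ≤ 1 * l ^ Fintype.card ι := mul_le_mul_of_nonneg_right h3 (by positivity)
    _ = _ := one_mul _

lemma count_perm {m : ℕ} (W : Fin m → Finset (Fin m)) :
    (univ.filter fun π : Equiv.Perm (Fin m) => ∀ x, π x ∈ W x).card ≤ ∏ x, (W x).card := by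
  rw [← Fintype.card_piFinset]
  refine card_le_card_of_injOn (fun π => ⇑π) ?_ ?_
  · intro π hπ
    simp only [coe_filter, mem_univ, true_and, Set.mem_ofPred_eq] at hπ
    simpa using hπ
  · intro a _ b _ h
    exact DFunLike.coe_injective h

lemma pow_le_fact (m : ℕ) : (m : ℝ) ^ m ≤ m.factorial * 3 ^ m := by
  have h1 := Real.pow_div_factorial_le_exp (m : ℝ) (Nat.cast_nonneg m) m
  rw [div_le_iff₀ (by positivity)] at h1
  have h2 : Real.exp (m : ℝ) ≤ 3 ^ m := by
    rw [← Real.exp_one_pow]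
    exact pow_le_pow_left₀ (Real.exp_pos 1).le (Real.exp_one_lt_d9.le.trans (by norm_num)) m
  calc _ ≤ _ := h1
    _ ≤ 3 ^ m * m.factorial := mul_le_mul_of_nonneg_right h2 (by positivity)
    _ = _ := mul_comm _ _

open Classical in
lemma pair_sum {V : Type} [Fintype V] (T : V → V → Prop) {m t : ℕ}
    (hT : ∀ v v', v ≠ v' → (univ.filter fun u => T u v ∧ T u v').card ≤ 3)
    (φ : Fin m → V) (hφ : ∀ v, (univ.filter fun x => φ x = v).card ≤ t) :
    (∑ x, ((univ.filter fun y => T (φ x) (φ y)).card : ℝ)) ^ 2 ≤ 4 * t * (m : ℝ) ^ 3 := by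
  have h1 := sq_sum_le_card_mul_sum_sq (s := (univ : Finset (Fin m)))
    (f := fun x => ((univ.filter fun y => T (φ x) (φ y)).card : ℝ))
  simp only [card_univ, Fintype.card_fin] at h1
  have h2 : ∑ x, ((univ.filter fun y => T (φ x) (φ y)).card : ℝ) ^ 2 =
      ∑ y, ∑ y', ((univ.filter fun x => T (φ x) (φ y) ∧ T (φ x) (φ y')).card : ℝ) := by
    simp only [card_filter, sq]
    push_cast
    simp only [sum_mul_sum]
    rw [sum_comm]
    refine sum_congr rfl fun y _ => ?_
    rw [sum_comm]
    refine sum_congr rfl fun y' _ => sum_congr rfl fun x _ => ?_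
    by_cases a1 : T (φ x) (φ y) <;> by_cases a2 : T (φ x) (φ y') <;> simp [a1, a2]
  have h3 : ∀ y y', ((univ.filter fun x => T (φ x) (φ y) ∧ T (φ x) (φ y')).card : ℝ) ≤
      3 * t + if φ y' = φ y then (m : ℝ) else 0 := by
    intro y y'
    by_cases h : φ y' = φ y
    · rw [if_pos h]
      have : (univ.filter fun x => T (φ x) (φ y) ∧ T (φ x) (φ y')).card ≤ m := by
        simpa using card_filter_le (univ : Finset (Fin m)) _
      have h' : ((univ.filter fun x => T (φ x) (φ y) ∧ T (φ x) (φ y')).card : ℝ) ≤ m := by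
        exact_mod_cast this
      have : (0 : ℝ) ≤ 3 * t := by positivity
      linarith
    · rw [if_neg h, add_zero]
      have a1 := card_le_mul_card_image_of_maps_to (f := φ)
        (s := univ.filter fun x => T (φ x) (φ y) ∧ T (φ x) (φ y'))
        (t := univ.filter fun u => T u (φ y) ∧ T u (φ y')) (by simp) t (by
          intro b _
          refine le_trans (card_le_card ?_) (hφ b)
          intro x hx
          simp only [mem_filter, mem_univ, true_and] at hx ⊢
          exact hx.2)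
      have a2 := hT (φ y) (φ y') (Ne.symm h)
      have : (univ.filter fun x => T (φ x) (φ y) ∧ T (φ x) (φ y')).card ≤ 3 * t := by nlinarith
      exact_mod_cast this
  have h4 : ∀ y, ∑ y', ((univ.filter fun x => T (φ x) (φ y) ∧ T (φ x) (φ y')).card : ℝ) ≤
      4 * t * m := by
    intro y
    refine (sum_le_sum fun y' _ => h3 y y').trans ?_
    rw [sum_add_distrib, ← sum_filter]
    simp only [sum_const, card_univ, Fintype.card_fin, nsmul_eq_mul]
    have : ((univ.filter fun y' => φ y' = φ y).card : ℝ) ≤ t := by exact_mod_cast hφ (φ y)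
    have : (0 : ℝ) ≤ m := by positivity
    nlinarith
  have h5 := sum_le_sum fun y (_ : y ∈ univ) => h4 y
  simp only [sum_const, card_univ, Fintype.card_fin, nsmul_eq_mul] at h5
  rw [h2] at h1
  have : (0 : ℝ) ≤ m := by positivity
  nlinarith

open Classical in
lemma exists_perms {V : Type} [Fintype V] (T : V → V → Prop) {m t : ℕ} (hm : 0 < m)
    (hT : ∀ v v', v ≠ v' → (univ.filter fun u => T u v ∧ T u v').card ≤ 3)
    (ρ : ℝ) (hρ : 0 < ρ) (ht : 4 * (t : ℝ) ≤ ρ ^ 2 * m)
    (hV : (Fintype.card V : ℝ) * (3 * ρ) ^ 9 < 1) :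
    ∃ π : Fin 9 → Equiv.Perm (Fin m), ∀ φ : Fin m → V,
      (∀ v, (univ.filter fun x => φ x = v).card ≤ t) → ∃ i x, ¬ T (φ x) (φ (π i x)) := by
  by_contra hcon
  push Not at hcon
  have hm' : (0 : ℝ) < m := by exact_mod_cast hm
  let good : (Fin m → V) → Finset (Equiv.Perm (Fin m)) := fun φ =>
    univ.filter fun π => ∀ x, π x ∈ univ.filter fun y => T (φ x) (φ y)
  let Φ : Finset (Fin m → V) := univ.filter fun φ => ∀ v, (univ.filter fun x => φ x = v).card ≤ t
  have hsub : (univ : Finset (Fin 9 → Equiv.Perm (Fin m))) ⊆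
      Φ.biUnion fun φ => Fintype.piFinset fun _ => good φ := by
    intro π _
    obtain ⟨φ, h1, h2⟩ := hcon π
    simp only [mem_biUnion, Fintype.mem_piFinset, good, Φ, mem_filter, mem_univ, true_and]
    exact ⟨φ, h1, h2⟩
  have hg : ∀ φ ∈ Φ, ((good φ).card : ℝ) ≤ (ρ * m) ^ m := by
    intro φ hφ
    have h1 := count_perm (fun x => univ.filter fun y => T (φ x) (φ y))
    have h2 := pair_sum T hT φ (mem_filter.1 hφ).2
    have h3 : ∑ x, ((univ.filter fun y => T (φ x) (φ y)).card : ℝ) ≤ m * (ρ * m) := by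
      refine (pow_le_pow_iff_left₀ (sum_nonneg fun _ _ => Nat.cast_nonneg _) (by positivity)
        two_ne_zero).1 (h2.trans ?_)
      have : 4 * (t : ℝ) * (m : ℝ) ^ 3 ≤ ρ ^ 2 * m * (m : ℝ) ^ 3 :=
        mul_le_mul_of_nonneg_right ht (by positivity)
      nlinarith
    have h4 := prod_le_of_sum (fun x => ((univ.filter fun y => T (φ x) (φ y)).card : ℝ))
      (fun _ => Nat.cast_nonneg _) (ρ * m) (by positivity) (by simpa using h3)
    simp only [Fintype.card_fin] at h4
    refine le_trans ?_ h4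
    exact_mod_cast h1
  have h1 := (card_le_card hsub).trans card_biUnion_le
  simp only [card_univ, Fintype.card_fun, Fintype.card_perm, Fintype.card_fin,
    Fintype.card_piFinset, prod_const] at h1
  have h2 : ((m.factorial : ℝ)) ^ 9 ≤ ∑ φ ∈ Φ, ((good φ).card : ℝ) ^ 9 := by exact_mod_cast h1
  have h3 : ∑ φ ∈ Φ, ((good φ).card : ℝ) ^ 9 ≤ (Fintype.card V : ℝ) ^ m * ((ρ * m) ^ m) ^ 9 := by
    refine (sum_le_sum fun φ hφ => pow_le_pow_left₀ (Nat.cast_nonneg _) (hg φ hφ) 9).trans ?_
    rw [sum_const, nsmul_eq_mul]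
    refine mul_le_mul_of_nonneg_right ?_ (by positivity)
    have : Φ.card ≤ Fintype.card V ^ m := by
      simpa using card_filter_le (univ : Finset (Fin m → V)) _
    exact_mod_cast this
  have h4 := pow_le_pow_left₀ (by positivity) (pow_le_fact m) 9
  have h5 : ((Fintype.card V : ℝ) * (3 * ρ) ^ 9) ^ m < 1 := pow_lt_one₀ (by positivity) hV hm.ne'
  have h6 : ((m : ℝ) ^ m) ^ 9 ≤ ((Fintype.card V : ℝ) * (3 * ρ) ^ 9) ^ m * ((m : ℝ) ^ m) ^ 9 := by
    calc _ ≤ _ := h4
      _ = (m.factorial : ℝ) ^ 9 * (3 ^ m) ^ 9 := by rw [mul_pow]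
      _ ≤ (Fintype.card V : ℝ) ^ m * ((ρ * m) ^ m) ^ 9 * (3 ^ m) ^ 9 :=
          mul_le_mul_of_nonneg_right (h2.trans h3) (by positivity)
      _ = _ := by
          simp only [mul_pow, ← pow_mul]
          rw [mul_comm 9 m]
          ring
  have h7 : (0 : ℝ) < ((m : ℝ) ^ m) ^ 9 := by positivity
  nlinarith

section
variable {p : ℕ} [Fact p.Prime]

def T0 (u v : ZMod p × ZMod p) : Prop := u.2 + v.2 = u.1 * v.1

instance (u v : ZMod p × ZMod p) : Decidable (T0 u v) := by unfold T0; infer_instance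

lemma T0_symm {u v : ZMod p × ZMod p} (h : T0 u v) : T0 v u := by
  unfold T0 at *
  linear_combination h

lemma T0_codeg (v v' : ZMod p × ZMod p) (h : v ≠ v') :
    (univ.filter fun u => T0 u v ∧ T0 u v').card ≤ 1 := by
  rw [card_le_one]
  intro a ha b hb
  simp only [mem_filter, mem_univ, true_and, T0] at ha hb
  have h1 : v.1 ≠ v'.1 := by
    intro e
    apply h
    ext1
    · exact e
    · have := ha.1
      rw [e] at this
      linear_combination this - ha.2
  have h2 : (a.1 - b.1) * (v.1 - v'.1) = 0 := by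
    linear_combination -ha.1 + ha.2 + hb.1 - hb.2
  have h3 : a.1 = b.1 := by
    rcases mul_eq_zero.1 h2 with h | h
    · exact sub_eq_zero.1 h
    · exact absurd (sub_eq_zero.1 h) h1
  ext1
  · exact h3
  · have := ha.1
    rw [h3] at this
    linear_combination this - hb.1

lemma T0_deg (v : ZMod p × ZMod p) : (univ.filter fun u => T0 u v).card = p := by
  have : (univ.filter fun u => T0 u v) = univ.image fun a : ZMod p => (a, a * v.1 - v.2) := by
    ext u
    simp only [mem_filter, mem_univ, true_and, T0, mem_image]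
    constructor
    · intro h
      exact ⟨u.1, Prod.ext rfl (by simp only; linear_combination -h)⟩
    · rintro ⟨a, rfl⟩
      ring
  rw [this, card_image_of_injective _ (fun a b h => congrArg Prod.fst h)]
  simp

lemma T_codeg (v v' : ZMod p × ZMod p) (h : v ≠ v') :
    (univ.filter fun u => (u = v ∨ T0 u v) ∧ (u = v' ∨ T0 u v')).card ≤ 3 := by
  have hsub : (univ.filter fun u => (u = v ∨ T0 u v) ∧ (u = v' ∨ T0 u v')) ⊆
      insert v (insert v' (univ.filter fun u => T0 u v ∧ T0 u v')) := by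
    intro u hu
    simp only [mem_filter, mem_univ, true_and, mem_insert] at hu ⊢
    tauto
  have h1 := card_le_card hsub
  have h2 := card_insert_le v (insert v' (univ.filter fun u => T0 u v ∧ T0 u v'))
  have h3 := card_insert_le v' (univ.filter fun u => T0 u v ∧ T0 u v')
  have h4 := T0_codeg v v' h
  omega

lemma indep_bound (S : Finset (ZMod p × ZMod p)) (hS : ∀ u ∈ S, ∀ v ∈ S, u ≠ v → ¬ T0 u v)
    (r : ℝ) (hr : 0 ≤ r) (hpr : (p : ℝ) ≤ r ^ 2) : (S.card : ℝ) ≤ p * (r + 1) := by
  have hp : (0 : ℝ) < p := by exact_mod_cast (Fact.out : p.Prime).pos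
  set s : ℝ := (S.card : ℝ) with hs
  let D : ZMod p × ZMod p → ℝ := fun u => ∑ v ∈ S, if T0 u v then 1 else 0
  have h1 : ∑ u, D u = s * p := by
    simp only [D]
    rw [sum_comm]
    have : ∀ v ∈ S, ∑ u : ZMod p × ZMod p, (if T0 u v then (1 : ℝ) else 0) = p := by
      intro v _
      rw [← sum_filter, sum_const, T0_deg]; simp
    rw [sum_congr rfl this]; simp [hs]
  have h2 : ∑ u, D u ^ 2 ≤ s * (p + s) := by
    simp only [D, sq, sum_mul_sum]
    rw [sum_comm]
    have : ∀ v ∈ S, ∑ u : ZMod p × ZMod p, ∑ v' ∈ S,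
        (if T0 u v then (1 : ℝ) else 0) * (if T0 u v' then (1 : ℝ) else 0) ≤ p + s := by
      intro v hv
      rw [sum_comm]
      have a1 : ∀ v' ∈ S, ∑ u : ZMod p × ZMod p,
          (if T0 u v then (1 : ℝ) else 0) * (if T0 u v' then (1 : ℝ) else 0) ≤
          1 + if v' = v then (p : ℝ) else 0 := by
        intro v' _
        have e : ∑ u : ZMod p × ZMod p,
          (if T0 u v then (1 : ℝ) else 0) * (if T0 u v' then (1 : ℝ) else 0) =
          ((univ.filter fun u => T0 u v ∧ T0 u v').card : ℝ) := by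
          rw [card_filter]
          push_cast
          refine sum_congr rfl fun u _ => ?_
          by_cases b1 : T0 u v <;> by_cases b2 : T0 u v' <;> simp [b1, b2]
        rw [e]
        by_cases h : v' = v
        · subst h
          simp only [and_self, T0_deg, if_true]
          linarith
        · rw [if_neg h, add_zero]
          exact_mod_cast T0_codeg v v' (Ne.symm h)
      refine (sum_le_sum a1).trans (le_of_eq ?_)
      rw [sum_add_distrib, sum_ite_eq', if_pos hv]
      simp [hs, add_comm]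
    refine (sum_le_sum this).trans (le_of_eq ?_)
    rw [sum_const, nsmul_eq_mul]
  have h3 : ∑ u, (D u - s / p) ^ 2 ≤ s * p := by
    have e : ∑ u, (D u - s / p) ^ 2 = ∑ u, D u ^ 2 - 2 * (s / p) * ∑ u, D u +
        (p * p) * (s / p) ^ 2 := by
      simp only [sub_sq, sum_add_distrib, sum_sub_distrib, sum_const, card_univ,
        Fintype.card_prod, ZMod.card, nsmul_eq_mul, mul_sum]
      push_cast
      congr 2
      refine sum_congr rfl fun u _ => by ring
    rw [e, h1]
    have e2 : 2 * (s / p) * (s * p) = 2 * s * s := by field_simp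
    have e3 : (p * p : ℝ) * (s / p) ^ 2 = s * s := by field_simp
    rw [e2, e3]
    nlinarith
  by_contra hcon
  push Not at hcon
  have hsp : r + 1 < s / p := by rw [lt_div_iff₀ hp]; linarith
  have h4 : ∀ u ∈ S, r ^ 2 < (D u - s / p) ^ 2 := by
    intro u hu
    have : D u ≤ 1 := by
      have a1 : ∀ v ∈ S, (if T0 u v then (1 : ℝ) else 0) ≤ if v = u then 1 else 0 := by
        intro v hv
        by_cases h : v = u
        · rw [if_pos h]; split_ifs <;> norm_num
        · rw [if_neg h, if_neg (hS u hu v hv (Ne.symm h))]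
      refine (sum_le_sum a1).trans ?_
      rw [sum_ite_eq', if_pos hu]
    nlinarith
  have hne : S.Nonempty := by
    rw [← card_pos]
    have : (0 : ℝ) < (S.card : ℝ) := lt_of_le_of_lt (by positivity) hcon
    exact_mod_cast this
  have h5 := sum_lt_sum_of_nonempty hne h4
  have h6 : ∑ u ∈ S, (D u - s / p) ^ 2 ≤ ∑ u, (D u - s / p) ^ 2 :=
    sum_le_sum_of_subset_of_nonneg (subset_univ _) fun _ _ _ => sq_nonneg _
  rw [sum_const, nsmul_eq_mul, ← hs] at h5
  have : 0 ≤ s := Nat.cast_nonneg _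
  nlinarith

end

end Pool.Agent.H14.RGood
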