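import Mathlib

namespace Pool.Agent.H14.Gw
open FreeGroup
open scoped commutatorElement

variable {α : Type*}

/-- product of a list of syllables -/
def sp (S : List (α × ℤ)) : FreeGroup α := (S.map fun s => FreeGroup.of s.1 ^ s.2).prod

/-- syllable normal form -/
def Nf (S : List (α × ℤ)) : Prop := (∀ s ∈ S, s.2 ≠ 0) ∧ S.IsChain fun a b => a.1 ≠ b.1

lemma sp_cons (s : α × ℤ) (S : List (α × ℤ)) : sp (s :: S) = of s.1 ^ s.2 * sp S := by
  simp [sp]

lemma Nf.tail {s : α × ℤ} {S : List (α × ℤ)} (h : Nf (s :: S)) : Nf S :=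
  ⟨fun t ht => h.1 t (by simp [ht]), h.2.tail⟩

lemma nf_step (a : α) (e : ℤ) (S : List (α × ℤ)) (h : Nf S) :
    ∃ T, Nf T ∧ sp T = of a ^ e * sp S := by
  by_cases he : e = 0
  · exact ⟨S, h, by simp [he]⟩
  cases S with
  | nil => exact ⟨[(a, e)], ⟨by simpa using he, by simp⟩, by simp [sp]⟩
  | cons s S =>
    by_cases hs : a = s.1
    · by_cases h0 : e + s.2 = 0
      · refine ⟨S, h.tail, ?_⟩
        rw [sp_cons, ← hs, ← mul_assoc, ← zpow_add, h0]; simp
      · refine ⟨(a, e + s.2) :: S, ⟨?_, ?_⟩, ?_⟩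
        · intro t ht
          rcases List.mem_cons.1 ht with rfl | ht
          · exact h0
          · exact h.tail.1 t ht
        · cases S with
          | nil => simp
          | cons t S =>
            have := List.isChain_cons_cons.1 h.2
            exact List.isChain_cons_cons.2 ⟨by rw [hs]; exact this.1, this.2⟩
        · rw [sp_cons, sp_cons, ← hs, ← mul_assoc, ← zpow_add]
    · refine ⟨(a, e) :: s :: S, ⟨?_, List.isChain_cons_cons.2 ⟨hs, h.2⟩⟩, by simp [sp]⟩
      intro t ht
      rcases List.mem_cons.1 ht with rfl | ht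
      · exact he
      · exact h.1 t ht

lemma mk_cons (x : α × Bool) (L : List (α × Bool)) :
    mk (x :: L) = of x.1 ^ (if x.2 then (1 : ℤ) else -1) * mk L := by
  have : mk (x :: L) = mk [x] * mk L := by rw [mul_mk]; rfl
  rw [this]; congr 1
  rcases x with ⟨a, b⟩
  cases b
  · simp only [Bool.false_eq_true, if_false, zpow_neg, zpow_one]
    rw [of, inv_mk]; rfl
  · simp only [if_true, zpow_one]; rfl

lemma exists_nf (g : FreeGroup α) : ∃ S, Nf S ∧ sp S = g := by
  rcases g with ⟨L⟩
  change ∃ S, Nf S ∧ sp S = mk L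
  induction L with
  | nil => exact ⟨[], ⟨by simp, by simp⟩, rfl⟩
  | cons x L ih =>
    obtain ⟨S, hS, e⟩ := ih
    obtain ⟨T, hT, e'⟩ := nf_step x.1 (if x.2 then 1 else -1) S hS
    exact ⟨T, hT, by rw [e', e, mk_cons]⟩

/-- operators on integer sequences -/
abbrev R := Module.End ℤ (ℕ → ℤ)

/-- the filtration -/
def J (k : ℕ) (A : R) : Prop := ∀ (v : ℕ → ℤ) (s : ℕ), (∀ t, s + k ≤ t → v t = 0) → A v s = 0

lemma J.mul {k l : ℕ} {A B : R} (hA : J k A) (hB : J l B) : J (k + l) (A * B) := by
  intro v s h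
  exact hA (B v) s fun t ht => hB v t fun u hu => h u (by omega)

lemma J.add {k : ℕ} {A B : R} (hA : J k A) (hB : J k B) : J k (A + B) := by
  intro v s h
  simp [hA v s h, hB v s h]

lemma J.neg {k : ℕ} {A : R} (hA : J k A) : J k (-A) := by
  intro v s h
  simp [hA v s h]

lemma J.one : J 0 1 := fun v s h => h s (by omega)

lemma J.mono {k l : ℕ} {A : R} (hA : J k A) (h : l ≤ k) : J l A :=
  fun v s hv => hA v s fun t ht => hv t (by omega)

/-- the filtration subgroups -/
def G (k : ℕ) : Subgroup Rˣ where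
  carrier := {U | J 0 (U : R) ∧ J 0 ((U⁻¹ : Rˣ) : R) ∧ J k ((U : R) - 1)}
  one_mem' := ⟨J.one, J.one, by intro v s _; simp⟩
  mul_mem' := by
    rintro U V ⟨a, b, c⟩ ⟨d, e, f⟩
    refine ⟨a.mul d, ?_, ?_⟩
    · rw [mul_inv_rev]; exact e.mul b
    · have : ((U * V : Rˣ) : R) - 1 = ((U : R) - 1) * V + ((V : R) - 1) := by
        rw [Units.val_mul]; noncomm_ring
      rw [this]; exact (c.mul d).add f
  inv_mem' := by
    rintro U ⟨a, b, c⟩
    refine ⟨b, by rw [inv_inv]; exact a, ?_⟩
    have : ((U⁻¹ : Rˣ) : R) - 1 = -(((U⁻¹ : Rˣ) : R) * ((U : R) - 1)) := by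
      rw [mul_sub, Units.inv_mul]; noncomm_ring
    rw [this]
    have := (b.mul c).neg
    rwa [zero_add] at this

lemma G_comm {k l : ℕ} {U V : Rˣ} (hU : U ∈ G k) (hV : V ∈ G l) : ⁅U, V⁆ ∈ G (k + l) := by
  have hU0 : U ∈ G 0 := ⟨hU.1, hU.2.1, hU.2.2.mono (by omega)⟩
  have hV0 : V ∈ G 0 := ⟨hV.1, hV.2.1, hV.2.2.mono (by omega)⟩
  have h0 : ⁅U, V⁆ ∈ G 0 := by
    rw [commutatorElement_def]
    exact mul_mem (mul_mem (mul_mem hU0 hV0) (inv_mem hU0)) (inv_mem hV0)
  refine ⟨h0.1, h0.2.1, ?_⟩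
  have : ((⁅U, V⁆ : Rˣ) : R) - 1 = (((U : R) - 1) * ((V : R) - 1) + -(((V : R) - 1) * ((U : R) - 1)))
      * (((U⁻¹ : Rˣ) : R) * ((V⁻¹ : Rˣ) : R)) := by
    have e1 : (((U : R) - 1) * ((V : R) - 1) + -(((V : R) - 1) * ((U : R) - 1))) =
        (U : R) * V - V * U := by noncomm_ring
    have e2 : (V : R) * U * (((U⁻¹ : Rˣ) : R) * ((V⁻¹ : Rˣ) : R)) = 1 := by
      rw [mul_assoc, ← mul_assoc (U : R), Units.mul_inv, one_mul, Units.mul_inv]
    rw [e1, sub_mul, e2, commutatorElement_def]
    simp only [Units.val_mul, mul_assoc]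
  rw [this]
  have h1 := hV.2.2.mul hU.2.2
  rw [add_comm] at h1
  exact ((hU.2.2.mul hV.2.2).add h1.neg).mul (hU.2.1.mul hV.2.1)

open Classical in
/-- shift along the positions carrying the letter a -/
noncomputable def N (P : ℕ → Option α) (a : α) : R where
  toFun v s := if P s = some a then v (s + 1) else 0
  map_add' u v := by funext s; by_cases h : P s = some a <;> simp [h]
  map_smul' c v := by funext s; by_cases h : P s = some a <;> simp [h]

open Classical in
lemma N_apply (P : ℕ → Option α) (a : α) (v : ℕ → ℤ) (s : ℕ) :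
    N P a v s = if P s = some a then v (s + 1) else 0 := rfl

lemma N_J (P : ℕ → Option α) (a : α) : J 1 (N P a) := by
  intro v s h
  rw [N_apply, h (s + 1) le_rfl]; simp

lemma N_sq {P : ℕ → Option α} (hP : ∀ s a, P s = some a → P (s + 1) ≠ some a) (a : α) :
    N P a * N P a = 0 := by
  apply LinearMap.ext; intro v; funext s
  change N P a (N P a v) s = 0
  rw [N_apply, N_apply]
  by_cases h : P s = some a
  · simp [hP s a h]
  · simp [h]

/-- the unit 1 + A -/
def un (A : R) (h : A * A = 0) : Rˣ :=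
  ⟨1 + A, 1 - A, by noncomm_ring; simp [h], by noncomm_ring; simp [h]⟩

lemma un_zpow (A : R) (h : A * A = 0) (e : ℤ) : ((un A h ^ e : Rˣ) : R) = 1 + e • A := by
  induction e using Int.induction_on with
  | zero => simp
  | succ n ih =>
    rw [zpow_add_one, Units.val_mul, ih]
    change (1 + (n : ℤ) • A) * (1 + A) = _
    simp only [mul_add, add_mul, smul_mul_assoc, h, add_smul, one_mul, mul_one, smul_zero,
      one_smul]
    abel
  | pred n ih =>
    rw [zpow_sub_one, Units.val_mul, ih]
    change (1 + (-(n : ℤ)) • A) * (1 - A) = _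
    simp only [mul_sub, add_mul, smul_mul_assoc, h, sub_smul, one_mul, mul_one, smul_zero,
      one_smul]
    abel

lemma un_mem (A : R) (h : A * A = 0) (hA : J 1 A) : un A h ∈ G 1 := by
  refine ⟨J.one.add (hA.mono (by omega)), ?_, ?_⟩
  · change J 0 (1 - A)
    rw [sub_eq_add_neg]
    exact J.one.add (hA.mono (by omega)).neg
  · change J 1 (1 + A - 1)
    simpa using hA

theorem magnus (g : FreeGroup α)
    (hg : ∀ n, g ∈ (⊤ : Subgroup (FreeGroup α)).lowerCentralSeries n) : g = 1 := by
  obtain ⟨S, hS, rfl⟩ := exists_nf g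
  set P : ℕ → Option α := fun t => (S[t]?).map Prod.fst with hPd
  have hP : ∀ s a, P s = some a → P (s + 1) ≠ some a := by
    intro s a h1 h2
    simp only [hPd, Option.map_eq_some_iff] at h1 h2
    obtain ⟨x, hx, rfl⟩ := h1
    obtain ⟨y, hy, e⟩ := h2
    obtain ⟨l1, rfl⟩ := List.getElem?_eq_some_iff.1 hx
    obtain ⟨l2, rfl⟩ := List.getElem?_eq_some_iff.1 hy
    exact (List.isChain_iff_getElem.1 hS.2 s l2) e.symm
  set ρ : FreeGroup α →* Rˣ := FreeGroup.lift fun a => un (N P a) (N_sq hP a) with hρ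
  have h1 : ∀ x, ρ x ∈ G 1 := by
    intro x
    induction x using FreeGroup.induction_on with
    | C1 => simp
    | of a => rw [hρ, lift_apply_of]; exact un_mem _ _ (N_J P a)
    | inv_of a ih => rw [_root_.map_inv]; exact inv_mem ih
    | mul x y hx hy => rw [_root_.map_mul]; exact mul_mem hx hy
  have h2 : ∀ n, (⊤ : Subgroup (FreeGroup α)).lowerCentralSeries n ≤ (G (n + 1)).comap ρ := by
    intro n
    induction n with
    | zero => intro x _; exact h1 x
    | succ n ih =>
      rw [Subgroup.lowerCentralSeries_succ, Subgroup.commutator_le]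
      intro x hx y _
      rw [Subgroup.mem_comap, map_commutatorElement]
      exact G_comm (ih hx) (h1 y)
  have key : ∀ (T : List (α × ℤ)) (j : ℕ), (∀ s ∈ T, s.2 ≠ 0) →
      (∀ t, P (j + t) = (T[t]?).map Prod.fst) →
      (∀ t < j, (ρ (sp T) : R) (Pi.single (j + T.length) 1) t = 0) ∧
        (ρ (sp T) : R) (Pi.single (j + T.length) 1) j ≠ 0 := by
    intro T
    induction T with
    | nil =>
      intro j _ _
      refine ⟨fun t ht => ?_, ?_⟩
      · simp [sp, Pi.single_apply]; omega
      · simp [sp]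
    | cons s T ih =>
      intro j h0 hj
      obtain ⟨a1, a2⟩ := ih (j + 1) (fun t ht => h0 t (by simp [ht])) (fun t => by
        have := hj (t + 1)
        rw [List.getElem?_cons_succ] at this
        rw [← this]; congr 1; omega)
      have el : j + (s :: T).length = j + 1 + T.length := by simp; omega
      rw [el, sp_cons, _root_.map_mul, map_zpow, hρ, lift_apply_of, Units.val_mul, un_zpow, ← hρ]
      set v := (ρ (sp T) : R) (Pi.single (j + 1 + T.length) 1) with hv
      have ev : ∀ t, ((1 + s.2 • N P s.1) * (ρ (sp T) : R)) (Pi.single (j + 1 + T.length) 1) t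
          = v t + s.2 * N P s.1 v t := by
        intro t
        simp [hv]
      refine ⟨fun t ht => ?_, ?_⟩
      · rw [ev, N_apply, a1 t (by omega), a1 (t + 1) (by omega)]; simp
      · have := hj 0
        simp only [add_zero, List.getElem?_cons_zero, Option.map_some] at this
        rw [ev, N_apply, a1 j (by omega), if_pos this, zero_add]
        exact mul_ne_zero (h0 s (by simp)) a2
  cases hS' : S with
  | nil => rfl
  | cons s T =>
    exfalso
    have hl : 0 < S.length := by rw [hS']; simp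
    have k := (key S 0 hS.1 (fun t => by rw [zero_add])).2
    have m := (h2 S.length (hg _)).2.2 (Pi.single (0 + S.length) 1) 0 (fun t ht => by
      rw [Pi.single_apply, if_neg (by omega)])
    apply k
    have : (Pi.single (0 + S.length) 1 : ℕ → ℤ) 0 = 0 := by
      rw [Pi.single_apply, if_neg (by omega)]
    rw [LinearMap.sub_apply, Pi.sub_apply, Module.End.one_apply, this, sub_zero] at m
    exact m

end Pool.Agent.H14.Gw
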