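import Pool.Agent.H14.Gw1

namespace Pool.Agent.H14.Gw
open FreeGroup

variable {α β : Type*} [DecidableEq α] [DecidableEq β]

/-- number of letters i or i inverse in the reduced word -/
def cnt (i : α) (g : FreeGroup α) : ℕ := g.toWord.countP fun x => x.1 = i

lemma cnt_mul (i : α) (g h : FreeGroup α) : cnt i (g * h) ≤ cnt i g + cnt i h := by
  unfold cnt; rw [← List.countP_append]; exact (toWord_mul_sublist g h).countP_le

lemma cnt_inv (i : α) (g : FreeGroup α) : cnt i g⁻¹ = cnt i g := by
  unfold cnt; rw [toWord_inv, invRev]; simp [List.countP_map, Function.comp_def]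

lemma cnt_one (i : α) : cnt i 1 = 0 := rfl

lemma cnt_of (i a : α) : cnt i (of a) = if a = i then 1 else 0 := by
  unfold cnt; rw [toWord_of]; by_cases h : a = i <;> simp [h]

/-- elements whose reduced word avoids the letter -/
def Z (j : α) : Subgroup (FreeGroup α) where
  carrier := {g | cnt j g = 0}
  one_mem' := rfl
  mul_mem' := by
    intro a b ha hb
    have := cnt_mul j a b
    simp only [Set.mem_setOf_eq] at *
    omega
  inv_mem' := by
    intro a ha
    simp only [Set.mem_setOf_eq] at *
    rw [cnt_inv, ha]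

omit [DecidableEq α] in
lemma lift_Z (f : α → FreeGroup β) (j : β) (hf : ∀ a, cnt j (f a) = 0) (g : FreeGroup α) :
    cnt j (lift f g) = 0 := by
  change lift f g ∈ Z j
  induction g using FreeGroup.induction_on with
  | C1 => simp
  | of a => rw [lift_apply_of]; exact hf a
  | inv_of a ih => rw [_root_.map_inv]; exact inv_mem ih
  | mul x y hx hy => rw [_root_.map_mul]; exact mul_mem hx hy

lemma cnt_lift (f : α → FreeGroup β) (i : α) (j : β)
    (hf : ∀ a, cnt j (f a) ≤ if a = i then 1 else 0) (g : FreeGroup α) :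
    cnt j (lift f g) ≤ cnt i g := by
  have : ∀ L : List (α × Bool), cnt j (lift f (mk L)) ≤ L.countP (fun x => x.1 = i) := by
    intro L
    induction L with
    | nil => exact le_of_eq (by rw [← one_eq_mk, _root_.map_one]; rfl)
    | cons x L ih =>
      rw [mk_cons, _root_.map_mul, map_zpow, lift_apply_of, List.countP_cons]
      refine (cnt_mul _ _ _).trans ?_
      have h1 : cnt j (f x.1 ^ (if x.2 then (1 : ℤ) else -1)) = cnt j (f x.1) := by
        cases x.2
        · simp [cnt_inv]
        · simp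
      have h2 := hf x.1
      rw [h1]
      by_cases h : x.1 = i
      · simp only [h, if_true, decide_true] at h2 ⊢; omega
      · simp only [h, if_false, decide_false] at h2 ⊢; omega
  conv_lhs => rw [← mk_toWord (x := g)]
  exact this _

lemma cnt_pow (i : α) (g : FreeGroup α) (n : ℕ) : cnt i g ≤ cnt i (g ^ (n + 1)) := by
  unfold cnt
  rw [toWord_pow, reduceCyclically.reduce_flatten_replicate_succ isReduced_toWord]
  conv_lhs => rw [← reduceCyclically.conj_conjugator_reduceCyclically g.toWord]
  simp only [List.countP_append, List.replicate_succ, List.flatten_cons]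
  omega

lemma cnt_zpow (i : α) (g : FreeGroup α) {e : ℤ} (he : e ≠ 0) : cnt i g ≤ cnt i (g ^ e) := by
  rcases e with n | n
  · obtain ⟨m, rfl⟩ : ∃ m, n = m + 1 := ⟨n - 1, by
      have : n ≠ 0 := by rintro rfl; exact he rfl
      omega⟩
    rw [Int.ofNat_eq_natCast, zpow_natCast]; exact cnt_pow i g m
  · rw [zpow_negSucc, cnt_inv]; exact cnt_pow i g n

lemma not_mem_of_cnt {j : α} {g : FreeGroup α} (h : cnt j g = 0) {x : α × Bool}
    (hx : x ∈ g.toWord) : x.1 ≠ j := by
  have := List.countP_eq_zero.1 h x hx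
  simpa using this

lemma blocks (i : Fin 2) (f : Fin 2 → FreeGroup β) (k : β) (hk : cnt k (f i) = 0)
    (h1 : f i ≠ 1) (hf : ∀ a, a ≠ i → f a = of k) (S : List (Fin 2 × ℤ)) (hS : Nf S) :
    (lift f (sp S)).toWord = (S.map fun s => (f s.1 ^ s.2).toWord).flatten := by
  have col : ∀ (s : Fin 2 × ℤ), ∀ x ∈ (f s.1 ^ s.2).toWord, (x.1 = k ↔ s.1 ≠ i) := by
    intro s x hx
    by_cases h : s.1 = i
    · have : f s.1 ^ s.2 ∈ Z k := zpow_mem (by rw [h]; exact hk) _
      simp [h, not_mem_of_cnt this hx]
    · simp only [ne_eq, h, not_false_eq_true, iff_true]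
      by_contra hx'
      have : f s.1 ^ s.2 ∈ Z x.1 := zpow_mem (by
        rw [hf _ h]; change cnt _ _ = 0; rw [cnt_of, if_neg (Ne.symm hx')]) _
      exact not_mem_of_cnt this hx rfl
  have ne : ∀ (s : Fin 2 × ℤ), s.2 ≠ 0 → (f s.1 ^ s.2).toWord ≠ [] := by
    intro s hs h
    rw [toWord_eq_nil_iff, IsMulTorsionFree.zpow_eq_one_iff_left hs] at h
    by_cases h' : s.1 = i
    · exact h1 (h' ▸ h)
    · rw [hf _ h'] at h; exact of_ne_one _ h
  induction S with
  | nil => simp [sp]
  | cons s S ih =>
    rw [sp_cons, _root_.map_mul, map_zpow, lift_apply_of, toWord_mul, List.map_cons,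
      List.flatten_cons, ← ih hS.tail]
    apply IsReduced.reduce_eq
    refine List.IsChain.append isReduced_toWord isReduced_toWord ?_
    intro x hx y hy exy
    exfalso
    rw [ih hS.tail] at hy
    cases S with
    | nil => simp at hy
    | cons t S =>
      rw [List.map_cons, List.flatten_cons,
        List.head?_append_of_ne_nil _ (ne t (hS.1 t (by simp)))] at hy
      have a1 := col s x (List.mem_of_mem_getLast? hx)
      have a2 := col t y (List.mem_of_mem_head? hy)
      have a3 := (List.isChain_cons_cons.1 hS.2).1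
      rw [exy, a2] at a1
      exact (by decide : ∀ i p q : Fin 2, (q ≠ i ↔ p ≠ i) → p ≠ q → False) i s.1 t.1 a1 a3

lemma one_syl (S : List (Fin 2 × ℤ)) (hS : Nf S) (i : Fin 2) (f g : Fin 2 → FreeGroup β)
    (j k : β) (hfg : lift f (sp S) = lift g (sp S))
    (hg : ∀ a, cnt j (g a) ≤ if a = i then 1 else 0) (hk : cnt k (f i) = 0)
    (hf : ∀ a, a ≠ i → f a = of k) (hpos : 0 < cnt i (sp S))
    (hle : cnt i (sp S) ≤ cnt j (f i)) : S.countP (fun s => s.1 = i) ≤ 1 := by
  have h1 : f i ≠ 1 := by
    intro h; rw [h, cnt_one] at hle; omega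
  have hb := blocks i f k hk h1 hf S hS
  have up := cnt_lift g i j hg (sp S)
  have low : ∀ T : List (Fin 2 × ℤ), (∀ s ∈ T, s.2 ≠ 0) → T.countP (fun s => s.1 = i) * cnt j (f i) ≤
      ((T.map fun s => (f s.1 ^ s.2).toWord).flatten).countP fun x => x.1 = j := by
    intro T hT
    induction T with
    | nil => simp
    | cons s T ih =>
      have := ih fun t ht => hT t (by simp [ht])
      rw [List.map_cons, List.flatten_cons, List.countP_append, List.countP_cons, add_mul]
      by_cases h : s.1 = i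
      · have h2 := cnt_zpow j (f s.1) (hT s (by simp))
        unfold cnt at h2 this ⊢
        simp only [h, decide_true, if_true, one_mul] at h2 ⊢
        omega
      · simp only [h, decide_false, Bool.false_eq_true, if_false, zero_mul]
        omega
  have l2 := low S hS.1
  rw [← hb] at l2
  change _ ≤ cnt j (lift f (sp S)) at l2
  rw [hfg] at l2
  by_contra hc
  have : 2 * cnt j (f i) ≤ S.countP (fun s => s.1 = i) * cnt j (f i) :=
    Nat.mul_le_mul_right _ (by omega)
  omega

lemma map_lift2 {G H : Type*} [Group G] [Group H] (φ : G →* H) (x y : G)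
    (w : FreeGroup (Fin 2)) : φ (lift ![x, y] w) = lift ![φ x, φ y] w := by
  have : φ.comp (lift ![x, y]) = lift ![φ x, φ y] := by
    ext a; fin_cases a <;> simp
  exact DFunLike.congr_fun this w

lemma lift_id2 (w : FreeGroup (Fin 2)) : lift ![of 0, of 1] w = w := by
  have : (lift ![of 0, of 1] : FreeGroup (Fin 2) →* FreeGroup (Fin 2)) = MonoidHom.id _ := by
    ext a; fin_cases a <;> simp
  rw [this]; rfl

lemma zp {a : ℤ} (h : (of (0 : Fin 3)) ^ a = of 0) : a = 1 := by
  by_contra ha
  have : (of (0 : Fin 3)) ^ (a - 1) = 1 := by rw [zpow_sub_one, h, mul_inv_cancel]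
  rw [IsMulTorsionFree.zpow_eq_one_iff_left (sub_ne_zero.2 ha)] at this
  exact of_ne_one _ this

theorem core (w : FreeGroup (Fin 2))
    (ha : lift ![lift ![of (0 : Fin 3), of 1] w, of 2] w =
      lift ![of (0 : Fin 3), lift ![of 1, of 2] w] w)
    (h1 : lift ![of (0 : Fin 3), 1] w = of 0) (h2 : lift ![1, of (0 : Fin 3)] w = of 0) :
    w = of 0 * of 1 ∨ w = of 1 * of 0 := by
  obtain ⟨S, hS, rfl⟩ := exists_nf w
  have p0 : 0 < cnt 0 (sp S) := by
    have := cnt_lift ![of (0 : Fin 3), 1] 0 0 (by
      intro a; fin_cases a <;> simp [cnt_of, cnt_one]) (sp S)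
    rw [h1, cnt_of, if_pos rfl] at this; omega
  have p1 : 0 < cnt 1 (sp S) := by
    have := cnt_lift ![1, of (0 : Fin 3)] 1 0 (by
      intro a; fin_cases a <;> simp [cnt_of, cnt_one]) (sp S)
    rw [h2, cnt_of, if_pos rfl] at this; omega
  have zu : cnt 2 (lift ![of (0 : Fin 3), of 1] (sp S)) = 0 :=
    lift_Z _ _ (by intro a; fin_cases a <;> simp [cnt_of]) _
  have zv : cnt 0 (lift ![of (1 : Fin 3), of 2] (sp S)) = 0 :=
    lift_Z _ _ (by intro a; fin_cases a <;> simp [cnt_of]) _
  have lu : cnt 0 (sp S) ≤ cnt 0 (lift ![of (0 : Fin 3), of 1] (sp S)) := by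
    have := cnt_lift ![of (0 : Fin 2), of 1, 1] (0 : Fin 3) 0 (by
      intro a; fin_cases a <;> simp [cnt_of, cnt_one]) (lift ![of (0 : Fin 3), of 1] (sp S))
    rw [map_lift2] at this
    simpa [lift_id2] using this
  have lv : cnt 1 (sp S) ≤ cnt 2 (lift ![of (1 : Fin 3), of 2] (sp S)) := by
    have := cnt_lift ![1, of (0 : Fin 2), of 1] (2 : Fin 3) 1 (by
      intro a; fin_cases a <;> simp [cnt_of, cnt_one]) (lift ![of (1 : Fin 3), of 2] (sp S))
    rw [map_lift2] at this
    simpa [lift_id2] using this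
  have c0 := one_syl S hS 0 _ _ 0 2 ha (by
    intro a; fin_cases a <;> simp [cnt_of, zv]) (by simpa using zu)
    (by intro a; fin_cases a <;> simp) p0 (by simpa using lu)
  have c1 := one_syl S hS 1 _ _ 2 0 ha.symm (by
    intro a; fin_cases a <;> simp [cnt_of, zu]) (by simpa using zv)
    (by intro a; fin_cases a <;> simp) p1 (by simpa using lv)
  match S, hS, h1, h2, c0, c1 with
  | [], _, h1, _, _, _ => simp [sp] at h1
  | [(i, a)], _, h1, h2, _, _ =>
    exfalso
    fin_cases i
    · simp [sp] at h2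
    · simp [sp] at h1
  | [(i, a), (j, b)], hS, h1, h2, c0, c1 =>
    fin_cases i <;> fin_cases j
    · simp at c0
    · simp [sp] at h1 h2
      left; simp [sp, zp h1, zp h2]
    · simp [sp] at h1 h2
      right; simp [sp, zp h1, zp h2]
    · simp at c1
  | (i, a) :: (j, b) :: (k, c) :: T, hS, h1, h2, c0, c1 =>
    exfalso
    fin_cases i <;> fin_cases j <;> fin_cases k <;> simp at c0 c1

end Pool.Agent.H14.Gw
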