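import Mathlib

set_option autoImplicit false

namespace Pool.Agent.H14.HamUtil

open SimpleGraph

/-- the walk following a successor function -/
def itWalk {V : Type} {G : SimpleGraph V} (f : V → V) (hf : ∀ v, G.Adj v (f v)) :
    (i : ℕ) → (v : V) → G.Walk v (f^[i] v)
  | 0, _ => Walk.nil
  | i + 1, v => Walk.cons (hf v) (itWalk f hf i (f v))

lemma itWalk_support {V : Type} {G : SimpleGraph V} (f : V → V) (hf : ∀ v, G.Adj v (f v)) :
    ∀ (i : ℕ) (v : V), (itWalk f hf i v).support = (List.range (i + 1)).map fun j => f^[j] v := by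
  intro i
  induction i with
  | zero => intro v; simp [itWalk]
  | succ i ih =>
    intro v
    rw [List.range_succ_eq_map]
    simp [itWalk, ih, Function.comp_def]

lemma itWalk_length {V : Type} {G : SimpleGraph V} (f : V → V) (hf : ∀ v, G.Adj v (f v)) :
    ∀ (i : ℕ) (v : V), (itWalk f hf i v).length = i := by
  intro i
  induction i with
  | zero => intro v; simp [itWalk]
  | succ i ih => intro v; simp [itWalk, ih]

lemma ham_of_nxt {V : Type} [Fintype V] [DecidableEq V] (G : SimpleGraph V) (f : V → V)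
    (hf : ∀ v, G.Adj v (f v)) (o : V) (hr : ∀ v, ∃ i, f^[i] (f o) = v)
    (h3 : 3 ≤ Fintype.card V) : ∃ p : G.Walk o o, p.IsHamiltonianCycle := by
  obtain ⟨i0, hi0⟩ := hr o
  have hper : o ∈ Function.periodicPts f :=
    Function.mk_mem_periodicPts (Nat.succ_pos i0) hi0
  have hm := Function.minimalPeriod_apply hper
  have hpos := Function.minimalPeriod_pos_of_mem_periodicPts hper
  obtain ⟨k, hk⟩ : ∃ k, Function.minimalPeriod f o = k + 1 := ⟨_, (Nat.succ_pred_eq_of_pos hpos).symm⟩
  have hend : f^[k] (f o) = o := by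
    have := Function.iterate_minimalPeriod (f := f) (x := o)
    rwa [hk] at this
  have hinj := Function.iterate_injOn_Iio_minimalPeriod (f := f) (x := f o)
  rw [hm, hk] at hinj
  have hnd : ((List.range (k + 1)).map fun j => f^[j] (f o)).Nodup := by
    refine List.Nodup.map_on ?_ List.nodup_range
    intro a ha b hb hab
    exact hinj (List.mem_range.1 ha) (List.mem_range.1 hb) hab
  have hall : ∀ v, v ∈ (List.range (k + 1)).map fun j => f^[j] (f o) := by
    intro v
    obtain ⟨i, hi⟩ := hr v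
    refine List.mem_map.2 ⟨i % (k + 1), List.mem_range.2 (Nat.mod_lt _ (Nat.succ_pos k)), ?_⟩
    rw [← hk, ← hm, Function.iterate_mod_minimalPeriod_eq, hi]
  have hcard : Fintype.card V = k + 1 := by
    have h1 := List.toFinset_card_of_nodup hnd
    have h2 : ((List.range (k + 1)).map fun j => f^[j] (f o)).toFinset = Finset.univ :=
      Finset.eq_univ_of_forall fun v => List.mem_toFinset.2 (hall v)
    rw [h2] at h1
    simpa using h1
  refine ⟨Walk.cons (hf o) ((itWalk f hf k (f o)).copy rfl hend), ?_⟩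
  rw [Walk.isHamiltonianCycle_iff_isCycle_and_length_eq,
    Walk.isCycle_iff_isPath_tail_and_le_length]
  refine ⟨⟨?_, ?_⟩, ?_⟩
  · simp only [Walk.getVert_cons_succ, Walk.tail_cons, Walk.isPath_copy]
    rw [Walk.isPath_def, itWalk_support]
    exact hnd
  · simp [itWalk_length]; omega
  · simp [itWalk_length]; omega

/-- local structure of a Hamiltonian cycle -/
structure HC {V : Type} (G : SimpleGraph V) (E : V → V → Prop) : Prop where
  adj : ∀ u v, E u v → G.Adj u v
  symm : ∀ u v, E u v → E v u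
  two : ∀ v, ∃ a b, a ≠ b ∧ ∀ w, E v w ↔ w = a ∨ w = b
  closed : ∀ Z : Set V, (∀ u ∈ Z, ∀ v, E u v → v ∈ Z) → ∀ u ∈ Z, ∀ v, v ∈ Z

lemma hc_of_ham {V : Type} [DecidableEq V] {G : SimpleGraph V} {o : V} {p : G.Walk o o}
    (hp : p.IsHamiltonianCycle) : HC G (fun u v => s(u, v) ∈ p.edges) where
  adj := fun u v h => p.adj_of_mem_edges h
  symm := fun u v h => by rwa [Sym2.eq_swap]
  two := by
    intro v
    have := hp.isCycle.ncard_neighborSet_toSubgraph_eq_two (hp.mem_support v)
    obtain ⟨a, b, hab, h⟩ := Set.ncard_eq_two.1 this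
    refine ⟨a, b, hab, fun w => ?_⟩
    rw [← Walk.adj_toSubgraph_iff_mem_edges, ← Subgraph.mem_neighborSet, h]
    simp
  closed := by
    intro Z hZ
    have key : ∀ (u v : V) (q : G.Walk u v), (∀ e ∈ q.edges, e ∈ p.edges) → (u ∈ Z ↔ v ∈ Z) := by
      intro u v q
      induction q with
      | nil => intro _; rfl
      | @cons a b c h q ih =>
        intro hq
        have h1 : s(a, b) ∈ p.edges := hq _ (by simp)
        rw [← ih fun e he => hq e (by simp [he])]
        exact ⟨fun ha => hZ a ha b h1, fun hb => hZ b hb a (by rwa [Sym2.eq_swap])⟩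
    intro u hu v
    have h1 := key _ _ (p.takeUntil u (hp.mem_support u)) (p.edges_takeUntil_subset_edges _)
    have h2 := key _ _ (p.takeUntil v (hp.mem_support v)) (p.edges_takeUntil_subset_edges _)
    exact h2.1 (h1.2 hu)

section
variable {V : Type} {G : SimpleGraph V} {E : V → V → Prop} (h : HC G E)
include h

lemma HC.three {v a b w : V} (h1 : E v a) (h2 : E v b) (hab : a ≠ b) (h3 : E v w) :
    w = a ∨ w = b := by
  obtain ⟨x, y, _, hxy⟩ := h.two v
  rw [hxy] at h1 h2 h3
  rcases h1 with rfl | rfl <;> rcases h2 with rfl | rfl <;> rcases h3 with rfl | rfl <;> simp_all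

lemma HC.other (v a : V) : ∃ w, w ≠ a ∧ E v w := by
  obtain ⟨x, y, hne, hxy⟩ := h.two v
  by_cases hx : x = a
  · exact ⟨y, fun e => hne (hx.trans e.symm), (hxy y).2 (Or.inr rfl)⟩
  · exact ⟨x, hx, (hxy x).2 (Or.inl rfl)⟩

lemma HC.deg2 {v a b : V} (hv : ∀ w, G.Adj v w → w = a ∨ w = b) : E v a := by
  obtain ⟨w, hw, hE⟩ := h.other v b
  rcases hv w (h.adj _ _ hE) with rfl | rfl
  · exact hE
  · exact absurd rfl hw

lemma HC.deg3 {v a b c : V} (hv : ∀ w, G.Adj v w → w = a ∨ w = b ∨ w = c) (hb : ¬ E v b) :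
    E v c := by
  obtain ⟨w, hw, hE⟩ := h.other v a
  rcases hv w (h.adj _ _ hE) with rfl | rfl | rfl
  · exact absurd rfl hw
  · exact absurd hE hb
  · exact hE

end

end Pool.Agent.H14.HamUtil
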