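import Mathlib
set_option autoImplicit false
set_option maxRecDepth 100000

namespace Pool.Agent.H14.Hs

def addL {α : Type} (f : α → α → α) : List α → List α → List α
  | [], q => q
  | a :: p, [] => a :: p
  | a :: p, b :: q => f a b :: addL f p q

def mulL {α : Type} (ad mu : α → α → α) (z : α) : List α → List α → List α
  | [], _ => []
  | a :: p, q => addL ad (q.map (mu a)) (z :: mulL ad mu z p q)

def evL {α R : Type} [CommSemiring R] (e : α → R) (x : R) : List α → R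
  | [] => 0
  | a :: p => e a + x * evL e x p

section
variable {α R : Type} [CommSemiring R]

lemma evL_add (e : α → R) (x : R) (f : α → α → α) (hf : ∀ a b, e (f a b) = e a + e b) :
    ∀ p q, evL e x (addL f p q) = evL e x p + evL e x q
  | [], q => by simp [addL, evL]
  | a :: p, [] => by simp [addL, evL]
  | a :: p, b :: q => by
    simp only [addL, evL, hf, evL_add e x f hf p q]; ring

lemma evL_map (e : α → R) (x : R) (f : α → α) (c : R) (hf : ∀ b, e (f b) = c * e b) :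
    ∀ q, evL e x (q.map f) = c * evL e x q
  | [] => by simp [evL]
  | b :: q => by
    simp only [List.map_cons, evL, hf, evL_map e x f c hf q]; ring

lemma evL_mul (e : α → R) (x : R) (ad mu : α → α → α) (z : α)
    (ha : ∀ a b, e (ad a b) = e a + e b) (hm : ∀ a b, e (mu a b) = e a * e b) (hz : e z = 0) :
    ∀ p q, evL e x (mulL ad mu z p q) = evL e x p * evL e x q
  | [], q => by simp [mulL, evL]
  | a :: p, q => by
    simp only [mulL, evL, evL_add e x ad ha, evL_map e x (mu a) (e a) (hm a), hz,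
      evL_mul e x ad mu z ha hm hz p q]
    ring

lemma evL_zero (e : α → R) (x : R) : ∀ p : List α, (∀ a ∈ p, e a = 0) → evL e x p = 0
  | [], _ => rfl
  | a :: p, h => by
    simp only [evL, h a (by simp), evL_zero e x p (fun b hb => h b (by simp [hb]))]
    simp

lemma nL_add (e : α → ℕ) (x : ℕ) (f : α → α → α) (hf : ∀ a b, e (f a b) ≤ e a + e b) :
    ∀ p q, evL e x (addL f p q) ≤ evL e x p + evL e x q
  | [], q => by simp [addL, evL]
  | a :: p, [] => by simp [addL, evL]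
  | a :: p, b :: q => by
    simp only [addL, evL]
    have := Nat.mul_le_mul_left x (nL_add e x f hf p q)
    have := hf a b
    nlinarith

lemma nL_map (e : α → ℕ) (x : ℕ) (f : α → α) (c : ℕ) (hf : ∀ b, e (f b) ≤ c * e b) :
    ∀ q, evL e x (q.map f) ≤ c * evL e x q
  | [] => by simp [evL]
  | b :: q => by
    simp only [List.map_cons, evL]
    have := Nat.mul_le_mul_left x (nL_map e x f c hf q)
    have := hf b
    nlinarith

lemma nL_mul (e : α → ℕ) (x : ℕ) (ad mu : α → α → α) (z : α)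
    (ha : ∀ a b, e (ad a b) ≤ e a + e b) (hm : ∀ a b, e (mu a b) ≤ e a * e b) (hz : e z = 0) :
    ∀ p q, evL e x (mulL ad mu z p q) ≤ evL e x p * evL e x q
  | [], q => by simp [mulL, evL]
  | a :: p, q => by
    simp only [mulL]
    refine (nL_add e x ad ha _ _).trans ?_
    simp only [evL, hz]
    have := Nat.mul_le_mul_left x (nL_mul e x ad mu z ha hm hz p q)
    have := nL_map e x (mu a) (e a) (hm a) q
    nlinarith

lemma nL_mem (n : α → ℕ) : ∀ p : List α, ∀ a ∈ p, n a ≤ evL n 1 p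
  | [], a, h => by simp at h
  | b :: p, a, h => by
    simp only [evL, one_mul]
    rcases List.mem_cons.1 h with rfl | h
    · omega
    · have := nL_mem n p a h; omega

lemma kron (e : α → ℤ) (n : α → ℕ) (hn : ∀ a, (e a).natAbs ≤ n a) (S : ℕ) :
    ∀ p : List α, evL n 1 p < S → evL e (S : ℤ) p = 0 → ∀ a ∈ p, e a = 0
  | [], _, _, a, h => by simp at h
  | b :: p, h1, h2, a, h => by
    simp only [evL, one_mul] at h1 h2
    have h3 : e b = 0 := by
      refine Int.eq_zero_of_dvd_of_natAbs_lt_natAbs (n := e b) (d := (S : ℤ))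
        ⟨-evL e (S : ℤ) p, by linarith⟩ ?_
      have := hn b
      simp only [Int.natAbs_natCast]
      omega
    rcases List.mem_cons.1 h with rfl | h
    · exact h3
    · refine kron e n hn S p (by omega) ?_ a h
      rw [h3, zero_add] at h2
      refine (mul_eq_zero.1 h2).resolve_left ?_
      have : S ≠ 0 := by omega
      exact_mod_cast this

end

abbrev P1 := List ℤ
abbrev P2 := List P1
def ad1 : P1 → P1 → P1 := addL Int.add
def mu1 : P1 → P1 → P1 := mulL Int.add Int.mul 0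
def ad2 : P2 → P2 → P2 := addL ad1
def mu2 : P2 → P2 → P2 := mulL ad1 mu1 []
def pw2 (p : P2) : ℕ → P2
  | 0 => [[1]]
  | n + 1 => mu2 (pw2 p n) p
def ev1 {R : Type} [CommRing R] (t : R) : P1 → R := evL (fun a : ℤ => (a : R)) t
def ev2 {R : Type} [CommRing R] (s t : R) : P2 → R := evL (ev1 t) s
def n1 (w : ℕ) : P1 → ℕ := evL Int.natAbs w
def n2 (w : ℕ) : P2 → ℕ := evL (n1 w) 1

section
variable {R : Type} [CommRing R]
lemma ev1_add (t : R) (p q : P1) : ev1 t (ad1 p q) = ev1 t p + ev1 t q :=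
  evL_add _ _ _ (fun a b => Int.cast_add a b) p q
lemma ev1_mul (t : R) (p q : P1) : ev1 t (mu1 p q) = ev1 t p * ev1 t q :=
  evL_mul _ _ _ _ _ (fun a b => Int.cast_add a b) (fun a b => Int.cast_mul a b) Int.cast_zero p q
lemma ev2_add (s t : R) (p q : P2) : ev2 s t (ad2 p q) = ev2 s t p + ev2 s t q :=
  evL_add _ _ _ (ev1_add t) p q
lemma ev2_mul (s t : R) (p q : P2) : ev2 s t (mu2 p q) = ev2 s t p * ev2 s t q :=
  evL_mul _ _ _ _ _ (ev1_add t) (ev1_mul t) rfl p q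
lemma ev2_pw (s t : R) (p : P2) : ∀ n, ev2 s t (pw2 p n) = ev2 s t p ^ n
  | 0 => by simp [pw2, ev2, ev1, evL]
  | n + 1 => by rw [pw2, ev2_mul, ev2_pw s t p n, pow_succ]
end

lemma n1_add (w : ℕ) (p q : P1) : n1 w (ad1 p q) ≤ n1 w p + n1 w q :=
  nL_add _ _ _ (fun a b => Int.natAbs_add_le a b) p q
lemma n1_mul (w : ℕ) (p q : P1) : n1 w (mu1 p q) ≤ n1 w p * n1 w q :=
  nL_mul _ _ _ _ _ (fun a b => Int.natAbs_add_le a b) (fun a b => (Int.natAbs_mul a b).le) rfl p q
lemma n2_add (w : ℕ) (p q : P2) : n2 w (ad2 p q) ≤ n2 w p + n2 w q :=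
  nL_add _ _ _ (n1_add w) p q
lemma n2_mul (w : ℕ) (p q : P2) : n2 w (mu2 p q) ≤ n2 w p * n2 w q :=
  nL_mul _ _ _ _ _ (n1_add w) (n1_mul w) rfl p q
lemma n2_pw (w : ℕ) (p : P2) : ∀ n, n2 w (pw2 p n) ≤ n2 w p ^ n
  | 0 => by simp [pw2, n2, n1, evL]
  | n + 1 => by
    rw [pw2, pow_succ]
    exact (n2_mul _ _ _).trans (Nat.mul_le_mul_right _ (n2_pw w p n))

lemma ev1_le (B : ℕ) : ∀ p : P1, (ev1 (B : ℤ) p).natAbs ≤ n1 B p
  | [] => by simp [ev1, n1, evL]
  | a :: p => by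
    change ((a : ℤ) + B * ev1 (B : ℤ) p).natAbs ≤ a.natAbs + B * n1 B p
    refine (Int.natAbs_add_le _ _).trans ?_
    rw [Int.natAbs_mul, Int.natAbs_natCast]
    exact Nat.add_le_add le_rfl (Nat.mul_le_mul_left _ (ev1_le B p))

lemma kron2 (p : P2) (B S : ℕ) (h1 : n2 1 p < B) (h2 : n2 B p < S)
    (h3 : ev2 (S : ℤ) (B : ℤ) p = 0) (s t : ℝ) : ev2 s t p = 0 := by
  refine evL_zero _ _ _ fun a ha => evL_zero _ _ _ fun c hc => ?_
  have h4 := kron (ev1 (B : ℤ)) (n1 B) (ev1_le B) S p h2 h3 a ha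
  have h5 := kron (fun a : ℤ => a) Int.natAbs (fun _ => le_rfl) B a
    (lt_of_le_of_lt (nL_mem (n1 1) p a ha) h1) h4 c hc
  simp only [h5, Int.cast_zero]

inductive Ex
  | s | t | c (a : ℤ) | add (a b : Ex) | mul (a b : Ex) | pow (a : Ex) (n : ℕ)

def Ex.ev {R : Type} [CommRing R] (s t : R) : Ex → R
  | .s => s
  | .t => t
  | .c a => a
  | .add a b => a.ev s t + b.ev s t
  | .mul a b => a.ev s t * b.ev s t
  | .pow a n => a.ev s t ^ n

def Ex.evZ (s t : ℤ) : Ex → ℤ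
  | .s => s
  | .t => t
  | .c a => a
  | .add a b => Int.add (a.evZ s t) (b.evZ s t)
  | .mul a b => Int.mul (a.evZ s t) (b.evZ s t)
  | .pow a n => Int.pow (a.evZ s t) n

def Ex.nb (w : ℕ) : Ex → ℕ
  | .s => 1
  | .t => w
  | .c a => a.natAbs
  | .add a b => Nat.add (a.nb w) (b.nb w)
  | .mul a b => Nat.mul (a.nb w) (b.nb w)
  | .pow a n => Nat.pow (a.nb w) n

def Ex.toP : Ex → P2
  | .s => [[], [1]]
  | .t => [[0, 1]]
  | .c a => [[a]]
  | .add a b => ad2 a.toP b.toP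
  | .mul a b => mu2 a.toP b.toP
  | .pow a n => pw2 a.toP n

lemma Ex.ev_toP {R : Type} [CommRing R] (s t : R) : ∀ e : Ex, ev2 s t e.toP = e.ev s t
  | .s => by simp [toP, ev, ev2, ev1, evL]
  | .t => by simp [toP, ev, ev2, ev1, evL]
  | .c a => by simp [toP, ev, ev2, ev1, evL]
  | .add a b => by rw [toP, ev, ev2_add, ev_toP s t a, ev_toP s t b]
  | .mul a b => by rw [toP, ev, ev2_mul, ev_toP s t a, ev_toP s t b]
  | .pow a n => by rw [toP, ev, ev2_pw, ev_toP s t a]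

lemma Ex.evZ_eq (s t : ℤ) : ∀ e : Ex, e.evZ s t = e.ev s t
  | .s => rfl
  | .t => rfl
  | .c a => rfl
  | .add a b => by rw [evZ, ev, evZ_eq s t a, evZ_eq s t b]; rfl
  | .mul a b => by rw [evZ, ev, evZ_eq s t a, evZ_eq s t b]; rfl
  | .pow a n => by rw [evZ, ev, evZ_eq s t a]; rfl

lemma Ex.nb_toP (w : ℕ) : ∀ e : Ex, n2 w e.toP ≤ e.nb w
  | .s => by simp [toP, nb, n2, n1, evL]
  | .t => by simp [toP, nb, n2, n1, evL]
  | .c a => by simp [toP, nb, n2, n1, evL]
  | .add a b => (n2_add _ _ _).trans (Nat.add_le_add (nb_toP w a) (nb_toP w b))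
  | .mul a b => (n2_mul _ _ _).trans (Nat.mul_le_mul (nb_toP w a) (nb_toP w b))
  | .pow a n => (n2_pw _ _ _).trans (Nat.pow_le_pow_left (nb_toP w a) n)

theorem Ex.zero_of (e : Ex) (B S : ℕ) (h1 : e.nb 1 < B) (h2 : e.nb B < S)
    (h3 : e.evZ S B = 0) (s t : ℝ) : e.ev s t = 0 := by
  rw [← ev_toP]
  refine kron2 _ B S (lt_of_le_of_lt (nb_toP _ _) h1) (lt_of_le_of_lt (nb_toP _ _) h2) ?_ s t
  rw [ev_toP, ← evZ_eq, h3]

def sumE : List Ex → Ex
  | [] => .c 0
  | p :: l => .add p (sumE l)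

lemma ev_sumE (s t : ℝ) : ∀ l : List Ex, (sumE l).ev s t = (l.map (Ex.ev s t)).sum
  | [] => by simp [sumE, Ex.ev]
  | p :: l => by simp only [sumE, Ex.ev, ev_sumE s t l, List.map_cons, List.sum_cons]

def of1 : P1 → Ex
  | [] => .c 0
  | a :: p => .add (.c a) (.mul .t (of1 p))

def of2 : P2 → Ex
  | [] => .c 0
  | a :: p => .add (of1 a) (.mul .s (of2 p))

lemma ev_of1 (s t : ℝ) : ∀ p : P1, (of1 p).ev s t = ev1 t p
  | [] => by simp [of1, Ex.ev, ev1, evL]
  | a :: p => by simp only [of1, Ex.ev, ev_of1 s t p]; rfl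

lemma ev_of2 (s t : ℝ) : ∀ p : P2, (of2 p).ev s t = ev2 s t p
  | [] => by simp [of2, Ex.ev, ev2, evL]
  | a :: p => by simp only [of2, Ex.ev, ev_of1, ev_of2 s t p]; rfl

def nr1 : P1 → ℕ
  | [] => 0
  | a :: p => a.natAbs + nr1 p

def nr2 : P2 → ℕ
  | [] => 0
  | a :: p => nr1 a + nr2 p

def ok2 : ℕ → P2 → Bool
  | _, [] => true
  | 0, _ :: _ => false
  | n + 1, a :: p => decide (a.length ≤ n + 1) && ok2 n p

lemma bd1 (t R : ℝ) (ht : |t| ≤ R) (hR : 1 ≤ R) :
    ∀ (p : P1) (n : ℕ), p.length ≤ n → R * |ev1 t p| ≤ nr1 p * R ^ n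
  | [], n, _ => by simp [ev1, evL, nr1]
  | a :: p, 0, h => by simp at h
  | a :: p, n + 1, h => by
    have ih := bd1 t R ht hR p n (by simpa using h)
    have h1 : |ev1 t (a :: p)| ≤ |(a : ℝ)| + R * |ev1 t p| := by
      change |(a : ℝ) + t * ev1 t p| ≤ _
      refine (abs_add_le _ _).trans ?_
      rw [abs_mul]
      gcongr
    have h2 : (1 : ℝ) ≤ R ^ n := one_le_pow₀ hR
    have h3 : |(a : ℝ)| = (a.natAbs : ℝ) := by simp
    simp only [nr1, pow_succ]
    push_cast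
    rw [h3] at h1
    have h4 : (0 : ℝ) ≤ a.natAbs := Nat.cast_nonneg _
    have h5 : |ev1 t (a :: p)| ≤ (a.natAbs + nr1 p) * R ^ n := by nlinarith
    nlinarith

lemma bd2 (s t R : ℝ) (hs : |s| ≤ R) (ht : |t| ≤ R) (hR : 1 ≤ R) :
    ∀ (p : P2) (n : ℕ), ok2 n p = true → R * |ev2 s t p| ≤ nr2 p * R ^ n
  | [], n, _ => by simp [ev2, evL, nr2]
  | a :: p, 0, h => by simp [ok2] at h
  | a :: p, n + 1, h => by
    simp only [ok2, Bool.and_eq_true, decide_eq_true_eq] at h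
    have ih := bd2 s t R hs ht hR p n h.2
    have ia := bd1 t R ht hR a (n + 1) h.1
    have h1 : |ev2 s t (a :: p)| ≤ |ev1 t a| + R * |ev2 s t p| := by
      change |ev1 t a + s * ev2 s t p| ≤ _
      refine (abs_add_le _ _).trans ?_
      rw [abs_mul]
      gcongr
    simp only [nr2, pow_succ] at ia ⊢
    push_cast
    nlinarith

end Pool.Agent.H14.Hs
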