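import Pool.Agent.H14.Hs0
set_option autoImplicit false
set_option maxRecDepth 100000

namespace Pool.Agent.H14.Hs

def dat : List (ℤ × ℤ × ℤ × ℤ) := [(4130843, 0, 0, 1), (-9184927, 0, 1, 0), (4969665, 1, 0, 0), (-785758, 0, 1, -1), (-573635, 0, 1, 1), (1217874, 1, -1, 0), (-106956, 1, 0, -1), (-681333, 1, 0, 1), (243261, 1, 1, 0), (-205721, 1, -1, -1), (-575056, 1, -1, 1), (52002, 1, 1, -1), (-104530, 1, 1, 1), (1387, 1, 2, 1), (11553, 2, -1, -1), (-14196, 1, -1, 2), (-9871, 1, 2, -1), (1646, 2, -1, 1), (8994, 1, -1, -2), (9091, 1, 1, 2), (5172, 2, 1, -1), (-43115, 1, -2, 0), (-4887, 1, 1, -2), (23728, 0, 2, 1), (5483, 2, 1, 1), (61465, 0, 2, -1), (4353, 1, 0, 2), (-12257, 2, 0, -1), (-21192, 2, 1, 0), (5611, 1, -2, -1), (24720, 0, 1, -2), (-40267, 2, -1, 0), (-986, 0, 1, 2), (20820, 1, -2, 1), (9745, 2, -1, 2), (6377, 1, -2, 2)]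

def sqs : List (List (List ℤ)) := [[[-5245814, 2862673, 46441191, -152636352, 113051191, -20321134, -20674941, 23101459], [18938053, 250977179, 42236434, -1096157282, 36579029, 234268084, -44258977], [-1974502, 661294490, 535062970, -803419570, 357756798, 72909979], [-66099705, 389646481, 522740606, -356795025, 178625884], [-137621549, 25837826, -249959418, -125959326], [-26867994, -64697751, -73519317], [79620036, -5564766], [10370966]],
  [[3596844, 45969796, 243833753, -281704336, -281549956, 118072427, 100957685, 28282102], [-2851319, 324412678, 490068291, -766617559, -212164523, 42631771, 58109108], [38714508, 473959609, 129563968, -451099962, 67269371, -47679145], [-16557668, 3968644, 107779282, 162920501, -210239467], [-105439067, -546862097, 190885444, 223929330], [27350712, -263939677, 65862792], [23666749, -55377963], [-2201354]],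
  [[-942368, 138781126, 264879128, -201897596, -471085687, 107944818, 17794810, -17240440], [13077524, -162421550, 321846159, 604934605, 60192801, 204649028, 83615421], [-65793221, -791115982, -490600419, 301215256, 236767861, 36642318], [-56213161, -296410759, -1208484501, -622994131, -71327494], [-39059290, 84683925, -96328135, -19794685], [-14909362, 102820704, 47868533], [6009889, 844267], [7249510]],
  [[-24005952, -31958254, 326265906, -106630652, -441027004, 240800652, 144679622, 8961160], [-26793428, -102737900, 212067217, -60057607, -205870528, 91944488, -57047710], [-112934975, -203356348, -148479137, -524627488, 92568575, -15600472], [-41628072, 117417124, -458761879, -52340969, 235968134], [149548947, 373177060, -222882905, 84975899], [46528343, -20865375, -141424007], [-34684079, -24415119], [135755]],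
  [[-19260609, -57241511, 9189761, 27179546, 36664154, 114831300, 39892463, -29992948], [-44515144, -201998953, -102940517, -109542901, 159967002, 224592589, -45637697], [45890353, -328277910, -575065583, -527288595, 549545431, 346427829], [172989579, 132845028, -269810778, -1045283028, -40013815], [163492086, 284385232, -81131765, -432218703], [-32262026, 186890027, 175553155], [-29784044, 46894652], [-10396145]]]

def EE : ℤ := 38610000000000

def errP : List (List ℤ) := [[36473524, -67162726, -475806387, 1007993036, 414659598, -1201111310, 301506505, 262508938, -647766421, -859358982, 516511046, 790550740, -505434780, -209174514, 45271236], [-18674260, -39450200, -191963410, 1256030728, -586845488, -442371144, 2417515462, 1262150570, 134534796, -708621314, -830508246, 376548790, -202649484, -33211094], [10009083, -275349596, 656962214, 1376143246, -3334801713, -2212942338, 188220498, 1224986788, 1138443484, 521889736, 121904270, -47155996, -23145496], [-145204686, -1572455672, 853879156, 3116634976,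 -187325402, -3010072128, -899954780, 235498742, 425454482, 1520645348, -168249154, -405903280], [-152988980, -1509771896, -288790762, 3150018694, 2106160631, -702801658, -329715759, 1620462140, 69005901, 978482394, 81261796], [275125352, -778221556, -3552428442, 297883136, 2784871092, -937806220, -871002958, 317211272, -366818200, 422007750], [195399916, 37576504, -2417912868, -3025206844, -476769378, -1790713738, -600314838, 627958686, 139367421], [292229196, 1627542404, 160610282, -515942718, 62161964, 1745178348, 60790180, -322578940], [36005676, 1094312134, 2216383599, 1846326932, -186043788, 496227510, -385517198], [-236720556, -300057550, -487973366, -1242605420, -710954526, 558415542], [36282164, 413253206, -393529926, -939498420, -141395097], [408593048, 1082134106, 108771760, -234815400], [73050822, 352414802, 18936460], [-103115034, 49095870], [-14476545]]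

noncomputable def kk (γ N τ : ℝ) : ℝ :=
  16 * τ ^ 7 + 168 * γ * N ^ 2 * τ ^ 5 + 210 * γ ^ 2 * N ^ 4 * τ ^ 3 + 35 * γ ^ 3 * N ^ 6 * τ

abbrev D4 := ℤ × ℤ × ℤ × ℤ

noncomputable def lin (a : D4) (x y z : ℝ) : ℝ := a.2.1 * x + a.2.2.1 * y + a.2.2.2 * z
def dot (a b : D4) : ℤ := a.2.1 * b.2.1 + a.2.2.1 * b.2.2.1 + a.2.2.2 * b.2.2.2

noncomputable def term (a b : D4) (x y z : ℝ) : ℝ :=
  (a.1 * b.1 : ℤ) * kk ((dot a a * dot b b : ℤ)) (x ^ 2 + y ^ 2 + z ^ 2)
    (2 * lin a x y z * lin b x y z - (dot a b : ℤ) * (x ^ 2 + y ^ 2 + z ^ 2))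

noncomputable def Psi (x y z : ℝ) : ℝ :=
  (dat.map (fun a => (dat.map (fun b => term a b x y z)).sum)).sum

def NE : Ex := .add (.add (.pow .s 2) (.pow .t 2)) (.c 1)
def linE (a : D4) : Ex := .add (.add (.mul (.c a.2.1) .s) (.mul (.c a.2.2.1) .t)) (.c a.2.2.2)
def kE (γ : ℤ) (τ : Ex) : Ex :=
  .add (.add (.mul (.c 16) (.pow τ 7)) (.mul (.c (168 * γ)) (.mul (.pow NE 2) (.pow τ 5))))
    (.add (.mul (.c (210 * γ * γ)) (.mul (.pow NE 4) (.pow τ 3)))
      (.mul (.c (35 * γ * γ * γ)) (.mul (.pow NE 6) τ)))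
def termE (a b : D4) : Ex :=
  .mul (.c (a.1 * b.1)) (kE (dot a a * dot b b)
    (.add (.mul (.c 2) (.mul (linE a) (linE b))) (.mul (.c (-dot a b)) NE)))
def PsiE : Ex := sumE (dat.map (fun a => sumE (dat.map (fun b => termE a b))))
def allE : Ex := .add (.add PsiE (sumE (sqs.map (fun q => .pow (of2 q) 2))))
  (.add (.mul (.c EE) (.pow NE 7)) (.mul (.c (-1)) (of2 errP)))

lemma ev_NE (s t : ℝ) : NE.ev s t = s ^ 2 + t ^ 2 + 1 ^ 2 := by
  simp [NE, Ex.ev]

lemma ev_linE (s t : ℝ) (a : D4) : (linE a).ev s t = lin a s t 1 := by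
  simp [linE, Ex.ev, lin]

lemma ev_kE (s t : ℝ) (γ : ℤ) (τ : Ex) : (kE γ τ).ev s t = kk γ (NE.ev s t) (τ.ev s t) := by
  simp only [kE, Ex.ev, kk]
  push_cast
  ring

lemma ev_termE (s t : ℝ) (a b : D4) : (termE a b).ev s t = term a b s t 1 := by
  simp only [termE, Ex.ev, ev_kE, ev_NE, ev_linE, term]
  congr 2
  push_cast
  ring

lemma ev_PsiE (s t : ℝ) : PsiE.ev s t = Psi s t 1 := by
  simp only [PsiE, Psi, ev_sumE, List.map_map, Function.comp_def, ev_termE]

lemma check : (ok2 15 errP && decide ((nr2 errP : ℤ) + 1 ≤ EE)) = true := by decide +kernel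
lemma check1 : allE.nb 1 < 2 ^ 100 := by decide +kernel
lemma check2 : allE.nb (2 ^ 100) < 2 ^ 1600 := by decide +kernel
lemma check3 : allE.evZ ((2 ^ 1600 : ℕ) : ℤ) ((2 ^ 100 : ℕ) : ℤ) = 0 := by decide +kernel

lemma Psi_chart (s t : ℝ) : Psi s t 1 ≤ -(s ^ 2 + t ^ 2 + 1 ^ 2) ^ 7 := by
  have hc := check
  simp only [Bool.and_eq_true, decide_eq_true_eq] at hc
  have h4 := allE.zero_of _ _ check1 check2 check3 s t
  simp only [allE, Ex.ev, ev_PsiE, ev_sumE, NE, ev_of2] at h4
  have h5 : 0 ≤ ((sqs.map (fun q => Ex.pow (of2 q) 2)).map (Ex.ev s t)).sum := by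
    refine List.sum_nonneg fun x hx => ?_
    simp only [List.map_map, List.mem_map, Function.comp_apply, Ex.ev] at hx
    obtain ⟨q, -, rfl⟩ := hx
    exact sq_nonneg _
  push_cast at h4
  rw [one_pow]
  set N := s ^ 2 + t ^ 2 + 1 with hN
  have hN1 : 1 ≤ N := by nlinarith [sq_nonneg s, sq_nonneg t]
  have hR : 1 ≤ Real.sqrt N := Real.one_le_sqrt.2 hN1
  have h1 := bd2 s t (Real.sqrt N) (Real.abs_le_sqrt (by nlinarith [sq_nonneg t]))
    (Real.abs_le_sqrt (by nlinarith [sq_nonneg s])) hR errP 15 hc.1
  have h2 : Real.sqrt N ^ 15 = Real.sqrt N * N ^ 7 := by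
    have := Real.sq_sqrt (show 0 ≤ N by linarith)
    calc Real.sqrt N ^ 15 = Real.sqrt N * (Real.sqrt N ^ 2) ^ 7 := by ring
      _ = _ := by rw [this]
  rw [h2, mul_left_comm] at h1
  have h3 := (abs_le.1 (le_of_mul_le_mul_left h1 (by linarith))).2
  have h6 : ((nr2 errP : ℝ)) + 1 ≤ EE := by exact_mod_cast hc.2
  have h7 : 0 ≤ N ^ 7 := by positivity
  nlinarith

lemma Psi_hom (x y z c : ℝ) : Psi (c * x) (c * y) (c * z) = c ^ 14 * Psi x y z := by
  simp only [Psi, ← List.sum_map_mul_left]
  congr 1
  refine List.map_congr_left fun a _ => ?_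
  congr 1
  refine List.map_congr_left fun b _ => ?_
  have e1 : (c * x) ^ 2 + (c * y) ^ 2 + (c * z) ^ 2 = c ^ 2 * (x ^ 2 + y ^ 2 + z ^ 2) := by ring
  have e2 : ∀ a, lin a (c * x) (c * y) (c * z) = c * lin a x y z := fun a => by
    simp only [lin]; ring
  simp only [term, e1, e2, kk]
  generalize x ^ 2 + y ^ 2 + z ^ 2 = N
  generalize lin a x y z = A
  generalize lin b x y z = B
  rw [show 2 * (c * A) * (c * B) - (dot a b : ℝ) * (c ^ 2 * N) =
    c ^ 2 * (2 * A * B - (dot a b : ℝ) * N) by ring]
  generalize 2 * A * B - (dot a b : ℝ) * N = τ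
  ring

lemma Psi_le (x y z : ℝ) : Psi x y z ≤ -(x ^ 2 + y ^ 2 + z ^ 2) ^ 7 := by
  have hc : Continuous (fun z => Psi x y z) := by
    unfold Psi
    refine continuous_list_sum _ fun a _ => continuous_list_sum _ fun b _ => ?_
    unfold term kk lin
    fun_prop
  have hcl : IsClosed {z | Psi x y z ≤ -(x ^ 2 + y ^ 2 + z ^ 2) ^ 7} :=
    isClosed_le hc (by fun_prop)
  have hsub : ({0}ᶜ : Set ℝ) ⊆ {z | Psi x y z ≤ -(x ^ 2 + y ^ 2 + z ^ 2) ^ 7} := by
    intro z hz
    have hz : z ≠ 0 := hz
    have h1 := Psi_hom (x / z) (y / z) 1 z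
    rw [mul_div_cancel₀ _ hz, mul_div_cancel₀ _ hz, mul_one] at h1
    have h2 := Psi_chart (x / z) (y / z)
    have h3 : z ^ 14 * -((x / z) ^ 2 + (y / z) ^ 2 + 1 ^ 2) ^ 7 = -(x ^ 2 + y ^ 2 + z ^ 2) ^ 7 := by
      field_simp
    change Psi x y z ≤ _
    rw [h1, ← h3]
    exact mul_le_mul_of_nonneg_left h2 (by positivity)
  have := hcl.closure_subset_iff.2 hsub
  rw [(dense_compl_singleton (0 : ℝ)).closure_eq] at this
  exact this (Set.mem_univ z)

end Pool.Agent.H14.Hs
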