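import Mathlib
set_option autoImplicit false
set_option maxHeartbeats 400000

namespace Pool.Agent.H14.Hs
open Finset

def Wt {ι : Type} [Fintype ι] (w : ι → Bool → ℝ) (ω : ι → Bool) : ℝ := ∏ i, w i (ω i)

def Av {ι : Type} [Fintype ι] [DecidableEq ι] (w : ι → Bool → ℝ) (G : (ι → Bool) → ℝ) : ℝ :=
  ∑ ω, Wt w ω * G ω

lemma two_pt (p q a b c : ℝ) (hp : 0 ≤ p) (hq : 0 ≤ q) (h1 : p + q = 1) (h : |a - b| ≤ c)
    (hc : c ≤ 1) : p * Real.exp a + q * Real.exp b ≤ Real.exp (p * a + q * b + c ^ 2) := by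
  have h0 : 0 ≤ c := (abs_nonneg _).trans h
  have ha : |q * (a - b)| ≤ c := by
    rw [abs_mul, abs_of_nonneg hq]; nlinarith [abs_nonneg (a - b)]
  have hb : |-p * (a - b)| ≤ c := by
    rw [abs_mul, abs_neg, abs_of_nonneg hp]; nlinarith [abs_nonneg (a - b)]
  have e1 := (abs_le.1 (Real.abs_exp_sub_one_sub_id_le (ha.trans hc))).2
  have e2 := (abs_le.1 (Real.abs_exp_sub_one_sub_id_le (hb.trans hc))).2
  have s1 : (q * (a - b)) ^ 2 ≤ c ^ 2 := sq_le_sq' (abs_le.1 ha).1 (abs_le.1 ha).2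
  have s2 : (-p * (a - b)) ^ 2 ≤ c ^ 2 := sq_le_sq' (abs_le.1 hb).1 (abs_le.1 hb).2
  have ea : Real.exp a = Real.exp (p * a + q * b) * Real.exp (q * (a - b)) := by
    rw [← Real.exp_add]; congr 1; linear_combination (-a) * h1
  have eb : Real.exp b = Real.exp (p * a + q * b) * Real.exp (-p * (a - b)) := by
    rw [← Real.exp_add]; congr 1; linear_combination (-b) * h1
  have e3 := Real.add_one_le_exp (c ^ 2)
  have e4 : p * Real.exp (q * (a - b)) + q * Real.exp (-p * (a - b)) ≤ Real.exp (c ^ 2) := by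
    have f1 : p * Real.exp (q * (a - b)) ≤ p * (1 + q * (a - b) + c ^ 2) :=
      mul_le_mul_of_nonneg_left (by linarith) hp
    have f2 : q * Real.exp (-p * (a - b)) ≤ q * (1 + -p * (a - b) + c ^ 2) :=
      mul_le_mul_of_nonneg_left (by linarith) hq
    have f3 : p * (1 + q * (a - b) + c ^ 2) + q * (1 + -p * (a - b) + c ^ 2) = c ^ 2 + 1 := by
      linear_combination (1 + c ^ 2) * h1
    linarith
  rw [Real.exp_add _ (c ^ 2)]
  calc _ = Real.exp (p * a + q * b) *
      (p * Real.exp (q * (a - b)) + q * Real.exp (-p * (a - b))) := by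
        conv_lhs => rw [ea, eb]
        ring
    _ ≤ _ := mul_le_mul_of_nonneg_left e4 (Real.exp_pos _).le

lemma Av_succ {n : ℕ} (w : Fin (n + 1) → Bool → ℝ) (G : (Fin (n + 1) → Bool) → ℝ) :
    Av w G = Av (fun i => w i.succ) (fun ω => w 0 true * G (Fin.cons true ω) +
      w 0 false * G (Fin.cons false ω)) := by
  unfold Av
  rw [← (Fin.consEquiv fun _ => Bool).sum_comp, Fintype.sum_prod_type, Finset.sum_comm]
  refine Finset.sum_congr rfl fun ω _ => ?_
  simp only [Fintype.sum_bool, Wt, Fin.prod_univ_succ, Fin.consEquiv, Equiv.coe_fn_mk,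
    Fin.cons_zero, Fin.cons_succ]
  ring

lemma Wt_nonneg {ι : Type} [Fintype ι] {w : ι → Bool → ℝ} (h : ∀ i b, 0 ≤ w i b) (ω) :
    0 ≤ Wt w ω := Finset.prod_nonneg fun i _ => h i _

lemma Av_mono {ι : Type} [Fintype ι] [DecidableEq ι] {w : ι → Bool → ℝ} (h : ∀ i b, 0 ≤ w i b)
    {G H : (ι → Bool) → ℝ} (hG : ∀ ω, G ω ≤ H ω) : Av w G ≤ Av w H :=
  Finset.sum_le_sum fun ω _ => mul_le_mul_of_nonneg_left (hG ω) (Wt_nonneg h ω)

lemma Av_smul {ι : Type} [Fintype ι] [DecidableEq ι] (w : ι → Bool → ℝ) (c : ℝ)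
    (G : (ι → Bool) → ℝ) : Av w (fun ω => c * G ω) = c * Av w G := by
  unfold Av
  rw [Finset.mul_sum]
  exact Finset.sum_congr rfl fun ω _ => by ring

lemma mcd (n : ℕ) : ∀ (w : Fin n → Bool → ℝ), (∀ i b, 0 ≤ w i b) →
    (∀ i, w i true + w i false = 1) → ∀ (G : (Fin n → Bool) → ℝ) (c : Fin n → ℝ),
    (∀ i, c i ≤ 1) → (∀ ω i b, |G (Function.update ω i b) - G ω| ≤ c i) →
    Av w (fun ω => Real.exp (G ω)) ≤ Real.exp (Av w G + ∑ i, c i ^ 2) := by
  induction n with
  | zero => intro w _ _ G c _ _; simp [Av, Wt]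
  | succ n ih =>
    intro w h0 h1 G c hc hG
    rw [Av_succ, Av_succ w G, Fin.sum_univ_succ]
    have := ih (fun i => w i.succ) (fun i b => h0 _ b) (fun i => h1 _)
      (fun ω => w 0 true * G (Fin.cons true ω) + w 0 false * G (Fin.cons false ω))
      (fun i => c i.succ) (fun i => hc _) (fun ω i b => by
        have a1 := hG (Fin.cons true ω) i.succ b
        have a2 := hG (Fin.cons false ω) i.succ b
        rw [← Fin.cons_update] at a1 a2
        have b1 := abs_le.1 a1
        have b2 := abs_le.1 a2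
        have p1 := h0 0 true
        have p2 := h0 0 false
        have e : c i.succ = w 0 true * c i.succ + w 0 false * c i.succ := by
          rw [← add_mul, h1, one_mul]
        rw [abs_le]
        constructor <;> nlinarith [mul_le_mul_of_nonneg_left b1.1 p1,
          mul_le_mul_of_nonneg_left b1.2 p1, mul_le_mul_of_nonneg_left b2.1 p2,
          mul_le_mul_of_nonneg_left b2.2 p2])
    calc _ ≤ Av (fun i => w i.succ) (fun ω => Real.exp (c 0 ^ 2) * Real.exp
          (w 0 true * G (Fin.cons true ω) + w 0 false * G (Fin.cons false ω))) := by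
          refine Av_mono (fun i b => h0 _ b) fun ω => ?_
          rw [← Real.exp_add, add_comm (c 0 ^ 2)]
          refine two_pt _ _ _ _ _ (h0 _ _) (h0 _ _) (h1 0) ?_ (hc 0)
          have := hG (Fin.cons false ω) 0 true
          rwa [Fin.update_cons_zero] at this
      _ ≤ _ := by
          rw [Av_smul]
          refine (mul_le_mul_of_nonneg_left this (Real.exp_pos _).le).trans (le_of_eq ?_)
          rw [← Real.exp_add]
          congr 1
          ring

lemma Av_equiv {ι κ : Type} [Fintype ι] [DecidableEq ι] [Fintype κ] [DecidableEq κ] (e : ι ≃ κ)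
    (w : ι → Bool → ℝ) (G : (ι → Bool) → ℝ) :
    Av w G = Av (fun k => w (e.symm k)) (fun ω => G (ω ∘ e)) := by
  unfold Av
  symm
  refine Fintype.sum_equiv (e.symm.arrowCongr (Equiv.refl Bool)) _ _ fun ω => ?_
  congr 1
  unfold Wt
  rw [← e.prod_comp]
  simp

lemma mcd' {ι : Type} [Fintype ι] [DecidableEq ι] (w : ι → Bool → ℝ) (h0 : ∀ i b, 0 ≤ w i b)
    (h1 : ∀ i, w i true + w i false = 1) (G : (ι → Bool) → ℝ) (c : ι → ℝ)
    (hc : ∀ i, c i ≤ 1) (hG : ∀ ω i b, |G (Function.update ω i b) - G ω| ≤ c i) :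
    Av w (fun ω => Real.exp (G ω)) ≤ Real.exp (Av w G + ∑ i, c i ^ 2) := by
  let e := Fintype.equivFin ι
  rw [Av_equiv e, Av_equiv e w G, ← e.symm.sum_comp]
  refine mcd _ (fun k => w (e.symm k)) (fun i b => h0 _ b) (fun i => h1 _) (fun ω => G (ω ∘ e))
    (fun k => c (e.symm k)) (fun i => hc _) fun ω i b => ?_
  simp only [Function.update_comp_equiv]
  exact hG _ _ _

lemma sum_prod {ι : Type} [Fintype ι] [DecidableEq ι] (h : ι → Bool → ℝ) :
    ∑ ω : ι → Bool, ∏ i, h i (ω i) = ∏ i, (h i true + h i false) := by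
  have := Finset.prod_univ_sum (fun _ : ι => (univ : Finset Bool)) h
  rw [Fintype.piFinset_univ] at this
  rw [← this]
  simp

lemma Av_one {ι : Type} [Fintype ι] [DecidableEq ι] (w : ι → Bool → ℝ)
    (h1 : ∀ i, w i true + w i false = 1) : Av w (fun _ => 1) = 1 := by
  simp only [Av, Wt, mul_one, sum_prod, h1, prod_const_one]

lemma exists_good {ι N : Type} [Fintype ι] [DecidableEq ι] [Fintype N] (w : ι → Bool → ℝ)
    (h0 : ∀ i b, 0 ≤ w i b) (h1 : ∀ i, w i true + w i false = 1) (G : N → (ι → Bool) → ℝ)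
    (c : ι → ℝ) (hG : ∀ p ω i b, |G p (Function.update ω i b) - G p ω| ≤ c i)
    (l t : ℝ) (hl : 0 < l) (hc : ∀ i, l * c i ≤ 1)
    (hN : Fintype.card N * Real.exp (l ^ 2 * ∑ i, c i ^ 2 - l * t) < 1) :
    ∃ ω, ∀ p, G p ω < Av w (G p) + t := by
  by_contra hcon
  push Not at hcon
  have a1 : Av w (fun _ => 1) ≤ Av w (fun ω => ∑ p,
      Real.exp (-(l * (Av w (G p) + t))) * Real.exp (l * G p ω)) := by
    refine Av_mono h0 fun ω => ?_
    obtain ⟨p, hp⟩ := hcon ω
    refine le_trans ?_ (Finset.single_le_sum (f := fun p =>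
      Real.exp (-(l * (Av w (G p) + t))) * Real.exp (l * G p ω))
      (fun p _ => by positivity) (mem_univ p))
    rw [← Real.exp_add]
    exact Real.one_le_exp (by nlinarith)
  have a2 : Av w (fun ω => ∑ p, Real.exp (-(l * (Av w (G p) + t))) * Real.exp (l * G p ω)) =
      ∑ p, Real.exp (-(l * (Av w (G p) + t))) * Av w (fun ω => Real.exp (l * G p ω)) := by
    simp only [← Av_smul]
    unfold Av
    simp only [Finset.mul_sum]
    rw [Finset.sum_comm]
  have a3 : ∀ p, Real.exp (-(l * (Av w (G p) + t))) * Av w (fun ω => Real.exp (l * G p ω)) ≤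
      Real.exp (l ^ 2 * ∑ i, c i ^ 2 - l * t) := by
    intro p
    have := mcd' w h0 h1 (fun ω => l * G p ω) (fun i => l * c i) hc (fun ω i b => by
      rw [← mul_sub, abs_mul, abs_of_pos hl]
      exact mul_le_mul_of_nonneg_left (hG p ω i b) hl.le)
    refine (mul_le_mul_of_nonneg_left this (Real.exp_pos _).le).trans (le_of_eq ?_)
    rw [← Real.exp_add, Av_smul]
    simp only [mul_pow, ← Finset.mul_sum]
    congr 1
    ring
  rw [Av_one w h1, a2] at a1
  have a4 := a1.trans (Finset.sum_le_sum fun p _ => a3 p)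
  simp only [sum_const, card_univ, nsmul_eq_mul] at a4
  linarith

lemma Av_pair {ι : Type} [Fintype ι] [DecidableEq ι] (w : ι → Bool → ℝ) (h0 : ∀ i b, 0 ≤ w i b)
    (h1 : ∀ i, w i true + w i false = 1) (i j : ι) (b : Bool) :
    Av w (fun ω => if ω i = b ∧ ω j = b then 1 else 0) ≤
      w i b * w j b + if i = j then 1 else 0 := by
  by_cases hij : i = j
  · rw [if_pos hij]
    have : Av w (fun ω => if ω i = b ∧ ω j = b then 1 else 0) ≤ Av w (fun _ => 1) :=
      Av_mono h0 fun ω => by split_ifs <;> norm_num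
    rw [Av_one w h1] at this
    have := mul_nonneg (h0 i b) (h0 j b)
    linarith
  · rw [if_neg hij, add_zero]
    have e : ∀ ω : ι → Bool, Wt w ω * (if ω i = b ∧ ω j = b then 1 else 0) =
        ∏ k, (w k (ω k) * (if k ∈ ({i, j} : Finset ι) then (if ω k = b then 1 else 0) else 1)) := by
      intro ω
      rw [Finset.prod_mul_distrib, Finset.prod_ite_mem, univ_inter, Finset.prod_pair hij]
      unfold Wt
      congr 1
      by_cases a : ω i = b <;> by_cases a' : ω j = b <;> simp [a, a']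
    unfold Av
    simp only [e]
    rw [sum_prod (fun k d => w k d *
      (if k ∈ ({i, j} : Finset ι) then (if d = b then 1 else 0) else 1))]
    have e2 : ∀ k, w k true * (if k ∈ ({i, j} : Finset ι) then
        (if true = b then (1 : ℝ) else 0) else 1) + w k false * (if k ∈ ({i, j} : Finset ι) then
        (if false = b then (1 : ℝ) else 0) else 1) =
        if k ∈ ({i, j} : Finset ι) then w k b else 1 := by
      intro k
      by_cases hk : k ∈ ({i, j} : Finset ι)
      · simp only [hk, if_true]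
        cases b <;> simp
      · simp only [hk, if_false, mul_one, h1]
    simp only [e2]
    rw [Finset.prod_ite_mem, univ_inter, Finset.prod_pair hij]

end Pool.Agent.H14.Hs
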