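import Pool.Agent.H14.Hs1
set_option autoImplicit false
set_option maxHeartbeats 400000

namespace Pool.Agent.H14.Hs
open MeasureTheory Metric Set
open scoped Pointwise RealInnerProductSpace

abbrev E := EuclideanSpace ℝ (Fin 3)
abbrev S := sphere (0 : E) 1

noncomputable def mu0 : Measure S := (volume : Measure E).toSphere
noncomputable def nu : Measure S := (mu0 univ)⁻¹ • mu0

lemma mu0_univ : mu0 univ = 3 * volume (ball (0 : E) 1) := by
  simp [mu0, Measure.toSphere_apply_univ]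

lemma vb_ne : volume (ball (0 : E) 1) ≠ 0 := (measure_ball_pos _ _ one_pos).ne'
lemma vb_top : volume (ball (0 : E) 1) ≠ ⊤ := measure_ball_lt_top.ne

instance : IsProbabilityMeasure nu := ⟨by
  rw [nu, Measure.smul_apply, smul_eq_mul, ENNReal.inv_mul_cancel]
  · rw [mu0_univ]; exact mul_ne_zero (by norm_num) vb_ne
  · rw [mu0_univ]; exact ENNReal.mul_ne_top (by norm_num) vb_top⟩

lemma nS (x : S) : ‖(x : E)‖ = 1 := mem_sphere_zero_iff_norm.1 x.2

noncomputable def act (g : E ≃ₗᵢ[ℝ] E) (x : S) : S := ⟨g x, by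
  rw [mem_sphere_zero_iff_norm, g.norm_map, nS]⟩

lemma act_cont (g : E ≃ₗᵢ[ℝ] E) : Continuous (act g) :=
  (g.continuous.comp continuous_subtype_val).subtype_mk _

noncomputable def actE (g : E ≃ₗᵢ[ℝ] E) : S ≃ₜ S where
  toFun := act g
  invFun := act g.symm
  left_inv x := Subtype.ext (by simp [act])
  right_inv x := Subtype.ext (by simp [act])
  continuous_toFun := act_cont g
  continuous_invFun := act_cont g.symm

lemma act_mp (g : E ≃ₗᵢ[ℝ] E) : MeasurePreserving (act g) nu nu := by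
  have : MeasurePreserving (act g) mu0 mu0 := by
    refine ⟨(act_cont g).measurable, Measure.ext fun s hs => ?_⟩
    rw [Measure.map_apply (act_cont g).measurable hs, mu0,
      Measure.toSphere_apply' _ ((act_cont g).measurable hs), Measure.toSphere_apply' _ hs]
    congr 1
    rw [← g.measurePreserving.measure_preimage_emb
      g.toHomeomorph.toMeasurableEquiv.measurableEmbedding (Ioo (0 : ℝ) 1 • ((↑) '' s : Set E))]
    congr 1
    ext y
    simp only [mem_preimage, Set.mem_smul, mem_image]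
    constructor
    · rintro ⟨t, ht, _, ⟨x, hx, rfl⟩, rfl⟩
      exact ⟨t, ht, _, ⟨act g x, hx, rfl⟩, by simp [act]⟩
    · rintro ⟨t, ht, _, ⟨x, hx, rfl⟩, h⟩
      refine ⟨t, ht, _, ⟨act g.symm x, ?_, rfl⟩, ?_⟩
      · rwa [show act g (act g.symm x) = x from (actE g).right_inv x]
      · apply g.injective
        rw [← h]
        simp [act]
  exact this.smul_measure _

lemma int_act (g : E ≃ₗᵢ[ℝ] E) (F : S → ℝ) : ∫ x, F (act g x) ∂nu = ∫ x, F x ∂nu :=
  (act_mp g).integral_comp (actE g).toMeasurableEquiv.measurableEmbedding F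

lemma cint {F : S → ℝ} (hF : Continuous F) : Integrable F nu :=
  hF.integrable_of_hasCompactSupport (HasCompactSupport.of_compactSpace F)

lemma cap (x : E) (hx : ‖x‖ = 1) (r : ℝ) (hr : 0 < r) (hr1 : r ≤ 1) (A : Set S)
    (hA : MeasurableSet A) (h : ∀ y ∈ A, dist (y : E) x ≤ r) : nu.real A ≤ 24 * r ^ 2 := by
  have hsub : Ioo (0 : ℝ) 1 • ((↑) '' A : Set E) ⊆
      ⋃ j ∈ Finset.range (⌊1 / r⌋₊ + 1), closedBall (((j : ℝ) * r) • x) (2 * r) := by
    rintro _ ⟨t, ht, _, ⟨y, hy, rfl⟩, rfl⟩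
    simp only [mem_iUnion, Finset.mem_range]
    refine ⟨⌊t / r⌋₊, Nat.lt_succ_of_le (Nat.floor_le_floor (by gcongr; exact ht.2.le)), ?_⟩
    rw [mem_closedBall, dist_eq_norm]
    have e : t • (y : E) - ((⌊t / r⌋₊ : ℝ) * r) • x =
        t • ((y : E) - x) + (t - (⌊t / r⌋₊ : ℝ) * r) • x := by
      rw [smul_sub, sub_smul]; abel
    have h1 := h y hy
    rw [dist_eq_norm] at h1
    have h2 := Nat.floor_le (div_pos ht.1 hr).le
    have h3 := Nat.lt_floor_add_one (t / r)
    rw [le_div_iff₀ hr] at h2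
    rw [div_lt_iff₀ hr] at h3
    change ‖t • (y : E) - _‖ ≤ _
    rw [e]
    refine (norm_add_le _ _).trans ?_
    rw [norm_smul, norm_smul, hx, Real.norm_of_nonneg ht.1.le, Real.norm_of_nonneg (by linarith)]
    nlinarith [ht.1, ht.2, norm_nonneg ((y : E) - x)]
  have h1 : volume (Ioo (0 : ℝ) 1 • ((↑) '' A : Set E)) ≤
      ENNReal.ofReal (24 * r ^ 2) * volume (ball (0 : E) 1) := by
    refine (measure_mono hsub).trans ((measure_biUnion_finset_le _ _).trans ?_)
    simp only [Measure.addHaar_closedBall _ _ (show 0 ≤ 2 * r by linarith), Finset.sum_const,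
      Finset.card_range, nsmul_eq_mul, finrank_euclideanSpace, Fintype.card_fin]
    rw [← mul_assoc]
    gcongr
    rw [← ENNReal.ofReal_natCast, ← ENNReal.ofReal_mul (Nat.cast_nonneg _)]
    refine ENNReal.ofReal_le_ofReal ?_
    have h2 := Nat.floor_le (show 0 ≤ 1 / r by positivity)
    rw [le_div_iff₀ hr] at h2
    push_cast
    nlinarith [sq_nonneg r, mul_le_mul_of_nonneg_left h2 (sq_nonneg r),
      mul_le_mul_of_nonneg_left hr1 (sq_nonneg r)]
  refine ENNReal.toReal_le_of_le_ofReal (by positivity) ?_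
  rw [nu, Measure.smul_apply, smul_eq_mul, mu0_univ, mu0, Measure.toSphere_apply' _ hA]
  simp only [finrank_euclideanSpace, Fintype.card_fin, Nat.cast_ofNat]
  calc _ ≤ (3 * volume (ball (0 : E) 1))⁻¹ *
        (3 * (ENNReal.ofReal (24 * r ^ 2) * volume (ball (0 : E) 1))) := by gcongr
    _ = (3 * volume (ball (0 : E) 1))⁻¹ * (3 * volume (ball (0 : E) 1)) *
        ENNReal.ofReal (24 * r ^ 2) := by ring
    _ = _ := by
      rw [ENNReal.inv_mul_cancel (mul_ne_zero (by norm_num) vb_ne)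
        (ENNReal.mul_ne_top (by norm_num) vb_top), one_mul]

noncomputable def e0 (k : Fin 3) : E := EuclideanSpace.single k 1

noncomputable def mm : ℝ := ∫ x : S, ⟪e0 0, (x : E)⟫ ^ 14 ∂nu

lemma mom_unit (a : E) (ha : ‖a‖ = 1) : ∫ x : S, ⟪a, (x : E)⟫ ^ 14 ∂nu = mm := by
  have h : ‖e0 0‖ = ‖a‖ := by simp [e0, ha]
  have h1 := Submodule.reflection_sub h
  generalize Submodule.reflection (ℝ ∙ (e0 0 - a))ᗮ = g at h1
  rw [mm, ← int_act g]
  subst h1
  simp only [act, LinearIsometryEquiv.inner_map_map]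

lemma mom (a : E) : ∫ x : S, ⟪a, (x : E)⟫ ^ 14 ∂nu = (‖a‖ ^ 2) ^ 7 * mm := by
  by_cases ha : a = 0
  · simp [ha]
  · have h0 : ‖a‖ ≠ 0 := norm_ne_zero_iff.2 ha
    rw [← mom_unit (‖a‖⁻¹ • a) (by rw [norm_smul, norm_inv, norm_norm, inv_mul_cancel₀ h0]),
      ← integral_const_mul]
    congr 1
    funext x
    rw [real_inner_smul_left]
    field_simp

lemma sumsq (x : E) : ‖x‖ ^ 2 = x 0 ^ 2 + x 1 ^ 2 + x 2 ^ 2 := by
  rw [EuclideanSpace.norm_sq_eq, Fin.sum_univ_three]
  simp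

lemma inn (x y : E) : ⟪x, y⟫ = x 0 * y 0 + x 1 * y 1 + x 2 * y 2 := by
  simp [PiLp.inner_apply, Fin.sum_univ_three, mul_comm]

lemma icont (a : E) (n : ℕ) : Continuous (fun x : S => ⟪a, (x : E)⟫ ^ n) := by fun_prop

lemma mm_pos : 0 < mm := by
  have h1 : ∫ x : S, (⟪e0 0, (x : E)⟫ ^ 14 + ⟪e0 1, (x : E)⟫ ^ 14 + ⟪e0 2, (x : E)⟫ ^ 14) ∂nu =
      3 * mm := by
    rw [integral_add (cint (by fun_prop)) (cint (icont _ _)),
      integral_add (cint (icont _ _)) (cint (icont _ _)), mom_unit _ (by simp [e0]),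
      mom_unit _ (by simp [e0]), mom_unit _ (by simp [e0])]
    ring
  have h2 : ∫ _ : S, ((1 : ℝ) / 3) ^ 7 ∂nu ≤
      ∫ x : S, (⟪e0 0, (x : E)⟫ ^ 14 + ⟪e0 1, (x : E)⟫ ^ 14 + ⟪e0 2, (x : E)⟫ ^ 14) ∂nu := by
    refine integral_mono (integrable_const _)
      (cint (((icont _ _).add (icont _ _)).add (icont _ _))) fun x => ?_
    have h := sumsq x
    rw [nS] at h
    simp only [e0, EuclideanSpace.inner_single_left, map_one, one_mul]
    have k : ∀ t : ℝ, 1 / 3 ≤ t ^ 2 → ((1 : ℝ) / 3) ^ 7 ≤ t ^ 14 := fun t ht => by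
      rw [show t ^ 14 = (t ^ 2) ^ 7 by ring]; gcongr
    have p : ∀ t : ℝ, 0 ≤ t ^ 14 := fun t => by positivity
    by_cases a : 1 / 3 ≤ (x : E) 0 ^ 2
    · linarith [k _ a, p ((x : E) 1), p ((x : E) 2)]
    · by_cases b : 1 / 3 ≤ (x : E) 1 ^ 2
      · linarith [k _ b, p ((x : E) 0), p ((x : E) 2)]
      · linarith [k ((x : E) 2) (by linarith), p ((x : E) 0), p ((x : E) 1)]
  rw [h1] at h2
  simp only [integral_const, probReal_univ, smul_eq_mul] at h2
  linarith [show (0 : ℝ) < (1 / 3) ^ 7 by positivity]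

noncomputable def wt : Fin 7 → ℝ := ![-184297 / 99632332800, 40987 / 18681062400, -135073 / 99632332800, 2363 / 4670265600, -1399 / 11955879936, 101 / 6227020800, -311 / 298896998400]

lemma pol1 (A B : ℝ) : A ^ 7 * B ^ 7 = ∑ i : Fin 7, wt i *
    ((((i : ℕ) + 1 : ℝ) * A + B) ^ 14 - (-((i : ℕ) + 1 : ℝ) * A + B) ^ 14) := by
  simp [Fin.sum_univ_seven, wt]
  ring

lemma pol2 (α β τ : ℝ) : ∑ i : Fin 7, wt i *
    ((((i : ℕ) + 1 : ℝ) ^ 2 * α + 2 * ((i : ℕ) + 1 : ℝ) * τ + β) ^ 7 -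
      ((-((i : ℕ) + 1 : ℝ)) ^ 2 * α + 2 * (-((i : ℕ) + 1 : ℝ)) * τ + β) ^ 7) =
    kk (α * β) 1 τ / 429 := by
  simp [Fin.sum_univ_seven, wt, kk]
  ring

lemma mom2 (a b : E) : ∫ x : S, ⟪a, (x : E)⟫ ^ 7 * ⟪b, (x : E)⟫ ^ 7 ∂nu =
    mm / 429 * kk (‖a‖ ^ 2 * ‖b‖ ^ 2) 1 ⟪a, b⟫ := by
  have e : ∀ (s : ℝ) (x : S), s * ⟪a, (x : E)⟫ + ⟪b, (x : E)⟫ = ⟪s • a + b, (x : E)⟫ := by
    intro s x; rw [inner_add_left, real_inner_smul_left]
  have e2 : ∀ s : ℝ, ‖s • a + b‖ ^ 2 = s ^ 2 * ‖a‖ ^ 2 + 2 * s * ⟪a, b⟫ + ‖b‖ ^ 2 := by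
    intro s
    rw [norm_add_sq_real, norm_smul, real_inner_smul_left, mul_pow, Real.norm_eq_abs, sq_abs]
    ring
  simp only [pol1, e]
  rw [integral_finsetSum _ fun i _ => cint (by fun_prop)]
  simp only [integral_const_mul, integral_sub (cint (icont _ _)) (cint (icont _ _)), mom, e2]
  rw [div_mul_eq_mul_div, mul_div_assoc, ← pol2, Finset.mul_sum]
  exact Finset.sum_congr rfl fun i _ => by ring

noncomputable def rf (u : S) : E ≃ₗᵢ[ℝ] E := Submodule.reflection (ℝ ∙ (u : E))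

lemma rf_apply (u : S) (v : E) : rf u v = (2 * ⟪(u : E), v⟫) • (u : E) - v := by
  rw [rf, Submodule.reflection_singleton_apply, nS]
  simp [two_smul, two_mul, add_smul]

lemma rf_rf (u : S) (v : E) : rf u (rf u v) = v := Submodule.reflection_reflection _ v

noncomputable def vec (a : D4) : E := !₂[(a.2.1 : ℝ), a.2.2.1, a.2.2.2]

noncomputable def f0 (x : E) : ℝ := (dat.map (fun a => (a.1 : ℝ) * ⟪vec a, x⟫ ^ 7)).sum

lemma f0_cont : Continuous f0 := by
  unfold f0
  refine continuous_list_sum _ fun a _ => ?_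
  fun_prop

lemma f0_neg (x : E) : f0 (-x) = - f0 x := by
  unfold f0
  rw [← neg_one_mul, ← List.sum_map_mul_left]
  congr 1
  refine List.map_congr_left fun a _ => ?_
  rw [inner_neg_right]
  ring

lemma int_list {α : Type} (F : α → S → ℝ) (hF : ∀ a, Continuous (F a)) (l : List α) :
    ∫ x, (l.map (fun a => F a x)).sum ∂nu = (l.map (fun a => ∫ x, F a x ∂nu)).sum := by
  induction l with
  | nil => simp
  | cons a l ih =>
    simp only [List.map_cons, List.sum_cons]
    rw [integral_add (cint (hF a)) (cint (continuous_list_sum _ fun a _ => hF a)), ih]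

lemma int_f0 : ∫ x : S, f0 x ∂nu = 0 := by
  have := int_act (LinearIsometryEquiv.neg ℝ) (fun x : S => f0 x)
  simp only [act, LinearIsometryEquiv.coe_neg, f0_neg, integral_neg] at this
  linarith

lemma vec_inner (a b : D4) : ⟪vec a, vec b⟫ = (dot a b : ℤ) := by
  rw [inn]; simp [vec, dot]

lemma int_f0_f0 (u : S) : ∫ x : S, f0 x * f0 (rf u x) ∂nu ≤ -(mm / 429) := by
  have e : ∀ x : S, f0 x * f0 (rf u x) = (dat.map (fun a => (dat.map (fun b =>
      ((a.1 * b.1 : ℤ) : ℝ) * (⟪vec a, (x : E)⟫ ^ 7 * ⟪rf u (vec b), (x : E)⟫ ^ 7))).sum)).sum := by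
    intro x
    conv_lhs => rw [f0, ← List.sum_map_mul_right]
    congr 1
    refine List.map_congr_left fun a _ => ?_
    rw [f0, ← List.sum_map_mul_left]
    congr 1
    refine List.map_congr_left fun b _ => ?_
    have : ⟪vec b, rf u x⟫ = ⟪rf u (vec b), (x : E)⟫ := by
      rw [← (rf u).inner_map_map, rf_rf]
    rw [this]
    push_cast
    ring
  simp only [e]
  rw [int_list _ (fun a => continuous_list_sum _ fun b _ => by fun_prop)]
  have e2 : ∀ a : D4, ∫ x : S, (dat.map (fun b =>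
      ((a.1 * b.1 : ℤ) : ℝ) * (⟪vec a, (x : E)⟫ ^ 7 * ⟪rf u (vec b), (x : E)⟫ ^ 7))).sum ∂nu =
      mm / 429 * (dat.map (fun b => term a b ((u : E) 0) ((u : E) 1) ((u : E) 2))).sum := by
    intro a
    rw [int_list _ (fun b => by fun_prop),
      ← List.sum_map_mul_left]
    congr 1
    refine List.map_congr_left fun b _ => ?_
    rw [integral_const_mul, mom2, term, ← sumsq, nS, (rf u).norm_map,
      ← real_inner_self_eq_norm_sq, ← real_inner_self_eq_norm_sq, vec_inner, vec_inner, rf_apply,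
      inner_sub_right, real_inner_smul_right, vec_inner, mul_left_comm]
    congr 3
    · push_cast; ring
    · norm_num
    · simp only [inn, lin]
      simp [vec]
      ring
  simp only [e2]
  rw [List.sum_map_mul_left]
  have := Psi_le ((u : E) 0) ((u : E) 1) ((u : E) 2)
  rw [← sumsq, nS] at this
  have h := mm_pos
  change mm / 429 * Psi _ _ _ ≤ _
  nlinarith

lemma classify (g : E ≃ₗᵢ[ℝ] E) (h1 : g ≠ LinearIsometryEquiv.refl ℝ E) (h2 : ∀ x, g (g x) = x)
    (h3 : LinearMap.det (g.toLinearEquiv : E →ₗ[ℝ] E) = 1) : ∃ u : S, ∀ x, g x = rf u x := by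
  let K : Submodule ℝ E := LinearMap.ker ((g.toLinearEquiv : E →ₗ[ℝ] E) - LinearMap.id)
  have hK : ∀ x, x ∈ K ↔ g x = x := fun x => by
    simp [K, LinearMap.mem_ker, sub_eq_zero]
  have hg : ∀ x, g x = K.reflection x := by
    intro x
    have a1 : x + g x ∈ K := by rw [hK, map_add, h2, add_comm]
    have a2 : x - g x ∈ Kᗮ := by
      rw [Submodule.mem_orthogonal]
      intro y hy
      rw [inner_sub_right, ← g.inner_map_map y (g x), h2, (hK y).1 hy, sub_self]
    have a3 := Submodule.reflection_mem_subspace_eq_self a1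
    have a4 := Submodule.reflection_mem_subspace_orthogonalComplement_eq_neg a2
    rw [map_add] at a3
    rw [map_sub] at a4
    have : (2 : ℝ) • K.reflection x = (2 : ℝ) • g x := by
      rw [two_smul, two_smul]
      calc _ = (K.reflection x + K.reflection (g x)) + (K.reflection x - K.reflection (g x)) := by
            abel
        _ = _ := by rw [a3, a4]; abel
    exact (smul_right_injective E two_ne_zero this).symm
  have hd : (g.toLinearEquiv : E →ₗ[ℝ] E) = K.reflection.toLinearMap := LinearMap.ext hg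
  rw [hd, Submodule.det_reflection] at h3
  have hs := Submodule.finrank_add_finrank_orthogonal K
  rw [finrank_euclideanSpace, Fintype.card_fin] at hs
  have h0 : Module.finrank ℝ Kᗮ ≠ 0 := by
    intro h
    rw [Submodule.finrank_eq_zero, Submodule.orthogonal_eq_bot_iff] at h
    exact h1 (LinearIsometryEquiv.ext fun x => (hK x).1 (h ▸ Submodule.mem_top))
  have he : Even (Module.finrank ℝ Kᗮ) := (neg_one_pow_eq_one_iff_even (by norm_num)).1 h3
  have hk1 : Module.finrank ℝ K = 1 := by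
    obtain ⟨m, hm⟩ := he
    omega
  obtain ⟨v, hv0, hv⟩ := finrank_eq_one_iff'.1 hk1
  have hv1 : (v : E) ≠ 0 := fun h => hv0 (Subtype.ext h)
  have h0 : ‖(v : E)‖ ≠ 0 := norm_ne_zero_iff.2 hv1
  refine ⟨⟨‖(v : E)‖⁻¹ • (v : E), by
    rw [mem_sphere_zero_iff_norm, norm_smul, norm_inv, norm_norm, inv_mul_cancel₀ h0]⟩,
    fun x => ?_⟩
  have : K = ℝ ∙ (‖(v : E)‖⁻¹ • (v : E)) := by
    rw [Submodule.span_singleton_smul_eq (IsUnit.mk0 _ (inv_ne_zero h0))]
    refine le_antisymm (fun y hy => ?_) ((Submodule.span_singleton_le_iff_mem _ _).2 v.2)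
    obtain ⟨c, hc⟩ := hv ⟨y, hy⟩
    exact Submodule.mem_span_singleton.2 ⟨c, congrArg Subtype.val hc⟩
  rw [hg, rf]
  congr 2

end Pool.Agent.H14.Hs
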