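import Pool.Agent.H14.Hs2
import Pool.Agent.H14.Hs3
set_option autoImplicit false
set_option maxHeartbeats 400000

namespace Pool.Agent.H14.Hs
open MeasureTheory Metric Finset
open scoped RealInnerProductSpace

noncomputable def fi (τ : ℝ) (x : E) (k : Fin 3) : ℤ := ⌊x k / τ⌋
noncomputable def co (τ : ℝ) (M j : ℤ) (x : E) : Fin 3 → ℤ := fun k => (fi τ x k - j) / M

lemma fi_meas (τ : ℝ) (k : Fin 3) : Measurable (fun x : E => fi τ x k) :=
  (by fun_prop : Continuous fun x : E => x k / τ).measurable.floor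

lemma co_meas (τ : ℝ) (M j : ℤ) : Measurable (co τ M j) :=
  measurable_pi_lambda _ fun k =>
    (measurable_of_countable (fun n : ℤ => (n - j) / M)).comp (fi_meas τ k)

lemma dist_coord (x y : E) (r : ℝ) (h : ∀ k, |x k - y k| ≤ r) : dist x y ≤ 2 * r := by
  have h0 : 0 ≤ r := (abs_nonneg _).trans (h 0)
  have e := sumsq (x - y)
  simp only [PiLp.sub_apply] at e
  have a : ∀ k, (x k - y k) ^ 2 ≤ r ^ 2 := fun k => sq_le_sq' (abs_le.1 (h k)).1 (abs_le.1 (h k)).2
  rw [dist_eq_norm]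
  refine (pow_le_pow_iff_left₀ (norm_nonneg _) (by linarith) two_ne_zero).1 ?_
  nlinarith [a 0, a 1, a 2, sq_nonneg r]

lemma co_dist {τ : ℝ} (hτ : 0 < τ) {M j : ℤ} (hM : 0 < M) {x y : E}
    (h : co τ M j x = co τ M j y) : dist x y ≤ 2 * (M * τ) := by
  have key : ∀ x y : E, co τ M j x = co τ M j y → ∀ k, x k - y k ≤ M * τ := by
    intro x y h k
    have h1 : (fi τ x k - j) / M = (fi τ y k - j) / M := congrFun h k
    have a1 := Int.emod_add_mul_ediv (fi τ x k - j) M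
    have a2 := Int.emod_add_mul_ediv (fi τ y k - j) M
    have a3 := Int.emod_lt_of_pos (fi τ x k - j) hM
    have a4 := Int.emod_nonneg (fi τ y k - j) hM.ne'
    rw [h1] at a1
    have a5 : fi τ x k + 1 ≤ fi τ y k + M := by linarith
    have a6 : (fi τ x k : ℝ) + 1 ≤ fi τ y k + M := by exact_mod_cast a5
    have b1 : x k / τ < fi τ x k + 1 := Int.lt_floor_add_one _
    have b2 : (fi τ y k : ℝ) ≤ y k / τ := Int.floor_le _
    have b3 : (x k - y k) / τ ≤ M := by rw [sub_div]; linarith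
    rwa [div_le_iff₀ hτ] at b3
  refine dist_coord _ _ _ fun k => abs_le.2 ⟨?_, key x y h k⟩
  linarith [key y x h.symm k]

lemma div_same (a b M : ℤ) (hM : 0 < M) (h1 : b ≤ a + 1) (h2 : a ≤ b + 1) (h0 : a % M ≠ 0)
    (h3 : (a + 1) % M ≠ 0) : b / M = a / M := by
  have a1 := Int.emod_add_mul_ediv a M
  have a3 := Int.emod_lt_of_pos a hM
  have a4 := Int.emod_nonneg a hM.ne'
  have a5 : a % M + 1 ≠ M := by
    intro h
    apply h3
    rw [show a + 1 = M * (a / M + 1) by linarith]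
    exact Int.mul_emod_right _ _
  refine ((Int.ediv_emod_unique (r := a % M + (b - a)) hM).2 ⟨by linarith, ?_, ?_⟩).1 <;> omega

lemma fi_near {τ : ℝ} (hτ : 0 < τ) {x y : E} (h : dist x y ≤ τ) (k : Fin 3) :
    fi τ y k ≤ fi τ x k + 1 := by
  have h1 : |(y - x) k| ≤ τ := by
    rw [dist_comm, dist_eq_norm] at h
    exact (PiLp.norm_apply_le (y - x) k).trans h
  simp only [PiLp.sub_apply] at h1
  rw [fi, fi, ← Int.floor_add_one]
  refine Int.floor_mono ?_
  rw [div_add_one hτ.ne']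
  gcongr
  linarith [(abs_le.1 h1).2]

def TT (τ : ℝ) (M j : ℤ) : Set S :=
  ⋃ p : Fin 3 × Fin 2, {x | (fi τ x p.1 + (p.2 : ℕ) - j) % M = 0}

lemma res_meas (n : S → ℤ) (hn : Measurable n) (M j : ℤ) :
    MeasurableSet {x | (n x - j) % M = 0} :=
  hn (MeasurableSet.of_discrete (s := {n : ℤ | (n - j) % M = 0}))

lemma fi_meas' (τ : ℝ) (p : Fin 3 × Fin 2) : Measurable (fun x : S => fi τ x p.1 + (p.2 : ℕ)) :=
  ((fi_meas τ p.1).comp measurable_subtype_coe).add_const _

lemma TT_meas (τ : ℝ) (M j : ℤ) : MeasurableSet (TT τ M j) :=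
  MeasurableSet.iUnion fun p => res_meas _ (fi_meas' τ p) M j

lemma co_same {τ : ℝ} (hτ : 0 < τ) {M j : ℤ} (hM : 0 < M) {x : S} {y : E} (hx : x ∉ TT τ M j)
    (h : dist (x : E) y ≤ τ) : co τ M j y = co τ M j x := by
  funext k
  simp only [TT, Set.mem_iUnion, Set.mem_setOf_eq, not_exists] at hx
  have h0 := hx (k, 0)
  have h1 := hx (k, 1)
  have a1 := fi_near hτ h k
  have a2 := fi_near hτ (dist_comm (x : E) y ▸ h) k
  refine div_same _ _ _ hM (by linarith) (by linarith) (by simpa using h0) ?_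
  rw [show fi τ x k - j + 1 = fi τ x k + 1 - j by ring]
  simpa using h1

lemma res_sum (n : S → ℤ) (hn : Measurable n) (M : ℕ) :
    ∑ j ∈ range M, nu.real {x | (n x - (j : ℕ)) % (M : ℤ) = 0} ≤ 1 := by
  rw [← measureReal_biUnion_finset _ (fun j _ => res_meas n hn _ _)]
  · exact measureReal_le_one
  · intro i hi j hj hij
    refine Set.disjoint_left.2 fun x h1 h2 => hij ?_
    simp only [coe_range, Set.mem_Iio, Set.mem_setOf_eq] at hi hj h1 h2
    have a := Int.dvd_sub (Int.dvd_of_emod_eq_zero h1) (Int.dvd_of_emod_eq_zero h2)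
    have b := Int.eq_zero_of_dvd_of_natAbs_lt_natAbs a (by omega)
    omega

lemma exists_shift (τ : ℝ) (M : ℕ) (hM : 0 < M) : ∃ j : ℤ, nu.real (TT τ M j) ≤ 6 / M := by
  have h1 : ∑ j ∈ range M, nu.real (TT τ M (j : ℕ)) ≤ ∑ _j ∈ range M, (6 / M : ℝ) := by
    refine (Finset.sum_le_sum fun j _ => measureReal_iUnion_fintype_le _).trans ?_
    rw [Finset.sum_comm]
    refine (Finset.sum_le_sum fun p _ => res_sum _ (fi_meas' τ p) M).trans (le_of_eq ?_)
    have : (M : ℝ) ≠ 0 := by positivity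
    simp only [sum_const, card_univ, Fintype.card_prod, Fintype.card_fin, card_range, nsmul_eq_mul]
    field_simp
    norm_num
  obtain ⟨j, -, hj⟩ := Finset.exists_le_of_sum_le (nonempty_range_iff.2 hM.ne') h1
  exact ⟨j, hj⟩

noncomputable def ZZ (τ : ℝ) (M j : ℤ) : Finset (Fin 3 → ℤ) :=
  (Fintype.piFinset (fun _ : Fin 3 => Icc (-⌈1 / τ⌉) ⌈1 / τ⌉)).image (fun n k => (n k - j) / M)

lemma co_mem {τ : ℝ} (hτ : 0 < τ) (M j : ℤ) (x : S) : co τ M j x ∈ ZZ τ M j := by
  refine mem_image.2 ⟨fi τ x, Fintype.mem_piFinset.2 fun k => ?_, rfl⟩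
  have h1 : |(x : E) k| ≤ 1 := (PiLp.norm_apply_le (x : E) k).trans (nS x).le
  have h2 := abs_le.1 h1
  rw [mem_Icc, fi]
  constructor
  · rw [← Int.floor_neg]
    refine Int.floor_mono ?_
    rw [← neg_div]
    gcongr
    exact h2.1
  · refine (Int.floor_le_ceil _).trans (Int.ceil_mono ?_)
    gcongr
    exact h2.2

lemma ZZ_card {τ : ℝ} (hτ : 0 < τ) (M j : ℤ) : ((ZZ τ M j).card : ℝ) ≤ (2 / τ + 3) ^ 3 := by
  have h1 : (ZZ τ M j).card ≤ (⌈1 / τ⌉ + 1 - -⌈1 / τ⌉).toNat ^ 3 := by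
    refine card_image_le.trans (le_of_eq ?_)
    simp [Fintype.card_piFinset]
  have h0 : 0 ≤ ⌈1 / τ⌉ := Int.ceil_nonneg (by positivity)
  have h2 : (((⌈1 / τ⌉ + 1 - -⌈1 / τ⌉).toNat : ℤ) : ℝ) ≤ 2 / τ + 3 := by
    rw [Int.toNat_of_nonneg (by omega)]
    push_cast
    have := Int.ceil_lt_add_one (1 / τ)
    rw [show 2 / τ = 2 * (1 / τ) by ring]
    linarith
  calc ((ZZ τ M j).card : ℝ) ≤ (((⌈1 / τ⌉ + 1 - -⌈1 / τ⌉).toNat : ℕ) : ℝ) ^ 3 := by
        exact_mod_cast h1
    _ ≤ _ := by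
        gcongr
        exact_mod_cast h2

lemma rf_lip (u v x : S) : dist (rf u x) (rf v x) ≤ 4 * dist (u : E) v := by
  rw [dist_eq_norm, dist_eq_norm, rf_apply, rf_apply]
  have e : (2 * ⟪(u : E), (x : E)⟫) • (u : E) - x - ((2 * ⟪(v : E), (x : E)⟫) • (v : E) - x) =
      (2 * ⟪(u : E) - v, (x : E)⟫) • (u : E) + (2 * ⟪(v : E), (x : E)⟫) • ((u : E) - v) := by
    rw [inner_sub_left, mul_sub, sub_smul, smul_sub]; abel
  rw [e]
  refine (norm_add_le _ _).trans ?_
  rw [norm_smul, norm_smul, nS, Real.norm_eq_abs, Real.norm_eq_abs, abs_mul, abs_mul, abs_two]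
  have h1 := abs_real_inner_le_norm ((u : E) - v) x
  have h2 := abs_real_inner_le_norm (v : E) x
  rw [nS] at h1
  rw [nS, nS] at h2
  nlinarith [norm_nonneg ((u : E) - v)]

lemma near_axis (u x : S) (r : ℝ) (h : dist (x : E) (rf u x) ≤ r) :
    dist (x : E) u ≤ r ∨ dist (x : E) (-(u : E)) ≤ r := by
  have h0 : 0 ≤ r := dist_nonneg.trans h
  rw [dist_eq_norm, rf_apply] at h
  have h1 := pow_le_pow_left₀ (norm_nonneg _) h 2
  rw [show (x : E) - ((2 * ⟪(u : E), (x : E)⟫) • (u : E) - x) =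
    (2 : ℝ) • ((x : E) - ⟪(u : E), (x : E)⟫ • (u : E)) by
      module, norm_smul, mul_pow, norm_sub_sq_real, norm_smul,
      real_inner_smul_right, real_inner_comm, nS, nS, Real.norm_eq_abs, Real.norm_eq_abs, mul_one,
      sq_abs, sq_abs, real_inner_comm] at h1
  have h2 := abs_le.1 ((abs_real_inner_le_norm (u : E) x).trans (by rw [nS, nS, one_mul]))
  rw [dist_eq_norm, dist_eq_norm, sub_neg_eq_add]
  by_cases ht : 0 ≤ ⟪(u : E), (x : E)⟫
  · left
    refine (pow_le_pow_iff_left₀ (norm_nonneg _) h0 two_ne_zero).1 ?_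
    rw [norm_sub_sq_real, real_inner_comm, nS, nS]
    nlinarith
  · right
    refine (pow_le_pow_iff_left₀ (norm_nonneg _) h0 two_ne_zero).1 ?_
    rw [norm_add_sq_real, real_inner_comm, nS, nS]
    nlinarith

lemma real_eq (P : S → Prop) [DecidablePred P] (hP : MeasurableSet {x | P x}) :
    nu.real {x | P x} = ∫ x, (if P x then (1 : ℝ) else 0) ∂nu ∧
      Integrable (fun x => if P x then (1 : ℝ) else 0) nu := by
  have e : (fun x => if P x then (1 : ℝ) else 0) = {x | P x}.indicator 1 := by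
    funext x
    by_cases h : P x <;> simp [h]
  rw [e, integral_indicator_one hP]
  exact ⟨rfl, (integrable_const (1 : ℝ)).indicator hP⟩

def sg (b : Bool) : ℝ := if b then 1 else -1

lemma main_int (f : S → ℝ) (hf : Continuous f) (h0 : ∫ x, f x ∂nu = 0) (g : E ≃ₗᵢ[ℝ] E)
    (b : Bool) : ∫ x, (1 + sg b * f x) / 2 * ((1 + sg b * f (act g x)) / 2) ∂nu =
      1 / 4 + 1 / 4 * ∫ x, f x * f (act g x) ∂nu := by
  have hη : sg b ^ 2 = 1 := by cases b <;> simp [sg]
  have e : ∀ x, (1 + sg b * f x) / 2 * ((1 + sg b * f (act g x)) / 2) =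
      1 / 4 + (sg b / 4 * f x + (sg b / 4 * f (act g x) + 1 / 4 * (f x * f (act g x)))) := by
    intro x
    linear_combination (1 / 4 * (f x * f (act g x))) * hη
  have c2 : Continuous (act g) := act_cont g
  simp only [e]
  rw [integral_add (integrable_const _) (cint (by fun_prop)),
    integral_add (cint (by fun_prop)) (cint (by fun_prop)),
    integral_add (cint (by fun_prop)) (cint (by fun_prop)),
    integral_const_mul, integral_const_mul, integral_const_mul, int_act g f, h0]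
  simp

end Pool.Agent.H14.Hs
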