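import Pool.Agent.H14.Hs4
set_option autoImplicit false
set_option maxHeartbeats 800000

namespace Pool.Agent.H14.Hs
open MeasureTheory Metric Finset
open scoped RealInnerProductSpace

instance : Nonempty S := ⟨⟨e0 0, by simp [e0]⟩⟩

lemma params (η δ : ℝ) (hη : 0 < η) (hδ : 0 < δ) (M : ℕ) (hM : 0 < M) :
    ∃ τ : ℝ, 0 < τ ∧ 2 * (M * τ) < δ ∧ 2 * (M * τ) ≤ 1 ∧ 2 * (24 * (2 * (M * τ)) ^ 2) ≤ η ∧
      (2 / (τ / 8) + 3) ^ 3 * 2 * Real.exp (-(η ^ 2 / (16 * (24 * (2 * (M * τ)) ^ 2)))) < 1 := by
  have hM' : (1 : ℝ) ≤ M := by exact_mod_cast hM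
  set A := η ^ 2 / (1536 * M ^ 2) with hA
  have hA0 : 0 < A := by positivity
  obtain ⟨τ, h0, h⟩ := exists_between (show 0 < min (min (δ / (2 * M)) (1 / (2 * M)))
    (min (η / (192 * M)) (A ^ 2 / 27436)) by positivity)
  simp only [lt_min_iff] at h
  obtain ⟨⟨h1, h2⟩, h3, h4⟩ := h
  rw [lt_div_iff₀ (by positivity)] at h1 h2 h3 h4
  have h5 : τ ≤ 1 := by nlinarith
  have h6 : 0 < M * τ := by positivity
  refine ⟨τ, h0, by linarith, by linarith, by nlinarith, ?_⟩
  have e : η ^ 2 / (16 * (24 * (2 * (M * τ)) ^ 2)) = A / τ ^ 2 := by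
    rw [hA]; field_simp; norm_num
  rw [e, Real.exp_neg, ← div_eq_mul_inv, div_lt_one (Real.exp_pos _)]
  have a1 : (2 / (τ / 8) + 3) ^ 3 ≤ (19 / τ) ^ 3 := by
    gcongr
    rw [le_div_iff₀ h0]
    field_simp
    linarith
  have a2 := Real.quadratic_le_exp_of_nonneg (show 0 ≤ A / τ ^ 2 by positivity)
  have a3 : (19 / τ) ^ 3 * 2 < (A / τ ^ 2) ^ 2 / 2 := by
    rw [div_pow, div_pow, div_mul_eq_mul_div, div_div, div_lt_div_iff₀ (by positivity)
      (by positivity)]
    have : 0 < τ ^ 3 := by positivity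
    nlinarith [mul_lt_mul_of_pos_right h4 this]
  have a4 : 0 ≤ A / τ ^ 2 := by positivity
  linarith

lemma cap' (x : E) (hx : ‖x‖ = 1) (r : ℝ) (hr : 0 < r) (hr1 : r ≤ 1) :
    nu.real {y : S | dist (y : E) x ≤ r} ≤ 24 * r ^ 2 :=
  cap x hx r hr hr1 _ (isClosed_le (by fun_prop) continuous_const).measurableSet fun y hy => hy

theorem round (f : S → ℝ) (hf : Continuous f) (h1 : ∀ x, |f x| ≤ 1) (h0 : ∫ x, f x ∂nu = 0)
    (η : ℝ) (hη : 0 < η) (hη1 : η ≤ 1)
    (hc : ∀ u : S, ∫ x, f x * f (act (rf u) x) ∂nu ≤ -(20 * η)) :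
    ∃ c : E → Bool, Measurable c ∧ ∀ (u : S) (b : Bool),
      nu.real {x : S | c x = b ∧ c (rf u x) = b} < 1 / 4 := by
  classical
  obtain ⟨δ, hδ, hu⟩ := Metric.uniformContinuous_iff.1
    (CompactSpace.uniformContinuous_of_continuous hf) η hη
  obtain ⟨M, hM⟩ := exists_nat_gt (6 / η)
  have hM0' : (0 : ℝ) < M := lt_trans (by positivity) hM
  have hM0 : 0 < M := by exact_mod_cast hM0'
  have hMz : (0 : ℤ) < M := by exact_mod_cast hM0
  obtain ⟨τ, hτ, p1, p2, p3, p4⟩ := params η δ hη hδ M hM0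
  obtain ⟨j, hj⟩ := exists_shift τ M hM0
  have hj' : nu.real (TT τ M j) ≤ η := by
    refine hj.trans ?_
    rw [div_lt_iff₀ hη] at hM
    rw [div_le_iff₀ hM0']
    linarith
  set d := 2 * (M * τ) with hd
  have hd0 : 0 < d := by positivity
  set m := 24 * d ^ 2 with hm
  have hm0 : 0 < m := by positivity
  let π : S → ZZ τ M j := fun x => ⟨co τ M j x, co_mem hτ M j x⟩
  have πm : Measurable π := ((co_meas τ M j).comp measurable_subtype_coe).subtype_mk
  have πd : ∀ x y : S, π x = π y → dist (x : E) y ≤ d := fun x y h => by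
    have := co_dist hτ hMz (congrArg Subtype.val h)
    simpa using this
  have hms : ∀ (u : S) (P : ZZ τ M j → ZZ τ M j → Prop),
      MeasurableSet {x | P (π x) (π (act (rf u) x))} := fun u P =>
    (πm.prodMk (πm.comp (act_cont (rf u)).measurable))
      (MeasurableSet.of_discrete (s := {q : ZZ τ M j × ZZ τ M j | P q.1 q.2}))
  have hm1 : ∀ i, MeasurableSet {x | π x = i} := fun i => πm (measurableSet_singleton i)
  let r : ZZ τ M j → S := Function.invFun π
  have hr : ∀ x, π (r (π x)) = π x := fun x => Function.invFun_eq ⟨x, rfl⟩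
  have hcell : ∀ i, nu.real {x | π x = i} ≤ m := by
    intro i
    refine cap (r i) (nS _) d hd0 p2 _ (hm1 i) fun y hy => πd _ _ ?_
    have hy : π y = i := hy
    rw [← hy, hr]
  have hsum : ∑ i, nu.real {x | π x = i} = 1 := by
    have := sum_measureReal_preimage_singleton (μ := nu) (univ : Finset (ZZ τ M j)) (f := π)
      (fun i _ => hm1 i)
    rw [coe_univ, Set.preimage_univ, probReal_univ] at this
    exact this
  let w : ZZ τ M j → Bool → ℝ := fun i b => (1 + sg b * f (r i)) / 2
  have q0 : ∀ b y, 0 ≤ (1 + sg b * f y) / 2 ∧ (1 + sg b * f y) / 2 ≤ 1 := by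
    intro b y
    have := abs_le.1 (h1 y)
    cases b <;> simp only [sg] <;> constructor <;> norm_num <;> linarith [this.1, this.2]
  have w0 : ∀ i b, 0 ≤ w i b := fun i b => (q0 b _).1
  have w1 : ∀ i, w i true + w i false = 1 := fun i => by simp only [w, sg]; norm_num; ring
  have wq : ∀ b x, w (π x) b ≤ (1 + sg b * f x) / 2 + η / 2 := by
    intro b x
    have a := hu (a := r (π x)) (b := x) (lt_of_le_of_lt (πd _ _ (hr x)) p1)
    rw [Real.dist_eq] at a
    have := abs_lt.1 a
    cases b <;> simp only [w, sg] <;> norm_num <;> linarith [this.1, this.2]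
  have hρ : 0 < τ / 8 := by positivity
  let π' : S → ZZ (τ / 8) 1 0 := fun x => ⟨co (τ / 8) 1 0 x, co_mem hρ 1 0 x⟩
  let net : ZZ (τ / 8) 1 0 → S := Function.invFun π'
  have hnet : ∀ u : S, dist (net (π' u) : E) u ≤ τ / 4 := by
    intro u
    have a : π' (net (π' u)) = π' u := Function.invFun_eq ⟨u, rfl⟩
    have := co_dist hρ one_pos (congrArg Subtype.val a)
    push_cast at this
    linarith
  let G : ZZ (τ / 8) 1 0 × Bool → (ZZ τ M j → Bool) → ℝ := fun p ω =>
    nu.real {x | ω (π x) = p.2 ∧ ω (π (act (rf (net p.1)) x)) = p.2}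
  have hdiff : ∀ p (ω ω' : ZZ τ M j → Bool) i, (∀ k, k ≠ i → ω k = ω' k) →
      G p ω ≤ G p ω' + 2 * nu.real {x | π x = i} := by
    intro p ω ω' i h
    have hs : {x | ω (π x) = p.2 ∧ ω (π (act (rf (net p.1)) x)) = p.2} ⊆
        {x | ω' (π x) = p.2 ∧ ω' (π (act (rf (net p.1)) x)) = p.2} ∪
          ({x | π x = i} ∪ act (rf (net p.1)) ⁻¹' {x | π x = i}) := by
      intro x hx
      by_cases a : π x = i
      · exact Or.inr (Or.inl a)
      · by_cases a' : π (act (rf (net p.1)) x) = i
        · exact Or.inr (Or.inr a')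
        · exact Or.inl ⟨h _ a ▸ hx.1, h _ a' ▸ hx.2⟩
    refine (measureReal_mono hs).trans ((measureReal_union_le _ _).trans ?_)
    have := measureReal_union_le (μ := nu) {x | π x = i} (act (rf (net p.1)) ⁻¹' {x | π x = i})
    rw [(act_mp _).measureReal_preimage (hm1 i).nullMeasurableSet] at this
    simp only [G]
    linarith
  have hexp : ∀ p, Av w (G p) ≤ 1 / 4 - 3 * η := by
    rintro ⟨z, b⟩
    set u := net z with hu'
    have e1 := fun ω : ZZ τ M j → Bool => real_eq (fun x => ω (π x) = b ∧ ω (π (act (rf u) x)) = b)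
      (hms u (fun i k => ω i = b ∧ ω k = b))
    have e2 := real_eq (fun x => π x = π (act (rf u) x)) (hms u (fun i k => i = k))
    have e3 : Av w (G (z, b)) = ∫ x, Av w (fun ω =>
        if ω (π x) = b ∧ ω (π (act (rf u) x)) = b then (1 : ℝ) else 0) ∂nu := by
      unfold Av
      rw [integral_finsetSum _ fun ω _ => (e1 ω).2.const_mul _]
      refine Finset.sum_congr rfl fun ω _ => ?_
      rw [integral_const_mul, ← (e1 ω).1]
    have c2 : Continuous (act (rf u)) := act_cont _
    have i1 : Integrable (fun x => (1 + sg b * f x) / 2 * ((1 + sg b * f (act (rf u) x)) / 2)) nu :=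
      cint (by fun_prop)
    have i2 : Integrable (fun x => η + if π x = π (act (rf u) x) then (1 : ℝ) else 0) nu :=
      (integrable_const _).add e2.2
    have e4 : Av w (G (z, b)) ≤ ∫ x, ((1 + sg b * f x) / 2 * ((1 + sg b * f (act (rf u) x)) / 2) +
        (η + if π x = π (act (rf u) x) then (1 : ℝ) else 0)) ∂nu := by
      rw [e3]
      refine integral_mono (integrable_finsetSum _ fun ω _ => (e1 ω).2.const_mul _) (i1.add i2)
        fun x => (Av_pair w w0 w1 _ _ b).trans ?_
      have a1 := wq b x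
      have a2 := wq b (act (rf u) x)
      have a3 := q0 b x
      have a4 := q0 b (r (π (act (rf u) x)))
      have a5 := mul_le_mul_of_nonneg_right a1 a4.1
      have a6 := mul_le_mul_of_nonneg_left a2 a3.1
      simp only [w] at a5 a6 ⊢
      nlinarith [a3.2, a4.2]
    rw [integral_add i1 i2, integral_add (integrable_const _) e2.2, main_int f hf h0, ← e2.1] at e4
    have e5 : nu.real {x | π x = π (act (rf u) x)} ≤ m + m := by
      have hs : {x | π x = π (act (rf u) x)} ⊆ {x : S | dist (x : E) u ≤ d} ∪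
          {x : S | dist (x : E) (-(u : E)) ≤ d} := by
        intro x hx
        have a : π x = π (act (rf u) x) := hx
        have a' : dist (x : E) (rf u x) ≤ d := πd x (act (rf u) x) a
        exact near_axis u x d a'
      refine (measureReal_mono hs).trans ((measureReal_union_le _ _).trans (add_le_add ?_ ?_))
      · exact cap' u (nS _) d hd0 p2
      · exact cap' (-(u : E)) (by rw [norm_neg, nS]) d hd0 p2
    have e6 := hc u
    simp only [integral_const, probReal_univ, smul_eq_mul] at e4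
    linarith
  obtain ⟨ω, hω⟩ := exists_good w w0 w1 G (fun i => 2 * nu.real {x | π x = i})
    (fun p ω i b => abs_le.2 ⟨by
      linarith [hdiff p ω (Function.update ω i b) i (fun k hk => (Function.update_of_ne hk _ _).symm)],
      by linarith [hdiff p (Function.update ω i b) ω i (fun k hk => Function.update_of_ne hk _ _)]⟩)
    (η / (8 * m)) η (by positivity) (fun i => by
      rw [div_mul_eq_mul_div, div_le_one (by positivity)]
      nlinarith [hcell i, measureReal_nonneg (μ := nu) (s := {x | π x = i})]) (by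
      refine lt_of_le_of_lt ?_ p4
      have a1 : ∑ i, (2 * nu.real {x | π x = i}) ^ 2 ≤ 4 * m := by
        calc _ ≤ ∑ i, 4 * m * nu.real {x | π x = i} := Finset.sum_le_sum fun i _ => by
                nlinarith [hcell i, measureReal_nonneg (μ := nu) (s := {x | π x = i})]
          _ = _ := by rw [← Finset.mul_sum, hsum, mul_one]
      refine mul_le_mul ?_ (Real.exp_le_exp.2 ?_) (Real.exp_pos _).le (by positivity)
      · rw [Fintype.card_prod, Fintype.card_coe, Fintype.card_bool]
        push_cast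
        linarith [ZZ_card hρ 1 0]
      · have : (η / (8 * m)) ^ 2 * (4 * m) - η / (8 * m) * η = -(η ^ 2 / (16 * m)) := by
          field_simp; norm_num
        rw [← this]
        gcongr)
  refine ⟨fun x => if h : co τ M j x ∈ ZZ τ M j then ω ⟨_, h⟩ else true,
    (measurable_of_countable (fun z : Fin 3 → ℤ => if h : z ∈ ZZ τ M j then ω ⟨z, h⟩ else true)).comp
      (co_meas τ M j), fun u b => ?_⟩
  have a1 := hω (π' u, b)
  have a2 := hexp (π' u, b)
  have hs : {x : S | (if h : co τ M j x ∈ ZZ τ M j then ω ⟨_, h⟩ else true) = b ∧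
      (if h : co τ M j (rf u x) ∈ ZZ τ M j then ω ⟨_, h⟩ else true) = b} ⊆
      {x | ω (π x) = b ∧ ω (π (act (rf (net (π' u))) x)) = b} ∪
        act (rf (net (π' u))) ⁻¹' TT τ M j := by
    intro x hx
    by_cases hT : act (rf (net (π' u))) x ∈ TT τ M j
    · exact Or.inr hT
    · left
      have b1 : co τ M j (rf u x) = co τ M j (act (rf (net (π' u))) x) :=
        co_same hτ hMz hT ((rf_lip _ u x).trans (by linarith [hnet u]))
      obtain ⟨c1, c2⟩ := hx
      rw [dif_pos (co_mem hτ M j x)] at c1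
      rw [dif_pos (show co τ M j (rf u x) ∈ ZZ τ M j from co_mem hτ M j (act (rf u) x))] at c2
      refine ⟨c1, ?_⟩
      rw [← c2]
      exact congrArg ω (Subtype.ext b1.symm)
  have a3 := (measureReal_mono (μ := nu) hs).trans (measureReal_union_le _ _)
  rw [(act_mp _).measureReal_preimage (TT_meas τ M j).nullMeasurableSet] at a3
  simp only [G] at a1
  linarith

theorem final : ∃ c : E → Bool, Measurable c ∧ ∀ (u : S) (b : Bool),
    nu.real {x : S | c x = b ∧ c (rf u x) = b} < 1 / 4 := by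
  obtain ⟨C, hC⟩ := (isCompact_univ (X := S)).exists_bound_of_continuousOn
    (f := fun x : S => f0 x) (f0_cont.comp continuous_subtype_val).continuousOn
  have hC0 : 0 ≤ C := (norm_nonneg _).trans (hC (Classical.arbitrary _) trivial)
  have hm := mm_pos
  refine round (fun x => (C + 1)⁻¹ * f0 x)
    (continuous_const.mul (f0_cont.comp continuous_subtype_val)) (fun x => ?_) ?_
    (min 1 ((C + 1)⁻¹ ^ 2 * (mm / 429) / 20)) (by positivity) (min_le_left _ _) fun u => ?_
  · rw [abs_mul, abs_of_pos (by positivity), inv_mul_le_iff₀ (by positivity)]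
    have := hC x trivial
    rw [Real.norm_eq_abs] at this
    linarith
  · rw [integral_const_mul, int_f0, mul_zero]
  · have e : ∀ x : S, (C + 1)⁻¹ * f0 x * ((C + 1)⁻¹ * f0 (act (rf u) x)) =
        (C + 1)⁻¹ ^ 2 * (f0 x * f0 (rf u x)) := fun x => by simp only [act]; ring
    simp only [e]
    rw [integral_const_mul]
    have a1 := mul_le_mul_of_nonneg_left (int_f0_f0 u) (sq_nonneg (C + 1)⁻¹)
    have a2 := min_le_right 1 ((C + 1)⁻¹ ^ 2 * (mm / 429) / 20)
    linarith

end Pool.Agent.H14.Hs
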