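import Pool.Agent.H14.Rw1

set_option autoImplicit false

namespace Pool.Agent.H14.Id

open Finset SimpleGraph Pool.Agent.H14.Rw

variable {V : Type}

open Classical in
/-- ordered adjacent pairs inside `S` -/
noncomputable def ed (B : SimpleGraph V) (S : Finset V) : Finset (V × V) :=
  (S ×ˢ S).filter fun p => B.Adj p.1 p.2

lemma mem_ed {B : SimpleGraph V} {S : Finset V} {p : V × V} :
    p ∈ ed B S ↔ (p.1 ∈ S ∧ p.2 ∈ S) ∧ B.Adj p.1 p.2 := by simp [ed]

/-- small sets span forests (in the counting sense) -/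
def SP (B : SimpleGraph V) (s : ℕ) : Prop :=
  ∀ S : Finset V, S.Nonempty → S.card ≤ s → (ed B S).card + 2 ≤ 2 * S.card

lemma SP_add [Fintype V] (B : SimpleGraph V) (u v : V) (s : ℕ) (h : SP B s) (hf : v ∉ bl B s u) :
    SP (B ⊔ edge u v) s := by
  classical
  intro S hS hc
  by_cases huv : u ∈ S ∧ v ∈ S
  · let A : ℕ → Finset V := fun k => S ∩ bl B k u
    have hmono : ∀ k, A k ⊆ A (k + 1) := by
      intro k x hx
      obtain ⟨h1, h2⟩ := mem_inter.1 hx
      obtain ⟨j, hj, h3⟩ := mem_bl.1 h2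
      exact mem_inter.2 ⟨h1, mem_bl.2 ⟨j, by omega, h3⟩⟩
    have hu : ∀ k, u ∈ A k := fun k => mem_inter.2 ⟨huv.1, mem_bl.2 ⟨0, Nat.zero_le _, W.nil _ _⟩⟩
    obtain ⟨k, hk, he⟩ : ∃ k < s, A (k + 1) ⊆ A k := by
      by_contra hcon
      push Not at hcon
      have : ∀ k ≤ s, k + 1 ≤ (A k).card := by
        intro k
        induction k with
        | zero => exact fun _ => card_pos.2 ⟨u, hu 0⟩
        | succ k ih =>
          intro hk
          have := card_lt_card (⟨hmono k, hcon k (by omega)⟩ : A k ⊂ A (k + 1))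
          have := ih (by omega)
          omega
      have h1 := this s le_rfl
      have h2 : (A s).card ≤ S.card := card_le_card inter_subset_left
      omega
    have hv : v ∉ A k := by
      intro hv
      obtain ⟨j, hj, h3⟩ := mem_bl.1 (mem_inter.1 hv).2
      exact hf (mem_bl.2 ⟨j, by omega, h3⟩)
    have hcl : ∀ x ∈ A k, ∀ y ∈ S, B.Adj x y → y ∈ A k := by
      intro x hx y hy hxy
      obtain ⟨j, hj, h3⟩ := mem_bl.1 (mem_inter.1 hx).2
      exact he (mem_inter.2 ⟨hy, mem_bl.2 ⟨j + 1, by omega,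
        h3.append (W.cons hxy (W.nil _ _))⟩⟩)
    have h1 : ed (B ⊔ edge u v) S ⊆ (ed B (A k) ∪ ed B (S \ A k)) ∪ {(u, v), (v, u)} := by
      rintro ⟨x, y⟩ hp
      obtain ⟨⟨hx, hy⟩, hxy⟩ := mem_ed.1 hp
      simp only [mem_union, mem_ed, mem_sdiff, mem_insert, mem_singleton, Prod.mk.injEq]
      rcases hxy with hxy | hxy
      · left
        by_cases hxA : x ∈ A k
        · exact Or.inl ⟨⟨hxA, hcl x hxA y hy hxy⟩, hxy⟩
        · exact Or.inr ⟨⟨⟨hx, hxA⟩, hy, fun hyA => hxA (hcl y hyA x hx hxy.symm)⟩, hxy⟩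
      · rw [edge_adj] at hxy
        exact Or.inr hxy.1
    have h2 := (card_le_card h1).trans ((card_union_le _ _).trans
      (add_le_add (card_union_le _ _) card_le_two))
    have h3 : (S \ A k).card + (A k).card = S.card :=
      card_sdiff_add_card_eq_card (inter_subset_left : A k ⊆ S)
    have h4 := h (A k) ⟨u, hu k⟩ (by omega)
    have h5 := h (S \ A k) ⟨v, mem_sdiff.2 ⟨huv.2, hv⟩⟩ (by omega)
    omega
  · have : ed (B ⊔ edge u v) S ⊆ ed B S := by
      rintro ⟨x, y⟩ hp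
      obtain ⟨⟨hx, hy⟩, hxy⟩ := mem_ed.1 hp
      rcases hxy with hxy | hxy
      · exact mem_ed.2 ⟨⟨hx, hy⟩, hxy⟩
      · rw [edge_adj] at hxy
        rcases hxy.1 with ⟨rfl, rfl⟩ | ⟨rfl, rfl⟩
        · exact absurd ⟨hx, hy⟩ huv
        · exact absurd ⟨hy, hx⟩ huv
    have := card_le_card this
    have := h S hS hc
    omega

lemma exists_graph (D s : ℕ) (hD : 0 < D) (hs0 : 0 < s) : ∃ (N : ℕ) (B : SimpleGraph (Fin N)), 0 < N ∧ SP B s ∧
    D * N ≤ ∑ x, (nb B x).card := by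
  classical
  obtain ⟨b, hb⟩ : ∃ b, b = (2 * D + 1) ^ s := ⟨_, rfl⟩
  have hb0 : 0 < b := by rw [hb]; positivity
  obtain ⟨B, hB, hmax⟩ := exists_max_image
    ((univ : Finset (SimpleGraph (Fin (2 * b)))).filter fun B =>
      (∀ x, (nb B x).card ≤ 2 * D) ∧ SP B s) (fun B => ∑ x, (nb B x).card) ⟨⊥, by
    simp only [mem_filter, mem_univ, true_and]
    refine ⟨fun x => by simp [nb], fun S hS _ => ?_⟩
    have := card_pos.2 hS
    simp only [ed, bot_adj, filter_false, card_empty]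
    omega⟩
  obtain ⟨h1, h2⟩ := (mem_filter.1 hB).2
  refine ⟨2 * b, B, by omega, h2, ?_⟩
  by_contra hcon
  have hs := card_filter_add_card_filter_not (s := (univ : Finset (Fin (2 * b))))
    (fun x => (nb B x).card < 2 * D)
  have hsat : (univ.filter fun x => ¬ (nb B x).card < 2 * D).card * (2 * D) ≤
      ∑ x, (nb B x).card := by
    rw [← smul_eq_mul, ← sum_const]
    exact (sum_le_sum fun x hx => not_lt.1 (mem_filter.1 hx).2).trans
      (sum_le_sum_of_subset (filter_subset _ _))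
  simp only [card_univ, Fintype.card_fin] at hs
  have hun : b < (univ.filter fun x => (nb B x).card < 2 * D).card := by
    by_contra h3
    have : b * (2 * D) ≤ (univ.filter fun x => ¬ (nb B x).card < 2 * D).card * (2 * D) :=
      Nat.mul_le_mul_right _ (by omega)
    nlinarith
  obtain ⟨u, hu⟩ := card_pos.1 (hb0.trans hun)
  obtain ⟨v, hv, hv'⟩ := exists_mem_notMem_of_card_lt_card
    (((bl_card B _ h1 s u).trans hb.ge).trans_lt hun)
  have hu' := (mem_filter.1 hu).2
  have hv'' := (mem_filter.1 hv).2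
  have hne : u ≠ v := by
    rintro rfl
    exact hv' (mem_bl.2 ⟨0, Nat.zero_le _, W.nil _ _⟩)
  have hna : ¬ B.Adj u v := fun h => hv' (mem_bl.2 ⟨1, hs0, W.cons h (W.nil _ _)⟩)
  have h3 := hmax (B ⊔ edge u v) (mem_filter.2 ⟨mem_univ _, fun x => ?_, SP_add B u v s h2 hv'⟩)
  · refine absurd h3 (not_le.2 (sum_lt_sum (fun x _ => card_le_card fun y hy =>
      mem_nb.2 (Or.inl (mem_nb.1 hy))) ⟨u, mem_univ _, card_lt_card ⟨fun y hy =>
      mem_nb.2 (Or.inl (mem_nb.1 hy)), fun h => hna (mem_nb.1 (h (mem_nb.2 (Or.inr ?_))))⟩⟩))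
    rw [edge_adj]
    exact ⟨Or.inl ⟨rfl, rfl⟩, hne⟩
  · have : nb (B ⊔ edge u v) x ⊆ nb B x ∪ (if x = u then {v} else if x = v then {u} else ∅) := by
      intro y hy
      rcases mem_nb.1 hy with h | h
      · exact mem_union_left _ (mem_nb.2 h)
      · rw [edge_adj] at h
        rcases h.1 with ⟨rfl, rfl⟩ | ⟨rfl, rfl⟩
        · simp
        · simp [hne.symm]
    have h4 := (card_le_card this).trans (card_union_le _ _)
    have := h1 x
    split_ifs at h4 with a1 a2
    · subst a1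
      simp only [card_singleton] at h4
      omega
    · subst a2
      simp only [card_singleton] at h4
      omega
    · simpa using h4.trans (by simpa using this)

lemma classes {B : SimpleGraph V} {s : ℕ} (h : SP B s) (S : Finset V) (hS : S.card ≤ s) :
    ∃ c : V → V → Bool × Bool,
      (∀ x ∈ S, ∀ y ∈ S, ∀ y' ∈ S, B.Adj x y → B.Adj x y' → c x y = c x y' → (c x y).1 = true →
        y = y') ∧
      (∀ x ∈ S, ∀ x' ∈ S, ∀ y ∈ S, B.Adj x y → B.Adj x' y → c x y = c x' y → (c x y).1 = false →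
        x = x') := by
  classical
  obtain ⟨f, hf, hf'⟩ := (all_card_le_biUnion_card_iff_exists_injective
    (fun p : ed B S => ({p.1.1, p.1.2} : Finset V) ×ˢ (univ : Finset Bool))).1 (by
    intro F
    rcases F.eq_empty_or_nonempty with rfl | hF
    · simp
    let S' := F.image (fun p => p.1.1) ∪ F.image (fun p => p.1.2)
    have h1 : S' ⊆ S := by
      intro x hx
      rcases mem_union.1 hx with hx | hx <;> obtain ⟨p, _, rfl⟩ := mem_image.1 hx
      exacts [(mem_ed.1 p.2).1.1, (mem_ed.1 p.2).1.2]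
    have h2 := h S' (by
      obtain ⟨p, hp⟩ := hF
      exact ⟨_, mem_union_left _ (mem_image_of_mem _ hp)⟩) ((card_le_card h1).trans hS)
    have h3 : F.card ≤ (ed B S').card := by
      refine card_le_card_of_injOn Subtype.val (fun p hp => ?_) Subtype.val_injective.injOn
      exact mem_coe.2 (mem_ed.2 ⟨⟨mem_union_left _ (mem_image_of_mem _ hp),
        mem_union_right _ (mem_image_of_mem _ hp)⟩, (mem_ed.1 p.2).2⟩)
    have h4 : S' ×ˢ (univ : Finset Bool) ⊆ F.biUnion fun p : ed B S =>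
        ({p.1.1, p.1.2} : Finset V) ×ˢ (univ : Finset Bool) := by
      rintro ⟨x, i⟩ hx
      rcases mem_union.1 (mem_product.1 hx).1 with hx | hx <;>
        obtain ⟨p, hp, e⟩ := mem_image.1 hx <;> exact mem_biUnion.2 ⟨p, hp, by simp [e]⟩
    have h5 := card_le_card h4
    simp only [card_product, card_univ, Fintype.card_bool] at h5
    omega)
  refine ⟨fun x y => if h : (x, y) ∈ ed B S then
    (decide ((f ⟨(x, y), h⟩).1 = x), (f ⟨(x, y), h⟩).2) else (true, true), ?_, ?_⟩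
  · intro x hx y hy y' hy' h1 h2 e1 e2
    have a1 : (x, y) ∈ ed B S := mem_ed.2 ⟨⟨hx, hy⟩, h1⟩
    have a2 : (x, y') ∈ ed B S := mem_ed.2 ⟨⟨hx, hy'⟩, h2⟩
    simp only [dif_pos a1, dif_pos a2, Prod.mk.injEq, decide_eq_decide, decide_eq_true_eq] at e1 e2
    have := hf (Prod.ext (e2.trans (e1.1.1 e2).symm) e1.2)
    simpa using this
  · intro x hx x' hx' y hy h1 h2 e1 e2
    have a1 : (x, y) ∈ ed B S := mem_ed.2 ⟨⟨hx, hy⟩, h1⟩
    have a2 : (x', y) ∈ ed B S := mem_ed.2 ⟨⟨hx', hy⟩, h2⟩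
    simp only [dif_pos a1, dif_pos a2, Prod.mk.injEq, decide_eq_decide,
      decide_eq_false_iff_not] at e1 e2
    have b1 := (mem_product.1 (hf' ⟨_, a1⟩)).1
    have b2 := (mem_product.1 (hf' ⟨_, a2⟩)).1
    simp only [mem_insert, mem_singleton] at b1 b2
    have c1 := b1.resolve_left e2
    have c2 := b2.resolve_left fun e => e2 (e1.1.2 e)
    have := hf (Prod.ext (c1.trans c2.symm) e1.2)
    simpa using this

/-- sign of a boolean -/
def sg (b : Bool) : ℝ := if b then 1 else -1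

lemma abs_sg (b : Bool) : |sg b| = 1 := by cases b <;> simp [sg]

lemma exists_signs {N : ℕ} (a : Fin N → Fin N → ℝ) (ha : ∀ x y, a x y = 0 ∨ a x y = 1) (l : ℝ)
    (hl : 0 < l) (hE : 4 * N ≤ l ^ 2 * ∑ x, ∑ y, a x y) :
    ∃ e : Fin N × Fin N → Bool, ∀ σ τ : Fin N → Bool,
      ∑ x, ∑ y, a x y * sg (e (x, y)) * sg (σ x) * sg (τ y) ≤ l * ∑ x, ∑ y, a x y := by
  obtain ⟨E, hE'⟩ : ∃ E, E = ∑ x, ∑ y, a x y := ⟨_, rfl⟩
  rw [← hE'] at hE ⊢
  let F : (Fin N × Fin N → Bool) → (Fin N → Bool) × (Fin N → Bool) → ℝ := fun e p =>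
    Real.exp (l * ∑ x, ∑ y, a x y * sg (e (x, y)) * sg (p.1 x) * sg (p.2 y))
  have h1 : ∀ p, ∑ e, F e p ≤ ∑ _e : Fin N × Fin N → Bool, Real.exp (l ^ 2 * E / 2) := by
    intro p
    have h2 : ∀ e, F e p = ∏ z : Fin N × Fin N,
        Real.exp (l * (a z.1 z.2 * sg (e z) * sg (p.1 z.1) * sg (p.2 z.2))) := by
      intro e
      rw [← Real.exp_sum, ← mul_sum, Fintype.sum_prod_type]
    have h3 := prod_univ_sum (fun _ : Fin N × Fin N => (univ : Finset Bool))
      (fun z b => Real.exp (l * (a z.1 z.2 * sg b * sg (p.1 z.1) * sg (p.2 z.2))))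
    simp only [Fintype.piFinset_univ] at h3
    simp only [h2]
    rw [← h3]
    have h4 : ∀ z : Fin N × Fin N, ∑ b : Bool,
        Real.exp (l * (a z.1 z.2 * sg b * sg (p.1 z.1) * sg (p.2 z.2))) ≤
        2 * Real.exp (l ^ 2 * a z.1 z.2 / 2) := by
      intro z
      have h5 := Real.cosh_le_exp_half_sq (l * (a z.1 z.2 * sg (p.1 z.1) * sg (p.2 z.2)))
      rw [Real.cosh_eq] at h5
      have h6 : (l * (a z.1 z.2 * sg (p.1 z.1) * sg (p.2 z.2))) ^ 2 = l ^ 2 * a z.1 z.2 := by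
        rcases ha z.1 z.2 with h | h <;> cases p.1 z.1 <;> cases p.2 z.2 <;> simp [h, sg]
      rw [h6] at h5
      simp only [Fintype.sum_bool, sg, if_true, Bool.false_eq_true, if_false] at h5 ⊢
      simp only [mul_one, mul_neg, neg_mul] at h5 ⊢
      linarith
    refine (prod_le_prod (fun z _ => sum_nonneg fun _ _ => (Real.exp_pos _).le)
      fun z _ => h4 z).trans (le_of_eq ?_)
    rw [prod_mul_distrib, ← Real.exp_sum, ← sum_div, ← mul_sum, Fintype.sum_prod_type, ← hE']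
    simp
  have h2 := sum_le_sum fun p (_ : p ∈ univ) => h1 p
  rw [sum_comm, sum_comm (s := univ) (f := fun _ _ => Real.exp (l ^ 2 * E / 2))] at h2
  obtain ⟨e, _, he⟩ := exists_le_of_sum_le univ_nonempty h2
  refine ⟨e, fun σ τ => ?_⟩
  have h3 := (single_le_sum (f := F e) (fun p _ => (Real.exp_pos _).le) (mem_univ (σ, τ))).trans he
  simp only [sum_const, card_univ, Fintype.card_prod, Fintype.card_fun, Fintype.card_bool,
    Fintype.card_fin, nsmul_eq_mul, F] at h3
  have h4 : ((2 ^ N * 2 ^ N : ℕ) : ℝ) ≤ Real.exp (2 * N) := by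
    have h5 : (2 : ℝ) ≤ Real.exp 1 := by linarith [Real.add_one_le_exp (1 : ℝ)]
    have h6 : (2 : ℝ) ^ N ≤ Real.exp N := by
      rw [← Real.exp_one_pow]
      exact pow_le_pow_left₀ (by norm_num) h5 N
    rw [two_mul, Real.exp_add]
    push_cast
    exact mul_le_mul h6 h6 (by positivity) (by positivity)
  have h5 := h3.trans (mul_le_mul_of_nonneg_right h4 (Real.exp_pos _).le)
  rw [← Real.exp_add, Real.exp_le_exp] at h5
  refine le_of_mul_le_mul_left ?_ hl
  nlinarith

end Pool.Agent.H14.Id
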