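import Pool.Agent.H14.Id1

set_option autoImplicit false

namespace Pool.Agent.H14.Id

open Finset SimpleGraph Pool.Agent.H14.Rw

/-- bound on the cut norm -/
def Cut (N : ℕ) (e : ℕ → ℕ → ℝ) (C : ℝ) : Prop :=
  ∀ σ τ : ℕ → ℝ, (∀ x, |σ x| ≤ 1) → (∀ y, |τ y| ≤ 1) →
    ∑ x ∈ range N, ∑ y ∈ range N, e x y * σ x * τ y ≤ C

lemma Cut.swap {N : ℕ} {e : ℕ → ℕ → ℝ} {C : ℝ} (h : Cut N e C) : Cut N (fun x y => e y x) C := by
  intro σ τ h1 h2
  rw [sum_comm]
  refine le_trans (le_of_eq ?_) (h τ σ h2 h1)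
  exact sum_congr rfl fun _ _ => sum_congr rfl fun _ _ => by ring

lemma sign_le {ι : Type} (s : Finset ι) (v σ : ι → ℝ) (h : ∀ x, |σ x| ≤ 1) :
    ∑ x ∈ s, v x * σ x ≤ ∑ x ∈ s, v x * sg (decide (0 ≤ v x)) := by
  refine sum_le_sum fun x _ => ?_
  have := abs_le.1 (h x)
  by_cases h0 : 0 ≤ v x
  · simp only [h0, decide_true, sg, if_true]
    nlinarith
  · simp only [h0, decide_false, sg, Bool.false_eq_true, if_false]
    nlinarith

lemma cut_of_bool {N : ℕ} {e : ℕ → ℕ → ℝ} {C : ℝ}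
    (h : ∀ σ τ : ℕ → Bool, ∑ x ∈ range N, ∑ y ∈ range N, e x y * sg (σ x) * sg (τ y) ≤ C) :
    Cut N e C := by
  intro σ τ h1 h2
  have a1 := sign_le (range N) (fun x => ∑ y ∈ range N, e x y * τ y) σ h1
  obtain ⟨b, hb⟩ : ∃ b : ℕ → Bool, b = fun x => decide (0 ≤ ∑ y ∈ range N, e x y * τ y) := ⟨_, rfl⟩
  have a2 := sign_le (range N) (fun y => ∑ x ∈ range N, e x y * sg (b x)) τ h2
  refine le_trans (le_of_eq ?_) (a1.trans (le_trans (le_of_eq ?_) (a2.trans
    (le_trans (le_of_eq ?_) (h b fun y => decide (0 ≤ ∑ x ∈ range N, e x y * sg (b x)))))))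
  · simp only [sum_mul]
    exact sum_congr rfl fun _ _ => sum_congr rfl fun _ _ => by ring
  · simp only [sum_mul]
    rw [sum_comm, hb]
    exact sum_congr rfl fun _ _ => sum_congr rfl fun _ _ => by ring
  · simp only [sum_mul]
    rw [sum_comm]

lemma orth {M : ℕ} (a b : Fin M) :
    ∑ δ : Fin M → Bool, sg (δ a) * sg (δ b) = 2 ^ M * if a = b then 1 else 0 := by
  split_ifs with h
  · subst h
    have : ∀ δ : Fin M → Bool, sg (δ a) * sg (δ a) = 1 := fun δ => by cases δ a <;> simp [sg]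
    simp [this]
  · rw [mul_zero]
    refine sum_involution (fun δ _ => Function.update δ a (!δ a)) ?_ ?_ (fun _ _ => mem_univ _) ?_
    · intro δ _
      rw [Function.update_self, Function.update_of_ne (Ne.symm h)]
      cases δ a <;> cases δ b <;> simp [sg]
    · intro δ _ _ e
      have := congrFun e a
      simp at this
    · intro δ _
      simp

lemma Cut.part {N : ℕ} {e : ℕ → ℕ → ℝ} {C : ℝ} (h : Cut N e C) (σ τ : ℕ → ℝ)
    (h1 : ∀ x, |σ x| ≤ 1) (h2 : ∀ y, |τ y| ≤ 1) (g k : ℕ → ℕ) :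
    ∑ x ∈ range N, ∑ y ∈ range N, e x y * σ x * τ y * (if g x = k y then 1 else 0) ≤ C := by
  obtain ⟨M, hg, hk⟩ : ∃ M, (∀ x ∈ range N, g x < M + 1) ∧ ∀ x ∈ range N, k x < M + 1 := by
    refine ⟨∑ x ∈ range N, (g x + k x), fun x hx => ?_, fun x hx => ?_⟩ <;>
    · have := single_le_sum (f := fun x => g x + k x) (fun _ _ => Nat.zero_le _) hx
      omega
  have h3 : ∀ δ : Fin (M + 1) → Bool, ∑ x ∈ range N, ∑ y ∈ range N,
      e x y * (σ x * sg (δ (Fin.ofNat _ (g x)))) * (τ y * sg (δ (Fin.ofNat _ (k y)))) ≤ C :=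
    fun δ => h _ _ (fun x => by rw [abs_mul, abs_sg, mul_one]; exact h1 x)
      (fun x => by rw [abs_mul, abs_sg, mul_one]; exact h2 x)
  have h4 := sum_le_sum fun δ (_ : δ ∈ univ) => h3 δ
  simp only [sum_const, card_univ, Fintype.card_fun, Fintype.card_bool, Fintype.card_fin,
    nsmul_eq_mul] at h4
  push_cast at h4
  refine le_of_mul_le_mul_left (le_trans (le_of_eq ?_) h4) (by positivity)
  rw [mul_sum, sum_comm (s := univ)]
  refine sum_congr rfl fun x hx => ?_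
  rw [mul_sum, sum_comm (s := univ)]
  refine sum_congr rfl fun y hy => ?_
  have h5 := orth (Fin.ofNat (M + 1) (g x)) (Fin.ofNat (M + 1) (k y))
  have h6 : Fin.ofNat (M + 1) (g x) = Fin.ofNat (M + 1) (k y) ↔ g x = k y := by
    rw [Fin.ext_iff]
    simp [Nat.mod_eq_of_lt (hg x hx), Nat.mod_eq_of_lt (hk y hy)]
  simp only [h6] at h5
  calc _ = e x y * σ x * τ y * (2 ^ (M + 1) * if g x = k y then 1 else 0) := by ring
    _ = _ := by
      rw [← h5, mul_sum]
      exact sum_congr rfl fun _ _ => by ring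

lemma Cut.func {N : ℕ} {e : ℕ → ℕ → ℝ} {C : ℝ} (h : Cut N e C) (σ τ : ℕ → ℝ)
    (h1 : ∀ x, |σ x| ≤ 1) (h2 : ∀ y, |τ y| ≤ 1) (k : ℕ → ℕ) (w : ℕ → ℕ → ℝ)
    (hw : ∀ x q, |w x q| ≤ 1)
    (hf : ∀ x ∈ range N, ∀ y ∈ range N, ∀ y' ∈ range N, w x (k y) ≠ 0 → w x (k y') ≠ 0 →
      k y = k y') :
    ∑ x ∈ range N, ∑ y ∈ range N, e x y * σ x * τ y * w x (k y) ≤ C := by
  have key : ∀ x, ∃ (r : ℕ) (v : ℝ), |v| ≤ 1 ∧ (x ∈ range N → ∀ y ∈ range N,
      w x (k y) = v * if r = k y then 1 else 0) := by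
    intro x
    by_cases hx : ∃ y ∈ range N, w x (k y) ≠ 0
    · obtain ⟨y0, hy0, h0⟩ := hx
      refine ⟨k y0, w x (k y0), hw _ _, fun hx y hy => ?_⟩
      split_ifs with e1
      · rw [e1, mul_one]
      · rw [mul_zero]
        by_contra hc
        exact e1 (hf x hx y0 hy0 y hy h0 hc)
    · push Not at hx
      exact ⟨0, 0, by simp, fun _ y hy => by rw [hx y hy, zero_mul]⟩
  choose r v hv hr using key
  refine le_trans (le_of_eq ?_) (h.part (fun x => σ x * v x) τ (fun x => ?_) h2 r k)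
  · exact sum_congr rfl fun x hx => sum_congr rfl fun y hy => by rw [hr x hx y hy]; ring
  · rw [abs_mul]
    exact mul_le_one₀ (h1 x) (abs_nonneg _) (hv x)

/-- a good block -/
structure Blk (s R N : ℕ) (e : ℕ → ℕ → ℝ) : Prop where
  val : ∀ x y, e x y * e x y = |e x y|
  le : ∀ x y, |e x y| ≤ 1
  supp : ∀ x y, e x y ≠ 0 → x < N ∧ y < N
  pos : 0 < ∑ x ∈ range N, ∑ y ∈ range N, |e x y|
  cut : Cut N e ((∑ x ∈ range N, ∑ y ∈ range N, |e x y|) / R)
  cls : ∀ S : Finset ℕ, S.card ≤ s → ∃ c : ℕ → ℕ → Bool × Bool,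
    (∀ x ∈ S, ∀ y ∈ S, ∀ y' ∈ S, e x y ≠ 0 → e x y' ≠ 0 → c x y = c x y' → (c x y).1 = true →
      y = y') ∧
    (∀ x ∈ S, ∀ x' ∈ S, ∀ y ∈ S, e x y ≠ 0 → e x' y ≠ 0 → c x y = c x' y → (c x y).1 = false →
      x = x')

lemma exists_blk (s R : ℕ) : ∃ N e, Blk s (R + 1) N e := by
  classical
  obtain ⟨N, B, hN, hS, hD⟩ := exists_graph (4 * (R + 1) ^ 2) (s + 1) (by positivity) (by omega)
  let a : Fin N → Fin N → ℝ := fun x y => if B.Adj x y then 1 else 0
  have hE : ∑ x, ∑ y, a x y = ((∑ x, (nb B x).card : ℕ) : ℝ) := by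
    simp only [a, nb, card_filter]
    push_cast
    rfl
  have hD' : 4 * ((R : ℝ) + 1) ^ 2 * N ≤ ∑ x, ∑ y, a x y := by
    rw [hE]
    exact_mod_cast hD
  obtain ⟨ε, hε⟩ := exists_signs a (fun x y => by simp only [a]; split_ifs <;> simp)
    (1 / (R + 1)) (by positivity) (by
      rw [div_pow, one_pow, one_div_mul_eq_div, le_div_iff₀ (by positivity)]
      linarith)
  let e : ℕ → ℕ → ℝ := fun x y =>
    if hx : x < N then if hy : y < N then a ⟨x, hx⟩ ⟨y, hy⟩ * sg (ε (⟨x, hx⟩, ⟨y, hy⟩)) else 0 else 0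
  have he : ∀ x y : Fin N, e x y = a x y * sg (ε (x, y)) := fun x y => by simp [e]
  have habs : ∀ x y : Fin N, |e x y| = a x y := fun x y => by
    rw [he, abs_mul, abs_sg]
    simp only [a]
    split_ifs <;> simp
  have hsupp : ∀ x y, e x y ≠ 0 → ∃ (hx : x < N) (hy : y < N), B.Adj ⟨x, hx⟩ ⟨y, hy⟩ := by
    intro x y h
    by_cases hx : x < N
    · by_cases hy : y < N
      · refine ⟨hx, hy, ?_⟩
        by_contra hc
        simp [e, hx, hy, a, hc] at h
      · simp [e, hy] at h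
    · simp [e, hx] at h
  have hsum : ∑ x ∈ range N, ∑ y ∈ range N, |e x y| = ∑ x, ∑ y, a x y := by
    simp only [← habs, sum_range]
  have hval : ∀ x y, e x y = 0 ∨ e x y = 1 ∨ e x y = -1 := by
    intro x y
    simp only [e, a, sg]
    split_ifs <;> simp
  refine ⟨N, e, fun x y => ?_, fun x y => ?_, fun x y h => ?_, ?_, ?_, fun S hS' => ?_⟩
  · rcases hval x y with h | h | h <;> simp [h]
  · rcases hval x y with h | h | h <;> simp [h]
  · obtain ⟨hx, hy, _⟩ := hsupp x y h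
    exact ⟨hx, hy⟩
  · rw [hsum]
    have : (0 : ℝ) < N := by exact_mod_cast hN
    exact lt_of_lt_of_le (by positivity) hD'
  · refine cut_of_bool fun σ τ => ?_
    have := hε (fun x => σ x) (fun y => τ y)
    rw [hsum]
    simp only [sum_range, he]
    push_cast
    rwa [one_div_mul_eq_div] at this
  · obtain ⟨c, h1, h2⟩ := classes hS (univ.filter fun x : Fin N => (x : ℕ) ∈ S) (by
      refine le_trans (card_le_card_of_injOn (t := S) Fin.val (fun x hx => ?_)
        Fin.val_injective.injOn) (by omega)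
      simpa using hx)
    refine ⟨fun x y => c (if hx : x < N then ⟨x, hx⟩ else ⟨0, hN⟩)
      (if hy : y < N then ⟨y, hy⟩ else ⟨0, hN⟩), ?_, ?_⟩
    · intro x hx y hy y' hy' e1 e2
      obtain ⟨a1, a2, a3⟩ := hsupp x y e1
      obtain ⟨_, b2, b3⟩ := hsupp x y' e2
      simp only [dif_pos a1, dif_pos a2, dif_pos b2]
      intro e3 e4
      exact congrArg Fin.val (h1 _ (by simpa using hx) _ (by simpa using hy) _
        (by simpa using hy') a3 b3 e3 e4)
    · intro x hx x' hx' y hy e1 e2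
      obtain ⟨a1, a2, a3⟩ := hsupp x y e1
      obtain ⟨b1, _, b3⟩ := hsupp x' y e2
      simp only [dif_pos a1, dif_pos a2, dif_pos b1]
      intro e3 e4
      exact congrArg Fin.val (h2 _ (by simpa using hx) _ (by simpa using hx') _
        (by simpa using hy) a3 b3 e3 e4)

lemma exists_seq : ∃ (N : ℕ → ℕ) (e : ℕ → ℕ → ℕ → ℝ), ∀ n,
    Blk (2 * ∑ m ∈ range n, N m) ((n + 1) * (∑ m ∈ range n, N m + 4)) (N n) (e n) := by
  choose N e h using exists_blk
  let K : ℕ → ℕ := fun n => Nat.rec 0 (fun n k => k + N (2 * k) ((n + 1) * (k + 4) - 1)) n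
  have hK : ∀ n, ∑ m ∈ range n, N (2 * K m) ((m + 1) * (K m + 4) - 1) = K n := by
    intro n
    induction n with
    | zero => rfl
    | succ n ih => rw [sum_range_succ, ih]
  refine ⟨fun n => N (2 * K n) ((n + 1) * (K n + 4) - 1),
    fun n => e (2 * K n) ((n + 1) * (K n + 4) - 1), fun n => ?_⟩
  rw [hK]
  have := h (2 * K n) ((n + 1) * (K n + 4) - 1)
  rwa [Nat.sub_add_cancel (Nat.succ_le_of_lt (by positivity))] at this

/-- block diagonal matrix using the blocks whose index has first coordinate `j` -/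
def mat (e : ℕ → ℕ → ℕ → ℝ) (j p q : ℕ) : ℝ :=
  if p.unpair.1 = q.unpair.1 ∧ p.unpair.1.unpair.1 = j then e p.unpair.1 p.unpair.2 q.unpair.2
  else 0

lemma main_est {N : ℕ → ℕ} {e : ℕ → ℕ → ℕ → ℝ} (h : ∀ n,
    Blk (2 * ∑ m ∈ range n, N m) ((n + 1) * (∑ m ∈ range n, N m + 4)) (N n) (e n))
    (j n : ℕ) (hn : n.unpair.1 ≠ j) (σ τ : ℕ → ℝ) (h1 : ∀ x, |σ x| ≤ 1) (h2 : ∀ y, |τ y| ≤ 1)
    (l k : ℕ → ℕ) :
    ∑ x ∈ range (N n), ∑ y ∈ range (N n), e n x y * σ x * τ y * mat e j (l x) (k y) ≤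
      (∑ x ∈ range (N n), ∑ y ∈ range (N n), |e n x y|) / (n + 1) := by
  classical
  have hle : ∀ p q, |mat e j p q| ≤ 1 := by
    intro p q
    unfold mat
    split_ifs
    · exact (h _).le _ _
    · simp
  have hne : ∀ p q, mat e j p q ≠ 0 → p.unpair.1 = q.unpair.1 ∧ p.unpair.1 ≠ n ∧
      e p.unpair.1 p.unpair.2 q.unpair.2 ≠ 0 := by
    intro p q hpq
    unfold mat at hpq
    split_ifs at hpq with hc
    · exact ⟨hc.1, fun e => hn (e ▸ hc.2), hpq⟩
    · exact absurd rfl hpq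
  let S : Finset ℕ := (range (N n)).image (fun x => (l x).unpair.2) ∪
    (range (N n)).image (fun x => (k x).unpair.2)
  have hS : S.card ≤ 2 * N n := by
    refine (card_union_le _ _).trans ((add_le_add card_image_le card_image_le).trans ?_)
    simp [two_mul]
  have hc : ∀ m, ∃ c : ℕ → ℕ → Bool × Bool, n < m →
      (∀ x ∈ S, ∀ y ∈ S, ∀ y' ∈ S, e m x y ≠ 0 → e m x y' ≠ 0 → c x y = c x y' →
        (c x y).1 = true → y = y') ∧
      (∀ x ∈ S, ∀ x' ∈ S, ∀ y ∈ S, e m x y ≠ 0 → e m x' y ≠ 0 → c x y = c x' y →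
        (c x y).1 = false → x = x') := by
    intro m
    by_cases hm : n < m
    · obtain ⟨c, hc⟩ := (h m).cls S (hS.trans (Nat.mul_le_mul_left _
        (single_le_sum (f := N) (fun _ _ => Nat.zero_le _) (mem_range.2 hm))))
      exact ⟨c, fun _ => hc⟩
    · exact ⟨fun _ _ => (true, true), fun h => absurd h hm⟩
  choose c hc using hc
  let P : Finset ℕ := (range n).biUnion fun m => (range (N m)).image (Nat.pair m)
  have hP : P.card ≤ ∑ m ∈ range n, N m :=
    card_biUnion_le.trans (sum_le_sum fun m _ => card_image_le.trans (by simp))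
  let w : Bool × Bool → ℕ → ℕ → ℝ := fun i p q =>
    if n < p.unpair.1 ∧ c p.unpair.1 p.unpair.2 q.unpair.2 = i then mat e j p q else 0
  have hw : ∀ i p q, |w i p q| ≤ 1 := by
    intro i p q
    simp only [w]
    split_ifs
    · exact hle _ _
    · simp
  have hdec : ∀ p q, mat e j p q =
      ∑ p0 ∈ P, (if p = p0 then 1 else 0) * mat e j p0 q + ∑ i, w i p q := by
    intro p q
    by_cases h0 : mat e j p q = 0
    · simp [w, h0]
    obtain ⟨a1, a2, a3⟩ := hne p q h0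
    simp only [ite_mul, one_mul, zero_mul, sum_ite_eq, w]
    rcases lt_or_gt_of_ne a2 with hlt | hlt
    · rw [if_pos (mem_biUnion.2 ⟨_, mem_range.2 hlt, mem_image.2
        ⟨p.unpair.2, mem_range.2 ((h _).supp _ _ a3).1, Nat.pair_unpair p⟩⟩)]
      simp [hlt.not_gt]
    · rw [if_neg]
      · simp [hlt]
      · intro hp
        obtain ⟨m, hm, hp⟩ := mem_biUnion.1 hp
        obtain ⟨x, _, rfl⟩ := mem_image.1 hp
        have := mem_range.1 hm
        simp only [Nat.unpair_pair] at hlt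
        omega
  obtain ⟨C, hC⟩ : ∃ C, C = (∑ x ∈ range (N n), ∑ y ∈ range (N n), |e n x y|) /
    (((n + 1) * (∑ m ∈ range n, N m + 4) : ℕ) : ℝ) := ⟨_, rfl⟩
  have hcut := (h n).cut
  rw [← hC] at hcut
  have hC0 : 0 ≤ C := by rw [hC]; have := (h n).pos; positivity
  have b1 : ∀ p0 ∈ P, ∑ x ∈ range (N n), ∑ y ∈ range (N n),
      e n x y * σ x * τ y * ((if l x = p0 then 1 else 0) * mat e j p0 (k y)) ≤ C := by
    intro p0 _
    refine le_trans (le_of_eq ?_) (hcut (fun x => σ x * if l x = p0 then 1 else 0)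
      (fun y => τ y * mat e j p0 (k y)) (fun x => ?_) fun y => ?_)
    · exact sum_congr rfl fun _ _ => sum_congr rfl fun _ _ => by ring
    · split_ifs
      · simpa using h1 x
      · simp
    · rw [abs_mul]
      exact mul_le_one₀ (h2 y) (abs_nonneg _) (hle _ _)
  have hwne : ∀ i p q, w i p q ≠ 0 → n < p.unpair.1 ∧ c p.unpair.1 p.unpair.2 q.unpair.2 = i ∧
      p.unpair.1 = q.unpair.1 ∧ e p.unpair.1 p.unpair.2 q.unpair.2 ≠ 0 := by
    intro i p q hpq
    simp only [w] at hpq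
    split_ifs at hpq with hc
    · exact ⟨hc.1, hc.2, (hne _ _ hpq).1, (hne _ _ hpq).2.2⟩
    · exact absurd rfl hpq
  have hl : ∀ x ∈ range (N n), (l x).unpair.2 ∈ S := fun x hx =>
    mem_union_left _ (mem_image_of_mem _ hx)
  have hk : ∀ x ∈ range (N n), (k x).unpair.2 ∈ S := fun x hx =>
    mem_union_right _ (mem_image_of_mem _ hx)
  have hun : ∀ p q : ℕ, p.unpair.1 = q.unpair.1 → p.unpair.2 = q.unpair.2 → p = q :=
    fun p q a b => Nat.pairEquiv.symm.injective (Prod.ext a b)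
  have b2 : ∀ i : Bool × Bool, ∑ x ∈ range (N n), ∑ y ∈ range (N n),
      e n x y * σ x * τ y * w i (l x) (k y) ≤ C := by
    rintro ⟨i1, i2⟩
    cases i1
    · rw [sum_comm]
      refine le_trans (le_of_eq ?_) (hcut.swap.func τ σ h2 h1 l
        (fun y p => w (false, i2) p (k y)) (fun _ _ => hw _ _ _) ?_)
      · exact sum_congr rfl fun _ _ => sum_congr rfl fun _ _ => by ring
      · intro y hy x hx x' hx' e1 e2
        obtain ⟨a1, a2, a3, a4⟩ := hwne _ _ _ e1
        obtain ⟨_, c2, c3, c4⟩ := hwne _ _ _ e2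
        rw [c3, ← a3] at c2 c4
        exact hun _ _ (a3.trans c3.symm) ((hc _ a1).2 _ (hl x hx) _ (hl x' hx') _ (hk y hy) a4 c4
          (a2.trans c2.symm) (by rw [a2]))
    · refine hcut.func σ τ h1 h2 k (fun x q => w (true, i2) (l x) q) (fun _ _ => hw _ _ _) ?_
      intro x hx y hy y' hy' e1 e2
      obtain ⟨a1, a2, a3, a4⟩ := hwne _ _ _ e1
      obtain ⟨_, c2, c3, c4⟩ := hwne _ _ _ e2
      exact hun _ _ (a3.symm.trans c3) ((hc _ a1).1 _ (hl x hx) _ (hk y hy) _ (hk y' hy') a4 c4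
        (a2.trans c2.symm) (by rw [a2]))
  have b3 := add_le_add (sum_le_sum b1) (sum_le_sum fun i (_ : i ∈ univ) => b2 i)
  refine le_trans (le_of_eq ?_) (b3.trans ?_)
  · rw [sum_comm (s := P), sum_comm (s := univ), ← sum_add_distrib]
    refine sum_congr rfl fun x _ => ?_
    rw [sum_comm (s := P), sum_comm (s := univ), ← sum_add_distrib]
    refine sum_congr rfl fun y _ => ?_
    rw [← mul_sum, ← mul_sum, ← mul_add, ← hdec]
  · simp only [sum_const, card_univ, Fintype.card_prod, Fintype.card_bool, nsmul_eq_mul]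
    have hP' : (P.card : ℝ) ≤ (∑ m ∈ range n, N m : ℕ) := by exact_mod_cast hP
    have e1 : (∑ x ∈ range (N n), ∑ y ∈ range (N n), |e n x y|) / (n + 1) =
        ((∑ m ∈ range n, N m : ℕ) + 4) * C := by
      rw [hC, Nat.cast_mul, Nat.cast_add, Nat.cast_add]
      field_simp
      norm_num
    rw [e1]
    push_cast at hP' ⊢
    nlinarith

end Pool.Agent.H14.Id
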