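import Pool.Agent.H14.Id2

set_option autoImplicit false

namespace Pool.Agent.H14.Id

open Finset Filter Topology

/-- `ℓ1` -/
abbrev L1 := lp (fun _ : ℕ => ℝ) (1 : ENNReal)

/-- `c0` -/
abbrev C0 := ZeroAtInftyContinuousMap ℕ ℝ

/-- unit vectors -/
noncomputable def ee (k : ℕ) : L1 := lp.single 1 k 1

lemma norm_ee (k : ℕ) : ‖ee k‖ = 1 := by
  rw [ee, lp.norm_single (by norm_num)]
  simp

lemma sum_abs (a : L1) : HasSum (fun k => |a k|) ‖a‖ := by
  simpa using lp.hasSum_norm (p := 1) (by simp) a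

lemma hasSum_ee (a : L1) : HasSum (fun k => a k • ee k) a := by
  have := lp.hasSum_single (p := 1) (by simp) a
  convert this using 2 with k
  rw [ee, ← lp.single_smul]
  simp

lemma abs_le_norm (v : C0) (x : ℕ) : |v x| ≤ ‖v‖ := v.toBCF.norm_coe_le_norm x

lemma norm_le_of (v : C0) (C : ℝ) (h : ∀ x, |v x| ≤ C) : ‖v‖ ≤ C :=
  (BoundedContinuousFunction.norm_le (f := v.toBCF) ((abs_nonneg _).trans (h 0))).2 h

/-- evaluation -/
noncomputable def ev (x : ℕ) : C0 →L[ℝ] ℝ :=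
  LinearMap.mkContinuous ⟨⟨fun v => v x, fun _ _ => rfl⟩, fun _ _ => rfl⟩ 1
    fun v => by simpa using abs_le_norm v x

lemma ev_apply (x : ℕ) (v : C0) : ev x v = v x := rfl

lemma exists_op (col : ℕ → C0) (h : ∀ k, ‖col k‖ ≤ 1) :
    ∃ T : L1 →L[ℝ] C0, ∀ k, T (ee k) = col k := by
  have hb : ∀ (a : L1) k, ‖a k • col k‖ ≤ |a k| := fun a k => by
    rw [norm_smul]
    exact mul_le_of_le_one_right (abs_nonneg _) (h k)
  have hs : ∀ a : L1, Summable fun k => a k • col k := fun a =>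
    Summable.of_norm_bounded (sum_abs a).summable (hb a)
  refine ⟨LinearMap.mkContinuous ⟨⟨fun a => ∑' k, a k • col k, fun a b => ?_⟩, fun c a => ?_⟩ 1
    fun a => ?_, fun k => ?_⟩
  · rw [← (hs a).tsum_add (hs b)]
    exact tsum_congr fun k => add_smul (a k) (b k) (col k)
  · simp only [RingHom.id_apply]
    rw [← (hs a).tsum_const_smul c]
    simp [mul_smul]
  · rw [one_mul]
    exact tsum_of_norm_bounded (sum_abs a) (hb a)
  · change ∑' j, ee k j • col j = col k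
    rw [tsum_eq_single k]
    · simp [ee]
    · intro j hj
      simp [ee, hj]

lemma sel1 (φ : L1 →L[ℝ] ℝ) (a : L1) : ∃ k, |φ a| ≤ 2 * ‖a‖ * |φ (ee k)| := by
  by_contra hcon
  push Not at hcon
  have h0 : 0 < |φ a| := lt_of_le_of_lt (by positivity) (hcon 0)
  have ha : 0 < ‖a‖ := by
    rcases (norm_nonneg a).eq_or_lt with h | h
    · rw [norm_eq_zero.1 h.symm] at h0
      simp at h0
    · exact h
  have h1 := (hasSum_ee a).mapL φ
  have h2 := (sum_abs a).mul_right (|φ a| / (2 * ‖a‖))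
  have h3 := h1.norm_le_of_bounded h2 (fun k => by
    rw [map_smul, norm_smul]
    refine mul_le_mul_of_nonneg_left ?_ (abs_nonneg _)
    rw [le_div_iff₀ (by positivity), mul_comm]
    exact (hcon k).le)
  have h4 : ‖a‖ * (|φ a| / (2 * ‖a‖)) = |φ a| / 2 := by field_simp
  rw [h4, Real.norm_eq_abs] at h3
  linarith

lemma sel2 (v : C0) : ∃ l, ‖v‖ ≤ 2 * |v l| := by
  by_contra hcon
  push Not at hcon
  have := norm_le_of v (‖v‖ / 2) fun x => by linarith [hcon x]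
  have h0 := hcon 0
  have := abs_nonneg (v 0)
  linarith

/-- the trace pairing -/
noncomputable def Ph (u : ℕ → ℕ) (N : ℕ) (e : ℕ → ℕ → ℝ) (S : L1 →L[ℝ] C0) : ℝ :=
  ∑ x ∈ range N, ∑ y ∈ range N, e x y * S (ee (u y)) (u x)

lemma abs_eq_sg (v : ℝ) : |v| = sg (decide (0 ≤ v)) * v := by
  by_cases h : 0 ≤ v
  · simp [h, sg, abs_of_nonneg h]
  · simp [h, sg, abs_of_neg (not_le.1 h)]

lemma Ph_est (u : ℕ → ℕ) (N : ℕ) (e t : ℕ → ℕ → ℝ) (C : ℝ) (T : L1 →L[ℝ] C0) (hT : ∀ p q, T (ee q) p = t p q)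
    (h : ∀ σ τ : ℕ → ℝ, (∀ x, |σ x| ≤ 1) → (∀ y, |τ y| ≤ 1) → ∀ l k : ℕ → ℕ,
      ∑ x ∈ range N, ∑ y ∈ range N, e x y * σ x * τ y * t (l x) (k y) ≤ C)
    (A : L1 →L[ℝ] L1) (B : C0 →L[ℝ] C0) :
    |Ph u N e (B.comp (T.comp A))| ≤ 4 * ‖A‖ * ‖B‖ * C := by
  let φ : ℕ → L1 →L[ℝ] ℝ := fun y => ∑ x ∈ range N, e x y • (ev (u x)).comp (B.comp T)
  have hφ : ∀ y a, φ y a = ∑ x ∈ range N, e x y * B (T a) (u x) := by
    intro y a
    simp [φ, ev_apply]
  choose k hk using fun y => sel1 (φ y) (A (ee (u y)))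
  let τ : ℕ → ℝ := fun y => sg (decide (0 ≤ φ y (ee (k y))))
  let v : ℕ → C0 := fun x => ∑ y ∈ range N, (e x y * τ y) • T (ee (k y))
  choose l hl using fun x => sel2 (v x)
  let σ : ℕ → ℝ := fun x => sg (decide (0 ≤ v x (l x)))
  have h1 : |Ph u N e (B.comp (T.comp A))| ≤ 2 * ‖A‖ * ∑ y ∈ range N, τ y * φ y (ee (k y)) := by
    unfold Ph
    rw [sum_comm, mul_sum]
    refine (abs_sum_le_sum_abs _ _).trans (sum_le_sum fun y _ => ?_)
    have h2 := hk y
    rw [hφ] at h2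
    refine h2.trans ?_
    rw [← abs_eq_sg]
    have := A.le_opNorm (ee (u y))
    rw [norm_ee, mul_one] at this
    gcongr
  have h2 : ∑ y ∈ range N, τ y * φ y (ee (k y)) = ∑ x ∈ range N, ev (u x) (B (v x)) := by
    simp only [hφ, v, map_sum, map_smul, mul_sum, ev_apply, smul_eq_mul]
    rw [sum_comm]
    exact sum_congr rfl fun _ _ => sum_congr rfl fun _ _ => by ring
  have h3 : ∑ x ∈ range N, ev (u x) (B (v x)) ≤ 2 * ‖B‖ * ∑ x ∈ range N, σ x * ev (l x) (v x) := by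
    rw [mul_sum]
    refine sum_le_sum fun x _ => ?_
    have a1 := (le_abs_self _).trans ((abs_le_norm (B (v x)) (u x)).trans (B.le_opNorm _))
    have a2 := mul_le_mul_of_nonneg_left (hl x) (norm_nonneg B)
    rw [ev_apply, ev_apply, ← abs_eq_sg]
    linarith
  have h4 : ∑ x ∈ range N, σ x * ev (l x) (v x) ≤ C := by
    refine le_trans (le_of_eq ?_) (h σ τ (fun _ => (abs_sg _).le) (fun _ => (abs_sg _).le) l k)
    simp only [v, map_sum, map_smul, mul_sum, ev_apply, smul_eq_mul, hT]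
    exact sum_congr rfl fun _ _ => sum_congr rfl fun _ _ => by ring
  rw [h2] at h1
  calc _ ≤ _ := h1
    _ ≤ 2 * ‖A‖ * (2 * ‖B‖ * C) := by
        gcongr
        exact h3.trans (by gcongr)
    _ = _ := by ring

lemma Ph_le (u : ℕ → ℕ) (N : ℕ) (e : ℕ → ℕ → ℝ) (S : L1 →L[ℝ] C0) :
    |Ph u N e S| ≤ (∑ x ∈ range N, ∑ y ∈ range N, |e x y|) * ‖S‖ := by
  unfold Ph
  simp only [sum_mul]
  refine (abs_sum_le_sum_abs _ _).trans (sum_le_sum fun x _ =>
    (abs_sum_le_sum_abs _ _).trans (sum_le_sum fun y _ => ?_))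
  rw [abs_mul]
  have := (abs_le_norm (S (ee (u y))) (u x)).trans (S.le_opNorm _)
  rw [norm_ee, mul_one] at this
  gcongr

lemma Ph_add (u : ℕ → ℕ) (N : ℕ) (e : ℕ → ℕ → ℝ) (S S' : L1 →L[ℝ] C0) :
    Ph u N e (S + S') = Ph u N e S + Ph u N e S' := by
  simp [Ph, mul_add, sum_add_distrib]

lemma Ph_smul (u : ℕ → ℕ) (N : ℕ) (e : ℕ → ℕ → ℝ) (c : ℝ) (S : L1 →L[ℝ] C0) :
    Ph u N e (c • S) = c * Ph u N e S := by
  simp only [Ph, mul_sum]
  exact sum_congr rfl fun _ _ => sum_congr rfl fun _ _ => by simp; ring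

lemma exists_sys : ∃ (Ψ : ℕ → (L1 →L[ℝ] C0) →ₗ[ℝ] ℝ) (T : ℕ → L1 →L[ℝ] C0),
    (∀ n S, |Ψ n S| ≤ ‖S‖) ∧ (∀ j i, Ψ (Nat.pair j i) (T j) = 1) ∧
    ∀ j n, n.unpair.1 ≠ j → ∀ (A : L1 →L[ℝ] L1) (B : C0 →L[ℝ] C0),
      |Ψ n (B.comp ((T j).comp A))| ≤ 4 * ‖A‖ * ‖B‖ / (n + 1) := by
  obtain ⟨N, e, h⟩ := exists_seq
  have hle : ∀ j p q, |mat e j p q| ≤ 1 := by
    intro j p q
    unfold mat
    split_ifs
    · exact (h _).le _ _
    · simp
  have hz : ∀ j q, Tendsto (fun p => mat e j p q) (cocompact ℕ) (𝓝 0) := by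
    intro j q
    rw [cocompact_eq_cofinite]
    refine tendsto_const_nhds.congr' ?_
    refine ((range (N q.unpair.1)).image (Nat.pair q.unpair.1)).finite_toSet.subset ?_
    intro p hp
    have hp' : mat e j p q ≠ 0 := fun h => hp h.symm
    unfold mat at hp'
    split_ifs at hp' with hc
    · refine mem_coe.2 (mem_image.2 ⟨p.unpair.2, mem_range.2 ?_, ?_⟩)
      · rw [← hc.1]
        exact ((h _).supp _ _ hp').1
      · rw [← hc.1]
        exact Nat.pair_unpair p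
    · exact absurd rfl hp'
  choose T hT using fun j => exists_op (fun q => ⟨⟨fun p => mat e j p q, continuous_of_discreteTopology⟩,
    hz j q⟩) fun q => norm_le_of _ _ fun p => hle j p q
  have hT' : ∀ j p q, T j (ee q) p = mat e j p q := fun j p q => by rw [hT]; rfl
  let E : ℕ → ℝ := fun n => ∑ x ∈ range (N n), ∑ y ∈ range (N n), |e n x y|
  have hE : ∀ n, 0 < E n := fun n => (h n).pos
  refine ⟨fun n => ⟨⟨fun S => Ph (Nat.pair n) (N n) (e n) S / E n, fun S S' => ?_⟩,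
    fun c S => ?_⟩, T, fun n S => ?_, fun j i => ?_, fun j n hn A B => ?_⟩
  · rw [Ph_add, add_div]
  · simp only [Ph_smul, RingHom.id_apply, smul_eq_mul]
    ring
  · change |Ph (Nat.pair n) (N n) (e n) S / E n| ≤ _
    rw [abs_div, abs_of_pos (hE n), div_le_iff₀ (hE n), mul_comm]
    exact Ph_le _ _ _ _
  · change Ph _ _ _ _ / E _ = 1
    rw [div_eq_one_iff_eq (hE _).ne']
    simp only [Ph, hT', mat, Nat.unpair_pair, and_self, if_true, (h _).val, E]
  · change |Ph (Nat.pair n) (N n) (e n) _ / E n| ≤ _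
    rw [abs_div, abs_of_pos (hE n), div_le_iff₀ (hE n)]
    refine (Ph_est _ _ _ _ _ _ (hT' j) (main_est h j n hn) A B).trans (le_of_eq ?_)
    simp only [E]
    ring

lemma final : ∃ f : Set ℕ → Submodule ℝ (L1 →L[ℝ] C0), Function.Injective f ∧
    ∀ s : Set ℕ, IsClosed (f s : Set (L1 →L[ℝ] C0)) ∧
      ∀ T ∈ f s, ∀ (A : L1 →L[ℝ] L1) (B : C0 →L[ℝ] C0), B.comp (T.comp A) ∈ f s := by
  obtain ⟨Ψ, T, h1, h2, h3⟩ := exists_sys
  let f : Set ℕ → Submodule ℝ (L1 →L[ℝ] C0) := fun s =>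
    { carrier := {S | ∀ j ∉ s, ∀ (A : L1 →L[ℝ] L1) (B : C0 →L[ℝ] C0),
        Tendsto (fun i => Ψ (Nat.pair j i) (B.comp (S.comp A))) atTop (𝓝 0)}
      add_mem' := by
        intro S S' hS hS' j hj A B
        have := (hS j hj A B).add (hS' j hj A B)
        simpa [ContinuousLinearMap.add_comp, ContinuousLinearMap.comp_add] using this
      zero_mem' := by
        intro j _ A B
        simp
      smul_mem' := by
        intro c S hS j hj A B
        have := (hS j hj A B).const_mul c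
        simpa [ContinuousLinearMap.smul_comp, ContinuousLinearMap.comp_smul] using this }
  have hT : ∀ s j, T j ∈ f s ↔ j ∈ s := by
    intro s j
    constructor
    · intro h
      by_contra hj
      have := h j hj (ContinuousLinearMap.id ℝ _) (ContinuousLinearMap.id ℝ _)
      simp [h2] at this
    · intro hj j' hj' A B
      have hne : j' ≠ j := fun e => hj' (e ▸ hj)
      have a1 : Tendsto (fun i : ℕ => 4 * ‖A‖ * ‖B‖ / ((i : ℝ) + 1)) atTop (𝓝 0) :=
        (tendsto_const_div_atTop_nhds_zero_nat (4 * ‖A‖ * ‖B‖)).comp (tendsto_add_atTop_nat 1)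
          |>.congr fun i => by simp
      refine squeeze_zero_norm (fun i => ?_) a1
      refine (h3 j _ (by simpa using hne) A B).trans ?_
      have : (i : ℝ) ≤ Nat.pair j' i := by exact_mod_cast Nat.right_le_pair j' i
      gcongr
  refine ⟨f, fun s s' e => Set.ext fun j => by rw [← hT, ← hT, e], fun s => ⟨?_, ?_⟩⟩
  · refine isClosed_of_closure_subset fun S hS j hj A B => ?_
    rw [Metric.tendsto_atTop]
    intro ε hε
    obtain ⟨S', hS', hd⟩ := (Metric.mem_closure_iff (α := L1 →L[ℝ] C0)).1 hS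
      (ε / 2 / (‖B‖ * ‖A‖ + 1)) (by positivity)
    obtain ⟨M, hM⟩ := Metric.tendsto_atTop.1 (hS' j hj A B) (ε / 2) (by positivity)
    refine ⟨M, fun i hi => ?_⟩
    have a1 := hM i hi
    have a2 := h1 (Nat.pair j i) (B.comp ((S - S').comp A))
    have a3 : ‖B.comp ((S - S').comp A)‖ ≤ ‖B‖ * (‖S - S'‖ * ‖A‖) :=
      (B.opNorm_comp_le _).trans (mul_le_mul_of_nonneg_left
        (ContinuousLinearMap.opNorm_comp_le _ _) (norm_nonneg _))
    replace hd : ‖S - S'‖ < ε / 2 / (‖B‖ * ‖A‖ + 1) := (dist_eq_norm S S').symm.trans_lt hd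
    rw [lt_div_iff₀ (by positivity)] at hd
    have a6 : Ψ (Nat.pair j i) (B.comp (S.comp A)) = Ψ (Nat.pair j i) (B.comp ((S - S').comp A)) +
        Ψ (Nat.pair j i) (B.comp (S'.comp A)) := by
      rw [← map_add, ← ContinuousLinearMap.comp_add, ← ContinuousLinearMap.add_comp]
      congr 3
      ext a x
      simp
    rw [Real.dist_eq, sub_zero] at a1 ⊢
    have a4 := norm_nonneg (S - S')
    have a5 := abs_add_le (Ψ (Nat.pair j i) (B.comp ((S - S').comp A)))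
      (Ψ (Nat.pair j i) (B.comp (S'.comp A)))
    rw [a6]
    nlinarith
  · intro S hS A B j hj A' B'
    exact hS j hj (A.comp A') (B'.comp B)

end Pool.Agent.H14.Id
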