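import Mathlib

namespace Pool.Agent.H14.Ine1

open Matrix

variable {ι : Type} [Fintype ι] [DecidableEq ι]

lemma decomp {A : Matrix ι ι ℝ} (hA : A.IsHermitian) : ∃ U : Matrix ι ι ℝ, U * Uᵀ = 1 ∧
    A = U * diagonal hA.eigenvalues * Uᵀ := by
  refine ⟨(hA.eigenvectorUnitary : Matrix ι ι ℝ), ?_, ?_⟩
  · have := (hA.eigenvectorUnitary).2.2
    simpa [star_eq_conjTranspose] using this
  · have := hA.spectral_theorem
    simpa [Unitary.conjStarAlgAut_apply, star_eq_conjTranspose, Function.comp_def] using this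

lemma form_eq (U : Matrix ι ι ℝ) (d : ι → ℝ) (v : ι → ℝ) :
    v ⬝ᵥ (U * diagonal d * Uᵀ) *ᵥ v = ∑ j, d j * ((Uᵀ *ᵥ v) j) ^ 2 := by
  rw [← mulVec_mulVec, ← mulVec_mulVec, dotProduct_mulVec, ← mulVec_transpose]
  simp only [dotProduct, mulVec_diagonal]
  exact Finset.sum_congr rfl fun j _ => by ring

lemma dim {A : Matrix ι ι ℝ} (hA : A.IsHermitian) (σ : ℝ) {κ : Type} [Fintype κ]
    (T : Matrix ι κ ℝ) (hT : ∀ v, T *ᵥ v = 0 → v = 0)
    (h : ∀ v, 0 ≤ σ * ((T *ᵥ v) ⬝ᵥ A *ᵥ (T *ᵥ v))) :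
    (Finset.univ.filter fun j => σ * hA.eigenvalues j < 0).card + Fintype.card κ ≤
      Fintype.card ι := by
  obtain ⟨U, hU, hd⟩ := decomp hA
  let φ : (κ → ℝ) →ₗ[ℝ] ({j // ¬ σ * hA.eigenvalues j < 0} → ℝ) :=
    (LinearMap.funLeft ℝ ℝ Subtype.val) ∘ₗ (Uᵀ * T).mulVecLin
  have inj : Function.Injective φ := by
    rw [injective_iff_map_eq_zero]
    intro v hv
    apply hT
    have h0 : ∀ j, ¬ σ * hA.eigenvalues j < 0 → (Uᵀ *ᵥ (T *ᵥ v)) j = 0 := by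
      intro j hj
      have := congrFun hv ⟨j, hj⟩
      rw [mulVec_mulVec]
      exact this
    have h1 := h v
    rw [hd, form_eq, Finset.mul_sum] at h1
    have h2 : ∀ j ∈ Finset.univ, σ * (hA.eigenvalues j * (Uᵀ *ᵥ (T *ᵥ v)) j ^ 2) ≤ 0 := by
      intro j _
      by_cases hj : σ * hA.eigenvalues j < 0
      · nlinarith [sq_nonneg ((Uᵀ *ᵥ (T *ᵥ v)) j)]
      · rw [h0 j hj]
        simp
    have h3 := (Finset.sum_eq_zero_iff_of_nonpos h2).mp (le_antisymm (Finset.sum_nonpos h2) h1)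
    have h4 : Uᵀ *ᵥ (T *ᵥ v) = 0 := by
      funext j
      by_cases hj : σ * hA.eigenvalues j < 0
      · have := h3 j (Finset.mem_univ j)
        rw [← mul_assoc] at this
        rcases mul_eq_zero.mp this with h' | h'
        · exact absurd h' hj.ne
        · exact pow_eq_zero_iff (two_ne_zero) |>.mp h'
      · exact h0 j hj
    calc T *ᵥ v = (U * Uᵀ) *ᵥ (T *ᵥ v) := by rw [hU, one_mulVec]
      _ = 0 := by rw [← mulVec_mulVec, h4, mulVec_zero]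
  have h5 := LinearMap.finrank_le_finrank_of_injective inj
  rw [Module.finrank_fintype_fun_eq_card, Module.finrank_fintype_fun_eq_card,
    Fintype.card_subtype_compl, Fintype.card_subtype] at h5
  have h6 : (Finset.univ.filter fun j => σ * hA.eigenvalues j < 0).card ≤ Fintype.card ι :=
    Finset.card_le_univ _
  omega

lemma SM {Y : Matrix ι ι ℝ} (hY : Y.det ≠ 0) (l : ι) (t : ℝ) (ht : 1 + t * Y⁻¹ l l ≠ 0) :
    (Y + t • single l l (1 : ℝ)).det ≠ 0 ∧ ∀ j k, ((Y + t • single l l (1 : ℝ))⁻¹ : Matrix ι ι ℝ) j k =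
      Y⁻¹ j k - t / (1 + t * Y⁻¹ l l) * (Y⁻¹ j l * Y⁻¹ l k) := by
  have h1 : Y * Y⁻¹ = 1 := mul_nonsing_inv Y (Ne.isUnit hY)
  set W := Y⁻¹ with hW
  set c := t / (1 + t * W l l) with hc
  have hE : (single l l (1 : ℝ)) * W * single l l (1 : ℝ) = W l l • single l l (1 : ℝ) := by
    rw [single_mul_mul_single]
    simp
  have h2 : (Y + t • single l l (1 : ℝ)) * (W - c • (W * single l l (1 : ℝ) * W)) = 1 := by
    have e1 : Y * (W * single l l (1 : ℝ) * W) = single l l (1 : ℝ) * W := by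
      rw [← mul_assoc, ← mul_assoc, h1, one_mul]
    have e2 : single l l (1 : ℝ) * (W * single l l (1 : ℝ) * W) = W l l • (single l l (1 : ℝ) * W) := by
      rw [← mul_assoc, ← mul_assoc, hE, smul_mul_assoc]
    have e3 : t - c - t * c * W l l = 0 := by
      rw [hc]
      field_simp
      ring
    rw [add_mul, mul_sub, h1, mul_smul_comm, e1, smul_mul_assoc, mul_sub, mul_smul_comm, e2]
    have : (1 : Matrix ι ι ℝ) - c • (single l l (1 : ℝ) * W) + t • (single l l (1 : ℝ) * W -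
        c • W l l • (single l l (1 : ℝ) * W)) = 1 + (t - c - t * c * W l l) • (single l l (1 : ℝ) * W) := by
      module
    rw [this, e3, zero_smul, add_zero]
  refine ⟨fun h0 => ?_, fun j k => ?_⟩
  · have := congrArg det h2
    rw [det_mul, h0] at this
    simp at this
  · rw [inv_eq_right_inv h2]
    simp [Matrix.mul_apply, single, ite_and]

structure Good (K : ι → ι → Prop) (U : Set (Matrix ι ι ℝ)) : Prop where
  symm : ∀ Y ∈ U, Yᵀ = Y
  det : ∀ Y ∈ U, Y.det ≠ 0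
  free : ∀ Y ∈ U, ∀ j k, K j k → ∀ x : ℝ, Y + x • (single j k (1 : ℝ) + single k j (1 : ℝ)) ∈ U
  diag : ∀ Y ∈ U, ∀ l, ∃ δ > 0, ∀ t : ℝ, |t| < δ → Y + t • single l l (1 : ℝ) ∈ U

variable {K : ι → ι → Prop} {U : Set (Matrix ι ι ℝ)}

lemma inv_symm {Y : Matrix ι ι ℝ} (h : Yᵀ = Y) (j k : ι) : Y⁻¹ j k = Y⁻¹ k j := by
  have : (Y⁻¹)ᵀ = Y⁻¹ := by rw [transpose_nonsing_inv, h]
  exact (congrFun (congrFun this k) j)

lemma pert (hU : Good K U) {Y : Matrix ι ι ℝ} (hY : Y ∈ U) (l : ι) (s : ℝ) (hs : s = 1 ∨ s = -1) :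
    ∃ Z ∈ U, ∃ c > 0, ∀ j, Z⁻¹ j j = Y⁻¹ j j + s * c * (Y⁻¹ j l) ^ 2 := by
  obtain ⟨δ, hδ, h⟩ := hU.diag Y hY l
  have ha : 0 < |Y⁻¹ l l| + 1 := by positivity
  set η := min (δ / 2) (1 / (|Y⁻¹ l l| + 1)) with hη
  have h0 : 0 < η := lt_min (by linarith) (by positivity)
  have h1 : η < δ := lt_of_le_of_lt (min_le_left _ _) (by linarith)
  have h2 : η * (|Y⁻¹ l l| + 1) ≤ 1 := by
    have : η ≤ 1 / (|Y⁻¹ l l| + 1) := min_le_right _ _
    rwa [le_div_iff₀ ha] at this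
  have h3 : 0 < 1 + (-s * η) * Y⁻¹ l l := by
    rcases hs with rfl | rfl <;> nlinarith [le_abs_self (Y⁻¹ l l), neg_abs_le (Y⁻¹ l l)]
  refine ⟨_, h (-s * η) ?_, η / (1 + (-s * η) * Y⁻¹ l l), div_pos h0 h3, fun j => ?_⟩
  · rcases hs with rfl | rfl <;> simp [abs_of_pos h0, h1]
  · rw [(SM (hU.det Y hY) l _ h3.ne').2, inv_symm (hU.symm Y hY) l j]
    ring

lemma row_ne {Y : Matrix ι ι ℝ} (hY : Y.det ≠ 0) (j : ι) : ∃ l, Y⁻¹ j l ≠ 0 := by
  by_contra h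
  push Not at h
  have h1 : Y⁻¹ * Y = 1 := nonsing_inv_mul Y (Ne.isUnit hY)
  have := congrFun (congrFun h1 j) j
  simp [Matrix.mul_apply, h] at this

lemma E0 (hU : Good K U) {Y : Matrix ι ι ℝ} (hY : Y ∈ U) {j k : ι} (hK : K j k) (hjk : j ≠ k) :
    Y⁻¹ j j * Y⁻¹ k k ≤ 0 := by
  by_contra hc
  push Not at hc
  have h1 : Y * Y⁻¹ = 1 := mul_nonsing_inv Y (Ne.isUnit (hU.det Y hY))
  have hs := inv_symm (hU.symm Y hY) k j
  set W := Y⁻¹ with hW
  obtain ⟨τ, h2, h3⟩ : ∃ τ : ℝ, τ * τ = W j j * W k k ∧ W j k + τ ≠ 0 := by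
    have hq := Real.mul_self_sqrt hc.le
    have hp := Real.sqrt_pos.mpr hc
    by_cases h : W j k + √(W j j * W k k) = 0
    · exact ⟨-√(W j j * W k k), by linarith, by intro h'; linarith⟩
    · exact ⟨_, hq, h⟩
  have hk : W k k ≠ 0 := by
    intro h
    rw [h] at hc
    simp at hc
  apply hU.det _ (hU.free Y hY j k hK (-1 / (W j k + τ)))
  rw [← exists_mulVec_eq_zero_iff]
  have e : Y *ᵥ (W *ᵥ (Pi.single j (W k k) + Pi.single k τ)) =
      Pi.single j (W k k) + Pi.single k τ := by rw [mulVec_mulVec, h1, one_mulVec]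
  refine ⟨W *ᵥ (Pi.single j (W k k) + Pi.single k τ), fun h0 => ?_, ?_⟩
  · rw [h0, mulVec_zero] at e
    have := congrFun e j
    simp [hjk] at this
    exact hk this.symm
  · rw [add_mulVec, e, smul_mulVec, add_mulVec, single_mulVec, single_mulVec]
    funext i
    simp only [mulVec_add, mulVec_single, Pi.add_apply, Pi.smul_apply, smul_eq_mul,
      Pi.zero_apply, Function.update_apply, Pi.single_apply, one_mul, MulOpposite.smul_eq_mul_unop,
      MulOpposite.unop_op, col_apply]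
    by_cases hi : i = j
    · subst hi
      simp only [if_true, hjk, if_false, hs]
      field_simp
      ring
    · by_cases hi2 : i = k
      · subst hi2
        simp only [if_true, hi, if_false]
        field_simp
        linarith
      · simp [hi, hi2]

lemma E1 (hU : Good K U) {j k : ι} (h : ∀ Y ∈ U, Y⁻¹ j j * Y⁻¹ k k ≤ 0) {Y : Matrix ι ι ℝ}
    (hY : Y ∈ U) (h1 : Y⁻¹ j j = 0) : Y⁻¹ k k = 0 := by
  by_contra h2
  obtain ⟨l, hl⟩ := row_ne (hU.det Y hY) j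
  have hl2 : 0 < (Y⁻¹ j l) ^ 2 := by positivity
  rcases lt_or_gt_of_ne h2 with h3 | h3
  · obtain ⟨Z, hZ, c, hc, e⟩ := pert hU hY l (-1) (Or.inr rfl)
    have := h Z hZ
    rw [e j, e k, h1] at this
    have a1 : 0 < c * (Y⁻¹ j l) ^ 2 := mul_pos hc hl2
    have a2 : 0 ≤ c * (Y⁻¹ k l) ^ 2 := by positivity
    nlinarith
  · obtain ⟨Z, hZ, c, hc, e⟩ := pert hU hY l 1 (Or.inl rfl)
    have := h Z hZ
    rw [e j, e k, h1] at this
    have a1 : 0 < c * (Y⁻¹ j l) ^ 2 := mul_pos hc hl2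
    have a2 : 0 ≤ c * (Y⁻¹ k l) ^ 2 := by positivity
    nlinarith

lemma E2 (hU : Good K U) {j k : ι} (h : ∀ Y ∈ U, Y⁻¹ j j * Y⁻¹ k k ≤ 0) {Y : Matrix ι ι ℝ}
    (hY : Y ∈ U) : Y⁻¹ j j ≠ 0 := by
  intro h1
  have h2 := E1 hU h hY h1
  obtain ⟨l, hl⟩ := row_ne (hU.det Y hY) k
  obtain ⟨Z, hZ, c, hc, e⟩ := pert hU hY l 1 (Or.inl rfl)
  have a1 : 0 < Z⁻¹ k k := by
    rw [e k, h2]
    positivity
  have a2 : 0 ≤ Z⁻¹ j j := by
    rw [e j, h1]
    positivity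
  have a3 : Z⁻¹ j j = 0 := by nlinarith [h Z hZ]
  exact a1.ne' (E1 hU h hZ a3)

lemma E (hU : Good K U) {Y : Matrix ι ι ℝ} (hY : Y ∈ U) {j k : ι} (hK : K j k) (hjk : j ≠ k) :
    Y⁻¹ j j * Y⁻¹ k k < 0 := by
  have h : ∀ Y ∈ U, Y⁻¹ j j * Y⁻¹ k k ≤ 0 := fun Y hY => E0 hU hY hK hjk
  have h' : ∀ Y ∈ U, Y⁻¹ k k * Y⁻¹ j j ≤ 0 := fun Y hY => by rw [mul_comm]; exact h Y hY
  exact lt_of_le_of_ne (h Y hY) (mul_ne_zero (E2 hU h hY) (E2 hU h' hY))

lemma step (hU : Good K U) (σ s : ℝ) (hs : 0 ≤ s) (R : Finset ι)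
    (hR : ∀ i ∈ R, ∃ k, K i k ∧ i ≠ k) (h : ∀ Y ∈ U, ∀ i ∈ R, 0 < σ * Y⁻¹ i i) {i : ι}
    (hi : i ∈ R) : Good K ((fun Y => Y + (σ * s) • single i i (1 : ℝ)) '' U) ∧
      ∀ Y ∈ (fun Y => Y + (σ * s) • single i i (1 : ℝ)) '' U, ∀ j ∈ R, 0 < σ * Y⁻¹ j j := by
  have hp : ∀ Y ∈ U, 0 < 1 + σ * s * Y⁻¹ i i := fun Y hY => by nlinarith [h Y hY i hi]
  have G : Good K ((fun Y => Y + (σ * s) • single i i (1 : ℝ)) '' U) := by
    refine ⟨?_, ?_, ?_, ?_⟩
    · rintro _ ⟨Y, hY, rfl⟩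
      simp [transpose_add, hU.symm Y hY]
    · rintro _ ⟨Y, hY, rfl⟩
      exact (SM (hU.det Y hY) i _ (hp Y hY).ne').1
    · rintro _ ⟨Y, hY, rfl⟩ j k hK x
      exact ⟨_, hU.free Y hY j k hK x, by simp only; abel⟩
    · rintro _ ⟨Y, hY, rfl⟩ l
      obtain ⟨δ, hδ, h⟩ := hU.diag Y hY l
      exact ⟨δ, hδ, fun t ht => ⟨_, h t ht, by simp only; abel⟩⟩
  refine ⟨G, ?_⟩
  rintro Z hZ j hj
  obtain ⟨k, hK, hjk⟩ := hR j hj
  have e1 := E G hZ hK hjk
  obtain ⟨Y, hY, rfl⟩ := hZ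
  have e2 := E hU hY hK hjk
  have e3 := h Y hY j hj
  have e4 : σ * Y⁻¹ k k < 0 := by
    by_contra hc
    push Not at hc
    have hσ : 0 < σ * σ := mul_self_pos.mpr (by rintro rfl; simp at e3)
    nlinarith [mul_nonneg e3.le hc]
  have e5 := (SM (hU.det Y hY) i _ (hp Y hY).ne').2 k k
  rw [inv_symm (hU.symm Y hY) i k] at e5
  have e6 : 0 ≤ σ * (σ * s / (1 + σ * s * Y⁻¹ i i) * (Y⁻¹ k i * Y⁻¹ k i)) := by
    have : σ * (σ * s / (1 + σ * s * Y⁻¹ i i) * (Y⁻¹ k i * Y⁻¹ k i)) =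
        (σ * σ) * s / (1 + σ * s * Y⁻¹ i i) * (Y⁻¹ k i * Y⁻¹ k i) := by ring
    rw [this]
    exact mul_nonneg (div_nonneg (mul_nonneg (mul_self_nonneg _) hs) (hp Y hY).le)
      (mul_self_nonneg _)
  simp only at e1 ⊢
  set a := ((Y + (σ * s) • single i i (1 : ℝ))⁻¹ : Matrix ι ι ℝ) j j
  set b := ((Y + (σ * s) • single i i (1 : ℝ))⁻¹ : Matrix ι ι ℝ) k k
  have e7 : σ * b < 0 := by rw [e5]; linarith
  by_contra hc
  push Not at hc
  have hσ : 0 < σ * σ := mul_self_pos.mpr (by rintro rfl; simp at e3)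
  nlinarith [mul_nonneg_of_nonpos_of_nonpos hc e7.le]

lemma steps (hU : Good K U) (σ s : ℝ) (hs : 0 ≤ s) (R : Finset ι)
    (hR : ∀ i ∈ R, ∃ k, K i k ∧ i ≠ k) (h : ∀ Y ∈ U, ∀ i ∈ R, 0 < σ * Y⁻¹ i i) (S : Finset ι) :
    S ⊆ R → Good K ((fun Y => Y + (σ * s) • ∑ i ∈ S, single i i (1 : ℝ)) '' U) ∧
      ∀ Y ∈ (fun Y => Y + (σ * s) • ∑ i ∈ S, single i i (1 : ℝ)) '' U, ∀ j ∈ R,
        0 < σ * Y⁻¹ j j := by
  induction S using Finset.induction_on with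
  | empty => intro _; simpa using ⟨hU, h⟩
  | insert i S hi ih =>
    intro hS
    obtain ⟨a, b⟩ := ih (fun x hx => hS (Finset.mem_insert_of_mem hx))
    have := step a σ s hs R hR b (hS (Finset.mem_insert_self i S))
    rw [Set.image_image] at this
    have e : (fun Y : Matrix ι ι ℝ => Y + (σ * s) • ∑ j ∈ insert i S, single j j (1 : ℝ)) =
        fun Y => Y + (σ * s) • ∑ j ∈ S, single j j (1 : ℝ) + (σ * s) • single i i (1 : ℝ) := by
      funext Y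
      rw [Finset.sum_insert hi, smul_add]
      abel
    rw [e]
    exact this

lemma bound (hU : Good K U) (σ : ℝ) (hσ : σ * σ = 1) (R : Finset ι)
    (hR : ∀ i ∈ R, ∃ k, K i k ∧ i ≠ k) (h : ∀ Y ∈ U, ∀ i ∈ R, 0 < σ * Y⁻¹ i i)
    {X : Matrix ι ι ℝ} (hX : X ∈ U) (hA : X.IsHermitian) :
    (Finset.univ.filter fun j => σ * hA.eigenvalues j < 0).card + R.card ≤ Fintype.card ι := by
  have h1 : X * X⁻¹ = 1 := mul_nonsing_inv X (Ne.isUnit (hU.det X hX))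
  have hWs : (X⁻¹)ᵀ = X⁻¹ := by rw [transpose_nonsing_inv, hU.symm X hX]
  set W := X⁻¹ with hW
  let P : Matrix ι {i // i ∈ R} ℝ := fun i r => if i = r.1 then 1 else 0
  have hP : Pᵀ * P = 1 := by
    ext r r'
    simp only [P, Matrix.mul_apply, transpose_apply, one_apply, ite_mul, one_mul, zero_mul,
      Finset.sum_ite_eq', Finset.mem_univ, if_true, Subtype.ext_iff]
  have hP2 : P * Pᵀ = ∑ i ∈ R, single i i (1 : ℝ) := by
    ext a b
    simp only [P, Matrix.mul_apply, transpose_apply, Matrix.sum_apply, single, of_apply]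
    rw [Finset.sum_coe_sort R (fun r => (if a = r then (1 : ℝ) else 0) * if b = r then 1 else 0)]
    refine Finset.sum_congr rfl fun r _ => ?_
    by_cases h1 : a = r
    · by_cases h2 : b = r
      · rw [if_pos h1, if_pos h2, if_pos ⟨h1.symm, h2.symm⟩, one_mul]
      · rw [if_neg h2, if_neg (fun h : r = a ∧ r = b => h2 h.2.symm), mul_zero]
    · rw [if_neg h1, if_neg (fun h : r = a ∧ r = b => h1 h.1.symm), zero_mul]
  have hB : (Pᵀ * W * P).IsHermitian := by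
    unfold IsHermitian
    rw [conjTranspose_eq_transpose_of_trivial, transpose_mul, transpose_mul, transpose_transpose,
      hWs, Matrix.mul_assoc]
  have hinj : ∀ v, (W * P) *ᵥ v = 0 → v = 0 := by
    intro v hv
    have : (Pᵀ * (X * W) * P) *ᵥ v = 0 := by
      rw [Matrix.mul_assoc, Matrix.mul_assoc, ← mulVec_mulVec, ← mulVec_mulVec, hv]
      simp
    rwa [h1, Matrix.mul_one, hP, one_mulVec] at this
  have hev : ∀ r, 0 ≤ σ * hB.eigenvalues r := by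
    intro r
    by_contra hc
    push Not at hc
    have e := hB.mulVec_eigenvectorBasis r
    set μ := hB.eigenvalues r
    have hv : (⇑(hB.eigenvectorBasis r) : {i // i ∈ R} → ℝ) ≠ 0 := by
      intro h0
      exact hB.eigenvectorBasis.orthonormal.ne_zero r (by ext i; exact congrFun h0 i)
    set v := (⇑(hB.eigenvectorBasis r) : {i // i ∈ R} → ℝ)
    have hs : 0 ≤ -1 / (σ * μ) := div_nonneg_of_nonpos (by norm_num) hc.le
    apply (steps hU σ _ hs R hR h R subset_rfl).1.det _ ⟨X, hX, rfl⟩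
    rw [← exists_mulVec_eq_zero_iff]
    refine ⟨(W * P) *ᵥ v, fun h0 => hv (hinj v h0), ?_⟩
    simp only
    rw [← hP2, add_mulVec, smul_mulVec, mulVec_mulVec, mulVec_mulVec, ← Matrix.mul_assoc, h1,
      Matrix.one_mul, Matrix.mul_assoc P, ← Matrix.mul_assoc Pᵀ, ← mulVec_mulVec v P, e,
      mulVec_smul, smul_smul]
    have hμ : μ ≠ 0 := by rintro h0; rw [h0] at hc; simp at hc
    have hσ0 : σ ≠ 0 := by rintro h0; rw [h0] at hc; simp at hc
    have : σ * (-1 / (σ * μ)) * μ = -1 := by field_simp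
    rw [this]
    simp
  have := dim hA σ (W * P) hinj (fun v => by
    obtain ⟨V, -, hd⟩ := decomp hB
    have e : ((W * P) *ᵥ v) ⬝ᵥ X *ᵥ ((W * P) *ᵥ v) = v ⬝ᵥ (Pᵀ * W * P) *ᵥ v := by
      rw [mulVec_mulVec, ← Matrix.mul_assoc, h1, Matrix.one_mul, dotProduct_comm,
        Matrix.mul_assoc, ← mulVec_mulVec v Pᵀ, dotProduct_mulVec v, vecMul_transpose]
    rw [e, hd, form_eq, Finset.mul_sum]
    exact Finset.sum_nonneg fun r _ => by
      rw [← mul_assoc]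
      exact mul_nonneg (hev r) (sq_nonneg _))
  simpa using this

end Pool.Agent.H14.Ine1
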