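import Mathlib
set_option autoImplicit false
set_option maxHeartbeats 400000

namespace Pool.Agent.H14.Iv
open Finset Matrix

def I (N a b : ℕ) : Fin N → ℤ := fun t => if a ≤ t ∧ (t : ℕ) < b then 1 else 0

lemma tu (N s : ℕ) (a b : Fin N → ℕ) (hs : ∑ r, (b r - a r) = s) :
    |(Matrix.of fun r => I N (a r) (b r)).det| ≤ 1 := by
  induction s using Nat.strong_induction_on generalizing a b with
  | _ s ih =>
    by_cases h1 : ∃ r, b r ≤ a r ∨ N ≤ a r
    · obtain ⟨r, hr⟩ := h1
      rw [det_eq_zero_of_row_eq_zero r fun t => if_neg (by have := t.2; omega)]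
      simp
    push Not at h1
    by_cases h2 : ∃ r r', r ≠ r' ∧ a r = a r' ∧ b r ≤ b r'
    · obtain ⟨r, r', h3, h4, h5⟩ := h2
      have e := det_updateRow_add_smul_self (Matrix.of fun r => I N (a r) (b r)) h3.symm (-1)
      have e2 : (Matrix.of fun r => I N (a r) (b r)).updateRow r'
          ((Matrix.of fun r => I N (a r) (b r)) r' + (-1 : ℤ) • (Matrix.of fun r => I N (a r) (b r)) r) =
          Matrix.of fun x => I N (Function.update a r' (b r) x) (b x) := by
        ext x t
        by_cases hx : x = r'
        · subst hx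
          have := h1 r
          simp only [updateRow_self, Pi.add_apply, Pi.smul_apply, of_apply, I, Function.update_self,
            smul_eq_mul]
          split_ifs <;> omega
        · simp [updateRow_ne hx, Function.update_of_ne hx]
      rw [← e, e2]
      refine ih _ ?_ _ _ rfl
      rw [← hs]
      refine sum_lt_sum (fun x _ => ?_) ⟨r', mem_univ _, ?_⟩
      · by_cases hx : x = r'
        · subst hx; have := h1 r; rw [Function.update_self]; omega
        · rw [Function.update_of_ne hx]
      · have := h1 r; rw [Function.update_self]; omega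
    · have inj : Function.Injective fun r => (⟨a r, (h1 r).2⟩ : Fin N) := fun r r' h => by
        by_contra hne
        have h' : a r = a r' := congrArg Fin.val h
        rcases le_total (b r) (b r') with h3 | h3
        · exact h2 ⟨r, r', hne, h', h3⟩
        · exact h2 ⟨r', r, Ne.symm hne, h'.symm, h3⟩
      let σ := Equiv.ofBijective _ (Finite.injective_iff_bijective.1 inj)
      have hσ : ∀ x, a (σ.symm x) = x := fun x => congrArg Fin.val (σ.apply_symm_apply x)
      have e := det_permute σ.symm (Matrix.of fun r => I N (a r) (b r))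
      rw [det_of_upperTriangular (fun i j hij => by
        simp only [submatrix_apply, of_apply, I, hσ, id]
        exact if_neg fun h => absurd hij (not_lt.2 h.1)), prod_eq_one fun i _ => by
          simp only [submatrix_apply, of_apply, I, id]
          exact if_pos ⟨(hσ i).le, hσ i ▸ (h1 _).1⟩] at e
      have := congrArg abs e
      rw [abs_mul, abs_one] at this
      rcases Int.units_eq_one_or (Equiv.Perm.sign σ.symm) with h | h <;> simp [h] at this <;>
        exact this.ge

lemma bound (N : ℕ) (S : Finset (Fin N)) (a b c e : Fin N → ℕ) :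
    |(Matrix.of fun r => I N (a r) (b r) - if r ∈ S then I N (c r) (e r) else 0).det| ≤
      2 ^ S.card := by
  induction S using Finset.induction_on generalizing a b with
  | empty => simpa using tu N _ a b rfl
  | insert r S hr ih =>
    have h1 := ih a b
    have h2 := ih (Function.update a r (c r)) (Function.update b r (e r))
    set M := Matrix.of fun r => I N (a r) (b r) - if r ∈ S then I N (c r) (e r) else 0 with hM
    have e1 : (Matrix.of fun x => I N (a x) (b x) - if x ∈ insert r S then I N (c x) (e x) else 0) =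
        M.updateRow r (M r + (-1 : ℤ) • I N (c r) (e r)) := by
      ext x t
      by_cases hx : x = r
      · subst hx; simp [hM, hr, sub_eq_add_neg]
      · simp [hM, updateRow_ne hx, hx]
    have e2 : (Matrix.of fun x => I N (Function.update a r (c r) x) (Function.update b r (e r) x) -
        if x ∈ S then I N (c x) (e x) else 0) = M.updateRow r (I N (c r) (e r)) := by
      ext x t
      by_cases hx : x = r
      · subst hx; simp [hr]
      · simp [hM, updateRow_ne hx, Function.update_of_ne hx]
    rw [e2] at h2
    rw [e1, det_updateRow_add, det_updateRow_smul, updateRow_eq_self, card_insert_of_notMem hr,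
      pow_succ]
    refine (abs_add_le _ _).trans ?_
    rw [neg_one_mul, abs_neg]
    linarith

theorem main (m : ℕ) (d : Fin (m + 1) → ℝ) (hd : ∀ t, 0 < d t) (i j k l : Fin m → ℕ)
    (hli : LinearIndependent ℝ fun r (t : Fin (m + 1)) =>
      (if i r ≤ t ∧ (t : ℕ) < j r then (1 : ℝ) else 0) - if k r ≤ t ∧ (t : ℕ) < l r then 1 else 0)
    (heq : ∀ r, ∑ t ∈ univ.filter (fun t : Fin (m + 1) => i r ≤ t ∧ (t : ℕ) < j r), d t =
      ∑ t ∈ univ.filter (fun t : Fin (m + 1) => k r ≤ t ∧ (t : ℕ) < l r), d t) (t : Fin (m + 1)) :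
    ∑ s, d s ≤ 2 ^ m * d t := by
  have hb := bound (m + 1) (univ.erase 0) (Fin.cons 0 i) (Fin.cons (m + 1) j) (Fin.cons 0 k)
    (Fin.cons 0 l)
  rw [card_erase_of_mem (mem_univ _), card_univ, Fintype.card_fin, Nat.add_sub_cancel] at hb
  set M : Matrix (Fin (m + 1)) (Fin (m + 1)) ℤ := Matrix.of fun r =>
    I (m + 1) ((Fin.cons 0 i : Fin (m + 1) → ℕ) r) ((Fin.cons (m + 1) j : Fin (m + 1) → ℕ) r) -
      if r ∈ univ.erase 0 then I (m + 1) ((Fin.cons 0 k : Fin (m + 1) → ℕ) r)
        ((Fin.cons 0 l : Fin (m + 1) → ℕ) r) else 0 with hM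
  set A := M.map (Int.castRingHom ℝ) with hA
  have r0 : ∀ t, A 0 t = 1 := fun t => by simp [hA, hM, I, t.2]
  have rs : ∀ r t, A (Fin.succ r) t = (if i r ≤ t ∧ (t : ℕ) < j r then (1 : ℝ) else 0) -
      if k r ≤ t ∧ (t : ℕ) < l r then 1 else 0 := fun r t => by
    simp [hA, hM, I, Fin.succ_ne_zero]
  have hS : 0 < ∑ s, d s := sum_pos (fun s _ => hd s) univ_nonempty
  have mv : A *ᵥ d = Pi.single 0 (∑ s, d s) := by
    funext r
    refine Fin.cases ?_ (fun r => ?_) r
    · simp [mulVec, dotProduct, r0]
    · have := heq r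
      rw [sum_filter, sum_filter] at this
      simp [mulVec, dotProduct, rs, sub_mul, this]
  have hdet : A.det ≠ 0 := by
    intro h
    obtain ⟨v, hv, hv'⟩ := exists_vecMul_eq_zero_iff.2 h
    have v0 : v 0 = 0 := by
      have := congrArg (· ⬝ᵥ d) hv'
      simp only [← dotProduct_mulVec, mv, dotProduct_single, zero_dotProduct] at this
      exact (mul_eq_zero.1 this).resolve_right hS.ne'
    refine hv (funext fun r => Fin.cases v0 (Fintype.linearIndependent_iff.1 hli
      (fun r => v r.succ) (funext fun t => ?_)) r)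
    have := congrFun hv' t
    simp only [vecMul, dotProduct, Fin.sum_univ_succ, v0, zero_mul, zero_add, rs] at this
    simpa using this
  have key : (M.det : ℝ) * d t = (M.adjugate t 0 : ℝ) * ∑ s, d s := by
    have := congrFun (congrArg (A.adjugate *ᵥ ·) mv) t
    simp only [mulVec_mulVec, adjugate_mul, smul_mulVec, one_mulVec, Pi.smul_apply, smul_eq_mul,
      mulVec_single] at this
    rw [hA, ← RingHom.mapMatrix_apply, ← RingHom.map_det, ← RingHom.map_adjugate] at this
    simpa [mul_comm] using this
  have hd' : (M.det : ℝ) ≠ 0 := by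
    rwa [hA, ← RingHom.mapMatrix_apply, ← RingHom.map_det] at hdet
  have h1 : (1 : ℝ) ≤ |(M.adjugate t 0 : ℝ)| := by
    have : M.adjugate t 0 ≠ 0 := fun h => by
      rw [h, Int.cast_zero, zero_mul] at key
      exact mul_ne_zero hd' (hd t).ne' key
    exact_mod_cast Int.one_le_abs this
  have h2 : |(M.det : ℝ)| ≤ 2 ^ m := by exact_mod_cast hb
  have := congrArg abs key
  rw [abs_mul, abs_mul, abs_of_pos (hd t), abs_of_pos hS] at this
  nlinarith [hd t]

end Pool.Agent.H14.Iv
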