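import Pool.Agent.H14.Wr2

namespace Pool.Agent.H14.JnA
open Pool.Agent.H14.Wr

/-- x has word length at most n with respect to S -/
def LenLe {G : Type} [Group G] (S : Finset G) (n : ℕ) (x : G) : Prop :=
  ∃ l : List G, l.length ≤ n ∧ (∀ s ∈ l, s ∈ S ∨ s⁻¹ ∈ S) ∧ l.prod = x

/-- some finite-index normal subgroup of index at most d separates the conjugacy classes -/
def DepthLe {G : Type} [Group G] (x y : G) (d : ℝ) : Prop :=
  ∃ (N : Subgroup G) (_ : N.Normal), N.index ≠ 0 ∧ (N.index : ℝ) ≤ d ∧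
    ¬ IsConj (x : G ⧸ N) (y : G ⧸ N)

/-- the conjugacy depth function of G for S is dominated by g -/
def ConjLe {G : Type} [Group G] (S : Finset G) (g : ℕ → ℝ) : Prop :=
  ∃ C : ℕ, 0 < C ∧ ∀ (n : ℕ) (x y : G), LenLe S n x → LenLe S n y → ¬ IsConj x y →
    DepthLe x y (C * g (C * n))

lemma pos_of {G : Type} [Group G] {S : Finset G} {n : ℕ} {x y : G} (hx : LenLe S n x)
    (hy : LenLe S n y) (h : ¬ IsConj x y) : 1 ≤ n := by
  by_contra hn
  obtain ⟨l, h1, -, rfl⟩ := hx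
  obtain ⟨l', h2, -, rfl⟩ := hy
  rw [List.length_eq_zero_iff.1 (by omega : l.length = 0),
    List.length_eq_zero_iff.1 (by omega : l'.length = 0)] at h
  exact h (IsConj.refl _)

lemma one_le_mul_pow (C : ℕ) (hC : 0 < C) (a : ℝ) (ha : 0 ≤ a) : a ≤ C * a :=
  le_mul_of_one_le_left ha (by exact_mod_cast hC)

theorem both (k : ℕ) (hk : 1 ≤ k) :
    (∀ p : ℕ, p.Prime → ∀ S : Finset (W (ZMod p) (Fin k → ℤ)),
      ConjLe S fun n => (2 : ℝ) ^ (n ^ k)) ∧
    ∀ S : Finset (W ℤ (Fin k → ℤ)), ConjLe S fun n => Real.log n ^ (n ^ (2 * k)) := by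
  constructor
  · intro p hp S
    have : NeZero p := ⟨hp.ne_zero⟩
    obtain ⟨K, hK, hS⟩ := exists_K (ν := fun _ => 0) (by simp) rfl S
    refine ⟨(p + 1) * (13 * K), by positivity, fun n x y hx hy h => ?_⟩
    have hn := pos_of hx hy h
    obtain ⟨l, h1, h2, rfl⟩ := hx
    obtain ⟨l', h3, h4, rfl⟩ := hy
    obtain ⟨N, hN, a1, a2, a3⟩ := core (AddMonoidHom.id (ZMod p)) (K * n) (fun v w _ _ e => e) rfl
      ((hS l h2).mono (Nat.mul_le_mul_left _ h1)) ((hS l' h4).mono (Nat.mul_le_mul_left _ h3)) h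
    refine ⟨N, hN, a1, le_trans ?_ (one_le_mul_pow _ (by positivity) _ (by positivity)), a3⟩
    rw [Nat.card_zmod] at a2
    have b1 : 12 * (K * n) + 1 ≤ 13 * K * n := by nlinarith
    have b2 : (p + 1) * (12 * (K * n) + 1) ^ k ≤ ((p + 1) * (13 * K) * n) ^ k := by
      rw [mul_assoc, mul_pow]
      exact Nat.mul_le_mul (Nat.le_self_pow (by omega) _) (Nat.pow_le_pow_left b1 _)
    have b3 : (N.index : ℝ) ≤ 2 ^ (((p + 1) * (13 * K) * n) ^ k) := by
      exact_mod_cast a2.trans (Nat.pow_le_pow_right (by norm_num) b2)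
    exact b3
  · intro S
    obtain ⟨K, hK, hS⟩ := exists_K (ν := Int.natAbs) Int.natAbs_add_le rfl S
    refine ⟨13 * K, by positivity, fun n x y hx hy h => ?_⟩
    have hn := pos_of hx hy h
    obtain ⟨l, h1, h2, rfl⟩ := hx
    obtain ⟨l', h3, h4, rfl⟩ := hy
    obtain ⟨N, hN, a1, a2, a3⟩ := core (Int.castAddHom (ZMod (2 * (K * n) + 1))) (K * n)
      (fun v w hv hw e => by
        have := (ZMod.intCast_eq_intCast_iff_dvd_sub v w (2 * (K * n) + 1)).1 e
        have := Int.eq_zero_of_dvd_of_natAbs_lt_natAbs this (by omega)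
        omega) rfl
      ((hS l h2).mono (Nat.mul_le_mul_left _ h1)) ((hS l' h4).mono (Nat.mul_le_mul_left _ h3)) h
    have b0 : 1 ≤ K * n := Nat.mul_pos hK hn
    have b1 : 12 * (K * n) + 1 ≤ 13 * K * n := by nlinarith
    have lg : (2 : ℝ) ≤ Real.log ((13 * K * n : ℕ) : ℝ) := by
      have c1 : (13 : ℝ) ≤ ((13 * K * n : ℕ) : ℝ) := by exact_mod_cast (by omega : 13 ≤ 13 * K * n)
      rw [Real.le_log_iff_exp_le (by linarith)]
      have c2 := Real.exp_one_lt_d9
      have c3 : Real.exp 2 = Real.exp 1 * Real.exp 1 := by rw [← Real.exp_add]; norm_num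
      have c4 := Real.exp_pos 1
      nlinarith
    refine ⟨N, hN, a1, le_trans ?_ (one_le_mul_pow _ (by positivity) _ (by positivity)), a3⟩
    rw [Nat.card_zmod] at a2
    have b2 : (2 * (K * n) + 1 + 1) * (12 * (K * n) + 1) ^ k ≤ (13 * K * n) ^ (2 * k) := by
      rw [two_mul k, pow_add]
      exact Nat.mul_le_mul (le_trans (by omega) (Nat.le_self_pow (by omega) _))
        (Nat.pow_le_pow_left b1 _)
    have b3 : (N.index : ℝ) ≤ 2 ^ ((13 * K * n) ^ (2 * k)) := by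
      exact_mod_cast a2.trans (Nat.pow_le_pow_right (by norm_num) b2)
    exact b3.trans (pow_le_pow_left₀ (by norm_num) lg _)

end Pool.Agent.H14.JnA
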