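import Pool.Agent.H14.Pe2
set_option autoImplicit false

open Finset Polynomial Equiv

namespace Pool.Agent.H14.JnB

/-- `σ` lists the blocks of a set partition `r`, each block increasingly, blocks ordered by
increasing smallest element. -/
def RunSorted {n : ℕ} (σ : Perm (Fin n)) : Prop :=
  ∃ r : Setoid (Fin n), ∀ i j, i < j →
    (r (σ i) (σ j) ∧ σ i < σ j) ∨ ∃ a, r a (σ i) ∧ ∀ b, r b (σ j) → a < b

open Classical in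
/-- `Q l n` is `Q_{n+1}(l 1 * t, l 2 * t, ...)`. -/
noncomputable def Q (l : ℕ → ℝ) (n : ℕ) : ℝ[X] :=
  ∑ σ ∈ univ.filter (fun σ : Perm (Fin (n + 1)) => RunSorted σ),
    ∏ k ∈ univ.filter (fun k : Fin n => σ k.succ < σ k.castSucc), (C (l (k + 1)) * X)

theorem both :
    (∀ l : ℕ → ℝ, (∀ k, 0 < l k) → ∀ (n : ℕ) (z : ℂ), aeval z (Q l n) = 0 → z.im = 0) ∧
    ∃ l : ℕ → ℝ, (∀ k, 0 < l k) ∧ ∃ a b f1 f2 g1 g2 : ℝ, a ≠ 0 ∧ b ≠ 0 ∧ f2 ≤ f1 ∧ g2 ≤ g1 ∧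
      Q l 4 = C a * ((X - C f1) * (X - C f2)) ∧ Q l 5 = C b * ((X - C g1) * (X - C g2)) ∧
      g2 < f2 :=
  ⟨Pool.Agent.H14.Pe.QQ_real, Pool.Agent.H14.Pe.q2⟩

end Pool.Agent.H14.JnB
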