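import Pool.Agent.H14.Fx3

namespace Pool.Agent.H14.JnC

open Filter Topology

/-- No factor `xx` with `x` nonempty (positions are numbered from 0). -/
def SquareFree (u : ℕ → Fin 3) : Prop :=
  ∀ i m : ℕ, 1 ≤ m → ¬ ∀ j < m, u (i + j) = u (i + m + j)

/-- Replacing the letters at positions in `P` by holes leaves no square of compatible halves
of period at least 2. -/
def Wildcard (u : ℕ → Fin 3) (P : Set ℕ) : Prop :=
  ∀ i m : ℕ, 2 ≤ m → ¬ ∀ j < m, i + j ∈ P ∨ i + m + j ∈ P ∨ u (i + j) = u (i + m + j)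

/-- Upper density of a set of positions. -/
noncomputable def density (P : Set ℕ) : ℝ :=
  limsup (fun n : ℕ => (((P ∩ Set.Iio n).ncard : ℝ) / n)) atTop

/-- Flexibility: supremum of the upper densities of wildcard sets. -/
noncomputable def flex (u : ℕ → Fin 3) : ℝ :=
  sSup {d | ∃ P, Wildcard u P ∧ d = density P}

/-- The word `φ^k(x)`. -/
def iter {A : Type} (φ : A → List A) (x : A) (k : ℕ) : List A :=
  (fun l : List A => l.flatMap φ)^[k] [x]

/-- `w = φ^ω(x)` for a morphism `φ` prolongable on `x`. -/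
def FixedPoint {A : Type} (φ : A → List A) (x : A) (w : ℕ → A) : Prop :=
  (∃ s, φ x = x :: s) ∧ (∀ N, ∃ k, N ≤ (iter φ x k).length) ∧
    ∀ k i, i < (iter φ x k).length → (iter φ x k)[i]? = some (w i)

def PurelyMorphic (u : ℕ → Fin 3) : Prop := ∃ φ x, FixedPoint φ x u

def Morphic (u : ℕ → Fin 3) : Prop :=
  ∃ (r : ℕ) (φ : Fin r → List (Fin r)) (x : Fin r) (w : ℕ → Fin r) (τ : Fin r → Fin 3),
    FixedPoint φ x w ∧ ∀ n, u n = τ (w n)

open Pool.Agent.H14.Fx

theorem ncard_eq (P : Set ℕ) [DecidablePred (· ∈ P)] (n : ℕ) :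
    (P ∩ Set.Iio n).ncard = Nat.count (· ∈ P) n := by
  rw [Nat.count_eq_card_filter_range, ← Set.ncard_coe_finset]
  congr 1
  ext t
  simp [and_comm]

theorem lim (c : ℝ) : Tendsto (fun n : ℕ => (3 / 16 : ℝ) + c / n) atTop (𝓝 (3 / 16)) := by
  simpa using (tendsto_const_div_atTop_nhds_zero_nat c).const_add (3 / 16 : ℝ)

theorem ev_le {u : ℕ → Fin 3} {P : Set ℕ} (hu : SquareFree u) (hP : Wildcard u P) :
    ∀ᶠ n : ℕ in atTop, (((P ∩ Set.Iio n).ncard : ℝ) / n) ≤ 3 / 16 + (53 / 16) / n := by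
  classical
  filter_upwards [eventually_gt_atTop 0] with n hn
  have hn' : (0 : ℝ) < n := by exact_mod_cast hn
  have h := upper u P hu hP n
  have h' : (16 : ℝ) * Nat.count (· ∈ P) n ≤ 3 * n + 53 := by exact_mod_cast h
  rw [ncard_eq, div_le_iff₀ hn', add_mul, div_mul_cancel₀ _ hn'.ne']
  linarith

theorem dens_le {u : ℕ → Fin 3} {P : Set ℕ} (hu : SquareFree u) (hP : Wildcard u P) :
    density P ≤ 3 / 16 := by
  rw [← (lim (53 / 16)).limsup_eq]
  refine limsup_le_limsup (ev_le hu hP) ?_ (lim _).isBoundedUnder_le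
  exact isCoboundedUnder_le_of_le atTop (x := 0) fun n => by positivity

theorem flex_le {u : ℕ → Fin 3} (hu : SquareFree u) : flex u ≤ 3 / 16 := by
  refine csSup_le ⟨density ∅, ∅, ?_, rfl⟩ ?_
  · intro i m hm h
    exact hu i m (by omega) fun j hj => by simpa using h j hj
  · rintro d ⟨P, hP, rfl⟩
    exact dens_le hu hP

def u0 (n : ℕ) : Fin 3 := ⟨U n, U_lt n⟩

def P0 : Set ℕ := {t | hole t = true}

theorem wild0 : Wildcard u0 P0 := by
  intro i m hm h
  refine main m hm i fun j hj => ?_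
  rcases h j hj with a | a | a
  · exact Or.inl a
  · exact Or.inr (Or.inl a)
  · exact Or.inr (Or.inr (congrArg Fin.val a))

theorem sq0 : SquareFree u0 := by
  intro i m hm h
  by_cases h1 : m = 1
  · subst h1
    exact U_adj i (congrArg Fin.val (h 0 (by omega)))
  · exact wild0 i m (by omega) fun j hj => Or.inr (Or.inr (h j hj))

theorem dens0 : density P0 = 3 / 16 := by
  apply Tendsto.limsup_eq
  refine tendsto_of_tendsto_of_tendsto_of_le_of_le' (lim (-3)) (lim (53 / 16)) ?_
    (ev_le sq0 wild0)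
  filter_upwards [eventually_gt_atTop 0] with n hn
  have hn' : (0 : ℝ) < n := by exact_mod_cast hn
  haveI : DecidablePred (· ∈ P0) := fun t => inferInstanceAs (Decidable (hole t = true))
  have h := count_hole n
  have e : Nat.count (· ∈ P0) n = Nat.count (fun t => hole t = true) n := by
    congr 1
  have h' : (3 : ℝ) * n ≤ 16 * Nat.count (· ∈ P0) n + 48 := by rw [e]; exact_mod_cast h
  rw [ncard_eq, le_div_iff₀ hn', add_mul, div_mul_cancel₀ _ hn'.ne']
  linarith

theorem flex0 : flex u0 = 3 / 16 := by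
  refine le_antisymm (flex_le sq0) (le_csSup ⟨3 / 16, ?_⟩ ⟨P0, wild0, dens0.symm⟩)
  rintro d ⟨P, hP, rfl⟩
  exact dens_le sq0 hP

def phi (x : Fin 3) : List (Fin 3) := (List.range 96).map fun t => ⟨cd x t, cd_lt _ _⟩

theorem flat (n : ℕ) : ((List.range n).map u0).flatMap phi = (List.range (96 * n)).map u0 := by
  induction n with
  | zero => rfl
  | succ n ih =>
    rw [List.range_succ, List.map_append, List.flatMap_append, ih,
      show 96 * (n + 1) = 96 * n + 96 by ring, List.range_add, List.map_append, List.map_map]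
    congr 1
    simp only [List.map_cons, List.map_nil, List.flatMap_cons, List.flatMap_nil,
      List.append_nil, phi]
    refine List.map_congr_left fun t ht => Fin.ext ?_
    exact (U_blk n t (List.mem_range.mp ht)).symm

theorem u00 : u0 0 = 0 := by
  apply Fin.ext
  change U 0 = 0
  rw [U]; simp

theorem iter_eq (k : ℕ) : iter phi 0 k = (List.range (96 ^ k)).map u0 := by
  induction k with
  | zero => simp [iter, u00]
  | succ k ih =>
    unfold iter at ih ⊢
    rw [Function.iterate_succ_apply', ih, flat, pow_succ']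

theorem fix0 : FixedPoint phi 0 u0 := by
  refine ⟨⟨(phi 0).tail, by decide +kernel⟩, fun N => ⟨N, ?_⟩, fun k i hi => ?_⟩
  · rw [iter_eq, List.length_map, List.length_range]
    exact (Nat.lt_pow_self (by norm_num)).le
  · rw [iter_eq] at hi ⊢
    simp only [List.length_map, List.length_range] at hi
    simp [hi]

theorem both :
    sSup {f | ∃ u, Morphic u ∧ SquareFree u ∧ f = flex u} = 3 / 16 ∧
    sSup {f | ∃ u, PurelyMorphic u ∧ SquareFree u ∧ f = flex u} = 3 / 16 := by
  constructor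
  · refine IsGreatest.csSup_eq ⟨⟨u0, ⟨3, phi, 0, u0, id, fix0, fun _ => rfl⟩, sq0, flex0.symm⟩, ?_⟩
    rintro f ⟨u, -, hu, rfl⟩
    exact flex_le hu
  · refine IsGreatest.csSup_eq ⟨⟨u0, ⟨phi, 0, fix0⟩, sq0, flex0.symm⟩, ?_⟩
    rintro f ⟨u, -, hu, rfl⟩
    exact flex_le hu

end Pool.Agent.H14.JnC
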