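import Mathlib
import Pool.Agent.H14.Ine1

namespace Pool.Agent.H14.JnD

open Matrix Pool.Agent.H14.Ine1

variable {N : ℕ}

/-- A is a symmetric completion of the E-indexed data M (E contains edges and loops). -/
def Completes (E : Set (Sym2 (Fin N))) (M : E → ℝ) (A : Matrix (Fin N) (Fin N) ℝ) : Prop :=
  A.IsHermitian ∧ ∀ i j (h : s(i, j) ∈ E), A i j = M ⟨s(i, j), h⟩

def MinRank (E : Set (Sym2 (Fin N))) (M : E → ℝ) (r : ℕ) : Prop :=
  (∃ A, Completes E M A ∧ A.rank = r) ∧ ∀ A, Completes E M A → r ≤ A.rank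

def FullRankTypical (E : Set (Sym2 (Fin N))) : Prop :=
  ∃ U : Set (E → ℝ), IsOpen U ∧ U.Nonempty ∧ ∀ M ∈ U, MinRank E M N

/-- m positive and n negative eigenvalues, with multiplicity. -/
def HasInertia (A : Matrix (Fin N) (Fin N) ℝ) (m n : ℕ) : Prop :=
  ∃ hA : A.IsHermitian, (Finset.univ.filter fun j => 0 < hA.eigenvalues j).card = m ∧
    (Finset.univ.filter fun j => hA.eigenvalues j < 0).card = n

/-- A proper bicoloring of the complement with m red (true) and n blue (false) vertices. -/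
def Bicol (E : Set (Sym2 (Fin N))) (m n : ℕ) : Prop :=
  ∃ c : Fin N → Bool, (∀ i j, s(i, j) ∉ E → c i ≠ c j) ∧
    (Finset.univ.filter fun i => c i = true).card = m ∧
    (Finset.univ.filter fun i => c i = false).card = n

lemma eig_ne {A : Matrix (Fin N) (Fin N) ℝ} (hA : A.IsHermitian) (h : N ≤ A.rank) (j : Fin N) :
    hA.eigenvalues j ≠ 0 := by
  intro hj
  rw [hA.rank_eq_card_non_zero_eigs] at h
  have := Fintype.card_subtype_lt (p := fun i => hA.eigenvalues i ≠ 0) (x := j) (by simpa using hj)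
  simp only [Fintype.card_fin] at this
  omega

lemma det_ne {A : Matrix (Fin N) (Fin N) ℝ} (hA : A.IsHermitian) (h : N ≤ A.rank) :
    A.det ≠ 0 := by
  rw [hA.det_eq_prod_eigenvalues]
  exact Finset.prod_ne_zero_iff.mpr fun j _ => by simpa using eig_ne hA h j

lemma rank_eq {A : Matrix (Fin N) (Fin N) ℝ} (h : ∀ v, A *ᵥ v = 0 → v = 0) : A.rank = N := by
  have : A.det ≠ 0 := fun h0 => by
    obtain ⟨v, hv, h1⟩ := exists_mulVec_eq_zero_iff.mpr h0
    exact hv (h v h1)
  simpa using rank_of_isUnit A ((isUnit_iff_isUnit_det A).mpr (Ne.isUnit this))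

lemma sum_card {A : Matrix (Fin N) (Fin N) ℝ} (hA : A.IsHermitian) (h : N ≤ A.rank) :
    (Finset.univ.filter fun j => 0 < hA.eigenvalues j).card +
      (Finset.univ.filter fun j => hA.eigenvalues j < 0).card = N := by
  have := Finset.card_filter_add_card_filter_not (s := Finset.univ)
    (fun j => 0 < hA.eigenvalues j)
  rw [Finset.card_fin] at this
  refine Eq.trans ?_ this
  congr 2
  ext j
  have := eig_ne hA h j
  simp only [Finset.mem_filter, Finset.mem_univ, true_and, not_lt]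
  exact ⟨le_of_lt, fun h => lt_of_le_of_ne h this⟩

noncomputable def res (E : Set (Sym2 (Fin N))) (Y : Matrix (Fin N) (Fin N) ℝ) : E → ℝ :=
  fun e => Sym2.lift ⟨fun i j => (Y i j + Y j i) / 2, fun i j => by ring⟩ e.1

lemma herm {Y : Matrix (Fin N) (Fin N) ℝ} : Y.IsHermitian ↔ Yᵀ = Y := by
  unfold IsHermitian
  rw [conjTranspose_eq_transpose_of_trivial]

lemma res_compl (E : Set (Sym2 (Fin N))) {Y : Matrix (Fin N) (Fin N) ℝ} (h : Yᵀ = Y) :
    Completes E (res E Y) Y := by
  refine ⟨herm.mpr h, fun i j _ => ?_⟩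
  have : Y j i = Y i j := congrFun (congrFun h i) j
  simp [res, this]

lemma res_eq {E : Set (Sym2 (Fin N))} {M : E → ℝ} {Y : Matrix (Fin N) (Fin N) ℝ}
    (h : Completes E M Y) : res E Y = M := by
  funext ⟨e, he⟩
  induction e using Sym2.ind with
  | h i j =>
    have : Y j i = Y i j := congrFun (congrFun (herm.mp h.1) i) j
    simp [res, this, h.2 i j he]

lemma res_add (E : Set (Sym2 (Fin N))) (Y Z : Matrix (Fin N) (Fin N) ℝ) (a b : ℝ) :
    res E (a • Y + b • Z) = a • res E Y + b • res E Z := by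
  funext ⟨e, he⟩
  induction e using Sym2.ind with
  | h i j =>
    simp [res]
    ring

lemma generic (E : Set (Sym2 (Fin N))) (M : E → ℝ) (m n : ℕ)
    (hM : M ∈ interior {M | MinRank E M N}) (A : Matrix (Fin N) (Fin N) ℝ)
    (hA : Completes E M A) (hI : HasInertia A m n) : Bicol E m n := by
  classical
  obtain ⟨ε, hε, hb⟩ := Metric.mem_nhds_iff.mp (mem_interior_iff_mem_nhds.mp hM)
  let U : Set (Matrix (Fin N) (Fin N) ℝ) := {Y | Yᵀ = Y ∧ res E Y ∈ Metric.ball M ε}
  have hAU : A ∈ U := ⟨herm.mp hA.1, by rw [res_eq hA]; exact Metric.mem_ball_self hε⟩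
  have hdet : ∀ Y ∈ U, Y.det ≠ 0 := fun Y hY =>
    det_ne (herm.mpr hY.1) ((hb hY.2).2 Y (res_compl E hY.1))
  have hfree : ∀ Y ∈ U, ∀ j k, s(j, k) ∉ E → ∀ x : ℝ,
      Y + x • (single j k (1 : ℝ) + single k j (1 : ℝ)) ∈ U := by
    intro Y hY j k hjk x
    refine ⟨by simp [transpose_add, hY.1, add_comm], ?_⟩
    have h0 : res E (single j k (1 : ℝ) + single k j (1 : ℝ)) = 0 := by
      funext ⟨e, he⟩
      induction e using Sym2.ind with
      | h a b =>
        have n1 : ¬ (j = a ∧ k = b) := by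
          rintro ⟨rfl, rfl⟩
          exact hjk he
        have n2 : ¬ (k = a ∧ j = b) := by
          rintro ⟨rfl, rfl⟩
          exact hjk (Sym2.eq_swap ▸ he)
        simp [res, single, n1, n2, and_comm]
        tauto
    have := res_add E Y (single j k (1 : ℝ) + single k j (1 : ℝ)) 1 x
    rw [one_smul, h0, one_smul, smul_zero, add_zero] at this
    rw [this]
    exact hY.2
  have G : Good (fun j k => s(j, k) ∉ E) U := by
    refine ⟨fun Y hY => hY.1, hdet, hfree, fun Y hY l => ?_⟩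
    have hc : Continuous fun t : ℝ => res E Y + t • res E (single l l (1 : ℝ)) := by fun_prop
    have ho := (Metric.isOpen_ball (x := M) (ε := ε)).preimage hc
    obtain ⟨δ, hδ, h⟩ := Metric.isOpen_iff.mp ho 0 (by simpa using hY.2)
    refine ⟨δ, hδ, fun t ht => ⟨by simp [transpose_add, hY.1], ?_⟩⟩
    have := res_add E Y (single l l (1 : ℝ)) 1 t
    rw [one_smul, one_smul] at this
    rw [this]
    exact h (by simpa using ht)
  have loop : ∀ i, s(i, i) ∈ E := by
    intro i
    by_contra hi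
    have h0 : ∀ Y ∈ U, Y⁻¹ i i = 0 := by
      intro Y hY
      by_contra h1
      apply hdet _ (hfree Y hY i i hi (-1 / (2 * Y⁻¹ i i)))
      rw [← exists_mulVec_eq_zero_iff]
      have e : Y *ᵥ (Y⁻¹ *ᵥ Pi.single i 1) = Pi.single i 1 := by
        rw [mulVec_mulVec, mul_nonsing_inv Y (Ne.isUnit (hdet Y hY)), one_mulVec]
      refine ⟨Y⁻¹ *ᵥ Pi.single i 1, fun h => ?_, ?_⟩
      · rw [h, mulVec_zero] at e
        simpa using congrFun e i
      · rw [add_mulVec, e, smul_mulVec, add_mulVec, single_mulVec]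
        funext a
        by_cases ha : a = i
        · subst ha
          simp
          field_simp
          ring
        · simp [ha]
    exact E2 G (j := i) (k := i) (fun Y hY => by rw [h0 Y hY]; simp) hAU (h0 A hAU)
  have ne : ∀ {i k}, s(i, k) ∉ E → i ≠ k := by
    rintro i k h rfl
    exact h (loop i)
  have const : ∀ i k, s(i, k) ∉ E → ∀ σ : ℝ, 0 < σ * A⁻¹ i i → ∀ Y ∈ U, 0 < σ * Y⁻¹ i i := by
    intro i k hik σ h Y hY
    have hm : ∀ τ ∈ Set.Icc (0 : ℝ) 1, (1 - τ) • A + τ • Y ∈ U := by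
      intro τ hτ
      refine ⟨by simp [transpose_add, hY.1, hAU.1], ?_⟩
      rw [res_add]
      exact convex_ball M ε hAU.2 hY.2 (by linarith [hτ.2]) hτ.1 (by ring)
    have hc : ContinuousOn (fun τ : ℝ => σ * ((1 - τ) • A + τ • Y)⁻¹ i i) (Set.Icc 0 1) := by
      have c1 : Continuous fun τ : ℝ => (1 - τ) • A + τ • Y := by fun_prop
      have : ∀ τ : ℝ, σ * ((1 - τ) • A + τ • Y)⁻¹ i i =
          σ * ((((1 - τ) • A + τ • Y).det)⁻¹ * ((1 - τ) • A + τ • Y).adjugate i i) := by
        intro τ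
        simp [inv_def]
      simp only [this]
      exact continuousOn_const.mul ((c1.matrix_det.continuousOn.inv₀
        fun τ hτ => hdet _ (hm τ hτ)).mul (c1.matrix_adjugate.matrix_elem i i).continuousOn)
    by_contra hn
    have := intermediate_value_Icc' zero_le_one hc (show (0 : ℝ) ∈ _ from
      ⟨by simpa using hn, by simpa using h.le⟩)
    obtain ⟨τ, hτ, h0⟩ := this
    have h1 := Pool.Agent.H14.Ine1.E G (hm τ hτ) hik (ne hik)
    rcases mul_eq_zero.mp h0 with h2 | h2
    · rw [h2] at h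
      simp at h
    · rw [h2] at h1
      simp at h1
  obtain ⟨hH, hm, hn⟩ := hI
  have hs := sum_card hH ((hb hAU.2).2 A (res_compl E hAU.1))
  let R := Finset.univ.filter fun i => (∃ k, s(i, k) ∉ E) ∧ 0 < A⁻¹ i i
  let B := Finset.univ.filter fun i => (∃ k, s(i, k) ∉ E) ∧ A⁻¹ i i < 0
  have bR := bound G 1 (by norm_num) R (fun i hi => by
      obtain ⟨k, hk⟩ := (Finset.mem_filter.mp hi).2.1
      exact ⟨k, hk, ne hk⟩) (fun Y hY i hi => by
      obtain ⟨⟨k, hk⟩, h⟩ := (Finset.mem_filter.mp hi).2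
      exact const i k hk 1 (by simpa using h) Y hY) hAU hH
  have bB := bound G (-1) (by norm_num) B (fun i hi => by
      obtain ⟨k, hk⟩ := (Finset.mem_filter.mp hi).2.1
      exact ⟨k, hk, ne hk⟩) (fun Y hY i hi => by
      obtain ⟨⟨k, hk⟩, h⟩ := (Finset.mem_filter.mp hi).2
      exact const i k hk (-1) (by simpa using h) Y hY) hAU hH
  simp only [one_mul, neg_mul, Left.neg_neg_iff, Fintype.card_fin, hm, hn] at bR bB hs
  have hsub : R ⊆ Bᶜ := by
    intro i hi
    simp only [R, B, Finset.mem_filter, Finset.mem_compl] at hi ⊢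
    intro h
    linarith [hi.2.2, h.2.2]
  obtain ⟨S, h1, h2, h3⟩ := Finset.exists_subsuperset_card_eq hsub (n := m) (by omega)
    (by rw [Finset.card_compl, Fintype.card_fin]; omega)
  have hc : (Finset.univ.filter fun i => decide (i ∈ S) = true) = S := by
    ext i
    simp
  refine ⟨fun i => decide (i ∈ S), fun i j hij => ?_, by rw [hc, h3], ?_⟩
  · have h0 := Pool.Agent.H14.Ine1.E G hAU hij (ne hij)
    have hji : s(j, i) ∉ E := Sym2.eq_swap ▸ hij
    rcases mul_neg_iff.mp h0 with h | h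
    · have a1 : i ∈ S := h1 (Finset.mem_filter.mpr ⟨Finset.mem_univ _, ⟨j, hij⟩, h.1⟩)
      have a2 : j ∉ S := fun hj => Finset.mem_compl.mp (h2 hj)
        (Finset.mem_filter.mpr ⟨Finset.mem_univ _, ⟨i, hji⟩, h.2⟩)
      simp [a1, a2]
    · have a1 : j ∈ S := h1 (Finset.mem_filter.mpr ⟨Finset.mem_univ _, ⟨i, hji⟩, h.2⟩)
      have a2 : i ∉ S := fun hj => Finset.mem_compl.mp (h2 hj)
        (Finset.mem_filter.mpr ⟨Finset.mem_univ _, ⟨j, hij⟩, h.1⟩)
      simp [a1, a2]
  · have : (Finset.univ.filter fun i => decide (i ∈ S) = false) = Sᶜ := by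
      ext i
      simp
    rw [this, Finset.card_compl, Fintype.card_fin]
    omega

/-- complement: the star with centre 0 and leaves 1,2,3,4, plus the isolated vertex 5 -/
def E6 : Set (Sym2 (Fin 6)) := {e | e ≠ s(0, 1) ∧ e ≠ s(0, 2) ∧ e ≠ s(0, 3) ∧ e ≠ s(0, 4)}

def B6 : Matrix (Fin 6) (Fin 6) ℝ :=
  !![0,0,0,0,0,1; 0,1,0,0,0,0; 0,0,1,0,0,0; 0,0,0,-1,0,0; 0,0,0,0,-1,0; 1,0,0,0,0,0]

def D6 : Matrix (Fin 6) (Fin 6) ℝ := diagonal ![1, -1, -1, -1, -1, -1]

lemma B6s : B6ᵀ = B6 := by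
  ext i j
  fin_cases i <;> fin_cases j <;> rfl

lemma shape {A : Matrix (Fin 6) (Fin 6) ℝ} (h : Completes E6 (res E6 B6) A) :
    A = !![0, A 0 1, A 0 2, A 0 3, A 0 4, 1; A 0 1,1,0,0,0,0; A 0 2,0,1,0,0,0;
      A 0 3,0,0,-1,0,0; A 0 4,0,0,0,-1,0; 1,0,0,0,0,0] := by
  have h1 : ∀ i j, s(i, j) ∈ E6 → A i j = B6 i j := fun i j hij =>
    (h.2 i j hij).trans ((res_compl E6 B6s).2 i j hij).symm
  have h2 : ∀ i j, A i j = A j i := fun i j => congrFun (congrFun (herm.mp h.1) j) i
  ext i j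
  fin_cases i <;> fin_cases j <;> simp <;>
    first | (rw [h1 _ _ (by unfold E6; decide)]; simp [B6]) | rw [h2]

lemma ker6 {A : Matrix (Fin 6) (Fin 6) ℝ} (h : Completes E6 (res E6 B6) A) : A.rank = 6 := by
  apply rank_eq
  intro v hv
  rw [shape h] at hv
  have e := fun i => congrFun hv i
  have e0 := e 0
  have e1 := e 1
  have e2 := e 2
  have e3 := e 3
  have e4 := e 4
  have e5 := e 5
  simp [mulVec, dotProduct, Fin.sum_univ_six] at e0 e1 e2 e3 e4 e5
  simp [e5] at e1 e2 e3 e4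
  simp [e1, e2, e3, e4] at e0
  funext i
  fin_cases i <;> simp [*]

lemma in6 {A : Matrix (Fin 6) (Fin 6) ℝ} (h : Completes E6 (res E6 B6) A) : HasInertia A 3 3 := by
  have hs := sum_card h.1 (ker6 h).ge
  have a := dim h.1 1 (!![0,0,0; 1,0,0; 0,1,0; 0,0,0; 0,0,0; 0,0,1] : Matrix (Fin 6) (Fin 3) ℝ)
    (fun v hv => by
      have e1 := congrFun hv 1
      have e2 := congrFun hv 2
      have e5 := congrFun hv 5
      simp [mulVec, dotProduct, Fin.sum_univ_three] at e1 e2 e5
      funext i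
      fin_cases i <;> simp [*])
    (fun v => by
      rw [shape h]
      simp [mulVec, dotProduct, Fin.sum_univ_three, Fin.sum_univ_six]
      nlinarith [mul_self_nonneg (v 0), mul_self_nonneg (v 1)])
  have b := dim h.1 (-1) (!![0,0,0; 0,0,0; 0,0,0; 1,0,0; 0,1,0; 0,0,1] : Matrix (Fin 6) (Fin 3) ℝ)
    (fun v hv => by
      have e1 := congrFun hv 3
      have e2 := congrFun hv 4
      have e5 := congrFun hv 5
      simp [mulVec, dotProduct, Fin.sum_univ_three] at e1 e2 e5
      funext i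
      fin_cases i <;> simp [*])
    (fun v => by
      rw [shape h]
      simp [mulVec, dotProduct, Fin.sum_univ_three, Fin.sum_univ_six]
      nlinarith [mul_self_nonneg (v 0), mul_self_nonneg (v 1)])
  simp only [one_mul, neg_mul, Left.neg_neg_iff, Fintype.card_fin] at a b
  exact ⟨h.1, by omega, by omega⟩

lemma cross {b : ℝ} (h : |b - 0| < 1 / 10) (x y : ℝ) : b * (x * y) ≤ (x * x + y * y) / 20 := by
  rw [sub_zero, abs_lt] at h
  nlinarith [mul_nonneg (sub_nonneg.mpr h.2.le) (sq_nonneg (x + y)),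
    mul_nonneg (sub_nonneg.mpr h.1.le) (sq_nonneg (x - y))]

lemma dg {b : ℝ} (h : |b - -1| < 1 / 10) (x : ℝ) : b * (x * x) ≤ -(9 / 10) * (x * x) := by
  rw [abs_lt] at h
  nlinarith [mul_self_nonneg x]

lemma near {A : Matrix (Fin 6) (Fin 6) ℝ} (hs : Aᵀ = A)
    (h : ∀ i j, s(i, j) ∈ E6 → |A i j - D6 i j| < 1 / 10) : A.rank = 6 := by
  apply rank_eq
  intro v hv
  have h2 : ∀ i j, A i j = A j i := fun i j => congrFun (congrFun hs j) i
  have e : ∀ i, v i * (A i 0 * v 0 + A i 1 * v 1 + A i 2 * v 2 + A i 3 * v 3 + A i 4 * v 4 +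
      A i 5 * v 5) = 0 := fun i => by
    have := congrFun hv i
    simp only [mulVec, dotProduct, Fin.sum_univ_six, Pi.zero_apply] at this
    rw [this, mul_zero]
  have c : ∀ i j : Fin 6, i ≠ 0 → j ≠ 0 → i ≠ j →
      A i j * (v i * v j) ≤ (v i * v i + v j * v j) / 20 := by
    intro i j hi hj hij
    apply cross
    have := h i j (by revert i j; unfold E6; decide)
    rwa [D6, diagonal_apply_ne _ hij] at this
  have d : ∀ i : Fin 6, i ≠ 0 → A i i * (v i * v i) ≤ -(9 / 10) * (v i * v i) := by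
    intro i hi
    apply dg
    have := h i i (by revert i; unfold E6; decide)
    rw [D6, diagonal_apply_eq] at this
    fin_cases i <;> simp_all
  have d0 : (9 / 10) * (v 0 * v 0) ≤ A 0 0 * (v 0 * v 0) := by
    have := h 0 0 (by unfold E6; decide)
    rw [D6, diagonal_apply_eq, abs_lt] at this
    simp only [cons_val_zero] at this
    nlinarith [mul_self_nonneg (v 0)]
  have e0 := e 0
  have e1 := e 1
  have e2 := e 2
  have e3 := e 3
  have e4 := e 4
  have e5 := e 5
  rw [h2 1 0] at e1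
  rw [h2 2 0, h2 2 1] at e2
  rw [h2 3 0, h2 3 1, h2 3 2] at e3
  rw [h2 4 0, h2 4 1, h2 4 2, h2 4 3] at e4
  rw [h2 5 0, h2 5 1, h2 5 2, h2 5 3, h2 5 4] at e5
  have key : v 0 * v 0 + v 1 * v 1 + v 2 * v 2 + v 3 * v 3 + v 4 * v 4 + v 5 * v 5 ≤ 0 := by
    linarith [c 1 2 (by decide) (by decide) (by decide), c 1 3 (by decide) (by decide) (by decide),
      c 1 4 (by decide) (by decide) (by decide), c 1 5 (by decide) (by decide) (by decide),
      c 2 3 (by decide) (by decide) (by decide), c 2 4 (by decide) (by decide) (by decide),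
      c 2 5 (by decide) (by decide) (by decide), c 3 4 (by decide) (by decide) (by decide),
      c 3 5 (by decide) (by decide) (by decide), c 4 5 (by decide) (by decide) (by decide),
      d 1 (by decide), d 2 (by decide), d 3 (by decide), d 4 (by decide), d 5 (by decide),
      mul_self_nonneg (v 0)]
  have z : ∀ i, v i * v i ≤ 0 := by
    have := mul_self_nonneg (v 0)
    have := mul_self_nonneg (v 1)
    have := mul_self_nonneg (v 2)
    have := mul_self_nonneg (v 3)
    have := mul_self_nonneg (v 4)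
    have := mul_self_nonneg (v 5)
    intro i
    fin_cases i <;> simp only [Fin.reduceFinMk, Fin.isValue, Fin.zero_eta, Fin.mk_one] <;> linarith
  funext i
  exact mul_self_eq_zero.mp (le_antisymm (z i) (mul_self_nonneg _))

lemma typ6 : FullRankTypical E6 := by
  classical
  have hD : D6ᵀ = D6 := diagonal_transpose _
  refine ⟨Metric.ball (res E6 D6) (1 / 10), Metric.isOpen_ball,
    ⟨_, Metric.mem_ball_self (by norm_num)⟩, fun M hM => ?_⟩
  have key : ∀ A, Completes E6 M A → A.rank = 6 := by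
    intro A hA
    refine near (herm.mp hA.1) fun i j hij => ?_
    rw [hA.2 i j hij, (res_compl E6 hD).2 i j hij, ← Real.dist_eq]
    exact lt_of_le_of_lt (dist_le_pi_dist M _ _) hM
  refine ⟨?_, fun A hA => (key A hA).ge⟩
  have : Completes E6 M (of fun i j => if h : s(i, j) ∈ E6 then M ⟨s(i, j), h⟩ else 0) := by
    refine ⟨herm.mpr ?_, fun i j h => by simp [h]⟩
    ext i j
    simp only [transpose_apply, of_apply, Sym2.eq_swap (a := j)]
  exact ⟨_, this, key _ this⟩

theorem both :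
    (¬ ∀ (N : ℕ) (E : Set (Sym2 (Fin N))) (M : E → ℝ) (m n : ℕ), FullRankTypical E →
      MinRank E M N → (∀ A, Completes E M A → HasInertia A m n) → Bicol E m n) ∧
    (∀ (N : ℕ) (E : Set (Sym2 (Fin N))) (M : E → ℝ) (m n : ℕ),
      M ∈ interior {M | MinRank E M N} → (∃ A, Completes E M A ∧ HasInertia A m n) →
      Bicol E m n) := by
  refine ⟨fun h => ?_, fun N E M m n hM ⟨A, h1, h2⟩ => generic E M m n hM A h1 h2⟩
  obtain ⟨c, h1, h2, -⟩ := h 6 E6 (res E6 B6) 3 3 typ6
    ⟨⟨B6, res_compl E6 B6s, ker6 (res_compl E6 B6s)⟩, fun A hA => (ker6 hA).ge⟩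
    (fun A hA => in6 hA)
  have a1 := h1 0 1 (by unfold E6; decide)
  have a2 := h1 0 2 (by unfold E6; decide)
  have a3 := h1 0 3 (by unfold E6; decide)
  have a4 := h1 0 4 (by unfold E6; decide)
  clear h1
  simp only [Finset.card_filter, Fin.sum_univ_six] at h2
  revert h2 a1 a2 a3 a4
  cases c 0 <;> cases c 1 <;> cases c 2 <;> cases c 3 <;> cases c 4 <;> cases c 5 <;> decide

end Pool.Agent.H14.JnD
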