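import Mathlib

namespace Pool.Agent.H14.KCut

open Finset SimpleGraph

abbrev V (N : ℕ) := Fin N × Fin 12

def G (N : ℕ) : SimpleGraph (V N) where
  Adj u v := (u.1 = v.1 ∧ u.2 ≠ v.2) ∨
    (u.2 = v.2 ∧ u.2.val < 7 ∧ (u.1.val + 1 = v.1.val ∨ v.1.val + 1 = u.1.val))
  symm := ⟨by
    rintro u v (⟨h1, h2⟩ | ⟨h1, h2, h3⟩)
    · exact Or.inl ⟨h1.symm, h2.symm⟩
    · exact Or.inr ⟨h1.symm, h1 ▸ h2, h3.symm⟩⟩
  loopless := ⟨by
    rintro u (⟨_, h2⟩ | ⟨_, _, h3⟩)
    · exact h2 rfl
    · omega⟩

instance (N : ℕ) : DecidableRel (G N).Adj := fun u v => by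
  unfold G; infer_instance

lemma pigeon (N : ℕ) (S : Finset (V N)) (hS : S.card ≤ 6) (i i' : Fin N) :
    ∃ j : Fin 12, j.val < 7 ∧ (i, j) ∉ S ∧ (i', j) ∉ S := by
  by_contra hcon
  push Not at hcon
  have : (univ.filter fun j : Fin 12 => j.val < 7) ⊆ S.image Prod.snd := by
    intro j hj
    rw [mem_filter] at hj
    by_cases h : (i, j) ∈ S
    · exact mem_image.2 ⟨_, h, rfl⟩
    · exact mem_image.2 ⟨_, hcon j hj.2 h, rfl⟩
  have h1 := card_le_card this
  have h2 : (univ.filter fun j : Fin 12 => j.val < 7).card = 7 := by decide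
  have h3 := card_image_le (s := S) (f := Prod.snd)
  omega

lemma conn (N : ℕ) (hN : 0 < N) (S : Finset (V N)) (hS : S.card ≤ 6) :
    ((G N).induce ((S : Set (V N))ᶜ)).Connected := by
  obtain ⟨j0, _, hj0, _⟩ := pigeon N S hS ⟨0, hN⟩ ⟨0, hN⟩
  have same : ∀ u v : ((S : Set (V N))ᶜ : Set (V N)), u.1.1 = v.1.1 →
      ((G N).induce ((S : Set (V N))ᶜ)).Reachable u v := by
    intro u v h
    by_cases h2 : u.1.2 = v.1.2
    · have : u = v := Subtype.ext (Prod.ext h h2)
      rw [this]
    · exact Adj.reachable (Or.inl ⟨h, h2⟩)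
  let r : ((S : Set (V N))ᶜ : Set (V N)) := ⟨(⟨0, hN⟩, j0), by simpa using hj0⟩
  have key : ∀ i : ℕ, ∀ v : ((S : Set (V N))ᶜ : Set (V N)), v.1.1.val = i →
      ((G N).induce ((S : Set (V N))ᶜ)).Reachable r v := by
    intro i
    induction i with
    | zero =>
      intro v hv
      exact same r v (Fin.ext hv.symm)
    | succ i ih =>
      intro v hv
      have hi : i < N := by have := v.1.1.2; omega
      obtain ⟨j, hj, h1, h2⟩ := pigeon N S hS ⟨i, hi⟩ v.1.1
      let a : ((S : Set (V N))ᶜ : Set (V N)) := ⟨(⟨i, hi⟩, j), by simpa using h1⟩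
      let b : ((S : Set (V N))ᶜ : Set (V N)) := ⟨(v.1.1, j), by simpa using h2⟩
      have hab : ((G N).induce ((S : Set (V N))ᶜ)).Adj a b :=
        Or.inr ⟨rfl, hj, Or.inl hv.symm⟩
      exact ((ih a rfl).trans hab.reachable).trans (same b v rfl)
  have : Nonempty ((S : Set (V N))ᶜ : Set (V N)) := ⟨r⟩
  exact Connected.mk fun u v => (key _ u rfl).symm.trans (key _ v rfl)

lemma deg_le (N : ℕ) (v : V N) : (G N).degree v ≤ 11 + if v.2.val < 7 then 2 else 0 := by
  rw [← card_neighborFinset_eq_degree]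
  have h1 : (G N).neighborFinset v ⊆
      ((univ.erase v.2).image fun j => (v.1, j)) ∪
        (univ.filter fun w : V N => w.2 = v.2 ∧ v.2.val < 7 ∧
          (v.1.val + 1 = w.1.val ∨ w.1.val + 1 = v.1.val)) := by
    intro w hw
    rw [mem_neighborFinset] at hw
    rcases hw with ⟨a, b⟩ | ⟨a, b, c⟩
    · refine mem_union_left _ (mem_image.2 ⟨w.2, by simpa using fun h => b h.symm, ?_⟩)
      rw [a]
    · exact mem_union_right _ (by simp [a.symm, b, c])
  refine (card_le_card h1).trans ((card_union_le _ _).trans (add_le_add ?_ ?_))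
  · refine card_image_le.trans ?_
    simp
  · split_ifs with h
    · have : ∀ s : Finset (V N), (∀ w ∈ s, w.2 = v.2 ∧
          (v.1.val + 1 = w.1.val ∨ w.1.val + 1 = v.1.val)) → s.card ≤ 2 := by
        intro s hs
        have : s.card ≤ ({v.1.val + 1, v.1.val - 1} : Finset ℕ).card := by
          refine card_le_card_of_injOn (fun w => w.1.val) ?_ ?_
          · intro w hw
            have := (hs w hw).2
            simp only [coe_insert, coe_singleton, Set.mem_insert_iff, Set.mem_singleton_iff]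
            omega
          · intro w hw w' hw' h
            exact Prod.ext (Fin.ext h) ((hs w hw).1.trans (hs w' hw').1.symm)
        exact this.trans card_le_two
      apply this
      intro w hw
      rw [mem_filter] at hw
      exact ⟨hw.2.1, hw.2.2.2⟩
    · simp [h]

lemma edges_le (N : ℕ) : 2 * (G N).edgeFinset.card ≤ 146 * N := by
  rw [← sum_degrees_eq_twice_card_edges]
  refine (sum_le_sum fun v _ => deg_le N v).trans ?_
  rw [Fintype.sum_prod_type]
  have : ∑ j : Fin 12, (11 + if j.val < 7 then 2 else 0) = 146 := by decide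
  simp only [this]
  simp [mul_comm]

lemma mono_block (c : Fin 12 → Fin 8) :
    8 ≤ (univ.filter fun p : Fin 12 × Fin 12 => p.1 ≠ p.2 ∧ c p.1 = c p.2).card := by
  have h1 : (univ.filter fun p : Fin 12 × Fin 12 => c p.1 = c p.2).card =
      ∑ t : Fin 8, (univ.filter fun a => c a = t).card ^ 2 := by
    rw [card_eq_sum_card_fiberwise (f := fun p : Fin 12 × Fin 12 => c p.1) (t := univ)
      (fun _ _ => mem_coe.2 (mem_univ _))]
    refine sum_congr rfl fun t _ => ?_
    rw [sq, ← card_product]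
    congr 1
    ext p
    simp only [mem_filter, mem_univ, true_and, mem_product]
    constructor
    · rintro ⟨a, b⟩
      exact ⟨b, a ▸ b⟩
    · rintro ⟨a, b⟩
      exact ⟨a.trans b.symm, a⟩
  have h2 : ∑ t : Fin 8, (univ.filter fun a => c a = t).card = 12 := by
    rw [← card_eq_sum_card_fiberwise (f := c) (t := univ) (s := univ)
      (fun _ _ => mem_coe.2 (mem_univ _))]
    simp
  have h3 : ∑ t : Fin 8, 3 * (univ.filter fun a => c a = t).card ≤
      ∑ t : Fin 8, ((univ.filter fun a => c a = t).card ^ 2 + 2) := by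
    refine sum_le_sum fun t _ => ?_
    generalize (univ.filter fun a => c a = t).card = x
    rcases x with _ | _ | x
    · simp
    · simp
    · nlinarith [Nat.zero_le x]
  rw [← mul_sum, h2, sum_add_distrib, ← h1] at h3
  simp only [sum_const, card_univ, Fintype.card_fin, smul_eq_mul] at h3
  have h4 : (univ.filter fun p : Fin 12 × Fin 12 => c p.1 = c p.2) ⊆
      (univ.filter fun p : Fin 12 × Fin 12 => p.1 ≠ p.2 ∧ c p.1 = c p.2) ∪
        (univ.filter fun p : Fin 12 × Fin 12 => p.1 = p.2) := by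
    intro p hp
    simp only [mem_filter, mem_univ, true_and, mem_union] at hp ⊢
    by_cases h : p.1 = p.2
    · exact Or.inr h
    · exact Or.inl ⟨h, hp⟩
  have h5 := (card_le_card h4).trans (card_union_le _ _)
  have h6 : (univ.filter fun p : Fin 12 × Fin 12 => p.1 = p.2).card = 12 := by decide
  omega

lemma mono_ge (N : ℕ) (c : V N → Fin 8) :
    8 * N ≤ (univ.filter fun p : V N × V N => (G N).Adj p.1 p.2 ∧ c p.1 = c p.2).card := by
  rw [card_eq_sum_card_fiberwise (f := fun p : V N × V N => p.1.1) (t := univ)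
      (fun _ _ => mem_coe.2 (mem_univ _))]
  have : 8 * N = ∑ _i : Fin N, 8 := by simp [mul_comm]
  rw [this]
  refine sum_le_sum fun i _ => ?_
  refine (mono_block fun j => c (i, j)).trans ?_
  refine card_le_card_of_injOn (fun p => ((i, p.1), (i, p.2))) ?_ ?_
  · intro p hp
    simp only [coe_filter, mem_univ, true_and, Set.mem_ofPred_eq, mem_filter] at hp ⊢
    exact ⟨⟨Or.inl ⟨rfl, hp.1⟩, hp.2⟩, trivial⟩
  · intro p _ q _ h
    simp only [Prod.mk.injEq, true_and] at h
    exact Prod.ext h.1 h.2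

lemma cut_le (N : ℕ) (c : V N → Fin 8) :
    {p : V N × V N | (G N).Adj p.1 p.2 ∧ c p.1 ≠ c p.2}.ncard + 8 * N ≤
      2 * (G N).edgeSet.ncard := by
  have h1 : {p : V N × V N | (G N).Adj p.1 p.2 ∧ c p.1 ≠ c p.2} =
      ((univ.filter fun p : V N × V N => (G N).Adj p.1 p.2 ∧ c p.1 ≠ c p.2 : Finset _) : Set _) := by
    ext p; simp
  have h5 : 2 * (G N).edgeFinset.card =
      (univ.filter fun p : V N × V N => (G N).Adj p.1 p.2).card := by
    rw [two_mul_card_edgeFinset]
  rw [h1, Set.ncard_coe_finset, ← coe_edgeFinset, Set.ncard_coe_finset, h5]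
  have h2 := card_filter_add_card_filter_not (s := univ.filter fun p : V N × V N => (G N).Adj p.1 p.2)
    (fun p => c p.1 = c p.2)
  rw [filter_filter, filter_filter] at h2
  have h3 := mono_ge N c
  have h4 : (univ.filter fun p : V N × V N => (G N).Adj p.1 p.2 ∧ c p.1 ≠ c p.2).card =
    (univ.filter fun p : V N × V N => (G N).Adj p.1 p.2 ∧ ¬ c p.1 = c p.2).card := rfl
  omega

lemma edges_le' (N : ℕ) : 2 * (G N).edgeSet.ncard ≤ 146 * N := by
  rw [← coe_edgeFinset, Set.ncard_coe_finset]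
  exact edges_le N

end Pool.Agent.H14.KCut
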