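import Mathlib

set_option autoImplicit false

namespace Pool.Agent.H14.Lacun

open Finset

lemma window (M : Set ℕ) (ε : ℝ) (hε : 0 < ε)
    (hM : ∀ a ∈ M, ∀ b ∈ M, a < b → (1 + ε) * (a : ℝ) < (b : ℝ)) (y : ℝ) (A : Finset ℕ) :
    (∀ a ∈ A, a ∈ M ∧ y ≤ a) → ∀ x : ℝ, y ≤ (1 + ε) * x → (∀ a ∈ A, (a : ℝ) ≤ x) →
      y * (1 + ε) ^ A.card ≤ (1 + ε) * x := by
  induction A using Finset.induction_on_max with
  | empty => intro _ x hx _; simpa using hx
  | insert a s hs ih =>
    intro h x _ hx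
    have hna : a ∉ s := fun h' => lt_irrefl _ (hs a h')
    have h1 : (0 : ℝ) < 1 + ε := by linarith
    have ha := h a (mem_insert_self _ _)
    have := ih (fun b hb => h b (mem_insert_of_mem hb)) (a / (1 + ε))
      (by rw [mul_div_cancel₀ _ h1.ne']; exact ha.2) (fun b hb => by
        rw [le_div_iff₀ h1, mul_comm]
        exact (hM b (h b (mem_insert_of_mem hb)).1 a ha.1 (hs b hb)).le)
    rw [mul_div_cancel₀ _ h1.ne'] at this
    rw [card_insert_of_notMem hna, pow_succ, ← mul_assoc, mul_comm (1 + ε)]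
    exact mul_le_mul_of_nonneg_right (this.trans (hx a (mem_insert_self _ _))) h1.le

lemma window' (M : Set ℕ) (ε : ℝ) (hε : 0 < ε)
    (hM : ∀ a ∈ M, ∀ b ∈ M, a < b → (1 + ε) * (a : ℝ) < (b : ℝ)) :
    ∃ C : ℕ, ∀ (q x : ℕ) (A : Finset ℕ), 0 < x → (∀ a ∈ A, a ∈ M ∧ x < q * a ∧ q * a ≤ 8 * x) →
      A.card ≤ C := by
  obtain ⟨C, hC⟩ := pow_unbounded_of_one_lt (8 : ℝ) (by linarith : 1 < 1 + ε)
  refine ⟨C, fun q x A hx hA => ?_⟩
  rcases A.eq_empty_or_nonempty with rfl | ⟨a0, ha0⟩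
  · simp
  have hq : 0 < q := by
    rcases Nat.eq_zero_or_pos q with rfl | h
    · have := (hA a0 ha0).2.1; omega
    · exact h
  have hq' : (0 : ℝ) < q := by exact_mod_cast hq
  have hx' : (0 : ℝ) < x := by exact_mod_cast hx
  have hy : (0 : ℝ) < x / q := by positivity
  have := window M ε hε hM (x / q) A (fun a ha => ⟨(hA a ha).1, by
      rw [div_le_iff₀ hq']
      have := (hA a ha).2.1.le
      rw [mul_comm] at this
      exact_mod_cast this⟩) (8 * (x / q)) (by nlinarith) (fun a ha => by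
      rw [← mul_div_assoc, le_div_iff₀ hq']
      have := (hA a ha).2.2
      rw [mul_comm] at this
      exact_mod_cast this)
  by_contra hcon
  have h2 : (1 + ε) ^ (C + 1) ≤ (1 + ε) ^ A.card :=
    pow_le_pow_right₀ (by linarith) (by omega)
  have h3 : (1 + ε) ^ A.card ≤ (1 + ε) * 8 := by
    apply le_of_mul_le_mul_left _ hy
    linarith
  rw [pow_succ] at h2
  nlinarith

def Near (D n k j u : ℕ) : Prop :=
  ∃ z : ℤ, |(n * k * u : ℤ) - z * 8 ^ (j + 1)| * (D * n ^ 3) < 2 * 8 ^ (j + 1)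

def Bad (M : Set ℕ) (D j u : ℕ) : Prop :=
  ∃ n k : ℕ, 1 ≤ n ∧ k ∈ M ∧ 8 ^ j < n ^ 4 * D * k ∧ n ^ 4 * D * k ≤ 8 * 8 ^ j ∧ Near D n k j u

open Classical in
noncomputable def S (M : Set ℕ) (D : ℕ) : ℕ → Finset ℕ
  | 0 => {0}
  | j + 1 => (range (8 ^ (j + 1))).filter fun u => u / 8 ∈ S M D j ∧ ¬ Bad M D j u

lemma S_lt (M : Set ℕ) (D j u : ℕ) (h : u ∈ S M D j) : u < 8 ^ j := by
  cases j with
  | zero => simp [S] at h; omega
  | succ j =>
    simp only [S, mem_filter, mem_range] at h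
    exact h.1

lemma S_anc (M : Set ℕ) (D j t : ℕ) : ∀ u, u ∈ S M D (j + t) → u / 8 ^ t ∈ S M D j := by
  induction t with
  | zero => intro u h; simpa using h
  | succ t ih =>
    intro u h
    have h1 : u / 8 ∈ S M D (j + t) := by
      simp only [S, mem_filter] at h
      exact h.2.1
    have := ih _ h1
    rwa [Nat.div_div_eq_div_mul, ← pow_succ'] at this

open Classical in
lemma block (D n k j j' t v : ℕ) (hD : 4 ≤ D) (hn : 1 ≤ n) (hj : j = j' + t)
    (hP : n * k ≤ 8 ^ j') (h1 : 8 ^ j < n ^ 4 * D * k) (A : Finset ℕ)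
    (hA : ∀ u ∈ A, u / 8 ^ (t + 1) = v ∧ Near D n k j u) : A.card ≤ 64 := by
  have hz : ∀ u, ∃ z : ℤ, u ∈ A →
      |(n * k * u : ℤ) - z * 8 ^ (j + 1)| * (D * n ^ 3) < 2 * 8 ^ (j + 1) := by
    intro u
    by_cases hu : u ∈ A
    · obtain ⟨z, hz⟩ := (hA u hu).2
      exact ⟨z, fun _ => hz⟩
    · exact ⟨0, fun h => absurd h hu⟩
  choose z hz using hz
  have : A.card ≤ ((Ico (0 : ℤ) 2) ×ˢ range 32).card := by
    refine card_le_card_of_injOn (fun u => (z u % 2, u % 32)) ?_ ?_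
    · intro u _
      simp only [coe_product, coe_Ico, coe_range, Set.mem_prod, Set.mem_Ico, Set.mem_Iio]
      omega
    · intro u hu u' hu' huu
      simp only [Prod.mk.injEq] at huu
      have a1 := hz u hu
      have a2 := hz u' hu'
      set B : ℤ := 8 ^ (j + 1) with hB
      set P : ℤ := n * k with hPdef
      set Q : ℤ := D * n ^ 3 with hQ
      have hBpos : 0 < B := by positivity
      have hn' : (1 : ℤ) ≤ n := by exact_mod_cast hn
      have hQ4 : 4 ≤ Q := by
        have : (1 : ℤ) ≤ n ^ 3 := one_le_pow₀ hn'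
        have : (4 : ℤ) ≤ D := by exact_mod_cast hD
        nlinarith
      have hP0 : 0 ≤ P := by positivity
      have hdiff : |(u : ℤ) - u'| < 8 ^ (t + 1) := by
        have b1 := (hA u hu).1
        have b2 := (hA u' hu').1
        have hW : 0 < 8 ^ (t + 1) := by positivity
        have c1 := Nat.div_add_mod u (8 ^ (t + 1))
        have c2 := Nat.div_add_mod u' (8 ^ (t + 1))
        have c3 := Nat.mod_lt u hW
        have c4 := Nat.mod_lt u' hW
        rw [b1] at c1
        rw [b2] at c2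
        have : ((8 : ℤ) ^ (t + 1)) = ((8 ^ (t + 1) : ℕ) : ℤ) := by push_cast; rfl
        rw [this, abs_lt]
        omega
      have hPW : P * 8 ^ (t + 1) ≤ B := by
        have : P ≤ 8 ^ j' := by rw [hPdef]; exact_mod_cast hP
        calc P * 8 ^ (t + 1) ≤ 8 ^ j' * 8 ^ (t + 1) :=
              mul_le_mul_of_nonneg_right this (by positivity)
          _ = B := by rw [hB, hj]; ring
      have e1 : |P * u - z u * B - (P * u' - z u' * B)| * Q < 4 * B := by
        have := abs_sub (P * u - z u * B) (P * u' - z u' * B)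
        nlinarith
      have hzz : z u = z u' := by
        have d1 : |P * u - z u * B - (P * u' - z u' * B)| < B := by
          nlinarith [abs_nonneg (P * u - z u * B - (P * u' - z u' * B))]
        have d2 : |P * (u - u')| ≤ B := by
          rw [abs_mul, abs_of_nonneg hP0]
          exact (mul_le_mul_of_nonneg_left hdiff.le hP0).trans hPW
        have d3 : |(z u - z u') * B| < 2 * B := by
          have : (z u - z u') * B = P * (u - u') - (P * u - z u * B - (P * u' - z u' * B)) := by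
            ring
          rw [this]
          have := abs_sub (P * (u - u')) (P * u - z u * B - (P * u' - z u' * B))
          linarith
        rw [abs_mul, abs_of_pos hBpos] at d3
        have d4 : |z u - z u'| < 2 := lt_of_mul_lt_mul_right d3 hBpos.le
        rw [abs_lt] at d4
        omega
      rw [hzz] at e1
      have e2 : P * u - z u' * B - (P * u' - z u' * B) = P * (u - u') := by ring
      rw [e2, abs_mul, abs_of_nonneg hP0] at e1
      have e3 : B < 8 * (P * Q) := by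
        have : ((8 ^ j : ℕ) : ℤ) < ((n ^ 4 * D * k : ℕ) : ℤ) := by exact_mod_cast h1
        push_cast at this
        rw [hB, hPdef, hQ, pow_succ]
        nlinarith
      have e4 : |(u : ℤ) - u'| < 32 := by
        by_contra hc
        push Not at hc
        have : 0 ≤ P * Q := by positivity
        nlinarith
      rw [abs_lt] at e4
      omega
  simpa using this

lemma sum_inv_sq (N : ℕ) : ∑ n ∈ Icc 1 N, (1 : ℝ) / (n : ℝ) ^ 2 ≤ 2 := by
  have : ∀ N : ℕ, ∑ n ∈ Icc 1 (N + 1), (1 : ℝ) / (n : ℝ) ^ 2 ≤ 2 - 1 / ((N : ℝ) + 1) := by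
    intro N
    induction N with
    | zero => norm_num
    | succ N ih =>
      rw [sum_Icc_succ_top (by omega)]
      push_cast
      have h1 : (0 : ℝ) < N + 1 := by positivity
      have : 1 / ((N : ℝ) + 1 + 1) ^ 2 ≤ 1 / (N + 1) - 1 / (N + 1 + 1) := by
        rw [div_sub_div _ _ h1.ne' (by positivity), div_le_div_iff₀ (by positivity) (by positivity)]
        nlinarith
      linarith
  cases N with
  | zero => simp
  | succ N =>
    have h := this N
    have : (0 : ℝ) < 1 / ((N : ℝ) + 1) := by positivity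
    linarith

lemma growth (M : Set ℕ) (C E : ℕ) (hE : 32 * C + 1 ≤ E) (hM0 : ∀ k ∈ M, 0 < k)
    (hC : ∀ (q x : ℕ) (A : Finset ℕ), 0 < x → (∀ a ∈ A, a ∈ M ∧ x < q * a ∧ q * a ≤ 8 * x) →
      A.card ≤ C) (j : ℕ) :
    4 * (S M (64 * E ^ 3) j).card ≤ (S M (64 * E ^ 3) (j + 1)).card := by
  classical
  induction j using Nat.strong_induction_on with
  | _ j ih =>
  set D := 64 * E ^ 3 with hD
  have hE1 : 1 ≤ E := by omega
  have hD4 : 4 ≤ D := by
    have : 1 ≤ E ^ 3 := Nat.one_le_pow _ _ hE1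
    omega
  have hmono : ∀ t j', j' + t ≤ j → 4 ^ t * (S M D j').card ≤ (S M D (j' + t)).card := by
    intro t
    induction t with
    | zero => intro j' _; simp
    | succ t iht =>
      intro j' h
      have h1 := iht j' (by omega)
      have h2 := ih (j' + t) (by omega)
      rw [pow_succ, ← add_assoc]
      nlinarith
  let Ch := (range (8 ^ (j + 1))).filter fun u => u / 8 ∈ S M D j
  have hCh : 8 * (S M D j).card ≤ Ch.card := by
    have : (S M D j ×ˢ range 8).card ≤ Ch.card := by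
      refine card_le_card_of_injOn (fun p => 8 * p.1 + p.2) ?_ ?_
      · intro p hp
        simp only [coe_product, coe_range, Set.mem_prod, mem_coe, Set.mem_Iio] at hp
        have := S_lt M D j _ hp.1
        simp only [Ch, coe_filter, mem_range, Set.mem_ofPred_eq, pow_succ]
        refine ⟨by omega, ?_⟩
        rw [show (8 * p.1 + p.2) / 8 = p.1 by omega]
        exact hp.1
      · intro p hp q hq hpq
        simp only [coe_product, coe_range, Set.mem_prod, mem_coe, Set.mem_Iio] at hp hq hpq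
        ext <;> omega
    rw [card_product, card_range] at this
    omega
  let Kn : ℕ → Finset ℕ := fun n => (range (8 ^ (j + 1) + 1)).filter fun k =>
    k ∈ M ∧ 8 ^ j < n ^ 4 * D * k ∧ n ^ 4 * D * k ≤ 8 * 8 ^ j
  let Rem : ℕ → ℕ → Finset ℕ := fun n k => Ch.filter fun u => Near D n k j u
  have hsub : Ch ⊆ S M D (j + 1) ∪
      (Icc 1 (8 ^ (j + 1))).biUnion fun n => (Kn n).biUnion fun k => Rem n k := by
    intro u hu
    by_cases hb : Bad M D j u
    · obtain ⟨n, k, h1, h2, h3, h4, h5⟩ := hb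
      have hk := hM0 k h2
      have a1 : n ≤ n ^ 4 * D * k := by
        calc n ≤ n ^ 4 := Nat.le_self_pow (by norm_num) n
          _ ≤ n ^ 4 * D := Nat.le_mul_of_pos_right _ (by omega)
          _ ≤ _ := Nat.le_mul_of_pos_right _ hk
      have a2 : k ≤ n ^ 4 * D * k := Nat.le_mul_of_pos_left _ (by positivity)
      simp only [mem_union, mem_biUnion, mem_Icc, Kn, Rem, mem_filter, mem_range, pow_succ]
      refine Or.inr ⟨n, ⟨h1, by omega⟩, k, ⟨by omega, h2, ?_, ?_⟩, ?_, h5⟩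
      · simpa [pow_succ] using h3
      · simpa [pow_succ] using h4
      · simpa [Ch, pow_succ] using hu
    · simp only [Ch, mem_filter] at hu
      exact mem_union_left _ (by simp only [S, mem_filter]; exact ⟨hu.1, hu.2, hb⟩)
  have hRem : ∀ n ∈ Icc 1 (8 ^ (j + 1)), ∀ k ∈ Kn n,
      ((Rem n k).card : ℝ) ≤ 64 * (S M D j).card / E ^ 2 * (1 / (n : ℝ) ^ 2) := by
    intro n hn k hk
    have hn1 := (mem_Icc.1 hn).1
    obtain ⟨-, hkM, h3, h4⟩ := mem_filter.1 hk
    have hk0 := hM0 k hkM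
    have hP0 : 0 < n * k := by positivity
    set j' := Nat.clog 8 (n * k) with hj'
    have b1 : n * k ≤ 8 ^ j' := Nat.le_pow_clog (by norm_num) _
    have b2 : 8 ^ j' ≤ 8 * (n * k) := by
      rcases Nat.eq_zero_or_pos j' with h0 | h0
      · rw [h0]; omega
      · have := Nat.pow_pred_clog_lt_self (b := 8) (by norm_num) (x := n * k) (by
          by_contra hc
          have : n * k = 1 := by omega
          rw [this, Nat.clog_one_right] at hj'
          omega)
        rw [← hj'] at this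
        obtain ⟨i, hi⟩ : ∃ i, j' = i + 1 := ⟨j' - 1, by omega⟩
        rw [hi] at this ⊢
        simp only [Nat.pred_succ] at this
        rw [pow_succ]; omega
    have b3 : 8 ^ j' * (n * E) ^ 3 ≤ 8 ^ j := by
      have : 8 * (n * k) * (n * E) ^ 3 * 8 = n ^ 4 * D * k := by rw [hD]; ring
      have h5 : 8 ^ j' * (n * E) ^ 3 ≤ 8 * (n * k) * (n * E) ^ 3 := Nat.mul_le_mul_right _ b2
      omega
    have hnE : 0 < n * E := by positivity
    have b4 : j' ≤ j := by
      have : 8 ^ j' ≤ 8 ^ j := le_trans (Nat.le_mul_of_pos_right _ (by positivity)) b3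
      exact (Nat.pow_le_pow_iff_right (by norm_num)).1 this
    obtain ⟨t, ht⟩ : ∃ t, j = j' + t := ⟨j - j', by omega⟩
    have b5 : (n * E) ^ 2 ≤ 4 ^ t := by
      have h5 : (n * E) ^ 3 ≤ (2 ^ t) ^ 3 := by
        rw [ht, pow_add] at b3
        have := Nat.le_of_mul_le_mul_left b3 (by positivity)
        calc _ ≤ 8 ^ t := this
          _ = _ := by rw [← pow_mul, mul_comm, pow_mul]; norm_num
      have h6 := (Nat.pow_le_pow_iff_left (by norm_num)).1 h5
      calc _ ≤ (2 ^ t) ^ 2 := Nat.pow_le_pow_left h6 2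
        _ = _ := by rw [← pow_mul, mul_comm, pow_mul]; norm_num
    have b6 : (Rem n k).card ≤ 64 * (S M D j').card := by
      refine card_le_mul_card_image_of_maps_to (f := fun u => u / 8 ^ (t + 1)) ?_ 64 ?_
      · intro u hu
        simp only [Rem, Ch, mem_filter] at hu
        have := S_anc M D j' t (u / 8) (ht ▸ hu.1.2)
        rwa [Nat.div_div_eq_div_mul, ← pow_succ'] at this
      · intro v _
        refine block D n k j j' t v hD4 hn1 ht b1 h3 _ fun u hu => ?_
        simp only [Rem, mem_filter] at hu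
        exact ⟨hu.2, hu.1.2⟩
    have b7 := hmono t j' ht.ge
    rw [← ht] at b7
    have b8 : (Rem n k).card * (n * E) ^ 2 ≤ 64 * (S M D j).card := by
      calc _ ≤ 64 * (S M D j').card * 4 ^ t := Nat.mul_le_mul b6 b5
        _ = 64 * (4 ^ t * (S M D j').card) := by ring
        _ ≤ _ := Nat.mul_le_mul_left _ b7
    have hn' : (0 : ℝ) < n := by exact_mod_cast hn1
    have hE' : (0 : ℝ) < E := by exact_mod_cast hE1
    rw [div_mul_div_comm, mul_one, le_div_iff₀ (by positivity)]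
    have : ((Rem n k).card : ℝ) * (n * E) ^ 2 ≤ 64 * (S M D j).card := by exact_mod_cast b8
    nlinarith
  have hK : ∀ n, (Kn n).card ≤ C := fun n => hC (n ^ 4 * D) (8 ^ j) _ (by positivity)
    fun a ha => (mem_filter.1 ha).2
  have h1 := (card_le_card hsub).trans (card_union_le _ _)
  have h2 : (((Icc 1 (8 ^ (j + 1))).biUnion fun n => (Kn n).biUnion fun k => Rem n k).card : ℝ) ≤
      ∑ n ∈ Icc (1 : ℕ) (8 ^ (j + 1)), (C : ℝ) * (64 * (S M D j).card / E ^ 2 * (1 / (n : ℝ) ^ 2)) := by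
    have a1 := card_biUnion_le (s := Icc 1 (8 ^ (j + 1)))
      (t := fun n => (Kn n).biUnion fun k => Rem n k)
    refine le_trans (Nat.cast_le.2 a1) ?_
    push_cast
    refine sum_le_sum fun n hn => ?_
    have a2 := card_biUnion_le (s := Kn n) (t := fun k => Rem n k)
    refine le_trans (Nat.cast_le.2 a2) ?_
    push_cast
    refine (sum_le_sum (hRem n hn)).trans ?_
    rw [sum_const, nsmul_eq_mul]
    exact mul_le_mul_of_nonneg_right (by exact_mod_cast hK n) (by positivity)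
  rw [← mul_sum, ← mul_sum] at h2
  have h3 := sum_inv_sq (8 ^ (j + 1))
  have hE' : (32 * C + 1 : ℝ) ≤ E := by exact_mod_cast hE
  have hC0 : (0 : ℝ) ≤ C := by positivity
  have h4 : (C : ℝ) * (64 * (S M D j).card / E ^ 2 * 2) ≤ 4 * (S M D j).card := by
    have hEpos : (0 : ℝ) < E := by linarith
    have : (C : ℝ) * (64 * (S M D j).card / E ^ 2 * 2) = (128 * C / E ^ 2) * (S M D j).card := by
      ring
    rw [this]
    refine mul_le_mul_of_nonneg_right ?_ (by positivity)
    rw [div_le_iff₀ (by positivity)]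
    nlinarith
  have h5 : (((Icc 1 (8 ^ (j + 1))).biUnion fun n => (Kn n).biUnion fun k => Rem n k).card : ℝ) ≤
      4 * (S M D j).card := by
    refine h2.trans (le_trans ?_ h4)
    exact mul_le_mul_of_nonneg_left (mul_le_mul_of_nonneg_left h3 (by positivity)) hC0
  have h6 : ((Icc 1 (8 ^ (j + 1))).biUnion fun n => (Kn n).biUnion fun k => Rem n k).card ≤
      4 * (S M D j).card := by exact_mod_cast h5
  omega

lemma approx (M : Set ℕ) (D J u : ℕ) (hD : 2 ≤ D) (hM0 : ∀ k ∈ M, 0 < k) (hu : u ∈ S M D J)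
    (n k : ℕ) (z : ℤ) (hn : 1 ≤ n) (hk : k ∈ M) (h : n ^ 4 * D * k ≤ 8 ^ J) :
    1 / ((D : ℝ) * n ^ 3) ≤ |n * k * ((u : ℝ) / 8 ^ J) - z| := by
  have hk0 := hM0 k hk
  have h2 : 1 < n ^ 4 * D * k := by
    have : 1 ≤ n ^ 4 := Nat.one_le_pow _ _ hn
    calc 1 < 1 * 2 * 1 := by norm_num
      _ ≤ _ := Nat.mul_le_mul (Nat.mul_le_mul this hD) hk0
  obtain ⟨j, hj⟩ : ∃ j, Nat.clog 8 (n ^ 4 * D * k) = j + 1 :=
    ⟨_, (Nat.succ_pred_eq_of_pos (Nat.clog_pos (by norm_num) h2)).symm⟩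
  have a1 := Nat.pow_pred_clog_lt_self (b := 8) (by norm_num) h2
  have a2 := Nat.le_pow_clog (b := 8) (by norm_num) (n ^ 4 * D * k)
  rw [hj] at a1 a2
  simp only [Nat.pred_succ] at a1
  have a3 : j < J := (Nat.pow_lt_pow_iff_right (by norm_num : 1 < 8)).1 (a1.trans_le h)
  obtain ⟨t, rfl⟩ : ∃ t, J = j + 1 + t := ⟨J - (j + 1), by omega⟩
  have a4 := S_anc M D (j + 1) t u hu
  set v := u / 8 ^ t with hv
  simp only [S, mem_filter] at a4
  have a5 : ¬ Near D n k j v := fun hN => a4.2.2 ⟨n, k, hn, hk, a1, by rw [← pow_succ']; exact a2, hN⟩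
  unfold Near at a5
  push Not at a5
  have a6 : (2 : ℝ) * 8 ^ (j + 1) ≤ |(n * k * v : ℝ) - z * 8 ^ (j + 1)| * (D * n ^ 3) := by
    exact_mod_cast a5 z
  have a7 : (n : ℝ) ^ 4 * D * k ≤ 8 ^ (j + 1) := by exact_mod_cast a2
  have hn' : (0 : ℝ) < n := by exact_mod_cast hn
  have hk' : (0 : ℝ) < k := by exact_mod_cast hk0
  have hD' : (0 : ℝ) < D := by exact_mod_cast (by omega : 0 < D)
  have b1 : (v : ℝ) ≤ u / 8 ^ t := by
    rw [hv]; exact_mod_cast Nat.cast_div_le
  have b2 : (u : ℝ) / 8 ^ t ≤ v + 1 := by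
    rw [div_le_iff₀ (by positivity)]
    have := Nat.lt_div_mul_add (a := u) (by positivity : 0 < 8 ^ t)
    rw [← hv] at this
    have h' : (u : ℝ) < v * 8 ^ t + 8 ^ t := by exact_mod_cast this
    linarith
  set B : ℝ := 8 ^ (j + 1) with hB
  have hBpos : 0 < B := by positivity
  set w : ℝ := u / 8 ^ t with hw
  have e : (n * k * ((u : ℝ) / 8 ^ (j + 1 + t)) - z) = (n * k * w - z * B) / B := by
    rw [hw, hB, pow_add]; field_simp
  rw [e, abs_div, abs_of_pos hBpos, div_le_div_iff₀ (by positivity) hBpos]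
  have c1 : |(n * k * v : ℝ) - z * B| ≤ |(n * k * w : ℝ) - z * B| + n * k := by
    have : (n * k * v : ℝ) - z * B = (n * k * w - z * B) - n * k * (w - v) := by ring
    rw [this]
    refine (abs_sub _ _).trans ?_
    rw [abs_of_nonneg (a := (n * k * (w - v) : ℝ)) (mul_nonneg (by positivity) (by linarith))]
    have : (n * k * (w - v) : ℝ) ≤ n * k * 1 :=
      mul_le_mul_of_nonneg_left (by linarith) (by positivity)
    linarith
  have c2 := mul_le_mul_of_nonneg_right c1 (by positivity : (0 : ℝ) ≤ D * n ^ 3)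
  nlinarith

theorem exists_alpha (M : Set ℕ) (hM0 : ∀ k ∈ M, 0 < k) (ε : ℝ) (hε : 0 < ε)
    (hM : ∀ a ∈ M, ∀ b ∈ M, a < b → (1 + ε) * (a : ℝ) < (b : ℝ)) :
    ∃ (D : ℕ) (α : ℝ), 0 < D ∧ ∀ k ∈ M, ∀ n : ℕ, 1 ≤ n → ∀ z : ℤ,
      1 / ((D : ℝ) * n ^ 3) ≤ |n * k * α - z| := by
  obtain ⟨C, hC⟩ := window' M ε hε hM
  set E := 32 * C + 1 with hE
  set D := 64 * E ^ 3 with hD
  have hD2 : 2 ≤ D := by
    have : 1 ≤ E ^ 3 := Nat.one_le_pow _ _ (by omega)
    omega
  have hne : ∀ j, 0 < (S M D j).card := by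
    intro j
    induction j with
    | zero => simp [S]
    | succ j ih =>
      have := growth M C E le_rfl hM0 hC j
      rw [← hD] at this
      omega
  let F : ℕ → Set ℝ := fun J => Set.Icc 0 1 ∩ {α | ∀ (n k : ℕ) (z : ℤ), 1 ≤ n → k ∈ M →
    n ^ 4 * D * k ≤ 8 ^ J → 1 / ((D : ℝ) * n ^ 3) ≤ |n * k * α - z|}
  have hcl : ∀ J, IsClosed (F J) := by
    intro J
    refine isClosed_Icc.inter ?_
    simp only [Set.ofPred_forall]
    refine isClosed_iInter fun n => isClosed_iInter fun k => isClosed_iInter fun z =>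
      isClosed_iInter fun _ => isClosed_iInter fun _ => isClosed_iInter fun _ => ?_
    exact isClosed_le continuous_const (by fun_prop)
  obtain ⟨α, hα⟩ := IsCompact.nonempty_iInter_of_sequence_nonempty_isCompact_isClosed F
    (fun J x hx => ⟨hx.1, fun n k z h1 h2 h3 => hx.2 n k z h1 h2
      (h3.trans (Nat.pow_le_pow_right (by norm_num) (by omega)))⟩)
    (fun J => by
      obtain ⟨u, hu⟩ := card_pos.1 (hne J)
      refine ⟨(u : ℝ) / 8 ^ J, ⟨by positivity, ?_⟩,
        fun n k z h1 h2 h3 => approx M D J u hD2 hM0 hu n k z h1 h2 h3⟩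
      rw [div_le_one (by positivity)]
      exact_mod_cast (S_lt M D J u hu).le)
    (isCompact_Icc.inter_right (by
      simp only [Set.ofPred_forall]
      refine isClosed_iInter fun n => isClosed_iInter fun k => isClosed_iInter fun z =>
        isClosed_iInter fun _ => isClosed_iInter fun _ => isClosed_iInter fun _ => ?_
      exact isClosed_le continuous_const (by fun_prop))) hcl
  refine ⟨D, α, by omega, fun k hk n hn z => ?_⟩
  exact (Set.mem_iInter.1 hα (n ^ 4 * D * k)).2 n k z hn hk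
    (Nat.lt_pow_self (by norm_num)).le

lemma coarse (L : ℕ) (hL : 0 < L) :
    ∃ c : ℝ → Fin L, ∀ a b, c a = c b → ∃ z : ℤ, |a - b - z| < 1 / L := by
  have hL' : (0 : ℝ) < L := by exact_mod_cast hL
  refine ⟨fun a => ⟨⌊L * Int.fract a⌋₊, ?_⟩, fun a b h => ⟨⌊a⌋ - ⌊b⌋, ?_⟩⟩
  · rw [Nat.floor_lt (mul_nonneg hL'.le (Int.fract_nonneg a))]
    have := Int.fract_lt_one a
    nlinarith
  · simp only [Fin.mk.injEq] at h
    have a1 := Nat.floor_le (mul_nonneg hL'.le (Int.fract_nonneg a))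
    have a2 := Nat.lt_floor_add_one (L * Int.fract a)
    have b1 := Nat.floor_le (mul_nonneg hL'.le (Int.fract_nonneg b))
    have b2 := Nat.lt_floor_add_one (L * Int.fract b)
    rw [h] at a1 a2
    have e : a - b - ((⌊a⌋ - ⌊b⌋ : ℤ) : ℝ) = Int.fract a - Int.fract b := by
      push_cast
      rw [Int.fract, Int.fract]; ring
    rw [e, lt_div_iff₀ hL', ← abs_of_pos hL', ← abs_mul, abs_lt]
    constructor <;> nlinarith

lemma cube_small (θ η : ℝ) (hη : 72 * η ≤ 1) (H : ℕ) (hH : 1 ≤ H)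
    (h : ∀ i : ℕ, 1 ≤ i → i ≤ H → ∃ z : ℤ, |(i : ℝ) ^ 3 * θ - z| < 8 * η) :
    ∃ z : ℤ, (H : ℝ) ^ 3 * |θ - z| < 8 * η := by
  obtain ⟨z, hz⟩ := h 1 le_rfl hH
  simp only [Nat.cast_one, one_pow, one_mul] at hz
  refine ⟨z, ?_⟩
  induction H, hH using Nat.le_induction with
  | base => simpa using hz
  | succ H hH ih =>
    have h1 := ih fun i h1 h2 => h i h1 (by omega)
    obtain ⟨w, hw⟩ := h (H + 1) (by omega) le_rfl
    have hH' : (1 : ℝ) ≤ H := by exact_mod_cast hH
    have h2 : ((H + 1 : ℕ) : ℝ) ^ 3 ≤ 8 * (H : ℝ) ^ 3 := by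
      push_cast
      have : ((H : ℝ) + 1) ^ 3 ≤ (2 * H) ^ 3 := pow_le_pow_left₀ (by positivity) (by linarith) 3
      linarith
    have h3 : ((H + 1 : ℕ) : ℝ) ^ 3 * |θ - z| < 64 * η := by
      have := mul_le_mul_of_nonneg_right h2 (abs_nonneg (θ - z))
      linarith
    have h4 : |((H + 1 : ℕ) : ℝ) ^ 3 * (θ - z)| = ((H + 1 : ℕ) : ℝ) ^ 3 * |θ - z| := by
      rw [abs_mul, abs_of_nonneg (by positivity)]
    have h5 : w = ((H + 1 : ℕ) : ℤ) ^ 3 * z := by
      have e : ((w - ((H + 1 : ℕ) : ℤ) ^ 3 * z : ℤ) : ℝ) =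
          ((H + 1 : ℕ) : ℝ) ^ 3 * (θ - z) - (((H + 1 : ℕ) : ℝ) ^ 3 * θ - w) := by
        push_cast; ring
      have : |((w - ((H + 1 : ℕ) : ℤ) ^ 3 * z : ℤ) : ℝ)| < 1 := by
        rw [e]
        have := abs_sub (((H + 1 : ℕ) : ℝ) ^ 3 * (θ - z)) (((H + 1 : ℕ) : ℝ) ^ 3 * θ - w)
        linarith
      have h6 : |w - ((H + 1 : ℕ) : ℤ) ^ 3 * z| < 1 := by exact_mod_cast this
      rw [abs_lt] at h6
      omega
    rw [← h4]
    rw [h5] at hw
    convert hw using 2
    push_cast; ring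

end Pool.Agent.H14.Lacun
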