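import Mathlib

set_option autoImplicit false

namespace Pool.Agent.H14.Mg

open SimpleGraph

def L : List (Fin 14 × Fin 14) :=
  [(0, 1), (0, 2), (1, 2), (0, 3), (0, 4), (3, 4), (0, 5), (0, 6), (5, 6), (7, 1), (7, 2), (7, 10),
    (7, 11), (7, 12), (7, 13), (8, 1), (8, 10), (8, 11), (9, 2), (9, 12), (9, 13)]

/-- Three triangles at vertex 0, plus a gadget at vertex 7 on the edge 12. -/
def H : SimpleGraph (Fin 14) := fromRel fun v w => (v, w) ∈ L

instance : DecidableRel H.Adj := fun v w =>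
  inferInstanceAs (Decidable (v ≠ w ∧ ((v, w) ∈ L ∨ (w, v) ∈ L)))

lemma copyH {V : Type} (G : SimpleGraph V) (f : Fin 14 → V) (hf : Function.Injective f)
    (h : ∀ e ∈ L, G.Adj (f e.1) (f e.2)) : H ⊑ G :=
  ⟨⟨⟨f, fun hab => hab.2.elim (fun e => h _ e) fun e => (h _ e).symm⟩, hf⟩⟩

lemma chi : H.chromaticNumber = ((2 + 1 : ℕ) : ℕ∞) := by
  refine le_antisymm (Colorable.chromaticNumber_le ⟨Coloring.mk
    ![0, 1, 2, 1, 2, 1, 2, 0, 0, 0, 1, 1, 1, 1] (by decide)⟩) ?_
  have h : H.IsClique (({0, 1, 2} : Finset (Fin 14)) : Set (Fin 14)) := by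
    rw [isClique_iff]
    decide
  exact h.card_le_chromaticNumber

lemma free {V : Type} (G : SimpleGraph V) (A B : V → Prop) (col : V → Bool)
    (hA : ∀ v w, A v → A w → v = w) (hB : ∀ v w, B v → B w → v = w)
    (h1 : ∀ v w, G.Adj v w → ¬ A v → ¬ B v → ¬ A w → ¬ B w → col v ≠ col w)
    (h2 : ∀ v w, A v → B w → ¬ G.Adj v w)
    (h3 : ∀ v a b c, B v → G.Adj v a → G.Adj v b → G.Adj v c → col a = true → col b = true →
      col c = true → a = b ∨ a = c ∨ b = c) : ¬ H ⊑ G := by
  rintro ⟨f⟩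
  have hi : ∀ a b, f a = f b → a = b := fun a b e => f.injective e
  have he : ∀ a b, H.Adj a b → G.Adj (f a) (f b) := fun a b e => f.toHom.map_rel e
  let S : Fin 14 → Prop := fun v => A (f v) ∨ B (f v)
  have bi : ∀ a b, H.Adj a b → ¬ S a → ¬ S b → col (f a) ≠ col (f b) := fun a b e ha hb =>
    h1 _ _ (he a b e) (fun h => ha (Or.inl h)) (fun h => ha (Or.inr h)) (fun h => hb (Or.inl h))
      (fun h => hb (Or.inr h))
  have tri : ∀ a b c, H.Adj a b → H.Adj a c → H.Adj b c → ¬ S a → S b ∨ S c := by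
    intro a b c e1 e2 e3 ha
    by_contra hn
    rw [not_or] at hn
    have := bi a b e1 ha hn.1
    have := bi a c e2 ha hn.2
    have := bi b c e3 hn.1 hn.2
    cases hh : col (f a) <;> cases hh' : col (f b) <;> simp_all
  have two : ∀ a b c, S a → S b → S c → a = b ∨ a = c ∨ b = c := by
    rintro a b c (h | h) (h' | h') (h'' | h'')
    all_goals first
      | exact Or.inl (hi _ _ (hA _ _ h h'))
      | exact Or.inl (hi _ _ (hB _ _ h h'))
      | exact Or.inr (Or.inl (hi _ _ (hA _ _ h h'')))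
      | exact Or.inr (Or.inl (hi _ _ (hB _ _ h h'')))
      | exact Or.inr (Or.inr (hi _ _ (hA _ _ h' h'')))
      | exact Or.inr (Or.inr (hi _ _ (hB _ _ h' h'')))
  have na : ∀ a b, S a → S b → ¬ H.Adj a b := by
    rintro a b (h | h) (h' | h') e
    · exact e.ne (hi _ _ (hA _ _ h h'))
    · exact h2 _ _ h h' (he _ _ e)
    · exact h2 _ _ h' h (he _ _ e.symm)
    · exact e.ne (hi _ _ (hB _ _ h h'))
  have s0 : S 0 := by
    by_contra h
    rcases tri 0 1 2 (by decide) (by decide) (by decide) h with a | a <;>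
      rcases tri 0 3 4 (by decide) (by decide) (by decide) h with b | b <;>
      rcases tri 0 5 6 (by decide) (by decide) (by decide) h with c | c <;>
      exact absurd (two _ _ _ a b c) (by decide)
  have s7 : S 7 := by
    by_contra h
    rcases tri 7 1 2 (by decide) (by decide) (by decide) h with a | a <;>
      exact na _ _ s0 a (by decide)
  have bi' : ∀ a b, H.Adj a b ∧ a ≠ 0 ∧ a ≠ 7 ∧ b ≠ 0 ∧ b ≠ 7 → col (f a) ≠ col (f b) := by
    rintro a b ⟨e, a0, a7, b0, b7⟩
    refine bi a b e (fun h => ?_) fun h => ?_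
    · rcases two _ _ _ s0 s7 h with h | h | h
      exacts [absurd h (by decide), a0 h.symm, a7 h.symm]
    · rcases two _ _ _ s0 s7 h with h | h | h
      exacts [absurd h (by decide), b0 h.symm, b7 h.symm]
  have fin : ∀ v a b c, B (f v) → H.Adj v a ∧ H.Adj v b ∧ H.Adj v c ∧ a ≠ b ∧ a ≠ c ∧ b ≠ c →
      col (f a) = true → col (f b) = true → col (f c) = true → False := by
    rintro v a b c hv ⟨e1, e2, e3, n1, n2, n3⟩ c1 c2 c3
    rcases h3 _ _ _ _ hv (he _ _ e1) (he _ _ e2) (he _ _ e3) c1 c2 c3 with h | h | h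
    exacts [n1 (hi _ _ h), n2 (hi _ _ h), n3 (hi _ _ h)]
  have pick : ∀ a b, H.Adj a b ∧ a ≠ 0 ∧ a ≠ 7 ∧ b ≠ 0 ∧ b ≠ 7 →
      col (f a) = true ∨ col (f b) = true := fun a b h => by
    have := bi' a b h
    cases hh : col (f a) <;> simp_all
  rcases s0 with a0 | b0
  · have b7 : B (f 7) := s7.resolve_left fun h => absurd (hi _ _ (hA _ _ a0 h)) (by decide)
    have := bi' 1 2 (by decide)
    have := bi' 8 1 (by decide)
    have := bi' 8 10 (by decide)
    have := bi' 8 11 (by decide)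
    have := bi' 9 2 (by decide)
    have := bi' 9 12 (by decide)
    have := bi' 9 13 (by decide)
    have := fin 7 1 10 11 b7 (by decide)
    have := fin 7 2 12 13 b7 (by decide)
    cases hh : col (f 1) <;> simp_all
  · rcases pick 1 2 (by decide) with a | a <;> rcases pick 3 4 (by decide) with b | b <;>
      rcases pick 5 6 (by decide) with c | c <;> exact fin 0 _ _ _ b0 (by decide) a b c

lemma back {m k : ℕ} (M : SimpleGraph (Fin m)) (N : SimpleGraph (Fin k)) (h : N ⊑ M)
    (hs : m + M.edgeSet.ncard ≤ k + N.edgeSet.ncard) : M ⊑ N := by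
  obtain ⟨f⟩ := h
  have h1 : k ≤ m := by simpa using Fintype.card_le_of_injective f f.injective
  have hsub : Sym2.map f '' N.edgeSet ⊆ M.edgeSet := by
    rintro _ ⟨e, he, rfl⟩
    exact f.toHom.map_mem_edgeSet he
  have h2 := Set.ncard_image_of_injective N.edgeSet (Sym2.map.injective f.injective)
  have h3 := Set.ncard_le_ncard hsub
  have h4 := Set.eq_of_subset_of_ncard_le hsub (by
    change _ ≤ (Sym2.map f.toHom '' N.edgeSet).ncard
    omega)
  have h5 : k = m := by
    change (Sym2.map f.toHom '' N.edgeSet).ncard ≤ _ at h3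
    omega
  have hb : Function.Bijective f := (Fintype.bijective_iff_injective_and_card f).2
    ⟨f.injective, by simp [h5]⟩
  let e := Equiv.ofBijective f hb
  refine ⟨⟨⟨e.symm, fun {a b} hab => ?_⟩, e.symm.injective⟩⟩
  obtain ⟨a, rfl⟩ := e.surjective a
  obtain ⟨b, rfl⟩ := e.surjective b
  have : s(e a, e b) ∈ M.edgeSet := hab
  rw [← h4] at this
  obtain ⟨z, hz, ez⟩ := this
  have : z = s(a, b) := Sym2.map.injective f.injective ez
  simpa [this] using hz

lemma exists_min (P : (m : ℕ) → SimpleGraph (Fin m) → Prop) : ∀ (s m : ℕ) (M : SimpleGraph (Fin m)),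
    m + M.edgeSet.ncard = s → P m M → ∃ (k : ℕ) (N : SimpleGraph (Fin k)), N ⊑ M ∧ P k N ∧
      ∀ (k' : ℕ) (N' : SimpleGraph (Fin k')), N' ⊑ N → P k' N' → N ⊑ N' := by
  intro s
  induction s using Nat.strong_induction_on with
  | _ s ih =>
    intro m M hs hM
    by_cases h : ∀ (k' : ℕ) (N' : SimpleGraph (Fin k')), N' ⊑ M → P k' N' → M ⊑ N'
    · exact ⟨m, M, .rfl, hM, h⟩
    · push Not at h
      obtain ⟨k, N, h1, h2, h3⟩ := h
      obtain ⟨k', N', h4, h5⟩ := ih _ (by
        rw [← hs]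
        exact not_le.1 fun h => (back M N h1 h).elim h3.false) k N rfl h2
      exact ⟨k', N', h4.trans h1, h5⟩

end Pool.Agent.H14.Mg
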