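import Pool.Agent.H14.Mg1

set_option autoImplicit false

namespace Pool.Agent.H14.Mg

open SimpleGraph

def J {m : ℕ} (M : SimpleGraph (Fin m)) (t : ℕ) : SimpleGraph (Fin m ⊕ (Fin 2 × Fin t)) :=
  fromRel fun x y =>
    Sum.elim (fun a => Sum.elim (fun b => M.Adj a b) (fun q => q.1.val ≠ 0) y)
      (fun q => Sum.elim (fun _ => q.1.val ≠ 0) (fun q' => q.1 ≠ q'.1) y) x

section
variable {m t : ℕ} {M : SimpleGraph (Fin m)}

@[simp] lemma J_ll {a b : Fin m} : (J M t).Adj (.inl a) (.inl b) ↔ M.Adj a b :=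
  ⟨fun h => h.2.elim id Adj.symm, fun h => ⟨fun e => h.ne (Sum.inl.inj e), Or.inl h⟩⟩

@[simp] lemma J_lr {a : Fin m} {q : Fin 2 × Fin t} :
    (J M t).Adj (.inl a) (.inr q) ↔ q.1.val ≠ 0 :=
  ⟨fun h => h.2.elim id id, fun h => ⟨Sum.inl_ne_inr, Or.inl h⟩⟩

@[simp] lemma J_rl {a : Fin m} {q : Fin 2 × Fin t} :
    (J M t).Adj (.inr q) (.inl a) ↔ q.1.val ≠ 0 := (adj_comm _ _ _).trans J_lr

@[simp] lemma J_rr {q q' : Fin 2 × Fin t} : (J M t).Adj (.inr q) (.inr q') ↔ q.1 ≠ q'.1 :=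
  ⟨fun h => h.2.elim id Ne.symm, fun h => ⟨fun e => h (by rw [Sum.inr.inj e]), Or.inl h⟩⟩

end

def Dec (m : ℕ) (M : SimpleGraph (Fin m)) : Prop := ∃ t : ℕ, H ⊑ J M t

def Mem (m : ℕ) (M : SimpleGraph (Fin m)) : Prop :=
  Dec m M ∧ ∀ (m' : ℕ) (M' : SimpleGraph (Fin m')), M' ⊑ M → Dec m' M' → M ⊑ M'

lemma not_dec {m : ℕ} (M : SimpleGraph (Fin m)) (A B : Fin m → Prop)
    (hA : ∀ v w, A v → A w → v = w) (hB : ∀ v w, B v → B w → v = w)
    (h1 : ∀ v w, M.Adj v w → A v ∨ B v ∨ A w ∨ B w) (h2 : ∀ v w, A v → B w → ¬ M.Adj v w)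
    (h3 : ∀ v a b, B v → M.Adj v a → M.Adj v b → a = b) : ¬ Dec m M := by
  rintro ⟨t, h⟩
  refine free (J M t) (Sum.elim A fun _ => False) (Sum.elim B fun _ => False)
    (Sum.elim (fun _ => true) fun q => q.1.val == 0) ?_ ?_ ?_ ?_ ?_ h
  · rintro (v | v) (w | w) a b
    exacts [congrArg _ (hA _ _ a b), b.elim, a.elim, a.elim]
  · rintro (v | v) (w | w) a b
    exacts [congrArg _ (hB _ _ a b), b.elim, a.elim, a.elim]
  · rintro (v | v) (w | w) e a b c d
    · have := h1 v w (J_ll.1 e)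
      simp only [Sum.elim_inl] at a b c d
      tauto
    · simpa using e
    · simpa using e
    · have := v.1.2
      have := w.1.2
      have e' := J_rr.1 e
      rw [Ne, Fin.ext_iff] at e'
      simp only [Sum.elim_inr, ne_eq, beq_eq_beq]
      omega
  · rintro (v | v) (w | w) a b e
    exacts [h2 _ _ a b (J_ll.1 e), b.elim, a.elim, a.elim]
  · rintro (v | v) (a | a) (b | b) c hv e1 e2 e3 c1 c2 c3
    · exact Or.inl (congrArg _ (h3 _ _ _ hv (J_ll.1 e1) (J_ll.1 e2)))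
    · exact absurd (by simpa using c2) (J_lr.1 e2)
    · exact absurd (by simpa using c1) (J_lr.1 e1)
    · exact absurd (by simpa using c1) (J_lr.1 e1)
    all_goals exact hv.elim

def M3 : SimpleGraph (Fin 6) where
  Adj a b := a ≠ b ∧ a.val / 2 = b.val / 2
  symm := ⟨fun _ _ h => ⟨h.1.symm, h.2.symm⟩⟩
  loopless := ⟨fun _ h => h.1 rfl⟩

instance : DecidableRel M3.Adj := fun a b =>
  inferInstanceAs (Decidable (a ≠ b ∧ a.val / 2 = b.val / 2))

lemma mem_M3 : Mem 6 M3 := by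
  refine ⟨⟨4, copyH _ ![.inr (1, 0), .inl 0, .inl 1, .inl 2, .inl 3, .inl 4, .inl 5, .inr (1, 1),
    .inr (1, 2), .inr (1, 3), .inr (0, 0), .inr (0, 1), .inr (0, 2), .inr (0, 3)] (by decide)
    (by simp [L, M3])⟩, ?_⟩
  rintro m M ⟨f⟩ hM
  have hi : ∀ a b, f a = f b → a = b := fun a b e => f.injective e
  have he : ∀ a b, M.Adj a b → M3.Adj (f a) (f b) := fun a b e => f.toHom.map_rel e
  have u3 : ∀ a b c, M3.Adj a b → M3.Adj a c → b = c := by decide
  have key : ∀ a, ∃ s, f s = a ∧ ∃ s', M.Adj s s' := by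
    intro a
    by_contra hn
    push Not at hn
    refine not_dec M (fun s => f s = a + 2) (fun s => f s = a + 4)
      (fun v w p q => hi _ _ (p.trans q.symm)) (fun v w p q => hi _ _ (p.trans q.symm))
      (fun v w e => ?_) (fun v w p q e => ?_)
      (fun v x y _ p q => hi _ _ (u3 _ _ _ (he _ _ p) (he _ _ q))) hM
    · have k : ∀ a c d, M3.Adj c d → c ≠ a → d ≠ a →
          c = a + 2 ∨ c = a + 4 ∨ d = a + 2 ∨ d = a + 4 := by decide
      exact k a _ _ (he _ _ e) (fun h => hn v h w e) fun h => hn w h v e.symm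
    · have k : ∀ a, ¬ M3.Adj (a + 2) (a + 4) := by decide
      exact k a (p ▸ q ▸ he _ _ e)
  choose g hg s hs using key
  refine ⟨⟨⟨g, fun {a b} e => ?_⟩, fun a b e => by
    rw [← hg a, ← hg b]; exact congrArg f e⟩⟩
  have h1 := he _ _ (hs a)
  rw [hg] at h1
  rw [← hi _ _ ((u3 _ _ _ h1 e).trans (hg b).symm)]
  exact hs a

def K25 : SimpleGraph (Fin 7) where
  Adj a b := (a.val < 2 ∧ 2 ≤ b.val) ∨ (b.val < 2 ∧ 2 ≤ a.val)
  symm := ⟨fun _ _ h => h.symm⟩
  loopless := ⟨fun _ h => by omega⟩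

lemma gamma : IsLeast {k : ℕ | ∃ (m : ℕ) (M : SimpleGraph (Fin m)) (S : Finset (Fin m)),
    Mem m M ∧ (∀ a b, M.Adj a b → a ∈ S ∨ b ∈ S) ∧ (∀ a ∈ S, ∀ b ∈ S, ¬ M.Adj a b) ∧
      S.card = k} 2 := by
  have lb : ∀ (m : ℕ) (M : SimpleGraph (Fin m)) (S : Finset (Fin m)), Mem m M →
      (∀ a b, M.Adj a b → a ∈ S ∨ b ∈ S) → 2 ≤ S.card := by
    intro m M S hM hS
    by_contra hn
    refine not_dec M (· ∈ S) (fun _ => False)
      (fun v w p q => Finset.card_le_one.1 (by omega) _ p _ q) (fun _ _ p => p.elim)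
      (fun v w e => ?_) (fun _ _ _ p => p.elim) (fun _ _ _ p => p.elim) hM.1
    have := hS v w e
    tauto
  refine ⟨?_, by rintro _ ⟨m, M, S, h1, h2, -, rfl⟩; exact lb m M S h1 h2⟩
  have hd : Dec 7 K25 := ⟨6, copyH _ ![.inl 0, .inl 2, .inr (1, 0), .inl 3, .inr (1, 1), .inl 4,
    .inr (1, 2), .inl 1, .inr (1, 3), .inr (0, 0), .inl 5, .inl 6, .inr (1, 4), .inr (1, 5)]
    (by decide) (by simp [L, K25])⟩
  obtain ⟨k, N, ⟨f⟩, hN⟩ := exists_min Dec _ 7 K25 rfl hd
  have he : ∀ a b, N.Adj a b → K25.Adj (f a) (f b) := fun a b e => f.toHom.map_rel e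
  have hc : ∀ a b, N.Adj a b → a ∈ (Finset.univ.filter fun a => (f a).val < 2) ∨
      b ∈ (Finset.univ.filter fun a => (f a).val < 2) := fun a b e => by
    simp only [Finset.mem_filter, Finset.mem_univ, true_and]
    exact (he a b e).imp And.left And.left
  refine ⟨k, N, Finset.univ.filter fun a => (f a).val < 2, hN, hc, fun a ha b hb e => ?_,
    le_antisymm ?_ (lb k N _ hN hc)⟩
  · have := (Finset.mem_filter.1 ha).2
    have := (Finset.mem_filter.1 hb).2
    rcases he a b e with h | h <;> omega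
  · refine (Finset.card_le_card_of_injOn (t := Finset.univ.filter fun a : Fin 7 => a.val < 2) f
      (fun a ha => by simpa using ha) fun a _ b _ e => f.injective e).trans (by decide)

def Jn {k l : ℕ} (H1 : SimpleGraph (Fin k)) (H2 : SimpleGraph (Fin l)) :
    SimpleGraph (Fin k ⊕ Fin l) :=
  fromRel fun x y => Sum.elim (fun a => Sum.elim (fun b => H1.Adj a b) (fun _ => True) y)
    (fun a => Sum.elim (fun _ => True) (fun b => H2.Adj a b) y) x

section
variable {k l : ℕ} {H1 : SimpleGraph (Fin k)} {H2 : SimpleGraph (Fin l)}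

@[simp] lemma Jn_lr {a : Fin k} {q : Fin l} : (Jn H1 H2).Adj (.inl a) (.inr q) :=
  ⟨Sum.inl_ne_inr, Or.inl trivial⟩

@[simp] lemma Jn_rr {a b : Fin l} : (Jn H1 H2).Adj (.inr a) (.inr b) ↔ H2.Adj a b :=
  ⟨fun h => h.2.elim id Adj.symm, fun h => ⟨fun e => h.ne (Sum.inr.inj e), Or.inl h⟩⟩

end

lemma le_turan {l C : ℕ} (hl : 4 * C + 28 ≤ l) (H1 : SimpleGraph (Fin 1)) (H2 : SimpleGraph (Fin l))
    (hC : (symmDiff H2.edgeSet (turanGraph l 2).edgeSet).ncard ≤ C) (hf : ¬ H ⊑ Jn H1 H2) :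
    H2 ≤ turanGraph l 2 := by
  classical
  intro x y hxy
  by_contra hn
  let D := (symmDiff H2.edgeSet (turanGraph l 2).edgeSet).toFinite.toFinset
  let T := D.biUnion Sym2.toFinset
  have hT : T.card ≤ 2 * C := by
    refine (Finset.card_biUnion_le_card_mul _ _ 2 fun e _ => ?_).trans ?_
    · induction e using Sym2.ind
      rw [Sym2.toFinset_mk_eq]
      exact Finset.card_le_two
    · rw [← Set.ncard_eq_toFinset_card]
      omega
  have hcl : ∀ v w, v ∉ T → v.val % 2 ≠ w.val % 2 → H2.Adj v w := by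
    intro v w hv e
    by_contra h
    exact hv (Finset.mem_biUnion.2 ⟨s(v, w), (Set.Finite.mem_toFinset _).2 (Or.inr ⟨e, h⟩),
      by simp⟩)
  have hx : x ∈ T := Finset.mem_biUnion.2 ⟨s(x, y), (Set.Finite.mem_toFinset _).2
    (Or.inl ⟨hxy, hn⟩), by simp⟩
  have hy : y ∈ T := Finset.mem_biUnion.2 ⟨s(x, y), (Set.Finite.mem_toFinset _).2
    (Or.inl ⟨hxy, hn⟩), by simp⟩
  have hxy' : x.val % 2 = y.val % 2 := not_not.1 hn
  have hex : ∀ s : Fin 2, ∃ e : Fin 14 → Fin l, Function.Injective e ∧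
      ∀ i, e i ∉ T ∧ (e i).val % 2 = (x.val + s) % 2 := by
    intro s
    let g : Fin (2 * C + 14) → Fin l := fun j => ⟨2 * j + (x.val + s) % 2, by omega⟩
    have hg : Function.Injective g := fun a b e => Fin.ext (by
      have := congrArg Fin.val e
      simp only [g] at this
      omega)
    have h1 := Finset.le_card_sdiff T (Finset.univ.image g)
    rw [Finset.card_image_of_injective _ hg, Finset.card_univ, Fintype.card_fin] at h1
    obtain ⟨U, hU, hc⟩ := Finset.exists_subset_card_eq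
      (show 14 ≤ (Finset.univ.image g \ T).card by omega)
    refine ⟨fun i => (U.equivFinOfCardEq hc).symm i, fun a b e =>
      (U.equivFinOfCardEq hc).symm.injective (Subtype.ext e), fun i => ?_⟩
    obtain ⟨h2, h3⟩ := Finset.mem_sdiff.1 (hU ((U.equivFinOfCardEq hc).symm i).2)
    obtain ⟨j, -, hj⟩ := Finset.mem_image.1 h2
    refine ⟨h3, ?_⟩
    dsimp only
    rw [← hj]
    simp only [g]
    omega
  choose e he1 he2 using hex
  let sd : Fin 14 → Fin 2 := ![0, 0, 0, 0, 1, 0, 1, 1, 1, 1, 0, 0, 0, 0]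
  let g : Fin 14 → Fin l := fun v => if v = 1 then x else if v = 2 then y else e (sd v) v
  have g1 : ∀ v, (g v).val % 2 = (x.val + sd v) % 2 := by
    intro v
    simp only [g]
    split_ifs with a b
    · subst a; simp [sd]
    · subst b; simp [sd, hxy']
    · exact (he2 _ _).2
  have g2 : ∀ v, v ≠ 1 → v ≠ 2 → g v ∉ T := fun v a b => by
    simp only [g, if_neg a, if_neg b]
    exact (he2 _ _).1
  have g3 : Function.Injective g := by
    intro v w h
    have h1 := g1 v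
    have h2 := g1 w
    have h3 : sd v = sd w := Fin.ext (by rw [h] at h1; omega)
    have := (he2 (sd v) v).1
    have := (he2 (sd w) w).1
    have := hxy.ne
    simp only [g] at h
    split_ifs at h
    all_goals grind
  refine hf (copyH _ (fun v => if v = 0 then .inl 0 else .inr (g v)) ?_ ?_)
  · intro v w h
    dsimp only at h
    split_ifs at h with a b
    · rw [a, b]
    · exact g3 (Sum.inr.inj h)
  · have k : ∀ p ∈ L, p.2 ≠ 0 ∧ (p.1 = 0 ∨ (p.1 ≠ 0 ∧ (p = (1, 2) ∨ (sd p.1 ≠ sd p.2 ∧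
        p.1 ≠ 1 ∧ p.1 ≠ 2)))) := by simp [L, sd]
    intro p hp
    obtain ⟨a, b | ⟨b, c | ⟨c, d, d'⟩⟩⟩ := k p hp
    · simp [a, b]
    · simpa [c, g] using hxy
    · simp only [if_neg a, if_neg b, Jn_rr]
      refine hcl _ _ (g2 _ d d') ?_
      rw [g1, g1]
      rw [Ne, Fin.ext_iff] at c
      omega

lemma more {l : ℕ} (hl : 5 ≤ l) (H1 : SimpleGraph (Fin 1)) :
    ∃ B : SimpleGraph (Fin 1 ⊕ Fin l), ¬ H ⊑ B ∧
      (Jn H1 (turanGraph l 2)).edgeSet.ncard < B.edgeSet.ncard := by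
  classical
  let A := Jn H1 (turanGraph l 2)
  let u : Fin 1 ⊕ Fin l := .inl 0
  let b : Fin 1 ⊕ Fin l := .inr ⟨0, by omega⟩
  let p : Fin 1 ⊕ Fin l := .inr ⟨2, by omega⟩
  let q : Fin 1 ⊕ Fin l := .inr ⟨4, by omega⟩
  refine ⟨A.deleteEdges {s(u, b)} ⊔ fromEdgeSet {s(b, p), s(b, q)}, ?_, ?_⟩
  · refine free _ (· = u) (· = b) (Sum.elim (fun _ => true) fun v => v.val % 2 == 0)
      (fun _ _ x y => x.trans y.symm) (fun _ _ x y => x.trans y.symm) ?_ ?_ ?_
    · rintro (v | v) (w | w) e h1 h2 h3 h4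
      · exact absurd (congrArg _ (Subsingleton.elim _ _)) h1
      · exact absurd (congrArg _ (Subsingleton.elim _ _)) h1
      · exact absurd (congrArg _ (Subsingleton.elim _ _)) h3
      · rcases e with e | e
        · have := turanGraph_adj.1 (Jn_rr.1 (deleteEdges_adj.1 e).1)
          simp only [Sum.elim_inr, ne_eq, beq_eq_beq]
          omega
        · simp [h2, h4] at e
    · rintro _ _ rfl rfl (e | e)
      · simp at e
      · simp [u, b, p, q] at e
    · have k : ∀ w, (A.deleteEdges {s(u, b)} ⊔ fromEdgeSet {s(b, p), s(b, q)}).Adj b w →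
          Sum.elim (fun _ => true) (fun v : Fin l => v.val % 2 == 0) w = true →
          w = p ∨ w = q := by
        rintro (w | w) (e | e) c
        · exact absurd (by rw [Subsingleton.elim w 0]; simp [u, Sym2.eq_swap])
            (deleteEdges_adj.1 e).2
        · simp [b, p, q] at e
        · have := turanGraph_adj.1 (Jn_rr.1 (deleteEdges_adj.1 e).1)
          simp at c this
          omega
        · have := e.2
          simpa [this.symm] using e.1
      rintro _ x y z rfl e1 e2 e3 c1 c2 c3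
      rcases k x e1 c1 with rfl | rfl <;> rcases k y e2 c2 with rfl | rfl <;>
        rcases k z e3 c3 with rfl | rfl <;> simp
  · have h1 : insert s(b, p) (insert s(b, q) (A.edgeSet \ {s(u, b)})) ⊆
        (A.deleteEdges {s(u, b)} ⊔ fromEdgeSet {s(b, p), s(b, q)}).edgeSet := by
      rintro e (rfl | rfl | h)
      · exact Or.inr (by simp [b, p])
      · exact Or.inr (by simp [b, q])
      · rw [edgeSet_sup, edgeSet_deleteEdges]
        exact Or.inl h
    have h2 := Set.ncard_le_ncard h1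
    rw [Set.ncard_insert_of_notMem (by simp [A, b, p, q, turanGraph_adj]),
      Set.ncard_insert_of_notMem (by simp [A, b, q, turanGraph_adj]),
      Set.ncard_sdiff_singleton_add_one (by simp [A, u, b])] at h2
    exact h2

theorem main (C N : ℕ) : ∃ n ≥ N, ∀ (H1 : SimpleGraph (Fin 1)) (H2 : SimpleGraph (Fin (n - 2 + 1))),
    (symmDiff H2.edgeSet (turanGraph (n - 2 + 1) 2).edgeSet).ncard ≤ C → ¬ H ⊑ Jn H1 H2 →
    ∃ G : SimpleGraph (Fin n), ¬ H ⊑ G ∧ (Jn H1 H2).edgeSet.ncard < G.edgeSet.ncard := by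
  refine ⟨N + 4 * C + 30, by omega, fun H1 H2 h1 h2 => ?_⟩
  have h3 := le_turan (by omega) H1 H2 h1 h2
  obtain ⟨B, h4, h5⟩ := more (l := N + 4 * C + 30 - 2 + 1) (by omega) H1
  have hc : Fintype.card (Fin 1 ⊕ Fin (N + 4 * C + 30 - 2 + 1)) = N + 4 * C + 30 := by
    simp; omega
  have φ := B.overFinIso hc
  refine ⟨B.overFin hc, fun h => h4 (h.trans ⟨φ.symm.toCopy⟩), ?_⟩
  have h6 : B.edgeSet.ncard = (B.overFin hc).edgeSet.ncard := Nat.card_congr φ.mapEdgeSet
  refine lt_of_le_of_lt (Set.ncard_le_ncard (edgeSet_mono ?_)) (h6 ▸ h5)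
  rintro (v | v) (w | w) h
  exacts [h, Jn_lr, Jn_lr.symm, Jn_rr.2 (h3 (Jn_rr.1 h))]

end Pool.Agent.H14.Mg
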