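import Mathlib
set_option autoImplicit false
set_option maxHeartbeats 400000

namespace Pool.Agent.H14.Mj
open Finset

lemma sdr {ι V : Type} [Countable ι] (S : ι → Set V) (hS : ∀ i, (S i).Infinite) :
    ∃ g : ι → V, Function.Injective g ∧ ∀ i, g i ∈ S i := by
  classical
  rcases isEmpty_or_nonempty ι with h | h
  · exact ⟨isEmptyElim, fun i => isEmptyElim i, fun i => isEmptyElim i⟩
  obtain ⟨e, he⟩ := Countable.exists_injective_nat ι
  choose p p1 p2 using fun (n : ℕ) (F : Finset V) => (hS (Function.invFun e n)).exists_notMem_finset F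
  let F : ℕ → Finset V := fun n => Nat.rec ∅ (fun n F => insert (p n F) F) n
  have mono : Monotone F := monotone_nat_of_le_succ fun n => subset_insert _ _
  have lt : ∀ m n, m < n → p m (F m) ≠ p n (F n) := fun m n h e' =>
    p2 n (F n) (e' ▸ mono h (mem_insert_self _ _))
  refine ⟨fun i => p (e i) (F (e i)), fun i j h => he ?_, fun i => ?_⟩
  · rcases lt_trichotomy (e i) (e j) with h' | h' | h'
    · exact absurd h (lt _ _ h')
    · exact h'
    · exact absurd h.symm (lt _ _ h')
  · simpa [Function.leftInverse_invFun he i] using p1 (e i) (F (e i))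

lemma fin_case {V : Type} [DecidableEq V] (W : V → V → ℕ) (hW : ∀ u v, W u v = W v u)
    (h0 : ∀ v, W v v = 0) (f : V → Fin 3) (s : Finset V) :
    ∃ φ : V → Fin 3, (∀ u, φ u ≠ f u) ∧ ∀ v ∈ s,
      ∑ u ∈ s, (if φ u = φ v then W v u else 0) ≤ ∑ u ∈ s, if φ u ≠ φ v then W v u else 0 := by
  let P : {φ : V → Fin 3 // ∀ u, φ u ≠ f u} → ℕ := fun φ =>
    ∑ x ∈ s, ∑ u ∈ s, if φ.1 u = φ.1 x then W x u else 0
  have : Nonempty {φ : V → Fin 3 // ∀ u, φ u ≠ f u} := ⟨⟨fun u => f u + 1, fun u => by simp⟩⟩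
  obtain ⟨φ, hφ⟩ : ∃ φ, ∀ ψ, P φ ≤ P ψ := ⟨Function.argmin P, fun ψ => Function.argmin_le P ψ⟩
  refine ⟨φ.1, φ.2, fun v hv => ?_⟩
  obtain ⟨c, c1, c2⟩ : ∃ c : Fin 3, c ≠ f v ∧ c ≠ φ.1 v := by
    generalize f v = a; generalize φ.1 v = b; revert a b; decide
  have split : ∀ ψ : V → Fin 3, ∑ x ∈ s, ∑ u ∈ s, (if ψ u = ψ x then W x u else 0) =
      2 * ∑ u ∈ s.erase v, (if ψ u = ψ v then W v u else 0) +
        ∑ x ∈ s.erase v, ∑ u ∈ s.erase v, if ψ u = ψ x then W x u else 0 := fun ψ => by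
    rw [← add_sum_erase s _ hv, ← add_sum_erase s _ hv,
      sum_congr rfl fun x _ => (add_sum_erase s _ hv).symm, sum_add_distrib,
      sum_congr rfl (f := fun x => if ψ v = ψ x then W x v else 0)
        (g := fun u => if ψ u = ψ v then W v u else 0) fun x _ => by
        simp only [eq_comm (a := ψ v), hW x v]]
    simp [h0]; ring
  have h := hφ ⟨Function.update φ.1 v c, fun u => by
    by_cases hu : u = v
    · subst hu; simpa using c1
    · rw [Function.update_of_ne hu]; exact φ.2 u⟩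
  simp only [P, split, Function.update_self] at h
  rw [sum_congr rfl (g := fun x => ∑ u ∈ s.erase v, if φ.1 u = φ.1 x then W x u else 0)
    (f := fun x => ∑ u ∈ s.erase v, if Function.update φ.1 v c u = Function.update φ.1 v c x
      then W x u else 0) fun x hx => sum_congr rfl fun u hu => by
        rw [Function.update_of_ne (mem_erase.1 hx).1, Function.update_of_ne (mem_erase.1 hu).1]] at h
  have h2 : ∑ u ∈ s.erase v, (if Function.update φ.1 v c u = c then W v u else 0) ≤
      ∑ u ∈ s.erase v, if φ.1 u ≠ φ.1 v then W v u else 0 := sum_le_sum fun u hu => by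
    rw [Function.update_of_ne (mem_erase.1 hu).1]
    split_ifs with a b
    · exact le_rfl
    · exact absurd (a.symm.trans (not_not.1 b)) c2
    · exact Nat.zero_le _
    · exact le_rfl
  rw [← add_sum_erase s _ hv, ← add_sum_erase s _ hv, h0, ite_self, ite_self]
  omega

theorem main {V : Type} [Countable V] [DecidableEq V] (W : V → V → ℕ)
    (hW : ∀ u v, W u v = W v u) (h0 : ∀ v, W v v = 0) :
    ∃ φ : V → Fin 3, ∀ v, ∑' u, ((if φ u = φ v then W v u else 0 : ℕ) : ENNReal) ≤
      ∑' u, ((if φ u ≠ φ v then W v u else 0 : ℕ) : ENNReal) := by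
  classical
  obtain ⟨g, g1, g2⟩ := sdr (ι := {v // {u | W v u ≠ 0}.Infinite} × Fin 3 × ℕ)
    (fun i => {u | W i.1.1 u ≠ 0}) fun i => i.1.2
  let f : V → Fin 3 := fun u => if h : ∃ i, g i = u then h.choose.2.1 else 0
  have hf : ∀ i, f (g i) = i.2.1 := fun i => by
    have h : ∃ j, g j = g i := ⟨i, rfl⟩
    simp only [f, dif_pos h, g1 h.choose_spec]
  choose φ φ1 φ2 using fin_case W hW h0 f
  obtain ⟨χ, hχ⟩ := Finset.rado_selection (β := fun _ => Fin 3) φ
  have χ1 : ∀ u, χ u ≠ f u := fun u => by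
    obtain ⟨t, -, ht⟩ := hχ {u}
    rw [ht u (mem_singleton_self _)]
    exact φ1 t u
  refine ⟨χ, fun v => ?_⟩
  by_cases hv : {u | W v u ≠ 0}.Finite
  · obtain ⟨t, t1, t2⟩ := hχ (insert v hv.toFinset)
    have hv' := t1 (mem_insert_self _ _)
    have z : ∀ u, u ∉ insert v hv.toFinset → W v u = 0 := fun u hu => by
      by_contra h
      exact hu (mem_insert_of_mem (hv.mem_toFinset.2 h))
    have e : ∀ u, (if χ u = χ v then W v u else 0) = (if φ t u = φ t v then W v u else 0) ∧
        (if χ u ≠ χ v then W v u else 0) = if φ t u ≠ φ t v then W v u else 0 := fun u => by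
      by_cases hu : u ∈ insert v hv.toFinset
      · rw [t2 u hu, t2 v (mem_insert_self _ _)]; exact ⟨rfl, rfl⟩
      · simp [z u hu]
    simp only [(e _).1, (e _).2]
    rw [tsum_eq_sum (s := t) fun u hu => by simp [z u fun h => hu (t1 h)],
      tsum_eq_sum (s := t) fun u hu => by simp [z u fun h => hu (t1 h)]]
    exact_mod_cast φ2 t v hv'
  · refine le_of_le_of_eq le_top (by_contra fun h => ?_)
    refine Set.infinite_of_injective_forall_mem (f := fun k : ℕ => g (⟨v, hv⟩, χ v, k))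
      (fun a b h => by simpa using g1 h) (fun k => ?_)
      (ENNReal.finite_const_le_of_tsum_ne_top (Ne.symm h) one_ne_zero)
    have a := χ1 (g (⟨v, hv⟩, χ v, k))
    rw [hf] at a
    simp only [Set.mem_setOf_eq]
    rw [if_pos a]
    exact_mod_cast Nat.one_le_iff_ne_zero.2 (g2 (⟨v, hv⟩, χ v, k))

end Pool.Agent.H14.Mj
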