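import Mathlib

namespace Pool.Agent.H14.MonoPack

open Finset SimpleGraph

/-- Points and lines of the affine plane over `ZMod p` without vertical lines. -/
abbrev A (p : ℕ) := (ZMod p × ZMod p) ⊕ (ZMod p × ZMod p)

abbrev V (p : ℕ) := A p ⊕ Fin (2 * p ^ 2 - p)

def incA (p : ℕ) : A p → A p → Prop
  | Sum.inl u, Sum.inr l => u.2 = l.1 * u.1 + l.2
  | Sum.inr l, Sum.inl u => u.2 = l.1 * u.1 + l.2
  | _, _ => False

def adjV (p : ℕ) : V p → V p → Prop
  | Sum.inl a, Sum.inl b => incA p a b
  | Sum.inl _, Sum.inr _ => True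
  | Sum.inr _, Sum.inl _ => True
  | Sum.inr _, Sum.inr _ => False

lemma incA_symm (p : ℕ) (a b : A p) (h : incA p a b) : incA p b a := by
  rcases a with a | a <;> rcases b with b | b <;> simp_all [incA]

def G (p : ℕ) : SimpleGraph (V p) where
  Adj := adjV p
  symm := ⟨by
    rintro (a | a) (b | b) h
    · exact incA_symm p a b h
    all_goals simp_all [adjV]⟩
  loopless := ⟨by
    rintro ((a | a) | a) <;> simp [adjV, incA]⟩

lemma card_incA (p : ℕ) [Fact p.Prime] (a : A p) : {b | incA p a b}.ncard = p := by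
  have hz : Nat.card (ZMod p) = p := Nat.card_zmod p
  rcases a with u | l
  · have : {b | incA p (Sum.inl u) b} =
        Set.range (fun s : ZMod p => (Sum.inr (s, u.2 - s * u.1) : A p)) := by
      ext b
      rcases b with b | b
      · simp [incA]
      · simp only [incA, Set.mem_ofPred_eq, Set.mem_range, Sum.inr.injEq]
        constructor
        · intro h
          refine ⟨b.1, Prod.ext rfl ?_⟩
          simp only
          rw [h]; ring
        · rintro ⟨s, rfl⟩
          simp
    rw [this, Set.ncard_range_of_injective, hz]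
    intro s t h
    simp only [Sum.inr.injEq, Prod.mk.injEq] at h
    exact h.1
  · have : {b | incA p (Sum.inr l) b} =
        Set.range (fun s : ZMod p => (Sum.inl (s, l.1 * s + l.2) : A p)) := by
      ext b
      rcases b with b | b
      · simp only [incA, Set.mem_ofPred_eq, Set.mem_range, Sum.inl.injEq]
        constructor
        · intro h
          exact ⟨b.1, Prod.ext rfl h.symm⟩
        · rintro ⟨s, rfl⟩
          simp
      · simp [incA]
    rw [this, Set.ncard_range_of_injective, hz]
    intro s t h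
    simp only [Sum.inl.injEq, Prod.mk.injEq] at h
    exact h.1

lemma natCard_A (p : ℕ) [Fact p.Prime] : Nat.card (A p) = 2 * p ^ 2 := by
  simp only [Nat.card_sum, Nat.card_prod, Nat.card_zmod]
  ring

lemma le_two_sq (p : ℕ) : p ≤ 2 * p ^ 2 := by nlinarith [Nat.zero_le p]

lemma natCard_V (p : ℕ) [Fact p.Prime] : Nat.card (V p) = 2 * p ^ 2 + (2 * p ^ 2 - p) := by
  rw [Nat.card_sum, natCard_A]
  simp

lemma deg_G (p : ℕ) [Fact p.Prime] (v : V p) : ((G p).neighborSet v).ncard = 2 * p ^ 2 := by
  rcases v with a | b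
  · have : (G p).neighborSet (Sum.inl a) =
        Sum.inl '' {b | incA p a b} ∪ Set.range (Sum.inr : Fin (2 * p ^ 2 - p) → V p) := by
      ext w
      rcases w with w | w <;> simp [G, adjV, neighborSet]
    rw [this, Set.ncard_union_eq, Set.ncard_image_of_injective _ Sum.inl_injective, card_incA,
      Set.ncard_range_of_injective Sum.inr_injective]
    · have := le_two_sq p
      simp only [Nat.card_eq_fintype_card, Fintype.card_fin]
      omega
    · rw [Set.disjoint_left]
      rintro _ ⟨x, _, rfl⟩ ⟨y, hy⟩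
      cases hy
  · have : (G p).neighborSet (Sum.inr b) = Set.range (Sum.inl : A p → V p) := by
      ext w
      rcases w with w | w <;> simp [G, adjV, neighborSet]
    rw [this, Set.ncard_range_of_injective Sum.inl_injective, natCard_A]

lemma noC4 (p : ℕ) [Fact p.Prime] (a b c d : A p) (hac : a ≠ c) (hbd : b ≠ d)
    (h1 : incA p a b) (h2 : incA p b c) (h3 : incA p c d) (h4 : incA p d a) : False := by
  have key : ∀ u v l m : ZMod p × ZMod p, u.2 = l.1 * u.1 + l.2 → v.2 = l.1 * v.1 + l.2 →
      u.2 = m.1 * u.1 + m.2 → v.2 = m.1 * v.1 + m.2 → u = v ∨ l = m := by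
    intro u v l m e1 e2 e3 e4
    have : (l.1 - m.1) * (u.1 - v.1) = 0 := by linear_combination e3 - e1 + e2 - e4
    rcases mul_eq_zero.1 this with h | h
    · right
      have h' : l.1 = m.1 := sub_eq_zero.1 h
      refine Prod.ext h' ?_
      rw [h'] at e1
      linear_combination e3 - e1
    · left
      have h' : u.1 = v.1 := sub_eq_zero.1 h
      refine Prod.ext h' ?_
      rw [e1, e2, h']
  rcases a with a | a <;> rcases b with b | b <;> rcases c with c | c <;> rcases d with d | d <;>
    simp only [incA] at h1 h2 h3 h4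
  · rcases key a c b d h1 h2 h4 h3 with h | h
    · exact hac (by rw [h])
    · exact hbd (by rw [h])
  · rcases key b d a c h1 h4 h2 h3 with h | h
    · exact hbd (by rw [h])
    · exact hac (by rw [h])

def w (p : ℕ) : V p → ℤ
  | Sum.inl _ => 1
  | Sum.inr _ => -1

open Classical in
noncomputable def col (p : ℕ) (e : Sym2 (V p)) : Fin 2 :=
  if ∃ b, (Sum.inr b : V p) ∈ e then 0 else 1

lemma col_ll (p : ℕ) (a b : A p) : col p s(Sum.inl a, Sum.inl b) = 1 := by
  simp [col]

lemma col_lr (p : ℕ) (a : A p) (b : Fin (2 * p ^ 2 - p)) :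
    col p s(Sum.inl a, Sum.inr b) = 0 := by
  simp [col]

lemma col_rl (p : ℕ) (a : A p) (b : Fin (2 * p ^ 2 - p)) :
    col p s(Sum.inr b, Sum.inl a) = 0 := by
  simp [col]

lemma sum_copy (p : ℕ) [Fact p.Prime] (x0 x1 x2 x3 : V p) (h02 : x0 ≠ x2) (h13 : x1 ≠ x3)
    (a1 : (G p).Adj x0 x1) (a2 : (G p).Adj x1 x2) (a3 : (G p).Adj x2 x3) (a4 : (G p).Adj x3 x0)
    (c : Fin 2) (c1 : col p s(x0, x1) = c) (c2 : col p s(x1, x2) = c)
    (c3 : col p s(x2, x3) = c) (c4 : col p s(x3, x0) = c) :
    w p x0 + w p x1 + w p x2 + w p x3 = 0 := by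
  rcases x0 with x0 | x0 <;> rcases x1 with x1 | x1 <;> rcases x2 with x2 | x2 <;>
    rcases x3 with x3 | x3 <;>
    simp only [col_ll, col_lr, col_rl, G, adjV] at a1 a2 a3 a4 c1 c2 c3 c4 <;>
    first
      | (simp [w]; done)
      | (exfalso; subst c1; simp_all; done)
      | (exfalso
         exact noC4 p x0 x1 x2 x3 (fun h => h02 (by rw [h])) (fun h => h13 (by rw [h]))
           a1 a2 a3 a4)

lemma sum_w (p : ℕ) [Fact p.Prime] : ∑ v : V p, w p v = p := by
  rw [Fintype.sum_sum_type]
  have h := natCard_A p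
  rw [Nat.card_eq_fintype_card] at h
  have := le_two_sq p
  simp only [w, sum_const, card_univ, h, Fintype.card_fin]
  simp only [nsmul_eq_mul, mul_one, mul_neg]
  rw [Nat.cast_sub this]
  ring

theorem main (p : ℕ) [Fact p.Prime] (k : ℕ) (f : Fin k → Copy (cycleGraph 4) (G p))
    (hd : ∀ i j, i ≠ j → Disjoint (Set.range (f i)) (Set.range (f j)))
    (hm : ∀ i, ∃ c : Fin 2, ∀ a b, (cycleGraph 4).Adj a b → col p s(f i a, f i b) = c) :
    p ≤ {v | ∀ i, v ∉ Set.range (f i)}.ncard := by
  classical
  set F : Fin k × Fin 4 → V p := fun x => f x.1 x.2 with hF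
  have hinj : Function.Injective F := by
    rintro ⟨i, a⟩ ⟨j, b⟩ h
    simp only [hF] at h
    by_cases hij : i = j
    · subst hij
      have := (f i).injective h
      rw [this]
    · exfalso
      exact Set.disjoint_left.1 (hd i j hij) ⟨a, rfl⟩ ⟨b, h.symm⟩
  have hcov : ∑ v ∈ univ.image F, w p v = 0 := by
    rw [sum_image (fun x _ y _ h => hinj h), Fintype.sum_prod_type]
    refine sum_eq_zero fun i _ => ?_
    obtain ⟨c, hc⟩ := hm i
    rw [Fin.sum_univ_four]
    have e1 : (cycleGraph 4).Adj 0 1 := by decide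
    have e2 : (cycleGraph 4).Adj 1 2 := by decide
    have e3 : (cycleGraph 4).Adj 2 3 := by decide
    have e4 : (cycleGraph 4).Adj 3 0 := by decide
    refine sum_copy p _ _ _ _ ?_ ?_ ((f i).toHom.map_adj e1) ((f i).toHom.map_adj e2)
      ((f i).toHom.map_adj e3) ((f i).toHom.map_adj e4) c (hc _ _ e1) (hc _ _ e2) (hc _ _ e3)
      (hc _ _ e4)
    · intro h
      have h' : (0 : Fin 4) = 2 := (f i).injective h
      exact absurd h' (by decide)
    · intro h
      have h' : (1 : Fin 4) = 3 := (f i).injective h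
      exact absurd h' (by decide)
  have hsplit := sum_add_sum_compl (univ.image F) (w p)
  rw [hcov, sum_w, zero_add] at hsplit
  have hle : ∑ v ∈ (univ.image F)ᶜ, w p v ≤ ((univ.image F)ᶜ).card := by
    have : ∑ v ∈ (univ.image F)ᶜ, w p v ≤ ∑ v ∈ (univ.image F)ᶜ, (1 : ℤ) := by
      refine sum_le_sum fun v _ => ?_
      rcases v with v | v <;> simp [w]
    simpa using this
  have hset : {v | ∀ i, v ∉ Set.range (f i)} = ((univ.image F)ᶜ : Finset (V p)) := by
    ext v
    simp [hF]
  rw [hset, Set.ncard_coe_finset]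
  have : (p : ℤ) ≤ ((univ.image F)ᶜ).card := hsplit ▸ hle
  exact_mod_cast this

end Pool.Agent.H14.MonoPack
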