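import Mathlib

set_option autoImplicit false

namespace Pool.Agent.H14.Nl

open Finset
open scoped InnerProductSpace

variable {E : Type} [NormedAddCommGroup E] [InnerProductSpace ℝ E]

lemma percep {ι : Type} [Nonempty ι] (a : ι → E) (ha : ∀ i, ‖a i‖ ≤ 1) (η : ℝ) (hη : 0 < η)
    (K : ℕ) : ∀ u : E, ‖u‖ ^ 2 ≤ K * η ^ 2 → ∃ l : Fin K → ι × SignType,
      ∀ i, |⟪a i, u - ∑ j, (((l j).2 : ℝ) * η) • a (l j).1⟫_ℝ| ≤ η := by
  induction K with
  | zero =>
    intro u hu
    have : u = 0 := by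
      have : ‖u‖ ^ 2 = 0 := le_antisymm (by simpa using hu) (by positivity)
      simpa using this
    exact ⟨Fin.elim0, fun i => by simp [this, hη.le]⟩
  | succ K ih =>
    intro u hu
    by_cases h : ∀ i, |⟪a i, u⟫_ℝ| ≤ η
    · exact ⟨fun _ => (Classical.arbitrary ι, 0), fun i => by simpa using h i⟩
    · push Not at h
      obtain ⟨i, hi⟩ := h
      obtain ⟨s, hs1, hs2⟩ : ∃ s : SignType, (s : ℝ) ^ 2 = 1 ∧ η < (s : ℝ) * ⟪a i, u⟫_ℝ := by
        rcases lt_abs.1 hi with h | h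
        · exact ⟨1, by simp, by simpa using h⟩
        · exact ⟨-1, by simp, by simpa using h⟩
      obtain ⟨l, hl⟩ := ih (u - ((s : ℝ) * η) • a i) (by
        rw [norm_sub_sq_real, inner_smul_right, real_inner_comm, norm_smul, mul_pow,
          Real.norm_eq_abs, sq_abs, mul_pow, hs1]
        have h1 : ‖a i‖ ^ 2 ≤ 1 := pow_le_one₀ (norm_nonneg _) (ha i)
        push_cast at hu
        nlinarith [sq_nonneg η])
      refine ⟨Fin.cons (i, s) l, fun i' => ?_⟩
      rw [Fin.sum_univ_succ]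
      simpa [sub_sub] using hl i'

lemma log_lip {s t : ℝ} (hs : 1 / 2 ≤ s) (ht : 1 / 2 ≤ t) :
    |Real.log s - Real.log t| ≤ 2 * |s - t| := by
  have key : ∀ s t : ℝ, 1 / 2 ≤ s → 1 / 2 ≤ t → Real.log s - Real.log t ≤ 2 * |s - t| := by
    intro s t hs ht
    rw [← Real.log_div (by linarith) (by linarith)]
    refine (Real.log_le_sub_one_of_pos (by positivity)).trans ?_
    rw [div_sub_one (by linarith), div_le_iff₀ (by linarith)]
    have := le_abs_self (s - t)
    have := abs_nonneg (s - t)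
    nlinarith
  rw [abs_le]
  have := key t s ht hs
  rw [abs_sub_comm] at this
  exact ⟨by linarith, key s t hs ht⟩

lemma floor_close {x y η : ℝ} (hη : 0 < η) (hx : 0 ≤ x) (hy : 0 ≤ y)
    (h : ⌊x / η⌋₊ = ⌊y / η⌋₊) : |x - y| ≤ η := by
  have h1 := Nat.floor_le (div_nonneg hx hη.le)
  have h2 := Nat.floor_le (div_nonneg hy hη.le)
  have h3 := Nat.lt_floor_add_one (x / η)
  have h4 := Nat.lt_floor_add_one (y / η)
  rw [h] at h1 h3
  rw [le_div_iff₀ hη] at h1 h2
  rw [div_lt_iff₀ hη] at h3 h4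
  rw [abs_le]
  constructor <;> nlinarith

/-- the slowly oscillating function -/
noncomputable def gg (w : E) : ℝ := Real.sin (Real.log (1 + ‖w‖ ^ 2) / 2)

/-- normalised directions -/
noncomputable def dir {ι : Type} (P : ι → E) (p q i : ι) : E :=
  if ‖P i - P p‖ ≤ ‖P q - P p‖ then ‖P q - P p‖⁻¹ • (P i - P p) else 0

lemma dir_le {ι : Type} (P : ι → E) (p q i : ι) : ‖dir P p q i‖ ≤ 1 := by
  unfold dir
  split_ifs with h
  · rw [norm_smul, norm_inv, norm_norm]
    exact inv_mul_le_one_of_le₀ h (norm_nonneg _)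
  · simp

lemma analyse {ι : Type} [Fintype ι] [Nonempty ι] (P : ι → E) (L : ℝ) (hL : 6 ≤ L) (v : E) :
    ∃ (p q : ι) (τ α : ℝ) (u : E), 0 ≤ τ ∧ τ ≤ L ∧ 0 ≤ α ∧ α ≤ 7 ∧ ‖u‖ ≤ 1 ∧
      (∀ i, ‖P i - P p‖ ≤ ‖P q - P p‖ → ∃ Q : ℝ, 1 ≤ Q ∧
        Q = τ ^ 2 * ‖dir P p q i‖ ^ 2 - 2 * τ * ⟪dir P p q i, u⟫_ℝ + 1 ∧
        gg (P i - v) = Real.sin (α + Real.log Q / 2)) ∧
      (∀ i, ¬ ‖P i - P p‖ ≤ ‖P q - P p‖ → ∃ t : ℝ, 1 / 2 ≤ t ∧ |t - 1| ≤ 3 / L ∧
        gg (P i - v) = Real.sin (Real.log ‖P i - P p‖ + Real.log t / 2)) := by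
  classical
  obtain ⟨p, _, hp⟩ := exists_min_image univ (fun i => ‖P i - v‖) univ_nonempty
  obtain ⟨r, hr0, hr⟩ : ∃ r : ℝ, 0 < r ∧ r ^ 2 = 1 + ‖P p - v‖ ^ 2 :=
    ⟨Real.sqrt (1 + ‖P p - v‖ ^ 2), Real.sqrt_pos.2 (by positivity), Real.sq_sqrt (by positivity)⟩
  have hur : ‖v - P p‖ ≤ r := by
    rw [norm_sub_rev]
    exact le_of_sq_le_sq (by nlinarith) hr0.le
  obtain ⟨q, hq, hq'⟩ := exists_max_image (univ.filter fun i => ‖P i - P p‖ ≤ L * r)
    (fun i => ‖P i - P p‖) ⟨p, by simp; positivity⟩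
  have hq1 := (mem_filter.1 hq).2
  have hexp : ∀ i, 1 + ‖P i - v‖ ^ 2 =
      ‖P i - P p‖ ^ 2 - 2 * ⟪P i - P p, v - P p⟫_ℝ + r ^ 2 := by
    intro i
    have := norm_sub_sq_real (P i - P p) (v - P p)
    rw [sub_sub_sub_cancel_right, norm_sub_rev v] at this
    linarith
  have h2π : 0 < 2 * Real.pi := by positivity
  have hα := toIcoMod_mem_Ico h2π 0 (Real.log r)
  refine ⟨p, q, ‖P q - P p‖ / r, toIcoMod h2π 0 (Real.log r), r⁻¹ • (v - P p), by positivity,
    by rwa [div_le_iff₀ hr0], hα.1, by linarith [hα.2, Real.pi_lt_d2], ?_, fun i hi => ?_,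
    fun i hi => ?_⟩
  · rw [norm_smul, norm_inv, Real.norm_eq_abs, abs_of_pos hr0]
    exact inv_mul_le_one_of_le₀ hur hr0.le
  · refine ⟨(1 + ‖P i - v‖ ^ 2) / r ^ 2, ?_, ?_, ?_⟩
    · rw [le_div_iff₀ (by positivity), one_mul, hr]
      have := pow_le_pow_left₀ (norm_nonneg _) (hp i (mem_univ _)) 2
      linarith
    · rw [hexp, dir, if_pos hi]
      rcases (norm_nonneg (P q - P p)).eq_or_lt with h0 | h0
      · have : P i - P p = 0 := norm_le_zero_iff.1 (h0 ▸ hi)
        simp [this, hr0.ne']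
      · rw [norm_smul, norm_inv, norm_norm, inner_smul_left, inner_smul_right]
        simp only [conj_trivial]
        field_simp
    · rw [gg, ← self_sub_toIcoDiv_zsmul, Real.log_div (by positivity) (by positivity),
        Real.log_pow, zsmul_eq_mul, ← Real.sin_sub_int_mul_two_pi _ (toIcoDiv h2π 0 (Real.log r))]
      congr 1
      push_cast
      ring
  · have hD : L * r < ‖P i - P p‖ := by
      by_contra hc
      exact hi (hq' i (mem_filter.2 ⟨mem_univ _, not_lt.1 hc⟩))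
    have hD0 : 0 < ‖P i - P p‖ := lt_trans (by positivity) hD
    have h1 : |(1 + ‖P i - v‖ ^ 2) / ‖P i - P p‖ ^ 2 - 1| ≤ 3 / L := by
      rw [div_sub_one (by positivity), abs_div, abs_of_pos (by positivity : 0 < ‖P i - P p‖ ^ 2),
        div_le_div_iff₀ (by positivity) (by linarith), hexp]
      have h2 := (abs_real_inner_le_norm (P i - P p) (v - P p)).trans
        (mul_le_mul_of_nonneg_left hur (norm_nonneg _))
      have h3 : |‖P i - P p‖ ^ 2 - 2 * ⟪P i - P p, v - P p⟫_ℝ + r ^ 2 - ‖P i - P p‖ ^ 2| ≤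
          3 * (‖P i - P p‖ * r) := by
        rw [abs_le] at h2 ⊢
        constructor <;> nlinarith
      nlinarith
    refine ⟨(1 + ‖P i - v‖ ^ 2) / ‖P i - P p‖ ^ 2, ?_, h1, ?_⟩
    · have : 3 / L ≤ 3 / 6 := by gcongr
      linarith [(abs_le.1 h1).1]
    · rw [gg, Real.log_div (by positivity) (by positivity), Real.log_pow]
      congr 1
      push_cast
      ring

lemma cover (η : ℝ) (hη : 0 < η) : ∃ K M : ℕ, ∀ (ι : Type) [Fintype ι] [Nonempty ι] (P : ι → E)
    (β : Type) (F : Finset β) (v : β → E),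
    (∀ x ∈ F, ∀ y ∈ F, x ≠ y → ∃ i, η < |gg (P i - v x) - gg (P i - v y)|) →
    F.card ≤ Fintype.card ι ^ 2 * M ^ 2 * (Fintype.card ι * 3) ^ K := by
  obtain ⟨L, hL, hL'⟩ : ∃ L : ℝ, 6 ≤ L ∧ 6 / L ≤ η := ⟨6 + 6 / η, by
    have : 0 < 6 / η := by positivity
    linarith, by
    rw [div_le_iff₀ (by positivity)]
    have : η * (6 + 6 / η) = 6 * η + 6 := by field_simp
    linarith⟩
  obtain ⟨e, he⟩ : ∃ e, e = η / (6 * L + 3) := ⟨_, rfl⟩
  have he0 : 0 < e := by rw [he]; positivity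
  refine ⟨⌈1 / e ^ 2⌉₊, ⌊(L + 7) / e⌋₊ + 1, fun ι _ _ P β F v hF => ?_⟩
  classical
  choose p q τ α u h1 h2 h3 h4 h5 h6 h7 using analyse P L (by linarith)
  choose l hl using fun w => percep (dir P (p w) (q w)) (dir_le P _ _) e he0 ⌈1 / e ^ 2⌉₊ (u w) (by
    have := Nat.le_ceil (1 / e ^ 2)
    rw [div_le_iff₀ (by positivity)] at this
    exact (pow_le_one₀ (norm_nonneg _) (h5 w)).trans this)
  have hc := card_le_card_of_injOn (s := F)
    (t := ((univ ×ˢ univ) ×ˢ (range (⌊(L + 7) / e⌋₊ + 1) ×ˢ range (⌊(L + 7) / e⌋₊ + 1))) ×ˢ univ)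
    (fun x => (((p (v x), q (v x)), (⌊τ (v x) / e⌋₊, ⌊α (v x) / e⌋₊)), l (v x))) (by
      intro x _
      simp only [coe_product, coe_univ, coe_range, Set.mem_prod, Set.mem_univ, Set.mem_Iio,
        true_and, and_true, Nat.lt_succ_iff]
      have := h2 (v x)
      have := h4 (v x)
      constructor <;> refine Nat.floor_mono ?_ <;> gcongr <;> linarith) (by
      intro x hx y hy hxy
      by_contra hne
      obtain ⟨i, hi⟩ := hF x hx y hy hne
      simp only [Prod.mk.injEq] at hxy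
      obtain ⟨⟨⟨e1, e2⟩, e3, e4⟩, e5⟩ := hxy
      refine absurd hi (not_lt.2 ?_)
      by_cases hn : ‖P i - P (p (v x))‖ ≤ ‖P (q (v x)) - P (p (v x))‖
      · obtain ⟨Q, a1, a2, a3⟩ := h6 (v x) i hn
        obtain ⟨Q', b1, b2, b3⟩ := h6 (v y) i (by rwa [← e1, ← e2])
        have c1 := floor_close he0 (h1 _) (h1 _) e3
        have c2 := floor_close he0 (h3 _) (h3 _) e4
        have c3 := hl (v x) i
        have c4 := hl (v y) i
        rw [← e1, ← e2] at b2 c4
        rw [← e5] at c4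
        rw [inner_sub_right] at c3 c4
        have c5 := (abs_real_inner_le_norm (dir P (p (v x)) (q (v x)) i) (u (v y))).trans
          (mul_le_one₀ (dir_le _ _ _ _) (norm_nonneg _) (h5 _))
        have c6 : ‖dir P (p (v x)) (q (v x)) i‖ ^ 2 ≤ 1 :=
          pow_le_one₀ (norm_nonneg _) (dir_le _ _ _ _)
        have c7 : |Q - Q'| ≤ (6 * L + 2) * e := by
          generalize ⟪dir P (p (v x)) (q (v x)) i, u (v x)⟫_ℝ = s at *
          generalize ⟪dir P (p (v x)) (q (v x)) i, u (v y)⟫_ℝ = s' at *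
          have d0 : 0 ≤ ‖dir P (p (v x)) (q (v x)) i‖ ^ 2 := by positivity
          generalize ‖dir P (p (v x)) (q (v x)) i‖ ^ 2 = d at *
          have d1 : |s - s'| ≤ 2 * e := by
            rw [abs_le] at c3 c4 ⊢
            constructor <;> linarith
          have d2 : Q - Q' = (τ (v x) - τ (v y)) * ((τ (v x) + τ (v y)) * d) -
              2 * (τ (v x) * (s - s') + (τ (v x) - τ (v y)) * s') := by rw [a2, b2]; ring
          have t1 := h1 (v x)
          have t2 := h2 (v x)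
          have t3 := h1 (v y)
          have t4 := h2 (v y)
          have d3 : |(τ (v x) - τ (v y)) * ((τ (v x) + τ (v y)) * d)| ≤ e * (2 * L) := by
            rw [abs_mul]
            refine mul_le_mul c1 ?_ (abs_nonneg _) he0.le
            rw [abs_of_nonneg (by positivity)]
            nlinarith
          have d4 : |τ (v x) * (s - s')| ≤ L * (2 * e) := by
            rw [abs_mul, abs_of_nonneg t1]
            exact mul_le_mul t2 d1 (abs_nonneg _) (by linarith)
          have d5 : |(τ (v x) - τ (v y)) * s'| ≤ e * 1 := by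
            rw [abs_mul]
            exact mul_le_mul c1 c5 (abs_nonneg _) he0.le
          rw [d2]
          rw [abs_le] at d3 d4 d5 ⊢
          constructor <;> linarith
        have c8 := log_lip (s := Q) (t := Q') (by linarith) (by linarith)
        rw [a3, b3]
        refine (Real.abs_sin_sub_sin_le _ _).trans ?_
        have c9 : (6 * L + 3) * e = η := by rw [he]; field_simp
        rw [abs_le] at c2 c8 ⊢
        constructor <;> linarith
      · obtain ⟨t, a1, a2, a3⟩ := h7 (v x) i hn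
        obtain ⟨t', b1, b2, b3⟩ := h7 (v y) i (by rwa [← e1, ← e2])
        rw [a3, b3, ← e1]
        refine (Real.abs_sin_sub_sin_le _ _).trans ?_
        have c8 := log_lip a1 b1
        have c9 : |t - t'| ≤ 6 / L := by
          have : 6 / L = 3 / L + 3 / L := by ring
          rw [abs_le] at a2 b2 ⊢
          constructor <;> linarith
        rw [abs_le] at c8 ⊢
        constructor <;> linarith)
  simp only [card_product, card_univ, card_range, Fintype.card_fun, Fintype.card_prod,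
    Fintype.card_fin] at hc
  have : Fintype.card SignType = 3 := rfl
  rw [this] at hc
  calc _ ≤ _ := hc
    _ = _ := by ring

end Pool.Agent.H14.Nl
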