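import Pool.Agent.H14.Nl1

set_option autoImplicit false

namespace Pool.Agent.H14.Nl

open Finset Filter Topology

/-- periods -/
def NN : ℕ → ℕ
  | 0 => 4
  | k + 1 => NN k * 2 ^ (6 * k + 10)

lemma NN_pos (k : ℕ) : 0 < NN k := by
  induction k with
  | zero => simp [NN]
  | succ k ih => simp only [NN]; positivity

lemma NN_dvd {j k : ℕ} (h : j ≤ k) : NN j ∣ NN k := by
  induction k, h using Nat.le_induction with
  | base => rfl
  | succ k _ ih => exact ih.mul_right _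

lemma NN_mono : StrictMono NN := strictMono_nat_of_lt_succ fun k => by
  have := NN_pos k
  have h2 : 1 < 2 ^ (6 * k + 10) := Nat.one_lt_two_pow (by omega)
  simp only [NN]
  nlinarith

/-- weights -/
noncomputable def cc (k : ℕ) : ℝ := Real.exp (k * Real.pi)

lemma cc_pos (k : ℕ) : 0 < cc k := Real.exp_pos _

lemma cc_le (k : ℕ) : cc k ≤ 2 ^ (5 * k) := by
  have h1 : Real.exp Real.pi ≤ 32 := by
    have h2 : Real.exp Real.pi ≤ Real.exp (3 + 0.15) := Real.exp_le_exp.2 (by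
      linarith [Real.pi_lt_d2])
    have h3 : Real.exp 3 ≤ 2.72 ^ 3 := by
      rw [show (3 : ℝ) = (3 : ℕ) by norm_num, ← Real.exp_one_pow]
      exact pow_le_pow_left₀ (Real.exp_pos 1).le (by linarith [Real.exp_one_lt_d9]) 3
    have h4 : Real.exp 0.15 ≤ 1 / (1 - 0.15) :=
      Real.exp_bound_div_one_sub_of_interval (by norm_num) (by norm_num)
    rw [Real.exp_add] at h2
    have h5 := mul_le_mul h3 h4 (Real.exp_pos _).le (by norm_num)
    norm_num at h5 h2
    linarith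
  rw [cc, Real.exp_nat_mul, pow_mul]
  exact pow_le_pow_left₀ (Real.exp_pos _).le (by norm_num; exact h1) k

/-- coordinates of the cocycle -/
noncomputable def bb (n : ℤ) (k : ℕ) : ℂ :=
  (cc k : ℂ) * (Complex.exp (Complex.I * ((2 * Real.pi * n / NN k : ℝ) : ℂ)) - 1)

lemma bb_le (n : ℤ) (k : ℕ) : ‖bb n k‖ ≤ cc k * (2 * Real.pi * |(n : ℝ)| / NN k) := by
  rw [bb, norm_mul, Complex.norm_real, Real.norm_eq_abs, abs_of_pos (cc_pos k)]
  refine mul_le_mul_of_nonneg_left (Real.norm_exp_I_mul_ofReal_sub_one_le.trans (le_of_eq ?_))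
    (cc_pos k).le
  rw [Real.norm_eq_abs, abs_div, abs_mul, abs_of_pos (by positivity : 0 < 2 * Real.pi)]
  simp

lemma bb_high (n : ℤ) (k : ℕ) (M : ℝ) (h : |(n : ℝ)| ≤ M * NN k) :
    ‖bb n (k + 1)‖ ≤ M * (1 / 2) ^ (k + 1) := by
  refine (bb_le _ _).trans ?_
  have h0 : (0 : ℝ) < NN k := by exact_mod_cast NN_pos k
  have hM : 0 ≤ M := by
    by_contra hc
    nlinarith [abs_nonneg (n : ℝ)]
  have h1 := cc_le (k + 1)
  have h2 : (NN (k + 1) : ℝ) = NN k * (2 ^ (5 * (k + 1)) * 2 ^ (k + 1) * 16) := by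
    simp only [NN]
    push_cast
    ring
  have h3 : 2 * Real.pi * |(n : ℝ)| ≤ 16 * (M * NN k) := by
    have := Real.pi_lt_four
    gcongr
    linarith
  calc _ ≤ 2 ^ (5 * (k + 1)) * (16 * (M * NN k) / NN (k + 1)) := by gcongr
    _ = _ := by
      rw [h2, one_div, inv_pow]
      field_simp

lemma bb_sq (n : ℤ) (k : ℕ) :
    ‖bb n k‖ ^ 2 = cc k ^ 2 * (2 - 2 * Real.cos (2 * Real.pi * n / NN k)) := by
  rw [bb, norm_mul, mul_pow, Complex.norm_real, Real.norm_eq_abs, sq_abs, mul_comm Complex.I,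
    Complex.exp_mul_I, Complex.sq_norm, Complex.normSq_apply]
  congr 1
  simp only [← Complex.ofReal_cos, ← Complex.ofReal_sin, Complex.sub_re, Complex.add_re,
    Complex.ofReal_re, Complex.mul_re, Complex.I_re, Complex.ofReal_im, Complex.I_im,
    Complex.one_re, Complex.sub_im, Complex.add_im, Complex.mul_im, Complex.one_im]
  nlinarith [Real.sin_sq_add_cos_sq (2 * Real.pi * n / NN k)]

lemma bb_high_sq (n : ℤ) (k : ℕ) (M : ℝ) (h : |(n : ℝ)| ≤ M * NN k) :
    ‖bb n (k + 1)‖ ^ 2 ≤ M ^ 2 * ((1 / 2) ^ (k + 1)) ^ 2 := by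
  rw [← mul_pow]
  exact pow_le_pow_left₀ (norm_nonneg _) (bb_high n k M h) 2

lemma bb_summable (n : ℤ) : Summable fun k => ‖bb n k‖ ^ 2 := by
  rw [← summable_nat_add_iff 1]
  refine Summable.of_nonneg_of_le (fun _ => by positivity) (fun k => ?_)
    (summable_geometric_two.mul_left ((n : ℝ) ^ 2))
  have h0 : (1 : ℝ) ≤ NN k := by exact_mod_cast NN_pos k
  refine (bb_high_sq n k |(n : ℝ)| (le_mul_of_one_le_right (abs_nonneg _) h0)).trans ?_
  rw [sq_abs, ← pow_mul]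
  exact mul_le_mul_of_nonneg_left (pow_le_pow_of_le_one (by norm_num) (by norm_num) (by omega))
    (by positivity)

/-- the Hilbert space -/
noncomputable abbrev HH := lp (fun _ : ℕ => ℂ) 2

/-- the cocycle -/
noncomputable def BB (n : ℤ) : HH := ⟨bb n, memℓp_gen (by simpa using bb_summable n)⟩

lemma norm_sq (w : HH) : ‖w‖ ^ 2 = ∑' k, ‖w k‖ ^ 2 := by
  simpa using lp.norm_rpow_eq_tsum (p := 2) (by simp) w

lemma BB_sub (s t : ℤ) : ‖BB s - BB t‖ = ‖BB (s - t)‖ := by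
  rw [← sq_eq_sq₀ (norm_nonneg _) (norm_nonneg _), norm_sq, norm_sq]
  refine tsum_congr fun k => ?_
  have : (BB s - BB t) k = Complex.exp (Complex.I * ((2 * Real.pi * t / NN k : ℝ) : ℂ)) *
      bb (s - t) k := by
    change bb s k - bb t k = _
    have e : Complex.exp (Complex.I * ((2 * Real.pi * s / NN k : ℝ) : ℂ)) =
        Complex.exp (Complex.I * ((2 * Real.pi * t / NN k : ℝ) : ℂ)) *
        Complex.exp (Complex.I * ((2 * Real.pi * ((s - t : ℤ) : ℝ) / NN k : ℝ) : ℂ)) := by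
      rw [← Complex.exp_add]
      congr 1
      push_cast
      ring
    simp only [bb]
    rw [e]
    ring
  rw [this, norm_mul, Complex.norm_exp_I_mul_ofReal, one_mul]
  rfl

lemma BB_small (j : ℕ) : ‖BB (NN j)‖ ^ 2 ≤ (1 / 2) ^ j * 2 := by
  have e : (1 / 2 : ℝ) ^ j * 2 = ∑' k : ℕ, (1 / 2 : ℝ) ^ j * (1 / 2) ^ k := by
    rw [tsum_mul_left, tsum_geometric_two]
  rw [norm_sq, e]
  refine (bb_summable _).tsum_le_tsum (fun k => ?_) (summable_geometric_two.mul_left _)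
  change ‖bb (NN j) k‖ ^ 2 ≤ _
  rcases le_or_gt k j with h | h
  · obtain ⟨d, hd⟩ := NN_dvd h
    have h0 : (NN k : ℝ) ≠ 0 := by exact_mod_cast (NN_pos k).ne'
    have : 2 * Real.pi * ((NN j : ℤ) : ℝ) / NN k = d * (2 * Real.pi) := by
      rw [hd]
      push_cast
      field_simp
    rw [bb_sq, this, Real.cos_nat_mul_two_pi, mul_one, sub_self, mul_zero]
    positivity
  · obtain ⟨k, rfl⟩ := Nat.exists_eq_succ_of_ne_zero (show k ≠ 0 by omega)
    refine (bb_high_sq _ k 1 ?_).trans ?_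
    · have : (NN j : ℝ) ≤ NN k := by exact_mod_cast NN_mono.monotone (show j ≤ k by omega)
      simpa using this
    · rw [one_pow, one_mul, ← pow_mul, ← pow_add]
      exact pow_le_pow_of_le_one (by norm_num) (by norm_num) (by omega)

lemma cc_sum (k : ℕ) : ∑ j ∈ range (k + 1), cc j ^ 2 ≤ 2 * cc k ^ 2 := by
  induction k with
  | zero => simp [cc]
  | succ k ih =>
    rw [sum_range_succ]
    have h1 : cc (k + 1) = cc k * Real.exp Real.pi := by
      rw [cc, cc, ← Real.exp_add]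
      push_cast
      ring_nf
    have h2 : 2 ≤ Real.exp Real.pi := by linarith [Real.add_one_le_exp Real.pi, Real.pi_gt_three]
    have h3 : cc k * 2 ≤ cc (k + 1) := by
      rw [h1]
      exact mul_le_mul_of_nonneg_left h2 (cc_pos k).le
    nlinarith [cc_pos k]

lemma BB_win (k n : ℕ) (h1 : NN k ≤ 4 * n) (h2 : 2 * n ≤ NN k) :
    2 * cc k ^ 2 ≤ 1 + ‖BB n‖ ^ 2 ∧ 1 + ‖BB n‖ ^ 2 ≤ 11 * cc k ^ 2 := by
  have h0 : (0 : ℝ) < NN k := by exact_mod_cast NN_pos k
  have h1' : (NN k : ℝ) ≤ 4 * n := by exact_mod_cast h1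
  have h2' : 2 * (n : ℝ) ≤ NN k := by exact_mod_cast h2
  have hπ := Real.pi_pos
  rw [norm_sq]
  change 2 * cc k ^ 2 ≤ 1 + ∑' j, ‖bb n j‖ ^ 2 ∧ 1 + ∑' j, ‖bb n j‖ ^ 2 ≤ _
  constructor
  · have a1 := (bb_summable n).le_tsum k fun _ _ => by positivity
    have a2 : Real.cos (2 * Real.pi * ((n : ℤ) : ℝ) / NN k) ≤ 0 := by
      refine Real.cos_nonpos_of_pi_div_two_le_of_le ?_ ?_
      · rw [le_div_iff₀ h0]
        push_cast
        nlinarith
      · rw [div_le_iff₀ h0]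
        push_cast
        nlinarith
    rw [bb_sq] at a1
    nlinarith [sq_nonneg (cc k)]
  · rw [← (bb_summable n).sum_add_tsum_nat_add (k + 1)]
    have a1 : ∑ j ∈ range (k + 1), ‖bb n j‖ ^ 2 ≤ ∑ j ∈ range (k + 1), 4 * cc j ^ 2 := by
      refine sum_le_sum fun j _ => ?_
      rw [bb_sq]
      nlinarith [Real.neg_one_le_cos (2 * Real.pi * ((n : ℤ) : ℝ) / NN j), sq_nonneg (cc j)]
    have a2 : ∑' j, ‖bb n (j + (k + 1))‖ ^ 2 ≤ ∑' j : ℕ, (1 / 2 : ℝ) ^ j := by
      refine ((summable_nat_add_iff (k + 1)).2 (bb_summable n)).tsum_le_tsum (fun j => ?_)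
        summable_geometric_two
      refine (bb_high_sq _ (j + k) 1 ?_).trans ?_
      · have : (NN k : ℝ) ≤ NN (j + k) := by exact_mod_cast NN_mono.monotone (by omega)
        simp only [Int.cast_natCast, Nat.abs_cast, one_mul]
        linarith [Nat.cast_nonneg (α := ℝ) n]
      · rw [one_pow, one_mul, ← pow_mul]
        exact pow_le_pow_of_le_one (by norm_num) (by norm_num) (by omega)
    rw [tsum_geometric_two] at a2
    rw [← mul_sum] at a1
    have a3 := cc_sum k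
    have a4 : 1 ≤ cc k := Real.one_le_exp (by positivity)
    nlinarith

/-- the sequence -/
noncomputable def xx (n : ℕ) : ℝ := gg (BB n)

lemma xx_win (k n : ℕ) (h1 : NN k ≤ 4 * n) (h2 : 2 * n ≤ NN k) : 1 / 5 ≤ (-1) ^ k * xx n := by
  obtain ⟨a1, a2⟩ := BB_win k n h1 h2
  have hc : 0 < cc k ^ 2 := pow_pos (cc_pos k) 2
  obtain ⟨t, ht⟩ : ∃ t, t = (1 + ‖BB n‖ ^ 2) / cc k ^ 2 := ⟨_, rfl⟩
  have b1 : 2 ≤ t := by rwa [ht, le_div_iff₀ hc]
  have b2 : t ≤ 11 := by rwa [ht, div_le_iff₀ hc]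
  have e : Real.log (1 + ‖BB n‖ ^ 2) / 2 = Real.log t / 2 + k * Real.pi := by
    rw [ht, Real.log_div (by positivity) hc.ne', Real.log_pow, cc, Real.log_exp]
    push_cast
    ring
  rw [xx, gg, e, Real.sin_add_nat_mul_pi, ← mul_assoc, ← mul_pow]
  norm_num
  have c1 : 0.69 ≤ Real.log t := by
    linarith [Real.log_two_gt_d9, Real.log_le_log (by norm_num) b1]
  have c2 : Real.log t ≤ 3 := by
    rw [Real.log_le_iff_le_exp (by linarith), show (3 : ℝ) = (3 : ℕ) by norm_num,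
      ← Real.exp_one_pow]
    have := pow_le_pow_left₀ (by norm_num) (show (2.7 : ℝ) ≤ Real.exp 1 by
      linarith [Real.exp_one_gt_d9]) 3
    norm_num at this ⊢
    linarith
  have c3 := Real.mul_le_sin (x := Real.log t / 2) (by linarith) (by linarith [Real.pi_gt_three])
  refine le_trans ?_ c3
  rw [div_mul_eq_mul_div, le_div_iff₀ Real.pi_pos]
  linarith [Real.pi_lt_d2]

lemma gg_congr {w w' : HH} (h : ‖w‖ = ‖w'‖) : gg w = gg w' := by rw [gg, gg, h]

lemma xx_add (m a : ℕ) : xx (m + a) = gg (BB a - BB (-m)) := by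
  refine gg_congr ?_
  rw [BB_sub]
  congr 2
  push_cast
  ring

lemma xx_rec (a : ℕ) : Tendsto (fun j => xx (NN j + a)) atTop (𝓝 (xx a)) := by
  have h1 : Tendsto (fun j => ‖BB (NN j)‖) atTop (𝓝 0) := by
    have h2 : Tendsto (fun j : ℕ => (1 / 2 : ℝ) ^ j * 2) atTop (𝓝 0) := by
      simpa using (tendsto_pow_atTop_nhds_zero_of_lt_one (r := (1 / 2 : ℝ)) (by norm_num)
        (by norm_num)).mul_const 2
    have h3 := (squeeze_zero (fun j => sq_nonneg _) BB_small h2).sqrt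
    simpa using h3
  have h2 : Tendsto (fun j => BB ((NN j + a : ℕ) : ℤ)) atTop (𝓝 (BB a)) := by
    rw [tendsto_iff_norm_sub_tendsto_zero]
    refine h1.congr fun j => ?_
    rw [BB_sub]
    simp
  have h3 : Continuous (gg : HH → ℝ) := by
    unfold gg
    refine Real.continuous_sin.comp (Continuous.div_const (Continuous.log (by fun_prop) ?_) _)
    intro w
    positivity
  exact (h3.tendsto _).comp h2

lemma xx_mem (n : ℕ) : xx n ∈ Set.Icc (-1 : ℝ) 1 := ⟨Real.neg_one_le_sin _, Real.sin_le_one _⟩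

end Pool.Agent.H14.Nl
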