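import Pool.Agent.H14.Nl2

set_option autoImplicit false

namespace Pool.Agent.H14.Nl

open Finset Filter Topology

/-- orbit points -/
noncomputable def orb (m : ℕ) : ℕ → ℝ := fun a => xx (m + a)

/-- orbit closure -/
def XX : Type := closure (Set.range orb)

/-- metric on sequences -/
@[reducible] noncomputable def mS : MetricSpace (ℕ → ℝ) := PiCountable.metricSpace

noncomputable instance : MetricSpace XX := @Subtype.metricSpace _ _ mS

lemma dist_def (y z : XX) : dist y z = ∑' i : ℕ, min (2⁻¹ ^ i) |y.1 i - z.1 i| := rfl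

lemma dist_sum (y z : XX) : Summable fun i : ℕ => min ((2 : ℝ)⁻¹ ^ i) |y.1 i - z.1 i| :=
  PiCountable.dist_summable (F := fun _ : ℕ => ℝ) y.1 z.1

instance : CompactSpace XX := by
  have h : IsCompact (closure (Set.range orb)) := by
    refine (isCompact_univ_pi fun _ : ℕ => isCompact_Icc (a := (-1 : ℝ)) (b := 1)).of_isClosed_subset
      isClosed_closure (closure_minimal ?_ (isClosed_set_pi fun _ _ => isClosed_Icc))
    rintro _ ⟨m, rfl⟩ i _
    exact xx_mem _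
  exact isCompact_iff_compactSpace.1 h

lemma shift_cont : Continuous fun (y : ℕ → ℝ) (a : ℕ) => y (a + 1) := by fun_prop

/-- the shift -/
def TT (y : XX) : XX := ⟨fun a => y.1 (a + 1), by
  refine map_mem_closure shift_cont y.2 ?_
  rintro _ ⟨m, rfl⟩
  exact ⟨m + 1, by funext a; simp only [orb]; congr 1; omega⟩⟩

lemma TT_cont : Continuous TT :=
  Continuous.subtype_mk (shift_cont.comp continuous_subtype_val) _

lemma TT_iter (n : ℕ) (y : XX) (a : ℕ) : (TT^[n] y).1 a = y.1 (a + n) := by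
  induction n generalizing a with
  | zero => rfl
  | succ n ih =>
    rw [Function.iterate_succ_apply']
    change (TT^[n] y).1 (a + 1) = _
    rw [ih, add_assoc, add_comm 1]

/-- orbit points in `XX` -/
noncomputable def oo (m : ℕ) : XX := ⟨orb m, subset_closure ⟨m, rfl⟩⟩

lemma TT_oo (n m : ℕ) : TT^[n] (oo m) = oo (m + n) := by
  refine Subtype.ext (funext fun a => ?_)
  rw [TT_iter]
  simp only [oo, orb]
  congr 1
  omega

lemma dense_oo (U : Set XX) (hU : IsOpen U) (hne : U.Nonempty) : ∃ m, oo m ∈ U := by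
  obtain ⟨V, hV, rfl⟩ := isOpen_induced_iff.1 hU
  obtain ⟨y, hy⟩ := hne
  obtain ⟨_, hz, m, rfl⟩ := mem_closure_iff.1 y.2 V hV hy
  exact ⟨m, hz⟩

lemma tendsto_XX {z : ℕ → XX} {y : XX} :
    Tendsto z atTop (𝓝 y) ↔ ∀ a, Tendsto (fun j => (z j).1 a) atTop (𝓝 (y.1 a)) :=
  tendsto_subtype_rng.trans tendsto_pi_nhds

lemma trans (U V : Set XX) (hU : IsOpen U) (hV : IsOpen V) (h1 : U.Nonempty) (h2 : V.Nonempty) :
    ∃ n : ℕ, 1 ≤ n ∧ (V ∩ TT^[n] ⁻¹' U).Nonempty := by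
  obtain ⟨m, hm⟩ := dense_oo U hU h1
  obtain ⟨m', hm'⟩ := dense_oo V hV h2
  have h3 : Tendsto (fun j => oo (NN j + m)) atTop (𝓝 (oo m)) := by
    refine tendsto_XX.2 fun a => ?_
    simpa only [oo, orb, add_assoc] using xx_rec (m + a)
  obtain ⟨j, hj1, hj2⟩ := ((h3.eventually (hU.mem_nhds hm)).and
    (NN_mono.tendsto_atTop.eventually_gt_atTop m')).exists
  refine ⟨NN j + m - m', by omega, oo m', hm', ?_⟩
  rw [Set.mem_preimage, TT_oo, show m' + (NN j + m - m') = NN j + m by omega]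
  exact hj1

lemma window (ε : ℝ) (hε : 0 < ε) : ∃ (W : ℕ) (η : ℝ), 0 < W ∧ 0 < η ∧
    ∀ y z : XX, (∀ j < W, |y.1 j - z.1 j| ≤ 3 * η) → dist y z < ε := by
  obtain ⟨W, hW⟩ := exists_pow_lt_of_lt_one (show 0 < ε / 4 by positivity)
    (show (2 : ℝ)⁻¹ < 1 by norm_num)
  refine ⟨W + 1, ε / 6 / (W + 1), by omega, by positivity, fun y z h => ?_⟩
  rw [dist_def, ← (dist_sum y z).sum_add_tsum_nat_add (W + 1)]
  have h1 : ∑ i ∈ range (W + 1), min ((2 : ℝ)⁻¹ ^ i) |y.1 i - z.1 i| ≤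
      ∑ _i ∈ range (W + 1), 3 * (ε / 6 / (W + 1)) :=
    sum_le_sum fun i hi => (min_le_right _ _).trans (h i (mem_range.1 hi))
  have h2 : ∑' i, min ((2 : ℝ)⁻¹ ^ (i + (W + 1))) |y.1 (i + (W + 1)) - z.1 (i + (W + 1))| ≤
      ∑' i : ℕ, (1 / 2 : ℝ) ^ i * 2⁻¹ ^ W := by
    refine ((summable_nat_add_iff (W + 1)).2 (dist_sum y z)).tsum_le_tsum (fun i => ?_)
      (summable_geometric_two.mul_right _)
    refine (min_le_left _ _).trans ?_
    rw [one_div, ← pow_add]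
    exact pow_le_pow_of_le_one (by norm_num) (by norm_num) (by omega)
  rw [tsum_mul_right, tsum_geometric_two] at h2
  rw [sum_const, card_range, nsmul_eq_mul] at h1
  have e : ((W + 1 : ℕ) : ℝ) * (3 * (ε / 6 / (W + 1))) = ε / 2 := by
    push_cast
    field_simp
    norm_num
  linarith

lemma approx {ι : Type} [Finite ι] (s : ι → ℕ) (η : ℝ) (hη : 0 < η) (y : XX) :
    ∃ m, ∀ i, |xx (m + s i) - y.1 (s i)| < η := by
  have h1 : IsOpen {z : ℕ → ℝ | ∀ i, |z (s i) - y.1 (s i)| < η} := by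
    rw [Set.ofPred_forall]
    exact isOpen_iInter_of_finite fun i => isOpen_lt (by fun_prop) continuous_const
  obtain ⟨_, hz, m, rfl⟩ := mem_closure_iff.1 y.2 _ h1 (fun i => by simpa using hη)
  exact ⟨m, hz⟩

lemma null (a : ℕ → ℕ) (ε : ℝ) (hε : 0 < ε) (δ : ℝ) (hδ : 0 < δ) :
    ∀ᶠ n in atTop, ∀ F : Finset XX,
      (∀ x ∈ F, ∀ y ∈ F, x ≠ y → ∃ i < n, ε ≤ dist (TT^[a i] x) (TT^[a i] y)) →
      (F.card : ℝ) ≤ Real.exp (δ * n) := by
  obtain ⟨W, η, hW, hη, hw⟩ := window ε hε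
  obtain ⟨K, M, hc⟩ := cover (E := HH) η hη
  obtain ⟨C, hC⟩ : ∃ C : ℝ, C = W ^ 2 * M ^ 2 * (W * 3) ^ K + 1 := ⟨_, rfl⟩
  have hC0 : 0 < C := by rw [hC]; positivity
  have h1 := tendsto_natCast_atTop_atTop.eventually
    ((isLittleO_pow_exp_pos_mul_atTop (K + 2) hδ).bound (inv_pos.2 hC0))
  filter_upwards [h1, eventually_gt_atTop 0] with n hn hn0 F hF
  have : Nonempty (Fin n × Fin W) := ⟨(⟨0, hn0⟩, ⟨0, hW⟩)⟩
  choose m hm using approx (fun p : Fin n × Fin W => p.2 + a p.1) η hη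
  have h2 := hc (Fin n × Fin W) (fun p => BB ((p.2 + a p.1 : ℕ) : ℤ)) XX F (fun y => BB (-(m y)))
    (by
      intro x hx y hy hne
      obtain ⟨i, hi, hd⟩ := hF x hx y hy hne
      by_contra hcon
      push Not at hcon
      refine absurd hd (not_le.2 (hw _ _ fun j hj => ?_))
      have a1 := hcon (⟨i, hi⟩, ⟨j, hj⟩)
      have a2 := hm x (⟨i, hi⟩, ⟨j, hj⟩)
      have a3 := hm y (⟨i, hi⟩, ⟨j, hj⟩)
      rw [← xx_add, ← xx_add] at a1
      rw [TT_iter, TT_iter]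
      simp only at a1 a2 a3
      rw [abs_lt] at a2 a3
      rw [abs_le] at a1 ⊢
      constructor <;> linarith)
  simp only [Fintype.card_prod, Fintype.card_fin] at h2
  have h3 : (F.card : ℝ) ≤ (n * W) ^ 2 * M ^ 2 * (n * W * 3) ^ K := by exact_mod_cast h2
  rw [Real.norm_of_nonneg (by positivity), Real.norm_of_nonneg (Real.exp_pos _).le,
    ← div_eq_inv_mul, le_div_iff₀ hC0] at hn
  refine h3.trans (le_trans ?_ hn)
  have e : ((n : ℝ) * W) ^ 2 * M ^ 2 * (n * W * 3) ^ K =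
      n ^ (K + 2) * (W ^ 2 * M ^ 2 * (W * 3) ^ K) := by ring
  rw [e, hC]
  gcongr
  linarith

lemma NN_four (k : ℕ) : ∃ q, NN k = 4 * q := NN_dvd (Nat.zero_le k)

lemma not_me : ¬ ∃ δ : ℝ, 0 < δ ∧ ∀ x y : XX, dist x y < δ →
    ∀ᶠ n in atTop, (∑ i ∈ range n, dist (TT^[i] x) (TT^[i] y)) / (n : ℝ) < 1 / 5 := by
  rintro ⟨δ, hδ, h⟩
  choose q hq using NN_four
  have hq' : Tendsto q atTop atTop := tendsto_atTop.2 fun b =>
    (NN_mono.tendsto_atTop.eventually_ge_atTop (4 * b)).mono fun k hk => by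
      have := hq k
      omega
  obtain ⟨y, φ, hφ, hy⟩ := CompactSpace.tendsto_subseq fun i => oo (q (2 * i))
  have h2 : Tendsto (fun i => 2 * i) atTop atTop :=
    tendsto_atTop.2 fun b => (eventually_ge_atTop b).mono fun k hk => by omega
  have hy1 : ∀ a, 1 / 5 ≤ y.1 a := by
    intro a
    refine ge_of_tendsto (tendsto_XX.1 hy a) ?_
    filter_upwards [((hq'.comp h2).comp hφ.tendsto_atTop).eventually_ge_atTop a] with i hi
    have := xx_win (2 * φ i) (q (2 * φ i) + a) (by rw [hq]; omega) (by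
      rw [hq]
      simp only [Function.comp_apply] at hi
      omega)
    simpa [oo, orb] using this
  obtain ⟨i, hi⟩ := (Metric.tendsto_atTop.1 hy δ hδ)
  obtain ⟨m, hm⟩ : ∃ m, dist (oo m) y < δ := ⟨_, hi i le_rfl⟩
  obtain ⟨n0, hn0⟩ := eventually_atTop.1 (h _ _ hm)
  have h3 : Tendsto (fun i => 2 * i + 1) atTop atTop :=
    tendsto_atTop.2 fun b => (eventually_ge_atTop b).mono fun k hk => by omega
  obtain ⟨k, hk⟩ := ((hq'.comp h3).eventually_ge_atTop (m + n0 + 1)).exists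
  simp only [Function.comp_apply] at hk
  obtain ⟨r, hr⟩ : ∃ r, r = q (2 * k + 1) := ⟨_, rfl⟩
  have hN := hq (2 * k + 1)
  rw [← hr] at hk hN
  have h4 := hn0 (2 * r - m) (by omega)
  have h5 : ∀ i ∈ Ico (r - m) (2 * r - m), 2 / 5 ≤ dist (TT^[i] (oo m)) (TT^[i] y) := by
    intro i hi
    rw [mem_Ico] at hi
    have a1 := (dist_sum (TT^[i] (oo m)) (TT^[i] y)).le_tsum 0 fun j _ =>
      le_min (by positivity) (abs_nonneg _)
    refine le_trans (le_min (by norm_num) ?_) a1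
    have a2 := xx_win (2 * k + 1) (m + (0 + i)) (by omega) (by omega)
    rw [pow_succ, pow_mul] at a2
    have a3 := hy1 (0 + i)
    rw [TT_iter, TT_iter, le_abs]
    right
    simp only [oo, orb]
    norm_num at a2 a3 ⊢
    linarith
  have h6 := (card_nsmul_le_sum _ _ _ h5).trans (sum_le_sum_of_subset_of_nonneg
    (show Ico (r - m) (2 * r - m) ⊆ range (2 * r - m) from fun i hi =>
      mem_range.2 (mem_Ico.1 hi).2) fun _ _ _ => dist_nonneg)
  rw [Nat.card_Ico, show 2 * r - m - (r - m) = r by omega, nsmul_eq_mul] at h6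
  rw [div_lt_iff₀ (by exact_mod_cast (show 0 < 2 * r - m by omega))] at h4
  have h7 : ((2 * r - m : ℕ) : ℝ) ≤ 2 * r := by exact_mod_cast Nat.sub_le _ _
  linarith

end Pool.Agent.H14.Nl
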