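import Mathlib

namespace Pool.Agent.H14.Ns

/-- tour going up through the values 1 mod 3 -/
def T1 (m k : ℕ) : ℕ := if 3 * k + 1 ≤ m then 3 * k + 1 else 2 + (m - 1 - k) + (m - 1 - k) / 2
/-- tour going up through the values 2 mod 3 -/
def T2 (m k : ℕ) : ℕ :=
  if k = 0 then 1 else if 3 * k ≤ m then 3 * k - 1 else 1 + (m - k) + (m - k + 1) / 2
/-- tour going up through the values 0 mod 3 -/
def T0 (m k : ℕ) : ℕ :=
  if k = 0 then 1 else if 3 * k ≤ m then 3 * k else 1 + (m - k) + (m - k) / 2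
/-- cyclic shift -/
def sf (m y k : ℕ) : ℕ := if k + y < m then k + y else k + y - m

/-- a permutation of 1..m listed on 0..m-1 -/
def Pm (m : ℕ) (a : ℕ → ℕ) : Prop :=
  (∀ k < m, 1 ≤ a k ∧ a k ≤ m) ∧ ∀ k < m, ∀ l < m, a k = a l → k = l

lemma Pm.shift {m y : ℕ} {a : ℕ → ℕ} (h : Pm m a) (hy : y < m) : Pm m fun k => a (sf m y k) := by
  have h1 : ∀ k < m, sf m y k < m := by
    intro k hk; unfold sf; split_ifs <;> omega
  refine ⟨fun k hk => h.1 _ (h1 k hk), fun k hk l hl e => ?_⟩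
  have := h.2 _ (h1 k hk) _ (h1 l hl) e
  unfold sf at this; split_ifs at this <;> omega

lemma pm1 (m : ℕ) : Pm m (T1 m) :=
  ⟨fun k hk => by unfold T1; split_ifs <;> omega,
    fun k hk l hl e => by unfold T1 at e; split_ifs at e <;> omega⟩

lemma pm2 (m : ℕ) (h : m % 3 = 0) : Pm m (T2 m) :=
  ⟨fun k hk => by unfold T2; split_ifs <;> omega,
    fun k hk l hl e => by unfold T2 at e; split_ifs at e <;> omega⟩

lemma pm0 (m : ℕ) (h : m % 3 = 0) : Pm m (T0 m) :=
  ⟨fun k hk => by unfold T0; split_ifs <;> omega,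
    fun k hk l hl e => by unfold T0 at e; split_ifs at e <;> omega⟩

/-- the sum lies within 2 of 3(m+1)/2 -/
def Ok (m s : ℕ) : Prop := 3 * (m + 1) ≤ 2 * s + 4 ∧ 2 * s ≤ 3 * (m + 1) + 4

/-- all three kinds of consecutive sums are near the mean -/
def Good (m : ℕ) (a b c : ℕ → ℕ) : Prop :=
  ∀ k < m, Ok m (a k + b k + c k) ∧ Ok m (a (sf m 1 k) + b k + c k) ∧
    Ok m (a (sf m 1 k) + b (sf m 1 k) + c k)

lemma good1 (j : ℕ) (hj : 1 ≤ j) : Good (6 * j + 1) (T1 (6 * j + 1))
    (fun k => T1 (6 * j + 1) (sf (6 * j + 1) (4 * j + 1) k))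
    (fun k => T1 (6 * j + 1) (sf (6 * j + 1) (2 * j + 1) k)) := by
  intro k hk
  refine ⟨?_, ?_, ?_⟩ <;> simp only [Ok, T1, sf] <;> split_ifs <;> omega

lemma good5 (j : ℕ) (hj : 1 ≤ j) : Good (6 * j + 5) (T1 (6 * j + 5))
    (fun k => T1 (6 * j + 5) (sf (6 * j + 5) (2 * j + 2) k))
    (fun k => T1 (6 * j + 5) (sf (6 * j + 5) (4 * j + 4) k)) := by
  intro k hk
  refine ⟨?_, ?_, ?_⟩ <;> simp only [Ok, T1, sf] <;> split_ifs <;> omega

lemma good3 (j : ℕ) (hj : 1 ≤ j) : Good (6 * j + 3) (T2 (6 * j + 3))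
    (fun k => T0 (6 * j + 3) (sf (6 * j + 3) (2 * j + 1) k))
    (fun k => T1 (6 * j + 3) (sf (6 * j + 3) (4 * j + 2) k)) := by
  intro k hk
  refine ⟨?_, ?_, ?_⟩ <;> simp only [Ok, T1, T2, T0, sf] <;> split_ifs <;>
    first | contradiction | omega

lemma exists_good (m : ℕ) (h2 : m % 2 = 1) (h7 : 7 ≤ m) :
    ∃ a b c, Pm m a ∧ Pm m b ∧ Pm m c ∧ Good m a b c := by
  obtain ⟨j, hj, rfl | rfl | rfl⟩ : ∃ j, 1 ≤ j ∧ (m = 6 * j + 1 ∨ m = 6 * j + 3 ∨ m = 6 * j + 5) :=
    ⟨m / 6, by omega, by omega⟩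
  · exact ⟨_, _, _, pm1 _, (pm1 _).shift (by omega), (pm1 _).shift (by omega), good1 j hj⟩
  · exact ⟨_, _, _, pm2 _ (by omega), (pm0 _ (by omega)).shift (by omega),
      (pm1 _).shift (by omega), good3 j hj⟩
  · exact ⟨_, _, _, pm1 _, (pm1 _).shift (by omega), (pm1 _).shift (by omega), good5 j hj⟩

theorem build (n : ℕ) (h6 : n % 6 = 3) (hn : 21 ≤ n) : ∃ f : ZMod n → ℕ,
    Set.BijOn f Set.univ (Set.Icc 1 n) ∧ ∀ v, 3 * (n + 1) / 2 ≤ f (v - 1) + f v + f (v + 1) + 2 ∧
      f (v - 1) + f v + f (v + 1) ≤ 3 * (n + 1) / 2 + 2 := by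
  obtain ⟨m, rfl⟩ : ∃ m, n = 3 * m := ⟨n / 3, by omega⟩
  have : NeZero (3 * m) := ⟨by omega⟩
  have : Fact (1 < 3 * m) := ⟨by omega⟩
  obtain ⟨a, b, c, ha, hb, hc, hg⟩ := exists_good m (by omega) (by omega)
  let g : ℕ → ℕ := fun i =>
    if i % 3 = 0 then a (i / 3) else if i % 3 = 1 then m + b (i / 3) else 2 * m + c (i / 3)
  have hm : Set.MapsTo (fun v : ZMod (3 * m) => g v.val) Set.univ (Set.Icc 1 (3 * m)) := by
    intro v _
    have h := ZMod.val_lt v
    have h1 := ha.1 (v.val / 3) (by omega)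
    have h2 := hb.1 (v.val / 3) (by omega)
    have h3 := hc.1 (v.val / 3) (by omega)
    simp only [g, Set.mem_Icc]
    split_ifs <;> omega
  have hi : Function.Injective (fun v : ZMod (3 * m) => g v.val) := by
    intro v w e
    apply ZMod.val_injective
    have hv := ZMod.val_lt v
    have hw := ZMod.val_lt w
    have h1 := ha.1 (v.val / 3) (by omega)
    have h2 := hb.1 (v.val / 3) (by omega)
    have h3 := hc.1 (v.val / 3) (by omega)
    have h4 := ha.1 (w.val / 3) (by omega)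
    have h5 := hb.1 (w.val / 3) (by omega)
    have h6 := hc.1 (w.val / 3) (by omega)
    have h7 := ha.2 (v.val / 3) (by omega) (w.val / 3) (by omega)
    have h8 := hb.2 (v.val / 3) (by omega) (w.val / 3) (by omega)
    have h9 := hc.2 (v.val / 3) (by omega) (w.val / 3) (by omega)
    simp only [g] at e
    split_ifs at e <;> omega
  refine ⟨fun v => g v.val, ⟨hm, hi.injOn, ?_⟩, ?_⟩
  · have := Finset.surjOn_of_injOn_of_card_le (s := Finset.univ) (t := Finset.Icc 1 (3 * m))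
      (fun v : ZMod (3 * m) => g v.val) (by simpa using hm) hi.injOn (by simp)
    simpa using this
  · intro v
    obtain ⟨w, rfl⟩ : ∃ w, v = w + 1 := ⟨v - 1, by ring⟩
    rw [add_sub_cancel_right]
    have hw := ZMod.val_lt w
    have e : ∀ x : ZMod (3 * m), (x + 1).val = if x.val + 1 < 3 * m then x.val + 1 else 0 := by
      intro x
      have hx := ZMod.val_lt x
      rw [ZMod.val_add, ZMod.val_one]
      split_ifs with h
      · exact Nat.mod_eq_of_lt h
      · rw [show x.val + 1 = 3 * m by omega, Nat.mod_self]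
    simp only [e]
    generalize w.val = i at hw ⊢
    obtain ⟨k, r, rfl, hr⟩ : ∃ k r, i = 3 * k + r ∧ r < 3 := ⟨i / 3, i % 3, by omega, by omega⟩
    have hk := hg k (by omega)
    simp only [Ok, sf] at hk
    have d0 : 3 * k / 3 = k := by omega
    have d1 : (3 * k + 1) / 3 = k := by omega
    have d2 : (3 * k + 2) / 3 = k := by omega
    have d3 : (3 * k + 3) / 3 = k + 1 := by omega
    have d4 : (3 * k + 4) / 3 = k + 1 := by omega
    have g0 : g (3 * k) = a k := by simp only [g, d0]; rw [if_pos (by omega)]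
    have g1 : g (3 * k + 1) = m + b k := by
      simp only [g, d1]; rw [if_neg (by omega), if_pos (by omega)]
    have g2 : g (3 * k + 2) = 2 * m + c k := by
      simp only [g, d2]; rw [if_neg (by omega), if_neg (by omega)]
    have g3 : g (3 * k + 3) = a (k + 1) := by simp only [g, d3]; rw [if_pos (by omega)]
    have g4 : g (3 * k + 4) = m + b (k + 1) := by
      simp only [g, d4]; rw [if_neg (by omega), if_pos (by omega)]
    have z0 : g 0 = a 0 := rfl
    have z1 : g 1 = m + b 0 := rfl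
    by_cases hl : k + 1 < m
    · rw [if_pos hl] at hk
      interval_cases r
      · rw [if_pos (by omega : 3 * k + 0 + 1 < 3 * m), if_pos (by omega), add_zero, g0, g1, g2]
        omega
      · rw [if_pos (by omega : 3 * k + 1 + 1 < 3 * m), if_pos (by omega), g1, g2, g3]
        omega
      · rw [if_pos (by omega : 3 * k + 2 + 1 < 3 * m), if_pos (by omega), g2, g3, g4]
        omega
    · rw [if_neg hl, show k + 1 - m = 0 by omega] at hk
      interval_cases r
      · rw [if_pos (by omega : 3 * k + 0 + 1 < 3 * m), if_pos (by omega), add_zero, g0, g1, g2]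
        omega
      · rw [if_pos (by omega : 3 * k + 1 + 1 < 3 * m), if_neg (by omega), g1, g2, z0]
        omega
      · rw [if_neg (by omega : ¬ 3 * k + 2 + 1 < 3 * m), if_pos (by omega), g2, zero_add, z0, z1]
        omega

end Pool.Agent.H14.Ns
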