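import Mathlib
set_option autoImplicit false
set_option maxHeartbeats 400000

namespace Pool.Agent.H14.Pa
open Finset Equiv

abbrev P (n : ℕ) := Perm (Fin n)

def Up {n : ℕ} (f : P n → ℝ) : Prop :=
  (∀ a, 0 ≤ f a) ∧ ∀ (a : P n) (i j : Fin n), i < j → a.symm j < a.symm i → f a ≤ f (swap i j * a)

lemma tr {n : ℕ} {T T' : Finset (P n)} (σ : P n) (f : P n → ℝ) (h0 : ∀ a, 0 ≤ f a)
    (h : ∀ a ∈ T, σ * a ∈ T') (hf : ∀ a ∈ T, f a ≤ f (σ * a)) : ∑ a ∈ T, f a ≤ ∑ a ∈ T', f a := by
  refine (sum_le_sum hf).trans ?_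
  rw [← sum_image (s := T) (g := fun a => σ * a) (f := f) fun a _ b _ e => mul_left_cancel e]
  exact sum_le_sum_of_subset_of_nonneg (image_subset_iff.2 h) fun _ _ _ => h0 _

lemma trc {n : ℕ} {T T' : Finset (P n)} (σ : P n) (h : ∀ a, a ∈ T ↔ σ * a ∈ T') : #T = #T' :=
  card_bijective _ (Group.mulLeft_bijective σ) h

lemma fib {n : ℕ} (Q : Fin n → Prop) (h : ℕ) (f g : P n → ℝ) (hf : Up f) (hg : Up g) (d : ℕ) :
    ∀ (j : ℕ) (T : Finset (P n)) (b : Fin n → Fin n), j + d = n →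
      (∀ a, a ∈ T ↔ (∀ k : Fin n, (k : ℕ) < h ↔ Q (a k)) ∧ ∀ k : Fin n, (k : ℕ) < j → a k = b k) →
      (∑ a ∈ T, f a) * ∑ a ∈ T, g a ≤ #T * ∑ a ∈ T, f a * g a := by
  induction d with
  | zero =>
    intro j T b hj hT
    rcases T.eq_empty_or_nonempty with rfl | ⟨a, ha⟩
    · simp
    · have : T = {a} := eq_singleton_iff_unique_mem.2 ⟨ha, fun c hc => Equiv.ext fun k => by
        rw [((hT c).1 hc).2 k (by omega), ((hT a).1 ha).2 k (by omega)]⟩
      simp [this]
  | succ d ih =>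
    intro j T b hj hT
    let p : Fin n := ⟨j, by omega⟩
    let V := T.image fun a => a p
    let F : Fin n → Finset (P n) := fun v => T.filter fun a => a p = v
    have s : ∀ φ : P n → ℝ, ∑ a ∈ T, φ a = ∑ v ∈ V, ∑ a ∈ F v, φ a := fun φ =>
      (sum_fiberwise_of_maps_to (fun a ha => mem_image_of_mem _ ha) φ).symm
    have m : ∀ v ∈ V, ∀ v' ∈ V, ∀ a ∈ F v, swap v' v * a ∈ F v' ∧ j ≤ (a.symm v' : ℕ) := by
      intro v hv v' hv' a ha
      obtain ⟨c, hc, rfl⟩ := mem_image.1 hv'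
      obtain ⟨h1, rfl⟩ := mem_filter.1 ha
      obtain ⟨a1, a2⟩ := (hT a).1 h1
      obtain ⟨c1, c2⟩ := (hT c).1 hc
      have e : ∀ k : Fin n, (k : ℕ) < j → a k ≠ c p ∧ a k ≠ a p := fun k hk =>
        ⟨fun e => by
          rw [a2 k hk, ← c2 k hk] at e
          exact hk.ne (congrArg Fin.val (c.injective e)),
        fun e => hk.ne (congrArg Fin.val (a.injective e))⟩
      refine ⟨mem_filter.2 ⟨(hT _).2 ⟨fun k => ?_, fun k hk => ?_⟩, by simp⟩,
        not_lt.1 fun l => (e _ l).1 (by simp)⟩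
      · rw [a1 k, Perm.mul_apply, swap_apply_def]
        have := a1 p; have := c1 p
        grind
      · rw [Perm.mul_apply, swap_apply_of_ne_of_ne (e k hk).1 (e k hk).2, a2 k hk]
    have an : ∀ φ : P n → ℝ, Up φ → AntitoneOn (fun v => ∑ a ∈ F v, φ a) V :=
      fun φ hφ v' hv' v hv l => by
        rcases l.eq_or_lt with rfl | l
        · exact le_rfl
        refine tr (swap v' v) φ hφ.1 (fun a ha => (m v hv v' hv' a ha).1) fun a ha =>
          hφ.2 a v' v l ?_
        have e := (mem_filter.1 ha).2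
        have := (m v hv v' hv' a ha).2
        rw [← e, symm_apply_apply]
        refine lt_of_le_of_ne this fun h => l.ne ?_
        rw [← e, h, apply_symm_apply]
    obtain ⟨c, hc⟩ : ∃ c : ℝ, ∀ v ∈ V, (#(F v) : ℝ) = c := by
      rcases V.eq_empty_or_nonempty with h | ⟨u, hu⟩
      · simp [h]
      · refine ⟨#(F u), fun v hv => congrArg _ (trc (swap u v) fun a =>
          ⟨fun ha => (m v hv u hu a ha).1, fun ha => ?_⟩)⟩
        simpa [swap_comm v u, ← mul_assoc] using (m u hu v hv _ ha).1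
    have ct : (#T : ℝ) = #V * c := by
      have := s fun _ => 1
      simp only [sum_const, nsmul_eq_mul, mul_one] at this
      rw [this, sum_congr rfl hc, sum_const, nsmul_eq_mul]
    rw [s f, s g, s fun a => f a * g a, ct, mul_assoc, mul_sum V _ c]
    refine ((an f hf).monovaryOn (an g hg)).sum_mul_sum_le_card_mul_sum.trans
      (mul_le_mul_of_nonneg_left (sum_le_sum fun v hv => ?_) (Nat.cast_nonneg _))
    rw [← hc v hv]
    refine ih (j + 1) (F v) (Function.update b p v) (by omega) fun a => ?_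
    rw [mem_filter, hT, and_assoc]
    refine and_congr_right fun _ => ⟨fun ⟨h1, h2⟩ k hk => ?_, fun h1 => ⟨fun k hk => ?_, ?_⟩⟩
    · by_cases e : k = p
      · rw [e, Function.update_self, h2]
      · rw [Function.update_of_ne e]
        exact h1 k (lt_of_le_of_ne (by omega) fun e' => e (Fin.ext e'))
    · rw [h1 k (by omega), Function.update_of_ne fun e => hk.ne (congrArg Fin.val e)]
    · rw [h1 p (by simp [p]), Function.update_self]

def Fb {n h : ℕ} (x : Fin h → Fin n) : Finset (P n) :=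
  univ.filter fun a => ∀ k : Fin n, (k : ℕ) < h ↔ ∃ i, x i = a k

lemma gale {n h : ℕ} (x y : Fin h → Fin n) (hx : StrictMono x) (hy : StrictMono y) (l : x ≤ y) :
    #(Fb y) = #(Fb x) ∧ ∀ f, Up f → ∑ a ∈ Fb y, f a ≤ ∑ a ∈ Fb x, f a := by
  have key : ∀ j : ℕ, #(Fb y) = #(Fb fun i : Fin h => if (i : ℕ) < j then x i else y i) ∧
      ∀ f, Up f → ∑ a ∈ Fb y, f a ≤
        ∑ a ∈ Fb fun i : Fin h => if (i : ℕ) < j then x i else y i, f a := by
    intro j
    induction j with
    | zero => simp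
    | succ j ih =>
      by_cases hj : j < h
      swap
      · rw [show (fun i : Fin h => if (i : ℕ) < j + 1 then x i else y i) =
          fun i : Fin h => if (i : ℕ) < j then x i else y i by funext i; grind]
        exact ih
      let p : Fin h := ⟨j, hj⟩
      have hp : (p : ℕ) = j := rfl
      have o : ∀ i : Fin h, ((i : ℕ) < j → x i < x p) ∧ (j ≤ i → x p ≤ y p ∧ y p ≤ y i) ∧
          (j < i → y p < y i) ∧ ((i : ℕ) = j → i = p) := fun i =>
        ⟨fun h => hx h, fun h => ⟨l p, hy.monotone h⟩, fun h => hy h, fun h => Fin.ext h⟩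
      have e : (fun i : Fin h => if (i : ℕ) < j + 1 then x i else y i) =
          fun i : Fin h => swap (x p) (y p) (if (i : ℕ) < j then x i else y i) := by
        funext i
        have := o i; have := o p
        rw [swap_apply_def]; grind
      have m : ∀ a : P n, a ∈ Fb (fun i : Fin h => if (i : ℕ) < j then x i else y i) ↔
          swap (x p) (y p) * a ∈ Fb fun i : Fin h => if (i : ℕ) < j + 1 then x i else y i := by
        intro a; rw [e]; simp [Fb]
      refine ⟨ih.1.trans (trc _ m), fun f hf => (ih.2 f hf).trans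
        (tr _ f hf.1 (fun a => (m a).1) fun a ha => ?_)⟩
      rcases (l p).eq_or_lt with e' | e'
      · rw [e', swap_self]; exact le_of_eq (congrArg f (one_mul a).symm)
      refine hf.2 a _ _ e' ?_
      have h1 := (mem_filter.1 ha).2 (a.symm (y p))
      have h2 := (mem_filter.1 ha).2 (a.symm (x p))
      rw [apply_symm_apply] at h1 h2
      have h3 := h1.2 ⟨p, by simp [hp]⟩
      have h4 : ¬ (a.symm (x p) : ℕ) < h := fun t => by
        obtain ⟨i, hi⟩ := h2.1 t
        have := o i; grind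
      exact Fin.lt_def.2 (by omega)
  simpa using key h

lemma dec {n h : ℕ} (hn : h ≤ n) (w : Fin n → ℝ) (φ : P n → ℝ) :
    ∑ a : P n, (∏ k ∈ univ.filter fun k : Fin n => (k : ℕ) < h, w (a k)) * φ a =
      ∑ x : Fin h → Fin n, (if StrictMono x then ∏ i, w (x i) else 0) * ∑ a ∈ Fb x, φ a := by
  simp only [Fb, sum_filter, mul_sum]
  rw [sum_comm]
  refine sum_congr rfl fun a _ => ?_
  set S := (univ.filter fun k : Fin n => (k : ℕ) < h).image a with hS
  have hc : #S = h := by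
    rw [card_image_of_injective _ a.injective, Fin.card_filter_val_lt]; omega
  have mS : ∀ k, a k ∈ S ↔ (k : ℕ) < h := fun k => by simp [hS]
  have r : ∀ v, (∃ i, S.orderEmbOfFin hc i = v) ↔ v ∈ S := fun v =>
    Set.ext_iff.1 (range_orderEmbOfFin S hc) v
  rw [sum_eq_single (S.orderEmbOfFin hc : Fin h → Fin n)]
  · rw [if_pos (S.orderEmbOfFin hc).strictMono, if_pos fun k => by rw [r, mS],
      ← prod_image (s := univ) (g := S.orderEmbOfFin hc) (f := w)
        fun _ _ _ _ e => (S.orderEmbOfFin hc).injective e, image_orderEmbOfFin_univ, hS,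
      prod_image fun _ _ _ _ e => a.injective e]
  · intro x _ hx
    split_ifs with h1 h2
    · refine absurd (orderEmbOfFin_unique hc (fun i => ?_) h1) hx
      rw [← a.apply_symm_apply (x i), mS, h2]
      exact ⟨i, by simp⟩
    all_goals simp
  · simp

theorem main {n h : ℕ} (hn : h ≤ n) (w : Fin n → ℝ) (hw : ∀ v, 0 ≤ w v) (f g : P n → ℝ)
    (hf : Up f) (hg : Up g) (W : P n → ℝ)
    (hW : ∀ a, W a = ∏ k ∈ univ.filter fun k : Fin n => (k : ℕ) < h, w (a k)) :
    (∑ a, W a * f a) * ∑ a, W a * g a ≤ (∑ a, W a) * ∑ a, W a * (f a * g a) := by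
  have d1 := dec hn w fun _ => 1
  simp only [mul_one, sum_const, nsmul_eq_mul] at d1
  simp only [hW]
  rw [d1, dec hn, dec hn, dec hn]
  set μ : (Fin h → Fin n) → ℝ := fun x => if StrictMono x then ∏ i, w (x i) else 0 with hμ
  have μ0 : ∀ x, 0 ≤ μ x := fun x => by
    simp only [hμ]; split_ifs; exacts [prod_nonneg fun _ _ => hw _, le_rfl]
  have n0 : ∀ f, Up f → ∀ x : Fin h → Fin n, 0 ≤ ∑ a ∈ Fb x, f a := fun f hf x =>
    sum_nonneg fun _ _ => hf.1 _
  refine (four_functions_theorem_univ (fun x => μ x * ∑ a ∈ Fb x, f a)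
    (fun x => μ x * ∑ a ∈ Fb x, g a) (fun x => μ x * ∑ a ∈ Fb x, f a * g a)
    (fun x => μ x * #(Fb x)) (fun x => mul_nonneg (μ0 x) (n0 f hf x))
    (fun x => mul_nonneg (μ0 x) (n0 g hg x))
    (fun x => mul_nonneg (μ0 x) (sum_nonneg fun _ _ => mul_nonneg (hf.1 _) (hg.1 _)))
    (fun x => mul_nonneg (μ0 x) (Nat.cast_nonneg _)) fun x y => ?_).trans_eq (mul_comm _ _)
  have r0 : 0 ≤ (μ (x ⊓ y) * ∑ a ∈ Fb (x ⊓ y), f a * g a) * (μ (x ⊔ y) * #(Fb (x ⊔ y))) :=
    mul_nonneg (mul_nonneg (μ0 _) (sum_nonneg fun _ _ => mul_nonneg (hf.1 _) (hg.1 _)))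
      (mul_nonneg (μ0 _) (Nat.cast_nonneg _))
  by_cases hx : StrictMono x
  swap
  · simpa [hμ, hx] using r0
  by_cases hy : StrictMono y
  swap
  · simpa [hμ, hy] using r0
  have hi : StrictMono (x ⊓ y) := fun i j l => min_lt_min (hx l) (hy l)
  have hs : StrictMono (x ⊔ y) := fun i j l => max_lt_max (hx l) (hy l)
  have e : μ x * μ y = μ (x ⊓ y) * μ (x ⊔ y) := by
    simp only [hμ, hx, hy, hi, hs, if_true, ← prod_mul_distrib]
    refine prod_congr rfl fun i _ => ?_
    rcases le_total (x i) (y i) with l | l <;> simp [l, mul_comm]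
  have a := mul_le_mul ((gale _ _ hi hx inf_le_left).2 f hf) ((gale _ _ hi hy inf_le_right).2 g hg)
    (n0 g hg _) (n0 f hf _)
  have b := fib (fun v => ∃ i, (x ⊓ y) i = v) h f g hf hg n 0 (Fb (x ⊓ y)) id (by simp)
    (by simp [Fb])
  rw [(gale _ _ hi hs inf_le_sup).1, mul_mul_mul_comm, e, mul_mul_mul_comm _ _ (μ (x ⊔ y))]
  exact mul_le_mul_of_nonneg_left ((a.trans b).trans_eq (mul_comm _ _)) (mul_nonneg (μ0 _) (μ0 _))

end Pool.Agent.H14.Pa
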