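import Mathlib

namespace Pool.Agent.H14.PackDefs

open SimpleGraph

/-- The chromatic number as a natural number. -/
noncomputable def chi {h : ℕ} (F : SimpleGraph (Fin h)) : ℕ := F.chromaticNumber.toNat

/-- Size of colour class `i` of an optimal colouring (a proper colouring with `chi F` colours). -/
noncomputable def classSize {h : ℕ} {F : SimpleGraph (Fin h)} (c : F.Coloring (Fin (chi F)))
    (i : Fin (chi F)) : ℕ := {v | c v = i}.ncard

/-- The least size of a colour class over all optimal colourings. -/
noncomputable def sigma {h : ℕ} (F : SimpleGraph (Fin h)) : ℕ :=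
  sInf {s | ∃ (c : F.Coloring (Fin (chi F))) (i : Fin (chi F)), s = classSize c i}

/-- The critical chromatic number. -/
noncomputable def chiCr {h : ℕ} (F : SimpleGraph (Fin h)) : ℝ :=
  ((chi F : ℝ) - 1) * h / ((h : ℝ) - sigma F)

/-- Differences of consecutive class sizes of optimal colourings, classes sorted by size. -/
def diffs {h : ℕ} (F : SimpleGraph (Fin h)) : Set ℕ :=
  {d | ∃ c : F.Coloring (Fin (chi F)), Monotone (classSize c) ∧
    ∃ i j : Fin (chi F), j.val = i.val + 1 ∧ d = classSize c j - classSize c i}

/-- `hcf(F) = 1` for non-bipartite `F`: the only common divisor of the differences is `1`. -/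
def HcfOne {h : ℕ} (F : SimpleGraph (Fin h)) : Prop :=
  ∀ k : ℕ, (∀ d ∈ diffs F, k ∣ d) → k = 1

/-- `G` has vertex-disjoint copies of `F` covering all its vertices. -/
def HasPerfectPacking {h n : ℕ} (F : SimpleGraph (Fin h)) (G : SimpleGraph (Fin n)) : Prop :=
  ∃ (k : ℕ) (f : Fin k → Copy F G),
    (∀ i j, i ≠ j → Disjoint (Set.range (f i)) (Set.range (f j))) ∧
    ∀ v, ∃ i, v ∈ Set.range (f i)

end Pool.Agent.H14.PackDefs
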