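import Mathlib
import Pool.Agent.H14.PackDefs

namespace Pool.Agent.H14.PackProof

open SimpleGraph Finset Pool.Agent.H14.PackDefs

def pF (u : Fin 18) : Fin 3 := if u.val = 0 then 0 else if u.val ≤ 8 then 1 else 2

def F : SimpleGraph (Fin 18) := (⊤ : SimpleGraph (Fin 3)).comap pF

lemma F_adj (u v : Fin 18) : F.Adj u v ↔ pF u ≠ pF v := by simp [F]

lemma F_chrom : F.chromaticNumber = 3 := by
  apply le_antisymm
  · have : F.Colorable 3 := ⟨Coloring.mk pF fun h => (F_adj _ _).1 h⟩
    exact_mod_cast this.chromaticNumber_le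
  · have h : F.IsClique (({0, 1, 9} : Finset (Fin 18)) : Set (Fin 18)) := by
      intro u hu v hv huv
      rw [F_adj]
      simp only [coe_insert, coe_singleton, Set.mem_insert_iff, Set.mem_singleton_iff] at hu hv
      rcases hu with rfl | rfl | rfl <;> rcases hv with rfl | rfl | rfl <;>
        first | exact absurd rfl huv | decide
    have := h.card_le_chromaticNumber
    exact_mod_cast this

lemma chi_F : chi F = 3 := by
  unfold chi
  rw [F_chrom]
  rfl

lemma col_struct (g : Fin 18 → Fin 3) (hg : ∀ u v, pF u ≠ pF v → g u ≠ g v) (t : Fin 3) :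
    (univ.filter fun u => g u = t).card = 1 ∨ (univ.filter fun u => g u = t).card = 8 ∨
      (univ.filter fun u => g u = t).card = 9 := by
  have h01 := hg 0 1 (by decide)
  have h09 := hg 0 9 (by decide)
  have h19 := hg 1 9 (by decide)
  have key : ∀ a b c x : Fin 3, a ≠ b → a ≠ c → b ≠ c → x ≠ a → x ≠ b → x = c := by
    intro a b c x
    omega
  have hu : ∀ u, g u = ![g 0, g 1, g 9] (pF u) := by
    intro u
    have h3 : ∀ s : Fin 3, s = 0 ∨ s = 1 ∨ s = 2 := by decide
    rcases h3 (pF u) with h | h | h <;> rw [h]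
    · exact key (g 1) (g 9) (g 0) _ h19 h01.symm h09.symm (hg _ _ (by rw [h]; decide))
        (hg _ _ (by rw [h]; decide))
    · exact key (g 0) (g 9) (g 1) _ h09 h01 h19.symm (hg _ _ (by rw [h]; decide))
        (hg _ _ (by rw [h]; decide))
    · exact key (g 0) (g 1) (g 9) _ h01 h09 h19 (hg _ _ (by rw [h]; decide))
        (hg _ _ (by rw [h]; decide))
  have hfun : g = fun u => ![g 0, g 1, g 9] (pF u) := funext hu
  have main : ∀ a b c t : Fin 3, a ≠ b → a ≠ c → b ≠ c →
      (univ.filter fun u => ![a, b, c] (pF u) = t).card = 1 ∨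
      (univ.filter fun u => ![a, b, c] (pF u) = t).card = 8 ∨
      (univ.filter fun u => ![a, b, c] (pF u) = t).card = 9 := by decide +kernel
  have := main (g 0) (g 1) (g 9) t h01 h09 h19
  rw [hfun]
  simpa using this

noncomputable def c0 : F.Coloring (Fin (chi F)) :=
  Coloring.mk (fun u => Fin.cast chi_F.symm (pF u)) (by
    intro u v h h'
    exact (F_adj _ _).1 h (Fin.cast_injective _ h'))

lemma size_c0 (i : Fin (chi F)) : classSize c0 i = ![1, 8, 9] (Fin.cast chi_F i) := by
  have : {v | c0 v = i} = ((univ.filter fun u => pF u = Fin.cast chi_F i : Finset _) : Set _) := by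
    ext v
    simp only [Set.mem_ofPred_eq, coe_filter, mem_univ, true_and]
    change Fin.cast chi_F.symm (pF v) = i ↔ _
    constructor
    · rintro rfl
      rfl
    · intro h
      rw [h]
      rfl
  unfold classSize
  rw [this, Set.ncard_coe_finset]
  generalize Fin.cast chi_F i = t
  revert t
  decide

lemma sigma_F : sigma F = 1 := by
  have h1 : 1 ∈ {s | ∃ (c : F.Coloring (Fin (chi F))) (i : Fin (chi F)), s = classSize c i} :=
    ⟨c0, Fin.cast chi_F.symm 0, by rw [size_c0]; rfl⟩
  apply le_antisymm (Nat.sInf_le h1)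
  apply le_csInf ⟨1, h1⟩
  rintro s ⟨c, i, rfl⟩
  have := col_struct (fun u => Fin.cast chi_F (c u)) (by
    intro u v h h'
    exact c.valid ((F_adj _ _).2 h) (Fin.cast_injective _ h')) (Fin.cast chi_F i)
  have e : {v | c v = i} =
      ((univ.filter fun u => Fin.cast chi_F (c u) = Fin.cast chi_F i : Finset _) : Set _) := by
    ext v
    simp
  unfold classSize
  rw [e, Set.ncard_coe_finset]
  omega

lemma chiCr_F : chiCr F = 36 / 17 := by
  unfold chiCr
  rw [chi_F, sigma_F]
  norm_num

lemma hcf_F : HcfOne F := by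
  intro k hk
  have : 1 ∈ diffs F := by
    refine ⟨c0, ?_, Fin.cast chi_F.symm 1, Fin.cast chi_F.symm 2, rfl, ?_⟩
    · intro i j hij
      rw [size_c0, size_c0]
      have : Fin.cast chi_F i ≤ Fin.cast chi_F j := hij
      revert this
      generalize Fin.cast chi_F i = s
      generalize Fin.cast chi_F j = t
      revert s t
      decide
    · rw [size_c0, size_c0]
      rfl
  exact Nat.dvd_one.1 (hk 1 this)

lemma sum_form {ι : Type} [DecidableEq ι] (s : Finset ι) (t : ι → ℕ)
    (ht : ∀ i, t i = 1 ∨ t i = 8 ∨ t i = 9) :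
    ∃ p q : ℕ, ∑ i ∈ s, t i = s.card + 7 * p + 8 * q := by
  induction s using Finset.induction_on with
  | empty => exact ⟨0, 0, by simp⟩
  | insert a s ha ih =>
    obtain ⟨p, q, h⟩ := ih
    rw [sum_insert ha, card_insert_of_notMem ha, h]
    rcases ht a with h1 | h1 | h1
    · exact ⟨p, q, by omega⟩
    · exact ⟨p + 1, q, by omega⟩
    · exact ⟨p, q + 1, by omega⟩

lemma no_pack (N : ℕ) (p : Fin (18 * N) → Fin 3)
    (hp : (univ.filter fun v => p v = 0).card = N + 41) :
    ¬ HasPerfectPacking F ((⊤ : SimpleGraph (Fin 3)).comap p) := by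
  rintro ⟨k, f, hd, hc⟩
  let Φ : Fin k × Fin 18 → Fin (18 * N) := fun x => f x.1 x.2
  have hinj : Function.Injective Φ := by
    rintro ⟨i, a⟩ ⟨j, b⟩ h
    simp only [Φ] at h
    by_cases hij : i = j
    · subst hij
      have : a = b := (f i).injective h
      rw [this]
    · exfalso
      exact Set.disjoint_left.1 (hd i j hij) ⟨a, rfl⟩ ⟨b, h.symm⟩
  have hsurj : Function.Surjective Φ := by
    intro v
    obtain ⟨i, a, ha⟩ := hc v
    exact ⟨(i, a), ha⟩
  have hk : k = N := by
    have := Fintype.card_of_bijective ⟨hinj, hsurj⟩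
    simp at this
    omega
  have h1 : (univ.filter fun v => p v = 0).card =
      ∑ i : Fin k, (univ.filter fun u => p (f i u) = 0).card := by
    rw [card_filter, ← Function.Bijective.sum_comp ⟨hinj, hsurj⟩, Fintype.sum_prod_type]
    refine sum_congr rfl fun i _ => ?_
    rw [card_filter]
  obtain ⟨a, b, hab⟩ := sum_form univ (fun i : Fin k => (univ.filter fun u => p (f i u) = 0).card)
    (fun i => col_struct (fun u => p (f i u)) (by
      intro u v h
      have := (f i).toHom.map_adj ((F_adj u v).2 h)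
      simpa using this) 0)
  rw [← h1, hp] at hab
  simp only [card_univ, Fintype.card_fin] at hab
  omega

lemma exists_p (N M : ℕ) (h : 17 * N = 41 + 2 * M) :
    ∃ p : Fin (18 * N) → Fin 3, (univ.filter fun v => p v = 0).card = N + 41 ∧
      (univ.filter fun v => p v = 1).card = M ∧ (univ.filter fun v => p v = 2).card = M := by
  let e : Fin (18 * N) ≃ (Fin (N + 41) ⊕ Fin M ⊕ Fin M) :=
    Fintype.equivOfCardEq (by simp; omega)
  let q : (Fin (N + 41) ⊕ Fin M ⊕ Fin M) → Fin 3 :=
    Sum.elim (fun _ => 0) (Sum.elim (fun _ => 1) (fun _ => 2))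
  have key : ∀ t, (univ.filter fun v => q (e v) = t).card = ∑ w, if q w = t then 1 else 0 := by
    intro t
    rw [card_filter, Equiv.sum_comp e (fun w => if q w = t then 1 else 0)]
  refine ⟨fun v => q (e v), ?_, ?_, ?_⟩ <;>
    rw [key, Fintype.sum_sum_type, Fintype.sum_sum_type] <;> simp [q]

lemma deg_p {n : ℕ} (p : Fin n → Fin 3) (v : Fin n) :
    (((⊤ : SimpleGraph (Fin 3)).comap p).neighborSet v).ncard +
      (univ.filter fun w => p w = p v).card = n := by
  have : ((⊤ : SimpleGraph (Fin 3)).comap p).neighborSet v =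
      ((univ.filter fun w => ¬ p w = p v : Finset _) : Set _) := by
    ext w
    simp [eq_comm]
  rw [this, Set.ncard_coe_finset, add_comm, card_filter_add_card_filter_not]
  simp

theorem main (n0 : ℕ) : ∃ n, n0 ≤ n ∧ 18 ∣ n ∧ ∃ G : SimpleGraph (Fin n),
    (∀ v, (1 - 1 / chiCr F) * n + (18 : ℕ) ≤ ((G.neighborSet v).ncard : ℝ)) ∧
    ¬ HasPerfectPacking F G := by
  obtain ⟨p, h0, h1, h2⟩ := exists_p (2 * n0 + 9) (17 * n0 + 56) (by ring)
  refine ⟨18 * (2 * n0 + 9), by omega, Dvd.intro _ rfl, _, ?_, no_pack _ p h0⟩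
  intro v
  have h3 := deg_p p v
  have h4 : (univ.filter fun w => p w = p v).card ≤ 17 * n0 + 56 := by
    have h5 : ∀ s : Fin 3, s = 0 ∨ s = 1 ∨ s = 2 := by decide
    rcases h5 (p v) with h | h | h <;> rw [h] <;> omega
  have h6 : 19 * n0 + 106 ≤ (((⊤ : SimpleGraph (Fin 3)).comap p).neighborSet v).ncard := by
    omega
  have h7 : ((19 * n0 + 106 : ℕ) : ℝ) ≤
    (((⊤ : SimpleGraph (Fin 3)).comap p).neighborSet v).ncard := by exact_mod_cast h6
  rw [chiCr_F]
  push_cast at h7 ⊢
  linarith

end Pool.Agent.H14.PackProof
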