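import Mathlib

namespace Pool.Agent.H14.PaletteDefs

open SimpleGraph

/-- No copy of `H` in `K_n` has a system of distinct representatives of the palettes on its edges. -/
def SDRFree {h n l : ℕ} (H : SimpleGraph (Fin h)) (P : Sym2 (Fin n) → Finset (Fin l)) : Prop :=
  ∀ f : Fin h ↪ Fin n, ¬ ∃ c : H.edgeSet → Fin l,
    Function.Injective c ∧ ∀ e : H.edgeSet, c e ∈ P (Sym2.map f e.1)

/-- `ex_log(n; H, l)`. -/
noncomputable def exLog {h : ℕ} (n : ℕ) (H : SimpleGraph (Fin h)) (l : ℕ) : ℝ :=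
  sSup {x | ∃ P : Sym2 (Fin n) → Finset (Fin l),
    (∀ e ∈ (⊤ : SimpleGraph (Fin n)).edgeFinset, (P e).Nonempty) ∧ SDRFree H P ∧
    x = ∑ e ∈ (⊤ : SimpleGraph (Fin n)).edgeFinset, Real.log ((P e).card : ℝ)}

/-- `λ(H, l)`. -/
noncomputable def lam {h : ℕ} (H : SimpleGraph (Fin h)) (l : ℕ) : ℝ :=
  sInf {x | ∃ n : ℕ, h ≤ n ∧ x = exLog n H l / (n.choose 2 : ℝ)}

/-- `χ_j(H)`: the least chromatic number of `H - S` over edge sets `S` of size `j`. -/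
noncomputable def chiJ {h : ℕ} (H : SimpleGraph (Fin h)) (j : ℕ) : ℕ :=
  sInf {k | ∃ S : Set (Sym2 (Fin h)), S ⊆ H.edgeSet ∧ S.ncard = j ∧
    k = (H.deleteEdges S).chromaticNumber.toNat}

/-- `π_j(H)`. -/
noncomputable def piJ {h : ℕ} (H : SimpleGraph (Fin h)) (j : ℕ) : ℝ :=
  if 3 ≤ chiJ H j then 1 - 1 / ((chiJ H j : ℝ) - 1) else 0

end Pool.Agent.H14.PaletteDefs
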