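import Mathlib
import Pool.Agent.H14.PaletteDefs

namespace Pool.Agent.H14.PaletteProof

open SimpleGraph Finset Pool.Agent.H14.PaletteDefs

def EL : List (Fin 12 × Fin 12) :=
  [(0,5),(0,8),(1,2),(1,4),(1,9),(2,4),(2,5),(2,6),(2,7),(2,8),(3,6),(3,8),(3,11),(4,5),(4,6),
   (4,7),(4,8),(4,9),(4,11),(5,8),(5,9),(5,10),(6,8),(6,9),(6,10),(7,9),(8,9),(8,10),(9,11)]

def H : SimpleGraph (Fin 12) where
  Adj u v := (u, v) ∈ EL ∨ (v, u) ∈ EL
  symm := ⟨fun _ _ h => h.symm⟩
  loopless := ⟨by decide⟩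

instance : DecidableRel H.Adj := fun u v => inferInstanceAs (Decidable ((u, v) ∈ EL ∨ (v, u) ∈ EL))

lemma card_H : H.edgeSet.ncard = 29 := by
  rw [← coe_edgeFinset, Set.ncard_coe_finset]
  decide +kernel

lemma chiJ_le (S0 : Finset (Sym2 (Fin 12))) (h0 : S0 ⊆ H.edgeFinset) (k : ℕ) (c : Fin 12 → Fin k)
    (hc : ∀ u v, H.Adj u v → c u = c v → s(u, v) ∈ S0) (j : ℕ) (h1 : S0.card ≤ j) (h2 : j ≤ 29) :
    chiJ H j ≤ k := by
  have h3 : H.edgeFinset.card = 29 := by decide +kernel
  obtain ⟨S, hS0, hS1, hS2⟩ := exists_subsuperset_card_eq h0 h1 (h3 ▸ h2)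
  unfold chiJ
  refine le_trans (Nat.sInf_le (m := (H.deleteEdges (S : Set (Sym2 (Fin 12)))).chromaticNumber.toNat)
    ⟨S, ?_, by rw [Set.ncard_coe_finset, hS2], rfl⟩) ?_
  · rw [← coe_edgeFinset]
    exact_mod_cast hS1
  · have : (H.deleteEdges (S : Set (Sym2 (Fin 12)))).Colorable k := ⟨Coloring.mk c (by
      intro u v huv h
      rw [deleteEdges_adj] at huv
      exact huv.2 (hS0 (hc u v huv.1 h)))⟩
    exact ENat.toNat_le_of_le_coe this.chromaticNumber_le

lemma cond (j : ℕ) (h1 : 1 ≤ j) (h2 : j ≤ 28) :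
    ((256 : ℕ) : ℝ) ^ piJ H j * (j : ℝ) ^ (1 - piJ H j) ≤ 28 := by
  have a3 : chiJ H j ≤ 3 := chiJ_le {s(4, 8)} (by decide +kernel) 3
    ![0, 1, 0, 0, 2, 1, 1, 1, 2, 0, 0, 1] (by decide +kernel) j (by simpa using h1) (by omega)
  unfold piJ
  split_ifs with h
  · have hj : j ≤ 3 := by
      by_contra hj
      have a2 : chiJ H j ≤ 2 := chiJ_le {s(2, 4), s(4, 9), s(5, 8), s(6, 8)} (by decide +kernel) 2
        ![0, 1, 0, 0, 0, 1, 1, 1, 1, 0, 0, 1] (by decide +kernel) j
        (card_le_four.trans (by omega)) (by omega)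
      omega
    have e : chiJ H j = 3 := by omega
    rw [e]
    have e2 : (1 : ℝ) - 1 / (((3 : ℕ) : ℝ) - 1) = 1 / 2 := by norm_num
    have e3 : (1 : ℝ) - 1 / 2 = 1 / 2 := by norm_num
    rw [e2, e3, ← Real.mul_rpow (by positivity) (by positivity), ← Real.sqrt_eq_rpow,
      Real.sqrt_le_iff]
    have : (j : ℝ) ≤ 3 := by exact_mod_cast hj
    constructor
    · norm_num
    · push_cast
      linarith
  · simp only [Real.rpow_zero, sub_zero, Real.rpow_one, one_mul]
    exact_mod_cast h2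

lemma key0 : ∀ a < 64, ∀ b < 64,
    2 ≤ (EL.filter fun p => (64 * a + b).testBit p.1.val && (64 * a + b).testBit p.2.val).length ∨
    8 ≤ (EL.filter fun p => (64 * a + b).testBit p.1.val == (64 * a + b).testBit p.2.val).length := by
  decide +kernel

lemma key : ∀ m < 4096,
    2 ≤ (EL.filter fun p => m.testBit p.1.val && m.testBit p.2.val).length ∨
    8 ≤ (EL.filter fun p => m.testBit p.1.val == m.testBit p.2.val).length := by
  intro m hm
  have := key0 (m / 64) (by omega) (m % 64) (by omega)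
  rwa [Nat.div_add_mod] at this

def sz (a b : Fin 5) : ℕ :=
  if a.val < 2 ∧ b.val < 2 then 1 else if 2 ≤ a.val ∧ 2 ≤ b.val then 7 else 256

lemma sz_comm (a b : Fin 5) : sz a b = sz b a := by
  revert a b
  decide

def seg (s : ℕ) : Finset (Fin 256) := univ.filter fun i => i.val < s

lemma seg_card (a b : Fin 5) : (seg (sz a b)).card = sz a b := by
  have h1 : (seg 1).card = 1 := by decide +kernel
  have h7 : (seg 7).card = 7 := by decide +kernel
  have h256 : (seg 256).card = 256 := by decide +kernel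
  unfold sz
  split_ifs
  · exact h1
  · exact h7
  · exact h256

def pal {n : ℕ} (g : Fin n → Fin 5) : Sym2 (Fin n) → Finset (Fin 256) :=
  Sym2.lift ⟨fun u v => seg (sz (g u) (g v)), fun u v => by simp only [sz_comm (g u) (g v)]⟩

lemma list_bound (L : List (Fin 12 × Fin 12)) (hL : L.Sublist EL) (c : H.edgeSet → Fin 256)
    (hc : Function.Injective c) (s : ℕ)
    (h : ∀ p ∈ L, ∀ hp : s(p.1, p.2) ∈ H.edgeSet, (c ⟨_, hp⟩).val < s) : L.length ≤ s := by
  have hnd : (EL.map fun p => s(p.1, p.2)).Nodup := by decide +kernel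
  have hinj : ∀ p ∈ EL, ∀ q ∈ EL, s(p.1, p.2) = s(q.1, q.2) → p = q :=
    List.inj_on_of_nodup_map hnd
  have hmem : ∀ p ∈ L, s(p.1, p.2) ∈ H.edgeSet := fun p hp => Or.inl (hL.subset hp)
  have hnd2 : L.Nodup := hL.nodup (List.Nodup.of_map _ hnd)
  rw [← List.toFinset_card_of_nodup hnd2, ← card_range s]
  refine card_le_card_of_injOn
    (fun p => if hp : s(p.1, p.2) ∈ H.edgeSet then (c ⟨_, hp⟩).val else 0) ?_ ?_
  · intro p hp
    have hp' : p ∈ L := List.mem_toFinset.1 (mem_coe.1 hp)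
    simp only [dif_pos (hmem p hp'), coe_range, Set.mem_Iio]
    exact h p hp' _
  · intro p hp q hq hpq
    have hp' : p ∈ L := List.mem_toFinset.1 (mem_coe.1 hp)
    have hq' : q ∈ L := List.mem_toFinset.1 (mem_coe.1 hq)
    simp only [dif_pos (hmem p hp'), dif_pos (hmem q hq')] at hpq
    exact hinj p (hL.subset hp') q (hL.subset hq') (congrArg Subtype.val (hc (Fin.ext hpq)))

lemma pal_free {n : ℕ} (g : Fin n → Fin 5) : SDRFree H (pal g) := by
  rintro f ⟨c, hc, hP⟩
  let σ : Fin 12 → Bool := fun v => decide ((g (f v)).val < 2)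
  have hb : ∀ v : Fin 12, (Nat.ofBits σ).testBit v.val = σ v := fun v =>
    Nat.testBit_ofBits_lt σ v.val v.2
  have hP' : ∀ (p : Fin 12 × Fin 12) (hp : s(p.1, p.2) ∈ H.edgeSet),
      (c ⟨_, hp⟩).val < sz (g (f p.1)) (g (f p.2)) := by
    intro p hp
    have := hP ⟨_, hp⟩
    simpa [pal, seg] using this
  rcases key _ (Nat.ofBits_lt_two_pow σ) with h | h
  · have := list_bound _ List.filter_sublist c hc 1 (by
      intro p hp hp'
      have h1 := (List.mem_filter.1 hp).2
      have h2 := hP' p hp'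
      simp only [hb, σ, Bool.and_eq_true, decide_eq_true_eq] at h1
      rwa [sz, if_pos h1] at h2) |>.trans' h
    omega
  · have := list_bound _ List.filter_sublist c hc 7 (by
      intro p hp hp'
      have h1 := (List.mem_filter.1 hp).2
      have h2 := hP' p hp'
      simp only [hb, σ, beq_iff_eq, decide_eq_decide] at h1
      unfold sz at h2
      split_ifs at h2 <;> omega) |>.trans' h
    omega

lemma sum_pair {n : ℕ} {α : Type} [Fintype α] (F : α → α → ℝ) (u v : Fin n) (huv : u ≠ v) :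
    (∑ g : Fin n → α, F (g u) (g v)) * (Fintype.card α : ℝ) ^ 2 =
      (Fintype.card α : ℝ) ^ n * ∑ a, ∑ b, F a b := by
  have hinv : Function.Involutive (fun p : (Fin n → α) × α × α =>
      (Function.update (Function.update p.1 u p.2.1) v p.2.2, p.1 u, p.1 v)) := by
    rintro ⟨g, a, b⟩
    refine Prod.ext ?_ (Prod.ext ?_ ?_)
    · funext w
      by_cases h1 : w = v
      · subst h1; simp
      · by_cases h2 : w = u
        · subst h2; simp [huv]
        · simp [h1, h2]
    · simp [huv]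
    · simp
  have h1 : ∑ p : (Fin n → α) × α × α, F (p.1 u) (p.1 v) =
      ∑ p : (Fin n → α) × α × α, F p.2.1 p.2.2 :=
    Equiv.sum_comp (Function.Involutive.toPerm _ hinv) (fun p => F p.2.1 p.2.2)
  rw [Fintype.sum_prod_type, Fintype.sum_prod_type] at h1
  simp only [sum_const, card_univ, nsmul_eq_mul, Fintype.sum_prod_type, Fintype.card_prod,
    Fintype.card_fun, Fintype.card_fin] at h1
  push_cast at h1
  rw [← mul_sum] at h1
  rw [← h1]
  ring

noncomputable def V0 : ℝ := (12 * Real.log 256 + 9 * Real.log 7) / 25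

lemma V0_gt : Real.log 28 < V0 := by
  unfold V0
  rw [lt_div_iff₀ (by norm_num)]
  have e1 : Real.log 28 * 25 = Real.log (28 ^ 25) := by rw [Real.log_pow]; push_cast; ring
  have e2 : 12 * Real.log 256 + 9 * Real.log 7 = Real.log (256 ^ 12 * 7 ^ 9) := by
    rw [Real.log_mul (by positivity) (by positivity), Real.log_pow, Real.log_pow]
    push_cast; ring
  rw [e1, e2]
  exact Real.log_lt_log (by positivity) (by norm_num)

lemma exists_g (n : ℕ) : ∃ g : Fin n → Fin 5, V0 * (n.choose 2 : ℝ) ≤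
    ∑ e ∈ (⊤ : SimpleGraph (Fin n)).edgeFinset, Real.log ((pal g e).card : ℝ) := by
  have h1 : ∀ e ∈ (⊤ : SimpleGraph (Fin n)).edgeFinset,
      ∑ g : Fin n → Fin 5, Real.log ((pal g e).card : ℝ) = 5 ^ n * V0 := by
    intro e he
    induction e using Sym2.ind with
    | _ u v =>
    have huv : u ≠ v := by simpa using he
    have h2 := sum_pair (fun a b : Fin 5 => Real.log (sz a b)) u v huv
    have h3 : ∑ a : Fin 5, ∑ b : Fin 5, Real.log (sz a b) = 25 * V0 := by
      simp only [Fin.sum_univ_five, sz, V0]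
      norm_num
      ring
    rw [h3] at h2
    simp only [pal, Sym2.lift_mk, seg_card]
    simp only [Fintype.card_fin] at h2
    push_cast at h2
    linarith
  by_contra hcon
  push Not at hcon
  have h4 := sum_lt_sum_of_nonempty (univ_nonempty (α := Fin n → Fin 5)) fun g _ => hcon g
  rw [sum_comm, sum_congr rfl h1, sum_const, sum_const, card_edgeFinset_top_eq_card_choose_two]
    at h4
  simp only [Fintype.card_fin, nsmul_eq_mul, card_univ, Fintype.card_fun] at h4
  push_cast at h4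
  linarith

lemma exLog_ge (n : ℕ) : V0 * (n.choose 2 : ℝ) ≤ exLog n H 256 := by
  obtain ⟨g, hg⟩ := exists_g n
  refine hg.trans (le_csSup ⟨∑ _e ∈ (⊤ : SimpleGraph (Fin n)).edgeFinset, Real.log 256, ?_⟩
    ⟨pal g, ?_, pal_free g, rfl⟩)
  · rintro x ⟨P, hP, _, rfl⟩
    refine sum_le_sum fun e he => Real.log_le_log ?_ ?_
    · exact_mod_cast (hP e he).card_pos
    · have := card_le_univ (P e)
      rw [Fintype.card_fin] at this
      exact_mod_cast this
  · intro e _
    induction e using Sym2.ind with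
    | _ u v =>
    rw [← card_pos]
    simp only [pal, Sym2.lift_mk, seg_card]
    unfold sz
    split_ifs <;> norm_num

lemma lam_gt : Real.log 28 < lam H 256 := by
  refine V0_gt.trans_le (le_csInf ⟨_, 12, le_rfl, rfl⟩ ?_)
  rintro x ⟨n, hn, rfl⟩
  have : (0 : ℝ) < n.choose 2 := by exact_mod_cast Nat.choose_pos (by omega)
  rw [le_div_iff₀ this]
  exact exLog_ge n

end Pool.Agent.H14.PaletteProof
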