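import Pool.Agent.H14.Gf1
set_option autoImplicit false
set_option maxHeartbeats 400000

namespace Pool.Agent.H14.Pe
open Finset Equiv Filter Polynomial Pool.Agent.H14.Gf

def ins {n : ℕ} (q p : Fin (n + 1)) (e : Perm (Fin n)) : Perm (Fin (n + 1)) :=
  (finSuccEquiv' q).trans ((Equiv.optionCongr e).trans (finSuccEquiv' p).symm)

lemma ins_at {n : ℕ} (q p : Fin (n + 1)) (e : Perm (Fin n)) : ins q p e q = p := by
  simp [ins]

lemma ins_succ {n : ℕ} (q p : Fin (n + 1)) (e : Perm (Fin n)) (i : Fin n) :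
    ins q p e (q.succAbove i) = p.succAbove (e i) := by
  simp [ins]

lemma sum_ins {M : Type} [AddCommMonoid M] {n : ℕ} (q : Fin (n + 1))
    (F : Perm (Fin (n + 1)) → M) : ∑ σ, F σ = ∑ p, ∑ e, F (ins q p e) := by
  rw [← Fintype.sum_prod_type']
  refine (Fintype.sum_bijective (fun x : Fin (n + 1) × Perm (Fin n) => ins q x.1 x.2) ?_ _ _
    fun _ => rfl).symm
  rw [Fintype.bijective_iff_injective_and_card]
  refine ⟨?_, by simp [Fintype.card_perm, Nat.factorial_succ]⟩
  rintro ⟨p, e⟩ ⟨p', e'⟩ h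
  simp only at h
  have h1 : p = p' := by rw [← ins_at q p e, h, ins_at]
  subst h1
  refine Prod.ext rfl (Equiv.ext fun i => Fin.succAbove_right_injective (p := p) ?_)
  simp only
  rw [← ins_succ q, h, ins_succ]

lemma rel_sum {ι κ : Type} {w : ℂ} (s : Finset ι) (t : Finset κ) (x : ι → ℂ) (y : κ → ℂ)
    (h : ∀ i ∈ s, ∀ j ∈ t, Rel w (x i) (y j)) : Rel w (∑ i ∈ s, x i) (∑ j ∈ t, y j) :=
  sum_induction _ (fun a => Rel w a _) (fun _ _ => Rel.addl) (by simp [Gf.Rel]) fun i hi =>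
    sum_induction _ (fun b => Rel w _ b) (fun _ _ => Rel.addr) (by simp [Gf.Rel]) (h i hi)

lemma rel_turn {w a b : ℂ} (h : Rel w a b) (s : ℝ) (hs : 0 < s) : Rel w b (s * w * a) := by
  simpa [mul_assoc] using h.turn.smul 1 s zero_le_one hs.le

lemma rel_turn2 {w a b : ℂ} (h : Rel w a b) (s : ℝ) (hs : 0 < s) :
    Rel w (s * w * a) (s * w * b) := by
  simpa [mul_assoc] using h.turn.turn.smul s s hs.le hs.le

lemma enum (d : ℕ) (s : Multiset ℝ) (h : s.card = d) : ∃ u : Fin d → ℝ, Antitone u ∧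
    (s.map fun x => X - C x).prod = ∏ i, (X - C (u i)) := by
  have : ∃ u : Fin d → ℝ, (s.map fun x => X - C x).prod = ∏ i, (X - C (u i)) := by
    induction d generalizing s with
    | zero => exact ⟨Fin.elim0, by simp [Multiset.card_eq_zero.1 h]⟩
    | succ d ih =>
      obtain ⟨a, t, -, rfl⟩ : ∃ a t, True ∧ s = a ::ₘ t := by
        obtain ⟨a, ha⟩ := Multiset.card_pos_iff_exists_mem.1 (show 0 < s.card by omega)
        exact ⟨a, s.erase a, trivial, (Multiset.cons_erase ha).symm⟩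
      obtain ⟨u, hu⟩ := ih t (by simpa using h)
      exact ⟨Fin.cons a u, by simp [Fin.prod_univ_succ, hu]⟩
  obtain ⟨u, hu⟩ := this
  refine ⟨fun i => u (Tuple.sort u (Fin.revPerm i)), fun i j hij =>
    Tuple.monotone_sort u (Fin.rev_le_rev.2 hij), ?_⟩
  rw [hu]
  exact (Equiv.prod_comp (Fin.revPerm.trans (Tuple.sort u)) fun i => X - C (u i)).symm

lemma fact (f : ℝ[X]) (d : ℕ) (hd : f.natDegree = d) (hf : ∀ z : ℂ, 0 < z.im → aeval z f ≠ 0) :
    ∃ u : Fin d → ℝ, Antitone u ∧ f = C (f.coeff d) * ∏ i, (X - C (u i)) := by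
  have hsp : f.Splits := Splits.of_splits_map (algebraMap ℝ ℂ) (IsAlgClosed.splits _) fun x hx => by
    have h0 : aeval x f = 0 := by rw [← eval_map_algebraMap]; exact (mem_roots'.1 hx).2
    refine ⟨x.re, Complex.ext (by simp) ?_⟩
    rcases lt_trichotomy x.im 0 with h | h | h
    · exact absurd (by rw [aeval_conj, h0, map_zero]) (hf (starRingEnd ℂ x) (by simpa using h))
    · simp [h]
    · exact absurd h0 (hf x h)
  obtain ⟨u, hu, e⟩ := enum d f.roots (by rw [← hsp.natDegree_eq_card_roots, hd])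
  exact ⟨u, hu, by rw [← e, ← hd]; exact hsp.eq_prod_roots⟩

lemma polar {d : ℕ} (u : Fin d → ℝ) (x s : ℝ) (hs : 0 < s) : ∃ r : ℝ, 0 < r ∧
    ∏ i, ((x : ℂ) + (s⁻¹ : ℝ) * Complex.I - u i) =
      r * Complex.exp ((∑ i, (Real.pi / 2 + Real.arctan ((u i - x) * s)) : ℝ) * Complex.I) := by
  refine ⟨∏ i, s⁻¹ / Real.cos (Real.arctan ((u i - x) * s)),
    prod_pos fun i _ => div_pos (inv_pos.2 hs) (Real.cos_arctan_pos _), ?_⟩
  rw [Complex.ofReal_sum, sum_mul, Complex.exp_sum, Complex.ofReal_prod, ← prod_mul_distrib]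
  refine prod_congr rfl fun i _ => ?_
  have hc := (Real.cos_arctan_pos ((u i - x) * s)).ne'
  have ht := Real.tan_arctan ((u i - x) * s)
  rw [Real.tan_eq_sin_div_cos, div_eq_iff hc] at ht
  generalize Real.arctan ((u i - x) * s) = α at *
  apply Complex.ext
  · rw [Complex.re_ofReal_mul, Complex.exp_ofReal_mul_I_re, add_comm (Real.pi / 2),
      Real.cos_add_pi_div_two, ht]
    simp only [Complex.sub_re, Complex.add_re, Complex.ofReal_re, Complex.re_ofReal_mul,
      Complex.I_re, mul_zero, add_zero]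
    field_simp
    ring
  · rw [Complex.im_ofReal_mul, Complex.exp_ofReal_mul_I_im, add_comm (Real.pi / 2),
      Real.sin_add_pi_div_two]
    simp only [Complex.sub_im, Complex.add_im, Complex.ofReal_im, Complex.im_ofReal_mul,
      Complex.I_im, mul_one, zero_add, sub_zero]
    field_simp

lemma lim {d : ℕ} (u : Fin d → ℝ) (x : ℝ) (hx : ∀ i, u i ≠ x) :
    Tendsto (fun s => ∑ i, (Real.pi / 2 + Real.arctan ((u i - x) * s))) atTop
      (nhds (Real.pi * (univ.filter fun i => x < u i).card)) := by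
  rw [card_filter, Nat.cast_sum, mul_sum]
  refine tendsto_finsetSum _ fun i _ => ?_
  have t1 := tendsto_nhds_of_tendsto_nhdsWithin Real.tendsto_arctan_atTop
  have t2 := tendsto_nhds_of_tendsto_nhdsWithin Real.tendsto_arctan_atBot
  split_ifs with h
  · have := (t1.comp (tendsto_id.const_mul_atTop (sub_pos.2 h))).const_add (Real.pi / 2)
    simpa using this
  · have := (t2.comp (tendsto_id.const_mul_atTop_of_neg
      (sub_neg.2 (lt_of_le_of_ne (not_lt.1 h) (hx i))))).const_add (Real.pi / 2)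
    simpa using this

lemma counts {d : ℕ} (f : Fin d → ℝ) (g : Fin (d + 1) → ℝ)
    (h : ∀ z : ℂ, 0 < z.im → 0 ≤ ((∏ i, (z - g i)) * starRingEnd ℂ (∏ i, (z - f i))).im)
    (x : ℝ) (hf : ∀ i, f i ≠ x) (hg : ∀ i, g i ≠ x) :
    (univ.filter fun i => x < f i).card ≤ (univ.filter fun i => x < g i).card ∧
    (univ.filter fun i => x < g i).card ≤ (univ.filter fun i => x < f i).card + 1 := by
  set Θ : ℝ → ℝ := fun s => ∑ i, (Real.pi / 2 + Real.arctan ((g i - x) * s)) -
    ∑ i, (Real.pi / 2 + Real.arctan ((f i - x) * s)) with hΘ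
  have hl := (lim g x hg).sub (lim f x hf)
  have hc : Continuous Θ := by
    have := Real.continuous_arctan
    fun_prop
  have h0 : Θ 0 = Real.pi / 2 := by simp [hΘ]; ring
  have hs : ∀ s, 0 ≤ s → 0 ≤ Real.sin (Θ s) := fun s hs => by
    rcases hs.eq_or_lt with rfl | hs
    · simp [h0]
    obtain ⟨r1, p1, e1⟩ := polar g x s hs
    obtain ⟨r2, p2, e2⟩ := polar f x s hs
    have := h ((x : ℂ) + (s⁻¹ : ℝ) * Complex.I) (by simpa using hs)
    rw [e1, e2, map_mul, Complex.conj_ofReal, ← Complex.exp_conj, map_mul, Complex.conj_ofReal,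
      Complex.conj_I, mul_mul_mul_comm, ← Complex.exp_add, ← Complex.ofReal_mul, mul_neg,
      ← sub_eq_add_neg, ← sub_mul, ← Complex.ofReal_sub, Complex.im_ofReal_mul,
      Complex.exp_ofReal_mul_I_im] at this
    exact (mul_nonneg_iff_of_pos_left (mul_pos p1 p2)).1 this
  have hpi := Real.pi_pos
  constructor
  · by_contra hc'
    have : ((univ.filter fun i => x < g i).card : ℝ) + 1 ≤ (univ.filter fun i => x < f i).card := by
      exact_mod_cast not_le.1 hc'
    obtain ⟨s, s1, s2⟩ := ((hl.eventually_lt_const (u := -(Real.pi / 2)) (by nlinarith)).and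
      (eventually_ge_atTop 0)).exists
    obtain ⟨t, ht, e⟩ := intermediate_value_Icc' s2 hc.continuousOn
      (show -(Real.pi / 2) ∈ Set.Icc _ _ from ⟨s1.le, by linarith⟩)
    have := hs t ht.1
    rw [e, Real.sin_neg, Real.sin_pi_div_two] at this
    linarith
  · by_contra hc'
    have : ((univ.filter fun i => x < f i).card : ℝ) + 2 ≤ (univ.filter fun i => x < g i).card := by
      exact_mod_cast not_le.1 hc'
    obtain ⟨s, s1, s2⟩ := ((hl.eventually_const_lt (u := Real.pi / 2 + Real.pi) (by nlinarith)).and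
      (eventually_ge_atTop 0)).exists
    obtain ⟨t, ht, e⟩ := intermediate_value_Icc s2 hc.continuousOn
      (show Real.pi / 2 + Real.pi ∈ Set.Icc _ _ from ⟨by linarith, s1.le⟩)
    have := hs t ht.1
    rw [e, Real.sin_add_pi, Real.sin_pi_div_two] at this
    linarith

lemma chain {d : ℕ} (f : Fin d → ℝ) (g : Fin (d + 1) → ℝ) (af : Antitone f) (ag : Antitone g)
    (h : ∀ z : ℂ, 0 < z.im → 0 ≤ ((∏ i, (z - g i)) * starRingEnd ℂ (∏ i, (z - f i))).im)
    (i : Fin d) : g i.succ ≤ f i ∧ f i ≤ g i.castSucc := by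
  have pick : ∀ a b : ℝ, a < b → ∃ x, a < x ∧ x < b ∧ (∀ i, f i ≠ x) ∧ ∀ i, g i ≠ x := by
    intro a b hab
    obtain ⟨x, hx, hx'⟩ := (Set.Ioo_infinite hab).exists_notMem_finset (univ.image f ∪ univ.image g)
    simp only [mem_union, mem_image, mem_univ, true_and, not_or, not_exists] at hx'
    exact ⟨x, hx.1, hx.2, hx'.1, hx'.2⟩
  constructor
  · by_contra hc
    obtain ⟨x, x1, x2, x3, x4⟩ := pick _ _ (not_le.1 hc)
    have a := (counts f g h x x3 x4).2
    have b := card_le_card (show Iic i.succ ⊆ univ.filter fun i => x < g i from fun k hk =>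
      mem_filter.2 ⟨mem_univ _, x2.trans_le (ag (mem_Iic.1 hk))⟩)
    have c := card_le_card (show (univ.filter fun i => x < f i) ⊆ Iio i from fun k hk =>
      mem_Iio.2 (not_le.1 fun h => absurd ((mem_filter.1 hk).2.trans_le (af h)) (not_lt.2 x1.le)))
    rw [Fin.card_Iic, Fin.val_succ] at b
    rw [Fin.card_Iio] at c
    omega
  · by_contra hc
    obtain ⟨x, x1, x2, x3, x4⟩ := pick _ _ (not_le.1 hc)
    have a := (counts f g h x x3 x4).1
    have b := card_le_card (show Iic i ⊆ univ.filter fun i => x < f i from fun k hk =>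
      mem_filter.2 ⟨mem_univ _, x2.trans_le (af (mem_Iic.1 hk))⟩)
    have c := card_le_card (show (univ.filter fun i => x < g i) ⊆ Iio i.castSucc from fun k hk =>
      mem_Iio.2 (not_le.1 fun h => absurd ((mem_filter.1 hk).2.trans_le (ag h)) (not_lt.2 x1.le)))
    rw [Fin.card_Iic] at b
    rw [Fin.card_Iio, Fin.val_castSucc] at c
    omega

noncomputable def wt (l : ℕ → ℝ) {n : ℕ} (σ : Perm (Fin (n + 1))) : ℝ[X] :=
  ∏ k ∈ univ.filter (fun k : Fin n => σ k.succ < σ k.castSucc), (C (l (k + 1)) * X)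

lemma wt_last (l : ℕ → ℝ) {n : ℕ} (p : Fin (n + 2)) (e : Perm (Fin (n + 1))) :
    wt l (ins (Fin.last _) p e) =
      wt l e * if p ≤ (e (Fin.last n)).castSucc then C (l (n + 1)) * X else 1 := by
  have h : ∀ i, ins (Fin.last _) p e (Fin.castSucc i) = p.succAbove (e i) := fun i => by
    rw [← ins_succ (Fin.last _), Fin.succAbove_last]
  simp only [wt, prod_filter, Fin.prod_univ_castSucc (n := n), Fin.succ_last, ins_at,
    Fin.succ_castSucc, h, Fin.succAbove_lt_succAbove_iff, Fin.lt_succAbove_iff_le_castSucc,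
    Fin.val_castSucc, Fin.val_last]

noncomputable def cc (l : ℕ → ℝ) (z : ℂ) (n : ℕ) (p : Fin (n + 1)) : ℂ :=
  aeval z (∑ e : Perm (Fin n), wt l (ins (Fin.last _) p e))

lemma cc_succ (l : ℕ → ℝ) (z : ℂ) (n : ℕ) (p : Fin (n + 2)) : cc l z (n + 1) p =
    ∑ i ∈ univ.filter (fun i : Fin (n + 1) => ¬ p ≤ i.castSucc), cc l z n i +
      l (n + 1) * z * ∑ i ∈ univ.filter (fun i : Fin (n + 1) => p ≤ i.castSucc), cc l z n i := by
  rw [cc, sum_ins (Fin.last n), sum_filter, sum_filter, mul_sum, ← sum_add_distrib, map_sum]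
  refine sum_congr rfl fun i _ => ?_
  simp only [wt_last, ins_at]
  rw [← sum_mul, map_mul, ← cc]
  split_ifs
  · rw [map_mul, aeval_C, aeval_X, zero_add, mul_comm]; rfl
  · rw [map_one, mul_one, mul_zero, add_zero]

lemma cc_rel (l : ℕ → ℝ) (hl : ∀ k, 0 < l k) (z : ℂ) (hz : 0 < z.im) (n : ℕ)
    (p p' : Fin (n + 1)) (h : p' ≤ p) : Rel z (cc l z n p) (cc l z n p') := by
  induction n with
  | zero => rw [Subsingleton.elim (α := Fin 1) p p']; exact Rel.refl hz _
  | succ n ih =>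
    have s1 : univ.filter (fun i : Fin (n + 1) => ¬ p ≤ i.castSucc) =
        univ.filter (fun i : Fin (n + 1) => p' ≤ i.castSucc ∧ ¬ p ≤ i.castSucc) ∪
          univ.filter (fun i : Fin (n + 1) => ¬ p' ≤ i.castSucc) := by
      ext i; simp only [mem_union, mem_filter, mem_univ, true_and]; omega
    have s2 : univ.filter (fun i : Fin (n + 1) => p' ≤ i.castSucc) =
        univ.filter (fun i : Fin (n + 1) => p ≤ i.castSucc) ∪
        univ.filter (fun i : Fin (n + 1) => p' ≤ i.castSucc ∧ ¬ p ≤ i.castSucc) := by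
      ext i; simp only [mem_union, mem_filter, mem_univ, true_and]; omega
    rw [cc_succ, cc_succ, s1, s2, sum_union (disjoint_filter.2 (by tauto)),
      sum_union (disjoint_filter.2 (by tauto)), mul_add, add_assoc, ← add_assoc (∑ i ∈ univ.filter
        (fun i : Fin (n + 1) => ¬ p' ≤ i.castSucc), _)]
    have k : ∀ P Q : Fin (n + 1) → Prop, ∀ [DecidablePred P] [DecidablePred Q],
        (∀ i j, P i → Q j → j ≤ i) → Rel z (∑ i ∈ univ.filter P, cc l z n i)
          (∑ i ∈ univ.filter Q, cc l z n i) := fun P Q _ _ h => rel_sum _ _ _ _ fun i hi j hj =>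
      ih i j (h i j (mem_filter.1 hi).2 (mem_filter.1 hj).2)
    have CB := k (fun i => p ≤ i.castSucc) (fun i => p' ≤ i.castSucc ∧ ¬ p ≤ i.castSucc)
      (by simp only [Fin.le_def, Fin.val_castSucc]; omega)
    have BA := k (fun i => p' ≤ i.castSucc ∧ ¬ p ≤ i.castSucc) (fun i => ¬ p' ≤ i.castSucc)
      (by simp only [Fin.le_def, Fin.val_castSucc]; omega)
    have t := hl (n + 1)
    exact ((BA.addr (rel_turn CB _ t)).addr (rel_turn (Rel.refl hz _) _ t)).addl
      ((Rel.refl hz _).addr ((rel_turn BA _ t).addl (rel_turn2 CB _ t)))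

noncomputable def ee (l : ℕ → ℝ) (n : ℕ) : ℝ[X] := ∑ σ : Perm (Fin (n + 1)), wt l σ

lemma ee_eq (l : ℕ → ℝ) (z : ℂ) (n : ℕ) : aeval z (ee l n) = ∑ p, cc l z n p := by
  rw [ee, sum_ins (Fin.last n), map_sum]; rfl

lemma cc_last (l : ℕ → ℝ) (z : ℂ) (n : ℕ) : cc l z (n + 1) (Fin.last _) = aeval z (ee l n) := by
  rw [cc_succ, ee_eq]
  simp [(Fin.castSucc_lt_last _).not_ge]

lemma ee_ne (l : ℕ → ℝ) (hl : ∀ k, 0 < l k) (n : ℕ) (z : ℂ) (hz : 0 < z.im) :
    aeval z (ee l n) ≠ 0 := by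
  induction n with
  | zero => simp [ee, wt]
  | succ n ih =>
    rw [ee_eq, Fin.sum_univ_castSucc, add_comm]
    have := rel_sum {Fin.last (n + 1)} univ (cc l z (n + 1)) (fun i : Fin (n + 1) => cc l z (n + 1) i.castSucc)
      fun i hi j _ => cc_rel l hl z hz _ _ _ (by rw [mem_singleton.1 hi]; exact Fin.le_last _)
    rw [sum_singleton] at this
    simpa using this.ne hz (by rwa [cc_last]) 1 one_pos

lemma wt_eq (l : ℕ → ℝ) {n : ℕ} (σ : Perm (Fin (n + 1))) : wt l σ =
    monomial (univ.filter (fun k : Fin n => σ k.succ < σ k.castSucc)).card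
      (∏ k ∈ univ.filter (fun k : Fin n => σ k.succ < σ k.castSucc), l (k + 1)) := by
  rw [wt, prod_mul_distrib, prod_const, ← map_prod, C_mul_X_pow_eq_monomial]

lemma ee_deg (l : ℕ → ℝ) (hl : ∀ k, 0 < l k) (n : ℕ) :
    (ee l n).natDegree = n ∧ 0 < (ee l n).coeff n := by
  have h : 0 < (ee l n).coeff n := by
    rw [ee, finsetSum_coeff]
    refine sum_pos' (fun σ _ => ?_) ⟨Fin.revPerm, mem_univ _, ?_⟩
    · rw [wt_eq, coeff_monomial]
      split_ifs
      · exact (prod_pos fun _ _ => hl _).le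
      · exact le_rfl
    · rw [wt_eq, coeff_monomial, if_pos]
      · exact prod_pos fun _ _ => hl _
      · rw [filter_true_of_mem fun k _ => by simp [Fin.rev_lt_rev]]
        simp
  refine ⟨natDegree_eq_of_le_of_coeff_ne_zero (natDegree_sum_le_of_forall_le _ _ fun σ _ => ?_)
    h.ne', h⟩
  rw [wt_eq]
  exact (natDegree_monomial_le _).trans ((card_filter_le _ _).trans (by simp))

theorem main (l : ℕ → ℝ) (hl : ∀ k, 0 < l k) (n : ℕ) :
    ∃ (a b : ℝ) (f : Fin n → ℝ) (g : Fin (n + 1) → ℝ), a ≠ 0 ∧ b ≠ 0 ∧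
      ee l n = C a * ∏ i, (X - C (f i)) ∧ ee l (n + 1) = C b * ∏ i, (X - C (g i)) ∧
      g 0 ≤ 0 ∧ ∀ i : Fin n, g i.succ ≤ f i ∧ f i ≤ g i.castSucc := by
  obtain ⟨d1, c1⟩ := ee_deg l hl n
  obtain ⟨d2, c2⟩ := ee_deg l hl (n + 1)
  obtain ⟨f, af, ef⟩ := fact _ _ d1 (ee_ne l hl n)
  obtain ⟨g, ag, eg⟩ := fact _ _ d2 (ee_ne l hl (n + 1))
  refine ⟨_, _, f, g, c1.ne', c2.ne', ef, eg, le_of_not_gt fun h => ?_, chain f g af ag fun z hz => ?_⟩
  · have a : 0 < (ee l (n + 1)).eval (g 0) := by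
      rw [ee, eval_finsetSum]
      refine sum_pos (fun σ _ => ?_) univ_nonempty
      rw [wt, eval_prod]
      exact prod_pos fun k _ => by simpa using mul_pos (hl _) h
    rw [eg, eval_mul, eval_prod, prod_eq_zero (mem_univ 0) (by simp), mul_zero] at a
    exact lt_irrefl _ a
  · have := rel_sum {Fin.last (n + 1)} univ (cc l z (n + 1)) (cc l z (n + 1))
      fun i hi j _ => cc_rel l hl z hz _ _ _ (by rw [mem_singleton.1 hi]; exact Fin.le_last _)
    rw [sum_singleton, cc_last, ← ee_eq] at this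
    have h := this.1
    generalize (ee l n).coeff n = a at *
    generalize (ee l (n + 1)).coeff (n + 1) = b at *
    rw [ef, eg] at h
    simp only [map_mul, map_prod (aeval z : ℝ[X] →ₐ[ℝ] ℂ), map_sub, aeval_C, aeval_X, Complex.coe_algebraMap,
      Complex.conj_ofReal] at h
    rw [mul_mul_mul_comm, ← Complex.ofReal_mul, Complex.im_ofReal_mul] at h
    exact (mul_nonneg_iff_of_pos_left (mul_pos c2 c1)).1 h

end Pool.Agent.H14.Pe
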