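import Pool.Agent.H14.Pe1
set_option autoImplicit false
set_option maxHeartbeats 400000

namespace Pool.Agent.H14.Pe
open Finset Equiv Polynomial Pool.Agent.H14.Gf

def RSP {n : ℕ} (σ : Perm (Fin n)) : Prop :=
  ∃ r : Setoid (Fin n), ∀ i j, i < j →
    (r (σ i) (σ j) ∧ σ i < σ j) ∨ ∃ a, r a (σ i) ∧ ∀ b, r b (σ j) → a < b

def Good {n : ℕ} (σ : Perm (Fin (n + 1))) : Prop :=
  ∀ k : Fin n, σ k.succ < σ k.castSucc → ∀ j, k.succ < j → σ k.succ < σ j

instance {n : ℕ} (σ : Perm (Fin (n + 1))) : Decidable (Good σ) := by unfold Good; infer_instance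

lemma rsp_iff {n : ℕ} (σ : Perm (Fin (n + 1))) : RSP σ ↔ Good σ ∧ σ 0 = 0 := by
  constructor
  · rintro ⟨r, h⟩
    refine ⟨fun k hk j hj => ?_, ?_⟩
    · have key : ∀ i, r (σ i) (σ k.succ) → σ k.succ ≤ σ i := fun i hi => by
        rcases lt_trichotomy i k.succ with h1 | rfl | h1
        · exfalso
          rcases h _ _ (Fin.castSucc_lt_succ (i := k)) with h2 | ⟨a, a1, a2⟩
          · exact lt_asymm hk h2.2
          · rcases (show i ≤ k.castSucc from Fin.le_castSucc_iff.2 h1).eq_or_lt with rfl | h3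
            · exact lt_irrefl _ (a2 a (r.trans a1 hi))
            · rcases h _ _ h3 with h4 | ⟨c, c1, c2⟩
              · exact lt_irrefl _ (a2 a (r.trans a1 (r.trans (r.symm h4.1) hi)))
              · exact lt_asymm (c2 a a1) (a2 c (r.trans c1 hi))
        · exact le_rfl
        · rcases h _ _ h1 with h2 | ⟨a, a1, a2⟩
          · exact h2.2.le
          · exact absurd (a2 a (r.trans a1 (r.symm hi))) (lt_irrefl _)
      rcases h _ _ hj with h2 | ⟨a, a1, a2⟩
      · exact h2.2
      · obtain ⟨i, rfl⟩ := σ.surjective a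
        exact (key i a1).trans_lt (a2 _ (r.refl _))
    · obtain ⟨j, hj⟩ := σ.surjective 0
      rcases (Fin.zero_le j).eq_or_lt with rfl | h1
      · exact hj
      · rcases h _ _ h1 with h2 | ⟨a, -, a2⟩
        · exact absurd (hj ▸ h2.2) (Fin.not_lt_zero _)
        · exact absurd (hj ▸ a2 _ (r.refl _)) (Fin.not_lt_zero _)
  · rintro ⟨h1, h0⟩
    let d : Fin (n + 1) → ℕ := fun i =>
      (univ.filter fun k : Fin n => σ k.succ < σ k.castSucc ∧ k.succ ≤ i).card
    have dm : Monotone d := fun i j hij => card_le_card fun k hk =>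
      mem_filter.2 ⟨mem_univ _, (mem_filter.1 hk).2.1, (mem_filter.1 hk).2.2.trans hij⟩
    have ds : ∀ k : Fin n, σ k.succ < σ k.castSucc → d k.castSucc < d k.succ := fun k hk =>
      card_lt_card ⟨fun j hj => mem_filter.2 ⟨mem_univ _, (mem_filter.1 hj).2.1,
        (mem_filter.1 hj).2.2.trans Fin.castSucc_lt_succ.le⟩, fun h => absurd
          (mem_filter.1 (h (mem_filter.2 ⟨mem_univ k, hk, le_rfl⟩))).2.2 Fin.castSucc_lt_succ.not_ge⟩
    have de : ∀ k : Fin n, ¬ σ k.succ < σ k.castSucc → d k.castSucc = d k.succ := fun k hk => by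
      refine congrArg card (filter_congr fun j _ => and_congr_right fun hj => ?_)
      have : j ≠ k := fun h => hk (h ▸ hj)
      have : (j : ℕ) ≠ k := fun h => this (Fin.ext h)
      simp only [Fin.le_def, Fin.val_succ, Fin.val_castSucc]
      omega
    have inc : ∀ j i, i < j → d i = d j → σ i < σ j := fun j => by
      induction j using Fin.induction with
      | zero => exact fun i hi => absurd hi (Fin.not_lt_zero _)
      | succ k ih =>
        intro i hi e
        have hi' : i ≤ k.castSucc := Fin.le_castSucc_iff.2 hi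
        have h2 : σ k.castSucc < σ k.succ := lt_of_le_of_ne (not_lt.1 fun h => by
          have := ds k h
          have := dm hi'
          omega) fun h => Fin.castSucc_lt_succ.ne (σ.injective h)
        rcases hi'.eq_or_lt with rfl | h3
        · exact h2
        · exact (ih i h3 (e.trans (de k h2.not_gt).symm)).trans h2
    have st : ∀ i, ∃ s, s ≤ i ∧ d s = d i ∧ ∀ j, s < j → σ s < σ j := fun i => by
      induction i using Fin.induction with
      | zero =>
        refine ⟨0, le_rfl, rfl, fun j hj => ?_⟩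
        rw [h0]
        exact Fin.pos_iff_ne_zero.2 fun h => hj.ne' (σ.injective (h.trans h0.symm))
      | succ k ih =>
        by_cases hk : σ k.succ < σ k.castSucc
        · exact ⟨_, le_rfl, rfl, h1 k hk⟩
        · obtain ⟨s, s1, s2, s3⟩ := ih
          exact ⟨s, s1.trans Fin.castSucc_lt_succ.le, s2.trans (de k hk), s3⟩
    refine ⟨Setoid.ker fun v => d (σ.symm v), fun i j hij => ?_⟩
    simp only [Setoid.ker_def, symm_apply_apply]
    rcases (dm hij.le).eq_or_lt with e | e
    · exact Or.inl ⟨e, inc j i hij e⟩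
    · obtain ⟨s, -, s2, s3⟩ := st i
      refine Or.inr ⟨σ s, by simpa using s2, fun b hb => ?_⟩
      obtain ⟨j', rfl⟩ := σ.surjective b
      rw [symm_apply_apply] at hb
      exact s3 j' (not_le.1 fun h => by have := dm h; omega)

lemma ins_zero {n : ℕ} (p : Fin (n + 1)) (e : Perm (Fin n)) (i : Fin n) :
    ins 0 p e i.succ = p.succAbove (e i) := by rw [← ins_succ 0, Fin.succAbove_zero]

lemma wt_zero (l : ℕ → ℝ) {n : ℕ} (p : Fin (n + 2)) (e : Perm (Fin (n + 1))) :
    wt l (ins 0 p e) = (if (e 0).castSucc < p then C (l 1) * X else 1) *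
      wt (fun k => l (k + 1)) e := by
  simp only [wt, prod_filter, Fin.prod_univ_succ (n := n), Fin.castSucc_zero, ins_at,
    ← Fin.succ_castSucc, ins_zero, Fin.succAbove_lt_succAbove_iff,
    Fin.succAbove_lt_iff_castSucc_lt, Fin.val_succ, Fin.val_zero, zero_add]

lemma good_zero {n : ℕ} (p : Fin (n + 2)) (e : Perm (Fin (n + 1))) :
    Good (ins 0 p e) ↔ ((e 0).castSucc < p → e 0 = 0) ∧ Good e := by
  unfold Good
  rw [Fin.forall_fin_succ]
  simp only [Fin.forall_fin_succ (n := n + 1), Fin.castSucc_zero, ins_at, ← Fin.succ_castSucc,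
    ins_zero, Fin.succAbove_lt_succAbove_iff, Fin.succAbove_lt_iff_castSucc_lt, Fin.not_lt_zero,
    false_imp_iff, true_and, Fin.succ_lt_succ_iff]
  refine and_congr_left fun _ => imp_congr_right fun _ => ⟨fun h => ?_, fun h j hj => ?_⟩
  · obtain ⟨j, hj⟩ := e.surjective 0
    rcases (Fin.zero_le j).eq_or_lt with rfl | h1
    · exact hj
    · exact absurd (hj ▸ h j h1) (Fin.not_lt_zero _)
  · rw [h]
    exact Fin.pos_iff_ne_zero.2 fun h' => hj.ne' (e.injective (h'.trans h.symm))

noncomputable def gg (z : ℂ) (n : ℕ) (l : ℕ → ℝ) (p : Fin (n + 1)) : ℂ :=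
  aeval z (∑ e : Perm (Fin n), if Good (ins 0 p e) then wt l (ins 0 p e) else 0)

lemma gg_zero (z : ℂ) (l : ℕ → ℝ) (p : Fin 1) : gg z 0 l p = 1 := by
  simp [gg, Good, wt]

lemma gg_succ (z : ℂ) (n : ℕ) (l : ℕ → ℝ) (p : Fin (n + 2)) : gg z (n + 1) l p =
    ∑ i ∈ univ.filter (fun i : Fin (n + 1) => p ≤ i.castSucc), gg z n (fun k => l (k + 1)) i +
      if 0 < p then l 1 * z * gg z n (fun k => l (k + 1)) 0 else 0 := by
  have : (if 0 < p then l 1 * z * gg z n (fun k => l (k + 1)) 0 else 0) =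
      ∑ i : Fin (n + 1), if i = 0 ∧ i.castSucc < p then l 1 * z * gg z n (fun k => l (k + 1)) i
        else 0 := by
    rw [Fin.sum_univ_succ]
    simp [Fin.succ_ne_zero]
  rw [this, gg, sum_ins 0, sum_filter, ← sum_add_distrib, map_sum]
  refine sum_congr rfl fun i _ => ?_
  simp only [wt_zero, good_zero, ins_at]
  by_cases h : i.castSucc < p
  · by_cases h' : i = 0
    · subst h'
      simp only [h, h.not_ge, if_true, if_false, zero_add, gg, map_sum, mul_sum, imp_self,
        true_and, and_self]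
      refine sum_congr rfl fun e _ => ?_
      split_ifs
      · rw [map_mul, map_mul, aeval_C, aeval_X]; rfl
      · rw [map_zero, mul_zero]
    · simp only [h, h', forall_const, false_and, if_false, h.not_ge, sum_const_zero, map_zero,
        add_zero]
  · simp only [h, false_imp_iff, true_and, if_false, one_mul, and_false, add_zero, not_lt.1 h,
      if_true, gg]

lemma gg_rel (z : ℂ) (hz : 0 < z.im) (n : ℕ) (l : ℕ → ℝ) (hl : ∀ k, 0 < l k) :
    (∀ p p', p ≤ p' → Rel z (gg z n l p) (gg z n l p')) ∧ gg z n l 0 ≠ 0 := by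
  induction n generalizing l with
  | zero => exact ⟨fun p p' _ => by rw [gg_zero, gg_zero]; exact Rel.refl hz _, by simp [gg_zero]⟩
  | succ n ih =>
    obtain ⟨i1, i2⟩ := ih (fun k => l (k + 1)) fun k => hl _
    refine ⟨fun p p' h => ?_, ?_⟩
    · rcases h.eq_or_lt with rfl | h
      · exact Rel.refl hz _
      have s2 : univ.filter (fun i : Fin (n + 1) => p ≤ i.castSucc) =
          univ.filter (fun i : Fin (n + 1) => p ≤ i.castSucc ∧ ¬ p' ≤ i.castSucc) ∪
          univ.filter (fun i : Fin (n + 1) => p' ≤ i.castSucc) := by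
        ext i; simp only [mem_union, mem_filter, mem_univ, true_and]; omega
      rw [gg_succ, gg_succ, s2, sum_union (disjoint_filter.2 (by tauto)),
        if_pos ((Fin.zero_le p).trans_lt h), add_assoc]
      set x := gg z n fun k => l (k + 1)
      have t : ∀ s : Finset (Fin (n + 1)), Rel z (∑ i ∈ s, x i) (l 1 * z * x 0) := fun s => by
        have := rel_sum {0} s x x fun i hi j _ => i1 _ _ (mem_singleton.1 hi ▸ Fin.zero_le _)
        rw [sum_singleton] at this
        exact rel_turn this _ (hl 1)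
      refine Rel.addl (Rel.addr (rel_sum _ _ _ _ fun i hi j hj => i1 _ _ ?_) (t _)) ?_
      · have a := (mem_filter.1 hi).2.2
        have b := (mem_filter.1 hj).2
        simp only [Fin.le_def, Fin.val_castSucc] at a b ⊢
        omega
      · split_ifs
        · exact Rel.refl hz _
        · rw [add_zero]; exact (Rel.refl hz _).addr (t _)
    · rw [gg_succ, if_neg (lt_irrefl _), add_zero, filter_true_of_mem fun i _ => Fin.zero_le _,
        Fin.sum_univ_succ]
      have := rel_sum {0} univ (gg z n fun k => l (k + 1))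
        (fun i : Fin n => gg z n (fun k => l (k + 1)) i.succ)
        fun i hi j _ => i1 _ _ (mem_singleton.1 hi ▸ Fin.zero_le _)
      rw [sum_singleton] at this
      simpa using this.ne hz i2 1 one_pos

open Classical in
noncomputable def QQ (l : ℕ → ℝ) (n : ℕ) : ℝ[X] :=
  ∑ σ ∈ univ.filter (fun σ : Perm (Fin (n + 1)) => RSP σ), wt l σ

lemma QQ_eq (l : ℕ → ℝ) (n : ℕ) (z : ℂ) : aeval z (QQ l n) = gg z n l 0 := by
  rw [QQ, sum_filter, sum_ins 0, Fin.sum_univ_succ, gg]
  simp [rsp_iff, ins_at, Fin.succ_ne_zero]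

lemma QQ_real (l : ℕ → ℝ) (hl : ∀ k, 0 < l k) (n : ℕ) (z : ℂ) (h : aeval z (QQ l n) = 0) :
    z.im = 0 := by
  rcases lt_trichotomy z.im 0 with h' | h' | h'
  · refine absurd ?_ (gg_rel (starRingEnd ℂ z) (by simpa using h') n l hl).2
    rw [← QQ_eq, aeval_conj, h, map_zero]
  · exact h'
  · exact absurd (QQ_eq l n z ▸ h) (gg_rel z h' n l hl).2

lemma poly_ext {p q : ℝ[X]} (h : ∀ z : ℂ, aeval z p = aeval z q) : p = q :=
  Polynomial.funext fun x => Complex.ofReal_injective (by
    have := h (algebraMap ℝ ℂ x)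
    rwa [aeval_algebraMap_apply, aeval_algebraMap_apply, coe_aeval_eq_eval] at this)

lemma Q45 (l : ℕ → ℝ) (z : ℂ) :
    gg z 4 l 0 = 1 + (3 * l 2 + 5 * l 3 + 3 * l 4) * z + 3 * l 2 * l 4 * z ^ 2 ∧
    gg z 5 l 0 = 1 + (4 * l 2 + 9 * l 3 + 9 * l 4 + 4 * l 5) * z +
      (8 * l 2 * l 4 + 8 * l 2 * l 5 + 9 * l 3 * l 5) * z ^ 2 := by
  constructor <;>
  · simp only [gg_succ, gg_zero, sum_filter, Fin.sum_univ_succ, Fin.sum_univ_zero, Fin.le_def,
      Fin.lt_def, Fin.val_succ, Fin.val_castSucc, Fin.val_zero]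
    norm_num
    ring

lemma quad (a b s : ℝ) (ha : a ≠ 0) (hs : s ^ 2 = b ^ 2 - 4 * a) (z : ℂ) :
    1 + b * z + a * z ^ 2 = aeval z (C a * ((X - C ((-b + s) / (2 * a))) *
      (X - C ((-b - s) / (2 * a)))) : ℝ[X]) := by
  have ha' : (a : ℂ) ≠ 0 := by exact_mod_cast ha
  have hs' : (s : ℂ) ^ 2 = b ^ 2 - 4 * a := by exact_mod_cast hs
  simp only [map_mul, map_sub, aeval_C, aeval_X, Complex.coe_algebraMap]
  push_cast
  field_simp
  linear_combination hs'

theorem q2 : ∃ l : ℕ → ℝ, (∀ k, 0 < l k) ∧ ∃ a b f1 f2 g1 g2 : ℝ, a ≠ 0 ∧ b ≠ 0 ∧ f2 ≤ f1 ∧ g2 ≤ g1 ∧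
    QQ l 4 = C a * ((X - C f1) * (X - C f2)) ∧ QQ l 5 = C b * ((X - C g1) * (X - C g2)) ∧
    g2 < f2 := by
  have s1 := Real.sq_sqrt (show (0 : ℝ) ≤ 100225 by norm_num)
  have s2 := Real.sq_sqrt (show (0 : ℝ) ≤ 875853 by norm_num)
  have p1 := Real.sqrt_nonneg 100225
  have p2 := Real.sqrt_nonneg 875853
  refine ⟨fun k => if k = 2 then 10 else if k = 4 then 100 else 1, fun k => by
    simp only; split_ifs <;> norm_num, 3000, 8089, (-335 + √100225) / (2 * 3000),
    (-335 - √100225) / (2 * 3000), (-953 + √875853) / (2 * 8089), (-953 - √875853) / (2 * 8089),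
    by norm_num, by norm_num, by linarith, by linarith, poly_ext fun z => ?_,
    poly_ext fun z => ?_, ?_⟩
  · rw [QQ_eq, (Q45 _ z).1, ← quad 3000 335 _ (by norm_num) (by rw [s1]; norm_num)]
    norm_num
  · rw [QQ_eq, (Q45 _ z).2, ← quad 8089 953 _ (by norm_num) (by rw [s2]; norm_num)]
    norm_num
  · have a : √100225 < 317 := by nlinarith
    have b : 935 < √875853 := by nlinarith
    linarith

end Pool.Agent.H14.Pe
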