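import Mathlib

set_option autoImplicit false

namespace Pool.Agent.H14.RegT

open Finset Equiv

variable {α : Type} [Fintype α] [DecidableEq α]

def Full (c : Perm α) : Prop := c.IsCycle ∧ c.support = univ

lemma Full.conj {c : Perm α} (h : Full c) (ρ : Perm α) : Full (ρ * c * ρ⁻¹) :=
  ⟨h.1.conj, by rw [Perm.support_conj, h.2]; simp⟩

lemma Full.ne {c : Perm α} (h : Full c) (x : α) : c x ≠ x :=
  Perm.mem_support.1 (h.2 ▸ mem_univ x)

lemma Full.closed {c : Perm α} (h : Full c) (X : Finset α) (hX : ∀ x ∈ X, c x ∈ X) {x : α}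
    (hx : x ∈ X) (y : α) : y ∈ X := by
  obtain ⟨i, rfl⟩ := h.1.exists_pow_eq (h.ne x) (h.ne y)
  induction i with
  | zero => simpa using hx
  | succ i ih => rw [pow_succ', Perm.mul_apply]; exact hX _ ih

lemma Full.no2 {c : Perm α} (h : Full c) (h3 : 3 ≤ Fintype.card α) (x : α) : c (c x) ≠ x := by
  intro e
  have := h.closed {x, c x} (by simp [e]) (mem_insert_self _ _)
  have h1 : (univ : Finset α) ⊆ {x, c x} := fun y _ => this y
  have h2 := (card_le_card h1).trans card_le_two
  rw [card_univ] at h2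
  omega

def sg (μ c : Perm α) (x : α) : ℤ := (if c x = μ x then 1 else 0) - (if c (μ x) = x then 1 else 0)

omit [Fintype α] [DecidableEq α] in
lemma conj_iff (ρ c : Perm α) (a b : α) : (ρ * c * ρ⁻¹) (ρ a) = ρ b ↔ c a = b := by simp

omit [Fintype α] in
lemma sg_fix (μ c ρ : Perm α) (y : α) (h1 : ρ y = y) (h2 : ρ (μ y) = μ y) :
    sg μ (ρ * c * ρ⁻¹) y = sg μ c y := by
  have a1 := conj_iff ρ c y (μ y)
  have a2 := conj_iff ρ c (μ y) y
  rw [h1, h2] at a1 a2
  simp only [sg, a1, a2]

omit [Fintype α] in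
lemma sg_flip (μ c ρ : Perm α) (y y' : α) (h1 : ρ y' = μ y) (h2 : ρ (μ y') = y) :
    sg μ (ρ * c * ρ⁻¹) y = -sg μ c y' := by
  have a1 := conj_iff ρ c y' (μ y')
  have a2 := conj_iff ρ c (μ y') y'
  rw [h1, h2] at a1 a2
  simp only [sg, a1, a2]
  ring

omit [Fintype α] in
lemma sg_pair (μ c : Perm α) (hμ : ∀ x, μ (μ x) = x → μ x = x) (x : α) (hx : μ x ≠ x) :
    0 ≤ sg μ c x * sg μ c (μ x) := by
  have h2 : μ (μ x) ≠ x := fun e => hx (hμ x e)
  unfold sg
  split_ifs with a1 a2 a3 a4 a5 a6 a7 a8 a9 <;> norm_num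
  · exact h2 (c.injective (by simp_all))
  · simp_all

lemma alt (μ : Perm α) (hμ : ∀ x, μ (μ x) = x → μ x = x) (o : α) (ho : μ o = o) (X : Finset α) :
    (∀ x ∈ X, μ x ≠ x) →
    (∃ ρ : Perm α, (∀ z, z ∉ X → μ⁻¹ z ∉ X → ρ z = z) ∧
      ∀ c : Perm α, ∏ x ∈ X, sg μ (ρ * c * ρ⁻¹) x = -∏ x ∈ X, sg μ c x) ∨
    ∀ c, Full c → 0 ≤ ∏ x ∈ X, sg μ c x := by
  induction X using Finset.strongInduction with
  | H X ih =>
  intro hX
  by_cases hst : ∃ x0 ∈ X, μ⁻¹ x0 ∉ X
  swap
  · push Not at hst
    right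
    intro c hc
    rcases X.eq_empty_or_nonempty with rfl | ⟨x1, hx1⟩
    · simp
    by_cases hz : ∃ x ∈ X, sg μ c x = 0
    · obtain ⟨x, hx, h0⟩ := hz
      rw [prod_eq_zero hx h0]
    exfalso
    push Not at hz
    have hfw : ∀ x ∈ X, μ x ∈ X := by
      have h1 : X.image (fun x => μ⁻¹ x) = X := by
        apply eq_of_subset_of_card_le
        · intro y hy
          obtain ⟨x, hx, rfl⟩ := mem_image.1 hy
          exact hst x hx
        · rw [card_image_of_injective _ (μ⁻¹).injective]
      intro x hx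
      rw [← h1] at hx
      obtain ⟨y, hy, rfl⟩ := mem_image.1 hx
      simpa using hy
    have hor : ∀ x ∈ X, c x = μ x ∨ c (μ x) = x := by
      intro x hx
      by_contra hc
      push Not at hc
      exact hz x hx (by simp [sg, hc.1, hc.2])
    have := hc.closed X (by
      intro x hx
      rcases hor x hx with h1 | h1
      · rw [h1]; exact hfw x hx
      · rcases hor _ (hst x hx) with h2 | h2
        · exfalso
          rw [show μ (μ⁻¹ x) = x by simp] at h2
          have h3 : μ⁻¹ x = μ x := c.injective (h2.trans h1.symm)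
          exact hX x hx (hμ x (by rw [← h3]; simp))
        · rw [show μ (μ⁻¹ x) = x by simp] at h2
          rw [h2]; exact hst x hx) hx1 o
    exact hX o this ho
  obtain ⟨x0, hx0, hx0'⟩ := hst
  let x : ℕ → α := fun i => (μ ^ i) x0
  have hxs : ∀ i, x (i + 1) = μ (x i) := fun i => by simp only [x, pow_succ', Perm.mul_apply]
  have hex : ∃ i, x i ∉ X := by
    refine ⟨orderOf μ - 1, ?_⟩
    have h1 : x (orderOf μ - 1) = μ⁻¹ x0 := by
      rw [Perm.eq_inv_iff_eq, ← hxs, Nat.sub_add_cancel (orderOf_pos μ)]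
      simp [x, pow_orderOf_eq_one]
    rwa [h1]
  obtain ⟨k, hk1, hk2⟩ : ∃ k, x k ∉ X ∧ ∀ i < k, x i ∈ X :=
    ⟨Nat.find hex, Nat.find_spec hex, fun i hi => by simpa using Nat.find_min hex hi⟩
  have hk0 : 0 < k := by
    rcases Nat.eq_zero_or_pos k with rfl | h
    · exact absurd hx0 (by simpa [x] using hk1)
    · exact h
  have hlt : ∀ i j, i < j → j ≤ k → x i ≠ x j := by
    intro i
    induction i with
    | zero =>
      intro j h1 h2 e
      obtain ⟨j, rfl⟩ : ∃ j', j = j' + 1 := ⟨j - 1, by omega⟩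
      apply hx0'
      have : μ⁻¹ x0 = x j := by
        rw [Perm.inv_eq_iff_eq, ← hxs, ← e]; simp [x]
      rw [this]
      exact hk2 j (by omega)
    | succ i ihi =>
      intro j h1 h2 e
      obtain ⟨j, rfl⟩ : ∃ j', j = j' + 1 := ⟨j - 1, by omega⟩
      rw [hxs, hxs] at e
      exact ihi j (by omega) (by omega) (μ.injective e)
  have hinj : ∀ i j, i ≤ k → j ≤ k → x i = x j → i = j := by
    intro i j hi hj e
    rcases lt_trichotomy i j with h | h | h
    · exact absurd e (hlt i j h hj)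
    · exact h
    · exact absurd e.symm (hlt j i h hi)
  let Seg := (range k).image x
  have hSeg : Seg ⊆ X := by
    intro y hy
    obtain ⟨i, hi, rfl⟩ := mem_image.1 hy
    exact hk2 i (mem_range.1 hi)
  have hsplit : ∀ c : Perm α, ∏ y ∈ X, sg μ c y =
      (∏ i ∈ range k, sg μ c (x i)) * ∏ y ∈ X \ Seg, sg μ c y := by
    intro c
    rw [← prod_sdiff hSeg, mul_comm, prod_image]
    intro i hi j hj e
    exact hinj i j (mem_range.1 hi).le (mem_range.1 hj).le e
  have hout : ∀ y ∈ X \ Seg, ∀ i ≤ k, y ≠ x i ∧ μ y ≠ x i := by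
    intro y hy i hi
    obtain ⟨hy1, hy2⟩ := mem_sdiff.1 hy
    constructor
    · rintro rfl
      rcases hi.lt_or_eq with h | rfl
      · exact hy2 (mem_image.2 ⟨i, mem_range.2 h, rfl⟩)
      · exact hk1 hy1
    · intro e
      rcases i with _ | i
      · apply hx0'
        have : μ⁻¹ x0 = y := by rw [Perm.inv_eq_iff_eq, e]; simp [x]
        rwa [this]
      · rw [hxs] at e
        exact hy2 (mem_image.2 ⟨i, mem_range.2 (by omega), (μ.injective e).symm⟩)
  rcases Nat.even_or_odd k with hk | hk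
  · have hpos : ∀ c : Perm α, 0 ≤ ∏ i ∈ range k, sg μ c (x i) := by
      intro c
      obtain ⟨j, hj⟩ := hk
      have : ∀ t, t + t ≤ k → 0 ≤ ∏ i ∈ range (t + t), sg μ c (x i) := by
        intro t
        induction t with
        | zero => simp
        | succ t iht =>
          intro ht
          rw [show t + 1 + (t + 1) = t + t + 1 + 1 by ring, prod_range_succ, prod_range_succ,
            mul_assoc, hxs]
          exact mul_nonneg (iht (by omega)) (sg_pair μ c hμ _ (hX _ (hk2 _ (by omega))))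
      rw [hj]
      exact this j hj.ge
    have hss : X \ Seg ⊂ X := sdiff_ssubset hSeg ⟨x 0, mem_image.2 ⟨0, mem_range.2 hk0, rfl⟩⟩
    rcases ih _ hss (fun y hy => hX y (mem_sdiff.1 hy).1) with ⟨ρ, h1, h2⟩ | h1
    · left
      refine ⟨ρ, fun z a1 a2 => h1 z (fun h => a1 (mem_sdiff.1 h).1)
        (fun h => a2 (mem_sdiff.1 h).1), fun c => ?_⟩
      have hfix : ∀ i ≤ k, ρ (x i) = x i := fun i hi =>
        h1 _ (fun h => (hout _ h i hi).1 rfl) (fun h => (hout _ h i hi).2 (by simp))
      rw [hsplit, hsplit, h2, prod_congr rfl fun i hi => sg_fix μ c ρ (x i)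
        (hfix i (mem_range.1 hi).le) (by rw [← hxs]; exact hfix _ (mem_range.1 hi))]
      ring
    · right
      intro c hc
      rw [hsplit]
      exact mul_nonneg (hpos c) (h1 c hc)
  · left
    let ι : Fin (k + 1) ↪ α := ⟨fun i => x i, fun i j e =>
      Fin.ext (hinj i j (by omega) (by omega) e)⟩
    let ρ : Perm α := (Fin.revPerm : Perm (Fin (k + 1))).viaEmbedding ι
    have hρ : ∀ i ≤ k, ρ (x i) = x (k - i) := by
      intro i hi
      have := Perm.viaEmbedding_apply (Fin.revPerm : Perm (Fin (k + 1))) ι ⟨i, by omega⟩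
      simpa [ι] using this
    have hρ' : ∀ z, (∀ i ≤ k, z ≠ x i) → ρ z = z := by
      intro z hz
      apply Perm.viaEmbedding_apply_of_notMem
      rintro ⟨i, hi⟩
      exact hz i (by omega) hi.symm
    refine ⟨ρ, fun z a1 a2 => hρ' z ?_, fun c => ?_⟩
    · rintro i hi rfl
      rcases hi.lt_or_eq with h | rfl
      · exact a1 (hk2 i h)
      · obtain ⟨j, rfl⟩ : ∃ j, i = j + 1 := ⟨i - 1, by omega⟩
        apply a2
        rw [hxs]
        simpa using hk2 j (by omega)
    · rw [hsplit, hsplit, prod_congr rfl fun y hy => sg_fix μ c ρ y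
        (hρ' y fun i hi => (hout y hy i hi).1) (hρ' _ fun i hi => (hout y hy i hi).2)]
      have : ∏ i ∈ range k, sg μ (ρ * c * ρ⁻¹) (x i) =
          ∏ i ∈ range k, -sg μ c (x (k - 1 - i)) := by
        refine prod_congr rfl fun i hi => ?_
        have hi' := mem_range.1 hi
        apply sg_flip
        · rw [hρ _ (by omega), ← hxs]; congr 1; omega
        · rw [← hxs, hρ _ (by omega)]; congr 1; omega
      rw [this, prod_neg, card_range, hk.neg_one_pow,
        prod_range_reflect (fun i => sg μ c (x i)) k]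
      ring

open Classical in
lemma sum_nonneg' (μ : Perm α) (hμ : ∀ x, μ (μ x) = x → μ x = x) (o : α) (ho : μ o = o)
    (X : Finset α) (hX : ∀ x ∈ X, μ x ≠ x) :
    0 ≤ ∑ c ∈ univ.filter (fun c : Perm α => Full c), ∏ x ∈ X, sg μ c x := by
  rcases alt μ hμ o ho X hX with ⟨ρ, -, h⟩ | h
  · have : ∑ c ∈ univ.filter (fun c : Perm α => Full c), ∏ x ∈ X, sg μ (ρ * c * ρ⁻¹) x =
        ∑ c ∈ univ.filter (fun c : Perm α => Full c), ∏ x ∈ X, sg μ c x := by
      refine sum_equiv (MulAut.conj ρ).toEquiv (fun c => ?_) (fun c _ => rfl)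
      simp only [mem_filter, mem_univ, true_and]
      refine ⟨fun hc => hc.conj ρ, fun hc => ?_⟩
      have := hc.conj ρ⁻¹
      simpa [mul_assoc] using this
    simp only [h, sum_neg_distrib] at this
    linarith
  · exact sum_nonneg fun c hc => h c (mem_filter.1 hc).2

open Classical in
lemma card_full (h2 : 2 ≤ Fintype.card α) :
    (univ.filter (fun c : Perm α => Full c)).card = (Fintype.card α - 1).factorial := by
  have := Perm.card_of_cycleType_singleton (α := α) h2 le_rfl
  rw [Nat.choose_self, mul_one] at this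
  rw [← this]
  congr 1
  ext c
  simp only [mem_filter, mem_univ, true_and]
  constructor
  · intro h
    rw [h.1.cycleType, h.2, card_univ]
  · intro h
    refine ⟨Perm.card_cycleType_eq_one.1 (by simp [h]), ?_⟩
    have := c.sum_cycleType
    rw [h, Multiset.sum_singleton] at this
    exact eq_univ_of_card _ this.symm

open Classical in
lemma sum_weight (μ : Perm α) (hμ : ∀ x, μ (μ x) = x → μ x = x) (o : α) (ho : μ o = o)
    (h2 : 2 ≤ Fintype.card α) :
    ((Fintype.card α - 1).factorial : ℤ) ≤ ∑ c ∈ univ.filter (fun c : Perm α => Full c),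
      ∏ x ∈ univ.filter (fun x => μ x ≠ x), (1 + sg μ c x) := by
  simp only [prod_one_add]
  rw [sum_comm, ← card_full h2]
  have := single_le_sum (s := (univ.filter (fun x => μ x ≠ x)).powerset)
    (f := fun X => ∑ c ∈ univ.filter (fun c : Perm α => Full c), ∏ x ∈ X, sg μ c x)
    (fun X hX => sum_nonneg' μ hμ o ho X fun x hx => (mem_filter.1 (mem_powerset.1 hX hx)).2)
    (empty_mem_powerset _)
  simpa using this

end Pool.Agent.H14.RegT
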