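import Pool.Agent.H14.RegT1

set_option autoImplicit false

namespace Pool.Agent.H14.RegT

open Finset Equiv

variable {α : Type} [Fintype α] [DecidableEq α] [AddCommGroup α]

def cyc (r : α → ℕ) (x y z : α) : Prop :=
  (r x < r y ∧ r y < r z) ∨ (r y < r z ∧ r z < r x) ∨ (r z < r x ∧ r x < r y)

omit [Fintype α] [DecidableEq α] [AddCommGroup α] in
lemma cyc_rot (r : α → ℕ) (x y z : α) : cyc r x y z ↔ cyc r y z x := by
  unfold cyc; tauto

omit [Fintype α] [DecidableEq α] [AddCommGroup α] in
lemma cyc_swap (r : α → ℕ) (hr : Function.Injective r) (x y z : α) (h1 : x ≠ y) (h2 : z ≠ x)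
    (h3 : z ≠ y) : cyc r y x z ↔ ¬ cyc r x y z := by
  have a1 := hr.ne h1
  have a2 := hr.ne h2
  have a3 := hr.ne h3
  unfold cyc; omega

def adj (r : α → ℕ) (ε : Finset α → Bool) (x y : α) : Prop :=
  x ≠ y ∧ (y = -(x + x) ∨ (x ≠ -(y + y) ∧ (cyc r x y (-x - y) ↔ ε {x, y, -x - y} = true)))

omit [Fintype α] in
lemma adj_tour (r : α → ℕ) (hr : Function.Injective r) (ε : Finset α → Bool) (x y : α)
    (h : x ≠ y) : adj r ε x y ↔ ¬ adj r ε y x := by
  have hb : y = -(x + x) → x = -(y + y) → False := by
    intro h1 h2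
    apply h
    have : x - y = -(y + y) - x := by rw [h1]; abel
    rw [← h2, sub_self] at this
    exact sub_eq_zero.1 this
  by_cases h1 : y = -(x + x)
  · have h2 : x ≠ -(y + y) := fun e => hb h1 e
    exact ⟨fun _ h3 => h3.2.elim h2 fun h4 => h4.1 h1, fun _ => ⟨h, Or.inl h1⟩⟩
  by_cases h2 : x = -(y + y)
  · exact ⟨fun h3 => (h3.2.elim h1 fun h4 => h4.1 h2).elim, fun h3 => (h3 ⟨h.symm, Or.inl h2⟩).elim⟩
  have a1 : -x - y ≠ x := fun e => h1 (by rw [← sub_eq_zero] at e ⊢; rw [← neg_eq_zero, ← e]; abel)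
  have a2 : -x - y ≠ y := fun e => h2 (by rw [← sub_eq_zero] at e ⊢; rw [← neg_eq_zero, ← e]; abel)
  have a3 : -y - x = -x - y := by abel
  have a4 := cyc_swap r hr x y _ h a1 a2
  unfold adj
  rw [a3, insert_comm y x, a4]
  simp only [ne_eq, h, h.symm, h1, h2, not_false_eq_true, true_and, false_or]
  by_cases b1 : cyc r x y (-x - y) <;> simp [b1]

omit [Fintype α] in
lemma adj_third (r : α → ℕ) (ε : Finset α → Bool) (v w : α) (h1 : v ≠ w) (h2 : w ≠ -(v + v))
    (h3 : v ≠ -(w + w)) : adj r ε v w ↔ adj r ε (-v - w) v := by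
  have a1 : -v - w ≠ v := fun e => h2 (by rw [← sub_eq_zero] at e ⊢; rw [← neg_eq_zero, ← e]; abel)
  have a2 : -v - w ≠ -(v + v) := fun e => h1 (by rw [← sub_eq_zero] at e ⊢; rw [← e]; abel)
  have a3 : v ≠ -(-v - w + (-v - w)) :=
    fun e => h3 (by rw [← sub_eq_zero] at e ⊢; rw [← neg_eq_zero, ← e]; abel)
  have a4 : -(-v - w) - v = w := by abel
  have a5 : ({-v - w, v, w} : Finset α) = {v, w, -v - w} := by
    ext; simp only [mem_insert, mem_singleton]; tauto
  unfold adj
  rw [a4, a5, cyc_rot r (-v - w)]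
  simp only [ne_eq, h1, h2, h3, a1, a2, a3, not_false_eq_true, true_and, false_or]

lemma adj_reg (r : α → ℕ) (hr : Function.Injective r) (ε : Finset α → Bool)
    (μ : Perm α) (hμ : ∀ x, μ x = -(x + x)) (v : α) :
    {w | adj r ε v w}.ncard = (Fintype.card α - 1) / 2 := by
  classical
  let O := univ.filter fun w => adj r ε v w
  let I := univ.filter fun w => adj r ε w v
  have hO : {w | adj r ε v w}.ncard = O.card := by
    rw [← Set.ncard_coe_finset]; congr 1; ext; simp [O]
  have hh : v = -(μ⁻¹ v + μ⁻¹ v) := by rw [← hμ]; simp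
  have hh' : ∀ w, v = -(w + w) → w = μ⁻¹ v := by
    intro w hw; rw [Perm.eq_inv_iff_eq, hμ, ← hw]
  have h1 : O.card = I.card := by
    refine card_nbij' (fun w => if w = -(v + v) then μ⁻¹ v else -v - w)
      (fun w => if w = μ⁻¹ v then -(v + v) else -v - w) ?_ ?_ ?_ ?_
    · intro w hw
      simp only [O, I, coe_filter, mem_univ, true_and, Set.mem_ofPred_eq] at hw ⊢
      split_ifs with h
      · refine ⟨fun e => hw.1 ?_, Or.inl hh⟩
        rw [h]; rw [e] at hh; exact hh
      · exact (adj_third r ε v w hw.1 h (hw.2.resolve_left h).1).1 hw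
    · intro w hw
      simp only [O, I, coe_filter, mem_univ, true_and, Set.mem_ofPred_eq] at hw ⊢
      split_ifs with h
      · refine ⟨fun e => hw.1 ?_, Or.inl rfl⟩
        rw [h]; exact (hh' v e).symm
      · have a1 : v ≠ -(w + w) := fun e => h (hh' w e)
        have a2 := (hw.2.resolve_left a1).1
        have := adj_third r ε v (-v - w)
          (fun e => a2 (by rw [← sub_eq_zero] at e ⊢; rw [← e]; abel))
          (fun e => hw.1 (by rw [← sub_eq_zero] at e ⊢; rw [← neg_eq_zero, ← e]; abel))
          (fun e => a1 (by rw [← sub_eq_zero] at e ⊢; rw [← neg_eq_zero, ← e]; abel))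
        rw [this, show -v - (-v - w) = w by abel]
        exact hw
    · intro w hw
      simp only [O, coe_filter, mem_univ, true_and, Set.mem_ofPred_eq] at hw
      by_cases h : w = -(v + v)
      · simp [h]
      · have a1 := (hw.2.resolve_left h).1
        have a2 : -v - w ≠ μ⁻¹ v := by
          intro e
          rw [← e] at hh
          exact a1 (by rw [← sub_eq_zero] at hh ⊢; rw [← neg_eq_zero, ← hh]; abel)
        simp only [if_neg h, if_neg a2]
        abel
    · intro w hw
      simp only [I, coe_filter, mem_univ, true_and, Set.mem_ofPred_eq] at hw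
      by_cases h : w = μ⁻¹ v
      · simp [h]
      · have a2 : -v - w ≠ -(v + v) :=
          fun e => hw.1 (by rw [← sub_eq_zero] at e ⊢; rw [← neg_eq_zero, ← e]; abel)
        simp only [if_neg h, if_neg a2]
        abel
  have h2 : I = (univ.erase v) \ O := by
    ext w
    simp only [I, O, mem_filter, mem_univ, true_and, mem_sdiff, mem_erase, and_true]
    constructor
    · intro hw
      exact ⟨hw.1, (adj_tour r hr ε w v hw.1).1 hw⟩
    · intro hw
      exact (adj_tour r hr ε w v hw.1).2 hw.2
  have h3 : O ⊆ univ.erase v := by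
    intro w hw
    simp only [O, mem_filter, mem_univ, true_and] at hw
    exact mem_erase.2 ⟨hw.1.symm, mem_univ _⟩
  have h4 := card_sdiff_add_card_eq_card h3
  rw [← h2, card_erase_of_mem (mem_univ _), card_univ] at h4
  omega

open Classical in
lemma count_eps (r : α → ℕ) (μ : Perm α) (hμ : ∀ x, μ x = -(x + x)) (h3 : 3 ≤ Fintype.card α)
    (c : Perm α) (hc : Full c) :
    (2 : ℤ) ^ Fintype.card (Finset α) * ∏ x ∈ univ.filter (fun x => μ x ≠ x), (1 + sg μ c x) ≤
      2 ^ Fintype.card α *
        ((univ.filter fun ε : Finset α → Bool => ∀ v, adj r ε v (c v)).card : ℤ) := by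
  by_cases hb : ∃ x, μ x ≠ x ∧ c (μ x) = x
  · obtain ⟨x, h1, h2⟩ := hb
    have h4 : c x ≠ μ x := fun e => hc.no2 h3 x (by rw [e, h2])
    have h5 : ∏ x ∈ univ.filter (fun x => μ x ≠ x), (1 + sg μ c x) = 0 :=
      prod_eq_zero (i := x) (by simpa using h1) (by simp [sg, h2, h4])
    rw [h5]
    positivity
  push Not at hb
  let N0 := univ.filter fun v => c v ≠ μ v
  let key : α → Finset α := fun v => {v, c v, -v - c v}
  let I := N0.image key
  let ε0 : Finset α → Bool := fun k => decide (∃ v ∈ N0, key v = k ∧ cyc r v (c v) (-v - c v))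
  have hW : ∏ x ∈ univ.filter (fun x => μ x ≠ x), (1 + sg μ c x) ≤
      2 ^ (Fintype.card α - N0.card) := by
    have a1 : ∏ x ∈ univ.filter (fun x => μ x ≠ x), (1 + sg μ c x) =
        ∏ x ∈ univ.filter (fun x => μ x ≠ x), (if c x = μ x then (2 : ℤ) else 1) := by
      refine prod_congr rfl fun x hx => ?_
      have := hb x (mem_filter.1 hx).2
      simp only [sg, if_neg this]
      split_ifs <;> norm_num
    rw [a1, prod_ite, prod_const_one, mul_one, prod_const]
    refine pow_le_pow_right₀ (by norm_num) ?_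
    have a2 := card_filter_add_card_filter_not (s := (univ : Finset α)) (fun x => c x = μ x)
    have a3 : ((univ.filter (fun x => μ x ≠ x)).filter fun x => c x = μ x).card ≤
        (univ.filter fun x => c x = μ x).card :=
      card_le_card (filter_subset_filter _ (filter_subset _ _))
    rw [card_univ] at a2
    have a4 : N0.card = (univ.filter fun x => ¬ c x = μ x).card := rfl
    omega
  have hsub : Fintype.piFinset (fun k => if k ∈ I then {ε0 k} else univ) ⊆
      univ.filter fun ε : Finset α → Bool => ∀ v, adj r ε v (c v) := by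
    intro ε hε
    rw [Fintype.mem_piFinset] at hε
    refine mem_filter.2 ⟨mem_univ _, fun v => ⟨(hc.ne v).symm, ?_⟩⟩
    by_cases hv : c v = μ v
    · left; rw [hv, hμ]
    right
    have hv0 : v ∈ N0 := mem_filter.2 ⟨mem_univ _, hv⟩
    have b1 : v ≠ -(c v + c v) := by
      intro e
      rw [← hμ] at e
      exact hb (c v) (by rw [← e]; exact (hc.ne v).symm) (by rw [← e])
    refine ⟨b1, ?_⟩
    have b2 := hε (key v)
    rw [if_pos (mem_image_of_mem key hv0), mem_singleton] at b2
    show _ ↔ ε (key v) = true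
    rw [b2]
    simp only [ε0, decide_eq_true_eq]
    refine ⟨fun h => ⟨v, hv0, rfl, h⟩, ?_⟩
    rintro ⟨u, -, hu, hcy⟩
    have b3 : -v - c v ≠ v := fun e => hv (by
      rw [hμ]; rw [← sub_eq_zero] at e ⊢; rw [← neg_eq_zero, ← e]; abel)
    have m1 : u ∈ key v := by rw [← hu]; simp [key]
    have m2 : c u ∈ key v := by rw [← hu]; simp [key]
    simp only [key, mem_insert, mem_singleton] at m1 m2
    rcases m1 with rfl | rfl | rfl
    · exact hcy
    · rcases m2 with h | h | h
      · exact absurd h (hc.no2 h3 v)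
      · exact absurd h (hc.ne _)
      · rw [h, show -c v - (-v - c v) = v by abel] at hcy
        exact (cyc_rot r _ _ _).2 hcy
    · rcases m2 with h | h | h
      · rw [h, show -(-v - c v) - v = c v by abel] at hcy
        exact (cyc_rot r _ _ _).1 hcy
      · exact absurd (c.injective h) b3
      · exact absurd h (hc.ne _)
  have h1 := card_le_card hsub
  rw [Fintype.card_piFinset] at h1
  have h2 : ∏ k : Finset α, (if k ∈ I then ({ε0 k} : Finset Bool) else univ).card =
      2 ^ (Fintype.card (Finset α) - I.card) := by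
    have : ∀ k : Finset α, (if k ∈ I then ({ε0 k} : Finset Bool) else univ).card =
        if k ∈ I then 1 else 2 := by
      intro k; split_ifs <;> simp
    simp only [this]
    rw [prod_ite, prod_const_one, one_mul, prod_const]
    congr 1
    have : (univ.filter fun k => k ∉ I) = Iᶜ := by ext; simp
    rw [this, card_compl]
  rw [h2] at h1
  have h4 : I.card ≤ N0.card := card_image_le
  have h5 : N0.card ≤ Fintype.card α := card_le_univ _
  have h6 : I.card ≤ Fintype.card (Finset α) := card_le_univ _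
  have h7 : (2 : ℤ) ^ (Fintype.card (Finset α) - I.card) ≤
      ((univ.filter fun ε : Finset α → Bool => ∀ v, adj r ε v (c v)).card : ℤ) := by
    exact_mod_cast h1
  calc _ ≤ (2 : ℤ) ^ Fintype.card (Finset α) * 2 ^ (Fintype.card α - N0.card) :=
        mul_le_mul_of_nonneg_left hW (by positivity)
    _ ≤ 2 ^ Fintype.card α * 2 ^ (Fintype.card (Finset α) - I.card) := by
        rw [← pow_add, ← pow_add]
        exact pow_le_pow_right₀ (by norm_num) (by omega)
    _ ≤ _ := mul_le_mul_of_nonneg_left h7 (by positivity)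

open Classical in
theorem exists_eps (r : α → ℕ) (μ : Perm α) (hμ : ∀ x, μ x = -(x + x))
    (h3 : 3 ≤ Fintype.card α) : ∃ ε : Finset α → Bool,
      (Fintype.card α - 1).factorial ≤ 2 ^ Fintype.card α *
        (univ.filter fun c : Perm α => Full c ∧ ∀ v, adj r ε v (c v)).card := by
  by_contra hcon
  push Not at hcon
  have h1 := sum_weight μ (fun x h => by
    rw [hμ] at h ⊢
    rw [hμ] at h
    rw [← sub_eq_zero] at h ⊢; rw [← neg_eq_zero, ← h]; abel) 0 (by rw [hμ]; simp) (by omega)
  have h2 := sum_le_sum fun c (hc : c ∈ univ.filter (fun c : Perm α => Full c)) =>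
    count_eps r μ hμ h3 c (mem_filter.1 hc).2
  rw [← mul_sum, ← mul_sum] at h2
  have h4 : ∑ c ∈ univ.filter (fun c : Perm α => Full c),
      ((univ.filter fun ε : Finset α → Bool => ∀ v, adj r ε v (c v)).card : ℤ) =
      ∑ ε : Finset α → Bool,
        ((univ.filter fun c : Perm α => Full c ∧ ∀ v, adj r ε v (c v)).card : ℤ) := by
    simp only [card_filter, sum_filter]
    push_cast
    have : ∀ c : Perm α, (if Full c then ∑ ε : Finset α → Bool,
        (if ∀ v, adj r ε v (c v) then (1 : ℤ) else 0) else 0) = ∑ ε : Finset α → Bool,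
        (if Full c ∧ ∀ v, adj r ε v (c v) then (1 : ℤ) else 0) := by
      intro c
      by_cases h : Full c <;> simp [h]
    simp only [this]
    rw [sum_comm]
  rw [h4, mul_sum (a := (2 : ℤ) ^ Fintype.card α)] at h2
  have h5 : ∑ ε : Finset α → Bool, (2 : ℤ) ^ Fintype.card α *
      ((univ.filter fun c : Perm α => Full c ∧ ∀ v, adj r ε v (c v)).card : ℤ) <
      ∑ _ε : Finset α → Bool, ((Fintype.card α - 1).factorial : ℤ) :=
    sum_lt_sum_of_nonempty univ_nonempty fun ε _ => by exact_mod_cast hcon ε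
  rw [sum_const, card_univ, Fintype.card_fun, Fintype.card_bool, nsmul_eq_mul] at h5
  have h6 := mul_le_mul_of_nonneg_left h1 (by positivity : (0 : ℤ) ≤ 2 ^ Fintype.card (Finset α))
  push_cast at h5
  linarith

end Pool.Agent.H14.RegT
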