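import Mathlib
set_option autoImplicit false

namespace Pool.Agent.H14.Rk
open Finset

lemma span_pts {K : Type} [Field K] {ι P : Type} [Fintype ι] (W : P → ι → K) (S : Set P)
    (hS : S.Nonempty) :
    ∃ y : ι → P, (∀ k, y k ∈ S) ∧
      ∀ x ∈ S, W x ∈ Submodule.span K (Set.range (fun k => W (y k))) := by
  classical
  obtain ⟨f, hf, hsp, -⟩ := Submodule.exists_fun_fin_finrank_span_eq K (W '' S)
  have hle : Module.finrank K (Submodule.span K (W '' S)) ≤ Fintype.card ι := by
    have := Submodule.finrank_le (Submodule.span K (W '' S))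
    simpa using this
  obtain ⟨e⟩ : Nonempty (Fin (Module.finrank K (Submodule.span K (W '' S))) ↪ ι) :=
    Function.Embedding.nonempty_of_card_le (by simpa using hle)
  choose g hg hg' using hf
  obtain ⟨s0, hs0⟩ := hS
  refine ⟨Function.extend e g (fun _ => s0), ?_, ?_⟩
  · intro k
    by_cases h : ∃ j, e j = k
    · obtain ⟨j, rfl⟩ := h
      rw [e.injective.extend_apply]; exact hg j
    · rw [Function.extend_apply' _ _ _ h]; exact hs0
  · intro x hx
    have h1 : W x ∈ Submodule.span K (Set.range f) := by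
      rw [hsp]; exact Submodule.subset_span ⟨x, hx, rfl⟩
    refine Submodule.span_mono ?_ h1
    rintro _ ⟨j, rfl⟩
    refine ⟨e j, ?_⟩
    simp only
    rw [e.injective.extend_apply]; exact hg' j

lemma chain {K : Type} [Field K] {ι P : Type} [Fintype ι] (W : P → ι → K) (S : ℕ → Set P)
    (hm : ∀ t, S t ⊆ S (t + 1)) (h0 : (S 0).Nonempty) :
    ∃ t ≤ Fintype.card ι, ∃ y : ι → P, (∀ k, y k ∈ S t) ∧
      ∀ x ∈ S (t + 1), W x ∈ Submodule.span K (Set.range (fun k => W (y k))) := by
  have hne : ∀ t, (S t).Nonempty := by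
    intro t
    induction t with
    | zero => exact h0
    | succ t ih => exact ih.mono (hm t)
  have key : ∃ t ≤ Fintype.card ι,
      Submodule.span K (W '' S (t + 1)) ≤ Submodule.span K (W '' S t) := by
    by_contra hc
    push Not at hc
    have : ∀ t, t ≤ Fintype.card ι + 1 → t ≤ Module.finrank K (Submodule.span K (W '' S t)) := by
      intro t
      induction t with
      | zero => intro _; exact Nat.zero_le _
      | succ t ih =>
        intro ht
        have h1 := ih (by omega)
        have h2 : Submodule.span K (W '' S t) < Submodule.span K (W '' S (t + 1)) :=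
          lt_of_le_not_ge (Submodule.span_mono (Set.image_mono (hm t))) (hc t (by omega))
        have := Submodule.finrank_lt_finrank_of_lt h2
        omega
    have h3 := this _ le_rfl
    have h4 := Submodule.finrank_le (Submodule.span K (W '' S (Fintype.card ι + 1)))
    simp at h4
    omega
  obtain ⟨t, ht, hle⟩ := key
  obtain ⟨y, hy, hy'⟩ := span_pts W (S t) (hne t)
  refine ⟨t, ht, y, hy, fun x hx => ?_⟩
  have h1 : W x ∈ Submodule.span K (W '' S t) := hle (Submodule.subset_span ⟨x, hx, rfl⟩)
  refine (Submodule.span_le.2 ?_) h1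
  rintro _ ⟨z, hz, rfl⟩
  exact hy' z hz

lemma ginv {K : Type} [Field K] {ι : Type} [Fintype ι] (A : ι → ι → K) :
    ∃ L : ι → ι → K, ∀ v : ι → K, ∀ w ∈ Submodule.span K (Set.range A),
      ∑ i, (∑ k, L i k * (∑ j, v j * A k j)) * w i = ∑ i, v i * w i := by
  classical
  let f : (ι → K) →ₗ[K] (ι → K) := Matrix.toLin' (Matrix.of A)
  obtain ⟨g0, hg0⟩ := LinearMap.exists_rightInverse_of_surjective f.rangeRestrict
    (LinearMap.range_rangeRestrict f)
  obtain ⟨g, hg⟩ := LinearMap.exists_extend g0
  have hfgf : ∀ v, f (g (f v)) = f v := by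
    intro v
    have h1 : g (f v) = g0 ⟨f v, LinearMap.mem_range_self f v⟩ := by
      rw [← hg]; rfl
    have h2 := congrArg (fun φ => (φ ⟨f v, LinearMap.mem_range_self f v⟩).1) hg0
    simp only [LinearMap.comp_apply, LinearMap.id_apply] at h2
    rw [h1]; exact h2
  refine ⟨LinearMap.toMatrix' g, fun v w hw => ?_⟩
  have hg' : ∀ i, ∑ k, LinearMap.toMatrix' g i k * (∑ j, v j * A k j) = g (f v) i := by
    intro i
    have : g (f v) = (LinearMap.toMatrix' g).mulVec (f v) := by
      rw [← Matrix.toLin'_apply, Matrix.toLin'_toMatrix']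
    rw [this]
    simp only [Matrix.mulVec, dotProduct, f, Matrix.toLin'_apply, Matrix.of_apply]
    refine Finset.sum_congr rfl fun k _ => ?_
    congr 1
    exact Finset.sum_congr rfl fun j _ => mul_comm _ _
  simp only [hg']
  induction hw using Submodule.span_induction with
  | mem w hw =>
    obtain ⟨k, rfl⟩ := hw
    have := congrFun (hfgf v) k
    simp only [f, Matrix.toLin'_apply, Matrix.mulVec, dotProduct, Matrix.of_apply] at this
    simp only [f, Matrix.toLin'_apply]
    rw [Finset.sum_congr rfl fun i _ => mul_comm _ (A k i), this]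
    exact Finset.sum_congr rfl fun i _ => mul_comm _ _
  | zero => simp
  | add a b _ _ ha hb => simp only [Pi.add_apply, mul_add, Finset.sum_add_distrib, ha, hb]
  | smul c a _ ha =>
    simp only [Pi.smul_apply, smul_eq_mul]
    rw [Finset.sum_congr rfl fun i _ => mul_left_comm _ c _, ← Finset.mul_sum, ha,
      Finset.mul_sum]
    exact Finset.sum_congr rfl fun i _ => by ring

lemma countP_mono {ι : Type} (s : Multiset ι) (p q : ι → Prop) [DecidablePred p]
    [DecidablePred q] (h : ∀ i ∈ s, p i → q i) : s.countP p ≤ s.countP q := by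
  induction s using Multiset.induction_on with
  | empty => simp
  | cons a s ih =>
    rw [Multiset.countP_cons, Multiset.countP_cons]
    have h1 := ih (fun i hi => h i (Multiset.mem_cons_of_mem hi))
    have h2 := h a (Multiset.mem_cons_self a s)
    by_cases hp : p a
    · simp [hp, h2 hp, h1]
    · simp only [hp, if_false]; omega

lemma countP_map' {ι κ : Type} (s : Multiset ι) (f : ι → κ) (p : κ → Prop) [DecidablePred p] :
    (s.map f).countP p = s.countP (fun i => p (f i)) := by
  induction s using Multiset.induction_on with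
  | empty => simp
  | cons a s ih => simp [Multiset.countP_cons, ih]

variable {d : ℕ}

def Solv {K : Type} [Field K] {Q : Fin d → Type} {ι M : Type} [Fintype M]
    (ty : ι → Finset (Fin d)) (U : M → Multiset ι) (D : M → (∀ α, Q α) → K)
    (X : ∀ α, Set (Q α)) : Prop :=
  ∃ u : ι → (∀ α, Q α) → K, (∀ i, DependsOn (u i) (ty i : Set (Fin d))) ∧
    ∀ x : ∀ α, Q α, (∀ α, x α ∈ X α) → ∑ m, D m x * ((U m).map (fun i => u i x)).prod = 0

lemma Solv.mono {K : Type} [Field K] {Q : Fin d → Type} {ι M : Type} [Fintype M]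
    {ty : ι → Finset (Fin d)} {U : M → Multiset ι} {D : M → (∀ α, Q α) → K}
    {X Y : ∀ α, Set (Q α)} (h : Solv ty U D Y) (hXY : ∀ α, X α ⊆ Y α) : Solv ty U D X := by
  obtain ⟨u, hu, hx⟩ := h
  exact ⟨u, hu, fun x hx' => hx x fun α => hXY α (hx' α)⟩

def Good {ι M : Type} (ty : ι → Finset (Fin d)) (A : M → Finset (Fin d))
    (U : M → Multiset ι) : Prop :=
  ∀ m α, (U m).countP (fun i => α ∈ ty i) + (if α ∈ A m then 1 else 0) ≤ 1

def Helly {ι M : Type} [Fintype M] (ty : ι → Finset (Fin d)) (A : M → Finset (Fin d))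
    (U : M → Multiset ι) : Prop :=
  ∃ N : ℕ, ∀ (K : Type) [Field K] (Q : Fin d → Type) [∀ α, Nonempty (Q α)]
    (D : M → (∀ α, Q α) → K), (∀ m, DependsOn (D m) (A m : Set (Fin d))) →
    ¬ Solv ty U D (fun _ => Set.univ) →
    ∃ X : ∀ α, Finset (Q α), (∀ α, (X α).card ≤ N) ∧ ¬ Solv ty U D (fun α => (X α : Set (Q α)))

lemma base {ι M : Type} [Fintype M] (ty : ι → Finset (Fin d)) (A : M → Finset (Fin d))
    (U : M → Multiset ι) (h : ∀ i, ty i = ∅) : Helly ty A U := by
  classical
  refine ⟨Fintype.card M, fun K _ Q _ D _ hn => ?_⟩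
  obtain ⟨y, -, hy⟩ := span_pts (K := K) (fun x m => D m x) Set.univ Set.univ_nonempty
  refine ⟨fun α => univ.image (fun m => y m α), fun α => ?_, fun hs => hn ?_⟩
  · exact card_image_le.trans (by simp)
  · obtain ⟨u, hu, hx⟩ := hs
    refine ⟨u, hu, fun x _ => ?_⟩
    have hc : ∀ i z, u i z = u i x := fun i z => hu i (by simp [h i])
    have : ∀ w ∈ Submodule.span K (Set.range (fun k m => D m (y k))),
        ∑ m, w m * ((U m).map (fun i => u i x)).prod = 0 := by
      intro w hw
      induction hw using Submodule.span_induction with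
      | mem w hw =>
        obtain ⟨k, rfl⟩ := hw
        have := hx (y k) (fun α => by simp)
        simpa only [hc] using this
      | zero => simp
      | add a b _ _ ha hb => simp only [Pi.add_apply, add_mul, Finset.sum_add_distrib, ha, hb, add_zero]
      | smul c a _ ha =>
        simp only [Pi.smul_apply, smul_eq_mul, mul_assoc]
        rw [← Finset.mul_sum, ha, mul_zero]
    exact this _ (hy x (Set.mem_univ _))

end Pool.Agent.H14.Rk
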