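import Pool.Agent.H14.Rk1
set_option autoImplicit false

namespace Pool.Agent.H14.Rk
open Finset

variable {d : ℕ} {ι M : Type}

def ty' (ty : ι → Finset (Fin d)) (J : Finset (Fin d)) :
    ι ⊕ (ι × ι) ⊕ (ι × ι) → Finset (Fin d)
  | Sum.inl i => if ty i = J then ∅ else ty i
  | Sum.inr (Sum.inl _) => ∅
  | Sum.inr (Sum.inr p) => if ty p.1 = J then ∅ else ty p.1 ∩ J

def U' (U : M → Multiset ι) (p : M → Prop) (π : {m // p m} → ι) (V : {m // p m} → Multiset ι) :
    {m // ¬ p m} ⊕ ({m // p m} × ι × {m // ¬ p m}) → Multiset (ι ⊕ (ι × ι) ⊕ (ι × ι))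
  | Sum.inl m => (U m.1).map Sum.inl
  | Sum.inr q => (V q.1).map Sum.inl + (Sum.inr (Sum.inl (π q.1, q.2.1)) ::ₘ
      (U q.2.2.1).map (fun i => Sum.inr (Sum.inr (i, q.2.1))))

def A' (A : M → Finset (Fin d)) (J : Finset (Fin d)) (p : M → Prop) :
    {m // ¬ p m} ⊕ ({m // p m} × ι × {m // ¬ p m}) → Finset (Fin d)
  | Sum.inl m => A m.1
  | Sum.inr q => A q.1.1 ∪ (A q.2.2.1 ∩ J)

def D' {K : Type} [Field K] {Q : Fin d → Type} (D : M → (∀ α, Q α) → K) (J : Finset (Fin d))
    (p : M → Prop) (y : ι → ∀ α, Q α) :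
    {m // ¬ p m} ⊕ ({m // p m} × ι × {m // ¬ p m}) → (∀ α, Q α) → K
  | Sum.inl m => D m.1
  | Sum.inr q => fun x => D q.1.1 x * D q.2.2.1 (J.piecewise x (y q.2.1))

structure Sel (ty : ι → Finset (Fin d)) (A : M → Finset (Fin d)) (U : M → Multiset ι)
    (J : Finset (Fin d)) (p : M → Prop) (π : {m // p m} → ι) (V : {m // p m} → Multiset ι) :
    Prop where
  h0 : ∀ m, ¬ p m → ∀ i ∈ U m, ty i ≠ J
  h1 : ∀ m, ty (π m) = J
  h2 : ∀ m : {m // p m}, U m.1 = π m ::ₘ V m
  h3 : ∀ m, ∀ i ∈ V m, ∀ α ∈ J, α ∉ ty i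
  h4 : ∀ m : {m // p m}, ∀ α ∈ J, α ∉ A m.1
  h5 : J.Nonempty

lemma Sel.h6 {ty : ι → Finset (Fin d)} {A : M → Finset (Fin d)} {U : M → Multiset ι}
    {J : Finset (Fin d)} {p : M → Prop} {π : {m // p m} → ι} {V : {m // p m} → Multiset ι}
    (h : Sel ty A U J p π V) (m) (i) (hi : i ∈ V m) : ty i ≠ J := by
  obtain ⟨α, hα⟩ := h.h5
  intro e
  exact h.h3 m i hi α hα (e ▸ hα)

lemma exists_sel (ty : ι → Finset (Fin d)) (A : M → Finset (Fin d)) (U : M → Multiset ι)
    (hg : Good ty A U) (J : Finset (Fin d)) (hJ : J.Nonempty) :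
    ∃ p π V, Sel ty A U J p π V := by
  classical
  let p : M → Prop := fun m => ∃ i ∈ U m, ty i = J
  have hp : ∀ m : {m // p m}, ∃ i ∈ U m.1, ty i = J := fun m => m.2
  choose π hπ hπ' using hp
  have h2 : ∀ m : {m // p m}, U m.1 = π m ::ₘ (U m.1).erase (π m) :=
    fun m => (Multiset.cons_erase (hπ m)).symm
  have key : ∀ m : {m // p m}, ∀ α ∈ J,
      ((U m.1).erase (π m)).countP (fun i => α ∈ ty i) = 0 ∧ α ∉ A m.1 := by
    intro m α hα
    have := hg m.1 α
    rw [h2 m, Multiset.countP_cons, if_pos (by rw [hπ' m]; exact hα)] at this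
    refine ⟨by omega, fun h => ?_⟩
    rw [if_pos h] at this
    omega
  refine ⟨p, π, fun m => (U m.1).erase (π m), ?_, hπ', h2, ?_, fun m α hα => (key m α hα).2, hJ⟩
  · intro m hm i hi e
    exact hm ⟨i, hi, e⟩
  · intro m i hi α hα
    exact Multiset.countP_eq_zero.1 (key m α hα).1 i hi

lemma good' {ty : ι → Finset (Fin d)} {A : M → Finset (Fin d)} {U : M → Multiset ι}
    {J : Finset (Fin d)} {p : M → Prop} {π : {m // p m} → ι} {V : {m // p m} → Multiset ι}
    (h : Sel ty A U J p π V) (hg : Good ty A U) :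
    Good (ty' ty J) (A' (ι := ι) A J p) (U' U p π V) := by
  have e1 : ∀ (s : Multiset ι) α, (s.map Sum.inl).countP (fun i => α ∈ ty' ty J i) ≤
      s.countP (fun i => α ∈ ty i) := by
    intro s α
    rw [countP_map']
    refine countP_mono _ _ _ fun i _ hi => ?_
    simp only [ty'] at hi
    split_ifs at hi
    · simp at hi
    · exact hi
  have e2 : ∀ (s : Multiset ι) (k : ι) α,
      (s.map (fun i => Sum.inr (Sum.inr (i, k)))).countP (fun i => α ∈ ty' ty J i) ≤
      s.countP (fun i => α ∈ ty i ∧ α ∈ J) := by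
    intro s k α
    rw [countP_map']
    refine countP_mono _ _ _ fun i _ hi => ?_
    simp only [ty'] at hi
    split_ifs at hi
    · simp at hi
    · exact mem_inter.1 hi
  rintro (m | ⟨m, k, m'⟩) α
  · exact le_trans (Nat.add_le_add_right (e1 (U m.1) α) _) (hg m.1 α)
  · simp only [U', A', Multiset.countP_add, Multiset.countP_cons]
    have a1 := e1 (V m) α
    have a2 := e2 (U m'.1) k α
    have a3 : ¬ α ∈ ty' ty J (Sum.inr (Sum.inl (π m, k))) := by simp [ty']
    rw [if_neg a3]
    by_cases hα : α ∈ J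
    · have b1 : (V m).countP (fun i => α ∈ ty i) = 0 :=
        Multiset.countP_eq_zero.2 fun i hi => h.h3 m i hi α hα
      have b2 := countP_mono (U m'.1) (fun i => α ∈ ty i ∧ α ∈ J) (fun i => α ∈ ty i)
        (fun i _ hi => hi.1)
      have b3 := hg m'.1 α
      have b4 : α ∈ A m.1 ∪ A m'.1 ∩ J ↔ α ∈ A m'.1 := by
        simp [h.h4 m α hα, hα]
      simp only [b4]
      omega
    · have b1 : (U m'.1).countP (fun i => α ∈ ty i ∧ α ∈ J) = 0 :=
        Multiset.countP_eq_zero.2 fun i _ hi => hα hi.2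
      have b3 := hg m.1 α
      rw [h.h2 m, Multiset.countP_cons] at b3
      have b4 : α ∈ A m.1 ∪ A m'.1 ∩ J ↔ α ∈ A m.1 := by
        simp [hα]
      simp only [b4]
      omega

lemma dep' {K : Type} [Field K] {Q : Fin d → Type} {D : M → (∀ α, Q α) → K}
    {A : M → Finset (Fin d)} (hD : ∀ m, DependsOn (D m) (A m : Set (Fin d)))
    (J : Finset (Fin d)) (p : M → Prop) (y : ι → ∀ α, Q α) (m) :
    DependsOn (D' D J p y m) (A' A J p m : Set (Fin d)) := by
  rcases m with m | ⟨m, k, m'⟩
  · exact hD m.1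
  · intro x z hxz
    simp only [D', A'] at hxz ⊢
    congr 1
    · exact hD m.1 fun α hα => hxz α (by simp [show α ∈ A m.1 from hα])
    · refine hD m'.1 fun α hα => ?_
      by_cases hJ : α ∈ J
      · rw [piecewise_eq_of_mem _ _ _ hJ, piecewise_eq_of_mem _ _ _ hJ]
        exact hxz α (by simp [show α ∈ A m'.1 from hα, hJ])
      · rw [piecewise_eq_of_notMem _ _ _ hJ, piecewise_eq_of_notMem _ _ _ hJ]

lemma split {K : Type} [Field K] [Fintype M] {ty : ι → Finset (Fin d)}
    {A : M → Finset (Fin d)} {U : M → Multiset ι}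
    {J : Finset (Fin d)} {p : M → Prop} [DecidablePred p] {π : {m // p m} → ι}
    {V : {m // p m} → Multiset ι}
    (h : Sel ty A U J p π V) (c : M → K) (v : ι → K) :
    ∑ m, c m * ((U m).map v).prod =
      ∑ m : {m // ¬ p m}, c m.1 * ((U m.1).map v).prod +
        ∑ m : {m // p m}, v (π m) * (c m.1 * ((V m).map v).prod) := by
  rw [← Fintype.sum_subtype_add_sum_subtype p, add_comm]
  congr 1
  refine Finset.sum_congr rfl fun m _ => ?_
  rw [h.h2 m, Multiset.map_cons, Multiset.prod_cons]
  ring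

lemma split' {K : Type} [Field K] [Fintype M] [Fintype ι] {Q : Fin d → Type}
    (U : M → Multiset ι) (J : Finset (Fin d)) (p : M → Prop) [DecidablePred p]
    (π : {m // p m} → ι) (V : {m // p m} → Multiset ι) (D : M → (∀ α, Q α) → K)
    (y : ι → ∀ α, Q α) (x : ∀ α, Q α) (v : ι ⊕ (ι × ι) ⊕ (ι × ι) → K) :
    ∑ m, D' D J p y m x * ((U' U p π V m).map v).prod =
      ∑ m : {m // ¬ p m}, D m.1 x * ((U m.1).map (fun i => v (Sum.inl i))).prod +
        ∑ m : {m // p m}, (∑ k, v (Sum.inr (Sum.inl (π m, k))) *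
          ∑ m' : {m // ¬ p m}, D m'.1 (J.piecewise x (y k)) *
            ((U m'.1).map (fun i => v (Sum.inr (Sum.inr (i, k))))).prod) *
          (D m.1 x * ((V m).map (fun i => v (Sum.inl i))).prod) := by
  rw [Fintype.sum_sum_type]
  congr 1
  · refine Finset.sum_congr rfl fun m _ => ?_
    simp only [D', U', Multiset.map_map]
    rfl
  · rw [Fintype.sum_prod_type]
    refine Finset.sum_congr rfl fun m _ => ?_
    rw [Fintype.sum_prod_type, Finset.sum_mul]
    refine Finset.sum_congr rfl fun k _ => ?_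
    rw [Finset.mul_sum, Finset.sum_mul]
    refine Finset.sum_congr rfl fun m' _ => ?_
    simp only [D', U', Multiset.map_add, Multiset.map_cons, Multiset.map_map, Multiset.prod_add,
      Multiset.prod_cons, Function.comp_def]
    ring

lemma down {K : Type} [Field K] [Fintype M] [Fintype ι] {Q : Fin d → Type}
    {ty : ι → Finset (Fin d)} {A : M → Finset (Fin d)} {U : M → Multiset ι}
    {J : Finset (Fin d)} {p : M → Prop} [DecidablePred p] {π : {m // p m} → ι}
    {V : {m // p m} → Multiset ι} (h : Sel ty A U J p π V) {D : M → (∀ α, Q α) → K}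
    (y : ι → ∀ α, Q α) (X : ∀ α, Set (Q α))
    (hs : Solv (ty' ty J) (U' U p π V) (D' D J p y) X) : Solv ty U D X := by
  obtain ⟨u, hu, hx⟩ := hs
  let w : ι → (∀ α, Q α) → K := fun i x => ∑ k, u (Sum.inr (Sum.inl (i, k))) x *
    ∑ m' : {m // ¬ p m}, D m'.1 (J.piecewise x (y k)) *
      ((U m'.1).map (fun j => u (Sum.inr (Sum.inr (j, k))) x)).prod
  refine ⟨fun i => if ty i = J then w i else u (Sum.inl i), fun i => ?_, fun x hx' => ?_⟩
  · by_cases hi : ty i = J
    · simp only [hi, if_true]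
      intro x z hxz
      refine Finset.sum_congr rfl fun k _ => ?_
      congr 1
      · exact hu _ (by simp [ty'])
      · refine Finset.sum_congr rfl fun m' _ => ?_
        congr 1
        · congr 1
          funext α
          by_cases hJ : α ∈ J
          · rw [piecewise_eq_of_mem _ _ _ hJ, piecewise_eq_of_mem _ _ _ hJ]
            exact hxz α hJ
          · rw [piecewise_eq_of_notMem _ _ _ hJ, piecewise_eq_of_notMem _ _ _ hJ]
        · congr 1
          refine Multiset.map_congr rfl fun j _ => hu _ fun α hα => ?_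
          simp only [ty'] at hα
          split_ifs at hα
          · simp at hα
          · exact hxz α (mem_inter.1 hα).2
    · simp only [hi, if_false]
      have := hu (Sum.inl i)
      simpa only [ty', hi, if_false] using this
  · have := hx x hx'
    rw [split'] at this
    rw [split h, ← this]
    congr 1
    · refine Finset.sum_congr rfl fun m _ => ?_
      congr 2
      refine Multiset.map_congr rfl fun j hj => ?_
      simp only [h.h0 m.1 m.2 j hj, if_false]
    · refine Finset.sum_congr rfl fun m _ => ?_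
      congr 1
      · simp only [h.h1 m, if_true, w]
      · congr 2
        refine Multiset.map_congr rfl fun j hj => ?_
        simp only [h.h6 m j hj, if_false]

open Classical in
noncomputable def Wv {K : Type} [Field K] [Fintype M] {Q : Fin d → Type} {p : M → Prop}
    [DecidablePred p] (π : {m // p m} → ι) (V : {m // p m} → Multiset ι)
    (D : M → (∀ α, Q α) → K) (u : ι → (∀ α, Q α) → K) (x : ∀ α, Q α) (i : ι) : K :=
  ∑ m : {m // p m}, if π m = i then D m.1 x * ((V m).map (fun j => u j x)).prod else 0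

lemma sum_Wv {K : Type} [Field K] [Fintype M] [Fintype ι] {Q : Fin d → Type} {p : M → Prop}
    [DecidablePred p] (π : {m // p m} → ι) (V : {m // p m} → Multiset ι)
    (D : M → (∀ α, Q α) → K) (u : ι → (∀ α, Q α) → K) (x : ∀ α, Q α) (c : ι → K) :
    ∑ i, c i * Wv π V D u x i =
      ∑ m : {m // p m}, c (π m) * (D m.1 x * ((V m).map (fun j => u j x)).prod) := by
  classical
  simp only [Wv, Finset.mul_sum]
  rw [Finset.sum_comm]
  refine Finset.sum_congr rfl fun m _ => ?_
  simp only [mul_ite, mul_zero]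
  rw [Finset.sum_ite_eq]
  simp

lemma up {K : Type} [Field K] [Fintype M] [Fintype ι] {Q : Fin d → Type}
    {ty : ι → Finset (Fin d)} {A : M → Finset (Fin d)} {U : M → Multiset ι}
    {J : Finset (Fin d)} {p : M → Prop} [DecidablePred p] {π : {m // p m} → ι}
    {V : {m // p m} → Multiset ι} (h : Sel ty A U J p π V) {D : M → (∀ α, Q α) → K}
    (hD : ∀ m, DependsOn (D m) (A m : Set (Fin d)))
    (y : ι → ∀ α, Q α) (X : ∀ α, Set (Q α)) (hy : ∀ k α, y k α ∈ X α)
    (u : ι → (∀ α, Q α) → K) (hu : ∀ i, DependsOn (u i) (ty i : Set (Fin d)))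
    (hx : ∀ x : ∀ α, Q α, (∀ α, x α ∈ X α) →
      ∑ m, D m x * ((U m).map (fun i => u i x)).prod = 0)
    (hsp : ∀ x : ∀ α, Q α, (∀ α, x α ∈ X α) →
      Wv π V D u x ∈ Submodule.span K (Set.range (fun k => Wv π V D u (y k)))) :
    Solv (ty' ty J) (U' U p π V) (D' D J p y) X := by
  obtain ⟨L, hL⟩ := ginv (fun k => Wv π V D u (y k))
  let u' : ι ⊕ (ι × ι) ⊕ (ι × ι) → (∀ α, Q α) → K := fun j =>
    match j with
    | Sum.inl i => if ty i = J then 0 else u i
    | Sum.inr (Sum.inl q) => fun _ => - L q.1 q.2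
    | Sum.inr (Sum.inr q) => if ty q.1 = J then 0 else fun x => u q.1 (J.piecewise x (y q.2))
  refine ⟨u', ?_, fun x hx' => ?_⟩
  · rintro (i | q | q)
    · simp only [u', ty']
      split_ifs
      · intro x z _; rfl
      · exact hu i
    · intro x z _; rfl
    · simp only [u', ty']
      split_ifs
      · intro x z _; rfl
      · intro x z hxz
        refine hu _ fun α hα => ?_
        by_cases hJ : α ∈ J
        · rw [piecewise_eq_of_mem _ _ _ hJ, piecewise_eq_of_mem _ _ _ hJ]
          exact hxz α (by simp [show α ∈ ty q.1 from hα, hJ])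
        · rw [piecewise_eq_of_notMem _ _ _ hJ, piecewise_eq_of_notMem _ _ _ hJ]
  · rw [split']
    let R : (∀ α, Q α) → K := fun z =>
      ∑ m : {m // ¬ p m}, D m.1 z * ((U m.1).map (fun i => u i z)).prod
    have hR : ∀ k, R (J.piecewise x (y k)) = - ∑ j, u j x * Wv π V D u (y k) j := by
      intro k
      have hz : ∀ α, J.piecewise x (y k) α ∈ X α := by
        intro α
        by_cases hJ : α ∈ J
        · rw [piecewise_eq_of_mem _ _ _ hJ]; exact hx' α
        · rw [piecewise_eq_of_notMem _ _ _ hJ]; exact hy k α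
      have := hx _ hz
      rw [split h] at this
      rw [sum_Wv, eq_neg_iff_add_eq_zero, ← this]
      congr 1
      refine Finset.sum_congr rfl fun m _ => ?_
      congr 1
      · refine hu _ fun α hα => ?_
        rw [h.h1 m] at hα
        rw [piecewise_eq_of_mem _ _ _ hα]
      · congr 1
        · refine hD _ fun α hα => ?_
          rw [piecewise_eq_of_notMem _ _ _ (fun hJ => h.h4 m α hJ hα)]
        · congr 1
          refine Multiset.map_congr rfl fun j hj => hu _ fun α hα => ?_
          rw [piecewise_eq_of_notMem _ _ _ (fun hJ => h.h3 m j hj α hJ hα)]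
    have h1 := hx x hx'
    rw [split h, ← sum_Wv π V D u x (fun i => u i x), ← hL _ _ (hsp x hx'), sum_Wv] at h1
    rw [← h1]
    congr 1
    · refine Finset.sum_congr rfl fun m _ => ?_
      congr 2
      refine Multiset.map_congr rfl fun j hj => ?_
      simp only [u', h.h0 m.1 m.2 j hj, if_false]
    · refine Finset.sum_congr rfl fun m _ => ?_
      congr 1
      · refine Finset.sum_congr rfl fun k _ => ?_
        have e : ∑ m' : {m // ¬ p m}, D m'.1 (J.piecewise x (y k)) *
            ((U m'.1).map (fun i => u' (Sum.inr (Sum.inr (i, k))) x)).prod =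
            R (J.piecewise x (y k)) := by
          refine Finset.sum_congr rfl fun m' _ => ?_
          congr 2
          refine Multiset.map_congr rfl fun j hj => ?_
          simp only [u', h.h0 m'.1 m'.2 j hj, if_false]
        rw [e, hR]
        simp only [u']
        ring
      · congr 2
        refine Multiset.map_congr rfl fun j hj => ?_
        simp only [u', h.h6 m j hj, if_false]

end Pool.Agent.H14.Rk
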