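import Pool.Agent.H14.Rk2
set_option autoImplicit false

namespace Pool.Agent.H14.Rk
open Finset

variable {d : ℕ}

lemma step {ι M : Type} [Fintype M] [Fintype ι]
    {ty : ι → Finset (Fin d)} {A : M → Finset (Fin d)} {U : M → Multiset ι}
    {J : Finset (Fin d)} {p : M → Prop} [DecidablePred p] {π : {m // p m} → ι}
    {V : {m // p m} → Multiset ι} (h : Sel ty A U J p π V)
    (ih : Helly (ty' ty J) (A' (ι := ι) A J p) (U' U p π V)) : Helly ty A U := by
  classical
  obtain ⟨N, hN⟩ := ih
  let c : ℕ → ℕ := fun t => Nat.rec 1 (fun _ s => s + (s ^ d) ^ Fintype.card ι * N) t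
  have hc : ∀ t, c (t + 1) = c t + (c t ^ d) ^ Fintype.card ι * N := fun t => rfl
  refine ⟨c (Fintype.card ι + 1), fun K _ Q _ D hD hn => ?_⟩
  have hB : ∀ y : ι → ∀ α, Q α, ∃ X : ∀ α, Finset (Q α), (∀ α, (X α).card ≤ N) ∧
      ¬ Solv (ty' ty J) (U' U p π V) (D' D J p y) (fun α => (X α : Set (Q α))) :=
    fun y => hN K Q _ (dep' hD J p y) (fun hs => hn (down h y _ hs))
  choose B hB hB' using hB
  let q0 : ∀ α, Q α := fun α => Classical.arbitrary _
  let X : ℕ → ∀ α, Finset (Q α) := fun t => Nat.rec (fun α => {q0 α})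
    (fun _ Y α => Y α ∪ (Fintype.piFinset (fun _ : ι => Fintype.piFinset Y)).biUnion
      (fun y => B y α)) t
  have hX : ∀ t α, X (t + 1) α = X t α ∪
      (Fintype.piFinset (fun _ : ι => Fintype.piFinset (X t))).biUnion (fun y => B y α) :=
    fun t α => rfl
  have hcard : ∀ t α, (X t α).card ≤ c t := by
    intro t
    induction t with
    | zero => intro α; exact le_of_eq (card_singleton _)
    | succ t iht =>
      intro α
      rw [hX, hc]
      refine (card_union_le _ _).trans (Nat.add_le_add (iht α) ?_)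
      refine (card_biUnion_le_card_mul _ _ N (fun y _ => hB y α)).trans ?_
      refine Nat.mul_le_mul_right _ ?_
      rw [Fintype.card_piFinset, prod_const, card_univ]
      refine Nat.pow_le_pow_left ?_ _
      rw [Fintype.card_piFinset]
      refine (prod_le_pow_card _ _ (c t) (fun β _ => iht β)).trans ?_
      simp
  have hmono : ∀ t α, X t α ⊆ X (t + 1) α := fun t α => by
    rw [hX]; exact subset_union_left
  have hmono' : ∀ α, Monotone (fun t => X t α) := fun α =>
    monotone_nat_of_le_succ (fun t => hmono t α)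
  refine ⟨X (Fintype.card ι + 1), hcard (Fintype.card ι + 1), fun hs => ?_⟩
  obtain ⟨u, hu, hx⟩ := hs
  obtain ⟨t, ht, y, hy, hsp⟩ := chain (Wv π V D u) (fun t => {x | ∀ α, x α ∈ X t α})
    (fun t x hx α => hmono t α (hx α)) ⟨q0, fun α => mem_singleton_self _⟩
  refine hB' y (Solv.mono (Y := fun α => (X (t + 1) α : Set (Q α))) ?_ ?_)
  · refine up h hD y _ (fun k α => hmono t α (hy k α)) u hu (fun x hx' => hx x fun α => ?_) hsp
    exact hmono' α (Nat.add_le_add_right ht 1) (hx' α)
  · intro α q hq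
    simp only [mem_coe] at hq ⊢
    rw [hX]
    refine mem_union_right _ (mem_biUnion.2 ⟨y, ?_, hq⟩)
    simp only [Fintype.mem_piFinset]
    exact fun k β => hy k β

theorem helly (n : ℕ) : ∀ (𝒥 : Finset (Finset (Fin d))), 𝒥.card = n → ∅ ∉ 𝒥 →
    (∀ I ∈ 𝒥, ∀ I' ⊆ I, I' = ∅ ∨ I' ∈ 𝒥) →
    ∀ (ι M : Type) [Fintype ι] [Fintype M] (ty : ι → Finset (Fin d)) (A : M → Finset (Fin d))
      (U : M → Multiset ι), (∀ i, ty i = ∅ ∨ ty i ∈ 𝒥) → Good ty A U → Helly ty A U := by
  induction n with
  | zero =>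
    intro 𝒥 hc _ _ ι M _ _ ty A U ht _
    rw [card_eq_zero] at hc
    refine base ty A U fun i => ?_
    rcases ht i with h | h
    · exact h
    · simp [hc] at h
  | succ n ih =>
    intro 𝒥 hc h0 hl ι M _ _ ty A U ht hg
    classical
    obtain ⟨J, hJ, hmax⟩ := exists_max_image 𝒥 card (card_pos.1 (by omega))
    have hJne : J.Nonempty := nonempty_iff_ne_empty.2 fun e => h0 (e ▸ hJ)
    have hsub : ∀ I ∈ 𝒥, J ⊆ I → I = J := fun I hI hJI =>
      (eq_of_subset_of_card_le hJI (hmax I hI)).symm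
    obtain ⟨p, π, V, hs⟩ := exists_sel ty A U hg J hJne
    refine step hs (ih (𝒥.erase J) (by rw [card_erase_of_mem hJ]; omega)
      (fun h => h0 (mem_of_mem_erase h)) ?_ _ _ _ _ _ ?_ (good' hs hg))
    · intro I hI I' hI'
      rcases hl I (mem_of_mem_erase hI) I' hI' with h | h
      · exact Or.inl h
      · refine Or.inr (mem_erase.2 ⟨fun e => ?_, h⟩)
        exact (mem_erase.1 hI).1 (hsub I (mem_of_mem_erase hI) (e ▸ hI'))
    · rintro (i | q | q)
      · simp only [ty']
        split_ifs with hi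
        · exact Or.inl rfl
        · rcases ht i with h | h
          · exact Or.inl h
          · exact Or.inr (mem_erase.2 ⟨hi, h⟩)
      · exact Or.inl rfl
      · simp only [ty']
        split_ifs with hi
        · exact Or.inl rfl
        · rcases hl J hJ (ty q.1 ∩ J) inter_subset_right with h | h
          · exact Or.inl h
          · refine Or.inr (mem_erase.2 ⟨fun e => ?_, h⟩)
            have hJI : J ⊆ ty q.1 := e ▸ inter_subset_left
            rcases ht q.1 with h' | h'
            · rw [h'] at hJI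
              exact hJne.ne_empty (subset_empty.1 hJI)
            · exact hi (hsub _ h' hJI)

theorem helly' {ι M : Type} [Fintype ι] [Fintype M] (ty : ι → Finset (Fin d))
    (A : M → Finset (Fin d)) (U : M → Multiset ι) (hg : Good ty A U) : Helly ty A U := by
  refine helly _ (univ.erase ∅) rfl (by simp) (fun I _ I' _ => ?_) ι M ty A U (fun i => ?_) hg
  · by_cases h : I' = ∅
    · exact Or.inl h
    · exact Or.inr (by simp [h])
  · by_cases h : ty i = ∅
    · exact Or.inl h
    · exact Or.inr (by simp [h])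

abbrev Pt (d : ℕ) := Finpartition (univ : Finset (Fin d))

def Uf {k : ℕ} (P : Fin k → Pt d) : Option (Fin k) → Multiset (Fin k × Finset (Fin d))
  | none => 0
  | some i => (P i).parts.val.map (fun I => (i, I))

def Af (d k : ℕ) : Option (Fin k) → Finset (Fin d)
  | none => univ
  | some _ => ∅

def Df {K : Type} [Field K] {Q : Fin d → Type} (k : ℕ) (T : (∀ α, Q α) → K) :
    Option (Fin k) → (∀ α, Q α) → K
  | none => T
  | some _ => fun _ => -1

lemma goodf {k : ℕ} (P : Fin k → Pt d) : Good Prod.snd (Af d k) (Uf P) := by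
  rintro (_ | i) α
  · simp [Uf, Af]
  · simp only [Uf, Af, countP_map', notMem_empty, if_false, add_zero]
    rw [Multiset.countP_eq_card_filter]
    change ((P i).parts.filter (fun I => α ∈ I)).card ≤ 1
    refine card_le_one.2 fun a ha b hb => ?_
    rw [mem_filter] at ha hb
    exact (P i).eq_of_mem_parts ha.1 hb.1 ha.2 hb.2

lemma depf {K : Type} [Field K] {Q : Fin d → Type} (k : ℕ) (T : (∀ α, Q α) → K) (m) :
    DependsOn (Df k T m) (Af d k m : Set (Fin d)) := by
  rcases m with _ | i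
  · intro x z hxz
    have : x = z := funext fun α => hxz α (by simp [Af])
    rw [this]
  · intro x z _; rfl

lemma eqf {K : Type} [Field K] {Q : Fin d → Type} {k : ℕ} (P : Fin k → Pt d)
    (T : (∀ α, Q α) → K) (x : ∀ α, Q α) (v : Fin k × Finset (Fin d) → K) :
    ∑ m, Df k T m x * ((Uf P m).map v).prod = T x - ∑ i, ∏ I ∈ (P i).parts, v (i, I) := by
  rw [Fintype.sum_option, sub_eq_add_neg, ← Finset.sum_neg_distrib]
  congr 1
  · simp [Df, Uf]
  · refine Finset.sum_congr rfl fun i _ => ?_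
    simp only [Df, Uf, Multiset.map_map, neg_mul, one_mul]
    rfl

theorem main (R : Set (Pt d)) :
  ∃ F : ℕ → ℕ, ∀ (l : ℕ) (K : Type) [Field K] (Q : Fin d → Type)
    [∀ α, Nonempty (Q α)] (T : (∀ α, Q α) → K),
    (∀ k < l, ¬ ∃ S : Fin k → ((∀ α, Q α) → K),
        (∀ i, ∃ P ∈ R, ∃ a : ∀ I : Finset (Fin d), (∀ β : {γ // γ ∈ I}, Q β.1) → K,
            ∀ x : (∀ α, Q α), S i x = ∏ I ∈ P.parts, a I (fun β => x β.1)) ∧
        T = ∑ i, S i) →
    ∃ X : ∀ α, Finset (Q α), (∀ α, (X α).card ≤ F l) ∧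
      ∀ k < l, ¬ ∃ S : Fin k → ((∀ α, {q // q ∈ X α}) → K),
        (∀ i, ∃ P ∈ R, ∃ a : ∀ I : Finset (Fin d), (∀ β : {γ // γ ∈ I}, {q // q ∈ X β.1}) → K,
            ∀ y : (∀ α, {q // q ∈ X α}), S i y = ∏ I ∈ P.parts, a I (fun β => y β.1)) ∧
        (fun y => T (fun α => (y α).1)) = ∑ i, S i := by
  classical
  have H : ∀ (k : ℕ) (P : Fin k → Pt d), Helly Prod.snd (Af d k) (Uf P) :=
    fun k P => helly' _ _ _ (goodf P)
  choose N hN using H
  refine ⟨fun l => ∑ s : (k : Fin l) × (Fin k → Pt d), N s.1 s.2, ?_⟩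
  intro l K _ Q _ T hT
  have hB : ∀ s : (k : Fin l) × (Fin k → Pt d), ∃ X : ∀ α, Finset (Q α),
      (∀ α, (X α).card ≤ N s.1 s.2) ∧ ((∀ i, s.2 i ∈ R) →
        ¬ Solv Prod.snd (Uf s.2) (Df s.1 T) (fun α => (X α : Set (Q α)))) := by
    rintro ⟨k, P⟩
    by_cases hP : ∀ i, P i ∈ R
    · have : ¬ Solv Prod.snd (Uf P) (Df k T) (fun _ => Set.univ) := by
        rintro ⟨u, hu, hx⟩
        refine hT k k.2 ⟨fun i x => ∏ I ∈ (P i).parts, u (i, I) x, fun i => ⟨P i, hP i,
          fun I z => u (i, I) (fun α => if h : α ∈ I then z ⟨α, h⟩ else Classical.arbitrary _),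
          fun x => ?_⟩, ?_⟩
        · refine Finset.prod_congr rfl fun I _ => hu (i, I) fun α hα => ?_
          rw [dif_pos (show α ∈ I from hα)]
        · funext x
          have := hx x (fun _ => Set.mem_univ _)
          rw [eqf, sub_eq_zero] at this
          rw [this, Finset.sum_apply]
      obtain ⟨X, hX, hX'⟩ := hN k P K Q _ (depf k T) this
      exact ⟨X, hX, fun _ => hX'⟩
    · exact ⟨fun _ => ∅, fun _ => by simp, fun h => absurd h hP⟩
  choose B hB hB' using hB
  refine ⟨fun α => univ.biUnion (fun s => B s α), fun α => ?_, ?_⟩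
  · exact card_biUnion_le.trans (Finset.sum_le_sum fun s _ => hB s α)
  · rintro k hk ⟨S, hS, hTS⟩
    choose P hP a ha using hS
    refine hB' ⟨⟨k, hk⟩, P⟩ hP (Solv.mono
      (Y := fun α => ((univ.biUnion (fun s => B s α) : Finset (Q α)) : Set (Q α))) ?_ ?_)
    · refine ⟨fun j x => if h : ∀ β ∈ j.2, x β ∈ univ.biUnion (fun s => B s β) then
        a j.1 j.2 (fun β => ⟨x β.1, h β.1 β.2⟩) else 0, fun j x z hxz => ?_, fun x hx => ?_⟩
      · by_cases h : ∀ β ∈ j.2, x β ∈ univ.biUnion (fun s => B s β)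
        · have h' : ∀ β ∈ j.2, z β ∈ univ.biUnion (fun s => B s β) :=
            fun β hβ => hxz β hβ ▸ h β hβ
          simp only [dif_pos h, dif_pos h']
          congr 1
          funext β
          exact Subtype.ext (hxz β.1 β.2)
        · have h' : ¬ ∀ β ∈ j.2, z β ∈ univ.biUnion (fun s => B s β) :=
            fun h' => h fun β hβ => (hxz β hβ).symm ▸ h' β hβ
          simp only [dif_neg h, dif_neg h']
      · rw [eqf, sub_eq_zero]
        have := congrFun hTS (fun α => ⟨x α, hx α⟩)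
        simp only [Finset.sum_apply] at this
        rw [this]
        refine Finset.sum_congr rfl fun i _ => ?_
        rw [ha]
        refine Finset.prod_congr rfl fun I _ => ?_
        have h' : ∀ β ∈ I, x β ∈ univ.biUnion (fun s => B s β) := fun β _ => hx β
        simp only [dif_pos h']
    · intro α q hq
      simp only [mem_coe] at hq ⊢
      exact mem_biUnion.2 ⟨_, mem_univ _, hq⟩

end Pool.Agent.H14.Rk
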