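import Mathlib

set_option maxHeartbeats 400000

namespace Pool.Agent.H14.Rl

open SimpleGraph

section game
variable {W : Type} (H : SimpleGraph W)

/-- a robber trajectory: stay put or move to a neighbour -/
def Traj (r : ℕ → W) : Prop := ∀ t, r (t + 1) = r t ∨ H.Adj (r t) (r (t + 1))

/-- the answers of the first `t` rounds when the cop probes by `σ` and the robber follows `r` -/
noncomputable def ans (σ : List ℕ → W) (r : ℕ → W) : ℕ → List ℕ
  | 0 => []
  | t + 1 => H.dist (σ (ans σ r t)) (r t) :: ans σ r t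

/-- some probing strategy determines the current position of every robber after finitely many rounds -/
def CopWin : Prop := ∃ σ : List ℕ → W, ∀ r, Traj H r → ∃ t, ∀ r', Traj H r' →
  ans H σ r' (t + 1) = ans H σ r (t + 1) → r' t = r t

theorem robber [Finite W] (F : Set W → Prop) (h2 : ∀ S, F S → S.Nontrivial)
    (h0 : ∀ p, ∃ S, F S ∧ ∃ n, ∀ y ∈ S, H.dist p y = n)
    (hs : ∀ S, F S → ∀ p, ∃ S', F S' ∧ (∀ y ∈ S', ∃ x ∈ S, y = x ∨ H.Adj x y) ∧
      ∃ n, ∀ y ∈ S', H.dist p y = n) : ¬ CopWin H := by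
  rintro ⟨σ, hσ⟩
  choose S0 a0 n0 b0 using h0
  choose S1 a1 c1 n1 b1 using hs
  let st : ℕ → {S // F S} × List ℕ := fun t => Nat.rec (⟨S0 (σ []), a0 _⟩, [n0 (σ [])])
    (fun _ z => (⟨S1 z.1.1 z.1.2 (σ z.2), a1 _ _ _⟩, n1 z.1.1 z.1.2 (σ z.2) :: z.2)) t
  have hans : ∀ (r : ℕ → W) t, (∀ i ≤ t, r i ∈ (st i).1.1) → ans H σ r (t + 1) = (st t).2 := by
    intro r t
    induction t with
    | zero => intro h; exact congrArg (· :: []) (b0 _ _ (h 0 le_rfl))
    | succ t ih =>
      intro h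
      rw [ans, ih fun i hi => h i (by omega)]
      exact congrArg (· :: (st t).2) (b1 _ _ _ _ (h (t + 1) le_rfl))
  have hfin : ∀ t, ∀ y ∈ (st t).1.1, ∃ r, Traj H r ∧ (∀ i ≤ t, r i ∈ (st i).1.1) ∧ r t = y := by
    intro t
    induction t with
    | zero => exact fun y hy => ⟨fun _ => y, fun _ => .inl rfl, fun i hi => by
        obtain rfl : i = 0 := by omega
        exact hy, rfl⟩
    | succ t ih =>
      intro y hy
      obtain ⟨x, hx, hxy⟩ := c1 _ _ _ y hy
      obtain ⟨r, h1, h2, h3⟩ := ih x hx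
      refine ⟨fun i => if i ≤ t then r i else y, fun i => ?_, fun i hi => ?_, by simp⟩
      · rcases lt_trichotomy i t with h | rfl | h
        · simpa [h.le, Nat.succ_le_of_lt h] using h1 i
        · simpa [h3] using hxy
        · simp [h.not_ge, show ¬ i + 1 ≤ t by omega]
      · by_cases h : i ≤ t
        · simpa [h] using h2 i h
        · obtain rfl : i = t + 1 := by omega
          simpa using hy
  letI : TopologicalSpace W := ⊥
  haveI : DiscreteTopology W := ⟨rfl⟩
  have hcl : ∀ t, IsClosed {r : ℕ → W | Traj H r ∧ ∀ i ≤ t, r i ∈ (st i).1.1} := by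
    intro t
    simp only [Traj, Set.setOf_and, Set.setOf_forall]
    refine (isClosed_iInter fun i => ?_).inter (isClosed_iInter fun i => isClosed_iInter fun _ =>
      (isClosed_discrete _).preimage (continuous_apply i))
    exact IsClosed.preimage (f := fun r : ℕ → W => (r i, r (i + 1)))
      ((continuous_apply i).prodMk (continuous_apply (i + 1)))
      (isClosed_discrete {z : W × W | z.2 = z.1 ∨ H.Adj z.1 z.2})
  obtain ⟨r, hr⟩ := IsCompact.nonempty_iInter_of_sequence_nonempty_isCompact_isClosed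
    (fun t => {r : ℕ → W | Traj H r ∧ ∀ i ≤ t, r i ∈ (st i).1.1})
    (fun t r hr => ⟨hr.1, fun i hi => hr.2 i (by omega)⟩)
    (fun t => by
      obtain ⟨y, hy⟩ := (h2 _ (st t).1.2).nonempty
      obtain ⟨r, h1, h2, -⟩ := hfin t y hy
      exact ⟨r, h1, h2⟩) (hcl 0).isCompact hcl
  simp only [Set.mem_iInter, Set.mem_setOf_eq] at hr
  obtain ⟨t, ht⟩ := hσ r (hr 0).1
  obtain ⟨y, hy, hne⟩ := (h2 _ (st t).1.2).exists_ne (r t)
  obtain ⟨r', h1, h2, h3⟩ := hfin t y hy
  exact hne (h3 ▸ ht r' h1 (by rw [hans _ _ h2, hans _ _ (hr t).2]))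

end game

variable {V : Type}

/-- the point at distance `s` from `a` on the path of length `m` that replaces the edge `ab` -/
def pt (m : ℕ) (a b : V) (s : ℕ) : V ⊕ Sym2 (V × ℕ) :=
  if s = 0 then .inl a else if s = m then .inl b else .inr s((a, s), (b, m - s))

/-- vertices of `G^{1/m}`: the vertices of `G` and the `m - 1` inner points of each edge -/
def Sub (G : SimpleGraph V) (m : ℕ) : Type :=
  {x : V ⊕ Sym2 (V × ℕ) // (∃ a, x = .inl a) ∨ ∃ a b s, G.Adj a b ∧ s ≤ m ∧ x = pt m a b s}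

/-- the graph `G^{1/m}`: consecutive points of the path replacing an edge are adjacent -/
def sub (G : SimpleGraph V) (m : ℕ) : SimpleGraph (Sub G m) :=
  fromRel fun x y => ∃ a b s, G.Adj a b ∧ s < m ∧ x.1 = pt m a b s ∧ y.1 = pt m a b (s + 1)

variable {G : SimpleGraph V} {m : ℕ}

def br (G : SimpleGraph V) (m : ℕ) (a : V) : Sub G m := ⟨.inl a, .inl ⟨a, rfl⟩⟩

open Classical in
noncomputable def P (G : SimpleGraph V) (m : ℕ) (a b : V) (s : ℕ) : Sub G m :=
  if h : G.Adj a b ∧ s ≤ m then ⟨pt m a b s, .inr ⟨a, b, s, h.1, h.2, rfl⟩⟩ else br G m a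

theorem P_val {a b : V} (h : G.Adj a b) {s : ℕ} (hs : s ≤ m) : (P G m a b s).1 = pt m a b s := by
  rw [P, dif_pos ⟨h, hs⟩]

theorem P_zero {a b : V} (h : G.Adj a b) : P G m a b 0 = br G m a :=
  Subtype.ext (by rw [P_val h (Nat.zero_le _)]; rfl)

theorem pt_symm (hm : 0 < m) (a b : V) {s : ℕ} (hs : s ≤ m) : pt m a b s = pt m b a (m - s) := by
  unfold pt
  split_ifs <;> first | rfl | omega | skip
  rw [Sym2.eq_swap, Nat.sub_sub_self hs]

theorem P_symm (hm : 0 < m) {a b : V} (h : G.Adj a b) {s : ℕ} (hs : s ≤ m) :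
    P G m a b s = P G m b a (m - s) :=
  Subtype.ext (by rw [P_val h hs, P_val h.symm (by omega), pt_symm hm _ _ hs])

theorem P_last (hm : 0 < m) {a b : V} (h : G.Adj a b) : P G m a b m = br G m b := by
  rw [P_symm hm h le_rfl, Nat.sub_self, P_zero h.symm]

theorem pt_inj {u v a b : V} {s t : ℕ} (h0 : 0 < s) (h1 : s < m) (ht : t ≤ m)
    (e : pt m u v s = pt m a b t) : (a = u ∧ b = v ∧ t = s) ∨ (a = v ∧ b = u ∧ t = m - s) := by
  unfold pt at e
  split_ifs at e <;> first | omega | skip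
  simp only [Sum.inr.injEq, Sym2.eq_iff, Prod.mk.injEq] at e
  rcases e with ⟨⟨rfl, rfl⟩, rfl, -⟩ | ⟨⟨rfl, _⟩, rfl, rfl⟩ <;> simp

theorem P_adj {a b : V} (h : G.Adj a b) {s : ℕ} (hs : s < m) :
    (sub G m).Adj (P G m a b s) (P G m a b (s + 1)) := by
  refine (fromRel_adj _ _ _).2 ⟨fun e => ?_, .inl ⟨a, b, s, h, hs, P_val h hs.le, P_val h hs⟩⟩
  have e := congrArg Subtype.val e
  rw [P_val h hs.le, P_val h hs] at e
  have := h.ne
  rcases Nat.eq_zero_or_pos s with rfl | h0
  · unfold pt at e; split_ifs at e <;> simp_all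
  · rcases pt_inj h0 hs hs e with h | h
    · omega
    · exact this h.1

theorem adj_cases (hm : 0 < m) {x y : Sub G m} (h : (sub G m).Adj x y) :
    ∃ a b s, G.Adj a b ∧ s < m ∧ x = P G m a b s ∧ y = P G m a b (s + 1) := by
  obtain ⟨-, ⟨a, b, s, h1, h2, h3, h4⟩ | ⟨a, b, s, h1, h2, h3, h4⟩⟩ := (fromRel_adj _ _ _).1 h
  · exact ⟨a, b, s, h1, h2, Subtype.ext (by rw [h3, P_val h1 h2.le]), Subtype.ext (by rw [h4, P_val h1 h2])⟩
  · refine ⟨b, a, m - (s + 1), h1.symm, by omega, Subtype.ext ?_, Subtype.ext ?_⟩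
    · rw [h4, P_val h1.symm (by omega), pt_symm hm _ _ h2]
    · rw [h3, P_val h1.symm (by omega), pt_symm hm _ _ h2.le]; congr 1; omega

theorem reach {a b : V} (h : G.Adj a b) (s : ℕ) (hs : s ≤ m) :
    (sub G m).Reachable (br G m a) (P G m a b s) := by
  induction s with
  | zero => rw [P_zero h]
  | succ s ih => exact (ih (by omega)).trans (P_adj h hs).reachable

theorem conn (hm : 0 < m) (hG : G.Connected) : (sub G m).Connected := by
  have h1 : ∀ a b, (sub G m).Reachable (br G m a) (br G m b) := by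
    intro a b
    obtain ⟨w⟩ := hG a b
    induction w with
    | nil => rfl
    | cons h _ ih => exact (P_last hm h ▸ reach h m le_rfl).trans ih
  have h2 : ∀ x : Sub G m, ∃ a, (sub G m).Reachable (br G m a) x := by
    rintro ⟨x, ⟨a, rfl⟩ | ⟨a, b, s, h, hs, rfl⟩⟩
    · exact ⟨a, .rfl⟩
    · exact ⟨a, (Subtype.ext (P_val h hs) : P G m a b s = ⟨_, _⟩) ▸ reach h s hs⟩
  obtain ⟨a⟩ := hG.nonempty
  haveI : Nonempty (Sub G m) := ⟨br G m a⟩
  refine ⟨fun x y => ?_⟩
  obtain ⟨a, ha⟩ := h2 x; obtain ⟨b, hb⟩ := h2 y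
  exact ha.symm.trans ((h1 a b).trans hb)

theorem back {W : Type} {H : SimpleGraph W} (hH : H.Connected) {p x : W} (h : x ≠ p) :
    ∃ y, H.Adj x y ∧ H.dist p y + 1 ≤ H.dist p x := by
  obtain ⟨w, hw⟩ := hH.exists_walk_length_eq_dist x p
  cases w with
  | nil => exact absurd rfl h
  | cons h w => exact ⟨_, h, by
      have := dist_le w; rw [dist_comm] at this; rw [dist_comm (u := p) (v := x), ← hw]; simpa⟩

theorem step {W : Type} {H : SimpleGraph W} (hH : H.Connected) (p : W) {x y : W} (h : H.Adj x y) :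
    H.dist p y ≤ H.dist p x + 1 := by
  have := hH.dist_triangle (u := p) (v := x) (w := y)
  rwa [dist_eq_one_iff_adj.2 h] at this

theorem dist_up (hm : 0 < m) (hG : G.Connected) (p) {a b : V} (h : G.Adj a b) (s : ℕ) (hs : s ≤ m) :
    (sub G m).dist p (P G m a b s) ≤ (sub G m).dist p (br G m a) + s := by
  induction s with
  | zero => rw [P_zero h]; rfl
  | succ s ih => have := step (conn hm hG) p (P_adj h hs); have := ih (by omega); omega

theorem dist_P (hm : 0 < m) (hG : G.Connected) {u v : V} (h : G.Adj u v) (p)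
    (hp : ∀ s, 0 < s → s < m → P G m u v s ≠ p) (s : ℕ) (hs : s ≤ m) :
    (sub G m).dist p (P G m u v s) =
      min ((sub G m).dist p (br G m u) + s) ((sub G m).dist p (br G m v) + (m - s)) := by
  refine le_antisymm (le_min (dist_up hm hG p h s hs)
    (by rw [P_symm hm h hs]; exact dist_up hm hG p h.symm _ (by omega))) ?_
  generalize hn : (sub G m).dist p (P G m u v s) = n
  induction n using Nat.strong_induction_on generalizing s with
  | _ n ih =>
  rcases Nat.eq_zero_or_pos s with rfl | h0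
  · rw [P_zero h] at hn; omega
  rcases hs.eq_or_lt with rfl | h1
  · rw [P_last hm h] at hn; omega
  obtain ⟨y, hy, hd⟩ := back (conn hm hG) (hp s h0 h1)
  obtain ⟨a, b, t, h2, h3, h4, rfl⟩ := adj_cases hm hy
  have e := congrArg Subtype.val h4
  rw [P_val h hs, P_val h2 h3.le] at e
  rcases pt_inj h0 h1 h3.le e with ⟨rfl, rfl, rfl⟩ | ⟨rfl, rfl, rfl⟩
  · have := ih _ (by omega) (t + 1) h1 rfl; omega
  · rw [P_symm hm h2 (s := m - s + 1) h3, show m - (m - s + 1) = s - 1 by omega] at hd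
    have := ih _ (by omega) (s - 1) (by omega) rfl; omega

theorem P_ne_br {u v : V} (h : G.Adj u v) (x : V) (s : ℕ) (h0 : 0 < s) (h1 : s < m) :
    P G m u v s ≠ br G m x := fun e => by
  have e := congrArg Subtype.val e
  rw [P_val h h1.le, pt, if_neg h0.ne', if_neg h1.ne] at e
  cases e

theorem br_inj {a b : V} (e : br G m a = br G m b) : a = b := Sum.inl.inj (congrArg Subtype.val e)

theorem dist_br (hm : 0 < m) (hG : G.Connected) {a x : V} (h : x ≠ a) :
    m ≤ (sub G m).dist (br G m a) (br G m x) := by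
  obtain ⟨y, hy, hd⟩ := back (conn hm hG) (p := br G m a) (x := br G m x) fun e => h (br_inj e)
  obtain ⟨c, b, t, h2, h3, h4, rfl⟩ := adj_cases hm hy
  obtain rfl : t = 0 := by
    by_contra h0; exact P_ne_br h2 x t (by omega) h3 h4.symm
  rw [P_zero h2] at h4
  rw [dist_P hm hG h2 _ (P_ne_br h2 a) _ h3, ← h4] at hd
  omega

theorem dist_adj (hm : 0 < m) (hG : G.Connected) {a x : V} (h : x = a ∨ G.Adj x a) :
    (sub G m).dist (br G m x) (br G m a) ≤ m := by
  rcases h with rfl | h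
  · simp
  · have := dist_up hm hG (br G m x) h m le_rfl
    rw [P_last hm h] at this; simpa using this

/-- lower bound, and upper bound for neighbours, of the distance from a point to a branch vertex -/
theorem dist_pt (hm : 0 < m) (hG : G.Connected) {a b : V} (h : G.Adj a b) {s : ℕ} (hs : s ≤ m) (x : V) :
    (x ≠ a → x ≠ b → min s (m - s) + m ≤ (sub G m).dist (P G m a b s) (br G m x)) ∧
    ((x = a ∨ G.Adj x a) → (x = b ∨ G.Adj x b) →
      (sub G m).dist (P G m a b s) (br G m x) ≤ min s (m - s) + m) := by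
  rw [dist_comm, dist_P hm hG h _ (P_ne_br h x) s hs]
  refine ⟨fun h1 h2 => ?_, fun h1 h2 => ?_⟩
  · have := dist_br hm hG h1.symm; have := dist_br hm hG h2.symm; omega
  · have := dist_adj hm hG h1; have := dist_adj hm hG h2; omega

theorem dist_far (hm : 0 < m) (hG : G.Connected) {a b u v : V} (h : G.Adj a b) (h' : G.Adj u v)
    {s t : ℕ} (hs : s ≤ m) (ht : t ≤ m) (h1 : v ≠ a) (h2 : v ≠ b) :
    (sub G m).dist (P G m a b s) (P G m u v t) = min ((sub G m).dist (P G m a b s) (br G m u) + t)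
      ((sub G m).dist (P G m a b s) (br G m v) + (m - t)) := by
  refine dist_P hm hG h' _ (fun r r0 r1 e => ?_) t ht
  have e := congrArg Subtype.val e
  rw [P_val h' r1.le, P_val h hs] at e
  rcases pt_inj r0 r1 hs e with e | e
  exacts [h2 e.2.1.symm, h1 e.1.symm]

theorem sub_finite [Finite V] : Finite (Sub G m) := by
  refine Finite.of_surjective (fun z : V × V × Fin (m + 1) => P G m z.1 z.2.1 z.2.2) ?_
  rintro ⟨x, ⟨a, rfl⟩ | ⟨a, b, s, h, hs, rfl⟩⟩
  · exact ⟨(a, a, 0), dif_neg fun h => G.irrefl h.1⟩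
  · exact ⟨(a, b, ⟨s, by omega⟩), Subtype.ext (P_val h hs)⟩

end Pool.Agent.H14.Rl
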