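import Mathlib
set_option autoImplicit false
set_option maxHeartbeats 400000

namespace Pool.Agent.H14.Rm
open Finset Classical

noncomputable def dg {n : ℕ} (G : SimpleGraph (Fin n)) (x : Fin n) : ℕ := #(univ.filter (G.Adj x))

lemma count {n : ℕ} (G : SimpleGraph (Fin n)) (K I : Finset (Fin n)) :
    ∑ x ∈ K, dg G x + ∑ y ∈ I, #(Kᶜ.filter (G.Adj y)) =
      ∑ x ∈ K, #(Iᶜ.filter (G.Adj x)) + ∑ y ∈ I, dg G y := by
  have e : ∀ (S : Finset (Fin n)) x, dg G x = #(S.filter (G.Adj x)) + #(Sᶜ.filter (G.Adj x)) :=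
    fun S x => by
      rw [dg, ← card_union_of_disjoint (disjoint_filter_filter disjoint_compl_right),
        ← filter_union, union_compl]
  have : ∑ x ∈ K, #(I.filter (G.Adj x)) = ∑ y ∈ I, #(K.filter (G.Adj y)) := by
    simp only [card_filter]
    rw [sum_comm]
    simp only [G.adj_comm]
  rw [sum_congr rfl fun x _ => e I x, sum_congr rfl fun x _ => e K x, sum_add_distrib,
    sum_add_distrib, this]
  ring

lemma core {n : ℕ} (M N : Fin n → Fin n) (hM : ∀ x, M (M x) = x) (hN : ∀ x, N (N x) = x)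
    (hN0 : ∀ x, N x ≠ x) (u : Fin n) (hu : ∀ x, x < u → M x = N x) (h1 : u < M u)
    (h2 : M u < N u) : ∃ G : SimpleGraph (Fin n), (∀ x, G.Adj x (N x)) ∧ Antitone (dg G) ∧
      ∀ G' : SimpleGraph (Fin n), (∀ x, G'.Adj x (M x)) → dg G' ≠ dg G := by
  have hu' : ∀ x, N x < u → M x = N x := fun x h => by
    have := hu _ h; rw [hN] at this; rw [← this, hM, this]
  have hp : u < N (M u) := by
    by_contra h
    rcases (not_lt.1 h).eq_or_lt with h | h
    · have := hN (M u); rw [h] at this; exact h2.ne' this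
    · have := hu' _ h; rw [hM] at this; exact h.ne' this
  obtain ⟨a, ⟨a1, a2⟩, a3⟩ := wellFounded_lt.has_min {x | u < x ∧ u < N x} ⟨M u, h1, hp⟩
  have ap : a ≤ M u := not_lt.1 (a3 _ ⟨h1, hp⟩)
  have a4 : ∀ z, u < z → z < a → N z < u := fun z z1 z2 => by
    have : N z ≤ u := not_lt.1 fun h => a3 z ⟨z1, h⟩ z2
    refine lt_of_le_of_ne this fun h => ?_
    have := hN z; rw [h] at this; grind
  have a5 : ¬ N a < a := fun h => by
    have := a4 _ a2 h; rw [hN] at this; grind
  obtain ⟨k, k1, k2⟩ := exists_max_image (Iio a) id ⟨u, mem_Iio.2 a1⟩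
  simp only [mem_Iio, id] at k1 k2
  set p := M u
  let G : SimpleGraph (Fin n) := SimpleGraph.fromRel fun x y => N x = y ∨
    (x < a ∧ (y ≤ p ∨ x ≠ k ∨ N y < a)) ∨ (x = a ∧ y ≤ p ∧ N y < a)
  have A : ∀ x y, G.Adj x y ↔ x ≠ y ∧ ((N x = y ∨ (x < a ∧ (y ≤ p ∨ x ≠ k ∨ N y < a)) ∨
      (x = a ∧ y ≤ p ∧ N y < a)) ∨ (N y = x ∨ (y < a ∧ (x ≤ p ∨ y ≠ k ∨ N x < a)) ∨
      (y = a ∧ x ≤ p ∧ N x < a))) := fun x y => SimpleGraph.fromRel_adj _ _ _
  clear_value G
  have d1 : ∀ x y, x < k → dg G y ≤ dg G x := fun x y h => by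
    refine (card_le_card (t := univ.erase y) fun z => ?_).trans
      (le_of_eq_of_le ?_ (card_le_card (s := univ.erase x) fun z => ?_))
    · simp only [mem_filter, mem_erase, mem_univ, A]; grind
    · simp
    · simp only [mem_filter, mem_erase, mem_univ, A]; grind
  have d2 : #(Iic p) ≤ dg G k := by
    refine le_of_eq_of_le ?_ (card_le_card (s := insert (N u) ((Iic p).erase k)) fun z => ?_)
    · rw [card_insert_of_notMem (by simp; grind), card_erase_add_one (by simp; grind)]
    · simp only [mem_filter, mem_erase, mem_univ, A, mem_insert, mem_Iic]; grind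
  have d3 : ∀ y, a ≤ y → y ≤ p → dg G y ≤ #(Iic p) := fun y y1 y2 => by
    refine (card_le_card (t := insert (N y) ((Iic p).erase y)) fun z => ?_).trans
      ((card_insert_le _ _).trans_eq (card_erase_add_one (by simpa)))
    simp only [mem_filter, mem_erase, mem_univ, A, mem_insert, mem_Iic]; grind
  have d4 : ∀ y, a ≤ y → y ≤ p → #(Iio a) + 1 ≤ dg G y := fun y y1 y2 => by
    refine le_of_eq_of_le ?_ (card_le_card
      (s := insert (if N y < a then a else N y) (Iio a)) fun z => ?_)
    · rw [card_insert_of_notMem (by simp; grind)]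
    · simp only [mem_filter, mem_univ, A, mem_insert, mem_Iio]; grind
  have d5 : ∀ y, a < y → y ≤ p → dg G y ≤ #(Iio a) + 1 := fun y y1 y2 => by
    refine (card_le_card (t := insert (if N y < a then a else N y) (Iio a)) fun z => ?_).trans
      (card_insert_le _ _)
    simp only [mem_filter, mem_univ, A, mem_insert, mem_Iio]; grind
  have d6 : ∀ y, p < y → dg G y = #(Iio a) := fun y y1 => by
    by_cases h : N y < a
    · rw [dg]; congr 1; ext z
      simp only [mem_filter, mem_univ, A, mem_Iio]; grind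
    · rw [dg, ← card_erase_add_one (mem_Iio.2 k1),
        ← card_insert_of_notMem (a := N y) (by simp; grind)]
      congr 1; ext z
      simp only [mem_filter, mem_univ, A, mem_Iio, mem_insert, mem_erase]; grind
  have d7 : #(Iio a) ≤ #(Iic p) := card_le_card fun z => by simp only [mem_Iio, mem_Iic]; grind
  refine ⟨G, fun x => by rw [A]; grind, fun x y h => ?_, fun G' hG e => ?_⟩
  · rcases h.eq_or_lt with rfl | h
    · exact le_rfl
    have := d1 x y; have := d3 y; have := d4 x; have := d5 y; have := d6 x; have := d6 y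
    have := k2 x; have := k2 y
    grind
  · have c1 := count G (Iio a) (Ioi p)
    have c2 := count G' (Iio a) (Ioi p)
    rw [e] at c2
    have s1 : ∑ x ∈ Iio a, #((Ioi p)ᶜ.filter (G'.Adj x)) ≤
        ∑ x ∈ Iio a, #((Ioi p)ᶜ.filter (G.Adj x)) := sum_le_sum fun x hx => card_le_card
      fun z => by
        have := @G'.ne_of_adj _ x z
        simp only [mem_filter, A, mem_Iio, mem_compl, mem_Ioi] at hx ⊢; grind
    have t : ∀ y ∈ Ioi p, ((Iio a)ᶜ.filter (G.Adj y)) = (Iio a)ᶜ.filter (· = N y) :=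
      fun y hy => by
        ext z
        simp only [mem_filter, A, mem_Iio, mem_compl, mem_Ioi] at hy ⊢; grind
    have m : ∀ y, ¬ M y < a → 1 ≤ #((Iio a)ᶜ.filter (G'.Adj y)) := fun y h =>
      card_pos.2 ⟨M y, by simp only [mem_filter, mem_Iio, mem_compl]; exact ⟨h, hG y⟩⟩
    have s2 : ∑ y ∈ Ioi p, #((Iio a)ᶜ.filter (G.Adj y)) <
        ∑ y ∈ Ioi p, #((Iio a)ᶜ.filter (G'.Adj y)) := by
      refine sum_lt_sum (fun y hy => ?_) ⟨N u, mem_Ioi.2 h2, ?_⟩
      · rw [t y hy, filter_eq']
        split_ifs with h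
        · refine m y fun h' => ?_
          simp only [mem_Iio, mem_compl, mem_Ioi] at hy h
          have := hu (M y); have := a4 (M y); have := hu' (M y); have := hM y
          grind
        · simp
      · rw [t _ (mem_Ioi.2 h2), filter_eq', if_neg (by simp [hN, a1])]
        refine m _ fun h' => ?_
        have := hu (M (N u)); have := a4 (M (N u)); have := hu' (M (N u)); have := hM (N u)
        grind
    omega

end Pool.Agent.H14.Rm
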