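import Mathlib

namespace Pool.Agent.H14.Rp

open List

def pals (l : List Bool) : Set (List Bool) := {f | f <:+: l ∧ f.reverse = f}

def Rich (l : List Bool) : Prop := (pals l).ncard = l.length + 1

theorem pals_finite (l : List Bool) : (pals l).Finite := by
  refine (List.finite_toSet l.sublists).subset ?_
  intro f hf
  exact List.mem_sublists.mpr hf.1.sublist

theorem pals_nil : pals [] = {[]} := by
  ext f
  simp only [pals, Set.mem_setOf_eq, List.infix_nil, Set.mem_singleton_iff]
  constructor
  · exact fun h => h.1
  · rintro rfl; simp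

theorem pals_mono {l m : List Bool} (h : l <:+: m) : pals l ⊆ pals m :=
  fun _ hf => ⟨hf.1.trans h, hf.2⟩

theorem new_short {x : Bool} {l p q : List Bool} (hp : p <+: x :: l) (hq : q <+: x :: l)
    (hpp : p.reverse = p) (hqq : q.reverse = q) (hlt : p.length < q.length) : p <:+: l := by
  have h1 : p <+: q := List.prefix_of_prefix_length_le hp hq hlt.le
  have h2 : p <:+ q := by
    rw [← hpp, ← hqq]; exact List.reverse_suffix.mpr h1
  cases q with
  | nil => simp at hlt
  | cons y q' =>
    have h3 : q' <+: l := (List.cons_prefix_cons.mp hq).2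
    rcases List.suffix_cons_iff.mp h2 with h | h
    · rw [h] at hlt; simp at hlt
    · exact h.isInfix.trans h3.isInfix

theorem new_sub (x : Bool) (l : List Bool) : (pals (x :: l) \ pals l).Subsingleton := by
  have key : ∀ p ∈ pals (x :: l) \ pals l, p <+: x :: l := by
    intro p hp
    rcases List.infix_cons_iff.mp hp.1.1 with h | h
    · exact h
    · exact absurd ⟨h, hp.1.2⟩ hp.2
  intro p hp q hq
  rcases lt_trichotomy p.length q.length with h | h | h
  · exact absurd ⟨new_short (key p hp) (key q hq) hp.1.2 hq.1.2 h, hp.1.2⟩ hp.2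
  · exact (List.prefix_of_prefix_length_le (key p hp) (key q hq) h.le).eq_of_length h
  · exact absurd ⟨new_short (key q hq) (key p hp) hq.1.2 hp.1.2 h, hq.1.2⟩ hq.2

theorem card_split (x : Bool) (l : List Bool) :
    (pals (x :: l)).ncard = (pals (x :: l) \ pals l).ncard + (pals l).ncard :=
  (Set.ncard_diff_add_ncard_of_subset (pals_mono (List.infix_cons (List.infix_refl l)))
    (pals_finite _)).symm

theorem card_le_succ (x : Bool) (l : List Bool) :
    (pals (x :: l)).ncard ≤ (pals l).ncard + 1 := by
  rw [card_split]
  have : (pals (x :: l) \ pals l).ncard ≤ 1 :=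
    (Set.ncard_le_one ((pals_finite (x :: l)).sdiff)).mpr fun a ha b hb => new_sub x l ha hb
  omega

theorem card_le (l : List Bool) : (pals l).ncard ≤ l.length + 1 := by
  induction l with
  | nil => rw [pals_nil]; simp
  | cons x l ih => have := card_le_succ x l; simp only [List.length_cons]; omega

theorem rich_cons {x : Bool} {l : List Bool} (h : Rich l) (p : List Bool) (hp : p <+: x :: l)
    (hpp : p.reverse = p) (hn : ¬ p <:+: l) : Rich (x :: l) := by
  have h1 := card_le (x :: l)
  have h2 := card_split x l
  have h3 : 0 < (pals (x :: l) \ pals l).ncard :=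
    (Set.ncard_pos ((pals_finite (x :: l)).sdiff)).mpr ⟨p, ⟨hp.isInfix, hpp⟩, fun h => hn h.1⟩
  unfold Rich at h ⊢
  simp only [List.length_cons] at h1 ⊢
  omega

theorem rich_tail {x : Bool} {l : List Bool} (h : Rich (x :: l)) : Rich l := by
  have h1 := card_le l
  have h2 := card_le_succ x l
  unfold Rich at h ⊢
  simp only [List.length_cons] at h
  omega

theorem pals_reverse (l : List Bool) : pals l.reverse = pals l := by
  ext f
  simp only [pals, Set.mem_setOf_eq]
  constructor
  · rintro ⟨h1, h2⟩
    refine ⟨?_, h2⟩
    rw [← h2] at h1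
    exact List.reverse_infix.mp h1
  · rintro ⟨h1, h2⟩
    refine ⟨?_, h2⟩
    rw [← h2]
    exact List.reverse_infix.mpr h1

theorem rich_reverse {l : List Bool} (h : Rich l) : Rich l.reverse := by
  unfold Rich at h ⊢
  rw [pals_reverse, List.length_reverse, h]

theorem rich_suffix (s : List Bool) {l : List Bool} (h : Rich (s ++ l)) : Rich l := by
  induction s with
  | nil => exact h
  | cons x s ih => exact ih (rich_tail h)

theorem rich_infix (s t : List Bool) {l : List Bool} (h : Rich (s ++ l ++ t)) : Rich l := by
  have h1 := rich_reverse h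
  rw [List.reverse_append] at h1
  have h2 := rich_reverse (rich_suffix _ h1)
  rw [List.reverse_reverse] at h2
  exact rich_suffix _ h2

def check : List Bool → Bool
  | [] => true
  | x :: l => check l && (x :: l).inits.any fun p =>
      (p.reverse == p) && !(l.tails.any fun t => p.isPrefixOf t)

theorem rich_of_check : ∀ l : List Bool, check l = true → Rich l
  | [], _ => by unfold Rich; rw [pals_nil]; simp
  | x :: l, h => by
    simp only [check, Bool.and_eq_true, List.any_eq_true, List.mem_inits, beq_iff_eq,
      Bool.not_eq_true', List.any_eq_false, List.mem_tails, List.isPrefixOf_iff_prefix] at h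
    obtain ⟨h1, p, hp, hpp, hn⟩ := h
    refine rich_cons (rich_of_check l h1) p hp hpp ?_
    intro hi
    obtain ⟨t, ht1, ht2⟩ := List.infix_iff_prefix_suffix.mp hi
    exact hn t ht2 ht1

theorem key (a : Bool) (m q : ℕ) (v : List Bool) (hv : v.length ≤ m) :
    ¬ replicate (m + 1) a <:+: replicate m a ++ (!a) :: (v ++ replicate q (!a)) := by
  rintro ⟨s, t, h⟩
  have hA : ∀ i, s.length ≤ i → i ≤ s.length + m →
      (replicate m a ++ (!a) :: (v ++ replicate q (!a)))[i]? = some a := by
    intro i h1 h2
    rw [← h, List.append_assoc, List.getElem?_append_right h1, List.getElem?_append_left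
      (by simp only [List.length_replicate]; omega), List.getElem?_replicate, if_pos (by omega)]
  by_cases hs : s.length ≤ m
  · have := hA m hs (by omega)
    rw [List.getElem?_append_right (by simp)] at this
    simp at this
  · have := hA (s.length + m) (by omega) le_rfl
    rw [List.getElem?_append_right (by simp)] at this
    simp only [List.length_replicate, Nat.add_sub_cancel] at this
    obtain ⟨k, hk⟩ : ∃ k, s.length = k + 1 := ⟨s.length - 1, by omega⟩
    rw [hk, List.getElem?_cons_succ, List.getElem?_append_right (by omega),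
      List.getElem?_replicate] at this
    split_ifs at this
    simp at this

theorem stepL (a : Bool) (q : ℕ) : ∀ (u : List Bool) (p : ℕ), u.length ≤ p →
    Rich (replicate p a ++ (u ++ replicate (q + 1) (!a))) →
    Rich (replicate (p + 1) a ++ (u ++ replicate (q + 1) (!a)))
  | [], p, _, h => by
    rw [List.replicate_succ, List.cons_append]
    refine rich_cons h (replicate (p + 1) a) ?_ (by simp) ?_
    · rw [← List.cons_append, ← List.replicate_succ]; exact List.prefix_append _ _
    · have := key a p q [] (by simp)
      simpa [List.replicate_succ] using this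
  | x :: u, p, hu, h => by
    by_cases hx : x = a
    · subst hx
      have e : ∀ k, replicate k x ++ (x :: u ++ replicate (q + 1) (!x)) =
          replicate (k + 1) x ++ (u ++ replicate (q + 1) (!x)) := by
        intro k
        rw [List.replicate_succ' (n := k), List.append_assoc]; rfl
      rw [e] at h ⊢
      exact stepL x q u (p + 1) (by simp only [List.length_cons] at hu; omega) h
    · have hx' : x = !a := by cases x <;> cases a <;> simp_all
      subst hx'
      rw [List.replicate_succ, List.cons_append]
      refine rich_cons h (replicate (p + 1) a) ?_ (by simp) ?_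
      · rw [← List.cons_append, ← List.replicate_succ]; exact List.prefix_append _ _
      · exact key a p (q + 1) u (by simp only [List.length_cons] at hu; omega)

theorem growL (a : Bool) (q : ℕ) (u : List Bool) (p : ℕ) (hu : u.length ≤ p)
    (h : Rich (replicate p a ++ (u ++ replicate (q + 1) (!a)))) (k : ℕ) :
    Rich (replicate (p + k) a ++ (u ++ replicate (q + 1) (!a))) := by
  induction k with
  | zero => exact h
  | succ k ih => exact stepL a q u (p + k) (by omega) ih

theorem grow (a : Bool) (u : List Bool) (hu : u.length ≤ 11)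
    (h : Rich (replicate 11 a ++ (u ++ replicate 11 (!a)))) (k : ℕ) :
    Rich (replicate (11 + k) a ++ (u ++ replicate (11 + k) (!a))) := by
  have h1 := rich_reverse (growL a 10 u 11 hu h k)
  simp only [List.reverse_append, List.reverse_replicate, List.append_assoc] at h1
  have h2 := growL (!a) (10 + k) u.reverse 11 (by simpa using hu)
    (by rw [Bool.not_not, show 10 + k + 1 = 11 + k by omega]; exact h1) k
  have h3 := rich_reverse h2
  simp only [List.reverse_append, List.reverse_replicate, List.append_assoc, Bool.not_not,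
    List.reverse_reverse] at h3
  rw [show 10 + k + 1 = 11 + k by omega] at h3
  exact h3

theorem base : ∀ w0 w1 w2 w3 w4 w5 w6 : Bool,
    check (replicate 11 (!w5) ++ ([w0, w1, w2, w3, w4, w5, w6, w5, w4, w3, w2]
      ++ replicate 11 (!!w5))) = true := by
  decide +kernel

def pos (i : ℤ) : ℤ :=
  if i < 0 then 5 else if i ≤ 6 then i else if i ≤ 10 then 12 - i else 5

def flip (i : ℤ) : Bool := decide (i < 0)

def W (w : ℤ → Bool) (i : ℤ) : Bool := xor (w (pos i)) (flip i)

def seg (f : ℤ → Bool) (i : ℤ) (n : ℕ) : List Bool := (List.range n).map fun k : ℕ => f (i + k)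

theorem seg_add (f : ℤ → Bool) (i : ℤ) (m n : ℕ) :
    seg f i (m + n) = seg f i m ++ seg f (i + m) n := by
  simp only [seg, List.range_add, List.map_append, List.map_map]
  congr 1
  refine List.map_congr_left fun k _ => ?_
  simp only [Function.comp_apply]
  push_cast
  rw [add_assoc]

theorem seg_big (w : ℤ → Bool) (p : ℕ) : seg (W w) (-p) (p + (11 + p)) =
    replicate p (!w 5) ++ ([w 0, w 1, w 2, w 3, w 4, w 5, w 6, w 5, w 4, w 3, w 2]
      ++ replicate p (!!w 5)) := by
  rw [seg_add, seg_add, neg_add_cancel]
  congr 1
  · rw [List.eq_replicate_iff]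
    refine ⟨by simp [seg], ?_⟩
    intro b hb
    simp only [seg, List.mem_map, List.mem_range] at hb
    obtain ⟨k, hk, rfl⟩ := hb
    have : -(p : ℤ) + k < 0 := by omega
    simp [W, pos, flip, this]
  · congr 1
    · simp [seg, List.range_succ, W, pos, flip]
    · rw [List.eq_replicate_iff]
      refine ⟨by simp [seg], ?_⟩
      intro b hb
      simp only [seg, List.mem_map, List.mem_range] at hb
      obtain ⟨k, hk, rfl⟩ := hb
      have h1 : ¬ ((0 : ℤ) + (11 : ℕ) + k < 0) := by omega
      have h2 : ¬ ((0 : ℤ) + (11 : ℕ) + k ≤ 6) := by omega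
      have h3 : ¬ ((0 : ℤ) + (11 : ℕ) + k ≤ 10) := by omega
      simp only [W, pos, flip, h1, h2, h3, if_false, decide_false, Bool.xor_false, Bool.not_not]

theorem rich_seg (w : ℤ → Bool) (i : ℤ) (n : ℕ) : Rich (seg (W w) i n) := by
  obtain ⟨k, hk⟩ : ∃ k : ℕ, i.natAbs + n ≤ k := ⟨_, le_rfl⟩
  have h := grow (!w 5) _ (by simp)
    (rich_of_check _ (base (w 0) (w 1) (w 2) (w 3) (w 4) (w 5) (w 6))) k
  rw [← seg_big] at h
  obtain ⟨d, hd⟩ : ∃ d : ℕ, (d : ℤ) = i + (11 + k : ℕ) := ⟨(i + (11 + k : ℕ)).toNat, by omega⟩
  obtain ⟨e, he⟩ : ∃ e : ℕ, 11 + k + (11 + (11 + k)) = d + n + e :=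
    ⟨11 + k + (11 + (11 + k)) - (d + n), by omega⟩
  rw [he, seg_add, seg_add, show -((11 + k : ℕ) : ℤ) + d = i by omega] at h
  exact rich_infix _ _ h

end Pool.Agent.H14.Rp
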