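import Pool.Agent.H14.Rw1

set_option autoImplicit false

namespace Pool.Agent.H14.Rw

open Finset SimpleGraph

variable {V : Type}

/-- adjacency (or equality) of darts in the truncation -/
def TA {B : SimpleGraph V} (a b : B.Dart) : Prop := a.fst = b.fst ∨ (a.fst = b.snd ∧ a.snd = b.fst)

/-- distance at most two in the truncation -/
def Near {B : SimpleGraph V} (a b : B.Dart) : Prop := b.fst = a.fst ∨ b.fst = a.snd ∨ b.snd = a.fst

lemma TA.refl {B : SimpleGraph V} (a : B.Dart) : TA a a := Or.inl rfl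

lemma TA.symm {B : SimpleGraph V} {a b : B.Dart} (h : TA a b) : TA b a := by
  unfold TA at *
  tauto

lemma near_of_TA {B : SimpleGraph V} {a b c : B.Dart} (h : TA a c) (h' : TA c b) : Near a b := by
  unfold TA Near at *
  rcases h with h | h <;> rcases h' with h' | h'
  · exact Or.inl (h.trans h').symm
  · exact Or.inr (Or.inr (h.trans h'.1).symm)
  · exact Or.inr (Or.inl (h.2.trans h').symm)
  · exact Or.inl (h.1.trans h'.2).symm

/-- the gadget -/
def Gd (B : SimpleGraph V) (m : ℕ) : SimpleGraph (B.Dart × Fin m) where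
  Adj x y := x ≠ y ∧ TA x.1 y.1
  symm := ⟨fun _ _ h => ⟨h.1.symm, h.2.symm⟩⟩
  loopless := ⟨fun _ h => h.1 rfl⟩

lemma half {B : SimpleGraph V} [Fintype B.Dart] (X : Finset B.Dart) (h : ∀ a ∈ X, a.symm ∉ X) :
    2 * X.card ≤ Fintype.card B.Dart := by
  classical
  have h1 : Disjoint X (X.image Dart.symm) := by
    rw [disjoint_right]
    intro a ha
    obtain ⟨b, hb, rfl⟩ := mem_image.1 ha
    exact h b hb
  have h2 := card_le_univ (X ∪ X.image Dart.symm)
  rw [card_union_of_disjoint h1, card_image_of_injective _ Dart.symm_involutive.injective] at h2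
  omega

lemma comb [Fintype V] {B : SimpleGraph V} [Fintype B.Dart] (al : ℕ)
    (h2 : ∀ u v, ∃ w, B.Adj u w ∧ w ≠ v)
    (hal : ∀ S : Finset V, (∀ x ∈ S, ∀ y ∈ S, ¬ B.Adj x y) → S.card ≤ al)
    (C : Finset B.Dart) {β : Type} (p : B.Dart → β) (pos : β → B.Dart)
    (P1 : ∀ a ∈ C, ∀ b ∈ C, TA a b → p a = p b)
    (P2 : ∀ a ∈ C, ∀ b, TA a b → Near (pos (p a)) b) :
    2 * C.card ≤ Fintype.card B.Dart + 2 * al := by
  classical
  let f := Fintype.equivFin V
  let A := C.filter fun a => a.symm ∈ C ∧ pos (p a) = a.symm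
  let Z := (univ : Finset B.Dart).filter fun a => a ∉ C ∧ a.symm ∉ C ∧ f a.fst < f a.snd
  have hend : ∀ a ∈ C, a.fst = (pos (p a)).fst ∨ a.fst = (pos (p a)).snd := by
    intro a ha
    obtain ⟨w, hw, hne⟩ := h2 a.fst (pos (p a)).fst
    rcases P2 a ha ⟨(a.fst, w), hw⟩ (Or.inl rfl) with h | h | h
    · exact Or.inl h
    · exact Or.inr h
    · exact absurd h hne
  have hfull : ∀ a ∈ C, a.symm ∈ C → a ∈ A ∨ a.symm ∈ A := by
    intro a ha hs
    have e := P1 a ha a.symm hs (Or.inr ⟨rfl, rfl⟩)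
    have h3 := hend a ha
    have h4 := hend _ hs
    rw [← e] at h4
    have h5 := a.fst_ne_snd
    have h4' : a.snd = (pos (p a)).fst ∨ a.snd = (pos (p a)).snd := h4
    rcases h3 with h3 | h3 <;> rcases h4' with h4 | h4
    · exact absurd (h3.trans h4.symm) h5
    · refine Or.inr (mem_filter.2 ⟨hs, by simpa using ha, ?_⟩)
      rw [← e, Dart.symm_symm]
      exact Dart.ext _ _ (Prod.ext h3.symm h4.symm)
    · refine Or.inl (mem_filter.2 ⟨ha, hs, ?_⟩)
      exact Dart.ext _ _ (Prod.ext h4.symm h3.symm)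
    · exact absurd (h3.trans h4.symm) h5
  have huniq : ∀ a ∈ A, ∀ b ∈ C, a.fst = b.fst → a = b := by
    intro a ha b hb hab
    obtain ⟨ha1, _, ha3⟩ := mem_filter.1 ha
    have e := P1 a ha1 b hb (Or.inl hab)
    have h3 := P2 b hb b.symm (Or.inr ⟨rfl, rfl⟩)
    rw [← e, ha3] at h3
    have h4 : b.snd = a.snd ∨ b.snd = a.fst ∨ b.fst = a.snd := h3
    rcases h4 with h | h | h
    · exact Dart.ext _ _ (Prod.ext hab h.symm)
    · exact absurd (h.trans hab) b.snd_ne_fst
    · exact absurd (hab.trans h) a.fst_ne_snd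
  have hind : (A.image (fun a => a.fst) \ Z.image (fun a => a.fst)).card ≤ al := by
    have key : ∀ x ∈ A.image (fun a => a.fst) \ Z.image (fun a => a.fst),
        ∀ y ∈ A.image (fun a => a.fst), B.Adj x y → ¬ f x < f y := by
      intro x hx y hy hxy hlt
      obtain ⟨hx1, hx2⟩ := mem_sdiff.1 hx
      obtain ⟨a, ha, rfl⟩ := mem_image.1 hx1
      obtain ⟨b, hb, rfl⟩ := mem_image.1 hy
      have hne : ∀ a ∈ A, ∀ b ∈ A, ∀ h : B.Adj a.fst b.fst, (⟨(a.fst, b.fst), h⟩ : B.Dart) ∉ C := by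
        intro a ha b hb h hc
        have e1 := huniq a ha _ hc rfl
        have e2 : a.snd = b.fst := by rw [e1]
        have e3 := huniq b hb a.symm (mem_filter.1 ha).2.1 e2.symm
        have e4 := P1 a (mem_filter.1 ha).1 b (mem_filter.1 hb).1 (Or.inr ⟨by rw [e3]; rfl, e2⟩)
        have e5 := (mem_filter.1 ha).2.2
        have e6 := (mem_filter.1 hb).2.2
        rw [← e4, e5, ← e3] at e6
        exact b.symm_ne e6.symm
      refine hx2 (mem_image.2 ⟨⟨(a.fst, b.fst), hxy⟩, mem_filter.2 ⟨mem_univ _, ?_, ?_, hlt⟩, rfl⟩)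
      · exact hne a ha b hb hxy
      · exact hne b hb a ha hxy.symm
    refine hal _ fun x hx y hy hxy => ?_
    rcases lt_trichotomy (f x) (f y) with h | h | h
    · exact key x hx y (mem_sdiff.1 hy).1 hxy h
    · exact hxy.ne (f.injective h)
    · exact key y hy x (mem_sdiff.1 hx).1 hxy.symm h
  have hA : (A.image fun a => a.fst).card = A.card :=
    card_image_of_injOn fun a ha b hb h => huniq a ha b (mem_filter.1 hb).1 h
  have h3 := le_card_sdiff (Z.image fun a => a.fst) (A.image fun a => a.fst)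
  have h4 : (Z.image fun a => a.fst).card ≤ Z.card := card_image_le
  have h5 := half ((C \ A) ∪ Z) (by
    intro a ha hs
    simp only [mem_union, mem_sdiff, Z, mem_filter, mem_univ, true_and, Dart.symm_symm] at ha hs
    rcases ha with ha | ha <;> rcases hs with hs | hs
    · rcases hfull a ha.1 hs.1 with h | h
      · exact ha.2 h
      · exact hs.2 h
    · exact hs.2.1 ha.1
    · exact ha.2.1 hs.1
    · exact lt_asymm ha.2.2 hs.2.2)
  rw [card_union_of_disjoint (by
    rw [Finset.disjoint_left]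
    intro a ha hz
    exact (mem_filter.1 hz).2.1 (mem_sdiff.1 ha).1)] at h5
  have h6 := le_card_sdiff A C
  omega

lemma sum_nb {U : Type} [Fintype U] (H : SimpleGraph U) :
    ∑ x, (nb H x).card = 2 * H.edgeSet.ncard := by
  classical
  rw [← coe_edgeFinset, Set.ncard_coe_finset, ← sum_degrees_eq_twice_card_edges]
  refine sum_congr rfl fun x _ => ?_
  rw [← card_neighborFinset_eq_degree]
  congr 1
  ext y
  simp [mem_nb]

lemma lower [Fintype V] {B : SimpleGraph V} [Fintype B.Dart] (al m K : ℕ)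
    (h2 : ∀ u v, ∃ w, B.Adj u w ∧ w ≠ v)
    (hal : ∀ S : Finset V, (∀ x ∈ S, ∀ y ∈ S, ¬ B.Adj x y) → S.card ≤ al)
    (hm : 1 + K + K * K < m) (H : SimpleGraph (B.Dart × Fin m))
    (hH1 : ∀ x y, (Gd B m).Adj x y → H.Adj x y ∨ ∃ z, H.Adj x z ∧ H.Adj z y)
    (hH2 : ∀ x y, H.Adj x y → Near x.1 y.1) :
    ∃ h : ℕ, K * h ≤ 2 * H.edgeSet.ncard ∧
      3 * m * Fintype.card B.Dart ≤ 2 * H.edgeSet.ncard + 4 * h + 2 * m * al +
        4 * (1 + K + K * K) * Fintype.card B.Dart := by
  classical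
  obtain ⟨Q, hQ⟩ : ∃ Q, Q = 1 + K + K * K := ⟨_, rfl⟩
  rw [← hQ] at hm ⊢
  let low : B.Dart × Fin m → Prop := fun x => (nb H x).card ≤ K
  let hn : B.Dart × Fin m → Finset (B.Dart × Fin m) := fun x => (nb H x).filter fun z => ¬ low z
  have hR : ∀ x, low x → ∀ b, TA x.1 b → ∃ R : Finset (Fin m), R.card ≤ Q ∧
      ∀ j ∉ R, ∃ z ∈ hn x, H.Adj z (b, j) := by
    intro x hx b hb
    let R := insert x (nb H x ∪ ((nb H x).filter low).biUnion (nb H))
    have hc : R.card ≤ Q := by
      have a1 : (((nb H x).filter low).biUnion (nb H)).card ≤ ((nb H x).filter low).card * K :=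
        card_biUnion_le_card_mul _ _ _ fun z hz => (mem_filter.1 hz).2
      have a2 : ((nb H x).filter low).card ≤ K := (card_filter_le _ _).trans hx
      have a3 := Nat.mul_le_mul_right K a2
      have a4 := card_union_le (nb H x) (((nb H x).filter low).biUnion (nb H))
      have a5 := card_insert_le x (nb H x ∪ ((nb H x).filter low).biUnion (nb H))
      simp only [low] at hx
      simp only [R]
      omega
    refine ⟨R.image Prod.snd, card_image_le.trans hc, fun j hj => ?_⟩
    have hj' : (b, j) ∉ R := fun h => hj (mem_image_of_mem _ h)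
    simp only [R, mem_insert, mem_union, mem_biUnion, mem_filter, mem_nb, not_or, not_exists,
      not_and] at hj'
    rcases hH1 x (b, j) ⟨fun h => hj'.1 h.symm, hb⟩ with h | ⟨z, h1, h3⟩
    · exact absurd h hj'.2.1
    · exact ⟨z, mem_filter.2 ⟨mem_nb.2 h1, fun hl => hj'.2.2 z ⟨h1, hl⟩ h3⟩, h3⟩
  have hex : ∀ R : Finset (Fin m), R.card ≤ Q → ∃ j, j ∉ R := by
    intro R hR
    by_contra hcon
    push Not at hcon
    have := card_le_card (fun j _ => hcon j : (univ : Finset (Fin m)) ⊆ R)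
    simp only [card_univ, Fintype.card_fin] at this
    omega
  have hne : ∀ x, low x → (hn x).Nonempty := by
    intro x hx
    obtain ⟨R, h1, h3⟩ := hR x hx x.1 (TA.refl _)
    obtain ⟨j, hj⟩ := hex R h1
    obtain ⟨z, hz, _⟩ := h3 j hj
    exact ⟨z, hz⟩
  let ch : B.Dart → Finset (Fin m) := fun a => univ.filter fun i => low (a, i) ∧ (hn (a, i)).card ≤ 1
  let C := (univ : Finset B.Dart).filter fun a => 2 * Q < (ch a).card
  have hhub : ∀ a : B.Dart, ∃ z : B.Dart × Fin m, a ∈ C → ¬ low z ∧ ∀ b, TA a b →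
      ∃ R : Finset (Fin m), R.card ≤ Q ∧ ∀ j ∉ R, H.Adj z (b, j) := by
    intro a
    by_cases ha : a ∈ C
    · obtain ⟨i, hi⟩ := card_pos.1 (lt_of_le_of_lt (Nat.zero_le _) (mem_filter.1 ha).2)
      obtain ⟨hi1, hi2⟩ := (mem_filter.1 hi).2
      obtain ⟨z, hz⟩ := hne _ hi1
      refine ⟨z, fun _ => ⟨(mem_filter.1 hz).2, fun b hb => ?_⟩⟩
      obtain ⟨R, h1, h3⟩ := hR _ hi1 b hb
      refine ⟨R, h1, fun j hj => ?_⟩
      obtain ⟨z', hz', h4⟩ := h3 j hj
      rwa [card_le_one.1 hi2 z hz z' hz']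
    · exact ⟨(a, ⟨0, by omega⟩), fun h => absurd h ha⟩
  choose p hp using hhub
  have hC := comb al h2 hal C p Prod.fst (by
    intro a ha b hb hab
    obtain ⟨R, h1, h3⟩ := (hp a ha).2 b hab
    obtain ⟨R', h1', h3'⟩ := (hp b hb).2 b (TA.refl _)
    have h4 : (R ∪ R').card < (ch b).card := by
      have := card_union_le R R'
      have := (mem_filter.1 hb).2
      omega
    obtain ⟨j, hj, hj'⟩ := exists_mem_notMem_of_card_lt_card h4
    rw [mem_union, not_or] at hj'
    exact card_le_one.1 (mem_filter.1 hj).2.2 _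
      (mem_filter.2 ⟨mem_nb.2 (h3 j hj'.1).symm, (hp a ha).1⟩) _
      (mem_filter.2 ⟨mem_nb.2 (h3' j hj'.2).symm, (hp b hb).1⟩)) (by
    intro a ha b hab
    obtain ⟨R, h1, h3⟩ := (hp a ha).2 b hab
    obtain ⟨j, hj⟩ := hex R h1
    exact hH2 _ _ (h3 j hj))
  refine ⟨(univ.filter fun x => ¬ low x).card, ?_, ?_⟩
  · rw [← sum_nb, mul_comm, ← smul_eq_mul, ← sum_const]
    exact (sum_le_sum fun x hx => (not_le.1 (mem_filter.1 hx).2).le).trans
      (sum_le_sum_of_subset (filter_subset _ _))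
  have hE : ∑ x, (if low x then (hn x).card else 0) ≤ H.edgeSet.ncard := by
    rw [← sum_filter, ← card_sigma, ← coe_edgeFinset, Set.ncard_coe_finset]
    refine card_le_card_of_injOn (fun p => s(p.1, p.2)) ?_ ?_
    · rintro ⟨x, z⟩ h
      have := (mem_sigma.1 (mem_coe.1 h)).2
      simpa using mem_nb.1 (mem_filter.1 this).1
    · rintro ⟨x, z⟩ h ⟨x', z'⟩ h' e
      obtain ⟨a1, a2⟩ := mem_sigma.1 (mem_coe.1 h)
      obtain ⟨b1, b2⟩ := mem_sigma.1 (mem_coe.1 h')
      rcases Sym2.eq_iff.1 e with ⟨e1, e2⟩ | ⟨e1, e2⟩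
      · simp only at e1 e2
        subst e1 e2
        rfl
      · simp only at e1 e2
        subst e1
        exact absurd (mem_filter.1 a1).2 (mem_filter.1 b2).2
  have hpt : ∀ x : B.Dart × Fin m, 2 ≤ (if low x then (hn x).card else 0) +
      2 * (if ¬ low x then 1 else 0) + if x.2 ∈ ch x.1 then 1 else 0 := by
    rintro ⟨a, i⟩
    by_cases hx : low (a, i)
    · have := card_pos.2 (hne _ hx)
      simp only [ch, mem_filter, mem_univ, true_and, hx, if_true, not_true, if_false]
      split_ifs <;> omega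
    · simp [hx]
  have h3 := sum_le_sum fun x (_ : x ∈ univ) => hpt x
  rw [sum_add_distrib, sum_add_distrib, ← mul_sum, ← card_filter] at h3
  have h4 : ∑ x : B.Dart × Fin m, (if x.2 ∈ ch x.1 then 1 else 0) ≤
      m * C.card + 2 * Q * Fintype.card B.Dart := by
    rw [Fintype.sum_prod_type]
    have h5 : ∀ a : B.Dart, ∑ i : Fin m, (if i ∈ ch a then 1 else 0) ≤
        m * (if a ∈ C then 1 else 0) + 2 * Q := by
      intro a
      rw [← card_filter, filter_mem_eq_inter, univ_inter]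
      by_cases ha : a ∈ C
      · have := card_le_univ (ch a)
        simp only [Fintype.card_fin] at this
        rw [if_pos ha]
        omega
      · have : ¬ 2 * Q < (ch a).card := fun h => ha (mem_filter.2 ⟨mem_univ _, h⟩)
        omega
    refine (sum_le_sum fun a _ => h5 a).trans (le_of_eq ?_)
    rw [sum_add_distrib, ← mul_sum, ← card_filter, filter_mem_eq_inter, univ_inter]
    simp [mul_comm]
  simp only [sum_const, card_univ, Fintype.card_prod, Fintype.card_fin, smul_eq_mul] at h3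
  have h6 := Nat.mul_le_mul_left m hC
  nlinarith

end Pool.Agent.H14.Rw
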