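import Pool.Agent.H14.Rw2

set_option autoImplicit false

namespace Pool.Agent.H14.Rw

open Finset SimpleGraph

variable {V : Type}

/-- the double cover of the gadget -/
def Gc (B : SimpleGraph V) (m : ℕ) : SimpleGraph ((B.Dart × Fin m) × ZMod 2) where
  Adj x y := x.1 ≠ y.1 ∧ ((x.1.1.fst = y.1.1.fst ∧ y.2 = x.2) ∨
    ((x.1.1.fst = y.1.1.snd ∧ x.1.1.snd = y.1.1.fst) ∧ y.2 = x.2 + 1))
  symm := ⟨fun x y h => ⟨h.1.symm, by
    rcases h.2 with h | h
    · exact Or.inl ⟨h.1.symm, h.2.symm⟩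
    · refine Or.inr ⟨⟨h.1.2.symm, h.1.1.symm⟩, ?_⟩
      rw [h.2]
      generalize x.2 = s
      revert s
      decide⟩⟩
  loopless := ⟨fun _ h => h.1 rfl⟩

/-- projection -/
def pr (B : SimpleGraph V) (m : ℕ) : Gc B m →g Gd B m where
  toFun := Prod.fst
  map_rel' := fun h => ⟨h.1, h.2.imp And.left And.left⟩

lemma W.map {U U' : Type} {G : SimpleGraph U} {G' : SimpleGraph U'} (f : G →g G') {a b : U} {k : ℕ}
    (h : W G a b k) : W G' (f a) (f b) k := by
  obtain ⟨p, rfl⟩ := h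
  exact ⟨p.map f, Walk.length_map _ _⟩

lemma W.dist_le {U : Type} {G : SimpleGraph U} {a b : U} {k : ℕ} (h : W G a b k) :
    G.dist a b ≤ k := by
  obtain ⟨p, rfl⟩ := h
  exact SimpleGraph.dist_le p

lemma W.of_conn {U : Type} {G : SimpleGraph U} (h : G.Connected) (a b : U) :
    W G a b (G.dist a b) := h.exists_walk_length_eq_dist a b

lemma W.step {U : Type} {G : SimpleGraph U} {a b : U} (h : a = b ∨ G.Adj a b) :
    ∃ k ≤ 1, W G a b k := by
  rcases h with rfl | h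
  · exact ⟨0, by omega, W.nil _ _⟩
  · exact ⟨1, le_rfl, W.cons h (W.nil _ _)⟩

lemma W.two {U : Type} {G : SimpleGraph U} {a b c : U} (h : a = b ∨ G.Adj a b)
    (h' : b = c ∨ G.Adj b c) : ∃ k ≤ 2, W G a c k := by
  obtain ⟨k, hk, h1⟩ := W.step h
  obtain ⟨l, hl, h2⟩ := W.step h'
  exact ⟨k + l, by omega, h1.append h2⟩

lemma lip {U : Type} {G H : SimpleGraph U} (h : ∀ x y, G.Adj x y → ∃ k ≤ 2, W H x y k) {a b : U}
    (p : G.Walk a b) : ∃ k ≤ 2 * p.length, W H a b k := by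
  induction p with
  | nil => exact ⟨0, le_rfl, W.nil _ _⟩
  | cons hadj p ih =>
    obtain ⟨k, hk, h1⟩ := h _ _ hadj
    obtain ⟨l, hl, h2⟩ := ih
    exact ⟨k + l, by simp only [Walk.length_cons]; omega, h1.append h2⟩

lemma lip_conn {U : Type} {G H : SimpleGraph U} (hG : G.Connected)
    (h : ∀ x y, G.Adj x y → ∃ k ≤ 2, W H x y k) :
    H.Connected ∧ ∀ a b, H.dist a b ≤ 2 * G.dist a b := by
  have key : ∀ a b, ∃ k ≤ 2 * G.dist a b, W H a b k := by
    intro a b
    obtain ⟨p, hp⟩ := W.of_conn hG a b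
    rw [← hp]
    exact lip h p
  have := hG.nonempty
  refine ⟨⟨fun a b => ?_⟩, fun a b => ?_⟩
  · obtain ⟨k, _, p, _⟩ := key a b
    exact ⟨p⟩
  · obtain ⟨k, hk, h1⟩ := key a b
    exact h1.dist_le.trans hk

lemma two_cases {U : Type} {G : SimpleGraph U} {a b : U} {k : ℕ} (h : W G a b k) (hk : k ≤ 2) :
    a = b ∨ G.Adj a b ∨ ∃ z, G.Adj a z ∧ G.Adj z b := by
  obtain ⟨p, rfl⟩ := h
  cases p with
  | nil => exact Or.inl rfl
  | cons h p =>
    cases p with
    | nil => exact Or.inr (Or.inl h)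
    | cons h' p =>
      cases p with
      | nil => exact Or.inr (Or.inr ⟨_, h, h'⟩)
      | cons h'' p => simp at hk

lemma clq {B : SimpleGraph V} {m : ℕ} (x y : (B.Dart × Fin m) × ZMod 2)
    (h1 : x.1.1.fst = y.1.1.fst) (h2 : y.2 = x.2) : x = y ∨ (Gc B m).Adj x y := by
  by_cases h : x.1 = y.1
  · exact Or.inl (Prod.ext h h2.symm)
  · exact Or.inr ⟨h, Or.inl ⟨h1, h2⟩⟩

lemma swp {B : SimpleGraph V} {m : ℕ} (a : B.Dart) (i j : Fin m) (s : ZMod 2) :
    (Gc B m).Adj ((a, i), s) ((a.symm, j), s + 1) :=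
  ⟨fun h => a.symm_ne (Prod.ext_iff.1 h).1.symm, Or.inr ⟨⟨rfl, rfl⟩, rfl⟩⟩

lemma Gc_conn {q m : ℕ} (hm : 0 < m) (B : SimpleGraph (ZMod (8 * q + 1)))
    (hB : ∀ x, B.Adj x (x + 1)) : (Gc B m).Connected := by
  let o : ZMod (8 * q + 1) → ZMod 2 → (B.Dart × Fin m) × ZMod 2 := fun v s =>
    ((⟨(v, v + 1), hB v⟩, ⟨0, hm⟩), s)
  have r1 : ∀ x y, x = y ∨ (Gc B m).Adj x y → (Gc B m).Reachable x y := by
    rintro x y (rfl | h)
    · rfl
    · exact h.reachable
  have h1 : ∀ k : ℕ, (Gc B m).Reachable (o 0 0) (o k k) := by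
    intro k
    induction k with
    | zero => simp
    | succ k ih =>
      refine ih.trans ((swp _ _ ⟨0, hm⟩ _).reachable.trans (r1 _ _ (clq _ _ ?_ ?_)))
      · simp [o]
      · simp [o]
  have h2 : ∀ x, (Gc B m).Reachable (o 0 0) x := by
    intro x
    have e : (Gc B m).Reachable (o x.1.1.fst x.2) x := r1 _ _ (clq _ _ rfl rfl)
    refine Reachable.trans ?_ e
    by_cases h : ((x.1.1.fst.val : ℕ) : ZMod 2) = x.2
    · have := h1 x.1.1.fst.val
      rwa [h, ZMod.natCast_zmod_val] at this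
    · have := h1 (x.1.1.fst.val + (8 * q + 1))
      have e1 : ((x.1.1.fst.val + (8 * q + 1) : ℕ) : ZMod (8 * q + 1)) = x.1.1.fst := by
        rw [Nat.cast_add, ZMod.natCast_self, add_zero, ZMod.natCast_zmod_val]
      have e2 : ((x.1.1.fst.val + (8 * q + 1) : ℕ) : ZMod 2) = x.2 := by
        have e3 : (8 : ZMod 2) = 0 := by decide
        push_cast
        rw [e3, zero_mul, zero_add]
        revert h
        generalize ((x.1.1.fst.val : ℕ) : ZMod 2) = s
        generalize x.2 = t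
        revert s t
        decide
      rwa [e1, e2] at this
  have : Nonempty ((B.Dart × Fin m) × ZMod 2) := ⟨o 0 0⟩
  exact ⟨fun x y => (h2 x).symm.trans (h2 y)⟩

lemma upper [Fintype V] {B : SimpleGraph V} [Fintype B.Dart] {m : ℕ} (hm : 0 < m) (μ : V ≃ V)
    (hB : ∀ x, B.Adj x (μ x)) : ∃ H : SimpleGraph ((B.Dart × Fin m) × ZMod 2),
    (∀ x y, (Gc B m).Adj x y → ∃ k ≤ 2, W H x y k) ∧
    (∀ x y, H.Adj x y → ∃ k ≤ 2, W (Gc B m) x y k) ∧
    H.edgeSet.ncard + Fintype.card V * m ≤ 3 * m * Fintype.card B.Dart := by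
  classical
  let hub : V → (B.Dart × Fin m) × ZMod 2 := fun v => ((⟨(v, μ v), hB v⟩, ⟨0, hm⟩), 0)
  let L : (B.Dart × Fin m) × ZMod 2 → (B.Dart × Fin m) × ZMod 2 → Prop := fun x y =>
    y = hub (if x.2 = 0 then x.1.1.fst else μ.symm x.1.1.fst) ∨ (x.2 = 1 ∧ y = hub x.1.1.snd)
  have hL : ∀ x y, L x y → x = y ∨ (fromRel L).Adj x y := by
    intro x y h
    by_cases e : x = y
    · exact Or.inl e
    · exact Or.inr ⟨e, Or.inl h⟩
  have hL2 : ∀ x y z, L x z → L y z → ∃ k ≤ 2, W (fromRel L) x y k := fun x y z h h' =>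
    W.two (hL x z h) ((hL y z h').imp Eq.symm Adj.symm)
  have h01 : ∀ s : ZMod 2, s = 0 ∨ s = 1 := by decide
  refine ⟨fromRel L, ?_, ?_, ?_⟩
  · rintro x y ⟨_, h | h⟩
    · exact hL2 x y _ (Or.inl rfl) (Or.inl (by rw [h.1, h.2]))
    · rcases h01 x.2 with e | e
      · exact hL2 x y (hub x.1.1.fst) (Or.inl (by rw [if_pos e]))
          (Or.inr ⟨by rw [h.2, e, zero_add], by rw [h.1.1]⟩)
      · exact hL2 x y (hub x.1.1.snd) (Or.inr ⟨e, rfl⟩)
          (Or.inl (by rw [if_pos (by rw [h.2, e]; decide), h.1.2]))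
  · have key : ∀ x y, L x y → ∃ k ≤ 2, W (Gc B m) x y k := by
      rintro ⟨⟨a, i⟩, s⟩ y (h | h)
      · rcases h01 s with e | e
        · subst e
          simp only [if_true] at h
          exact W.two (Or.inl rfl) (clq _ _ (by rw [h]) (by rw [h]))
        · subst e
          rw [if_neg one_ne_zero] at h
          have := (swp (⟨(μ.symm a.fst, μ (μ.symm a.fst)), hB _⟩ : B.Dart) ⟨0, hm⟩ ⟨0, hm⟩ 0).symm
          rw [h]
          exact W.two (clq _ _ (by simp) (by simp)) (Or.inr this)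
      · obtain ⟨e, h⟩ := h
        simp only at e h
        subst e
        rw [h]
        exact W.two (Or.inr (swp a i i 1)) (clq _ _ rfl (by simp only [hub]; decide))
    rintro x y ⟨_, h | h⟩
    · exact key x y h
    · obtain ⟨k, hk, h⟩ := key y x h
      exact ⟨k, hk, h.symm⟩
  · let T2 := (univ : Finset (B.Dart × Fin m)).filter fun x => x.1.snd ≠ μ.symm x.1.fst
    let f1 : (B.Dart × Fin m) × ZMod 2 → Sym2 ((B.Dart × Fin m) × ZMod 2) := fun x =>
      s(x, hub (if x.2 = 0 then x.1.1.fst else μ.symm x.1.1.fst))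
    let f2 : B.Dart × Fin m → Sym2 ((B.Dart × Fin m) × ZMod 2) := fun x => s((x, 1), hub x.1.snd)
    have key : ∀ x y, L x y → s(x, y) ∈ univ.image f1 ∪ T2.image f2 := by
      rintro ⟨x, s⟩ y (h | h)
      · exact mem_union_left _ (mem_image.2 ⟨(x, s), mem_univ _, by rw [h]⟩)
      · obtain ⟨e, h⟩ := h
        simp only at e h
        subst e
        by_cases hx : x ∈ T2
        · exact mem_union_right _ (mem_image.2 ⟨x, hx, by rw [h]⟩)
        · refine mem_union_left _ (mem_image.2 ⟨(x, 1), mem_univ _, ?_⟩)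
          have : x.1.snd = μ.symm x.1.fst := by simpa [T2] using hx
          simp only [f1]
          rw [if_neg (by decide), h, this]
    have h1 : (fromRel L).edgeSet ⊆ ↑(univ.image f1 ∪ T2.image f2) := by
      intro e he
      induction e using Sym2.ind with
      | h x y =>
        rcases he.2 with h | h
        · exact key x y h
        · rw [Sym2.eq_swap]
          exact key y x h
    have h2 := Set.ncard_le_ncard h1 (Set.toFinite _)
    rw [Set.ncard_coe_finset] at h2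
    have h3 := h2.trans ((card_union_le _ _).trans (add_le_add card_image_le card_image_le))
    have h4 := card_filter_add_card_filter_not (s := (univ : Finset (B.Dart × Fin m)))
      (fun x => x.1.snd ≠ μ.symm x.1.fst)
    have h5 : (univ : Finset (V × Fin m)).card ≤
        ((univ : Finset (B.Dart × Fin m)).filter fun x => ¬ x.1.snd ≠ μ.symm x.1.fst).card := by
      refine card_le_card_of_injOn (fun p => (⟨(μ p.1, p.1), (hB p.1).symm⟩, p.2)) ?_ ?_
      · intro p _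
        simp
      · intro p _ p' _ e
        simp only [Prod.mk.injEq, Dart.mk.injEq] at e
        exact Prod.ext e.1.2 e.2
    simp only [card_univ, Fintype.card_prod, Fintype.card_fin, ZMod.card, T2] at h3 h4 h5
    nlinarith

lemma par {B : SimpleGraph V} {m : ℕ} {x y : (B.Dart × Fin m) × ZMod 2} (p : (Gc B m).Walk x y) :
    ∃ k ≤ p.length, W B x.1.1.fst y.1.1.fst k ∧ y.2 = x.2 + k := by
  induction p with
  | nil => exact ⟨0, le_rfl, W.nil _ _, by simp⟩
  | @cons x x' y hadj p ih =>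
    obtain ⟨k, hk, h1, h2⟩ := ih
    rcases hadj.2 with h | h
    · exact ⟨k, by simp only [Walk.length_cons]; omega, h.1 ▸ h1, h.2 ▸ h2⟩
    · refine ⟨k + 1, by simp only [Walk.length_cons]; omega, W.cons ?_ h1, ?_⟩
      · rw [← h.1.2]
        exact x.1.1.adj
      · rw [h2, h.2]
        push_cast
        ring

lemma lft {B : SimpleGraph V} {m : ℕ} {x y : B.Dart × Fin m} (p : (Gd B m).Walk x y) :
    ∀ s, ∃ t, W (Gc B m) (x, s) (y, t) p.length := by
  induction p with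
  | nil => exact fun s => ⟨s, W.nil _ _⟩
  | @cons x x' y hadj p ih =>
    intro s
    rcases hadj.2 with h | h
    · obtain ⟨t, ht⟩ := ih s
      exact ⟨t, W.cons (b := (x', s)) ⟨hadj.1, Or.inl ⟨h, rfl⟩⟩ ht⟩
    · obtain ⟨t, ht⟩ := ih (s + 1)
      exact ⟨t, W.cons (b := (x', s + 1)) ⟨hadj.1, Or.inr ⟨h, rfl⟩⟩ ht⟩

/-- the rooted ball of `G` at `v` is isomorphic to `(F, o)` -/
def BP {U : Type} (G : SimpleGraph U) (r k : ℕ) (F : SimpleGraph (Fin k)) (o : Fin k) (v : U) : Prop :=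
  ∃ e : {w : U // G.dist v w ≤ r} ≃ Fin k,
    (∀ a : {w : U // G.dist v w ≤ r}, (a.1 = v ↔ e a = o)) ∧
    (∀ a b : {w : U // G.dist v w ≤ r}, (G.Adj a.1 b.1 ↔ F.Adj (e a) (e b)))

lemma BP_iff {U U' : Type} {G : SimpleGraph U} {G' : SimpleGraph U'} {r k : ℕ}
    {F : SimpleGraph (Fin k)} {o : Fin k} {v : U} {v' : U'}
    (φ : {w : U // G.dist v w ≤ r} ≃ {w : U' // G'.dist v' w ≤ r})
    (h1 : ∀ a, a.1 = v ↔ (φ a).1 = v') (h2 : ∀ a b, G.Adj a.1 b.1 ↔ G'.Adj (φ a).1 (φ b).1) :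
    BP G r k F o v ↔ BP G' r k F o v' := by
  constructor
  · rintro ⟨e, he1, he2⟩
    refine ⟨φ.symm.trans e, fun a => ?_, fun a b => ?_⟩
    · rw [Equiv.trans_apply, ← he1, h1, φ.apply_symm_apply]
    · rw [Equiv.trans_apply, Equiv.trans_apply, ← he2, h2, φ.apply_symm_apply, φ.apply_symm_apply]
  · rintro ⟨e, he1, he2⟩
    exact ⟨φ.trans e, fun a => by rw [Equiv.trans_apply, ← he1, h1],
      fun a b => by rw [Equiv.trans_apply, Equiv.trans_apply, ← he2, h2]⟩

lemma BP_Gc {B : SimpleGraph V} {m r : ℕ} (hc : (Gc B m).Connected) (hO : OG B (2 * r + 1))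
    (k : ℕ) (F : SimpleGraph (Fin k)) (o : Fin k) (x : (B.Dart × Fin m) × ZMod 2) :
    BP (Gc B m) r k F o x ↔ BP (Gd B m) r k F o x.1 := by
  have hc' : (Gd B m).Connected := hc.map (pr B m) Prod.fst_surjective
  have hp : ∀ a : {w // (Gc B m).dist x w ≤ r}, ∃ k ≤ r, W B x.1.1.fst a.1.1.1.fst k ∧
      a.1.2 = x.2 + k := by
    intro a
    obtain ⟨p, hp⟩ := W.of_conn hc x a.1
    obtain ⟨k, hk, h⟩ := par p
    exact ⟨k, by have := a.2; omega, h⟩
  have hsame : ∀ a b : {w // (Gc B m).dist x w ≤ r}, a.1.1.1.fst = b.1.1.1.fst → b.1.2 = a.1.2 := by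
    intro a b hab
    obtain ⟨k, hk, h1, h2⟩ := hp a
    obtain ⟨l, hl, h3, h4⟩ := hp b
    rw [← hab] at h3
    have := hO _ _ (h1.append h3.symm) (by omega)
    rw [h2, h4, (ZMod.natCast_eq_natCast_iff' l k 2).2 (by omega)]
  have hswap : ∀ a b : {w // (Gc B m).dist x w ≤ r}, a.1.1.1.snd = b.1.1.1.fst →
      b.1.2 = a.1.2 + 1 := by
    intro a b hab
    obtain ⟨k, hk, h1, h2⟩ := hp a
    obtain ⟨l, hl, h3, h4⟩ := hp b
    rw [← hab] at h3
    have := hO _ _ (h1.append (W.cons a.1.1.1.adj h3.symm)) (by omega)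
    rw [h2, h4, (ZMod.natCast_eq_natCast_iff' l (k + 1) 2).2 (by omega)]
    push_cast
    ring
  let f : {w // (Gc B m).dist x w ≤ r} → {w // (Gd B m).dist x.1 w ≤ r} := fun a =>
    ⟨a.1.1, ((W.of_conn hc x a.1).map (pr B m)).dist_le.trans a.2⟩
  have hinj : Function.Injective f := by
    intro a b h
    have e : a.1.1 = b.1.1 := congrArg Subtype.val h
    exact Subtype.ext (Prod.ext e (hsame a b (by rw [e])).symm)
  have hsurj : Function.Surjective f := by
    intro b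
    obtain ⟨p, hp⟩ := W.of_conn hc' x.1 b.1
    obtain ⟨t, ht⟩ := lft p x.2
    exact ⟨⟨(b.1, t), ht.dist_le.trans (hp.le.trans b.2)⟩, rfl⟩
  refine BP_iff (Equiv.ofBijective f ⟨hinj, hsurj⟩) (fun a => ⟨fun h => ?_, fun h => ?_⟩)
    fun a b => ⟨fun h => (pr B m).map_rel h, fun h => ⟨h.1, ?_⟩⟩
  · exact congrArg Prod.fst h
  · exact congrArg Subtype.val (hinj (a₁ := a) (a₂ := ⟨x, by simp⟩) (Subtype.ext h))
  · rcases h.2 with h | h
    · exact Or.inl ⟨h, hsame a b h⟩
    · exact Or.inr ⟨h, hswap a b h.2⟩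

lemma iso_dist {U U' : Type} {G : SimpleGraph U} {G' : SimpleGraph U'} (hG : G.Connected)
    (φ : G ≃g G') (a b : U) : G'.dist (φ a) (φ b) = G.dist a b := by
  have hG' : G'.Connected := hG.map φ.toHom φ.surjective
  refine le_antisymm ((W.of_conn hG a b).map φ.toHom).dist_le ?_
  have := ((W.of_conn hG' (φ a) (φ b)).map φ.symm.toHom).dist_le
  simpa using this

lemma BP_iso {U U' : Type} {G : SimpleGraph U} {G' : SimpleGraph U'} (hG : G.Connected)
    (φ : G ≃g G') (r k : ℕ) (F : SimpleGraph (Fin k)) (o : Fin k) (v : U) :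
    BP G r k F o v ↔ BP G' r k F o (φ v) := by
  refine BP_iff (φ.toEquiv.subtypeEquiv fun a => by rw [← iso_dist hG φ]; rfl) (fun a => ?_)
    fun a b => φ.map_rel_iff.symm
  exact φ.injective.eq_iff.symm

lemma deg_Gd [Fintype V] {B : SimpleGraph V} [Fintype B.Dart] {m D : ℕ}
    (hD : ∀ x, (nb B x).card ≤ D) (x : B.Dart × Fin m) :
    ((Gd B m).neighborSet x).ncard ≤ (D + 1) * m := by
  classical
  have h1 : (Gd B m).neighborSet x ⊆
      ↑((insert x.1.symm (univ.filter fun b : B.Dart => b.fst = x.1.fst)) ×ˢ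
        (univ : Finset (Fin m))) := by
    intro y hy
    simp only [coe_product, coe_insert, coe_filter, mem_univ, true_and, coe_univ, Set.mem_prod,
      Set.mem_insert_iff, Set.mem_ofPred_eq, Set.mem_univ, and_true]
    rcases hy.2 with h | h
    · exact Or.inr h.symm
    · exact Or.inl (Dart.ext _ _ (Prod.ext h.2.symm h.1.symm))
  have h2 := Set.ncard_le_ncard h1 (Set.toFinite _)
  rw [Set.ncard_coe_finset, card_product, card_univ, Fintype.card_fin] at h2
  refine h2.trans (Nat.mul_le_mul_right _ ((card_insert_le _ _).trans ?_))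
  refine Nat.add_le_add_right (le_trans ?_ (hD x.1.fst)) _
  refine card_le_card_of_injOn (fun b => b.snd) ?_ ?_
  · intro b hb
    have := (mem_filter.1 (mem_coe.1 hb)).2
    refine mem_coe.2 (mem_nb.2 ?_)
    rw [← this]
    exact b.adj
  · intro b hb c hc e
    exact Dart.ext _ _ (Prod.ext ((mem_filter.1 (mem_coe.1 hb)).2.trans
      (mem_filter.1 (mem_coe.1 hc)).2.symm) e)

end Pool.Agent.H14.Rw
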