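import Pool.Agent.H14.Rw3

set_option autoImplicit false

namespace Pool.Agent.H14.Rw

open Finset SimpleGraph Filter Topology

/-- ball statistics -/
noncomputable def St (X : Σ N : ℕ, SimpleGraph (Fin N)) (r k : ℕ) (F : SimpleGraph (Fin k))
    (o : Fin k) : ℝ := (({v | BP X.2 r k F o v}.ncard : ℕ) : ℝ) / (X.1 : ℝ)

/-- admissible costs -/
def CS (X : Σ N : ℕ, SimpleGraph (Fin N)) : Set ℝ :=
  {x : ℝ | ∃ H : SimpleGraph (Fin X.1), H.Connected ∧
    (∀ u v : Fin X.1, ((H.dist u v : ℝ) ≤ 2 * (X.2.dist u v : ℝ)) ∧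
      ((X.2.dist u v : ℝ) ≤ 2 * (H.dist u v : ℝ))) ∧ x = (H.edgeSet.ncard : ℝ) / (X.1 : ℝ)}

/-- transport to `Fin` -/
noncomputable def tr {U : Type} [Fintype U] (G : SimpleGraph U) : Σ N : ℕ, SimpleGraph (Fin N) :=
  ⟨Fintype.card U, G.overFin rfl⟩

lemma iso_edges {U U' : Type} {G : SimpleGraph U} {G' : SimpleGraph U'} (φ : G ≃g G') :
    G.edgeSet.ncard = G'.edgeSet.ncard := Nat.card_congr φ.mapEdgeSet

lemma tr_conn {U : Type} [Fintype U] {G : SimpleGraph U} (h : G.Connected) : (tr G).2.Connected :=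
  h.map (G.overFinIso rfl).toHom (G.overFinIso rfl).surjective

lemma tr_deg {U : Type} [Fintype U] {G : SimpleGraph U} {D : ℕ}
    (h : ∀ x, (G.neighborSet x).ncard ≤ D) (v : Fin (tr G).1) :
    ((tr G).2.neighborSet v).ncard ≤ D := by
  obtain ⟨x, rfl⟩ := (G.overFinIso rfl).surjective v
  exact (Nat.card_congr ((G.overFinIso rfl).mapNeighborSet x)).symm.le.trans (h x)

lemma tr_St {U : Type} [Fintype U] {G : SimpleGraph U} (h : G.Connected) (r k : ℕ)
    (F : SimpleGraph (Fin k)) (o : Fin k) :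
    St (tr G) r k F o = ({v | BP G r k F o v}.ncard : ℝ) / Fintype.card U := by
  unfold St
  congr 2
  exact (Nat.card_congr ((G.overFinIso rfl).toEquiv.subtypeEquiv fun a =>
    BP_iso h (G.overFinIso rfl) r k F o a)).symm

lemma tr_upper {U : Type} [Fintype U] {G H : SimpleGraph U} (h : G.Connected)
    (h1 : ∀ x y, G.Adj x y → ∃ k ≤ 2, W H x y k) (h2 : ∀ x y, H.Adj x y → ∃ k ≤ 2, W G x y k) :
    (H.edgeSet.ncard : ℝ) / Fintype.card U ∈ CS (tr G) := by
  obtain ⟨a1, a2⟩ := lip_conn h h1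
  obtain ⟨_, a3⟩ := lip_conn a1 h2
  refine ⟨H.overFin rfl, tr_conn a1, fun u v => ?_, by rw [iso_edges (H.overFinIso rfl)]; rfl⟩
  obtain ⟨x, rfl⟩ := (G.overFinIso rfl).surjective u
  obtain ⟨y, rfl⟩ := (G.overFinIso rfl).surjective v
  have e1 := iso_dist h (G.overFinIso rfl) x y
  have e2 : (H.overFin rfl).dist (G.overFinIso rfl x) (G.overFinIso rfl y) = H.dist x y :=
    iso_dist a1 (H.overFinIso rfl) x y
  simp only [tr]
  rw [e1, e2]
  exact ⟨by exact_mod_cast a2 x y, by exact_mod_cast a3 x y⟩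

lemma tr_lower {U : Type} [Fintype U] {G : SimpleGraph U} (h : G.Connected) {x : ℝ}
    (hx : x ∈ CS (tr G)) : ∃ H : SimpleGraph U, x = (H.edgeSet.ncard : ℝ) / Fintype.card U ∧
      (∀ x y, G.Adj x y → ∃ k ≤ 2, W H x y k) ∧ (∀ x y, H.Adj x y → ∃ k ≤ 2, W G x y k) := by
  obtain ⟨H, h1, h2, rfl⟩ := hx
  let φ := G.overFinIso rfl
  let ψ := Iso.comap φ.toEquiv H
  have hc : (H.comap φ.toEquiv.toEmbedding).Connected := h1.map ψ.symm.toHom ψ.symm.surjective
  have e : ∀ x y, H.dist (φ x) (φ y) = (H.comap φ.toEquiv.toEmbedding).dist x y :=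
    fun x y => iso_dist hc ψ x y
  refine ⟨H.comap φ.toEquiv.toEmbedding,
    congrArg (fun t : ℕ => (t : ℝ) / (Fintype.card U : ℝ)) (iso_edges ψ).symm, fun x y hxy => ?_,
    fun x y hxy => ?_⟩
  · refine ⟨_, ?_, W.of_conn hc x y⟩
    have a1 := (h2 (φ x) (φ y)).1
    have a2 : (tr G).2.dist (φ x) (φ y) = 1 :=
      (iso_dist h φ x y).trans (dist_eq_one_iff_adj.2 hxy)
    rw [a2, e] at a1
    exact_mod_cast a1
  · refine ⟨_, ?_, W.of_conn h x y⟩
    have a1 := (h2 (φ x) (φ y)).2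
    have a2 : (tr G).2.dist (φ x) (φ y) = G.dist x y := iso_dist h φ x y
    rw [a2, e, dist_eq_one_iff_adj.2 hxy] at a1
    exact_mod_cast a1

lemma CS_bdd (X : Σ N : ℕ, SimpleGraph (Fin N)) : BddBelow (CS X) :=
  ⟨0, by rintro _ ⟨H, _, _, rfl⟩; positivity⟩

lemma arith (K Q m d q E E' h : ℝ) (hK : K = 324000) (hm : m = 108000 * Q) (hQ : 0 < Q)
    (hd0 : 0 < d) (hd : d ≤ 27000 * q) (h1 : K * h ≤ 2 * E)
    (h2 : 3 * m * d ≤ 2 * E + 4 * h + 2 * m * (2 * q) + 4 * Q * d)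
    (h3 : E' + (8 * q + 1) * m ≤ 3 * m * d) :
    E' / (d * m * 2) + 1 / 27000 ≤ E / (d * m) := by
  have hm0 : 0 < m := by rw [hm]; positivity
  have e : E' / (d * m * 2) + 1 / 27000 = (E' / 2 + d * m / 27000) / (d * m) := by
    field_simp
  rw [e]
  refine div_le_div_of_nonneg_right ?_ (by positivity)
  have h4 : d * m ≤ 27000 * q * m := mul_le_mul_of_nonneg_right hd hm0.le
  have h5 : 4 * Q * d = d * m / 27000 := by rw [hm]; ring
  have h6 : 0 < d * m := by positivity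
  subst hK
  nlinarith

lemma pair : ∃ D : ℕ, ∀ g : ℕ, ∃ X Y : Σ N : ℕ, SimpleGraph (Fin N),
    X.2.Connected ∧ Y.2.Connected ∧ (∀ v, (X.2.neighborSet v).ncard ≤ D) ∧
    (∀ v, (Y.2.neighborSet v).ncard ≤ D) ∧
    (∀ r, 2 * r + 1 ≤ g → ∀ k F o, St Y r k F o = St X r k F o) ∧
    sInf (CS Y) + 1 / 27000 ≤ sInf (CS X) := by
  classical
  obtain ⟨K, hK⟩ : ∃ K : ℕ, K = 324000 := ⟨_, rfl⟩
  obtain ⟨Q, hQ⟩ : ∃ Q : ℕ, Q = 1 + K + K * K := ⟨_, rfl⟩
  obtain ⟨m, hm⟩ : ∃ m : ℕ, m = 108000 * Q := ⟨_, rfl⟩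
  have hQ0 : 0 < Q := by omega
  have hm0 : 0 < m := by omega
  refine ⟨(3000 + 1) * m, fun g => ?_⟩
  obtain ⟨q, B, hq, hB, hD, hO, hal⟩ := base g
  have hc := Gc_conn hm0 B hB
  have hc' : (Gd B m).Connected := hc.map (pr B m) Prod.fst_surjective
  refine ⟨tr (Gd B m), tr (Gc B m), tr_conn hc', tr_conn hc, tr_deg (deg_Gd hD), tr_deg ?_, ?_, ?_⟩
  · intro x
    refine le_trans ?_ (deg_Gd hD x.1)
    refine Set.ncard_le_ncard_of_injOn Prod.fst (fun y hy => (pr B m).map_rel hy) ?_ (Set.toFinite _)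
    intro y hy z hz e
    refine Prod.ext e ?_
    have e' : y.1 = z.1 := e
    rcases hy.2 with h | h <;> rcases hz.2 with h' | h'
    · rw [h.2, h'.2]
    · rw [e'] at h
      exact absurd (h.1.symm.trans h'.1.1) z.1.1.fst_ne_snd
    · rw [e'] at h
      exact absurd (h'.1.symm.trans h.1.1) z.1.1.fst_ne_snd
    · rw [h.2, h'.2]
  · intro r hr k F o
    rw [tr_St hc, tr_St hc']
    have e : {v | BP (Gc B m) r k F o v} = {v | BP (Gd B m) r k F o v} ×ˢ (Set.univ : Set (ZMod 2)) := by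
      ext x
      simp only [Set.mem_ofPred_eq, Set.mem_prod, Set.mem_univ, and_true]
      exact BP_Gc hc (fun a l h hl => hO a l h (hl.trans hr)) k F o x
    rw [e, Set.ncard_prod, Set.ncard_univ, Nat.card_zmod, Fintype.card_prod _ (ZMod 2), ZMod.card]
    push_cast
    rw [mul_div_mul_right _ _ (by norm_num)]
  · obtain ⟨H', a1, a2, a3⟩ := upper hm0 (Equiv.addRight (1 : ZMod (8 * q + 1))) hB
    refine le_csInf ⟨_, tr_upper hc' (fun x y h => ⟨1, by norm_num, W.cons h (W.nil _ _)⟩)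
      (fun x y h => ⟨1, by norm_num, W.cons h (W.nil _ _)⟩)⟩ fun x hx => ?_
    obtain ⟨H, rfl, b1, b2⟩ := tr_lower hc' hx
    have c1 := csInf_le (CS_bdd _) (tr_upper hc a1 a2)
    obtain ⟨h, d1, d2⟩ := lower (2 * q) m K (B := B) (by
      intro u v
      by_cases e : u + 1 = v
      · refine ⟨u - 1, by simpa using (hB (u - 1)).symm, fun e' => ?_⟩
        have e2 : ((2 : ℕ) : ZMod (8 * q + 1)) = 0 := by
          push_cast
          linear_combination e - e'
        rw [ZMod.natCast_eq_zero_iff] at e2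
        have := Nat.le_of_dvd (by norm_num) e2
        omega
      · exact ⟨u + 1, hB u, e⟩) hal (by omega) H (by
      intro x y hxy
      obtain ⟨k, hk, hw⟩ := b1 x y hxy
      exact (two_cases hw hk).resolve_left hxy.ne) (by
      intro x y hxy
      obtain ⟨k, hk, hw⟩ := b2 x y hxy
      rcases two_cases hw hk with e | e | ⟨z, e1, e2⟩
      · rw [e]; exact Or.inl rfl
      · exact near_of_TA e.2 (TA.refl _)
      · exact near_of_TA e1.2 e2.2)
    rw [← hQ] at d2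
    have hd : Fintype.card B.Dart ≤ 27000 * q := by
      rw [dart_card_eq_sum_degrees]
      have : ∀ v, B.degree v ≤ 3000 := by
        intro v
        refine le_trans (le_of_eq ?_) (hD v)
        rw [← card_neighborFinset_eq_degree]
        congr 1
        ext y
        simp [mem_nb]
      refine (sum_le_sum fun v _ => this v).trans ?_
      simp only [sum_const, card_univ, ZMod.card, smul_eq_mul]
      omega
    have hd0 : 0 < Fintype.card B.Dart := Fintype.card_pos_iff.2 ⟨⟨(0, 0 + 1), hB 0⟩⟩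
    rw [ZMod.card] at a3
    have := arith K Q m (Fintype.card B.Dart) q H.edgeSet.ncard H'.edgeSet.ncard h
      (by exact_mod_cast hK) (by exact_mod_cast hm) (by exact_mod_cast hQ0) (by exact_mod_cast hd0)
      (by exact_mod_cast hd) (by exact_mod_cast d1) (by exact_mod_cast d2) (by exact_mod_cast a3)
    simp only [Fintype.card_prod, Fintype.card_fin, ZMod.card] at c1 ⊢
    push_cast at c1 ⊢
    linarith

lemma final : ∃ (D : ℕ) (Z : ℕ → Σ N : ℕ, SimpleGraph (Fin N)), (∀ n, (Z n).2.Connected) ∧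
    (∀ n v, ((Z n).2.neighborSet v).ncard ≤ D) ∧
    (∀ r k F o, ∃ p, Tendsto (fun n => St (Z n) r k F o) atTop (𝓝 p)) ∧
    ¬ ∃ c, Tendsto (fun n => sInf (CS (Z n))) atTop (𝓝 c) := by
  obtain ⟨D, hD⟩ := pair
  choose X Y h1 h2 h3 h4 h5 h6 using hD
  let ι := Σ p : ℕ × ℕ, SimpleGraph (Fin p.2) × Fin p.2
  let s : ℕ → ι → ℝ := fun g i => St (X g) i.1.1 i.1.2 i.2.1 i.2.2
  have hs : ∀ g, s g ∈ Set.pi Set.univ fun _ : ι => Set.Icc (0 : ℝ) 1 := by
    intro g i _
    refine ⟨by simp only [s, St]; positivity, ?_⟩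
    simp only [s, St]
    refine div_le_one_of_le₀ ?_ (by positivity)
    have := Set.ncard_le_card {v | BP (X g).2 i.1.1 i.1.2 i.2.1 i.2.2 v}
    simp only [Nat.card_eq_fintype_card, Fintype.card_fin] at this
    exact_mod_cast this
  obtain ⟨p, _, φ, hφ, hp⟩ := (isCompact_univ_pi fun _ : ι => isCompact_Icc).tendsto_subseq hs
  have hdiv : Tendsto (fun n : ℕ => n / 2) atTop atTop :=
    tendsto_atTop.2 fun b => (eventually_ge_atTop (2 * b)).mono fun n hn => by omega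
  refine ⟨D, fun n => if n % 2 = 0 then X (φ (n / 2)) else Y (φ (n / 2)), ?_, ?_, ?_, ?_⟩
  · intro n
    have key : ∀ Z : Σ N : ℕ, SimpleGraph (Fin N), (Z = X (φ (n / 2)) ∨ Z = Y (φ (n / 2))) →
        Z.2.Connected := by
      rintro Z (rfl | rfl)
      exacts [h1 _, h2 _]
    refine key _ ?_
    by_cases h : n % 2 = 0
    · exact Or.inl (if_pos h)
    · exact Or.inr (if_neg h)
  · intro n
    have key : ∀ Z : Σ N : ℕ, SimpleGraph (Fin N), (Z = X (φ (n / 2)) ∨ Z = Y (φ (n / 2))) →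
        ∀ v, (Z.2.neighborSet v).ncard ≤ D := by
      rintro Z (rfl | rfl)
      exacts [h3 _, h4 _]
    refine key _ ?_
    by_cases h : n % 2 = 0
    · exact Or.inl (if_pos h)
    · exact Or.inr (if_neg h)
  · intro r k F o
    refine ⟨p ⟨(r, k), F, o⟩, ?_⟩
    have a1 := ((tendsto_pi_nhds.1 hp) ⟨(r, k), F, o⟩).comp hdiv
    refine a1.congr' ?_
    filter_upwards [(hφ.tendsto_atTop.comp hdiv).eventually_ge_atTop (2 * r + 1)] with n hn
    split_ifs
    · rfl
    · exact (h5 _ r hn k F o).symm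
  · rintro ⟨c, hc⟩
    have a1 := hc.comp (tendsto_atTop.2 fun b => (eventually_ge_atTop b).mono fun n hn =>
      (by omega : b ≤ 2 * n))
    have a2 := hc.comp (tendsto_atTop.2 fun b => (eventually_ge_atTop b).mono fun n hn =>
      (by omega : b ≤ 2 * n + 1))
    have a3 := le_of_tendsto_of_tendsto' (a2.add_const (1 / 27000)) a1 (by
      intro n
      simp only [Function.comp_apply]
      rw [if_neg (by omega), if_pos (by omega), show (2 * n + 1) / 2 = n by omega,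
        show 2 * n / 2 = n by omega]
      exact h6 _)
    linarith

end Pool.Agent.H14.Rw
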