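import Mathlib

namespace Pool.Agent.H14.Sm1

def g4 (s k : ℕ) : ℕ := s / 5 ^ k % 5
def r1 (m s t k k' : ℕ) : Bool := (Nat.beq (g4 s k) (g4 t k') && Nat.beq k k') || (Nat.beq (g4 m (g4 s k)) k' && Nat.beq (g4 m (g4 t k')) k)
def r2 (m s t k : ℕ) : Bool := r1 m s t k 0 || r1 m s t k 1 || r1 m s t k 2 || r1 m s t k 3
def rl (m s t : ℕ) : Bool := r2 m s t 0 && r2 m s t 1 && r2 m s t 2 && r2 m s t 3
def okm (m : ℕ) : Bool := (List.range 4).all fun a => (List.range 4).all fun b => a == b || g4 m a != g4 m b || g4 m a == 4
def L24 : List (ℕ × Bool) := [(430, true), (330, false), (410, false), (210, true), (290, true), (190, false), (426, false), (326, true), (386, true), (86, false), (266, false), (66, true), (402, true), (202, false), (382, false), (82, true), (142, true), (42, false), (278, false), (178, true), (258, true), (58, false), (138, false), (38, true)]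
theorem chk : (List.range 625).all (fun m => !okm m || L24.all fun s => 
   ((L24.filter fun t => rl m s.1 t.1 && rl m t.1 s.1).map (fun t => if s.2 == t.2 then 1 else 3)).sum ≤ 2) = true := by
  decide +kernel

end Pool.Agent.H14.Sm1
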