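import Pool.Agent.H14.Sm0

namespace Pool.Agent.H14.Sm1

def cd (s : Fin 4 → ℕ) : ℕ := s 0 + 5 * s 1 + 25 * s 2 + 125 * s 3
def pc (s : Equiv.Perm (Fin 4)) : ℕ × Bool := (cd (fun k => (s k).val), decide (Equiv.Perm.sign s = 1))

theorem g4_cd (s : Fin 4 → ℕ) (h : ∀ k, s k < 5) (k : Fin 4) : g4 (cd s) k = s k := by
  have h0 := h 0; have h1 := h 1; have h2 := h 2; have h3 := h 3
  fin_cases k <;> simp [g4, cd] <;> omega

theorem sumL (F : ℕ × Bool → ℕ) : ∑ t : Equiv.Perm (Fin 4), F (pc t) = (L24.map F).sum := by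
  have h : (Finset.univ : Finset (Equiv.Perm (Fin 4))).val.map pc = (L24 : Multiset (ℕ × Bool)) := by decide +kernel
  rw [Finset.sum_eq_multiset_sum, ← Multiset.sum_coe, ← Multiset.map_coe, ← h, Multiset.map_map]; rfl

theorem pc_mem (s : Equiv.Perm (Fin 4)) : pc s ∈ L24 := by revert s; decide +kernel

theorem key {α : Type} (r c : Fin 4 → α) (hr : Function.Injective r) (hc : Function.Injective c)
    (R : Equiv.Perm (Fin 4) → Prop) [DecidablePred R] (σ : Equiv.Perm (Fin 4))
    (h1 : ∀ τ, R τ → ∀ k, ∃ k', s(r (σ k), c k) = s(r (τ k'), c k'))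
    (h2 : ∀ τ, R τ → ∀ k, ∃ k', s(r (τ k), c k) = s(r (σ k'), c k')) :
    ∑ τ ∈ Finset.univ.filter R, (if Equiv.Perm.sign σ = Equiv.Perm.sign τ then 1 else 3) ≤ 2 := by
  classical
  let m : Fin 4 → ℕ := fun k => if h : ∃ l, r k = c l then (h.choose : Fin 4).val else 4
  have hm5 : ∀ k, m k < 5 := fun k => by
    simp only [m]; split_ifs with h
    · have := h.choose.2; omega
    · omega
  have hm : ∀ k l, r k = c l → m k = l := fun k l e => by
    have h : ∃ l, r k = c l := ⟨l, e⟩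
    simp only [m, dif_pos h]
    rw [hc (h.choose_spec.symm.trans e)]
  have hm' : ∀ k, m k ≠ 4 → ∃ l : Fin 4, m k = l ∧ r k = c l := fun k e => by
    by_cases h : ∃ l, r k = c l
    · obtain ⟨l, e⟩ := h; exact ⟨l, hm k l e, e⟩
    · simp only [m, dif_neg h] at e; exact absurd rfl e
  have hok : okm (cd m) = true := by
    simp only [okm, List.all_eq_true, List.mem_range, Bool.or_eq_true, beq_iff_eq, bne_iff_ne]
    intro a ha b hb
    have ea := g4_cd m hm5 ⟨a, ha⟩
    have eb := g4_cd m hm5 ⟨b, hb⟩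
    simp only at ea eb
    rw [ea, eb]
    by_cases h4 : m ⟨a, ha⟩ = 4
    · exact Or.inr h4
    left
    by_cases e : m ⟨a, ha⟩ = m ⟨b, hb⟩
    · left
      obtain ⟨l, e1, e2⟩ := hm' _ h4
      obtain ⟨l', e3, e4⟩ := hm' ⟨b, hb⟩ (by rw [← e]; exact h4)
      have : l = l' := Fin.ext (by omega)
      rw [← this, ← e2] at e4
      exact (congrArg Fin.val (hr e4)).symm
    · exact Or.inr e
  have hrl : ∀ s t : Equiv.Perm (Fin 4), (∀ k, ∃ k', s(r (s k), c k) = s(r (t k'), c k')) →
      rl (cd m) (pc s).1 (pc t).1 = true := by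
    intro s t h
    have gs : ∀ (s : Equiv.Perm (Fin 4)) (k : Fin 4), g4 (pc s).1 k = (s k).val :=
      fun s k => g4_cd (fun k => (s k).val) (fun k => by have := (s k).2; omega) k
    have a : ∀ k : Fin 4, r2 (cd m) (pc s).1 (pc t).1 k = true := by
      intro k
      obtain ⟨k', e⟩ := h k
      have b : r1 (cd m) (pc s).1 (pc t).1 k k' = true := by
        simp only [r1, gs, g4_cd m hm5, Bool.or_eq_true, Bool.and_eq_true, Nat.beq_eq]
        rcases Sym2.eq_iff.1 e with ⟨e1, e2⟩ | ⟨e1, e2⟩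
        · left; exact ⟨congrArg Fin.val (hr e1), congrArg Fin.val (hc e2)⟩
        · right; exact ⟨hm _ _ e1, hm _ _ e2.symm⟩
      simp only [r2, Bool.or_eq_true]
      fin_cases k'
      · exact Or.inl (Or.inl (Or.inl b))
      · exact Or.inl (Or.inl (Or.inr b))
      · exact Or.inl (Or.inr b)
      · exact Or.inr b
    simp only [rl, Bool.and_eq_true]
    exact ⟨⟨⟨a 0, a 1⟩, a 2⟩, a 3⟩
  have hc625 : cd m < 625 := by
    have h0 := hm5 0; have h1 := hm5 1; have h2 := hm5 2; have h3 := hm5 3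
    simp only [cd]; omega
  have H := List.all_eq_true.1 chk (cd m) (List.mem_range.2 hc625)
  rw [hok] at H
  simp only [Bool.not_true, Bool.false_or, List.all_eq_true, decide_eq_true_eq] at H
  refine le_trans ?_ (H _ (pc_mem σ))
  have e : ∀ (P : ℕ × Bool → Bool) (G : ℕ × Bool → ℕ) (L : List (ℕ × Bool)),
      ((L.filter P).map G).sum = (L.map (fun t => if P t then G t else 0)).sum := by
    intro P G L
    induction L with
    | nil => rfl
    | cons a L ih => by_cases h : P a <;> simp [List.filter_cons, h, ih]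
  rw [e, ← sumL, Finset.sum_filter]
  refine Finset.sum_le_sum fun τ _ => ?_
  by_cases hR : R τ
  · rw [if_pos hR, hrl σ τ (h1 τ hR), hrl τ σ (h2 τ hR)]
    simp only [Bool.and_self, if_true, pc]
    rcases Int.units_eq_one_or (Equiv.Perm.sign σ) with a | a <;>
      rcases Int.units_eq_one_or (Equiv.Perm.sign τ) with b | b <;> simp [a, b]
  · rw [if_neg hR]; exact Nat.zero_le _

end Pool.Agent.H14.Sm1
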