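import Mathlib

set_option autoImplicit false
set_option linter.unusedSectionVars false

namespace Pool.Agent.H14.Sp

open Finset SimpleGraph
open scoped Classical

variable {V : Type} [Fintype V]

/-- The template relation. -/
def Rel (U W Z : Finset V) (col : V → Bool) (v w : V) : Prop :=
  (v ∈ U ∧ w ∉ Z) ∨ (w ∈ U ∧ v ∉ Z) ∨ (v ∉ U ∧ w ∉ U ∧ (col v ≠ col w ∨ (v ∈ W ∧ w ∈ W)))

/-- The graph fits in a template. -/
def P (G : SimpleGraph V) : Prop :=
  ∃ (U W Z : Finset V) (col : V → Bool), U.card ≤ 1 ∧ W.card ≤ 3 ∧ (W \ Z).card ≤ 1 ∧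
    ∀ v w, G.Adj v w → Rel U W Z col v w

lemma P.copy {V' : Type} [Fintype V'] {G : SimpleGraph V} {F : SimpleGraph V'} (h : P G)
    (hF : F ⊑ G) : P F := by
  obtain ⟨f⟩ := hF
  obtain ⟨U, W, Z, col, h1, h2, h3, h4⟩ := h
  have k : ∀ (S : Finset V) (T : Finset V'), (∀ a ∈ T, f a ∈ S) → T.card ≤ S.card :=
    fun S T hT => card_le_card_of_injOn f hT fun a _ b _ e => f.injective e
  refine ⟨univ.filter (f · ∈ U), univ.filter (f · ∈ W), univ.filter (f · ∈ Z), col ∘ f,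
    (k U _ (by simp)).trans h1, (k W _ (by simp)).trans h2, (k (W \ Z) _ (by simp)).trans h3,
    fun v w e => ?_⟩
  simpa [Rel] using h4 (f v) (f w) (f.toHom.map_rel e)

def Thick (G : SimpleGraph V) (v w : V) : Prop :=
  G.Adj v w ∧ ∃ C : Finset V, C.card = 4 ∧ ∀ c ∈ C, G.Adj v c ∧ G.Adj w c

omit [Fintype V] in
lemma Thick.symm {G : SimpleGraph V} {v w : V} (h : Thick G v w) : Thick G w v :=
  ⟨h.1.symm, h.2.imp fun _ h => ⟨h.1, fun c hc => (h.2 c hc).symm⟩⟩

omit [Fintype V] in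
lemma tri_W {G : SimpleGraph V} {U W Z : Finset V} {col : V → Bool}
    (h : ∀ v w, G.Adj v w → Rel U W Z col v w) {a b : V} (e : G.Adj a b) (ha : a ∉ U) (hb : b ∉ U)
    (hc : col a = col b) : a ∈ W ∧ b ∈ W := by
  rcases h a b e with h | h | h
  exacts [absurd h.1 ha, absurd h.1 hb, h.2.2.resolve_left (not_not.2 hc)]

omit [Fintype V] in
lemma thick_W {G : SimpleGraph V} {U W Z : Finset V} {col : V → Bool} (h1 : U.card ≤ 1)
    (h2 : W.card ≤ 3) (h : ∀ v w, G.Adj v w → Rel U W Z col v w) {v w : V} (t : Thick G v w)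
    (hv : v ∉ U) (hw : w ∉ U) : v ∈ W ∧ w ∈ W := by
  obtain ⟨e, C, hC, hc⟩ := t
  refine tri_W h e hv hw (by_contra fun hn => ?_)
  have h3 := le_card_sdiff U C
  have k : ∀ c ∈ C \ U, c ∈ W ∧ (v ∈ W ∨ w ∈ W) := by
    intro c hcc
    obtain ⟨c1, c2⟩ := mem_sdiff.1 hcc
    by_cases hh : col v = col c
    · exact (tri_W h (hc c c1).1 hv c2 hh).symm.imp id Or.inl
    · exact (tri_W h (hc c c1).2 hw c2 (by
        revert hn hh; cases col v <;> cases col w <;> cases col c <;> simp)).symm.imp id Or.inr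
  obtain ⟨c, hc0⟩ : (C \ U).Nonempty := card_pos.1 (by omega)
  have k2 : ∀ a ∈ W, a ∉ C → False := by
    intro a ha ha'
    have := card_le_card (show insert a (C \ U) ⊆ W from insert_subset ha fun c hc => (k c hc).1)
    rw [card_insert_of_notMem (by simp [ha'])] at this
    omega
  rcases (k c hc0).2 with a | a
  · exact k2 v a fun hh => (hc v hh).1.ne rfl
  · exact k2 w a fun hh => (hc w hh).2.ne rfl

lemma P.tri {G : SimpleGraph V} (h : P G) (t : Fin 3 → Finset V) (ht : ∀ i, G.IsNClique 3 (t i))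
    (hd : ∀ i j, i ≠ j → Disjoint (t i) (t j)) : False := by
  obtain ⟨U, W, Z, col, h1, h2, -, h4⟩ := h
  have k : ∀ i, 1 ≤ (t i ∩ U).card ∨ 2 ≤ (t i ∩ W).card := by
    intro i
    obtain ⟨a, b, c, e1, e2, e3, e⟩ := is3Clique_iff.1 (ht i)
    by_contra hn
    rw [not_or, not_le, Nat.lt_one_iff, card_eq_zero] at hn
    have nU : ∀ x ∈ t i, x ∉ U := fun x hx hu => by
      have := mem_inter_of_mem hx hu
      simp [hn.1] at this
    have k2 : ∀ x ∈ t i, ∀ y ∈ t i, G.Adj x y → col x ≠ col y := fun x hx y hy exy hc => by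
      have := tri_W h4 exy (nU x hx) (nU y hy) hc
      exact hn.2 (one_lt_card.2 ⟨x, mem_inter_of_mem hx this.1, y, mem_inter_of_mem hy this.2,
        exy.ne⟩)
    have := k2 a (by simp [e]) b (by simp [e]) e1
    have := k2 a (by simp [e]) c (by simp [e]) e2
    have := k2 b (by simp [e]) c (by simp [e]) e3
    cases hh : col a <;> cases hh' : col b <;> simp_all
  have k3 : ∀ (S : Finset V) i j, i ≠ j → (t i ∩ S).card + (t j ∩ S).card ≤ S.card := by
    intro S i j hij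
    rw [← card_union_of_disjoint (disjoint_of_subset_left inter_subset_left
      (disjoint_of_subset_right inter_subset_left (hd i j hij)))]
    exact card_le_card (union_subset inter_subset_right inter_subset_right)
  have := k 0
  have := k 1
  have := k 2
  have := k3 U 0 1 (by decide)
  have := k3 U 0 2 (by decide)
  have := k3 U 1 2 (by decide)
  have := k3 W 0 1 (by decide)
  have := k3 W 0 2 (by decide)
  have := k3 W 1 2 (by decide)
  omega

lemma P.hub {G : SimpleGraph V} (h : P G) {u : V} {D E : Finset V} (hD : D.card = 4)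
    (hu : ∀ a ∈ D, Thick G u a) (hE : ∀ v ∈ E, v ≠ u ∧ ∃ w, w ≠ u ∧ Thick G v w) :
    E.card ≤ 3 ∧ (E.filter (G.Adj u)).card ≤ 1 := by
  obtain ⟨U, W, Z, col, h1, h2, h3, h4⟩ := h
  have hU : u ∈ U := by
    by_contra hn
    have h5 := le_card_sdiff U D
    have k : ∀ a ∈ D \ U, u ∈ W ∧ a ∈ W := fun a ha =>
      thick_W h1 h2 h4 (hu a (mem_sdiff.1 ha).1) hn (mem_sdiff.1 ha).2
    obtain ⟨c, hc0⟩ : (D \ U).Nonempty := card_pos.1 (by omega)
    have := card_le_card (show insert u (D \ U) ⊆ W from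
      insert_subset (k c hc0).1 fun c hc => (k c hc).2)
    rw [card_insert_of_notMem fun hh => (hu u (mem_sdiff.1 hh).1).1.ne rfl] at this
    omega
  have nU : ∀ v, v ≠ u → v ∉ U := fun v hv hh => hv (card_le_one.1 h1 _ hh _ hU)
  have hW : ∀ v ∈ E, v ∈ W := fun v hv => by
    obtain ⟨a, w, b, t⟩ := hE v hv
    exact (thick_W h1 h2 h4 t (nU v a) (nU w b)).1
  refine ⟨(card_le_card hW).trans h2, (card_le_card fun v hv => ?_).trans h3⟩
  obtain ⟨a, b⟩ := mem_filter.1 hv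
  refine mem_sdiff.2 ⟨hW v a, ?_⟩
  rcases h4 u v b with h | h | h
  exacts [h.2, absurd h.1 (nU v (hE v a).1), absurd hU h.1]

/-- Every 48 vertices span a graph that fits in a template. -/
def Loc (G : SimpleGraph V) : Prop := ∀ F : SimpleGraph (Fin 48), F ⊑ G → P F

def res (G : SimpleGraph V) (S : Finset V) : SimpleGraph V where
  Adj v w := G.Adj v w ∧ v ∈ S ∧ w ∈ S
  symm := ⟨fun _ _ h => ⟨h.1.symm, h.2.symm⟩⟩
  loopless := ⟨fun _ h => h.1.ne rfl⟩

lemma Loc.res {G : SimpleGraph V} (h : Loc G) (hn : 48 ≤ Fintype.card V) (S : Finset V)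
    (hS : S.card ≤ 48) : P (res G S) := by
  obtain ⟨T, hT, hc⟩ := exists_superset_card_eq hS hn
  let f : Fin 48 ↪ V := ⟨fun i => (T.equivFinOfCardEq hc).symm i, fun a b e =>
    (T.equivFinOfCardEq hc).symm.injective (Subtype.ext e)⟩
  have hf : ∀ v ∈ S, ∃ a, f a = v := fun v hv =>
    ⟨T.equivFinOfCardEq hc ⟨v, hT hv⟩, by simp [f]⟩
  obtain ⟨U, W, Z, col, h1, h2, h3, h4⟩ := h (G.comap f) ⟨(Embedding.comap f G).toCopy⟩
  refine ⟨U.map f, W.map f, Z.map f, Function.extend f col fun _ => false, by simpa using h1,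
    by simpa using h2, by rw [← Finset.map_sdiff, card_map]; convert h3, ?_⟩
  rintro v w ⟨e, hv, hw⟩
  obtain ⟨a, rfl⟩ := hf v hv
  obtain ⟨b, rfl⟩ := hf w hw
  simpa [Rel, f.injective.extend_apply] using h4 a b e

lemma Loc.tri {G : SimpleGraph V} (h : Loc G) (hn : 48 ≤ Fintype.card V) (t : Fin 3 → Finset V)
    (ht : ∀ i, G.IsNClique 3 (t i)) (hd : ∀ i j, i ≠ j → Disjoint (t i) (t j)) : False := by
  refine (h.res hn (univ.biUnion t) ((card_biUnion_le_card_mul _ _ 3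
    fun i _ => (ht i).2.le).trans (by simp))).tri t (fun i => ⟨fun a ha b hb e => ?_, (ht i).2⟩) hd
  exact ⟨(ht i).1 ha hb e, mem_biUnion.2 ⟨i, mem_univ _, ha⟩, mem_biUnion.2 ⟨i, mem_univ _, hb⟩⟩

lemma Loc.hub {G : SimpleGraph V} (h : Loc G) (hn : 48 ≤ Fintype.card V) {u : V} {D E : Finset V}
    (hD : D.card = 4) (hu : ∀ a ∈ D, Thick G u a)
    (hE : ∀ v ∈ E, v ≠ u ∧ ∃ w, w ≠ u ∧ Thick G v w) :
    E.card ≤ 3 ∧ (E.filter (G.Adj u)).card ≤ 1 := by
  have wit : ∀ v w, ∃ C : Finset V, C.card ≤ 6 ∧ (Thick G v w → v ∈ C ∧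
      ∀ S, C ⊆ S → Thick (Sp.res G S) v w) := by
    intro v w
    by_cases t : Thick G v w
    · obtain ⟨e, C, hC, hc⟩ := t
      refine ⟨insert v (insert w C), (card_insert_le _ _).trans
        (by have := card_insert_le w C; omega), fun _ => ⟨by simp, fun S hS => ?_⟩⟩
      have a : v ∈ S := hS (by simp)
      have b : w ∈ S := hS (by simp)
      exact ⟨⟨e, a, b⟩, C, hC, fun c hcc => ⟨⟨(hc c hcc).1, a, hS (by simp [hcc])⟩,
        (hc c hcc).2, b, hS (by simp [hcc])⟩⟩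
    · exact ⟨∅, by simp, fun h => absurd h t⟩
  choose C hC1 hC2 using wit
  have key : ∀ E' ⊆ E, E'.card ≤ 4 → E'.card ≤ 3 ∧ (E'.filter (G.Adj u)).card ≤ 1 := by
    intro E' h1 h2
    choose! g hg using fun v hv => (hE v hv).2
    let S := D.biUnion (C u) ∪ E'.biUnion fun v => C v (g v)
    have hS : S.card ≤ 48 := by
      have a := card_biUnion_le_card_mul D (C u) 6 fun a _ => hC1 _ _
      have b := card_biUnion_le_card_mul E' (fun v => C v (g v)) 6 fun a _ => hC1 _ _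
      exact (card_union_le _ _).trans (by omega)
    have s1 : ∀ a ∈ D, C u a ⊆ S := fun a ha =>
      (subset_biUnion_of_mem _ ha).trans subset_union_left
    have s2 : ∀ v ∈ E', C v (g v) ⊆ S := fun v hv =>
      (subset_biUnion_of_mem (fun v => C v (g v)) hv).trans subset_union_right
    obtain ⟨a, b⟩ := (h.res hn S hS).hub (E := E') hD (fun a ha => (hC2 _ _ (hu a ha)).2 S (s1 a ha))
      fun v hv => ⟨(hE v (h1 hv)).1, g v, (hg v (h1 hv)).1,
        (hC2 _ _ (hg v (h1 hv)).2).2 S (s2 v hv)⟩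
    obtain ⟨d, hd⟩ : D.Nonempty := card_pos.1 (by omega)
    refine ⟨a, le_trans (card_le_card fun v hv => ?_) b⟩
    obtain ⟨p, q⟩ := mem_filter.1 hv
    exact mem_filter.2 ⟨p, q, s1 d hd (hC2 _ _ (hu d hd)).1, s2 v p (hC2 _ _ (hg v (h1 p)).2).1⟩
  have h3 : E.card ≤ 3 := by
    by_contra hn
    obtain ⟨E', a, b⟩ := exists_subset_card_eq (show 4 ≤ E.card by omega)
    have := (key E' a b.le).1
    omega
  exact key E Subset.rfl (by omega)

end Pool.Agent.H14.Sp
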