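import Pool.Agent.H14.Sp1

set_option autoImplicit false
set_option linter.unusedSectionVars false

namespace Pool.Agent.H14.Sp

open Finset SimpleGraph
open scoped Classical

variable {V : Type} [Fintype V]

noncomputable def nb (G : SimpleGraph V) (v : V) : Finset V := univ.filter (G.Adj v)

@[simp] lemma mem_nb {G : SimpleGraph V} {v w : V} : w ∈ nb G v ↔ G.Adj v w := by simp [nb]

def TA (u : V) (col : V → Bool) : SimpleGraph V where
  Adj v w := v ≠ w ∧ (v = u ∨ w = u ∨ col v ≠ col w)
  symm := ⟨fun _ _ h => ⟨h.1.symm, by have := h.2; tauto⟩⟩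
  loopless := ⟨fun _ h => h.1 rfl⟩

def TB (u : V) (col : V → Bool) (x y z : V) : SimpleGraph V where
  Adj v w := v ≠ w ∧ Rel {u} {x, y, z} {x, y} col v w
  symm := ⟨fun _ _ h => ⟨h.1.symm, by have := h.2; unfold Rel at *; tauto⟩⟩
  loopless := ⟨fun _ h => h.1 rfl⟩

noncomputable def cl (u : V) (col : V → Bool) (c : Bool) : Finset V :=
  univ.filter fun v => v ≠ u ∧ col v = c

@[simp] lemma mem_cl {u v : V} {col : V → Bool} {c : Bool} :
    v ∈ cl u col c ↔ v ≠ u ∧ col v = c := by simp [cl]

lemma cl_card (u : V) (col : V → Bool) :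
    (cl u col true).card + (cl u col false).card + 1 = Fintype.card V := by
  rw [← card_union_of_disjoint (Finset.disjoint_left.2 (by simp +contextual)),
    ← card_insert_of_notMem (a := u) (by simp), ← card_univ]
  congr 1
  ext v
  by_cases h : v = u <;> simp [h]

lemma sides {G : SimpleGraph V} (hL : Loc G) (hn : 130 ≤ Fintype.card V)
    (hδ : ∀ v, Fintype.card V + 1 ≤ 2 * (nb G v).card) :
    ∃ s : Bool → Finset V, Disjoint (s true) (s false) ∧
      (∀ c, ∀ a ∈ s c, ∀ b ∈ s c, ¬ G.Adj a b) ∧ ∀ c, Fintype.card V ≤ 2 * (s c).card + 11 := by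
  obtain ⟨T, hT, hT'⟩ : ∃ T : Finset V, T.card ≤ 6 ∧ ∀ t, G.IsNClique 3 t → ¬ Disjoint T t := by
    by_contra hn'
    push Not at hn'
    obtain ⟨t1, a1, -⟩ := hn' ∅ (by simp)
    obtain ⟨t2, a2, d2⟩ := hn' t1 (by rw [a1.2]; omega)
    obtain ⟨t3, a3, d3⟩ := hn' (t1 ∪ t2) ((card_union_le _ _).trans (by rw [a1.2, a2.2]))
    rw [disjoint_union_left] at d3
    refine hL.tri (by omega) ![t1, t2, t3] (fun i => by fin_cases i <;> assumption) fun i j h => ?_
    fin_cases i <;> fin_cases j <;> first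
      | exact absurd rfl h | exact d2 | exact d2.symm | exact d3.1 | exact d3.1.symm
      | exact d3.2 | exact d3.2.symm
  have nt : ∀ a b c, a ∉ T → b ∉ T → c ∉ T → G.Adj a b → G.Adj a c → G.Adj b c → False :=
    fun a b c ha hb hc e1 e2 e3 => hT' {a, b, c} (is3Clique_triple_iff.2 ⟨e1, e2, e3⟩)
      (by simp [ha, hb, hc])
  have big : ∀ v, Fintype.card V ≤ 2 * (nb G v \ T).card + 11 := fun v => by
    have := le_card_sdiff T (nb G v)
    have := hδ v
    omega
  obtain ⟨v⟩ : Nonempty V := Fintype.card_pos_iff.1 (by omega)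
  obtain ⟨a, ha⟩ : (nb G v \ T).Nonempty := card_pos.1 (by have := big v; omega)
  obtain ⟨b, hb⟩ : (nb G a \ T).Nonempty := card_pos.1 (by have := big a; omega)
  simp only [mem_sdiff, mem_nb] at ha hb
  refine ⟨fun c => if c then nb G a \ T else nb G b \ T, ?_, ?_, ?_⟩
  · refine Finset.disjoint_left.2 fun w h1 h2 => ?_
    simp only [if_true, Bool.false_eq_true, if_false, mem_sdiff, mem_nb] at h1 h2
    exact nt a b w ha.2 hb.2 h1.2 hb.1 h1.1 h2.1
  · rintro (_ | _) p hp q hq e <;>
      simp only [if_true, Bool.false_eq_true, if_false, mem_sdiff, mem_nb] at hp hq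
    exacts [nt b p q hb.2 hp.2 hq.2 hp.1 hq.1 e, nt a p q ha.2 hp.2 hq.2 hp.1 hq.1 e]
  · rintro (_ | _)
    exacts [big b, big a]

lemma inner {G : SimpleGraph V} (hL : Loc G) (hn : 130 ≤ Fintype.card V)
    (hδ : ∀ v, Fintype.card V + 1 ≤ 2 * (nb G v).card) :
    ∃ (u : V) (col : V → Bool) (W : Finset V), W.card ≤ 3 ∧ (W.filter (G.Adj u)).card ≤ 1 ∧
      (∀ c, 4 ≤ (cl u col c).card) ∧
      ∀ v w, G.Adj v w → v ≠ u → w ≠ u → col v = col w → v ∈ W := by
  obtain ⟨s, hd, hi, hs⟩ := sides hL hn hδ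
  let T := univ \ (s true ∪ s false)
  have hT : T.card + (s true).card + (s false).card = Fintype.card V := by
    rw [add_assoc, ← card_union_of_disjoint hd, card_sdiff_add_card_eq_card (subset_univ _),
      card_univ]
  have hT' : T.card ≤ 11 := by
    have := hs true
    have := hs false
    omega
  have hs' : ∀ c, 2 * (s c).card ≤ Fintype.card V + 11 := by
    have := hs true
    have := hs false
    rintro (_ | _) <;> omega
  have hdeg : ∀ v c, Fintype.card V ≤ 2 * ((nb G v ∩ s c).card + (nb G v ∩ s (!c)).card) + 21 := by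
    intro v c
    have h1 : nb G v ⊆ T ∪ (nb G v ∩ s c ∪ nb G v ∩ s (!c)) := by
      intro w hw
      cases c <;> simp only [T, mem_union, mem_sdiff, mem_univ, true_and, mem_inter, hw,
        Bool.not_true, Bool.not_false] <;> tauto
    have := (card_le_card h1).trans ((card_union_le _ _).trans
      (Nat.add_le_add_left (card_union_le _ _) _))
    have := hδ v
    omega
  let col : V → Bool := fun v => decide ((nb G v ∩ s true).card ≤ (nb G v ∩ s false).card)
  have hcol : ∀ v, (nb G v ∩ s (col v)).card ≤ (nb G v ∩ s (!col v)).card := by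
    intro v
    by_cases h : (nb G v ∩ s true).card ≤ (nb G v ∩ s false).card
    · simpa [col, h] using h
    · simpa [col, h] using (not_le.1 h).le
  have h0 : ∀ c, ∀ v ∈ s c, (nb G v ∩ s c).card = 0 := fun c v hv =>
    card_eq_zero.2 (eq_empty_of_forall_notMem fun w hw =>
      hi c v hv w (mem_inter.1 hw).2 (mem_nb.1 (mem_inter.1 hw).1))
  have hsc : ∀ c, ∀ v ∈ s c, col v = c := by
    intro c v hv
    have := h0 c v hv
    have := hdeg v c
    have := hcol v
    by_contra hh
    rw [show col v = !c by revert hh; cases c <;> cases col v <;> simp, Bool.not_not] at this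
    omega
  have thick : ∀ v w, G.Adj v w → col v = col w → (nb G w ∩ s (col w)).card ≤ 3 → Thick G v w := by
    intro v w e hc h3
    have a1 := hdeg v (col v)
    have a2 := hdeg w (col w)
    have a3 := hcol v
    have a4 := hs' (!col w)
    have a5 := card_union_add_card_inter (nb G v ∩ s (!col w)) (nb G w ∩ s (!col w))
    have a6 := card_le_card (show nb G v ∩ s (!col w) ∪ nb G w ∩ s (!col w) ⊆ s (!col w) from
      union_subset inter_subset_right inter_subset_right)
    rw [hc] at a1 a3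
    obtain ⟨C, c1, c2⟩ := exists_subset_card_eq
      (show 4 ≤ (nb G v ∩ s (!col w) ∩ (nb G w ∩ s (!col w))).card by omega)
    refine ⟨e, C, c2, fun c hc => ?_⟩
    have := c1 hc
    simp only [mem_inter, mem_nb] at this
    exact ⟨this.1.1, this.2.1⟩
  have hub : ∀ v, ∀ a ∈ nb G v ∩ s (col v), Thick G v a := fun v a ha => by
    have := hsc _ _ (mem_inter.1 ha).2
    exact thick v a (mem_nb.1 (mem_inter.1 ha).1) this.symm
      (by rw [this, h0 _ _ (mem_inter.1 ha).2]; omega)
  obtain ⟨u, hu⟩ : ∃ u, 4 ≤ (nb G u ∩ s (col u)).card := by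
    by_contra hn'
    push Not at hn'
    obtain ⟨c, hc⟩ : ∃ c, 2 * (univ.filter fun v => col v ≠ c).card ≤ Fintype.card V := by
      have := card_filter_add_card_filter_not (s := univ) fun v => col v ≠ true
      rw [card_univ] at this
      by_cases h : 2 * (univ.filter fun v => col v ≠ true).card ≤ Fintype.card V
      · exact ⟨true, h⟩
      · refine ⟨false, ?_⟩
        rw [show (univ.filter fun v => col v ≠ false) = univ.filter fun v => ¬ col v ≠ true by
          ext v; simp]
        omega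
    have h1 : s c ⊆ T.biUnion fun t => nb G t ∩ s (col t) := by
      intro v hv
      obtain ⟨t, t1, t2⟩ := exists_mem_notMem_of_card_lt_card
        (show (univ.filter fun v => col v ≠ c).card < (nb G v).card by have := hδ v; omega)
      have t3 : col t = c := by simpa using t2
      have t4 : t ∉ s c := fun h => hi c v hv t h (mem_nb.1 t1)
      have t5 : t ∉ s (!c) := fun h => by have := hsc _ _ h; rw [t3] at this; simp at this
      refine mem_biUnion.2 ⟨t, ?_, mem_inter.2 ⟨mem_nb.2 (mem_nb.1 t1).symm, t3 ▸ hv⟩⟩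
      cases c <;> simp_all [T]
    have := (card_le_card h1).trans (card_biUnion_le_card_mul _ _ 3 fun t _ =>
      Nat.lt_succ_iff.1 (hn' t))
    have := hs c
    omega
  obtain ⟨D, d1, d2⟩ := exists_subset_card_eq hu
  obtain ⟨w1, w2⟩ := hL.hub (by omega) d2 (fun a ha => hub u a (d1 ha))
    (E := univ.filter fun v => v ≠ u ∧ ∃ w, w ≠ u ∧ Thick G v w) fun v hv => (mem_filter.1 hv).2
  have small : ∀ v, v ≠ u → (nb G v ∩ s (col v)).card ≤ 3 := by
    intro v hv
    by_contra hn'
    have h1 := pred_card_le_card_erase (s := nb G v ∩ s (col v)) (a := u)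
    obtain ⟨a, ha⟩ : ((nb G v ∩ s (col v)).erase u).Nonempty := card_pos.1 (by omega)
    have := card_le_card (show insert v ((nb G v ∩ s (col v)).erase u) ⊆
        univ.filter fun v => v ≠ u ∧ ∃ w, w ≠ u ∧ Thick G v w from insert_subset
      (mem_filter.2 ⟨mem_univ _, hv, a, (mem_erase.1 ha).1, hub v a (mem_erase.1 ha).2⟩)
      fun b hb => mem_filter.2 ⟨mem_univ _, (mem_erase.1 hb).1, v, hv,
        (hub v b (mem_erase.1 hb).2).symm⟩)
    rw [card_insert_of_notMem (by simp)] at this
    omega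
  refine ⟨u, col, _, w1, w2, fun c => ?_, fun v w e hv hw hc =>
    mem_filter.2 ⟨mem_univ _, hv, w, hw, thick v w e hc (small w hw)⟩⟩
  have h1 := pred_card_le_card_erase (s := s c) (a := u)
  have := card_le_card (show (s c).erase u ⊆ cl u col c from fun v hv =>
    mem_cl.2 ⟨(mem_erase.1 hv).1, hsc c v (mem_erase.1 hv).2⟩)
  have := hs c
  omega

theorem struct {G : SimpleGraph V} (hL : Loc G) (hn : 130 ≤ Fintype.card V)
    (hδ : ∀ v, Fintype.card V + 1 ≤ 2 * (nb G v).card) :
    ∃ (u : V) (col : V → Bool) (m : ℕ), Fintype.card V = 2 * m + 1 ∧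
      (∀ c, (cl u col c).card = m) ∧ (G.edgeSet.ncard ≤ (TA u col).edgeSet.ncard ∨
        ∃ x y z, x ≠ y ∧ x ≠ z ∧ y ≠ z ∧ x ≠ u ∧ y ≠ u ∧ z ≠ u ∧ col y = col x ∧ col z = col x ∧
          G ≤ TB u col x y z) := by
  obtain ⟨u, col, W, w1, w2, h4, hW⟩ := inner hL hn hδ
  have hb : ∀ c, Fintype.card V ≤ 2 * (cl u col (!c)).card + 1 := by
    intro c
    obtain ⟨v, v1, v2⟩ := exists_mem_notMem_of_card_lt_card
      (show W.card < (cl u col c).card by have := h4 c; omega)
    have h1 : nb G v ⊆ insert u (cl u col (!c)) := by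
      intro w hw
      by_cases e : w = u
      · simp [e]
      · have : col v ≠ col w := fun h => v2 (hW v w (mem_nb.1 hw) (mem_cl.1 v1).1 e h)
        rw [(mem_cl.1 v1).2] at this
        refine mem_insert_of_mem (mem_cl.2 ⟨e, ?_⟩)
        revert this; cases c <;> cases col w <;> simp
    have := (card_le_card h1).trans (card_insert_le _ _)
    have := hδ v
    omega
  have b1 : Fintype.card V ≤ 2 * (cl u col false).card + 1 := hb true
  have b2 : Fintype.card V ≤ 2 * (cl u col true).card + 1 := hb false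
  have b3 := cl_card u col
  refine ⟨u, col, (cl u col true).card, by omega, by rintro (_ | _) <;> omega, ?_⟩
  have one : ∀ p ∈ W, ∀ q ∈ W, G.Adj u p → G.Adj u q → p = q := fun p hp q hq a b =>
    card_le_one.1 w2 p (mem_filter.2 ⟨hp, a⟩) q (mem_filter.2 ⟨hq, b⟩)
  have toB : ∀ x y z, x ≠ y → x ≠ z → y ≠ z → x ∈ W → y ∈ W → z ∈ W → ¬ G.Adj u x →
      ¬ G.Adj u y → G ≤ TB u col x y z := by
    intro x y z n1 n2 n3 m1 m2 m3 a1 a2 v w e
    have hW' : {x, y, z} = W := eq_of_subset_of_card_le (by simp [insert_subset_iff, m1, m2, m3])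
      (by rw [card_eq_three.2 ⟨x, y, z, n1, n2, n3, rfl⟩]; exact w1)
    refine ⟨e.ne, ?_⟩
    by_cases hv : v = u
    · subst hv
      refine Or.inl ⟨by simp, ?_⟩
      simp only [mem_insert, mem_singleton]
      rintro (rfl | rfl)
      exacts [a1 e, a2 e]
    by_cases hw : w = u
    · subst hw
      refine Or.inr (Or.inl ⟨by simp, ?_⟩)
      simp only [mem_insert, mem_singleton]
      rintro (rfl | rfl)
      exacts [a1 e.symm, a2 e.symm]
    refine Or.inr (Or.inr ⟨by simpa using hv, by simpa using hw, ?_⟩)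
    rw [hW']
    by_cases hc : col v = col w
    · exact Or.inr ⟨hW v w e hv hw hc, hW w v e.symm hw hv hc.symm⟩
    · exact Or.inl hc
  by_cases h0 : ∃ x z, G.Adj x z ∧ x ≠ u ∧ z ≠ u ∧ col x = col z ∧ ¬ G.Adj u x
  swap
  · refine Or.inl (Set.ncard_le_ncard (edgeSet_mono fun v w e => ⟨e.ne, ?_⟩))
    by_contra hh
    push Not at hh
    obtain ⟨a, b, c⟩ := hh
    have p1 : G.Adj u v := by_contra fun h => h0 ⟨v, w, e, a, b, c, h⟩
    have p2 : G.Adj u w := by_contra fun h => h0 ⟨w, v, e.symm, b, a, c.symm, h⟩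
    exact e.ne (one v (hW v w e a b c) w (hW w v e.symm b a c.symm) p1 p2)
  obtain ⟨x, z, e, xu, zu, c, ux⟩ := h0
  have xW := hW x z e xu zu c
  have zW := hW z x e.symm zu xu c.symm
  by_cases h1 : ∃ r s, G.Adj r s ∧ r ≠ u ∧ s ≠ u ∧ col r = col s ∧ r ≠ x ∧ r ≠ z
  · obtain ⟨r, s, e', ru, su, c', rx, rz⟩ := h1
    have rW := hW r s e' ru su c'
    have sW := hW s r e'.symm su ru c'.symm
    have hW' : {x, z, r} = W := eq_of_subset_of_card_le (by simp [insert_subset_iff, xW, zW, rW])
      (by rw [card_eq_three.2 ⟨x, z, r, e.ne, rx.symm, rz.symm, rfl⟩]; exact w1)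
    have cr : col r = col x := by
      rw [← hW'] at sW
      simp only [mem_insert, mem_singleton] at sW
      rcases sW with rfl | rfl | rfl
      exacts [c', c'.trans c.symm, absurd rfl e'.ne]
    by_cases uz : G.Adj u z
    · exact Or.inr ⟨x, r, z, rx.symm, e.ne, rz, xu, ru, zu, cr, c.symm, toB x r z rx.symm e.ne rz
        xW rW zW ux fun h => rz (one r rW z zW h uz)⟩
    · exact Or.inr ⟨x, z, r, e.ne, rx.symm, rz.symm, xu, zu, ru, c.symm, cr,
        toB x z r e.ne rx.symm rz.symm xW zW rW ux uz⟩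
  · left
    have h2 : G.edgeSet ⊆ insert s(x, z) ((TA u col).edgeSet \ {s(u, x)}) := by
      intro f hf
      induction f using Sym2.ind with
      | _ v w =>
        have e' : G.Adj v w := hf
        by_cases hh : v = u ∨ w = u ∨ col v ≠ col w
        · refine Or.inr ⟨⟨e'.ne, hh⟩, fun h => ux ?_⟩
          rw [Set.mem_singleton_iff] at h
          rw [h] at hf
          exact hf
        · push Not at hh h1
          have p1 := h1 v w e' hh.1 hh.2.1 hh.2.2
          have p2 := h1 w v e'.symm hh.2.1 hh.1 hh.2.2.symm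
          have := e'.ne
          left
          rw [Sym2.eq_iff]
          grind
    refine (Set.ncard_le_ncard h2).trans ((Set.ncard_insert_le _ _).trans ?_)
    rw [Set.ncard_sdiff_singleton_add_one (show s(u, x) ∈ (TA u col).edgeSet from
      ⟨xu.symm, Or.inl rfl⟩)]

end Pool.Agent.H14.Sp
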