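import Pool.Agent.H14.Sp2

set_option autoImplicit false
set_option linter.unusedSectionVars false

namespace Pool.Agent.H14.Sp

open Finset SimpleGraph Matrix
open scoped Classical

variable {V : Type} [Fintype V]

lemma P_TA (u : V) (col : V → Bool) : P (TA u col) :=
  ⟨{u}, ∅, ∅, col, by simp, by simp, by simp, fun v w e => by
    have := e.2
    simp only [Rel, mem_singleton, notMem_empty]
    tauto⟩

lemma P_TB (u : V) (col : V → Bool) (x y z : V) : P (TB u col x y z) :=
  ⟨{u}, {x, y, z}, {x, y}, col, by simp, card_le_three, (card_le_card (t := {z}) (by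
    intro a
    simp only [mem_sdiff, mem_insert, mem_singleton]
    tauto)).trans (by simp), fun v w e => e.2⟩

lemma eAB {u x y z : V} {col : V → Bool} (n1 : x ≠ y) (n2 : x ≠ z) (n3 : y ≠ z) (n4 : x ≠ u)
    (n5 : y ≠ u) (n6 : z ≠ u) (c1 : col y = col x) (c2 : col z = col x) :
    (TA u col).edgeSet.ncard < (TB u col x y z).edgeSet.ncard := by
  have h1 : insert s(x, y) (insert s(x, z) (insert s(y, z)
      ((TA u col).edgeSet \ {s(u, x), s(u, y)}))) ⊆ (TB u col x y z).edgeSet := by
    rintro e (rfl | rfl | rfl | h)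
    · exact ⟨n1, by simp [Rel, n4, n5]⟩
    · exact ⟨n2, by simp [Rel, n4, n6]⟩
    · exact ⟨n3, by simp [Rel, n5, n6]⟩
    · induction e using Sym2.ind with
      | _ v w =>
        obtain ⟨⟨a, b⟩, c⟩ := h
        refine ⟨a, ?_⟩
        simp only [Set.mem_insert_iff, Set.mem_singleton_iff, Sym2.eq_iff] at c
        simp only [Rel, mem_insert, mem_singleton]
        grind
  have h2 := Set.ncard_le_ncard h1
  have h3 := Set.le_ncard_sdiff {s(u, x), s(u, y)} (TA u col).edgeSet
  have h4 : ({s(u, x), s(u, y)} : Set (Sym2 V)).ncard ≤ 2 := (Set.ncard_insert_le _ _).trans (by simp)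
  rw [Set.ncard_insert_of_notMem (by simp [TA, n1, n2, n3, n4, n5, c1]),
    Set.ncard_insert_of_notMem (by simp [TA, n1, n2, n4, n6, c2]),
    Set.ncard_insert_of_notMem (by simp [TA, n5, n6, c1, c2])] at h2
  omega

lemma nbA_u (u : V) (col : V → Bool) : nb (TA u col) u = univ.erase u := by
  ext w
  simp [TA, eq_comm]

lemma nbA {u v : V} (col : V → Bool) (h : v ≠ u) :
    nb (TA u col) v = insert u (cl u col (!col v)) := by
  ext w
  simp only [mem_nb, TA, mem_insert, mem_cl]
  cases hv : col v <;> cases hw : col w <;> grind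

lemma q_eq (G : SimpleGraph V) (y : V → ℝ) :
    y ⬝ᵥ (G.adjMatrix ℝ *ᵥ y) = ∑ v, y v * ∑ w ∈ nb G v, y w := by
  refine sum_congr rfl fun v _ => ?_
  rw [adjMatrix_mulVec_apply]
  congr 2
  ext w
  simp

lemma CW (G : SimpleGraph V) (z : V → ℝ) (hz : ∀ v, 0 < z v) (μ : ℝ)
    (h : ∀ v, ∑ w ∈ nb G v, z w ≤ μ * z v) (y : V → ℝ) :
    y ⬝ᵥ (G.adjMatrix ℝ *ᵥ y) ≤ μ * (y ⬝ᵥ y) := by
  have h1 : ∑ v, ∑ w ∈ nb G v, y w ^ 2 / z w * z v = ∑ v, ∑ w ∈ nb G v, y v ^ 2 / z v * z w :=
    sum_comm' fun v w => by simp [G.adj_comm]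
  have h2 : ∑ v, ∑ w ∈ nb G v, y v ^ 2 / z v * z w ≤ μ * (y ⬝ᵥ y) := by
    rw [dotProduct, mul_sum]
    refine sum_le_sum fun v _ => ?_
    rw [← mul_sum]
    have := hz v
    refine (mul_le_mul_of_nonneg_left (h v) (by positivity)).trans (le_of_eq ?_)
    field_simp
  have h3 : 2 * ∑ v, y v * ∑ w ∈ nb G v, y w ≤ ∑ v, ∑ w ∈ nb G v, y w ^ 2 / z w * z v +
      ∑ v, ∑ w ∈ nb G v, y v ^ 2 / z v * z w := by
    rw [← sum_add_distrib, mul_sum]
    refine sum_le_sum fun v _ => ?_
    rw [← sum_add_distrib, mul_sum, mul_sum]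
    refine sum_le_sum fun w _ => ?_
    have := hz v
    have := hz w
    rw [← sub_nonneg, show y w ^ 2 / z w * z v + y v ^ 2 / z v * z w - 2 * (y v * y w) =
      (y w * z v - y v * z w) ^ 2 / (z v * z w) by field_simp; ring]
    positivity
  rw [q_eq]
  linarith

lemma sum_ins (f : V → ℝ) (hf : ∀ v, 0 < f v) (a : V) (s : Finset V) :
    ∑ w ∈ insert a s, f w ≤ f a + ∑ w ∈ s, f w := by
  by_cases h : a ∈ s
  · rw [insert_eq_of_mem h]
    linarith [hf a]
  · rw [sum_insert h]

lemma upper {G : SimpleGraph V} {u x y z : V} {col : V → Bool} {m : ℕ} (hm : 110 ≤ m)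
    (hc : ∀ c, (cl u col c).card = m) (n1 : x ≠ y) (n2 : x ≠ z) (n3 : y ≠ z) (n4 : x ≠ u)
    (n5 : y ≠ u) (n6 : z ≠ u) (c1 : col y = col x) (c2 : col z = col x)
    (hG : G ≤ TB u col x y z) (t : V → ℝ) :
    t ⬝ᵥ (G.adjMatrix ℝ *ᵥ t) ≤ (2 * m ^ 2 + 4 * m - 9) / (2 * m) * (t ⬝ᵥ t) := by
  have hm' : (110 : ℝ) ≤ m := by exact_mod_cast hm
  let f : V → ℝ := fun w => if w = u then 20 * m ^ 2 - 58 * m else if w = x ∨ w = y then
    10 * m ^ 2 + m else if w = z then 10 * m ^ 2 + 21 * m else if col w = col x then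
    10 * m ^ 2 - 12 else 10 * m ^ 2
  have hf : ∀ v, 0 < f v := fun v => by
    simp only [f]
    split_ifs <;> nlinarith
  have fu : f u = 20 * m ^ 2 - 58 * m := by simp [f]
  have fx : f x = 10 * m ^ 2 + m := by simp [f, n4]
  have fy : f y = 10 * m ^ 2 + m := by simp [f, n5]
  have fz : f z = 10 * m ^ 2 + 21 * m := by simp [f, n6, n2.symm, n3.symm]
  let X := cl u col (col x) \ {x, y, z}
  let Y := cl u col (!col x)
  have fX : ∀ w ∈ X, f w = 10 * m ^ 2 - 12 := fun w hw => by
    simp only [X, mem_sdiff, mem_cl, mem_insert, mem_singleton, not_or] at hw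
    simp [f, hw]
  have fY : ∀ w ∈ Y, f w = 10 * m ^ 2 := fun w hw => by
    simp only [Y, mem_cl] at hw
    have a : col w ≠ col x := by rw [hw.2]; simp
    have b : w ≠ x := fun h => a (by rw [h])
    have c : w ≠ y := fun h => a (by rw [h, c1])
    have d : w ≠ z := fun h => a (by rw [h, c2])
    simp [f, hw.1, a, b, c, d]
  have sY : ∑ w ∈ Y, f w = m * (10 * m ^ 2) := by
    rw [sum_congr rfl fY, sum_const, hc, nsmul_eq_mul]
  have sX : ∑ w ∈ X, f w = (m - 3) * (10 * m ^ 2 - 12) := by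
    have : X.card + 3 = m := by
      rw [← hc (col x), ← card_eq_three.2 ⟨x, y, z, n1, n2, n3, rfl⟩]
      exact card_sdiff_add_card_eq_card (by simp [insert_subset_iff, n4, n5, n6, c1, c2])
    rw [sum_congr rfl fX, sum_const, nsmul_eq_mul, ← this]
    push_cast
    ring
  have sub : ∀ v (S : Finset V), (∀ w, v ≠ w → Rel {u} {x, y, z} {x, y} col v w → w ∈ S) →
      ∑ w ∈ nb G v, f w ≤ ∑ w ∈ S, f w := fun v S h =>
    sum_le_sum_of_subset_of_nonneg (fun w hw => h w (hG (mem_nb.1 hw)).1 (hG (mem_nb.1 hw)).2)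
      fun w _ _ => (hf w).le
  have bo : ∀ a b : Bool, a ≠ b ↔ a = !b := by decide
  refine CW G f hf _ (fun v => ?_) t
  rw [div_mul_eq_mul_div, le_div_iff₀ (by positivity)]
  by_cases h1 : v = u
  · subst h1
    have a := sub v (insert z (X ∪ Y)) (by
      intro w
      have := bo (col w) (col x)
      have := bo (col v) (col x)
      clear sub sX sY fX fY fx fy fz fu hf
      simp only [Rel, X, Y, mem_insert, mem_singleton, mem_union, mem_sdiff, mem_cl]
      grind)
    have b := sum_ins f hf z (X ∪ Y)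
    have c : ∑ w ∈ X ∪ Y, f w = ∑ w ∈ X, f w + ∑ w ∈ Y, f w :=
      sum_union (Finset.disjoint_left.2 (by simp +contextual [X, Y]))
    rw [fu]
    refine (mul_le_mul_of_nonneg_right (a.trans b) (by positivity)).trans ?_
    rw [c, sX, sY, fz]
    nlinarith [mul_nonneg (sub_nonneg.2 hm') (sq_nonneg (m : ℝ))]
  by_cases h2 : v = x ∨ v = y
  · have a := sub v (insert (if v = x then y else x) (insert z Y)) (by
      intro w
      have := bo (col w) (col x)
      have := bo (col v) (col x)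
      clear sub sX sY fX fY fx fy fz fu hf
      simp only [Rel, Y, mem_insert, mem_singleton, mem_cl]
      grind)
    have b := sum_ins f hf (if v = x then y else x) (insert z Y)
    have c := sum_ins f hf z Y
    have d : f (if v = x then y else x) = 10 * m ^ 2 + m := by split_ifs <;> assumption
    rw [show f v = 10 * m ^ 2 + m by rcases h2 with rfl | rfl <;> assumption]
    refine (mul_le_mul_of_nonneg_right (a.trans (b.trans (add_le_add_right c _)))
      (by positivity)).trans ?_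
    rw [d, sY, fz]
    nlinarith [mul_nonneg (sub_nonneg.2 hm') (sq_nonneg (m : ℝ))]
  by_cases h3 : v = z
  · subst h3
    have a := sub v (insert u (insert x (insert y Y))) (by
      intro w
      have := bo (col w) (col x)
      have := bo (col v) (col x)
      clear sub sX sY fX fY fx fy fz fu hf
      simp only [Rel, Y, mem_insert, mem_singleton, mem_cl]
      grind)
    have b := sum_ins f hf u (insert x (insert y Y))
    have c := sum_ins f hf x (insert y Y)
    have d := sum_ins f hf y Y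
    refine (mul_le_mul_of_nonneg_right (show _ ≤ f u + (f x + (f y + ∑ w ∈ Y, f w)) by linarith)
      (by positivity)).trans ?_
    rw [fu, fx, fy, fz, sY]
    nlinarith [mul_nonneg (sub_nonneg.2 hm') (sq_nonneg (m : ℝ))]
  by_cases h4 : col v = col x
  · have a := sub v (insert u Y) (by
      intro w
      have := bo (col w) (col x)
      have := bo (col v) (col x)
      clear sub sX sY fX fY fx fy fz fu hf
      simp only [Rel, Y, mem_insert, mem_singleton, mem_cl]
      grind)
    have b := sum_ins f hf u Y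
    rw [fX v (by simp only [X, mem_sdiff, mem_cl, mem_insert, mem_singleton]; grind)]
    refine (mul_le_mul_of_nonneg_right (a.trans b) (by positivity)).trans ?_
    rw [fu, sY]
    nlinarith
  · have a := sub v (insert u (insert x (insert y (insert z X)))) (by
      intro w
      have := bo (col w) (col x)
      have := bo (col v) (col x)
      clear sub sX sY fX fY fx fy fz fu hf
      simp only [Rel, X, mem_insert, mem_singleton, mem_sdiff, mem_cl]
      grind)
    have b := sum_ins f hf u (insert x (insert y (insert z X)))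
    have c := sum_ins f hf x (insert y (insert z X))
    have d := sum_ins f hf y (insert z X)
    have e := sum_ins f hf z X
    rw [fY v (mem_cl.2 ⟨h1, (bo _ _).1 h4⟩)]
    refine (mul_le_mul_of_nonneg_right
      (show _ ≤ f u + (f x + (f y + (f z + ∑ w ∈ X, f w))) by linarith) (by positivity)).trans ?_
    rw [fu, fx, fy, fz, sX]
    nlinarith

lemma lower {u : V} {col : V → Bool} {m : ℕ} (hn : Fintype.card V = 2 * m + 1)
    (hc : ∀ c, (cl u col c).card = m) : ∃ t : V → ℝ, t ≠ 0 ∧ t ⬝ᵥ t = 2 * m + 4 ∧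
      t ⬝ᵥ ((TA u col).adjMatrix ℝ *ᵥ t) = 2 * m ^ 2 + 8 * m := by
  let t : V → ℝ := fun v => if v = u then 2 else 1
  have tu : t u = 2 := by simp [t]
  have h1 : ∀ (c : ℝ) (f : V → ℝ), (∀ v, v ≠ u → f v = c) → ∑ v ∈ univ.erase u, f v = 2 * m * c := by
    intro c f hf
    rw [sum_congr rfl fun v hv => hf v (mem_erase.1 hv).1, sum_const,
      card_erase_of_mem (mem_univ _), card_univ, hn]
    simp
  refine ⟨t, fun h => by simpa [tu] using congrFun h u, ?_, ?_⟩
  · rw [dotProduct, ← add_sum_erase _ _ (mem_univ u), h1 1 _ fun v hv => by simp [t, hv], tu]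
    ring
  · rw [q_eq, ← add_sum_erase _ _ (mem_univ u), nbA_u, h1 1 _ fun v hv => by simp [t, hv],
      h1 (2 + m) _ fun v hv => ?_, tu]
    · ring
    · rw [nbA col hv, sum_insert (by simp), tu, sum_congr rfl fun w hw =>
        show t w = 1 by simp [t, (mem_cl.1 hw).1]]
      simp [t, hv, hc]

lemma eA {u : V} {col : V → Bool} {m : ℕ} (hn : Fintype.card V = 2 * m + 1)
    (hc : ∀ c, (cl u col c).card = m) : (TA u col).edgeSet.ncard = m ^ 2 + 2 * m := by
  have h1 := (TA u col).sum_degrees_eq_twice_card_edges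
  have h2 : ∀ v, (TA u col).degree v = (nb (TA u col) v).card := fun v => by
    rw [← card_neighborFinset_eq_degree]
    congr 1
    ext w
    simp
  rw [← add_sum_erase _ _ (mem_univ u), h2, nbA_u, sum_congr rfl fun v hv =>
    show _ = m + 1 by rw [h2, nbA col (mem_erase.1 hv).1, card_insert_of_notMem (by simp), hc],
    sum_const, card_erase_of_mem (mem_univ _), card_univ, hn] at h1
  rw [← coe_edgeFinset, Set.ncard_coe_finset]
  simp only [Nat.add_sub_cancel, smul_eq_mul] at h1
  nlinarith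

theorem not_both {G : SimpleGraph V} (hL : Loc G) (hn : 230 ≤ Fintype.card V)
    (hδ : ∀ v, Fintype.card V + 1 ≤ 2 * (nb G v).card)
    (he : ∀ G' : SimpleGraph V, Loc G' → G'.edgeSet.ncard ≤ G.edgeSet.ncard)
    (hs : ∀ G' : SimpleGraph V, Loc G' → ∀ x : V → ℝ, x ≠ 0 → ∃ y : V → ℝ, y ≠ 0 ∧
      (x ⬝ᵥ (G'.adjMatrix ℝ *ᵥ x)) * (y ⬝ᵥ y) ≤ (y ⬝ᵥ (G.adjMatrix ℝ *ᵥ y)) * (x ⬝ᵥ x)) :
    False := by
  obtain ⟨u, col, m, h1, h2, h | ⟨x, y, z, n1, n2, n3, n4, n5, n6, c1, c2, h⟩⟩ :=
    struct hL (by omega) hδ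
  · obtain ⟨S, a, b⟩ := exists_subset_card_eq (show 3 ≤ (cl u col true).card by rw [h2]; omega)
    obtain ⟨x, y, z, n1, n2, n3, rfl⟩ := card_eq_three.1 b
    simp only [insert_subset_iff, singleton_subset_iff, mem_cl] at a
    have := eAB n1 n2 n3 a.1.1 a.2.1.1 a.2.2.1 (a.2.1.2.trans a.1.2.symm)
      (a.2.2.2.trans a.1.2.symm)
    have := he _ fun F hF => (P_TB u col x y z).copy hF
    omega
  · obtain ⟨t, t0, t1, t2⟩ := lower h1 h2
    obtain ⟨s, s0, s1⟩ := hs _ (fun F hF => (P_TA u col).copy hF) t t0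
    have hm : 110 ≤ m := by omega
    have hm' : (110 : ℝ) ≤ m := by exact_mod_cast hm
    have h3 := upper hm h2 n1 n2 n3 n4 n5 n6 c1 c2 h s
    have h4 : 0 < s ⬝ᵥ s := lt_of_le_of_ne (sum_nonneg fun i _ => mul_self_nonneg _)
      fun h => s0 (dotProduct_self_eq_zero.1 h.symm)
    rw [t1, t2] at s1
    have h5 := s1.trans (mul_le_mul_of_nonneg_right h3 (by positivity))
    rw [mul_right_comm, mul_le_mul_iff_left₀ h4, div_mul_eq_mul_div,
      le_div_iff₀ (by positivity)] at h5
    nlinarith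

end Pool.Agent.H14.Sp
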