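import Pool.Agent.H14.Sp3

set_option autoImplicit false

namespace Pool.Agent.H14.Sp

open Finset SimpleGraph Matrix
open scoped Classical

lemma loc_bot (n : ℕ) : Loc (⊥ : SimpleGraph (Fin n)) := fun F hF =>
  P.copy ⟨∅, ∅, ∅, fun _ => true, by simp, by simp, by simp, fun _ _ e => False.elim e⟩ hF

noncomputable def ex (n : ℕ) : ℕ :=
  (univ.filter fun G : SimpleGraph (Fin n) => Loc G).sup fun G => G.edgeSet.ncard

lemma le_ex {n : ℕ} {G : SimpleGraph (Fin n)} (h : Loc G) : G.edgeSet.ncard ≤ ex n :=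
  le_sup (f := fun G : SimpleGraph (Fin n) => G.edgeSet.ncard) (mem_filter.2 ⟨mem_univ _, h⟩)

lemma ex_le {n : ℕ} {G : SimpleGraph (Fin n)}
    (h : ∀ G' : SimpleGraph (Fin n), Loc G' → G'.edgeSet.ncard ≤ G.edgeSet.ncard) :
    ex n ≤ G.edgeSet.ncard := Finset.sup_le fun G' h' => h G' (mem_filter.1 h').2

lemma del {n : ℕ} {G : SimpleGraph (Fin (n + 1))} (h : Loc G) (v : Fin (n + 1)) :
    G.edgeSet.ncard ≤ ex n + (nb G v).card := by
  have h1 : Loc (G.comap v.succAbove) := fun F hF =>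
    h F (hF.trans ⟨(Embedding.comap v.succAboveEmb G).toCopy⟩)
  have h2 : G.edgeSet ⊆ Sym2.map v.succAbove '' (G.comap v.succAbove).edgeSet ∪
      (fun w => s(v, w)) '' (nb G v : Set (Fin (n + 1))) := by
    intro e he
    induction e using Sym2.ind with
    | _ a b =>
      by_cases ha : a = v
      · exact Or.inr ⟨b, by simpa [ha] using he, by rw [ha]⟩
      by_cases hb : b = v
      · exact Or.inr ⟨a, by simpa [hb, G.adj_comm] using he, by rw [hb, Sym2.eq_swap]⟩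
      obtain ⟨a, rfl⟩ := Fin.exists_succAbove_eq ha
      obtain ⟨b, rfl⟩ := Fin.exists_succAbove_eq hb
      exact Or.inl ⟨s(a, b), he, rfl⟩
  refine (Set.ncard_le_ncard h2).trans ((Set.ncard_union_le _ _).trans (Nat.add_le_add
    ((Set.ncard_image_le (Set.toFinite _)).trans (le_ex h1))
    ((Set.ncard_image_le (Set.toFinite _)).trans (by simp))))

lemma ex_ge (m : ℕ) : m ^ 2 + 2 * m ≤ ex (2 * m + 1) := by
  let col : Fin (2 * m + 1) → Bool := fun v => decide (v.val < m + 1)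
  have h1 : (cl 0 col true).card = m := by
    rw [show cl 0 col true = (univ.filter fun v : Fin (2 * m + 1) => v.val < m + 1).erase 0 by
      ext v; simp [col], card_erase_of_mem (by simp), Fin.card_filter_val_lt]
    omega
  have h2 := cl_card 0 col
  rw [Fintype.card_fin] at h2
  rw [← eA (u := 0) (col := col) (by simp) (by rintro (_ | _) <;> omega)]
  exact le_ex fun F hF => (P_TA 0 col).copy hF

lemma jump (N : ℕ) : ∃ n ≥ N, 2 * ex n + (n + 1) < 2 * ex (n + 1) := by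
  by_contra h
  push Not at h
  have k : ∀ t, 4 * ex (N + t) ≤ 4 * ex N + (N + t) * (N + t + 1) := by
    intro t
    induction t with
    | zero => simp
    | succ t ih =>
      have := h (N + t) (by omega)
      rw [← add_assoc]
      nlinarith
  have h1 := k (N + 4 * ex N + 5)
  have h2 := ex_ge (N + 2 * ex N + 2)
  rw [show N + (N + 4 * ex N + 5) = 2 * (N + 2 * ex N + 2) + 1 by ring] at h1
  nlinarith

lemma spex (n : ℕ) : ∃ G : SimpleGraph (Fin (n + 1)), Loc G ∧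
    ∀ G' : SimpleGraph (Fin (n + 1)), Loc G' → ∀ x : Fin (n + 1) → ℝ, x ≠ 0 →
      ∃ y : Fin (n + 1) → ℝ, y ≠ 0 ∧ (x ⬝ᵥ (G'.adjMatrix ℝ *ᵥ x)) * (y ⬝ᵥ y) ≤
        (y ⬝ᵥ (G.adjMatrix ℝ *ᵥ y)) * (x ⬝ᵥ x) := by
  have hK : IsCompact {y : Fin (n + 1) → ℝ | y ⬝ᵥ y = 1} := by
    refine Metric.isCompact_of_isClosed_isBounded (isClosed_eq (by fun_prop) continuous_const)
      ((Metric.isBounded_closedBall (x := 0) (r := 1)).subset fun y hy => ?_)
    rw [mem_closedBall_zero_iff, pi_norm_le_iff_of_nonneg zero_le_one]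
    intro i
    have : y i * y i ≤ 1 := (single_le_sum (f := fun i => y i * y i)
      (fun i _ => mul_self_nonneg _) (mem_univ i)).trans_eq hy
    exact abs_le_one_iff_mul_self_le_one.2 this
  have hy : ∀ G : SimpleGraph (Fin (n + 1)), ∃ y : Fin (n + 1) → ℝ, y ⬝ᵥ y = 1 ∧
      ∀ x : Fin (n + 1) → ℝ, x ⬝ᵥ x = 1 →
        x ⬝ᵥ (G.adjMatrix ℝ *ᵥ x) ≤ y ⬝ᵥ (G.adjMatrix ℝ *ᵥ y) := fun G => by
    obtain ⟨y, h1, h2⟩ := hK.exists_isMaxOn ⟨Pi.single 0 1, by simp⟩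
      (f := fun x => x ⬝ᵥ (G.adjMatrix ℝ *ᵥ x)) (by fun_prop)
    exact ⟨y, h1, fun x hx => h2 hx⟩
  choose y h1 h2 using hy
  obtain ⟨G, hG, hm⟩ := exists_max_image (univ.filter fun G : SimpleGraph (Fin (n + 1)) => Loc G)
    (fun G => y G ⬝ᵥ (G.adjMatrix ℝ *ᵥ y G)) ⟨⊥, mem_filter.2 ⟨mem_univ _, loc_bot _⟩⟩
  refine ⟨G, (mem_filter.1 hG).2, fun G' hG' x hx => ⟨y G, fun h => by simpa [h] using h1 G, ?_⟩⟩
  have h4 : 0 < x ⬝ᵥ x := lt_of_le_of_ne (sum_nonneg fun i _ => mul_self_nonneg _)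
    fun h => hx (dotProduct_self_eq_zero.1 h.symm)
  have h5 : (√(x ⬝ᵥ x))⁻¹ * (√(x ⬝ᵥ x))⁻¹ = (x ⬝ᵥ x)⁻¹ := by
    rw [← mul_inv, Real.mul_self_sqrt h4.le]
  have h6 := (h2 G' ((√(x ⬝ᵥ x))⁻¹ • x) (by
    rw [smul_dotProduct, dotProduct_smul, smul_eq_mul, smul_eq_mul, ← mul_assoc, h5,
      inv_mul_cancel₀ h4.ne'])).trans (hm G' (mem_filter.2 ⟨mem_univ _, hG'⟩))
  rw [mulVec_smul, smul_dotProduct, dotProduct_smul, smul_eq_mul, smul_eq_mul, ← mul_assoc, h5,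
    inv_mul_le_iff₀ h4] at h6
  rw [h1, mul_one, mul_comm]
  exact h6

theorem main (N : ℕ) : ∃ n ≥ N, ∃ G : SimpleGraph (Fin n), (Loc G ∧
    ∀ G' : SimpleGraph (Fin n), Loc G' → ∀ x : Fin n → ℝ, x ≠ 0 →
      ∃ y : Fin n → ℝ, y ≠ 0 ∧ (x ⬝ᵥ (G'.adjMatrix ℝ *ᵥ x)) * (y ⬝ᵥ y) ≤
        (y ⬝ᵥ (G.adjMatrix ℝ *ᵥ y)) * (x ⬝ᵥ x)) ∧
    ¬ ∀ G' : SimpleGraph (Fin n), Loc G' → G'.edgeSet.ncard ≤ G.edgeSet.ncard := by
  obtain ⟨n, h1, h2⟩ := jump (N + 230)
  obtain ⟨G, h3, h4⟩ := spex n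
  refine ⟨n + 1, by omega, G, ⟨h3, h4⟩, fun h => not_both h3 (by simp; omega) (fun v => ?_) h
    (by convert h4)⟩
  have := ex_le h
  have := del h3 v
  rw [Fintype.card_fin]
  omega

/-- Three disjoint triangles and isolated vertices. -/
def T3 : SimpleGraph (Fin 48) where
  Adj a b := a ≠ b ∧ a.val < 9 ∧ a.val / 3 = b.val / 3
  symm := ⟨fun _ _ h => ⟨h.1.symm, by omega, h.2.2.symm⟩⟩
  loopless := ⟨fun _ h => h.1 rfl⟩

lemma T3_not : ¬ P T3 := fun h => h.tri ![{0, 1, 2}, {3, 4, 5}, {6, 7, 8}]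
  (fun i => by fin_cases i <;> exact is3Clique_triple_iff.2 (by simp [T3]))
  fun i j hij => by fin_cases i <;> fin_cases j <;> simp_all

lemma chi_ge {F : SimpleGraph (Fin 48)} (h : ¬ P F) : ((2 + 1 : ℕ) : ℕ∞) ≤ F.chromaticNumber := by
  refine Order.add_one_le_of_lt (x := ((2 : ℕ) : ℕ∞)) (not_le.1 fun h2 => h ?_)
  obtain ⟨c⟩ := chromaticNumber_le_iff_colorable.1 h2
  refine ⟨∅, ∅, ∅, fun v => c v = 0, by simp, by simp, by simp, fun v w e => ?_⟩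
  have := c.valid e
  refine Or.inr (Or.inr ⟨by simp, by simp, Or.inl ?_⟩)
  revert this
  dsimp only
  generalize c v = a
  generalize c w = b
  revert a b
  decide

lemma T3_chi : T3.chromaticNumber = ((2 + 1 : ℕ) : ℕ∞) :=
  le_antisymm (Colorable.chromaticNumber_le ⟨Coloring.mk
    (fun a => (⟨a.val % 3, by omega⟩ : Fin (2 + 1))) fun {a b} h e => h.1 (Fin.ext (by
      have := h.2.2
      have := congrArg Fin.val e
      simp only at this
      omega))⟩) (chi_ge T3_not)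

lemma T3_sub : T3 ⊑ (fromRel fun u v : Fin 2 × Fin 48 =>
    u.1 ≠ v.1 ∨ (u.1.val = 0 ∧ v.1.val = 0 ∧ u.2.val / 2 = v.2.val / 2)) := by
  let f : Fin 48 → Fin 2 × Fin 48 := fun a =>
    if a.val % 3 = 2 then (1, a) else (0, ⟨2 * (a.val / 3) + a.val % 3, by omega⟩)
  have hf : Function.Injective f := by
    intro a b e
    simp only [f] at e
    split_ifs at e <;> simp [Fin.ext_iff] at e <;> exact Fin.ext (by omega)
  refine ⟨⟨⟨f, fun {a b} h => ⟨hf.ne h.1, Or.inl ?_⟩⟩, hf⟩⟩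
  have h1 : a.val ≠ b.val := fun e => h.1 (Fin.ext e)
  have h2 := h.2.2
  simp only [f]
  split_ifs <;> simp <;> omega

end Pool.Agent.H14.Sp
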