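import Mathlib

namespace Pool.Agent.H14.Sr
open Finset

variable {F H : Type*} [Group F] [Group H]

lemma conj_zpow (K : Subgroup F) (hN : K.Normal) (φ : F →* H) (x : F) (u : H)
    (hu : ∀ k ∈ K, u * φ k * u⁻¹ = φ (x * k * x⁻¹)) (a : ℤ) :
    ∀ k ∈ K, u ^ a * φ k * (u ^ a)⁻¹ = φ (x ^ a * k * (x ^ a)⁻¹) := by
  induction a using Int.induction_on with
  | zero => simp
  | succ n ih =>
    intro k hk
    have := ih _ (hN.conj_mem k hk x)
    rw [← hu k hk] at this
    rw [zpow_add_one, zpow_add_one]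
    calc _ = u ^ (n : ℤ) * (u * φ k * u⁻¹) * (u ^ (n : ℤ))⁻¹ := by group
      _ = _ := by rw [this]; congr 1; group
  | pred n ih =>
    intro k hk
    have hk' := hN.conj_mem k hk x⁻¹
    have h1 := ih _ hk'
    have h2 := hu _ hk'
    have h3 : φ (x⁻¹ * k * x⁻¹⁻¹) = u⁻¹ * φ k * u := by
      have : x * (x⁻¹ * k * x⁻¹⁻¹) * x⁻¹ = k := by group
      rw [this] at h2; rw [← h2]; group
    rw [h3] at h1
    rw [zpow_sub_one, zpow_sub_one]
    calc _ = u ^ (-(n : ℤ)) * (u⁻¹ * φ k * u) * (u ^ (-(n : ℤ)))⁻¹ := by group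
      _ = _ := by rw [h1]; congr 1; group

lemma mem_ker_mul (deg : F →* Multiplicative ℤ) (x : F) (hx : (deg x).toAdd = 1) (f : F) :
    f * (x ^ (deg f).toAdd)⁻¹ ∈ deg.ker := by
  rw [MonoidHom.mem_ker, map_mul, map_inv, map_zpow]
  apply Multiplicative.toAdd.injective
  simp [hx]

/-- the twisted homomorphism -/
def twist (deg : F →* Multiplicative ℤ) (x : F) (hx : (deg x).toAdd = 1) (φ : F →* H) (u : H)
    (hu : ∀ k ∈ deg.ker, u * φ k * u⁻¹ = φ (x * k * x⁻¹)) : F →* H :=
  MonoidHom.mk' (fun f => φ (f * (x ^ (deg f).toAdd)⁻¹) * u ^ (deg f).toAdd) (by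
    intro f g
    have h := conj_zpow deg.ker inferInstance φ x u hu (deg f).toAdd _ (mem_ker_mul deg x hx g)
    rw [map_mul deg, toAdd_mul, zpow_add, zpow_add]
    set a := (deg f).toAdd
    set b := (deg g).toAdd
    have e : f * g * (x ^ a * x ^ b)⁻¹ =
        (f * (x ^ a)⁻¹) * (x ^ a * (g * (x ^ b)⁻¹) * (x ^ a)⁻¹) := by group
    rw [e, map_mul φ, ← h]
    group)

open Classical in
lemma card_ext [Fintype H] [Fintype (F →* H)] (deg : F →* Multiplicative ℤ) (x : F)
    (hx : (deg x).toAdd = 1) (φ : F →* H) :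
    #{ψ : F →* H | ∀ k ∈ deg.ker, ψ k = φ k} =
      #{c : H | ∀ k ∈ deg.ker, φ k = c * φ k * c⁻¹} := by
  have hN : deg.ker.Normal := inferInstance
  apply Finset.card_bij (fun ψ _ => (φ x)⁻¹ * ψ x)
  · intro ψ hψ
    simp only [mem_filter, mem_univ, true_and] at hψ ⊢
    intro k hk
    have h1 := hψ _ (hN.conj_mem k hk x)
    simp only [map_mul, map_inv, hψ k hk] at h1
    calc φ k = (φ x)⁻¹ * (φ x * φ k * (φ x)⁻¹) * φ x := by group
      _ = _ := by rw [← h1]; group
  · intro ψ hψ θ hθ e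
    simp only [mem_filter, mem_univ, true_and] at hψ hθ
    have ex : ψ x = θ x := mul_left_cancel e
    ext f
    have h1 := hψ _ (mem_ker_mul deg x hx f)
    rw [← hθ _ (mem_ker_mul deg x hx f)] at h1
    simp only [map_mul, map_inv, map_zpow, ex] at h1
    exact mul_right_cancel h1
  · intro c hc
    simp only [mem_filter, mem_univ, true_and] at hc
    refine ⟨twist deg x hx φ (φ x * c) ?_, ?_, ?_⟩
    · intro k hk
      simp only [map_mul, map_inv]
      conv_rhs => rw [hc k hk]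
      group
    · simp only [mem_filter, mem_univ, true_and]
      intro k hk
      have : deg k = 1 := hk
      simp [twist, this]
    · simp [twist, hx]

open Classical in
lemma card_cls [Fintype H] [Fintype (F →* H)] (deg : F →* Multiplicative ℤ) (x : F)
    (hx : (deg x).toAdd = 1) (φ : F →* H) :
    #{ψ : F →* H | ∃ h : H, ∀ k ∈ deg.ker, ψ k = h * φ k * h⁻¹} = Fintype.card H := by
  set m := #{c : H | ∀ k ∈ deg.ker, φ k = c * φ k * c⁻¹} with hm
  have hpos : 0 < m := Finset.card_pos.2 ⟨1, by simp⟩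
  have key := Finset.card_mul_eq_card_mul (s := (univ : Finset H))
    (t := {ψ : F →* H | ∃ h : H, ∀ k ∈ deg.ker, ψ k = h * φ k * h⁻¹})
    (fun (h : H) (ψ : F →* H) => ∀ k ∈ deg.ker, ψ k = h * φ k * h⁻¹) (m := m) (n := m) ?_ ?_
  · rw [card_univ] at key
    exact (Nat.eq_of_mul_eq_mul_right hpos key).symm
  · intro h _
    rw [hm, ← card_ext deg x hx φ]
    apply Finset.card_bij' (fun ψ _ => (MulAut.conj h⁻¹).toMonoidHom.comp ψ)
      (fun ψ _ => (MulAut.conj h).toMonoidHom.comp ψ)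
    · intro ψ hψ
      simp only [mem_bipartiteAbove, mem_filter, mem_univ, true_and] at hψ ⊢
      intro k hk
      simp [hψ.2 k hk, mul_assoc]
    · intro ψ hψ
      simp only [mem_bipartiteAbove, mem_filter, mem_univ, true_and] at hψ ⊢
      have : ∀ k ∈ deg.ker, ((MulAut.conj h).toMonoidHom.comp ψ) k = h * φ k * h⁻¹ := by
        intro k hk
        simp [hψ k hk]
      exact ⟨⟨h, this⟩, this⟩
    · intro ψ _; ext f; simp [mul_assoc]
    · intro ψ _; ext f; simp [mul_assoc]
  · intro ψ hψ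
    simp only [mem_filter, mem_univ, true_and] at hψ
    obtain ⟨g, hg⟩ := hψ
    rw [hm]
    apply Finset.card_bij' (fun h _ => g⁻¹ * h) (fun c _ => g * c)
    · intro h hh
      simp only [mem_bipartiteBelow, mem_filter, mem_univ, true_and] at hh ⊢
      intro k hk
      have := (hg k hk).symm.trans (hh k hk)
      calc φ k = g⁻¹ * (g * φ k * g⁻¹) * g := by group
        _ = _ := by rw [this]; group
    · intro c hc
      simp only [mem_bipartiteBelow, mem_filter, mem_univ, true_and] at hc ⊢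
      intro k hk
      rw [hg k hk]
      conv_lhs => rw [hc k hk]
      group
    · intro h _; simp
    · intro h _; simp

theorem integral_avg [Fintype H] [Fintype (F →* H)] (deg : F →* Multiplicative ℤ) (x : F)
    (hx : (deg x).toAdd = 1) (w : F) (hw : w ∈ deg.ker) (f : H → ℂ)
    (hf : ∀ g h, f (h * g * h⁻¹) = f g) (hi : ∀ g, IsIntegral ℤ (f g)) :
    IsIntegral ℤ ((Fintype.card H : ℂ)⁻¹ * ∑ φ : F →* H, f (φ w)) := by
  classical
  let s : Setoid (F →* H) :=
    { r := fun ψ φ => ∃ h : H, ∀ k ∈ deg.ker, ψ k = h * φ k * h⁻¹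
      iseqv := ⟨fun φ => ⟨1, by simp⟩,
        fun ⟨h, hh⟩ => ⟨h⁻¹, fun k hk => by rw [hh k hk]; group⟩,
        fun ⟨h, hh⟩ ⟨g, hg⟩ => ⟨h * g, fun k hk => by rw [hh k hk, hg k hk]; group⟩⟩ }
  rw [← Finset.sum_fiberwise (s := univ) (g := fun φ => Quotient.mk s φ), Finset.mul_sum]
  apply IsIntegral.sum
  intro q _
  induction q using Quotient.inductionOn with
  | h φ =>
    have e : ∑ ψ ∈ univ with Quotient.mk s ψ = Quotient.mk s φ, f (ψ w) =
        Fintype.card H * f (φ w) := by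
      rw [Finset.sum_congr rfl (g := fun _ => f (φ w)), Finset.sum_const, nsmul_eq_mul,
        ← card_cls deg x hx φ]
      · congr 3
        ext ψ
        simp only [mem_filter, mem_univ, true_and]
        rw [Quotient.eq]; rfl
      · intro ψ hψ
        obtain ⟨h, hh⟩ := Quotient.exact (mem_filter.1 hψ).2
        rw [hh w hw, hf]
    rw [e, ← mul_assoc, inv_mul_cancel₀ (by exact_mod_cast Fintype.card_ne_zero), one_mul]
    exact hi _

lemma char_integral [Finite H] {V : Type*} [AddCommGroup V] [Module ℂ V] [FiniteDimensional ℂ V]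
    (ρ : Representation ℂ H V) (g : H) : IsIntegral ℤ (ρ.character g) := by
  unfold Representation.character
  rw [Module.End.trace_eq_sum_roots_charpoly_of_splits (IsAlgClosed.splits _)]
  apply IsIntegral.multiset_sum
  intro μ hμ
  have h1 := (Module.End.hasEigenvalue_iff_isRoot_charpoly (ρ g) μ).2
    (Polynomial.isRoot_of_mem_roots hμ)
  obtain ⟨v, hv⟩ := h1.exists_hasEigenvector
  have h2 := hv.pow_apply (orderOf g)
  rw [← map_pow, pow_orderOf_eq_one, map_one] at h2
  have h3 : μ ^ orderOf g = 1 := by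
    have : (μ ^ orderOf g - 1) • v = 0 := by rw [sub_smul, ← h2]; simp
    exact sub_eq_zero.1 ((smul_eq_zero.1 this).resolve_right hv.2)
  exact IsIntegral.of_pow (orderOf_pos g) (by rw [h3]; exact isIntegral_one)

lemma exists_deg {r : ℕ} (w : FreeGroup (Fin (r + 2))) :
    ∃ (deg : FreeGroup (Fin (r + 2)) →* Multiplicative ℤ) (x : FreeGroup (Fin (r + 2))),
      (deg x).toAdd = 1 ∧ w ∈ deg.ker := by
  let e : Fin (r + 2) → (FreeGroup (Fin (r + 2)) →* Multiplicative ℤ) := fun j =>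
    FreeGroup.lift fun i => Multiplicative.ofAdd (if i = j then 1 else 0)
  have h01 : (0 : Fin (r + 2)) ≠ 1 := Fin.zero_ne_one
  by_cases h : 0 < Int.gcd (e 0 w).toAdd (e 1 w).toAdd
  · obtain ⟨a, b, hab, ha, hb⟩ := Int.exists_gcd_one h
    have hz := Int.gcd_eq_gcd_ab a b
    rw [hab] at hz
    refine ⟨e 0 ^ b * e 1 ^ (-a),
      FreeGroup.of 0 ^ (Int.gcdB a b) * FreeGroup.of 1 ^ (-Int.gcdA a b), ?_, ?_⟩
    · simp [e, h01, h01.symm]
      push_cast at hz
      linarith
    · rw [MonoidHom.mem_ker]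
      apply Multiplicative.toAdd.injective
      simp only [MonoidHom.mul_apply, MonoidHom.zpow_apply, toAdd_mul, toAdd_zpow, smul_eq_mul,
        toAdd_one]
      generalize ((Int.gcd (e 0 w).toAdd (e 1 w).toAdd : ℕ) : ℤ) = g at ha hb
      rw [ha, hb]; ring
  · have h0 : Int.gcd (e 0 w).toAdd (e 1 w).toAdd = 0 := by omega
    refine ⟨e 0, FreeGroup.of 0, by simp [e], ?_⟩
    rw [MonoidHom.mem_ker]
    apply Multiplicative.toAdd.injective
    simpa using (Int.gcd_eq_zero_iff.1 h0).1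

lemma sum_surj {A B : Type*} [Group A] [Group B] [Fintype A] [Fintype B] (p : A →* B)
    (hp : Function.Surjective p) :
    ∃ c : ℕ, 0 < c ∧ ∀ f : B → ℂ, ∑ a, f (p a) = c * ∑ b, f b := by
  classical
  refine ⟨#{a | p a = 1}, Finset.card_pos.2 ⟨1, by simp⟩, fun f => ?_⟩
  rw [← Finset.sum_fiberwise (s := univ) (g := p), Finset.mul_sum]
  refine Finset.sum_congr rfl fun b _ => ?_
  rw [Finset.sum_congr rfl (g := fun _ => f b), Finset.sum_const, nsmul_eq_mul,
    MonoidHom.card_fiber_eq_of_mem_range p (hp b) (hp 1)]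
  intro a ha
  rw [(mem_filter.1 ha).2]

end Pool.Agent.H14.Sr
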