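import Mathlib

set_option maxHeartbeats 400000

namespace Pool.Agent.H14.St

open Finset

theorem dense_fract {α : ℝ} (hα : Irrational α) {a b : ℝ} (ha : 0 ≤ a) (hab : a < b) (hb : b ≤ 1) :
    ∃ n : ℕ, a < Int.fract (n * α) ∧ Int.fract (n * α) < b := by
  have h1 : DenseRange (· • ((α : ℝ) : AddCircle (1 : ℝ)) : ℕ → AddCircle (1 : ℝ)) :=
    denseRange_zsmul_iff_nsmul.1 (AddCircle.denseRange_zsmul_coe_iff.2 (by simpa using hα))
  obtain ⟨n, y, hy, e⟩ := h1.exists_mem_open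
    (QuotientAddGroup.isOpenMap_coe (N := AddSubgroup.zmultiples (1 : ℝ)) _ (isOpen_Ioo (a := a) (b := b)))
    ((Set.nonempty_Ioo.2 hab).image _)
  have e' : ((y : ℝ) : AddCircle (1 : ℝ)) = ((n * α : ℝ) : AddCircle (1 : ℝ)) := by
    rw [← nsmul_eq_mul, AddCircle.coe_nsmul]; exact e
  obtain ⟨z, hz⟩ := AddSubgroup.mem_zmultiples_iff.1 (QuotientAddGroup.eq.1 e')
  have : Int.fract (n * α) = y := by
    rw [Int.fract_eq_iff]
    exact ⟨by linarith [hy.1], by linarith [hy.2], z, by simp at hz; linarith⟩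
  exact ⟨n, this ▸ hy.1, this ▸ hy.2⟩

noncomputable def mech (α x : ℝ) (j : ℕ) : ZMod 2 := ((⌊x + (j + 1 : ℕ) * α⌋ - ⌊x + j * α⌋ : ℤ) : ZMod 2)

def blk {A : Type} (u : ℕ → A) (i n : ℕ) : List A := (List.range n).map fun j => u (i + j)

theorem floor_eq (α : ℝ) (j : ℕ) {x : ℝ} (h0 : 0 ≤ x) (h1 : x < 1) :
    ⌊x + j * α⌋ = -⌊-(j * α)⌋ - if x < Int.fract (-(j * α)) then 1 else 0 := by
  have := Int.floor_add_fract (-(j * α))
  have := Int.fract_nonneg (-(j * α))
  have := Int.fract_lt_one (-(j * α))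
  rw [Int.floor_eq_iff]
  split_ifs <;> push_cast <;> constructor <;> linarith

theorem blk_iff {α : ℝ} (a0 : 0 < α) (a1 : α < 1) (n : ℕ) {x y : ℝ} (x0 : 0 ≤ x) (x1 : x < 1)
    (y0 : 0 ≤ y) (y1 : y < 1) : blk (mech α x) 0 n = blk (mech α y) 0 n ↔
      ∀ j ≤ n, (x < Int.fract (-(j * α)) ↔ y < Int.fract (-(j * α))) := by
  have key : (∀ j ≤ n, (x < Int.fract (-(j * α)) ↔ y < Int.fract (-(j * α)))) ↔
      ∀ j ≤ n, ⌊x + j * α⌋ = ⌊y + j * α⌋ := by
    refine forall₂_congr fun j _ => ?_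
    rw [floor_eq α j x0 x1, floor_eq α j y0 y1]
    split_ifs with h1 h2 h2 <;> simp only [h1, h2] <;> simp <;> omega
  rw [key, blk, blk, List.map_inj_left]
  simp only [List.mem_range, zero_add]
  constructor
  · intro h j hj
    induction j with
    | zero => simp [Int.floor_eq_zero_iff.2 ⟨x0, x1⟩, Int.floor_eq_zero_iff.2 ⟨y0, y1⟩]
    | succ j ih =>
      have h1 := (ZMod.intCast_eq_intCast_iff_dvd_sub _ _ 2).1 (h j (by omega))
      have b : ∀ z : ℝ, ⌊z + j * α⌋ ≤ ⌊z + (j + 1 : ℕ) * α⌋ ∧ ⌊z + (j + 1 : ℕ) * α⌋ ≤ ⌊z + j * α⌋ + 1 :=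
        fun z => ⟨Int.floor_le_floor (by push_cast; linarith), by
          rw [← Int.floor_add_one]; exact Int.floor_le_floor (by push_cast; linarith)⟩
      have := ih (by omega); have := b x; have := b y
      omega
  · intro h j hj
    rw [mech, mech, h j (by omega), h (j + 1) (by omega)]

theorem blk_shift (α : ℝ) (i n : ℕ) : blk (mech α 0) i n = blk (mech α (Int.fract (i * α))) 0 n := by
  simp only [blk, zero_add]
  refine List.map_congr_left fun j _ => ?_
  have e : ∀ k : ℕ, ⌊(0 : ℝ) + (i + k : ℕ) * α⌋ = ⌊Int.fract (i * α) + k * α⌋ + ⌊i * α⌋ := by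
    intro k
    rw [← Int.floor_add_intCast]; congr 1
    have := Int.floor_add_fract (i * α); push_cast; linarith
  rw [mech, mech, add_assoc i, e, e]; congr 1; ring

theorem sturmian {α : ℝ} (hα : Irrational α) (a0 : 0 < α) (a1 : α < 1) (n : ℕ) :
    {w | ∃ i, w = blk (mech α 0) i n}.ncard = n + 1 := by
  set θ : ℕ → ℝ := fun j => Int.fract (-(j * α)) with hθ
  have t0 : ∀ j, 0 ≤ θ j := fun j => Int.fract_nonneg _
  have t1 : ∀ j, θ j < 1 := fun j => Int.fract_lt_one _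
  have : {w | ∃ i, w = blk (mech α 0) i n} =
      ((range (n + 1)).image fun j => blk (mech α (θ j)) 0 n : Finset _) := by
    ext w
    simp only [Set.mem_setOf_eq, coe_image, Set.mem_image, mem_coe, mem_range]
    constructor
    · rintro ⟨i, rfl⟩
      obtain ⟨j, hj, hm⟩ := exists_max_image ((range (n + 1)).filter fun j => θ j ≤ Int.fract (i * α)) θ
        ⟨0, by simp [hθ, Int.fract_nonneg]⟩
      simp only [mem_filter, mem_range] at hj hm
      refine ⟨j, hj.1, ?_⟩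
      rw [blk_shift, blk_iff a0 a1 n (t0 j) (t1 j) (Int.fract_nonneg _) (Int.fract_lt_one _)]
      intro k hk
      exact ⟨fun h => not_le.1 fun h' => absurd (hm k ⟨by omega, h'⟩) (not_le.2 h),
        fun h => hj.2.trans_lt h⟩
    · rintro ⟨j, hj, rfl⟩
      obtain ⟨b, hb, hm⟩ := exists_min_image
        (insert 1 (((range (n + 1)).filter fun k => θ j < θ k).image θ)) id ⟨1, by simp⟩
      have hb' : θ j < b := by
        rcases mem_insert.1 hb with rfl | h
        · exact t1 j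
        · obtain ⟨k, hk, rfl⟩ := mem_image.1 h; exact (mem_filter.1 hk).2
      obtain ⟨i, h1, h2⟩ := dense_fract hα (t0 j) hb' (hm 1 (by simp))
      refine ⟨i, ?_⟩
      rw [blk_shift, blk_iff a0 a1 n (t0 j) (t1 j) (Int.fract_nonneg _) (Int.fract_lt_one _)]
      intro k hk
      exact ⟨fun h => h2.trans_le (hm (θ k) (mem_insert_of_mem (mem_image_of_mem _
        (mem_filter.2 ⟨mem_range.2 (by omega), h⟩)))), fun h => h1.trans h⟩
  rw [this, Set.ncard_coe_finset, card_image_of_injOn, card_range]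
  intro j hj k hk e
  simp only [coe_range, Set.mem_Iio] at hj hk
  rw [blk_iff a0 a1 n (t0 j) (t1 j) (t0 k) (t1 k)] at e
  have h1 : θ j = θ k := le_antisymm (not_lt.1 fun h => lt_irrefl _ ((e j (by omega)).2 h))
    (not_lt.1 fun h => lt_irrefl _ ((e k (by omega)).1 h))
  obtain ⟨z, hz⟩ := Int.fract_eq_fract.1 h1
  by_contra hne
  have : ((k : ℤ) - j : ℤ) ≠ 0 := by omega
  exact (hα.intCast_mul this).ne_int z (by push_cast; linarith)

end Pool.Agent.H14.St
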