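import Mathlib

namespace Pool.Agent.H14.StarSpec

open Finset Classical

variable {N : ℕ}

def Ch (S T : Finset (Fin (N + 2))) : Prop :=
  ∃ m : Fin (N + 2), m ∉ S ∧ (∀ a ∈ S, a < m) ∧ T = insert m S

noncomputable def PP (A : Fin (N + 2) → Fin (N + 2) → Prop) : Finset (Finset (Fin (N + 2))) :=
  Finset.univ.filter (fun S : Finset (Fin (N + 2)) => (0 : Fin (N + 2)) ∈ S ∧
    ∀ a ∈ S, ∀ b ∈ S, a < b → (∀ c ∈ S, ¬ (a < c ∧ c < b)) → A a b)

noncomputable def top (S : Finset (Fin (N + 2))) : Fin (N + 2) := S.sup id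

lemma le_top {S : Finset (Fin (N + 2))} {a : Fin (N + 2)} (h : a ∈ S) : a ≤ top S :=
  Finset.le_sup (f := id) h

lemma top_mem {S : Finset (Fin (N + 2))} (h : S.Nonempty) : top S ∈ S := by
  obtain ⟨a, ha, h2⟩ := Finset.exists_mem_eq_sup S h id
  unfold top
  rw [h2]
  exact ha

lemma top_insert {S : Finset (Fin (N + 2))} {m : Fin (N + 2)} (h : ∀ a ∈ S, a < m) :
    top (insert m S) = m := by
  apply le_antisymm
  · unfold top
    refine Finset.sup_le fun a ha => ?_
    rcases mem_insert.1 ha with rfl | ha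
    · exact le_rfl
    · exact (h a ha).le
  · exact le_top (mem_insert_self _ _)

lemma Ch.card {S T : Finset (Fin (N + 2))} (h : Ch S T) : T.card = S.card + 1 := by
  obtain ⟨m, hm, _, rfl⟩ := h
  exact card_insert_of_notMem hm

lemma Ch.eq_erase {S T : Finset (Fin (N + 2))} (h : Ch S T) : S = T.erase (top T) := by
  obtain ⟨m, hm, h2, rfl⟩ := h
  rw [top_insert h2, erase_insert hm]

lemma Ch.eq_insert {S T : Finset (Fin (N + 2))} (h : Ch S T) : T = insert (top T) S := by
  obtain ⟨m, hm, h2, rfl⟩ := h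
  rw [top_insert h2]

lemma Ch.lt {S T : Finset (Fin (N + 2))} (h : Ch S T) : ∀ a ∈ S, a < top T := by
  obtain ⟨m, hm, h2, rfl⟩ := h
  rw [top_insert h2]
  exact h2

theorem upper (A : Fin (N + 2) → Fin (N + 2) → Prop) (c : Fin (N + 2) → ℝ) (hc : ∀ p, 0 < c p)
    (L : ℝ)
    (hL : ∀ p, (∑ q, if p < q ∧ A p q then c q else 0) + (if p = 0 then 0 else (c p)⁻¹) ≤ L)
    (x : Finset (Fin (N + 2)) → ℝ) (hx : ∑ S ∈ PP A, x S ^ 2 = 1) :
    (∑ S ∈ PP A, ∑ T ∈ PP A, (if (Ch S T ∨ Ch T S) then x S * x T else 0)) ≤ L := by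
  have hsplit : ∀ S T : Finset (Fin (N + 2)), (if (Ch S T ∨ Ch T S) then x S * x T else 0) =
      (if Ch S T then x S * x T else 0) + (if Ch T S then x T * x S else 0) := by
    intro S T
    by_cases h1 : Ch S T <;> by_cases h2 : Ch T S
    · have := h1.card
      have := h2.card
      omega
    · simp [h1, h2]
    · simp [h1, h2, mul_comm]
    · simp [h1, h2]
  simp only [hsplit, sum_add_distrib]
  rw [sum_comm (f := fun S T => if Ch T S then x T * x S else 0), ← sum_add_distrib]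
  have h1 : ∀ S ∈ PP A, ((∑ T ∈ PP A, if Ch S T then x S * x T else 0) +
      ∑ T ∈ PP A, if Ch S T then x S * x T else 0) ≤
      (∑ T ∈ PP A, if Ch S T then c (top T) * x S ^ 2 else 0) +
      ∑ T ∈ PP A, if Ch S T then (c (top T))⁻¹ * x T ^ 2 else 0 := by
    intro S _
    rw [← sum_add_distrib, ← sum_add_distrib]
    refine sum_le_sum fun T _ => ?_
    split_ifs
    · have hp := hc (top T)
      have : 0 ≤ (c (top T))⁻¹ * (c (top T) * x S - x T) ^ 2 := by positivity
      have e : (c (top T))⁻¹ * (c (top T) * x S - x T) ^ 2 =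
          c (top T) * x S ^ 2 + (c (top T))⁻¹ * x T ^ 2 - 2 * (x S * x T) := by
        field_simp
        ring
      linarith
    · simp
  refine (sum_le_sum h1).trans ?_
  rw [sum_add_distrib, sum_comm (f := fun S T => if Ch S T then (c (top T))⁻¹ * x T ^ 2 else 0),
    ← sum_add_distrib]
  have h2 : ∀ S ∈ PP A, ((∑ T ∈ PP A, if Ch S T then c (top T) * x S ^ 2 else 0) +
      ∑ R ∈ PP A, if Ch R S then (c (top S))⁻¹ * x S ^ 2 else 0) ≤ L * x S ^ 2 := by
    intro S hS
    have hS' := (mem_filter.1 hS).2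
    have ha : (∑ T ∈ PP A, if Ch S T then c (top T) * x S ^ 2 else 0) ≤
        (∑ q, if top S < q ∧ A (top S) q then c q else 0) * x S ^ 2 := by
      rw [← sum_filter, ← sum_mul, ← sum_filter]
      refine mul_le_mul_of_nonneg_right ?_ (sq_nonneg _)
      rw [← sum_image (s := (PP A).filter fun T => Ch S T) (g := top) (f := c)]
      · refine sum_le_sum_of_subset_of_nonneg ?_ fun q _ _ => (hc q).le
        intro q hq
        obtain ⟨T, hT, rfl⟩ := mem_image.1 hq
        obtain ⟨hT1, hT2⟩ := mem_filter.1 hT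
        have hT' := (mem_filter.1 hT1).2
        have hm : top S ∈ S := top_mem ⟨0, hS'.1⟩
        have hlt := hT2.lt _ hm
        refine mem_filter.2 ⟨mem_univ _, hlt, ?_⟩
        refine hT'.2 _ ?_ _ (top_mem ⟨0, hT'.1⟩) hlt ?_
        · rw [hT2.eq_insert]
          exact mem_insert_of_mem hm
        · intro d hd ⟨h3, h4⟩
          rw [hT2.eq_insert] at hd
          rcases mem_insert.1 hd with h5 | h5
          · exact absurd h5 h4.ne
          · exact absurd (le_top h5) (not_le.2 h3)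
      · intro T hT T' hT' h
        have e1 := (mem_filter.1 (mem_coe.1 hT)).2.eq_insert
        have e2 := (mem_filter.1 (mem_coe.1 hT')).2.eq_insert
        rw [e1, e2, h]
    have hb : (∑ R ∈ PP A, if Ch R S then (c (top S))⁻¹ * x S ^ 2 else 0) ≤
        (if top S = 0 then 0 else (c (top S))⁻¹) * x S ^ 2 := by
      rw [← sum_filter, sum_const, nsmul_eq_mul]
      split_ifs with h0
      · have : (PP A).filter (fun R => Ch R S) = ∅ := by
          refine filter_eq_empty_iff.2 fun R hR hch => ?_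
          have := hch.lt 0 (mem_filter.1 hR).2.1
          rw [h0] at this
          exact lt_irrefl _ this
        simp [this]
      · have : ((PP A).filter (fun R => Ch R S)).card ≤ 1 := by
          refine card_le_one.2 fun R hR R' hR' => ?_
          rw [(mem_filter.1 hR).2.eq_erase, (mem_filter.1 hR').2.eq_erase]
        have h3 : (((PP A).filter (fun R => Ch R S)).card : ℝ) ≤ 1 := by exact_mod_cast this
        have hp := hc (top S)
        have h4 : 0 ≤ (c (top S))⁻¹ * x S ^ 2 := by positivity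
        nlinarith
    have := mul_le_mul_of_nonneg_right (hL (top S)) (sq_nonneg (x S))
    nlinarith
  refine (sum_le_sum h2).trans ?_
  rw [← mul_sum, hx, mul_one]

theorem lower (A : Fin (N + 2) → Fin (N + 2) → Prop) (h01 : A 0 1) :
    ∃ x : Finset (Fin (N + 2)) → ℝ, ∑ S ∈ PP A, x S ^ 2 = 1 ∧
      0 < (∑ S ∈ PP A, ∑ T ∈ PP A, (if (Ch S T ∨ Ch T S) then x S * x T else 0)) := by
  have hne : ({0} : Finset (Fin (N + 2))) ≠ {1, 0} := by
    intro h
    have : (1 : Fin (N + 2)) ∈ ({0} : Finset (Fin (N + 2))) := by rw [h]; simp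
    simp at this
  have m0 : ({0} : Finset (Fin (N + 2))) ∈ PP A := by
    refine mem_filter.2 ⟨mem_univ _, by simp, ?_⟩
    intro a ha b hb hab
    rw [mem_singleton] at ha hb
    rw [ha, hb] at hab
    exact absurd hab (lt_irrefl _)
  have m1 : ({1, 0} : Finset (Fin (N + 2))) ∈ PP A := by
    refine mem_filter.2 ⟨mem_univ _, by simp, ?_⟩
    intro a ha b hb hab _
    simp only [mem_insert, mem_singleton] at ha hb
    rcases ha with rfl | rfl <;> rcases hb with rfl | rfl
    · exact absurd hab (lt_irrefl _)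
    · exact absurd hab (by simp)
    · exact h01
    · exact absurd hab (lt_irrefl _)
  let x : Finset (Fin (N + 2)) → ℝ := fun S =>
    if S = {0} then 3 / 5 else if S = {1, 0} then 4 / 5 else 0
  have x0 : x {0} = 3 / 5 := by simp [x]
  have x1 : x {1, 0} = 4 / 5 := by simp only [x]; rw [if_neg hne.symm]; simp
  have xn : ∀ S, 0 ≤ x S := by
    intro S
    simp only [x]
    split_ifs <;> norm_num
  refine ⟨x, ?_, ?_⟩
  · rw [← sum_subset (s₁ := {{0}, {1, 0}}) (by
      intro S hS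
      simp only [mem_insert, mem_singleton] at hS
      rcases hS with rfl | rfl
      · exact m0
      · exact m1) (by
      intro S _ hS
      simp only [mem_insert, mem_singleton, not_or] at hS
      simp [x, hS.1, hS.2]), sum_pair hne, x0, x1]
    norm_num
  · have hn : ∀ S T, 0 ≤ (if (Ch S T ∨ Ch T S) then x S * x T else 0) := by
      intro S T
      split_ifs
      · exact mul_nonneg (xn S) (xn T)
      · exact le_rfl
    refine sum_pos' (fun S _ => sum_nonneg fun T _ => hn S T) ⟨{0}, m0, ?_⟩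
    refine sum_pos' (fun T _ => hn _ T) ⟨{1, 0}, m1, ?_⟩
    rw [if_pos (Or.inl ⟨1, by simp, by simp, rfl⟩), x0, x1]
    norm_num

theorem beta_le (A : Fin (N + 2) → Fin (N + 2) → Prop) (h01 : A 0 1)
    (c : Fin (N + 2) → ℝ) (hc : ∀ p, 0 < c p) (L : ℝ)
    (hL : ∀ p, (∑ q, if p < q ∧ A p q then c q else 0) + (if p = 0 then 0 else (c p)⁻¹) ≤ L) :
    1 - ((sSup {q : ℝ | ∃ x : Finset (Fin (N + 2)) → ℝ, (∑ S ∈ PP A, x S ^ 2) = 1 ∧
      q = ∑ S ∈ PP A, ∑ T ∈ PP A, (if (Ch S T ∨ Ch T S) then x S * x T else 0)}) ^ 2)⁻¹ ≤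
      1 - (L ^ 2)⁻¹ := by
  set Q := {q : ℝ | ∃ x : Finset (Fin (N + 2)) → ℝ, (∑ S ∈ PP A, x S ^ 2) = 1 ∧
      q = ∑ S ∈ PP A, ∑ T ∈ PP A, (if (Ch S T ∨ Ch T S) then x S * x T else 0)} with hQ
  have hub : ∀ q ∈ Q, q ≤ L := by
    rintro q ⟨x, hx, rfl⟩
    exact upper A c hc L hL x hx
  obtain ⟨x, hx, hpos⟩ := lower A h01
  have hmem : (∑ S ∈ PP A, ∑ T ∈ PP A, (if (Ch S T ∨ Ch T S) then x S * x T else 0)) ∈ Q :=
    ⟨x, hx, rfl⟩
  have h1 : 0 < sSup Q := hpos.trans_le (le_csSup ⟨L, hub⟩ hmem)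
  have h2 : sSup Q ≤ L := csSup_le ⟨_, hmem⟩ hub
  have h3 : (L ^ 2)⁻¹ ≤ (sSup Q ^ 2)⁻¹ := by
    apply inv_anti₀ (by positivity)
    exact pow_le_pow_left₀ h1.le h2 2
  linarith

end Pool.Agent.H14.StarSpec
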