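import Mathlib
import Pool.Agent.H14.StarSpec

namespace Pool.Agent.H14.StarGraph

open Finset

abbrev W := Fin 5 ⊕ (Fin 4 × Fin 10)

def core (u v : Fin 5) : Bool :=
  u != v && (u == 0 || v == 0 || (u.val + 1) / 2 == (v.val + 1) / 2)

def adjW : W → W → Bool
  | Sum.inl u, Sum.inl v => core u v
  | Sum.inl u, Sum.inr l => u == l.1.succ
  | Sum.inr l, Sum.inl u => u == l.1.succ
  | Sum.inr _, Sum.inr _ => false

def HW : SimpleGraph W where
  Adj u v := adjW u v = true
  symm := ⟨by decide⟩
  loopless := ⟨by decide⟩

instance : DecidableRel HW.Adj := fun u v => inferInstanceAs (Decidable (adjW u v = true))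

lemma HW_conn : HW.Connected := by
  have h0 : ∀ v : Fin 5, HW.Reachable (Sum.inl 0) (Sum.inl v) := by
    intro v
    by_cases h : v = 0
    · rw [h]
    · refine SimpleGraph.Adj.reachable ?_
      revert v
      decide
  have h1 : ∀ w : W, HW.Reachable (Sum.inl 0) w := by
    rintro (v | l)
    · exact h0 v
    · refine (h0 l.1.succ).trans (SimpleGraph.Adj.reachable ?_)
      simp [HW, adjW]
  exact SimpleGraph.Connected.mk fun u v => (h1 u).symm.trans (h1 v)

def K : Bool → Bool → Bool → Bool → Bool → Bool → Fin 5 → ℕ
  | true, true, true, true, true, true => ![5814, 1235, 674, 1235, 674]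
  | true, true, true, true, true, false => ![5814, 1235, 674, 674, 1235]
  | true, true, true, true, false, true => ![5814, 674, 1235, 1235, 674]
  | true, true, true, true, false, false => ![5814, 674, 1235, 674, 1235]
  | false, true, true, true, true, true => ![711, 10129, 674, 1235, 674]
  | false, true, true, true, true, false => ![711, 10129, 674, 674, 1235]
  | false, false, true, true, true, true => ![481, 211223, 998, 1235, 674]
  | false, false, true, true, true, false => ![481, 211223, 998, 674, 1235]
  | false, false, false, true, true, true => ![302, 2988, 847, 1970, 674]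
  | false, false, false, false, true, true => ![251, 2377, 812, 2377, 812]
  | false, false, true, false, true, false => ![302, 2988, 847, 674, 1970]
  | false, false, false, false, true, false => ![251, 2377, 812, 812, 2377]
  | false, true, false, true, true, true => ![379, 2322, 674, 2322, 674]
  | false, true, false, false, true, true => ![302, 1970, 674, 2988, 847]
  | false, true, true, false, true, false => ![379, 2322, 674, 674, 2322]
  | false, true, false, false, true, false => ![302, 1970, 674, 847, 2988]
  | true, false, true, true, false, true => ![711, 674, 10129, 1235, 674]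
  | true, false, true, true, false, false => ![711, 674, 10129, 674, 1235]
  | false, false, true, true, false, true => ![481, 998, 211223, 1235, 674]
  | false, false, true, true, false, false => ![481, 998, 211223, 674, 1235]
  | false, false, false, true, false, true => ![302, 847, 2988, 1970, 674]
  | false, false, false, false, false, true => ![251, 812, 2377, 2377, 812]
  | false, false, true, false, false, false => ![302, 847, 2988, 674, 1970]
  | false, false, false, false, false, false => ![251, 812, 2377, 812, 2377]
  | true, false, false, true, false, true => ![379, 674, 2322, 2322, 674]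
  | true, false, false, false, false, true => ![302, 674, 1970, 2988, 847]
  | true, false, true, false, false, false => ![379, 674, 2322, 674, 2322]
  | true, false, false, false, false, false => ![302, 674, 1970, 847, 2988]
  | true, true, false, true, true, true => ![711, 1235, 674, 10129, 674]
  | true, true, false, true, false, true => ![711, 674, 1235, 10129, 674]
  | true, true, false, false, true, true => ![481, 1235, 674, 211223, 998]
  | true, true, false, false, false, true => ![481, 674, 1235, 211223, 998]
  | true, true, true, false, true, false => ![711, 1235, 674, 674, 10129]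
  | true, true, true, false, false, false => ![711, 674, 1235, 674, 10129]
  | true, true, false, false, true, false => ![481, 1235, 674, 998, 211223]
  | true, true, false, false, false, false => ![481, 674, 1235, 998, 211223]
  | _, _, _, _, _, _ => ![1, 1, 1, 1, 1]

def O (a b c d e f : Bool) : Fin 5 → Fin 5 → Bool :=
  ![![false, a, b, c, d], ![!a, false, e, false, false], ![!b, !e, false, false, false],
    ![!c, false, false, false, f], ![!d, false, false, !f, false]]

lemma K_ok : ∀ a b c d e f : Bool, (a && e && !b) = false → (!a && !e && b) = false →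
    (c && f && !d) = false → (!c && !f && d) = false → ∀ v : Fin 5,
    0 < K a b c d e f v ∧
    1000000 * (if v = 0 then 0 else 1) * K a b c d e f v +
      399 * K a b c d e f v * (∑ u, if O a b c d e f v u then K a b c d e f u else 0) +
      399000000 ≤ 1592010 * K a b c d e f v := by
  decide +kernel

lemma conv (k s t : ℕ) (hk : 0 < k)
    (h : 1000000 * t * k + 399 * k * s + 399000000 ≤ 1592010 * k) :
    (t : ℝ) * 10 * (399 / 100)⁻¹ + s / 1000 + ((k : ℝ) / 1000)⁻¹ ≤ 399 / 100 := by
  have hk' : (0 : ℝ) < k := by exact_mod_cast hk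
  have h' : (1000000 : ℝ) * t * k + 399 * k * s + 399000000 ≤ 1592010 * k := by exact_mod_cast h
  have e : (t : ℝ) * 10 * (399 / 100)⁻¹ + s / 1000 + ((k : ℝ) / 1000)⁻¹ =
      (1000000 * t * k + 399 * k * s + 399000000) / (399000 * k) := by
    field_simp
    ring
  rw [e, div_le_iff₀ (by positivity)]
  linarith

lemma core_weights (p : Fin 5 → ℕ) (hp : Function.Injective p) :
    ∃ c : Fin 5 → ℝ, ∀ v, 0 < c v ∧
      (if v = 0 then 0 else 10 * (399 / 100 : ℝ)⁻¹) +
        (∑ u, if p v < p u ∧ core v u = true then c u else 0) + (c v)⁻¹ ≤ 399 / 100 := by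
  have hne : ∀ u v : Fin 5, u ≠ v → p u ≠ p v := fun u v h h' => h (hp h')
  have n01 := hne 0 1 (by decide)
  have n02 := hne 0 2 (by decide)
  have n03 := hne 0 3 (by decide)
  have n04 := hne 0 4 (by decide)
  have n12 := hne 1 2 (by decide)
  have n34 := hne 3 4 (by decide)
  set a := decide (p 0 < p 1) with ha
  set b := decide (p 0 < p 2) with hb
  set c := decide (p 0 < p 3) with hc
  set d := decide (p 0 < p 4) with hd
  set e := decide (p 1 < p 2) with he
  set f := decide (p 3 < p 4) with hf
  have hO : ∀ v u, (O a b c d e f v u = true) ↔ (p v < p u ∧ core v u = true) := by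
    intro v u
    fin_cases v <;> fin_cases u <;> simp [O, core, ha, hb, hc, hd, he, hf] <;> omega
  have hK := K_ok a b c d e f (by simp [ha, hb, he]; omega) (by simp [ha, hb, he]; omega)
    (by simp [hc, hd, hf]; omega) (by simp [hc, hd, hf]; omega)
  refine ⟨fun v => (K a b c d e f v : ℝ) / 1000, fun v => ⟨?_, ?_⟩⟩
  · have : (0 : ℝ) < K a b c d e f v := by exact_mod_cast (hK v).1
    positivity
  · have h1 := conv _ _ _ (hK v).1 (hK v).2
    have e1 : (((if v = 0 then 0 else 1 : ℕ)) : ℝ) * 10 * (399 / 100)⁻¹ =
        (if v = 0 then 0 else 10 * (399 / 100 : ℝ)⁻¹) := by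
      split_ifs <;> simp
    have e2 : ((∑ u, if O a b c d e f v u then K a b c d e f u else 0 : ℕ) : ℝ) / 1000 =
        ∑ u, if p v < p u ∧ core v u = true then (K a b c d e f u : ℝ) / 1000 else 0 := by
      rw [Nat.cast_sum, sum_div]
      refine sum_congr rfl fun u _ => ?_
      by_cases h : O a b c d e f v u = true
      · rw [if_pos h, if_pos ((hO v u).1 h)]
      · rw [if_neg h, if_neg (fun h' => h ((hO v u).2 h'))]
        simp
    rw [e1, e2] at h1
    exact h1

lemma all_weights (pos : W → ℕ) (hp : Function.Injective pos)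
    (hearly : ∀ w, pos w ≠ 0 → ∃ u, HW.Adj w u ∧ pos u < pos w) :
    ∃ c : W → ℝ, ∀ w, 0 < c w ∧
      (∑ u, if pos w < pos u ∧ HW.Adj w u then c u else 0) +
        (if pos w = 0 then 0 else (c w)⁻¹) ≤ 399 / 100 := by
  classical
  obtain ⟨c, hc⟩ := core_weights (fun v => pos (Sum.inl v))
    (fun u v h => Sum.inl_injective (hp h))
  set L : ℝ := 399 / 100 with hL
  have hL0 : 0 < L := by rw [hL]; norm_num
  let R : Fin 5 → Prop := fun v => ∃ l : Fin 4 × Fin 10, pos (Sum.inr l) = 0 ∧ v = l.1.succ
  let c' : Fin 5 → ℝ := fun v => ((c v)⁻¹ + if R v then L⁻¹ else 0)⁻¹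
  have hR0 : ∀ v, (0 : ℝ) ≤ if R v then L⁻¹ else 0 := by
    intro v
    split_ifs
    · positivity
    · exact le_rfl
  have hc'0 : ∀ v, 0 < c' v := by
    intro v
    have := (hc v).1
    have := hR0 v
    simp only [c']
    positivity
  have hc'1 : ∀ v, c' v ≤ c v := by
    intro v
    have h1 := (hc v).1
    have h2 := hR0 v
    simp only [c']
    rw [inv_le_comm₀ (by positivity) h1]
    linarith
  refine ⟨Sum.elim c' (fun _ => L⁻¹), ?_⟩
  rintro (v | l)
  · refine ⟨hc'0 v, ?_⟩
    rw [Fintype.sum_sum_type]
    simp only [Sum.elim_inl, Sum.elim_inr]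
    have h1 : (∑ u : Fin 5, if pos (Sum.inl v) < pos (Sum.inl u) ∧
        HW.Adj (Sum.inl v) (Sum.inl u) then c' u else 0) ≤
        ∑ u, if pos (Sum.inl v) < pos (Sum.inl u) ∧ core v u = true then c u else 0 := by
      refine sum_le_sum fun u _ => ?_
      by_cases h : pos (Sum.inl v) < pos (Sum.inl u) ∧ core v u = true
      · have h' : pos (Sum.inl v) < pos (Sum.inl u) ∧ HW.Adj (Sum.inl v) (Sum.inl u) := h
        rw [if_pos h, if_pos h']
        exact hc'1 u
      · have h' : ¬ (pos (Sum.inl v) < pos (Sum.inl u) ∧ HW.Adj (Sum.inl v) (Sum.inl u)) := h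
        rw [if_neg h, if_neg h']
    have h2 : (if pos (Sum.inl v) = 0 then 0 else (c' v)⁻¹) ≤
        (c v)⁻¹ + if R v then L⁻¹ else 0 := by
      by_cases h : pos (Sum.inl v) = 0
      · rw [if_pos h]
        have := (hc v).1
        have := hR0 v
        positivity
      · rw [if_neg h]
        simp only [c', inv_inv]
        exact le_rfl
    have h3 : (∑ l : Fin 4 × Fin 10, if pos (Sum.inl v) < pos (Sum.inr l) ∧
        HW.Adj (Sum.inl v) (Sum.inr l) then L⁻¹ else 0) + (if R v then L⁻¹ else 0) ≤
        (if v = 0 then 0 else 10 * L⁻¹) := by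
      have hcard : ∀ v : Fin 5, (univ.filter fun l : Fin 4 × Fin 10 => v = l.1.succ).card =
          if v = 0 then 0 else 10 := by decide
      have hsub : (univ.filter fun l : Fin 4 × Fin 10 => pos (Sum.inl v) < pos (Sum.inr l) ∧
          HW.Adj (Sum.inl v) (Sum.inr l)) ⊆
          (univ.filter fun l : Fin 4 × Fin 10 => v = l.1.succ) := by
        intro l hl
        simp only [mem_filter, mem_univ, true_and, HW, adjW, beq_iff_eq] at hl ⊢
        exact hl.2
      have hn : (univ.filter fun l : Fin 4 × Fin 10 => pos (Sum.inl v) < pos (Sum.inr l) ∧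
          HW.Adj (Sum.inl v) (Sum.inr l)).card + (if R v then 1 else 0) ≤
          if v = 0 then 0 else 10 := by
        rw [← hcard v]
        split_ifs with hR
        · obtain ⟨l, hl0, hl⟩ := hR
          refine card_lt_card ⟨hsub, fun h => ?_⟩
          have := h (mem_filter.2 ⟨mem_univ l, hl⟩)
          have := (mem_filter.1 this).2.1
          omega
        · exact card_le_card hsub
      rw [← sum_filter, sum_const, nsmul_eq_mul]
      have hn' : (((univ.filter fun l : Fin 4 × Fin 10 => pos (Sum.inl v) < pos (Sum.inr l) ∧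
          HW.Adj (Sum.inl v) (Sum.inr l)).card : ℕ) : ℝ) + (if R v then 1 else 0) ≤
          if v = 0 then 0 else 10 := by exact_mod_cast hn
      have hi : 0 < L⁻¹ := by positivity
      have := mul_le_mul_of_nonneg_right hn' hi.le
      split_ifs at this ⊢ <;> linarith
    have h4 := (hc v).2
    linarith
  · refine ⟨by simp only [Sum.elim_inr]; positivity, ?_⟩
    simp only [Sum.elim_inr, inv_inv]
    have hadj : ∀ u, HW.Adj (Sum.inr l) u → u = Sum.inl l.1.succ := by
      rintro (u | u) h
      · simp only [HW, adjW, beq_iff_eq] at h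
        rw [h]
      · simp [HW, adjW] at h
    by_cases h0 : pos (Sum.inr l) = 0
    · rw [if_pos h0, add_zero, sum_eq_single (Sum.inl l.1.succ)]
      · have hR : R l.1.succ := ⟨l, h0, rfl⟩
        have : c' l.1.succ ≤ L := by
          have h1 := (hc l.1.succ).1
          simp only [c', if_pos hR]
          rw [inv_le_comm₀ (by positivity) hL0]
          have : 0 < (c l.1.succ)⁻¹ := by positivity
          linarith
        split_ifs
        · exact this
        · exact hL0.le
      · intro u _ hu
        rw [if_neg]
        exact fun h => hu (hadj u h.2)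
      · simp
    · rw [if_neg h0, sum_eq_zero, zero_add]
      intro u _
      rw [if_neg]
      rintro ⟨h1, h2⟩
      obtain ⟨u', h3, h4⟩ := hearly _ h0
      rw [hadj u h2] at h1
      rw [hadj u' h3] at h4
      omega

abbrev U := Fin 2 ⊕ (Fin 4 × Fin 16) ⊕ (Fin 4 × Fin 10)

def pr : U → W
  | Sum.inl _ => Sum.inl 0
  | Sum.inr (Sum.inl a) => Sum.inl a.1.succ
  | Sum.inr (Sum.inr l) => Sum.inr l

def bad : U → U → Bool
  | Sum.inl x, Sum.inr (Sum.inl a) => a.1.val / 2 == x.val && (a.2.val == 10 || a.2.val == 11)
  | Sum.inr (Sum.inl a), Sum.inr (Sum.inl b) => decide (12 ≤ a.2.val) && decide (12 ≤ b.2.val)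
  | Sum.inr (Sum.inr l), Sum.inr (Sum.inl a) => a.2.val == l.2.val
  | _, _ => false

def adjU (x y : U) : Bool := adjW (pr x) (pr y) && !bad x y && !bad y x

def GU : SimpleGraph U where
  Adj x y := adjU x y = true
  symm := ⟨by
    intro x y h
    simp only [adjU, Bool.and_eq_true] at h ⊢
    exact ⟨⟨HW.adj_symm h.1.1, h.2⟩, h.1.2⟩⟩
  loopless := ⟨by
    intro x h
    simp only [adjU, Bool.and_eq_true] at h
    exact HW.irrefl h.1.1⟩

lemma pr_surj : Function.Surjective pr := by
  rintro (v | l)
  · revert v
    decide
  · exact ⟨Sum.inr (Sum.inr l), rfl⟩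

def sz (w : W) : ℕ := (univ.filter fun x : U => pr x = w).card

def cnt (v w : W) : ℕ :=
  ∑ x ∈ univ.filter (fun x : U => pr x = v), (univ.filter fun y : U => pr y = w ∧ adjU x y = true).card

lemma dens : ∀ v w : W, adjW v w = true → 16 * cnt v w = 15 * (sz v * sz w) := by
  decide +kernel

lemma sz_pos : ∀ w : W, 0 < sz w := by
  decide +kernel

lemma no_trans (a : W → U) (h1 : ∀ i, pr (a i) = i) (h2 : ∀ i j, HW.Adj i j → GU.Adj (a i) (a j)) :
    False := by
  have hx : ∃ x, a (Sum.inl 0) = Sum.inl x := by
    have := h1 (Sum.inl 0)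
    rcases h : a (Sum.inl 0) with x | y | l
    · exact ⟨x, rfl⟩
    · rw [h] at this
      simp [pr] at this
    · rw [h] at this
      simp [pr] at this
  obtain ⟨x, hx⟩ := hx
  have ho : ∀ i : Fin 4, ∃ t : Fin 16, a (Sum.inl i.succ) = Sum.inr (Sum.inl (i, t)) := by
    intro i
    have := h1 (Sum.inl i.succ)
    rcases h : a (Sum.inl i.succ) with x | y | l
    · rw [h] at this
      simp only [pr, Sum.inl.injEq] at this
      exact absurd this.symm (Fin.succ_ne_zero _)
    · rw [h] at this
      simp only [pr, Sum.inl.injEq, Fin.succ_inj] at this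
      exact ⟨y.2, by rw [← this]⟩
    · rw [h] at this
      simp [pr] at this
  have hl : ∀ l, a (Sum.inr l) = Sum.inr (Sum.inr l) := by
    intro l
    have := h1 (Sum.inr l)
    rcases h : a (Sum.inr l) with x | y | l'
    · rw [h] at this
      simp [pr] at this
    · rw [h] at this
      simp [pr] at this
    · rw [h] at this
      simp only [pr, Sum.inr.injEq] at this
      rw [this]
  choose t ht using ho
  have hlive : ∀ i, 10 ≤ (t i).val := by
    intro i
    by_contra hlt
    have := h2 (Sum.inr (i, ⟨(t i).val, by omega⟩)) (Sum.inl i.succ) (by simp [HW, adjW])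
    rw [hl, ht] at this
    simp [GU, adjU, bad] at this
  have hbig : ∀ i : Fin 4, i.val / 2 = x.val → 12 ≤ (t i).val := by
    intro i hi
    have := h2 (Sum.inl 0) (Sum.inl i.succ) (by clear hi; revert i; decide)
    rw [hx, ht] at this
    have h3 := hlive i
    simp [GU, adjU, bad, hi] at this
    omega
  have hpair : ∀ i j : Fin 4, HW.Adj (Sum.inl i.succ) (Sum.inl j.succ) → 12 ≤ (t i).val →
      12 ≤ (t j).val → False := by
    intro i j hij hi hj
    have := h2 _ _ hij
    rw [ht, ht] at this
    simp [GU, adjU, bad, hi, hj] at this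
  fin_cases x
  · exact hpair 0 1 (by decide) (hbig 0 (by simp)) (hbig 1 (by simp))
  · exact hpair 2 3 (by decide) (hbig 2 (by simp)) (hbig 3 (by simp))

end Pool.Agent.H14.StarGraph
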