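import Mathlib
set_option autoImplicit false

namespace Pool.Agent.H14.Sy
open Finset Quaternion

def qe : Fin 4 → ℍ[ℝ] := ![⟨1, 0, 0, 0⟩, ⟨0, 1, 0, 0⟩, ⟨0, 0, 1, 0⟩, ⟨0, 0, 0, 1⟩]

lemma normSq_qe (s : Fin 4) : normSq (qe s) = 1 := by
  fin_cases s <;> simp [qe, normSq_def']

lemma re_comm (a b : ℍ[ℝ]) : (a * b).re = (b * a).re := by
  simp only [re_mul]; ring

lemma L1 (A D z : ℍ[ℝ]) (hz : normSq z = 1) :
    ∑ s, (A * (qe s * z)).re * (D * star (qe s * z)).re = (D * A).re := by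
  rw [normSq_def'] at hz
  have : ∑ s, (A * (qe s * z)).re * (D * star (qe s * z)).re =
      (z.re ^ 2 + z.imI ^ 2 + z.imJ ^ 2 + z.imK ^ 2) * (D * A).re := by
    simp [Fin.sum_univ_four, qe, -star_mul]
    ring
  rw [this, hz, one_mul]

lemma L2 (D E y : ℍ[ℝ]) (hy : normSq y = 1) :
    ∑ s, (D * star (qe s * y) * E * (qe s * y)).re = 4 * (E.re * D.re) := by
  rw [normSq_def'] at hy
  have : ∑ s, (D * star (qe s * y) * E * (qe s * y)).re =
      (y.re ^ 2 + y.imI ^ 2 + y.imJ ^ 2 + y.imK ^ 2) * (4 * (E.re * D.re)) := by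
    simp [Fin.sum_univ_four, qe, -star_mul]
    ring
  rw [this, hy, one_mul]

lemma L3 (a g h k x y z : ℍ[ℝ]) (hx : normSq x = 1) (hy : normSq y = 1) (hz : normSq z = 1) :
    ∑ s1, ∑ s2, ∑ s3, (a * (qe s1 * x) * (qe s2 * y) * (qe s3 * z)).re *
      (a * (g * star (qe s1 * x) * g) * (h * star (qe s2 * y) * h) *
        (k * star (qe s3 * z) * k)).re = 4 * ((a * (g * (h * k))) * (a * (g * (h * k)))).re := by
  have e1 : ∀ X Y : ℍ[ℝ], ∑ s3, (a * X * Y * (qe s3 * z)).re *
      (a * (g * star X * g) * (h * star Y * h) * (k * star (qe s3 * z) * k)).re =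
      ((k * a * g * star X * g * h) * star Y * (h * k * a * X) * Y).re := by
    intro X Y
    have := L1 (a * X * Y) (k * a * g * star X * g * h * star Y * h * k) z hz
    rw [show (k * a * g * star X * g * h) * star Y * (h * k * a * X) * Y =
      k * a * g * star X * g * h * star Y * h * k * (a * X * Y) by simp only [mul_assoc], ← this]
    refine Finset.sum_congr rfl fun s _ => ?_
    congr 1
    rw [show a * (g * star X * g) * (h * star Y * h) * (k * star (qe s * z) * k) =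
      (a * g * star X * g * h * star Y * h * k * star (qe s * z)) * k by simp only [mul_assoc],
      re_comm]
    simp only [mul_assoc]
  simp only [e1]
  simp only [L2 _ _ y hy]
  rw [← Finset.mul_sum]
  congr 1
  have := L1 (h * k * a) (g * h * k * a * g) x hx
  rw [show (a * (g * (h * k))) * (a * (g * (h * k))) = a * (g * h * k * a * g * h * k) by
    simp only [mul_assoc], re_comm,
    show g * h * k * a * g * h * k * a = g * h * k * a * g * (h * k * a) by simp only [mul_assoc],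
    ← this]
  refine Finset.sum_congr rfl fun s _ => ?_
  congr 1
  rw [show k * a * g * star (qe s * x) * g * h = (k * a * g * star (qe s * x)) * (g * h) by
    simp only [mul_assoc], re_comm]
  simp only [mul_assoc]

abbrev I := Fin 4 × Fin 4

def f4 : Fin 4 → Fin 4 → Fin 4 := ![![0, 0, 0, 0], ![0, 1, 2, 3], ![0, 2, 3, 1], ![0, 3, 1, 2]]
def x4 : Fin 4 → Fin 4 → Fin 4 := ![![0, 1, 2, 3], ![1, 0, 3, 2], ![2, 3, 0, 1], ![3, 2, 1, 0]]
def ee (i j : I) : Fin 4 := x4 (f4 i.1 j.1) (f4 i.2 j.2)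
def ch : Fin 3 → Fin 4 → ℤ := ![![1, 1, -1, -1], ![1, -1, 1, -1], ![1, -1, -1, 1]]

lemma orth : ∀ (t : Fin 3) (j j' : I), ∑ i : I, ch t (ee i j) * ch t (ee i j') =
    if j = j' then 16 else 0 := by
  decide +kernel

lemma hada (H : I → I → ℝ) (hH : ∀ j j', ∑ i, H i j * H i j' = if j = j' then 16 else 0)
    (u v : I → Fin 3 → ℝ) (hu : ∀ i, ∑ c, u i c ^ 2 = 1) (hv : ∀ j, ∑ c, v j c ^ 2 = 1) :
    ∑ i, ∑ j, H i j * ∑ c, u i c * v j c ≤ 64 := by
  have e1 : ∀ c, ∑ i, (∑ j, H i j * v j c) ^ 2 = 16 * ∑ j, v j c ^ 2 := by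
    intro c
    have : ∀ i, (∑ j, H i j * v j c) ^ 2 = ∑ j, ∑ j', v j c * v j' c * (H i j * H i j') := by
      intro i
      rw [sq, Finset.sum_mul_sum]
      exact Finset.sum_congr rfl fun j _ => Finset.sum_congr rfl fun j' _ => by ring
    simp only [this]
    rw [Finset.sum_comm, Finset.mul_sum]
    refine Finset.sum_congr rfl fun j _ => ?_
    rw [Finset.sum_comm]
    simp only [← Finset.mul_sum, hH, mul_ite, mul_zero]
    rw [Finset.sum_ite_eq]
    simp
    ring
  have e2 : ∑ i, ∑ j, H i j * ∑ c, u i c * v j c = ∑ i, ∑ c, u i c * ∑ j, H i j * v j c := by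
    refine Finset.sum_congr rfl fun i _ => ?_
    simp only [Finset.mul_sum]
    rw [Finset.sum_comm]
    exact Finset.sum_congr rfl fun c _ => Finset.sum_congr rfl fun j _ => by ring
  rw [e2]
  calc ∑ i, ∑ c, u i c * ∑ j, H i j * v j c
      ≤ ∑ i, ∑ c, (2 * u i c ^ 2 + (1 / 8) * (∑ j, H i j * v j c) ^ 2) :=
        Finset.sum_le_sum fun i _ => Finset.sum_le_sum fun c _ => by
          nlinarith [sq_nonneg (4 * u i c - ∑ j, H i j * v j c)]
    _ = 2 * ∑ i, ∑ c, u i c ^ 2 + (1 / 8) * ∑ c, ∑ i, (∑ j, H i j * v j c) ^ 2 := by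
        simp only [Finset.sum_add_distrib, Finset.mul_sum]
        rw [Finset.sum_comm (f := fun c i => 1 / 8 * (∑ j, H i j * v j c) ^ 2)]
    _ = 64 := by
        simp only [e1, hu]
        rw [← Finset.mul_sum, Finset.sum_comm]
        simp only [hv]
        simp
        norm_num

def im3 (w : ℍ[ℝ]) : Fin 3 → ℝ := ![w.imI, w.imJ, w.imK]

lemma sq_re (s : Fin 4) (g h : ℍ[ℝ]) :
    ((qe s * (g * h)) * (qe s * (g * h))).re = -(1 / 2) * (normSq g * normSq h) +
      (1 / 2) * ∑ t : Fin 3, (ch t s : ℝ) * ∑ c, im3 (star g * qe t.succ * g) c *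
        im3 (h * qe t.succ * star h) c := by
  simp only [normSq_def']
  fin_cases s <;>
  · simp [Fin.sum_univ_three, qe, ch, im3]
    ring

lemma im3_l (t : Fin 3) (g : ℍ[ℝ]) (hg : normSq g = 1) :
    ∑ c, im3 (star g * qe t.succ * g) c ^ 2 = 1 := by
  have : ∑ c, im3 (star g * qe t.succ * g) c ^ 2 = normSq g ^ 2 := by
    simp only [normSq_def']
    fin_cases t <;>
    · simp [Fin.sum_univ_three, qe, im3]
      ring
  rw [this, hg, one_pow]

lemma im3_r (t : Fin 3) (g : ℍ[ℝ]) (hg : normSq g = 1) :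
    ∑ c, im3 (g * qe t.succ * star g) c ^ 2 = 1 := by
  have := im3_l t (star g) (by rw [normSq_star, hg])
  rwa [star_star] at this

lemma total (g h : I → ℍ[ℝ]) (hg : ∀ i, normSq (g i) = 1) (hh : ∀ i, normSq (h i) = 1) :
    ∑ i, ∑ j, ((qe (ee i j) * (g i * h j)) * (qe (ee i j) * (g i * h j))).re ≤ -32 := by
  simp only [sq_re, hg, hh, Finset.sum_add_distrib, ← Finset.mul_sum]
  have e : ∑ i, ∑ j, ∑ t : Fin 3, (ch t (ee i j) : ℝ) *
      ∑ c, im3 (star (g i) * qe t.succ * g i) c * im3 (h j * qe t.succ * star (h j)) c =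
      ∑ t : Fin 3, ∑ i, ∑ j, (ch t (ee i j) : ℝ) *
      ∑ c, im3 (star (g i) * qe t.succ * g i) c * im3 (h j * qe t.succ * star (h j)) c := by
    rw [Finset.sum_congr rfl fun i _ => Finset.sum_comm, Finset.sum_comm]
  rw [e]
  have : ∀ t : Fin 3, ∑ i, ∑ j, (ch t (ee i j) : ℝ) *
      ∑ c, im3 (star (g i) * qe t.succ * g i) c * im3 (h j * qe t.succ * star (h j)) c ≤ 64 := by
    intro t
    refine hada (fun i j => (ch t (ee i j) : ℝ)) (fun j j' => ?_) _ _
      (fun i => im3_l t _ (hg i)) (fun j => im3_r t _ (hh j))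
    have := congrArg (Int.cast : ℤ → ℝ) (orth t j j')
    push_cast at this
    exact this
  have h2 := Finset.sum_le_sum (s := univ) fun t _ => this t
  simp only [sum_const, card_univ, Fintype.card_fin, Fintype.card_prod, nsmul_eq_mul] at h2 ⊢
  push_cast at h2 ⊢
  linarith

/-! finite field counting -/

lemma count_lt (P : ℕ) [NeZero P] (s : ℝ) (hs : 0 ≤ s) :
    ∑ u : ZMod P, (if (u.val : ℝ) < P * s then (1 : ℝ) else 0) ≤ P * s + 1 := by
  rw [Finset.sum_boole]
  have : (univ.filter (fun u : ZMod P => (u.val : ℝ) < P * s)).card ≤ ⌈(P : ℝ) * s⌉₊ := by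
    rw [← card_range ⌈(P : ℝ) * s⌉₊]
    refine card_le_card_of_injOn ZMod.val (fun u hu => ?_) (ZMod.val_injective P).injOn
    simp only [coe_filter, mem_univ, true_and, Set.mem_setOf_eq] at hu
    simp only [coe_range, Set.mem_Iio]
    exact Nat.lt_ceil.2 hu
  have h2 := Nat.ceil_lt_add_one (a := (P : ℝ) * s) (by positivity)
  have h3 : ((univ.filter (fun u : ZMod P => (u.val : ℝ) < P * s)).card : ℝ) ≤ ⌈(P : ℝ) * s⌉₊ := by
    exact_mod_cast this
  linarith

lemma count_ge (P : ℕ) [NeZero P] (s : ℝ) (hs : 0 ≤ s) (hs1 : s ≤ 1) :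
    ∑ u : ZMod P, (if ¬ (u.val : ℝ) < P * s then (1 : ℝ) else 0) ≤ P * (1 - s) + 1 := by
  rw [Finset.sum_boole]
  have : (univ.filter (fun u : ZMod P => ¬ (u.val : ℝ) < P * s)).card ≤ P - ⌈(P : ℝ) * s⌉₊ := by
    rw [← Nat.card_Ico]
    refine card_le_card_of_injOn ZMod.val (fun u hu => ?_) (ZMod.val_injective P).injOn
    simp only [coe_filter, mem_univ, true_and, Set.mem_setOf_eq, not_lt] at hu
    simp only [coe_Ico, Set.mem_Ico]
    exact ⟨Nat.ceil_le.2 hu, ZMod.val_lt u⟩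
  have h1 : ⌈(P : ℝ) * s⌉₊ ≤ P := Nat.ceil_le.2 (by
    have : (0 : ℝ) ≤ P := Nat.cast_nonneg _
    nlinarith)
  have h2 := Nat.le_ceil ((P : ℝ) * s)
  have h3 : ((univ.filter (fun u : ZMod P => ¬ (u.val : ℝ) < P * s)).card : ℝ) ≤
      ((P - ⌈(P : ℝ) * s⌉₊ : ℕ) : ℝ) := by
    exact_mod_cast this
  rw [Nat.cast_sub h1] at h3
  linarith

lemma pair_sum (P : ℕ) [Fact P.Prime] (F F' : ZMod P → ℝ) (k1 k2 k1' k2' m m' : ZMod P)
    (hm : m ≠ m') :
    ∑ a, ∑ b, F (a + k1 + m * (b + k2)) * F' (k1' - a + m' * (k2' - b)) =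
      (∑ u, F u) * ∑ u, F' u := by
  have hb : Function.Bijective (fun q : ZMod P × ZMod P =>
      (q.1 + k1 + m * (q.2 + k2), k1' - q.1 + m' * (k2' - q.2))) := by
    refine Finite.injective_iff_bijective.1 ?_
    rintro ⟨a, b⟩ ⟨a', b'⟩ h
    simp only [Prod.mk.injEq] at h ⊢
    have h1 : (m - m') * (b - b') = 0 := by linear_combination h.1 + h.2
    have h2 : b = b' := by
      rcases mul_eq_zero.1 h1 with h3 | h3
      · exact absurd (sub_eq_zero.1 h3) hm
      · exact sub_eq_zero.1 h3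
    subst h2
    exact ⟨by linear_combination h.1, rfl⟩
  rw [Finset.sum_mul_sum, ← Fintype.sum_prod_type', ← Fintype.sum_prod_type']
  exact hb.sum_comp (fun q => F q.1 * F' q.2)

lemma triple_sum (P : ℕ) [Fact P.Prime] (hP : 2 < P) (F F' : ZMod P → ℝ)
    (hF : ∀ u, 0 ≤ F u ∧ F u ≤ 1) (hF' : ∀ u, 0 ≤ F' u ∧ F' u ≤ 1)
    (k1 k2 k1' k2' m m' : ZMod P) :
    ∑ c, ∑ a, ∑ b, F (a + k1 + (c + m) * (b + k2)) * F' (k1' - a + (m' - c) * (k2' - b)) ≤
      (P : ℝ) ^ 2 + P * ((∑ u, F u) * ∑ u, F' u) := by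
  have h2 : (2 : ZMod P) ≠ 0 := by
    intro h
    have : ((2 : ℕ) : ZMod P) = 0 := by exact_mod_cast h
    rw [ZMod.natCast_eq_zero_iff] at this
    exact absurd (Nat.le_of_dvd (by norm_num) this) (by omega)
  have h0 : 0 ≤ (∑ u, F u) * ∑ u, F' u :=
    mul_nonneg (Finset.sum_nonneg fun u _ => (hF u).1) (Finset.sum_nonneg fun u _ => (hF' u).1)
  calc _ ≤ ∑ c : ZMod P, ((if c = (m' - m) / 2 then (P : ℝ) ^ 2 else 0) +
        (∑ u, F u) * ∑ u, F' u) := by
        refine Finset.sum_le_sum fun c _ => ?_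
        by_cases hc : c = (m' - m) / 2
        · rw [if_pos hc]
          have : ∑ a, ∑ b, F (a + k1 + (c + m) * (b + k2)) * F' (k1' - a + (m' - c) * (k2' - b)) ≤
              ∑ a : ZMod P, ∑ b : ZMod P, (1 : ℝ) :=
            Finset.sum_le_sum fun a _ => Finset.sum_le_sum fun b _ =>
              mul_le_one₀ (hF _).2 (hF' _).1 (hF' _).2
          simp only [sum_const, card_univ, ZMod.card, nsmul_eq_mul, mul_one] at this
          nlinarith
        · rw [if_neg hc, zero_add]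
          refine (pair_sum P F F' k1 k2 k1' k2' _ _ fun h => hc ?_).le
          rw [eq_div_iff h2]
          linear_combination h
    _ = _ := by
        rw [Finset.sum_add_distrib, Finset.sum_ite_eq']
        simp

/-! the cell map on the circle -/

noncomputable def kap (P : ℕ) : AddCircle (P : ℝ) → ZMod P :=
  Function.Periodic.lift (f := fun x : ℝ => ((⌊x⌋ : ℤ) : ZMod P)) (fun x => by
    simp only [Int.floor_add_natCast]; push_cast; simp)

lemma kap_add (P : ℕ) (n : ℕ) (t : AddCircle (P : ℝ)) :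
    kap P (((n : ℝ) : AddCircle (P : ℝ)) + t) = n + kap P t := by
  induction t using QuotientAddGroup.induction_on with
  | H x =>
    rw [← QuotientAddGroup.mk_add]
    simp only [kap, Function.Periodic.lift_coe, Int.floor_natCast_add]
    push_cast; rfl

lemma kap_sub (P : ℕ) (n : ℕ) (t : AddCircle (P : ℝ)) :
    kap P (t - ((n : ℝ) : AddCircle (P : ℝ))) = kap P t - n := by
  have := kap_add P n (t - ((n : ℝ) : AddCircle (P : ℝ)))
  rw [add_sub_cancel] at this
  rw [this]; ring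

lemma kap_meas (P : ℕ) (u : ZMod P) : MeasurableSet {t | kap P t = u} := by
  letI : MeasurableSpace (ZMod P) := ⊤
  have : Measurable (kap P) := by
    refine QuotientAddGroup.measurable_from_quotient.2 ?_
    exact (measurable_from_top (f := fun n : ℤ => (n : ZMod P))).comp Int.measurable_floor
  exact this (show MeasurableSet {u} from trivial)

end Pool.Agent.H14.Sy
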