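import Pool.Agent.H14.Sy1
set_option autoImplicit false
set_option maxHeartbeats 400000
set_option linter.unusedSectionVars false

namespace Pool.Agent.H14.Sy
open Finset Quaternion MeasureTheory

section avg
variable {G : Type} [Group G] [TopologicalSpace G] [IsTopologicalGroup G] [MeasurableSpace G]
  [BorelSpace G] (μ : Measure G) [μ.IsMulLeftInvariant]

lemma avg_le {κ : Type} [Fintype κ] [Nonempty κ] (γ : κ → G) (F H : G → ℝ)
    (hF : Integrable F μ) (hH : Integrable H μ)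
    (h : ∀ x, ∑ k, F (γ k * x) ≤ Fintype.card κ * H x) : ∫ x, F x ∂μ ≤ ∫ x, H x ∂μ := by
  have h1 : ∫ x, ∑ k, F (γ k * x) ∂μ = Fintype.card κ * ∫ x, F x ∂μ := by
    rw [integral_finsetSum _ (fun k _ => hF.comp_mul_left (γ k))]
    simp only [integral_mul_left_eq_self]
    simp
  have h2 : ∫ x, ∑ k, F (γ k * x) ∂μ ≤ ∫ x, Fintype.card κ * H x ∂μ :=
    integral_mono (integrable_finsetSum _ (fun k _ => hF.comp_mul_left (γ k)))
      (hH.const_mul _) h
  rw [h1, integral_const_mul] at h2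
  have h3 : (0 : ℝ) < Fintype.card κ := by exact_mod_cast Fintype.card_pos
  exact le_of_mul_le_mul_left h2 h3

lemma odd_zero (γ : G) (F : G → ℝ) (h : ∀ x, F (γ * x) = - F x) : ∫ x, F x ∂μ = 0 := by
  have := integral_mul_left_eq_self (μ := μ) F γ
  simp only [h, integral_neg] at this
  linarith

end avg

abbrev S := Metric.sphere (0 : ℍ[ℝ]) 1

instance : ConnectedSpace S := by
  refine Subtype.connectedSpace (isConnected_sphere ?_ _ zero_le_one)
  rw [Quaternion.rank_eq_four]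
  norm_num

lemma normSq_S (x : S) : normSq (x : ℍ[ℝ]) = 1 := by
  rw [normSq_eq_norm_mul_self, mem_sphere_zero_iff_norm.1 x.2, one_mul]

lemma inv_S (x : S) : (x : ℍ[ℝ])⁻¹ = star (x : ℍ[ℝ]) := by
  rw [Quaternion.inv_def, normSq_S]; simp

noncomputable def qs (s : Fin 4) : S := ⟨qe s, by
  rw [mem_sphere_zero_iff_norm]
  have := normSq_qe s
  rw [normSq_eq_norm_mul_self] at this
  nlinarith [norm_nonneg (qe s)]⟩

abbrev A (P : ℕ) := AddCircle (P : ℝ)
abbrev T3 (P : ℕ) := Multiplicative (A P × A P × A P)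
abbrev G (P : ℕ) := (I → S) × (I → S) × S × T3 P

instance (P : ℕ) : ConnectedSpace (T3 P) := inferInstanceAs (ConnectedSpace (A P × A P × A P))
instance (P : ℕ) [Fact (0 < (P : ℝ))] : T2Space (T3 P) :=
  inferInstanceAs (T2Space (A P × A P × A P))

variable {P : ℕ}

noncomputable def TT (i j : I) (ω : G P) : ℝ :=
  (qe (ee i j) * (ω.1 i : ℍ[ℝ]) * (ω.2.1 j : ℍ[ℝ]) * (ω.2.2.1 : ℍ[ℝ])).re

noncomputable def ff (ω : G P) : ℝ := ∑ i, ∑ j, TT i j ω

lemma TT_cont (i j : I) : Continuous (TT (P := P) i j) := by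
  unfold TT
  refine Quaternion.continuous_re.comp ?_
  fun_prop

lemma ff_cont : Continuous (ff (P := P)) :=
  continuous_finsetSum _ fun i _ => continuous_finsetSum _ fun j _ => TT_cont i j

lemma TT_abs (i j : I) (ω : G P) : |TT i j ω| ≤ 1 := by
  have h : normSq (qe (ee i j) * (ω.1 i : ℍ[ℝ]) * (ω.2.1 j : ℍ[ℝ]) * (ω.2.2.1 : ℍ[ℝ])) = 1 := by
    simp only [map_mul, normSq_qe, normSq_S, one_mul]
  rw [normSq_def'] at h
  unfold TT
  rw [← sq_le_one_iff_abs_le_one]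
  nlinarith [sq_nonneg (qe (ee i j) * (ω.1 i : ℍ[ℝ]) * (ω.2.1 j : ℍ[ℝ]) * (ω.2.2.1 : ℍ[ℝ])).imI,
    sq_nonneg (qe (ee i j) * (ω.1 i : ℍ[ℝ]) * (ω.2.1 j : ℍ[ℝ]) * (ω.2.2.1 : ℍ[ℝ])).imJ,
    sq_nonneg (qe (ee i j) * (ω.1 i : ℍ[ℝ]) * (ω.2.1 j : ℍ[ℝ]) * (ω.2.2.1 : ℍ[ℝ])).imK]

lemma ff_abs (ω : G P) : |ff ω| ≤ 256 := by
  unfold ff
  refine (Finset.abs_sum_le_sum_abs _ _).trans ?_
  refine (Finset.sum_le_sum fun i _ => (Finset.abs_sum_le_sum_abs _ _).trans
    (Finset.sum_le_sum fun j _ => TT_abs i j ω)).trans ?_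
  simp
  norm_num

noncomputable def sg (g ω : G P) : G P := g * ω⁻¹ * g

lemma sg_cont' {H : Type} [Group H] [TopologicalSpace H] [IsTopologicalGroup H] (g : H) :
    Continuous (fun ω : H => g * ω⁻¹ * g) := by fun_prop

lemma sg_cont (g : G P) : Continuous (sg g) := sg_cont' g

lemma TT_sg (i j : I) (g ω : G P) : TT i j (sg g ω) =
    (qe (ee i j) * ((g.1 i : ℍ[ℝ]) * star (ω.1 i : ℍ[ℝ]) * g.1 i) *
      ((g.2.1 j : ℍ[ℝ]) * star (ω.2.1 j : ℍ[ℝ]) * g.2.1 j) *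
      ((g.2.2.1 : ℍ[ℝ]) * star (ω.2.2.1 : ℍ[ℝ]) * g.2.2.1)).re := by
  simp only [← inv_S]
  rfl

section meas
variable [Fact (0 < (P : ℝ))] [MeasurableSpace (G P)] [BorelSpace (G P)] (μ : Measure (G P))
  [μ.IsMulLeftInvariant] [IsProbabilityMeasure μ]

lemma cint {F : G P → ℝ} (hF : Continuous F) : Integrable F μ :=
  hF.integrable_of_hasCompactSupport (HasCompactSupport.of_compactSpace F)

lemma int_ff : ∫ ω, ff ω ∂μ = 0 := by
  refine odd_zero μ ((1, 1, -1, 1) : G P) _ fun ω => ?_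
  simp [ff, TT]

lemma int_ff_sg (g : G P) : ∫ ω, ff (sg g ω) ∂μ = 0 := by
  refine odd_zero μ ((1, 1, -1, 1) : G P) _ fun ω => ?_
  simp only [ff, TT_sg]
  simp [-star_mul, -re_mul]

lemma int_off (g : G P) (i j i' j' : I) (h : ¬ (i' = i ∧ j' = j)) :
    ∫ ω, TT i j ω * TT i' j' (sg g ω) ∂μ = 0 := by
  by_cases hi : i' = i
  · have hj : j' ≠ j := fun hj => h ⟨hi, hj⟩
    refine odd_zero μ ((1, Pi.mulSingle j (-1), 1, 1) : G P) _ fun ω => ?_
    simp only [TT_sg]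
    simp [-star_mul, -re_mul, TT, Pi.mulSingle_eq_of_ne hj]
  · refine odd_zero μ ((Pi.mulSingle i (-1), 1, 1, 1) : G P) _ fun ω => ?_
    simp only [TT_sg]
    simp [-star_mul, -re_mul, TT, Pi.mulSingle_eq_of_ne hi]

lemma int_diag (g : G P) (i j : I) :
    ∫ ω, TT i j ω * TT i j (sg g ω) ∂μ ≤ (1 / 16) *
      ((qe (ee i j) * ((g.1 i : ℍ[ℝ]) * ((g.2.1 j : ℍ[ℝ]) * g.2.2.1))) *
        (qe (ee i j) * ((g.1 i : ℍ[ℝ]) * ((g.2.1 j : ℍ[ℝ]) * g.2.2.1)))).re := by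
  refine (avg_le μ (fun s : Fin 4 × Fin 4 × Fin 4 =>
    ((Pi.mulSingle i (qs s.1), Pi.mulSingle j (qs s.2.1), qs s.2.2, 1) : G P))
    (fun ω => TT i j ω * TT i j (sg g ω))
    (fun _ => (1 / 16) *
      ((qe (ee i j) * ((g.1 i : ℍ[ℝ]) * ((g.2.1 j : ℍ[ℝ]) * g.2.2.1))) *
        (qe (ee i j) * ((g.1 i : ℍ[ℝ]) * ((g.2.1 j : ℍ[ℝ]) * g.2.2.1)))).re)
    (cint μ ((TT_cont i j).mul ((TT_cont i j).comp (sg_cont g)))) (integrable_const _)
    fun ω => ?_).trans (by simp)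
  have := L3 (qe (ee i j)) (g.1 i) (g.2.1 j) g.2.2.1 (ω.1 i) (ω.2.1 j) ω.2.2.1
    (normSq_S _) (normSq_S _) (normSq_S _)
  rw [Fintype.sum_prod_type]
  simp only [Fintype.sum_prod_type (α₁ := Fin 4) (α₂ := Fin 4), TT_sg]
  simp only [TT, Prod.fst_mul, Prod.snd_mul, Pi.mul_apply, Pi.mulSingle_eq_same,
    Metric.unitSphere.coe_mul, qs]
  rw [this]
  simp only [Fintype.card_prod, Fintype.card_fin]
  push_cast
  linarith

lemma int_ff_ff (g : G P) : ∫ ω, ff ω * ff (sg g ω) ∂μ ≤ -2 := by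
  have hc : ∀ i j i' j', Integrable (fun ω => TT i j ω * TT i' j' (sg g ω)) μ :=
    fun i j i' j' => cint μ ((TT_cont i j).mul ((TT_cont i' j').comp (sg_cont g)))
  have e : ∀ ω, ff ω * ff (sg g ω) =
      ∑ p : I × I, ∑ p' : I × I, TT p.1 p.2 ω * TT p'.1 p'.2 (sg g ω) := by
    intro ω
    rw [← Finset.sum_mul_sum, Fintype.sum_prod_type (f := fun p : I × I => TT p.1 p.2 ω),
      Fintype.sum_prod_type (f := fun p : I × I => TT p.1 p.2 (sg g ω))]
    rfl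
  simp only [e]
  rw [integral_finsetSum _ fun p _ => integrable_finsetSum _ fun p' _ => hc _ _ _ _]
  have e2 : ∀ p : I × I, ∫ ω, ∑ p' : I × I, TT p.1 p.2 ω * TT p'.1 p'.2 (sg g ω) ∂μ =
      ∫ ω, TT p.1 p.2 ω * TT p.1 p.2 (sg g ω) ∂μ := by
    intro p
    rw [integral_finsetSum _ fun p' _ => hc _ _ _ _]
    refine Finset.sum_eq_single p (fun p' _ hp => int_off μ g _ _ _ _ fun h => hp ?_) (by simp)
    exact Prod.ext h.1 h.2
  simp only [e2]
  refine (Finset.sum_le_sum fun p _ => int_diag μ g p.1 p.2).trans ?_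
  rw [← Finset.mul_sum, Fintype.sum_prod_type]
  have := total (fun i => (g.1 i : ℍ[ℝ])) (fun j => (g.2.1 j : ℍ[ℝ]) * g.2.2.1)
    (fun i => normSq_S _) (fun j => by rw [map_mul, normSq_S, normSq_S, one_mul])
  linarith

lemma int_pp (g : G P) (η : ℝ) (hη : η ^ 2 = 1) :
    ∫ ω, ((1 + η * ff ω / 256) / 2) * ((1 + η * ff (sg g ω) / 256) / 2) ∂μ ≤
      1 / 4 - 1 / 131072 := by
  have e : ∀ ω, ((1 + η * ff ω / 256) / 2) * ((1 + η * ff (sg g ω) / 256) / 2) =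
      1 / 4 + (η / 1024 * ff ω + (η / 1024 * ff (sg g ω) +
        1 / 262144 * (ff ω * ff (sg g ω)))) := by
    intro ω
    linear_combination (1 / 262144 * (ff ω * ff (sg g ω))) * hη
  have i1 : Integrable (fun ω => η / 1024 * ff ω) μ := (cint μ ff_cont).const_mul _
  have i2 : Integrable (fun ω => η / 1024 * ff (sg g ω)) μ :=
    (cint μ (ff_cont.comp (sg_cont g))).const_mul _
  have i3 : Integrable (fun ω => 1 / 262144 * (ff ω * ff (sg g ω))) μ :=
    (cint μ (ff_cont.mul (ff_cont.comp (sg_cont g)))).const_mul _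
  have i4 : Integrable (fun ω => η / 1024 * ff (sg g ω) +
      1 / 262144 * (ff ω * ff (sg g ω))) μ := i2.add i3
  have i5 : Integrable (fun ω => η / 1024 * ff ω + (η / 1024 * ff (sg g ω) +
      1 / 262144 * (ff ω * ff (sg g ω)))) μ := i1.add i4
  simp only [e]
  rw [integral_add (integrable_const _) i5, integral_add i1 i4,
    integral_add i2 i3, integral_const_mul, integral_const_mul, integral_const_mul, int_ff,
    int_ff_sg]
  have := int_ff_ff μ g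
  simp only [integral_const, probReal_univ, smul_eq_mul]
  linarith

end meas

end Pool.Agent.H14.Sy
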