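import Pool.Agent.H14.Sy2
set_option autoImplicit false
set_option maxHeartbeats 400000
set_option linter.unusedSectionVars false

namespace Pool.Agent.H14.Sy
open Finset Quaternion MeasureTheory

variable {P : ℕ}

def t1 (ω : G P) : A P := (Multiplicative.toAdd ω.2.2.2).1
def t2 (ω : G P) : A P := (Multiplicative.toAdd ω.2.2.2).2.1
def t3 (ω : G P) : A P := (Multiplicative.toAdd ω.2.2.2).2.2

lemma t_cont : Continuous (fun ω : G P => Multiplicative.toAdd ω.2.2.2) :=
  continuous_toAdd.comp (continuous_snd.comp (continuous_snd.comp continuous_snd))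

noncomputable def ph (ω : G P) : ZMod P := kap P (t1 ω) + kap P (t3 ω) * kap P (t2 ω)

noncomputable def pp (ω : G P) : ℝ := (1 + ff ω / 256) / 2

open Classical in
noncomputable def col (ω : G P) : Fin 2 := if ((ph ω).val : ℝ) < P * pp ω then 0 else 1

noncomputable def gam (s : ZMod P × ZMod P × ZMod P) : G P :=
  (1, 1, 1, Multiplicative.ofAdd (((s.2.1.val : ℝ) : A P), ((s.2.2.val : ℝ) : A P),
    ((s.1.val : ℝ) : A P)))

lemma ff_gam (s : ZMod P × ZMod P × ZMod P) (ω : G P) : ff (gam s * ω) = ff ω := by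
  simp [ff, TT, gam, -re_mul]

lemma ff_sg_gam (s : ZMod P × ZMod P × ZMod P) (g ω : G P) :
    ff (sg g (gam s * ω)) = ff (sg g ω) := by
  simp only [ff, TT_sg]
  simp [gam, -re_mul]

lemma ph_gam [NeZero P] (s : ZMod P × ZMod P × ZMod P) (ω : G P) :
    ph (gam s * ω) = s.2.1 + kap P (t1 ω) + (s.1 + kap P (t3 ω)) * (s.2.2 + kap P (t2 ω)) := by
  have e1 : t1 (gam s * ω) = ((s.2.1.val : ℝ) : A P) + t1 ω := rfl
  have e2 : t2 (gam s * ω) = ((s.2.2.val : ℝ) : A P) + t2 ω := rfl
  have e3 : t3 (gam s * ω) = ((s.1.val : ℝ) : A P) + t3 ω := rfl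
  simp only [ph, e1, e2, e3, kap_add, ZMod.natCast_zmod_val]

lemma ph_sg_gam [NeZero P] (s : ZMod P × ZMod P × ZMod P) (g ω : G P) :
    ph (sg g (gam s * ω)) = kap P (t1 (sg g ω)) - s.2.1 +
      (kap P (t3 (sg g ω)) - s.1) * (kap P (t2 (sg g ω)) - s.2.2) := by
  have e1 : t1 (sg g (gam s * ω)) = t1 (sg g ω) - ((s.2.1.val : ℝ) : A P) := by
    change t1 g + -(((s.2.1.val : ℝ) : A P) + t1 ω) + t1 g = t1 g + -t1 ω + t1 g - _
    abel
  have e2 : t2 (sg g (gam s * ω)) = t2 (sg g ω) - ((s.2.2.val : ℝ) : A P) := by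
    change t2 g + -(((s.2.2.val : ℝ) : A P) + t2 ω) + t2 g = t2 g + -t2 ω + t2 g - _
    abel
  have e3 : t3 (sg g (gam s * ω)) = t3 (sg g ω) - ((s.1.val : ℝ) : A P) := by
    change t3 g + -(((s.1.val : ℝ) : A P) + t3 ω) + t3 g = t3 g + -t3 ω + t3 g - _
    abel
  simp only [ph, e1, e2, e3, kap_sub, ZMod.natCast_zmod_val]

lemma pp_mem (ω : G P) : 0 ≤ pp ω ∧ pp ω ≤ 1 := by
  have := abs_le.1 (ff_abs ω)
  unfold pp
  constructor <;> linarith [this.1, this.2]

open Classical in
noncomputable def Fc (c : Fin 2) (s : ℝ) (u : ZMod P) : ℝ :=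
  if (if ((u.val : ℝ) < P * s) then (0 : Fin 2) else 1) = c then 1 else 0

lemma Fc_mem (c : Fin 2) (s : ℝ) (u : ZMod P) : 0 ≤ Fc c s u ∧ Fc c s u ≤ 1 := by
  unfold Fc
  split_ifs <;> norm_num

def eta (c : Fin 2) : ℝ := if c = 0 then 1 else -1

lemma eta_sq (c : Fin 2) : eta c ^ 2 = 1 := by
  unfold eta; split_ifs <;> norm_num

lemma Fc_sum [NeZero P] (c : Fin 2) (ω : G P) :
    ∑ u : ZMod P, Fc c (pp ω) u ≤ P * ((1 + eta c * ff ω / 256) / 2) + 1 := by
  fin_cases c
  · refine le_trans (le_of_eq ?_) ((count_lt P (pp ω) (pp_mem ω).1).trans (le_of_eq ?_))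
    · refine Finset.sum_congr rfl fun u _ => ?_
      unfold Fc
      by_cases h : (u.val : ℝ) < P * pp ω <;> simp [h]
    · simp [pp, eta]
  · refine le_trans (le_of_eq ?_)
      ((count_ge P (pp ω) (pp_mem ω).1 (pp_mem ω).2).trans (le_of_eq ?_))
    · refine Finset.sum_congr rfl fun u _ => ?_
      unfold Fc
      by_cases h : (u.val : ℝ) < P * pp ω <;> simp [h]
    · simp [pp, eta]
      left; ring

noncomputable def Ic (c : Fin 2) (ω : G P) : ℝ := Fc c (pp ω) (ph ω)

lemma Ic_eq (c : Fin 2) (ω : G P) : Ic c ω = if col ω = c then 1 else 0 := rfl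

lemma q_mem (c : Fin 2) (ω : G P) : 0 ≤ (1 + eta c * ff ω / 256) / 2 ∧
    (1 + eta c * ff ω / 256) / 2 ≤ 1 := by
  have := abs_le.1 (ff_abs ω)
  unfold eta
  split_ifs <;> constructor <;> linarith [this.1, this.2]

lemma point [Fact P.Prime] (hP : 2 < P) (c : Fin 2) (g ω : G P) :
    ∑ s : ZMod P × ZMod P × ZMod P, Ic c (gam s * ω) * Ic c (sg g (gam s * ω)) ≤
      Fintype.card (ZMod P × ZMod P × ZMod P) *
        (((1 + eta c * ff ω / 256) / 2) * ((1 + eta c * ff (sg g ω) / 256) / 2) + 4 / P) := by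
  have e1 : ∀ s, pp (gam s * ω) = pp ω := fun s => by simp only [pp, ff_gam]
  have e2 : ∀ s, pp (sg g (gam s * ω)) = pp (sg g ω) := fun s => by simp only [pp, ff_sg_gam]
  simp only [Ic, e1, e2, ph_gam, ph_sg_gam]
  rw [Fintype.sum_prod_type]
  simp only [Fintype.sum_prod_type (α₁ := ZMod P) (α₂ := ZMod P)]
  refine (triple_sum P hP (Fc c (pp ω)) (Fc c (pp (sg g ω))) (Fc_mem _ _) (Fc_mem _ _)
    _ _ _ _ _ _).trans ?_
  have h1 := Fc_sum c ω
  have h2 := Fc_sum c (sg g ω)
  have h3 := q_mem c ω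
  have h4 := q_mem c (sg g ω)
  generalize (1 + eta c * ff ω / 256) / 2 = a at *
  generalize (1 + eta c * ff (sg g ω) / 256) / 2 = b at *
  have hP' : (2 : ℝ) < P := by exact_mod_cast hP
  have h5 : (∑ u : ZMod P, Fc c (pp ω) u) * ∑ u : ZMod P, Fc c (pp (sg g ω)) u ≤
      (P * a + 1) * (P * b + 1) :=
    mul_le_mul h1 h2 (Finset.sum_nonneg fun u _ => (Fc_mem _ _ _).1) (by nlinarith [h3.1])
  simp only [Fintype.card_prod, ZMod.card]
  push_cast
  have e : (P : ℝ) * (P * P) * (a * b + 4 / P) = P * (P * P * (a * b) + 4 * P) := by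
    field_simp
  rw [e, sq, ← mul_add]
  refine mul_le_mul_of_nonneg_left ?_ (by linarith)
  nlinarith [h3.1, h3.2, h4.1, h4.2]

section meas
variable [Fact (0 < (P : ℝ))] [MeasurableSpace (G P)] [BorelSpace (G P)]

lemma col_meas [NeZero P] : Measurable (col (P := P)) := by
  letI : MeasurableSpace (ZMod P) := ⊤
  haveI : MeasurableSingletonClass (ZMod P) := ⟨fun _ => trivial⟩
  have hk : Measurable (kap P) := measurable_to_countable' fun u => kap_meas P u
  have h1 : Measurable (t1 (P := P)) := (continuous_fst.comp t_cont).measurable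
  have h2 : Measurable (t2 (P := P)) :=
    (continuous_fst.comp (continuous_snd.comp t_cont)).measurable
  have h3 : Measurable (t3 (P := P)) :=
    (continuous_snd.comp (continuous_snd.comp t_cont)).measurable
  have h4 : Measurable (fun ω : G P => ((ph ω).val : ℝ)) :=
    (measurable_of_countable (fun q : ZMod P × ZMod P × ZMod P =>
      ((q.1 + q.2.1 * q.2.2).val : ℝ))).comp
      ((hk.comp h1).prodMk ((hk.comp h3).prodMk (hk.comp h2)))
  have h5 : Measurable (fun ω : G P => (P : ℝ) * pp ω) := by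
    have := ff_cont (P := P)
    refine Continuous.measurable ?_
    unfold pp
    exact continuous_const.mul ((continuous_const.add (this.div_const _)).div_const _)
  exact Measurable.ite (measurableSet_lt h4 h5) measurable_const measurable_const

lemma bound [Fact P.Prime] (hP : 2 < P) (μ : Measure (G P)) [μ.IsMulLeftInvariant]
    [IsProbabilityMeasure μ] (c : Fin 2) (g : G P) (B : Set (G P)) (hB : MeasurableSet B)
    (h1 : B ⊆ col ⁻¹' {c}) (h2 : (fun x => g * x⁻¹ * g) '' B = B) :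
    μ.real B ≤ 1 / 4 - 1 / 131072 + 4 / P := by
  have hI : Measurable (Ic (P := P) c) := by
    have : Ic (P := P) c = (fun k : Fin 2 => if k = c then (1 : ℝ) else 0) ∘ col := rfl
    rw [this]
    exact (measurable_of_countable _).comp col_meas
  have hint : Integrable (fun ω => Ic c ω * Ic c (sg g ω)) μ := by
    refine Integrable.of_bound (hI.mul (hI.comp (sg_cont g).measurable)).aestronglyMeasurable 1
      (Filter.Eventually.of_forall fun ω => ?_)
    rw [Ic_eq, Ic_eq]
    split_ifs <;> norm_num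
  have hq : Integrable (fun ω => ((1 + eta c * ff ω / 256) / 2) *
      ((1 + eta c * ff (sg g ω) / 256) / 2)) μ := by
    have a : Continuous (fun ω : G P => (1 + eta c * ff ω / 256) / 2) :=
      (continuous_const.add ((continuous_const.mul ff_cont).div_const _)).div_const _
    exact cint μ (a.mul (a.comp (sg_cont g)))
  have s1 : μ.real B ≤ ∫ ω, Ic c ω * Ic c (sg g ω) ∂μ := by
    rw [← integral_indicator_one hB]
    refine integral_mono ((integrable_const (1 : ℝ)).indicator hB) hint fun ω => ?_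
    by_cases hω : ω ∈ B
    · have a1 : col ω = c := h1 hω
      have a2 : col (sg g ω) = c := h1 (h2 ▸ Set.mem_image_of_mem _ hω)
      simp [Set.indicator_of_mem hω, Ic_eq, a1, a2]
    · simp only [Set.indicator_of_notMem hω]
      exact mul_nonneg (Fc_mem _ _ _).1 (Fc_mem _ _ _).1
  have s2 := avg_le μ gam (fun ω => Ic c ω * Ic c (sg g ω)) (fun ω =>
    ((1 + eta c * ff ω / 256) / 2) * ((1 + eta c * ff (sg g ω) / 256) / 2) + 4 / P) hint
    (hq.add (integrable_const _)) (point hP c g)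
  rw [integral_add hq (integrable_const _)] at s2
  have s3 := int_pp μ g (eta c) (eta_sq c)
  simp only [integral_const, probReal_univ, smul_eq_mul] at s2
  linarith

end meas

end Pool.Agent.H14.Sy
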