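import Mathlib
set_option autoImplicit false
set_option maxHeartbeats 400000

namespace Pool.Agent.H14.Tb
open Polynomial Finset Filter

def Str (P : ℝ[X]) (k : ℕ) (w : Fin k → ℝ) : Prop :=
  StrictMono w ∧ (∀ i, 0 < w i) ∧ ∃ R : ℝ[X], (∀ t, 0 ≤ t → 0 < R.eval t) ∧
    P = R * ∏ i, (C (w i) - X)

lemma prod_sign {ι : Type} (w : ι → ℝ) (t : ℝ) (s : Finset ι) (h : ∀ l ∈ s, w l ≠ t) :
    0 < (-1) ^ (s.filter (fun l => w l < t)).card * ∏ l ∈ s, (w l - t) := by
  classical
  induction s using Finset.induction_on with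
  | empty => simp
  | insert a s ha ih =>
    have ih := ih fun l hl => h l (mem_insert_of_mem hl)
    rw [prod_insert ha, filter_insert]
    by_cases h1 : w a < t
    · rw [if_pos h1, card_insert_of_notMem (fun h => ha (mem_filter.1 h).1), pow_succ]
      nlinarith
    · rw [if_neg h1]
      have : 0 < w a - t := sub_pos.2 (lt_of_le_of_ne (not_lt.1 h1) (h a (mem_insert_self _ _)).symm)
      nlinarith

lemma Str.sign {P : ℝ[X]} {k : ℕ} {w : Fin k → ℝ} (h : Str P k w) (t : ℝ) (ht : 0 ≤ t) (j : ℕ)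
    (hj : j ≤ k) (h1 : ∀ i : Fin k, (i : ℕ) < j → w i < t) (h2 : ∀ i : Fin k, j ≤ i → t < w i) :
    0 < (-1) ^ j * P.eval t := by
  obtain ⟨-, -, R, hR, rfl⟩ := h
  have a := prod_sign w t univ fun l _ => by
    rcases lt_or_ge (l : ℕ) j with h | h
    · exact (h1 l h).ne
    · exact (h2 l h).ne'
  have e : univ.filter (fun l => w l < t) = univ.filter (fun l : Fin k => (l : ℕ) < j) := by
    ext l
    simp only [mem_filter, mem_univ, true_and]
    exact ⟨fun h => by
      by_contra h'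
      exact absurd (h2 l (not_lt.1 h')) (not_lt.2 h.le), h1 l⟩
  rw [e, Fin.card_filter_val_lt, min_eq_right hj] at a
  simp only [eval_mul, eval_prod, eval_sub, eval_C, eval_X]
  have := hR t ht
  nlinarith [mul_pos a this]

lemma Str.root {P : ℝ[X]} {k : ℕ} {w : Fin k → ℝ} (h : Str P k w) (i : Fin k) :
    P.eval (w i) = 0 := by
  obtain ⟨-, -, R, -, rfl⟩ := h
  simp only [eval_mul, eval_prod, eval_sub, eval_C, eval_X]
  rw [prod_eq_zero (mem_univ i) (sub_self _), mul_zero]

lemma Str.eq_root {P : ℝ[X]} {k : ℕ} {w : Fin k → ℝ} (h : Str P k w) (t : ℝ) (ht : 0 ≤ t)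
    (h0 : P.eval t = 0) : ∃ i, w i = t := by
  obtain ⟨-, -, R, hR, rfl⟩ := h
  simp only [eval_mul, eval_prod, eval_sub, eval_C, eval_X] at h0
  obtain ⟨i, -, hi⟩ := prod_eq_zero_iff.1 ((mul_eq_zero.1 h0).resolve_left (hR t ht).ne')
  exact ⟨i, sub_eq_zero.1 hi⟩

lemma Str.deriv {P : ℝ[X]} {k : ℕ} {w : Fin k → ℝ} (h : Str P k w) (i : Fin k) :
    0 < (-1) ^ ((i : ℕ) + 1) * (derivative P).eval (w i) := by
  obtain ⟨hw, hp, R, hR, rfl⟩ := h
  have a := prod_sign w (w i) (univ.erase i) fun l hl h => (mem_erase.1 hl).1 (hw.injective h)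
  have e : (univ.erase i).filter (fun l => w l < w i) =
      univ.filter (fun l : Fin k => (l : ℕ) < i) := by
    ext l
    simp only [mem_filter, mem_erase, mem_univ, true_and, and_true, hw.lt_iff_lt]
    exact ⟨fun h => h.2, fun h => ⟨ne_of_lt h, h⟩⟩
  rw [e, Fin.card_filter_val_lt, min_eq_right i.2.le] at a
  rw [← mul_prod_erase univ _ (mem_univ i), mul_left_comm, derivative_mul]
  simp only [eval_add, eval_mul, eval_prod, eval_sub, eval_C, eval_X, derivative_sub,
    derivative_C, derivative_X, sub_self, zero_mul, add_zero, eval_zero, eval_one, pow_succ]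
  nlinarith [mul_pos a (hR _ (hp i).le)]

lemma ivt (Q : ℝ[X]) (a b : ℝ) (hab : a < b) (h : Q.eval a * Q.eval b < 0) :
    ∃ v, a < v ∧ v < b ∧ Q.eval v = 0 := by
  rcases mul_neg_iff.1 h with ⟨h1, h2⟩ | ⟨h1, h2⟩
  · obtain ⟨v, hv, h3⟩ := intermediate_value_Ioo' hab.le Q.continuous.continuousOn
      (show (0 : ℝ) ∈ Set.Ioo _ _ from ⟨h2, h1⟩)
    exact ⟨v, hv.1, hv.2, h3⟩
  · obtain ⟨v, hv, h3⟩ := intermediate_value_Ioo hab.le Q.continuous.continuousOn
      (show (0 : ℝ) ∈ Set.Ioo _ _ from ⟨h1, h2⟩)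
    exact ⟨v, hv.1, hv.2, h3⟩

lemma step {P Q : ℝ[X]} {k : ℕ} {w : Fin k → ℝ} (h : Str P k w) (h0 : 0 < Q.eval 0)
    (h1 : ∀ i : Fin k, 0 < (-1) ^ ((i : ℕ) + 1) * Q.eval (w i))
    (h2 : ∀ᶠ t in atTop, 0 < (-1) ^ (k + 1) * Q.eval t)
    (h3 : (Q.roots.filter (fun t => 0 < t)).card ≤ k + 1) :
    ∃ v : Fin (k + 1) → ℝ, Str Q (k + 1) v ∧ ∀ i : Fin (k + 1), 0 < (-1) ^ (i : ℕ) * P.eval (v i) := by
  classical
  obtain ⟨T, hT, hT0, hT1⟩ := (h2.and ((eventually_gt_atTop 0).and
    (eventually_all.2 fun i : Fin k => eventually_gt_atTop (w i)))).exists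
  let p : ℕ → ℝ := fun j => if j = 0 then 0 else if h : j - 1 < k then w ⟨j - 1, h⟩ else T
  have p0 : p 0 = 0 := by simp [p]
  have p1 : ∀ i : Fin k, p (i + 1) = w i := fun i => by simp [p]
  have p2 : p (k + 1) = T := by simp [p]
  have cs : ∀ j, j ≤ k + 1 → j = 0 ∨ (∃ i : Fin k, j = i + 1) ∨ j = k + 1 := by
    intro j hj
    by_cases a : j = 0
    · exact Or.inl a
    · by_cases b : j = k + 1
      · exact Or.inr (Or.inr b)
      · exact Or.inr (Or.inl ⟨⟨j - 1, by omega⟩, by simp only; omega⟩)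
  have pm : ∀ j l, j < l → l ≤ k + 1 → p j < p l := by
    intro j l hjl hl
    rcases cs l hl with rfl | ⟨i', rfl⟩ | rfl
    · omega
    · rcases cs j (by omega) with rfl | ⟨i, rfl⟩ | rfl
      · rw [p0, p1]; exact h.2.1 _
      · rw [p1, p1]; exact h.1 (show (i : ℕ) < i' by omega)
      · have := i'.2; omega
    · rcases cs j (by omega) with rfl | ⟨i, rfl⟩ | rfl
      · rw [p0, p2]; exact hT0
      · rw [p1, p2]; exact hT1 i
      · omega
  have pm' : ∀ j l, j ≤ l → l ≤ k + 1 → p j ≤ p l := fun j l hjl hl => by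
    rcases hjl.eq_or_lt with rfl | h
    · exact le_rfl
    · exact (pm j l h hl).le
  have ps : ∀ j, j ≤ k + 1 → 0 < (-1) ^ j * Q.eval (p j) := by
    intro j hj
    rcases cs j hj with rfl | ⟨i, rfl⟩ | rfl
    · simpa [p0] using h0
    · rw [p1]; exact h1 i
    · rw [p2]; exact hT
  have hv : ∀ j : Fin (k + 1), ∃ v, p j < v ∧ v < p (j + 1) ∧ Q.eval v = 0 := by
    intro j
    refine ivt Q _ _ (pm _ _ (by omega) (by omega)) ?_
    have a := mul_pos (ps j (by omega)) (ps (j + 1) (by omega))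
    have b : ((-1 : ℝ) ^ (j : ℕ)) ^ 2 = 1 := by rw [← pow_mul, mul_comm, pow_mul]; simp
    rw [pow_succ] at a
    nlinarith
  choose v hv1 hv2 hv3 using hv
  have vm : StrictMono v := fun i j hij =>
    (hv2 i).trans_le ((pm' _ _ (show (i : ℕ) + 1 ≤ j from hij) (by omega)).trans (hv1 j).le)
  have vp : ∀ i, 0 < v i := fun i => lt_of_le_of_lt (p0 ▸ pm' 0 i (by omega) (by omega)) (hv1 i)
  have hQ : Q ≠ 0 := fun h => by simp [h] at h0
  have hle : univ.val.map v ≤ Q.roots := by
    refine (Multiset.le_iff_subset (Multiset.Nodup.map vm.injective univ.nodup)).2 fun t ht => ?_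
    obtain ⟨i, -, rfl⟩ := Multiset.mem_map.1 ht
    exact (mem_roots hQ).2 (hv3 i)
  obtain ⟨R0, hR0⟩ := (Multiset.prod_X_sub_C_dvd_iff_le_roots hQ _).2 hle
  have hR0ne : R0 ≠ 0 := fun h => hQ (by rw [hR0, h, mul_zero])
  have hroots : Q.roots = univ.val.map v + R0.roots := by
    conv_lhs => rw [hR0]
    rw [roots_mul (hR0 ▸ hQ), roots_multiset_prod_X_sub_C]
  have hno : ∀ t, 0 < t → R0.eval t ≠ 0 := by
    intro t ht h
    rw [hroots, Multiset.filter_add, Multiset.card_add, Multiset.filter_eq_self.2 (fun a ha => by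
      obtain ⟨i, -, rfl⟩ := Multiset.mem_map.1 ha
      exact vp i), Multiset.card_map] at h3
    have : 0 < (R0.roots.filter (fun t => 0 < t)).card :=
      Multiset.card_pos_iff_exists_mem.2 ⟨t, Multiset.mem_filter.2 ⟨(mem_roots hR0ne).2 h, ht⟩⟩
    simp only [card_val, card_univ, Fintype.card_fin] at h3
    omega
  have hQ' : Q = (C ((-1) ^ (k + 1)) * R0) * ∏ i, (C (v i) - X) := by
    rw [hR0, Multiset.map_map]
    have : ∏ i, (C (v i) - X) = C ((-1) ^ (k + 1)) * ∏ i, (X - C (v i)) := by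
      rw [Finset.prod_congr rfl (fun i _ => (neg_sub X (C (v i))).symm), Finset.prod_neg]
      simp
    rw [this]
    have e : (C ((-1 : ℝ) ^ (k + 1)) : ℝ[X]) * C ((-1) ^ (k + 1)) = 1 := by
      rw [← C_mul, ← mul_pow]; simp
    change (∏ i, (X - C (v i))) * R0 = _
    linear_combination (-(∏ i, (X - C (v i))) * R0) * e
  refine ⟨v, ⟨vm, vp, _, fun t ht => ?_, hQ'⟩, fun i => ?_⟩
  · set R := C ((-1 : ℝ) ^ (k + 1)) * R0 with hR
    have r0 : 0 < R.eval 0 := by
      rw [hQ'] at h0
      simp only [eval_mul (p := R), eval_prod, eval_sub, eval_C, eval_X, sub_zero] at h0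
      exact (pos_iff_pos_of_mul_pos h0).2 (prod_pos fun i _ => vp i)
    have rn : ∀ t, 0 < t → R.eval t ≠ 0 := fun t ht => by
      rw [hR, eval_mul, eval_C]
      exact mul_ne_zero (pow_ne_zero _ (by norm_num)) (hno t ht)
    rcases ht.eq_or_lt with rfl | ht
    · exact r0
    · by_contra hc
      obtain ⟨s, hs, -, hs'⟩ := ivt R 0 t ht
        (mul_neg_of_pos_of_neg r0 (lt_of_le_of_ne (not_lt.1 hc) (rn t ht)))
      exact rn s hs hs'
  · refine h.sign _ (vp i).le i (by omega) (fun l hl => ?_) (fun l hl => ?_)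
    · rw [← p1]; exact (pm' _ _ (by omega) (by omega)).trans_lt (hv1 i)
    · rw [← p1]; exact (hv2 i).trans_le (pm' _ _ (by omega) (by have := l.2; omega))

lemma sign_inf (Q : ℝ[X]) (d : ℕ) (hd : Q.natDegree ≤ d) (ε : ℝ) (h : 0 < ε * Q.coeff d) :
    ∀ᶠ t in atTop, 0 < ε * Q.eval t := by
  have h1 : (C ε * Q).natDegree = d :=
    natDegree_eq_of_le_of_coeff_ne_zero ((natDegree_C_mul_le _ _).trans hd) (by
      rw [coeff_C_mul]; exact h.ne')
  have h2 : 0 < (C ε * Q).leadingCoeff := by rw [leadingCoeff, h1, coeff_C_mul]; exact h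
  rcases Nat.eq_zero_or_pos d with rfl | hd0
  · refine Eventually.of_forall fun t => ?_
    rw [eq_C_of_natDegree_le_zero hd, eval_C]
    exact h
  · have := (C ε * Q).tendsto_atTop_of_leadingCoeff_nonneg
      (natDegree_pos_iff_degree_pos.1 (by omega)) h2.le
    filter_upwards [this.eventually_gt_atTop 0] with t ht
    simpa using ht

/-! argument principle along the imaginary axis -/

noncomputable def th (s : Multiset ℂ) (ω : ℝ) : ℝ :=
  (s.map (fun ρ => Real.arctan ((ρ.im - ω) / ρ.re))).sum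

lemma polar (s : Multiset ℂ) (hs : ∀ ρ ∈ s, ρ.re ≠ 0) (ω : ℝ) :
    ∃ r : ℝ, (s.map (fun ρ => (ω : ℂ) * Complex.I - ρ)).prod =
      r * Complex.exp (th s ω * Complex.I) := by
  induction s using Multiset.induction_on with
  | empty => exact ⟨1, by simp [th]⟩
  | cons a s ih =>
    obtain ⟨r, hr⟩ := ih fun ρ h => hs ρ (Multiset.mem_cons_of_mem h)
    have ha := hs a (Multiset.mem_cons_self _ _)
    set τ := (a.im - ω) / a.re with hτ
    have hc := (Real.cos_arctan_pos τ).ne'
    have e : (ω : ℂ) * Complex.I - a =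
        ((-a.re / Real.cos (Real.arctan τ) : ℝ) : ℂ) *
          Complex.exp ((Real.arctan τ : ℝ) * Complex.I) := by
      have hsin : Real.sin (Real.arctan τ) = τ * Real.cos (Real.arctan τ) := by
        have := Real.tan_arctan τ
        rw [Real.tan_eq_sin_div_cos, div_eq_iff hc] at this
        exact this
      apply Complex.ext
      · rw [Complex.re_ofReal_mul, Complex.exp_ofReal_mul_I_re]
        simp only [Complex.sub_re, Complex.mul_re, Complex.ofReal_re, Complex.I_re, mul_zero,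
          Complex.ofReal_im, Complex.I_im, zero_mul, sub_self, zero_sub]
        field_simp
      · rw [Complex.im_ofReal_mul, Complex.exp_ofReal_mul_I_im, hsin]
        simp only [Complex.sub_im, Complex.mul_im, Complex.ofReal_re, Complex.I_re, mul_zero,
          Complex.ofReal_im, Complex.I_im, mul_one, add_zero]
        rw [hτ]
        field_simp
        ring
    refine ⟨-a.re / Real.cos (Real.arctan τ) * r, ?_⟩
    simp only [Multiset.map_cons, Multiset.prod_cons, th, Multiset.sum_cons] at hr ⊢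
    rw [hr, e, ← hτ, Complex.ofReal_add, add_mul, Complex.exp_add, Complex.ofReal_mul]
    ring

lemma th_cont (s : Multiset ℂ) : Continuous (th s) :=
  continuous_multiset_sum _ fun ρ _ => Real.continuous_arctan.comp (by fun_prop)

lemma th_lim (s : Multiset ℂ) (hs : ∀ ρ ∈ s, ρ.re ≠ 0) :
    Tendsto (th s) atTop (nhds (Real.pi / 2 *
      (s.card - 2 * (s.filter (fun ρ => 0 < ρ.re)).card))) ∧
    Tendsto (th s) atBot (nhds (-(Real.pi / 2 *
      (s.card - 2 * (s.filter (fun ρ => 0 < ρ.re)).card)))) := by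
  induction s using Multiset.induction_on with
  | empty =>
    have : th 0 = fun _ => 0 := by funext ω; simp [th]
    simp [this]
  | cons a s ih =>
    obtain ⟨i1, i2⟩ := ih fun ρ h => hs ρ (Multiset.mem_cons_of_mem h)
    have ha := hs a (Multiset.mem_cons_self _ _)
    have e : th (a ::ₘ s) = fun ω => Real.arctan ((a.im - ω) / a.re) + th s ω := by
      funext ω; simp [th]
    have l1 : Tendsto (fun ω : ℝ => a.im - ω) atTop atBot :=
      tendsto_atBot_add_const_left _ _ tendsto_neg_atTop_atBot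
    have l2 : Tendsto (fun ω : ℝ => a.im - ω) atBot atTop :=
      tendsto_atTop_add_const_left _ _ tendsto_neg_atBot_atTop
    have t1 := tendsto_nhds_of_tendsto_nhdsWithin Real.tendsto_arctan_atTop
    have t2 := tendsto_nhds_of_tendsto_nhdsWithin Real.tendsto_arctan_atBot
    rw [e, Multiset.card_cons]
    by_cases h : 0 < a.re
    · rw [Multiset.filter_cons_of_pos (p := fun ρ : ℂ => 0 < ρ.re) _ h, Multiset.card_cons]
      refine ⟨?_, ?_⟩
      · have := (t2.comp (l1.atBot_div_const h)).add i1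
        refine (congrArg (fun c => Tendsto _ atTop (nhds c)) ?_).mp this
        push_cast; ring
      · have := (t1.comp (l2.atTop_div_const h)).add i2
        refine (congrArg (fun c => Tendsto _ atBot (nhds c)) ?_).mp this
        push_cast; ring
    · have h' : a.re < 0 := lt_of_le_of_ne (not_lt.1 h) ha
      rw [Multiset.filter_cons_of_neg (p := fun ρ : ℂ => 0 < ρ.re) _ h]
      refine ⟨?_, ?_⟩
      · have := (t1.comp ((tendsto_div_const_atTop_of_neg h').2 l1)).add i1
        refine (congrArg (fun c => Tendsto _ atTop (nhds c)) ?_).mp this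
        push_cast; ring
      · have := (t2.comp (l2.atTop_div_const_of_neg h')).add i2
        refine (congrArg (fun c => Tendsto _ atBot (nhds c)) ?_).mp this
        push_cast; ring

lemma count (S : ℝ[X]) (h0 : S.eval 0 ≠ 0)
    (h1 : ∀ ω : ℝ, ω ≠ 0 → (aeval ((ω : ℂ) * Complex.I) S).im ≠ 0) :
    2 * (S.roots.filter (fun t => 0 < t)).card ≤ S.natDegree + 2 := by
  have hS : S ≠ 0 := fun h => h0 (by simp [h])
  set s := (S.map (algebraMap ℝ ℂ)).roots with hs
  have hS' : S.map (algebraMap ℝ ℂ) ≠ 0 := Polynomial.map_ne_zero hS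
  have hsp := IsAlgClosed.splits (S.map (algebraMap ℝ ℂ))
  have hcard : s.card = S.natDegree := by rw [hs, ← hsp.natDegree_eq_card_roots, natDegree_map]
  have hre : ∀ ρ ∈ s, ρ.re ≠ 0 := by
    intro ρ hρ h
    have e : ρ = (ρ.im : ℂ) * Complex.I := by apply Complex.ext <;> simp [h]
    have hr : aeval ρ S = 0 := by
      rw [← eval_map_algebraMap]; exact (mem_roots hS').1 hρ
    by_cases hi : ρ.im = 0
    · rw [e, hi] at hr
      simp only [Complex.ofReal_zero, zero_mul] at hr
      rw [← coeff_zero_eq_aeval_zero'] at hr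
      rw [← coeff_zero_eq_eval_zero] at h0
      exact h0 (by simpa using hr)
    · exact h1 _ hi (by rw [← e, hr]; rfl)
  have hle : (S.roots.filter (fun t => 0 < t)).card ≤ (s.filter (fun ρ => 0 < ρ.re)).card := by
    have a := Multiset.filter_le_filter (fun ρ : ℂ => 0 < ρ.re) (map_roots_le hS')
    rw [Multiset.filter_map] at a
    have b := Multiset.card_le_card a
    rw [Multiset.card_map] at b
    exact b
  by_contra hc
  have hD : (s.card : ℝ) - 2 * (s.filter (fun ρ => 0 < ρ.re)).card ≤ -3 := by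
    have : s.card + 3 ≤ 2 * (s.filter (fun ρ => 0 < ρ.re)).card := by omega
    have : (s.card : ℝ) + 3 ≤ 2 * (s.filter (fun ρ => 0 < ρ.re)).card := by exact_mod_cast this
    linarith
  obtain ⟨l1, l2⟩ := th_lim s hre
  have hpi := Real.pi_pos
  obtain ⟨a, ha⟩ := (l1.eventually_lt_const (u := -Real.pi) (by nlinarith)).exists
  obtain ⟨b, hb⟩ := (l2.eventually_const_lt (u := Real.pi) (by nlinarith)).exists
  have key : ∀ ω, Real.sin (th s ω) = 0 → ω = 0 := by
    intro ω h
    by_contra hω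
    refine h1 ω hω ?_
    obtain ⟨r, hr⟩ := polar s hre ω
    rw [← eval_map_algebraMap, hsp.eval_eq_prod_roots, ← hs, hr, leadingCoeff_map]
    change (((S.leadingCoeff : ℝ) : ℂ) * _).im = 0
    rw [Complex.im_ofReal_mul, Complex.im_ofReal_mul, Complex.exp_ofReal_mul_I_im, h]
    simp
  obtain ⟨u, hu⟩ := intermediate_value_univ a b (th_cont s)
    (show Real.pi ∈ Set.Icc _ _ from ⟨by linarith, hb.le⟩)
  obtain ⟨v, hv⟩ := intermediate_value_univ a b (th_cont s)
    (show (0 : ℝ) ∈ Set.Icc _ _ from ⟨by linarith, by linarith⟩)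
  have e1 := key u (by rw [hu, Real.sin_pi])
  have e2 := key v (by rw [hv, Real.sin_zero])
  rw [e1] at hu
  rw [e2] at hv
  linarith

end Pool.Agent.H14.Tb
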