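import Pool.Agent.H14.Tb1
set_option autoImplicit false
set_option maxHeartbeats 400000

namespace Pool.Agent.H14.Tb
open Polynomial Finset Filter

inductive Cone (M : ℝ[X] → Prop) : ℝ[X] → Prop
  | mono (a : ℝ) (p : ℝ[X]) : 0 < a → M p → Cone M (C a * p)
  | add (p q : ℝ[X]) : Cone M p → Cone M q → Cone M (p + q)

lemma Cone.smul {M : ℝ[X] → Prop} {p : ℝ[X]} (h : Cone M p) (a : ℝ) (ha : 0 < a) :
    Cone M (C a * p) := by
  induction h with
  | mono b q hb hq =>
    rw [← mul_assoc, ← C_mul]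
    exact Cone.mono _ _ (mul_pos ha hb) hq
  | add p q _ _ ih1 ih2 =>
    rw [mul_add]
    exact Cone.add _ _ ih1 ih2

lemma Cone.map {M M' : ℝ[X] → Prop} (L : ℝ[X] → ℝ[X]) (h1 : ∀ p q, L (p + q) = L p + L q)
    (h2 : ∀ a p, L (C a * p) = C a * L p) (h3 : ∀ p, M p → Cone M' (L p)) {p : ℝ[X]}
    (h : Cone M p) : Cone M' (L p) := by
  induction h with
  | mono b q hb hq => rw [h2]; exact (h3 q hq).smul b hb
  | add p q _ _ ih1 ih2 => rw [h1]; exact Cone.add _ _ ih1 ih2

lemma Cone.pos {M : ℝ[X] → Prop} (t : ℝ) (h1 : ∀ p, M p → 0 < p.eval t) {p : ℝ[X]}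
    (h : Cone M p) : 0 < p.eval t := by
  induction h with
  | mono b q hb hq => rw [eval_mul, eval_C]; exact mul_pos hb (h1 q hq)
  | add p q _ _ ih1 ih2 => rw [eval_add]; exact add_pos ih1 ih2

lemma mul_der_pow (p : ℝ[X]) (k : ℕ) :
    p * derivative (p ^ k) = (k : ℝ[X]) * p ^ k * derivative p := by
  cases k with
  | zero => simp
  | succ k =>
    rw [derivative_pow, Nat.add_sub_cancel, map_natCast, pow_succ]
    ring

noncomputable def Mop (y : ℝ) (m : ℕ) (E : ℝ[X]) : ℝ[X] :=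
  (1 - X) * ((1 + C y * X) * ((1 + C y) * X * derivative E + ((m : ℝ[X]) + 1) * C y * E)
    - (1 + C y) * ((m : ℝ[X]) + 2) * C y * X * E)
    + (1 + C y) * (2 * (m : ℝ[X]) + 1) * X * (1 + C y * X) * E

noncomputable def EE (y : ℝ) : ℕ → ℝ[X]
  | 0 => X
  | m + 1 => Mop y m (EE y m)

lemma Mop_add (y : ℝ) (m : ℕ) (p q : ℝ[X]) : Mop y m (p + q) = Mop y m p + Mop y m q := by
  simp only [Mop, derivative_add]; ring

lemma Mop_C (y : ℝ) (m : ℕ) (a : ℝ) (p : ℝ[X]) : Mop y m (C a * p) = C a * Mop y m p := by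
  simp only [Mop, derivative_C_mul]; ring

def M1 (y : ℝ) (m : ℕ) (p : ℝ[X]) : Prop :=
  ∃ a b d : ℕ, 1 ≤ a ∧ b ≤ m + 1 ∧ d ≤ 2 * m ∧ p = X ^ a * (1 + C y * X) ^ b * (1 - X) ^ d

def M2 (y : ℝ) (m : ℕ) (p : ℝ[X]) : Prop :=
  ∃ b d : ℕ, b ≤ m + 1 ∧ b + d ≤ 2 * m ∧ p = X * (1 + C y * X) ^ b * (X - 1) ^ d

lemma M1_step (y : ℝ) (hy : 0 < y) (m : ℕ) (p : ℝ[X]) (h : M1 y m p) :
    Cone (M1 y (m + 1)) (Mop y m p) := by
  obtain ⟨a, b, d, ha, hb, hd, rfl⟩ := h
  have e1 := mul_der_pow X a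
  have e2 := mul_der_pow (1 + C y * X) b
  have e3 := mul_der_pow (1 - X) d
  have e : Mop y m (X ^ a * (1 + C y * X) ^ b * (1 - X) ^ d) =
      C ((a : ℝ) + y * (a + b - 1)) * (X ^ a * (1 + C y * X) ^ (b + 1) * (1 - X) ^ (d + 1))
      + C (((m : ℝ) + 2 - b) * y) * (X ^ a * (1 + C y * X) ^ b * (1 - X) ^ (d + 2))
      + C ((1 + y) * (2 * m + 1 - d)) * (X ^ (a + 1) * (1 + C y * X) ^ (b + 1) * (1 - X) ^ d) := by
    simp only [derivative_add, derivative_sub, derivative_one, derivative_C_mul, derivative_X]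
      at e1 e2 e3
    simp only [Mop, derivative_mul, map_add, map_mul, map_sub, map_natCast, map_one, map_ofNat,
      pow_succ]
    generalize derivative ((X : ℝ[X]) ^ a) = A' at *
    generalize derivative ((1 + C y * X : ℝ[X]) ^ b) = B' at *
    generalize derivative ((1 - X : ℝ[X]) ^ d) = D' at *
    generalize (X : ℝ[X]) ^ a = A at *
    generalize (1 + C y * X : ℝ[X]) ^ b = B at *
    generalize (1 - X : ℝ[X]) ^ d = D at *
    linear_combination (1 + C y) * (1 - X) * (1 + C y * X) * B * D * e1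
      + (1 + C y) * (1 - X) * X * A * D * e2 + (1 + C y) * (1 + C y * X) * X * A * B * e3
  have ha' : (1 : ℝ) ≤ a := by exact_mod_cast ha
  have hb' : (b : ℝ) ≤ m + 1 := by exact_mod_cast hb
  have hd' : (d : ℝ) ≤ 2 * m := by exact_mod_cast hd
  have hb0 : (0 : ℝ) ≤ b := Nat.cast_nonneg b
  rw [e]
  refine Cone.add _ _ (Cone.add _ _ (Cone.mono _ _ ?_ ⟨a, b + 1, d + 1, ha, by omega, by omega, rfl⟩)
    (Cone.mono _ _ ?_ ⟨a, b, d + 2, ha, by omega, by omega, rfl⟩))
    (Cone.mono _ _ ?_ ⟨a + 1, b + 1, d, by omega, by omega, by omega, rfl⟩)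
  · nlinarith [mul_nonneg hy.le (show (0 : ℝ) ≤ a + b - 1 by linarith)]
  · exact mul_pos (by linarith) hy
  · exact mul_pos (by linarith) (by linarith)

lemma M2_step (y : ℝ) (hy : 0 < y) (m : ℕ) (p : ℝ[X]) (h : M2 y m p) :
    Cone (M2 y (m + 1)) (Mop y m p) := by
  obtain ⟨b, d, hb, hd, rfl⟩ := h
  have e2 := mul_der_pow (1 + C y * X) b
  have e3 := mul_der_pow (X - 1) d
  have e : Mop y m (X * (1 + C y * X) ^ b * (X - 1) ^ d) =
      C ((1 + y) * (2 * m - d - b) + b + y) * (X * (1 + C y * X) ^ (b + 1) * (X - 1) ^ (d + 1))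
      + C (((m : ℝ) + 2 - b) * y) * (X * (1 + C y * X) ^ b * (X - 1) ^ (d + 2))
      + C ((1 + y) * (2 * m + 1 - d)) * (X * (1 + C y * X) ^ (b + 1) * (X - 1) ^ d) := by
    simp only [derivative_add, derivative_sub, derivative_one, derivative_C_mul, derivative_X]
      at e2 e3
    simp only [Mop, derivative_mul, map_add, map_mul, map_sub, map_natCast, map_one, map_ofNat,
      pow_succ, derivative_X]
    generalize derivative ((1 + C y * X : ℝ[X]) ^ b) = B' at *
    generalize derivative ((X - 1 : ℝ[X]) ^ d) = D' at *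
    generalize (1 + C y * X : ℝ[X]) ^ b = B at *
    generalize (X - 1 : ℝ[X]) ^ d = D at *
    linear_combination (1 + C y) * (1 - X) * X * X * D * e2
      - (1 + C y) * (1 + C y * X) * X * X * B * e3
  have hb' : (b : ℝ) ≤ m + 1 := by exact_mod_cast hb
  have hd' : (b : ℝ) + d ≤ 2 * m := by exact_mod_cast hd
  have hb0 : (0 : ℝ) ≤ b := Nat.cast_nonneg b
  rw [e]
  refine Cone.add _ _ (Cone.add _ _ (Cone.mono _ _ ?_ ⟨b + 1, d + 1, by omega, by omega, rfl⟩)
    (Cone.mono _ _ ?_ ⟨b, d + 2, by omega, by omega, rfl⟩))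
    (Cone.mono _ _ ?_ ⟨b + 1, d, by omega, by omega, rfl⟩)
  · nlinarith [mul_nonneg (show 0 ≤ 1 + y by linarith) (show (0 : ℝ) ≤ 2 * m - d - b by linarith)]
  · exact mul_pos (by linarith) hy
  · exact mul_pos (by linarith) (by linarith)

lemma EE_pos (y : ℝ) (hy : 0 < y) (m : ℕ) (t : ℝ) (ht : 0 < t) : 0 < (EE y m).eval t := by
  have h1 : 0 < 1 + y * t := by positivity
  rcases lt_trichotomy t 1 with h | rfl | h
  · have : Cone (M1 y m) (EE y m) := by
      induction m with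
      | zero => simpa [EE] using Cone.mono (M := M1 y 0) 1 X one_pos ⟨1, 0, 0, by simp⟩
      | succ m ih => exact Cone.map _ (Mop_add y m) (Mop_C y m) (M1_step y hy m) ih
    refine this.pos t ?_
    rintro _ ⟨a, b, d, -, -, -, rfl⟩
    have : 0 < 1 - t := by linarith
    simp only [eval_mul, eval_pow, eval_add, eval_sub, eval_one, eval_X, eval_C]
    positivity
  · induction m with
    | zero => simp [EE]
    | succ m ih =>
      simp only [EE, Mop, eval_mul, eval_add, eval_sub, eval_one, eval_X, eval_C, sub_self,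
        zero_mul, zero_add, eval_natCast, eval_ofNat]
      positivity
  · have : Cone (M2 y m) (EE y m) := by
      induction m with
      | zero => simpa [EE] using Cone.mono (M := M2 y 0) 1 X one_pos ⟨0, 0, by simp⟩
      | succ m ih => exact Cone.map _ (Mop_add y m) (Mop_C y m) (M2_step y hy m) ih
    refine this.pos t ?_
    rintro _ ⟨b, d, -, -, rfl⟩
    have : 0 < t - 1 := by linarith
    simp only [eval_mul, eval_pow, eval_add, eval_sub, eval_one, eval_X, eval_C]
    positivity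

noncomputable def PP (y : ℝ) : ℕ → ℝ[X]
  | 0 => 1
  | m + 1 => (1 + C y * X) * (1 + C y * X ^ 2) *
      ((1 + C y) * X * derivative (PP y m) + (1 + C y * (2 * (m : ℝ[X]) + 3)) * PP y m)
      - (1 + C y) * ((m : ℝ[X]) + 2) * C y * X * (1 + C y * X ^ 2) * PP y m
      - (1 + C y) * (4 * (m : ℝ[X]) + 2) * C y * X ^ 2 * (1 + C y * X) * PP y m

noncomputable def Lop (y : ℝ) (m : ℕ) (S : ℝ[X]) : ℝ[X] :=
  (1 + C y * X ^ 2) * ((1 - C y ^ 2 * X ^ 2) *
      ((1 + C y) * (X * derivative S) + (2 * (m : ℝ[X]) + 2) * C y * S)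
      + 2 * (1 + C y) * ((m : ℝ[X]) + 2) * C y ^ 2 * X ^ 2 * S)
    - (1 + C y) * (4 * (m : ℝ[X]) + 2) * C y * X ^ 2 * (1 - C y ^ 2 * X ^ 2) * S

noncomputable def SS (y : ℝ) (m : ℕ) : ℝ[X] := X * (PP y m * (1 - C y * X) ^ (m + 2))

lemma SS_succ (y : ℝ) (m : ℕ) : SS y (m + 1) = Lop y m (SS y m) := by
  have e := mul_der_pow (1 - C y * X) (m + 2)
  simp only [derivative_sub, derivative_one, derivative_C_mul, derivative_X] at e
  simp only [SS, Lop, PP, derivative_mul, derivative_X]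
  rw [show m + 1 + 2 = m + 2 + 1 from rfl, pow_succ _ (m + 2)]
  push_cast at e
  generalize derivative ((1 - C y * X : ℝ[X]) ^ (m + 2)) = B' at *
  generalize (1 - C y * X : ℝ[X]) ^ (m + 2) = B at *
  linear_combination (-(1 + C y * X ^ 2) * (1 + C y * X) * (1 + C y) * X * X * PP y m) * e

lemma Lop_neg (y : ℝ) (m : ℕ) (S : ℝ[X]) :
    (Lop y m S).comp (-X) = Lop y m (S.comp (-X)) := by
  simp only [Lop, derivative_comp, add_comp, sub_comp, mul_comp, pow_comp, one_comp, C_comp,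
    X_comp, natCast_comp, ofNat_comp, derivative_neg, derivative_X]
  push_cast
  ring

lemma Lop_sq (y : ℝ) (m : ℕ) (E : ℝ[X]) :
    Lop y m (E.comp (-(C y * X ^ 2))) = 2 * (Mop y m E).comp (-(C y * X ^ 2)) := by
  simp only [Lop, Mop, derivative_comp, add_comp, sub_comp, mul_comp, pow_comp, one_comp, C_comp,
    X_comp, natCast_comp, ofNat_comp, derivative_neg, derivative_C_mul, derivative_X_pow,
    map_natCast]
  push_cast
  ring

lemma SS_even (y : ℝ) (m : ℕ) :
    SS y m + (SS y m).comp (-X) = C (2 ^ (m + 2)) * (EE y m).comp (-(C y * X ^ 2)) := by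
  induction m with
  | zero =>
    simp only [SS, PP, EE, add_comp, sub_comp, mul_comp, pow_comp, one_comp, C_comp,
      X_comp, map_pow, map_ofNat]
    ring
  | succ m ih =>
    have a : ∀ p q, Lop y m (p + q) = Lop y m p + Lop y m q := fun p q => by
      simp only [Lop, derivative_add]; ring
    have b : ∀ a p, Lop y m (C a * p) = C a * Lop y m p := fun a p => by
      simp only [Lop, derivative_C_mul]; ring
    rw [SS_succ, Lop_neg, ← a, ih, b, Lop_sq, EE, show m + 1 + 2 = m + 2 + 1 from rfl,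
      pow_succ _ (m + 2), C_mul, map_ofNat]
    ring

lemma im_ne (y : ℝ) (hy : 0 < y) (m : ℕ) (ω : ℝ) (hω : ω ≠ 0) :
    (aeval ((ω : ℂ) * Complex.I) (PP y m * (1 - C y * X) ^ (m + 2))).im ≠ 0 := by
  intro h
  have e := congrArg (aeval ((ω : ℂ) * Complex.I)) (SS_even y m)
  rw [map_add, map_mul, aeval_comp, aeval_comp] at e
  have e1 : aeval ((ω : ℂ) * Complex.I) (-X : ℝ[X]) = starRingEnd ℂ ((ω : ℂ) * Complex.I) := by
    simp
  have e2 : aeval ((ω : ℂ) * Complex.I) (-(C y * X ^ 2) : ℝ[X]) = algebraMap ℝ ℂ (y * ω ^ 2) := by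
    simp [mul_pow]
  rw [e1, e2, aeval_conj, Complex.add_conj, aeval_algebraMap_apply, aeval_C, ← map_mul] at e
  have e3 : 2 * (aeval ((ω : ℂ) * Complex.I) (SS y m)).re =
      2 ^ (m + 2) * aeval (y * ω ^ 2) (EE y m) := Complex.ofReal_injective e
  have e4 := EE_pos y hy m (y * ω ^ 2) (by positivity)
  rw [SS, map_mul, aeval_X, Complex.mul_re, h, coe_aeval_eq_eval] at e3
  simp only [Complex.mul_re, Complex.ofReal_re, Complex.I_re, mul_zero, Complex.ofReal_im,
    zero_mul, sub_self] at e3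
  have : (0 : ℝ) < 2 ^ (m + 2) * (EE y m).eval (y * ω ^ 2) := by positivity
  linarith

lemma PP_zero (y : ℝ) (hy : 0 < y) (m : ℕ) : 0 < (PP y m).eval 0 := by
  induction m with
  | zero => simp [PP]
  | succ m ih =>
    simp only [PP, eval_mul, eval_add, eval_sub, eval_one, eval_X, eval_C, eval_pow,
      eval_natCast, eval_ofNat, mul_zero, zero_mul, add_zero, zero_add, sub_zero, ne_eq,
      OfNat.ofNat_ne_zero, not_false_eq_true, zero_pow]
    positivity

lemma coeff_XD (P : ℝ[X]) (d : ℕ) : (X * derivative P).coeff d = d * P.coeff d := by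
  cases d with
  | zero => simp
  | succ d => rw [coeff_X_mul, coeff_derivative]; push_cast; ring

lemma PP_deg (y : ℝ) (hy : 0 < y) (m : ℕ) :
    (PP y m).natDegree ≤ 3 * m ∧ 0 < (-1) ^ m * (PP y m).coeff (3 * m) := by
  induction m with
  | zero => simp [PP]
  | succ m ih =>
    obtain ⟨i1, i2⟩ := ih
    have z : ∀ (a b : ℝ) (j : ℕ), 3 * m < j →
        (C a * (X * derivative (PP y m)) + C b * PP y m).coeff j = 0 := fun a b j hj => by
      rw [coeff_add, coeff_C_mul, coeff_C_mul, coeff_XD, coeff_eq_zero_of_natDegree_lt (by omega)]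
      simp
    have e : PP y (m + 1) =
        X ^ 3 * (C (y ^ 2 * (1 + y)) * (X * derivative (PP y m)) +
          C (y ^ 2 * (1 + y * (2 * m + 3) - (1 + y) * (5 * m + 4))) * PP y m)
        + X ^ 2 * (C (y * (1 + y)) * (X * derivative (PP y m)) +
          C (y * (1 + y * (2 * m + 3) - (1 + y) * (4 * m + 2))) * PP y m)
        + X ^ 1 * (C (y * (1 + y)) * (X * derivative (PP y m)) +
          C (y * (1 + y * (2 * m + 3) - (1 + y) * (m + 2))) * PP y m)
        + (C (1 + y) * (X * derivative (PP y m)) + C (1 + y * (2 * m + 3)) * PP y m) := by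
      simp only [PP, map_add, map_mul, map_sub, map_natCast, map_one, map_ofNat, map_pow]
      ring
    have c : ∀ j, 3 * m + 3 ≤ j → (PP y (m + 1)).coeff j =
        (C (y ^ 2 * (1 + y)) * (X * derivative (PP y m)) +
          C (y ^ 2 * (1 + y * (2 * m + 3) - (1 + y) * (5 * m + 4))) * PP y m).coeff (j - 3) := by
      intro j hj
      rw [e, coeff_add, coeff_add, coeff_add, coeff_X_pow_mul', coeff_X_pow_mul', coeff_X_pow_mul',
        if_pos (by omega), if_pos (by omega), if_pos (by omega), z _ _ (j - 2) (by omega),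
        z _ _ (j - 1) (by omega), z _ _ j (by omega)]
      ring
    refine ⟨natDegree_le_iff_coeff_eq_zero.2 fun j hj => ?_, ?_⟩
    · rw [c j (by omega), z _ _ _ (by omega)]
    · rw [c _ (by omega), show 3 * (m + 1) - 3 = 3 * m by omega, coeff_add, coeff_C_mul,
        coeff_C_mul, coeff_XD, pow_succ]
      push_cast
      have : (0 : ℝ) < y ^ 2 * (2 * m + 3 + y) := by positivity
      nlinarith [mul_pos i2 this]

lemma PP_count (y : ℝ) (hy : 0 < y) (m : ℕ) :
    ((PP y m).roots.filter (fun t => 0 < t)).card ≤ m := by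
  have h0 := PP_zero y hy m
  have hP : PP y m ≠ 0 := fun h => by simp [h] at h0
  have e : (1 - C y * X : ℝ[X]) = C (-y) * (X - C y⁻¹) := by
    have : (C y : ℝ[X]) * C y⁻¹ = 1 := by rw [← C_mul, mul_inv_cancel₀ hy.ne', C_1]
    rw [map_neg]
    linear_combination -this
  have hq : (1 - C y * X : ℝ[X]) ^ (m + 2) ≠ 0 := fun h => by
    have := congrArg (eval 0) h
    simp at this
  have a := count (PP y m * (1 - C y * X) ^ (m + 2)) (by simp [h0.ne']) (im_ne y hy m)
  have d : (PP y m * (1 - C y * X) ^ (m + 2)).natDegree ≤ 3 * m + (m + 2) * 1 := by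
    refine natDegree_mul_le.trans (add_le_add (PP_deg y hy m).1 (natDegree_pow_le.trans ?_))
    refine Nat.mul_le_mul_left _ ?_
    compute_degree
  rw [roots_mul (mul_ne_zero hP hq), Multiset.filter_add, Multiset.card_add, roots_pow, e,
    roots_C_mul _ (by linarith), roots_X_sub_C,
    (Multiset.filter_eq_self (s := (m + 2) • {y⁻¹})).2 (fun t ht => by
      rw [Multiset.mem_singleton.1 (Multiset.mem_of_mem_nsmul ht)]
      exact inv_pos.2 hy), Multiset.card_nsmul, Multiset.card_singleton, ← e] at a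
  omega

lemma PP_at_root (y : ℝ) (hy : 0 < y) (m : ℕ) (w : ℝ) (hw : 0 < w) (h : (PP y m).eval w = 0)
    (ε : ℝ) (h2 : 0 < ε * (derivative (PP y m)).eval w) : 0 < ε * (PP y (m + 1)).eval w := by
  simp only [PP, eval_mul, eval_add, eval_sub, eval_one, eval_X, eval_C, eval_pow, h, mul_zero,
    add_zero, sub_zero]
  have : 0 < (1 + y * w) * (1 + y * w ^ 2) * ((1 + y) * w) := by positivity
  nlinarith [mul_pos this h2]

lemma PP_step (y : ℝ) (hy : 0 < y) (m : ℕ) (w : Fin m → ℝ) (h : Str (PP y m) m w) :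
    ∃ v : Fin (m + 1) → ℝ, Str (PP y (m + 1)) (m + 1) v ∧
      ∀ i : Fin (m + 1), 0 < (-1) ^ (i : ℕ) * (PP y m).eval (v i) :=
  step h (PP_zero y hy _) (fun i => PP_at_root y hy m _ (h.2.1 i) (h.root i) _ (h.deriv i))
    (sign_inf _ _ (PP_deg y hy _).1 _ (PP_deg y hy _).2) (PP_count y hy _)

lemma PP_str (y : ℝ) (hy : 0 < y) (m : ℕ) : ∃ w : Fin m → ℝ, Str (PP y m) m w := by
  induction m with
  | zero =>
    exact ⟨Fin.elim0, fun i => i.elim0, fun i => i.elim0, 1, by simp, by simp [PP]⟩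
  | succ m ih =>
    obtain ⟨w, hw⟩ := ih
    obtain ⟨v, hv, -⟩ := PP_step y hy m w hw
    exact ⟨v, hv⟩

lemma PP_sturm (y : ℝ) (hy : 0 < y) (m : ℕ) (h : (PP y (m + 1)).eval 1 = 0) :
    (PP y m).eval 1 * (PP y (m + 2)).eval 1 < 0 := by
  obtain ⟨w, hw⟩ := PP_str y hy m
  obtain ⟨v, hv, hv'⟩ := PP_step y hy m w hw
  obtain ⟨i, hi⟩ := hv.eq_root 1 zero_le_one h
  have a := hv' i
  have b := PP_at_root y hy (m + 1) _ (hv.2.1 i) (hv.root i) _ (hv.deriv i)
  rw [hi] at a b
  have c := mul_pos a b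
  have d : ((-1 : ℝ) ^ (i : ℕ)) ^ 2 = 1 := by rw [← pow_mul, mul_comm, pow_mul]; simp
  rw [pow_succ] at c
  nlinarith

end Pool.Agent.H14.Tb
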