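import Pool.Agent.H14.Tb2
set_option autoImplicit false
set_option maxHeartbeats 400000

namespace Pool.Agent.H14.Tb
open Finset

section
open Polynomial
variable {R : Type} [CommRing R] [Algebra ℝ R] (D : Derivation ℝ R R)

lemma dpow (p : R) (k : ℕ) : D (p ^ (k + 1)) = ((k : R) + 1) * p ^ k * D p := by
  rw [D.leibniz_pow, Nat.add_sub_cancel, nsmul_eq_mul, smul_eq_mul]
  push_cast
  ring

lemma dmul (p q : R) : D (p * q) = D p * q + p * D q := by
  rw [D.leibniz, smul_eq_mul, smul_eq_mul]; ring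

lemma ringstep (F F' U u A α B β K W0 W Q Q' Y Δ Du DW m : R)
    (hu : Du * Δ = 2 * u) (hW : DW * Δ = (1 + Y) * W) (hZ : (1 + Y) * Δ * W ^ 2 = u * β)
    (ih : F * (U * u) * (A * α) * (B * β) = K * (W0 * W) * Q)
    (dih : ((F' * (U * u) + F * ((m + 1) * U * Du)) * (A * α) +
      F * (U * u) * ((m + 2) * A * (Y * DW))) * (B * β) +
      F * (U * u) * (A * α) * ((2 * m + 1) * B * (Y * (2 * W * DW))) =
      K * ((2 * m + 3) * W0 * DW) * Q + K * (W0 * W) * (Q' * DW)) :
    F' * (U * u * u) * (A * α * α) * (B * β * β * β) = K * (1 + Y) * (W0 * W * W * W) *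
      (α * β * ((1 + Y) * W * Q' + (1 + Y * (2 * m + 3)) * Q)
        - (1 + Y) * (m + 2) * Y * W * β * Q - (1 + Y) * (4 * m + 2) * Y * W ^ 2 * α * Q) := by
  linear_combination (α * β * (1 + Y) * W ^ 2 * Δ) * dih
    - (F' * U * u * A * α ^ 2 * B * β ^ 2) * hZ
    - (α * β * (1 + Y) * W ^ 2 * F * (m + 1) * U * A * α * B * β) * hu
    - (α * β * (1 + Y) * W ^ 2 * (F * U * u * (m + 2) * A * Y * B * β +
        F * U * u * A * α * (2 * m + 1) * B * 2 * Y * W - K * W0 * ((2 * m + 3) * Q + W * Q'))) * hW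
    - (2 * (m + 1) * α * β * (1 + Y) * W ^ 2 + (m + 2) * β * (1 + Y) ^ 2 * Y * W ^ 3 +
        2 * (2 * m + 1) * α * (1 + Y) ^ 2 * Y * W ^ 4) * ih

lemma main_id (y : ℝ) (Y u W Δ : R) (hY : Y = algebraMap ℝ R y) (F : ℕ → R)
    (hF : ∀ m, F (m + 1) = D (F m))
    (hu : D u * Δ = 2 * u) (hW : D W * Δ = (1 + Y) * W)
    (hZ : (1 + Y) * Δ * W ^ 2 = u * (1 + Y * W ^ 2))
    (h0 : F 0 * u * (1 + Y * W) ^ 2 * (1 + Y * W ^ 2) = (1 + Y) ^ 3 * W ^ 3) (m : ℕ) :
    F m * u ^ (m + 1) * (1 + Y * W) ^ (m + 2) * (1 + Y * W ^ 2) ^ (2 * m + 1) =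
      (1 + Y) ^ (m + 3) * W ^ (2 * m + 3) * aeval W (PP y m) := by
  have dY : D Y = 0 := by rw [hY]; exact D.map_algebraMap y
  induction m with
  | zero => simpa [PP] using h0
  | succ m ih =>
    have dih := congrArg D ih
    have dK : D ((1 + Y) ^ (m + 3)) = 0 := by
      rw [dpow, map_add, dY, D.map_one_eq_zero, add_zero, mul_zero]
    have dα : D (1 + Y * W) = Y * D W := by
      rw [map_add, D.map_one_eq_zero, dmul, dY]; ring
    have dβ : D (1 + Y * W ^ 2) = Y * (2 * W * D W) := by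
      rw [map_add, D.map_one_eq_zero, dmul, dY, dpow]; push_cast; ring
    rw [dmul, dmul, dmul, dmul, dmul, dK, dpow, dpow, dpow, dpow, dα, dβ, D.map_aeval, ← hF,
      smul_eq_mul] at dih
    have := ringstep (F m) (F (m + 1)) (u ^ m) u ((1 + Y * W) ^ (m + 1)) (1 + Y * W)
      ((1 + Y * W ^ 2) ^ (2 * m)) (1 + Y * W ^ 2) ((1 + Y) ^ (m + 3)) (W ^ (2 * m + 2)) W
      (aeval W (PP y m)) (aeval W (derivative (PP y m))) Y Δ (D u) (D W) m hu hW hZ
      (by simpa only [← pow_succ] using ih) (by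
        simp only [← pow_succ]
        push_cast at dih
        rw [zero_mul, zero_add, show (m : R) + 1 + 1 = m + 2 by ring,
          show 2 * (m : R) + 2 + 1 = 2 * m + 3 by ring] at dih
        exact dih)
    simp only [← pow_succ] at this
    simp only [PP, map_add, map_sub, map_mul, map_pow, map_one, aeval_C, aeval_X, map_natCast,
      map_ofNat, ← hY]
    exact this

end

open PowerSeries

noncomputable def egf (a : ℕ → ℝ) : ℝ⟦X⟧ := PowerSeries.mk fun n => a n / n.factorial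

lemma egf_der (a : ℕ → ℝ) : d⁄dX ℝ (egf a) = egf fun n => a (n + 1) := by
  ext n
  simp only [egf, coeff_derivative, coeff_mk, Nat.factorial_succ]
  push_cast
  field_simp

lemma egf_mul (a b : ℕ → ℝ) : egf a * egf b =
    egf fun n => ∑ i ∈ range (n + 1), (n.choose i : ℝ) * (a i * b (n - i)) := by
  ext n
  simp only [egf, coeff_mul, coeff_mk]
  rw [Finset.Nat.sum_antidiagonal_eq_sum_range_succ_mk, Finset.sum_div]
  refine sum_congr rfl fun i hi => ?_
  rw [Nat.cast_choose ℝ (Nat.lt_succ_iff.1 (mem_range.1 hi))]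
  field_simp

lemma egf_add (a b : ℕ → ℝ) : egf a + egf b = egf fun n => a n + b n := by
  ext n; simp only [egf, map_add, coeff_mk]; ring

lemma egf_C (r : ℝ) (a : ℕ → ℝ) : C r * egf a = egf fun n => r * a n := by
  ext n; simp only [egf, coeff_C_mul, coeff_mk]; ring

lemma egf_zero (a : ℕ → ℝ) : constantCoeff (egf a) = a 0 := by
  rw [← coeff_zero_eq_constantCoeff_apply]; simp [egf]

lemma ode_zero (Z Δ : ℝ⟦X⟧) (h : d⁄dX ℝ Z * Δ = 2 * Z) (h0 : constantCoeff Z = 0)
    (h1 : constantCoeff Δ = 1) : Z = 0 := by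
  have : ∀ n, ∀ i ≤ n, coeff i Z = 0 := by
    intro n
    induction n with
    | zero => intro i hi; rw [Nat.le_zero.1 hi, coeff_zero_eq_constantCoeff_apply, h0]
    | succ n ih =>
      intro i hi
      rcases hi.eq_or_lt with rfl | hi
      · have e := congrArg (coeff n) h
        rw [two_mul, map_add, ih n le_rfl, coeff_mul,
          Finset.Nat.sum_antidiagonal_eq_sum_range_succ_mk, sum_range_succ,
          sum_eq_zero (fun j hj => by
            rw [coeff_derivative, ih _ (mem_range.1 hj), zero_mul, zero_mul]),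
          coeff_derivative, Nat.sub_self, coeff_zero_eq_constantCoeff_apply, h1] at e
        have : (n : ℝ) + 1 ≠ 0 := by positivity
        simpa [this] using e
      · exact ih i (by omega)
  ext n
  rw [this n n le_rfl, map_zero]

lemma link (y : ℝ) (hy : 0 < y) (a b : ℕ → ℝ) (a0 : a 0 = 1) (a1 : a 1 = 1)
    (ha : ∀ n, 2 ≤ n → a n = a (n - 1) +
      -y * ∑ k ∈ Ico 1 (n - 1), ((n - 1).choose (k - 1) : ℝ) * a (n - k) * a k)
    (b0 : b 0 = 1)
    (hb : ∀ n, b (n + 1) = b n + -y * ∑ i ∈ range n, (n.choose i : ℝ) * b (n - i) * b i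
      + -y * ∑ m ∈ Ico 1 n, (n.choose (m - 1) : ℝ) * 2 ^ (n + 1 - m) * a (n + 1 - m) * b m)
    (m : ℕ) : b (m + 1) * (1 + y) ^ (2 * m) = (PP y m).eval 1 := by
  let h : ℕ → ℝ := fun n => if 2 ≤ n then 2 ^ n * a n else 0
  let g : ℕ → ℝ := fun n => if 1 ≤ n then b n else 0
  have conv : ∀ (f : ℕ → ℝ) (n : ℕ), ∑ i ∈ range (n + 1), (n.choose i : ℝ) * (f (i + 1) * h (n - i)) =
      ∑ m ∈ Ico 1 n, (n.choose (m - 1) : ℝ) * 2 ^ (n + 1 - m) * a (n + 1 - m) * f m := by
    intro f n
    rw [sum_Ico_eq_sum_range, ← sum_subset (range_subset_range.2 (show n - 1 ≤ n + 1 by omega))]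
    · refine sum_congr rfl fun i hi => ?_
      have := mem_range.1 hi
      simp only [h]
      rw [if_pos (by omega), show 1 + i - 1 = i by omega, show n + 1 - (1 + i) = n - i by omega,
        add_comm 1 i]
      ring
    · intro i _ hi
      rw [mem_range] at hi
      simp only [h]
      rw [if_neg (by omega)]
      simp
  set u := egf fun n => 2 ^ n * a n with hu
  set H := egf h with hH
  set G := egf b with hG
  set Y : ℝ⟦X⟧ := C y with hY
  have e1 : d⁄dX ℝ u + Y * (d⁄dX ℝ u * H) = C 2 * u := by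
    rw [hu, egf_der, hH, egf_mul, egf_C, egf_add, egf_C]
    congr 1
    funext n
    rw [conv (fun n => 2 ^ n * a n) n]
    rcases Nat.eq_zero_or_pos n with rfl | hn
    · simp [a0, a1]
    · rw [ha (n + 1) (by omega), Nat.add_sub_cancel]
      have : ∑ m ∈ Ico 1 n, (n.choose (m - 1) : ℝ) * 2 ^ (n + 1 - m) * a (n + 1 - m) * (2 ^ m * a m)
          = 2 ^ (n + 1) * ∑ k ∈ Ico 1 n, (n.choose (k - 1) : ℝ) * a (n + 1 - k) * a k := by
        rw [mul_sum]
        refine sum_congr rfl fun i hi => ?_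
        have := mem_Ico.1 hi
        rw [show (2 : ℝ) ^ (n + 1) = 2 ^ (n + 1 - i) * 2 ^ i by
          rw [← pow_add]; congr 1; omega]
        ring
      rw [this]
      ring
  have eH : d⁄dX ℝ H = d⁄dX ℝ u - 2 := by
    rw [hu, hH, egf_der, egf_der]
    ext n
    rw [map_sub, show (2 : ℝ⟦X⟧) = C 2 from (map_ofNat C 2).symm, coeff_C]
    simp only [egf, coeff_mk, h]
    rcases Nat.eq_zero_or_pos n with rfl | hn
    · simp [a1]
    · rw [if_pos (by omega), if_neg (by omega), sub_zero]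
  have eg : egf g = G - 1 := by
    ext n
    rw [map_sub, coeff_one]
    simp only [hG, egf, coeff_mk, g]
    rcases Nat.eq_zero_or_pos n with rfl | hn
    · simp [b0]
    · rw [if_pos (by omega), if_neg (by omega), sub_zero]
  have e2 : d⁄dX ℝ G + Y * (d⁄dX ℝ G * H) + Y * (G * egf g) = G := by
    rw [hG, egf_der, hH, egf_mul, egf_mul, egf_C, egf_C, egf_add, egf_add]
    congr 1
    funext n
    rw [conv b n, hb n, sum_range_succ, Nat.sub_self]
    have : ∑ i ∈ range n, (n.choose i : ℝ) * (b i * g (n - i)) =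
        ∑ i ∈ range n, (n.choose i : ℝ) * b (n - i) * b i := by
      refine sum_congr rfl fun i hi => ?_
      have := mem_range.1 hi
      simp only [g]
      rw [if_pos (by omega)]
      ring
    rw [this]
    simp only [g]
    rw [if_neg (by omega)]
    ring
  rw [eg] at e2
  rw [map_ofNat] at e1
  have cu : constantCoeff u = 1 := by rw [hu, egf_zero, a0]; simp
  have cG : constantCoeff G = 1 := by rw [hG, egf_zero, b0]
  have cH : constantCoeff H = 0 := by rw [hH, egf_zero]; simp [h]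
  have cY : constantCoeff Y = y := by simp [hY]
  have dY : d⁄dX ℝ Y = 0 := derivative_C
  set V := 1 + Y - Y * G with hV
  have cV : constantCoeff V = 1 := by simp [hV, cY, cG]
  have hV0 : V ≠ 0 := fun h => by simp [h] at cV
  obtain ⟨W, hW⟩ : ∃ W, W * V = G := ⟨G * V⁻¹, by
    rw [mul_assoc, PowerSeries.inv_mul_cancel _ (by simp [cV]), mul_one]⟩
  have cW : constantCoeff W = 1 := by
    have := congrArg constantCoeff hW
    rwa [map_mul, cV, cG, mul_one] at this
  have dW := congrArg (d⁄dX ℝ) hW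
  rw [dmul, hV, map_sub, map_add, Derivation.map_one_eq_zero, dmul, dY, ← hV] at dW
  have fu : d⁄dX ℝ u * (1 + Y * H) = 2 * u := by linear_combination e1
  have gW : G * (1 + Y * W) = (1 + Y) * W := by linear_combination -hW
  have fW : d⁄dX ℝ W * (1 + Y * H) = (1 + Y) * W := by
    apply mul_right_cancel₀ hV0
    linear_combination (1 + Y * H) * dW + (1 + Y * W) * e2 + V * gW
  have fZ : (1 + Y) * (1 + Y * H) * W ^ 2 - u * (1 + Y * W ^ 2) = 0 := by
    refine ode_zero _ (1 + Y * H) ?_ (by simp [cu, cH, cY, cW]) (by simp [cH])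
    simp only [map_sub, map_add, dmul, dY, Derivation.map_one_eq_zero, pow_two, eH]
    linear_combination ((1 + Y) * Y * W ^ 2 - (1 + Y * W ^ 2)) * fu
      + (2 * (1 + Y) * (1 + Y * H) * W - 2 * u * Y * W) * fW
  have key := main_id (d⁄dX ℝ) y Y u W (1 + Y * H) (by rw [hY, ← C_eq_algebraMap])
    (fun m => egf fun n => b (n + (m + 1))) (fun m => by
      rw [egf_der]; congr 1; funext n; congr 1; omega) fu fW (sub_eq_zero.1 fZ) (by
      have : (egf fun n => b (n + (0 + 1))) = d⁄dX ℝ G := by rw [hG, egf_der]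
      simp only [this]
      linear_combination (-(d⁄dX ℝ G) * (1 + Y * W) ^ 2) * fZ
        + ((1 + Y) * W ^ 2 * (1 + Y * W) ^ 2) * e2
        + ((1 + Y) * W ^ 2 * V * (1 + Y * W)) * gW + ((1 + Y) ^ 2 * W ^ 3 * Y) * hW) m
  have k2 := congrArg constantCoeff key
  have k3 : constantCoeff (Polynomial.aeval W (PP y m)) = (PP y m).eval 1 := by
    rw [Polynomial.aeval_def, Polynomial.hom_eval₂, cW]
    have : (constantCoeff (R := ℝ)).comp (algebraMap ℝ ℝ⟦X⟧) = RingHom.id ℝ := by
      ext r; simp [← C_eq_algebraMap]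
    rw [this, Polynomial.eval₂_id]
  simp only [map_mul, map_pow, map_add, map_one, k3, cu, cW, cY, egf_zero, one_pow, mul_one,
    zero_add] at k2
  have hc : (1 + y) ^ (m + 3) ≠ 0 := by positivity
  apply mul_left_cancel₀ hc
  rw [← k2]
  ring

end Pool.Agent.H14.Tb
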