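import Pool.Agent.H14.Tb3
set_option autoImplicit false
set_option maxHeartbeats 400000

namespace Pool.Agent.H14.Tb
open Finset Polynomial

section
variable (A B : ℕ → ℝ[X]) (a0 : A 0 = 1) (a1 : A 1 = 1)
    (ha : ∀ n, 2 ≤ n → A n = A (n - 1) +
      X * ∑ k ∈ Ico 1 (n - 1), ((n - 1).choose (k - 1) : ℝ[X]) * A (n - k) * A k)
    (b0 : B 0 = 1)
    (hb : ∀ n, B (n + 1) = B n + X * ∑ i ∈ range n, (n.choose i : ℝ[X]) * B (n - i) * B i
      + X * ∑ m ∈ Ico 1 n, (n.choose (m - 1) : ℝ[X]) * 2 ^ (n + 1 - m) * A (n + 1 - m) * B m)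

lemma deg3 (p q r : ℝ[X]) (hp : p.natDegree = 0) (i j d : ℕ) (hq : q.natDegree ≤ i)
    (hr : r.natDegree ≤ j) (h : i + j ≤ d) : (p * q * r).natDegree ≤ d :=
  natDegree_mul_le.trans ((add_le_add (natDegree_mul_le.trans (by omega)) hr).trans h)

lemma degX (p : ℝ[X]) (d : ℕ) (hp : p.natDegree ≤ d) : (X * p).natDegree ≤ d + 1 :=
  natDegree_mul_le.trans (by have := natDegree_X_le (R := ℝ); omega)

include a0 a1 ha in
lemma A_deg (n : ℕ) : (A n).natDegree ≤ n - 2 := by
  induction n using Nat.strong_induction_on with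
  | _ n ih =>
    rcases Nat.lt_or_ge n 2 with h | h
    · interval_cases n <;> simp [a0, a1]
    · rw [ha n h]
      refine natDegree_add_le_of_degree_le ((ih _ (by omega)).trans (by omega)) ?_
      rcases h.eq_or_lt with rfl | h
      · simp
      · refine (degX _ (n - 3) (natDegree_sum_le_of_forall_le _ _ fun k hk => ?_)).trans (by omega)
        have := mem_Ico.1 hk
        exact deg3 _ _ _ (natDegree_natCast _) _ _ _ (ih _ (by omega)) (ih _ (by omega)) (by omega)

include a0 a1 ha b0 hb in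
lemma B_deg (n : ℕ) : (B n).natDegree ≤ n - 1 ∧ (B n).coeff (n - 1) = 1 := by
  induction n using Nat.strong_induction_on with
  | _ n ih =>
    rcases n with _ | _ | n
    · simp [b0]
    · simp [hb 0, b0]
    · have h1 := ih (n + 1) (by omega)
      have h2 : (∑ i ∈ range n, ((n + 1).choose (i + 1) : ℝ[X]) * B (n + 1 - (i + 1)) * B (i + 1)
          + ∑ m ∈ Ico 1 (n + 1), ((n + 1).choose (m - 1) : ℝ[X]) * 2 ^ (n + 1 + 1 - m) *
            A (n + 1 + 1 - m) * B m).degree < n := by
        refine (degree_add_le _ _).trans_lt (max_lt ?_ ?_)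
        · refine (degree_sum_le _ _).trans_lt ((Finset.sup_lt_iff (WithBot.bot_lt_coe n)).2
            fun i hi => ?_)
          have := mem_range.1 hi
          refine degree_le_natDegree.trans_lt (Nat.cast_lt.2 ?_)
          exact (deg3 _ _ _ (natDegree_natCast _) _ _ (n - 1) (ih _ (by omega)).1
            (ih _ (by omega)).1 (by omega)).trans_lt (by omega)
        · refine (degree_sum_le _ _).trans_lt ((Finset.sup_lt_iff (WithBot.bot_lt_coe n)).2
            fun i hi => ?_)
          have := mem_Ico.1 hi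
          refine degree_le_natDegree.trans_lt (Nat.cast_lt.2 ?_)
          refine (deg3 _ _ _ ?_ _ _ (n - 1) (A_deg A a0 a1 ha _)
            (ih _ (by omega)).1 (by omega)).trans_lt (by omega)
          refine Nat.le_zero.1 (natDegree_mul_le.trans ?_)
          rw [natDegree_natCast, natDegree_pow, natDegree_ofNat]
          simp
      have e := hb (n + 1)
      rw [sum_range_succ', add_assoc (B (n + 1)), ← mul_add, add_right_comm _ (_ * B 0),
        Nat.choose_zero_right, b0,
        Nat.sub_zero, Nat.cast_one, one_mul, mul_one] at e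
      generalize (∑ i ∈ range n, ((n + 1).choose (i + 1) : ℝ[X]) * B (n + 1 - (i + 1)) * B (i + 1)
          + ∑ m ∈ Ico 1 (n + 1), ((n + 1).choose (m - 1) : ℝ[X]) * 2 ^ (n + 1 + 1 - m) *
            A (n + 1 + 1 - m) * B m) = T at h2 e
      simp only [Nat.add_sub_cancel] at h1 ⊢
      rw [e]
      refine ⟨natDegree_add_le_of_degree_le (h1.1.trans (by omega)) (degX _ _
        (natDegree_add_le_of_degree_le (natDegree_le_of_degree_le h2.le) h1.1)), ?_⟩
      rw [coeff_add, coeff_X_mul, coeff_add, h1.2, coeff_eq_zero_of_degree_lt h2,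
        coeff_eq_zero_of_natDegree_lt (by omega)]
      simp

include b0 hb in
lemma B_zero (n : ℕ) : (B n).eval 0 = 1 := by
  induction n with
  | zero => simp [b0]
  | succ n ih => rw [hb n]; simp [ih]

include a0 a1 ha b0 hb in
lemma B_sturm (y : ℝ) (hy : 0 < y) (m : ℕ) (h : (B (m + 2)).eval (-y) = 0) :
    (B (m + 1)).eval (-y) * (B (m + 3)).eval (-y) < 0 := by
  have l := link y hy (fun n => (A n).eval (-y)) (fun n => (B n).eval (-y)) (by simp [a0])
    (by simp [a1]) (fun n hn => by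
      conv_lhs => rw [ha n hn]
      simp [eval_finset_sum]) (by simp [b0]) (fun n => by
      conv_lhs => rw [hb n]
      simp [eval_finset_sum])
  have := PP_sturm y hy m (by rw [← l, h, zero_mul])
  rw [← l, ← l] at this
  have p : 0 < (1 + y) ^ (2 * m) * (1 + y) ^ (2 * (m + 2)) := by positivity
  by_contra hc
  nlinarith [mul_nonneg (not_lt.1 hc) p.le]

include a0 a1 ha b0 hb in
lemma B_str (m : ℕ) : ∃ w : Fin m → ℝ, Str ((B (m + 1)).comp (-X)) m w ∧
    ∀ i : Fin m, 0 < (-1) ^ ((i : ℕ) + 1) * ((B (m + 2)).comp (-X)).eval (w i) := by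
  induction m with
  | zero =>
    exact ⟨Fin.elim0, ⟨fun i => i.elim0, fun i => i.elim0, 1, by simp, by simp [hb 0, b0]⟩,
      fun i => i.elim0⟩
  | succ m ih =>
    obtain ⟨w, hw, hw'⟩ := ih
    obtain ⟨d1, d2⟩ := B_deg A B a0 a1 ha b0 hb (m + 2)
    rw [show m + 2 - 1 = m + 1 from rfl] at d1 d2
    have d3 : (B (m + 2)).natDegree = m + 1 :=
      natDegree_eq_of_le_of_coeff_ne_zero d1 (by rw [d2]; exact one_ne_zero)
    have d4 : ((B (m + 2)).comp (-X)).natDegree = m + 1 := by
      rw [natDegree_comp, natDegree_neg, natDegree_X, mul_one, d3]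
    obtain ⟨v, hv, hv'⟩ := step hw (by simp [eval_comp, B_zero A B b0 hb]) hw'
      (sign_inf _ _ d4.le _ (by
        rw [← d4, coeff_natDegree, comp_neg_X_leadingCoeff_eq, d4, leadingCoeff, d3]
        rw [d2, mul_one, ← mul_pow]
        simp))
      ((Multiset.card_le_card (Multiset.filter_le _ _)).trans ((card_roots' _).trans d4.le))
    refine ⟨v, hv, fun i => ?_⟩
    have r := hv.root i
    have a := hv' i
    simp only [eval_comp, eval_neg, eval_X] at r a ⊢
    have b := B_sturm A B a0 a1 ha b0 hb _ (hv.2.1 i) m r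
    rw [pow_succ]
    by_contra hc
    have d : ((-1 : ℝ) ^ (i : ℕ)) ^ 2 = 1 := by rw [← pow_mul, mul_comm, pow_mul]; simp
    nlinarith [mul_nonneg a.le (neg_nonneg.2 (not_lt.1 hc))]

include a0 a1 ha b0 hb in
theorem real_rooted (n : ℕ) (hn : 1 ≤ n) (z : ℂ) (hz : aeval z (B n) = 0) : z.im = 0 := by
  obtain ⟨m, rfl⟩ : ∃ m, n = m + 1 := ⟨n - 1, by omega⟩
  obtain ⟨w, ⟨-, -, R, hR, e⟩, -⟩ := B_str A B a0 a1 ha b0 hb m
  obtain ⟨d1, -⟩ := B_deg A B a0 a1 ha b0 hb (m + 1)
  have hR0 : R ≠ 0 := fun h => by simpa [h] using hR 0 le_rfl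
  have hx : ∀ i, (C (w i) - X : ℝ[X]) ≠ 0 := fun i h => X_ne_C (w i) (sub_eq_zero.1 h).symm
  have d := congrArg natDegree e
  rw [natDegree_comp, natDegree_neg, natDegree_X, mul_one,
    natDegree_mul hR0 (prod_ne_zero_iff.2 fun i _ => hx i), natDegree_prod _ _ fun i _ => hx i,
    sum_congr rfl (g := fun _ => 1) (fun i _ => by rw [← natDegree_neg, neg_sub, natDegree_X_sub_C])] at d
  simp only [sum_const, card_univ, Fintype.card_fin, smul_eq_mul, mul_one,
    Nat.add_sub_cancel] at d d1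
  have e2 := congrArg (aeval (-z)) e
  rw [aeval_comp, map_neg, aeval_X, neg_neg, hz, map_mul, map_prod,
    eq_C_of_natDegree_le_zero (show R.natDegree ≤ 0 by omega), aeval_C] at e2
  have hc : R.coeff 0 ≠ 0 := by rw [coeff_zero_eq_eval_zero]; exact (hR 0 le_rfl).ne'
  obtain ⟨i, -, hi⟩ := prod_eq_zero_iff.1 ((mul_eq_zero.1 e2.symm).resolve_left (by simpa using hc))
  have := congrArg Complex.im hi
  simpa using this

end

end Pool.Agent.H14.Tb
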