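import Mathlib

namespace Pool.Agent.H14.ThreshDefs

open SimpleGraph

/-- `G` is maximal `H`-free. -/
def MaxFree {h n : ℕ} (H : SimpleGraph (Fin h)) (G : SimpleGraph (Fin n)) : Prop :=
  ¬ H.IsContained G ∧ ∀ u v, u ≠ v → ¬ G.Adj u v → H.IsContained (G ⊔ edge u v)

/-- Every vertex of the `n`-vertex graph `G` has degree at least `α n`. -/
def MinDegGe {n : ℕ} (G : SimpleGraph (Fin n)) (α : ℝ) : Prop :=
  ∀ v, α * (n : ℝ) ≤ ((G.neighborSet v).ncard : ℝ)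

/-- `G` is a blowup of `F`: the fibres of `φ` are the nonempty independent sets `V_x`. -/
def IsBlowup {n c : ℕ} (G : SimpleGraph (Fin n)) (F : SimpleGraph (Fin c)) : Prop :=
  ∃ φ : Fin n → Fin c, Function.Surjective φ ∧ ∀ u v, G.Adj u v ↔ F.Adj (φ u) (φ v)

/-- Every vertex set shattered by the neighbourhoods of `G` has at most `C` elements. -/
def VCLe {n : ℕ} (G : SimpleGraph (Fin n)) (C : ℕ) : Prop :=
  ∀ S : Finset (Fin n), (∀ T ⊆ S, ∃ v, G.neighborSet v ∩ (S : Set (Fin n)) = T) → S.card ≤ C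

/-- The homomorphism threshold. -/
noncomputable def deltaHom {h : ℕ} (H : SimpleGraph (Fin h)) : ℝ :=
  sInf {α | 0 ≤ α ∧ ∃ (c : ℕ) (F : SimpleGraph (Fin c)), ¬ H.IsContained F ∧
    ∀ (n : ℕ) (G : SimpleGraph (Fin n)), ¬ H.IsContained G → MinDegGe G α → Nonempty (G →g F)}

/-- The blowup threshold. -/
noncomputable def deltaB {h : ℕ} (H : SimpleGraph (Fin h)) : ℝ :=
  sInf {α | 0 ≤ α ∧ ∃ C : ℕ, ∀ (n : ℕ) (G : SimpleGraph (Fin n)), MaxFree H G → MinDegGe G α →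
    ∃ c ≤ C, ∃ F : SimpleGraph (Fin c), IsBlowup G F}

/-- The VC-dimension threshold. -/
noncomputable def deltaVC {h : ℕ} (H : SimpleGraph (Fin h)) : ℝ :=
  sInf {α | 0 ≤ α ∧ ∃ C : ℕ, ∀ (n : ℕ) (G : SimpleGraph (Fin n)), MaxFree H G → MinDegGe G α →
    VCLe G C}

end Pool.Agent.H14.ThreshDefs
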