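import Mathlib

namespace Pool.Agent.H14.Wheel

open SimpleGraph Finset

/-- The wheel with four spokes, `K_{1,2,2}`. -/
def W4 : SimpleGraph (Fin 5) := (⊤ : SimpleGraph (Fin 3)).comap ![0, 1, 2, 1, 2]

instance : DecidableRel W4.Adj := fun u v =>
  inferInstanceAs (Decidable ((![0, 1, 2, 1, 2] : Fin 5 → Fin 3) u ≠ ![0, 1, 2, 1, 2] v))

def HasW {V : Type} (G : SimpleGraph V) : Prop :=
  ∃ c x y z w, x ≠ z ∧ y ≠ w ∧ G.Adj c x ∧ G.Adj c y ∧ G.Adj c z ∧ G.Adj c w ∧
    G.Adj x y ∧ G.Adj y z ∧ G.Adj z w ∧ G.Adj w x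

lemma contained_iff {V : Type} (G : SimpleGraph V) : W4.IsContained G ↔ HasW G := by
  constructor
  · rintro ⟨f⟩
    refine ⟨f 0, f 1, f 2, f 3, f 4, fun h => absurd (f.injective h) (by decide),
      fun h => absurd (f.injective h) (by decide), ?_, ?_, ?_, ?_, ?_, ?_, ?_, ?_⟩ <;>
      exact f.toHom.map_adj (by decide)
  · rintro ⟨c, x, y, z, w, h1, h2, a1, a2, a3, a4, a5, a6, a7, a8⟩
    refine ⟨⟨⟨![c, x, y, z, w], ?_⟩, ?_⟩⟩
    · intro u v huv
      fin_cases u <;> fin_cases v <;>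
        first
          | exact absurd huv (by decide)
          | simp [a1, a2, a3, a4, a5, a6, a7, a8, a1.symm, a2.symm, a3.symm, a4.symm, a5.symm,
              a6.symm, a7.symm, a8.symm]
    · intro u v huv
      fin_cases u <;> fin_cases v <;>
        simp [h1, h2, h1.symm, h2.symm, a1.ne, a2.ne, a3.ne, a4.ne, a5.ne, a6.ne, a7.ne, a8.ne,
          a1.ne', a2.ne', a3.ne', a4.ne', a5.ne', a6.ne', a7.ne', a8.ne'] at huv ⊢

/-- A bipartition in which every vertex has at most one neighbour on its own side. -/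
def Sparse {V : Type} (G : SimpleGraph V) (σ : V → Bool) : Prop :=
  ∀ w x y, σ w = σ x → σ w = σ y → G.Adj w x → G.Adj w y → x = y

lemma Sparse.free {V : Type} {G : SimpleGraph V} {σ : V → Bool} (h : Sparse G σ) : ¬ HasW G := by
  rintro ⟨c, x, y, z, w, h1, h2, a1, a2, a3, a4, a5, a6, a7, a8⟩
  have e1 := fun p q => a5.ne (h c x y p q a1 a2)
  have e2 := fun p q => h1 (h c x z p q a1 a3)
  have e3 := fun p q => a8.ne' (h c x w p q a1 a4)
  have e4 := fun p q => a6.ne (h c y z p q a2 a3)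
  have e5 := fun p q => h2 (h c y w p q a2 a4)
  have e6 := fun p q => a7.ne (h c z w p q a3 a4)
  have f1 := fun p q => h1 (h y x z p q a5.symm a6)
  have f2 := fun p q => h2 (h z y w p q a6.symm a7)
  have f3 := fun p q => h1 (h w x z p q a8 a7.symm)
  have f4 := fun p q => h2 (h x y w p q a5 a8.symm)
  revert e1 e2 e3 e4 e5 e6 f1 f2 f3 f4
  cases σ c <;> cases σ x <;> cases σ y <;> cases σ z <;> cases σ w <;> simp

section

variable {V : Type} [Fintype V] [DecidableEq V] (G : SimpleGraph V) [DecidableRel G.Adj]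

lemma miss (w : V) (P Q : Finset V) (h : Disjoint P Q) :
    (Q \ G.neighborFinset w).card + G.degree w + P.card ≤
      Fintype.card V + (G.neighborFinset w ∩ P).card := by
  have h1 : (Q \ G.neighborFinset w) ∪ (G.neighborFinset w \ P) ⊆ Pᶜ := by
    intro a ha
    rw [mem_compl]
    rcases mem_union.1 ha with ha | ha
    · exact disjoint_right.1 h (mem_sdiff.1 ha).1
    · exact (mem_sdiff.1 ha).2
  have h2 : Disjoint (Q \ G.neighborFinset w) (G.neighborFinset w \ P) := by
    rw [Finset.disjoint_left]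
    intro a ha hb
    exact (mem_sdiff.1 ha).2 (mem_sdiff.1 hb).1
  have h3 := card_le_card h1
  rw [card_union_of_disjoint h2, card_compl] at h3
  have h4 := card_sdiff_add_card_inter (G.neighborFinset w) P
  rw [card_neighborFinset_eq_degree] at h4
  have h5 := card_le_univ P
  omega

omit [Fintype V] in
lemma two_common (T M1 M2 M3 : Finset V)
    (h : (T \ M1).card + (T \ M2).card + (T \ M3).card + 2 ≤ T.card) :
    ∃ y y', y ≠ y' ∧ y ∈ M1 ∧ y ∈ M2 ∧ y ∈ M3 ∧ y' ∈ M1 ∧ y' ∈ M2 ∧ y' ∈ M3 := by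
  have h1 : T ⊆ (M1 ∩ M2 ∩ M3) ∪ (T \ M1) ∪ (T \ M2) ∪ (T \ M3) := by
    intro a ha
    simp only [mem_union, mem_inter, mem_sdiff]
    tauto
  have h2 := card_le_card h1
  have h3 := card_union_le ((M1 ∩ M2 ∩ M3) ∪ (T \ M1) ∪ (T \ M2)) (T \ M3)
  have h4 := card_union_le ((M1 ∩ M2 ∩ M3) ∪ (T \ M1)) (T \ M2)
  have h5 := card_union_le (M1 ∩ M2 ∩ M3) (T \ M1)
  obtain ⟨y, hy, y', hy', hne⟩ := one_lt_card.1 (show 1 < (M1 ∩ M2 ∩ M3).card by omega)
  simp only [mem_inter] at hy hy'
  exact ⟨y, y', hne, hy.1.1, hy.1.2, hy.2, hy'.1.1, hy'.1.2, hy'.2⟩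

lemma few (hG : ¬ HasW G) (hn : 200 ≤ Fintype.card V) (c : V) (S : Finset V)
    (hS : ∀ x ∈ S, G.Adj c x) :
    (S.filter fun x => Fintype.card V ≤ 100 * (G.neighborFinset x ∩ S).card).card ≤ 20000 := by
  set n := Fintype.card V with hn'
  set T := S.filter fun x => n ≤ 100 * (G.neighborFinset x ∩ S).card with hT
  have h1 : (T.sigma fun x => (G.neighborFinset x ∩ S).offDiag).card ≤
      (univ : Finset (V × V)).card := by
    refine card_le_card_of_injOn (fun p => p.2) (fun _ _ => mem_coe.2 (mem_univ _)) ?_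
    rintro ⟨x, y, z⟩ hp ⟨x', y', z'⟩ hq h
    simp only [Prod.mk.injEq] at h
    obtain ⟨rfl, rfl⟩ := h
    simp only [coe_sigma, Set.mem_sigma_iff, mem_coe, mem_offDiag, mem_inter,
      mem_neighborFinset, hT, mem_filter] at hp hq
    have : x = x' := by
      by_contra hne
      exact hG ⟨c, x, y, x', z, hne, hp.2.2.2, hS _ hp.1.1, hS _ hp.2.1.2, hS _ hq.1.1,
        hS _ hp.2.2.1.2, hp.2.1.1, hq.2.1.1.symm, hq.2.2.1.1, hp.2.2.1.1.symm⟩
    subst this
    rfl
  rw [card_sigma, card_univ, Fintype.card_prod, ← hn'] at h1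
  have h2 : T.card * (n * n) ≤ 20000 * ∑ x ∈ T, (G.neighborFinset x ∩ S).offDiag.card := by
    rw [mul_sum, ← smul_eq_mul, ← sum_const]
    refine sum_le_sum fun x hx => ?_
    have h3 := (mem_filter.1 hx).2
    rw [offDiag_card]
    generalize (G.neighborFinset x ∩ S).card = d at h3
    have h4 : 2 ≤ d := by omega
    have h5 : 2 * d ≤ d * d := Nat.mul_le_mul_right d h4
    have h6 : n * n ≤ (100 * d) * (100 * d) := Nat.mul_le_mul h3 h3
    have h7 : (100 * d) * (100 * d) = 10000 * (d * d) := by ring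
    omega
  have h3 : T.card * (n * n) ≤ 20000 * (n * n) := h2.trans (Nat.mul_le_mul_left _ h1)
  exact Nat.le_of_mul_le_mul_right h3 (Nat.mul_pos (by omega) (by omega))

theorem structure_thm (hG : ¬ HasW G) (hn : 1000000 ≤ Fintype.card V)
    (hd : ∀ v, 499 * Fintype.card V ≤ 1000 * G.degree v) : ∃ σ : V → Bool, Sparse G σ := by
  set n := Fintype.card V with hn'
  have : Nonempty V := Fintype.card_pos_iff.1 (by omega)
  obtain ⟨v⟩ := this
  set B := G.neighborFinset v with hB
  have hBc : 499 * n ≤ 1000 * B.card := by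
    rw [hB, card_neighborFinset_eq_degree]; exact hd v
  have h1 := few G hG (by omega) v B (fun x hx => (mem_neighborFinset _ _ _).1 hx)
  obtain ⟨u, huB, hu⟩ : ∃ u ∈ B, ¬ n ≤ 100 * (G.neighborFinset u ∩ B).card := by
    by_contra hcon
    push Not at hcon
    rw [filter_true_of_mem hcon] at h1
    omega
  set A := G.neighborFinset u \ B with hA
  have hAB : Disjoint A B := sdiff_disjoint
  have hAc : 489 * n < 1000 * A.card := by
    have := card_sdiff_add_card_inter (G.neighborFinset u) B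
    rw [card_neighborFinset_eq_degree, ← hA] at this
    have := hd u
    omega
  have h2 := few G hG (by omega) u A
    (fun x hx => (mem_neighborFinset _ _ _).1 (mem_sdiff.1 hx).1)
  have dich : ∀ w, 100 * (G.neighborFinset w ∩ A).card < 5 * n ∨
      100 * (G.neighborFinset w ∩ B).card < 5 * n := by
    intro w
    by_contra hcon
    push Not at hcon
    have h3 : 1 < ((G.neighborFinset w ∩ A) \
        (A.filter fun x => n ≤ 100 * (G.neighborFinset x ∩ A).card)).card := by
      have := le_card_sdiff (A.filter fun x => n ≤ 100 * (G.neighborFinset x ∩ A).card)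
        (G.neighborFinset w ∩ A)
      rw [← hn'] at h2
      omega
    obtain ⟨x, hx, x', hx', hne⟩ := one_lt_card.1 h3
    simp only [mem_sdiff, mem_inter, mem_filter, not_and, mem_neighborFinset] at hx hx'
    have m1 := miss G x A B hAB
    have m2 := miss G x' A B hAB
    have t1 := hx.2 hx.1.2
    have t2 := hx'.2 hx'.1.2
    have d1 := hd x
    have d2 := hd x'
    have s1 : ((G.neighborFinset w ∩ B) \ G.neighborFinset x).card ≤
        (B \ G.neighborFinset x).card := card_le_card (sdiff_subset_sdiff inter_subset_right le_rfl)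
    have s2 : ((G.neighborFinset w ∩ B) \ G.neighborFinset x').card ≤
        (B \ G.neighborFinset x').card := card_le_card (sdiff_subset_sdiff inter_subset_right le_rfl)
    have s3 : ((G.neighborFinset w ∩ B) \ G.neighborFinset w).card = 0 := by
      rw [card_eq_zero, sdiff_eq_empty_iff_subset]
      exact inter_subset_left
    obtain ⟨y, y', hyy, p1, p2, p3, q1, q2, q3⟩ := two_common (G.neighborFinset w ∩ B)
      (G.neighborFinset x) (G.neighborFinset x') (G.neighborFinset w) (by omega)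
    rw [mem_neighborFinset] at p1 p2 p3 q1 q2 q3
    exact hG ⟨w, x, y, x', y', hne, hyy, hx.1.1, p3, hx'.1.1, q3, p1, p2.symm, q2, q1.symm⟩
  refine ⟨fun w => decide (100 * (G.neighborFinset w ∩ A).card < 5 * n), ?_⟩
  intro w x y e1 e2 a1 a2
  by_contra hne
  have fin : ∀ T : Finset V, (T \ G.neighborFinset w).card + (T \ G.neighborFinset x).card +
      (T \ G.neighborFinset y).card + 2 ≤ T.card → False := by
    intro T hT
    obtain ⟨z, z', hzz, p1, p2, p3, q1, q2, q3⟩ := two_common T _ _ _ hT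
    rw [mem_neighborFinset] at p1 p2 p3 q1 q2 q3
    exact hG ⟨w, x, z, y, z', hne, hzz, a1, p1, a2, q1, p2, p3.symm, q3, q2.symm⟩
  have dw := hd w
  have dx := hd x
  have dy := hd y
  simp only [decide_eq_decide] at e1 e2
  by_cases hw : 100 * (G.neighborFinset w ∩ A).card < 5 * n
  · have m1 := miss G w A B hAB
    have m2 := miss G x A B hAB
    have m3 := miss G y A B hAB
    have := e1.1 hw
    have := e2.1 hw
    exact fin B (by omega)
  · have m1 := miss G w B A hAB.symm
    have m2 := miss G x B A hAB.symm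
    have m3 := miss G y B A hAB.symm
    have k1 := (dich w).resolve_left hw
    have k2 := (dich x).resolve_left fun h => hw (e1.2 h)
    have k3 := (dich y).resolve_left fun h => hw (e2.2 h)
    exact fin A (by omega)

end

lemma structure_fin {n : ℕ} (G : SimpleGraph (Fin n)) (hG : ¬ HasW G) (hn : 1000000 ≤ n)
    (hd : ∀ v, (499 / 1000 : ℝ) * n ≤ ((G.neighborSet v).ncard : ℝ)) :
    ∃ σ : Fin n → Bool, Sparse G σ := by
  classical
  refine structure_thm G hG (by simpa using hn) fun v => ?_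
  have h1 := hd v
  rw [← coe_neighborFinset, Set.ncard_coe_finset, card_neighborFinset_eq_degree] at h1
  rw [Fintype.card_fin]
  have : (499 : ℝ) * n ≤ 1000 * G.degree v := by linarith
  exact_mod_cast this

/-- The extremal example: complete bipartite graph with perfect matchings on both sides. -/
def M (m : ℕ) : SimpleGraph (Bool × Fin m × Bool) where
  Adj u v := u.1 ≠ v.1 ∨ (u.2.1 = v.2.1 ∧ u.2.2 ≠ v.2.2)
  symm := ⟨fun _ _ h => h.elim (fun h => Or.inl h.symm) fun h => Or.inr ⟨h.1.symm, h.2.symm⟩⟩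
  loopless := ⟨by simp⟩

lemma M_sparse (m : ℕ) : Sparse (M m) Prod.fst := by
  rintro ⟨a, i, s⟩ ⟨b, j, t⟩ ⟨c, k, r⟩ h1 h2 h3 h4
  simp only [M] at h1 h2 h3 h4
  subst h1 h2
  simp only [ne_eq, not_true_eq_false, false_or] at h3 h4
  obtain ⟨rfl, h3⟩ := h3
  obtain ⟨rfl, h4⟩ := h4
  revert h3 h4
  cases s <;> cases t <;> cases r <;> simp

lemma M_max (m : ℕ) (u v : Bool × Fin m × Bool) (huv : u ≠ v) (h : ¬ (M m).Adj u v) :
    HasW (M m ⊔ edge u v) := by
  obtain ⟨a, i, s⟩ := u
  obtain ⟨b, j, t⟩ := v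
  simp only [M, ne_eq, not_or, not_not, not_and] at h
  obtain ⟨rfl, h⟩ := h
  have hij : i ≠ j := by
    rintro rfl
    exact huv (by rw [h rfl])
  refine ⟨(a, i, s), (a, j, t), (!a, i, true), (a, i, !s), (!a, i, false), ?_, by simp, ?_, ?_, ?_,
    ?_, ?_, ?_, ?_, ?_⟩
  · simp [hij.symm]
  · exact Or.inr (by simp [edge_adj, hij])
  all_goals exact Or.inl (by simp [M])

lemma M_deg (m : ℕ) (v : Bool × Fin m × Bool) : 2 * m ≤ ((M m).neighborSet v).ncard := by
  have : Set.range (fun p : Fin m × Bool => ((!v.1, p) : Bool × Fin m × Bool)) ⊆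
      (M m).neighborSet v := by
    rintro _ ⟨p, rfl⟩
    exact Or.inl (by simp)
  have h2 := Set.ncard_le_ncard this
  rw [Set.ncard_range_of_injective (fun p q h => (Prod.ext_iff.1 h).2)] at h2
  simpa [mul_comm] using h2

lemma M_twin (m : ℕ) (u v : Bool × Fin m × Bool) (h : ∀ w, (M m).Adj u w ↔ (M m).Adj v w) :
    u = v := by
  obtain ⟨a, i, s⟩ := u
  obtain ⟨b, j, t⟩ := v
  have h1 := (h (b, j, t)).not.2 (by simp [M])
  simp only [M, ne_eq, not_or, not_not, not_and] at h1
  obtain ⟨rfl, h1⟩ := h1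
  have h2 := (h (a, i, !s)).1 (Or.inr (by simp))
  simp only [M, ne_eq, not_true_eq_false, false_or] at h2
  obtain ⟨rfl, _⟩ := h2
  rw [h1 rfl]

lemma HasW.comap {V W : Type} (e : V ≃ W) (G : SimpleGraph W) : HasW (G.comap e) ↔ HasW G := by
  constructor
  · rintro ⟨c, x, y, z, w, h1, h2, a⟩
    exact ⟨e c, e x, e y, e z, e w, e.injective.ne h1, e.injective.ne h2, a⟩
  · rintro ⟨c, x, y, z, w, h1, h2, a⟩
    exact ⟨e.symm c, e.symm x, e.symm y, e.symm z, e.symm w, e.symm.injective.ne h1,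
      e.symm.injective.ne h2, by simpa using a⟩

/-- Large twin-free maximal `W4`-free graphs of minimum degree at least `n / 2`. -/
theorem exists_twinfree (C : ℕ) : ∃ (n : ℕ) (G : SimpleGraph (Fin n)), C < n ∧ ¬ HasW G ∧
    (∀ u v, u ≠ v → ¬ G.Adj u v → HasW (G ⊔ edge u v)) ∧
    (∀ v, (1 / 2 : ℝ) * n ≤ ((G.neighborSet v).ncard : ℝ)) ∧
    ∀ u v, (∀ w, G.Adj u w ↔ G.Adj v w) → u = v := by
  let e : Fin (4 * (C + 1)) ≃ Bool × Fin (C + 1) × Bool :=
    Fintype.equivOfCardEq (by simp; ring)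
  refine ⟨4 * (C + 1), (M (C + 1)).comap e, by omega, ?_, ?_, ?_, ?_⟩
  · rw [HasW.comap]
    exact (M_sparse _).free
  · intro u v huv h
    have h1 := M_max _ (e u) (e v) (e.injective.ne huv) h
    rw [← HasW.comap e] at h1
    convert h1 using 1
    ext a b
    simp [edge_adj]
  · intro v
    have h1 := M_deg _ (e v)
    have h2 : (((M (C + 1)).comap e).neighborSet v).ncard = ((M (C + 1)).neighborSet (e v)).ncard :=
      Set.ncard_congr' (e.subtypeEquiv fun _ => Iff.rfl)
    rw [h2]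
    have h3 : ((2 * (C + 1) : ℕ) : ℝ) ≤ (((M (C + 1)).neighborSet (e v)).ncard : ℝ) := by
      exact_mod_cast h1
    push_cast at h3 ⊢
    linarith
  · intro u v h
    refine e.injective (M_twin _ _ _ fun w => ?_)
    simpa using h (e.symm w)

end Pool.Agent.H14.Wheel
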