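import Mathlib
import Pool.Agent.H14.W4
import Pool.Agent.H14.ThreshDefs

namespace Pool.Agent.H14.ThreshProof

open SimpleGraph Pool.Agent.H14.Wheel Pool.Agent.H14.ThreshDefs

theorem deltaB_ge : (1 / 2 : ℝ) ≤ deltaB W4 := by
  refine le_csInf ⟨2, by norm_num, 0, ?_⟩ ?_
  · intro n G _ hd
    rcases Nat.eq_zero_or_pos n with rfl | hn
    · exact ⟨0, le_rfl, G, id, Function.surjective_id, fun _ _ => Iff.rfl⟩
    · exfalso
      have h1 := hd ⟨0, hn⟩
      have h2 : (G.neighborSet ⟨0, hn⟩).ncard ≤ n := by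
        have := Set.ncard_le_card (G.neighborSet ⟨0, hn⟩)
        simpa using this
      have h3 : ((G.neighborSet ⟨0, hn⟩).ncard : ℝ) ≤ n := by exact_mod_cast h2
      have h4 : (0 : ℝ) < n := by exact_mod_cast hn
      linarith
  · rintro α ⟨_, C, hC⟩
    by_contra hlt
    push Not at hlt
    obtain ⟨n, G, hn, h1, h2, h3, h4⟩ := exists_twinfree C
    obtain ⟨c, hc, F, φ, _, hφ⟩ := hC n G
      ⟨by rwa [contained_iff], fun u v a b => (contained_iff _).2 (h2 u v a b)⟩ (fun v => by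
        have h5 := h3 v
        have h6 : (0 : ℝ) ≤ n := by positivity
        nlinarith)
    have hinj : Function.Injective φ := fun u v h => h4 u v fun w => by rw [hφ, hφ, h]
    have := Fintype.card_le_of_injective φ hinj
    simp at this
    omega

theorem deltaVC_le : deltaVC W4 ≤ 499 / 1000 := by
  refine csInf_le ⟨0, fun α h => h.1⟩ ⟨by norm_num, 1000000, ?_⟩
  intro n G hG hd S hS
  by_cases hn : 1000000 ≤ n
  · obtain ⟨σ, hσ⟩ := structure_fin G (by rw [← contained_iff]; exact hG.1) hn hd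
    have hfull : ∀ u v, σ u ≠ σ v → G.Adj u v := by
      intro u v huv
      by_contra h
      have h1 := (contained_iff _).1 (hG.2 u v (fun h' => huv (by rw [h'])) h)
      refine Sparse.free (σ := σ) ?_ h1
      intro w x y e1 e2 a1 a2
      have k : ∀ p q, σ p = σ q → (G ⊔ edge u v).Adj p q → G.Adj p q := by
        rintro p q e (a | a)
        · exact a
        · rw [edge_adj] at a
          rcases a.1 with ⟨rfl, rfl⟩ | ⟨rfl, rfl⟩
          · exact absurd e huv
          · exact absurd e.symm huv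
      exact hσ w x y e1 e2 (k _ _ e1 a1) (k _ _ e2 a2)
    have hside : ∀ b : Bool, (S.filter fun x => σ x = b).card ≤ 2 := by
      intro b
      by_contra hcon
      obtain ⟨x, y, z, hx, hy, hz, hxy, hxz, hyz⟩ := Finset.two_lt_card_iff.1 (not_le.1 hcon)
      rw [Finset.mem_filter] at hx hy hz
      obtain ⟨v, hv⟩ := hS {x, y} (by
        intro a ha
        simp only [Finset.mem_insert, Finset.mem_singleton] at ha
        rcases ha with rfl | rfl
        · exact hx.1
        · exact hy.1)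
      have m : ∀ a, (G.Adj v a ∧ a ∈ S) ↔ (a = x ∨ a = y) := by
        intro a
        have := Set.ext_iff.1 hv a
        simpa using this
      by_cases hb : σ v = b
      · exact hxy (hσ v x y (hb.trans hx.2.symm) (hb.trans hy.2.symm) ((m x).2 (Or.inl rfl)).1
          ((m y).2 (Or.inr rfl)).1)
      · rcases (m z).1 ⟨hfull v z (by rw [hz.2]; exact hb), hz.1⟩ with h | h
        · exact hxz h.symm
        · exact hyz h.symm
    have h1 := Finset.card_filter_add_card_filter_not (s := S) (fun x => σ x = true)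
    have h2 := hside true
    have h3 := hside false
    simp only [Bool.not_eq_true] at h1
    omega
  · have := Finset.card_le_univ S
    rw [Fintype.card_fin] at this
    omega

/-- The disjoint union of all `W4`-free graphs on `Fin N`. -/
def U (N : ℕ) : SimpleGraph (SimpleGraph (Fin N) × Fin N) where
  Adj p q := p.1 = q.1 ∧ ¬ HasW p.1 ∧ p.1.Adj p.2 q.2
  symm := ⟨by
    rintro ⟨G, u⟩ ⟨G', v⟩ ⟨h1, h2, h3⟩
    simp only at h1 h2 h3
    subst h1
    exact ⟨rfl, h2, h3.symm⟩⟩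
  loopless := ⟨fun p h => p.1.irrefl h.2.2⟩

lemma U_free (N : ℕ) : ¬ HasW (U N) := by
  rintro ⟨⟨G, c⟩, ⟨G1, x⟩, ⟨G2, y⟩, ⟨G3, z⟩, ⟨G4, w⟩, h1, h2, a1, a2, a3, a4, a5, a6, a7, a8⟩
  obtain rfl : G = G1 := a1.1
  obtain rfl : G = G2 := a2.1
  obtain rfl : G = G3 := a3.1
  obtain rfl : G = G4 := a4.1
  exact a1.2.1 ⟨c, x, y, z, w, fun h => h1 (by rw [h]), fun h => h2 (by rw [h]), a1.2.2, a2.2.2,
    a3.2.2, a4.2.2, a5.2.2, a6.2.2, a7.2.2, a8.2.2⟩

lemma hom_small {N n : ℕ} (hn : n ≤ N) (G : SimpleGraph (Fin n)) (hG : ¬ HasW G) :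
    Nonempty (G →g U N) := by
  let f : Fin n ↪ Fin N := Fin.castLEEmb hn
  have hfree : ¬ HasW (G.map f) := by
    rintro ⟨c, x, y, z, w, h1, h2, a1, a2, a3, a4, a5, a6, a7, a8⟩
    obtain ⟨c', x', _, rfl, rfl⟩ := (map_adj _ _ _ _).1 a1
    obtain ⟨_, y', _, _, rfl⟩ := (map_adj _ _ _ _).1 a2
    obtain ⟨_, z', _, _, rfl⟩ := (map_adj _ _ _ _).1 a3
    obtain ⟨_, w', _, _, rfl⟩ := (map_adj _ _ _ _).1 a4
    simp only [map_adj_apply] at a1 a2 a3 a4 a5 a6 a7 a8
    exact hG ⟨c', x', y', z', w', fun h => h1 (by rw [h]), fun h => h2 (by rw [h]), a1, a2, a3, a4,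
      a5, a6, a7, a8⟩
  exact ⟨⟨fun v => (G.map f, f v), fun h => ⟨rfl, hfree, by simpa using h⟩⟩⟩

lemma hom_K4 {n : ℕ} (G : SimpleGraph (Fin n)) (σ : Fin n → Bool) (hσ : Sparse G σ) :
    Nonempty (G →g (⊤ : SimpleGraph (Fin 4))) := by
  classical
  let τ : Fin n → Bool := fun w => decide (∃ x, σ w = σ x ∧ G.Adj w x ∧ x < w)
  let e : Bool × Bool ≃ Fin 4 := Fintype.equivFinOfCardEq (by simp)
  have key : ∀ u v, G.Adj u v → σ u = σ v → v < u → τ u ≠ τ v := by
    intro u v h1 h2 h3 h4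
    have h5 : τ u = true := by simpa [τ] using ⟨v, h2, h1, h3⟩
    rw [h5] at h4
    obtain ⟨x, k1, k2, k3⟩ : ∃ x, σ v = σ x ∧ G.Adj v x ∧ x < v := by simpa [τ] using h4.symm
    have := hσ v x u k1 h2.symm k2 h1.symm
    omega
  refine ⟨⟨fun w => e (σ w, τ w), ?_⟩⟩
  intro u v h h'
  have h1 := e.injective h'
  simp only [Prod.mk.injEq] at h1
  rcases lt_or_gt_of_ne h.ne with h2 | h2
  · exact key v u h.symm h1.1.symm h2 h1.2.symm
  · exact key u v h h1.1 h2 h1.2

lemma K4_free : ¬ HasW (⊤ : SimpleGraph (Fin 4)) := by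
  rintro ⟨c, x, y, z, w, h1, h2, a1, a2, a3, a4, a5, a6, a7, a8⟩
  simp only [top_adj, ne_eq] at *
  omega

lemma deltaHom_aux (N : ℕ) (hN : N = 1000000) : deltaHom W4 ≤ 499 / 1000 := by
  let e := Finite.equivFin (SimpleGraph (Fin N) × Fin N)
  refine csInf_le ⟨0, fun α h => h.1⟩ ⟨by norm_num, _, (U N).comap e.symm, ?_, ?_⟩
  · rw [contained_iff, HasW.comap]
    exact U_free N
  · intro n G hG hd
    rw [contained_iff] at hG
    have h1 : Nonempty (G →g U N) := by
      by_cases hn : 1000000 ≤ n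
      · obtain ⟨σ, hσ⟩ := structure_fin G hG hn hd
        obtain ⟨f⟩ := hom_K4 G σ hσ
        obtain ⟨g⟩ := hom_small (N := N) (by omega) _ K4_free
        exact ⟨g.comp f⟩
      · exact hom_small (by omega) G hG
    obtain ⟨f⟩ := h1
    exact ⟨(Iso.comap e.symm (U N)).symm.toHom.comp f⟩

theorem deltaHom_le : deltaHom W4 ≤ 499 / 1000 := deltaHom_aux _ rfl

end Pool.Agent.H14.ThreshProof
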