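import Mathlib

set_option maxHeartbeats 1000000

namespace Pool.Agent.H14.Ts

open Finset

def S : ℕ → List ℕ → (List ℕ → ℕ) → ℕ
  | a, [], φ => φ [a]
  | a, x :: t, φ => ∑ c ∈ range (x + 1), S (a + c) t (fun e => φ ((x - c) :: e))

structure Good (φ : List ℕ → ℕ) : Prop where
  perm : ∀ d d', d.Perm d' → φ d = φ d'
  merge : ∀ x y t, φ ((x + y) :: t) ≤ φ (x :: y :: t)
  zero : ∀ t, φ t ≤ φ (0 :: t)

theorem Good.cons {φ : List ℕ → ℕ} (h : Good φ) (z : ℕ) : Good (fun e => φ (z :: e)) where
  perm d d' p := h.perm _ _ (p.cons z)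
  merge x y t := by
    rw [h.perm _ _ (List.Perm.swap (x + y) z t), h.perm (z :: x :: y :: t) (x :: y :: z :: t)
      (((List.Perm.swap x z _).trans ((List.Perm.swap y z t).cons x)))]
    exact h.merge _ _ _
  zero t := by rw [h.perm _ _ (List.Perm.swap 0 z t)]; exact h.zero _

theorem S_mono (d : List ℕ) : ∀ (a : ℕ) (φ ψ : List ℕ → ℕ), (∀ e, φ e ≤ ψ e) → S a d φ ≤ S a d ψ := by
  induction d with
  | nil => intro a φ ψ h; exact h _
  | cons x t ih => intro a φ ψ h; exact sum_le_sum fun c _ => ih _ _ _ fun e => h _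

theorem S_perm {d d' : List ℕ} (p : d.Perm d') : ∀ (a : ℕ) (φ : List ℕ → ℕ), Good φ →
    S a d φ = S a d' φ := by
  induction p with
  | nil => intros; rfl
  | cons x _ ih => intro a φ h; exact sum_congr rfl fun c _ => ih _ _ (h.cons _)
  | swap x y t =>
    intro a φ h
    simp only [S]
    rw [sum_comm]
    refine sum_congr rfl fun c _ => sum_congr rfl fun c' _ => ?_
    rw [add_right_comm]
    congr 1; funext e; exact h.perm _ _ (List.Perm.swap _ _ _)
  | trans _ _ ih1 ih2 => intro a φ h; rw [ih1 a φ h, ih2 a φ h]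

theorem Good.app {φ : List ℕ → ℕ} (h : Good φ) (a : ℕ) : Good (fun d => S a d φ) where
  perm _ _ p := S_perm p a φ h
  merge x y t := by
    simp only [S]
    rw [← sum_product']
    have hi : Set.InjOn (fun c => (min c x, c - min c x)) (range (x + y + 1) : Finset ℕ) := by
      intro c _ c' _ e
      simp only [Prod.mk.injEq] at e; omega
    refine le_trans ?_ (sum_le_sum_of_subset (s := (range (x + y + 1)).image
      (fun c => (min c x, c - min c x))) ?_)
    · rw [sum_image hi]
      refine sum_le_sum fun c hc => ?_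
      rw [mem_range] at hc
      simp only
      rw [show a + min c x + (c - min c x) = a + c by omega]
      refine S_mono _ _ _ _ fun e => ?_
      rw [show x + y - c = (x - min c x) + (y - (c - min c x)) by omega]
      exact h.merge _ _ _
    · intro p hp
      obtain ⟨c, hc, rfl⟩ := mem_image.1 hp
      simp only [mem_range, mem_product] at hc ⊢; omega
  zero t := by
    simp only [S, zero_add, range_one, sum_singleton, add_zero]
    exact S_mono _ _ _ _ fun e => h.zero _

theorem Good.single {φ : List ℕ → ℕ} (h : Good φ) (t : List ℕ) : ∀ x, φ [x + t.sum] ≤ φ (x :: t) := by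
  induction t with
  | nil => intro x; simp
  | cons y t ih => intro x; rw [List.sum_cons, ← add_assoc]; exact (ih _).trans (h.merge _ _ _)

theorem good_one : Good (fun _ => 1) := ⟨fun _ _ _ => rfl, fun _ _ _ => le_rfl, fun _ => le_rfl⟩

def pr (d : List ℕ) : ℕ := (d.map (· + 1)).prod

theorem S_one (d : List ℕ) : ∀ a, S a d (fun _ => 1) = pr d := by
  induction d with
  | nil => intro a; rfl
  | cons x t ih => intro a; simp [S, ih, pr]

def op (φ : List ℕ → ℕ) : List ℕ → ℕ := fun d => S 1 d φ

theorem op_one : op (fun _ => 1) = pr := funext fun d => S_one d 1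

theorem Good.iter {φ : List ℕ → ℕ} (h : Good φ) (j : ℕ) : Good (op^[j] φ) := by
  induction j with
  | zero => exact h
  | succ j ih => rw [Function.iterate_succ_apply']; exact ih.app 1

def kids : ℕ → List ℕ → List (List ℕ)
  | a, [] => [[a]]
  | a, x :: t => (List.range (x + 1)).flatMap fun c => (kids (a + c) t).map fun e => (x - c) :: e

theorem S_kids (d : List ℕ) : ∀ (a : ℕ) (φ : List ℕ → ℕ), S a d φ = ((kids a d).map φ).sum := by
  induction d with
  | nil => intro a φ; simp [S, kids]
  | cons x t ih =>
    intro a φ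
    simp only [S, kids, ih, List.map_flatMap, List.map_map]
    induction (x + 1) with
    | zero => simp
    | succ m ih2 => rw [sum_range_succ, ih2, List.range_succ]; simp [Function.comp_def]

def ins (e : List ℕ) (w : ℕ) : List (List ℕ × ℕ) → List (List ℕ × ℕ)
  | [] => [(e, w)]
  | p :: L => if p.1 = e then (e, p.2 + w) :: L else p :: ins e w L

def val (φ : List ℕ → ℕ) (L : List (List ℕ × ℕ)) : ℕ := (L.map fun p => p.2 * φ p.1).sum

theorem val_ins (φ : List ℕ → ℕ) (e : List ℕ) (w : ℕ) (L : List (List ℕ × ℕ)) :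
    val φ (ins e w L) = w * φ e + val φ L := by
  induction L with
  | nil => simp [ins, val]
  | cons p L ih =>
    unfold ins
    split_ifs with h
    · simp [val, h]; ring
    · simp only [val, List.map_cons, List.sum_cons] at ih ⊢; rw [ih]; ring

def canon (e : List ℕ) : List ℕ := (e.filter (· ≠ 0)).insertionSort (· ≤ ·)

theorem Good.canon {φ : List ℕ → ℕ} (h : Good φ) (e : List ℕ) : φ (canon e) ≤ φ e := by
  rw [Ts.canon, h.perm _ _ (List.perm_insertionSort _ _)]
  induction e generalizing φ with
  | nil => simp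
  | cons x t ih =>
    by_cases hx : x = 0
    · subst hx; simpa using (ih h).trans (h.zero t)
    · simpa [hx] using ih (h.cons x)

def step (L : List (List ℕ × ℕ)) : List (List ℕ × ℕ) :=
  L.foldr (fun p acc => (kids 1 p.1).foldr (fun e acc' => ins (canon e) p.2 acc') acc) []

theorem val_step {φ : List ℕ → ℕ} (h : Good φ) (L : List (List ℕ × ℕ)) :
    val φ (step L) ≤ val (op φ) L := by
  induction L with
  | nil => simp [step, val]
  | cons p L ih =>
    have : ∀ (K : List (List ℕ)) acc, val φ (K.foldr (fun e acc' => ins (canon e) p.2 acc') acc) ≤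
        p.2 * (K.map φ).sum + val φ acc := by
      intro K acc
      induction K with
      | nil => simp
      | cons e K ih =>
        rw [List.foldr_cons, val_ins, List.map_cons, List.sum_cons, mul_add]
        have := Nat.mul_le_mul_left p.2 (h.canon e)
        omega
    refine (this _ _).trans ?_
    rw [← S_kids]
    exact Nat.add_le_add_left ih _

theorem val_iter {φ : List ℕ → ℕ} (h : Good φ) (j : ℕ) (d : List ℕ) :
    val φ (step^[j] [(d, 1)]) ≤ op^[j] φ d := by
  induction j generalizing φ with
  | zero => simp [val]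
  | succ j ih =>
    rw [Function.iterate_succ_apply', Function.iterate_succ_apply]
    exact (val_step h _).trans (ih (h.app 1))

theorem low (j : ℕ) (d : List ℕ) : val pr (step^[j] [(d, 1)]) ≤ op^[j + 1] (fun _ => 1) d := by
  rw [Function.iterate_succ_apply, op_one]
  exact val_iter (op_one ▸ good_one.app 1) j d

theorem G2 (k : ℕ) : 6 * op^[2] (fun _ => 1) [k] = (k + 1) * (k + 2) * (k + 6) := by
  have : ∀ m ≤ k + 1, 6 * ∑ c ∈ range m, (k - c + 1) * (1 + c + 1) + m * m * (2 * m + 3) =
      3 * (k + 1) * m * (m + 3) + 5 * m := by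
    intro m hm
    induction m with
    | zero => simp
    | succ m ih =>
      have := ih (by omega)
      obtain ⟨r, rfl⟩ : ∃ r, k = m + r := ⟨k - m, by omega⟩
      rw [sum_range_succ, Nat.add_sub_cancel_left]
      nlinarith
  have h := this (k + 1) le_rfl
  rw [Function.iterate_succ_apply, op_one]
  simp only [Function.iterate_one, op, S, pr, List.map_cons, List.map_nil, List.prod_cons,
    List.prod_nil, mul_one]
  nlinarith

theorem T10 : 6499477726 ≤ op^[9] (fun _ => 1) [1] := le_trans (by decide +kernel) (low 8 [1])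

theorem S_pi (n : ℕ) : ∀ (d : Fin n → ℕ) (a : ℕ) (φ : List ℕ → ℕ),
    ∑ c ∈ Fintype.piFinset (fun i => range (d i + 1)),
      φ (List.ofFn (fun i => d i - c i) ++ [a + ∑ i, c i]) = S a (List.ofFn d) φ := by
  induction n with
  | zero => intro d a φ; simp [S]
  | succ n ih =>
    intro d a φ
    rw [List.ofFn_succ, S]
    simp only [← ih]
    rw [← sum_product']
    refine sum_nbij' (fun c => (c 0, Fin.tail c)) (fun p => Fin.cons p.1 p.2) ?_ ?_ ?_ ?_ ?_
    · intro c hc
      simp only [Fintype.mem_piFinset, mem_product] at hc ⊢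
      exact ⟨hc 0, fun i => hc i.succ⟩
    · intro p hp
      simp only [Fintype.mem_piFinset, mem_product] at hp ⊢
      intro i; refine Fin.cases hp.1 (fun i => hp.2 i) i
    · intro c _; simp
    · intro p _; simp
    · intro c _
      simp [List.ofFn_succ, Fin.sum_univ_succ, Fin.tail, add_assoc]

end Pool.Agent.H14.Ts
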