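import Mathlib

namespace Pool.Agent.H14.Wr
open Finsupp

/-- the shift action of A on finitely supported functions A to R -/
noncomputable def act (R A : Type) [AddCommGroup R] [AddCommGroup A] :
    Multiplicative A →* MulAut (Multiplicative (A →₀ R)) where
  toFun b := AddEquiv.toMultiplicative (Finsupp.domCongr (Equiv.addRight b.toAdd))
  map_one' := by
    ext f a
    change f.toAdd (a + -0) = f.toAdd a
    rw [neg_zero, add_zero]
  map_mul' b c := by
    ext f a
    change f.toAdd (a + -(b.toAdd + c.toAdd)) = f.toAdd (a + -b.toAdd + -c.toAdd)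
    rw [neg_add, add_assoc]

/-- the restricted wreath product of R by A -/
abbrev W (R A : Type) [AddCommGroup R] [AddCommGroup A] : Type :=
  Multiplicative (A →₀ R) ⋊[act R A] Multiplicative A

variable {R A R' A' : Type} [AddCommGroup R] [AddCommGroup A] [AddCommGroup R'] [AddCommGroup A']

lemma act_apply (b : Multiplicative A) (f : Multiplicative (A →₀ R)) :
    (act R A b f).toAdd = mapDomain (· + b.toAdd) f.toAdd := by
  change equivMapDomain (Equiv.addRight b.toAdd) f.toAdd = _
  rw [equivMapDomain_eq_mapDomain]; rfl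

lemma F_mul (x y : W R A) : (x * y).left.toAdd =
    x.left.toAdd + mapDomain (· + x.right.toAdd) y.left.toAdd := by
  rw [SemidirectProduct.mul_left, toAdd_mul, act_apply]

lemma conj_iff (x y : W R A) : IsConj x y ↔ x.right.toAdd = y.right.toAdd ∧ ∃ (h : A →₀ R) (t : A),
    h + mapDomain (· + t) x.left.toAdd = y.left.toAdd + mapDomain (· + y.right.toAdd) h := by
  rw [isConj_iff]
  constructor
  · rintro ⟨c, hc⟩
    have e : c * x = y * c := by rw [← hc]; group
    refine ⟨?_, c.left.toAdd, c.right.toAdd, ?_⟩
    · have := congrArg (fun z : W R A => z.right.toAdd) e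
      simp only [SemidirectProduct.mul_right, toAdd_mul] at this
      rw [add_comm] at this
      exact add_right_cancel this
    · rw [← F_mul, ← F_mul, e]
  · rintro ⟨e, h, t, ht⟩
    refine ⟨⟨Multiplicative.ofAdd h, Multiplicative.ofAdd t⟩, ?_⟩
    rw [mul_inv_eq_iff_eq_mul]
    apply SemidirectProduct.ext
    · apply Multiplicative.toAdd.injective
      rw [F_mul, F_mul]; exact ht
    · apply Multiplicative.toAdd.injective
      simp only [SemidirectProduct.mul_right, toAdd_mul, e]
      rw [add_comm]

/-- the induced homomorphism of wreath products -/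
noncomputable def pi (ρ : R →+ R') (p : A →+ A') : W R A →* W R' A' :=
  SemidirectProduct.map
    (AddMonoidHom.toMultiplicative ((mapRange.addMonoidHom ρ).comp (mapDomain.addMonoidHom p)))
    (AddMonoidHom.toMultiplicative p) (by
      intro g
      apply MonoidHom.ext
      intro f
      apply Multiplicative.toAdd.injective
      change mapRange ρ ρ.map_zero (mapDomain p (act R A g f).toAdd) =
        (act R' A' _ _).toAdd
      rw [act_apply, act_apply]
      change _ = mapDomain (· + p g.toAdd) (mapRange ρ ρ.map_zero (mapDomain p f.toAdd))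
      rw [mapDomain_mapRange _ _ _ _ ρ.map_add, ← mapDomain_comp, ← mapDomain_comp]
      congr 2
      funext a; simp)

lemma pi_left (ρ : R →+ R') (p : A →+ A') (x : W R A) :
    (pi ρ p x).left.toAdd = mapRange ρ ρ.map_zero (mapDomain p x.left.toAdd) := rfl

lemma pi_right (ρ : R →+ R') (p : A →+ A') (x : W R A) :
    (pi ρ p x).right.toAdd = p x.right.toAdd := rfl

lemma ker_cob (b : A) (u : A →₀ R)
    (hu : mapDomain (QuotientAddGroup.mk : A → A ⧸ AddSubgroup.zmultiples b) u = 0) :
    ∃ h : A →₀ R, u = mapDomain (· + b) h - h := by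
  let I : AddSubgroup (A →₀ R) :=
    ((mapDomain.addMonoidHom (M := R) (· + b)) - AddMonoidHom.id _).range
  have h1 : ∀ (r : R) (s : ℤ) (a : A), single (a + s • b) r - single a r ∈ I := by
    intro r s
    have one : ∀ a : A, single (a + b) r - single a r ∈ I := fun a =>
      ⟨single a r, by simp [mapDomain.addMonoidHom]⟩
    induction s using Int.induction_on with
    | zero => simp
    | succ n ih =>
      intro a
      have := add_mem (one (a + (n : ℤ) • b)) (ih a)
      rw [add_smul, one_smul, ← add_assoc]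
      simpa using this
    | pred n ih =>
      intro a
      have := sub_mem (ih a) (one (a + (-(n : ℤ) - 1) • b))
      have e : a + (-(n : ℤ) - 1) • b + b = a + (-(n : ℤ)) • b := by
        rw [sub_smul, one_smul]; abel
      rw [e] at this
      convert this using 1
      abel
  have h2 : ∀ v : A →₀ R, mapDomain (Quotient.out ∘
      (QuotientAddGroup.mk : A → A ⧸ AddSubgroup.zmultiples b)) v - v ∈ I := by
    intro v
    induction v using Finsupp.induction_linear with
    | zero => simp
    | add f g hf hg =>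
      rw [mapDomain_add]
      convert add_mem hf hg using 1
      abel
    | single a r =>
      rw [mapDomain_single]
      obtain ⟨⟨_, s, rfl⟩, hs⟩ := QuotientAddGroup.mk_out_eq_add (AddSubgroup.zmultiples b) a
      simp only [Function.comp]
      rw [hs]
      exact h1 r s a
  have h3 := h2 u
  rw [mapDomain_comp, hu, mapDomain_zero, zero_sub, neg_mem_iff] at h3
  obtain ⟨h, hh⟩ := h3
  exact ⟨h, hh.symm⟩

lemma lattice {k : ℕ} (m : ℤ) (b : Fin k → ℤ) (hb : ∀ i, |b i| ≤ m) (hm : 0 ≤ m) :
    ∃ L : AddSubgroup (Fin k → ℤ), b ∈ L ∧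
      (∀ x, ∃ y : Fin k → ℤ, (∀ i, 0 ≤ y i ∧ y i < 12 * m + 1) ∧ x - y ∈ L) ∧
      ∀ x ∈ L, (∀ i, |x i| ≤ 6 * m) → x ∈ AddSubgroup.zmultiples b := by
  have hM : (0 : ℤ) < 12 * m + 1 := by omega
  by_cases h0 : b = 0
  · refine ⟨AddSubgroup.pi Set.univ fun _ => AddSubgroup.zmultiples (12 * m + 1), ?_, ?_, ?_⟩
    · rw [h0]; exact zero_mem _
    · intro x
      refine ⟨fun i => x i % (12 * m + 1), fun i =>
        ⟨Int.emod_nonneg _ hM.ne', Int.emod_lt_of_pos _ hM⟩, fun i _ => ?_⟩
      exact Int.mem_zmultiples_iff.2 Int.dvd_self_sub_emod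
    · intro x hx h
      have : x = 0 := by
        funext i
        exact Int.eq_zero_of_abs_lt_dvd (Int.mem_zmultiples_iff.1 (hx i trivial))
          (by have := h i; omega)
      rw [this]; exact zero_mem _
  · obtain ⟨i0, hi0⟩ := Function.ne_iff.1 h0
    obtain ⟨j, -, hj⟩ := Finset.exists_max_image Finset.univ (fun i => |b i|) ⟨i0, by simp⟩
    have hj0 : b j ≠ 0 := by
      intro e
      have := hj i0 (by simp)
      rw [e] at this
      exact hi0 (by simpa using this)
    refine ⟨{ carrier := {x | ∃ s : ℤ, x j = s * b j ∧ ∀ i, (12 * m + 1) ∣ x i - s * b i}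
              zero_mem' := ⟨0, by simp⟩
              add_mem' := ?_
              neg_mem' := ?_ }, ⟨1, by simp⟩, ?_, ?_⟩
    · rintro x y ⟨s, h1, h2⟩ ⟨t, h3, h4⟩
      refine ⟨s + t, by simp [h1, h3, add_mul], fun i => ?_⟩
      have e : (x + y) i - (s + t) * b i = x i - s * b i + (y i - t * b i) := by
        rw [Pi.add_apply]; ring
      rw [e]; exact dvd_add (h2 i) (h4 i)
    · rintro x ⟨s, h1, h2⟩
      refine ⟨-s, by simp [h1], fun i => ?_⟩
      have e : (-x) i - (-s) * b i = -(x i - s * b i) := by
        rw [Pi.neg_apply]; ring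
      rw [e]; exact (h2 i).neg_right
    · intro x
      refine ⟨fun i => (x i - x j / b j * b i) % (12 * m + 1), fun i =>
        ⟨Int.emod_nonneg _ hM.ne', Int.emod_lt_of_pos _ hM⟩, x j / b j, ?_, fun i => ?_⟩
      · have e : x j - x j / b j * b j = x j % b j := by
          rw [Int.emod_def]; ring
        have h1 := Int.emod_nonneg (x j) hj0
        have h2 := Int.emod_lt_abs (x j) hj0
        have h3 := hb j
        simp only [Pi.sub_apply]
        rw [e, Int.emod_eq_of_lt h1 (by omega), ← e]; ring
      · have := Int.dvd_self_sub_emod (x := x i - x j / b j * b i) (m := 12 * m + 1)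
        convert this using 1
        simp; ring
    · rintro x ⟨s, h1, h2⟩ h
      refine ⟨s, ?_⟩
      funext i
      have a1 : |s * b i| ≤ 6 * m := by
        calc |s * b i| = |s| * |b i| := abs_mul _ _
          _ ≤ |s| * |b j| := mul_le_mul_of_nonneg_left (hj i (by simp)) (abs_nonneg _)
          _ = |x j| := by rw [h1, abs_mul]
          _ ≤ _ := h j
      have a2 := h i
      have := Int.eq_zero_of_abs_lt_dvd (h2 i) (by
        have := abs_sub (x i) (s * b i)
        omega)
      simp only [Pi.smul_apply, smul_eq_mul]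
      omega

lemma card_quot {k : ℕ} (M : ℕ) (L : AddSubgroup (Fin k → ℤ))
    (h : ∀ x, ∃ y : Fin k → ℤ, (∀ i, 0 ≤ y i ∧ y i < M) ∧ x - y ∈ L) :
    Finite ((Fin k → ℤ) ⧸ L) ∧ Nat.card ((Fin k → ℤ) ⧸ L) ≤ M ^ k := by
  have hs : Function.Surjective
      (fun y : Fin k → Fin M => (QuotientAddGroup.mk (fun i => ((y i : ℕ) : ℤ)) : (Fin k → ℤ) ⧸ L)) := by
    intro q
    induction q using QuotientAddGroup.induction_on with
    | H x =>
      obtain ⟨y, h1, h2⟩ := h x
      refine ⟨fun i => ⟨(y i).toNat, by have := h1 i; omega⟩, ?_⟩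
      have : (fun i => (((y i).toNat : ℕ) : ℤ)) = y := by
        funext i; have := h1 i; omega
      simp only [this]
      rw [QuotientAddGroup.eq, neg_add_eq_sub]
      exact h2
  refine ⟨Finite.of_surjective _ hs, ?_⟩
  have := Nat.card_le_card_of_surjective _ hs
  simpa using this

end Pool.Agent.H14.Wr
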