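import Pool.Agent.H14.Wr1

namespace Pool.Agent.H14.Wr
open Finsupp

variable {R R' : Type} [AddCommGroup R] [AddCommGroup R'] {k : ℕ}

/-- size bound for an element of the wreath product -/
def P (ν : R → ℕ) (m : ℕ) (x : W R (Fin k → ℤ)) : Prop :=
  (∀ i, |x.right.toAdd i| ≤ m) ∧ (∀ a ∈ x.left.toAdd.support, ∀ i, |a i| ≤ m) ∧
    ∀ (T : Type) (φ : (Fin k → ℤ) → T) (z : T), ν (mapDomain φ x.left.toAdd z) ≤ m

lemma P.mono {ν : R → ℕ} {m n : ℕ} {x : W R (Fin k → ℤ)} (h : P ν m x) (hmn : m ≤ n) :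
    P ν n x :=
  ⟨fun i => (h.1 i).trans (by exact_mod_cast hmn),
    fun a ha i => (h.2.1 a ha i).trans (by exact_mod_cast hmn),
    fun T φ z => (h.2.2 T φ z).trans hmn⟩

lemma P.mul {ν : R → ℕ} (hν : ∀ r s, ν (r + s) ≤ ν r + ν s) {m n : ℕ} {x y : W R (Fin k → ℤ)}
    (hx : P ν m x) (hy : P ν n y) : P ν (m + n) (x * y) := by
  classical
  refine ⟨fun i => ?_, fun a ha i => ?_, fun T φ z => ?_⟩
  · have := abs_add_le (x.right.toAdd i) (y.right.toAdd i)
    have h1 := hx.1 i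
    have h2 := hy.1 i
    simp only [SemidirectProduct.mul_right, toAdd_mul, Pi.add_apply]
    push_cast; omega
  · rw [F_mul] at ha
    rcases Finset.mem_union.1 (support_add ha) with h | h
    · have := hx.2.1 a h i
      push_cast; omega
    · obtain ⟨c, hc, rfl⟩ := Finset.mem_image.1 (mapDomain_support h)
      have := abs_add_le (c i) (x.right.toAdd i)
      have h1 := hx.1 i
      have h2 := hy.2.1 c hc i
      simp only [Pi.add_apply]
      push_cast; omega
  · rw [F_mul, mapDomain_add, ← mapDomain_comp, Finsupp.add_apply]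
    exact (hν _ _).trans (add_le_add (hx.2.2 _ _ _) (hy.2.2 _ _ _))

lemma P_one {ν : R → ℕ} (h0 : ν 0 = 0) : P ν 0 (1 : W R (Fin k → ℤ)) :=
  ⟨fun i => by simp, fun a ha => by simp at ha, fun T φ z => by simp [h0]⟩

lemma exists_P {ν : R → ℕ} (hν : ∀ r s, ν (r + s) ≤ ν r + ν s) (h0 : ν 0 = 0)
    (x : W R (Fin k → ℤ)) : ∃ m, P ν m x := by
  classical
  have h1 : ∀ a : Fin k → ℤ, ∀ i, |a i| ≤ ((∑ j, (a j).natAbs : ℕ) : ℤ) := by
    intro a i
    have := Finset.single_le_sum (f := fun j => (a j).natAbs) (fun _ _ => Nat.zero_le _)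
      (Finset.mem_univ i)
    rw [Int.abs_eq_natAbs]; exact_mod_cast this
  have h2 : ∀ f : (Fin k → ℤ) →₀ R, ∃ m : ℕ,
      ∀ (T : Type) (φ : (Fin k → ℤ) → T) (z : T), ν (mapDomain φ f z) ≤ m := by
    intro f
    induction f using Finsupp.induction_linear with
    | zero => exact ⟨0, fun T φ z => by simp [h0]⟩
    | add f g hf hg =>
      obtain ⟨m, hm⟩ := hf
      obtain ⟨n, hn⟩ := hg
      refine ⟨m + n, fun T φ z => ?_⟩
      rw [mapDomain_add, Finsupp.add_apply]
      exact (hν _ _).trans (add_le_add (hm _ _ _) (hn _ _ _))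
    | single a r =>
      refine ⟨ν r, fun T φ z => ?_⟩
      rw [mapDomain_single, single_apply]
      split_ifs
      · exact le_rfl
      · omega
  obtain ⟨m, hm⟩ := h2 x.left.toAdd
  refine ⟨m + ∑ j, (x.right.toAdd j).natAbs + ∑ a ∈ x.left.toAdd.support, ∑ j, (a j).natAbs,
    fun i => ?_, fun a ha i => ?_, fun T φ z => ?_⟩
  · have := h1 x.right.toAdd i
    omega
  · have := h1 a i
    have h3 := Finset.single_le_sum (f := fun a : Fin k → ℤ => ∑ j, (a j).natAbs)
      (fun _ _ => Nat.zero_le _) ha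
    omega
  · have := hm T φ z
    omega

lemma exists_K {ν : R → ℕ} (hν : ∀ r s, ν (r + s) ≤ ν r + ν s) (h0 : ν 0 = 0)
    (S : Finset (W R (Fin k → ℤ))) : ∃ K, 1 ≤ K ∧ ∀ l : List (W R (Fin k → ℤ)),
      (∀ s ∈ l, s ∈ S ∨ s⁻¹ ∈ S) → P ν (K * l.length) l.prod := by
  choose m hm using exists_P (k := k) hν h0
  refine ⟨1 + ∑ s ∈ S, (m s + m s⁻¹), by omega, fun l hl => ?_⟩
  induction l with
  | nil => simpa using P_one h0
  | cons s l ih =>
    rw [List.prod_cons, List.length_cons, mul_add, mul_one, add_comm]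
    refine P.mul hν ((hm s).mono ?_) (ih fun t ht => hl t (by simp [ht]))
    rcases hl s (by simp) with h | h
    · have := Finset.single_le_sum (f := fun s => m s + m s⁻¹) (fun _ _ => Nat.zero_le _) h
      omega
    · have := Finset.single_le_sum (f := fun s => m s + m s⁻¹) (fun _ _ => Nat.zero_le _) h
      simp only [inv_inv] at this
      omega

lemma sep {ν : R → ℕ} (ρ : R →+ R') (m : ℕ)
    (hρ : ∀ v w, ν v ≤ m → ν w ≤ m → ρ v = ρ w → v = w) (h0 : ν 0 = 0)
    {x y : W R (Fin k → ℤ)} (hx : P ν m x) (hy : P ν m y) (hb : x.right.toAdd = y.right.toAdd)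
    (L : AddSubgroup (Fin k → ℤ)) (hL : y.right.toAdd ∈ L)
    (hs : ∀ z ∈ L, (∀ i, |z i| ≤ 6 * (m : ℤ)) → z ∈ AddSubgroup.zmultiples y.right.toAdd)
    (hc : IsConj (pi ρ (QuotientAddGroup.mk' L) x) (pi ρ (QuotientAddGroup.mk' L) y)) :
    IsConj x y := by
  classical
  obtain ⟨-, h, t, ht⟩ := (conj_iff _ _).1 hc
  have e0 : (pi ρ (QuotientAddGroup.mk' L) y).right.toAdd = 0 := by
    rw [pi_right]; exact (QuotientAddGroup.eq_zero_iff _).2 hL
  rw [e0, pi_left, pi_left] at ht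
  simp only [add_zero] at ht
  rw [show (fun z : (Fin k → ℤ) ⧸ L => z) = id from rfl, mapDomain_id, add_comm] at ht
  have ht := add_right_cancel ht
  set f := x.left.toAdd
  set g := y.left.toAdd
  set b := y.right.toAdd
  set p := QuotientAddGroup.mk' L
  rw [mapDomain_mapRange _ _ _ _ ρ.map_add, ← mapDomain_comp] at ht
  have ht' : mapDomain ((· + t) ∘ p) f = mapDomain p g := by
    ext z
    exact hρ _ _ (hx.2.2 _ _ _) (hy.2.2 _ _ _) (by simpa using DFunLike.congr_fun ht z)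
  obtain ⟨s, hs1, hs2⟩ : ∃ s : Fin k → ℤ, (∀ i, |s i| ≤ 2 * (m : ℤ)) ∧
      mapDomain p (mapDomain (· + s) f) = mapDomain p g := by
    by_cases hg : mapDomain p g = 0
    · refine ⟨0, fun i => by simp, ?_⟩
      rw [hg] at ht' ⊢
      rw [mapDomain_comp] at ht'
      have := mapDomain_injective (M := R) (add_left_injective t)
        (ht'.trans mapDomain_zero.symm)
      rw [← mapDomain_comp, ← this]; congr 1; funext a; simp
    · obtain ⟨z, hz⟩ := Finsupp.support_nonempty_iff.2 hg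
      obtain ⟨a', ha', e1⟩ := Finset.mem_image.1 (mapDomain_support hz)
      rw [← ht'] at hz
      obtain ⟨a, ha, e2⟩ := Finset.mem_image.1 (mapDomain_support hz)
      refine ⟨a' - a, fun i => ?_, ?_⟩
      · have := abs_sub (a' i) (a i)
        have h1 := hx.2.1 a ha i
        have h2 := hy.2.1 a' ha' i
        simp only [Pi.sub_apply]
        omega
      · rw [← ht', ← mapDomain_comp]; congr 1; funext c
        simp only [Function.comp, map_add, map_sub] at e2 ⊢
        rw [e1, ← e2]; abel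
  set u := g - mapDomain (· + s) f with hu
  have hsup : ∀ a ∈ u.support, ∀ i, |a i| ≤ 3 * (m : ℤ) := by
    intro a ha i
    rcases Finset.mem_union.1 (support_sub ha) with h | h
    · have := hy.2.1 a h i
      omega
    · obtain ⟨c, hc, rfl⟩ := Finset.mem_image.1 (mapDomain_support h)
      have := abs_add_le (c i) (s i)
      have h1 := hx.2.1 c hc i
      have h2 := hs1 i
      simp only [Pi.add_apply]
      omega
  have hu0 : mapDomain p u = 0 := by
    have := (mapDomain.addMonoidHom (M := R) p).map_sub g (mapDomain (· + s) f)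
    rw [hu]
    refine this.trans ?_
    change mapDomain p g - mapDomain p (mapDomain (· + s) f) = 0
    rw [hs2, sub_self]
  let q : (Fin k → ℤ) ⧸ AddSubgroup.zmultiples b →+ (Fin k → ℤ) ⧸ L :=
    QuotientAddGroup.map _ _ (AddMonoidHom.id _) (by
      rw [AddSubgroup.zmultiples_le]; exact hL)
  have hq : (p : (Fin k → ℤ) → _) = q ∘ QuotientAddGroup.mk := rfl
  have h1 : mapDomain (QuotientAddGroup.mk : _ → (Fin k → ℤ) ⧸ AddSubgroup.zmultiples b) u = 0 := by
    ext z
    by_contra hz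
    have hz' := mem_support_iff.2 hz
    have := mapDomain_apply' (f := q) _ (mapDomain (QuotientAddGroup.mk :
        _ → (Fin k → ℤ) ⧸ AddSubgroup.zmultiples b) u) subset_rfl ?_ (Finset.mem_coe.2 hz')
    · rw [← mapDomain_comp, ← hq, hu0] at this
      exact hz this.symm
    · intro v hv w hw e
      obtain ⟨a, ha, rfl⟩ := Finset.mem_image.1 (mapDomain_support (Finset.mem_coe.1 hv))
      obtain ⟨c, hc, rfl⟩ := Finset.mem_image.1 (mapDomain_support (Finset.mem_coe.1 hw))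
      have e' : -a + c ∈ L := QuotientAddGroup.eq.1 e
      refine QuotientAddGroup.eq.2 (hs _ e' fun i => ?_)
      have := abs_add_le (-a i) (c i)
      have h1 := hsup a ha i
      have h2 := hsup c hc i
      rw [abs_neg] at this
      simp only [Pi.add_apply, Pi.neg_apply]
      omega
  obtain ⟨w, hw⟩ := ker_cob b u h1
  refine (conj_iff _ _).2 ⟨hb, -w, s, ?_⟩
  have := (mapDomain.addMonoidHom (M := R) (· + b)).map_neg w
  change mapDomain (· + b) (-w) = -mapDomain (· + b) w at this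
  change -w + mapDomain (· + s) f = g + mapDomain (· + b) (-w)
  rw [this, eq_add_of_sub_eq (hu.symm.trans hw)]
  abel

lemma fin_sep {G Q : Type} [Group G] [Group Q] [Finite Q] (π : G →* Q) (x y : G)
    (h : ¬ IsConj (π x) (π y)) : ∃ (N : Subgroup G) (_ : N.Normal), N.index ≠ 0 ∧
      N.index ≤ Nat.card Q ∧ ¬ IsConj (x : G ⧸ N) (y : G ⧸ N) := by
  refine ⟨π.ker, inferInstance, ?_, ?_, fun hc => h ?_⟩
  · rw [Subgroup.index_ker]; exact Nat.card_pos.ne'
  · rw [Subgroup.index_ker]; exact Subgroup.card_le_card_group _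
  · have := (QuotientGroup.kerLift π).map_isConj hc
    rwa [QuotientGroup.kerLift_mk, QuotientGroup.kerLift_mk] at this

theorem core [Finite R'] {ν : R → ℕ} (ρ : R →+ R') (m : ℕ)
    (hρ : ∀ v w, ν v ≤ m → ν w ≤ m → ρ v = ρ w → v = w) (h0 : ν 0 = 0)
    {x y : W R (Fin k → ℤ)} (hx : P ν m x) (hy : P ν m y) (hn : ¬ IsConj x y) :
    ∃ (N : Subgroup (W R (Fin k → ℤ))) (_ : N.Normal), N.index ≠ 0 ∧
      N.index ≤ 2 ^ ((Nat.card R' + 1) * (12 * m + 1) ^ k) ∧
      ¬ IsConj (x : W R (Fin k → ℤ) ⧸ N) (y : W R (Fin k → ℤ) ⧸ N) := by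
  obtain ⟨L, hcov, hL⟩ : ∃ L : AddSubgroup (Fin k → ℤ),
      (∀ x, ∃ y : Fin k → ℤ, (∀ i, 0 ≤ y i ∧ y i < 12 * (m : ℤ) + 1) ∧ x - y ∈ L) ∧
      ¬ IsConj (pi ρ (QuotientAddGroup.mk' L) x) (pi ρ (QuotientAddGroup.mk' L) y) := by
    by_cases hb : x.right.toAdd = y.right.toAdd
    · obtain ⟨L, h1, h2, h3⟩ := lattice (m : ℤ) y.right.toAdd hy.1 (by omega)
      exact ⟨L, h2, fun hc => hn (sep ρ m hρ h0 hx hy hb L h1 h3 hc)⟩
    · obtain ⟨L, h1, h2, h3⟩ := lattice (k := k) (m : ℤ) 0 (by simp) (by omega)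
      refine ⟨L, h2, fun hc => hb ?_⟩
      have e : -x.right.toAdd + y.right.toAdd ∈ L := QuotientAddGroup.eq.1 ((conj_iff _ _).1 hc).1
      have := h3 _ e fun i => by
        have := abs_add_le (-x.right.toAdd i) (y.right.toAdd i)
        have h1 := hx.1 i
        have h2 := hy.1 i
        rw [abs_neg] at this
        simp only [Pi.add_apply, Pi.neg_apply]
        omega
      rw [AddSubgroup.zmultiples_zero_eq_bot, AddSubgroup.mem_bot] at this
      exact neg_add_eq_zero.1 this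
  obtain ⟨hfin, hcard⟩ := card_quot (12 * m + 1) L (by exact_mod_cast hcov)
  have hF0 : Finite (((Fin k → ℤ) ⧸ L) →₀ R') :=
    Finite.of_equiv _ Finsupp.equivFunOnFinite.symm
  have hF : Finite (W R' ((Fin k → ℤ) ⧸ L)) :=
    Finite.of_equiv _ SemidirectProduct.equivProd.symm
  obtain ⟨N, hN, a1, a2, a3⟩ := fin_sep _ x y hL
  refine ⟨N, hN, a1, a2.trans ?_, a3⟩
  rw [SemidirectProduct.card]
  have e1 : Nat.card (Multiplicative (((Fin k → ℤ) ⧸ L) →₀ R')) =
      Nat.card R' ^ Nat.card ((Fin k → ℤ) ⧸ L) := by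
    rw [← Nat.card_fun]; exact Nat.card_congr Finsupp.equivFunOnFinite
  have e2 : Nat.card (Multiplicative ((Fin k → ℤ) ⧸ L)) = Nat.card ((Fin k → ℤ) ⧸ L) := rfl
  rw [e1, e2]
  set c := Nat.card ((Fin k → ℤ) ⧸ L)
  calc Nat.card R' ^ c * c ≤ (2 ^ Nat.card R') ^ c * 2 ^ c :=
        Nat.mul_le_mul (Nat.pow_le_pow_left Nat.lt_two_pow_self.le _) Nat.lt_two_pow_self.le
    _ = 2 ^ ((Nat.card R' + 1) * c) := by rw [← pow_mul, ← pow_add, add_mul, one_mul]
    _ ≤ _ := Nat.pow_le_pow_right (by norm_num) (Nat.mul_le_mul_left _ hcard)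

end Pool.Agent.H14.Wr
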