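import Pool.Agent.H14.Zs4

set_option autoImplicit false
set_option linter.unusedSectionVars false

namespace Pool.Agent.H14.Zr

open Finset Pool.Agent.H14.Zs
open scoped Classical

def Z {V X R : Type} [Fintype V] [AddCommMonoid R] (G : SimpleGraph V) (f : Sym2 X → R) : Prop :=
  ∃ φ : V ↪ X, ∑ e ∈ G.edgeFinset, f (e.map φ) = 0

variable {R : Type} [CommRing R] [Fintype R] [DecidableEq R] {k : ℕ} [NeZero k] [CharP R k]

lemma hk (x : R) : k • x = 0 := by simp

lemma fin {V : Type} [Fintype V] {G : SimpleGraph V} (he : k ∣ G.edgeFinset.card)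
    (F : Sym2 V → R) (a : R) :
    ∑ e ∈ G.edgeFinset, (F e - a) = ∑ e ∈ G.edgeFinset, F e := by
  obtain ⟨c, hc⟩ := he
  simp [sum_sub_distrib, hc]

abbrev IH (H : AddSubgroup R) := {H' : AddSubgroup R // H' < H} × R

noncomputable instance : Fintype (AddSubgroup R) := Fintype.ofFinite _

abbrev J (R : Type) [CommRing R] := AddSubgroup R × R

def ι {H : AddSubgroup R} (i : IH H) : J R := (i.1.1, i.2)

lemma ι_inj {H : AddSubgroup R} : Function.Injective (ι (H := H)) := fun _ _ e =>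
  Prod.ext (Subtype.ext (Prod.mk.inj e).1) (Prod.mk.inj e).2

lemma hK (H H' : AddSubgroup R) (h : H' < H) :
    Fintype.card R ≤ (univ.filter fun i : IH H => i.1.1 = H').card := by
  simpa using card_le_card_of_injOn (s := univ) (t := univ.filter fun i : IH H => i.1.1 = H')
    (fun j : R => (⟨H', h⟩, j)) (fun j _ => by simp) fun a _ b _ e => (Prod.mk.inj e).2

lemma caseA (R : Type) [CommRing R] [Fintype R] [DecidableEq R] (k : ℕ) [NeZero k] [CharP R k]
    (s : ℕ) : ∃ c, ∀ (V X : Type) [Fintype V] [Fintype X]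
    (G : SimpleGraph V) (f : Sym2 X → R) (S : Finset V), S.card ≤ s →
    (∀ u v, G.Adj u v → u ∈ S ∨ v ∈ S) → k ∣ G.edgeFinset.card →
    Fintype.card V + c ≤ Fintype.card X → Z G f := by
  have hk0 := NeZero.pos k
  obtain ⟨N, hN⟩ := ramsey _ (fun _ : R => s + 2 * k * 2 ^ s) rfl
  refine ⟨N + 2 * k * Fintype.card R ^ s + (s + 2 * k * 2 ^ s) + 1, fun V X _ _ G f S h1 h2 h3 h4 => ?_⟩
  have : Nonempty X := Fintype.card_pos_iff.1 (by omega)
  obtain ⟨a, T, -, t2, t3⟩ := hN X f univ (by rw [card_univ]; omega)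
  obtain ⟨e, e1, e2⟩ := bij S T (by omega)
  let τ : V → S → Bool := fun v x => decide (G.Adj x v)
  let κ : X → S → R := fun x t => f s(e t, x)
  obtain ⟨φ, p1, p2, -, p4⟩ := PP (2 * k) (by omega) τ κ (fun _ => a) (T \ S.image e) (by
      have := le_card_sdiff (S.image e) T
      have := card_image_le (s := S) (f := e)
      have := Nat.mul_le_mul_left (2 * k) (Nat.pow_le_pow_right two_pos h1)
      simp only [Fintype.card_fun, Fintype.card_bool, Fintype.card_coe]
      omega)
    (fun x hx => funext fun t => t3 _ (e2 _ t.2) _ (mem_sdiff.1 hx).1 fun h =>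
      (mem_sdiff.1 hx).2 (h ▸ mem_image_of_mem _ t.2))
    e _ Sᶜ Tᶜ ∅ rfl (by simp) (by simp) (by simp)
    (disjoint_of_subset_right sdiff_subset disjoint_compl_left) (by
      have := card_le_univ Sᶜ
      have := Nat.mul_le_mul_left (2 * k) (Nat.pow_le_pow_right (Fintype.card_pos (α := R)) h1)
      simp only [Fintype.card_fun, Fintype.card_coe, card_compl T]
      omega) (by simp)
  have q : ∀ v ∉ S, ∀ u ∈ S, e u ≠ φ v := fun v hv u hu hh => by
    rcases mem_union.1 (p2 v (mem_compl.2 hv)) with h | h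
    exacts [mem_compl.1 h (hh ▸ e2 u hu), (mem_sdiff.1 h).2 (hh ▸ mem_image_of_mem _ hu)]
  let ψ : V → X := fun v => if v ∈ S then e v else φ v
  have a1 : ∀ v ∈ S, ψ v = e v := fun v hv => if_pos hv
  have a2 : ∀ v ∉ S, ψ v = φ v := fun v hv => if_neg hv
  refine ⟨⟨ψ, fun v w hh => ?_⟩, ?_⟩
  · by_cases x : v ∈ S <;> by_cases y : w ∈ S
    · exact e1 x y (by rwa [a1 v x, a1 w y] at hh)
    · exact absurd (by rwa [a1 v x, a2 w y] at hh) (q w y v x)
    · exact absurd (by rw [a2 v x, a1 w y] at hh; exact hh.symm) (q v x w y)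
    · exact p1 (mem_compl.2 x : v ∈ Sᶜ) (mem_compl.2 y : w ∈ Sᶜ) (by rwa [a2 v x, a2 w y] at hh)
  rw [← fin h3 _ a, ← AddSubgroup.mem_bot]
  obtain ⟨S', s1, s2⟩ := hd_of p4
  have b1 : ∀ u v, u ∈ S → G.Adj u v → v ∉ S' → f s(ψ u, ψ v) = a := by
    intro u v hu h hv
    by_cases y : v ∈ S
    · rw [a1 u hu, a1 v y]
      exact t3 _ (e2 u hu) _ (e2 v y) fun hh => h.ne (e1 hu y hh)
    · rw [a1 u hu, a2 v y]
      exact congrFun (show κ (φ v) = fun _ => a by simpa [y, s1] using hv) ⟨u, hu⟩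
  refine BL k hk ⊥ G _ (fun v => (τ v, κ (φ v))) _ (fun u v h hu hv => ?_)
    (fun v hv w hw e u n1 n2 h => ?_) s2
  · rcases h2 u v h with x | x
    · simp [b1 u v x h hv]
    · simp [Sym2.eq_swap (a := ψ u), b1 v u x h.symm hu]
  · have x := mem_compl.1 ((s1 v).1 hv).1
    have y := mem_compl.1 ((s1 w).1 hw).1
    have z := (h2 u v h).resolve_right x
    obtain ⟨e3, e4⟩ := Prod.mk.inj e
    refine ⟨by simpa [τ, h] using congrFun e3 ⟨u, z⟩, ?_⟩
    simpa [a1 u z, a2 v x, a2 w y, sub_eq_zero] using congrFun e4 ⟨u, z⟩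

lemma QB {V X : Type} [Fintype V] [Fintype X] (G : SimpleGraph V) (f : Sym2 X → R) {φ : V → X}
    (hφ : Function.Injective φ) (π : Equiv.Perm X) :
    Q f (fun e => if e ∈ G.edgeFinset.image (Sym2.map φ) then 1 else 0) π =
      ∑ e ∈ G.edgeFinset, f (e.map (π.symm ∘ φ)) := by
  rw [Q, Fintype.sum_bijective (Sym2.map π) (Function.bijective_iff_has_inverse.2
    ⟨Sym2.map π.symm, fun e => by simp [Sym2.map_map], fun e => by simp [Sym2.map_map]⟩) _
    (fun e => if e ∈ G.edgeFinset.image (Sym2.map φ) then f (e.map π.symm) else 0)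
    fun e => by simp [Sym2.map_map], sum_ite_mem, univ_inter,
    sum_image (Sym2.map.injective hφ).injOn]
  simp [Sym2.map_map]

lemma caseB (R : Type) [CommRing R] [Fintype R] [DecidableEq R] (k : ℕ) [NeZero k] [CharP R k]
    (r : ℕ) (H : AddSubgroup R) : ∀ r' : ℕ, ∃ c,
    ∀ (V X T : Type) [Fintype V] [Fintype X] [Fintype T] (G : SimpleGraph V) (f : Sym2 X → R)
    (τ : V → T), Fintype.card T ≤ r → Twin (ind G (ZMod 2)) ⊥ τ →
    (∃ u v, G.Adj u v ∧ 2 * k * (2 * Fintype.card (J R)) ≤ (univ.filter fun w => τ w = τ u).card ∧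
      2 * k * (2 * Fintype.card (J R)) ≤ (univ.filter fun w => τ w = τ v).card) →
    k ∣ G.edgeFinset.card → Fintype.card V + c ≤ Fintype.card X → Struct f H r' → Z G f := by
  induction H using WellFoundedLT.induction with
  | _ H ih =>
  intro r'
  have hk0 := NeZero.pos k
  obtain ⟨m, hm⟩ : ∃ m, m = Fintype.card (J R) := ⟨_, rfl⟩
  have hI : Fintype.card (IH H) ≤ m := hm ▸ Fintype.card_le_of_injective _ ι_inj
  rw [← hm] at ih ⊢
  obtain ⟨L, hL⟩ : ∃ L, L = 2 * k * (2 * m) + 2 * k * r + 2 + 4 * m := ⟨_, rfl⟩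
  obtain ⟨r2, h2⟩ := DL (C := R) (L * r') r' m
  choose cH hc using fun H' : {H' // H' < H} => ih H'.1 H'.2 r2
  refine ⟨univ.sup cH + L * r' + 2 * k * r' + L, ?_⟩
  rintro V X T _ _ _ G f τ a1 a2 ⟨u0, w0, a3, a4, a5⟩ a6 a7 ⟨T', _, a8, κ, a9⟩
  have : Nonempty X := Fintype.card_pos_iff.1 (by omega)
  have : Nonempty V := ⟨u0⟩
  have a10 := Nat.mul_le_mul_left L a8
  rcases h2 X T' (IH H) f κ _ (fun i => i.1.1) ((small κ L).trans a10) a8 hI with
    ⟨i, hi⟩ | ⟨p, p1, p2, p3⟩
  · exact hc i.1 V X T G f τ a1 a2 ⟨u0, w0, a3, a4, a5⟩ a6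
      (by have := le_sup (f := cH) (mem_univ i.1); omega) hi
  have m2 : 2 * m ≤ 2 * k * (2 * m) := Nat.le_mul_of_pos_left _ (by omega)
  obtain ⟨U, u1, u2⟩ := bij (univ : Finset (IH H)) (univ.filter fun w => τ w = τ u0)
    (by rw [card_univ]; omega)
  obtain ⟨W, w1, w2⟩ := bij (univ : Finset (IH H)) ((univ.filter fun w => τ w = τ w0) \
    univ.image U) (by
      have := le_card_sdiff (univ.image U) (univ.filter fun w => τ w = τ w0)
      have := card_image_le (s := univ) (f := U)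
      rw [card_univ] at *
      omega)
  simp only [mem_univ, mem_filter, true_and, forall_const, mem_sdiff, mem_image, not_exists,
    coe_univ, Set.injOn_univ] at u1 u2 w1 w2
  have uw : Function.Injective (Sum.elim U W) := u1.sumElim w1 fun i j => (w2 j).2 i
  let y : IH H ⊕ IH H → X := Sum.elim (p · 0) (p · 2)
  have y1 : ∀ z, ∃ i c, y z = p i c ∧ c ≠ 1 ∧ c ≠ 3 := by
    rintro (i | i)
    exacts [⟨i, 0, rfl, by decide, by decide⟩, ⟨i, 2, rfl, by decide, by decide⟩]
  have y2 : Function.Injective y := Function.Injective.sumElim (fun i j e => (p1 _ _ _ _ e).1)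
    (fun i j e => (p1 _ _ _ _ e).1) fun i j e => absurd (p1 _ _ _ _ e).2 (by decide)
  obtain ⟨b0, hb⟩ := large κ L (by omega)
  have g1 : (univ.image fun z : IH H × Fin 4 => p z.1 z.2).card ≤ 4 * m :=
    card_image_le.trans (by simp only [card_univ, Fintype.card_prod (IH H), Fintype.card_fin]; omega)
  obtain ⟨B0, b1, b2⟩ := exists_subset_card_eq (show 2 * k * r + 2 ≤ ((univ.filter fun w =>
    κ w = b0) \ univ.image fun z : IH H × Fin 4 => p z.1 z.2).card from
    le_trans (by omega) (le_card_sdiff _ _))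
  have b3 : ∀ i c, p i c ∉ B0 := fun i c h =>
    (mem_sdiff.1 (b1 h)).2 (mem_image.2 ⟨(i, c), mem_univ _, rfl⟩)
  have b4 : ∀ x ∈ B0, κ x = b0 := fun x hx => (mem_filter.1 (mem_sdiff.1 (b1 hx)).1).2
  let D := B0 ∪ (univ.image (p · 1) ∪ univ.image (p · 3))
  have d1 : D.card ≤ 2 * k * r + 2 + 2 * m := by
    have := card_union_le B0 (univ.image (p · 1) ∪ univ.image (p · 3))
    have := card_union_le (univ.image (p · 1)) (univ.image (p · 3))
    have := card_image_le (s := univ) (f := (p · 1))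
    have := card_image_le (s := univ) (f := (p · 3))
    rw [card_univ] at *
    simp only [D]
    omega
  have d2 : (univ.image (Sum.elim U W)).card ≤ 2 * m :=
    card_image_le.trans (by simp only [card_univ, Fintype.card_sum]; omega)
  have d3 := Nat.mul_le_mul_left (2 * k) d2
  obtain ⟨φ, q1, q2, q3, q4⟩ := PP (2 * k) (by omega) τ κ b0 B0
    (by have := Nat.mul_le_mul_left (2 * k) a1; omega) b4
    (Function.extend (Sum.elim U W) y fun _ => Classical.arbitrary X) _ univ Dᶜ
    (univ.image (Sum.elim U W)) rfl (subset_univ _) (by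
      simp only [coe_image, coe_univ, Set.image_univ]
      rintro _ ⟨a, rfl⟩ _ ⟨b, rfl⟩ e
      rw [uw.extend_apply, uw.extend_apply] at e
      rw [y2 e]) (by
      simp only [mem_image, mem_univ, true_and]
      rintro _ ⟨a, rfl⟩
      obtain ⟨i, c, e, n1, n2⟩ := y1 a
      rw [uw.extend_apply, e]
      simp only [D, mem_compl, mem_union, mem_image, mem_univ, true_and, not_or, not_exists]
      exact ⟨b3 i c, fun j h => n1 (p1 _ _ _ _ h).2.symm, fun j h => n2 (p1 _ _ _ _ h).2.symm⟩)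
    (disjoint_of_subset_right subset_union_left disjoint_compl_left) (by
      have := Nat.mul_le_mul_left (2 * k) a8
      rw [card_compl, card_univ]
      omega) (by
      intro v hv
      obtain ⟨a, -, rfl⟩ := mem_image.1 hv
      obtain ⟨i, c, e, -⟩ := y1 a
      rw [uw.extend_apply, e]
      refine ⟨d3.trans ?_, ?_⟩
      · rcases a with a | a
        · simpa [u2] using a4
        · simpa [(w2 a).1] using a5
      · have := (p2 i).1 c
        simp only [mem_filter, mem_univ, true_and, not_lt] at this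
        have := le_card_sdiff D (univ.filter fun x => κ x = κ (p i c))
        rw [show Dᶜ.filter (fun x => κ x = κ (p i c)) = (univ.filter fun x => κ x = κ (p i c)) \ D by
          ext; simp; tauto]
        omega)
  have q5 : Function.Injective φ := by simpa using q1
  have q6 : ∀ z, φ (Sum.elim U W z) = y z := fun z => by
    rw [q3 _ (mem_image_of_mem _ (mem_univ z)), uw.extend_apply]
  have q7 : ∀ i c x, c = 1 ∨ c = 3 → s(p i c, x) ∉ G.edgeFinset.image (Sym2.map φ) := by
    intro i c x hc h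
    obtain ⟨e, -, he⟩ := mem_image.1 h
    obtain ⟨v, -, hv⟩ := Sym2.mem_map.1 (show p i c ∈ e.map φ by simp [he])
    rcases mem_union.1 (q2 v (mem_univ v)) with h | h <;> rw [hv] at h
    · refine mem_compl.1 h (mem_union_right _ ?_)
      rcases hc with rfl | rfl
      exacts [mem_union_left _ (mem_image_of_mem _ (mem_univ i)),
        mem_union_right _ (mem_image_of_mem _ (mem_univ i))]
    · exact b3 i c h
  have sw : ∀ (π : Equiv.Perm X) x x', κ x = κ x' →
      Q f (fun e => if e ∈ G.edgeFinset.image (Sym2.map φ) then 1 else 0) (π * Equiv.swap x x') -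
      Q f (fun e => if e ∈ G.edgeFinset.image (Sym2.map φ) then 1 else 0) π ∈ H := by
    intro π x x' e
    rw [QB G f q5, QB G f q5, ← sum_sub_distrib]
    refine H.sum_mem fun z hz => ?_
    induction z using Sym2.ind with
    | _ u v =>
      have n : u ≠ v := (by simpa using hz : G.Adj u v).ne
      have k1 : ∀ z, κ ((π * Equiv.swap x x').symm z) = κ (π.symm z) := fun z => by
        change κ (Equiv.swap x x' (π.symm z)) = _
        rw [Equiv.swap_apply_def]
        split_ifs with a b <;> simp [*]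
      exact a9.pair (((Equiv.injective _).comp q5).ne n) (((Equiv.injective _).comp q5).ne n)
        (k1 _) (k1 _)
  obtain ⟨π, hπ⟩ := ST f (fun e => if e ∈ G.edgeFinset.image (Sym2.map φ) then 1 else 0) H
    (fun i : IH H => i.1.1) p p1 (fun i j n => cross_of (p3 i j n)) (fun i => by
      have e1 : s(p i 0, p i 2) ∈ G.edgeFinset.image (Sym2.map φ) :=
        mem_image.2 ⟨s(U i, W i), by
          simpa using twin_adj a2 ((w2 i).2 i) (u2 i).symm (w2 i).1.symm a3, by
          rw [Sym2.map_mk]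
          exact congrArg₂ _ (q6 (.inl i)) (q6 (.inr i))⟩
      have e2 := q7 i 1 (p i 2) (Or.inl rfl)
      have e3 := q7 i 1 (p i 3) (Or.inl rfl)
      have e4 := q7 i 3 (p i 0) (Or.inr rfl)
      rw [Sym2.eq_swap] at e4
      rw [alt, alt, if_pos e1, if_neg e2, if_neg e3, if_neg e4]
      simpa [alt] using (p2 i).2.2.2)
    (fun π i => ⟨sw π _ _ (p2 i).2.1, sw π _ _ (p2 i).2.2.1⟩) (hK H) (by
      obtain ⟨x1, h1, x2, h2, n⟩ := one_lt_card.1 (show 1 < B0.card by omega)
      obtain ⟨S', s1, s2⟩ := hd_of q4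
      rw [QB G f q5, ← fin a6 _ (f s(x1, x2))]
      refine BL k hk H G _ (fun v => (τ v, κ (φ v))) _ (fun u v h hu hv => ?_)
        (fun v hv w hw e u n1 n2 h => ?_) s2
      · simp only [s1, mem_univ, true_and, not_not] at hu hv
        exact a9.pair (q5.ne h.ne) n (hu.trans (b4 _ h1).symm) (hv.trans (b4 _ h2).symm)
      · obtain ⟨e3, e4⟩ := Prod.mk.inj e
        refine ⟨twin_adj a2 n2 rfl e3 h, ?_⟩
        rw [sub_sub_sub_cancel_right]
        exact a9.pair (q5.ne n1) (q5.ne n2) rfl e4)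
  exact ⟨⟨_, π.symm.injective.comp q5⟩, by rw [← hπ, QB G f q5]; rfl⟩

def Addi {X : Type} (f : Sym2 X → R) (H : AddSubgroup R) (s : ℕ) : Prop :=
  ∃ S : Finset X, S.card ≤ s ∧ ∃ (g : X → R) (a : R), ∀ x ∉ S, ∀ y ∉ S, x ≠ y →
    f s(x, y) - (g x + g y + a) ∈ H

lemma addL {X : Type} [Fintype X] (f : Sym2 X → R) (K : AddSubgroup R) (S : Finset X)
    (hS : S.card + 3 ≤ Fintype.card X) (h : ∀ q : Fin 4 → X, Function.Injective q →
      (∀ c, q c ∉ S) → alt f (q 0) (q 1) (q 2) (q 3) ∈ K) : Addi f K (S.card + 3) := by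
  obtain ⟨T, a, b⟩ := exists_subset_card_eq (show 3 ≤ Sᶜ.card by rw [card_compl]; omega)
  obtain ⟨x, y, z, n1, n2, n3, rfl⟩ := card_eq_three.1 b
  simp only [insert_subset_iff, singleton_subset_iff, mem_compl] at a
  have k4 : ∀ a b c d, a ∉ S → b ∉ S → c ∉ S → d ∉ S → a ≠ b → a ≠ c → a ≠ d → b ≠ c → b ≠ d →
      c ≠ d → alt f a b c d ∈ K := fun a b c d _ _ _ _ _ _ _ _ _ _ =>
    h ![a, b, c, d] (fun i j => by fin_cases i <;> fin_cases j <;> simp <;> grind)
      fun i => by fin_cases i <;> simpa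
  refine ⟨S ∪ {x, y, z}, (card_union_le _ _).trans (by omega), fun v => f s(y, v),
    f s(x, z) - f s(y, z) - f s(x, y), fun v hv w hw n => ?_⟩
  simp only [mem_union, mem_insert, mem_singleton, not_or] at hv hw
  have h1 := k4 v x w y hv.1 a.1 hw.1 a.2.1 hv.2.1 n hv.2.2.1 (Ne.symm hw.2.1) n1 hw.2.2.1
  have h2 := k4 x y w z a.1 a.2.1 hw.1 a.2.2 n1 (Ne.symm hw.2.1) n2 (Ne.symm hw.2.2.1) n3 hw.2.2.2
  convert K.add_mem h1 h2 using 1
  simp only [alt, Sym2.eq_swap (a := v) (b := y)]
  ring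

lemma QC {V X : Type} [Fintype V] (G : SimpleGraph V) (f : Sym2 X → R) (φ : V → X)
    (π : Equiv.Perm V) : Q (ind G R) (fun e => f (e.map φ)) π =
      ∑ e ∈ G.edgeFinset, f (e.map (φ ∘ π)) := by
  simp only [Q, ind, ite_mul, one_mul, zero_mul, Sym2.map_map, ← SimpleGraph.mem_edgeFinset,
    sum_ite_mem, univ_inter]

lemma sum_deg {V : Type} [Fintype V] (G : SimpleGraph V) (g : V → R) :
    ∑ e ∈ G.edgeFinset, ∑ v ∈ univ.filter (· ∈ e), g v = ∑ v, (G.degree v : R) * g v := by
  rw [sum_comm' (t' := univ) (s' := fun v => G.incidenceFinset v) fun e v => by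
    simp [SimpleGraph.incidenceSet]]
  simp

lemma caseC (R : Type) [CommRing R] [Fintype R] [DecidableEq R] (k : ℕ) [NeZero k] [CharP R k]
    (H : AddSubgroup R) : ∀ s : ℕ, ∃ c,
    ∀ (V X : Type) [Fintype V] [Fintype X] (G : SimpleGraph V) (f : Sym2 X → R)
    (p : J R → Fin 4 → V), (∀ i c j d, p i c = p j d → i = j ∧ c = d) →
    (∀ i, (∀ c, k * (4 * Fintype.card (J R)) ≤ (univ.filter fun w =>
      (G.degree w : R) = G.degree (p i c)).card) ∧
      (G.degree (p i 0) : R) = G.degree (p i 1) ∧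
      (G.degree (p i 2) : R) = G.degree (p i 3) ∧
      (alt (ind G R) (p i 0) (p i 1) (p i 2) (p i 3) = 1 ∨
        alt (ind G R) (p i 0) (p i 1) (p i 2) (p i 3) = -1)) →
    (∀ i j, i ≠ j → alt (ind G R) (p i 0) (p i 1) (p j 0) (p j 1) = 0 ∧
      alt (ind G R) (p i 0) (p i 1) (p j 2) (p j 3) = 0) →
    k ∣ G.edgeFinset.card → Fintype.card V + c ≤ Fintype.card X → Addi f H s → Z G f := by
  induction H using WellFoundedLT.induction with
  | _ H ih =>
  intro s
  have hk0 := NeZero.pos k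
  obtain ⟨m, hm⟩ : ∃ m, m = Fintype.card (J R) := ⟨_, rfl⟩
  have hI : Fintype.card (IH H) ≤ m := hm ▸ Fintype.card_le_of_injective _ ι_inj
  rw [← hm] at ih ⊢
  obtain ⟨L, hL⟩ : ∃ L, L = k * (4 * m) + k * Fintype.card R + s + 4 * m := ⟨_, rfl⟩
  choose cH hc using fun H' : {H' // H' < H} => ih H'.1 H'.2 (s + L * Fintype.card R + 4 * m + 3)
  refine ⟨univ.sup cH + L * Fintype.card R + k * Fintype.card R + L + s + 4 * m + 3, ?_⟩
  rintro V X _ _ G f p a1 a2 a3 a6 a7 ⟨S, a8, g, a, a9⟩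
  have : Nonempty X := Fintype.card_pos_iff.1 (by omega)
  by_cases h1 : ∃ H' : {H' // H' < H}, Addi f H'.1 (s + L * Fintype.card R + 4 * m + 3)
  · obtain ⟨H', h1⟩ := h1
    exact hc H' V X G f p a1 a2 a3 a6 (by have := le_sup (f := cH) (mem_univ H'); omega) h1
  have a10 := small g L
  obtain ⟨q, p1, p2, -⟩ := greedy (I := IH H) (fun i q => (∀ c, q c ∉ S ∧
      L ≤ (univ.filter fun w => g w = g (q c)).card) ∧ alt f (q 0) (q 1) (q 2) (q 3) ∉ i.1.1)
      (fun _ _ => True) fun S' hS i => by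
    by_contra hn
    have h2 : (S' ∪ (S ∪ univ.filter fun v => (univ.filter fun w => g w = g v).card < L)).card ≤
        s + L * Fintype.card R + 4 * m := (card_union_le _ _).trans (by
      have := card_union_le S (univ.filter fun v => (univ.filter fun w => g w = g v).card < L)
      omega)
    obtain ⟨T, t1, t2⟩ := addL f i.1.1 _ ((Nat.add_le_add_right h2 3).trans (by omega))
      fun q q1 q2 => by_contra fun h => hn ⟨q, q1, fun c => by
        have := q2 c; simp only [mem_union, not_or] at this; exact this.1, ⟨fun c => by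
        have := q2 c; simpa using (show _ ∧ _ by simpa using this).2, h⟩, by simp⟩
    exact h1 ⟨i.1, T, by omega, t2⟩
  let u : IH H × Fin 4 → V := fun z => p (ι z.1) z.2
  let y : IH H × Fin 4 → X := fun z => q z.1 z.2
  have uw : Function.Injective u := fun a b e =>
    Prod.ext (ι_inj (a1 _ _ _ _ e).1) (a1 _ _ _ _ e).2
  have y2 : Function.Injective y := fun a b e => Prod.ext (p1 _ _ _ _ e).1 (p1 _ _ _ _ e).2
  obtain ⟨b0, hb⟩ := large g L (by omega)
  have g0 : Fintype.card (IH H × Fin 4) ≤ 4 * m := by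
    simp only [Fintype.card_prod (IH H), Fintype.card_fin]; omega
  have g1 : (univ.image y).card ≤ 4 * m := card_image_le.trans g0
  obtain ⟨B0, b1, b2⟩ := exists_subset_card_eq (show k * Fintype.card R ≤ ((univ.filter fun w =>
    g w = b0) \ (S ∪ univ.image y)).card from
    le_trans (by have := card_union_le S (univ.image y); omega) (le_card_sdiff _ _))
  have b3 : ∀ x ∈ B0, g x = b0 ∧ x ∉ S ∧ ∀ z, y z ≠ x := fun x hx => by simpa using b1 hx
  have d1 : (S ∪ B0).card ≤ s + k * Fintype.card R := (card_union_le _ _).trans (by omega)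
  have d3 := Nat.mul_le_mul_left k ((card_image_le (s := univ) (f := u)).trans g0)
  obtain ⟨φ, q1, q2, q3, q4⟩ := PP k hk0 (fun v => (G.degree v : R)) g b0 B0
    (by omega) (fun x hx => (b3 x hx).1)
    (Function.extend u y fun _ => Classical.arbitrary X) _ univ (S ∪ B0)ᶜ
    (univ.image u) rfl (subset_univ _) (by
      simp only [coe_image, coe_univ, Set.image_univ]
      rintro _ ⟨a, rfl⟩ _ ⟨b, rfl⟩ e
      rw [uw.extend_apply, uw.extend_apply] at e
      rw [y2 e]) (by
      simp only [mem_image, mem_univ, true_and]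
      rintro _ ⟨a, rfl⟩
      rw [uw.extend_apply, mem_compl, mem_union, not_or]
      exact ⟨((p2 a.1).1 a.2).1, fun h => (b3 _ h).2.2 a rfl⟩)
    (disjoint_of_subset_right subset_union_right disjoint_compl_left) (by
      rw [card_compl, card_univ]
      omega) (by
      intro v hv
      obtain ⟨a, -, rfl⟩ := mem_image.1 hv
      rw [uw.extend_apply]
      refine ⟨d3.trans ((a2 _).1 _), ?_⟩
      have : L ≤ (univ.filter fun w => g w = g (y a)).card := ((p2 a.1).1 a.2).2
      have := le_card_sdiff (S ∪ B0) (univ.filter fun x => g x = g (y a))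
      rw [show (S ∪ B0)ᶜ.filter (fun x => g x = g (y a)) =
        (univ.filter fun x => g x = g (y a)) \ (S ∪ B0) by ext; simp; tauto]
      omega)
  have q5 : Function.Injective φ := by simpa using q1
  have q6 : ∀ i c, φ (p (ι i) c) = q i c := fun i c => by
    rw [q3 (u (i, c)) (mem_image_of_mem _ (mem_univ _)), uw.extend_apply]
  have q7 : ∀ v, φ v ∉ S := fun v h => by
    rcases mem_union.1 (q2 v (mem_univ v)) with h' | h'
    exacts [mem_compl.1 h' (mem_union_left _ h), (b3 _ h').2.1 h]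
  have fo : ∀ π : Equiv.Perm V, Q (ind G R) (fun e => f (e.map φ)) π -
      ∑ v, (G.degree v : R) * g (φ (π v)) ∈ H := by
    intro π
    rw [QC, ← sum_deg, ← fin a6 _ a, ← sum_sub_distrib]
    refine H.sum_mem fun z hz => ?_
    induction z using Sym2.ind with
    | _ v w =>
      have n : v ≠ w := (by simpa using hz : G.Adj v w).ne
      rw [show univ.filter (· ∈ s(v, w)) = {v, w} by ext; simp, sum_pair n]
      convert a9 _ (q7 (π v)) _ (q7 (π w)) ((q5.comp π.injective).ne n) using 1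
      simp only [Sym2.map_mk, Function.comp]
      ring
  have sw : ∀ (π : Equiv.Perm V) x x', (G.degree x : R) = G.degree x' →
      Q (ind G R) (fun e => f (e.map φ)) (π * Equiv.swap x x') -
      Q (ind G R) (fun e => f (e.map φ)) π ∈ H := by
    intro π x x' e
    have h := H.sub_mem (fo (π * Equiv.swap x x')) (fo π)
    rwa [← Equiv.sum_comp (Equiv.swap x x') fun v => (G.degree v : R) * g (φ (π v)),
      sum_congr rfl fun v _ => show (G.degree (Equiv.swap x x' v) : R) *
        g (φ (π (Equiv.swap x x' v))) = G.degree v * g (φ ((π * Equiv.swap x x') v)) by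
        exact congrArg₂ _ (Equiv.apply_swap_eq_self (v := fun v => (G.degree v : R)) e v) rfl,
      sub_sub_sub_cancel_right] at h
  obtain ⟨π, hπ⟩ := ST (ind G R) (fun e => f (e.map φ)) H
    (fun i : IH H => i.1.1) (fun i => p (ι i))
    (fun i c j d e => ⟨ι_inj (a1 _ _ _ _ e).1, (a1 _ _ _ _ e).2⟩)
    (fun i j n => a3 _ _ (ι_inj.ne n)) (fun i h => by
      have : alt (fun e => f (e.map φ)) (p (ι i) 0) (p (ι i) 1) (p (ι i) 2) (p (ι i) 3) ∈
          i.1.1 := by
        rcases (a2 (ι i)).2.2.2 with hw | hw <;> simpa only [hw, one_mul, neg_mul, neg_mem_iff] using h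
      exact (p2 i).2 (by simpa [alt, q6] using this))
    (fun π i => ⟨sw π _ _ (a2 _).2.1, sw π _ _ (a2 _).2.2.1⟩) (hK H) (by
      obtain ⟨S', s1, s2⟩ := hd_of q4
      obtain ⟨z, hz⟩ := LL k (fun v => ((G.degree v : R), g (φ v))) S'
        (fun v => (G.degree v : R) * (g (φ v) - b0)) (fun v _ w _ e => by
          rw [(Prod.mk.inj e).1, (Prod.mk.inj e).2]) s2
      rw [hk, sum_subset (subset_univ _) fun v _ hv => by
        simp only [s1, mem_univ, true_and, not_not] at hv
        simp [hv]] at hz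
      obtain ⟨c, hc⟩ := a6
      simp only [mul_sub, sum_sub_distrib, ← sum_mul, ← Nat.cast_sum,
        G.sum_degrees_eq_twice_card_edges, hc] at hz
      have h := fo 1
      simp only [Equiv.Perm.one_apply] at h
      rwa [show ∑ v, (G.degree v : R) * g (φ v) = 0 by simpa using hz, sub_zero] at h)
  exact ⟨⟨_, q5.comp π.injective⟩, by rw [← hπ, QC]; rfl⟩

theorem main (R : Type) [CommRing R] [Fintype R] [DecidableEq R] (k : ℕ) [NeZero k] [CharP R k]
    : ∃ c, ∀ (V X : Type) [Fintype V] [Fintype X] (G : SimpleGraph V)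
    (f : Sym2 X → R), k ∣ G.edgeFinset.card → Fintype.card V + c ≤ Fintype.card X →
    Z G f := by
  obtain ⟨m, hm⟩ : ∃ m, m = Fintype.card (J R) := ⟨_, rfl⟩
  obtain ⟨r, hr⟩ := DL (C := ZMod 2) (k * (4 * m) * Fintype.card R) (Fintype.card R) m
  obtain ⟨c1, h1⟩ := caseA R k (2 * k * (2 * m) * r)
  obtain ⟨c2, h2⟩ := caseB R k r ⊤ 1
  obtain ⟨c3, h3⟩ := caseC R k ⊤ 0
  refine ⟨c1 + c2 + c3, fun V X _ _ G f a1 a2 => ?_⟩
  rcases hr V R (J R) (ind G (ZMod 2)) (fun v => (G.degree v : R)) _ (fun _ => ⊥)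
    (small (fun v => (G.degree v : R)) (k * (4 * m))) le_rfl hm.ge with
    ⟨-, T, _, t1, τ, t2⟩ | ⟨p, p1, p2, p3⟩
  · by_cases h : ∀ u v, G.Adj u v → (univ.filter fun w => τ w = τ u).card < 2 * k * (2 * m) ∨
        (univ.filter fun w => τ w = τ v).card < 2 * k * (2 * m)
    · exact h1 V X G f _ ((small τ _).trans (Nat.mul_le_mul_left _ t1)) (by simpa using h) a1
        (by omega)
    · push Not at h
      exact h2 V X T G f τ t1 t2 (hm ▸ h) a1 (by omega)
        ⟨Unit, inferInstance, by simp, fun _ => (), fun _ _ _ _ _ _ => trivial⟩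
  · have cv : ∀ e e', ind G (ZMod 2) e = ind G (ZMod 2) e' →
        ind G R e = ind G R e' := fun e e' => by
      simp only [ind]
      split_ifs <;> simp
    refine h3 V X G f p p1 (fun i => ⟨fun c => by simpa [hm] using (p2 i).1 c, (p2 i).2.1,
      (p2 i).2.2.1, ?_⟩) (fun i j n => cross_of ((p3 i j n).imp
        (fun h c => ⟨cv _ _ (h c).1, cv _ _ (h c).2⟩) fun h c => ⟨cv _ _ (h c).1, cv _ _ (h c).2⟩))
      a1 (by omega) ⟨∅, by simp, 0, 0, fun _ _ _ _ _ => trivial⟩
    have := (p2 i).2.2.2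
    simp only [alt, ind, AddSubgroup.mem_bot] at this ⊢
    split_ifs at this ⊢ <;> first | exact absurd (by decide) this | simp

end Pool.Agent.H14.Zr
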