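import Mathlib

set_option autoImplicit false
set_option linter.unusedSectionVars false

namespace Pool.Agent.H14.Zs

open Finset
open scoped Classical Pointwise

/-- Sums of functions constant on fibres whose sizes are multiples of M. -/
lemma LL {V B Γ : Type} [AddCommMonoid Γ] (M : ℕ) (β : V → B) (S : Finset V) (g : V → Γ)
    (hc : ∀ v ∈ S, ∀ w ∈ S, β v = β w → g v = g w)
    (hd : ∀ b, M ∣ (S.filter fun v => β v = b).card) : ∃ y, ∑ v ∈ S, g v = M • y := by
  rw [← sum_fiberwise_of_maps_to (t := S.image β) (g := β) fun v hv => mem_image_of_mem _ hv]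
  refine sum_induction _ (fun x => ∃ y, x = M • y) ?_ ⟨0, by simp⟩ fun b hb => ?_
  · rintro _ _ ⟨y, rfl⟩ ⟨z, rfl⟩
    exact ⟨y + z, by rw [smul_add]⟩
  · obtain ⟨v, hv, rfl⟩ := mem_image.1 hb
    obtain ⟨c, hc'⟩ := hd (β v)
    refine ⟨c • g v, ?_⟩
    rw [sum_congr rfl fun w hw => hc w (mem_filter.1 hw).1 v hv (mem_filter.1 hw).2, sum_const,
      hc', mul_smul]

lemma BLg {V B : Type} [Fintype V] (k : ℕ) (G : SimpleGraph V) (β : V → B) (S : Finset V)
    (hF : ∀ u v, G.Adj u v → u ∈ S ∨ v ∈ S)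
    (ht : ∀ v ∈ S, ∀ w ∈ S, β v = β w → ∀ u, u ≠ v → u ≠ w → G.Adj u v → G.Adj u w)
    (hd : ∀ b, 2 * k ∣ (S.filter fun v => β v = b).card) : k ∣ G.edgeFinset.card := by
  have h1 : 2 * k ∣ ∑ v ∈ S, G.degree v := by
    have key : ∀ v ∈ S, ∀ w ∈ S, β v = β w → G.degree v ≤ G.degree w := by
      intro v hv w hw e
      refine card_le_card_of_injOn (Equiv.swap v w) (fun u hu => ?_) (Equiv.injective _).injOn
      have hu' : G.Adj v u := by simpa using hu
      rw [mem_coe, SimpleGraph.mem_neighborFinset]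
      by_cases h : u = w
      · subst h
        simpa using hu'.symm
      · rw [Equiv.swap_apply_of_ne_of_ne hu'.ne' h]
        exact (ht v hv w hw e u hu'.ne' h hu'.symm).symm
    obtain ⟨y, hy⟩ := LL (2 * k) β S (fun v => G.degree v)
      (fun v hv w hw e => le_antisymm (key v hv w hw e) (key w hw v hv e.symm)) hd
    exact ⟨y, hy⟩
  have h2 : 2 * k ∣ ∑ u ∈ Sᶜ, G.degree u := by
    refine dvd_sum fun u hu => ?_
    have hu' := mem_compl.1 hu
    obtain ⟨y, hy⟩ := LL (2 * k) β S (fun v => if G.Adj u v then 1 else 0) (fun v hv w hw e => by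
      have a : u ≠ v := fun h => hu' (h ▸ hv)
      have b : u ≠ w := fun h => hu' (h ▸ hw)
      simp only [show G.Adj u v ↔ G.Adj u w from ⟨ht v hv w hw e u a b, ht w hw v hv e.symm u b a⟩])
      hd
    refine ⟨y, Eq.trans ?_ hy⟩
    rw [← card_filter, ← SimpleGraph.card_neighborFinset_eq_degree]
    congr 1
    ext v
    simp only [SimpleGraph.mem_neighborFinset, mem_filter]
    exact ⟨fun h => ⟨(hF u v h).resolve_left hu', h⟩, And.right⟩
  have h3 := dvd_add h1 h2
  rw [sum_add_sum_compl, G.sum_degrees_eq_twice_card_edges] at h3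
  exact Nat.dvd_of_mul_dvd_mul_left two_pos h3

lemma BL {V B R : Type} [Fintype V] [AddCommGroup R] (k : ℕ) (hk : ∀ x : R, k • x = 0)
    (H : AddSubgroup R) (G : SimpleGraph V) (W : Sym2 V → R) (β : V → B) (S : Finset V)
    (hF : ∀ u v, G.Adj u v → u ∉ S → v ∉ S → W s(u, v) ∈ H)
    (ht : ∀ v ∈ S, ∀ w ∈ S, β v = β w → ∀ u, u ≠ v → u ≠ w → G.Adj u v →
      G.Adj u w ∧ W s(u, v) - W s(u, w) ∈ H)
    (hd : ∀ b, 2 * k ∣ (S.filter fun v => β v = b).card) : ∑ e ∈ G.edgeFinset, W e ∈ H := by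
  rw [← QuotientAddGroup.eq_zero_iff, ← QuotientAddGroup.mk'_apply, map_sum, ← sum_fiberwise_of_maps_to
    (t := G.edgeFinset.image fun e => QuotientAddGroup.mk' H (W e))
    (g := fun e => QuotientAddGroup.mk' H (W e)) fun v hv => mem_image_of_mem _ hv]
  refine sum_eq_zero fun γ _ => ?_
  rw [sum_congr rfl fun e he => (mem_filter.1 he).2, sum_const]
  by_cases h0 : γ = 0
  · simp [h0]
  let Γ : SimpleGraph V :=
    { Adj := fun u v => G.Adj u v ∧ QuotientAddGroup.mk' H (W s(u, v)) = γ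
      symm := ⟨fun u v h => ⟨h.1.symm, by rw [Sym2.eq_swap]; exact h.2⟩⟩
      loopless := ⟨fun u h => h.1.ne rfl⟩ }
  obtain ⟨c, hc⟩ := BLg k Γ β S (fun u v h => by
      by_contra hn
      rw [not_or] at hn
      exact h0 (h.2.symm.trans ((QuotientAddGroup.eq_zero_iff _).2 (hF u v h.1 hn.1 hn.2))))
    (fun v hv w hw e u a b h => by
      obtain ⟨p, q⟩ := ht v hv w hw e u a b h.1
      exact ⟨p, Eq.trans (QuotientAddGroup.eq_iff_sub_mem.2 q).symm h.2⟩) hd
  have : (G.edgeFinset.filter fun e => QuotientAddGroup.mk' H (W e) = γ).card = k * c := by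
    rw [← hc]
    congr 1
    ext e
    induction e using Sym2.ind
    simp [Γ]
  obtain ⟨x, rfl⟩ := QuotientAddGroup.mk'_surjective H γ
  rw [this, mul_smul, ← map_nsmul, ← map_nsmul, hk, map_zero]

/-- Subset sums fill the subgroup. -/
lemma SS {R I : Type} [AddCommGroup R] [Fintype R] [Fintype I] (H : AddSubgroup R) (L : I → R)
    (hL : ∀ i, L i ∈ H)
    (hK : ∀ H' < H, Fintype.card R ≤ (univ.filter fun i => L i ∉ H').card) :
    ∀ y ∈ H, ∃ T : Finset I, ∑ i ∈ T, L i = y := by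
  have key : ∀ j, ∃ (T : Finset I) (A : Finset R), T.card ≤ j ∧ 0 ∈ A ∧
      (∀ y ∈ A, ∃ T' ⊆ T, ∑ i ∈ T', L i = y) ∧ ((∀ y ∈ H, y ∈ A) ∨ j + 1 ≤ A.card) := by
    intro j
    induction j with
    | zero => exact ⟨∅, {0}, by simp, by simp, by simp, Or.inr (by simp)⟩
    | succ j ih =>
      obtain ⟨T, A, h1, h2, h3, h4⟩ := ih
      by_cases h5 : ∀ y ∈ H, y ∈ A
      · exact ⟨T, A, by omega, h2, h3, Or.inl h5⟩
      have h6 := h4.resolve_left h5
      have h7 : AddAction.stabilizer R A ⊓ H < H := by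
        refine lt_of_le_of_ne inf_le_right fun e => h5 fun y hy => ?_
        rw [← e] at hy
        have : y +ᵥ A = A := hy.1
        rw [← this]
        exact mem_vadd_finset.2 ⟨0, h2, by simp⟩
      obtain ⟨i, hi, hi'⟩ := exists_mem_notMem_of_card_lt_card
        (show T.card < _ from lt_of_lt_of_le (by have := card_le_univ A; omega) (hK _ h7))
      refine ⟨insert i T, A ∪ (L i +ᵥ A), (card_insert_le _ _).trans (by omega),
        mem_union_left _ h2, fun y hy => ?_, Or.inr (lt_of_le_of_lt h6 (card_lt_card ?_))⟩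
      · rcases mem_union.1 hy with hy | hy
        · obtain ⟨T', a, b⟩ := h3 y hy
          exact ⟨T', a.trans (subset_insert _ _), b⟩
        · obtain ⟨z, hz, rfl⟩ := mem_vadd_finset.1 hy
          obtain ⟨T', a, b⟩ := h3 z hz
          exact ⟨insert i T', insert_subset_insert _ a, by
            rw [sum_insert fun h => hi' (a h), b, vadd_eq_add]⟩
      · refine ⟨subset_union_left, fun h => (mem_filter.1 hi).2 ⟨?_, hL i⟩⟩
        exact eq_of_subset_of_card_le (subset_union_right.trans h) (by rw [card_vadd_finset])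
  obtain ⟨T, A, -, -, h3, h4⟩ := key (Fintype.card R)
  intro y hy
  obtain ⟨T', -, b⟩ := h3 y (h4.resolve_right (by have := card_le_univ A; omega) y hy)
  exact ⟨T', b⟩

section ST
variable {V R : Type} [Fintype V] [CommRing R]

def alt {C : Type} [AddCommGroup C] (h : Sym2 V → C) (a a' b b' : V) : C :=
  h s(a, b) - h s(a', b) - h s(a, b') + h s(a', b')

noncomputable def Q (A f : Sym2 V → R) (π : Equiv.Perm V) : R := ∑ e, A e * f (e.map π)

lemma Q_swap (A f : Sym2 V → R) (π : Equiv.Perm V) (a b : V) :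
    Q A f (π * Equiv.swap a b) = Q (fun e => A (e.map (Equiv.swap a b))) f π := by
  refine Fintype.sum_bijective (Sym2.map (Equiv.swap a b))
    (Function.Involutive.bijective fun e => by simp [Sym2.map_map]) _ _ fun e => ?_
  simp [Sym2.map_map]

lemma SD (A f : Sym2 V → R) (π : Equiv.Perm V) {a a' b b' : V} (h1 : a ≠ a') (h2 : a ≠ b)
    (h3 : a ≠ b') (h4 : a' ≠ b) (h5 : a' ≠ b') (h6 : b ≠ b') :
    Q A f (π * Equiv.swap b b' * Equiv.swap a a') - Q A f (π * Equiv.swap b b') =
      Q A f (π * Equiv.swap a a') - Q A f π +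
        alt A a a' b b' * alt f (π a) (π a') (π b) (π b') := by
  have key : ∀ e : Sym2 V, A ((e.map (Equiv.swap b b')).map (Equiv.swap a a')) -
      A (e.map (Equiv.swap b b')) - A (e.map (Equiv.swap a a')) + A e =
      alt A a a' b b' * ((if e = s(a, b) then 1 else 0) - (if e = s(a', b) then 1 else 0) -
        (if e = s(a, b') then 1 else 0) + if e = s(a', b') then 1 else 0) := by
    intro e
    induction e using Sym2.ind with
    | _ u v =>
      have cs : ∀ x, x = a ∨ x = a' ∨ x = b ∨ x = b' ∨ (x ≠ a ∧ x ≠ a' ∧ x ≠ b ∧ x ≠ b') := by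
        intro x
        tauto
      have s1 : s(b, a) = s(a, b) := Sym2.eq_swap
      have s2 : s(b', a) = s(a, b') := Sym2.eq_swap
      have s3 : s(b, a') = s(a', b) := Sym2.eq_swap
      have s4 : s(b', a') = s(a', b') := Sym2.eq_swap
      rcases cs u with hu | hu | hu | hu | hu <;> rcases cs v with hv | hv | hv | hv | hv <;>
        simp [alt, Equiv.swap_apply_def, hu, hv, h1, h2, h3, h4, h5, h6, h1.symm, h2.symm, h3.symm,
          h4.symm, h5.symm, h6.symm, s1, s2, s3, s4] <;> ring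
  rw [Q_swap, Q_swap, Q_swap, Q_swap, ← sub_eq_iff_eq_add']
  simp only [Q]
  rw [← sum_sub_distrib, ← sum_sub_distrib, ← sum_sub_distrib]
  rw [sum_congr rfl fun e _ => show _ = (A ((e.map (Equiv.swap b b')).map (Equiv.swap a a')) -
      A (e.map (Equiv.swap b b')) - A (e.map (Equiv.swap a a')) + A e) * f (e.map π) by ring]
  simp only [key]
  simp only [mul_assoc, ← mul_sum, add_mul, sub_mul, sum_add_distrib, sum_sub_distrib, ite_mul,
    one_mul, zero_mul, sum_ite_eq', mem_univ, if_true, Sym2.map_mk]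
  rfl

/-- The switching theorem. -/
theorem ST [Fintype R] {I : Type} [Fintype I] (A f : Sym2 V → R) (H : AddSubgroup R)
    (K : I → AddSubgroup R) (p : I → Fin 4 → V) (hp : ∀ i c j d, p i c = p j d → i = j ∧ c = d)
    (cross : ∀ i j, i ≠ j → alt A (p i 0) (p i 1) (p j 0) (p j 1) = 0 ∧
      alt A (p i 0) (p i 1) (p j 2) (p j 3) = 0)
    (own : ∀ i, alt A (p i 0) (p i 1) (p i 2) (p i 3) * alt f (p i 0) (p i 1) (p i 2) (p i 3) ∉ K i)
    (hΔ : ∀ π i, Q A f (π * Equiv.swap (p i 0) (p i 1)) - Q A f π ∈ H ∧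
      Q A f (π * Equiv.swap (p i 2) (p i 3)) - Q A f π ∈ H)
    (hK : ∀ H' < H, Fintype.card R ≤ (univ.filter fun i => K i = H').card) (h0 : Q A f 1 ∈ H) :
    ∃ π, Q A f π = 0 := by
  have n1 : ∀ i c j d, c ≠ d → p i c ≠ p j d := fun i c j d h e => h (hp _ _ _ _ e).2
  have n2 : ∀ i c j d, i ≠ j → p i c ≠ p j d := fun i c j d h e => h (hp _ _ _ _ e).1
  let D : Equiv.Perm V → I → R := fun π i => Q A f (π * Equiv.swap (p i 0) (p i 1)) - Q A f π
  have c1 : ∀ S : Finset I, ∃ π, Q A f π ∈ H ∧ (∀ i ∉ S, ∀ c, π (p i c) = p i c) ∧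
      ∀ i ∈ S, D π i ∉ K i := by
    intro S
    induction S using Finset.induction_on with
    | empty => exact ⟨1, h0, by simp, by simp⟩
    | insert j S hj ih =>
      obtain ⟨π, a1, a2, a3⟩ := ih
      by_cases h : D π j ∈ K j
      · refine ⟨π * Equiv.swap (p j 2) (p j 3), by simpa using H.add_mem (hΔ π j).2 a1,
          fun i hi c => ?_, fun i hi => ?_⟩
        · rw [mem_insert, not_or] at hi
          rw [Equiv.Perm.mul_apply, Equiv.swap_apply_of_ne_of_ne (n2 _ _ _ _ hi.1) (n2 _ _ _ _ hi.1),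
            a2 i hi.2]
        · simp only [D]
          rw [SD A f π (n1 _ _ _ _ (by decide)) (n1 _ _ _ _ (by decide)) (n1 _ _ _ _ (by decide))
            (n1 _ _ _ _ (by decide)) (n1 _ _ _ _ (by decide)) (n1 _ _ _ _ (by decide))]
          by_cases e : i = j
          · subst e
            simp only [a2 i hj]
            exact fun hh => own i ((AddSubgroup.add_mem_cancel_left _ h).1 hh)
          · rw [(cross i j e).2, zero_mul, add_zero]
            exact a3 i ((mem_insert.1 hi).resolve_left e)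
      · refine ⟨π, a1, fun i hi => a2 i fun h => hi (mem_insert_of_mem h), fun i hi => ?_⟩
        rcases mem_insert.1 hi with rfl | hi
        exacts [h, a3 i hi]
  obtain ⟨π, a1, -, a3⟩ := c1 univ
  have c2 : ∀ T : Finset I, ∃ π', Q A f π' = Q A f π + ∑ i ∈ T, D π i ∧ ∀ i ∉ T, D π' i = D π i := by
    intro T
    induction T using Finset.induction_on with
    | empty => exact ⟨π, by simp, by simp⟩
    | insert j S hj ih =>
      obtain ⟨ρ, b1, b2⟩ := ih
      refine ⟨ρ * Equiv.swap (p j 0) (p j 1), ?_, fun i hi => ?_⟩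
      · rw [sum_insert hj, ← b2 j hj]
        simp only [D] at b1 ⊢
        rw [add_left_comm, ← b1]
        ring
      · rw [mem_insert, not_or] at hi
        rw [← b2 i hi.2]
        simp only [D]
        rw [SD A f ρ (n1 _ _ _ _ (by decide)) (n2 _ _ _ _ hi.1) (n2 _ _ _ _ hi.1)
          (n2 _ _ _ _ hi.1) (n2 _ _ _ _ hi.1) (n1 _ _ _ _ (by decide)), (cross i j hi.1).1,
          zero_mul, add_zero]
  obtain ⟨T, hT⟩ := SS H (D π) (fun i => (hΔ π i).1) (fun H' h => (hK H' h).trans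
    (card_le_card fun i hi => mem_filter.2 ⟨mem_univ _, (mem_filter.1 hi).2 ▸ a3 i (mem_univ _)⟩))
    _ (H.neg_mem a1)
  obtain ⟨ρ, b1, -⟩ := c2 T
  exact ⟨ρ, by rw [b1, hT, add_neg_cancel]⟩

end ST

end Pool.Agent.H14.Zs
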