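import Pool.Agent.H14.Zs1

set_option autoImplicit false
set_option linter.unusedSectionVars false

namespace Pool.Agent.H14.Zs

open Finset
open scoped Classical

/-- Greedy choice of disjoint gadgets. -/
lemma greedy {V I : Type} [Fintype I] (P : I → (Fin 4 → V) → Prop) (Rel : (Fin 4 → V) → V → Prop)
    (h : ∀ S : Finset V, S.card ≤ 4 * Fintype.card I → ∀ i, ∃ q : Fin 4 → V,
      Function.Injective q ∧ (∀ c, q c ∉ S) ∧ P i q ∧ ∀ s ∈ S, Rel q s) :
    ∃ p : I → Fin 4 → V, (∀ i c j d, p i c = p j d → i = j ∧ c = d) ∧ (∀ i, P i (p i)) ∧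
      ∀ i j, i ≠ j → (∀ c, Rel (p i) (p j c)) ∨ ∀ c, Rel (p j) (p i c) := by
  have key : ∀ T : Finset I, ∃ p : I → Fin 4 → V,
      (∀ i ∈ T, ∀ c, ∀ j ∈ T, ∀ d, p i c = p j d → i = j ∧ c = d) ∧ (∀ i ∈ T, P i (p i)) ∧
      ∀ i ∈ T, ∀ j ∈ T, i ≠ j → (∀ c, Rel (p i) (p j c)) ∨ ∀ c, Rel (p j) (p i c) := by
    intro T
    induction T using Finset.induction_on with
    | empty => exact ⟨fun i => (h ∅ (by simp) i).choose, by simp, by simp, by simp⟩
    | insert k T hk ih =>
      obtain ⟨p, a1, a2, a3⟩ := ih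
      obtain ⟨q, b1, b2, b3, b4⟩ := h (T.biUnion fun i => univ.image (p i)) (by
        refine (card_biUnion_le_card_mul _ _ 4 fun i _ => card_image_le.trans (by simp)).trans ?_
        have := card_le_univ T
        omega) k
      have m : ∀ i ∈ T, ∀ c, p i c ∈ T.biUnion fun i => univ.image (p i) := fun i hi c =>
        mem_biUnion.2 ⟨i, hi, mem_image_of_mem _ (mem_univ c)⟩
      have e : ∀ i ∈ T, Function.update p k q i = p i := fun i hi =>
        Function.update_of_ne (fun e : i = k => hk (e ▸ hi)) _ _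
      refine ⟨Function.update p k q, fun i hi c j hj d hh => ?_, fun i hi => ?_,
        fun i hi j hj n => ?_⟩
      · rcases mem_insert.1 hi with rfl | hi' <;> rcases mem_insert.1 hj with rfl | hj'
        · exact ⟨rfl, b1 (by simpa using hh)⟩
        · rw [e j hj', Function.update_self] at hh
          exact absurd (hh ▸ m j hj' d) (b2 c)
        · rw [e i hi', Function.update_self] at hh
          exact absurd (hh ▸ m i hi' c) (b2 d)
        · rw [e i hi', e j hj'] at hh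
          exact a1 i hi' c j hj' d hh
      · rcases mem_insert.1 hi with rfl | hi
        · simpa using b3
        · rw [e i hi]; exact a2 i hi
      · rcases mem_insert.1 hi with rfl | hi' <;> rcases mem_insert.1 hj with rfl | hj'
        · exact absurd rfl n
        · rw [e j hj', Function.update_self]
          exact Or.inl fun c => b4 _ (m j hj' c)
        · rw [e i hi', Function.update_self]
          exact Or.inr fun c => b4 _ (m i hi' c)
        · rw [e i hi', e j hj']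
          exact a3 i hi' j hj' n
  obtain ⟨p, a1, a2, a3⟩ := key univ
  exact ⟨p, fun i c j d => a1 i (mem_univ _) c j (mem_univ _) d, fun i => a2 i (mem_univ _),
    fun i j => a3 i (mem_univ _) j (mem_univ _)⟩

section
variable {V C : Type} [AddCommGroup C]

def Twin {T : Type} (h : Sym2 V → C) (K : AddSubgroup C) (τ : V → T) : Prop :=
  ∀ u u' w, τ u = τ u' → w ≠ u → w ≠ u' → h s(w, u) - h s(w, u') ∈ K

def Struct (h : Sym2 V → C) (K : AddSubgroup C) (r : ℕ) : Prop :=
  ∃ (T : Type) (_ : Fintype T), Fintype.card T ≤ r ∧ ∃ τ : V → T, Twin h K τ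

lemma Twin.pair {T : Type} {h : Sym2 V → C} {K : AddSubgroup C} {τ : V → T} (t : Twin h K τ)
    {u v u' v' : V} (n : u ≠ v) (n' : u' ≠ v') (e1 : τ u = τ u') (e2 : τ v = τ v') :
    h s(u, v) - h s(u', v') ∈ K := by
  by_cases a : u' = v
  · by_cases b : v' = u
    · rw [a, b, Sym2.eq_swap (a := v)]
      simp
    · have := K.add_mem (t v v' u e2 n (Ne.symm b)) (t u u' v' e1 b n'.symm)
      rw [Sym2.eq_swap (a := v'), Sym2.eq_swap (a := v')] at this
      simpa using this
  · have := K.add_mem (t u u' v e1 n.symm (Ne.symm a)) (t v v' u' e2 a n')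
    rw [Sym2.eq_swap (a := v), Sym2.eq_swap (a := v)] at this
    simpa using this

/-- Gadgets or structure. -/
lemma DL [Fintype C] (s t m : ℕ) : ∃ r, ∀ (V T I : Type) [Fintype V] [Fintype T] [Fintype I]
    (h : Sym2 V → C) (τ : V → T) (S : Finset V) (K : I → AddSubgroup C), S.card ≤ s →
    Fintype.card T ≤ t → Fintype.card I ≤ m → (∃ i, Struct h (K i) r) ∨
    ∃ p : I → Fin 4 → V, (∀ i c j d, p i c = p j d → i = j ∧ c = d) ∧
      (∀ i, (∀ c, p i c ∉ S) ∧ τ (p i 0) = τ (p i 1) ∧ τ (p i 2) = τ (p i 3) ∧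
        alt h (p i 0) (p i 1) (p i 2) (p i 3) ∉ K i) ∧
      ∀ i j, i ≠ j → (∀ c, h s(p j c, p i 0) = h s(p j c, p i 1) ∧
        h s(p j c, p i 2) = h s(p j c, p i 3)) ∨ ∀ c, h s(p i c, p j 0) = h s(p i c, p j 1) ∧
        h s(p i c, p j 2) = h s(p i c, p j 3) := by
  have hC : 1 ≤ Fintype.card C := Fintype.card_pos
  obtain ⟨e, he⟩ : ∃ e, e = s + 4 * m + t * Fintype.card C ^ (4 * m) := ⟨_, rfl⟩
  refine ⟨e + t * Fintype.card C ^ e, fun V T I _ _ _ h τ S0 K h1 h2 h3 => ?_⟩
  rw [or_iff_not_imp_left]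
  intro hn
  refine greedy (fun i q => (∀ c, q c ∉ S0) ∧ τ (q 0) = τ (q 1) ∧ τ (q 2) = τ (q 3) ∧
    alt h (q 0) (q 1) (q 2) (q 3) ∉ K i)
    (fun q x => h s(x, q 0) = h s(x, q 1) ∧ h s(x, q 2) = h s(x, q 3)) fun S hS i => ?_
  by_contra hq
  refine hn ⟨i, ?_⟩
  let t1 : V → T × (S → C) := fun v => (τ v, fun x => h s(x, v))
  have hr : ∀ v, ∃ w, v ∉ S0 ∪ S → w ∉ S0 ∪ S ∧ t1 w = t1 v := fun v => ⟨v, fun h => ⟨h, rfl⟩⟩
  obtain ⟨Rf, r1, r2⟩ : ∃ Rf : Finset V, Rf.card ≤ t * Fintype.card C ^ (4 * m) ∧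
      ∀ v ∉ S0 ∪ S, ∃ w ∈ Rf, w ∉ S0 ∪ S ∧ t1 w = t1 v := by
    obtain ⟨Rf, a, b, c⟩ := exists_subset_injOn_image_eq_of_surjOn
      (f := t1) ((S0 ∪ S)ᶜ : Finset V) (((S0 ∪ S)ᶜ).image t1) (by simp [Set.SurjOn])
    refine ⟨Rf, ?_, fun v hv => ?_⟩
    · refine (card_le_card_of_injOn (t := univ) t1 (by simp) b).trans ?_
      simp only [card_univ, Fintype.card_prod, Fintype.card_fun, Fintype.card_coe]
      exact Nat.mul_le_mul h2 (Nat.pow_le_pow_right hC (by omega))
    · have : t1 v ∈ Rf.image t1 := c ▸ mem_image_of_mem _ (mem_compl.2 hv)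
      obtain ⟨w, w1, w2⟩ := mem_image.1 this
      exact ⟨w, w1, mem_compl.1 (a w1), w2⟩
  let E := S0 ∪ S ∪ Rf
  have hE : E.card ≤ e := (card_union_le _ _).trans (by have := card_union_le S0 S; omega)
  refine ⟨E ⊕ T × (E → C), inferInstance, ?_,
    fun v => if hv : v ∈ E then .inl ⟨v, hv⟩ else .inr (τ v, fun x => h s(x, v)), ?_⟩
  · simp only [Fintype.card_sum, Fintype.card_prod, Fintype.card_fun, Fintype.card_coe]
    exact Nat.add_le_add hE (Nat.mul_le_mul h2 (Nat.pow_le_pow_right hC hE))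
  intro u u' w e1 n1 n2
  by_cases n : u = u'
  · simp [n]
  have ab : u ∉ E ∧ u' ∉ E := by
    by_cases a : u ∈ E <;> by_cases b : u' ∈ E <;> simp [a, b, n] at e1 ⊢
  obtain ⟨a, b⟩ := ab
  simp only [dif_neg a, dif_neg b] at e1
  obtain ⟨e2, e3⟩ := Prod.mk.inj (Sum.inr.inj e1)
  have e4 : ∀ x ∈ E, h s(x, u) = h s(x, u') := fun x hx => congrFun e3 ⟨x, hx⟩
  by_cases c : w ∈ E
  · simp [e4 w c]
  obtain ⟨w', w1, w2, w3⟩ := r2 w fun h => c (mem_union_left _ h)
  have w4 : w' ∈ E := mem_union_right _ w1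
  obtain ⟨w5, w6⟩ := Prod.mk.inj w3
  simp only [E, mem_union, not_or] at a b c w2
  by_contra hK
  refine hq ⟨![u, u', w, w'], ?_, ?_, ⟨?_, e2, w5.symm, ?_⟩, fun x hx =>
    ⟨e4 x (mem_union_left _ (mem_union_right _ hx)), (congrFun w6 ⟨x, hx⟩).symm⟩⟩
  · have : u ≠ w' := fun h => a.2 (h ▸ w1)
    have : u' ≠ w' := fun h => b.2 (h ▸ w1)
    have : w ≠ w' := fun h => c.2 (h ▸ w1)
    intro x y
    fin_cases x <;> fin_cases y <;> simp <;> grind
  · intro x
    fin_cases x <;> simp [a, b, c, w2]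
  · intro x
    fin_cases x <;> simp [a, b, c, w2]
  · have := e4 w' w4
    rw [Sym2.eq_swap (a := w'), Sym2.eq_swap (a := w')] at this
    rw [Sym2.eq_swap (a := w), Sym2.eq_swap (a := w)] at hK
    simpa [alt, this] using hK

end

/-- Packing in blocks, with prescribed places for the vertices of P. -/
lemma PP {V X A B : Type} [Fintype A] [Fintype B] [DecidableEq A] [DecidableEq B] [Nonempty X]
    (M : ℕ) (hM : 0 < M) (τ : V → A)
    (κ : X → B) (b0 : B) (B0 : Finset X) (h0 : M * Fintype.card A ≤ B0.card)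
    (h0' : ∀ x ∈ B0, κ x = b0) (φ0 : V → X) : ∀ (n : ℕ) (V' : Finset V) (X' : Finset X)
    (P : Finset V), V'.card = n → P ⊆ V' → Set.InjOn φ0 P → (∀ v ∈ P, φ0 v ∈ X') →
    Disjoint X' B0 → V'.card + M * Fintype.card B ≤ X'.card →
    (∀ v ∈ P, M * P.card ≤ (V'.filter fun w => τ w = τ v).card ∧
      M * P.card ≤ (X'.filter fun x => κ x = κ (φ0 v)).card) →
    ∃ φ : V → X, Set.InjOn φ V' ∧ (∀ v ∈ V', φ v ∈ X' ∪ B0) ∧ (∀ v ∈ P, φ v = φ0 v) ∧
      ∀ a b, b ≠ b0 → M ∣ (V'.filter fun v => τ v = a ∧ κ (φ v) = b).card := by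
  intro n
  induction n using Nat.strong_induction_on with
  | _ n ih =>
  intro V' X' P hn h1 h2 h3 h4 h5 h6
  have step : ∀ (D : Finset V) (E : Finset X) (e : V → X) (a : A) (b : B), D ⊆ V' → E ⊆ X' →
      D.card = M → E.card = M → (∀ v ∈ D, τ v = a) → (∀ x ∈ E, κ x = b) → Set.InjOn e D →
      (∀ v ∈ D, e v ∈ E) → (∀ v ∈ P, v ∈ D → e v = φ0 v) → (∀ v ∈ P, v ∉ D → φ0 v ∉ E) →
      (P.Nonempty → (P \ D).card < P.card) →
      ∃ φ : V → X, Set.InjOn φ V' ∧ (∀ v ∈ V', φ v ∈ X' ∪ B0) ∧ (∀ v ∈ P, φ v = φ0 v) ∧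
        ∀ a b, b ≠ b0 → M ∣ (V'.filter fun v => τ v = a ∧ κ (φ v) = b).card := by
    intro D E e a b d1 d2 d3 d4 d5 d6 d7 d8 d9 d10 d11
    have c1 := card_sdiff_add_card_eq_card d1
    have c2 := card_sdiff_add_card_eq_card d2
    obtain ⟨φ, p1, p2, p3, p4⟩ := ih _ (by omega) (V' \ D) (X' \ E) (P \ D) rfl
      (sdiff_subset_sdiff h1 Subset.rfl) (h2.mono (by simp))
      (fun v hv => mem_sdiff.2 ⟨h3 v (mem_sdiff.1 hv).1, d10 v (mem_sdiff.1 hv).1 (mem_sdiff.1 hv).2⟩)
      (disjoint_of_subset_left sdiff_subset h4) (by omega) (fun v hv => by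
        have a1 := h6 v (mem_sdiff.1 hv).1
        have a2 := Nat.mul_le_mul_left M (d11 ⟨v, (mem_sdiff.1 hv).1⟩)
        have a3 := le_card_sdiff D (V'.filter fun w => τ w = τ v)
        have a4 := le_card_sdiff E (X'.filter fun x => κ x = κ (φ0 v))
        rw [Nat.mul_succ] at a2
        rw [show (V' \ D).filter (fun w => τ w = τ v) = (V'.filter fun w => τ w = τ v) \ D by
          ext; simp; tauto, show (X' \ E).filter (fun x => κ x = κ (φ0 v)) =
          (X'.filter fun x => κ x = κ (φ0 v)) \ E by ext; simp; tauto]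
        omega)
    have q : ∀ v ∈ V', v ∉ D → φ v ∉ E := fun v hv hv' hh => by
      rcases mem_union.1 (p2 v (mem_sdiff.2 ⟨hv, hv'⟩)) with h | h
      exacts [(mem_sdiff.1 h).2 hh, Finset.disjoint_left.1 h4 (d2 hh) h]
    refine ⟨fun v => if v ∈ D then e v else φ v, fun v hv w hw hh => ?_, fun v hv => ?_,
      fun v hv => ?_, fun a' b' hb => ?_⟩
    · dsimp only at hh
      split_ifs at hh with x y y
      · exact d7 x y hh
      · exact absurd (hh ▸ d8 v x) (q w hw y)
      · exact absurd (hh ▸ d8 w y) (q v hv x)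
      · exact p1 (mem_sdiff.2 ⟨hv, x⟩ : v ∈ V' \ D) (mem_sdiff.2 ⟨hw, y⟩ : w ∈ V' \ D) hh
    · dsimp only
      split_ifs with x
      · exact mem_union_left _ (d2 (d8 v x))
      · exact union_subset_union sdiff_subset Subset.rfl (p2 v (mem_sdiff.2 ⟨hv, x⟩))
    · dsimp only
      split_ifs with x
      exacts [d9 v hv x, p3 v (mem_sdiff.2 ⟨hv, x⟩)]
    · rw [← sdiff_union_of_subset d1, filter_union, card_union_of_disjoint
        (disjoint_filter_filter sdiff_disjoint)]
      refine dvd_add ?_ ?_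
      · rw [filter_congr (q := fun v => τ v = a' ∧ κ (φ v) = b') fun v hv => by
          simp only [if_neg (mem_sdiff.1 hv).2]]
        exact p4 a' b' hb
      · rw [filter_congr (q := fun _ => a = a' ∧ b = b') fun v hv => by
          simp only [if_pos hv, d5 v hv, d6 _ (d8 v hv)], filter_const]
        split_ifs <;> simp [d3]
  have bij : ∀ (D : Finset V) (E : Finset X), D.card ≤ E.card →
      ∃ e : V → X, Set.InjOn e D ∧ ∀ v ∈ D, e v ∈ E := fun D E h => by
    obtain ⟨e, a, b⟩ := D.finite_toSet.exists_injOn_of_encard_le (t := (E : Set X))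
      (by simpa using h)
    exact ⟨e, b, a⟩
  obtain ⟨M, rfl⟩ : ∃ M', M = M' + 1 := ⟨M - 1, by omega⟩
  rcases P.eq_empty_or_nonempty with rfl | ⟨v0, hv0⟩
  · by_cases hb : ∃ a, M + 1 ≤ (V'.filter fun v => τ v = a).card
    · obtain ⟨a, ha⟩ := hb
      obtain ⟨D, d1, d2⟩ := exists_subset_card_eq ha
      have := card_filter_le V' fun v => τ v = a
      obtain ⟨b, -, hb⟩ := exists_lt_card_fiber_of_mul_lt_card_of_maps_to (s := X') (t := univ)
        (f := κ) (n := M) (by simp) (by rw [card_univ]; nlinarith)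
      obtain ⟨E, e1, e2⟩ := exists_subset_card_eq hb
      obtain ⟨e, e3, e4⟩ := bij D E (by omega)
      exact step D E e a b (d1.trans (filter_subset _ _)) (e1.trans (filter_subset _ _)) d2 e2
        (fun v hv => (mem_filter.1 (d1 hv)).2) (fun v hv => (mem_filter.1 (e1 hv)).2) e3 e4
        (by simp) (by simp) (by simp)
    · push Not at hb
      obtain ⟨e, e3, e4⟩ := bij V' B0 (le_trans (by
        simpa using card_le_mul_card_image_of_maps_to (f := τ) (t := univ) (s := V') (by simp)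
          (M + 1) fun a _ => (hb a).le) h0)
      refine ⟨e, e3, fun v hv => mem_union_right _ (e4 v hv), by simp, fun a b hb => ?_⟩
      rw [filter_eq_empty_iff.2 fun v hv h => hb (h.2.symm.trans (h0' _ (e4 v hv)))]
      simp
  · obtain ⟨a1, a2⟩ := h6 v0 hv0
    have a3 := le_card_sdiff P (V'.filter fun w => τ w = τ v0)
    have a4 := le_card_sdiff (P.image φ0) (X'.filter fun x => κ x = κ (φ0 v0))
    have a5 := card_image_le (s := P) (f := φ0)
    have a6 := Nat.mul_le_mul_left M (card_pos.2 ⟨v0, hv0⟩)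
    rw [Nat.succ_mul] at a1 a2
    obtain ⟨D, d1, d2⟩ := exists_subset_card_eq
      (show M ≤ ((V'.filter fun w => τ w = τ v0) \ P).card by omega)
    obtain ⟨E, e1, e2⟩ := exists_subset_card_eq
      (show M ≤ ((X'.filter fun x => κ x = κ (φ0 v0)) \ P.image φ0).card by omega)
    obtain ⟨e, e3, e4⟩ := bij D E (by omega)
    have nD : ∀ v ∈ P, v ∉ D := fun v hv h => (mem_sdiff.1 (d1 h)).2 hv
    have nE : ∀ v ∈ P, φ0 v ∉ E := fun v hv h => (mem_sdiff.1 (e1 h)).2 (mem_image_of_mem _ hv)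
    have u : ∀ v ∈ D, Function.update e v0 (φ0 v0) v = e v := fun v hv =>
      Function.update_of_ne (fun h : v = v0 => nD v0 hv0 (h ▸ hv)) _ _
    refine step (insert v0 D) (insert (φ0 v0) E) (Function.update e v0 (φ0 v0)) (τ v0) (κ (φ0 v0))
      (insert_subset (h1 hv0) fun v hv => (mem_filter.1 (mem_sdiff.1 (d1 hv)).1).1)
      (insert_subset (h3 _ hv0) fun v hv => (mem_filter.1 (mem_sdiff.1 (e1 hv)).1).1)
      (by rw [card_insert_of_notMem (nD v0 hv0), d2])
      (by rw [card_insert_of_notMem (nE v0 hv0), e2]) ?_ ?_ ?_ ?_ ?_ ?_ fun _ => ?_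
    · simpa using fun v hv => (mem_filter.1 (mem_sdiff.1 (d1 hv)).1).2
    · simpa using fun v hv => (mem_filter.1 (mem_sdiff.1 (e1 hv)).1).2
    · intro v hv w hw hh
      rcases mem_insert.1 hv with rfl | hv' <;> rcases mem_insert.1 hw with rfl | hw'
      · rfl
      · rw [u w hw', Function.update_self] at hh
        exact absurd (hh ▸ e4 w hw') (nE _ hv0)
      · rw [u v hv', Function.update_self] at hh
        exact absurd (hh ▸ e4 v hv') (nE _ hv0)
      · rw [u v hv', u w hw'] at hh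
        exact e3 hv' hw' hh
    · intro v hv
      rcases mem_insert.1 hv with rfl | hv
      · simp
      · rw [u v hv]; exact mem_insert_of_mem (e4 v hv)
    · intro v hv hv'
      rcases mem_insert.1 hv' with rfl | hv'
      exacts [by simp, absurd hv' (nD v hv)]
    · intro v hv hv' hh
      rcases mem_insert.1 hh with hh | hh
      exacts [hv' (h2 hv hv0 hh ▸ mem_insert_self _ _), nE v hv hh]
    · exact card_lt_card ⟨sdiff_subset, fun h => (mem_sdiff.1 (h hv0)).2 (mem_insert_self _ _)⟩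

lemma ramsey {C : Type} [Fintype C] [Nonempty C] : ∀ (s : ℕ) (n : C → ℕ), ∑ c, n c = s → ∃ N, ∀ (X : Type)
    (f : Sym2 X → C) (S : Finset X), N ≤ S.card → ∃ c, ∃ T ⊆ S, T.card = n c ∧
      ∀ x ∈ T, ∀ y ∈ T, x ≠ y → f s(x, y) = c := by
  intro s
  induction s using Nat.strong_induction_on with
  | _ s ih =>
  intro n hn
  by_cases h0 : ∃ c, n c = 0
  · obtain ⟨c, hc⟩ := h0
    exact ⟨0, fun X f S _ => ⟨c, ∅, by simp, by simp [hc], by simp⟩⟩
  push Not at h0
  choose N hN using fun c => ih _ (by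
    rw [← hn]
    refine sum_lt_sum (fun d _ => ?_) ⟨c, mem_univ _, ?_⟩
    · by_cases e : d = c
      · subst e; simp
      · simp [e]
    · have := h0 c
      simp; omega) (Function.update n c (n c - 1)) rfl
  refine ⟨Fintype.card C * univ.sup N + 1, fun X f S hS => ?_⟩
  obtain ⟨x, hx⟩ : S.Nonempty := card_pos.1 (by omega)
  obtain ⟨c, -, hc⟩ := exists_le_card_fiber_of_mul_le_card_of_maps_to (s := S.erase x) (t := univ)
    (f := fun y => f s(x, y)) (n := univ.sup N) (by simp) univ_nonempty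
    (by rw [card_erase_of_mem hx, card_univ]; omega)
  obtain ⟨d, T, t1, t2, t3⟩ := hN c X f _ ((le_sup (f := N) (mem_univ c)).trans hc)
  have t4 : ∀ y ∈ T, y ≠ x ∧ y ∈ S ∧ f s(x, y) = c := fun y hy => by
    simpa [and_assoc] using t1 hy
  by_cases e : d = c
  · subst e
    refine ⟨d, insert x T, insert_subset hx fun y hy => (t4 y hy).2.1, ?_, ?_⟩
    · rw [card_insert_of_notMem fun h => (t4 x h).1 rfl, t2, Function.update_self]
      have := h0 d
      omega
    · intro y hy z hz n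
      rcases mem_insert.1 hy with rfl | hy' <;> rcases mem_insert.1 hz with rfl | hz'
      · exact absurd rfl n
      · exact (t4 z hz').2.2
      · rw [Sym2.eq_swap]; exact (t4 y hy').2.2
      · exact t3 y hy' z hz' n
  · exact ⟨d, T, fun y hy => (t4 y hy).2.1, by rw [t2, Function.update_of_ne e], t3⟩

end Pool.Agent.H14.Zs
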