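import Pool.Agent.H14.Zs2

set_option autoImplicit false
set_option linter.unusedSectionVars false

namespace Pool.Agent.H14.Zs

open Finset
open scoped Classical

def Z {V X : Type} [Fintype V] {k : ℕ} (G : SimpleGraph V) (f : Sym2 X → ZMod k) : Prop :=
  ∃ φ : V ↪ X, ∑ e ∈ G.edgeFinset, f (e.map φ) = 0

noncomputable def ind {V : Type} (G : SimpleGraph V) (C : Type) [Ring C] (e : Sym2 V) : C :=
  if e ∈ G.edgeSet then 1 else 0

lemma small {V T : Type} [Fintype V] [Fintype T] [DecidableEq T] (τ : V → T) (L : ℕ) :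
    (univ.filter fun v => (univ.filter fun w => τ w = τ v).card < L).card ≤ L * Fintype.card T := by
  refine card_le_mul_card_image_of_maps_to (f := τ) (t := univ) (by simp) L fun a _ => ?_
  rcases ((univ.filter fun v => (univ.filter fun w => τ w = τ v).card < L).filter
    fun v => τ v = a).eq_empty_or_nonempty with h | ⟨v, hv⟩
  · simp [h]
  · simp only [mem_filter, mem_univ, true_and] at hv
    refine le_trans (card_le_card fun w hw => ?_) hv.1.le
    simp only [mem_filter, mem_univ, true_and] at hw ⊢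
    rw [hw.2, hv.2]

lemma large {V T : Type} [Fintype V] [Fintype T] [DecidableEq T] (τ : V → T) (L : ℕ)
    (h : L * Fintype.card T < Fintype.card V) : ∃ b, L ≤ (univ.filter fun w => τ w = b).card := by
  obtain ⟨v, -, hv⟩ := exists_mem_notMem_of_card_lt_card ((small τ L).trans_lt h)
  exact ⟨τ v, by simpa using hv⟩

lemma hd_of {V A B : Type} [DecidableEq A] [DecidableEq B] {M : ℕ}
    {V' : Finset V} {τ : V → A} {κ : V → B} {b0 : B}
    (h : ∀ a b, b ≠ b0 → M ∣ (V'.filter fun v => τ v = a ∧ κ v = b).card) :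
    ∃ S : Finset V, (∀ v, v ∈ S ↔ v ∈ V' ∧ κ v ≠ b0) ∧ ∀ b : A × B,
    M ∣ (@filter _ (fun v => (τ v, κ v) = b) (fun _ => Classical.propDecidable _) S).card := by
  refine ⟨V'.filter fun v => κ v ≠ b0, fun v => mem_filter, fun b => ?_⟩
  by_cases e : b.2 = b0
  · refine (congrArg _ ?_).mpr (dvd_zero M)
    rw [card_eq_zero]
    ext v
    simp only [mem_filter, Prod.ext_iff, notMem_empty]
    grind
  · refine (congrArg _ ?_).mpr (h b.1 b.2 e)
    congr 1
    ext v
    simp only [mem_filter, Prod.ext_iff]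
    grind

lemma bij {V X : Type} [Nonempty X] (D : Finset V) (E : Finset X) (h : D.card ≤ E.card) :
    ∃ e : V → X, Set.InjOn e D ∧ ∀ v ∈ D, e v ∈ E := by
  obtain ⟨e, a, b⟩ := D.finite_toSet.exists_injOn_of_encard_le (t := (E : Set X))
    (by simpa using h)
  exact ⟨e, b, a⟩

lemma cross_of {V I C : Type} [AddCommGroup C] {h : Sym2 V → C} {p : I → Fin 4 → V} {i j : I}
    (a : (∀ c, h s(p j c, p i 0) = h s(p j c, p i 1) ∧ h s(p j c, p i 2) = h s(p j c, p i 3)) ∨
      ∀ c, h s(p i c, p j 0) = h s(p i c, p j 1) ∧ h s(p i c, p j 2) = h s(p i c, p j 3)) :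
    alt h (p i 0) (p i 1) (p j 0) (p j 1) = 0 ∧ alt h (p i 0) (p i 1) (p j 2) (p j 3) = 0 := by
  rcases a with a | a
  · have b : ∀ c, h s(p i 0, p j c) = h s(p i 1, p j c) := fun c => by
      rw [Sym2.eq_swap, (a c).1, Sym2.eq_swap]
    simp [alt, b]
  · simp [alt, a]

variable {k : ℕ} [NeZero k]

lemma hk (x : ZMod k) : k • x = 0 := by simp

lemma fin {V : Type} [Fintype V] {G : SimpleGraph V} (he : k ∣ G.edgeFinset.card)
    (F : Sym2 V → ZMod k) (a : ZMod k) :
    ∑ e ∈ G.edgeFinset, (F e - a) = ∑ e ∈ G.edgeFinset, F e := by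
  obtain ⟨c, hc⟩ := he
  simp [sum_sub_distrib, hc]

abbrev IH (H : AddSubgroup (ZMod k)) := {H' : AddSubgroup (ZMod k) // H' < H} × Fin k

noncomputable instance : Fintype (AddSubgroup (ZMod k)) := Fintype.ofFinite _

abbrev J (k : ℕ) := AddSubgroup (ZMod k) × Fin k

def ι {H : AddSubgroup (ZMod k)} (i : IH H) : J k := (i.1.1, i.2)

lemma ι_inj {H : AddSubgroup (ZMod k)} : Function.Injective (ι (H := H)) := fun _ _ e =>
  Prod.ext (Subtype.ext (Prod.mk.inj e).1) (Prod.mk.inj e).2

lemma hK (H H' : AddSubgroup (ZMod k)) (h : H' < H) :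
    Fintype.card (ZMod k) ≤ (univ.filter fun i : IH H => i.1.1 = H').card := by
  rw [ZMod.card]
  simpa using card_le_card_of_injOn (s := univ) (t := univ.filter fun i : IH H => i.1.1 = H')
    (fun j : Fin k => (⟨H', h⟩, j)) (fun j _ => by simp) fun a _ b _ e => (Prod.mk.inj e).2

lemma caseA (k : ℕ) [NeZero k] (s : ℕ) : ∃ c, ∀ (V X : Type) [Fintype V] [Fintype X]
    (G : SimpleGraph V) (f : Sym2 X → ZMod k) (S : Finset V), S.card ≤ s →
    (∀ u v, G.Adj u v → u ∈ S ∨ v ∈ S) → k ∣ G.edgeFinset.card →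
    Fintype.card V + c ≤ Fintype.card X → Z G f := by
  have hk0 := NeZero.pos k
  obtain ⟨N, hN⟩ := ramsey _ (fun _ : ZMod k => s + 2 * k * 2 ^ s) rfl
  refine ⟨N + 2 * k * k ^ s + (s + 2 * k * 2 ^ s) + 1, fun V X _ _ G f S h1 h2 h3 h4 => ?_⟩
  have : Nonempty X := Fintype.card_pos_iff.1 (by omega)
  obtain ⟨a, T, -, t2, t3⟩ := hN X f univ (by rw [card_univ]; omega)
  obtain ⟨e, e1, e2⟩ := bij S T (by omega)
  let τ : V → S → Bool := fun v x => decide (G.Adj x v)
  let κ : X → S → ZMod k := fun x t => f s(e t, x)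
  obtain ⟨φ, p1, p2, -, p4⟩ := PP (2 * k) (by omega) τ κ (fun _ => a) (T \ S.image e) (by
      have := le_card_sdiff (S.image e) T
      have := card_image_le (s := S) (f := e)
      have := Nat.mul_le_mul_left (2 * k) (Nat.pow_le_pow_right two_pos h1)
      simp only [Fintype.card_fun, Fintype.card_bool, Fintype.card_coe]
      omega)
    (fun x hx => funext fun t => t3 _ (e2 _ t.2) _ (mem_sdiff.1 hx).1 fun h =>
      (mem_sdiff.1 hx).2 (h ▸ mem_image_of_mem _ t.2))
    e _ Sᶜ Tᶜ ∅ rfl (by simp) (by simp) (by simp)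
    (disjoint_of_subset_right sdiff_subset disjoint_compl_left) (by
      have := card_le_univ Sᶜ
      have := Nat.mul_le_mul_left (2 * k) (Nat.pow_le_pow_right hk0 h1)
      simp only [Fintype.card_fun, ZMod.card, Fintype.card_coe, card_compl T]
      omega) (by simp)
  have q : ∀ v ∉ S, ∀ u ∈ S, e u ≠ φ v := fun v hv u hu hh => by
    rcases mem_union.1 (p2 v (mem_compl.2 hv)) with h | h
    exacts [mem_compl.1 h (hh ▸ e2 u hu), (mem_sdiff.1 h).2 (hh ▸ mem_image_of_mem _ hu)]
  let ψ : V → X := fun v => if v ∈ S then e v else φ v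
  have a1 : ∀ v ∈ S, ψ v = e v := fun v hv => if_pos hv
  have a2 : ∀ v ∉ S, ψ v = φ v := fun v hv => if_neg hv
  refine ⟨⟨ψ, fun v w hh => ?_⟩, ?_⟩
  · by_cases x : v ∈ S <;> by_cases y : w ∈ S
    · exact e1 x y (by rwa [a1 v x, a1 w y] at hh)
    · exact absurd (by rwa [a1 v x, a2 w y] at hh) (q w y v x)
    · exact absurd (by rw [a2 v x, a1 w y] at hh; exact hh.symm) (q v x w y)
    · exact p1 (mem_compl.2 x : v ∈ Sᶜ) (mem_compl.2 y : w ∈ Sᶜ) (by rwa [a2 v x, a2 w y] at hh)
  rw [← fin h3 _ a, ← AddSubgroup.mem_bot]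
  obtain ⟨S', s1, s2⟩ := hd_of p4
  have b1 : ∀ u v, u ∈ S → G.Adj u v → v ∉ S' → f s(ψ u, ψ v) = a := by
    intro u v hu h hv
    by_cases y : v ∈ S
    · rw [a1 u hu, a1 v y]
      exact t3 _ (e2 u hu) _ (e2 v y) fun hh => h.ne (e1 hu y hh)
    · rw [a1 u hu, a2 v y]
      exact congrFun (show κ (φ v) = fun _ => a by simpa [y, s1] using hv) ⟨u, hu⟩
  refine BL k hk ⊥ G _ (fun v => (τ v, κ (φ v))) _ (fun u v h hu hv => ?_)
    (fun v hv w hw e u n1 n2 h => ?_) s2
  · rcases h2 u v h with x | x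
    · simp [b1 u v x h hv]
    · simp [Sym2.eq_swap (a := ψ u), b1 v u x h.symm hu]
  · have x := mem_compl.1 ((s1 v).1 hv).1
    have y := mem_compl.1 ((s1 w).1 hw).1
    have z := (h2 u v h).resolve_right x
    obtain ⟨e3, e4⟩ := Prod.mk.inj e
    refine ⟨by simpa [τ, h] using congrFun e3 ⟨u, z⟩, ?_⟩
    simpa [a1 u z, a2 v x, a2 w y, sub_eq_zero] using congrFun e4 ⟨u, z⟩

lemma twin_adj {V T : Type} {G : SimpleGraph V} {τ : V → T} (t : Twin (ind G (ZMod 2)) ⊥ τ)
    {u v u' v' : V} (n' : u' ≠ v') (e1 : τ u = τ u') (e2 : τ v = τ v') (h : G.Adj u v) :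
    G.Adj u' v' := by
  have := t.pair h.ne n' e1 e2
  by_contra hn
  simp [ind, h, hn] at this

lemma QB {V X : Type} [Fintype V] [Fintype X] (G : SimpleGraph V) (f : Sym2 X → ZMod k) {φ : V → X}
    (hφ : Function.Injective φ) (π : Equiv.Perm X) :
    Q f (fun e => if e ∈ G.edgeFinset.image (Sym2.map φ) then 1 else 0) π =
      ∑ e ∈ G.edgeFinset, f (e.map (π.symm ∘ φ)) := by
  rw [Q, Fintype.sum_bijective (Sym2.map π) (Function.bijective_iff_has_inverse.2
    ⟨Sym2.map π.symm, fun e => by simp [Sym2.map_map], fun e => by simp [Sym2.map_map]⟩) _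
    (fun e => if e ∈ G.edgeFinset.image (Sym2.map φ) then f (e.map π.symm) else 0)
    fun e => by simp [Sym2.map_map], sum_ite_mem, univ_inter,
    sum_image (Sym2.map.injective hφ).injOn]
  simp [Sym2.map_map]

lemma caseB (k : ℕ) [NeZero k] (r : ℕ) (H : AddSubgroup (ZMod k)) : ∀ r' : ℕ, ∃ c,
    ∀ (V X T : Type) [Fintype V] [Fintype X] [Fintype T] (G : SimpleGraph V) (f : Sym2 X → ZMod k)
    (τ : V → T), Fintype.card T ≤ r → Twin (ind G (ZMod 2)) ⊥ τ →
    (∃ u v, G.Adj u v ∧ 2 * k * (2 * Fintype.card (J k)) ≤ (univ.filter fun w => τ w = τ u).card ∧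
      2 * k * (2 * Fintype.card (J k)) ≤ (univ.filter fun w => τ w = τ v).card) →
    k ∣ G.edgeFinset.card → Fintype.card V + c ≤ Fintype.card X → Struct f H r' → Z G f := by
  induction H using WellFoundedLT.induction with
  | _ H ih =>
  intro r'
  have hk0 := NeZero.pos k
  obtain ⟨m, hm⟩ : ∃ m, m = Fintype.card (J k) := ⟨_, rfl⟩
  have hI : Fintype.card (IH H) ≤ m := hm ▸ Fintype.card_le_of_injective _ ι_inj
  rw [← hm] at ih ⊢
  obtain ⟨L, hL⟩ : ∃ L, L = 2 * k * (2 * m) + 2 * k * r + 2 + 4 * m := ⟨_, rfl⟩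
  obtain ⟨r2, h2⟩ := DL (C := ZMod k) (L * r') r' m
  choose cH hc using fun H' : {H' // H' < H} => ih H'.1 H'.2 r2
  refine ⟨univ.sup cH + L * r' + 2 * k * r' + L, ?_⟩
  rintro V X T _ _ _ G f τ a1 a2 ⟨u0, w0, a3, a4, a5⟩ a6 a7 ⟨T', _, a8, κ, a9⟩
  have : Nonempty X := Fintype.card_pos_iff.1 (by omega)
  have : Nonempty V := ⟨u0⟩
  have a10 := Nat.mul_le_mul_left L a8
  rcases h2 X T' (IH H) f κ _ (fun i => i.1.1) ((small κ L).trans a10) a8 hI with
    ⟨i, hi⟩ | ⟨p, p1, p2, p3⟩
  · exact hc i.1 V X T G f τ a1 a2 ⟨u0, w0, a3, a4, a5⟩ a6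
      (by have := le_sup (f := cH) (mem_univ i.1); omega) hi
  have m2 : 2 * m ≤ 2 * k * (2 * m) := Nat.le_mul_of_pos_left _ (by omega)
  obtain ⟨U, u1, u2⟩ := bij (univ : Finset (IH H)) (univ.filter fun w => τ w = τ u0)
    (by rw [card_univ]; omega)
  obtain ⟨W, w1, w2⟩ := bij (univ : Finset (IH H)) ((univ.filter fun w => τ w = τ w0) \
    univ.image U) (by
      have := le_card_sdiff (univ.image U) (univ.filter fun w => τ w = τ w0)
      have := card_image_le (s := univ) (f := U)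
      rw [card_univ] at *
      omega)
  simp only [mem_univ, mem_filter, true_and, forall_const, mem_sdiff, mem_image, not_exists,
    coe_univ, Set.injOn_univ] at u1 u2 w1 w2
  have uw : Function.Injective (Sum.elim U W) := u1.sumElim w1 fun i j => (w2 j).2 i
  let y : IH H ⊕ IH H → X := Sum.elim (p · 0) (p · 2)
  have y1 : ∀ z, ∃ i c, y z = p i c ∧ c ≠ 1 ∧ c ≠ 3 := by
    rintro (i | i)
    exacts [⟨i, 0, rfl, by decide, by decide⟩, ⟨i, 2, rfl, by decide, by decide⟩]
  have y2 : Function.Injective y := Function.Injective.sumElim (fun i j e => (p1 _ _ _ _ e).1)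
    (fun i j e => (p1 _ _ _ _ e).1) fun i j e => absurd (p1 _ _ _ _ e).2 (by decide)
  obtain ⟨b0, hb⟩ := large κ L (by omega)
  have g1 : (univ.image fun z : IH H × Fin 4 => p z.1 z.2).card ≤ 4 * m :=
    card_image_le.trans (by simp only [card_univ, Fintype.card_prod (IH H), Fintype.card_fin]; omega)
  obtain ⟨B0, b1, b2⟩ := exists_subset_card_eq (show 2 * k * r + 2 ≤ ((univ.filter fun w =>
    κ w = b0) \ univ.image fun z : IH H × Fin 4 => p z.1 z.2).card from
    le_trans (by omega) (le_card_sdiff _ _))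
  have b3 : ∀ i c, p i c ∉ B0 := fun i c h =>
    (mem_sdiff.1 (b1 h)).2 (mem_image.2 ⟨(i, c), mem_univ _, rfl⟩)
  have b4 : ∀ x ∈ B0, κ x = b0 := fun x hx => (mem_filter.1 (mem_sdiff.1 (b1 hx)).1).2
  let D := B0 ∪ (univ.image (p · 1) ∪ univ.image (p · 3))
  have d1 : D.card ≤ 2 * k * r + 2 + 2 * m := by
    have := card_union_le B0 (univ.image (p · 1) ∪ univ.image (p · 3))
    have := card_union_le (univ.image (p · 1)) (univ.image (p · 3))
    have := card_image_le (s := univ) (f := (p · 1))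
    have := card_image_le (s := univ) (f := (p · 3))
    rw [card_univ] at *
    simp only [D]
    omega
  have d2 : (univ.image (Sum.elim U W)).card ≤ 2 * m :=
    card_image_le.trans (by simp only [card_univ, Fintype.card_sum]; omega)
  have d3 := Nat.mul_le_mul_left (2 * k) d2
  obtain ⟨φ, q1, q2, q3, q4⟩ := PP (2 * k) (by omega) τ κ b0 B0
    (by have := Nat.mul_le_mul_left (2 * k) a1; omega) b4
    (Function.extend (Sum.elim U W) y fun _ => Classical.arbitrary X) _ univ Dᶜ
    (univ.image (Sum.elim U W)) rfl (subset_univ _) (by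
      simp only [coe_image, coe_univ, Set.image_univ]
      rintro _ ⟨a, rfl⟩ _ ⟨b, rfl⟩ e
      rw [uw.extend_apply, uw.extend_apply] at e
      rw [y2 e]) (by
      simp only [mem_image, mem_univ, true_and]
      rintro _ ⟨a, rfl⟩
      obtain ⟨i, c, e, n1, n2⟩ := y1 a
      rw [uw.extend_apply, e]
      simp only [D, mem_compl, mem_union, mem_image, mem_univ, true_and, not_or, not_exists]
      exact ⟨b3 i c, fun j h => n1 (p1 _ _ _ _ h).2.symm, fun j h => n2 (p1 _ _ _ _ h).2.symm⟩)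
    (disjoint_of_subset_right subset_union_left disjoint_compl_left) (by
      have := Nat.mul_le_mul_left (2 * k) a8
      rw [card_compl, card_univ]
      omega) (by
      intro v hv
      obtain ⟨a, -, rfl⟩ := mem_image.1 hv
      obtain ⟨i, c, e, -⟩ := y1 a
      rw [uw.extend_apply, e]
      refine ⟨d3.trans ?_, ?_⟩
      · rcases a with a | a
        · simpa [u2] using a4
        · simpa [(w2 a).1] using a5
      · have := (p2 i).1 c
        simp only [mem_filter, mem_univ, true_and, not_lt] at this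
        have := le_card_sdiff D (univ.filter fun x => κ x = κ (p i c))
        rw [show Dᶜ.filter (fun x => κ x = κ (p i c)) = (univ.filter fun x => κ x = κ (p i c)) \ D by
          ext; simp; tauto]
        omega)
  have q5 : Function.Injective φ := by simpa using q1
  have q6 : ∀ z, φ (Sum.elim U W z) = y z := fun z => by
    rw [q3 _ (mem_image_of_mem _ (mem_univ z)), uw.extend_apply]
  have q7 : ∀ i c x, c = 1 ∨ c = 3 → s(p i c, x) ∉ G.edgeFinset.image (Sym2.map φ) := by
    intro i c x hc h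
    obtain ⟨e, -, he⟩ := mem_image.1 h
    obtain ⟨v, -, hv⟩ := Sym2.mem_map.1 (show p i c ∈ e.map φ by simp [he])
    rcases mem_union.1 (q2 v (mem_univ v)) with h | h <;> rw [hv] at h
    · refine mem_compl.1 h (mem_union_right _ ?_)
      rcases hc with rfl | rfl
      exacts [mem_union_left _ (mem_image_of_mem _ (mem_univ i)),
        mem_union_right _ (mem_image_of_mem _ (mem_univ i))]
    · exact b3 i c h
  have sw : ∀ (π : Equiv.Perm X) x x', κ x = κ x' →
      Q f (fun e => if e ∈ G.edgeFinset.image (Sym2.map φ) then 1 else 0) (π * Equiv.swap x x') -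
      Q f (fun e => if e ∈ G.edgeFinset.image (Sym2.map φ) then 1 else 0) π ∈ H := by
    intro π x x' e
    rw [QB G f q5, QB G f q5, ← sum_sub_distrib]
    refine H.sum_mem fun z hz => ?_
    induction z using Sym2.ind with
    | _ u v =>
      have n : u ≠ v := (by simpa using hz : G.Adj u v).ne
      have k1 : ∀ z, κ ((π * Equiv.swap x x').symm z) = κ (π.symm z) := fun z => by
        change κ (Equiv.swap x x' (π.symm z)) = _
        rw [Equiv.swap_apply_def]
        split_ifs with a b <;> simp [*]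
      exact a9.pair (((Equiv.injective _).comp q5).ne n) (((Equiv.injective _).comp q5).ne n)
        (k1 _) (k1 _)
  obtain ⟨π, hπ⟩ := ST f (fun e => if e ∈ G.edgeFinset.image (Sym2.map φ) then 1 else 0) H
    (fun i : IH H => i.1.1) p p1 (fun i j n => cross_of (p3 i j n)) (fun i => by
      have e1 : s(p i 0, p i 2) ∈ G.edgeFinset.image (Sym2.map φ) :=
        mem_image.2 ⟨s(U i, W i), by
          simpa using twin_adj a2 ((w2 i).2 i) (u2 i).symm (w2 i).1.symm a3, by
          rw [Sym2.map_mk]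
          exact congrArg₂ _ (q6 (.inl i)) (q6 (.inr i))⟩
      have e2 := q7 i 1 (p i 2) (Or.inl rfl)
      have e3 := q7 i 1 (p i 3) (Or.inl rfl)
      have e4 := q7 i 3 (p i 0) (Or.inr rfl)
      rw [Sym2.eq_swap] at e4
      rw [alt, alt, if_pos e1, if_neg e2, if_neg e3, if_neg e4]
      simpa [alt] using (p2 i).2.2.2)
    (fun π i => ⟨sw π _ _ (p2 i).2.1, sw π _ _ (p2 i).2.2.1⟩) (hK H) (by
      obtain ⟨x1, h1, x2, h2, n⟩ := one_lt_card.1 (show 1 < B0.card by omega)
      obtain ⟨S', s1, s2⟩ := hd_of q4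
      rw [QB G f q5, ← fin a6 _ (f s(x1, x2))]
      refine BL k hk H G _ (fun v => (τ v, κ (φ v))) _ (fun u v h hu hv => ?_)
        (fun v hv w hw e u n1 n2 h => ?_) s2
      · simp only [s1, mem_univ, true_and, not_not] at hu hv
        exact a9.pair (q5.ne h.ne) n (hu.trans (b4 _ h1).symm) (hv.trans (b4 _ h2).symm)
      · obtain ⟨e3, e4⟩ := Prod.mk.inj e
        refine ⟨twin_adj a2 n2 rfl e3 h, ?_⟩
        rw [sub_sub_sub_cancel_right]
        exact a9.pair (q5.ne n1) (q5.ne n2) rfl e4)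
  exact ⟨⟨_, π.symm.injective.comp q5⟩, by rw [← hπ, QB G f q5]; rfl⟩

end Pool.Agent.H14.Zs
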