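import Pool.Agent.H14.Zs3

set_option autoImplicit false
set_option linter.unusedSectionVars false

namespace Pool.Agent.H14.Zs

open Finset
open scoped Classical

variable {k : ℕ} [NeZero k]

def Addi {X : Type} (f : Sym2 X → ZMod k) (H : AddSubgroup (ZMod k)) (s : ℕ) : Prop :=
  ∃ S : Finset X, S.card ≤ s ∧ ∃ (g : X → ZMod k) (a : ZMod k), ∀ x ∉ S, ∀ y ∉ S, x ≠ y →
    f s(x, y) - (g x + g y + a) ∈ H

lemma addL {X : Type} [Fintype X] (f : Sym2 X → ZMod k) (K : AddSubgroup (ZMod k)) (S : Finset X)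
    (hS : S.card + 3 ≤ Fintype.card X) (h : ∀ q : Fin 4 → X, Function.Injective q →
      (∀ c, q c ∉ S) → alt f (q 0) (q 1) (q 2) (q 3) ∈ K) : Addi f K (S.card + 3) := by
  obtain ⟨T, a, b⟩ := exists_subset_card_eq (show 3 ≤ Sᶜ.card by rw [card_compl]; omega)
  obtain ⟨x, y, z, n1, n2, n3, rfl⟩ := card_eq_three.1 b
  simp only [insert_subset_iff, singleton_subset_iff, mem_compl] at a
  have k4 : ∀ a b c d, a ∉ S → b ∉ S → c ∉ S → d ∉ S → a ≠ b → a ≠ c → a ≠ d → b ≠ c → b ≠ d →
      c ≠ d → alt f a b c d ∈ K := fun a b c d _ _ _ _ _ _ _ _ _ _ =>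
    h ![a, b, c, d] (fun i j => by fin_cases i <;> fin_cases j <;> simp <;> grind)
      fun i => by fin_cases i <;> simpa
  refine ⟨S ∪ {x, y, z}, (card_union_le _ _).trans (by omega), fun v => f s(y, v),
    f s(x, z) - f s(y, z) - f s(x, y), fun v hv w hw n => ?_⟩
  simp only [mem_union, mem_insert, mem_singleton, not_or] at hv hw
  have h1 := k4 v x w y hv.1 a.1 hw.1 a.2.1 hv.2.1 n hv.2.2.1 (Ne.symm hw.2.1) n1 hw.2.2.1
  have h2 := k4 x y w z a.1 a.2.1 hw.1 a.2.2 n1 (Ne.symm hw.2.1) n2 (Ne.symm hw.2.2.1) n3 hw.2.2.2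
  convert K.add_mem h1 h2 using 1
  simp only [alt, Sym2.eq_swap (a := v) (b := y)]
  ring

lemma QC {V X : Type} [Fintype V] (G : SimpleGraph V) (f : Sym2 X → ZMod k) (φ : V → X)
    (π : Equiv.Perm V) : Q (ind G (ZMod k)) (fun e => f (e.map φ)) π =
      ∑ e ∈ G.edgeFinset, f (e.map (φ ∘ π)) := by
  simp only [Q, ind, ite_mul, one_mul, zero_mul, Sym2.map_map, ← SimpleGraph.mem_edgeFinset,
    sum_ite_mem, univ_inter]

lemma sum_deg {V : Type} [Fintype V] (G : SimpleGraph V) (g : V → ZMod k) :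
    ∑ e ∈ G.edgeFinset, ∑ v ∈ univ.filter (· ∈ e), g v = ∑ v, (G.degree v : ZMod k) * g v := by
  rw [sum_comm' (t' := univ) (s' := fun v => G.incidenceFinset v) fun e v => by
    simp [SimpleGraph.incidenceSet]]
  simp

lemma caseC (k : ℕ) [NeZero k] (H : AddSubgroup (ZMod k)) : ∀ s : ℕ, ∃ c,
    ∀ (V X : Type) [Fintype V] [Fintype X] (G : SimpleGraph V) (f : Sym2 X → ZMod k)
    (p : J k → Fin 4 → V), (∀ i c j d, p i c = p j d → i = j ∧ c = d) →
    (∀ i, (∀ c, k * (4 * Fintype.card (J k)) ≤ (univ.filter fun w =>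
      (G.degree w : ZMod k) = G.degree (p i c)).card) ∧
      (G.degree (p i 0) : ZMod k) = G.degree (p i 1) ∧
      (G.degree (p i 2) : ZMod k) = G.degree (p i 3) ∧
      IsUnit (alt (ind G (ZMod k)) (p i 0) (p i 1) (p i 2) (p i 3))) →
    (∀ i j, i ≠ j → alt (ind G (ZMod k)) (p i 0) (p i 1) (p j 0) (p j 1) = 0 ∧
      alt (ind G (ZMod k)) (p i 0) (p i 1) (p j 2) (p j 3) = 0) →
    k ∣ G.edgeFinset.card → Fintype.card V + c ≤ Fintype.card X → Addi f H s → Z G f := by
  induction H using WellFoundedLT.induction with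
  | _ H ih =>
  intro s
  have hk0 := NeZero.pos k
  obtain ⟨m, hm⟩ : ∃ m, m = Fintype.card (J k) := ⟨_, rfl⟩
  have hI : Fintype.card (IH H) ≤ m := hm ▸ Fintype.card_le_of_injective _ ι_inj
  rw [← hm] at ih ⊢
  obtain ⟨L, hL⟩ : ∃ L, L = k * (4 * m) + k * k + s + 4 * m := ⟨_, rfl⟩
  choose cH hc using fun H' : {H' // H' < H} => ih H'.1 H'.2 (s + L * k + 4 * m + 3)
  refine ⟨univ.sup cH + L * k + k * k + L + s + 4 * m + 3, ?_⟩
  rintro V X _ _ G f p a1 a2 a3 a6 a7 ⟨S, a8, g, a, a9⟩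
  have : Nonempty X := Fintype.card_pos_iff.1 (by omega)
  by_cases h1 : ∃ H' : {H' // H' < H}, Addi f H'.1 (s + L * k + 4 * m + 3)
  · obtain ⟨H', h1⟩ := h1
    exact hc H' V X G f p a1 a2 a3 a6 (by have := le_sup (f := cH) (mem_univ H'); omega) h1
  have a10 := small g L
  rw [ZMod.card] at a10
  obtain ⟨q, p1, p2, -⟩ := greedy (I := IH H) (fun i q => (∀ c, q c ∉ S ∧
      L ≤ (univ.filter fun w => g w = g (q c)).card) ∧ alt f (q 0) (q 1) (q 2) (q 3) ∉ i.1.1)
      (fun _ _ => True) fun S' hS i => by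
    by_contra hn
    have h2 : (S' ∪ (S ∪ univ.filter fun v => (univ.filter fun w => g w = g v).card < L)).card ≤
        s + L * k + 4 * m := (card_union_le _ _).trans (by
      have := card_union_le S (univ.filter fun v => (univ.filter fun w => g w = g v).card < L)
      omega)
    obtain ⟨T, t1, t2⟩ := addL f i.1.1 _ ((Nat.add_le_add_right h2 3).trans (by omega))
      fun q q1 q2 => by_contra fun h => hn ⟨q, q1, fun c => by
        have := q2 c; simp only [mem_union, not_or] at this; exact this.1, ⟨fun c => by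
        have := q2 c; simpa using (show _ ∧ _ by simpa using this).2, h⟩, by simp⟩
    exact h1 ⟨i.1, T, by omega, t2⟩
  let u : IH H × Fin 4 → V := fun z => p (ι z.1) z.2
  let y : IH H × Fin 4 → X := fun z => q z.1 z.2
  have uw : Function.Injective u := fun a b e =>
    Prod.ext (ι_inj (a1 _ _ _ _ e).1) (a1 _ _ _ _ e).2
  have y2 : Function.Injective y := fun a b e => Prod.ext (p1 _ _ _ _ e).1 (p1 _ _ _ _ e).2
  obtain ⟨b0, hb⟩ := large g L (by rw [ZMod.card]; omega)
  have g0 : Fintype.card (IH H × Fin 4) ≤ 4 * m := by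
    simp only [Fintype.card_prod (IH H), Fintype.card_fin]; omega
  have g1 : (univ.image y).card ≤ 4 * m := card_image_le.trans g0
  obtain ⟨B0, b1, b2⟩ := exists_subset_card_eq (show k * k ≤ ((univ.filter fun w =>
    g w = b0) \ (S ∪ univ.image y)).card from
    le_trans (by have := card_union_le S (univ.image y); omega) (le_card_sdiff _ _))
  have b3 : ∀ x ∈ B0, g x = b0 ∧ x ∉ S ∧ ∀ z, y z ≠ x := fun x hx => by simpa using b1 hx
  have d1 : (S ∪ B0).card ≤ s + k * k := (card_union_le _ _).trans (by omega)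
  have d3 := Nat.mul_le_mul_left k ((card_image_le (s := univ) (f := u)).trans g0)
  obtain ⟨φ, q1, q2, q3, q4⟩ := PP k hk0 (fun v => (G.degree v : ZMod k)) g b0 B0
    (by rw [ZMod.card]; omega) (fun x hx => (b3 x hx).1)
    (Function.extend u y fun _ => Classical.arbitrary X) _ univ (S ∪ B0)ᶜ
    (univ.image u) rfl (subset_univ _) (by
      simp only [coe_image, coe_univ, Set.image_univ]
      rintro _ ⟨a, rfl⟩ _ ⟨b, rfl⟩ e
      rw [uw.extend_apply, uw.extend_apply] at e
      rw [y2 e]) (by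
      simp only [mem_image, mem_univ, true_and]
      rintro _ ⟨a, rfl⟩
      rw [uw.extend_apply, mem_compl, mem_union, not_or]
      exact ⟨((p2 a.1).1 a.2).1, fun h => (b3 _ h).2.2 a rfl⟩)
    (disjoint_of_subset_right subset_union_right disjoint_compl_left) (by
      rw [card_compl, card_univ, ZMod.card]
      omega) (by
      intro v hv
      obtain ⟨a, -, rfl⟩ := mem_image.1 hv
      rw [uw.extend_apply]
      refine ⟨d3.trans ((a2 _).1 _), ?_⟩
      have : L ≤ (univ.filter fun w => g w = g (y a)).card := ((p2 a.1).1 a.2).2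
      have := le_card_sdiff (S ∪ B0) (univ.filter fun x => g x = g (y a))
      rw [show (S ∪ B0)ᶜ.filter (fun x => g x = g (y a)) =
        (univ.filter fun x => g x = g (y a)) \ (S ∪ B0) by ext; simp; tauto]
      omega)
  have q5 : Function.Injective φ := by simpa using q1
  have q6 : ∀ i c, φ (p (ι i) c) = q i c := fun i c => by
    rw [q3 (u (i, c)) (mem_image_of_mem _ (mem_univ _)), uw.extend_apply]
  have q7 : ∀ v, φ v ∉ S := fun v h => by
    rcases mem_union.1 (q2 v (mem_univ v)) with h' | h'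
    exacts [mem_compl.1 h' (mem_union_left _ h), (b3 _ h').2.1 h]
  have fo : ∀ π : Equiv.Perm V, Q (ind G (ZMod k)) (fun e => f (e.map φ)) π -
      ∑ v, (G.degree v : ZMod k) * g (φ (π v)) ∈ H := by
    intro π
    rw [QC, ← sum_deg, ← fin a6 _ a, ← sum_sub_distrib]
    refine H.sum_mem fun z hz => ?_
    induction z using Sym2.ind with
    | _ v w =>
      have n : v ≠ w := (by simpa using hz : G.Adj v w).ne
      rw [show univ.filter (· ∈ s(v, w)) = {v, w} by ext; simp, sum_pair n]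
      convert a9 _ (q7 (π v)) _ (q7 (π w)) ((q5.comp π.injective).ne n) using 1
      simp only [Sym2.map_mk, Function.comp]
      ring
  have sw : ∀ (π : Equiv.Perm V) x x', (G.degree x : ZMod k) = G.degree x' →
      Q (ind G (ZMod k)) (fun e => f (e.map φ)) (π * Equiv.swap x x') -
      Q (ind G (ZMod k)) (fun e => f (e.map φ)) π ∈ H := by
    intro π x x' e
    have h := H.sub_mem (fo (π * Equiv.swap x x')) (fo π)
    rwa [← Equiv.sum_comp (Equiv.swap x x') fun v => (G.degree v : ZMod k) * g (φ (π v)),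
      sum_congr rfl fun v _ => show (G.degree (Equiv.swap x x' v) : ZMod k) *
        g (φ (π (Equiv.swap x x' v))) = G.degree v * g (φ ((π * Equiv.swap x x') v)) by
        exact congrArg₂ _ (Equiv.apply_swap_eq_self (v := fun v => (G.degree v : ZMod k)) e v) rfl,
      sub_sub_sub_cancel_right] at h
  obtain ⟨π, hπ⟩ := ST (ind G (ZMod k)) (fun e => f (e.map φ)) H
    (fun i : IH H => i.1.1) (fun i => p (ι i))
    (fun i c j d e => ⟨ι_inj (a1 _ _ _ _ e).1, (a1 _ _ _ _ e).2⟩)
    (fun i j n => a3 _ _ (ι_inj.ne n)) (fun i h => by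
      obtain ⟨w, hw⟩ := (a2 (ι i)).2.2.2.exists_left_inv
      have := i.1.1.nsmul_mem h w.val
      rw [nsmul_eq_mul, ZMod.natCast_zmod_val, ← mul_assoc, hw, one_mul] at this
      exact (p2 i).2 (by simpa [alt, q6] using this))
    (fun π i => ⟨sw π _ _ (a2 _).2.1, sw π _ _ (a2 _).2.2.1⟩) (hK H) (by
      obtain ⟨S', s1, s2⟩ := hd_of q4
      obtain ⟨z, hz⟩ := LL k (fun v => ((G.degree v : ZMod k), g (φ v))) S'
        (fun v => (G.degree v : ZMod k) * (g (φ v) - b0)) (fun v _ w _ e => by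
          rw [(Prod.mk.inj e).1, (Prod.mk.inj e).2]) s2
      rw [hk, sum_subset (subset_univ _) fun v _ hv => by
        simp only [s1, mem_univ, true_and, not_not] at hv
        simp [hv]] at hz
      obtain ⟨c, hc⟩ := a6
      simp only [mul_sub, sum_sub_distrib, ← sum_mul, ← Nat.cast_sum,
        G.sum_degrees_eq_twice_card_edges, hc] at hz
      have h := fo 1
      simp only [Equiv.Perm.one_apply] at h
      rwa [show ∑ v, (G.degree v : ZMod k) * g (φ v) = 0 by simpa using hz, sub_zero] at h)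
  exact ⟨⟨_, q5.comp π.injective⟩, by rw [← hπ, QC]; rfl⟩

theorem main (k : ℕ) [NeZero k] : ∃ c, ∀ (V X : Type) [Fintype V] [Fintype X] (G : SimpleGraph V)
    (f : Sym2 X → ZMod k), k ∣ G.edgeFinset.card → Fintype.card V + c ≤ Fintype.card X →
    Z G f := by
  obtain ⟨m, hm⟩ : ∃ m, m = Fintype.card (J k) := ⟨_, rfl⟩
  obtain ⟨r, hr⟩ := DL (C := ZMod 2) (k * (4 * m) * k) k m
  obtain ⟨c1, h1⟩ := caseA k (2 * k * (2 * m) * r)
  obtain ⟨c2, h2⟩ := caseB k r ⊤ 1
  obtain ⟨c3, h3⟩ := caseC k ⊤ 0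
  refine ⟨c1 + c2 + c3, fun V X _ _ G f a1 a2 => ?_⟩
  rcases hr V (ZMod k) (J k) (ind G (ZMod 2)) (fun v => (G.degree v : ZMod k)) _ (fun _ => ⊥)
    ((small (fun v => (G.degree v : ZMod k)) (k * (4 * m))).trans_eq (by rw [ZMod.card])) (ZMod.card k).le hm.ge with
    ⟨-, T, _, t1, τ, t2⟩ | ⟨p, p1, p2, p3⟩
  · by_cases h : ∀ u v, G.Adj u v → (univ.filter fun w => τ w = τ u).card < 2 * k * (2 * m) ∨
        (univ.filter fun w => τ w = τ v).card < 2 * k * (2 * m)
    · exact h1 V X G f _ ((small τ _).trans (Nat.mul_le_mul_left _ t1)) (by simpa using h) a1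
        (by omega)
    · push Not at h
      exact h2 V X T G f τ t1 t2 (hm ▸ h) a1 (by omega)
        ⟨Unit, inferInstance, by simp, fun _ => (), fun _ _ _ _ _ _ => trivial⟩
  · have cv : ∀ e e', ind G (ZMod 2) e = ind G (ZMod 2) e' →
        ind G (ZMod k) e = ind G (ZMod k) e' := fun e e' => by
      simp only [ind]
      split_ifs <;> simp
    refine h3 V X G f p p1 (fun i => ⟨fun c => by simpa [hm] using (p2 i).1 c, (p2 i).2.1,
      (p2 i).2.2.1, ?_⟩) (fun i j n => cross_of ((p3 i j n).imp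
        (fun h c => ⟨cv _ _ (h c).1, cv _ _ (h c).2⟩) fun h c => ⟨cv _ _ (h c).1, cv _ _ (h c).2⟩))
      a1 (by omega) ⟨∅, by simp, 0, 0, fun _ _ _ _ _ => trivial⟩
    have := (p2 i).2.2.2
    simp only [alt, ind, AddSubgroup.mem_bot] at this ⊢
    split_ifs at this ⊢ <;> first | exact absurd (by decide) this | simp

end Pool.Agent.H14.Zs
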